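import Mathlib

/-! Parts: Lib_helper68.Exact.Stars, Lib_helper68.Exact.Blocks, Lib_helper68.Exact.Even, Lib_helper68.Exact.Frame -/

section

/-!
# Partitions of connected graphs into induced stars

Every connected graph has a partition into induced stars with at least one leaf, or each of its
vertex deleted subgraphs has a perfect matching.
-/

set_option autoImplicit false

namespace Pool.Agent.Exact

open Finset

variable {V : Type*} [DecidableEq V]

/-- `S` has a partition into induced stars with at least one leaf. -/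
inductive StarCover (G : V → V → Prop) : Finset V → Prop
  | empty : StarCover G ∅
  | cons (S : Finset V) (c : V) (L : Finset V) : StarCover G S → c ∉ S → c ∉ L → Disjoint L S →
      L.Nonempty → (∀ l ∈ L, G c l) → (∀ l ∈ L, ∀ l' ∈ L, ¬ G l l') →
      StarCover G (S ∪ insert c L)

/-- `S` has a perfect matching. -/
inductive PMatch (G : V → V → Prop) : Finset V → Prop
  | empty : PMatch G ∅
  | cons (S : Finset V) (u v : V) : PMatch G S → u ∉ S → v ∉ S → u ≠ v → G u v →
      PMatch G (S ∪ {u, v})

/-- connectedness in terms of cuts -/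
def Conn (G : V → V → Prop) (S : Finset V) : Prop :=
  ∀ T ⊆ S, T.Nonempty → T ≠ S → ∃ u ∈ T, ∃ v ∈ S \ T, G u v

variable {G : V → V → Prop}

lemma StarCover.union {S T : Finset V} (hS : StarCover G S) (hT : StarCover G T)
    (h : Disjoint S T) : StarCover G (S ∪ T) := by
  induction hS with
  | empty => simpa using hT
  | cons S c L hS hcS hcL hLS hL h1 h2 ih =>
    rw [Finset.disjoint_union_left, Finset.disjoint_insert_left] at h
    have e : S ∪ insert c L ∪ T = (S ∪ T) ∪ insert c L := by
      ext x; simp only [Finset.mem_union, Finset.mem_insert]; grind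
    rw [e]
    refine StarCover.cons _ c L (ih h.1) ?_ hcL ?_ hL h1 h2
    · simp only [Finset.mem_union, not_or]
      exact ⟨hcS, h.2.1⟩
    · rw [Finset.disjoint_union_right]
      exact ⟨hLS, h.2.2⟩

lemma StarCover.star (c : V) (L : Finset V) (hc : c ∉ L) (hL : L.Nonempty)
    (h1 : ∀ l ∈ L, G c l) (h2 : ∀ l ∈ L, ∀ l' ∈ L, ¬ G l l') : StarCover G (insert c L) := by
  have := StarCover.cons ∅ c L StarCover.empty (by simp) hc (by simp) hL h1 h2
  simpa using this

lemma StarCover.pair {u v : V} (huv : u ≠ v) (h : G u v) (hirr : ∀ x, ¬ G x x) :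
    StarCover G {u, v} := by
  have := StarCover.star (G := G) u {v} (by simpa using huv) (by simp) (by simpa using h)
    (by simpa using hirr v)
  exact this

/-- extracting the block of a vertex -/
lemma StarCover.exists_block {S : Finset V} (hS : StarCover G S) {y : V} (hy : y ∈ S) :
    ∃ (T : Finset V) (c : V) (L : Finset V), StarCover G T ∧ c ∉ T ∧ c ∉ L ∧ Disjoint L T ∧
      L.Nonempty ∧ (∀ l ∈ L, G c l) ∧ (∀ l ∈ L, ∀ l' ∈ L, ¬ G l l') ∧ S = T ∪ insert c L ∧
      (y = c ∨ y ∈ L) := by
  induction hS with
  | empty => simp at hy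
  | cons S c L hS hcS hcL hLS hL h1 h2 ih =>
    by_cases hyB : y = c ∨ y ∈ L
    · exact ⟨S, c, L, hS, hcS, hcL, hLS, hL, h1, h2, rfl, hyB⟩
    · push Not at hyB
      have hyS : y ∈ S := by
        simp only [Finset.mem_union, Finset.mem_insert] at hy
        grind
      obtain ⟨T, c', L', hT, hc'T, hc'L, hLT, hL', h1', h2', hSe, hy'⟩ := ih hyS
      have hc'S : c' ∈ S := by rw [hSe]; simp
      have hL'S : L' ⊆ S := by
        rw [hSe]
        intro x hx
        simp [hx]
      have hTS : T ⊆ S := by rw [hSe]; exact Finset.subset_union_left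
      refine ⟨T ∪ insert c L, c', L', ?_, ?_, hc'L, ?_, hL', h1', h2', ?_, hy'⟩
      · refine StarCover.cons T c L hT (fun h => hcS (hTS h)) hcL ?_ hL h1 h2
        exact Finset.disjoint_of_subset_right hTS hLS
      · simp only [Finset.mem_union, Finset.mem_insert, not_or]
        refine ⟨hc'T, fun h => hcS (h ▸ hc'S), fun h => ?_⟩
        exact (Finset.disjoint_left.1 hLS h) hc'S
      · rw [Finset.disjoint_union_right, Finset.disjoint_insert_right]
        refine ⟨hLT, fun h => hcS (hL'S h), ?_⟩
        exact (Finset.disjoint_of_subset_right hL'S hLS).symm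
      · rw [hSe]
        ext x
        simp only [Finset.mem_union, Finset.mem_insert]
        grind

/-- Adding a vertex adjacent to a leaf of a star with another leaf. -/
lemma StarCover.aug_leaf (hirr : ∀ x, ¬ G x x) {S : Finset V} {u : V} (hu : u ∉ S)
    (T : Finset V) (c : V) (L : Finset V) (hT : StarCover G T) (hcT : c ∉ T) (hcL : c ∉ L)
    (hLT : Disjoint L T) (h1 : ∀ l ∈ L, G c l) (h2 : ∀ l ∈ L, ∀ l' ∈ L, ¬ G l l')
    (hSe : S = T ∪ insert c L) (l : V) (hl : l ∈ L) (hul : G u l) (hl' : ∃ l' ∈ L, l' ≠ l) :
    StarCover G (insert u S) := by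
  obtain ⟨l', hl', hne⟩ := hl'
  have hlc : l ≠ c := fun e => hcL (e ▸ hl)
  have huS : ∀ x, x ∈ S → x ≠ u := fun x hx e => hu (e ▸ hx)
  have hlS : l ∈ S := by rw [hSe]; simp [hl]
  have hA : StarCover G (T ∪ insert c (L.erase l)) :=
    StarCover.cons T c (L.erase l) hT hcT (fun h => hcL (Finset.mem_of_mem_erase h))
      (Finset.disjoint_of_subset_left (Finset.erase_subset _ _) hLT)
      ⟨l', Finset.mem_erase.2 ⟨hne, hl'⟩⟩ (fun x hx => h1 x (Finset.mem_of_mem_erase hx))
      (fun x hx x' hx' => h2 x (Finset.mem_of_mem_erase hx) x' (Finset.mem_of_mem_erase hx'))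
  have hB : StarCover G {u, l} := StarCover.pair (fun e => huS l hlS e.symm) hul hirr
  have hd : Disjoint (T ∪ insert c (L.erase l)) {u, l} := by
    rw [Finset.disjoint_right]
    intro x hx hx'
    simp only [Finset.mem_insert, Finset.mem_singleton] at hx
    rcases hx with rfl | rfl
    · apply hu
      rw [hSe]
      simp only [Finset.mem_union, Finset.mem_insert, Finset.mem_erase] at hx' ⊢
      grind
    · simp only [Finset.mem_union, Finset.mem_insert, Finset.mem_erase] at hx'
      rcases hx' with hx' | hx' | hx'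
      · exact Finset.disjoint_left.1 hLT hl hx'
      · exact hlc hx'
      · exact hx'.1 rfl
  have e : insert u S = (T ∪ insert c (L.erase l)) ∪ {u, l} := by
    rw [hSe]
    ext x
    simp only [Finset.mem_union, Finset.mem_insert, Finset.mem_erase, Finset.mem_singleton]
    by_cases hx : x = l
    · subst hx; simp [hl]
    · simp only [hx, or_false]
      grind
  rw [e]
  exact hA.union hB hd

/-- Adding a vertex adjacent to the centre of a star but to no leaf. -/
lemma StarCover.aug_center (hsym : ∀ x y, G x y → G y x) (hirr : ∀ x, ¬ G x x) {S : Finset V}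
    {u : V} (hu : u ∉ S) (T : Finset V) (c : V) (L : Finset V) (hT : StarCover G T)
    (hcT : c ∉ T) (hcL : c ∉ L) (hLT : Disjoint L T) (h1 : ∀ l ∈ L, G c l)
    (h2 : ∀ l ∈ L, ∀ l' ∈ L, ¬ G l l') (hSe : S = T ∪ insert c L) (h : G u c)
    (hleaf : ∀ l ∈ L, ¬ G u l) : StarCover G (insert u S) := by
  have e : insert u S = T ∪ insert c (insert u L) := by
    rw [hSe]
    ext x
    simp only [Finset.mem_union, Finset.mem_insert]
    grind
  rw [e]
  have huT : u ∉ T := fun h => hu (by rw [hSe]; simp [h])
  have huc : u ≠ c := fun e => hu (by rw [hSe, e]; simp)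
  refine StarCover.cons T c (insert u L) hT hcT ?_ ?_ (by simp) ?_ ?_
  · simp only [Finset.mem_insert, not_or]
    exact ⟨fun e => huc e.symm, hcL⟩
  · rw [Finset.disjoint_insert_left]
    exact ⟨huT, hLT⟩
  · intro l hl
    simp only [Finset.mem_insert] at hl
    rcases hl with rfl | hl
    · exact hsym _ _ h
    · exact h1 l hl
  · intro l hl l' hl'
    simp only [Finset.mem_insert] at hl hl'
    rcases hl with rfl | hl <;> rcases hl' with rfl | hl'
    · exact hirr _
    · exact hleaf l' hl'
    · exact fun h => hleaf l hl (hsym _ _ h)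
    · exact h2 l hl l' hl'

/-- Adding a vertex adjacent to a star with at least two leaves. -/
lemma StarCover.aug_big (hsym : ∀ x y, G x y → G y x) (hirr : ∀ x, ¬ G x x) {S : Finset V}
    {u y : V} (hu : u ∉ S) (T : Finset V) (c : V) (L : Finset V) (hT : StarCover G T)
    (hcT : c ∉ T) (hcL : c ∉ L) (hLT : Disjoint L T) (h1 : ∀ l ∈ L, G c l)
    (h2 : ∀ l ∈ L, ∀ l' ∈ L, ¬ G l l') (hSe : S = T ∪ insert c L) (hL2 : 2 ≤ L.card)
    (hy : y = c ∨ y ∈ L) (h : G u y) : StarCover G (insert u S) := by
  have hother : ∀ l ∈ L, ∃ l' ∈ L, l' ≠ l := by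
    intro l hl
    obtain ⟨l', hl', hne⟩ := Finset.exists_mem_ne (by omega : 1 < L.card) l
    exact ⟨l', hl', hne⟩
  rcases hy with rfl | hy
  · by_cases hleaf : ∃ l ∈ L, G u l
    · obtain ⟨l, hl, hul⟩ := hleaf
      exact StarCover.aug_leaf hirr hu T y L hT hcT hcL hLT h1 h2 hSe l hl hul (hother l hl)
    · push Not at hleaf
      exact StarCover.aug_center hsym hirr hu T y L hT hcT hcL hLT h1 h2 hSe h hleaf
  · exact StarCover.aug_leaf hirr hu T c L hT hcT hcL hLT h1 h2 hSe y hy h (hother y hy)

/-- Adding a vertex adjacent to one end of a block with two vertices. -/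
lemma StarCover.aug_pair (hsym : ∀ x y, G x y → G y x) (hirr : ∀ x, ¬ G x x) {S : Finset V}
    {u : V} (hu : u ∉ S) (T : Finset V) (a b : V) (hT : StarCover G T) (haT : a ∉ T)
    (hbT : b ∉ T) (hab : a ≠ b) (hG : G a b) (hSe : S = T ∪ {a, b}) (hua : G u a) :
    StarCover G (insert u S) ∨
      (G u b ∧ StarCover G (T ∪ {u, b}) ∧ (insert u S).erase a = T ∪ {u, b}) := by
  have huT : u ∉ T := fun h => hu (by rw [hSe]; simp [h])
  have hua' : u ≠ a := fun e => hu (by rw [hSe, e]; simp)
  have hub' : u ≠ b := fun e => hu (by rw [hSe, e]; simp)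
  by_cases hub : G u b
  · right
    have e : (insert u S).erase a = T ∪ {u, b} := by
      rw [hSe]
      ext x
      simp only [Finset.mem_erase, Finset.mem_union, Finset.mem_insert, Finset.mem_singleton]
      constructor
      · rintro ⟨h1, h2⟩
        grind
      · intro h1
        refine ⟨?_, by grind⟩
        rintro rfl
        rcases h1 with h1 | h1 | h1
        · exact haT h1
        · exact hua' h1.symm
        · exact hab h1
    refine ⟨hub, ?_, e⟩
    refine hT.union (StarCover.pair hub' hub hirr) ?_
    rw [Finset.disjoint_right]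
    intro x hx hx'
    simp only [Finset.mem_insert, Finset.mem_singleton] at hx
    rcases hx with rfl | rfl
    · exact huT hx'
    · exact hbT hx'
  · left
    have e : insert u S = T ∪ insert a {u, b} := by
      rw [hSe]
      ext x
      simp only [Finset.mem_union, Finset.mem_insert, Finset.mem_singleton]
      grind
    rw [e]
    refine StarCover.cons T a {u, b} hT haT ?_ ?_ (by simp) ?_ ?_
    · simp only [Finset.mem_insert, Finset.mem_singleton, not_or]
      exact ⟨fun e => hua' e.symm, hab⟩
    · rw [Finset.disjoint_left]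
      intro x hx hx'
      simp only [Finset.mem_insert, Finset.mem_singleton] at hx
      rcases hx with rfl | rfl
      · exact huT hx'
      · exact hbT hx'
    · intro l hl
      simp only [Finset.mem_insert, Finset.mem_singleton] at hl
      rcases hl with rfl | rfl
      · exact hsym _ _ hua
      · exact hG
    · intro l hl l' hl'
      simp only [Finset.mem_insert, Finset.mem_singleton] at hl hl'
      rcases hl with rfl | rfl <;> rcases hl' with rfl | rfl
      · exact hirr _
      · exact hub
      · exact fun h => hub (hsym _ _ h)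
      · exact hirr _

/-- The augmentation step: `S` covered, `u` outside adjacent to `y ∈ S`.  Either `insert u S` is
covered or the uncovered vertex can be moved to `y`. -/
lemma StarCover.augment (hsym : ∀ x y, G x y → G y x) (hirr : ∀ x, ¬ G x x)
    {S : Finset V} (hS : StarCover G S) {u y : V} (hu : u ∉ S) (hy : y ∈ S) (h : G u y) :
    StarCover G (insert u S) ∨ StarCover G ((insert u S).erase y) := by
  obtain ⟨T, c, L, hT, hcT, hcL, hLT, hL, h1, h2, hSe, hyB⟩ := hS.exists_block hy
  by_cases hL2 : 2 ≤ L.card
  · exact Or.inl (StarCover.aug_big hsym hirr hu T c L hT hcT hcL hLT h1 h2 hSe hL2 hyB h)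
  · have hL1 : L.card = 1 := by
      have := hL.card_pos
      omega
    obtain ⟨l, rfl⟩ := Finset.card_eq_one.1 hL1
    have hlT : l ∉ T := fun h => Finset.disjoint_left.1 hLT (by simp) h
    have hlc : c ≠ l := by simpa using hcL
    have hG := h1 l (by simp)
    rcases hyB with rfl | hyL
    · rcases StarCover.aug_pair hsym hirr hu T y l hT hcT hlT hlc hG hSe h with h' | h'
      · exact Or.inl h'
      · right
        rw [h'.2.2]
        exact h'.2.1
    · have hyl : y = l := by simpa using hyL
      subst hyl
      have hSe' : S = T ∪ {y, c} := by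
        rw [hSe]
        congr 1
        exact Finset.pair_comm c y
      rcases StarCover.aug_pair hsym hirr hu T y c hT hlT hcT hlc.symm (hsym _ _ hG) hSe' h
        with h' | h'
      · exact Or.inl h'
      · right
        rw [h'.2.2]
        exact h'.2.1

/-- In a connected set without a star partition every vertex deleted set has one. -/
lemma StarCover.erase_of_conn (hsym : ∀ x y, G x y → G y x) (hirr : ∀ x, ¬ G x x)
    {S : Finset V} (hS : Conn G S) (hn : ¬ StarCover G S) :
    ∀ u ∈ S, StarCover G (S.erase u) := by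
  classical
  have hne : (S.powerset.filter (fun T => StarCover G T)).Nonempty :=
    ⟨∅, by simp [StarCover.empty]⟩
  obtain ⟨T, hT, hmax⟩ := Finset.exists_max_image _ Finset.card hne
  simp only [Finset.mem_filter, Finset.mem_powerset] at hT hmax
  obtain ⟨hTS, hTc⟩ := hT
  have hTne : T ≠ S := fun e => hn (e ▸ hTc)
  obtain ⟨v, hvS, hvT⟩ := Finset.exists_of_ssubset (Finset.ssubset_iff_subset_ne.2 ⟨hTS, hTne⟩)
  set W := insert v T with hW
  have hWS : W ⊆ S := Finset.insert_subset hvS hTS
  have hWc : W.card = T.card + 1 := Finset.card_insert_of_notMem hvT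
  have hWn : ¬ StarCover G W := by
    intro h
    have := hmax W ⟨hWS, h⟩
    omega
  set R := W.filter (fun u => StarCover G (W.erase u)) with hR
  have hRW : R ⊆ W := Finset.filter_subset _ _
  have hvR : v ∈ R := by
    rw [hR, Finset.mem_filter]
    refine ⟨by simp [hW], ?_⟩
    rw [hW, Finset.erase_insert hvT]
    exact hTc
  have hRS : R = S := by
    by_contra hRS
    obtain ⟨u, huR, y, hy, huy⟩ := hS R (hRW.trans hWS) ⟨v, hvR⟩ hRS
    rw [Finset.mem_sdiff] at hy
    have huR' := huR
    rw [hR, Finset.mem_filter] at huR'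
    obtain ⟨huW, huc⟩ := huR'
    have hney : y ≠ u := fun e => hy.2 (e ▸ huR)
    by_cases hyW : y ∈ W
    · have hyE : y ∈ W.erase u := Finset.mem_erase.2 ⟨hney, hyW⟩
      rcases huc.augment hsym hirr (Finset.notMem_erase u W) hyE huy with h' | h'
      · rw [Finset.insert_erase huW] at h'
        exact hWn h'
      · rw [Finset.insert_erase huW] at h'
        exact hy.2 (by rw [hR, Finset.mem_filter]; exact ⟨hyW, h'⟩)
    · have hd : Disjoint (W.erase u) {u, y} := by
        rw [Finset.disjoint_right]
        intro x hx hx'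
        simp only [Finset.mem_insert, Finset.mem_singleton] at hx
        rcases hx with rfl | rfl
        · exact Finset.notMem_erase x W hx'
        · exact hyW (Finset.mem_of_mem_erase hx')
      have h' := huc.union (StarCover.pair hney.symm huy hirr) hd
      have e : W.erase u ∪ {u, y} = insert y W := by
        ext x
        simp only [Finset.mem_union, Finset.mem_erase, Finset.mem_insert, Finset.mem_singleton]
        by_cases hx : x = u
        · subst hx; simp [huW]
        · simp only [ne_eq, hx, not_false_eq_true, true_and, false_or]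
          grind
      rw [e] at h'
      have := hmax (insert y W) ⟨Finset.insert_subset hy.1 hWS, h'⟩
      rw [Finset.card_insert_of_notMem hyW] at this
      omega
  have hWe : W = S := Finset.Subset.antisymm hWS (hRS ▸ hRW)
  intro u hu
  rw [← hRS, hR, Finset.mem_filter, hWe] at hu
  exact hu.2

/-! ### Perfect matchings -/

lemma PMatch.starCover (hirr : ∀ x, ¬ G x x) {S : Finset V} (h : PMatch G S) :
    StarCover G S := by
  induction h with
  | empty => exact StarCover.empty
  | cons S u v hS hu hv huv hG ih =>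
    refine ih.union (StarCover.pair huv hG hirr) ?_
    rw [Finset.disjoint_right]
    intro x hx hx'
    simp only [Finset.mem_insert, Finset.mem_singleton] at hx
    rcases hx with rfl | rfl
    · exact hu hx'
    · exact hv hx'

lemma PMatch.exists_pair (hsym : ∀ x y, G x y → G y x) {S : Finset V} (h : PMatch G S) {y : V}
    (hy : y ∈ S) : ∃ (T : Finset V) (z : V), PMatch G T ∧ y ∉ T ∧ z ∉ T ∧ y ≠ z ∧ G y z ∧
      S = T ∪ {y, z} := by
  induction h with
  | empty => simp at hy
  | cons S u v hS hu hv huv hG ih =>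
    simp only [Finset.mem_union, Finset.mem_insert, Finset.mem_singleton] at hy
    rcases hy with hy | rfl | rfl
    · obtain ⟨T, z, hT, hyT, hzT, hyz, hGyz, rfl⟩ := ih hy
      have hyS : y ∈ T ∪ {y, z} := by simp
      have hzS : z ∈ T ∪ {y, z} := by simp
      refine ⟨T ∪ {u, v}, z, ?_, ?_, ?_, hyz, hGyz, ?_⟩
      · exact PMatch.cons T u v hT (fun h => hu (by simp [h])) (fun h => hv (by simp [h])) huv hG
      · simp only [Finset.mem_union, Finset.mem_insert, Finset.mem_singleton, not_or]
        exact ⟨hyT, fun e => hu (e ▸ hyS), fun e => hv (e ▸ hyS)⟩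
      · simp only [Finset.mem_union, Finset.mem_insert, Finset.mem_singleton, not_or]
        exact ⟨hzT, fun e => hu (e ▸ hzS), fun e => hv (e ▸ hzS)⟩
      · ext x
        simp only [Finset.mem_union, Finset.mem_insert, Finset.mem_singleton]
        grind
    · exact ⟨S, v, hS, hu, hv, huv, hG, rfl⟩
    · refine ⟨S, u, hS, hv, hu, huv.symm, hsym _ _ hG, ?_⟩
      rw [Finset.pair_comm]

/-- covers by stars with at least two leaves -/
inductive BigCover (G : V → V → Prop) : Finset V → Prop
  | empty : BigCover G ∅
  | cons (S : Finset V) (c : V) (L : Finset V) : BigCover G S → c ∉ S → c ∉ L → Disjoint L S →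
      2 ≤ L.card → (∀ l ∈ L, G c l) → (∀ l ∈ L, ∀ l' ∈ L, ¬ G l l') →
      BigCover G (S ∪ insert c L)

lemma BigCover.starCover {S : Finset V} (h : BigCover G S) : StarCover G S := by
  induction h with
  | empty => exact StarCover.empty
  | cons S c L hS hcS hcL hLS hL h1 h2 ih =>
    exact StarCover.cons S c L ih hcS hcL hLS (Finset.card_pos.1 (by omega)) h1 h2

lemma BigCover.exists_block {S : Finset V} (hS : BigCover G S) {y : V} (hy : y ∈ S) :
    ∃ (T : Finset V) (c : V) (L : Finset V), BigCover G T ∧ c ∉ T ∧ c ∉ L ∧ Disjoint L T ∧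
      2 ≤ L.card ∧ (∀ l ∈ L, G c l) ∧ (∀ l ∈ L, ∀ l' ∈ L, ¬ G l l') ∧ S = T ∪ insert c L ∧
      (y = c ∨ y ∈ L) := by
  induction hS with
  | empty => simp at hy
  | cons S c L hS hcS hcL hLS hL h1 h2 ih =>
    by_cases hyB : y = c ∨ y ∈ L
    · exact ⟨S, c, L, hS, hcS, hcL, hLS, hL, h1, h2, rfl, hyB⟩
    · push Not at hyB
      have hyS : y ∈ S := by
        simp only [Finset.mem_union, Finset.mem_insert] at hy
        grind
      obtain ⟨T, c', L', hT, hc'T, hc'L, hLT, hL', h1', h2', hSe, hy'⟩ := ih hyS
      have hc'S : c' ∈ S := by rw [hSe]; simp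
      have hL'S : L' ⊆ S := by
        rw [hSe]
        intro x hx
        simp [hx]
      have hTS : T ⊆ S := by rw [hSe]; exact Finset.subset_union_left
      refine ⟨T ∪ insert c L, c', L', ?_, ?_, hc'L, ?_, hL', h1', h2', ?_, hy'⟩
      · refine BigCover.cons T c L hT (fun h => hcS (hTS h)) hcL ?_ hL h1 h2
        exact Finset.disjoint_of_subset_right hTS hLS
      · simp only [Finset.mem_union, Finset.mem_insert, not_or]
        refine ⟨hc'T, fun h => hcS (h ▸ hc'S), fun h => ?_⟩
        exact (Finset.disjoint_left.1 hLS h) hc'S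
      · rw [Finset.disjoint_union_right, Finset.disjoint_insert_right]
        refine ⟨hLT, fun h => hcS (hL'S h), ?_⟩
        exact (Finset.disjoint_of_subset_right hL'S hLS).symm
      · rw [hSe]
        ext x
        simp only [Finset.mem_union, Finset.mem_insert]
        grind

/-- splitting a star cover -/
lemma StarCover.split {S : Finset V} (h : StarCover G S) :
    ∃ A B : Finset V, PMatch G A ∧ BigCover G B ∧ Disjoint A B ∧ S = A ∪ B := by
  induction h with
  | empty => exact ⟨∅, ∅, PMatch.empty, BigCover.empty, by simp, by simp⟩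
  | cons S c L hS hcS hcL hLS hL h1 h2 ih =>
    obtain ⟨A, B, hA, hB, hAB, rfl⟩ := ih
    simp only [Finset.mem_union, not_or] at hcS
    rw [Finset.disjoint_union_right] at hLS
    by_cases hL2 : 2 ≤ L.card
    · refine ⟨A, B ∪ insert c L, hA, BigCover.cons B c L hB hcS.2 hcL hLS.2 hL2 h1 h2, ?_, ?_⟩
      · rw [Finset.disjoint_union_right, Finset.disjoint_insert_right]
        exact ⟨hAB, hcS.1, hLS.1.symm⟩
      · rw [Finset.union_assoc]
    · have hL1 : L.card = 1 := by
        have := hL.card_pos
        omega
      obtain ⟨l, rfl⟩ := Finset.card_eq_one.1 hL1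
      have hlA : l ∉ A := fun h => Finset.disjoint_left.1 hLS.1 (by simp) h
      have hlB : l ∉ B := fun h => Finset.disjoint_left.1 hLS.2 (by simp) h
      refine ⟨A ∪ {c, l}, B, PMatch.cons A c l hA hcS.1 hlA (by simpa using hcL)
        (h1 l (by simp)), hB, ?_, ?_⟩
      · rw [Finset.disjoint_union_left, Finset.disjoint_insert_left,
          Finset.disjoint_singleton_left]
        exact ⟨hAB, hcS.2, hlB⟩
      · ext x
        simp only [Finset.mem_union, Finset.mem_insert, Finset.mem_singleton]
        grind

/-- **Lemma D.** A connected set has a partition into induced stars with at least one leaf, or all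
vertex deleted subsets have a perfect matching. -/
theorem starCover_or_pmatch (hsym : ∀ x y, G x y → G y x) (hirr : ∀ x, ¬ G x x)
    {S : Finset V} (hS : Conn G S) :
    StarCover G S ∨ ∀ v ∈ S, PMatch G (S.erase v) := by
  classical
  by_cases hn : StarCover G S
  · exact Or.inl hn
  · right
    intro v hv
    obtain ⟨A, B, hA, hB, hAB, hSe⟩ :=
      (StarCover.erase_of_conn hsym hirr hS hn v hv).split
    by_cases hB0 : B = ∅
    · subst hB0
      rw [hSe, Finset.union_empty]
      exact hA
    · exfalso
      have hBS : B ⊆ S := by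
        intro x hx
        have : x ∈ S.erase v := by rw [hSe]; simp [hx]
        exact Finset.mem_of_mem_erase this
      have hvB : v ∉ B := by
        intro h
        have : v ∈ S.erase v := by rw [hSe]; simp [h]
        exact Finset.notMem_erase v S this
      set W := S \ B with hW
      set R := W.filter (fun u => PMatch G (W.erase u)) with hR
      have hRW : R ⊆ W := Finset.filter_subset _ _
      have hWS : W ⊆ S := Finset.sdiff_subset
      have hvR : v ∈ R := by
        rw [hR, Finset.mem_filter]
        refine ⟨by simp [hW, hv, hvB], ?_⟩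
        have e : W.erase v = A := by
          ext x
          have h1 : x ∈ S.erase v ↔ x ∈ A ∪ B := by rw [hSe]
          simp only [Finset.mem_erase, Finset.mem_union] at h1
          simp only [hW, Finset.mem_erase, Finset.mem_sdiff]
          have h2 : x ∈ A → x ∉ B := fun h => Finset.disjoint_left.1 hAB h
          grind
        rw [e]
        exact hA
      have hRS : R ≠ S := by
        intro e
        obtain ⟨b, hb⟩ := Finset.nonempty_iff_ne_empty.2 hB0
        have : b ∈ W := hRW (e ▸ hBS hb)
        simp [hW, hb] at this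
      obtain ⟨u, huR, y, hy, huy⟩ := hS R (hRW.trans hWS) ⟨v, hvR⟩ hRS
      rw [Finset.mem_sdiff] at hy
      have huR' := huR
      rw [hR, Finset.mem_filter] at huR'
      obtain ⟨huW, huc⟩ := huR'
      have huS : u ∈ S := hWS huW
      have huB : u ∉ B := by
        rw [hW, Finset.mem_sdiff] at huW
        exact huW.2
      have hney : y ≠ u := fun e => hy.2 (e ▸ huR)
      by_cases hyB : y ∈ B
      · obtain ⟨T, c, L, hT, hcT, hcL, hLT, hL2, h1, h2, hBe, hyL⟩ := hB.exists_block hyB
        have hd : Disjoint (W.erase u) B := by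
          rw [Finset.disjoint_left]
          intro x hx hx'
          simp only [hW, Finset.mem_erase, Finset.mem_sdiff] at hx
          exact hx.2.2 hx'
        have hTB : T ⊆ B := by rw [hBe]; exact Finset.subset_union_left
        have hcB : c ∈ B := by rw [hBe]; simp
        have hLB : L ⊆ B := by
          rw [hBe]
          intro x hx
          simp [hx]
        have hT' : StarCover G (W.erase u ∪ T) :=
          (huc.starCover hirr).union hT.starCover (Finset.disjoint_of_subset_right hTB hd)
        have hfin := StarCover.aug_big hsym hirr (S := S.erase u) (u := u) (y := y)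
          (Finset.notMem_erase u S) (W.erase u ∪ T) c L hT' (by
            simp only [Finset.mem_union, not_or]
            exact ⟨fun h => Finset.disjoint_left.1 hd h hcB, hcT⟩) hcL (by
            rw [Finset.disjoint_union_right]
            exact ⟨(Finset.disjoint_of_subset_right hLB hd).symm, hLT⟩) h1 h2 (by
            ext x
            have hx : x ∈ B ↔ x ∈ T ∪ insert c L := by rw [← hBe]
            simp only [Finset.mem_union, Finset.mem_insert] at hx
            simp only [hW, Finset.mem_erase, Finset.mem_union, Finset.mem_sdiff,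
              Finset.mem_insert]
            have h3 : x ∈ B → x ∈ S := fun h => hBS h
            have h4 : x ∈ B → x ≠ u := fun h e => huB (e ▸ h)
            grind) hL2 hyL huy
        rw [Finset.insert_erase huS] at hfin
        exact hn hfin
      · have hyW : y ∈ W := by
          rw [hW, Finset.mem_sdiff]
          exact ⟨hy.1, hyB⟩
        have hyE : y ∈ W.erase u := Finset.mem_erase.2 ⟨hney, hyW⟩
        obtain ⟨T, z, hT, hyT, hzT, hyz, hGyz, hTe⟩ := huc.exists_pair hsym hyE
        have hzW : z ∈ W.erase u := by rw [hTe]; simp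
        have hzu : z ≠ u := (Finset.mem_erase.1 hzW).1
        have huT : u ∉ T := by
          intro h
          have : u ∈ W.erase u := by rw [hTe]; simp [h]
          exact Finset.notMem_erase u W this
        have hTW : T ⊆ W := by
          intro x hx
          have : x ∈ W.erase u := by rw [hTe]; simp [hx]
          exact Finset.mem_of_mem_erase this
        have hBW : Disjoint B W := by
          rw [hW]
          exact Finset.disjoint_sdiff
        have hWu : ∀ x, x ∈ W ↔ (x = u ∨ x ∈ T ∨ x = y ∨ x = z) := by
          intro x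
          have h3 : x ∈ W.erase u ↔ x ∈ T ∪ {y, z} := by rw [hTe]
          simp only [Finset.mem_erase, Finset.mem_union, Finset.mem_insert,
            Finset.mem_singleton] at h3
          by_cases hxu : x = u
          · subst hxu; simp [huW]
          · simp only [hxu, false_or]
            constructor
            · intro h
              exact h3.1 ⟨hxu, h⟩
            · intro h
              exact (h3.2 h).2
        by_cases huz : G u z
        · -- move the hole to `y`
          apply hy.2
          rw [hR, Finset.mem_filter]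
          refine ⟨hyW, ?_⟩
          have e : W.erase y = T ∪ {u, z} := by
            ext x
            simp only [Finset.mem_erase, Finset.mem_union, Finset.mem_insert,
              Finset.mem_singleton, hWu x]
            constructor
            · rintro ⟨h1, h2⟩
              grind
            · intro h1
              refine ⟨?_, by grind⟩
              rintro rfl
              rcases h1 with h1 | h1 | h1
              · exact hyT h1
              · exact hney h1
              · exact hyz h1
          rw [e]
          exact PMatch.cons T u z hT huT hzT hzu.symm huz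
        · -- a star with centre `y` and leaves `u`, `z`
          apply hn
          have hTB : StarCover G (T ∪ B) := (hT.starCover hirr).union hB.starCover
            (Finset.disjoint_of_subset_left hTW hBW.symm)
          have hfin := StarCover.cons (G := G) (T ∪ B) y {u, z} hTB (by
            simp only [Finset.mem_union, not_or]
            exact ⟨hyT, hyB⟩) (by
            simp only [Finset.mem_insert, Finset.mem_singleton, not_or]
            exact ⟨hney, hyz⟩) (by
            rw [Finset.disjoint_left]
            intro x hx hx'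
            simp only [Finset.mem_insert, Finset.mem_singleton] at hx
            simp only [Finset.mem_union] at hx'
            rcases hx with rfl | rfl
            · rcases hx' with hx' | hx'
              · exact huT hx'
              · exact huB hx'
            · rcases hx' with hx' | hx'
              · exact hzT hx'
              · exact Finset.disjoint_left.1 hBW hx' (Finset.mem_of_mem_erase hzW)) (by simp)
            (by
              intro l hl
              simp only [Finset.mem_insert, Finset.mem_singleton] at hl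
              rcases hl with rfl | rfl
              · exact hsym _ _ huy
              · exact hGyz)
            (by
              intro l hl l' hl'
              simp only [Finset.mem_insert, Finset.mem_singleton] at hl hl'
              rcases hl with rfl | rfl <;> rcases hl' with rfl | rfl
              · exact hirr _
              · exact huz
              · exact fun h => huz (hsym _ _ h)
              · exact hirr _)
          have e : S = T ∪ B ∪ insert y {u, z} := by
            ext x
            have h3 : x ∈ S ↔ x ∈ W ∨ x ∈ B := by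
              rw [hW, Finset.mem_sdiff]
              have : x ∈ B → x ∈ S := fun h => hBS h
              grind
            rw [h3, hWu x]
            simp only [Finset.mem_union, Finset.mem_insert, Finset.mem_singleton]
            grind
          rw [e]
          exact hfin

end Pool.Agent.Exact


end

section

/-!
# Block structures and sign patterns built vertex by vertex
-/

set_option autoImplicit false

namespace Pool.Agent.Exact

open Finset

variable {V : Type*} [DecidableEq V]

/-- the number of arcs between two vertices -/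
def MM (B : V → V → ℤ) (u v : V) : ℤ := B u v + B v u

/-- the quadratic form of the arcs inside `S` -/
def Qd (B : V → V → ℤ) (S : Finset V) (x : V → ℤ) : ℤ := ∑ u ∈ S, ∑ v ∈ S, B u v * (x u * x v)

/-- interaction of two sets -/
def Int (B : V → V → ℤ) (S T : Finset V) (x : V → ℤ) : ℤ :=
  ∑ u ∈ S, ∑ v ∈ T, MM B u v * (x u * x v)

/-- linear part plus quadratic part -/
def DD (B : V → V → ℤ) (a : V → ℤ) (x : V → ℤ) (S : Finset V) : ℤ :=
  ∑ v ∈ S, a v * x v + Qd B S x

/-- the charge of a set -/
def ch (a : V → ℤ) (S : Finset V) : ℤ := ∑ v ∈ S, if a v = 1 then 0 else 1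

/-- `S` can be built vertex by vertex such that the value is at most the charge at each time -/
inductive Good (B : V → V → ℤ) (a x : V → ℤ) : Finset V → Prop
  | empty : Good B a x ∅
  | step (S : Finset V) (v : V) : Good B a x S → v ∉ S →
      DD B a x (insert v S) ≤ ch a (insert v S) → Good B a x (insert v S)

/-- partitions into stars and triples (adjacent pair and a further vertex) with the total number
of arcs in the blocks -/
inductive Blocks (B : V → V → ℤ) : Finset V → ℤ → Prop
  | empty : Blocks B ∅ 0
  | star (S : Finset V) (g : ℤ) (c : V) (L : Finset V) : Blocks B S g → c ∉ S → c ∉ L →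
      Disjoint L S → L.Nonempty → (∀ l ∈ L, 1 ≤ MM B c l) → (∀ l ∈ L, ∀ l' ∈ L, MM B l l' = 0) →
      Blocks B (S ∪ insert c L) (g + ∑ l ∈ L, MM B c l)
  | hole (S : Finset V) (g : ℤ) (u v w : V) : Blocks B S g → u ∉ S → v ∉ S → w ∉ S → u ≠ v →
      u ≠ w → v ≠ w → 1 ≤ MM B u v → Blocks B (insert w (S ∪ {u, v})) (g + MM B u v)

variable {B : V → V → ℤ} {a : V → ℤ}

lemma MM_comm (u v : V) : MM B u v = MM B v u := by unfold MM; ring

lemma Qd_congr {S : Finset V} {x y : V → ℤ} (h : ∀ v ∈ S, x v = y v) : Qd B S x = Qd B S y := by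
  unfold Qd
  exact Finset.sum_congr rfl fun u hu => Finset.sum_congr rfl fun v hv => by rw [h u hu, h v hv]

lemma DD_congr {S : Finset V} {x y : V → ℤ} (h : ∀ v ∈ S, x v = y v) :
    DD B a x S = DD B a y S := by
  unfold DD
  rw [Qd_congr h]
  congr 1
  exact Finset.sum_congr rfl fun u hu => by rw [h u hu]

lemma Good.congr {S : Finset V} {x y : V → ℤ} (hS : Good B a x S) (h : ∀ v ∈ S, x v = y v) :
    Good B a y S := by
  induction hS with
  | empty => exact Good.empty
  | step S v hS hv hD ih =>
    refine Good.step S v (ih fun u hu => h u (Finset.mem_insert_of_mem hu)) hv ?_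
    rw [← DD_congr h]
    exact hD

lemma Good.le {S : Finset V} {x : V → ℤ} (hS : Good B a x S) : DD B a x S ≤ ch a S := by
  cases hS with
  | empty => simp [DD, Qd, ch]
  | step S v hS hv hD => exact hD

lemma Qd_union {S T : Finset V} (h : Disjoint S T) (x : V → ℤ) :
    Qd B (S ∪ T) x = Qd B S x + Qd B T x + Int B S T x := by
  unfold Qd Int MM
  rw [Finset.sum_union h]
  simp only [Finset.sum_union h, Finset.sum_add_distrib, add_mul]
  have e : ∑ u ∈ S, ∑ v ∈ T, B v u * (x u * x v) = ∑ v ∈ T, ∑ u ∈ S, B v u * (x v * x u) := by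
    rw [Finset.sum_comm]
    exact Finset.sum_congr rfl fun v _ => Finset.sum_congr rfl fun u _ => by ring
  rw [e]
  ring

lemma Int_union_right {S T T' : Finset V} (h : Disjoint T T') (x : V → ℤ) :
    Int B S (T ∪ T') x = Int B S T x + Int B S T' x := by
  unfold Int
  rw [← Finset.sum_add_distrib]
  exact Finset.sum_congr rfl fun u _ => Finset.sum_union h

lemma Int_union_left {S S' T : Finset V} (h : Disjoint S S') (x : V → ℤ) :
    Int B (S ∪ S') T x = Int B S T x + Int B S' T x := by
  unfold Int
  exact Finset.sum_union h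

lemma Int_comm (S T : Finset V) (x : V → ℤ) : Int B S T x = Int B T S x := by
  unfold Int
  rw [Finset.sum_comm]
  exact Finset.sum_congr rfl fun v _ => Finset.sum_congr rfl fun u _ => by
    rw [MM_comm]; ring

lemma Int_neg (S T : Finset V) (x : V → ℤ) : Int B S T (fun v => - x v) = Int B S T x := by
  unfold Int
  exact Finset.sum_congr rfl fun v _ => Finset.sum_congr rfl fun u _ => by ring

lemma Qd_neg (S : Finset V) (x : V → ℤ) : Qd B S (fun v => - x v) = Qd B S x := by
  unfold Qd
  exact Finset.sum_congr rfl fun v _ => Finset.sum_congr rfl fun u _ => by ring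

lemma Int_sum_right (S T : Finset V) (x : V → ℤ) :
    Int B S T x = ∑ v ∈ T, Int B S {v} x := by
  unfold Int
  rw [Finset.sum_comm]
  simp

lemma Qd_indep {T : Finset V} (h0 : ∀ u v, 0 ≤ B u v) (h : ∀ u ∈ T, ∀ v ∈ T, MM B u v = 0)
    (x : V → ℤ) : Qd B T x = 0 := by
  unfold Qd
  refine Finset.sum_eq_zero fun u hu => Finset.sum_eq_zero fun v hv => ?_
  have h1 := h u hu v hv
  unfold MM at h1
  have h2 := h0 u v
  have h3 := h0 v u
  have : B u v = 0 := by omega
  rw [this, zero_mul]

lemma Qd_single (c : V) (hB : ∀ v, B v v = 0) (x : V → ℤ) : Qd B {c} x = 0 := by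
  simp [Qd, hB]

/-- adding several vertices -/
lemma Good.add {S T : Finset V} {x : V → ℤ} (hS : Good B a x S) (hd : Disjoint S T)
    (h : ∀ T' ⊆ T, DD B a x (S ∪ T') ≤ ch a (S ∪ T')) : Good B a x (S ∪ T) := by
  induction T using Finset.induction_on with
  | empty => simpa using hS
  | insert v T hv ih =>
    rw [Finset.disjoint_insert_right] at hd
    have h1 := ih hd.2 fun T' hT' => h T' (hT'.trans (Finset.subset_insert _ _))
    have e : S ∪ insert v T = insert v (S ∪ T) := by
      rw [Finset.union_insert]
    rw [e]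
    refine Good.step _ v h1 ?_ ?_
    · simp only [Finset.mem_union, not_or]
      exact ⟨hd.1, hv⟩
    · rw [← e]
      exact h _ (Finset.Subset.refl _)

lemma DD_union {S T : Finset V} (h : Disjoint S T) (x : V → ℤ) :
    DD B a x (S ∪ T) = DD B a x S + (∑ v ∈ T, (a v * x v + Int B S {v} x) + Qd B T x) := by
  unfold DD
  rw [Finset.sum_union h, Qd_union h, Int_sum_right S T, Finset.sum_add_distrib]
  ring

lemma ch_union {S T : Finset V} (h : Disjoint S T) : ch a (S ∪ T) = ch a S + ch a T := by
  unfold ch
  exact Finset.sum_union h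

lemma Qd_star (c : V) (L : Finset V) (hc : c ∉ L) (h0 : ∀ u v, 0 ≤ B u v) (hB : ∀ v, B v v = 0)
    (hL : ∀ l ∈ L, ∀ l' ∈ L, MM B l l' = 0) (x : V → ℤ) :
    Qd B (insert c L) x = ∑ l ∈ L, MM B c l * (x c * x l) := by
  have hd : Disjoint {c} L := by simpa using hc
  rw [Finset.insert_eq, Qd_union hd, Qd_single c hB, Qd_indep h0 hL]
  simp [Int]

/-- a star can be added to a good set -/
lemma Good.star {S : Finset V} {x : V → ℤ} (hS : Good B a x S) (h0 : ∀ u v, 0 ≤ B u v)
    (hB : ∀ v, B v v = 0) (ha : ∀ v, 0 ≤ a v ∧ a v ≤ 2) (c : V) (L : Finset V) (hcS : c ∉ S)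
    (hcL : c ∉ L) (hLS : Disjoint L S) (hL : L.Nonempty) (h1 : ∀ l ∈ L, 1 ≤ MM B c l)
    (h2 : ∀ l ∈ L, ∀ l' ∈ L, MM B l l' = 0) (σ : ℤ) (hσ : σ = 1 ∨ σ = -1) (hxc : x c = σ)
    (hxL : ∀ l ∈ L, x l = -σ) (hint : Int B S (insert c L) x ≤ 0) :
    Good B a x (S ∪ insert c L) ∧
      DD B a x (S ∪ insert c L) ≤ ch a S + σ * (a c - ∑ l ∈ L, a l) - L.card := by
  classical
  have hint' : Int B S {c} x + ∑ l ∈ L, Int B S {l} x ≤ 0 := by
    rw [Int_sum_right, Finset.sum_insert hcL] at hint
    exact hint
  have hSle := hS.le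
  have hLcard : (1 : ℤ) ≤ L.card := by exact_mod_cast hL.card_pos
  -- value after adding `c` and `T'`
  have hval : ∀ T' ⊆ L, DD B a x (S ∪ insert c T') =
      DD B a x S + (σ * a c + Int B S {c} x) +
        ∑ l ∈ T', (- (σ * a l) + Int B S {l} x - MM B c l) := by
    intro T' hT'
    have hcT' : c ∉ T' := fun h => hcL (hT' h)
    have hd : Disjoint S (insert c T') := by
      rw [Finset.disjoint_insert_right]
      exact ⟨hcS, (Finset.disjoint_of_subset_left hT' hLS).symm⟩
    rw [DD_union hd, Qd_star c T' hcT' h0 hB (fun l hl l' hl' => h2 l (hT' hl) l' (hT' hl')),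
      Finset.sum_insert hcT', hxc, Finset.sum_sub_distrib]
    have e1 : ∑ l ∈ T', MM B c l * (σ * x l) = - ∑ l ∈ T', MM B c l := by
      rw [← Finset.sum_neg_distrib]
      refine Finset.sum_congr rfl fun l hl => ?_
      rw [hxL l (hT' hl)]
      rcases hσ with h | h <;> rw [h] <;> ring
    have e2 : ∑ l ∈ T', (a l * x l + Int B S {l} x) =
        ∑ l ∈ T', (- (σ * a l) + Int B S {l} x) := by
      refine Finset.sum_congr rfl fun l hl => ?_
      rw [hxL l (hT' hl)]
      ring
    rw [e1, e2]
    ring
  have hval0 : ∀ T' ⊆ L, DD B a x (S ∪ T') = DD B a x S +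
      ∑ l ∈ T', (- (σ * a l) + Int B S {l} x) := by
    intro T' hT'
    have hd : Disjoint S T' := (Finset.disjoint_of_subset_left hT' hLS).symm
    rw [DD_union hd, Qd_indep h0 (fun l hl l' hl' => h2 l (hT' hl) l' (hT' hl')), add_zero]
    congr 1
    refine Finset.sum_congr rfl fun l hl => ?_
    rw [hxL l (hT' hl)]
    ring
  have hch : ∀ T' ⊆ L, ch a (S ∪ insert c T') =
      ch a S + ((if a c = 1 then 0 else 1) + ∑ l ∈ T', if a l = 1 then 0 else 1) := by
    intro T' hT'
    have hcT' : c ∉ T' := fun h => hcL (hT' h)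
    have hd : Disjoint S (insert c T') := by
      rw [Finset.disjoint_insert_right]
      exact ⟨hcS, (Finset.disjoint_of_subset_left hT' hLS).symm⟩
    rw [ch_union hd]
    congr 1
    unfold ch
    rw [Finset.sum_insert hcT']
  have hch0 : ∀ T' ⊆ L, ch a (S ∪ T') = ch a S + ∑ l ∈ T', if a l = 1 then 0 else 1 := by
    intro T' hT'
    rw [ch_union (Finset.disjoint_of_subset_left hT' hLS).symm]
    rfl
  have hcharge0 : ∀ v, (0 : ℤ) ≤ if a v = 1 then 0 else 1 := by
    intro v; split_ifs <;> norm_num
  have hcharge1 : ∀ v, a v - 1 ≤ if a v = 1 then 0 else 1 := by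
    intro v
    have := (ha v).2
    split_ifs with h
    · omega
    · omega
  -- threshold
  obtain ⟨L1, L2, hdis, hun, hL1, hL2⟩ : ∃ L1 L2 : Finset V, Disjoint L1 L2 ∧ L1 ∪ L2 = L ∧
      (∀ l ∈ L1, 2 * Int B S {l} x + (1 - σ) ≤ 0) ∧
      (∀ l ∈ L2, 0 < 2 * Int B S {l} x + (1 - σ)) := by
    refine ⟨L.filter (fun l => 2 * Int B S {l} x + (1 - σ) ≤ 0),
      L.filter (fun l => ¬ 2 * Int B S {l} x + (1 - σ) ≤ 0),
      Finset.disjoint_filter_filter_not _ _ _, Finset.filter_union_filter_not_eq _ _, ?_, ?_⟩
    · intro l hl; exact (Finset.mem_filter.1 hl).2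
    · intro l hl; exact not_le.1 (Finset.mem_filter.1 hl).2
  have hL1L : L1 ⊆ L := by rw [← hun]; exact Finset.subset_union_left
  have hL2L : L2 ⊆ L := by rw [← hun]; exact Finset.subset_union_right
  have hsplit : ∀ f : V → ℤ, ∑ l ∈ L, f l = ∑ l ∈ L1, f l + ∑ l ∈ L2, f l := by
    intro f; rw [← hun]; exact Finset.sum_union hdis
  -- first stage
  have g1 : Good B a x (S ∪ L1) := by
    refine hS.add (Finset.disjoint_of_subset_left hL1L hLS).symm ?_
    intro T' hT'
    rw [hval0 T' (hT'.trans hL1L), hch0 T' (hT'.trans hL1L)]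
    have : ∑ l ∈ T', (- (σ * a l) + Int B S {l} x) ≤ ∑ l ∈ T', if a l = 1 then 0 else 1 := by
      refine Finset.sum_le_sum fun l hl => ?_
      have h3 := hL1 l (hT' hl)
      have h4 := hcharge1 l
      have h5 := hcharge0 l
      have h6 := (ha l).1
      rcases hσ with h | h
      · rw [h] at h3 ⊢; linarith
      · rw [h] at h3 ⊢
        have : Int B S {l} x ≤ -1 := by omega
        linarith
    linarith
  -- key inequality for `L1 ∪ T'`
  have key : ∀ T' ⊆ L2, (σ * a c + Int B S {c} x) +
      ∑ l ∈ L1 ∪ T', (- (σ * a l) + Int B S {l} x - MM B c l) ≤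
      (if a c = 1 then 0 else 1) + ∑ l ∈ L1 ∪ T', if a l = 1 then 0 else 1 := by
    intro T' hT'
    have hdT : Disjoint L1 T' := Finset.disjoint_of_subset_right hT' hdis
    have hTL : L1 ∪ T' ⊆ L := Finset.union_subset hL1L (hT'.trans hL2L)
    have hrest : ∑ l ∈ L, Int B S {l} x =
        ∑ l ∈ L1 ∪ T', Int B S {l} x + ∑ l ∈ L \ (L1 ∪ T'), Int B S {l} x := by
      rw [add_comm, Finset.sum_sdiff hTL]
    have hmem2 : ∀ l ∈ L \ (L1 ∪ T'), l ∈ L2 := by
      intro l hl
      rw [Finset.mem_sdiff, Finset.mem_union, not_or] at hl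
      have h3 : l ∈ L1 ∪ L2 := by rw [hun]; exact hl.1
      rcases Finset.mem_union.1 h3 with h4 | h4
      · exact absurd h4 hl.2.1
      · exact h4
    have hM : ∑ l ∈ L1 ∪ T', (1 : ℤ) ≤ ∑ l ∈ L1 ∪ T', MM B c l :=
      Finset.sum_le_sum fun l hl => h1 l (hTL hl)
    rw [Finset.sum_sub_distrib, Finset.sum_add_distrib, Finset.sum_neg_distrib,
      ← Finset.mul_sum]
    have hcs : ((L1 ∪ T').card : ℤ) + (L \ (L1 ∪ T')).card = L.card := by
      have := Finset.card_sdiff_add_card_eq_card hTL
      push_cast [← this]
      ring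
    have hone : ∑ l ∈ L1 ∪ T', (1 : ℤ) = (L1 ∪ T').card := by simp
    rcases hσ with h | h
    · subst h
      have h5 : ((L \ (L1 ∪ T')).card : ℤ) ≤ ∑ l ∈ L \ (L1 ∪ T'), Int B S {l} x := by
        have : ∑ l ∈ L \ (L1 ∪ T'), (1 : ℤ) ≤ ∑ l ∈ L \ (L1 ∪ T'), Int B S {l} x := by
          refine Finset.sum_le_sum fun l hl => ?_
          have := hL2 l (hmem2 l hl)
          omega
        simpa using this
      have h6 : 0 ≤ ∑ l ∈ L1 ∪ T', a l := Finset.sum_nonneg fun l _ => (ha l).1
      have h7 : 0 ≤ ∑ l ∈ L1 ∪ T', (if a l = 1 then (0 : ℤ) else 1) :=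
        Finset.sum_nonneg fun l _ => hcharge0 l
      have h8 := hcharge1 c
      linarith
    · subst h
      have h5 : 0 ≤ ∑ l ∈ L \ (L1 ∪ T'), Int B S {l} x := by
        refine Finset.sum_nonneg fun l hl => ?_
        have := hL2 l (hmem2 l hl)
        omega
      have h6 : ∑ l ∈ L1 ∪ T', (a l - 1) ≤ ∑ l ∈ L1 ∪ T', (if a l = 1 then (0 : ℤ) else 1) :=
        Finset.sum_le_sum fun l _ => hcharge1 l
      rw [Finset.sum_sub_distrib] at h6
      have h8 := hcharge0 c
      have h9 := (ha c).1
      linarith
  -- second stage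
  have g2 : Good B a x (insert c (S ∪ L1)) := by
    have e : insert c (S ∪ L1) = S ∪ insert c L1 := by rw [Finset.union_insert]
    refine Good.step _ c g1 ?_ ?_
    · simp only [Finset.mem_union, not_or]
      exact ⟨hcS, fun h => hcL (hL1L h)⟩
    · rw [e, hval L1 hL1L, hch L1 hL1L]
      have := key ∅ (Finset.empty_subset _)
      rw [Finset.union_empty] at this
      linarith
  have g3 : Good B a x (insert c (S ∪ L1) ∪ L2) := by
    refine g2.add ?_ ?_
    · rw [Finset.disjoint_insert_left, Finset.disjoint_union_left]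
      exact ⟨fun h => hcL (hL2L h), (Finset.disjoint_of_subset_left hL2L hLS).symm, hdis⟩
    · intro T' hT'
      have e : insert c (S ∪ L1) ∪ T' = S ∪ insert c (L1 ∪ T') := by
        ext v; simp only [Finset.mem_union, Finset.mem_insert]; tauto
      have hTL : L1 ∪ T' ⊆ L := Finset.union_subset hL1L (hT'.trans hL2L)
      rw [e, hval _ hTL, hch _ hTL]
      have := key T' hT'
      linarith
  have e3 : insert c (S ∪ L1) ∪ L2 = S ∪ insert c L := by
    rw [← hun]
    ext v; simp only [Finset.mem_union, Finset.mem_insert]; tauto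
  rw [e3] at g3
  refine ⟨g3, ?_⟩
  rw [hval L (Finset.Subset.refl _), Finset.sum_sub_distrib, Finset.sum_add_distrib,
    Finset.sum_neg_distrib, ← Finset.mul_sum]
  have hM : ∑ l ∈ L, (1 : ℤ) ≤ ∑ l ∈ L, MM B c l :=
    Finset.sum_le_sum fun l hl => h1 l hl
  rw [Finset.sum_const, nsmul_eq_mul, mul_one] at hM
  linarith

end Pool.Agent.Exact


end

section

/-!
# Averaging over the signs of pairs
-/

set_option autoImplicit false
set_option linter.unusedSectionVars false

namespace Pool.Agent.Exact

open Finset

variable {V : Type*} [DecidableEq V] {B : V → V → ℤ}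

/-- the mean of `|c + sum of ± l|` -/
noncomputable def NS : List ℝ → ℝ → ℝ
  | [], c => |c|
  | d :: l, c => (NS l (c + d) + NS l (c - d)) / 2

lemma NS_neg (l : List ℝ) : ∀ c, NS l (-c) = NS l c := by
  induction l with
  | nil => intro c; simp [NS]
  | cons d l ih =>
    intro c
    simp only [NS]
    rw [show -c + d = -(c - d) by ring, show -c - d = -(c + d) by ring, ih, ih]
    ring

lemma NS_abs (l : List ℝ) (c : ℝ) : NS l |c| = NS l c := by
  rcases abs_cases c with ⟨h, _⟩ | ⟨h, _⟩ <;> rw [h]
  rw [NS_neg]

/-- the bound (R1) -/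
theorem NS_le (M : ℝ) (hM : 0 ≤ M) (l : List ℝ) (hl : ∀ d ∈ l, 0 ≤ d ∧ d ≤ M) :
    ∀ c : ℝ, NS l c ≤ max (max |c| M) ((|c| + l.sum) / 2) := by
  -- the sum is at least each item: use a variable maximum
  have key : ∀ (l : List ℝ), (∀ d ∈ l, 0 ≤ d) → ∃ m : ℝ, 0 ≤ m ∧ m ≤ l.sum ∧
      (∀ K, 0 ≤ K → (∀ d ∈ l, d ≤ K) → m ≤ K) ∧
      ∀ c : ℝ, 0 ≤ c → NS l c ≤ max (max c m) ((c + l.sum) / 2) := by
    intro l
    induction l with
    | nil =>
      intro _
      refine ⟨0, le_rfl, by simp, fun K hK _ => hK, fun c hc => ?_⟩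
      simp only [NS, abs_of_nonneg hc]
      exact (le_max_left _ _).trans (le_max_left _ _)
    | cons d l ih =>
      intro hd
      have hd0 : 0 ≤ d := hd d (by simp)
      obtain ⟨m, hm0, hms, hmK, hm⟩ := ih fun e he => hd e (by simp [he])
      refine ⟨max d m, le_max_of_le_left hd0, ?_, ?_, ?_⟩
      · rw [List.sum_cons]
        exact max_le (by linarith) (by linarith)
      · intro K hK h
        exact max_le (h d (by simp)) (hmK K hK fun e he => h e (by simp [he]))
      · intro c hc
        rw [List.sum_cons]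
        have h1 := hm (c + d) (by linarith)
        have h2 := hm |c - d| (abs_nonneg _)
        rw [NS_abs] at h2
        simp only [NS]
        set s := l.sum with hs
        set T := max (max c (max d m)) ((c + (d + s)) / 2) with hT
        have t1 : c ≤ T := (le_max_left _ _).trans (le_max_left _ _)
        have t2 : d ≤ T := ((le_max_left _ _).trans (le_max_right _ _)).trans (le_max_left _ _)
        have t3 : m ≤ T := ((le_max_right _ _).trans (le_max_right _ _)).trans (le_max_left _ _)
        have t4 : (c + (d + s)) / 2 ≤ T := le_max_right _ _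
        have habs : |c - d| ≤ max c d := by
          rw [abs_le]
          constructor
          · have := le_max_right c d; linarith
          · have := le_max_left c d; linarith
        have habs2 : |c - d| ≤ T := habs.trans (max_le t1 t2)
        have habs3 : |c - d| ≤ c + d := by
          rw [abs_le]; constructor <;> linarith
        have h3 : max (max |c - d| m) ((|c - d| + s) / 2) ≤ T := by
          refine max_le (max_le habs2 t3) ?_
          linarith
        have h1' := h1
        -- first maximum
        rcases le_total (max (c + d) m) ((c + d + s) / 2) with h4 | h4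
        · rw [max_eq_right h4] at h1
          linarith
        · rw [max_eq_left h4] at h1
          rcases le_total (c + d) m with h5 | h5
          · rw [max_eq_right h5] at h1
            linarith
          · rw [max_eq_left h5] at h1 h4
            rcases le_total (max |c - d| m) ((|c - d| + s) / 2) with h6 | h6
            · rw [max_eq_right h6] at h2
              have h7 : |c - d| ≤ (|c - d| + s) / 2 := (le_max_left _ _).trans h6
              rcases le_total c d with h8 | h8
              · rw [abs_of_nonpos (by linarith)] at h2 h7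
                linarith
              · rw [abs_of_nonneg (by linarith)] at h2 h7
                linarith
            · rw [max_eq_left h6] at h2
              rcases le_total |c - d| m with h7 | h7
              · rw [max_eq_right h7] at h2
                linarith
              · rw [max_eq_left h7] at h2
                rcases le_total c d with h8 | h8
                · rw [abs_of_nonpos (by linarith)] at h2
                  linarith
                · rw [abs_of_nonneg (by linarith)] at h2
                  linarith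
  intro c
  obtain ⟨m, _, _, hmK, hm⟩ := key l fun d hd => (hl d hd).1
  have h1 := hm |c| (abs_nonneg _)
  rw [NS_abs] at h1
  have h2 := hmK M hM fun d hd => (hl d hd).2
  exact h1.trans (max_le_max (max_le_max le_rfl h2) le_rfl)

/-- a set divided into pairs: on opposite sides (`opp`), on the same side (`same`), and single
vertices; with the quadratic cost and the list of the contributions to the linear form -/
inductive Pairs (B : V → V → ℤ) (s : V → ℤ) : Finset V → ℤ → List ℝ → Prop
  | empty : Pairs B s ∅ 0 []
  | opp (S : Finset V) (M : ℤ) (l : List ℝ) (u v : V) : Pairs B s S M l → u ∉ S → v ∉ S → u ≠ v →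
      Pairs B s (S ∪ {u, v}) (M - MM B u v) (((s u - s v : ℤ) : ℝ) :: l)
  | same (S : Finset V) (M : ℤ) (l : List ℝ) (u v : V) : Pairs B s S M l → u ∉ S → v ∉ S → u ≠ v →
      Pairs B s (S ∪ {u, v}) (M + MM B u v) (((s u + s v : ℤ) : ℝ) :: l)
  | one (S : Finset V) (M : ℤ) (l : List ℝ) (v : V) : Pairs B s S M l → v ∉ S →
      Pairs B s (S ∪ {v}) M (((s v : ℤ) : ℝ) :: l)

lemma Qd_pair (hB : ∀ v, B v v = 0) {u v : V} (huv : u ≠ v) (x : V → ℤ) :
    Qd B {u, v} x = MM B u v * (x u * x v) := by
  unfold Qd MM
  rw [Finset.sum_pair huv, Finset.sum_pair huv, Finset.sum_pair huv, hB, hB]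
  ring

/-- **Averaging lemma.** -/
theorem Pairs.exists_sign {s : V → ℤ} (hB : ∀ v, B v v = 0) {S : Finset V} {M : ℤ} {l : List ℝ}
    (h : Pairs B s S M l) : ∀ (f : V → ℤ) (c : ℝ), ∃ x : V → ℤ, (∀ v, x v = 1 ∨ x v = -1) ∧
      ((∑ v ∈ S, f v * x v + Qd B S x : ℤ) : ℝ) + |c + ((∑ v ∈ S, s v * x v : ℤ) : ℝ)| ≤
        M + NS l c := by
  induction h with
  | empty =>
    intro f c
    exact ⟨fun _ => 1, fun _ => Or.inl rfl, by simp [Qd, NS]⟩
  | opp S M l u v hS hu hv huv ih =>
    intro f c
    have hd : Disjoint S {u, v} := by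
      rw [Finset.disjoint_right]
      intro z hz
      rw [Finset.mem_insert, Finset.mem_singleton] at hz
      rcases hz with rfl | rfl
      · exact hu
      · exact hv
    have step : ∀ ε : ℤ, (ε = 1 ∨ ε = -1) → ∃ x : V → ℤ, (∀ v, x v = 1 ∨ x v = -1) ∧
        ((∑ w ∈ S ∪ {u, v}, f w * x w + Qd B (S ∪ {u, v}) x : ℤ) : ℝ) +
          |c + ((∑ w ∈ S ∪ {u, v}, s w * x w : ℤ) : ℝ)| ≤
        ((ε * (f u - f v) - MM B u v + M : ℤ) : ℝ) +
          NS l (c + ((ε * (s u - s v) : ℤ) : ℝ)) := by
      intro ε hε
      obtain ⟨x, hx, hx'⟩ := ih (fun w => f w + ε * (MM B w u - MM B w v))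
        (c + ((ε * (s u - s v) : ℤ) : ℝ))
      set y : V → ℤ := fun w => if w = u then ε else if w = v then -ε else x w with hy
      have hyu : y u = ε := by simp [hy]
      have hyv : y v = -ε := by simp [hy, huv.symm]
      have hyS : ∀ w ∈ S, y w = x w := by
        intro w hw
        have h3 : w ≠ u := fun e => hu (e ▸ hw)
        have h4 : w ≠ v := fun e => hv (e ▸ hw)
        simp [hy, h3, h4]
      refine ⟨y, ?_, ?_⟩
      · intro w
        simp only [hy]
        split_ifs
        · exact hε
        · rcases hε with h | h <;> rw [h] <;> norm_num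
        · exact hx w
      · have e1 : ∑ w ∈ S ∪ {u, v}, f w * y w = ∑ w ∈ S, f w * x w + ε * (f u - f v) := by
          rw [Finset.sum_union hd, Finset.sum_pair huv, hyu, hyv]
          rw [Finset.sum_congr rfl fun w hw => by rw [hyS w hw]]
          ring
        have e2 : ∑ w ∈ S ∪ {u, v}, s w * y w = ∑ w ∈ S, s w * x w + ε * (s u - s v) := by
          rw [Finset.sum_union hd, Finset.sum_pair huv, hyu, hyv]
          rw [Finset.sum_congr rfl fun w hw => by rw [hyS w hw]]
          ring
        have e3 : Qd B (S ∪ {u, v}) y = Qd B S x - MM B u v +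
            ∑ w ∈ S, (ε * (MM B w u - MM B w v)) * x w := by
          rw [Qd_union hd, Qd_pair hB huv, Qd_congr hyS, hyu, hyv]
          have e4 : Int B S {u, v} y = ∑ w ∈ S, (ε * (MM B w u - MM B w v)) * x w := by
            unfold Int
            refine Finset.sum_congr rfl fun w hw => ?_
            rw [Finset.sum_pair huv, hyu, hyv, hyS w hw]
            ring
          rw [e4]
          have : ε * -ε = -1 := by rcases hε with h | h <;> rw [h] <;> norm_num
          rw [this]
          ring
        rw [e1, e2, e3]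
        have e5 : ∑ w ∈ S, (f w + ε * (MM B w u - MM B w v)) * x w =
            ∑ w ∈ S, f w * x w + ∑ w ∈ S, (ε * (MM B w u - MM B w v)) * x w := by
          rw [← Finset.sum_add_distrib]
          exact Finset.sum_congr rfl fun w _ => by ring
        rw [e5] at hx'
        push_cast at hx' ⊢
        have e6 : c + (∑ w ∈ S, (s w : ℝ) * x w + ε * (s u - s v)) =
            c + ε * (s u - s v) + ∑ w ∈ S, (s w : ℝ) * x w := by ring
        rw [e6]
        linarith
    obtain ⟨x1, hx1, h1⟩ := step 1 (Or.inl rfl)
    obtain ⟨x2, hx2, h2⟩ := step (-1) (Or.inr rfl)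
    have hc2 : c + (((-1) * (s u - s v) : ℤ) : ℝ) = c - ((s u - s v : ℤ) : ℝ) := by
      push_cast; ring
    have hc1 : c + ((1 * (s u - s v) : ℤ) : ℝ) = c + ((s u - s v : ℤ) : ℝ) := by
      push_cast; ring
    rw [hc2] at h2
    rw [hc1] at h1
    simp only [NS]
    rcases le_total
      (((∑ w ∈ S ∪ {u, v}, f w * x1 w + Qd B (S ∪ {u, v}) x1 : ℤ) : ℝ) +
          |c + ((∑ w ∈ S ∪ {u, v}, s w * x1 w : ℤ) : ℝ)|)
      (((∑ w ∈ S ∪ {u, v}, f w * x2 w + Qd B (S ∪ {u, v}) x2 : ℤ) : ℝ) +
          |c + ((∑ w ∈ S ∪ {u, v}, s w * x2 w : ℤ) : ℝ)|) with h3 | h3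
    · refine ⟨x1, hx1, ?_⟩
      push_cast at h1 h2 h3 ⊢
      linarith
    · refine ⟨x2, hx2, ?_⟩
      push_cast at h1 h2 h3 ⊢
      linarith
  | same S M l u v hS hu hv huv ih =>
    intro f c
    have hd : Disjoint S {u, v} := by
      rw [Finset.disjoint_right]
      intro z hz
      rw [Finset.mem_insert, Finset.mem_singleton] at hz
      rcases hz with rfl | rfl
      · exact hu
      · exact hv
    have step : ∀ ε : ℤ, (ε = 1 ∨ ε = -1) → ∃ x : V → ℤ, (∀ v, x v = 1 ∨ x v = -1) ∧
        ((∑ w ∈ S ∪ {u, v}, f w * x w + Qd B (S ∪ {u, v}) x : ℤ) : ℝ) +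
          |c + ((∑ w ∈ S ∪ {u, v}, s w * x w : ℤ) : ℝ)| ≤
        ((ε * (f u + f v) + MM B u v + M : ℤ) : ℝ) +
          NS l (c + ((ε * (s u + s v) : ℤ) : ℝ)) := by
      intro ε hε
      obtain ⟨x, hx, hx'⟩ := ih (fun w => f w + ε * (MM B w u + MM B w v))
        (c + ((ε * (s u + s v) : ℤ) : ℝ))
      set y : V → ℤ := fun w => if w = u then ε else if w = v then ε else x w with hy
      have hyu : y u = ε := by simp [hy]
      have hyv : y v = ε := by simp [hy]
      have hyS : ∀ w ∈ S, y w = x w := by
        intro w hw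
        have h3 : w ≠ u := fun e => hu (e ▸ hw)
        have h4 : w ≠ v := fun e => hv (e ▸ hw)
        simp [hy, h3, h4]
      refine ⟨y, ?_, ?_⟩
      · intro w
        simp only [hy]
        split_ifs
        · exact hε
        · exact hε
        · exact hx w
      · have e1 : ∑ w ∈ S ∪ {u, v}, f w * y w = ∑ w ∈ S, f w * x w + ε * (f u + f v) := by
          rw [Finset.sum_union hd, Finset.sum_pair huv, hyu, hyv]
          rw [Finset.sum_congr rfl fun w hw => by rw [hyS w hw]]
          ring
        have e2 : ∑ w ∈ S ∪ {u, v}, s w * y w = ∑ w ∈ S, s w * x w + ε * (s u + s v) := by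
          rw [Finset.sum_union hd, Finset.sum_pair huv, hyu, hyv]
          rw [Finset.sum_congr rfl fun w hw => by rw [hyS w hw]]
          ring
        have e3 : Qd B (S ∪ {u, v}) y = Qd B S x + MM B u v +
            ∑ w ∈ S, (ε * (MM B w u + MM B w v)) * x w := by
          rw [Qd_union hd, Qd_pair hB huv, Qd_congr hyS, hyu, hyv]
          have e4 : Int B S {u, v} y = ∑ w ∈ S, (ε * (MM B w u + MM B w v)) * x w := by
            unfold Int
            refine Finset.sum_congr rfl fun w hw => ?_
            rw [Finset.sum_pair huv, hyu, hyv, hyS w hw]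
            ring
          rw [e4]
          have : ε * ε = 1 := by rcases hε with h | h <;> rw [h] <;> norm_num
          rw [this]
          ring
        rw [e1, e2, e3]
        have e5 : ∑ w ∈ S, (f w + ε * (MM B w u + MM B w v)) * x w =
            ∑ w ∈ S, f w * x w + ∑ w ∈ S, (ε * (MM B w u + MM B w v)) * x w := by
          rw [← Finset.sum_add_distrib]
          exact Finset.sum_congr rfl fun w _ => by ring
        rw [e5] at hx'
        push_cast at hx' ⊢
        have e6 : c + (∑ w ∈ S, (s w : ℝ) * x w + ε * (s u + s v)) =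
            c + ε * (s u + s v) + ∑ w ∈ S, (s w : ℝ) * x w := by ring
        rw [e6]
        linarith
    obtain ⟨x1, hx1, h1⟩ := step 1 (Or.inl rfl)
    obtain ⟨x2, hx2, h2⟩ := step (-1) (Or.inr rfl)
    have hc2 : c + (((-1) * (s u + s v) : ℤ) : ℝ) = c - ((s u + s v : ℤ) : ℝ) := by
      push_cast; ring
    have hc1 : c + ((1 * (s u + s v) : ℤ) : ℝ) = c + ((s u + s v : ℤ) : ℝ) := by
      push_cast; ring
    rw [hc2] at h2
    rw [hc1] at h1
    simp only [NS]
    rcases le_total
      (((∑ w ∈ S ∪ {u, v}, f w * x1 w + Qd B (S ∪ {u, v}) x1 : ℤ) : ℝ) +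
          |c + ((∑ w ∈ S ∪ {u, v}, s w * x1 w : ℤ) : ℝ)|)
      (((∑ w ∈ S ∪ {u, v}, f w * x2 w + Qd B (S ∪ {u, v}) x2 : ℤ) : ℝ) +
          |c + ((∑ w ∈ S ∪ {u, v}, s w * x2 w : ℤ) : ℝ)|) with h3 | h3
    · refine ⟨x1, hx1, ?_⟩
      push_cast at h1 h2 h3 ⊢
      linarith
    · refine ⟨x2, hx2, ?_⟩
      push_cast at h1 h2 h3 ⊢
      linarith
  | one S M l v hS hv ih =>
    intro f c
    have hd : Disjoint S {v} := by simpa using hv
    have step : ∀ ε : ℤ, (ε = 1 ∨ ε = -1) → ∃ x : V → ℤ, (∀ v, x v = 1 ∨ x v = -1) ∧
        ((∑ w ∈ S ∪ {v}, f w * x w + Qd B (S ∪ {v}) x : ℤ) : ℝ) +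
          |c + ((∑ w ∈ S ∪ {v}, s w * x w : ℤ) : ℝ)| ≤
        ((ε * f v + M : ℤ) : ℝ) + NS l (c + ((ε * s v : ℤ) : ℝ)) := by
      intro ε hε
      obtain ⟨x, hx, hx'⟩ := ih (fun w => f w + ε * MM B w v) (c + ((ε * s v : ℤ) : ℝ))
      set y : V → ℤ := fun w => if w = v then ε else x w with hy
      have hyv : y v = ε := by simp [hy]
      have hyS : ∀ w ∈ S, y w = x w := by
        intro w hw
        have h4 : w ≠ v := fun e => hv (e ▸ hw)
        simp [hy, h4]
      refine ⟨y, ?_, ?_⟩
      · intro w
        simp only [hy]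
        split_ifs
        · exact hε
        · exact hx w
      · have e1 : ∑ w ∈ S ∪ {v}, f w * y w = ∑ w ∈ S, f w * x w + ε * f v := by
          rw [Finset.sum_union hd, Finset.sum_singleton, hyv]
          rw [Finset.sum_congr rfl fun w hw => by rw [hyS w hw]]
          ring
        have e2 : ∑ w ∈ S ∪ {v}, s w * y w = ∑ w ∈ S, s w * x w + ε * s v := by
          rw [Finset.sum_union hd, Finset.sum_singleton, hyv]
          rw [Finset.sum_congr rfl fun w hw => by rw [hyS w hw]]
          ring
        have e3 : Qd B (S ∪ {v}) y = Qd B S x + ∑ w ∈ S, (ε * MM B w v) * x w := by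
          rw [Qd_union hd, Qd_single v hB, Qd_congr hyS]
          have e4 : Int B S {v} y = ∑ w ∈ S, (ε * MM B w v) * x w := by
            unfold Int
            refine Finset.sum_congr rfl fun w hw => ?_
            rw [Finset.sum_singleton, hyv, hyS w hw]
            ring
          rw [e4]
          ring
        rw [e1, e2, e3]
        have e5 : ∑ w ∈ S, (f w + ε * MM B w v) * x w =
            ∑ w ∈ S, f w * x w + ∑ w ∈ S, (ε * MM B w v) * x w := by
          rw [← Finset.sum_add_distrib]
          exact Finset.sum_congr rfl fun w _ => by ring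
        rw [e5] at hx'
        push_cast at hx' ⊢
        have e6 : c + (∑ w ∈ S, (s w : ℝ) * x w + ε * s v) =
            c + ε * s v + ∑ w ∈ S, (s w : ℝ) * x w := by ring
        rw [e6]
        linarith
    obtain ⟨x1, hx1, h1⟩ := step 1 (Or.inl rfl)
    obtain ⟨x2, hx2, h2⟩ := step (-1) (Or.inr rfl)
    have hc2 : c + (((-1) * s v : ℤ) : ℝ) = c - ((s v : ℤ) : ℝ) := by
      push_cast; ring
    have hc1 : c + ((1 * s v : ℤ) : ℝ) = c + ((s v : ℤ) : ℝ) := by
      push_cast; ring
    rw [hc2] at h2
    rw [hc1] at h1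
    simp only [NS]
    rcases le_total
      (((∑ w ∈ S ∪ {v}, f w * x1 w + Qd B (S ∪ {v}) x1 : ℤ) : ℝ) +
          |c + ((∑ w ∈ S ∪ {v}, s w * x1 w : ℤ) : ℝ)|)
      (((∑ w ∈ S ∪ {v}, f w * x2 w + Qd B (S ∪ {v}) x2 : ℤ) : ℝ) +
          |c + ((∑ w ∈ S ∪ {v}, s w * x2 w : ℤ) : ℝ)|) with h3 | h3
    · refine ⟨x1, hx1, ?_⟩
      push_cast at h1 h2 h3 ⊢
      linarith
    · refine ⟨x2, hx2, ?_⟩
      push_cast at h1 h2 h3 ⊢
      linarith

end Pool.Agent.Exact


end

section

/-!
# The frame: hub, fixed part, paired part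
-/

set_option autoImplicit false
set_option linter.unusedSectionVars false

namespace Pool.Agent.Exact

open Finset

variable {V : Type*} [Fintype V] [DecidableEq V] {B : V → V → ℤ}

/-- outdegree minus indegree -/
def im (B : V → V → ℤ) (v : V) : ℤ := ∑ u, B v u - ∑ u, B u v

/-- there is a sign pattern of value at most `r` -/
def Val (B : V → V → ℤ) (r : ℝ) : Prop :=
  ∃ x : V → ℤ, (∀ v, x v = 1 ∨ x v = -1) ∧
    ((Qd B univ x : ℤ) : ℝ) + |((∑ v, im B v * x v : ℤ) : ℝ)| ≤ r

lemma Val.mono {r r' : ℝ} (h : Val B r) (hr : r ≤ r') : Val B r' := by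
  obtain ⟨x, hx, h⟩ := h
  exact ⟨x, hx, h.trans hr⟩

/-- extension of a fixed pattern by a paired part -/
theorem extend (hB : ∀ v, B v v = 0) (T : Finset V) (y : V → ℤ) (hy : ∀ v, y v = 1 ∨ y v = -1)
    {M : ℤ} {l : List ℝ} (hp : Pairs B (im B) Tᶜ M l) :
    Val B (((Qd B T y : ℤ) : ℝ) + M + NS l ((∑ v ∈ T, im B v * y v : ℤ) : ℝ)) := by
  obtain ⟨x, hx, hle⟩ := hp.exists_sign hB (fun v => ∑ u ∈ T, MM B u v * y u)
    ((∑ v ∈ T, im B v * y v : ℤ) : ℝ)
  set z : V → ℤ := fun v => if v ∈ T then y v else x v with hz
  have hzT : ∀ v ∈ T, z v = y v := by intro v hv; simp [hz, hv]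
  have hzC : ∀ v ∈ Tᶜ, z v = x v := by
    intro v hv
    rw [Finset.mem_compl] at hv
    simp [hz, hv]
  refine ⟨z, ?_, ?_⟩
  · intro v
    simp only [hz]
    split_ifs
    · exact hy v
    · exact hx v
  · have hd : Disjoint T Tᶜ := disjoint_compl_right
    have hu : T ∪ Tᶜ = univ := Finset.union_compl T
    have e1 : Qd B univ z = Qd B T y + Qd B Tᶜ x +
        ∑ v ∈ Tᶜ, (∑ u ∈ T, MM B u v * y u) * x v := by
      rw [← hu, Qd_union hd, Qd_congr hzT, Qd_congr hzC, Int_comm]
      congr 1
      unfold Int
      refine Finset.sum_congr rfl fun v hv => ?_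
      rw [Finset.sum_mul]
      refine Finset.sum_congr rfl fun u hu => ?_
      rw [hzC v hv, hzT u hu, MM_comm]
      ring
    have e2 : ∑ v, im B v * z v = ∑ v ∈ T, im B v * y v + ∑ v ∈ Tᶜ, im B v * x v := by
      rw [← hu, Finset.sum_union hd]
      congr 1
      · exact Finset.sum_congr rfl fun v hv => by rw [hzT v hv]
      · exact Finset.sum_congr rfl fun v hv => by rw [hzC v hv]
    rw [e1, e2]
    push_cast at hle ⊢
    linarith

/-- the part fixed by a hub `h` (with sign `+`) and a pattern on `P` -/
theorem stop (hB : ∀ v, B v v = 0) (h : V) (P : Finset V) (hP : h ∉ P) (y : V → ℤ)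
    (hy : ∀ v, y v = 1 ∨ y v = -1) {M : ℤ} {l : List ℝ}
    (hp : Pairs B (im B) (insert h P)ᶜ M l) :
    Val B (((DD B (MM B h) y P : ℤ) : ℝ) + M +
      NS l ((im B h + ∑ v ∈ P, im B v * y v : ℤ) : ℝ)) := by
  set z : V → ℤ := fun v => if v = h then 1 else y v with hz
  have hzh : z h = 1 := by simp [hz]
  have hzP : ∀ v ∈ P, z v = y v := by
    intro v hv
    have : v ≠ h := fun e => hP (e ▸ hv)
    simp [hz, this]
  have hz1 : ∀ v, z v = 1 ∨ z v = -1 := by
    intro v
    simp only [hz]
    split_ifs
    · left; rfl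
    · exact hy v
  have h3 := extend hB (insert h P) z hz1 hp
  have hd : Disjoint {h} P := by simpa using hP
  have e1 : Qd B (insert h P) z = DD B (MM B h) y P := by
    rw [Finset.insert_eq, Qd_union hd, Qd_single h hB, Qd_congr hzP]
    unfold DD Int
    rw [Finset.sum_singleton, zero_add, add_comm]
    congr 1
    refine Finset.sum_congr rfl fun v hv => ?_
    rw [hzh, hzP v hv]
    ring
  have e2 : ∑ v ∈ insert h P, im B v * z v = im B h + ∑ v ∈ P, im B v * y v := by
    rw [Finset.sum_insert hP, hzh, mul_one]
    congr 1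
    exact Finset.sum_congr rfl fun v hv => by rw [hzP v hv]
  rw [e1, e2] at h3
  exact h3

/-- sorted pairs in a set of vertices of one type -/
theorem tail_pos (h0 : ∀ u v, 0 ≤ B u v) (s : V → ℤ) : ∀ (n : ℕ) (S : Finset V) (β : ℤ),
    S.card = n → 0 ≤ β → (∀ v ∈ S, 0 ≤ s v ∧ s v ≤ β) →
    ∃ (M : ℤ) (l : List ℝ), Pairs B s S M l ∧ M ≤ 0 ∧ (∀ d ∈ l, 0 ≤ d) ∧ l.sum ≤ β := by
  intro n
  induction n using Nat.strong_induction_on with
  | _ n ih =>
    intro S β hSn hβ hs
    rcases S.eq_empty_or_nonempty with rfl | hne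
    · exact ⟨0, [], Pairs.empty, le_rfl, by simp, by simpa using hβ⟩
    · obtain ⟨u, hu, humax⟩ := Finset.exists_max_image S s hne
      rcases (S.erase u).eq_empty_or_nonempty with he | hne'
      · have hSu : S = ∅ ∪ {u} := by
          rw [Finset.empty_union]
          refine Finset.eq_singleton_iff_unique_mem.2 ⟨hu, fun v hv => ?_⟩
          by_contra hvu
          have : v ∈ S.erase u := Finset.mem_erase.2 ⟨hvu, hv⟩
          rw [he] at this
          simp at this
        refine ⟨0, [((s u : ℤ) : ℝ)], ?_, le_rfl, ?_, ?_⟩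
        · rw [hSu]
          exact Pairs.one ∅ 0 [] u Pairs.empty (by simp)
        · intro d hd
          rw [List.mem_singleton] at hd
          rw [hd]
          exact_mod_cast (hs u hu).1
        · simp only [List.sum_cons, List.sum_nil, add_zero]
          exact_mod_cast (hs u hu).2
      · obtain ⟨v, hv, hvmax⟩ := Finset.exists_max_image (S.erase u) s hne'
        have hvS : v ∈ S := Finset.mem_of_mem_erase hv
        have hvu : v ≠ u := (Finset.mem_erase.1 hv).1
        have hcard : ((S.erase u).erase v).card < n := by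
          rw [← hSn]
          exact (Finset.card_lt_card (Finset.erase_ssubset hv)).trans_le
            (Finset.card_le_card (Finset.erase_subset _ _))
        obtain ⟨M, l, hp, hM, hl, hsum⟩ := ih _ hcard ((S.erase u).erase v) (s v) rfl
          (hs v hvS).1 (fun w hw => by
            have hw1 : w ∈ S.erase u := Finset.mem_of_mem_erase hw
            exact ⟨(hs w (Finset.mem_of_mem_erase hw1)).1, hvmax w hw1⟩)
        have hSe : S = (S.erase u).erase v ∪ {u, v} := by
          ext w
          simp only [Finset.mem_union, Finset.mem_erase, Finset.mem_insert, Finset.mem_singleton]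
          by_cases h1 : w = u
          · subst h1; simp [hu]
          · by_cases h2 : w = v
            · subst h2; simp [hvS]
            · simp [h1, h2]
        refine ⟨M - MM B u v, ((s u - s v : ℤ) : ℝ) :: l, ?_, ?_, ?_, ?_⟩
        · have := Pairs.opp _ M l u v hp (fun h => (Finset.mem_erase.1
            (Finset.mem_of_mem_erase h)).1 rfl) (Finset.notMem_erase _ _) hvu.symm
          rwa [← hSe] at this
        · have : 0 ≤ MM B u v := by unfold MM; linarith [h0 u v, h0 v u]
          linarith
        · intro d hd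
          rcases List.mem_cons.1 hd with rfl | hd
          · have := humax v hvS
            exact_mod_cast sub_nonneg.2 this
          · exact hl d hd
        · rw [List.sum_cons]
          have h5 : ((s u : ℤ) : ℝ) ≤ β := by exact_mod_cast (hs u hu).2
          push_cast
          linarith

lemma Pairs.neg {s : V → ℤ} {S : Finset V} {M : ℤ} {l : List ℝ}
    (h : Pairs B (fun v => - s v) S M l) : Pairs B s S M (l.map fun d => -d) := by
  induction h with
  | empty => exact Pairs.empty
  | opp S M l u v hS hu hv huv ih =>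
    have := Pairs.opp S M _ u v ih hu hv huv
    have e : ((s u - s v : ℤ) : ℝ) = -((-s u - -s v : ℤ) : ℝ) := by push_cast; ring
    rw [e] at this
    exact this
  | same S M l u v hS hu hv huv ih =>
    have := Pairs.same S M _ u v ih hu hv huv
    have e : ((s u + s v : ℤ) : ℝ) = -((-s u + -s v : ℤ) : ℝ) := by push_cast; ring
    rw [e] at this
    exact this
  | one S M l v hS hv ih =>
    have := Pairs.one S M _ v ih hv
    have e : ((s v : ℤ) : ℝ) = -((-s v : ℤ) : ℝ) := by push_cast; ring
    rw [e] at this
    exact this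

lemma NS_map_neg (l : List ℝ) : ∀ c, NS (l.map fun d => -d) c = NS l c := by
  induction l with
  | nil => intro c; rfl
  | cons d l ih =>
    intro c
    simp only [List.map_cons, NS, ih]
    rw [show c - -d = c + d by ring, show c + -d = c - d by ring, add_comm]

/-- union of paired parts -/
lemma Pairs.union {s : V → ℤ} {S T : Finset V} {M M' : ℤ} {l l' : List ℝ}
    (hS : Pairs B s S M l) (hT : Pairs B s T M' l') (h : Disjoint S T) :
    Pairs B s (S ∪ T) (M + M') (l' ++ l) := by
  induction hT with
  | empty => simpa using hS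
  | opp T M' l' u v hT hu hv huv ih =>
    rw [Finset.disjoint_union_right] at h
    have h2 := h.2
    rw [Finset.disjoint_insert_right, Finset.disjoint_singleton_right] at h2
    rw [← Finset.union_assoc, ← add_sub_assoc, List.cons_append]
    refine Pairs.opp _ _ _ u v (ih h.1) ?_ ?_ huv
    · simp only [Finset.mem_union, not_or]; exact ⟨h2.1, hu⟩
    · simp only [Finset.mem_union, not_or]; exact ⟨h2.2, hv⟩
  | same T M' l' u v hT hu hv huv ih =>
    rw [Finset.disjoint_union_right] at h
    have h2 := h.2
    rw [Finset.disjoint_insert_right, Finset.disjoint_singleton_right] at h2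
    rw [← Finset.union_assoc, ← add_assoc, List.cons_append]
    refine Pairs.same _ _ _ u v (ih h.1) ?_ ?_ huv
    · simp only [Finset.mem_union, not_or]; exact ⟨h2.1, hu⟩
    · simp only [Finset.mem_union, not_or]; exact ⟨h2.2, hv⟩
  | one T M' l' v hT hv ih =>
    rw [Finset.disjoint_union_right] at h
    have h2 := h.2
    rw [Finset.disjoint_singleton_right] at h2
    rw [← Finset.union_assoc, List.cons_append]
    refine Pairs.one _ _ _ v (ih h.1) ?_
    simp only [Finset.mem_union, not_or]; exact ⟨h2, hv⟩

/-- the crossing step of a good set -/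
theorem Good.cross {a x t : V → ℤ} {S : Finset V} (hS : Good B a x S) (c : ℝ) (hc0 : 0 < c)
    (hc : c ≤ ((∑ v ∈ S, t v * x v : ℤ) : ℝ)) :
    ∃ (P : Finset V) (v : V), v ∉ P ∧ insert v P ⊆ S ∧ DD B a x P ≤ ch a P ∧
      DD B a x (insert v P) ≤ ch a (insert v P) ∧ ((∑ u ∈ P, t u * x u : ℤ) : ℝ) < c ∧
      c ≤ ((∑ u ∈ insert v P, t u * x u : ℤ) : ℝ) := by
  induction hS with
  | empty => simp at hc; linarith
  | step S v hS hv hD ih =>
    rcases lt_or_ge ((∑ u ∈ S, t u * x u : ℤ) : ℝ) c with h1 | h1
    · exact ⟨S, v, hv, Finset.Subset.refl _, hS.le, hD, h1, hc⟩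
    · obtain ⟨P, w, h2, h3, h4⟩ := ih h1
      exact ⟨P, w, h2, h3.trans (Finset.subset_insert _ _), h4⟩

end Pool.Agent.Exact


end
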