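import Mathlib
import Pool.Agent.EXAM.C01

/-! Parts: Lib_helper68.Exact.Realise, Lib_helper68.Exact.Gain, Lib_helper68.Exact.Single -/

section

/-!
# Realising a block structure by a sign pattern
-/

set_option autoImplicit false
set_option linter.unusedSectionVars false

namespace Pool.Agent.Exact

open Finset

variable {V : Type*} [DecidableEq V] {B : V → V → ℤ} {a : V → ℤ}

lemma insert_pair_eq (u v : V) : ({u, v} : Finset V) = insert u {v} := rfl

/-- an adjacent pair and a further vertex can be added to a good set -/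
lemma Good.hole {S : Finset V} {x : V → ℤ} (hS : Good B a x S) (h0 : ∀ u v, 0 ≤ B u v)
    (hB : ∀ v, B v v = 0) (ha : ∀ v, 0 ≤ a v ∧ a v ≤ 2) (u v w : V) (hu : u ∉ S) (hv : v ∉ S)
    (hw : w ∉ S) (huv : u ≠ v) (huw : u ≠ w) (hvw : v ≠ w) (h1 : 1 ≤ MM B u v) (σ : ℤ)
    (hσ : σ = 1 ∨ σ = -1) (hxu : x u = σ) (hxv : x v = -σ) (hxw : x w = 1 ∨ x w = -1)
    (hint : Int B S {u, v} x ≤ 0) (hint' : Int B (S ∪ {u, v}) {w} x ≤ 0) :
    Good B a x (insert w (S ∪ {u, v})) := by
  have hvv : ∀ l ∈ ({v} : Finset V), ∀ l' ∈ ({v} : Finset V), MM B l l' = 0 := by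
    intro l hl l' hl'
    rw [Finset.mem_singleton] at hl hl'
    rw [hl, hl']
    simp [MM, hB]
  obtain ⟨g1, g2⟩ := hS.star h0 hB ha u {v} hu (by simpa using huv) (by simpa using hv)
    (by simp) (by simpa using h1) hvv σ hσ hxu (by simpa using hxv) hint
  rw [← insert_pair_eq] at g1 g2
  simp only [Finset.sum_singleton, Finset.card_singleton, Nat.cast_one] at g2
  have hwS : w ∉ S ∪ {u, v} := by
    simp only [Finset.mem_union, Finset.mem_insert, Finset.mem_singleton, not_or]
    exact ⟨hw, huw.symm, hvw.symm⟩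
  refine Good.step _ w g1 hwS ?_
  have e : insert w (S ∪ {u, v}) = (S ∪ {u, v}) ∪ {w} := by
    ext z; simp only [Finset.mem_insert, Finset.mem_union, Finset.mem_singleton]; tauto
  have hd : Disjoint (S ∪ {u, v}) {w} := by simpa using hwS
  have hd2 : Disjoint S {u, v} := by
    rw [Finset.disjoint_right]
    intro z hz
    rw [Finset.mem_insert, Finset.mem_singleton] at hz
    rcases hz with rfl | rfl
    · exact hu
    · exact hv
  rw [e, DD_union hd, Qd_single w hB, ch_union hd, ch_union hd2]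
  simp only [Finset.sum_singleton, add_zero]
  have e2 : ch a {u, v} = (if a u = 1 then 0 else 1) + (if a v = 1 then 0 else 1) := by
    unfold ch
    rw [Finset.sum_pair huv]
  have e3 : ch a {w} = if a w = 1 then 0 else 1 := by simp [ch]
  rw [e2, e3]
  have h3 : σ * (a u - a v) ≤ (if a u = 1 then 0 else 1) + (if a v = 1 then 0 else 1) := by
    have hu2 := ha u
    have hv2 := ha v
    rcases hσ with h | h <;> rw [h] <;> split_ifs <;> omega
  have h4 : a w * x w ≤ (if a w = 1 then 0 else 1) + 1 := by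
    have hw2 := ha w
    rcases hxw with h | h <;> rw [h] <;> split_ifs <;> omega
  linarith

/-- every block structure is realised by a sign pattern with small quadratic form which can be
built vertex by vertex, also after a global change of sign -/
theorem Blocks.realise {S : Finset V} {g : ℤ} (h : Blocks B S g) (h0 : ∀ u v, 0 ≤ B u v)
    (hB : ∀ v, B v v = 0) (ha : ∀ v, 0 ≤ a v ∧ a v ≤ 2) :
    ∃ x : V → ℤ, (∀ v, x v = 1 ∨ x v = -1) ∧ Qd B S x ≤ -g ∧ Good B a x S ∧
      Good B a (fun v => - x v) S := by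
  induction h with
  | empty => exact ⟨fun _ => 1, fun _ => Or.inl rfl, by simp [Qd], Good.empty, Good.empty⟩
  | star S g c L hS hcS hcL hLS hL h1 h2 ih =>
    obtain ⟨x0, hx0, hq, hg, hg'⟩ := ih
    have hd : Disjoint S (insert c L) := by
      rw [Finset.disjoint_insert_right]
      exact ⟨hcS, hLS.symm⟩
    set y : ℤ → V → ℤ := fun σ v => if v = c then σ else if v ∈ L then -σ else x0 v with hy
    have hyc : ∀ σ, y σ c = σ := by intro σ; simp [hy]
    have hyL : ∀ σ, ∀ l ∈ L, y σ l = -σ := by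
      intro σ l hl
      have : l ≠ c := fun e => hcL (e ▸ hl)
      simp [hy, this, hl]
    have hyS : ∀ σ, ∀ v ∈ S, y σ v = x0 v := by
      intro σ v hv
      have h3 : v ≠ c := fun e => hcS (e ▸ hv)
      have h4 : v ∉ L := fun h => Finset.disjoint_left.1 hLS h hv
      simp [hy, h3, h4]
    have hJ : ∀ σ, (σ = 1 ∨ σ = -1) →
        Int B S (insert c L) (y σ) = σ * Int B S (insert c L) (y 1) := by
      intro σ hσ
      unfold Int
      rw [Finset.mul_sum]
      refine Finset.sum_congr rfl fun u hu => ?_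
      rw [Finset.mul_sum]
      refine Finset.sum_congr rfl fun v hv => ?_
      rw [hyS σ u hu, hyS 1 u hu]
      rcases Finset.mem_insert.1 hv with rfl | hv
      · rw [hyc, hyc]; ring
      · rw [hyL σ v hv, hyL 1 v hv]; ring
    obtain ⟨σ, hσ, hσJ⟩ : ∃ σ : ℤ, (σ = 1 ∨ σ = -1) ∧ Int B S (insert c L) (y σ) ≤ 0 := by
      rcases le_total (Int B S (insert c L) (y 1)) 0 with h3 | h3
      · exact ⟨1, Or.inl rfl, h3⟩
      · refine ⟨-1, Or.inr rfl, ?_⟩
        rw [hJ _ (Or.inr rfl)]
        linarith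
    refine ⟨y σ, ?_, ?_, ?_, ?_⟩
    · intro v
      simp only [hy]
      split_ifs
      · exact hσ
      · rcases hσ with h | h <;> rw [h] <;> norm_num
      · exact hx0 v
    · rw [Qd_union hd, Qd_congr (hyS σ), Qd_star c L hcL h0 hB h2]
      have : ∑ l ∈ L, MM B c l * (y σ c * y σ l) = - ∑ l ∈ L, MM B c l := by
        rw [← Finset.sum_neg_distrib]
        refine Finset.sum_congr rfl fun l hl => ?_
        rw [hyc, hyL σ l hl]
        rcases hσ with h | h <;> rw [h] <;> ring
      rw [this]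
      linarith
    · exact ((hg.congr fun v hv => (hyS σ v hv).symm).star h0 hB ha c L hcS hcL hLS hL h1 h2 σ hσ
        (hyc σ) (hyL σ) hσJ).1
    · refine (Good.star (hg'.congr fun v hv => by rw [hyS σ v hv]) h0 hB ha c L hcS hcL hLS hL
        h1 h2 (-σ) ?_ (by rw [hyc σ]) (fun l hl => by rw [hyL σ l hl]) ?_).1
      · rcases hσ with h | h
        · right; rw [h]
        · left; rw [h]; norm_num
      · rw [Int_neg]; exact hσJ
  | hole S g u v w hS hu hv hw huv huw hvw h1 ih =>
    obtain ⟨x0, hx0, hq, hg, hg'⟩ := ih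
    have hd : Disjoint S {u, v} := by
      rw [Finset.disjoint_right]
      intro z hz
      rw [Finset.mem_insert, Finset.mem_singleton] at hz
      rcases hz with rfl | rfl
      · exact hu
      · exact hv
    have hvv : ∀ l ∈ ({v} : Finset V), ∀ l' ∈ ({v} : Finset V), MM B l l' = 0 := by
      intro l hl l' hl'
      rw [Finset.mem_singleton] at hl hl'
      rw [hl, hl']
      simp [MM, hB]
    have hwS : w ∉ S ∪ {u, v} := by
      simp only [Finset.mem_union, Finset.mem_insert, Finset.mem_singleton, not_or]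
      exact ⟨hw, huw.symm, hvw.symm⟩
    have hdw : Disjoint (S ∪ {u, v}) {w} := by simpa using hwS
    set y : ℤ → ℤ → V → ℤ := fun σ τ z => if z = u then σ else if z = v then -σ else
      if z = w then τ else x0 z with hy
    have hyu : ∀ σ τ, y σ τ u = σ := by intro σ τ; simp [hy]
    have hyv : ∀ σ τ, y σ τ v = -σ := by intro σ τ; simp [hy, huv.symm]
    have hyw : ∀ σ τ, y σ τ w = τ := by intro σ τ; simp [hy, huw.symm, hvw.symm]
    have hyS : ∀ σ τ, ∀ z ∈ S, y σ τ z = x0 z := by
      intro σ τ z hz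
      have h3 : z ≠ u := fun e => hu (e ▸ hz)
      have h4 : z ≠ v := fun e => hv (e ▸ hz)
      have h5 : z ≠ w := fun e => hw (e ▸ hz)
      simp [hy, h3, h4, h5]
    have hJ : ∀ σ τ, Int B S {u, v} (y σ τ) = σ * Int B S {u, v} (y 1 1) := by
      intro σ τ
      unfold Int
      rw [Finset.mul_sum]
      refine Finset.sum_congr rfl fun z hz => ?_
      rw [Finset.sum_pair huv, Finset.sum_pair huv, hyu, hyv, hyS σ τ z hz, hyu, hyv,
        hyS 1 1 z hz]
      ring
    obtain ⟨σ, hσ, hσJ⟩ : ∃ σ : ℤ, (σ = 1 ∨ σ = -1) ∧ ∀ τ, Int B S {u, v} (y σ τ) ≤ 0 := by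
      rcases le_total (Int B S {u, v} (y 1 1)) 0 with h3 | h3
      · exact ⟨1, Or.inl rfl, fun τ => by rw [hJ]; linarith⟩
      · refine ⟨-1, Or.inr rfl, fun τ => ?_⟩
        rw [hJ]
        linarith
    have hJ' : ∀ τ, Int B (S ∪ {u, v}) {w} (y σ τ) = τ * Int B (S ∪ {u, v}) {w} (y σ 1) := by
      intro τ
      unfold Int
      rw [Finset.mul_sum]
      refine Finset.sum_congr rfl fun z hz => ?_
      rw [Finset.sum_singleton, Finset.sum_singleton, hyw, hyw]
      have : y σ τ z = y σ 1 z := by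
        have h5 : z ≠ w := fun e => hwS (e ▸ hz)
        simp [hy, h5]
      rw [this]
      ring
    obtain ⟨τ, hτ, hτJ⟩ : ∃ τ : ℤ, (τ = 1 ∨ τ = -1) ∧ Int B (S ∪ {u, v}) {w} (y σ τ) ≤ 0 := by
      rcases le_total (Int B (S ∪ {u, v}) {w} (y σ 1)) 0 with h3 | h3
      · exact ⟨1, Or.inl rfl, h3⟩
      · refine ⟨-1, Or.inr rfl, ?_⟩
        rw [hJ']
        linarith
    refine ⟨y σ τ, ?_, ?_, ?_, ?_⟩
    · intro z
      simp only [hy]
      split_ifs
      · exact hσ
      · rcases hσ with h | h <;> rw [h] <;> norm_num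
      · exact hτ
      · exact hx0 z
    · have e : insert w (S ∪ {u, v}) = (S ∪ {u, v}) ∪ {w} := by
        ext z; simp only [Finset.mem_insert, Finset.mem_union, Finset.mem_singleton]; tauto
      rw [e, Qd_union hdw, Qd_union hd, Qd_congr (hyS σ τ), Qd_single w hB, insert_pair_eq,
        Qd_star u {v} (by simpa using huv) h0 hB hvv, ← insert_pair_eq]
      simp only [Finset.sum_singleton]
      have h3 := hσJ τ
      have h4 : MM B u v * (y σ τ u * y σ τ v) = - MM B u v := by
        rw [hyu, hyv]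
        rcases hσ with h | h <;> rw [h] <;> ring
      rw [h4]
      linarith
    · exact (hg.congr fun z hz => (hyS σ τ z hz).symm).hole h0 hB ha u v w hu hv hw huv huw hvw h1
        σ hσ (hyu σ τ) (hyv σ τ) (by rw [hyw]; exact hτ) (hσJ τ) hτJ
    · refine Good.hole (hg'.congr fun z hz => by rw [hyS σ τ z hz]) h0 hB ha u v w hu hv hw huv huw
        hvw h1 (-σ) ?_ (by rw [hyu]) (by rw [hyv]) ?_ ?_ ?_
      · rcases hσ with h | h
        · right; rw [h]
        · left; rw [h]; norm_num
      · rw [hyw]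
        rcases hτ with h | h
        · right; rw [h]
        · left; rw [h]; norm_num
      · rw [Int_neg]; exact hσJ τ
      · rw [Int_neg]; exact hτJ

lemma Blocks.union {S T : Finset V} {g g' : ℤ} (hS : Blocks B S g) (hT : Blocks B T g')
    (h : Disjoint S T) : Blocks B (S ∪ T) (g + g') := by
  induction hT with
  | empty => simpa using hS
  | star T g' c L hT hcT hcL hLT hL h1 h2 ih =>
    rw [Finset.disjoint_union_right, Finset.disjoint_insert_right] at h
    have e : S ∪ (T ∪ insert c L) = (S ∪ T) ∪ insert c L := (Finset.union_assoc _ _ _).symm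
    rw [e, ← add_assoc]
    refine Blocks.star _ _ c L (ih h.1) ?_ hcL ?_ hL h1 h2
    · simp only [Finset.mem_union, not_or]
      exact ⟨h.2.1, hcT⟩
    · rw [Finset.disjoint_union_right]
      exact ⟨h.2.2.symm, hLT⟩
  | hole T g' u v w hT hu hv hw huv huw hvw h1 ih =>
    have hsub : T ⊆ insert w (T ∪ {u, v}) :=
      Finset.subset_union_left.trans (Finset.subset_insert _ _)
    have hmem : ∀ z, z = u ∨ z = v ∨ z = w → z ∉ S := by
      intro z hz hzS
      refine Finset.disjoint_left.1 h hzS ?_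
      simp only [Finset.mem_insert, Finset.mem_union, Finset.mem_singleton]
      tauto
    have e : S ∪ insert w (T ∪ {u, v}) = insert w ((S ∪ T) ∪ {u, v}) := by
      rw [Finset.union_insert, Finset.union_assoc]
    rw [e, ← add_assoc]
    refine Blocks.hole _ _ u v w (ih (Finset.disjoint_of_subset_right hsub h)) ?_ ?_ ?_ huv huw
      hvw h1
    · simp only [Finset.mem_union, not_or]; exact ⟨hmem u (Or.inl rfl), hu⟩
    · simp only [Finset.mem_union, not_or]; exact ⟨hmem v (Or.inr (Or.inl rfl)), hv⟩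
    · simp only [Finset.mem_union, not_or]; exact ⟨hmem w (Or.inr (Or.inr rfl)), hw⟩

end Pool.Agent.Exact


end

section

/-!
# The gain of block structures
-/

set_option autoImplicit false
set_option linter.unusedSectionVars false

namespace Pool.Agent.Exact

open Finset

variable {V : Type*} [DecidableEq V] {B : V → V → ℤ}

/-- adjacency -/
def Adj (B : V → V → ℤ) (u v : V) : Prop := 1 ≤ MM B u v

lemma Adj.symm {u v : V} (h : Adj B u v) : Adj B v u := by
  unfold Adj at *
  rwa [MM_comm]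

lemma adj_irrefl (hB : ∀ v, B v v = 0) (v : V) : ¬ Adj B v v := by
  unfold Adj MM
  rw [hB]
  norm_num

lemma sc_blocks (h0 : ∀ u v, 0 ≤ B u v) {S : Finset V} (h : StarCover (Adj B) S) :
    ∃ g, Blocks B S g ∧ (S.card : ℤ) ≤ 2 * g := by
  induction h with
  | empty => exact ⟨0, Blocks.empty, by simp⟩
  | cons S c L hS hcS hcL hLS hL h1 h2 ih =>
    obtain ⟨g, hg, hc⟩ := ih
    refine ⟨_, Blocks.star S g c L hg hcS hcL hLS hL h1 ?_, ?_⟩
    · intro l hl l' hl'
      have h3 := h2 l hl l' hl'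
      unfold Adj at h3
      have h4 : 0 ≤ MM B l l' := by
        unfold MM; linarith [h0 l l', h0 l' l]
      omega
    · have hd : Disjoint S (insert c L) := by
        rw [Finset.disjoint_insert_right]
        exact ⟨hcS, hLS.symm⟩
      rw [Finset.card_union_of_disjoint hd, Finset.card_insert_of_notMem hcL]
      have h3 : ∑ l ∈ L, (1 : ℤ) ≤ ∑ l ∈ L, MM B c l := Finset.sum_le_sum fun l hl => h1 l hl
      rw [Finset.sum_const, nsmul_eq_mul, mul_one] at h3
      have h4 : (1 : ℤ) ≤ L.card := by exact_mod_cast hL.card_pos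
      push_cast
      linarith

lemma hole_blocks (h0 : ∀ u v, 0 ≤ B u v) (hB : ∀ v, B v v = 0) {S : Finset V}
    (hS : ∀ v ∈ S, PMatch (Adj B) (S.erase v)) (h2 : 2 ≤ S.card) :
    (∃ g, Blocks B S g ∧ (S.card : ℤ) ≤ 2 * g + 1) ∧
      ∀ u ∈ S, ∀ v ∈ S, 2 ≤ MM B u v → ∃ g, Blocks B S g ∧ (S.card : ℤ) + 1 ≤ 2 * g := by
  have hsym : ∀ x y, Adj B x y → Adj B y x := fun x y h => h.symm
  have hirr := adj_irrefl hB
  constructor
  · obtain ⟨w, hw⟩ : S.Nonempty := Finset.card_pos.1 (by omega)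
    obtain ⟨y, hy⟩ : (S.erase w).Nonempty := by
      apply Finset.card_pos.1
      rw [Finset.card_erase_of_mem hw]
      omega
    obtain ⟨T, z, hT, hyT, hzT, hyz, hadj, he⟩ := (hS w hw).exists_pair hsym hy
    obtain ⟨g, hg, hc⟩ := sc_blocks h0 (hT.starCover hirr)
    have hwe : w ∉ T ∪ {y, z} := by
      rw [← he]; exact Finset.notMem_erase _ _
    have hw1 : w ∉ T := fun h => hwe (by simp [h])
    have hw2 : y ≠ w := fun h => hwe (by simp [h])
    have hw3 : z ≠ w := fun h => hwe (by simp [h])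
    have hSe : S = insert w (T ∪ {y, z}) := by
      rw [← he, Finset.insert_erase hw]
    refine ⟨g + MM B y z, ?_, ?_⟩
    · rw [hSe]
      exact Blocks.hole T g y z w hg hyT hzT hw1 hyz hw2 hw3 hadj
    · have hcard : S.card = T.card + 3 := by
        rw [hSe, Finset.card_insert_of_notMem hwe, Finset.card_union_of_disjoint,
          Finset.card_pair hyz]
        rw [Finset.disjoint_right]
        intro x hx
        simp only [Finset.mem_insert, Finset.mem_singleton] at hx
        rcases hx with rfl | rfl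
        · exact hyT
        · exact hzT
      rw [hcard]
      unfold Adj at hadj
      push_cast
      linarith
  · intro u hu v hv huv2
    have huv : u ≠ v := by
      rintro rfl
      unfold MM at huv2
      rw [hB] at huv2
      norm_num at huv2
    obtain ⟨T, z, hT, hvT, hzT, hvz, hadj, he⟩ :=
      (hS u hu).exists_pair hsym (y := v) (Finset.mem_erase.2 ⟨huv.symm, hv⟩)
    obtain ⟨g, hg, hc⟩ := sc_blocks h0 (hT.starCover hirr)
    have hue : u ∉ T ∪ {v, z} := by
      rw [← he]; exact Finset.notMem_erase _ _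
    have hu1 : u ∉ T := fun h => hue (by simp [h])
    have hu3 : u ≠ z := fun h => hue (by simp [h])
    have hSe : S = insert z (T ∪ {u, v}) := by
      rw [← Finset.insert_erase hu, he]
      ext x
      simp only [Finset.mem_insert, Finset.mem_union, Finset.mem_singleton]
      tauto
    refine ⟨g + MM B u v, ?_, ?_⟩
    · rw [hSe]
      exact Blocks.hole T g u v z hg hu1 hvT hzT huv hu3 hvz (by linarith)
    · have hzm : z ∉ T ∪ {u, v} := by
        simp only [Finset.mem_union, Finset.mem_insert, Finset.mem_singleton, not_or]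
        exact ⟨hzT, hu3.symm, hvz.symm⟩
      have hcard : S.card = T.card + 3 := by
        rw [hSe, Finset.card_insert_of_notMem hzm, Finset.card_union_of_disjoint,
          Finset.card_pair huv]
        rw [Finset.disjoint_right]
        intro x hx
        simp only [Finset.mem_insert, Finset.mem_singleton] at hx
        rcases hx with rfl | rfl
        · exact hu1
        · exact hvT
      rw [hcard]
      push_cast
      linarith

/-- number of arcs inside -/
def EE (B : V → V → ℤ) (K : Finset V) : ℤ := ∑ u ∈ K, ∑ v ∈ K, B u v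

lemma two_EE (K : Finset V) : 2 * EE B K = ∑ u ∈ K, ∑ v ∈ K, MM B u v := by
  unfold EE MM
  have : ∑ u ∈ K, ∑ v ∈ K, B v u = ∑ u ∈ K, ∑ v ∈ K, B u v := Finset.sum_comm
  simp only [Finset.sum_add_distrib]
  rw [this]
  ring

lemma EE_le_of_simple (hB : ∀ v, B v v = 0) {K : Finset V}
    (h : ∀ u ∈ K, ∀ v ∈ K, MM B u v ≤ 1) : 2 * EE B K ≤ K.card * (K.card - 1) := by
  rw [two_EE]
  have h1 : ∀ u ∈ K, ∑ v ∈ K, MM B u v ≤ (K.card : ℤ) - 1 := by
    intro u hu
    rw [← Finset.add_sum_erase K _ hu]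
    have h2 : MM B u u = 0 := by unfold MM; rw [hB]; norm_num
    have h3 : ∑ v ∈ K.erase u, MM B u v ≤ ∑ v ∈ K.erase u, (1 : ℤ) :=
      Finset.sum_le_sum fun v hv => h u hu v (Finset.mem_of_mem_erase hv)
    rw [Finset.sum_const, nsmul_eq_mul, mul_one, Finset.card_erase_of_mem hu] at h3
    have h4 : 1 ≤ K.card := Finset.card_pos.2 ⟨u, hu⟩
    push_cast [Nat.cast_sub h4] at h3
    linarith
  calc ∑ u ∈ K, ∑ v ∈ K, MM B u v ≤ ∑ u ∈ K, ((K.card : ℤ) - 1) := Finset.sum_le_sum h1
    _ = K.card * (K.card - 1) := by rw [Finset.sum_const, nsmul_eq_mul]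

/-- the gain of a connected set -/
lemma conn_gain (h0 : ∀ u v, 0 ≤ B u v) (h1 : ∀ u v, B u v ≤ 1) (hB : ∀ v, B v v = 0) (h : V)
    (k : ℤ) (hk : 2 ≤ k) {K : Finset V} (hK : Conn (Adj B) K) (hne : K.Nonempty)
    (hdeg : k * K.card ≤ EE B K + ∑ v ∈ K, B v h ∨ k * K.card ≤ EE B K + ∑ v ∈ K, B h v) :
    ∃ g, Blocks B K g ∧ (2 * k - 1) * (∑ v ∈ K, B v h - ∑ v ∈ K, B h v) -
      (EE B K + ∑ v ∈ K, B v h + ∑ v ∈ K, B h v) ≤ (2 * k - 1) * g := by
  set i : ℤ := ∑ v ∈ K, B v h with hi
  set o : ℤ := ∑ v ∈ K, B h v with ho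
  set E : ℤ := EE B K with hE
  have hc1 : (1 : ℤ) ≤ K.card := by exact_mod_cast hne.card_pos
  have hi0 : 0 ≤ i := Finset.sum_nonneg fun v _ => h0 _ _
  have ho0 : 0 ≤ o := Finset.sum_nonneg fun v _ => h0 _ _
  have hi1 : i ≤ K.card := by
    have : i ≤ ∑ v ∈ K, (1 : ℤ) := Finset.sum_le_sum fun v _ => h1 _ _
    simpa using this
  have ho1 : o ≤ K.card := by
    have : o ≤ ∑ v ∈ K, (1 : ℤ) := Finset.sum_le_sum fun v _ => h1 _ _
    simpa using this
  -- requirement
  have hreq : 2 * ((2 * k - 1) * (i - o) - (E + i + o)) ≤ (2 * k - 2) * K.card := by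
    have e1 : (2 * k - 1) * i ≤ (2 * k - 1) * K.card :=
      mul_le_mul_of_nonneg_left hi1 (by linarith)
    have e2 : 0 ≤ (2 * k - 1) * o := mul_nonneg (by linarith) ho0
    have e3 : o ≤ (2 * k - 1) * o := by nlinarith
    rcases hdeg with hd | hd
    · nlinarith
    · nlinarith
  have hcard2 : 2 ≤ K.card := by
    by_contra hcon
    have h3 : K.card = 1 := by
      have := hne.card_pos
      omega
    obtain ⟨v, hv⟩ := Finset.card_eq_one.1 h3
    have hE0 : E = 0 := by
      rw [hE, hv]; simp [EE, hB]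
    rw [hE0, h3] at hdeg
    rw [h3] at hi1 ho1
    push_cast at hdeg hi1 ho1
    rcases hdeg with hd | hd <;> linarith
  rcases starCover_or_pmatch (G := Adj B) (fun x y h => h.symm) (adj_irrefl hB) hK with hs | hs
  · obtain ⟨g, hg, hc⟩ := sc_blocks h0 hs
    refine ⟨g, hg, ?_⟩
    nlinarith
  · obtain ⟨⟨g, hg, hc⟩, hdouble⟩ := hole_blocks h0 hB hs hcard2
    by_cases hbig : 2 * k - 1 ≤ (K.card : ℤ)
    · refine ⟨g, hg, ?_⟩
      nlinarith
    · by_cases hsimple : ∀ u ∈ K, ∀ v ∈ K, MM B u v ≤ 1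
      · exfalso
        have h3 := EE_le_of_simple hB hsimple
        rw [← hE] at h3
        push Not at hbig
        have h4 : k * K.card ≤ E + K.card := by
          rcases hdeg with hd | hd <;> linarith
        have h5 : (K.card : ℤ) * (2 * k) ≤ K.card * (K.card + 1) := by nlinarith
        have h6 : 2 * k ≤ (K.card : ℤ) + 1 := le_of_mul_le_mul_left h5 (by linarith)
        linarith
      · push Not at hsimple
        obtain ⟨u, hu, v, hv, huv⟩ := hsimple
        obtain ⟨g, hg, hc⟩ := hdouble u hu v hv (by linarith)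
        refine ⟨g, hg, ?_⟩
        nlinarith

/-- `K` is a union of components of `S` -/
def ClosedIn (B : V → V → ℤ) (S K : Finset V) : Prop :=
  K ⊆ S ∧ ∀ u ∈ K, ∀ v ∈ S \ K, MM B u v = 0

lemma exists_conn_closed (h0 : ∀ u v, 0 ≤ B u v) {S : Finset V} (hS : S.Nonempty) :
    ∃ K, K.Nonempty ∧ ClosedIn B S K ∧ Conn (Adj B) K := by
  classical
  set F := S.powerset.filter (fun K => K.Nonempty ∧ ClosedIn B S K) with hF
  have hFne : F.Nonempty := by
    refine ⟨S, ?_⟩
    rw [hF, Finset.mem_filter, Finset.mem_powerset]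
    refine ⟨Finset.Subset.refl _, hS, Finset.Subset.refl _, ?_⟩
    intro u _ v hv
    simp at hv
  obtain ⟨K, hKF, hmin⟩ := Finset.exists_min_image F Finset.card hFne
  rw [hF, Finset.mem_filter, Finset.mem_powerset] at hKF
  obtain ⟨hKS, hKne, hKcl⟩ := hKF
  refine ⟨K, hKne, hKcl, ?_⟩
  intro T hTK hTne hTne'
  by_contra hcon
  push Not at hcon
  have hTcl : ClosedIn B S T := by
    refine ⟨hTK.trans hKS, ?_⟩
    intro u hu v hv
    rw [Finset.mem_sdiff] at hv
    by_cases hvK : v ∈ K
    · have h3 := hcon u hu v (Finset.mem_sdiff.2 ⟨hvK, hv.2⟩)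
      unfold Adj at h3
      have h4 : 0 ≤ MM B u v := by unfold MM; linarith [h0 u v, h0 v u]
      omega
    · exact hKcl.2 u (hTK hu) v (Finset.mem_sdiff.2 ⟨hv.1, hvK⟩)
  have hTF : T ∈ F := by
    rw [hF, Finset.mem_filter, Finset.mem_powerset]
    exact ⟨hTK.trans hKS, hTne, hTcl⟩
  have h5 := hmin T hTF
  exact hTne' (Finset.eq_of_subset_of_card_le hTK h5)

lemma EE_union {S T : Finset V} (hd : Disjoint S T) (h0 : ∀ u v, 0 ≤ B u v)
    (h : ∀ u ∈ S, ∀ v ∈ T, MM B u v = 0) : EE B (S ∪ T) = EE B S + EE B T := by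
  have hz : ∀ u ∈ S, ∀ v ∈ T, B u v = 0 ∧ B v u = 0 := by
    intro u hu v hv
    have h3 := h u hu v hv
    unfold MM at h3
    have := h0 u v
    have := h0 v u
    constructor <;> omega
  unfold EE
  rw [Finset.sum_union hd]
  congr 1
  · refine Finset.sum_congr rfl fun u hu => ?_
    rw [Finset.sum_union hd]
    have : ∑ v ∈ T, B u v = 0 := Finset.sum_eq_zero fun v hv => (hz u hu v hv).1
    rw [this, add_zero]
  · refine Finset.sum_congr rfl fun u hu => ?_
    rw [Finset.sum_union hd]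
    have : ∑ v ∈ S, B u v = 0 := Finset.sum_eq_zero fun v hv => (hz v hv u hu).2
    rw [this, zero_add]

/-- the total gain -/
theorem gain_all (h0 : ∀ u v, 0 ≤ B u v) (h1 : ∀ u v, B u v ≤ 1) (hB : ∀ v, B v v = 0) (h : V)
    (k : ℤ) (hk : 2 ≤ k) : ∀ (n : ℕ) (S : Finset V), S.card = n →
    (∀ K, ClosedIn B S K → k * K.card ≤ EE B K + ∑ v ∈ K, B v h ∨
      k * K.card ≤ EE B K + ∑ v ∈ K, B h v) →
    ∃ g, Blocks B S g ∧ (2 * k - 1) * (∑ v ∈ S, B v h - ∑ v ∈ S, B h v) -
      (EE B S + ∑ v ∈ S, B v h + ∑ v ∈ S, B h v) ≤ (2 * k - 1) * g := by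
  intro n
  induction n using Nat.strong_induction_on with
  | _ n ih =>
    intro S hSn hdeg
    rcases S.eq_empty_or_nonempty with rfl | hS
    · exact ⟨0, Blocks.empty, by simp [EE]⟩
    · obtain ⟨K, hKne, hKcl, hKconn⟩ := exists_conn_closed h0 hS
      obtain ⟨g1, hg1, hr1⟩ := conn_gain h0 h1 hB h k hk hKconn hKne (hdeg K hKcl)
      have hlt : (S \ K).card < n := by
        rw [← hSn, Finset.card_sdiff_of_subset hKcl.1]
        have := hKne.card_pos
        have := Finset.card_le_card hKcl.1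
        omega
      obtain ⟨g2, hg2, hr2⟩ := ih _ hlt (S \ K) rfl (by
        intro K' hK'
        apply hdeg
        refine ⟨hK'.1.trans Finset.sdiff_subset, ?_⟩
        intro u hu v hv
        rw [Finset.mem_sdiff] at hv
        by_cases hvK : v ∈ K
        · rw [MM_comm]
          exact hKcl.2 v hvK u (hK'.1 hu)
        · exact hK'.2 u hu v (by simp [hv.1, hv.2, hvK]))
      have hd : Disjoint K (S \ K) := Finset.disjoint_sdiff
      have he : K ∪ (S \ K) = S := Finset.union_sdiff_of_subset hKcl.1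
      refine ⟨g1 + g2, ?_, ?_⟩
      · have := hg1.union hg2 hd
        rwa [he] at this
      · have hEu := EE_union hd h0 hKcl.2
        rw [he] at hEu
        have hs1 : ∑ v ∈ S, B v h = ∑ v ∈ K, B v h + ∑ v ∈ S \ K, B v h := by
          rw [← Finset.sum_union hd, he]
        have hs2 : ∑ v ∈ S, B h v = ∑ v ∈ K, B h v + ∑ v ∈ S \ K, B h v := by
          rw [← Finset.sum_union hd, he]
        rw [hEu, hs1, hs2]
        linarith

end Pool.Agent.Exact


end

section

/-!
# One dominating vertex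
-/

set_option autoImplicit false
set_option linter.unusedSectionVars false

namespace Pool.Agent.Exact

open Finset

variable {V : Type*} [Fintype V] [DecidableEq V] {B : V → V → ℤ}

lemma MM_range (h0 : ∀ u v, 0 ≤ B u v) (h1 : ∀ u v, B u v ≤ 1) (u v : V) :
    0 ≤ MM B u v ∧ MM B u v ≤ 2 := by
  unfold MM
  constructor <;> linarith [h0 u v, h0 v u, h1 u v, h1 v u]

/-- tail of both types -/
theorem tail (h0 : ∀ u v, 0 ≤ B u v) (s : V → ℤ) (S : Finset V) (β : ℤ) (hβ : 0 ≤ β)
    (hs : ∀ v ∈ S, |s v| ≤ β) :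
    ∃ (M : ℤ) (l : List ℝ), Pairs B s S M l ∧ M ≤ 0 ∧
      ∀ c, NS l c ≤ max (max |c| β) ((|c| + 2 * β) / 2) := by
  obtain ⟨M1, l1, hp1, hM1, hl1, hs1⟩ := tail_pos h0 s _ (S.filter fun v => 0 ≤ s v) β rfl hβ
    (by
      intro v hv
      rw [Finset.mem_filter] at hv
      exact ⟨hv.2, (le_abs_self _).trans (hs v hv.1)⟩)
  obtain ⟨M2, l2, hp2, hM2, hl2, hs2⟩ := tail_pos h0 (fun v => - s v) _
    (S.filter fun v => ¬ 0 ≤ s v) β rfl hβ (by
      intro v hv
      rw [Finset.mem_filter] at hv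
      exact ⟨by linarith [not_le.1 hv.2], (neg_le_abs _).trans (hs v hv.1)⟩)
  have hp := hp1.union hp2.neg (Finset.disjoint_filter_filter_not _ _ _)
  rw [Finset.filter_union_filter_not_eq] at hp
  refine ⟨M1 + M2, _, hp, by linarith, ?_⟩
  intro c
  -- replace by the list of absolute values
  have key : ∀ (l l' : List ℝ) (c : ℝ), NS (l'.map (fun d => -d) ++ l) c = NS (l' ++ l) c := by
    intro l l'
    induction l' with
    | nil => intro c; rfl
    | cons d l' ih =>
      intro c
      simp only [List.map_cons, List.cons_append, NS, ih]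
      rw [show c - -d = c + d by ring, show c + -d = c - d by ring, add_comm]
  rw [key]
  have hmem : ∀ d ∈ l2 ++ l1, 0 ≤ d ∧ d ≤ (β : ℝ) := by
    intro d hd
    rcases List.mem_append.1 hd with hd | hd
    · exact ⟨hl2 d hd, (List.single_le_sum hl2 d hd).trans hs2⟩
    · exact ⟨hl1 d hd, (List.single_le_sum hl1 d hd).trans hs1⟩
  have h3 := NS_le (β : ℝ) (by exact_mod_cast hβ) (l2 ++ l1) hmem c
  refine h3.trans (max_le_max le_rfl ?_)
  rw [List.sum_append]
  linarith

/-- the number of vertices with one arc from or to `h` -/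
lemma ch_add_le (h0 : ∀ u v, 0 ≤ B u v) (h1 : ∀ u v, B u v ≤ 1) (h : V) (S : Finset V) :
    (∑ v ∈ S, (B v h - B h v)) + ch (MM B h) S ≤ S.card := by
  unfold ch
  rw [← Finset.sum_add_distrib]
  calc ∑ v ∈ S, (B v h - B h v + if MM B h v = 1 then 0 else 1) ≤ ∑ v ∈ S, (1 : ℤ) := by
        refine Finset.sum_le_sum fun v _ => ?_
        have := h0 v h
        have := h0 h v
        have := h1 v h
        have := h1 h v
        unfold MM
        split_ifs <;> omega
    _ = S.card := by simp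

lemma im_eq (hB : ∀ v, B v v = 0) (h : V) :
    im B h = - ∑ v ∈ univ.erase h, (B v h - B h v) := by
  unfold im
  rw [Finset.sum_sub_distrib, ← Finset.add_sum_erase univ (fun u => B h u) (Finset.mem_univ h),
    ← Finset.add_sum_erase univ (fun u => B u h) (Finset.mem_univ h), hB]
  ring

/-- all arcs -/
def mm (B : V → V → ℤ) : ℤ := ∑ u, ∑ v, B u v

lemma mm_eq (hB : ∀ v, B v v = 0) (h : V) :
    mm B = EE B (univ.erase h) + ∑ v ∈ univ.erase h, B v h + ∑ v ∈ univ.erase h, B h v := by
  unfold mm EE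
  rw [← Finset.add_sum_erase univ _ (Finset.mem_univ h),
    ← Finset.add_sum_erase univ (fun v => B h v) (Finset.mem_univ h), hB]
  have : ∀ u ∈ univ.erase h, ∑ v, B u v = B u h + ∑ v ∈ univ.erase h, B u v := by
    intro u _
    rw [← Finset.add_sum_erase univ _ (Finset.mem_univ h)]
  rw [Finset.sum_congr rfl this, Finset.sum_add_distrib]
  ring

lemma closed_out (h0 : ∀ u v, 0 ≤ B u v) (h : V) {K : Finset V}
    (hK : ClosedIn B (univ.erase h) K) : ∑ v ∈ K, ∑ u, B v u = EE B K + ∑ v ∈ K, B v h := by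
  unfold EE
  rw [← Finset.sum_add_distrib]
  refine Finset.sum_congr rfl fun v hv => ?_
  rw [← Finset.add_sum_erase univ _ (Finset.mem_univ h), add_comm]
  congr 1
  refine (Finset.sum_subset hK.1 ?_).symm
  intro u hu huK
  have h3 := hK.2 v hv u (Finset.mem_sdiff.2 ⟨hu, huK⟩)
  unfold MM at h3
  have := h0 v u
  have := h0 u v
  omega

lemma closed_in (h0 : ∀ u v, 0 ≤ B u v) (h : V) {K : Finset V}
    (hK : ClosedIn B (univ.erase h) K) : ∑ v ∈ K, ∑ u, B u v = EE B K + ∑ v ∈ K, B h v := by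
  have e : EE B K = ∑ v ∈ K, ∑ u ∈ K, B u v := by
    unfold EE; rw [Finset.sum_comm]
  rw [e, ← Finset.sum_add_distrib]
  refine Finset.sum_congr rfl fun v hv => ?_
  rw [← Finset.add_sum_erase univ _ (Finset.mem_univ h), add_comm]
  congr 1
  refine (Finset.sum_subset hK.1 ?_).symm
  intro u hu huK
  have h3 := hK.2 v hv u (Finset.mem_sdiff.2 ⟨hu, huK⟩)
  unfold MM at h3
  have := h0 v u
  have := h0 u v
  omega

/-- **Single hub.** -/
theorem single (h0 : ∀ u v, 0 ≤ B u v) (h1 : ∀ u v, B u v ≤ 1) (hB : ∀ v, B v v = 0) (k : ℤ)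
    (hk : 2 ≤ k) (hdeg : (∀ v, k ≤ ∑ u, B v u) ∨ ∀ v, k ≤ ∑ u, B u v) (h : V)
    (hb : im B h < 0) (β : ℤ) (hβ0 : 0 ≤ β) (hβ : ∀ v, v ≠ h → |im B v| ≤ β)
    (hcond : (2 * k - 1) * (4 * ((Fintype.card V : ℤ) - 1 + im B h) + 5 * β) ≤ 4 * mm B) :
    Val B ((mm B : ℝ) / (2 * k - 1)) := by
  set U := (univ : Finset V).erase h with hU
  have hkR : (2 : ℝ) ≤ k := by exact_mod_cast hk
  have hN : (0 : ℝ) < 2 * k - 1 := by linarith
  obtain ⟨g, hg, hreq⟩ := gain_all h0 h1 hB h k hk U.card U rfl (by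
    intro K hK
    rcases hdeg with hd | hd
    · left
      rw [← closed_out h0 h hK]
      calc k * (K.card : ℤ) = ∑ v ∈ K, k := by rw [Finset.sum_const, nsmul_eq_mul, mul_comm]
        _ ≤ _ := Finset.sum_le_sum fun v _ => hd v
    · right
      rw [← closed_in h0 h hK]
      calc k * (K.card : ℤ) = ∑ v ∈ K, k := by rw [Finset.sum_const, nsmul_eq_mul, mul_comm]
        _ ≤ _ := Finset.sum_le_sum fun v _ => hd v)
  have him := im_eq hB h
  rw [← hU, Finset.sum_sub_distrib] at him
  have hm := mm_eq hB h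
  rw [← hU] at hm
  have hreq' : (2 * k - 1) * (- im B h) - mm B ≤ (2 * k - 1) * g := by
    rw [him, hm]
    linarith
  obtain ⟨x, hx, hq, hg1, hg2⟩ := hg.realise h0 hB (MM_range h0 h1 h)
  -- choose the global sign
  obtain ⟨y, hy, hqy, hgy, hw⟩ : ∃ y : V → ℤ, (∀ v, y v = 1 ∨ y v = -1) ∧ Qd B U y ≤ -g ∧
      Good B (MM B h) y U ∧ 0 ≤ ∑ v ∈ U, (im B v - MM B h v) * y v := by
    rcases le_total 0 (∑ v ∈ U, (im B v - MM B h v) * x v) with h3 | h3
    · exact ⟨x, hx, hq, hg1, h3⟩
    · refine ⟨fun v => - x v, ?_, ?_, hg2, ?_⟩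
      · intro v; show - x v = 1 ∨ - x v = -1; rcases hx v with h | h <;> rw [h] <;> norm_num
      · rw [Qd_neg]; exact hq
      · have : ∑ v ∈ U, (im B v - MM B h v) * -x v = - ∑ v ∈ U, (im B v - MM B h v) * x v := by
          rw [← Finset.sum_neg_distrib]
          exact Finset.sum_congr rfl fun v _ => by ring
        rw [this]
        linarith
  have hhU : h ∉ U := Finset.notMem_erase _ _
  have hUcard : (U.card : ℤ) = (Fintype.card V : ℤ) - 1 := by
    rw [hU, Finset.card_erase_of_mem (Finset.mem_univ h), Finset.card_univ]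
    have : 1 ≤ Fintype.card V := Fintype.card_pos_iff.2 ⟨h⟩
    push_cast [Nat.cast_sub this]
    ring
  rcases le_or_gt (∑ v ∈ U, im B v * y v) (- im B h) with hno | hcr
  · -- no crossing
    have hc : (insert h U)ᶜ = (∅ : Finset V) := by
      rw [hU, Finset.insert_erase (Finset.mem_univ h), Finset.compl_univ]
    have hp : Pairs B (im B) (insert h U)ᶜ 0 [] := by rw [hc]; exact Pairs.empty
    refine (stop hB h U hhU y hy hp).mono ?_
    simp only [NS]
    have habs : |((im B h + ∑ v ∈ U, im B v * y v : ℤ) : ℝ)| =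
        -((im B h + ∑ v ∈ U, im B v * y v : ℤ) : ℝ) := by
      rw [abs_of_nonpos]
      exact_mod_cast (by linarith : im B h + ∑ v ∈ U, im B v * y v ≤ 0)
    rw [habs]
    have hval : DD B (MM B h) y U - (im B h + ∑ v ∈ U, im B v * y v) ≤ - im B h - g := by
      unfold DD
      have e : ∑ v ∈ U, (im B v - MM B h v) * y v =
          ∑ v ∈ U, im B v * y v - ∑ v ∈ U, MM B h v * y v := by
        rw [← Finset.sum_sub_distrib]
        exact Finset.sum_congr rfl fun v _ => by ring
      rw [e] at hw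
      linarith
    rw [le_div_iff₀ hN]
    have h5 : ((DD B (MM B h) y U - (im B h + ∑ v ∈ U, im B v * y v) : ℤ) : ℝ) ≤
        ((- im B h - g : ℤ) : ℝ) := by exact_mod_cast hval
    have h6 : ((- im B h - g : ℤ) : ℝ) * (2 * k - 1) ≤ mm B := by
      have : (- im B h - g) * (2 * k - 1) ≤ mm B := by linarith
      exact_mod_cast this
    push_cast at h5 h6 ⊢
    nlinarith
  · -- crossing
    obtain ⟨P, v, hvP, hvU, hD1, hD2, hc1, hc2⟩ := hgy.cross (t := im B) ((- im B h : ℤ) : ℝ)
      (by exact_mod_cast (by linarith : (0 : ℤ) < - im B h)) (by exact_mod_cast hcr.le)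
    have hvh : v ≠ h := by
      have : v ∈ U := hvU (Finset.mem_insert_self _ _)
      exact (Finset.mem_erase.1 this).1
    -- a set with small linear form
    obtain ⟨T, hTU, hDT, hLT⟩ : ∃ T ⊆ U, DD B (MM B h) y T ≤ ch (MM B h) T ∧
        |((im B h + ∑ u ∈ T, im B u * y u : ℤ) : ℝ)| ≤ β / 2 := by
      have hstep : ∑ u ∈ insert v P, im B u * y u = im B v * y v + ∑ u ∈ P, im B u * y u :=
        Finset.sum_insert hvP
      have hvβ : im B v * y v ≤ β := by
        have h3 := abs_le.1 (hβ v hvh)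
        rcases hy v with h | h <;> rw [h] <;> linarith
      have hvβ' : ((im B v * y v : ℤ) : ℝ) ≤ β := by exact_mod_cast hvβ
      rw [hstep] at hc2
      push_cast at hc1 hc2 hvβ'
      rcases le_total (-(im B h : ℝ) - ∑ u ∈ P, (im B u : ℝ) * y u) (β / 2) with h4 | h4
      · refine ⟨P, (Finset.subset_insert _ _).trans hvU, hD1, ?_⟩
        push_cast
        rw [abs_le]
        constructor <;> linarith
      · refine ⟨insert v P, hvU, hD2, ?_⟩
        rw [hstep]
        push_cast
        rw [abs_le]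
        constructor <;> linarith
    have hhT : h ∉ T := fun h' => hhU (hTU h')
    obtain ⟨M, l, hp, hM, hNS⟩ := tail h0 (im B) (insert h T)ᶜ β hβ0 (by
      intro u hu
      apply hβ
      rintro rfl
      rw [Finset.mem_compl] at hu
      exact hu (Finset.mem_insert_self _ _))
    refine (stop hB h T hhT y hy hp).mono ?_
    have h7 := hNS ((im B h + ∑ u ∈ T, im B u * y u : ℤ) : ℝ)
    have hβR : (0 : ℝ) ≤ β := by exact_mod_cast hβ0
    have h8 : max (max |((im B h + ∑ u ∈ T, im B u * y u : ℤ) : ℝ)| β)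
        ((|((im B h + ∑ u ∈ T, im B u * y u : ℤ) : ℝ)| + 2 * β) / 2) ≤ 5 * β / 4 := by
      refine max_le (max_le ?_ ?_) ?_ <;> linarith
    have hchT : ch (MM B h) T ≤ ch (MM B h) U := by
      unfold ch
      exact Finset.sum_le_sum_of_subset_of_nonneg hTU fun u _ _ => by split_ifs <;> norm_num
    have hchU := ch_add_le h0 h1 h U
    rw [Finset.sum_sub_distrib] at hchU
    have h9 : DD B (MM B h) y T ≤ (Fintype.card V : ℤ) - 1 + im B h := by linarith
    have h10 : ((DD B (MM B h) y T : ℤ) : ℝ) ≤ (Fintype.card V : ℝ) - 1 + im B h := by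
      exact_mod_cast h9
    have hMR : (M : ℝ) ≤ 0 := by exact_mod_cast hM
    have hcondR : (2 * (k : ℝ) - 1) * (4 * ((Fintype.card V : ℝ) - 1 + im B h) + 5 * β) ≤
        4 * mm B := by exact_mod_cast hcond
    rw [le_div_iff₀ hN]
    have h11 : ((DD B (MM B h) y T : ℤ) : ℝ) + M + NS l
        ((im B h + ∑ u ∈ T, im B u * y u : ℤ) : ℝ) ≤
        (Fintype.card V : ℝ) - 1 + im B h + 5 * β / 4 := by linarith
    nlinarith

end Pool.Agent.Exact


end
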