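import Mathlib
import Pool.Agent.EXAM.C01

/-! Parts: Lib_helper68.Exact.St, Lib_helper68.Exact.Seg, Lib_helper68.Exact.Rest, Lib_helper68.Exact.Path, Lib_helper68.Exact.Cross, Lib_helper68.Exact.Sys -/

section

/-!
# Structures: sets divided into groups with fixed patterns and independent signs

`St B s S M K t`: the set `S` can be divided into groups, each with a fixed sign pattern, with
quadratic cost at most `M`, contributions to the linear form `s` of absolute value at most `K`,
and sum of these absolute values at most `t`.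
-/

set_option autoImplicit false
set_option linter.unusedSectionVars false

namespace Pool.Agent.Exact

open Finset

variable {V : Type*} [DecidableEq V] {B : V → V → ℤ}

/-- groups with fixed patterns -/
inductive Grp (B : V → V → ℤ) (s : V → ℤ) : Finset V → ℤ → List ℝ → Prop
  | empty : Grp B s ∅ 0 []
  | cons (S : Finset V) (M : ℤ) (l : List ℝ) (T : Finset V) (z : V → ℤ) : Grp B s S M l →
      Disjoint S T → (∀ v, z v = 1 ∨ z v = -1) →
      Grp B s (S ∪ T) (M + Qd B T z) (((∑ v ∈ T, s v * z v : ℤ) : ℝ) :: l)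

/-- **Averaging lemma for groups.** -/
theorem Grp.exists_sign {s : V → ℤ} {S : Finset V} {M : ℤ} {l : List ℝ}
    (h : Grp B s S M l) : ∀ (f : V → ℤ) (c : ℝ), ∃ x : V → ℤ, (∀ v, x v = 1 ∨ x v = -1) ∧
      ((∑ v ∈ S, f v * x v + Qd B S x : ℤ) : ℝ) + |c + ((∑ v ∈ S, s v * x v : ℤ) : ℝ)| ≤
        M + NS l c := by
  induction h with
  | empty =>
    intro f c
    exact ⟨fun _ => 1, fun _ => Or.inl rfl, by simp [Qd, NS]⟩
  | cons S M l T z hS hd hz ih =>
    intro f c
    set F : ℤ := ∑ v ∈ T, f v * z v with hF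
    set σ : ℤ := ∑ v ∈ T, s v * z v with hσ
    have step : ∀ ε : ℤ, (ε = 1 ∨ ε = -1) → ∃ x : V → ℤ, (∀ v, x v = 1 ∨ x v = -1) ∧
        ((∑ w ∈ S ∪ T, f w * x w + Qd B (S ∪ T) x : ℤ) : ℝ) +
          |c + ((∑ w ∈ S ∪ T, s w * x w : ℤ) : ℝ)| ≤
        ((ε * F + Qd B T z + M : ℤ) : ℝ) + NS l (c + ((ε * σ : ℤ) : ℝ)) := by
      intro ε hε
      obtain ⟨x, hx, hx'⟩ := ih (fun w => f w + ε * ∑ u ∈ T, MM B w u * z u)
        (c + ((ε * σ : ℤ) : ℝ))
      set y : V → ℤ := fun w => if w ∈ T then ε * z w else x w with hy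
      have hyT : ∀ w ∈ T, y w = ε * z w := by
        intro w hw
        simp [hy, hw]
      have hyS : ∀ w ∈ S, y w = x w := by
        intro w hw
        have : w ∉ T := fun h => Finset.disjoint_left.1 hd hw h
        simp [hy, this]
      refine ⟨y, ?_, ?_⟩
      · intro w
        simp only [hy]
        split_ifs
        · rcases hε with h | h <;> rcases hz w with h' | h' <;> rw [h, h'] <;> norm_num
        · exact hx w
      · have e1 : ∑ w ∈ S ∪ T, f w * y w = ∑ w ∈ S, f w * x w + ε * F := by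
          rw [Finset.sum_union hd, hF, Finset.mul_sum]
          congr 1
          · exact Finset.sum_congr rfl fun w hw => by rw [hyS w hw]
          · exact Finset.sum_congr rfl fun w hw => by rw [hyT w hw]; ring
        have e2 : ∑ w ∈ S ∪ T, s w * y w = ∑ w ∈ S, s w * x w + ε * σ := by
          rw [Finset.sum_union hd, hσ, Finset.mul_sum]
          congr 1
          · exact Finset.sum_congr rfl fun w hw => by rw [hyS w hw]
          · exact Finset.sum_congr rfl fun w hw => by rw [hyT w hw]; ring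
        have hεε : ε * ε = 1 := by rcases hε with h | h <;> rw [h] <;> norm_num
        have e5 : Qd B T y = Qd B T z := by
          unfold Qd
          refine Finset.sum_congr rfl fun u hu => Finset.sum_congr rfl fun v hv => ?_
          rw [hyT u hu, hyT v hv]
          calc B u v * (ε * z u * (ε * z v)) = (ε * ε) * (B u v * (z u * z v)) := by ring
            _ = B u v * (z u * z v) := by rw [hεε, one_mul]
        have e3 : Qd B (S ∪ T) y = Qd B S x + Qd B T z +
            ∑ w ∈ S, (ε * ∑ u ∈ T, MM B w u * z u) * x w := by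
          rw [Qd_union hd, e5, Qd_congr hyS]
          congr 1
          unfold Int
          refine Finset.sum_congr rfl fun w hw => ?_
          rw [Finset.mul_sum, Finset.sum_mul]
          refine Finset.sum_congr rfl fun u hu => ?_
          rw [hyS w hw, hyT u hu]
          ring
        have e6 : ∑ w ∈ S, (f w + ε * ∑ u ∈ T, MM B w u * z u) * x w =
            ∑ w ∈ S, f w * x w + ∑ w ∈ S, (ε * ∑ u ∈ T, MM B w u * z u) * x w := by
          rw [← Finset.sum_add_distrib]
          exact Finset.sum_congr rfl fun w _ => by ring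
        rw [e1, e2, e3]
        rw [e6] at hx'
        push_cast at hx' ⊢
        have e7 : c + (∑ w ∈ S, (s w : ℝ) * x w + (ε : ℝ) * σ) =
            c + (ε : ℝ) * σ + ∑ w ∈ S, (s w : ℝ) * x w := by ring
        rw [e7]
        linarith
    obtain ⟨x1, hx1, h1⟩ := step 1 (Or.inl rfl)
    obtain ⟨x2, hx2, h2⟩ := step (-1) (Or.inr rfl)
    have hc2 : c + (((-1) * σ : ℤ) : ℝ) = c - (σ : ℝ) := by push_cast; ring
    have hc1 : c + ((1 * σ : ℤ) : ℝ) = c + (σ : ℝ) := by push_cast; ring
    rw [hc2] at h2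
    rw [hc1] at h1
    simp only [NS]
    rcases le_total
      (((∑ w ∈ S ∪ T, f w * x1 w + Qd B (S ∪ T) x1 : ℤ) : ℝ) +
          |c + ((∑ w ∈ S ∪ T, s w * x1 w : ℤ) : ℝ)|)
      (((∑ w ∈ S ∪ T, f w * x2 w + Qd B (S ∪ T) x2 : ℤ) : ℝ) +
          |c + ((∑ w ∈ S ∪ T, s w * x2 w : ℤ) : ℝ)|) with h3 | h3
    · refine ⟨x1, hx1, ?_⟩
      push_cast at h1 h2 h3 ⊢
      linarith
    · refine ⟨x2, hx2, ?_⟩
      push_cast at h1 h2 h3 ⊢
      linarith

/-- a set with a structure of cost at most `M`, items at most `K` and total at most `t` -/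
def St (B : V → V → ℤ) (s : V → ℤ) (S : Finset V) (M K t : ℝ) : Prop :=
  ∃ (M' : ℤ) (l : List ℝ), Grp B s S M' l ∧ (M' : ℝ) ≤ M ∧ (∀ d ∈ l, |d| ≤ K) ∧
    (l.map fun d => |d|).sum ≤ t

lemma St.mono {s : V → ℤ} {S : Finset V} {M K t M' K' t' : ℝ} (h : St B s S M K t)
    (hM : M ≤ M') (hK : K ≤ K') (ht : t ≤ t') : St B s S M' K' t' := by
  obtain ⟨m, l, h1, h2, h3, h4⟩ := h
  exact ⟨m, l, h1, h2.trans hM, fun d hd => (h3 d hd).trans hK, h4.trans ht⟩

lemma St.empty (s : V → ℤ) (K : ℝ) : St B s ∅ 0 K 0 :=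
  ⟨0, [], Grp.empty, by simp, by simp, by simp⟩

lemma Grp.union {s : V → ℤ} {S T : Finset V} {M M' : ℤ} {l l' : List ℝ} (hS : Grp B s S M l)
    (hT : Grp B s T M' l') (hd : Disjoint S T) : Grp B s (S ∪ T) (M + M') (l' ++ l) := by
  induction hT with
  | empty => simpa using hS
  | cons T M' l' U z hT hTU hz ih =>
    rw [Finset.disjoint_union_right] at hd
    have := Grp.cons _ _ _ U z (ih hd.1) (Finset.disjoint_union_left.2 ⟨hd.2, hTU⟩) hz
    rw [← Finset.union_assoc, ← add_assoc]
    exact this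

lemma St.union {s : V → ℤ} {S T : Finset V} {M M' K t t' : ℝ} (hS : St B s S M K t)
    (hT : St B s T M' K t') (hd : Disjoint S T) : St B s (S ∪ T) (M + M') K (t + t') := by
  obtain ⟨m, l, h1, h2, h3, h4⟩ := hS
  obtain ⟨m', l', h1', h2', h3', h4'⟩ := hT
  refine ⟨m + m', l' ++ l, h1.union h1' hd, ?_, ?_, ?_⟩
  · push_cast; linarith
  · intro d hd
    rcases List.mem_append.1 hd with h | h
    · exact h3' d h
    · exact h3 d h
  · rw [List.map_append, List.sum_append]; linarith

/-- a single group -/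
lemma St.group {s : V → ℤ} (T : Finset V) (z : V → ℤ) (hz : ∀ v, z v = 1 ∨ z v = -1) {M K : ℝ}
    (hM : ((Qd B T z : ℤ) : ℝ) ≤ M) (hK : |((∑ v ∈ T, s v * z v : ℤ) : ℝ)| ≤ K) :
    St B s T M K K := by
  refine ⟨Qd B T z, [((∑ v ∈ T, s v * z v : ℤ) : ℝ)], ?_, hM, ?_, ?_⟩
  · have := Grp.cons (B := B) (s := s) ∅ 0 [] T z Grp.empty (by simp) hz
    simpa using this
  · intro d hd
    rw [List.mem_singleton] at hd
    rw [hd]; exact hK
  · simpa using hK

lemma NS_map_abs (l : List ℝ) : ∀ c, NS (l.map fun d => |d|) c = NS l c := by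
  induction l with
  | nil => intro c; rfl
  | cons d l ih =>
    intro c
    simp only [List.map_cons, NS, ih]
    rcases abs_cases d with ⟨h, _⟩ | ⟨h, _⟩
    · rw [h]
    · rw [h, show c + -d = c - d by ring, show c - -d = c + d by ring, add_comm]

lemma St.bound {s : V → ℤ} {S : Finset V} {M K t : ℝ} (h : St B s S M K t) (hK : 0 ≤ K)
    (f : V → ℤ) (c : ℝ) : ∃ x : V → ℤ, (∀ v, x v = 1 ∨ x v = -1) ∧
      ((∑ v ∈ S, f v * x v + Qd B S x : ℤ) : ℝ) + |c + ((∑ v ∈ S, s v * x v : ℤ) : ℝ)| ≤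
        M + max (max |c| K) ((|c| + t) / 2) := by
  obtain ⟨m, l, h1, h2, h3, h4⟩ := h
  obtain ⟨x, hx, hx'⟩ := h1.exists_sign f c
  refine ⟨x, hx, hx'.trans ?_⟩
  have h5 := NS_le K hK (l.map fun d => |d|) (by
    intro d hd
    rw [List.mem_map] at hd
    obtain ⟨e, he, rfl⟩ := hd
    exact ⟨abs_nonneg e, h3 e he⟩) c
  rw [NS_map_abs] at h5
  have h6 : max (max |c| K) ((|c| + (l.map fun d => |d|).sum) / 2) ≤
      max (max |c| K) ((|c| + t) / 2) := max_le_max le_rfl (by linarith)
  linarith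

section frame

variable [Fintype V]

/-- **Fixed pattern on `T`, structure on the rest.** -/
theorem extendSt (T : Finset V) (y : V → ℤ) (hy : ∀ v, y v = 1 ∨ y v = -1) {M K t : ℝ}
    (hK : 0 ≤ K) (hp : St B (im B) Tᶜ M K t) :
    Val B (((Qd B T y : ℤ) : ℝ) + M +
      max (max |((∑ v ∈ T, im B v * y v : ℤ) : ℝ)| K)
        ((|((∑ v ∈ T, im B v * y v : ℤ) : ℝ)| + t) / 2)) := by
  obtain ⟨x, hx, hle⟩ := hp.bound hK (fun v => ∑ u ∈ T, MM B u v * y u)
    ((∑ v ∈ T, im B v * y v : ℤ) : ℝ)
  set z : V → ℤ := fun v => if v ∈ T then y v else x v with hz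
  have hzT : ∀ v ∈ T, z v = y v := by intro v hv; simp [hz, hv]
  have hzC : ∀ v ∈ Tᶜ, z v = x v := by
    intro v hv
    rw [Finset.mem_compl] at hv
    simp [hz, hv]
  refine ⟨z, ?_, ?_⟩
  · intro v
    simp only [hz]
    split_ifs
    · exact hy v
    · exact hx v
  · have hd : Disjoint T Tᶜ := disjoint_compl_right
    have hu : T ∪ Tᶜ = univ := Finset.union_compl T
    have e1 : Qd B univ z = Qd B T y + Qd B Tᶜ x +
        ∑ v ∈ Tᶜ, (∑ u ∈ T, MM B u v * y u) * x v := by
      rw [← hu, Qd_union hd, Qd_congr hzT, Qd_congr hzC, Int_comm]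
      congr 1
      unfold Int
      refine Finset.sum_congr rfl fun v hv => ?_
      rw [Finset.sum_mul]
      refine Finset.sum_congr rfl fun u hu => ?_
      rw [hzC v hv, hzT u hu, MM_comm]
      ring
    have e2 : ∑ v, im B v * z v = ∑ v ∈ T, im B v * y v + ∑ v ∈ Tᶜ, im B v * x v := by
      rw [← hu, Finset.sum_union hd]
      congr 1
      · exact Finset.sum_congr rfl fun v hv => by rw [hzT v hv]
      · exact Finset.sum_congr rfl fun v hv => by rw [hzC v hv]
    rw [e1, e2]
    push_cast at hle ⊢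
    linarith

end frame

end Pool.Agent.Exact


end

section

/-!
# Chains of vertices of one type and their segments
-/

set_option autoImplicit false
set_option linter.unusedSectionVars false

namespace Pool.Agent.Exact

open Finset

variable {V : Type*} [DecidableEq V] {B : V → V → ℤ}

/-- vertices of one type, sorted by weight -/
structure Chain (s : V → ℤ) (u : ℕ → V) (L : ℕ) (w : ℕ → ℝ) : Prop where
  inj : ∀ i < L, ∀ j < L, u i = u j → i = j
  wt : (∀ i < L, ((s (u i) : ℤ) : ℝ) = w i) ∨ ∀ i < L, ((s (u i) : ℤ) : ℝ) = - w i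
  anti : ∀ i j, i ≤ j → j < L → w j ≤ w i
  nn : ∀ i < L, 0 ≤ w i

/-- the sum of the first `i` differences `w 0 - w 1`, `w 2 - w 3`, ... -/
noncomputable def AA (w : ℕ → ℝ) (i : ℕ) : ℝ := ∑ l ∈ range i, (w (2 * l) - w (2 * l + 1))

lemma AA_zero (w : ℕ → ℝ) : AA w 0 = 0 := by simp [AA]

lemma AA_succ (w : ℕ → ℝ) (i : ℕ) : AA w (i + 1) = AA w i + (w (2 * i) - w (2 * i + 1)) := by
  unfold AA
  rw [Finset.sum_range_succ]

/-- the segment from `i` to `j` (exclusive) -/
def sg (u : ℕ → V) (i j : ℕ) : Finset V := (Finset.Ico i j).image u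

lemma mem_sg {u : ℕ → V} {i j : ℕ} {v : V} : v ∈ sg u i j ↔ ∃ l, i ≤ l ∧ l < j ∧ u l = v := by
  simp [sg, and_assoc]

lemma sg_empty (u : ℕ → V) (i : ℕ) : sg u i i = ∅ := by simp [sg]

lemma sg_disjoint {s : V → ℤ} {u : ℕ → V} {L : ℕ} {w : ℕ → ℝ} (h : Chain s u L w)
    {i j i' j' : ℕ} (_hj : j ≤ L) (hj' : j' ≤ L) (hd : j ≤ i') : Disjoint (sg u i j) (sg u i' j') := by
  rw [Finset.disjoint_left]
  intro v hv hv'
  obtain ⟨l, h1, h2, rfl⟩ := mem_sg.1 hv
  obtain ⟨l', h1', h2', h3'⟩ := mem_sg.1 hv'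
  have := h.inj l' (by omega) l (by omega) h3'
  omega

lemma sg_union (u : ℕ → V) {i j l : ℕ} (h1 : i ≤ j) (h2 : j ≤ l) : sg u i j ∪ sg u j l = sg u i l := by
  unfold sg
  rw [← Finset.image_union, Finset.Ico_union_Ico_eq_Ico h1 h2]

lemma sg_one (u : ℕ → V) (i : ℕ) : sg u i (i + 1) = {u i} := by
  unfold sg
  rw [Nat.Ico_succ_singleton, Finset.image_singleton]

lemma Qd_pair' (hB : ∀ v, B v v = 0) {u v : V} (huv : u ≠ v) (x : V → ℤ) :
    Qd B {u, v} x = MM B u v * (x u * x v) := Qd_pair hB huv x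

/-- a pair on opposite sides -/
lemma St.opp {s : V → ℤ} (hB : ∀ v, B v v = 0) {u v : V} (huv : u ≠ v) {M K : ℝ}
    (hM : -((MM B u v : ℤ) : ℝ) ≤ M) (hK : |((s u : ℤ) : ℝ) - s v| ≤ K) :
    St B s {u, v} M K K := by
  refine St.group {u, v} (fun w => if w = u then 1 else -1) ?_ ?_ ?_
  · intro w; by_cases h : w = u <;> simp [h]
  · rw [Qd_pair hB huv]
    simp only [if_true, huv.symm, if_false]
    push_cast
    linarith
  · rw [Finset.sum_pair huv]
    simp only [if_true, huv.symm, if_false]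
    push_cast
    rw [show (s u : ℝ) * 1 + (s v : ℝ) * -1 = s u - s v by ring]
    exact hK

/-- a pair on the same side -/
lemma St.same {s : V → ℤ} (hB : ∀ v, B v v = 0) {u v : V} (huv : u ≠ v) {M K : ℝ}
    (hM : ((MM B u v : ℤ) : ℝ) ≤ M) (hK : |((s u : ℤ) : ℝ) + s v| ≤ K) :
    St B s {u, v} M K K := by
  refine St.group {u, v} (fun _ => 1) ?_ ?_ ?_
  · intro w; simp
  · rw [Qd_pair hB huv]
    push_cast
    linarith
  · rw [Finset.sum_pair huv]
    push_cast
    rw [show (s u : ℝ) * 1 + (s v : ℝ) * 1 = s u + s v by ring]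
    exact hK

/-- a single vertex -/
lemma St.one {s : V → ℤ} (hB : ∀ v, B v v = 0) (v : V) {K : ℝ}
    (hK : |((s v : ℤ) : ℝ)| ≤ K) : St B s {v} 0 K K := by
  refine St.group {v} (fun _ => 1) ?_ ?_ ?_
  · intro w; simp
  · rw [Qd_single v hB]; simp
  · rw [Finset.sum_singleton]
    push_cast
    rw [mul_one]
    exact hK

lemma Chain.diff {s : V → ℤ} {u : ℕ → V} {L : ℕ} {w : ℕ → ℝ} (h : Chain s u L w) {i j : ℕ}
    (hij : i ≤ j) (hj : j < L) : |((s (u i) : ℤ) : ℝ) - s (u j)| = w i - w j := by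
  have h1 := h.anti i j hij hj
  rcases h.wt with h2 | h2
  · rw [h2 i (by omega), h2 j hj, abs_of_nonneg (by linarith)]
  · rw [h2 i (by omega), h2 j hj, abs_of_nonpos (by linarith)]
    ring

lemma Chain.abs {s : V → ℤ} {u : ℕ → V} {L : ℕ} {w : ℕ → ℝ} (h : Chain s u L w) {i : ℕ}
    (hi : i < L) : |((s (u i) : ℤ) : ℝ)| = w i := by
  have h1 := h.nn i hi
  rcases h.wt with h2 | h2
  · rw [h2 i hi, abs_of_nonneg h1]
  · rw [h2 i hi, abs_of_nonpos (by linarith)]
    ring

lemma Chain.ne {s : V → ℤ} {u : ℕ → V} {L : ℕ} {w : ℕ → ℝ} (h : Chain s u L w) {i j : ℕ}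
    (hij : i < j) (hj : j < L) : u i ≠ u j := by
  intro e
  have := h.inj i (by omega) j hj e
  omega

/-- consecutive pairs starting at an even index -/
theorem Chain.seg_even {s : V → ℤ} {u : ℕ → V} {L : ℕ} {w : ℕ → ℝ} (h : Chain s u L w)
    (hB : ∀ v, B v v = 0) (h0 : ∀ u v, 0 ≤ B u v) {K : ℝ} (i : ℕ) : ∀ j, i ≤ j → 2 * j ≤ L →
    (∀ l, i ≤ l → l < j → w (2 * l) - w (2 * l + 1) ≤ K) →
    St B s (sg u (2 * i) (2 * j)) 0 K (AA w j - AA w i) := by
  intro j hij
  induction j, hij using Nat.le_induction with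
  | base =>
    intro _ _
    rw [sg_empty, sub_self]
    exact St.empty s K
  | succ j hij ih =>
    intro hL hK
    have h1 := ih (by omega) fun l h1 h2 => hK l h1 (by omega)
    have h2 : St B s ({u (2 * j), u (2 * j + 1)} : Finset V) 0 (w (2 * j) - w (2 * j + 1))
        (w (2 * j) - w (2 * j + 1)) := by
      refine St.opp hB (h.ne (by omega) (by omega)) ?_ (h.diff (by omega) (by omega)).le
      have : 0 ≤ MM B (u (2 * j)) (u (2 * j + 1)) := by
        unfold MM; linarith [h0 (u (2 * j)) (u (2 * j + 1)), h0 (u (2 * j + 1)) (u (2 * j))]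
      have : (0 : ℝ) ≤ ((MM B (u (2 * j)) (u (2 * j + 1)) : ℤ) : ℝ) := by exact_mod_cast this
      linarith
    have h3 := h2.mono le_rfl (hK j hij (by omega)) le_rfl
    have e : sg u (2 * i) (2 * (j + 1)) = sg u (2 * i) (2 * j) ∪ {u (2 * j), u (2 * j + 1)} := by
      rw [← sg_union u (show 2 * i ≤ 2 * j by omega) (show 2 * j ≤ 2 * (j + 1) by omega),
        ← sg_union u (show 2 * j ≤ 2 * j + 1 by omega) (show 2 * j + 1 ≤ 2 * (j + 1) by omega),
        sg_one, show 2 * (j + 1) = 2 * j + 1 + 1 by ring, sg_one, ← Finset.insert_eq]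
    have hd : Disjoint (sg u (2 * i) (2 * j)) {u (2 * j), u (2 * j + 1)} := by
      have h4 := sg_disjoint h (i := 2 * i) (j := 2 * j) (i' := 2 * j) (j' := 2 * j + 2)
        (by omega) (by omega) le_rfl
      rw [← sg_union u (show 2 * j ≤ 2 * j + 1 by omega) (show 2 * j + 1 ≤ 2 * j + 2 by omega),
        sg_one, show 2 * j + 2 = 2 * j + 1 + 1 by ring, sg_one, ← Finset.insert_eq] at h4
      exact h4
    rw [e]
    refine (h1.union h3 hd).mono (by norm_num) le_rfl ?_
    rw [AA_succ]
    linarith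

/-- consecutive pairs starting at an odd index -/
theorem Chain.seg_odd {s : V → ℤ} {u : ℕ → V} {L : ℕ} {w : ℕ → ℝ} (h : Chain s u L w)
    (hB : ∀ v, B v v = 0) (h0 : ∀ u v, 0 ≤ B u v) {K : ℝ} (i : ℕ) : ∀ j, i ≤ j → 2 * j + 1 ≤ L →
    (∀ l, i ≤ l → l < j → w (2 * l + 1) - w (2 * l + 2) ≤ K) →
    St B s (sg u (2 * i + 1) (2 * j + 1)) 0 K (w (2 * i) - w (2 * j) - (AA w j - AA w i)) := by
  intro j hij
  induction j, hij using Nat.le_induction with
  | base =>
    intro _ _
    rw [sg_empty, sub_self, sub_self, sub_zero]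
    exact St.empty s K
  | succ j hij ih =>
    intro hL hK
    have h1 := ih (by omega) fun l h1 h2 => hK l h1 (by omega)
    have h2 : St B s ({u (2 * j + 1), u (2 * j + 2)} : Finset V) 0 (w (2 * j + 1) - w (2 * j + 2))
        (w (2 * j + 1) - w (2 * j + 2)) := by
      refine St.opp hB (h.ne (by omega) (by omega)) ?_ (h.diff (by omega) (by omega)).le
      have : 0 ≤ MM B (u (2 * j + 1)) (u (2 * j + 2)) := by
        unfold MM; linarith [h0 (u (2 * j + 1)) (u (2 * j + 2)), h0 (u (2 * j + 2)) (u (2 * j + 1))]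
      have : (0 : ℝ) ≤ ((MM B (u (2 * j + 1)) (u (2 * j + 2)) : ℤ) : ℝ) := by exact_mod_cast this
      linarith
    have h3 := h2.mono le_rfl (hK j hij (by omega)) le_rfl
    have e : sg u (2 * i + 1) (2 * (j + 1) + 1) =
        sg u (2 * i + 1) (2 * j + 1) ∪ {u (2 * j + 1), u (2 * j + 2)} := by
      rw [← sg_union u (show 2 * i + 1 ≤ 2 * j + 1 by omega)
          (show 2 * j + 1 ≤ 2 * (j + 1) + 1 by omega),
        ← sg_union u (show 2 * j + 1 ≤ 2 * j + 1 + 1 by omega)
          (show 2 * j + 1 + 1 ≤ 2 * (j + 1) + 1 by omega),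
        sg_one, show 2 * (j + 1) + 1 = 2 * j + 1 + 1 + 1 by ring, sg_one, ← Finset.insert_eq]
    have hd : Disjoint (sg u (2 * i + 1) (2 * j + 1)) {u (2 * j + 1), u (2 * j + 2)} := by
      have h4 := sg_disjoint h (i := 2 * i + 1) (j := 2 * j + 1) (i' := 2 * j + 1)
        (j' := 2 * j + 1 + 1 + 1) (by omega) (by omega) le_rfl
      rw [← sg_union u (show 2 * j + 1 ≤ 2 * j + 1 + 1 by omega)
          (show 2 * j + 1 + 1 ≤ 2 * j + 1 + 1 + 1 by omega),
        sg_one, sg_one, ← Finset.insert_eq] at h4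
      exact h4
    rw [e]
    refine (h1.union h3 hd).mono (by norm_num) le_rfl ?_
    rw [AA_succ]
    have e2 : w (2 * (j + 1)) = w (2 * j + 2) := by ring_nf
    rw [e2]
    linarith

/-- alternating sum of a list -/
noncomputable def altL : List ℝ → ℝ
  | [] => 0
  | a :: l => a - altL l

/-- inserting an element into a sorted list changes the alternating sum in a controlled way -/
lemma altL_insert (v : ℝ) : ∀ l : List ℝ, l.Pairwise (· ≥ ·) →
    (∀ a ∈ l, 0 ≤ a) →
    v ≤ altL (l.orderedInsert (· ≥ ·) v) + altL l ∧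
    ∀ r, v ≤ r → (∀ a ∈ l, a ≤ r) →
      altL (l.orderedInsert (· ≥ ·) v) + altL l + v ≤ 2 * r := by
  intro l
  induction l with
  | nil =>
    intro _ _
    simp only [List.orderedInsert, altL]
    refine ⟨by linarith, fun r hr _ => by linarith⟩
  | cons a l ih =>
    intro hs hn
    rw [List.pairwise_cons] at hs
    have hn' : ∀ b ∈ l, 0 ≤ b := fun b hb => hn b (List.mem_cons_of_mem _ hb)
    obtain ⟨h1, h2⟩ := ih hs.2 hn'
    by_cases hav : v ≥ a
    · rw [List.orderedInsert, if_pos hav]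
      simp only [altL]
      refine ⟨by linarith, fun r hr _ => by linarith⟩
    · rw [List.orderedInsert, if_neg hav]
      simp only [altL]
      have h3 := h2 a (not_le.1 hav).le hs.1
      refine ⟨by linarith, fun r _ hr => ?_⟩
      have := hr a (by simp)
      linarith

lemma altL_nonneg : ∀ l : List ℝ, l.Pairwise (· ≥ ·) → (∀ a ∈ l, 0 ≤ a) →
    0 ≤ altL l ∧ ∀ r, 0 ≤ r → (∀ a ∈ l, a ≤ r) → altL l ≤ r := by
  intro l
  induction l with
  | nil => intro _ _; simp [altL]
  | cons a l ih =>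
    intro hs hn
    rw [List.pairwise_cons] at hs
    obtain ⟨h1, h2⟩ := ih hs.2 fun b hb => hn b (List.mem_cons_of_mem _ hb)
    have ha := hn a (by simp)
    have h3 := h2 a ha hs.1
    simp only [altL]
    refine ⟨by linarith, fun r _ hr => ?_⟩
    have := hr a (by simp)
    linarith

end Pool.Agent.Exact


end

section

/-!
# The rest: all vertices of one type in a set, sorted
-/

set_option autoImplicit false
set_option linter.unusedSectionVars false

namespace Pool.Agent.Exact

open Finset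

variable {V : Type*} [DecidableEq V] {B : V → V → ℤ}

/-- the sorted list of the weights of a set -/
noncomputable def wl (w : V → ℝ) (U : Finset V) : List ℝ := (U.1.map w).sort (· ≥ ·)

/-- the alternating sum of the sorted weights of a set -/
noncomputable def altF (w : V → ℝ) (U : Finset V) : ℝ := altL (wl w U)

lemma wl_mem {w : V → ℝ} {U : Finset V} {a : ℝ} : a ∈ wl w U ↔ ∃ v ∈ U, w v = a := by
  unfold wl
  rw [Multiset.mem_sort]
  simp

lemma wl_sorted (w : V → ℝ) (U : Finset V) : (wl w U).Pairwise (· ≥ ·) :=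
  Multiset.pairwise_sort _ _

lemma wl_insert (w : V → ℝ) {U : Finset V} {v : V} (hv : v ∉ U) :
    wl w (insert v U) = (wl w U).orderedInsert (· ≥ ·) (w v) := by
  refine List.Perm.eq_of_pairwise' (r := (· ≥ ·)) (wl_sorted _ _)
    (List.Pairwise.orderedInsert _ _ (wl_sorted _ _)) ?_
  refine List.Perm.trans ?_ (List.perm_orderedInsert _ _ _).symm
  rw [← Multiset.coe_eq_coe, ← Multiset.cons_coe]
  unfold wl
  rw [Multiset.sort_eq, Multiset.sort_eq, Finset.insert_val_of_notMem hv, Multiset.map_cons]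

lemma altF_empty (w : V → ℝ) : altF w ∅ = 0 := by
  simp [altF, wl, altL]

lemma altF_insert_max (w : V → ℝ) {U : Finset V} {v : V} (hv : v ∉ U) (h : ∀ u ∈ U, w u ≤ w v) :
    altF w (insert v U) = w v - altF w U := by
  unfold altF wl
  rw [Finset.insert_val_of_notMem hv, Multiset.map_cons, Multiset.sort_cons]
  · rfl
  · intro b hb
    rw [Multiset.mem_map] at hb
    obtain ⟨u, hu, rfl⟩ := hb
    exact h u hu

lemma altF_nonneg (w : V → ℝ) {U : Finset V} (h : ∀ u ∈ U, 0 ≤ w u) : 0 ≤ altF w U :=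
  (altL_nonneg _ (wl_sorted w U) fun a ha => by
    obtain ⟨v, hv, rfl⟩ := wl_mem.1 ha
    exact h v hv).1

lemma altF_le (w : V → ℝ) {U : Finset V} (h : ∀ u ∈ U, 0 ≤ w u) {r : ℝ} (hr : 0 ≤ r)
    (h' : ∀ u ∈ U, w u ≤ r) : altF w U ≤ r :=
  (altL_nonneg _ (wl_sorted w U) fun a ha => by
    obtain ⟨v, hv, rfl⟩ := wl_mem.1 ha
    exact h v hv).2 r hr fun a ha => by
      obtain ⟨v, hv, rfl⟩ := wl_mem.1 ha
      exact h' v hv

/-- no loss at a crossing -/
lemma altF_insert (w : V → ℝ) {U : Finset V} {v : V} (hv : v ∉ U) (h : ∀ u ∈ U, 0 ≤ w u) {r : ℝ}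
    (hr : w v ≤ r) (h' : ∀ u ∈ U, w u ≤ r) : altF w (insert v U) + altF w U + w v ≤ 2 * r := by
  unfold altF
  rw [wl_insert w hv]
  exact (altL_insert (w v) (wl w U) (wl_sorted w U) fun a ha => by
    obtain ⟨v, hv, rfl⟩ := wl_mem.1 ha
    exact h v hv).2 r hr fun a ha => by
      obtain ⟨v, hv, rfl⟩ := wl_mem.1 ha
      exact h' v hv

/-- the structure of the rest -/
theorem St.rest {s : V → ℤ} (hB : ∀ v, B v v = 0) (h0 : ∀ u v, 0 ≤ B u v) {K : ℝ} :
    ∀ (n : ℕ) (U : Finset V), U.card = n →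
      ((∀ v ∈ U, 0 ≤ s v) ∨ ∀ v ∈ U, s v ≤ 0) → (∀ v ∈ U, |((s v : ℤ) : ℝ)| ≤ K) →
      St B s U 0 K (altF (fun v => |((s v : ℤ) : ℝ)|) U) := by
  intro n
  induction n using Nat.strong_induction_on with
  | _ n ih =>
    intro U hn hs hK
    set w : V → ℝ := fun v => |((s v : ℤ) : ℝ)| with hw
    rcases U.eq_empty_or_nonempty with rfl | hne
    · rw [altF_empty]; exact St.empty s K
    · obtain ⟨u, hu, humax⟩ := Finset.exists_max_image U w hne
      rcases (U.erase u).eq_empty_or_nonempty with he | hne'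
      · have hU : U = {u} := by
          refine Finset.eq_singleton_iff_unique_mem.2 ⟨hu, fun v hv => ?_⟩
          by_contra hvu
          have : v ∈ U.erase u := Finset.mem_erase.2 ⟨hvu, hv⟩
          rw [he] at this
          simp at this
        have e : altF w U = w u := by
          have := altF_insert_max w (U := ∅) (v := u) (by simp) (by simp)
          rw [altF_empty, sub_zero] at this
          rw [hU]; exact this
        rw [e, hU]
        exact (St.one hB u le_rfl).mono le_rfl (hK u hu) le_rfl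
      · obtain ⟨v, hv, hvmax⟩ := Finset.exists_max_image (U.erase u) w hne'
        have hvU : v ∈ U := Finset.mem_of_mem_erase hv
        have hvu : v ≠ u := (Finset.mem_erase.1 hv).1
        have hcard : ((U.erase u).erase v).card < n := by
          rw [← hn]
          exact (Finset.card_lt_card (Finset.erase_ssubset hv)).trans_le
            (Finset.card_le_card (Finset.erase_subset _ _))
        have hsub : ∀ z ∈ (U.erase u).erase v, z ∈ U := fun z hz =>
          Finset.mem_of_mem_erase (Finset.mem_of_mem_erase hz)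
        have h1 := ih _ hcard ((U.erase u).erase v) rfl
          (hs.imp (fun h z hz => h z (hsub z hz)) fun h z hz => h z (hsub z hz))
          (fun z hz => hK z (hsub z hz))
        have e1 : altF w U = w u - altF w (U.erase u) := by
          have := altF_insert_max w (U := U.erase u) (v := u) (Finset.notMem_erase _ _)
            (fun z hz => humax z (Finset.mem_of_mem_erase hz))
          rwa [Finset.insert_erase hu] at this
        have e2 : altF w (U.erase u) = w v - altF w ((U.erase u).erase v) := by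
          have := altF_insert_max w (U := (U.erase u).erase v) (v := v) (Finset.notMem_erase _ _)
            (fun z hz => hvmax z (Finset.mem_of_mem_erase hz))
          rwa [Finset.insert_erase hv] at this
        have hwuv : |((s u : ℤ) : ℝ) - s v| = w u - w v := by
          have h5 := humax v hvU
          simp only [hw] at h5 ⊢
          rcases hs with hs | hs
          · have h3 : (0 : ℝ) ≤ s u := by exact_mod_cast hs u hu
            have h4 : (0 : ℝ) ≤ s v := by exact_mod_cast hs v hvU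
            rw [abs_of_nonneg h3, abs_of_nonneg h4] at h5 ⊢
            rw [abs_of_nonneg (by linarith)]
          · have h3 : (s u : ℝ) ≤ 0 := by exact_mod_cast hs u hu
            have h4 : (s v : ℝ) ≤ 0 := by exact_mod_cast hs v hvU
            rw [abs_of_nonpos h3, abs_of_nonpos h4] at h5 ⊢
            rw [abs_of_nonpos (by linarith)]
            ring
        have h2 : St B s ({u, v} : Finset V) 0 (w u - w v) (w u - w v) := by
          refine St.opp hB hvu.symm ?_ hwuv.le
          have : 0 ≤ MM B u v := by unfold MM; linarith [h0 u v, h0 v u]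
          have : (0 : ℝ) ≤ ((MM B u v : ℤ) : ℝ) := by exact_mod_cast this
          linarith
        have hwv : 0 ≤ w v := abs_nonneg _
        have h3 := h2.mono le_rfl (show w u - w v ≤ K by linarith [hK u hu]) le_rfl
        have hU : U = (U.erase u).erase v ∪ {u, v} := by
          ext z
          simp only [Finset.mem_union, Finset.mem_erase, Finset.mem_insert, Finset.mem_singleton]
          by_cases h1 : z = u
          · subst h1; simp [hu]
          · by_cases h2 : z = v
            · subst h2; simp [hvU]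
            · simp [h1, h2]
        have hd : Disjoint ((U.erase u).erase v) {u, v} := by
          rw [Finset.disjoint_right]
          intro z hz
          simp only [Finset.mem_insert, Finset.mem_singleton] at hz
          rcases hz with rfl | rfl <;> simp
        rw [hU]
        rw [hU] at e1
        refine (h1.union h3 hd).mono (by norm_num) le_rfl ?_
        rw [← hU] at e1 ⊢
        rw [e1, e2]
        linarith

/-- a set of vertices of weight zero -/
lemma St.zero {s : V → ℤ} {Z : Finset V} (h : ∀ v ∈ Z, s v = 0)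
    (h' : ∀ u ∈ Z, ∀ v ∈ Z, B u v = 0) {K : ℝ} (hK : 0 ≤ K) : St B s Z 0 K 0 := by
  have := St.group (B := B) (s := s) Z (fun _ => 1) (by simp) (M := 0) (K := 0) (by
    have : Qd B Z (fun _ => 1) = 0 := by
      unfold Qd
      exact Finset.sum_eq_zero fun u hu => Finset.sum_eq_zero fun v hv => by
        rw [h' u hu v hv, zero_mul]
    rw [this]; simp) (by
    have : ∑ v ∈ Z, s v * (1 : ℤ) = 0 := Finset.sum_eq_zero fun v hv => by rw [h v hv, zero_mul]
    rw [this]; simp)
  exact this.mono le_rfl hK le_rfl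

end Pool.Agent.Exact


end

section

/-!
# Paths: vertex by vertex, with value at most charge minus `e`
-/

set_option autoImplicit false
set_option linter.unusedSectionVars false

namespace Pool.Agent.Exact

open Finset

variable {V : Type*} [DecidableEq V] {B : V → V → ℤ} {a : V → ℤ} {e : ℤ}

/-- `S` can be built vertex by vertex such that the value is at most the charge minus `e` after
each step -/
inductive GoodE (B : V → V → ℤ) (a x : V → ℤ) (e : ℤ) : Finset V → Prop
  | empty : GoodE B a x e ∅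
  | step (S : Finset V) (v : V) : GoodE B a x e S → v ∉ S →
      DD B a x (insert v S) ≤ ch a (insert v S) - e → GoodE B a x e (insert v S)

/-- stars and triples; a triple is not the first block unless `e ≤ 0` -/
inductive BlocksE (B : V → V → ℤ) (e : ℤ) : Finset V → ℤ → Prop
  | empty : BlocksE B e ∅ 0
  | star (S : Finset V) (g : ℤ) (c : V) (L : Finset V) : BlocksE B e S g → c ∉ S → c ∉ L →
      Disjoint L S → L.Nonempty → (∀ l ∈ L, 1 ≤ MM B c l) → (∀ l ∈ L, ∀ l' ∈ L, MM B l l' = 0) →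
      BlocksE B e (S ∪ insert c L) (g + ∑ l ∈ L, MM B c l)
  | hole (S : Finset V) (g : ℤ) (u v w : V) : BlocksE B e S g → u ∉ S → v ∉ S → w ∉ S → u ≠ v →
      u ≠ w → v ≠ w → 1 ≤ MM B u v → (e ≤ 0 ∨ S.Nonempty) →
      BlocksE B e (insert w (S ∪ {u, v})) (g + MM B u v)

/-- identities of finite sets -/
private lemma set_id1 (c : V) (S L T : Finset V) :
    insert c (S ∪ L) ∪ T = S ∪ insert c (L ∪ T) := by
  rw [Finset.insert_union, Finset.union_insert, Finset.union_assoc]

private lemma set_id2 (w : V) (S : Finset V) : insert w S = S ∪ {w} := by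
  rw [Finset.insert_eq, Finset.union_comm]

lemma Blocks.toE {S : Finset V} {g : ℤ} (h : Blocks B S g) : BlocksE B 0 S g := by
  induction h with
  | empty => exact BlocksE.empty
  | star S g c L _ h1 h2 h3 h4 h5 h6 ih => exact BlocksE.star S g c L ih h1 h2 h3 h4 h5 h6
  | hole S g u v w _ h1 h2 h3 h4 h5 h6 h7 ih =>
    exact BlocksE.hole S g u v w ih h1 h2 h3 h4 h5 h6 h7 (Or.inl le_rfl)

lemma GoodE.congr {S : Finset V} {x y : V → ℤ} (hS : GoodE B a x e S) (h : ∀ v ∈ S, x v = y v) :
    GoodE B a y e S := by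
  induction hS with
  | empty => exact GoodE.empty
  | step S v hS hv hD ih =>
    refine GoodE.step S v (ih fun u hu => h u (Finset.mem_insert_of_mem hu)) hv ?_
    rw [← DD_congr h]
    exact hD

lemma GoodE.le {S : Finset V} {x : V → ℤ} (hS : GoodE B a x e S) (hne : S.Nonempty) :
    DD B a x S ≤ ch a S - e := by
  cases hS with
  | empty => exact absurd hne Finset.not_nonempty_empty
  | step S v hS hv hD => exact hD

/-- adding several vertices -/
lemma GoodE.add {S T : Finset V} {x : V → ℤ} (hS : GoodE B a x e S) (hd : Disjoint S T)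
    (h : ∀ T' ⊆ T, T'.Nonempty → DD B a x (S ∪ T') ≤ ch a (S ∪ T') - e) :
    GoodE B a x e (S ∪ T) := by
  induction T using Finset.induction_on with
  | empty => simpa using hS
  | insert v T hv ih =>
    rw [Finset.disjoint_insert_right] at hd
    have h1 := ih hd.2 fun T' hT' => h T' (hT'.trans (Finset.subset_insert _ _))
    have e1 : S ∪ insert v T = insert v (S ∪ T) := by
      rw [Finset.union_insert]
    rw [e1]
    refine GoodE.step _ v h1 ?_ ?_
    · simp only [Finset.mem_union, not_or]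
      exact ⟨hd.1, hv⟩
    · rw [← e1]
      exact h _ (Finset.Subset.refl _) (Finset.insert_nonempty _ _)

/-- a star can be added to a nonempty good set -/
lemma GoodE.star' {S : Finset V} {x : V → ℤ} (hS : GoodE B a x e S) (hne : S.Nonempty) (h0 : ∀ u v, 0 ≤ B u v)
    (hB : ∀ v, B v v = 0) (ha : ∀ v, 0 ≤ a v ∧ a v ≤ 2) (c : V) (L : Finset V) (hcS : c ∉ S)
    (hcL : c ∉ L) (hLS : Disjoint L S) (hL : L.Nonempty) (h1 : ∀ l ∈ L, 1 ≤ MM B c l)
    (h2 : ∀ l ∈ L, ∀ l' ∈ L, MM B l l' = 0) (σ : ℤ) (hσ : σ = 1 ∨ σ = -1) (hxc : x c = σ)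
    (hxL : ∀ l ∈ L, x l = -σ) (hint : Int B S (insert c L) x ≤ 0) :
    GoodE B a x e (S ∪ insert c L) ∧
      DD B a x (S ∪ insert c L) ≤ ch a S - e + σ * (a c - ∑ l ∈ L, a l) - L.card := by
  classical
  have hint' : Int B S {c} x + ∑ l ∈ L, Int B S {l} x ≤ 0 := by
    rw [Int_sum_right, Finset.sum_insert hcL] at hint
    exact hint
  have hSle := hS.le hne
  have hLcard : (1 : ℤ) ≤ L.card := by exact_mod_cast hL.card_pos
  -- value after adding `c` and `T'`
  have hval : ∀ T' ⊆ L, DD B a x (S ∪ insert c T') =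
      DD B a x S + (σ * a c + Int B S {c} x) +
        ∑ l ∈ T', (- (σ * a l) + Int B S {l} x - MM B c l) := by
    intro T' hT'
    have hcT' : c ∉ T' := fun h => hcL (hT' h)
    have hd : Disjoint S (insert c T') := by
      rw [Finset.disjoint_insert_right]
      exact ⟨hcS, (Finset.disjoint_of_subset_left hT' hLS).symm⟩
    rw [DD_union hd, Qd_star c T' hcT' h0 hB (fun l hl l' hl' => h2 l (hT' hl) l' (hT' hl')),
      Finset.sum_insert hcT', hxc, Finset.sum_sub_distrib]
    have e1 : ∑ l ∈ T', MM B c l * (σ * x l) = - ∑ l ∈ T', MM B c l := by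
      rw [← Finset.sum_neg_distrib]
      refine Finset.sum_congr rfl fun l hl => ?_
      rw [hxL l (hT' hl)]
      rcases hσ with h | h <;> rw [h] <;> ring
    have e2 : ∑ l ∈ T', (a l * x l + Int B S {l} x) =
        ∑ l ∈ T', (- (σ * a l) + Int B S {l} x) := by
      refine Finset.sum_congr rfl fun l hl => ?_
      rw [hxL l (hT' hl)]
      ring
    rw [e1, e2]
    ring
  have hval0 : ∀ T' ⊆ L, DD B a x (S ∪ T') = DD B a x S +
      ∑ l ∈ T', (- (σ * a l) + Int B S {l} x) := by
    intro T' hT'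
    have hd : Disjoint S T' := (Finset.disjoint_of_subset_left hT' hLS).symm
    rw [DD_union hd, Qd_indep h0 (fun l hl l' hl' => h2 l (hT' hl) l' (hT' hl')), add_zero]
    congr 1
    refine Finset.sum_congr rfl fun l hl => ?_
    rw [hxL l (hT' hl)]
    ring
  have hch : ∀ T' ⊆ L, ch a (S ∪ insert c T') =
      ch a S + ((if a c = 1 then 0 else 1) + ∑ l ∈ T', if a l = 1 then 0 else 1) := by
    intro T' hT'
    have hcT' : c ∉ T' := fun h => hcL (hT' h)
    have hd : Disjoint S (insert c T') := by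
      rw [Finset.disjoint_insert_right]
      exact ⟨hcS, (Finset.disjoint_of_subset_left hT' hLS).symm⟩
    rw [ch_union hd]
    congr 1
    unfold ch
    rw [Finset.sum_insert hcT']
  have hch0 : ∀ T' ⊆ L, ch a (S ∪ T') = ch a S + ∑ l ∈ T', if a l = 1 then 0 else 1 := by
    intro T' hT'
    rw [ch_union (Finset.disjoint_of_subset_left hT' hLS).symm]
    rfl
  have hcharge0 : ∀ v, (0 : ℤ) ≤ if a v = 1 then 0 else 1 := by
    intro v; split_ifs <;> norm_num
  have hcharge1 : ∀ v, a v - 1 ≤ if a v = 1 then 0 else 1 := by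
    intro v
    have := (ha v).2
    split_ifs with h
    · omega
    · omega
  -- threshold
  obtain ⟨L1, L2, hdis, hun, hL1, hL2⟩ : ∃ L1 L2 : Finset V, Disjoint L1 L2 ∧ L1 ∪ L2 = L ∧
      (∀ l ∈ L1, 2 * Int B S {l} x + (1 - σ) ≤ 0) ∧
      (∀ l ∈ L2, 0 < 2 * Int B S {l} x + (1 - σ)) := by
    refine ⟨L.filter (fun l => 2 * Int B S {l} x + (1 - σ) ≤ 0),
      L.filter (fun l => ¬ 2 * Int B S {l} x + (1 - σ) ≤ 0),
      Finset.disjoint_filter_filter_not _ _ _, Finset.filter_union_filter_not_eq _ _, ?_, ?_⟩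
    · intro l hl; exact (Finset.mem_filter.1 hl).2
    · intro l hl; exact not_le.1 (Finset.mem_filter.1 hl).2
  have hL1L : L1 ⊆ L := by rw [← hun]; exact Finset.subset_union_left
  have hL2L : L2 ⊆ L := by rw [← hun]; exact Finset.subset_union_right
  have hsplit : ∀ f : V → ℤ, ∑ l ∈ L, f l = ∑ l ∈ L1, f l + ∑ l ∈ L2, f l := by
    intro f; rw [← hun]; exact Finset.sum_union hdis
  -- first stage
  have g1 : GoodE B a x e (S ∪ L1) := by
    refine hS.add (Finset.disjoint_of_subset_left hL1L hLS).symm ?_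
    intro T' hT' _
    rw [hval0 T' (hT'.trans hL1L), hch0 T' (hT'.trans hL1L)]
    have : ∑ l ∈ T', (- (σ * a l) + Int B S {l} x) ≤ ∑ l ∈ T', if a l = 1 then 0 else 1 := by
      refine Finset.sum_le_sum fun l hl => ?_
      have h3 := hL1 l (hT' hl)
      have h4 := hcharge1 l
      have h5 := hcharge0 l
      have h6 := (ha l).1
      rcases hσ with h | h
      · rw [h] at h3 ⊢; linarith
      · rw [h] at h3 ⊢
        have : Int B S {l} x ≤ -1 := by omega
        linarith
    linarith
  -- key inequality for `L1 ∪ T'`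
  have key : ∀ T' ⊆ L2, (σ * a c + Int B S {c} x) +
      ∑ l ∈ L1 ∪ T', (- (σ * a l) + Int B S {l} x - MM B c l) ≤
      (if a c = 1 then 0 else 1) + ∑ l ∈ L1 ∪ T', if a l = 1 then 0 else 1 := by
    intro T' hT'
    have hdT : Disjoint L1 T' := Finset.disjoint_of_subset_right hT' hdis
    have hTL : L1 ∪ T' ⊆ L := Finset.union_subset hL1L (hT'.trans hL2L)
    have hrest : ∑ l ∈ L, Int B S {l} x =
        ∑ l ∈ L1 ∪ T', Int B S {l} x + ∑ l ∈ L \ (L1 ∪ T'), Int B S {l} x := by
      rw [add_comm, Finset.sum_sdiff hTL]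
    have hmem2 : ∀ l ∈ L \ (L1 ∪ T'), l ∈ L2 := by
      intro l hl
      rw [Finset.mem_sdiff, Finset.mem_union, not_or] at hl
      have h3 : l ∈ L1 ∪ L2 := by rw [hun]; exact hl.1
      rcases Finset.mem_union.1 h3 with h4 | h4
      · exact absurd h4 hl.2.1
      · exact h4
    have hM : ∑ l ∈ L1 ∪ T', (1 : ℤ) ≤ ∑ l ∈ L1 ∪ T', MM B c l :=
      Finset.sum_le_sum fun l hl => h1 l (hTL hl)
    rw [Finset.sum_sub_distrib, Finset.sum_add_distrib, Finset.sum_neg_distrib,
      ← Finset.mul_sum]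
    have hcs : ((L1 ∪ T').card : ℤ) + (L \ (L1 ∪ T')).card = L.card := by
      have := Finset.card_sdiff_add_card_eq_card hTL
      push_cast [← this]
      ring
    have hone : ∑ l ∈ L1 ∪ T', (1 : ℤ) = (L1 ∪ T').card := by simp
    rcases hσ with h | h
    · subst h
      have h5 : ((L \ (L1 ∪ T')).card : ℤ) ≤ ∑ l ∈ L \ (L1 ∪ T'), Int B S {l} x := by
        have : ∑ l ∈ L \ (L1 ∪ T'), (1 : ℤ) ≤ ∑ l ∈ L \ (L1 ∪ T'), Int B S {l} x := by
          refine Finset.sum_le_sum fun l hl => ?_
          have := hL2 l (hmem2 l hl)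
          omega
        simpa using this
      have h6 : 0 ≤ ∑ l ∈ L1 ∪ T', a l := Finset.sum_nonneg fun l _ => (ha l).1
      have h7 : 0 ≤ ∑ l ∈ L1 ∪ T', (if a l = 1 then (0 : ℤ) else 1) :=
        Finset.sum_nonneg fun l _ => hcharge0 l
      have h8 := hcharge1 c
      linarith
    · subst h
      have h5 : 0 ≤ ∑ l ∈ L \ (L1 ∪ T'), Int B S {l} x := by
        refine Finset.sum_nonneg fun l hl => ?_
        have := hL2 l (hmem2 l hl)
        omega
      have h6 : ∑ l ∈ L1 ∪ T', (a l - 1) ≤ ∑ l ∈ L1 ∪ T', (if a l = 1 then (0 : ℤ) else 1) :=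
        Finset.sum_le_sum fun l _ => hcharge1 l
      rw [Finset.sum_sub_distrib] at h6
      have h8 := hcharge0 c
      have h9 := (ha c).1
      linarith
  -- second stage
  have g2 : GoodE B a x e (insert c (S ∪ L1)) := by
    have e' : insert c (S ∪ L1) = S ∪ insert c L1 := by rw [Finset.union_insert]
    refine GoodE.step _ c g1 ?_ ?_
    · simp only [Finset.mem_union, not_or]
      exact ⟨hcS, fun h => hcL (hL1L h)⟩
    · rw [e', hval L1 hL1L, hch L1 hL1L]
      have := key ∅ (Finset.empty_subset _)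
      rw [Finset.union_empty] at this
      linarith
  have g3 : GoodE B a x e (insert c (S ∪ L1) ∪ L2) := by
    refine g2.add ?_ ?_
    · rw [Finset.disjoint_insert_left, Finset.disjoint_union_left]
      exact ⟨fun h => hcL (hL2L h), (Finset.disjoint_of_subset_left hL2L hLS).symm, hdis⟩
    · intro T' hT' _
      have e' : insert c (S ∪ L1) ∪ T' = S ∪ insert c (L1 ∪ T') := set_id1 _ _ _ _
      have hTL : L1 ∪ T' ⊆ L := Finset.union_subset hL1L (hT'.trans hL2L)
      rw [e', hval _ hTL, hch _ hTL]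
      have := key T' hT'
      linarith
  have e3 : insert c (S ∪ L1) ∪ L2 = S ∪ insert c L := by
    rw [← hun]
    exact set_id1 _ _ _ _
  rw [e3] at g3
  refine ⟨g3, ?_⟩
  rw [hval L (Finset.Subset.refl _), Finset.sum_sub_distrib, Finset.sum_add_distrib,
    Finset.sum_neg_distrib, ← Finset.mul_sum]
  have hM : ∑ l ∈ L, (1 : ℤ) ≤ ∑ l ∈ L, MM B c l :=
    Finset.sum_le_sum fun l hl => h1 l hl
  rw [Finset.sum_const, nsmul_eq_mul, mul_one] at hM
  linarith


/-- the first star -/
lemma GoodE.first {x : V → ℤ} (he : e ≤ 1) (h0 : ∀ u v, 0 ≤ B u v)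
    (hB : ∀ v, B v v = 0) (ha : ∀ v, 0 ≤ a v ∧ a v ≤ 2) (c : V) (L : Finset V)
    (hcL : c ∉ L) (hL : L.Nonempty) (h1 : ∀ l ∈ L, 1 ≤ MM B c l)
    (h2 : ∀ l ∈ L, ∀ l' ∈ L, MM B l l' = 0) (σ : ℤ) (hσ : σ = 1 ∨ σ = -1) (hxc : x c = σ)
    (hxL : ∀ l ∈ L, x l = -σ) : GoodE B a x e (insert c L) := by
  have hc1 : ∀ v, 1 ≤ a v + (if a v = 1 then 0 else 1) := by
    intro v
    have := ha v
    split_ifs with h
    · omega
    · rcases lt_or_ge (a v) 0 with h3 | h3 <;> omega
  have hc2 : ∀ v, a v - (if a v = 1 then 0 else 1) ≤ 1 := by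
    intro v
    have := ha v
    split_ifs with h <;> omega
  have hval0 : ∀ T' ⊆ L, DD B a x T' = ∑ l ∈ T', (- (σ * a l)) := by
    intro T' hT'
    unfold DD
    rw [Qd_indep h0 (fun l hl l' hl' => h2 l (hT' hl) l' (hT' hl')), add_zero]
    exact Finset.sum_congr rfl fun l hl => by rw [hxL l (hT' hl)]; ring
  have hval : ∀ T' ⊆ L, DD B a x (insert c T') = σ * a c - ∑ l ∈ T', (σ * a l + MM B c l) := by
    intro T' hT'
    have hcT' : c ∉ T' := fun h => hcL (hT' h)
    unfold DD
    rw [Qd_star c T' hcT' h0 hB (fun l hl l' hl' => h2 l (hT' hl) l' (hT' hl')),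
      Finset.sum_insert hcT', hxc, Finset.sum_add_distrib]
    have e1 : ∑ l ∈ T', MM B c l * (σ * x l) = - ∑ l ∈ T', MM B c l := by
      rw [← Finset.sum_neg_distrib]
      refine Finset.sum_congr rfl fun l hl => ?_
      rw [hxL l (hT' hl)]
      rcases hσ with h | h <;> rw [h] <;> ring
    have e2 : ∑ l ∈ T', a l * x l = - ∑ l ∈ T', σ * a l := by
      rw [← Finset.sum_neg_distrib]
      refine Finset.sum_congr rfl fun l hl => ?_
      rw [hxL l (hT' hl)]
      ring
    rw [e1, e2]
    ring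
  have hcs : ∀ T' : Finset V, c ∉ T' → ch a (insert c T') =
      (if a c = 1 then 0 else 1) + ∑ l ∈ T', if a l = 1 then 0 else 1 := by
    intro T' hT'
    unfold ch
    rw [Finset.sum_insert hT']
  rcases hσ with h | h
  · subst h
    have g1 : GoodE B a x e (∅ ∪ L) := by
      refine GoodE.empty.add (by simp) ?_
      intro T' hT' hne'
      rw [Finset.empty_union, hval0 T' hT']
      unfold ch
      have h3 : ∑ l ∈ T', (1 : ℤ) ≤ ∑ l ∈ T', (a l + if a l = 1 then 0 else 1) :=
        Finset.sum_le_sum fun l _ => hc1 l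
      rw [Finset.sum_add_distrib] at h3
      have h4 : (1 : ℤ) ≤ ∑ l ∈ T', (1 : ℤ) := by
        rw [Finset.sum_const, nsmul_eq_mul, mul_one]
        exact_mod_cast hne'.card_pos
      have h5 : ∑ l ∈ T', (- (1 * a l)) = - ∑ l ∈ T', a l := by
        rw [← Finset.sum_neg_distrib]
        exact Finset.sum_congr rfl fun l _ => by ring
      rw [h5]
      linarith
    rw [Finset.empty_union] at g1
    refine GoodE.step _ c g1 hcL ?_
    rw [hval L (Finset.Subset.refl _), hcs L hcL]
    have h3 : ∑ l ∈ L, (1 : ℤ) ≤ ∑ l ∈ L, (a l + if a l = 1 then 0 else 1) :=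
      Finset.sum_le_sum fun l _ => hc1 l
    have h6 : ∑ l ∈ L, (1 : ℤ) ≤ ∑ l ∈ L, MM B c l := Finset.sum_le_sum fun l hl => h1 l hl
    rw [Finset.sum_add_distrib] at h3
    have h4 : (1 : ℤ) ≤ ∑ l ∈ L, (1 : ℤ) := by
      rw [Finset.sum_const, nsmul_eq_mul, mul_one]
      exact_mod_cast hL.card_pos
    have h7 := hc2 c
    rw [Finset.sum_add_distrib]
    have h5 : ∑ l ∈ L, (1 * a l) = ∑ l ∈ L, a l := Finset.sum_congr rfl fun l _ => by ring
    rw [h5]
    linarith
  · subst h
    have key : ∀ T' ⊆ L, DD B a x (insert c T') ≤ ch a (insert c T') - e := by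
      intro T' hT'
      have hcT' : c ∉ T' := fun h => hcL (hT' h)
      rw [hval T' hT', hcs T' hcT']
      have h3 : ∑ l ∈ T', (a l - MM B c l) ≤ ∑ l ∈ T', (if a l = 1 then (0 : ℤ) else 1) := by
        refine Finset.sum_le_sum fun l hl => ?_
        have := h1 l (hT' hl)
        have := hc2 l
        linarith
      have h5 : ∑ l ∈ T', (-1 * a l + MM B c l) = - ∑ l ∈ T', (a l - MM B c l) := by
        rw [← Finset.sum_neg_distrib]
        exact Finset.sum_congr rfl fun l _ => by ring
      have h7 := hc1 c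
      rw [h5]
      linarith
    have g1 : GoodE B a x e {c} := by
      have := GoodE.step ∅ c (GoodE.empty (B := B) (a := a) (x := x) (e := e)) (by simp) (by
        have := key ∅ (Finset.empty_subset _)
        simpa using this)
      simpa using this
    have g2 : GoodE B a x e ({c} ∪ L) := by
      refine g1.add (by simpa using hcL) ?_
      intro T' hT' _
      have := key T' hT'
      rwa [Finset.insert_eq] at this
    rwa [← Finset.insert_eq] at g2

/-- a star can be added to a good set -/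
lemma GoodE.star {S : Finset V} {x : V → ℤ} (hS : GoodE B a x e S) (he : e ≤ 1)
    (h0 : ∀ u v, 0 ≤ B u v)
    (hB : ∀ v, B v v = 0) (ha : ∀ v, 0 ≤ a v ∧ a v ≤ 2) (c : V) (L : Finset V) (hcS : c ∉ S)
    (hcL : c ∉ L) (hLS : Disjoint L S) (hL : L.Nonempty) (h1 : ∀ l ∈ L, 1 ≤ MM B c l)
    (h2 : ∀ l ∈ L, ∀ l' ∈ L, MM B l l' = 0) (σ : ℤ) (hσ : σ = 1 ∨ σ = -1) (hxc : x c = σ)
    (hxL : ∀ l ∈ L, x l = -σ) (hint : Int B S (insert c L) x ≤ 0) :
    GoodE B a x e (S ∪ insert c L) := by
  rcases S.eq_empty_or_nonempty with rfl | hne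
  · rw [Finset.empty_union]
    exact GoodE.first he h0 hB ha c L hcL hL h1 h2 σ hσ hxc hxL
  · exact (hS.star' hne h0 hB ha c L hcS hcL hLS hL h1 h2 σ hσ hxc hxL hint).1

lemma DD_empty (x : V → ℤ) : DD B a x ∅ = 0 := by simp [DD, Qd]

lemma ch_empty : ch a ∅ = 0 := by simp [ch]

lemma insert_pair_eq2 (u v : V) : ({u, v} : Finset V) = insert u {v} := rfl

/-- an adjacent pair and a further vertex can be added to a good set -/
lemma GoodE.hole {S : Finset V} {x : V → ℤ} (hS : GoodE B a x e S) (he : e ≤ 1)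
    (hne : e ≤ 0 ∨ S.Nonempty) (h0 : ∀ u v, 0 ≤ B u v)
    (hB : ∀ v, B v v = 0) (ha : ∀ v, 0 ≤ a v ∧ a v ≤ 2) (u v w : V) (hu : u ∉ S) (hv : v ∉ S)
    (hw : w ∉ S) (huv : u ≠ v) (huw : u ≠ w) (hvw : v ≠ w) (h1 : 1 ≤ MM B u v) (σ : ℤ)
    (hσ : σ = 1 ∨ σ = -1) (hxu : x u = σ) (hxv : x v = -σ) (hxw : x w = 1 ∨ x w = -1)
    (hint : Int B S {u, v} x ≤ 0) (hint' : Int B (S ∪ {u, v}) {w} x ≤ 0) :
    GoodE B a x e (insert w (S ∪ {u, v})) := by
  have hvv : ∀ l ∈ ({v} : Finset V), ∀ l' ∈ ({v} : Finset V), MM B l l' = 0 := by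
    intro l hl l' hl'
    rw [Finset.mem_singleton] at hl hl'
    rw [hl, hl']
    simp [MM, hB]
  have g1 := hS.star he h0 hB ha u {v} hu (by simpa using huv) (by simpa using hv)
    (by simp) (by simpa using h1) hvv σ hσ hxu (by simpa using hxv) hint
  rw [← insert_pair_eq2] at g1
  have hd2' : Disjoint S {u, v} := by
    rw [Finset.disjoint_right]
    intro z hz
    rw [Finset.mem_insert, Finset.mem_singleton] at hz
    rcases hz with rfl | rfl
    · exact hu
    · exact hv
  have g2 : DD B a x (S ∪ {u, v}) ≤ ch a S - e + σ * (a u - a v) - 1 := by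
    have hSle : DD B a x S ≤ ch a S - e := by
      rcases hne with h | h
      · rcases S.eq_empty_or_nonempty with rfl | h'
        · rw [DD_empty, ch_empty]; linarith
        · exact hS.le h'
      · exact hS.le h
    have e4 : ∑ w ∈ ({u, v} : Finset V), Int B S {w} x = Int B S {u, v} x :=
      (Int_sum_right _ _ _).symm
    rw [DD_union hd2', Finset.sum_add_distrib, e4, Finset.sum_pair huv, hxu, hxv, insert_pair_eq2,
      Qd_star u {v} (by simpa using huv) h0 hB hvv, ← insert_pair_eq2]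
    simp only [Finset.sum_singleton]
    have h4 : MM B u v * (x u * x v) = - MM B u v := by
      rw [hxu, hxv]
      rcases hσ with h | h <;> rw [h] <;> ring
    rw [h4]
    linarith
  have hwS : w ∉ S ∪ {u, v} := by
    simp only [Finset.mem_union, Finset.mem_insert, Finset.mem_singleton, not_or]
    exact ⟨hw, huw.symm, hvw.symm⟩
  refine GoodE.step _ w g1 hwS ?_
  have e' : insert w (S ∪ {u, v}) = (S ∪ {u, v}) ∪ {w} := set_id2 _ _
  have hd : Disjoint (S ∪ {u, v}) {w} := by simpa using hwS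
  have hd2 : Disjoint S {u, v} := by
    rw [Finset.disjoint_right]
    intro z hz
    rw [Finset.mem_insert, Finset.mem_singleton] at hz
    rcases hz with rfl | rfl
    · exact hu
    · exact hv
  rw [e', DD_union hd, Qd_single w hB, ch_union hd, ch_union hd2]
  simp only [Finset.sum_singleton, add_zero]
  have e2 : ch a {u, v} = (if a u = 1 then 0 else 1) + (if a v = 1 then 0 else 1) := by
    unfold ch
    rw [Finset.sum_pair huv]
  have e3 : ch a {w} = if a w = 1 then 0 else 1 := by simp [ch]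
  rw [e2, e3]
  have h3 : σ * (a u - a v) ≤ (if a u = 1 then 0 else 1) + (if a v = 1 then 0 else 1) := by
    have hu2 := ha u
    have hv2 := ha v
    rcases hσ with h | h <;> rw [h] <;> split_ifs <;> omega
  have h4 : a w * x w ≤ (if a w = 1 then 0 else 1) + 1 := by
    have hw2 := ha w
    rcases hxw with h | h <;> rw [h] <;> split_ifs <;> omega
  linarith

/-- every block structure is realised by a sign pattern with small quadratic form which can be
built vertex by vertex, also after a global change of sign -/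
theorem BlocksE.realise {S : Finset V} {g : ℤ} (h : BlocksE B e S g) (he : e ≤ 1) (h0 : ∀ u v, 0 ≤ B u v)
    (hB : ∀ v, B v v = 0) (ha : ∀ v, 0 ≤ a v ∧ a v ≤ 2) :
    ∃ x : V → ℤ, (∀ v, x v = 1 ∨ x v = -1) ∧ Qd B S x ≤ -g ∧ GoodE B a x e S ∧
      GoodE B a (fun v => - x v) e S := by
  induction h with
  | empty => exact ⟨fun _ => 1, fun _ => Or.inl rfl, by simp [Qd], GoodE.empty, GoodE.empty⟩
  | star S g c L hS hcS hcL hLS hL h1 h2 ih =>
    obtain ⟨x0, hx0, hq, hg, hg'⟩ := ih
    have hd : Disjoint S (insert c L) := by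
      rw [Finset.disjoint_insert_right]
      exact ⟨hcS, hLS.symm⟩
    set y : ℤ → V → ℤ := fun σ v => if v = c then σ else if v ∈ L then -σ else x0 v with hy
    have hyc : ∀ σ, y σ c = σ := by intro σ; simp [hy]
    have hyL : ∀ σ, ∀ l ∈ L, y σ l = -σ := by
      intro σ l hl
      have : l ≠ c := fun e => hcL (e ▸ hl)
      simp [hy, this, hl]
    have hyS : ∀ σ, ∀ v ∈ S, y σ v = x0 v := by
      intro σ v hv
      have h3 : v ≠ c := fun e => hcS (e ▸ hv)
      have h4 : v ∉ L := fun h => Finset.disjoint_left.1 hLS h hv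
      simp [hy, h3, h4]
    have hJ : ∀ σ, (σ = 1 ∨ σ = -1) →
        Int B S (insert c L) (y σ) = σ * Int B S (insert c L) (y 1) := by
      intro σ hσ
      unfold Int
      rw [Finset.mul_sum]
      refine Finset.sum_congr rfl fun u hu => ?_
      rw [Finset.mul_sum]
      refine Finset.sum_congr rfl fun v hv => ?_
      rw [hyS σ u hu, hyS 1 u hu]
      rcases Finset.mem_insert.1 hv with rfl | hv
      · rw [hyc, hyc]; ring
      · rw [hyL σ v hv, hyL 1 v hv]; ring
    obtain ⟨σ, hσ, hσJ⟩ : ∃ σ : ℤ, (σ = 1 ∨ σ = -1) ∧ Int B S (insert c L) (y σ) ≤ 0 := by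
      rcases le_total (Int B S (insert c L) (y 1)) 0 with h3 | h3
      · exact ⟨1, Or.inl rfl, h3⟩
      · refine ⟨-1, Or.inr rfl, ?_⟩
        rw [hJ _ (Or.inr rfl)]
        linarith
    refine ⟨y σ, ?_, ?_, ?_, ?_⟩
    · intro v
      simp only [hy]
      split_ifs
      · exact hσ
      · rcases hσ with h | h <;> rw [h] <;> norm_num
      · exact hx0 v
    · rw [Qd_union hd, Qd_congr (hyS σ), Qd_star c L hcL h0 hB h2]
      have : ∑ l ∈ L, MM B c l * (y σ c * y σ l) = - ∑ l ∈ L, MM B c l := by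
        rw [← Finset.sum_neg_distrib]
        refine Finset.sum_congr rfl fun l hl => ?_
        rw [hyc, hyL σ l hl]
        rcases hσ with h | h <;> rw [h] <;> ring
      rw [this]
      linarith
    · exact (hg.congr fun v hv => (hyS σ v hv).symm).star he h0 hB ha c L hcS hcL hLS hL h1 h2 σ hσ
        (hyc σ) (hyL σ) hσJ
    · refine GoodE.star (hg'.congr fun v hv => by rw [hyS σ v hv]) he h0 hB ha c L hcS hcL hLS hL
        h1 h2 (-σ) ?_ (by rw [hyc σ]) (fun l hl => by rw [hyL σ l hl]) ?_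
      · rcases hσ with h | h
        · right; rw [h]
        · left; rw [h]; norm_num
      · rw [Int_neg]; exact hσJ
  | hole S g u v w hS hu hv hw huv huw hvw h1 hne ih =>
    obtain ⟨x0, hx0, hq, hg, hg'⟩ := ih
    have hd : Disjoint S {u, v} := by
      rw [Finset.disjoint_right]
      intro z hz
      rw [Finset.mem_insert, Finset.mem_singleton] at hz
      rcases hz with rfl | rfl
      · exact hu
      · exact hv
    have hvv : ∀ l ∈ ({v} : Finset V), ∀ l' ∈ ({v} : Finset V), MM B l l' = 0 := by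
      intro l hl l' hl'
      rw [Finset.mem_singleton] at hl hl'
      rw [hl, hl']
      simp [MM, hB]
    have hwS : w ∉ S ∪ {u, v} := by
      simp only [Finset.mem_union, Finset.mem_insert, Finset.mem_singleton, not_or]
      exact ⟨hw, huw.symm, hvw.symm⟩
    have hdw : Disjoint (S ∪ {u, v}) {w} := by simpa using hwS
    set y : ℤ → ℤ → V → ℤ := fun σ τ z => if z = u then σ else if z = v then -σ else
      if z = w then τ else x0 z with hy
    have hyu : ∀ σ τ, y σ τ u = σ := by intro σ τ; simp [hy]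
    have hyv : ∀ σ τ, y σ τ v = -σ := by intro σ τ; simp [hy, huv.symm]
    have hyw : ∀ σ τ, y σ τ w = τ := by intro σ τ; simp [hy, huw.symm, hvw.symm]
    have hyS : ∀ σ τ, ∀ z ∈ S, y σ τ z = x0 z := by
      intro σ τ z hz
      have h3 : z ≠ u := fun e => hu (e ▸ hz)
      have h4 : z ≠ v := fun e => hv (e ▸ hz)
      have h5 : z ≠ w := fun e => hw (e ▸ hz)
      simp [hy, h3, h4, h5]
    have hJ : ∀ σ τ, Int B S {u, v} (y σ τ) = σ * Int B S {u, v} (y 1 1) := by
      intro σ τ
      unfold Int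
      rw [Finset.mul_sum]
      refine Finset.sum_congr rfl fun z hz => ?_
      rw [Finset.sum_pair huv, Finset.sum_pair huv, hyu, hyv, hyS σ τ z hz, hyu, hyv,
        hyS 1 1 z hz]
      ring
    obtain ⟨σ, hσ, hσJ⟩ : ∃ σ : ℤ, (σ = 1 ∨ σ = -1) ∧ ∀ τ, Int B S {u, v} (y σ τ) ≤ 0 := by
      rcases le_total (Int B S {u, v} (y 1 1)) 0 with h3 | h3
      · exact ⟨1, Or.inl rfl, fun τ => by rw [hJ]; linarith⟩
      · refine ⟨-1, Or.inr rfl, fun τ => ?_⟩
        rw [hJ]
        linarith
    have hJ' : ∀ τ, Int B (S ∪ {u, v}) {w} (y σ τ) = τ * Int B (S ∪ {u, v}) {w} (y σ 1) := by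
      intro τ
      unfold Int
      rw [Finset.mul_sum]
      refine Finset.sum_congr rfl fun z hz => ?_
      rw [Finset.sum_singleton, Finset.sum_singleton, hyw, hyw]
      have : y σ τ z = y σ 1 z := by
        have h5 : z ≠ w := fun e => hwS (e ▸ hz)
        simp [hy, h5]
      rw [this]
      ring
    obtain ⟨τ, hτ, hτJ⟩ : ∃ τ : ℤ, (τ = 1 ∨ τ = -1) ∧ Int B (S ∪ {u, v}) {w} (y σ τ) ≤ 0 := by
      rcases le_total (Int B (S ∪ {u, v}) {w} (y σ 1)) 0 with h3 | h3
      · exact ⟨1, Or.inl rfl, h3⟩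
      · refine ⟨-1, Or.inr rfl, ?_⟩
        rw [hJ']
        linarith
    refine ⟨y σ τ, ?_, ?_, ?_, ?_⟩
    · intro z
      simp only [hy]
      split_ifs
      · exact hσ
      · rcases hσ with h | h <;> rw [h] <;> norm_num
      · exact hτ
      · exact hx0 z
    · have e : insert w (S ∪ {u, v}) = (S ∪ {u, v}) ∪ {w} := set_id2 _ _
      rw [e, Qd_union hdw, Qd_union hd, Qd_congr (hyS σ τ), Qd_single w hB, insert_pair_eq2,
        Qd_star u {v} (by simpa using huv) h0 hB hvv, ← insert_pair_eq2]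
      simp only [Finset.sum_singleton]
      have h3 := hσJ τ
      have h4 : MM B u v * (y σ τ u * y σ τ v) = - MM B u v := by
        rw [hyu, hyv]
        rcases hσ with h | h <;> rw [h] <;> ring
      rw [h4]
      linarith
    · exact (hg.congr fun z hz => (hyS σ τ z hz).symm).hole he hne h0 hB ha u v w hu hv hw huv huw hvw h1
        σ hσ (hyu σ τ) (hyv σ τ) (by rw [hyw]; exact hτ) (hσJ τ) hτJ
    · refine GoodE.hole (hg'.congr fun z hz => by rw [hyS σ τ z hz]) he hne h0 hB ha u v w hu hv hw huv huw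
        hvw h1 (-σ) ?_ (by rw [hyu]) (by rw [hyv]) ?_ ?_ ?_
      · rcases hσ with h | h
        · right; rw [h]
        · left; rw [h]; norm_num
      · rw [hyw]
        rcases hτ with h | h
        · right; rw [h]
        · left; rw [h]; norm_num
      · rw [Int_neg]; exact hσJ τ
      · rw [Int_neg]; exact hτJ

end Pool.Agent.Exact


end

section

/-!
# The two uses of a path: hub fixed (crossing or not), and path flipped as a whole
-/

set_option autoImplicit false
set_option linter.unusedSectionVars false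

namespace Pool.Agent.Exact

open Finset

variable {V : Type*} [Fintype V] [DecidableEq V] {B : V → V → ℤ}

/-- hub `h` fixed with sign `+`, pattern `x` on `X`, structure on the rest -/
theorem stopSt (hB : ∀ v, B v v = 0) (h : V) (X : Finset V) (hX : h ∉ X) (x : V → ℤ)
    (hx : ∀ v, x v = 1 ∨ x v = -1) {M K t : ℝ} (hK : 0 ≤ K)
    (hp : St B (im B) (insert h X)ᶜ M K t) :
    Val B (((DD B (MM B h) x X : ℤ) : ℝ) + M +
      max (max |((im B h + ∑ v ∈ X, im B v * x v : ℤ) : ℝ)| K)
        ((|((im B h + ∑ v ∈ X, im B v * x v : ℤ) : ℝ)| + t) / 2)) := by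
  set z : V → ℤ := fun v => if v = h then 1 else x v with hz
  have hzh : z h = 1 := by simp [hz]
  have hzP : ∀ v ∈ X, z v = x v := by
    intro v hv
    have : v ≠ h := fun e => hX (e ▸ hv)
    simp [hz, this]
  have hz1 : ∀ v, z v = 1 ∨ z v = -1 := by
    intro v
    simp only [hz]
    split_ifs
    · left; rfl
    · exact hx v
  have h3 := extendSt (insert h X) z hz1 hK hp
  have hd : Disjoint {h} X := by simpa using hX
  have e1 : Qd B (insert h X) z = DD B (MM B h) x X := by
    rw [Finset.insert_eq, Qd_union hd, Qd_single h hB, Qd_congr hzP]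
    unfold DD Int
    rw [Finset.sum_singleton, zero_add, add_comm]
    congr 1
    refine Finset.sum_congr rfl fun v hv => ?_
    rw [hzh, hzP v hv]
    ring
  have e2 : ∑ v ∈ insert h X, im B v * z v = im B h + ∑ v ∈ X, im B v * x v := by
    rw [Finset.sum_insert hX, hzh, mul_one]
    congr 1
    exact Finset.sum_congr rfl fun v hv => by rw [hzP v hv]
  rw [e1, e2] at h3
  exact h3

/-- the crossing step of a good set -/
theorem GoodE.cross {a x t : V → ℤ} {e : ℤ} {S : Finset V} (hS : GoodE B a x e S) (c : ℝ)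
    (hc0 : 0 < c) (hc : c ≤ ((∑ v ∈ S, t v * x v : ℤ) : ℝ)) {Db : ℝ} (hDb0 : 0 ≤ Db)
    (hDb : ∀ P ⊆ S, P.Nonempty → ((ch a P - e : ℤ) : ℝ) ≤ Db) :
    ∃ (P : Finset V) (v : V), v ∉ P ∧ insert v P ⊆ S ∧ ((DD B a x P : ℤ) : ℝ) ≤ Db ∧
      ((DD B a x (insert v P) : ℤ) : ℝ) ≤ Db ∧ ((∑ u ∈ P, t u * x u : ℤ) : ℝ) < c ∧
      c ≤ ((∑ u ∈ insert v P, t u * x u : ℤ) : ℝ) := by
  induction hS with
  | empty => simp at hc; linarith
  | step S v hS hv hD ih =>
    rcases lt_or_ge ((∑ u ∈ S, t u * x u : ℤ) : ℝ) c with h1 | h1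
    · refine ⟨S, v, hv, Finset.Subset.refl _, ?_, ?_, h1, hc⟩
      · rcases S.eq_empty_or_nonempty with rfl | hne
        · rw [DD_empty]; simpa using hDb0
        · have h2 := hS.le hne
          have h3 := hDb S (Finset.subset_insert _ _) hne
          have h4 : ((DD B a x S : ℤ) : ℝ) ≤ ((ch a S - e : ℤ) : ℝ) := by exact_mod_cast h2
          linarith
      · have h3 := hDb (insert v S) (Finset.Subset.refl _) (Finset.insert_nonempty _ _)
        have h4 : ((DD B a x (insert v S) : ℤ) : ℝ) ≤ ((ch a (insert v S) - e : ℤ) : ℝ) := by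
          exact_mod_cast hD
        linarith
    · obtain ⟨P, w, h2, h3, h4⟩ := ih h1 fun P hP => hDb P (hP.trans (Finset.subset_insert _ _))
      exact ⟨P, w, h2, h3.trans (Finset.subset_insert _ _), h4⟩

/-- structure of a part of the path set -/
lemma St.restR (hB : ∀ v, B v v = 0) (h0 : ∀ u v, 0 ≤ B u v) {U : Finset V} {K : ℝ}
    (hK : ∀ v ∈ U, |((im B v : ℤ) : ℝ)| ≤ K) :
    St B (im B) U 0 K (altF (fun v => |((im B v : ℤ) : ℝ)|) (U.filter fun v => 0 ≤ im B v) +
      altF (fun v => |((im B v : ℤ) : ℝ)|) (U.filter fun v => ¬ 0 ≤ im B v)) := by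
  have h1 := St.rest (K := K) hB h0 _ (U.filter fun v => 0 ≤ im B v) rfl
    (Or.inl fun v hv => (Finset.mem_filter.1 hv).2) (fun v hv => hK v (Finset.mem_filter.1 hv).1)
  have h2 := St.rest (K := K) hB h0 _ (U.filter fun v => ¬ 0 ≤ im B v) rfl
    (Or.inr fun v hv => (not_le.1 (Finset.mem_filter.1 hv).2).le)
    (fun v hv => hK v (Finset.mem_filter.1 hv).1)
  have h3 := h1.union h2 (Finset.disjoint_filter_filter_not _ _ _)
  rw [Finset.filter_union_filter_not_eq] at h3
  exact h3.mono (by norm_num) le_rfl le_rfl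

/-- **Crossing step.** The sign of the linear form changes between `P` and `insert v P`; the rest
of `R` is re-sorted. -/
theorem crossing_core (hB : ∀ v, B v v = 0) (h0 : ∀ u v, 0 ≤ B u v) (h : V) (R C : Finset V)
    (hR : h ∉ R) (hC : h ∉ C) (hd : Disjoint R C) (hu : insert h (R ∪ C) = univ)
    {x : V → ℤ} (hx : ∀ v, x v = 1 ∨ x v = -1) {Db : ℝ} {P : Finset V} {v : V} (hvP : v ∉ P)
    (hPR : insert v P ⊆ R) (hD1 : ((DD B (MM B h) x P : ℤ) : ℝ) ≤ Db)
    (hD2 : ((DD B (MM B h) x (insert v P) : ℤ) : ℝ) ≤ Db)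
    (hc1 : ((∑ u ∈ P, (- im B u) * x u : ℤ) : ℝ) < ((im B h : ℤ) : ℝ))
    (hc2 : ((im B h : ℤ) : ℝ) ≤ ((∑ u ∈ insert v P, (- im B u) * x u : ℤ) : ℝ))
    {M K t rQ rP : ℝ} (hK : 0 ≤ K) (hst : St B (im B) C M K t)
    (hrQ : ∀ v ∈ R, 0 ≤ im B v → ((im B v : ℤ) : ℝ) ≤ rQ) (hrQK : rQ ≤ K) (hrQ0 : 0 ≤ rQ)
    (hrP : ∀ v ∈ R, im B v < 0 → -((im B v : ℤ) : ℝ) ≤ rP) (hrPK : rP ≤ K) (hrP0 : 0 ≤ rP) :
    Val B (Db + M + max K ((t + rQ + rP) / 2)) := by
  classical
  set w : V → ℝ := fun v => |((im B v : ℤ) : ℝ)| with hw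
  have hvR : v ∈ R := hPR (Finset.mem_insert_self _ _)
  have hPR' : P ⊆ R := (Finset.subset_insert _ _).trans hPR
  have hwK : ∀ z ∈ R, w z ≤ K := by
    intro z hz
    simp only [hw]
    rcases le_or_gt 0 (im B z) with h3 | h3
    · have h4 : (0 : ℝ) ≤ im B z := by exact_mod_cast h3
      rw [abs_of_nonneg h4]
      exact (hrQ z hz h3).trans hrQK
    · have h4 : ((im B z : ℤ) : ℝ) < 0 := by exact_mod_cast h3
      rw [abs_of_neg h4]
      exact (hrP z hz h3).trans hrPK
  -- value for a prefix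
  have hval : ∀ X ⊆ R, ((DD B (MM B h) x X : ℤ) : ℝ) ≤ Db →
      |((im B h + ∑ v ∈ X, im B v * x v : ℤ) : ℝ)| ≤ K →
      Val B (Db + M + max K ((|((im B h + ∑ v ∈ X, im B v * x v : ℤ) : ℝ)| + t +
        altF w ((R \ X).filter fun v => 0 ≤ im B v) +
        altF w ((R \ X).filter fun v => ¬ 0 ≤ im B v)) / 2)) := by
    intro X hX hDX hLK
    have hhX : h ∉ X := fun h3 => hR (hX h3)
    have h3 := St.restR hB h0 (U := R \ X) (K := K)
      (fun z hz => hwK z (Finset.mem_sdiff.1 hz).1)
    have h4 := hst.union h3 ((Finset.disjoint_of_subset_left Finset.sdiff_subset hd).symm)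
    have h5 : C ∪ R \ X = (insert h X)ᶜ := by
      ext z
      have hz : z ∈ insert h (R ∪ C) := by rw [hu]; exact Finset.mem_univ z
      simp only [Finset.mem_insert, Finset.mem_union] at hz
      simp only [Finset.mem_union, Finset.mem_sdiff, Finset.mem_compl, Finset.mem_insert, not_or]
      constructor
      · rintro (h6 | ⟨h6, h7⟩)
        · exact ⟨fun e => hC (e ▸ h6), fun h8 => Finset.disjoint_left.1 hd (hX h8) h6⟩
        · exact ⟨fun e => hR (e ▸ h6), h7⟩
      · rintro ⟨h6, h7⟩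
        rcases hz with h8 | h8 | h8
        · exact absurd h8 h6
        · exact Or.inr ⟨h8, h7⟩
        · exact Or.inl h8
    rw [h5] at h4
    have h6 := stopSt hB h X hhX x hx hK h4
    refine h6.mono ?_
    rw [max_eq_right hLK]
    have h7 : max K ((|((im B h + ∑ v ∈ X, im B v * x v : ℤ) : ℝ)| +
        (t + (altF w ((R \ X).filter fun v => 0 ≤ im B v) +
        altF w ((R \ X).filter fun v => ¬ 0 ≤ im B v)))) / 2) ≤
        max K ((|((im B h + ∑ v ∈ X, im B v * x v : ℤ) : ℝ)| + t +
        altF w ((R \ X).filter fun v => 0 ≤ im B v) +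
        altF w ((R \ X).filter fun v => ¬ 0 ≤ im B v)) / 2) :=
      max_le_max le_rfl (by linarith)
    linarith
  set L1 : ℝ := ((im B h + ∑ v ∈ P, im B v * x v : ℤ) : ℝ) with hL1
  set L2 : ℝ := ((im B h + ∑ v ∈ insert v P, im B v * x v : ℤ) : ℝ) with hL2
  have hneg : ∀ X : Finset V, ((∑ v ∈ X, (- im B v) * x v : ℤ) : ℝ) =
      - ((∑ v ∈ X, im B v * x v : ℤ) : ℝ) := by
    intro X
    push_cast
    rw [← Finset.sum_neg_distrib]
    exact Finset.sum_congr rfl fun v _ => by ring
  have hL1pos : 0 < L1 := by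
    rw [hneg] at hc1
    rw [hL1]; push_cast at hc1 ⊢; linarith
  have hL2neg : L2 ≤ 0 := by
    rw [hneg] at hc2
    rw [hL2]; push_cast at hc2 ⊢; linarith
  have hdiff : L1 - L2 = w v := by
    have h3 : L2 = L1 + ((im B v * x v : ℤ) : ℝ) := by
      rw [hL1, hL2, Finset.sum_insert hvP]
      push_cast; ring
    have h4 : ((im B v * x v : ℤ) : ℝ) ≤ 0 := by linarith
    have h5 : w v = |((im B v * x v : ℤ) : ℝ)| := by
      simp only [hw]
      push_cast
      rw [abs_mul]
      rcases hx v with h6 | h6 <;> rw [h6] <;> simp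
    rw [h5, abs_of_nonpos h4]
    linarith
  have hwv := hwK v hvR
  have hwv0 : 0 ≤ w v := abs_nonneg _
  have hv1 := hval P hPR' hD1 (by rw [← hL1, abs_of_pos hL1pos]; linarith)
  have hv2 := hval (insert v P) hPR hD2 (by rw [← hL2, abs_of_nonpos hL2neg]; linarith)
  rw [← hL1] at hv1
  rw [← hL2] at hv2
  -- the sum of the totals
  have hsd : R \ P = insert v (R \ insert v P) := by
    ext z
    simp only [Finset.mem_sdiff, Finset.mem_insert, not_or]
    constructor
    · rintro ⟨h3, h4⟩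
      by_cases h5 : z = v
      · exact Or.inl h5
      · exact Or.inr ⟨h3, h5, h4⟩
    · rintro (rfl | ⟨h3, h4, h5⟩)
      · exact ⟨hvR, hvP⟩
      · exact ⟨h3, h5⟩
  set U := R \ insert v P with hU
  have hvU : v ∉ U := by simp [hU]
  have hwQ : ∀ z ∈ U.filter (fun v => 0 ≤ im B v), w z ≤ rQ := by
    intro z hz
    rw [Finset.mem_filter, hU, Finset.mem_sdiff] at hz
    have h4 : (0 : ℝ) ≤ im B z := by exact_mod_cast hz.2
    simp only [hw]
    rw [abs_of_nonneg h4]
    exact hrQ z hz.1.1 hz.2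
  have hwP : ∀ z ∈ U.filter (fun v => ¬ 0 ≤ im B v), w z ≤ rP := by
    intro z hz
    rw [Finset.mem_filter, hU, Finset.mem_sdiff] at hz
    have h4 : ((im B z : ℤ) : ℝ) < 0 := by exact_mod_cast not_le.1 hz.2
    simp only [hw]
    rw [abs_of_neg h4]
    exact hrP z hz.1.1 (not_le.1 hz.2)
  have hw0 : ∀ (W : Finset V), ∀ z ∈ W, 0 ≤ w z := fun W z _ => abs_nonneg _
  have hsum : |L1| + altF w ((R \ P).filter fun v => 0 ≤ im B v) +
      altF w ((R \ P).filter fun v => ¬ 0 ≤ im B v) + (|L2| +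
      altF w (U.filter fun v => 0 ≤ im B v) + altF w (U.filter fun v => ¬ 0 ≤ im B v)) ≤
      2 * rQ + 2 * rP := by
    rw [abs_of_pos hL1pos, abs_of_nonpos hL2neg, hsd]
    rcases le_or_gt 0 (im B v) with h3 | h3
    · rw [Finset.filter_insert, if_pos h3, Finset.filter_insert, if_neg (not_not.2 h3)]
      have h4 := altF_insert w (U := U.filter fun v => 0 ≤ im B v) (v := v)
        (fun h => hvU (Finset.mem_filter.1 h).1) (hw0 _) (r := rQ) (by
          have h4 : (0 : ℝ) ≤ im B v := by exact_mod_cast h3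
          simp only [hw]
          rw [abs_of_nonneg h4]
          exact hrQ v hvR h3) hwQ
      have h5 := altF_le w (U := U.filter fun v => ¬ 0 ≤ im B v) (hw0 _) hrP0 hwP
      linarith
    · rw [Finset.filter_insert, if_neg (not_le.2 h3), Finset.filter_insert,
        if_pos (not_le.2 h3)]
      have h4 := altF_insert w (U := U.filter fun v => ¬ 0 ≤ im B v) (v := v)
        (fun h => hvU (Finset.mem_filter.1 h).1) (hw0 _) (r := rP) (by
          have h4 : ((im B v : ℤ) : ℝ) < 0 := by exact_mod_cast h3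
          simp only [hw]
          rw [abs_of_neg h4]
          exact hrP v hvR h3) hwP
      have h5 := altF_le w (U := U.filter fun v => 0 ≤ im B v) (hw0 _) hrQ0 hwQ
      linarith
  rcases le_total (|L1| + altF w ((R \ P).filter fun v => 0 ≤ im B v) +
      altF w ((R \ P).filter fun v => ¬ 0 ≤ im B v)) (rQ + rP) with h3 | h3
  · refine hv1.mono ?_
    have : max K ((|L1| + t + altF w ((R \ P).filter fun v => 0 ≤ im B v) +
        altF w ((R \ P).filter fun v => ¬ 0 ≤ im B v)) / 2) ≤ max K ((t + rQ + rP) / 2) :=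
      max_le_max le_rfl (by linarith)
    linarith
  · refine hv2.mono ?_
    have : max K ((|L2| + t + altF w (U.filter fun v => 0 ≤ im B v) +
        altF w (U.filter fun v => ¬ 0 ≤ im B v)) / 2) ≤ max K ((t + rQ + rP) / 2) :=
      max_le_max le_rfl (by linarith)
    linarith


/-- **Crossing.** The path runs through `R0 ⊆ R`; the rest of `R` is re-sorted. -/
theorem crossing (hB : ∀ v, B v v = 0) (h0 : ∀ u v, 0 ≤ B u v) (h : V) (R R0 C : Finset V)
    (hR0 : R0 ⊆ R)
    (hR : h ∉ R) (hC : h ∉ C) (hd : Disjoint R C) (hu : insert h (R ∪ C) = univ)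
    {x : V → ℤ} (hx : ∀ v, x v = 1 ∨ x v = -1) {e : ℤ} (hg : GoodE B (MM B h) x e R0)
    (hq : 0 < im B h) (hY : im B h ≤ - ∑ v ∈ R0, im B v * x v) {Db : ℝ} (hDb0 : 0 ≤ Db)
    (hDb : ∀ P ⊆ R0, P.Nonempty → ((ch (MM B h) P - e : ℤ) : ℝ) ≤ Db)
    {M K t rQ rP : ℝ} (hK : 0 ≤ K) (hst : St B (im B) C M K t)
    (hrQ : ∀ v ∈ R, 0 ≤ im B v → ((im B v : ℤ) : ℝ) ≤ rQ) (hrQK : rQ ≤ K) (hrQ0 : 0 ≤ rQ)
    (hrP : ∀ v ∈ R, im B v < 0 → -((im B v : ℤ) : ℝ) ≤ rP) (hrPK : rP ≤ K) (hrP0 : 0 ≤ rP) :
    Val B (Db + M + max K ((t + rQ + rP) / 2)) := by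
  have hYR : ((im B h : ℤ) : ℝ) ≤ ((∑ v ∈ R0, (- im B v) * x v : ℤ) : ℝ) := by
    have : ∑ v ∈ R0, (- im B v) * x v = - ∑ v ∈ R0, im B v * x v := by
      rw [← Finset.sum_neg_distrib]
      exact Finset.sum_congr rfl fun v _ => by ring
    rw [this]
    exact_mod_cast hY
  obtain ⟨P, v, hvP, hPR0, hD1, hD2, hc1, hc2⟩ := hg.cross (t := fun v => - im B v)
    ((im B h : ℤ) : ℝ) (by exact_mod_cast hq) hYR hDb0 hDb
  exact crossing_core hB h0 h R C hR hC hd hu hx hvP (hPR0.trans hR0) hD1 hD2 hc1 hc2 hK hst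
    hrQ hrQK hrQ0 hrP hrPK hrP0

end Pool.Agent.Exact


end

section

/-!
# Sorted enumerations of both types, with dummy vertices of weight zero
-/

set_option autoImplicit false
set_option linter.unusedSectionVars false

namespace Pool.Agent.Exact

open Finset

/-- The frame: `Rl` the real vertices, the others are isolated dummies; `uq` enumerates the
vertices with nonnegative imbalance, `up` those with nonpositive imbalance, sorted by weight. -/
structure Sys {V : Type*} [Fintype V] [DecidableEq V] (B : V → V → ℤ) (Rl : Finset V) (L : ℕ)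
    (nQ nP : ℕ) (uq up : ℕ → V) (q p : ℕ → ℝ) : Prop where
  B0 : ∀ u v, 0 ≤ B u v
  B1 : ∀ u v, B u v ≤ 1
  Bd : ∀ v, B v v = 0
  dummy : ∀ v, v ∉ Rl → ∀ u, B u v = 0 ∧ B v u = 0
  chQ : Chain (im B) uq L q
  wtQ : ∀ i < L, ((im B (uq i) : ℤ) : ℝ) = q i
  chP : Chain (im B) up L p
  wtP : ∀ i < L, ((im B (up i) : ℤ) : ℝ) = - p i
  disj : ∀ i < L, ∀ j < L, uq i ≠ up j
  cover : ∀ v, (∃ i < L, uq i = v) ∨ ∃ i < L, up i = v
  realQ : ∀ i < L, uq i ∈ Rl ↔ i < nQ
  realP : ∀ i < L, up i ∈ Rl ↔ i < nP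
  card : nQ + nP = Rl.card
  big : Rl.card + 10 ≤ L

/-- dummies added -/
def Bx {V : Type*} (B : V → V → ℤ) (d : ℕ) : V ⊕ Fin d → V ⊕ Fin d → ℤ
  | Sum.inl u, Sum.inl v => B u v
  | _, _ => 0

variable {V : Type*} [Fintype V] [DecidableEq V] {B : V → V → ℤ}

lemma im_Bx_inl (d : ℕ) (v : V) : im (Bx B d) (Sum.inl v) = im B v := by
  unfold im
  simp [Fintype.sum_sum_type, Bx]

lemma im_Bx_inr (d : ℕ) (v : Fin d) : im (Bx B d) (Sum.inr v) = 0 := by
  unfold im
  simp [Bx]

lemma Val_Bx {d : ℕ} {r : ℝ} (h : Val (Bx B d) r) : Val B r := by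
  obtain ⟨x, hx, hv⟩ := h
  refine ⟨fun v => x (Sum.inl v), fun v => hx _, ?_⟩
  have e1 : Qd (Bx B d) univ x = Qd B univ fun v => x (Sum.inl v) := by
    unfold Qd
    simp [Fintype.sum_sum_type, Bx]
  have e2 : ∑ v, im (Bx B d) v * x v = ∑ v, im B v * x (Sum.inl v) := by
    rw [Fintype.sum_sum_type]
    simp only [im_Bx_inl, im_Bx_inr, zero_mul, Finset.sum_const_zero, add_zero]
  rw [e1, e2] at hv
  exact hv

/-- sorting -/
lemma exists_sorted (f : V → ℤ) (S : Finset V) : ∃ l : List V, l.Nodup ∧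
    (∀ v, v ∈ l ↔ v ∈ S) ∧ l.length = S.card ∧ l.Pairwise (fun a b => f b ≤ f a) := by
  classical
  haveI : Std.Total (fun a b : V => f b ≤ f a) := ⟨fun a b => le_total _ _⟩
  haveI : IsTrans V (fun a b : V => f b ≤ f a) := ⟨fun a b c h1 h2 => h2.trans h1⟩
  refine ⟨S.toList.insertionSort (fun a b => f b ≤ f a), ?_, ?_, ?_, ?_⟩
  · exact (List.perm_insertionSort _ _).nodup_iff.2 (Finset.nodup_toList S)
  · intro v
    rw [(List.perm_insertionSort _ _).mem_iff, Finset.mem_toList]
  · rw [(List.perm_insertionSort _ _).length_eq, Finset.length_toList]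
  · exact List.pairwise_insertionSort _ _

theorem exists_sys (h0 : ∀ u v, 0 ≤ B u v) (h1 : ∀ u v, B u v ≤ 1) (hB : ∀ v, B v v = 0) :
    ∃ (d L nQ nP : ℕ) (uq up : ℕ → V ⊕ Fin d) (q p : ℕ → ℝ),
      Sys (Bx B d) ((univ : Finset V).map ⟨Sum.inl, Sum.inl_injective⟩) L nQ nP uq up q p ∧
      Even L := by
  classical
  set n := Fintype.card V with hn
  obtain ⟨lQ, ndQ, memQ, lenQ, srtQ⟩ := exists_sorted (im B) (univ.filter fun v => 0 ≤ im B v)
  obtain ⟨lP, ndP, memP, lenP, srtP⟩ := exists_sorted (fun v => - im B v)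
    (univ.filter fun v => ¬ 0 ≤ im B v)
  have hcard : lQ.length + lP.length = n := by
    rw [lenQ, lenP, Finset.card_filter_add_card_filter_not, Finset.card_univ]
  set L := 2 * (n + 10) with hL
  set d := 2 * L - n with hd
  have hd1 : 0 < d := by omega
  have hQL : lQ.length ≤ L := by omega
  have hPL : lP.length ≤ L := by omega
  set uq : ℕ → V ⊕ Fin d := fun i => if h : i < lQ.length then Sum.inl lQ[i] else
    if h' : i - lQ.length < d then Sum.inr ⟨i - lQ.length, h'⟩ else Sum.inr ⟨0, hd1⟩ with huq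
  set up : ℕ → V ⊕ Fin d := fun i => if h : i < lP.length then Sum.inl lP[i] else
    if h' : (L - lQ.length) + (i - lP.length) < d then
      Sum.inr ⟨(L - lQ.length) + (i - lP.length), h'⟩ else Sum.inr ⟨0, hd1⟩ with hup
  have uq1 : ∀ i (h : i < lQ.length), uq i = Sum.inl lQ[i] := by
    intro i h; simp [huq, h]
  have uq2 : ∀ i (h : ¬ i < lQ.length) (h' : i < L), uq i =
      Sum.inr ⟨i - lQ.length, by omega⟩ := by
    intro i h h'
    have : i - lQ.length < d := by omega
    simp [huq, h, this]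
  have up1 : ∀ i (h : i < lP.length), up i = Sum.inl lP[i] := by
    intro i h; simp [hup, h]
  have up2 : ∀ i (h : ¬ i < lP.length) (h' : i < L), up i =
      Sum.inr ⟨(L - lQ.length) + (i - lP.length), by omega⟩ := by
    intro i h h'
    have : (L - lQ.length) + (i - lP.length) < d := by omega
    simp [hup, h, this]
  have imQ : ∀ i (h : i < lQ.length), 0 ≤ im B lQ[i] := by
    intro i h
    have := (memQ lQ[i]).1 (List.getElem_mem h)
    exact (Finset.mem_filter.1 this).2
  have imP : ∀ i (h : i < lP.length), im B lP[i] < 0 := by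
    intro i h
    have := (memP lP[i]).1 (List.getElem_mem h)
    exact not_le.1 (Finset.mem_filter.1 this).2
  refine ⟨d, L, lQ.length, lP.length, uq, up, fun i => ((im (Bx B d) (uq i) : ℤ) : ℝ),
    fun i => - ((im (Bx B d) (up i) : ℤ) : ℝ), ?_, ?_⟩
  · refine ⟨?_, ?_, ?_, ?_, ?_, ?_, ?_, ?_, ?_, ?_, ?_, ?_, ?_, ?_⟩
    · intro u v
      rcases u with u | u <;> rcases v with v | v <;> simp [Bx, h0]
    · intro u v
      rcases u with u | u <;> rcases v with v | v <;> simp [Bx, h1]
    · intro v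
      rcases v with v | v <;> simp [Bx, hB]
    · intro v hv u
      rcases v with v | v
      · exact absurd (by simp) hv
      · rcases u with u | u <;> simp [Bx]
    · refine ⟨?_, Or.inl fun i _ => rfl, ?_, ?_⟩
      · intro i hi j hj h
        by_cases h2 : i < lQ.length <;> by_cases h3 : j < lQ.length
        · rw [uq1 i h2, uq1 j h3, Sum.inl.injEq] at h
          exact (List.Nodup.getElem_inj_iff ndQ).1 h
        · rw [uq1 i h2, uq2 j h3 hj] at h; simp at h
        · rw [uq2 i h2 hi, uq1 j h3] at h; simp at h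
        · rw [uq2 i h2 hi, uq2 j h3 hj, Sum.inr.injEq, Fin.mk.injEq] at h
          omega
      · intro i j hij hj
        by_cases h3 : j < lQ.length
        · have h2 : i < lQ.length := by omega
          rw [uq1 i h2, uq1 j h3, im_Bx_inl, im_Bx_inl]
          rcases Nat.eq_or_lt_of_le hij with rfl | h4
          · exact le_rfl
          · have := List.pairwise_iff_getElem.1 srtQ i j h2 h3 h4
            exact_mod_cast this
        · rw [uq2 j h3 hj, im_Bx_inr]
          by_cases h2 : i < lQ.length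
          · rw [uq1 i h2, im_Bx_inl]
            exact_mod_cast imQ i h2
          · rw [uq2 i h2 (by omega), im_Bx_inr]
      · intro i hi
        by_cases h2 : i < lQ.length
        · simp only [uq1 i h2, im_Bx_inl]
          exact_mod_cast imQ i h2
        · simp only [uq2 i h2 hi, im_Bx_inr]
          simp
    · intro i _; rfl
    · refine ⟨?_, Or.inr fun i _ => by simp, ?_, ?_⟩
      · intro i hi j hj h
        by_cases h2 : i < lP.length <;> by_cases h3 : j < lP.length
        · rw [up1 i h2, up1 j h3, Sum.inl.injEq] at h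
          exact (List.Nodup.getElem_inj_iff ndP).1 h
        · rw [up1 i h2, up2 j h3 hj] at h; simp at h
        · rw [up2 i h2 hi, up1 j h3] at h; simp at h
        · rw [up2 i h2 hi, up2 j h3 hj, Sum.inr.injEq, Fin.mk.injEq] at h
          omega
      · intro i j hij hj
        by_cases h3 : j < lP.length
        · have h2 : i < lP.length := by omega
          rw [up1 i h2, up1 j h3, im_Bx_inl, im_Bx_inl]
          rcases Nat.eq_or_lt_of_le hij with rfl | h4
          · exact le_rfl
          · have := List.pairwise_iff_getElem.1 srtP i j h2 h3 h4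
            have : im B lP[i] ≤ im B lP[j] := by linarith
            have : ((im B lP[i] : ℤ) : ℝ) ≤ im B lP[j] := by exact_mod_cast this
            linarith
        · rw [up2 j h3 hj, im_Bx_inr]
          by_cases h2 : i < lP.length
          · rw [up1 i h2, im_Bx_inl]
            have : ((im B lP[i] : ℤ) : ℝ) < 0 := by exact_mod_cast imP i h2
            simp only [Int.cast_zero, neg_zero]
            linarith
          · rw [up2 i h2 (by omega), im_Bx_inr]
      · intro i hi
        by_cases h2 : i < lP.length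
        · simp only [up1 i h2, im_Bx_inl]
          have : ((im B lP[i] : ℤ) : ℝ) < 0 := by exact_mod_cast imP i h2
          linarith
        · simp only [up2 i h2 hi, im_Bx_inr]
          simp
    · intro i _; simp
    · intro i hi j hj h
      by_cases h2 : i < lQ.length <;> by_cases h3 : j < lP.length
      · rw [uq1 i h2, up1 j h3, Sum.inl.injEq] at h
        have h4 := imQ i h2
        have h5 := imP j h3
        rw [h] at h4
        omega
      · rw [uq1 i h2, up2 j h3 hj] at h; simp at h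
      · rw [uq2 i h2 hi, up1 j h3] at h; simp at h
      · rw [uq2 i h2 hi, up2 j h3 hj, Sum.inr.injEq, Fin.mk.injEq] at h
        omega
    · intro v
      rcases v with v | v
      · by_cases hv : 0 ≤ im B v
        · left
          have : v ∈ lQ := (memQ v).2 (by simp [hv])
          obtain ⟨i, hi, rfl⟩ := List.getElem_of_mem this
          exact ⟨i, by omega, uq1 i hi⟩
        · right
          have : v ∈ lP := (memP v).2 (by simpa using hv)
          obtain ⟨i, hi, rfl⟩ := List.getElem_of_mem this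
          exact ⟨i, by omega, up1 i hi⟩
      · have hv := v.2
        by_cases h2 : (v : ℕ) < L - lQ.length
        · left
          refine ⟨v + lQ.length, by omega, ?_⟩
          rw [uq2 _ (by omega) (by omega)]
          congr 1
          ext
          simp
        · right
          refine ⟨v - (L - lQ.length) + lP.length, by omega, ?_⟩
          rw [up2 _ (by omega) (by omega)]
          congr 1
          ext
          simp
          omega
    · intro i hi
      by_cases h2 : i < lQ.length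
      · rw [uq1 i h2]; simp [h2]
      · rw [uq2 i h2 hi]; simp [h2]
    · intro i hi
      by_cases h2 : i < lP.length
      · rw [up1 i h2]; simp [h2]
      · rw [up2 i h2 hi]; simp [h2]
    · rw [Finset.card_map, Finset.card_univ]; exact hcard
    · rw [Finset.card_map, Finset.card_univ]; omega
  · exact ⟨n + 10, by omega⟩

end Pool.Agent.Exact


end
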