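import Mathlib
import Pool.Agent.EXAM.C02
import Pool.Agent.EXAM.C03

/-! Parts: Lib_helper68.Exact.Count, Lib_helper68.Exact.Api, Lib_helper68.Exact.PathMain, Lib_helper68.Exact.Idx, Lib_helper68.Exact.Lists, Lib_helper68.Exact.Neutral, Lib_helper68.Exact.Run, Lib_helper68.Exact.Place, Lib_helper68.Exact.Run2, Lib_helper68.Exact.Cut, Lib_helper68.Exact.Swap, Lib_helper68.Exact.Leaf, Lib_helper68.Exact.Leaf2, Lib_helper23.Exact.Static, Lib_helper23.Exact.Facts, Lib_helper23.Exact.Tree, Lib_helper23.Exact.Tree2 -/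

section

/-!
# Counting facts
-/

set_option autoImplicit false
set_option linter.unusedSectionVars false

namespace Pool.Agent.Exact

open Finset

variable {V : Type*} [Fintype V] [DecidableEq V] {B : V → V → ℤ} {Rl : Finset V}

/-- the sum of the imbalances of a set counts only arcs leaving or entering it -/
lemma sum_im (S : Finset V) :
    ∑ v ∈ S, im B v = ∑ v ∈ S, ∑ u ∈ Sᶜ, (B v u - B u v) := by
  unfold im
  have e : ∀ v, ∑ u, B v u - ∑ u, B u v =
      ∑ u ∈ S, (B v u - B u v) + ∑ u ∈ Sᶜ, (B v u - B u v) := by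
    intro v
    rw [Finset.sum_add_sum_compl, Finset.sum_sub_distrib]
  have e2 : ∑ v ∈ S, ∑ u ∈ S, (B v u - B u v) = 0 := by
    have h1 : ∑ v ∈ S, ∑ u ∈ S, B v u = ∑ v ∈ S, ∑ u ∈ S, B u v := Finset.sum_comm
    simp only [Finset.sum_sub_distrib]
    rw [h1, sub_self]
  rw [Finset.sum_congr rfl fun v _ => e v, Finset.sum_add_distrib, e2, zero_add]

/-- a set of real vertices -/
lemma sum_im_le (h0 : ∀ u v, 0 ≤ B u v) (h1 : ∀ u v, B u v ≤ 1)
    (hdum : ∀ v, v ∉ Rl → ∀ u, B u v = 0 ∧ B v u = 0) {S : Finset V} (hS : S ⊆ Rl) :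
    |∑ v ∈ S, im B v| ≤ S.card * (Rl.card - S.card) := by
  have key : ∀ v ∈ S, |∑ u ∈ Sᶜ, (B v u - B u v)| ≤ Rl.card - S.card := by
    intro v _
    have e : ∑ u ∈ Sᶜ, (B v u - B u v) = ∑ u ∈ Rl \ S, (B v u - B u v) := by
      refine (Finset.sum_subset ?_ ?_).symm
      · intro u hu
        rw [Finset.mem_sdiff] at hu
        simp [hu.2]
      · intro u hu hu'
        rw [Finset.mem_compl] at hu
        have hur : u ∉ Rl := fun h => hu' (Finset.mem_sdiff.2 ⟨h, hu⟩)
        rw [(hdum u hur v).1, (hdum u hur v).2, sub_self]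
    rw [e]
    calc |∑ u ∈ Rl \ S, (B v u - B u v)| ≤ ∑ u ∈ Rl \ S, |B v u - B u v| :=
          Finset.abs_sum_le_sum_abs _ _
      _ ≤ ∑ u ∈ Rl \ S, (1 : ℤ) := by
          refine Finset.sum_le_sum fun u _ => ?_
          rw [abs_le]
          constructor <;> linarith [h0 v u, h0 u v, h1 v u, h1 u v]
      _ = Rl.card - S.card := by
          rw [Finset.sum_const, nsmul_eq_mul, mul_one, Finset.card_sdiff_of_subset hS]
          rw [Nat.cast_sub (Finset.card_le_card hS)]
  rw [sum_im]
  calc |∑ v ∈ S, ∑ u ∈ Sᶜ, (B v u - B u v)| ≤ ∑ v ∈ S, |∑ u ∈ Sᶜ, (B v u - B u v)| :=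
        Finset.abs_sum_le_sum_abs _ _
    _ ≤ ∑ v ∈ S, ((Rl.card : ℤ) - S.card) := Finset.sum_le_sum key
    _ = S.card * (Rl.card - S.card) := by rw [Finset.sum_const, nsmul_eq_mul]

/-- the charges at a vertex -/
lemma charge_sum (h0 : ∀ u v, 0 ≤ B u v) (h1 : ∀ u v, B u v ≤ 1) (hB : ∀ v, B v v = 0)
    (hdum : ∀ v, v ∉ Rl → ∀ u, B u v = 0 ∧ B v u = 0) {h : V} (hh : h ∈ Rl) (ε : ℤ)
    (hε : ε = 1 ∨ ε = -1) {T : Finset V} (hT : T ⊆ Rl) (hhT : h ∉ T) :
    ∑ v ∈ T, (1 - ε * (B h v - B v h)) ≤ Rl.card - 1 - ε * im B h := by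
  have e1 : im B h = ∑ v ∈ Rl.erase h, (B h v - B v h) := by
    unfold im
    rw [← Finset.sum_sub_distrib]
    refine (Finset.sum_subset (Finset.subset_univ _) ?_).symm
    intro v _ hv
    by_cases hvh : v = h
    · rw [hvh, hB, sub_self]
    · have hvr : v ∉ Rl := fun h' => hv (Finset.mem_erase.2 ⟨hvh, h'⟩)
      rw [(hdum v hvr h).1, (hdum v hvr h).2, sub_self]
  have e2 : ((Rl.card : ℤ) - 1 - ε * im B h) = ∑ v ∈ Rl.erase h, (1 - ε * (B h v - B v h)) := by
    rw [Finset.sum_sub_distrib, ← Finset.mul_sum, ← e1, Finset.sum_const, nsmul_eq_mul, mul_one,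
      Finset.card_erase_of_mem hh]
    have : 1 ≤ Rl.card := Finset.card_pos.2 ⟨h, hh⟩
    rw [Nat.cast_sub this]
    norm_num
  rw [e2]
  refine Finset.sum_le_sum_of_subset_of_nonneg ?_ ?_
  · intro v hv
    exact Finset.mem_erase.2 ⟨fun e => hhT (e ▸ hv), hT hv⟩
  · intro v _ _
    have := h0 h v
    have := h0 v h
    have := h1 h v
    have := h1 v h
    rcases hε with h | h <;> rw [h] <;> linarith

/-- the charge of a single vertex bounds the deviation of the multiplicity from one -/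
lemma mult_le (h0 : ∀ u v, 0 ≤ B u v) (h1 : ∀ u v, B u v ≤ 1) (u v : V) (ε : ℤ)
    (hε : ε = 1 ∨ ε = -1) : |MM B u v - 1| ≤ 1 - ε * (B u v - B v u) := by
  have a1 := h0 u v
  have a2 := h0 v u
  have a3 := h1 u v
  have a4 := h1 v u
  have b1 : B u v = 0 ∨ B u v = 1 := by omega
  have b2 : B v u = 0 ∨ B v u = 1 := by omega
  unfold MM
  rcases hε with h | h <;> rcases b1 with b1 | b1 <;> rcases b2 with b2 | b2 <;>
    rw [h, b1, b2] <;> norm_num

lemma mm_real (hdum : ∀ v, v ∉ Rl → ∀ u, B u v = 0 ∧ B v u = 0) :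
    mm B = ∑ v ∈ Rl, ∑ u, B v u := by
  unfold mm
  refine (Finset.sum_subset (Finset.subset_univ _) ?_).symm
  intro v _ hv
  exact Finset.sum_eq_zero fun u _ => (hdum v hv u).2

lemma mm_real' (hdum : ∀ v, v ∉ Rl → ∀ u, B u v = 0 ∧ B v u = 0) :
    mm B = ∑ v ∈ Rl, ∑ u, B u v := by
  unfold mm
  rw [Finset.sum_comm]
  refine (Finset.sum_subset (Finset.subset_univ _) ?_).symm
  intro v _ hv
  exact Finset.sum_eq_zero fun u _ => (hdum v hv u).1

/-- minimum outdegree and many arcs leaving `S` -/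
lemma mm_ge_out (h0 : ∀ u v, 0 ≤ B u v)
    (hdum : ∀ v, v ∉ Rl → ∀ u, B u v = 0 ∧ B v u = 0) {k : ℤ}
    (hdeg : ∀ v ∈ Rl, k ≤ ∑ u, B v u) {S : Finset V} (hS : S ⊆ Rl) :
    k * (Rl.card - S.card) + ∑ v ∈ S, im B v ≤ mm B := by
  rw [mm_real hdum, ← Finset.sum_sdiff hS]
  have h2 : k * ((Rl.card : ℤ) - S.card) ≤ ∑ v ∈ Rl \ S, ∑ u, B v u := by
    calc k * ((Rl.card : ℤ) - S.card) = ∑ v ∈ Rl \ S, k := by
          rw [Finset.sum_const, nsmul_eq_mul, Finset.card_sdiff_of_subset hS,
            Nat.cast_sub (Finset.card_le_card hS)]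
          ring
      _ ≤ _ := Finset.sum_le_sum fun v hv => hdeg v (Finset.mem_sdiff.1 hv).1
  have h3 : ∑ v ∈ S, im B v ≤ ∑ v ∈ S, ∑ u, B v u := by
    refine Finset.sum_le_sum fun v _ => ?_
    unfold im
    have : 0 ≤ ∑ u, B u v := Finset.sum_nonneg fun u _ => h0 u v
    linarith
  linarith

/-- minimum outdegree and many arcs entering `S` -/
lemma mm_ge_in (h0 : ∀ u v, 0 ≤ B u v)
    (hdum : ∀ v, v ∉ Rl → ∀ u, B u v = 0 ∧ B v u = 0) {k : ℤ}
    (hdeg : ∀ v ∈ Rl, k ≤ ∑ u, B v u) {S : Finset V} (hS : S ⊆ Rl) :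
    k * S.card - ∑ v ∈ S, im B v ≤ mm B := by
  rw [mm_real' hdum]
  have h1 : ∑ v ∈ S, ∑ u, B u v ≤ ∑ v ∈ Rl, ∑ u, B u v :=
    Finset.sum_le_sum_of_subset_of_nonneg hS fun v _ _ => Finset.sum_nonneg fun u _ => h0 u v
  have h2 : k * (S.card : ℤ) - ∑ v ∈ S, im B v ≤ ∑ v ∈ S, ∑ u, B u v := by
    have e : k * (S.card : ℤ) = ∑ v ∈ S, k := by
      rw [Finset.sum_const, nsmul_eq_mul]; ring
    rw [e, ← Finset.sum_sub_distrib]
    refine Finset.sum_le_sum fun v hv => ?_
    unfold im
    linarith [hdeg v (hS hv)]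
  linarith

/-- an in-type vertex has imbalance at most `n - 1 - k` -/
lemma im_ge (h0 : ∀ u v, 0 ≤ B u v) (h1 : ∀ u v, B u v ≤ 1) (hB : ∀ v, B v v = 0)
    (hdum : ∀ v, v ∉ Rl → ∀ u, B u v = 0 ∧ B v u = 0) {k : ℤ}
    (hdeg : ∀ v ∈ Rl, k ≤ ∑ u, B v u) {v : V} (hv : v ∈ Rl) :
    - im B v ≤ Rl.card - 1 - k := by
  have h2 : ∑ u, B u v ≤ (Rl.card : ℤ) - 1 := by
    have e : ∑ u, B u v = ∑ u ∈ Rl.erase v, B u v := by
      refine (Finset.sum_subset (Finset.subset_univ _) ?_).symm
      intro u _ hu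
      by_cases huv : u = v
      · rw [huv, hB]
      · exact (hdum u (fun h' => hu (Finset.mem_erase.2 ⟨huv, h'⟩)) v).2
    rw [e]
    calc ∑ u ∈ Rl.erase v, B u v ≤ ∑ u ∈ Rl.erase v, (1 : ℤ) :=
          Finset.sum_le_sum fun u _ => h1 u v
      _ = (Rl.card : ℤ) - 1 := by
          rw [Finset.sum_const, nsmul_eq_mul, mul_one, Finset.card_erase_of_mem hv]
          have : 1 ≤ Rl.card := Finset.card_pos.2 ⟨v, hv⟩
          rw [Nat.cast_sub this]; norm_num
  have h3 := hdeg v hv
  unfold im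
  linarith

/-- the transposed digraph -/
lemma im_transpose (v : V) : im (fun u v => B v u) v = - im B v := by
  unfold im; ring

lemma MM_transpose (u v : V) : MM (fun u v => B v u) u v = MM B u v := by
  unfold MM; ring

lemma Qd_transpose (S : Finset V) (x : V → ℤ) : Qd (fun u v => B v u) S x = Qd B S x := by
  unfold Qd
  rw [Finset.sum_comm]
  exact Finset.sum_congr rfl fun u _ => Finset.sum_congr rfl fun v _ => by ring

lemma Val_transpose {r : ℝ} (h : Val (fun u v => B v u) r) : Val B r := by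
  obtain ⟨x, hx, hv⟩ := h
  refine ⟨x, hx, ?_⟩
  rw [Qd_transpose] at hv
  have e : ((∑ v, im (fun u v => B v u) v * x v : ℤ) : ℝ) = - ((∑ v, im B v * x v : ℤ) : ℝ) := by
    push_cast
    rw [← Finset.sum_neg_distrib]
    refine Finset.sum_congr rfl fun v _ => ?_
    rw [im_transpose]; push_cast; ring
  rw [e, abs_neg] at hv
  exact hv

lemma mm_transpose : mm (fun u v => B v u) = mm B := by
  unfold mm
  rw [Finset.sum_comm]

end Pool.Agent.Exact


end

section

/-!
# Structures described by index ranges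
-/

set_option autoImplicit false
set_option linter.unusedSectionVars false

namespace Pool.Agent.Exact

open Finset

variable {V : Type*} [Fintype V] [DecidableEq V] {B : V → V → ℤ}

/-- no structure of small value on everything -/
theorem St.val {M K t : ℝ} (hK : 0 ≤ K) (h : St B (im B) univ M K t) :
    Val B (M + max K (t / 2)) := by
  have h1 := extendSt (B := B) ∅ (fun _ => 1) (by simp) hK (by simpa using h)
  refine h1.mono ?_
  have e : Qd B ∅ (fun _ : V => (1 : ℤ)) = 0 := by simp [Qd]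
  rw [e]
  simp only [Finset.sum_empty, Int.cast_zero, abs_zero, zero_add]
  rw [max_eq_right hK]

/-- a chain that ends with two vertices of weight zero -/
structure Chain0 (s : V → ℤ) (u : ℕ → V) (ℓ : ℕ) (w : ℕ → ℝ) : Prop where
  ch : Chain s u (2 * ℓ) w
  pos : 2 ≤ ℓ
  z : ∀ i, 2 * ℓ ≤ i + 2 → i < 2 * ℓ → w i = 0

variable {s : V → ℤ} {u : ℕ → V} {ℓ : ℕ} {w : ℕ → ℝ}

/-- pairs from an even index to the end -/
theorem Chain0.tail_even (h : Chain0 s u ℓ w) (hB : ∀ v, B v v = 0) (h0 : ∀ u v, 0 ≤ B u v)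
    {K : ℝ} (i : ℕ) (hi : i ≤ ℓ)
    (hK : ∀ l, i ≤ l → l < ℓ → w (2 * l) - w (2 * l + 1) ≤ K) :
    St B s (sg u (2 * i) (2 * ℓ)) 0 K (AA w ℓ - AA w i) :=
  h.ch.seg_even hB h0 i ℓ hi le_rfl hK

/-- pairs from an odd index to the end -/
theorem Chain0.tail_odd (h : Chain0 s u ℓ w) (hB : ∀ v, B v v = 0) (h0 : ∀ u v, 0 ≤ B u v)
    {K : ℝ} (hK0 : 0 ≤ K) (i : ℕ) (hi : i < ℓ)
    (hK : ∀ l, i ≤ l → l + 1 < ℓ → w (2 * l + 1) - w (2 * l + 2) ≤ K) :
    St B s (sg u (2 * i + 1) (2 * ℓ)) 0 K (w (2 * i) - (AA w ℓ - AA w i)) := by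
  have hpos := h.pos
  have h1 := h.ch.seg_odd hB h0 (K := K) i (ℓ - 1) (by omega) (by omega)
    (fun l h1 h2 => hK l h1 (by omega))
  have e1 : 2 * (ℓ - 1) + 1 = 2 * ℓ - 1 := by omega
  have e2 : w (2 * (ℓ - 1)) = 0 := h.z _ (by omega) (by omega)
  have e3 : AA w ℓ = AA w (ℓ - 1) := by
    have h3 : ℓ = (ℓ - 1) + 1 := by omega
    have h4 : w (2 * (ℓ - 1) + 1) = 0 := h.z _ (by omega) (by omega)
    conv_lhs => rw [h3]
    rw [AA_succ, e2, h4]
    ring
  have h2 : St B s (sg u (2 * ℓ - 1) (2 * ℓ)) 0 0 0 := by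
    have e4 : sg u (2 * ℓ - 1) (2 * ℓ) = {u (2 * ℓ - 1)} := by
      have := sg_one u (2 * ℓ - 1)
      rwa [show 2 * ℓ - 1 + 1 = 2 * ℓ by omega] at this
    rw [e4]
    refine St.one hB _ ?_
    rw [h.ch.abs (by omega), h.z _ (by omega) (by omega)]
  have h3 : Disjoint (sg u (2 * i + 1) (2 * ℓ - 1)) (sg u (2 * ℓ - 1) (2 * ℓ)) :=
    sg_disjoint h.ch (by omega) (by omega) le_rfl
  rw [e1] at h1
  have h4 := h1.union (h2.mono le_rfl hK0 le_rfl) h3
  rw [sg_union u (by omega) (by omega)] at h4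
  refine h4.mono (by norm_num) le_rfl ?_
  rw [e2, e3]
  linarith

lemma AA_mono {s : V → ℤ} {u : ℕ → V} {L : ℕ} {w : ℕ → ℝ} (h : Chain s u L w) {i j : ℕ}
    (hij : i ≤ j) (hj : 2 * j ≤ L) : AA w i ≤ AA w j := by
  induction j, hij using Nat.le_induction with
  | base => exact le_rfl
  | succ j hij ih =>
    have := ih (by omega)
    rw [AA_succ]
    have := h.anti (2 * j) (2 * j + 1) (by omega) (by omega)
    linarith

/-- the sum of the two kinds of differences telescopes -/
lemma EE_mono {s : V → ℤ} {u : ℕ → V} {L : ℕ} {w : ℕ → ℝ} (h : Chain s u L w) {i j : ℕ}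
    (hij : i ≤ j) (hj : 2 * j < L) : AA w j - AA w i ≤ w (2 * i) - w (2 * j) := by
  induction j, hij using Nat.le_induction with
  | base => simp
  | succ j hij ih =>
    have := ih (by omega)
    rw [AA_succ]
    have := h.anti (2 * j + 1) (2 * (j + 1)) (by omega) (by omega)
    linarith

/-- each difference is at most the sum of the differences of its segment -/
lemma gap_le_AA {s : V → ℤ} {u : ℕ → V} {L : ℕ} {w : ℕ → ℝ} (h : Chain s u L w) {i j l : ℕ}
    (hi : i ≤ l) (hj : l < j) (hL : 2 * j ≤ L) :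
    w (2 * l) - w (2 * l + 1) ≤ AA w j - AA w i := by
  have h1 := AA_mono h hi (by omega)
  have h2 := AA_mono h (show l + 1 ≤ j by omega) hL
  rw [AA_succ] at h2
  linarith

lemma gap_le_EE {s : V → ℤ} {u : ℕ → V} {L : ℕ} {w : ℕ → ℝ} (h : Chain s u L w) {i j l : ℕ}
    (hi : i ≤ l) (hj : l < j) (hL : 2 * j < L) :
    w (2 * l + 1) - w (2 * l + 2) ≤ w (2 * i) - w (2 * j) - (AA w j - AA w i) := by
  have h1 := EE_mono h hi (by omega)
  have h2 := EE_mono h (show l + 1 ≤ j by omega) hL
  rw [AA_succ] at h2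
  have e : w (2 * (l + 1)) = w (2 * l + 2) := by ring_nf
  rw [e] at h2
  linarith

end Pool.Agent.Exact


end

section

/-!
# The path statement: everything a path through `Rs` gives
-/

set_option autoImplicit false
set_option linter.unusedSectionVars false

namespace Pool.Agent.Exact

open Finset

variable {V : Type*} [Fintype V] [DecidableEq V] {B : V → V → ℤ}

theorem path_main (h0 : ∀ u v, 0 ≤ B u v) (h1 : ∀ u v, B u v ≤ 1) (hB : ∀ v, B v v = 0)
    {e : ℤ} (he : e ≤ 1) (h : V) (hq : 0 < im B h) {Rs : Finset V} (hh : h ∉ Rs) {g : ℤ}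
    (hbl : BlocksE B e Rs g) {Db : ℝ} (hDb0 : 0 ≤ Db)
    (hDb : ∀ P ⊆ Rs, P.Nonempty → ((ch (MM B h) P - e : ℤ) : ℝ) ≤ Db) :
    ∃ Y D : ℝ, 0 ≤ Y ∧ D ≤ Db ∧ Y ≤ ∑ v ∈ Rs, |((im B v : ℤ) : ℝ)| ∧
      (∀ M K t : ℝ, 0 ≤ K → St B (im B) (univ \ Rs) M K t →
        Val B (-(g : ℝ) + M + max (max Y K) ((Y + t) / 2))) ∧
      (∀ M K t : ℝ, 0 ≤ K → St B (im B) (univ \ insert h Rs) M K t →
        Val B (D + M + max (max |((im B h : ℤ) : ℝ) - Y| K)
          ((|((im B h : ℤ) : ℝ) - Y| + t) / 2))) ∧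
      (((im B h : ℤ) : ℝ) ≤ Y → ∀ (R C : Finset V) (M K t rQ rP : ℝ), Rs ⊆ R → h ∉ R → h ∉ C →
        Disjoint R C → insert h (R ∪ C) = univ → 0 ≤ K → St B (im B) C M K t →
        (∀ v ∈ R, 0 ≤ im B v → ((im B v : ℤ) : ℝ) ≤ rQ) → rQ ≤ K → 0 ≤ rQ →
        (∀ v ∈ R, im B v < 0 → -((im B v : ℤ) : ℝ) ≤ rP) → rP ≤ K → 0 ≤ rP →
        Val B (Db + M + max K ((t + rQ + rP) / 2))) := by
  have ha : ∀ v, 0 ≤ MM B h v ∧ MM B h v ≤ 2 := fun v => MM_range h0 h1 h v
  obtain ⟨x0, hx0, hq0, hg0, hg0'⟩ := hbl.realise he h0 hB ha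
  -- choose the global sign
  obtain ⟨x, hx, hqx, hgx, hsx⟩ : ∃ x : V → ℤ, (∀ v, x v = 1 ∨ x v = -1) ∧ Qd B Rs x ≤ -g ∧
      GoodE B (MM B h) x e Rs ∧ ∑ v ∈ Rs, im B v * x v ≤ 0 := by
    rcases le_total (∑ v ∈ Rs, im B v * x0 v) 0 with h3 | h3
    · exact ⟨x0, hx0, hq0, hg0, h3⟩
    · refine ⟨fun v => - x0 v, ?_, ?_, hg0', ?_⟩
      · intro v
        rcases hx0 v with h | h <;> simp [h]
      · rw [Qd_neg]; exact hq0
      · have : ∑ v ∈ Rs, im B v * - x0 v = - ∑ v ∈ Rs, im B v * x0 v := by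
          rw [← Finset.sum_neg_distrib]
          exact Finset.sum_congr rfl fun v _ => by ring
        rw [this]; linarith
  set Yz : ℤ := - ∑ v ∈ Rs, im B v * x v with hYz
  have hYz0 : 0 ≤ Yz := by rw [hYz]; linarith
  have hY0 : (0 : ℝ) ≤ (Yz : ℝ) := by exact_mod_cast hYz0
  have hqR : ((Qd B Rs x : ℤ) : ℝ) ≤ -(g : ℝ) := by exact_mod_cast hqx
  refine ⟨(Yz : ℝ), ((DD B (MM B h) x Rs : ℤ) : ℝ), hY0, ?_, ?_, ?_, ?_, ?_⟩
  · rcases Rs.eq_empty_or_nonempty with rfl | hne
    · rw [DD_empty]; simpa using hDb0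
    · have h3 : ((DD B (MM B h) x Rs : ℤ) : ℝ) ≤ ((ch (MM B h) Rs - e : ℤ) : ℝ) := by
        exact_mod_cast hgx.le hne
      exact h3.trans (hDb Rs (Finset.Subset.refl _) hne)
  · rw [hYz]
    push_cast
    rw [← Finset.sum_neg_distrib]
    refine Finset.sum_le_sum fun v _ => ?_
    have : -(((im B v : ℤ) : ℝ) * ((x v : ℤ) : ℝ)) ≤ |((im B v : ℤ) : ℝ) * ((x v : ℤ) : ℝ)| :=
      neg_le_abs _
    rw [abs_mul] at this
    have h3 : |((x v : ℤ) : ℝ)| = 1 := by
      rcases hx v with h | h <;> rw [h] <;> simp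
    rw [h3, mul_one] at this
    exact this
  · intro M K t hK hst
    rw [← Finset.compl_eq_univ_sdiff] at hst
    have h3 := extendSt Rs x hx hK hst
    have e1 : |((∑ v ∈ Rs, im B v * x v : ℤ) : ℝ)| = (Yz : ℝ) := by
      rw [hYz]
      push_cast
      rw [abs_of_nonpos]
      have : ((∑ v ∈ Rs, im B v * x v : ℤ) : ℝ) ≤ 0 := by exact_mod_cast hsx
      push_cast at this
      exact this
    rw [e1] at h3
    refine h3.mono ?_
    linarith
  · intro M K t hK hst
    rw [← Finset.compl_eq_univ_sdiff] at hst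
    have h3 := stopSt hB h Rs hh x hx hK hst
    have e1 : ((im B h + ∑ v ∈ Rs, im B v * x v : ℤ) : ℝ) = ((im B h : ℤ) : ℝ) - (Yz : ℝ) := by
      rw [hYz]; push_cast; ring
    rw [e1] at h3
    exact h3
  · intro hcross R C M K t rQ rP hRsR hhR hhC hd hu hK hst hrQ hrQK hrQ0 hrP hrPK hrP0
    refine crossing hB h0 h R Rs C hRsR hhR hhC hd hu hx hgx hq ?_ hDb0 hDb hK hst hrQ hrQK hrQ0
      hrP hrPK hrP0
    have : im B h ≤ Yz := by exact_mod_cast hcross
    exact this

end Pool.Agent.Exact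


end

section

/-!
# Structures on index sets

`Sum.inl i` stands for the vertex `uq i`, `Sum.inr j` for the vertex `up j`.
-/

set_option autoImplicit false
set_option linter.unusedSectionVars false

namespace Pool.Agent.Exact

open Finset

variable {V : Type*} [Fintype V] [DecidableEq V]

/-- the frame with both chains of the same even length `2 * ℓ` -/
structure Frame (B : V → V → ℤ) (Rl : Finset V) (ℓ nQ nP : ℕ) (uq up : ℕ → V)
    (q p : ℕ → ℝ) : Prop where
  sys : Sys B Rl (2 * ℓ) nQ nP uq up q p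

variable {B : V → V → ℤ} {Rl : Finset V} {ℓ nQ nP : ℕ} {uq up : ℕ → V} {q p : ℕ → ℝ}

/-- all indices -/
def full (ℓ : ℕ) : Finset (ℕ ⊕ ℕ) := (range (2 * ℓ)).disjSum (range (2 * ℓ))

/-- an interval of `uq`-indices -/
def iq (i j : ℕ) : Finset (ℕ ⊕ ℕ) := (Ico i j).disjSum ∅

/-- an interval of `up`-indices -/
def ip (i j : ℕ) : Finset (ℕ ⊕ ℕ) := (∅ : Finset ℕ).disjSum (Ico i j)

@[simp] lemma inl_mem_full {i : ℕ} : Sum.inl i ∈ full ℓ ↔ i < 2 * ℓ := by simp [full]
@[simp] lemma inr_mem_full {i : ℕ} : Sum.inr i ∈ full ℓ ↔ i < 2 * ℓ := by simp [full]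
@[simp] lemma inl_mem_iq {i j l : ℕ} : Sum.inl l ∈ iq i j ↔ i ≤ l ∧ l < j := by simp [iq]
@[simp] lemma inr_mem_iq {i j l : ℕ} : Sum.inr l ∈ iq i j ↔ False := by simp [iq]
@[simp] lemma inl_mem_ip {i j l : ℕ} : Sum.inl l ∈ ip i j ↔ False := by simp [ip]
@[simp] lemma inr_mem_ip {i j l : ℕ} : Sum.inr l ∈ ip i j ↔ i ≤ l ∧ l < j := by simp [ip]

/-- the vertex of an index -/
def vx (uq up : ℕ → V) : ℕ ⊕ ℕ → V := Sum.elim uq up

/-- a structure on the vertices of an index set -/
def StI (B : V → V → ℤ) (uq up : ℕ → V) (I : Finset (ℕ ⊕ ℕ)) (M K t : ℝ) : Prop :=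
  St B (im B) (I.image (vx uq up)) M K t

lemma Frame.inj (h : Frame B Rl ℓ nQ nP uq up q p) {x y : ℕ ⊕ ℕ} (hx : x ∈ full ℓ)
    (hy : y ∈ full ℓ) (e : vx uq up x = vx uq up y) : x = y := by
  rcases x with i | i <;> rcases y with j | j
  · rw [inl_mem_full] at hx hy
    rw [h.sys.chQ.inj i hx j hy e]
  · rw [inl_mem_full] at hx
    rw [inr_mem_full] at hy
    exact absurd e (h.sys.disj i hx j hy)
  · rw [inr_mem_full] at hx
    rw [inl_mem_full] at hy
    exact absurd e.symm (h.sys.disj j hy i hx)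
  · rw [inr_mem_full] at hx hy
    rw [h.sys.chP.inj i hx j hy e]

lemma Frame.disj (h : Frame B Rl ℓ nQ nP uq up q p) {I J : Finset (ℕ ⊕ ℕ)} (hI : I ⊆ full ℓ)
    (hJ : J ⊆ full ℓ) (hd : Disjoint I J) :
    Disjoint (I.image (vx uq up)) (J.image (vx uq up)) := by
  rw [Finset.disjoint_left]
  intro v hv hv'
  rw [Finset.mem_image] at hv hv'
  obtain ⟨x, hx, rfl⟩ := hv
  obtain ⟨y, hy, hxy⟩ := hv'
  rw [h.inj (hJ hy) (hI hx) hxy] at hy
  exact Finset.disjoint_left.1 hd hx hy

lemma Frame.univ (h : Frame B Rl ℓ nQ nP uq up q p) :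
    (full ℓ).image (vx uq up) = Finset.univ := by
  ext v
  simp only [Finset.mem_image, Finset.mem_univ, iff_true]
  rcases h.sys.cover v with ⟨i, hi, rfl⟩ | ⟨i, hi, rfl⟩
  · exact ⟨Sum.inl i, by simpa using hi, rfl⟩
  · exact ⟨Sum.inr i, by simpa using hi, rfl⟩

lemma StI.mono {I : Finset (ℕ ⊕ ℕ)} {M K t M' K' t' : ℝ} (h : StI B uq up I M K t)
    (hM : M ≤ M') (hK : K ≤ K') (ht : t ≤ t') : StI B uq up I M' K' t' :=
  St.mono h hM hK ht

/-- joining structures on disjoint index sets -/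
theorem Frame.join (h : Frame B Rl ℓ nQ nP uq up q p) {I J U : Finset (ℕ ⊕ ℕ)}
    {M M' K t t' : ℝ} (hI : StI B uq up I M K t) (hJ : StI B uq up J M' K t')
    (hU : U = I ∪ J) (hf : U ⊆ full ℓ) (hd : Disjoint I J) :
    StI B uq up U (M + M') K (t + t') := by
  subst hU
  have h1 := St.union hI hJ (h.disj (Finset.subset_union_left.trans hf)
    (Finset.subset_union_right.trans hf) hd)
  unfold StI
  rw [Finset.image_union]
  exact h1

lemma StI.empty (K : ℝ) : StI B uq up ∅ 0 K 0 := by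
  unfold StI
  rw [Finset.image_empty]
  exact St.empty _ K

lemma image_iq (i j : ℕ) : (iq i j).image (vx uq up) = sg uq i j := by
  ext v
  simp only [Finset.mem_image, mem_sg, Sum.exists, inl_mem_iq, inr_mem_iq, false_and, exists_false,
    or_false, vx, Sum.elim_inl, and_assoc]

lemma image_ip (i j : ℕ) : (ip i j).image (vx uq up) = sg up i j := by
  ext v
  simp only [Finset.mem_image, mem_sg, Sum.exists, inl_mem_ip, inr_mem_ip, false_and, exists_false,
    false_or, vx, Sum.elim_inr, and_assoc]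

lemma Frame.zQ (h : Frame B Rl ℓ nQ nP uq up q p) {i : ℕ} (h1 : nQ ≤ i) (h2 : i < 2 * ℓ) :
    q i = 0 := by
  have h3 := h.sys.wtQ i h2
  have h4 : uq i ∉ Rl := by
    rw [h.sys.realQ i h2]; omega
  have h5 : im B (uq i) = 0 := by
    unfold im
    rw [Finset.sum_eq_zero fun u _ => (h.sys.dummy _ h4 u).2,
      Finset.sum_eq_zero fun u _ => (h.sys.dummy _ h4 u).1]
    rfl
  rw [h5] at h3
  simpa using h3.symm

lemma Frame.zP (h : Frame B Rl ℓ nQ nP uq up q p) {i : ℕ} (h1 : nP ≤ i) (h2 : i < 2 * ℓ) :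
    p i = 0 := by
  have h3 := h.sys.wtP i h2
  have h4 : up i ∉ Rl := by
    rw [h.sys.realP i h2]; omega
  have h5 : im B (up i) = 0 := by
    unfold im
    rw [Finset.sum_eq_zero fun u _ => (h.sys.dummy _ h4 u).2,
      Finset.sum_eq_zero fun u _ => (h.sys.dummy _ h4 u).1]
    rfl
  rw [h5] at h3
  simp only [Int.cast_zero] at h3
  linarith

lemma Frame.c0Q (h : Frame B Rl ℓ nQ nP uq up q p) : Chain0 (im B) uq ℓ q := by
  have h1 := h.sys.big
  have h2 := h.sys.card
  exact ⟨h.sys.chQ, by omega, fun i h3 h4 => h.zQ (by omega) h4⟩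

lemma Frame.c0P (h : Frame B Rl ℓ nQ nP uq up q p) : Chain0 (im B) up ℓ p := by
  have h1 := h.sys.big
  have h2 := h.sys.card
  exact ⟨h.sys.chP, by omega, fun i h3 h4 => h.zP (by omega) h4⟩

/-- pairs `(2i, 2i+1), ...` of `uq` -/
theorem Frame.Qe (h : Frame B Rl ℓ nQ nP uq up q p) {K : ℝ} (i j : ℕ) (hij : i ≤ j) (hj : j ≤ ℓ)
    (hK : ∀ l, i ≤ l → l < j → q (2 * l) - q (2 * l + 1) ≤ K) :
    StI B uq up (iq (2 * i) (2 * j)) 0 K (AA q j - AA q i) := by
  unfold StI
  rw [image_iq]
  exact h.sys.chQ.seg_even h.sys.Bd h.sys.B0 i j hij (by omega) hK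

/-- pairs `(2i+1, 2i+2), ...` of `uq` -/
theorem Frame.Qo (h : Frame B Rl ℓ nQ nP uq up q p) {K : ℝ} (i j : ℕ) (hij : i ≤ j) (hj : j < ℓ)
    (hK : ∀ l, i ≤ l → l < j → q (2 * l + 1) - q (2 * l + 2) ≤ K) :
    StI B uq up (iq (2 * i + 1) (2 * j + 1)) 0 K (q (2 * i) - q (2 * j) - (AA q j - AA q i)) := by
  unfold StI
  rw [image_iq]
  exact h.sys.chQ.seg_odd h.sys.Bd h.sys.B0 i j hij (by omega) hK

/-- pairs `(2i+1, 2i+2), ...` of `uq`, to the end -/
theorem Frame.Qot (h : Frame B Rl ℓ nQ nP uq up q p) {K : ℝ} (hK0 : 0 ≤ K) (i : ℕ) (hi : i < ℓ)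
    (hK : ∀ l, i ≤ l → l + 1 < ℓ → q (2 * l + 1) - q (2 * l + 2) ≤ K) :
    StI B uq up (iq (2 * i + 1) (2 * ℓ)) 0 K (q (2 * i) - (AA q ℓ - AA q i)) := by
  unfold StI
  rw [image_iq]
  exact h.c0Q.tail_odd h.sys.Bd h.sys.B0 hK0 i hi hK

/-- pairs `(2i, 2i+1), ...` of `up` -/
theorem Frame.Pe (h : Frame B Rl ℓ nQ nP uq up q p) {K : ℝ} (i j : ℕ) (hij : i ≤ j) (hj : j ≤ ℓ)
    (hK : ∀ l, i ≤ l → l < j → p (2 * l) - p (2 * l + 1) ≤ K) :
    StI B uq up (ip (2 * i) (2 * j)) 0 K (AA p j - AA p i) := by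
  unfold StI
  rw [image_ip]
  exact h.sys.chP.seg_even h.sys.Bd h.sys.B0 i j hij (by omega) hK

/-- pairs `(2i+1, 2i+2), ...` of `up` -/
theorem Frame.Po (h : Frame B Rl ℓ nQ nP uq up q p) {K : ℝ} (i j : ℕ) (hij : i ≤ j) (hj : j < ℓ)
    (hK : ∀ l, i ≤ l → l < j → p (2 * l + 1) - p (2 * l + 2) ≤ K) :
    StI B uq up (ip (2 * i + 1) (2 * j + 1)) 0 K (p (2 * i) - p (2 * j) - (AA p j - AA p i)) := by
  unfold StI
  rw [image_ip]
  exact h.sys.chP.seg_odd h.sys.Bd h.sys.B0 i j hij (by omega) hK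

/-- pairs `(2i+1, 2i+2), ...` of `up`, to the end -/
theorem Frame.Pot (h : Frame B Rl ℓ nQ nP uq up q p) {K : ℝ} (hK0 : 0 ≤ K) (i : ℕ) (hi : i < ℓ)
    (hK : ∀ l, i ≤ l → l + 1 < ℓ → p (2 * l + 1) - p (2 * l + 2) ≤ K) :
    StI B uq up (ip (2 * i + 1) (2 * ℓ)) 0 K (p (2 * i) - (AA p ℓ - AA p i)) := by
  unfold StI
  rw [image_ip]
  exact h.c0P.tail_odd h.sys.Bd h.sys.B0 hK0 i hi hK

/-- a single vertex of `uq` -/
theorem Frame.Q1 (h : Frame B Rl ℓ nQ nP uq up q p) {K : ℝ} (i : ℕ) (hi : i < 2 * ℓ)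
    (hK : q i ≤ K) : StI B uq up (iq i (i + 1)) 0 K (q i) := by
  unfold StI
  rw [image_iq, sg_one]
  exact (St.one h.sys.Bd (uq i) (h.sys.chQ.abs hi).le).mono le_rfl hK le_rfl

/-- a single vertex of `up` -/
theorem Frame.P1 (h : Frame B Rl ℓ nQ nP uq up q p) {K : ℝ} (i : ℕ) (hi : i < 2 * ℓ)
    (hK : p i ≤ K) : StI B uq up (ip i (i + 1)) 0 K (p i) := by
  unfold StI
  rw [image_ip, sg_one]
  exact (St.one h.sys.Bd (up i) (h.sys.chP.abs hi).le).mono le_rfl hK le_rfl

/-- a mixed pair on the same side -/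
theorem Frame.QP (h : Frame B Rl ℓ nQ nP uq up q p) {K : ℝ} (i j : ℕ) (hi : i < 2 * ℓ)
    (hj : j < 2 * ℓ) (hK : |q i - p j| ≤ K) :
    StI B uq up {Sum.inl i, Sum.inr j} (MM B (uq i) (up j)) K |q i - p j| := by
  unfold StI
  rw [Finset.image_insert, Finset.image_singleton]
  refine (St.same h.sys.Bd (h.sys.disj i hi j hj) le_rfl ?_).mono le_rfl hK le_rfl
  rw [h.sys.wtQ i hi, h.sys.wtP j hj, ← sub_eq_add_neg]

/-- the cost of three vertices -/
lemma Qd_triple (hB : ∀ v, B v v = 0) {u v w : V} (huv : u ≠ v) (huw : u ≠ w) (hvw : v ≠ w)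
    (x : V → ℤ) : Qd B {u, v, w} x =
      MM B u v * (x u * x v) + MM B u w * (x u * x w) + MM B v w * (x v * x w) := by
  have h1 : ({u, v, w} : Finset V) = {u, v} ∪ {w} := by
    ext z; simp only [Finset.mem_insert, Finset.mem_singleton, Finset.mem_union]; tauto
  have h2 : Disjoint ({u, v} : Finset V) {w} := by
    rw [Finset.disjoint_singleton_right]
    simp only [Finset.mem_insert, Finset.mem_singleton, not_or]
    exact ⟨huw.symm, hvw.symm⟩
  rw [h1, Qd_union h2, Qd_pair hB huv, Qd_single w hB]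
  unfold Int
  rw [Finset.sum_pair huv]
  simp only [Finset.sum_singleton]
  ring

/-- a group of three vertices with signs `a`, `b`, `c` -/
theorem Frame.tri (h : Frame B Rl ℓ nQ nP uq up q p) {x y z : ℕ ⊕ ℕ} (hx : x ∈ full ℓ)
    (hy : y ∈ full ℓ) (hz : z ∈ full ℓ) (hxy : x ≠ y) (hxz : x ≠ z) (hyz : y ≠ z) (a b c : ℤ)
    (ha : a = 1 ∨ a = -1) (hb : b = 1 ∨ b = -1) (hc : c = 1 ∨ c = -1) {M K : ℝ}
    (hM : ((MM B (vx uq up x) (vx uq up y) * (a * b) + MM B (vx uq up x) (vx uq up z) * (a * c) +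
      MM B (vx uq up y) (vx uq up z) * (b * c) : ℤ) : ℝ) ≤ M)
    (hK : |((im B (vx uq up x) * a + im B (vx uq up y) * b + im B (vx uq up z) * c : ℤ) : ℝ)| ≤
      K) :
    StI B uq up {x, y, z} M K K := by
  have n1 : vx uq up x ≠ vx uq up y := fun e => hxy (h.inj hx hy e)
  have n2 : vx uq up x ≠ vx uq up z := fun e => hxz (h.inj hx hz e)
  have n3 : vx uq up y ≠ vx uq up z := fun e => hyz (h.inj hy hz e)
  unfold StI
  rw [Finset.image_insert, Finset.image_insert, Finset.image_singleton]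
  set u := vx uq up x
  set v := vx uq up y
  set w := vx uq up z
  refine St.group {u, v, w} (fun s => if s = u then a else if s = v then b else c) ?_ ?_ ?_
  · intro s
    split_ifs
    · exact ha
    · exact hb
    · exact hc
  · rw [Qd_triple h.sys.Bd n1 n2 n3]
    simp only [if_true, n1.symm, n2.symm, n3.symm, if_false]
    exact hM
  · have e : ∑ s ∈ ({u, v, w} : Finset V), im B s * (if s = u then a else if s = v then b else c) =
        im B u * a + im B v * b + im B w * c := by
      have h3 : u ∉ ({v, w} : Finset V) := by simp [n1, n2]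
      rw [Finset.sum_insert h3, Finset.sum_pair n3]
      simp only [if_true, n1.symm, n2.symm, n3.symm, if_false]
      ring
    rw [e]
    exact hK

/-- a structure on all indices -/
theorem Frame.val (h : Frame B Rl ℓ nQ nP uq up q p) {M K t : ℝ} (hK : 0 ≤ K)
    (hs : StI B uq up (full ℓ) M K t) : Val B (M + max K (t / 2)) := by
  unfold StI at hs
  rw [h.univ] at hs
  exact St.val hK hs

end Pool.Agent.Exact


end

section

/-!
# The static structures
-/

set_option autoImplicit false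
set_option linter.unusedSectionVars false
set_option linter.unusedSimpArgs false
set_option linter.unnecessarySeqFocus false
set_option linter.unreachableTactic false
set_option linter.unusedTactic false

namespace Pool.Agent.Exact

open Finset

variable {V : Type*} [Fintype V] [DecidableEq V]
variable {B : V → V → ℤ} {Rl : Finset V} {ℓ nQ nP : ℕ} {uq up : ℕ → V} {q p : ℕ → ℝ}

lemma Frame.l2 (h : Frame B Rl ℓ nQ nP uq up q p) : 5 ≤ ℓ := by
  have := h.sys.big; omega

/-- joining with the obvious union -/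
theorem Frame.jn (h : Frame B Rl ℓ nQ nP uq up q p) {I J : Finset (ℕ ⊕ ℕ)}
    {M M' K t t' : ℝ} (hI : StI B uq up I M K t) (hJ : StI B uq up J M' K t')
    (hf : I ∪ J ⊆ full ℓ) (hd : Disjoint I J) :
    StI B uq up (I ∪ J) (M + M') K (t + t') := h.join hI hJ rfl hf hd

/-- structure A: all sorted pairs -/
theorem Frame.sA (h : Frame B Rl ℓ nQ nP uq up q p) {K : ℝ} (hK0 : 0 ≤ K)
    (hQ : ∀ l < ℓ, q (2 * l) - q (2 * l + 1) ≤ K) (hP : ∀ l < ℓ, p (2 * l) - p (2 * l + 1) ≤ K) :
    Val B (max K ((AA q ℓ + AA p ℓ) / 2)) := by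
  have h1 := h.Qe (K := K) 0 ℓ (Nat.zero_le _) le_rfl fun l _ h2 => hQ l h2
  have h2 := h.Pe (K := K) 0 ℓ (Nat.zero_le _) le_rfl fun l _ h2 => hP l h2
  have h3 := h.join (U := full ℓ) h1 h2 (by (ext x; rcases x with x | x <;>
    simp only [Finset.mem_union, Finset.mem_insert, Finset.mem_singleton, inl_mem_full,
      inr_mem_full, inl_mem_iq, inr_mem_iq, inl_mem_ip, inr_mem_ip, Sum.inl.injEq, Sum.inr.injEq,
      reduceCtorEq, Finset.notMem_empty, or_false, false_or, false_imp_iff, imp_false,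
      implies_true, not_false_eq_true, iff_false, false_iff] <;> omega)) (by (intro x hx; revert hx; rcases x with x | x <;>
    simp only [Finset.mem_union, Finset.mem_insert, Finset.mem_singleton, inl_mem_full,
      inr_mem_full, inl_mem_iq, inr_mem_iq, inl_mem_ip, inr_mem_ip, Sum.inl.injEq, Sum.inr.injEq,
      reduceCtorEq, Finset.notMem_empty, or_false, false_or, false_imp_iff, imp_false,
      implies_true, not_false_eq_true, iff_false, false_iff] <;> omega)) (by (rw [Finset.disjoint_left]; intro x hx hx'; revert hx hx'; rcases x with x | x <;>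
    simp only [Finset.mem_union, Finset.mem_insert, Finset.mem_singleton, inl_mem_full,
      inr_mem_full, inl_mem_iq, inr_mem_iq, inl_mem_ip, inr_mem_ip, Sum.inl.injEq, Sum.inr.injEq,
      reduceCtorEq, Finset.notMem_empty, or_false, false_or, false_imp_iff, imp_false,
      implies_true, not_false_eq_true, iff_false, false_iff] <;> omega))
  have h4 := h.val hK0 h3
  rw [AA_zero, AA_zero] at h4
  refine h4.mono ?_
  rw [add_zero, zero_add]
  exact max_le_max le_rfl (by linarith)

/-- structure B: tops aligned, the rest sorted -/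
theorem Frame.sB (h : Frame B Rl ℓ nQ nP uq up q p) {K : ℝ} (hK0 : 0 ≤ K)
    (h0 : |q 0 - p 0| ≤ K)
    (hQ : ∀ l, l + 1 < ℓ → q (2 * l + 1) - q (2 * l + 2) ≤ K)
    (hP : ∀ l, l + 1 < ℓ → p (2 * l + 1) - p (2 * l + 2) ≤ K) :
    Val B (MM B (uq 0) (up 0) +
      max K ((|q 0 - p 0| + (q 0 - AA q ℓ) + (p 0 - AA p ℓ)) / 2)) := by
  have hl := h.l2
  have h1 := h.Qot (K := K) hK0 0 (by omega) fun l _ h2 => hQ l h2
  have h2 := h.Pot (K := K) hK0 0 (by omega) fun l _ h2 => hP l h2
  have h3 := h.QP (K := K) 0 0 (by omega) (by omega) h0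
  have h4 := h.join (U := iq (2 * 0 + 1) (2 * ℓ) ∪ ip (2 * 0 + 1) (2 * ℓ)) h1 h2 rfl
    (by (intro x hx; revert hx; rcases x with x | x <;>
    simp only [Finset.mem_union, Finset.mem_insert, Finset.mem_singleton, inl_mem_full,
      inr_mem_full, inl_mem_iq, inr_mem_iq, inl_mem_ip, inr_mem_ip, Sum.inl.injEq, Sum.inr.injEq,
      reduceCtorEq, Finset.notMem_empty, or_false, false_or, false_imp_iff, imp_false,
      implies_true, not_false_eq_true, iff_false, false_iff] <;> omega)) (by (rw [Finset.disjoint_left]; intro x hx hx'; revert hx hx'; rcases x with x | x <;>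
    simp only [Finset.mem_union, Finset.mem_insert, Finset.mem_singleton, inl_mem_full,
      inr_mem_full, inl_mem_iq, inr_mem_iq, inl_mem_ip, inr_mem_ip, Sum.inl.injEq, Sum.inr.injEq,
      reduceCtorEq, Finset.notMem_empty, or_false, false_or, false_imp_iff, imp_false,
      implies_true, not_false_eq_true, iff_false, false_iff] <;> omega))
  have h5 := h.join (U := full ℓ) h3 h4 (by (ext x; rcases x with x | x <;>
    simp only [Finset.mem_union, Finset.mem_insert, Finset.mem_singleton, inl_mem_full,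
      inr_mem_full, inl_mem_iq, inr_mem_iq, inl_mem_ip, inr_mem_ip, Sum.inl.injEq, Sum.inr.injEq,
      reduceCtorEq, Finset.notMem_empty, or_false, false_or, false_imp_iff, imp_false,
      implies_true, not_false_eq_true, iff_false, false_iff] <;> omega)) (by (intro x hx; revert hx; rcases x with x | x <;>
    simp only [Finset.mem_union, Finset.mem_insert, Finset.mem_singleton, inl_mem_full,
      inr_mem_full, inl_mem_iq, inr_mem_iq, inl_mem_ip, inr_mem_ip, Sum.inl.injEq, Sum.inr.injEq,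
      reduceCtorEq, Finset.notMem_empty, or_false, false_or, false_imp_iff, imp_false,
      implies_true, not_false_eq_true, iff_false, false_iff] <;> omega)) (by (rw [Finset.disjoint_left]; intro x hx hx'; revert hx hx'; rcases x with x | x <;>
    simp only [Finset.mem_union, Finset.mem_insert, Finset.mem_singleton, inl_mem_full,
      inr_mem_full, inl_mem_iq, inr_mem_iq, inl_mem_ip, inr_mem_ip, Sum.inl.injEq, Sum.inr.injEq,
      reduceCtorEq, Finset.notMem_empty, or_false, false_or, false_imp_iff, imp_false,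
      implies_true, not_false_eq_true, iff_false, false_iff] <;> omega))
  have h6 := h.val hK0 h5
  rw [AA_zero, AA_zero] at h6
  refine h6.mono ?_
  have : max K ((|q 0 - p 0| + (q (2 * 0) - (AA q ℓ - 0) + (p (2 * 0) - (AA p ℓ - 0)))) / 2) ≤
      max K ((|q 0 - p 0| + (q 0 - AA q ℓ) + (p 0 - AA p ℓ)) / 2) := by
    refine max_le_max le_rfl ?_
    rw [Nat.mul_zero]
    linarith
  linarith

/-- the triple `q_{2i}+, q_{2i+1}-, p_{2r}+` -/
theorem Frame.sG3Q (h : Frame B Rl ℓ nQ nP uq up q p) {K : ℝ} (hK0 : 0 ≤ K) (i r : ℕ)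
    (hi : i < ℓ) (hr : r < ℓ) (h0 : |q (2 * i) - q (2 * i + 1) - p (2 * r)| ≤ K)
    (hQ : ∀ l < ℓ, l ≠ i → q (2 * l) - q (2 * l + 1) ≤ K)
    (hP1 : ∀ l < r, p (2 * l) - p (2 * l + 1) ≤ K)
    (hP2 : ∀ l, r ≤ l → l + 1 < ℓ → p (2 * l + 1) - p (2 * l + 2) ≤ K) :
    Val B (((MM B (uq (2 * i)) (up (2 * r)) - MM B (uq (2 * i)) (uq (2 * i + 1)) -
        MM B (uq (2 * i + 1)) (up (2 * r)) : ℤ) : ℝ) +
      max K ((|q (2 * i) - q (2 * i + 1) - p (2 * r)| + (AA q ℓ - (q (2 * i) - q (2 * i + 1))) +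
        (AA p r + p (2 * r) - (AA p ℓ - AA p r))) / 2)) := by
  have hl := h.l2
  have h1 := h.Qe (K := K) 0 i (Nat.zero_le _) hi.le fun l _ h2 => hQ l (by omega) (by omega)
  have h2 := h.Qe (K := K) (i + 1) ℓ (by omega) le_rfl fun l h2 h3 => hQ l h3 (by omega)
  have h3 := h.Pe (K := K) 0 r (Nat.zero_le _) hr.le fun l _ h2 => hP1 l h2
  have h4 := h.Pot (K := K) hK0 r hr hP2
  have h5 := h.tri (x := Sum.inl (2 * i)) (y := Sum.inl (2 * i + 1)) (z := Sum.inr (2 * r))
    (by rw [inl_mem_full]; omega) (by rw [inl_mem_full]; omega) (by rw [inr_mem_full]; omega)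
    (by simp) (by simp) (by simp) 1 (-1) 1 (Or.inl rfl) (Or.inr rfl) (Or.inl rfl) le_rfl
    (K := |q (2 * i) - q (2 * i + 1) - p (2 * r)|) (by
      have e1 := h.sys.wtQ (2 * i) (by omega)
      have e2 := h.sys.wtQ (2 * i + 1) (by omega)
      have e3 := h.sys.wtP (2 * r) (by omega)
      push_cast
      simp only [vx, Sum.elim_inl, Sum.elim_inr]
      rw [e1, e2, e3]
      apply le_of_eq
      congr 1
      ring)
  have h5' := h5.mono le_rfl h0 le_rfl
  have h6 := h.jn h1 h2 (by (intro x hx; revert hx; rcases x with x | x <;>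
    simp only [Finset.mem_union, Finset.mem_insert, Finset.mem_singleton, inl_mem_full,
      inr_mem_full, inl_mem_iq, inr_mem_iq, inl_mem_ip, inr_mem_ip, Sum.inl.injEq, Sum.inr.injEq,
      reduceCtorEq, Finset.notMem_empty, or_false, false_or, false_imp_iff, imp_false,
      implies_true, not_false_eq_true, iff_false, false_iff] <;> omega)) (by (rw [Finset.disjoint_left]; intro x hx hx'; revert hx hx'; rcases x with x | x <;>
    simp only [Finset.mem_union, Finset.mem_insert, Finset.mem_singleton, inl_mem_full,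
      inr_mem_full, inl_mem_iq, inr_mem_iq, inl_mem_ip, inr_mem_ip, Sum.inl.injEq, Sum.inr.injEq,
      reduceCtorEq, Finset.notMem_empty, or_false, false_or, false_imp_iff, imp_false,
      implies_true, not_false_eq_true, iff_false, false_iff] <;> omega))
  have h7 := h.jn h3 h4 (by (intro x hx; revert hx; rcases x with x | x <;>
    simp only [Finset.mem_union, Finset.mem_insert, Finset.mem_singleton, inl_mem_full,
      inr_mem_full, inl_mem_iq, inr_mem_iq, inl_mem_ip, inr_mem_ip, Sum.inl.injEq, Sum.inr.injEq,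
      reduceCtorEq, Finset.notMem_empty, or_false, false_or, false_imp_iff, imp_false,
      implies_true, not_false_eq_true, iff_false, false_iff] <;> omega)) (by (rw [Finset.disjoint_left]; intro x hx hx'; revert hx hx'; rcases x with x | x <;>
    simp only [Finset.mem_union, Finset.mem_insert, Finset.mem_singleton, inl_mem_full,
      inr_mem_full, inl_mem_iq, inr_mem_iq, inl_mem_ip, inr_mem_ip, Sum.inl.injEq, Sum.inr.injEq,
      reduceCtorEq, Finset.notMem_empty, or_false, false_or, false_imp_iff, imp_false,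
      implies_true, not_false_eq_true, iff_false, false_iff] <;> omega))
  have h8 := h.jn h6 h7 (by (intro x hx; revert hx; rcases x with x | x <;>
    simp only [Finset.mem_union, Finset.mem_insert, Finset.mem_singleton, inl_mem_full,
      inr_mem_full, inl_mem_iq, inr_mem_iq, inl_mem_ip, inr_mem_ip, Sum.inl.injEq, Sum.inr.injEq,
      reduceCtorEq, Finset.notMem_empty, or_false, false_or, false_imp_iff, imp_false,
      implies_true, not_false_eq_true, iff_false, false_iff] <;> omega)) (by (rw [Finset.disjoint_left]; intro x hx hx'; revert hx hx'; rcases x with x | x <;>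
    simp only [Finset.mem_union, Finset.mem_insert, Finset.mem_singleton, inl_mem_full,
      inr_mem_full, inl_mem_iq, inr_mem_iq, inl_mem_ip, inr_mem_ip, Sum.inl.injEq, Sum.inr.injEq,
      reduceCtorEq, Finset.notMem_empty, or_false, false_or, false_imp_iff, imp_false,
      implies_true, not_false_eq_true, iff_false, false_iff] <;> omega))
  have h9 := h.join (U := full ℓ) h5' h8 (by (ext x; rcases x with x | x <;>
    simp only [Finset.mem_union, Finset.mem_insert, Finset.mem_singleton, inl_mem_full,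
      inr_mem_full, inl_mem_iq, inr_mem_iq, inl_mem_ip, inr_mem_ip, Sum.inl.injEq, Sum.inr.injEq,
      reduceCtorEq, Finset.notMem_empty, or_false, false_or, false_imp_iff, imp_false,
      implies_true, not_false_eq_true, iff_false, false_iff] <;> omega)) (by (intro x hx; revert hx; rcases x with x | x <;>
    simp only [Finset.mem_union, Finset.mem_insert, Finset.mem_singleton, inl_mem_full,
      inr_mem_full, inl_mem_iq, inr_mem_iq, inl_mem_ip, inr_mem_ip, Sum.inl.injEq, Sum.inr.injEq,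
      reduceCtorEq, Finset.notMem_empty, or_false, false_or, false_imp_iff, imp_false,
      implies_true, not_false_eq_true, iff_false, false_iff] <;> omega)) (by (rw [Finset.disjoint_left]; intro x hx hx'; revert hx hx'; rcases x with x | x <;>
    simp only [Finset.mem_union, Finset.mem_insert, Finset.mem_singleton, inl_mem_full,
      inr_mem_full, inl_mem_iq, inr_mem_iq, inl_mem_ip, inr_mem_ip, Sum.inl.injEq, Sum.inr.injEq,
      reduceCtorEq, Finset.notMem_empty, or_false, false_or, false_imp_iff, imp_false,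
      implies_true, not_false_eq_true, iff_false, false_iff] <;> omega))
  have h10 := h.val hK0 h9
  refine h10.mono ?_
  rw [AA_zero, AA_zero, AA_succ]
  simp only [vx, Sum.elim_inl, Sum.elim_inr]
  have e4 : (MM B (uq (2 * i)) (uq (2 * i + 1)) * (1 * -1) + MM B (uq (2 * i)) (up (2 * r)) * (1 * 1)
      + MM B (uq (2 * i + 1)) (up (2 * r)) * (-1 * 1)) = MM B (uq (2 * i)) (up (2 * r)) -
      MM B (uq (2 * i)) (uq (2 * i + 1)) - MM B (uq (2 * i + 1)) (up (2 * r)) := by ring
  rw [e4]
  refine add_le_add (by linarith) (max_le_max le_rfl ?_)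
  linarith

end Pool.Agent.Exact


end

section

/-!
# Block structures with neutral vertices
-/

set_option autoImplicit false
set_option linter.unusedSectionVars false

namespace Pool.Agent.Exact

open Finset

variable {V : Type*} [DecidableEq V] {B : V → V → ℤ} {a : V → ℤ}

private lemma fs_a (w u v : V) : insert w {u, v} = ({u, v} : Finset V) ∪ {w} := by
  rw [Finset.union_comm, Finset.insert_eq w]

private lemma fs_b (S : Finset V) (w u v : V) : insert w (S ∪ {u, v}) = (S ∪ {u, v}) ∪ {w} := by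
  rw [Finset.union_comm (S ∪ {u, v}), Finset.insert_eq w]

private lemma fs_c (S T : Finset V) (z u v : V) :
    insert z (S ∪ (T ∪ {u, v})) = insert z (S ∪ {u, v} ∪ T) := by
  rw [Finset.union_comm T, Finset.union_assoc]

private lemma fs_d (S T : Finset V) (z c b : V) :
    insert z (S ∪ {c, b} ∪ T) = (S ∪ T) ∪ insert c {b, z} := by
  ext x
  simp only [Finset.mem_insert, Finset.mem_union, Finset.mem_singleton, or_comm, or_left_comm,
    or_assoc]

private lemma fs_e (T : Finset V) (u v z : V) :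
    insert u (T ∪ {v, z}) = insert z (T ∪ {u, v}) := by
  ext x
  simp only [Finset.mem_insert, Finset.mem_union, Finset.mem_singleton, or_comm, or_left_comm,
    or_assoc]

/-- stars and triples (with a double edge); all vertices of `N` are neutral to each block -/
inductive BlocksN (B : V → V → ℤ) (N : Finset V) : Finset V → ℤ → Prop
  | empty : BlocksN B N ∅ 0
  | star (S : Finset V) (g : ℤ) (c : V) (L : Finset V) : BlocksN B N S g → c ∉ S → c ∉ L →
      Disjoint L S → L.Nonempty → (∀ l ∈ L, 1 ≤ MM B c l) → (∀ l ∈ L, ∀ l' ∈ L, MM B l l' = 0) →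
      (∀ z ∈ N, MM B c z = ∑ l ∈ L, MM B l z) →
      BlocksN B N (S ∪ insert c L) (g + ∑ l ∈ L, MM B c l)
  | hole (S : Finset V) (g : ℤ) (u v w : V) : BlocksN B N S g → u ∉ S → v ∉ S → w ∉ S → u ≠ v →
      u ≠ w → v ≠ w → 2 ≤ MM B u v → (∀ z ∈ N, MM B u z = MM B v z ∧ MM B w z = 0) →
      BlocksN B N (insert w (S ∪ {u, v})) (g + MM B u v)

/-- a double edge and a further vertex can be added to a good set, also as the first block -/
lemma GoodE.hole2 {S : Finset V} {x : V → ℤ} (hS : GoodE B a x 1 S)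
    (h0 : ∀ u v, 0 ≤ B u v)
    (hB : ∀ v, B v v = 0) (ha : ∀ v, 0 ≤ a v ∧ a v ≤ 2) (u v w : V) (hu : u ∉ S) (hv : v ∉ S)
    (hw : w ∉ S) (huv : u ≠ v) (huw : u ≠ w) (hvw : v ≠ w) (h1 : 2 ≤ MM B u v) (σ : ℤ)
    (hσ : σ = 1 ∨ σ = -1) (hxu : x u = σ) (hxv : x v = -σ) (hxw : x w = 1 ∨ x w = -1)
    (hint : Int B S {u, v} x ≤ 0) (hint' : Int B (S ∪ {u, v}) {w} x ≤ 0) :
    GoodE B a x 1 (insert w (S ∪ {u, v})) := by
  rcases S.eq_empty_or_nonempty with rfl | hne
  · have hvv : ∀ l ∈ ({v} : Finset V), ∀ l' ∈ ({v} : Finset V), MM B l l' = 0 := by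
      intro l hl l' hl'
      rw [Finset.mem_singleton] at hl hl'
      rw [hl, hl']
      simp [MM, hB]
    have g1 := GoodE.first (a := a) (x := x) (e := 1) le_rfl h0 hB ha u {v} (by simpa using huv)
      (by simp) (by intro l hl; rw [Finset.mem_singleton] at hl; rw [hl]; linarith) hvv σ hσ hxu
      (by simpa using hxv)
    rw [← insert_pair_eq2] at g1
    rw [Finset.empty_union] at hint' ⊢
    have hwS : w ∉ ({u, v} : Finset V) := by
      simp only [Finset.mem_insert, Finset.mem_singleton, not_or]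
      exact ⟨huw.symm, hvw.symm⟩
    refine GoodE.step _ w g1 hwS ?_
    have e' : insert w {u, v} = ({u, v} : Finset V) ∪ {w} := fs_a w u v
    have hd : Disjoint ({u, v} : Finset V) {w} := by simpa using hwS
    rw [e', DD_union hd, Qd_single w hB, ch_union hd]
    simp only [Finset.sum_singleton, add_zero]
    have e2 : ch a {u, v} = (if a u = 1 then 0 else 1) + (if a v = 1 then 0 else 1) := by
      unfold ch
      rw [Finset.sum_pair huv]
    have e3 : ch a {w} = if a w = 1 then 0 else 1 := by simp [ch]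
    have e4 : DD B a x {u, v} = σ * (a u - a v) - MM B u v := by
      unfold DD
      rw [Qd_pair hB huv, Finset.sum_pair huv, hxu, hxv]
      rcases hσ with h | h <;> rw [h] <;> ring
    rw [e2, e3, e4]
    have h3 : σ * (a u - a v) ≤ (if a u = 1 then 0 else 1) + (if a v = 1 then 0 else 1) := by
      have hu2 := ha u
      have hv2 := ha v
      rcases hσ with h | h <;> rw [h] <;> split_ifs <;> omega
    have h4 : a w * x w ≤ (if a w = 1 then 0 else 1) + 1 := by
      have hw2 := ha w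
      rcases hxw with h | h <;> rw [h] <;> split_ifs <;> omega
    linarith
  · exact hS.hole le_rfl (Or.inr hne) h0 hB ha u v w hu hv hw huv huw hvw (by linarith) σ hσ hxu
      hxv hxw hint hint'

/-- every block structure is realised by a sign pattern with small quadratic form which can be
built vertex by vertex, also after a global change of sign; neutral vertices see nothing -/
theorem BlocksN.realise {N S : Finset V} {g : ℤ} (h : BlocksN B N S g) (h0 : ∀ u v, 0 ≤ B u v)
    (hB : ∀ v, B v v = 0) (ha : ∀ v, 0 ≤ a v ∧ a v ≤ 2) :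
    ∃ x : V → ℤ, (∀ v, x v = 1 ∨ x v = -1) ∧ Qd B S x ≤ -g ∧ GoodE B a x 1 S ∧
      GoodE B a (fun v => - x v) 1 S ∧ ∀ z ∈ N, ∑ u ∈ S, MM B u z * x u = 0 := by
  induction h with
  | empty => exact ⟨fun _ => 1, fun _ => Or.inl rfl, by simp [Qd], GoodE.empty, GoodE.empty,
      by simp⟩
  | star S g c L hS hcS hcL hLS hL h1 h2 hN ih =>
    obtain ⟨x0, hx0, hq, hg, hg', hneu⟩ := ih
    have hd : Disjoint S (insert c L) := by
      rw [Finset.disjoint_insert_right]
      exact ⟨hcS, hLS.symm⟩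
    set y : ℤ → V → ℤ := fun σ v => if v = c then σ else if v ∈ L then -σ else x0 v with hy
    have hyc : ∀ σ, y σ c = σ := by intro σ; simp [hy]
    have hyL : ∀ σ, ∀ l ∈ L, y σ l = -σ := by
      intro σ l hl
      have : l ≠ c := fun e => hcL (e ▸ hl)
      simp [hy, this, hl]
    have hyS : ∀ σ, ∀ v ∈ S, y σ v = x0 v := by
      intro σ v hv
      have h3 : v ≠ c := fun e => hcS (e ▸ hv)
      have h4 : v ∉ L := fun h => Finset.disjoint_left.1 hLS h hv
      simp [hy, h3, h4]
    have hJ : ∀ σ, (σ = 1 ∨ σ = -1) →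
        Int B S (insert c L) (y σ) = σ * Int B S (insert c L) (y 1) := by
      intro σ hσ
      unfold Int
      rw [Finset.mul_sum]
      refine Finset.sum_congr rfl fun u hu => ?_
      rw [Finset.mul_sum]
      refine Finset.sum_congr rfl fun v hv => ?_
      rw [hyS σ u hu, hyS 1 u hu]
      rcases Finset.mem_insert.1 hv with rfl | hv
      · rw [hyc, hyc]; ring
      · rw [hyL σ v hv, hyL 1 v hv]; ring
    obtain ⟨σ, hσ, hσJ⟩ : ∃ σ : ℤ, (σ = 1 ∨ σ = -1) ∧ Int B S (insert c L) (y σ) ≤ 0 := by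
      rcases le_total (Int B S (insert c L) (y 1)) 0 with h3 | h3
      · exact ⟨1, Or.inl rfl, h3⟩
      · refine ⟨-1, Or.inr rfl, ?_⟩
        rw [hJ _ (Or.inr rfl)]
        linarith
    refine ⟨y σ, ?_, ?_, ?_, ?_, ?_⟩
    · intro v
      simp only [hy]
      split_ifs
      · exact hσ
      · rcases hσ with h | h <;> rw [h] <;> norm_num
      · exact hx0 v
    · rw [Qd_union hd, Qd_congr (hyS σ), Qd_star c L hcL h0 hB h2]
      have : ∑ l ∈ L, MM B c l * (y σ c * y σ l) = - ∑ l ∈ L, MM B c l := by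
        rw [← Finset.sum_neg_distrib]
        refine Finset.sum_congr rfl fun l hl => ?_
        rw [hyc, hyL σ l hl]
        rcases hσ with h | h <;> rw [h] <;> ring
      rw [this]
      linarith
    · exact (hg.congr fun v hv => (hyS σ v hv).symm).star le_rfl h0 hB ha c L hcS hcL hLS hL h1 h2 σ hσ
        (hyc σ) (hyL σ) hσJ
    · refine GoodE.star (hg'.congr fun v hv => by rw [hyS σ v hv]) le_rfl h0 hB ha c L hcS hcL hLS hL
        h1 h2 (-σ) ?_ (by rw [hyc σ]) (fun l hl => by rw [hyL σ l hl]) ?_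
      · rcases hσ with h | h
        · right; rw [h]
        · left; rw [h]; norm_num
      · rw [Int_neg]; exact hσJ
    · intro z hz
      rw [Finset.sum_union hd, Finset.sum_insert hcL, hyc]
      have e1 : ∑ u ∈ S, MM B u z * y σ u = 0 := by
        rw [← hneu z hz]
        exact Finset.sum_congr rfl fun u hu => by rw [hyS σ u hu]
      have e2 : ∑ l ∈ L, MM B l z * y σ l = - (∑ l ∈ L, MM B l z) * σ := by
        rw [← Finset.sum_neg_distrib, Finset.sum_mul]
        exact Finset.sum_congr rfl fun l hl => by rw [hyL σ l hl]; ring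
      rw [e1, e2, hN z hz]
      ring
  | hole S g u v w hS hu hv hw huv huw hvw h1 hN ih =>
    obtain ⟨x0, hx0, hq, hg, hg', hneu⟩ := ih
    have hd : Disjoint S {u, v} := by
      rw [Finset.disjoint_right]
      intro z hz
      rw [Finset.mem_insert, Finset.mem_singleton] at hz
      rcases hz with rfl | rfl
      · exact hu
      · exact hv
    have hvv : ∀ l ∈ ({v} : Finset V), ∀ l' ∈ ({v} : Finset V), MM B l l' = 0 := by
      intro l hl l' hl'
      rw [Finset.mem_singleton] at hl hl'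
      rw [hl, hl']
      simp [MM, hB]
    have hwS : w ∉ S ∪ {u, v} := by
      simp only [Finset.mem_union, Finset.mem_insert, Finset.mem_singleton, not_or]
      exact ⟨hw, huw.symm, hvw.symm⟩
    have hdw : Disjoint (S ∪ {u, v}) {w} := by simpa using hwS
    set y : ℤ → ℤ → V → ℤ := fun σ τ z => if z = u then σ else if z = v then -σ else
      if z = w then τ else x0 z with hy
    have hyu : ∀ σ τ, y σ τ u = σ := by intro σ τ; simp [hy]
    have hyv : ∀ σ τ, y σ τ v = -σ := by intro σ τ; simp [hy, huv.symm]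
    have hyw : ∀ σ τ, y σ τ w = τ := by intro σ τ; simp [hy, huw.symm, hvw.symm]
    have hyS : ∀ σ τ, ∀ z ∈ S, y σ τ z = x0 z := by
      intro σ τ z hz
      have h3 : z ≠ u := fun e => hu (e ▸ hz)
      have h4 : z ≠ v := fun e => hv (e ▸ hz)
      have h5 : z ≠ w := fun e => hw (e ▸ hz)
      simp [hy, h3, h4, h5]
    have hJ : ∀ σ τ, Int B S {u, v} (y σ τ) = σ * Int B S {u, v} (y 1 1) := by
      intro σ τ
      unfold Int
      rw [Finset.mul_sum]
      refine Finset.sum_congr rfl fun z hz => ?_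
      rw [Finset.sum_pair huv, Finset.sum_pair huv, hyu, hyv, hyS σ τ z hz, hyu, hyv,
        hyS 1 1 z hz]
      ring
    obtain ⟨σ, hσ, hσJ⟩ : ∃ σ : ℤ, (σ = 1 ∨ σ = -1) ∧ ∀ τ, Int B S {u, v} (y σ τ) ≤ 0 := by
      rcases le_total (Int B S {u, v} (y 1 1)) 0 with h3 | h3
      · exact ⟨1, Or.inl rfl, fun τ => by rw [hJ]; linarith⟩
      · refine ⟨-1, Or.inr rfl, fun τ => ?_⟩
        rw [hJ]
        linarith
    have hJ' : ∀ τ, Int B (S ∪ {u, v}) {w} (y σ τ) = τ * Int B (S ∪ {u, v}) {w} (y σ 1) := by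
      intro τ
      unfold Int
      rw [Finset.mul_sum]
      refine Finset.sum_congr rfl fun z hz => ?_
      rw [Finset.sum_singleton, Finset.sum_singleton, hyw, hyw]
      have : y σ τ z = y σ 1 z := by
        have h5 : z ≠ w := fun e => hwS (e ▸ hz)
        simp [hy, h5]
      rw [this]
      ring
    obtain ⟨τ, hτ, hτJ⟩ : ∃ τ : ℤ, (τ = 1 ∨ τ = -1) ∧ Int B (S ∪ {u, v}) {w} (y σ τ) ≤ 0 := by
      rcases le_total (Int B (S ∪ {u, v}) {w} (y σ 1)) 0 with h3 | h3
      · exact ⟨1, Or.inl rfl, h3⟩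
      · refine ⟨-1, Or.inr rfl, ?_⟩
        rw [hJ']
        linarith
    refine ⟨y σ τ, ?_, ?_, ?_, ?_, ?_⟩
    · intro z
      simp only [hy]
      split_ifs
      · exact hσ
      · rcases hσ with h | h <;> rw [h] <;> norm_num
      · exact hτ
      · exact hx0 z
    · have e : insert w (S ∪ {u, v}) = (S ∪ {u, v}) ∪ {w} := fs_b S w u v
      rw [e, Qd_union hdw, Qd_union hd, Qd_congr (hyS σ τ), Qd_single w hB, insert_pair_eq2,
        Qd_star u {v} (by simpa using huv) h0 hB hvv, ← insert_pair_eq2]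
      simp only [Finset.sum_singleton]
      have h3 := hσJ τ
      have h4 : MM B u v * (y σ τ u * y σ τ v) = - MM B u v := by
        rw [hyu, hyv]
        rcases hσ with h | h <;> rw [h] <;> ring
      rw [h4]
      linarith
    · exact (hg.congr fun z hz => (hyS σ τ z hz).symm).hole2 h0 hB ha u v w hu hv hw huv huw hvw h1
        σ hσ (hyu σ τ) (hyv σ τ) (by rw [hyw]; exact hτ) (hσJ τ) hτJ
    · refine GoodE.hole2 (hg'.congr fun z hz => by rw [hyS σ τ z hz]) h0 hB ha u v w hu hv hw huv huw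
        hvw h1 (-σ) ?_ (by rw [hyu]) (by rw [hyv]) ?_ ?_ ?_
      · rcases hσ with h | h
        · right; rw [h]
        · left; rw [h]; norm_num
      · rw [hyw]
        rcases hτ with h | h
        · right; rw [h]
        · left; rw [h]; norm_num
      · rw [Int_neg]; exact hσJ τ
      · rw [Int_neg]; exact hτJ
    · intro z hz
      have hd3 : w ∉ S ∪ {u, v} := hwS
      rw [Finset.sum_insert hd3, Finset.sum_union hd, Finset.sum_pair huv, hyu, hyv]
      have e1 : ∑ s ∈ S, MM B s z * y σ τ s = 0 := by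
        rw [← hneu z hz]
        exact Finset.sum_congr rfl fun s hs => by rw [hyS σ τ s hs]
      rw [e1, (hN z hz).1, (hN z hz).2]
      ring

lemma BlocksN.union {N S T : Finset V} {g g' : ℤ} (hS : BlocksN B N S g) (hT : BlocksN B N T g')
    (h : Disjoint S T) : BlocksN B N (S ∪ T) (g + g') := by
  induction hT with
  | empty => simpa using hS
  | star T g' c L hT hcT hcL hLT hL h1 h2 h3 ih =>
    rw [Finset.disjoint_union_right, Finset.disjoint_insert_right] at h
    have e : S ∪ (T ∪ insert c L) = (S ∪ T) ∪ insert c L := (Finset.union_assoc _ _ _).symm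
    rw [e, ← add_assoc]
    refine BlocksN.star _ _ c L (ih h.1) ?_ hcL ?_ hL h1 h2 h3
    · simp only [Finset.mem_union, not_or]
      exact ⟨h.2.1, hcT⟩
    · rw [Finset.disjoint_union_right]
      exact ⟨h.2.2.symm, hLT⟩
  | hole T g' u v w hT hu hv hw huv huw hvw h1 h2 ih =>
    have hsub : T ⊆ insert w (T ∪ {u, v}) :=
      Finset.subset_union_left.trans (Finset.subset_insert _ _)
    have hmem : ∀ z, z = u ∨ z = v ∨ z = w → z ∉ S := by
      intro z hz hzS
      refine Finset.disjoint_left.1 h hzS ?_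
      simp only [Finset.mem_insert, Finset.mem_union, Finset.mem_singleton]
      rcases hz with h | h | h
      · exact Or.inr (Or.inr (Or.inl h))
      · exact Or.inr (Or.inr (Or.inr h))
      · exact Or.inl h
    have e : S ∪ insert w (T ∪ {u, v}) = insert w ((S ∪ T) ∪ {u, v}) := by
      rw [Finset.union_insert, Finset.union_assoc]
    rw [e, ← add_assoc]
    refine BlocksN.hole _ _ u v w (ih (Finset.disjoint_of_subset_right hsub h)) ?_ ?_ ?_ huv huw
      hvw h1 h2
    · simp only [Finset.mem_union, not_or]; exact ⟨hmem u (Or.inl rfl), hu⟩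
    · simp only [Finset.mem_union, not_or]; exact ⟨hmem v (Or.inr (Or.inl rfl)), hv⟩
    · simp only [Finset.mem_union, not_or]; exact ⟨hmem w (Or.inr (Or.inr rfl)), hw⟩

/-- more neutral vertices -/
lemma BlocksN.more {N N' S : Finset V} {g : ℤ} (h : BlocksN B N S g)
    (hz : ∀ u ∈ S, ∀ z ∈ N', MM B u z = 0) : BlocksN B (N ∪ N') S g := by
  induction h with
  | empty => exact BlocksN.empty
  | star S g c L hS hcS hcL hLS hL h1 h2 h3 ih =>
    refine BlocksN.star S g c L (ih fun u hu => hz u (by simp [hu])) hcS hcL hLS hL h1 h2 ?_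
    intro z hzN
    rcases Finset.mem_union.1 hzN with h | h
    · exact h3 z h
    · rw [hz c (by simp) z h, Finset.sum_eq_zero fun l hl => hz l (by simp [hl]) z h]
  | hole S g u v w hS hu hv hw huv huw hvw h1 h2 ih =>
    refine BlocksN.hole S g u v w (ih fun u hu => hz u (by simp [hu])) hu hv hw huv huw hvw h1 ?_
    intro z hzN
    rcases Finset.mem_union.1 hzN with h | h
    · exact h2 z h
    · rw [hz u (by simp) z h, hz v (by simp) z h, hz w (by simp) z h]
      exact ⟨rfl, rfl⟩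

/-- star covers -/
lemma sc_blocksN (h0 : ∀ u v, 0 ≤ B u v) {S : Finset V} (h : StarCover (Adj B) S) :
    ∃ g, BlocksN B ∅ S g ∧ (S.card : ℤ) ≤ 2 * g := by
  induction h with
  | empty => exact ⟨0, BlocksN.empty, by simp⟩
  | cons S c L hS hcS hcL hLS hL h1 h2 ih =>
    obtain ⟨g, hg, hc⟩ := ih
    refine ⟨_, BlocksN.star S g c L hg hcS hcL hLS hL h1 ?_ (by simp), ?_⟩
    · intro l hl l' hl'
      have h3 := h2 l hl l' hl'
      unfold Adj at h3
      have h4 : 0 ≤ MM B l l' := by unfold MM; linarith [h0 l l', h0 l' l]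
      omega
    · have hd : Disjoint S (insert c L) := by
        rw [Finset.disjoint_insert_right]
        exact ⟨hcS, hLS.symm⟩
      rw [Finset.card_union_of_disjoint hd, Finset.card_insert_of_notMem hcL]
      have h5 : (L.card : ℤ) ≤ ∑ l ∈ L, MM B c l := by
        have : ∑ l ∈ L, (1 : ℤ) ≤ ∑ l ∈ L, MM B c l := Finset.sum_le_sum fun l hl => h1 l hl
        simpa using this
      have h6 : (1 : ℤ) ≤ L.card := by exact_mod_cast hL.card_pos
      push_cast
      linarith

/-- a connected set without star cover but with a double edge -/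
lemma double_blocksN (h0 : ∀ u v, 0 ≤ B u v) (hB : ∀ v, B v v = 0) {S : Finset V}
    (hS : ∀ v ∈ S, PMatch (Adj B) (S.erase v)) {u v : V} (hu : u ∈ S) (hv : v ∈ S)
    (huv2 : 2 ≤ MM B u v) : ∃ g, BlocksN B ∅ S g ∧ (S.card : ℤ) ≤ 2 * g := by
  have hsym : ∀ x y, Adj B x y → Adj B y x := fun x y h => h.symm
  have hirr := adj_irrefl hB
  have huv : u ≠ v := by
    rintro rfl
    unfold MM at huv2
    rw [hB] at huv2
    norm_num at huv2
  obtain ⟨T, z, hT, hvT, hzT, hvz, hadj, he⟩ :=
    (hS u hu).exists_pair hsym (y := v) (Finset.mem_erase.2 ⟨huv.symm, hv⟩)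
  obtain ⟨g, hg, hc⟩ := sc_blocksN h0 (hT.starCover hirr)
  have hue : u ∉ T ∪ {v, z} := by
    rw [← he]; exact Finset.notMem_erase _ _
  have hu1 : u ∉ T := fun h => hue (by simp [h])
  have hu3 : u ≠ z := fun h => hue (by simp [h])
  have hSe : S = insert z (T ∪ {u, v}) := by
    rw [← Finset.insert_erase hu, he]
    exact fs_e T u v z
  refine ⟨g + MM B u v, ?_, ?_⟩
  · rw [hSe]
    exact BlocksN.hole T g u v z hg hu1 hvT hzT huv hu3 hvz huv2 (by simp)
  · have hzm : z ∉ T ∪ {u, v} := by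
      simp only [Finset.mem_union, Finset.mem_insert, Finset.mem_singleton, not_or]
      exact ⟨hzT, hu3.symm, hvz.symm⟩
    have hcard : S.card = T.card + 3 := by
      rw [hSe, Finset.card_insert_of_notMem hzm, Finset.card_union_of_disjoint,
        Finset.card_pair huv]
      rw [Finset.disjoint_right]
      intro x hx
      simp only [Finset.mem_insert, Finset.mem_singleton] at hx
      rcases hx with rfl | rfl
      · exact hu1
      · exact hvT
    rw [hcard]
    push_cast
    linarith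

/-- a perfect matching of a set plus one neutral vertex, without star cover -/
lemma pm_blocksN (h0 : ∀ u v, 0 ≤ B u v) (hB : ∀ v, B v v = 0) {z : V} {S : Finset V}
    (h : PMatch (Adj B) S) : ∀ T : Finset V, z ∉ S → Disjoint S T → z ∉ T →
      (∀ u ∈ S, MM B u z ≤ 1) → StarCover (Adj B) T →
      ¬ StarCover (Adj B) (insert z (S ∪ T)) → ∃ g, BlocksN B {z} S g ∧ (S.card : ℤ) ≤ 2 * g := by
  induction h with
  | empty => intro T _ _ _ _ _ _; exact ⟨0, BlocksN.empty, by simp⟩
  | cons S u v hS hu hv huv hadj ih =>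
    intro T hzS hd hzT h1 hT hn
    have hsym : ∀ x y, Adj B x y → Adj B y x := fun x y h => h.symm
    have hirr := adj_irrefl hB
    have hdS : Disjoint S T := Finset.disjoint_of_subset_left Finset.subset_union_left hd
    have huT : u ∉ T := fun h => Finset.disjoint_left.1 hd (by simp) h
    have hvT : v ∉ T := fun h => Finset.disjoint_left.1 hd (by simp) h
    have hzu : z ≠ u := fun e => hzS (by simp [e])
    have hzv : z ≠ v := fun e => hzS (by simp [e])
    have hzS' : z ∉ S := fun h => hzS (by simp [h])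
    have hTuv : Disjoint T {u, v} := by
      rw [Finset.disjoint_right]
      intro x hx
      simp only [Finset.mem_insert, Finset.mem_singleton] at hx
      rcases hx with rfl | rfl
      · exact huT
      · exact hvT
    have hSuv : Disjoint S {u, v} := by
      rw [Finset.disjoint_right]
      intro x hx
      simp only [Finset.mem_insert, Finset.mem_singleton] at hx
      rcases hx with rfl | rfl
      · exact hu
      · exact hv
    obtain ⟨g, hg, hc⟩ := ih (T ∪ {u, v}) hzS' (by
        rw [Finset.disjoint_union_right]; exact ⟨hdS, hSuv⟩)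
      (by simp only [Finset.mem_union, Finset.mem_insert, Finset.mem_singleton, not_or]
          exact ⟨hzT, hzu, hzv⟩)
      (fun w hw => h1 w (by simp [hw]))
      (hT.union (StarCover.pair huv hadj hirr) hTuv)
      (by
        have e : insert z (S ∪ (T ∪ {u, v})) = insert z (S ∪ {u, v} ∪ T) := fs_c S T z u v
        rw [e]; exact hn)
    -- neutrality of the pair
    have hST : StarCover (Adj B) (S ∪ T) := (hS.starCover hirr).union hT hdS
    have key : ∀ a b : V, ({a, b} : Finset V) = {u, v} → a ≠ b → Adj B a b → Adj B a z →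
        ¬ Adj B b z → False := by
      intro c b hab hcb had hcz hbz
      apply hn
      have hc' : c ∈ ({u, v} : Finset V) := by rw [← hab]; simp
      have hb' : b ∈ ({u, v} : Finset V) := by rw [← hab]; simp
      have hcz' : c ≠ z := by
        rintro rfl
        exact hirr c hcz
      have hbz' : b ≠ z := by
        rintro rfl
        simp only [Finset.mem_insert, Finset.mem_singleton] at hb'
        rcases hb' with h | h
        · exact hzu h
        · exact hzv h
      have hstar : StarCover (Adj B) (insert c {b, z}) := by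
        refine StarCover.star c {b, z} ?_ (by simp) ?_ ?_
        · simp [hcb, hcz']
        · intro l hl
          simp only [Finset.mem_insert, Finset.mem_singleton] at hl
          rcases hl with rfl | rfl
          · exact had
          · exact hcz
        · intro l hl l' hl'
          simp only [Finset.mem_insert, Finset.mem_singleton] at hl hl'
          rcases hl with rfl | rfl <;> rcases hl' with rfl | rfl
          · exact hirr _
          · exact hbz
          · exact fun h => hbz (hsym _ _ h)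
          · exact hirr _
      have e : insert z (S ∪ {u, v} ∪ T) = (S ∪ T) ∪ insert c {b, z} := by
        rw [← hab]
        exact fs_d S T z c b
      rw [e]
      refine hST.union hstar ?_
      rw [Finset.disjoint_right]
      intro x hx
      simp only [Finset.mem_insert, Finset.mem_singleton] at hx
      simp only [Finset.mem_union, not_or]
      rcases hx with rfl | rfl | rfl
      · exact ⟨Finset.disjoint_right.1 hSuv hc', Finset.disjoint_right.1 hTuv hc'⟩
      · exact ⟨Finset.disjoint_right.1 hSuv hb', Finset.disjoint_right.1 hTuv hb'⟩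
      · exact ⟨hzS', hzT⟩
    have hneu : MM B u z = MM B v z := by
      have a1 := h1 u (by simp)
      have a2 := h1 v (by simp)
      have a3 : 0 ≤ MM B u z := by unfold MM; linarith [h0 u z, h0 z u]
      have a4 : 0 ≤ MM B v z := by unfold MM; linarith [h0 v z, h0 z v]
      by_cases c1 : MM B u z = 1 <;> by_cases c2 : MM B v z = 1
      · rw [c1, c2]
      · exfalso
        exact key u v rfl huv hadj (by unfold Adj; omega) (by unfold Adj; omega)
      · exfalso
        exact key v u (Finset.pair_comm v u) huv.symm (hsym _ _ hadj) (by unfold Adj; omega)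
          (by unfold Adj; omega)
      · omega
    refine ⟨g + ∑ l ∈ ({v} : Finset V), MM B u l, ?_, ?_⟩
    · rw [insert_pair_eq2]
      refine BlocksN.star S g u {v} hg hu (by simpa using huv) (by simpa using hv) (by simp) ?_ ?_ ?_
      · intro l hl
        rw [Finset.mem_singleton] at hl
        rw [hl]; exact hadj
      · intro l hl l' hl'
        rw [Finset.mem_singleton] at hl hl'
        rw [hl, hl']
        simp [MM, hB]
      · intro y hy
        rw [Finset.mem_singleton] at hy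
        rw [hy, Finset.sum_singleton]
        exact hneu
    · rw [Finset.card_union_of_disjoint hSuv, Finset.card_pair huv, Finset.sum_singleton]
      have : 1 ≤ MM B u v := hadj
      push_cast
      linarith

/-- a component without star cover and without double edges -/
structure Bad (B : V → V → ℤ) (R K : Finset V) : Prop where
  cl : ClosedIn B R K
  conn : Conn (Adj B) K
  ns : ¬ StarCover (Adj B) K
  pm : ∀ v ∈ K, PMatch (Adj B) (K.erase v)
  simple : ∀ u ∈ K, ∀ v ∈ K, MM B u v ≤ 1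

/-- **Decomposition.** `R` is a set with a block structure plus one neutral vertex for each bad
component; the neutral vertices can be chosen freely. -/
theorem exists_dec (h0 : ∀ u v, 0 ≤ B u v) (h1 : ∀ u v, B u v ≤ 1) (hB : ∀ v, B v v = 0)
    (pick : Finset V → V) (hpick : ∀ K : Finset V, K.Nonempty → pick K ∈ K) :
    ∀ (n : ℕ) (R : Finset V), R.card = n → ∃ (Rs S : Finset V) (g : ℤ) (Kc : V → Finset V),
      Rs ∪ S = R ∧ Disjoint Rs S ∧ BlocksN B S Rs g ∧ (Rs.card : ℤ) ≤ 2 * g ∧
      (∀ u ∈ S, ∀ v ∈ S, MM B u v = 0) ∧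
      (∀ v ∈ S, Bad B R (Kc v) ∧ v ∈ Kc v ∧ v = pick (Kc v) ∧ (Kc v).erase v ⊆ Rs) ∧
      (∀ u ∈ S, ∀ v ∈ S, u ≠ v → Disjoint (Kc u) (Kc v)) := by
  classical
  intro n
  induction n using Nat.strong_induction_on with
  | _ n ih =>
    intro R hRn
    rcases R.eq_empty_or_nonempty with rfl | hR
    · exact ⟨∅, ∅, 0, fun _ => ∅, by simp, by simp, BlocksN.empty, by simp, by simp, by simp,
        by simp⟩
    · obtain ⟨K, hKne, hKcl, hKconn⟩ := exists_conn_closed h0 hR
      have hlt : (R \ K).card < n := by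
        rw [← hRn, Finset.card_sdiff_of_subset hKcl.1]
        have := hKne.card_pos
        have := Finset.card_le_card hKcl.1
        omega
      obtain ⟨Rs, S, g, Kc, hu, hd, hbl, hc, hS0, hSb, hSd⟩ := ih _ hlt (R \ K) rfl
      have hRsR : Rs ⊆ R \ K := by rw [← hu]; exact Finset.subset_union_left
      have hSR : S ⊆ R \ K := by rw [← hu]; exact Finset.subset_union_right
      have hKR : K ∪ (R \ K) = R := Finset.union_sdiff_of_subset hKcl.1
      have hcross : ∀ u ∈ K, ∀ v ∈ R \ K, MM B u v = 0 := hKcl.2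
      have hbadlift : ∀ K', Bad B (R \ K) K' → Bad B R K' := by
        intro K' hK'
        refine ⟨⟨hK'.cl.1.trans Finset.sdiff_subset, ?_⟩, hK'.conn, hK'.ns, hK'.pm, hK'.simple⟩
        intro u hu v hv
        rw [Finset.mem_sdiff] at hv
        by_cases hvK : v ∈ K
        · rw [MM_comm]
          exact hcross v hvK u (hK'.cl.1 hu)
        · exact hK'.cl.2 u hu v (by simp [hv.1, hv.2, hvK])
      -- the component has a full block structure
      have full : ∀ g1, BlocksN B ∅ K g1 → (K.card : ℤ) ≤ 2 * g1 →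
          ∃ (Rs S : Finset V) (g : ℤ) (Kc : V → Finset V),
          Rs ∪ S = R ∧ Disjoint Rs S ∧ BlocksN B S Rs g ∧ (Rs.card : ℤ) ≤ 2 * g ∧
          (∀ u ∈ S, ∀ v ∈ S, MM B u v = 0) ∧
          (∀ v ∈ S, Bad B R (Kc v) ∧ v ∈ Kc v ∧ v = pick (Kc v) ∧ (Kc v).erase v ⊆ Rs) ∧
          (∀ u ∈ S, ∀ v ∈ S, u ≠ v → Disjoint (Kc u) (Kc v)) := by
        intro g1 hg1 hc1
        have h3 : BlocksN B (∅ ∪ S) K g1 :=
          hg1.more fun u hu z hz => hcross u hu z (hSR hz)
        rw [Finset.empty_union] at h3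
        have hdK : Disjoint K Rs := Finset.disjoint_of_subset_right hRsR Finset.disjoint_sdiff
        have hdKS : Disjoint K S := Finset.disjoint_of_subset_right hSR Finset.disjoint_sdiff
        refine ⟨K ∪ Rs, S, g1 + g, Kc, ?_, ?_, h3.union hbl hdK, ?_, hS0, ?_, hSd⟩
        · rw [Finset.union_assoc, hu, hKR]
        · rw [Finset.disjoint_union_left]; exact ⟨hdKS, hd⟩
        · rw [Finset.card_union_of_disjoint hdK]; push_cast; linarith
        · intro v hv
          obtain ⟨b1, b2, b3, b4⟩ := hSb v hv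
          exact ⟨hbadlift _ b1, b2, b3, b4.trans Finset.subset_union_right⟩
      by_cases hsc : StarCover (Adj B) K
      · obtain ⟨g1, hg1, hc1⟩ := sc_blocksN h0 hsc
        exact full g1 hg1 hc1
      · have hpm : ∀ v ∈ K, PMatch (Adj B) (K.erase v) := by
          rcases starCover_or_pmatch (fun x y h => h.symm) (adj_irrefl hB) hKconn with h | h
          · exact absurd h hsc
          · exact h
        by_cases hdb : ∃ u ∈ K, ∃ v ∈ K, 2 ≤ MM B u v
        · obtain ⟨u, hu', v, hv', huv⟩ := hdb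
          obtain ⟨g1, hg1, hc1⟩ := double_blocksN h0 hB hpm hu' hv' huv
          exact full g1 hg1 hc1
        · push Not at hdb
          have hsimple : ∀ u ∈ K, ∀ v ∈ K, MM B u v ≤ 1 := fun u hu v hv => by
            have := hdb u hu v hv; omega
          set z := pick K with hz
          have hzK : z ∈ K := hpick K hKne
          have hins : insert z (K.erase z ∪ ∅) = K := by
            rw [Finset.union_empty, Finset.insert_erase hzK]
          obtain ⟨g1, hg1, hc1⟩ := pm_blocksN h0 hB (hpm z hzK) ∅ (Finset.notMem_erase _ _)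
            (by simp) (by simp) (fun u hu => hsimple u (Finset.mem_of_mem_erase hu) z hzK)
            StarCover.empty (by rw [hins]; exact hsc)
          have hzR : z ∉ R \ K := by simp [hzK]
          have hzS : z ∉ S := fun h => hzR (hSR h)
          have hzRs : z ∉ Rs := fun h => hzR (hRsR h)
          have h3 : BlocksN B ({z} ∪ S) (K.erase z) g1 :=
            hg1.more fun u hu y hy => hcross u (Finset.mem_of_mem_erase hu) y (hSR hy)
          have h4 : BlocksN B (S ∪ {z}) Rs g := hbl.more fun u hu y hy => by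
            rw [Finset.mem_singleton] at hy
            rw [hy, MM_comm]
            exact hcross z hzK u (hRsR hu)
          rw [Finset.union_comm, ← Finset.insert_eq] at h4
          rw [← Finset.insert_eq] at h3
          have hdK : Disjoint (K.erase z) Rs := by
            refine Finset.disjoint_of_subset_left (Finset.erase_subset _ _) ?_
            exact Finset.disjoint_of_subset_right hRsR Finset.disjoint_sdiff
          have hdKS : Disjoint K S := Finset.disjoint_of_subset_right hSR Finset.disjoint_sdiff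
          refine ⟨K.erase z ∪ Rs, insert z S, g1 + g, fun v => if v = z then K else Kc v, ?_, ?_,
            ?_, ?_, ?_, ?_, ?_⟩
          · have : K.erase z ∪ Rs ∪ insert z S = K ∪ (Rs ∪ S) := by
              ext x
              simp only [Finset.mem_union, Finset.mem_erase, Finset.mem_insert]
              by_cases hx : x = z
              · subst hx; simp [hzK]
              · simp [hx, or_assoc]
            rw [this, hu, hKR]
          · rw [Finset.disjoint_insert_right, Finset.disjoint_union_left]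
            refine ⟨?_, Finset.disjoint_of_subset_left (Finset.erase_subset _ _) hdKS, hd⟩
            simp only [Finset.mem_union, Finset.mem_erase, not_or]
            exact ⟨fun h => h.1 rfl, hzRs⟩
          · exact h3.union h4 hdK
          · rw [Finset.card_union_of_disjoint hdK]; push_cast; linarith
          · intro u hu' v hv'
            rcases Finset.mem_insert.1 hu' with rfl | hu' <;>
              rcases Finset.mem_insert.1 hv' with rfl | hv'
            · simp [MM, hB]
            · exact hcross z hzK v (hSR hv')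
            · rw [MM_comm]; exact hcross z hzK u (hSR hu')
            · exact hS0 u hu' v hv'
          · intro v hv
            rcases Finset.mem_insert.1 hv with rfl | hv
            · simp only [if_true]
              exact ⟨⟨hKcl, hKconn, hsc, hpm, hsimple⟩, hzK, rfl, Finset.subset_union_left⟩
            · have hvz : v ≠ z := fun e => hzS (e ▸ hv)
              simp only [hvz, if_false]
              obtain ⟨b1, b2, b3, b4⟩ := hSb v hv
              exact ⟨hbadlift _ b1, b2, b3, b4.trans Finset.subset_union_right⟩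
          · intro u hu' v hv' huv
            have hKd : ∀ v ∈ S, Disjoint K (Kc v) := by
              intro v hv
              obtain ⟨b1, b2, b3, b4⟩ := hSb v hv
              exact Finset.disjoint_of_subset_right b1.cl.1 Finset.disjoint_sdiff
            rcases Finset.mem_insert.1 hu' with rfl | hu' <;>
              rcases Finset.mem_insert.1 hv' with rfl | hv'
            · exact absurd rfl huv
            · have hvz : v ≠ z := fun e => hzS (e ▸ hv')
              simp only [if_true, hvz, if_false]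
              exact hKd v hv'
            · have huz : u ≠ z := fun e => hzS (e ▸ hu')
              simp only [if_true, huz, if_false]
              exact (hKd u hu').symm
            · have hvz : v ≠ z := fun e => hzS (e ▸ hv')
              have huz : u ≠ z := fun e => hzS (e ▸ hu')
              simp only [hvz, huz, if_false]
              exact hSd u hu' v hv' huv

end Pool.Agent.Exact


end

section

/-!
# The path statement with neutral vertices
-/

set_option autoImplicit false
set_option linter.unusedSectionVars false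

namespace Pool.Agent.Exact

open Finset

variable {V : Type*} [DecidableEq V] {B : V → V → ℤ} {a : V → ℤ}

lemma insert_eq_union (w : V) (T : Finset V) : insert w T = T ∪ {w} := by
  rw [Finset.union_comm, ← Finset.insert_eq]

lemma ch_bounds (ha : ∀ v, 0 ≤ a v ∧ a v ≤ 2) (v : V) :
    1 ≤ a v + (if a v = 1 then 0 else 1) ∧ a v ≤ 1 + (if a v = 1 then (0 : ℤ) else 1) := by
  have := ha v
  split_ifs with h
  · omega
  · constructor
    · omega
    · omega

/-- value after a complete star block -/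
lemma DD_star_end (h0 : ∀ u v, 0 ≤ B u v) (hB : ∀ v, B v v = 0) (ha : ∀ v, 0 ≤ a v ∧ a v ≤ 2)
    {S : Finset V} (c : V) (L : Finset V) (hcS : c ∉ S)
    (hcL : c ∉ L) (hLS : Disjoint L S) (hL : L.Nonempty) (h1 : ∀ l ∈ L, 1 ≤ MM B c l)
    (h2 : ∀ l ∈ L, ∀ l' ∈ L, MM B l l' = 0) {x : V → ℤ} (σ : ℤ) (hσ : σ = 1 ∨ σ = -1)
    (hxc : x c = σ) (hxL : ∀ l ∈ L, x l = -σ) (hint : Int B S (insert c L) x ≤ 0) :
    DD B a x (S ∪ insert c L) - ch a (S ∪ insert c L) ≤ DD B a x S - ch a S - 1 := by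
  have hd : Disjoint S (insert c L) := by
    rw [Finset.disjoint_insert_right]
    exact ⟨hcS, hLS.symm⟩
  have hLcard : (1 : ℤ) ≤ L.card := by exact_mod_cast hL.card_pos
  rw [DD_union hd, ch_union hd, Qd_star c L hcL h0 hB h2]
  have e1 : ∑ l ∈ L, MM B c l * (x c * x l) = - ∑ l ∈ L, MM B c l := by
    rw [← Finset.sum_neg_distrib]
    refine Finset.sum_congr rfl fun l hl => ?_
    rw [hxc, hxL l hl]
    rcases hσ with h | h <;> rw [h] <;> ring
  have e2 : ∑ w ∈ insert c L, (a w * x w + Int B S {w} x) =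
      σ * (a c - ∑ l ∈ L, a l) + Int B S (insert c L) x := by
    rw [Finset.sum_add_distrib, ← Int_sum_right, Finset.sum_insert hcL, hxc]
    have : ∑ l ∈ L, a l * x l = - (σ * ∑ l ∈ L, a l) := by
      rw [Finset.mul_sum, ← Finset.sum_neg_distrib]
      exact Finset.sum_congr rfl fun l hl => by rw [hxL l hl]; ring
    rw [this]; ring
  have e3 : ch a (insert c L) = (if a c = 1 then 0 else 1) + ch a L := by
    unfold ch
    rw [Finset.sum_insert hcL]
  have hM : (L.card : ℤ) ≤ ∑ l ∈ L, MM B c l := by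
    have : ∑ l ∈ L, (1 : ℤ) ≤ ∑ l ∈ L, MM B c l := Finset.sum_le_sum fun l hl => h1 l hl
    simpa using this
  have hl1 : (L.card : ℤ) ≤ ∑ l ∈ L, a l + ch a L := by
    unfold ch
    rw [← Finset.sum_add_distrib]
    have : ∑ l ∈ L, (1 : ℤ) ≤ ∑ l ∈ L, (a l + if a l = 1 then 0 else 1) :=
      Finset.sum_le_sum fun l _ => (ch_bounds ha l).1
    simpa using this
  have hl2 : ∑ l ∈ L, a l ≤ (L.card : ℤ) + ch a L := by
    unfold ch
    have : ∑ l ∈ L, a l ≤ ∑ l ∈ L, (1 + if a l = 1 then (0 : ℤ) else 1) :=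
      Finset.sum_le_sum fun l _ => (ch_bounds ha l).2
    rw [Finset.sum_add_distrib] at this
    simpa using this
  have hc := ch_bounds ha c
  rw [e1, e2, e3]
  rcases hσ with h | h
  · rw [h]; linarith [hc.2]
  · rw [h]; linarith [hc.1]

/-- value after a complete triple -/
lemma DD_hole_end (hB : ∀ v, B v v = 0) (ha : ∀ v, 0 ≤ a v ∧ a v ≤ 2)
    {S : Finset V} (u v w : V) (hu : u ∉ S) (hv : v ∉ S)
    (hw : w ∉ S) (huv : u ≠ v) (huw : u ≠ w) (hvw : v ≠ w) (h1 : 2 ≤ MM B u v) {x : V → ℤ} (σ : ℤ)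
    (hσ : σ = 1 ∨ σ = -1) (hxu : x u = σ) (hxv : x v = -σ) (hxw : x w = 1 ∨ x w = -1)
    (hint : Int B S {u, v} x ≤ 0) (hint' : Int B (S ∪ {u, v}) {w} x ≤ 0) :
    DD B a x (insert w (S ∪ {u, v})) - ch a (insert w (S ∪ {u, v})) ≤
      DD B a x S - ch a S - 1 := by
  have hd : Disjoint S {u, v} := by
    rw [Finset.disjoint_right]
    intro z hz
    rw [Finset.mem_insert, Finset.mem_singleton] at hz
    rcases hz with rfl | rfl
    · exact hu
    · exact hv
  have hwS : w ∉ S ∪ {u, v} := by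
    simp only [Finset.mem_union, Finset.mem_insert, Finset.mem_singleton, not_or]
    exact ⟨hw, huw.symm, hvw.symm⟩
  have hdw : Disjoint (S ∪ {u, v}) {w} := by simpa using hwS
  have e' : insert w (S ∪ {u, v}) = (S ∪ {u, v}) ∪ {w} := insert_eq_union _ _
  have e4 : ∑ w ∈ ({u, v} : Finset V), Int B S {w} x = Int B S {u, v} x :=
    (Int_sum_right _ _ _).symm
  have e2 : ch a {u, v} = (if a u = 1 then 0 else 1) + (if a v = 1 then 0 else 1) := by
    unfold ch
    rw [Finset.sum_pair huv]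
  have e3 : ch a {w} = if a w = 1 then 0 else 1 := by simp [ch]
  have e5 : Qd B {u, v} x = - MM B u v := by
    rw [Qd_pair hB huv, hxu, hxv]
    rcases hσ with h | h <;> rw [h] <;> ring
  rw [e', DD_union hdw, DD_union hd, Qd_single w hB, ch_union hdw, ch_union hd,
    Finset.sum_add_distrib, e4, Finset.sum_pair huv, hxu, hxv, e2, e3, e5]
  simp only [Finset.sum_singleton]
  have cu := ch_bounds ha u
  have cv := ch_bounds ha v
  have cw := ch_bounds ha w
  have aw := ha w
  have h3 : a u * σ + a v * -σ ≤ (if a u = 1 then 0 else 1) + (if a v = 1 then 0 else 1) := by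
    rcases hσ with h | h <;> rw [h] <;> linarith [cu.1, cu.2, cv.1, cv.2]
  have h4 : a w * x w ≤ 1 + (if a w = 1 then 0 else 1) := by
    rcases hxw with h | h <;> rw [h] <;> linarith [cw.2, aw.1]
  linarith

/-- the realisation, with the number of blocks -/
theorem BlocksN.realise2 {N S : Finset V} {g : ℤ} (h : BlocksN B N S g) (h0 : ∀ u v, 0 ≤ B u v)
    (hB : ∀ v, B v v = 0) (ha : ∀ v, 0 ≤ a v ∧ a v ≤ 2) :
    ∃ (x : V → ℤ) (nb : ℤ), (∀ v, x v = 1 ∨ x v = -1) ∧ Qd B S x ≤ -g ∧ GoodE B a x 1 S ∧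
      GoodE B a (fun v => - x v) 1 S ∧ (∀ z ∈ N, ∑ u ∈ S, MM B u z * x u = 0) ∧
      (S.card : ℤ) ≤ g + nb ∧ 0 ≤ nb ∧ (S.Nonempty → 1 ≤ nb) ∧
      DD B a x S ≤ ch a S - nb ∧ DD B a (fun v => - x v) S ≤ ch a S - nb := by
  induction h with
  | empty => exact ⟨fun _ => 1, 0, fun _ => Or.inl rfl, by simp [Qd], GoodE.empty, GoodE.empty,
      by simp, by simp, le_rfl, by simp, by simp [DD_empty, ch_empty], by simp [DD_empty, ch_empty]⟩
  | star S g c L hS hcS hcL hLS hL h1 h2 hN ih =>
    obtain ⟨x0, nb, hx0, hq, hg, hg', hneu, hcd, hnb0, hnb1, hDD, hDD'⟩ := ih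
    have hd : Disjoint S (insert c L) := by
      rw [Finset.disjoint_insert_right]
      exact ⟨hcS, hLS.symm⟩
    set y : ℤ → V → ℤ := fun σ v => if v = c then σ else if v ∈ L then -σ else x0 v with hy
    have hyc : ∀ σ, y σ c = σ := by intro σ; simp [hy]
    have hyL : ∀ σ, ∀ l ∈ L, y σ l = -σ := by
      intro σ l hl
      have : l ≠ c := fun e => hcL (e ▸ hl)
      simp [hy, this, hl]
    have hyS : ∀ σ, ∀ v ∈ S, y σ v = x0 v := by
      intro σ v hv
      have h3 : v ≠ c := fun e => hcS (e ▸ hv)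
      have h4 : v ∉ L := fun h => Finset.disjoint_left.1 hLS h hv
      simp [hy, h3, h4]
    have hJ : ∀ σ, (σ = 1 ∨ σ = -1) →
        Int B S (insert c L) (y σ) = σ * Int B S (insert c L) (y 1) := by
      intro σ hσ
      unfold Int
      rw [Finset.mul_sum]
      refine Finset.sum_congr rfl fun u hu => ?_
      rw [Finset.mul_sum]
      refine Finset.sum_congr rfl fun v hv => ?_
      rw [hyS σ u hu, hyS 1 u hu]
      rcases Finset.mem_insert.1 hv with rfl | hv
      · rw [hyc, hyc]; ring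
      · rw [hyL σ v hv, hyL 1 v hv]; ring
    obtain ⟨σ, hσ, hσJ⟩ : ∃ σ : ℤ, (σ = 1 ∨ σ = -1) ∧ Int B S (insert c L) (y σ) ≤ 0 := by
      rcases le_total (Int B S (insert c L) (y 1)) 0 with h3 | h3
      · exact ⟨1, Or.inl rfl, h3⟩
      · refine ⟨-1, Or.inr rfl, ?_⟩
        rw [hJ _ (Or.inr rfl)]
        linarith
    have hσ' : -σ = 1 ∨ -σ = -1 := by
      rcases hσ with h | h
      · right; rw [h]
      · left; rw [h]; norm_num
    have hM : (L.card : ℤ) ≤ ∑ l ∈ L, MM B c l := by
      have : ∑ l ∈ L, (1 : ℤ) ≤ ∑ l ∈ L, MM B c l := Finset.sum_le_sum fun l hl => h1 l hl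
      simpa using this
    refine ⟨y σ, nb + 1, ?_, ?_, ?_, ?_, ?_, ?_, by linarith, fun _ => by linarith, ?_, ?_⟩
    · intro v
      simp only [hy]
      split_ifs
      · exact hσ
      · rcases hσ with h | h <;> rw [h] <;> norm_num
      · exact hx0 v
    · rw [Qd_union hd, Qd_congr (hyS σ), Qd_star c L hcL h0 hB h2]
      have : ∑ l ∈ L, MM B c l * (y σ c * y σ l) = - ∑ l ∈ L, MM B c l := by
        rw [← Finset.sum_neg_distrib]
        refine Finset.sum_congr rfl fun l hl => ?_
        rw [hyc, hyL σ l hl]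
        rcases hσ with h | h <;> rw [h] <;> ring
      rw [this]
      linarith
    · exact (hg.congr fun v hv => (hyS σ v hv).symm).star le_rfl h0 hB ha c L hcS hcL hLS hL h1 h2 σ hσ
        (hyc σ) (hyL σ) hσJ
    · refine GoodE.star (hg'.congr fun v hv => by rw [hyS σ v hv]) le_rfl h0 hB ha c L hcS hcL hLS hL
        h1 h2 (-σ) hσ' (by rw [hyc σ]) (fun l hl => by rw [hyL σ l hl]) ?_
      rw [Int_neg]; exact hσJ
    · intro z hz
      rw [Finset.sum_union hd, Finset.sum_insert hcL, hyc]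
      have e1 : ∑ u ∈ S, MM B u z * y σ u = 0 := by
        rw [← hneu z hz]
        exact Finset.sum_congr rfl fun u hu => by rw [hyS σ u hu]
      have e2 : ∑ l ∈ L, MM B l z * y σ l = - (∑ l ∈ L, MM B l z) * σ := by
        rw [← Finset.sum_neg_distrib, Finset.sum_mul]
        exact Finset.sum_congr rfl fun l hl => by rw [hyL σ l hl]; ring
      rw [e1, e2, hN z hz]
      ring
    · rw [Finset.card_union_of_disjoint hd, Finset.card_insert_of_notMem hcL]
      push_cast
      linarith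
    · have h5 := DD_star_end h0 hB ha c L hcS hcL hLS hL h1 h2 (x := y σ) σ hσ (hyc σ) (hyL σ) hσJ
      have h6 : DD B a (y σ) S = DD B a x0 S := DD_congr (hyS σ)
      linarith
    · have h5 := DD_star_end h0 hB ha c L hcS hcL hLS hL h1 h2 (x := fun v => - y σ v) (-σ) hσ'
        (by rw [hyc σ]) (fun l hl => by rw [hyL σ l hl]) (by rw [Int_neg]; exact hσJ)
      have h6 : DD B a (fun v => - y σ v) S = DD B a (fun v => - x0 v) S :=
        DD_congr fun v hv => by rw [hyS σ v hv]
      linarith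
  | hole S g u v w hS hu hv hw huv huw hvw h1 hN ih =>
    obtain ⟨x0, nb, hx0, hq, hg, hg', hneu, hcd, hnb0, hnb1, hDD, hDD'⟩ := ih
    have hd : Disjoint S {u, v} := by
      rw [Finset.disjoint_right]
      intro z hz
      rw [Finset.mem_insert, Finset.mem_singleton] at hz
      rcases hz with rfl | rfl
      · exact hu
      · exact hv
    have hvv : ∀ l ∈ ({v} : Finset V), ∀ l' ∈ ({v} : Finset V), MM B l l' = 0 := by
      intro l hl l' hl'
      rw [Finset.mem_singleton] at hl hl'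
      rw [hl, hl']
      simp [MM, hB]
    have hwS : w ∉ S ∪ {u, v} := by
      simp only [Finset.mem_union, Finset.mem_insert, Finset.mem_singleton, not_or]
      exact ⟨hw, huw.symm, hvw.symm⟩
    have hdw : Disjoint (S ∪ {u, v}) {w} := by simpa using hwS
    set y : ℤ → ℤ → V → ℤ := fun σ τ z => if z = u then σ else if z = v then -σ else
      if z = w then τ else x0 z with hy
    have hyu : ∀ σ τ, y σ τ u = σ := by intro σ τ; simp [hy]
    have hyv : ∀ σ τ, y σ τ v = -σ := by intro σ τ; simp [hy, huv.symm]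
    have hyw : ∀ σ τ, y σ τ w = τ := by intro σ τ; simp [hy, huw.symm, hvw.symm]
    have hyS : ∀ σ τ, ∀ z ∈ S, y σ τ z = x0 z := by
      intro σ τ z hz
      have h3 : z ≠ u := fun e => hu (e ▸ hz)
      have h4 : z ≠ v := fun e => hv (e ▸ hz)
      have h5 : z ≠ w := fun e => hw (e ▸ hz)
      simp [hy, h3, h4, h5]
    have hJ : ∀ σ τ, Int B S {u, v} (y σ τ) = σ * Int B S {u, v} (y 1 1) := by
      intro σ τ
      unfold Int
      rw [Finset.mul_sum]
      refine Finset.sum_congr rfl fun z hz => ?_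
      rw [Finset.sum_pair huv, Finset.sum_pair huv, hyu, hyv, hyS σ τ z hz, hyu, hyv,
        hyS 1 1 z hz]
      ring
    obtain ⟨σ, hσ, hσJ⟩ : ∃ σ : ℤ, (σ = 1 ∨ σ = -1) ∧ ∀ τ, Int B S {u, v} (y σ τ) ≤ 0 := by
      rcases le_total (Int B S {u, v} (y 1 1)) 0 with h3 | h3
      · exact ⟨1, Or.inl rfl, fun τ => by rw [hJ]; linarith⟩
      · refine ⟨-1, Or.inr rfl, fun τ => ?_⟩
        rw [hJ]
        linarith
    have hJ' : ∀ τ, Int B (S ∪ {u, v}) {w} (y σ τ) = τ * Int B (S ∪ {u, v}) {w} (y σ 1) := by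
      intro τ
      unfold Int
      rw [Finset.mul_sum]
      refine Finset.sum_congr rfl fun z hz => ?_
      rw [Finset.sum_singleton, Finset.sum_singleton, hyw, hyw]
      have : y σ τ z = y σ 1 z := by
        have h5 : z ≠ w := fun e => hwS (e ▸ hz)
        simp [hy, h5]
      rw [this]
      ring
    obtain ⟨τ, hτ, hτJ⟩ : ∃ τ : ℤ, (τ = 1 ∨ τ = -1) ∧ Int B (S ∪ {u, v}) {w} (y σ τ) ≤ 0 := by
      rcases le_total (Int B (S ∪ {u, v}) {w} (y σ 1)) 0 with h3 | h3
      · exact ⟨1, Or.inl rfl, h3⟩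
      · refine ⟨-1, Or.inr rfl, ?_⟩
        rw [hJ']
        linarith
    have hσ' : -σ = 1 ∨ -σ = -1 := by
      rcases hσ with h | h
      · right; rw [h]
      · left; rw [h]; norm_num
    have hτ' : -τ = 1 ∨ -τ = -1 := by
      rcases hτ with h | h
      · right; rw [h]
      · left; rw [h]; norm_num
    refine ⟨y σ τ, nb + 1, ?_, ?_, ?_, ?_, ?_, ?_, by linarith, fun _ => by linarith, ?_, ?_⟩
    · intro z
      simp only [hy]
      split_ifs
      · exact hσ
      · rcases hσ with h | h <;> rw [h] <;> norm_num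
      · exact hτ
      · exact hx0 z
    · have e : insert w (S ∪ {u, v}) = (S ∪ {u, v}) ∪ {w} := insert_eq_union _ _
      rw [e, Qd_union hdw, Qd_union hd, Qd_congr (hyS σ τ), Qd_single w hB, insert_pair_eq2,
        Qd_star u {v} (by simpa using huv) h0 hB hvv, ← insert_pair_eq2]
      simp only [Finset.sum_singleton]
      have h3 := hσJ τ
      have h4 : MM B u v * (y σ τ u * y σ τ v) = - MM B u v := by
        rw [hyu, hyv]
        rcases hσ with h | h <;> rw [h] <;> ring
      rw [h4]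
      linarith
    · exact (hg.congr fun z hz => (hyS σ τ z hz).symm).hole2 h0 hB ha u v w hu hv hw huv huw hvw h1
        σ hσ (hyu σ τ) (hyv σ τ) (by rw [hyw]; exact hτ) (hσJ τ) hτJ
    · refine GoodE.hole2 (hg'.congr fun z hz => by rw [hyS σ τ z hz]) h0 hB ha u v w hu hv hw huv huw
        hvw h1 (-σ) hσ' (by rw [hyu]) (by rw [hyv]) ?_ ?_ ?_
      · rw [hyw]; exact hτ'
      · rw [Int_neg]; exact hσJ τ
      · rw [Int_neg]; exact hτJ
    · intro z hz
      have hd3 : w ∉ S ∪ {u, v} := hwS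
      rw [Finset.sum_insert hd3, Finset.sum_union hd, Finset.sum_pair huv, hyu, hyv]
      have e1 : ∑ s ∈ S, MM B s z * y σ τ s = 0 := by
        rw [← hneu z hz]
        exact Finset.sum_congr rfl fun s hs => by rw [hyS σ τ s hs]
      rw [e1, (hN z hz).1, (hN z hz).2]
      ring
    · rw [Finset.card_insert_of_notMem hwS, Finset.card_union_of_disjoint hd, Finset.card_pair huv]
      push_cast
      linarith
    · have h5 := DD_hole_end (a := a) hB ha u v w hu hv hw huv huw hvw h1 (x := y σ τ) σ hσ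
        (hyu σ τ) (hyv σ τ) (by rw [hyw]; exact hτ) (hσJ τ) hτJ
      have h6 : DD B a (y σ τ) S = DD B a x0 S := DD_congr (hyS σ τ)
      linarith
    · have h5 := DD_hole_end (a := a) hB ha u v w hu hv hw huv huw hvw h1
        (x := fun v => - y σ τ v) (-σ) hσ'
        (by rw [hyu]) (by rw [hyv]) (by rw [hyw]; exact hτ') (by rw [Int_neg]; exact hσJ τ)
        (by rw [Int_neg]; exact hτJ)
      have h6 : DD B a (fun v => - y σ τ v) S = DD B a (fun v => - x0 v) S :=
        DD_congr fun v hv => by rw [hyS σ τ v hv]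
      linarith

end Pool.Agent.Exact


end

section

/-!
# Placing neutral vertices at the end of a path
-/

set_option autoImplicit false
set_option linter.unusedSectionVars false

namespace Pool.Agent.Exact

open Finset

variable {V : Type*} [DecidableEq V] {B : V → V → ℤ} {a : V → ℤ}

/-- `S` can be built vertex by vertex with value at most `b` after each step -/
inductive PathB (B : V → V → ℤ) (a x : V → ℤ) (b : ℤ) : Finset V → Prop
  | empty : PathB B a x b ∅
  | step (S : Finset V) (v : V) : PathB B a x b S → v ∉ S → DD B a x (insert v S) ≤ b →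
      PathB B a x b (insert v S)

lemma PathB.congr {S : Finset V} {x y : V → ℤ} {b : ℤ} (hS : PathB B a x b S)
    (h : ∀ v ∈ S, x v = y v) : PathB B a y b S := by
  induction hS with
  | empty => exact PathB.empty
  | step S v hS hv hD ih =>
    refine PathB.step S v (ih fun u hu => h u (Finset.mem_insert_of_mem hu)) hv ?_
    rw [← DD_congr h]
    exact hD

lemma GoodE.toPathB {x : V → ℤ} {e b : ℤ} {S : Finset V} (h : GoodE B a x e S)
    (hb : ∀ P ⊆ S, P.Nonempty → ch a P - e ≤ b) : PathB B a x b S := by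
  induction h with
  | empty => exact PathB.empty
  | step S v hS hv hD ih =>
    refine PathB.step S v (ih fun P hP => hb P (hP.trans (Finset.subset_insert _ _))) hv ?_
    exact hD.trans (hb _ (Finset.Subset.refl _) (Finset.insert_nonempty _ _))

lemma PathB.le {x : V → ℤ} {b : ℤ} (hb : 0 ≤ b) {S : Finset V} (h : PathB B a x b S) :
    DD B a x S ≤ b := by
  cases h with
  | empty => rw [DD_empty]; exact hb
  | step S v hS hv hD => exact hD

theorem PathB.cross {x t : V → ℤ} {b : ℤ} {S : Finset V} (hS : PathB B a x b S) (hb : 0 ≤ b)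
    (c : ℝ) (hc0 : 0 < c) (hc : c ≤ ((∑ v ∈ S, t v * x v : ℤ) : ℝ)) :
    ∃ (P : Finset V) (v : V), v ∉ P ∧ insert v P ⊆ S ∧ DD B a x P ≤ b ∧
      DD B a x (insert v P) ≤ b ∧ ((∑ u ∈ P, t u * x u : ℤ) : ℝ) < c ∧
      c ≤ ((∑ u ∈ insert v P, t u * x u : ℤ) : ℝ) := by
  induction hS with
  | empty => simp at hc; linarith
  | step S v hS hv hD ih =>
    rcases lt_or_ge ((∑ u ∈ S, t u * x u : ℤ) : ℝ) c with h1 | h1
    · exact ⟨S, v, hv, Finset.Subset.refl _, hS.le hb, hD, h1, hc⟩
    · obtain ⟨P, w, h2, h3, h4⟩ := ih h1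
      exact ⟨P, w, h2, h3.trans (Finset.subset_insert _ _), h4⟩

/-- value after placing a neutral vertex -/
lemma DD_place (hB : ∀ v, B v v = 0) {X : Finset V} {v : V} (hv : v ∉ X) {x x' : V → ℤ}
    (hx : ∀ u ∈ X, x' u = x u) (hn : ∑ u ∈ X, MM B u v * x u = 0) :
    DD B a x' (insert v X) = DD B a x X + a v * x' v := by
  have e : insert v X = X ∪ {v} := by
    ext z; simp only [Finset.mem_insert, Finset.mem_union, Finset.mem_singleton]; tauto
  have hd : Disjoint X {v} := by simpa using hv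
  rw [e, DD_union hd, Qd_single v hB, add_zero, Finset.sum_singleton]
  have e1 : DD B a x' X = DD B a x X := DD_congr hx
  have e2 : Int B X {v} x' = 0 := by
    unfold Int
    have : ∑ u ∈ X, ∑ w ∈ ({v} : Finset V), MM B u w * (x' u * x' w) =
        (∑ u ∈ X, MM B u v * x u) * x' v := by
      rw [Finset.sum_mul]
      refine Finset.sum_congr rfl fun u hu => ?_
      rw [Finset.sum_singleton, hx u hu]
      ring
    rw [this, hn, zero_mul]
  rw [e1, e2, add_zero]

/-- harmless vertices: `s v + a v ≥ 0` or `a v = 0` -/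
def Harm (a s : V → ℤ) (v : V) : Prop := 0 ≤ s v + a v ∨ a v = 0

/-- the value of the sign of a harmless vertex -/
lemma harm_sign {s : V → ℤ} (ha : ∀ v, 0 ≤ a v ∧ a v ≤ 2) {v : V} (h : Harm a s v) :
    ∃ y : ℤ, (y = 1 ∨ y = -1) ∧ a v * y ≤ 0 ∧ (a v + s v) * y = - |a v + s v| := by
  rcases le_or_gt 0 (s v + a v) with h1 | h1
  · refine ⟨-1, Or.inr rfl, ?_, ?_⟩
    · linarith [(ha v).1]
    · rw [abs_of_nonneg (by linarith)]; ring
  · have h2 : a v = 0 := by
      rcases h with h | h
      · linarith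
      · exact h
    refine ⟨1, Or.inl rfl, by rw [h2]; norm_num, ?_⟩
    rw [abs_of_neg (by linarith)]; ring

open Classical in
/-- **Placement.** All vertices of the neutral independent set `S` can be placed after `X`; only
the last one may lead to a value above `b`. -/
theorem place (hB : ∀ v, B v v = 0) (ha : ∀ v, 0 ≤ a v ∧ a v ≤ 2)
    (s : V → ℤ) {b : ℤ} :
    ∀ (n : ℕ) (S X : Finset V) (x : V → ℤ), S.card = n → (∀ v, x v = 1 ∨ x v = -1) →
      PathB B a x b X → Disjoint X S → DD B a x X ≤ b →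
      (∀ v ∈ S, a v = 2 → DD B a x X + 1 ≤ b) →
      (∀ v ∈ S, ∑ u ∈ X, MM B u v * x u = 0) → (∀ u ∈ S, ∀ v ∈ S, MM B u v = 0) →
      ∃ x' : V → ℤ, (∀ v, x' v = 1 ∨ x' v = -1) ∧ (∀ v ∈ X, x' v = x v) ∧
        ((PathB B a x' b (X ∪ S) ∧ DD B a x' (X ∪ S) ≤ DD B a x X + ch a S) ∨
          ∃ y ∈ S, PathB B a x' b ((X ∪ S).erase y) ∧ s y + a y < 0 ∧ 1 ≤ a y ∧
          DD B a x' (X ∪ S) = DD B a x' ((X ∪ S).erase y) + a y ∧
          DD B a x' ((X ∪ S).erase y) ≤ DD B a x X ∧ x' y = 1) ∧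
        DD B a x' (X ∪ S) + ∑ v ∈ X ∪ S, s v * x' v ≤
          DD B a x X + ∑ v ∈ X, s v * x v - ∑ v ∈ S.filter (Harm a s), |a v + s v| := by
  intro n
  induction n using Nat.strong_induction_on with
  | _ n ih =>
    intro S X x hSn hx hP hd hb1 hb2 hneu hind
    -- general step
    have step : ∀ (X : Finset V) (x : V → ℤ) (v : V) (y : ℤ), (∀ v, x v = 1 ∨ x v = -1) →
        PathB B a x b X → v ∉ X → (y = 1 ∨ y = -1) → (∑ u ∈ X, MM B u v * x u = 0) →
        ∃ x1 : V → ℤ, (∀ v, x1 v = 1 ∨ x1 v = -1) ∧ (∀ u ∈ X, x1 u = x u) ∧ x1 v = y ∧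
          PathB B a x1 b X ∧ (DD B a x X + a v * y ≤ b → PathB B a x1 b (insert v X)) ∧
          DD B a x1 (insert v X) = DD B a x X + a v * y ∧
          ∑ u ∈ insert v X, s u * x1 u = ∑ u ∈ X, s u * x u + s v * y ∧
          (∀ w, MM B v w = 0 → ∑ u ∈ X, MM B u w * x u = 0 →
            ∑ u ∈ insert v X, MM B u w * x1 u = 0) := by
      intro X x v y hx hP hv hy hn
      set x1 : V → ℤ := fun u => if u = v then y else x u with hx1
      have h1 : x1 v = y := by simp [hx1]
      have h2 : ∀ u ∈ X, x1 u = x u := by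
        intro u hu
        have : u ≠ v := fun e => hv (e ▸ hu)
        simp [hx1, this]
      have h3 : DD B a x1 (insert v X) = DD B a x X + a v * y := by
        rw [DD_place hB hv h2 hn, h1]
      have hPX : PathB B a x1 b X := hP.congr fun u hu => (h2 u hu).symm
      refine ⟨x1, ?_, h2, h1, hPX, ?_, h3, ?_, ?_⟩
      · intro u
        simp only [hx1]
        split_ifs
        · exact hy
        · exact hx u
      · intro hD
        refine PathB.step X v hPX hv ?_
        rw [h3]; exact hD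
      · rw [Finset.sum_insert hv, h1, Finset.sum_congr rfl fun u hu => by rw [h2 u hu]]
        ring
      · intro w hw hw'
        rw [Finset.sum_insert hv, hw, zero_mul, zero_add]
        rw [← hw']
        exact Finset.sum_congr rfl fun u hu => by rw [h2 u hu]
    by_cases hH : ∃ v ∈ S, Harm a s v
    · obtain ⟨v, hvS, hvH⟩ := hH
      obtain ⟨y, hy, hy1, hy2⟩ := harm_sign ha hvH
      have hvX : v ∉ X := fun h => Finset.disjoint_left.1 hd h hvS
      obtain ⟨x1, a1, a2, a3, a0, a4, a5, a6, a7⟩ := step X x v y hx hP hvX hy (hneu v hvS)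
      replace a4 := a4 (by linarith)
      have hlt : (S.erase v).card < n := by rw [← hSn]; exact Finset.card_erase_lt_of_mem hvS
      have hsub : ∀ u ∈ S.erase v, u ∈ S := fun u hu => Finset.mem_of_mem_erase hu
      have hchS : ch a S = (if a v = 1 then 0 else 1) + ch a (S.erase v) := by
        unfold ch
        rw [Finset.add_sum_erase S (fun v => if a v = 1 then (0 : ℤ) else 1) hvS]
      have hcv0 : (0 : ℤ) ≤ (if a v = 1 then 0 else 1) := by split_ifs <;> norm_num
      obtain ⟨x', b1, b2, b3, b4⟩ := ih _ hlt (S.erase v) (insert v X) x1 rfl a1 a4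
        (by
          rw [Finset.disjoint_insert_left]
          exact ⟨Finset.notMem_erase _ _, Finset.disjoint_of_subset_right
            (Finset.erase_subset _ _) hd⟩)
        (by rw [a5]; linarith)
        (fun u hu h2 => by have := hb2 u (hsub u hu) h2; rw [a5]; linarith)
        (fun u hu => a7 u (hind v hvS u (hsub u hu)) (hneu u (hsub u hu)))
        (fun u hu w hw => hind u (hsub u hu) w (hsub w hw))
      have e : insert v X ∪ S.erase v = X ∪ S := by
        ext z
        simp only [Finset.mem_union, Finset.mem_insert, Finset.mem_erase]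
        by_cases hz : z = v
        · subst hz; simp [hvS]
        · simp [hz]
      rw [e] at b3 b4
      refine ⟨x', b1, ?_, ?_, ?_⟩
      · intro u hu
        rw [b2 u (Finset.mem_insert_of_mem hu), a2 u hu]
      · rcases b3 with ⟨b3, b5⟩ | ⟨z, hz, c1, c2, c3, c4, c5, c6⟩
        · rw [a5] at b5
          exact Or.inl ⟨b3, by rw [hchS]; linarith⟩
        · right
          rw [a5] at c5
          exact ⟨z, hsub z hz, c1, c2, c3, c4, by linarith, c6⟩
      · rw [a5, a6] at b4
        have e2 : ∑ u ∈ S.filter (Harm a s), |a u + s u| = |a v + s v| +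
            ∑ u ∈ (S.erase v).filter (Harm a s), |a u + s u| := by
          rw [← Finset.insert_erase hvS, Finset.filter_insert, if_pos hvH,
            Finset.sum_insert (by simp), Finset.erase_insert (Finset.notMem_erase _ _)]
        rw [e2]
        have e3 : (a v + s v) * y = a v * y + s v * y := by ring
        rw [e3] at hy2
        linarith
    · push Not at hH
      have hHf : S.filter (Harm a s) = ∅ := by
        rw [Finset.filter_eq_empty_iff]
        exact fun v hv => hH v hv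
      have hprop : ∀ v ∈ S, s v + a v < 0 ∧ (a v = 1 ∨ a v = 2) := by
        intro v hv
        have h1 := hH v hv
        unfold Harm at h1
        push Not at h1
        have := ha v
        exact ⟨h1.1, by omega⟩
      rw [hHf, Finset.sum_empty, sub_zero]
      by_cases hpair : ∃ u ∈ S, ∃ v ∈ S, u ≠ v ∧ a u = a v ∧ s u ≤ s v
      · -- `u` gets `+`, `v` gets `-`
        obtain ⟨u, hu, v, hv, huv, hauv, hsuv⟩ := hpair
        have hvX : v ∉ X := fun h => Finset.disjoint_left.1 hd h hv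
        have huX : u ∉ insert v X := by
          simp only [Finset.mem_insert, not_or]
          exact ⟨huv, fun h => Finset.disjoint_left.1 hd h hu⟩
        obtain ⟨x1, a1, a2, a3, a0, a4, a5, a6, a7⟩ := step X x v (-1) hx hP hvX (Or.inr rfl)
          (hneu v hv)
        replace a4 := a4 (by have := ha v; linarith)
        obtain ⟨x2, c1, c2, c3, c0, c4, c5, c6, c7⟩ := step (insert v X) x1 u 1 a1 a4 huX
          (Or.inl rfl) (a7 u (hind v hv u hu) (hneu u hu))
        replace c4 := c4 (by rw [a5, hauv]; linarith)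
        have hlt : ((S.erase v).erase u).card < n := by
          rw [← hSn]
          refine (Finset.card_lt_card ?_).trans (Finset.card_lt_card (Finset.erase_ssubset hv))
          exact Finset.erase_ssubset (Finset.mem_erase.2 ⟨huv, hu⟩)
        have hsub : ∀ w ∈ (S.erase v).erase u, w ∈ S := fun w hw =>
          Finset.mem_of_mem_erase (Finset.mem_of_mem_erase hw)
        have hDD : DD B a x2 (insert u (insert v X)) = DD B a x X := by
          rw [c5, a5, hauv]; ring
        have hchS : ch a ((S.erase v).erase u) ≤ ch a S := by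
          unfold ch
          exact Finset.sum_le_sum_of_subset_of_nonneg hsub fun v _ _ => by
            split_ifs <;> norm_num
        obtain ⟨x', b1, b2, b3, b4⟩ := ih _ hlt ((S.erase v).erase u)
          (insert u (insert v X)) x2 rfl c1 c4
          (by
            rw [Finset.disjoint_insert_left, Finset.disjoint_insert_left]
            refine ⟨Finset.notMem_erase _ _, ?_, ?_⟩
            · simp
            · exact Finset.disjoint_of_subset_right (fun w hw => hsub w hw) hd)
          (by rw [hDD]; exact hb1)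
          (fun w hw h2 => by rw [hDD]; exact hb2 w (hsub w hw) h2)
          (fun w hw => c7 w (hind u hu w (hsub w hw))
            (a7 w (hind v hv w (hsub w hw)) (hneu w (hsub w hw))))
          (fun w hw z hz => hind w (hsub w hw) z (hsub z hz))
        have e : insert u (insert v X) ∪ (S.erase v).erase u = X ∪ S := by
          ext z
          simp only [Finset.mem_union, Finset.mem_insert, Finset.mem_erase]
          by_cases hz : z = v
          · subst hz; simp [hv]
          · by_cases hz' : z = u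
            · subst hz'; simp [hu]
            · simp [hz, hz']
        rw [e] at b3 b4
        have hf2 : ((S.erase v).erase u).filter (Harm a s) = ∅ := by
          rw [Finset.filter_eq_empty_iff]
          exact fun w hw => hH w (hsub w hw)
        rw [hf2, Finset.sum_empty, sub_zero, hDD, c6, a6] at b4
        refine ⟨x', b1, ?_, ?_, ?_⟩
        · intro w hw
          rw [b2 w (by simp [hw]), c2 w (by simp [hw]), a2 w hw]
        · rcases b3 with ⟨b3, b5⟩ | ⟨z, hz, d1, d2, d3, d4, d5, d6⟩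
          · rw [hDD] at b5
            exact Or.inl ⟨b3, by linarith⟩
          · right
            rw [hDD] at d5
            exact ⟨z, hsub z hz, d1, d2, d3, d4, by linarith, d6⟩
        · linarith
      · -- at most one vertex of each class
        push Not at hpair
        have huniq : ∀ u ∈ S, ∀ v ∈ S, a u = a v → u = v := by
          intro u hu v hv hauv
          by_contra huv
          have h1 := hpair u hu v hv huv hauv
          have h2 := hpair v hv u hu (Ne.symm huv) hauv.symm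
          linarith
        rcases S.eq_empty_or_nonempty with rfl | ⟨v, hv⟩
        · refine ⟨x, hx, fun _ _ => rfl, Or.inl ⟨by simpa using hP, by simp [ch]⟩, by simp⟩
        · by_cases hone : S = {v}
          · subst hone
            have hvX : v ∉ X := fun h => Finset.disjoint_left.1 hd h hv
            obtain ⟨x1, a1, a2, a3, a0, a4, a5, a6, a7⟩ := step X x v 1 hx hP hvX (Or.inl rfl)
              (hneu v hv)
            have e : X ∪ {v} = insert v X := by
              ext z; simp only [Finset.mem_insert, Finset.mem_union, Finset.mem_singleton]; tauto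
            have e2 : (insert v X).erase v = X := Finset.erase_insert hvX
            have e3 : DD B a x1 X = DD B a x X := DD_congr a2
            rw [e]
            refine ⟨x1, a1, a2, Or.inr ⟨v, hv, by rw [e2]; exact a0, (hprop v hv).1, ?_, ?_, ?_,
              a3⟩, ?_⟩
            · rcases (hprop v hv).2 with h | h
              · rw [h]
              · rw [h]; norm_num
            · rw [e2, a5, e3]; ring
            · rw [e2, e3]
            · rw [a5, a6]
              have := (hprop v hv).1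
              linarith
          · -- two vertices with different `a`
            obtain ⟨w, hw, hwv⟩ : ∃ w ∈ S, w ≠ v := by
              by_contra hcon
              push Not at hcon
              exact hone (Finset.eq_singleton_iff_unique_mem.2 ⟨hv, hcon⟩)
            -- name them
            obtain ⟨y1, hy1, y2, hy2, ha1, ha2, hy12⟩ : ∃ y1 ∈ S, ∃ y2 ∈ S, a y1 = 1 ∧ a y2 = 2 ∧
                y1 ≠ y2 := by
              rcases (hprop v hv).2 with h | h <;> rcases (hprop w hw).2 with h' | h'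
              · exact absurd (huniq w hw v hv (by rw [h, h'])) hwv
              · exact ⟨v, hv, w, hw, h, h', hwv.symm⟩
              · exact ⟨w, hw, v, hv, h', h, hwv⟩
              · exact absurd (huniq w hw v hv (by rw [h, h'])) hwv
            have hS2 : S = {y1, y2} := by
              ext z
              simp only [Finset.mem_insert, Finset.mem_singleton]
              constructor
              · intro hz
                rcases (hprop z hz).2 with h | h
                · left; exact huniq z hz y1 hy1 (by rw [h, ha1])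
                · right; exact huniq z hz y2 hy2 (by rw [h, ha2])
              · rintro (rfl | rfl)
                · exact hy1
                · exact hy2
            have hb2' := hb2 y2 hy2 ha2
            have hch1 : 1 ≤ ch a S := by
              unfold ch
              rw [hS2, Finset.sum_pair hy12, ha1, ha2]
              norm_num
            have hy1X : y1 ∉ X := fun h => Finset.disjoint_left.1 hd h hy1
            have hy2X : y2 ∉ X := fun h => Finset.disjoint_left.1 hd h hy2
            have e : X ∪ S = insert y2 (insert y1 X) := by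
              rw [hS2]
              ext z; simp only [Finset.mem_insert, Finset.mem_union, Finset.mem_singleton]; tauto
            rcases lt_or_ge (s y2) (s y1) with hs | hs
            · -- `y1` gets `-`, `y2` gets `+`
              obtain ⟨x1, a1, a2, a3, a0, a4, a5, a6, a7⟩ := step X x y1 (-1) hx hP hy1X
                (Or.inr rfl) (hneu y1 hy1)
              replace a4 := a4 (by rw [ha1]; linarith)
              obtain ⟨x2, c1, c2, c3, c0, c4, c5, c6, c7⟩ := step (insert y1 X) x1 y2 1 a1 a4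
                (by simp only [Finset.mem_insert, not_or]; exact ⟨hy12.symm, hy2X⟩)
                (Or.inl rfl) (a7 y2 (hind y1 hy1 y2 hy2) (hneu y2 hy2))
              replace c4 := c4 (by rw [a5, ha1, ha2]; linarith)
              rw [e]
              refine ⟨x2, c1, ?_, Or.inl ⟨c4, ?_⟩, ?_⟩
              · intro z hz; rw [c2 z (by simp [hz]), a2 z hz]
              · rw [c5, a5, ha1, ha2]; linarith
              · rw [c5, c6, a5, a6, ha1, ha2]
                omega
            · -- `y1` gets `+`, `y2` gets `-`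
              obtain ⟨x1, a1, a2, a3, a0, a4, a5, a6, a7⟩ := step X x y1 1 hx hP hy1X
                (Or.inl rfl) (hneu y1 hy1)
              replace a4 := a4 (by rw [ha1]; linarith)
              obtain ⟨x2, c1, c2, c3, c0, c4, c5, c6, c7⟩ := step (insert y1 X) x1 y2 (-1) a1 a4
                (by simp only [Finset.mem_insert, not_or]; exact ⟨hy12.symm, hy2X⟩)
                (Or.inr rfl) (a7 y2 (hind y1 hy1 y2 hy2) (hneu y2 hy2))
              replace c4 := c4 (by rw [a5, ha1, ha2]; linarith)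
              rw [e]
              refine ⟨x2, c1, ?_, Or.inl ⟨c4, ?_⟩, ?_⟩
              · intro z hz; rw [c2 z (by simp [hz]), a2 z hz]
              · rw [c5, a5, ha1, ha2]; linarith
              · rw [c5, c6, a5, a6, ha1, ha2]
                linarith

end Pool.Agent.Exact


end

section

/-!
# The path statement with neutral vertices, second part
-/

set_option autoImplicit false
set_option linter.unusedSectionVars false

namespace Pool.Agent.Exact

open Finset

variable {V : Type*} [Fintype V] [DecidableEq V] {B : V → V → ℤ}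

/-- the values available at a crossing -/
def Cr (B : V → V → ℤ) (R C : Finset V) (Db : ℝ) : Prop :=
  ∀ M K t rQ rP : ℝ, 0 ≤ K → St B (im B) C M K t →
    (∀ v ∈ R, 0 ≤ im B v → ((im B v : ℤ) : ℝ) ≤ rQ) → rQ ≤ K → 0 ≤ rQ →
    (∀ v ∈ R, im B v < 0 → -((im B v : ℤ) : ℝ) ≤ rP) → rP ≤ K → 0 ≤ rP →
    Val B (Db + M + max K ((t + rQ + rP) / 2))

/-- the values available at the end of the path, with bounds `Db` and `β` -/
def En (B : V → V → ℤ) (C : Finset V) (Db β : ℝ) : Prop :=
  ∃ D L : ℝ, 0 ≤ L ∧ D ≤ Db ∧ D + L ≤ β ∧ ∀ M K t : ℝ, 0 ≤ K → St B (im B) C M K t →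
    Val B (D + M + max (max L K) ((L + t) / 2))

lemma En.mono {C : Finset V} {Db β Db' β' : ℝ} (h : En B C Db β) (h1 : Db ≤ Db') (h2 : β ≤ β') :
    En B C Db' β' := by
  obtain ⟨D, L, h3, h4, h5, h6⟩ := h
  exact ⟨D, L, h3, h4.trans h1, h5.trans h2, h6⟩

lemma Cr.mono {R C : Finset V} {Db Db' : ℝ} (h : Cr B R C Db) (h1 : Db ≤ Db') : Cr B R C Db' := by
  intro M K t rQ rP hK hst a1 a2 a3 a4 a5 a6
  exact (h M K t rQ rP hK hst a1 a2 a3 a4 a5 a6).mono (by linarith)

/-- **One run of the path.** -/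
theorem run (hB : ∀ v, B v v = 0) (h0 : ∀ u v, 0 ≤ B u v) (h : V) (R C : Finset V)
    (hR : h ∉ R) (hC : h ∉ C) (hd : Disjoint R C) (hu : insert h (R ∪ C) = univ)
    {x : V → ℤ} (hx : ∀ v, x v = 1 ∨ x v = -1) {Db : ℤ} (hDb : 0 ≤ Db)
    (hP : PathB B (MM B h) x Db R) (hq : 0 < im B h) :
    Cr B R C Db ∨ (0 < im B h + ∑ v ∈ R, im B v * x v ∧ DD B (MM B h) x R ≤ Db ∧
      ∀ M K t : ℝ, 0 ≤ K → St B (im B) C M K t →
        Val B (((DD B (MM B h) x R : ℤ) : ℝ) + M +
          max (max ((im B h + ∑ v ∈ R, im B v * x v : ℤ) : ℝ) K)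
            ((((im B h + ∑ v ∈ R, im B v * x v : ℤ) : ℝ) + t) / 2))) := by
  have hneg : ∀ X : Finset V, ∑ v ∈ X, (- im B v) * x v = - ∑ v ∈ X, im B v * x v := by
    intro X
    rw [← Finset.sum_neg_distrib]
    exact Finset.sum_congr rfl fun v _ => by ring
  rcases lt_or_ge 0 (im B h + ∑ v ∈ R, im B v * x v) with h1 | h1
  · right
    refine ⟨h1, hP.le hDb, ?_⟩
    intro M K t hK hst
    have hC' : C = (insert h R)ᶜ := by
      ext z
      have hz : z ∈ insert h (R ∪ C) := by rw [hu]; exact Finset.mem_univ z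
      simp only [Finset.mem_insert, Finset.mem_union] at hz
      simp only [Finset.mem_compl, Finset.mem_insert, not_or]
      constructor
      · intro h3
        exact ⟨fun e => hC (e ▸ h3), fun h4 => Finset.disjoint_left.1 hd h4 h3⟩
      · rintro ⟨h3, h4⟩
        rcases hz with h5 | h5 | h5
        · exact absurd h5 h3
        · exact absurd h5 h4
        · exact h5
    rw [hC'] at hst
    have h3 := stopSt hB h R hR x hx hK hst
    rw [abs_of_pos (by exact_mod_cast h1)] at h3
    exact h3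
  · left
    intro M K t rQ rP hK hst a1 a2 a3 a4 a5 a6
    have hc : ((im B h : ℤ) : ℝ) ≤ ((∑ v ∈ R, (- im B v) * x v : ℤ) : ℝ) := by
      rw [hneg]
      have : im B h ≤ - ∑ v ∈ R, im B v * x v := by linarith
      exact_mod_cast this
    obtain ⟨P, v, hvP, hPR, hD1, hD2, hc1, hc2⟩ := hP.cross (t := fun v => - im B v) hDb
      ((im B h : ℤ) : ℝ) (by exact_mod_cast hq) hc
    exact crossing_core hB h0 h R C hR hC hd hu hx hvP hPR (by exact_mod_cast hD1)
      (by exact_mod_cast hD2) hc1 hc2 hK hst a1 a2 a3 a4 a5 a6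

/-- the values available if only the last vertex leads to a crossing -/
def CrS (B : V → V → ℤ) (R C : Finset V) (Db D1 : ℝ) : Prop :=
  ∀ M K t r κ : ℝ, 0 ≤ K → St B (im B) C M K t →
    (∀ v ∈ R, im B v < 0 → -((im B v : ℤ) : ℝ) ≤ r) → 0 ≤ r →
    Val B (Db + M + max (max K κ) ((t + r) / 2)) ∨
      Val B (D1 + M + max (max K r) ((t + 2 * r - κ) / 2))

/-- the end of the path with a last vertex `y`; the first kind of values does not use `y` -/
def EnL (B : V → V → ℤ) (a : V → ℤ) (S C : Finset V) (D1 β : ℝ) : Prop :=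
  ∃ y ∈ S, im B y + a y < 0 ∧ 1 ≤ a y ∧ ∃ D L : ℝ, 1 ≤ L ∧ D ≤ D1 ∧ D + a y ≤ D1 + 1 ∧
    D + L + a y + ((im B y : ℤ) : ℝ) ≤ β ∧
    (∀ M K t : ℝ, 0 ≤ K → St B (im B) (insert y C) M K t →
      Val B (D + M + max (max L K) ((L + t) / 2))) ∧
    (∀ M K t : ℝ, 0 ≤ K → St B (im B) C M K t →
      Val B (D + a y + M + max (max |L + ((im B y : ℤ) : ℝ)| K)
        ((|L + ((im B y : ℤ) : ℝ)| + t) / 2)))

lemma EnL.mono {a : V → ℤ} {S C : Finset V} {D1 β D1' β' : ℝ} (h : EnL B a S C D1 β)
    (h1 : D1 ≤ D1') (h2 : β ≤ β') : EnL B a S C D1' β' := by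
  obtain ⟨y, hy, h3, h4, D, L, h5, h6, h6', h7, h8, h9⟩ := h
  exact ⟨y, hy, h3, h4, D, L, h5, h6.trans h1, by linarith, h7.trans h2, h8, h9⟩

lemma CrS.mono {R C : Finset V} {Db D1 Db' D1' : ℝ} (h : CrS B R C Db D1) (h1 : Db ≤ Db')
    (h2 : D1 ≤ D1') : CrS B R C Db' D1' := by
  intro M K t r κ hK hst a1 a2
  rcases h M K t r κ hK hst a1 a2 with h3 | h3
  · exact Or.inl (h3.mono (by linarith))
  · exact Or.inr (h3.mono (by linarith))

/-- with a last vertex there are the values of the last crossing or of the end of the path -/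
lemma EnL.toCr (hB : ∀ v, B v v = 0) {a : V → ℤ} {R S C : Finset V} {D1 β : ℝ}
    (h : EnL B a S C D1 β) (hSR : S ⊆ R) (hd : Disjoint S C) :
    CrS B R C (D1 + 1) D1 ∨ En B C (D1 + 1) β := by
  obtain ⟨y, hy, h3, h4, D, L, h5, h6, hDy, h7, h8, h9⟩ := h
  have hy0 : im B y < 0 := by linarith
  have hy0' : ((im B y : ℤ) : ℝ) < 0 := by exact_mod_cast hy0
  rcases lt_or_ge 0 (L + ((im B y : ℤ) : ℝ)) with h10 | h10
  · right
    refine ⟨D + a y, L + ((im B y : ℤ) : ℝ), h10.le, by linarith, by linarith, ?_⟩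
    intro M K t hK hst
    have := h9 M K t hK hst
    rw [abs_of_pos h10] at this
    exact this
  · left
    intro M K t r κ hK hst hr hr0
    have hyr := hr y (hSR hy) hy0
    rcases le_or_gt (-(L + ((im B y : ℤ) : ℝ))) κ with h11 | h11
    · left
      have h12 := h9 M K t hK hst
      rw [abs_of_nonpos h10] at h12
      refine h12.mono ?_
      have h13 : max (max (-(L + ((im B y : ℤ) : ℝ))) K) ((-(L + ((im B y : ℤ) : ℝ)) + t) / 2) ≤
          max (max K κ) ((t + r) / 2) :=
        max_le_max (max_le (h11.trans (le_max_right _ _)) (le_max_left _ _)) (by linarith)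
      linarith
    · right
      have hyC : Disjoint C {y} := by
        rw [Finset.disjoint_singleton_right]
        exact fun h' => Finset.disjoint_left.1 hd hy h'
      have h12 : St B (im B) {y} 0 (max K r) r :=
        (St.one hB y (K := -((im B y : ℤ) : ℝ)) (by rw [abs_of_neg hy0'])).mono le_rfl
          (hyr.trans (le_max_right _ _)) hyr
      have h14 := St.union (hst.mono le_rfl (le_max_left K r) le_rfl) h12 hyC
      have e : C ∪ {y} = insert y C := by
        ext z; simp only [Finset.mem_union, Finset.mem_singleton, Finset.mem_insert]; tauto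
      rw [e] at h14
      refine (h8 _ _ _ (hK.trans (le_max_left _ _)) h14).mono ?_
      have hL : L ≤ r - κ := by linarith
      have hLr : L ≤ r := by linarith
      have h13 : max (max L (max K r)) ((L + (t + r)) / 2) ≤
          max (max K r) ((t + 2 * r - κ) / 2) :=
        max_le_max (max_le (hLr.trans (le_max_right _ _)) le_rfl) (by linarith)
      linarith

/-- One run of the path whose last vertex is `y`. -/
theorem run_last (hB : ∀ v, B v v = 0) (h0 : ∀ u v, 0 ≤ B u v) (h : V) (R C : Finset V)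
    (hR : h ∉ R) (hC : h ∉ C) (hd : Disjoint R C) (hu : insert h (R ∪ C) = univ)
    {x : V → ℤ} (hx : ∀ v, x v = 1 ∨ x v = -1) {b : ℤ} (hb : 0 ≤ b) {y : V} (hy : y ∈ R)
    (hP : PathB B (MM B h) x b (R.erase y)) (hq : 0 < im B h) :
    Cr B R C b ∨ (0 < im B h + ∑ v ∈ R.erase y, im B v * x v ∧
      (∀ M K t : ℝ, 0 ≤ K → St B (im B) (insert y C) M K t →
        Val B (((DD B (MM B h) x (R.erase y) : ℤ) : ℝ) + M +
          max (max ((im B h + ∑ v ∈ R.erase y, im B v * x v : ℤ) : ℝ) K)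
            ((((im B h + ∑ v ∈ R.erase y, im B v * x v : ℤ) : ℝ) + t) / 2))) ∧
      (∀ M K t : ℝ, 0 ≤ K → St B (im B) C M K t →
        Val B (((DD B (MM B h) x R : ℤ) : ℝ) + M +
          max (max |((im B h + ∑ v ∈ R, im B v * x v : ℤ) : ℝ)| K)
            ((|((im B h + ∑ v ∈ R, im B v * x v : ℤ) : ℝ)| + t) / 2)))) := by
  have hneg : ∀ X : Finset V, ∑ v ∈ X, (- im B v) * x v = - ∑ v ∈ X, im B v * x v := by
    intro X
    rw [← Finset.sum_neg_distrib]
    exact Finset.sum_congr rfl fun v _ => by ring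
  have hC' : C = (insert h R)ᶜ := by
    ext z
    have hz : z ∈ insert h (R ∪ C) := by rw [hu]; exact Finset.mem_univ z
    simp only [Finset.mem_insert, Finset.mem_union] at hz
    simp only [Finset.mem_compl, Finset.mem_insert, not_or]
    constructor
    · intro h3
      exact ⟨fun e => hC (e ▸ h3), fun h4 => Finset.disjoint_left.1 hd h4 h3⟩
    · rintro ⟨h3, h4⟩
      rcases hz with h5 | h5 | h5
      · exact absurd h5 h3
      · exact absurd h5 h4
      · exact h5
  have hyh : y ≠ h := fun e => hR (e ▸ hy)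
  have hC2 : insert y C = (insert h (R.erase y))ᶜ := by
    rw [hC']
    ext z
    simp only [Finset.mem_compl, Finset.mem_insert, not_or, Finset.mem_erase, not_and]
    constructor
    · rintro (rfl | ⟨h3, h4⟩)
      · exact ⟨hyh, fun h5 => absurd rfl h5⟩
      · exact ⟨h3, fun _ => h4⟩
    · rintro ⟨h3, h4⟩
      by_cases hzy : z = y
      · exact Or.inl hzy
      · exact Or.inr ⟨h3, h4 hzy⟩
  rcases lt_or_ge 0 (im B h + ∑ v ∈ R.erase y, im B v * x v) with h1 | h1
  · right
    refine ⟨h1, ?_, ?_⟩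
    · intro M K t hK hst
      rw [hC2] at hst
      have h3 := stopSt hB h (R.erase y) (fun h' => hR (Finset.mem_of_mem_erase h')) x hx hK hst
      rw [abs_of_pos (by exact_mod_cast h1)] at h3
      exact h3
    · intro M K t hK hst
      rw [hC'] at hst
      exact stopSt hB h R hR x hx hK hst
  · left
    intro M K t rQ rP hK hst a1 a2 a3 a4 a5 a6
    have hc : ((im B h : ℤ) : ℝ) ≤ ((∑ v ∈ R.erase y, (- im B v) * x v : ℤ) : ℝ) := by
      rw [hneg]
      have : im B h ≤ - ∑ v ∈ R.erase y, im B v * x v := by linarith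
      exact_mod_cast this
    obtain ⟨P, v, hvP, hPR, hD1, hD2, hc1, hc2⟩ := hP.cross (t := fun v => - im B v) hb
      ((im B h : ℤ) : ℝ) (by exact_mod_cast hq) hc
    exact crossing_core hB h0 h R C hR hC hd hu hx hvP (hPR.trans (Finset.erase_subset _ _))
      (by exact_mod_cast hD1) (by exact_mod_cast hD2) hc1 hc2 hK hst a1 a2 a3 a4 a5 a6

lemma ch_nonneg {a : V → ℤ} (S : Finset V) : 0 ≤ ch a S := by
  unfold ch
  exact Finset.sum_nonneg fun v _ => by split_ifs <;> norm_num

lemma ch_mono {a : V → ℤ} {S T : Finset V} (h : S ⊆ T) : ch a S ≤ ch a T := by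
  unfold ch
  exact Finset.sum_le_sum_of_subset_of_nonneg h fun v _ _ => by split_ifs <;> norm_num

open Classical in
/-- the gain of the harmless neutral vertices -/
noncomputable def Gam (B : V → V → ℤ) (h : V) (S : Finset V) : ℤ :=
  ∑ v ∈ S.filter (Harm (MM B h) (im B)), |MM B h v + im B v|

/-- the end of the path, with or without a last vertex -/
def Out (B : V → V → ℤ) (a : V → ℤ) (S C : Finset V) (D1 β : ℝ) : Prop :=
  En B C D1 β ∨ EnL B a S C D1 β

lemma Out.mono {a : V → ℤ} {S C : Finset V} {D1 β D1' β' : ℝ} (h : Out B a S C D1 β)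
    (h1 : D1 ≤ D1') (h2 : β ≤ β') : Out B a S C D1' β' := by
  rcases h with h | h
  · exact Or.inl (h.mono h1 h2)
  · exact Or.inr (h.mono h1 h2)

lemma exists_sign_abs (L w : ℝ) : ∃ τ : ℤ, (τ = 1 ∨ τ = -1) ∧ |L + w * τ| = |(|L| - |w|)| := by
  rcases le_total 0 L with h1 | h1 <;> rcases le_total 0 w with h2 | h2
  · exact ⟨-1, Or.inr rfl, by
      rw [abs_of_nonneg h1, abs_of_nonneg h2]
      push_cast
      rw [show L + w * -1 = L - w by ring]⟩
  · exact ⟨1, Or.inl rfl, by
      rw [abs_of_nonneg h1, abs_of_nonpos h2]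
      push_cast
      rw [show L + w * 1 = L - -w by ring]⟩
  · exact ⟨1, Or.inl rfl, by
      rw [abs_of_nonpos h1, abs_of_nonneg h2]
      push_cast
      rw [show L + w * 1 = -(-L - w) by ring, abs_neg]⟩
  · exact ⟨-1, Or.inr rfl, by
      rw [abs_of_nonpos h1, abs_of_nonpos h2]
      push_cast
      rw [show L + w * -1 = -(-L - -w) by ring, abs_neg]⟩

/-- placing a set `F` of neutral vertices with sign `+` -/
theorem placeF {W : Type*} [DecidableEq W] {B : W → W → ℤ} {a : W → ℤ} (hB : ∀ v, B v v = 0)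
    (ha : ∀ v, 0 ≤ a v) {b : ℤ} {X F : Finset W} {x : W → ℤ} (hx : ∀ v, x v = 1 ∨ x v = -1)
    (hP : PathB B a x b X) (hd : Disjoint X F) (hn : ∀ v ∈ F, ∑ u ∈ X, MM B u v * x u = 0)
    (hi : ∀ u ∈ F, ∀ v ∈ F, MM B u v = 0) (hD : DD B a x X + ∑ v ∈ F, a v ≤ b) :
    ∃ x' : W → ℤ, (∀ v, x' v = 1 ∨ x' v = -1) ∧ (∀ v ∈ X, x' v = x v) ∧ (∀ v ∈ F, x' v = 1) ∧
      PathB B a x' b (X ∪ F) ∧ DD B a x' (X ∪ F) = DD B a x X + ∑ v ∈ F, a v := by
  classical
  set x' : W → ℤ := fun u => if u ∈ F then 1 else x u with hx'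
  have h1 : ∀ v ∈ X, x' v = x v := by
    intro v hv
    have : v ∉ F := Finset.disjoint_left.1 hd hv
    simp [hx', this]
  have h2 : ∀ v ∈ F, x' v = 1 := by
    intro v hv
    simp [hx', hv]
  refine ⟨x', ?_, h1, h2, ?_⟩
  · intro v
    simp only [hx']
    split_ifs
    · left; rfl
    · exact hx v
  have key : ∀ T : Finset W, T ⊆ F → PathB B a x' b (X ∪ T) ∧
      DD B a x' (X ∪ T) = DD B a x X + ∑ v ∈ T, a v := by
    intro T
    induction T using Finset.induction_on with
    | empty =>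
      intro _
      rw [Finset.union_empty, Finset.sum_empty, add_zero]
      exact ⟨hP.congr fun u hu => (h1 u hu).symm, DD_congr h1⟩
    | insert v T hv ih =>
      intro hT
      obtain ⟨h3, h4⟩ := ih ((Finset.subset_insert _ _).trans hT)
      have hvF : v ∈ F := hT (Finset.mem_insert_self _ _)
      have hvX : v ∉ X ∪ T := by
        simp only [Finset.mem_union, not_or]
        exact ⟨Finset.disjoint_right.1 hd hvF, hv⟩
      have hdT : Disjoint X T := Finset.disjoint_of_subset_right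
        ((Finset.subset_insert _ _).trans hT) hd
      have h5 : ∑ u ∈ X ∪ T, MM B u v * x' u = 0 := by
        rw [Finset.sum_union hdT]
        have h6 : ∑ u ∈ X, MM B u v * x' u = 0 := by
          rw [← hn v hvF]
          exact Finset.sum_congr rfl fun u hu => by rw [h1 u hu]
        have h7 : ∑ u ∈ T, MM B u v * x' u = 0 := by
          refine Finset.sum_eq_zero fun u hu => ?_
          rw [hi u (hT (Finset.mem_insert_of_mem hu)) v hvF, zero_mul]
        rw [h6, h7, add_zero]
      have h8 := DD_place (a := a) hB hvX (x := x') (x' := x') (fun _ _ => rfl) h5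
      have h9 : DD B a x' (insert v (X ∪ T)) = DD B a x X + ∑ w ∈ insert v T, a w := by
        rw [h8, h4, h2 v hvF, Finset.sum_insert hv]
        ring
      rw [Finset.union_insert]
      refine ⟨PathB.step (X ∪ T) v h3 hvX ?_, h9⟩
      rw [h9]
      refine le_trans ?_ hD
      have : ∑ w ∈ insert v T, a w ≤ ∑ w ∈ F, a w :=
        Finset.sum_le_sum_of_subset_of_nonneg hT fun w _ _ => ha w
      linarith
  exact key F (Finset.Subset.refl _)

/-- **Path statement with neutral vertices.** -/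
theorem path_neutralF (h0 : ∀ u v, 0 ≤ B u v) (h1 : ∀ u v, B u v ≤ 1) (hB : ∀ v, B v v = 0)
    (h : V) (hq : 0 < im B h) {Rs S C : Finset V} {g : ℤ} (hbl : BlocksN B S Rs g)
    (hdS : Disjoint Rs S) (hind : ∀ u ∈ S, ∀ v ∈ S, MM B u v = 0)
    (hhR : h ∉ Rs ∪ S) (hC : h ∉ C) (hd : Disjoint (Rs ∪ S) C)
    (hu : insert h ((Rs ∪ S) ∪ C) = univ) {cR e : ℤ} (hcR : ch (MM B h) (Rs ∪ S) ≤ cR)
    (he1 : e ≤ 1) (he : Rs = ∅ → e ≤ 0) :
    ∃ Y nb : ℤ, (0 ≤ Y ∧ (Rs = ∅ → Y = 0)) ∧ 0 ≤ nb ∧ e ≤ nb ∧ (Rs.Nonempty → 1 ≤ nb) ∧ (Rs.card : ℤ) ≤ g + nb ∧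
      (∀ S0 ⊆ S, ∀ y0 M K t : ℝ, 0 ≤ K → 0 ≤ y0 → (∀ v ∈ S0, |((im B v : ℤ) : ℝ)| ≤ y0) →
        St B (im B) (univ \ (Rs ∪ S0)) M K t →
        Val B (-(g : ℝ) + M + max (max (max ((Y : ℝ) - ∑ v ∈ S0, |((im B v : ℤ) : ℝ)|) y0) K)
          ((max ((Y : ℝ) - ∑ v ∈ S0, |((im B v : ℤ) : ℝ)|) y0 + t) / 2))) ∧
      (∀ F ⊆ S, (∀ v ∈ F, im B v + MM B h v < 0 ∧ 1 ≤ MM B h v) →
        Cr B (Rs ∪ S) C ((max (max 0 (cR - e)) (cR - nb + F.card) : ℤ) : ℝ) ∨
        (Out B (MM B h) S C ((cR - nb + F.card : ℤ) : ℝ)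
            ((im B h - g - Gam B h S + ∑ v ∈ F, (MM B h v + im B v) : ℤ) : ℝ) ∧
          Out B (MM B h) S C ((cR - nb + F.card : ℤ) : ℝ)
            ((cR - nb + im B h - Y + ∑ v ∈ F, (MM B h v + im B v) : ℤ) : ℝ))) ∧
      (Cr B (Rs ∪ S) C ((max 0 (cR - e) : ℤ) : ℝ) ∨
        (Out B (MM B h) S C ((cR - nb : ℤ) : ℝ) ((im B h - g - Gam B h S : ℤ) : ℝ) ∧
          Out B (MM B h) S C ((cR - nb : ℤ) : ℝ) ((cR - nb + im B h - Y : ℤ) : ℝ) ∧
          (∀ v ∈ S, 0 ≤ im B v →
            Out B (MM B h) S C ((cR - nb : ℤ) : ℝ)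
              ((cR - nb + im B h - Y - |im B v| : ℤ) : ℝ)) ∧
          (e + 1 ≤ nb → ∀ v ∈ S,
            Out B (MM B h) S C ((cR - nb + 1 : ℤ) : ℝ)
              ((cR - nb + 1 + im B h - Y - |im B v| : ℤ) : ℝ)))) := by
  classical
  have ha : ∀ v, 0 ≤ MM B h v ∧ MM B h v ≤ 2 := fun v => MM_range h0 h1 h v
  have hGamS : Gam B h S = ∑ v ∈ S.filter (Harm (MM B h) (im B)), |MM B h v + im B v| := by
    unfold Gam
    congr
  rw [hGamS]
  set a := MM B h with hadef
  obtain ⟨x0, nb, hx0, hq0, hg0, hg0', hneu, hcard, hnb0, hnb1, hDD, hDD'⟩ :=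
    hbl.realise2 h0 hB ha
  have hnbe : e ≤ nb := by
    rcases Rs.eq_empty_or_nonempty with h3 | h3
    · exact (he h3).trans hnb0
    · exact he1.trans (hnb1 h3)
  set b : ℤ := max 0 (cR - e) with hbdef
  have hb0 : 0 ≤ b := le_max_left _ _
  have hb1 : cR - e ≤ b := le_max_right _ _
  have hchU : ch a (Rs ∪ S) = ch a Rs + ch a S := ch_union hdS
  have hchS0 : 0 ≤ ch a S := ch_nonneg _
  have hchRs : ch a Rs ≤ cR := by linarith
  -- both signs
  have both : ∀ f : V → ℤ, ∃ x : V → ℤ, (∀ v, x v = 1 ∨ x v = -1) ∧ Qd B Rs x ≤ -g ∧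
      GoodE B a x 1 Rs ∧ (∀ z ∈ S, ∑ u ∈ Rs, MM B u z * x u = 0) ∧
      DD B a x Rs ≤ ch a Rs - nb ∧ ∑ v ∈ Rs, f v * x v ≤ 0 := by
    intro f
    rcases le_total (∑ v ∈ Rs, f v * x0 v) 0 with h3 | h3
    · exact ⟨x0, hx0, hq0, hg0, hneu, hDD, h3⟩
    · refine ⟨fun v => - x0 v, ?_, ?_, hg0', ?_, hDD', ?_⟩
      · intro v
        rcases hx0 v with h | h <;> simp [h]
      · rw [Qd_neg]; exact hq0
      · intro z hz
        have : ∑ u ∈ Rs, MM B u z * - x0 u = - ∑ u ∈ Rs, MM B u z * x0 u := by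
          rw [← Finset.sum_neg_distrib]
          exact Finset.sum_congr rfl fun v _ => by ring
        rw [this, hneu z hz, neg_zero]
      · have : ∑ v ∈ Rs, f v * - x0 v = - ∑ v ∈ Rs, f v * x0 v := by
          rw [← Finset.sum_neg_distrib]
          exact Finset.sum_congr rfl fun v _ => by ring
        rw [this]; linarith
  -- a good path as a `PathB`
  have toP : ∀ x : V → ℤ, GoodE B a x 1 Rs → PathB B a x b Rs := by
    intro x hx
    refine hx.toPathB fun P hP _ => ?_
    have := ch_mono (a := a) hP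
    linarith
  have chS : ∀ v ∈ S, (if a v = 1 then 0 else 1) ≤ ch a S := by
    intro v hv
    unfold ch
    exact Finset.single_le_sum (f := fun v => if a v = 1 then (0 : ℤ) else 1)
      (fun i _ => by split_ifs <;> norm_num) hv
  have hGam0 : ∀ T : Finset V, 0 ≤ ∑ v ∈ T.filter (Harm a (im B)), |a v + im B v| :=
    fun T => Finset.sum_nonneg fun v _ => abs_nonneg _
  -- the general run after `X`
  have go : ∀ (b : ℤ), 0 ≤ b → ∀ (X T : Finset V) (x : V → ℤ) (Df : ℤ),
      (∀ v, x v = 1 ∨ x v = -1) →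
      PathB B a x b X → Disjoint X T → X ∪ T = Rs ∪ S → T ⊆ S → DD B a x X ≤ b →
      (∀ v ∈ T, a v = 2 → DD B a x X + 1 ≤ b) → (∀ z ∈ T, ∑ u ∈ X, MM B u z * x u = 0) →
      DD B a x X + ch a T ≤ Df →
      Cr B (Rs ∪ S) C (b : ℝ) ∨
        Out B a S C (Df : ℝ) ((DD B a x X + ∑ v ∈ X, im B v * x v + im B h -
        ∑ v ∈ T.filter (Harm a (im B)), |a v + im B v| : ℤ) : ℝ) := by
    intro b hb0 X T x Df hx hP hdX hXT hTS hD1 hD2 hn hDf
    obtain ⟨x', b1, b2, b3, b4⟩ := place hB ha (im B) (b := b) T.card T X x rfl hx hP hdX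
      hD1 hD2 hn (fun u hu v hv => hind u (hTS hu) v (hTS hv))
    rw [hXT] at b3 b4
    have hfin : DD B a x' (Rs ∪ S) + (im B h + ∑ v ∈ Rs ∪ S, im B v * x' v) ≤
            DD B a x X + ∑ v ∈ X, im B v * x v + im B h -
              ∑ v ∈ T.filter (Harm a (im B)), |a v + im B v| := by linarith
    rcases b3 with ⟨b3, b5⟩ | ⟨y, hyT, c1, c2, c3, c4, c5, c6⟩
    · have hle : DD B a x' (Rs ∪ S) ≤ Df := by linarith
      rcases run hB h0 h (Rs ∪ S) C hhR hC hd hu b1 hb0 b3 hq with h3 | ⟨h3, h4, h5⟩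
      · exact Or.inl h3
      · right; left
        refine ⟨_, _, ?_, ?_, ?_, h5⟩
        · exact_mod_cast h3.le
        · exact_mod_cast hle
        · exact_mod_cast hfin
    · have hyR : y ∈ Rs ∪ S := by rw [Finset.mem_union]; right; exact hTS hyT
      have hyS : y ∈ S := hTS hyT
      have hchT : a y ≤ 1 + ch a T := by
        have h3 := ch_bounds ha y
        have h4 : (if a y = 1 then 0 else 1) ≤ ch a T := by
          unfold ch
          exact Finset.single_le_sum (f := fun v => if a v = 1 then (0 : ℤ) else 1)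
            (fun i _ => by split_ifs <;> norm_num) hyT
        linarith [h3.2]
      have hcT0 : 0 ≤ ch a T := ch_nonneg _
      rcases run_last hB h0 h (Rs ∪ S) C hhR hC hd hu b1 hb0 hyR c1 hq with
        h3 | ⟨h3, h4, h5⟩
      · exact Or.inl h3
      · right; right
        have hsum : ∑ v ∈ Rs ∪ S, im B v * x' v = im B y +
            ∑ v ∈ (Rs ∪ S).erase y, im B v * x' v := by
          rw [← Finset.add_sum_erase _ _ hyR, c6, mul_one]
        refine ⟨y, hyS, c2, c3, ((DD B a x' ((Rs ∪ S).erase y) : ℤ) : ℝ),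
          ((im B h + ∑ v ∈ (Rs ∪ S).erase y, im B v * x' v : ℤ) : ℝ), ?_, ?_, ?_, ?_, h4, ?_⟩
        · exact_mod_cast h3
        · have : DD B a x' ((Rs ∪ S).erase y) ≤ Df := by linarith
          exact_mod_cast this
        · have : DD B a x' ((Rs ∪ S).erase y) + a y ≤ Df + 1 := by linarith
          exact_mod_cast this
        · have : DD B a x' ((Rs ∪ S).erase y) + (im B h + ∑ v ∈ (Rs ∪ S).erase y,
              im B v * x' v) + a y + im B y ≤ DD B a x X + ∑ v ∈ X, im B v * x v + im B h -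
              ∑ v ∈ T.filter (Harm a (im B)), |a v + im B v| := by
            rw [hsum] at hfin
            linarith
          exact_mod_cast this
        · intro M K t hK hst
          have h6 := h5 M K t hK hst
          have e1 : ((DD B (MM B h) x' (Rs ∪ S) : ℤ) : ℝ) =
              ((DD B a x' ((Rs ∪ S).erase y) : ℤ) : ℝ) + (a y : ℝ) := by
            rw [← hadef, c4]; push_cast; ring
          have e2 : ((im B h + ∑ v ∈ Rs ∪ S, im B v * x' v : ℤ) : ℝ) =
              ((im B h + ∑ v ∈ (Rs ∪ S).erase y, im B v * x' v : ℤ) : ℝ) +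
                ((im B y : ℤ) : ℝ) := by
            rw [hsum]; push_cast; ring
          rw [e1, e2] at h6
          exact h6
  have go0 : ∀ x : V → ℤ, (∀ v, x v = 1 ∨ x v = -1) → GoodE B a x 1 Rs →
      (∀ z ∈ S, ∑ u ∈ Rs, MM B u z * x u = 0) → DD B a x Rs ≤ ch a Rs - nb →
      Cr B (Rs ∪ S) C (b : ℝ) ∨
        Out B a S C ((cR - nb : ℤ) : ℝ) ((DD B a x Rs + ∑ v ∈ Rs, im B v * x v + im B h -
        ∑ v ∈ S.filter (Harm a (im B)), |a v + im B v| : ℤ) : ℝ) := by
    intro x hx hg hn hD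
    refine go b hb0 Rs S x (cR - nb) hx (toP x hg) hdS rfl (Finset.Subset.refl _) (by linarith) ?_ hn
      (by linarith)
    intro v hv h2
    have := chS v hv
    rw [h2] at this
    norm_num at this
    linarith
  -- first sign
  obtain ⟨x1, hx1, hq1, hg1, hn1, hD1, hs1⟩ := both fun v => a v + im B v
  have hx1e : DD B a x1 Rs + ∑ v ∈ Rs, im B v * x1 v =
      Qd B Rs x1 + ∑ v ∈ Rs, (a v + im B v) * x1 v := by
    unfold DD
    rw [add_comm (∑ v ∈ Rs, a v * x1 v), add_assoc, ← Finset.sum_add_distrib]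
    congr 1
    exact Finset.sum_congr rfl fun v _ => by ring
  -- second sign
  obtain ⟨x, hx, hqx, hgx, hnx, hDx, hsx⟩ := both (im B)
  set Y : ℤ := - ∑ v ∈ Rs, im B v * x v with hY
  have hY0 : 0 ≤ Y := by rw [hY]; linarith
  have hYe : Rs = ∅ → Y = 0 := by
    intro h3
    rw [hY, h3]
    simp
  refine ⟨Y, nb, ⟨hY0, hYe⟩, hnb0, hnbe, hnb1, hcard, ?_, ?_, ?_⟩
  · -- T2
    intro S0 hS0 y0 M K t hK hy0 hy hst
    -- signs for `S0`
    have key : ∀ T : Finset V, T ⊆ S0 → ∃ z : V → ℤ, (∀ v, z v = 1 ∨ z v = -1) ∧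
        (∀ v ∈ Rs, z v = x v) ∧
        |((∑ v ∈ Rs ∪ T, im B v * z v : ℤ) : ℝ)| ≤
          max ((Y : ℝ) - ∑ v ∈ T, |((im B v : ℤ) : ℝ)|) y0 := by
      intro T
      induction T using Finset.induction_on with
      | empty =>
        intro _
        refine ⟨x, hx, fun _ _ => rfl, ?_⟩
        rw [Finset.union_empty, Finset.sum_empty, sub_zero]
        refine le_trans (le_of_eq ?_) (le_max_left _ _)
        rw [hY]
        push_cast
        rw [abs_of_nonpos]
        have : ((∑ v ∈ Rs, im B v * x v : ℤ) : ℝ) ≤ 0 := by exact_mod_cast hsx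
        push_cast at this
        exact this
      | insert v T hv ih =>
        intro hT
        obtain ⟨z, hz, hzx, hzb⟩ := ih ((Finset.subset_insert _ _).trans hT)
        have hvS0 : v ∈ S0 := hT (Finset.mem_insert_self _ _)
        have hvRs : v ∉ Rs := Finset.disjoint_right.1 hdS (hS0 hvS0)
        have hvU : v ∉ Rs ∪ T := by
          simp only [Finset.mem_union, not_or]; exact ⟨hvRs, hv⟩
        have hvy := hy v hvS0
        set L : ℝ := ((∑ v ∈ Rs ∪ T, im B v * z v : ℤ) : ℝ) with hL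
        -- choose the sign
        obtain ⟨τ, hτ, hτL⟩ := exists_sign_abs L ((im B v : ℤ) : ℝ)
        refine ⟨fun u => if u = v then τ else z u, ?_, ?_, ?_⟩
        · intro u
          dsimp only
          split_ifs
          · exact hτ
          · exact hz u
        · intro u hu'
          have : u ≠ v := fun e => hvRs (e ▸ hu')
          simp only [this, if_false]
          exact hzx u hu'
        · have e1 : Rs ∪ insert v T = insert v (Rs ∪ T) := by rw [Finset.union_insert]
          rw [e1, Finset.sum_insert hvU]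
          simp only [if_true]
          have e2 : ∑ u ∈ Rs ∪ T, im B u * (if u = v then τ else z u) =
              ∑ u ∈ Rs ∪ T, im B u * z u := by
            refine Finset.sum_congr rfl fun u hu' => ?_
            have : u ≠ v := fun e => hvU (e ▸ hu')
            simp only [this, if_false]
          rw [e2]
          have e3 : ((im B v * τ + ∑ u ∈ Rs ∪ T, im B u * z u : ℤ) : ℝ) =
              L + ((im B v : ℤ) : ℝ) * τ := by
            rw [hL]; push_cast; ring
          rw [e3, hτL, Finset.sum_insert hv]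
          have hw0 : 0 ≤ |((im B v : ℤ) : ℝ)| := abs_nonneg _
          have hL0 : 0 ≤ |L| := abs_nonneg _
          rw [abs_le]
          rcases le_max_iff.1 hzb with h3 | h3
          · have m1 := le_max_left ((Y : ℝ) - (|((im B v : ℤ) : ℝ)| +
              ∑ v ∈ T, |((im B v : ℤ) : ℝ)|)) y0
            have m2 := le_max_right ((Y : ℝ) - (|((im B v : ℤ) : ℝ)| +
              ∑ v ∈ T, |((im B v : ℤ) : ℝ)|)) y0
            constructor <;> linarith
          · have m2 := le_max_right ((Y : ℝ) - (|((im B v : ℤ) : ℝ)| +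
              ∑ v ∈ T, |((im B v : ℤ) : ℝ)|)) y0
            constructor <;> linarith
    obtain ⟨z, hz, hzx, hzb⟩ := key S0 (Finset.Subset.refl _)
    have hdS0 : Disjoint Rs S0 := Finset.disjoint_of_subset_right hS0 hdS
    rw [← Finset.compl_eq_univ_sdiff] at hst
    have h3 := extendSt (Rs ∪ S0) z hz hK hst
    have h4 : Qd B (Rs ∪ S0) z ≤ -g := by
      rw [Qd_union hdS0, Qd_congr hzx,
        Qd_indep h0 (fun l hl l' hl' => hind l (hS0 hl) l' (hS0 hl'))]
      have : Int B Rs S0 z = 0 := by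
        rw [Int_sum_right]
        refine Finset.sum_eq_zero fun w hw => ?_
        unfold Int
        simp only [Finset.sum_singleton]
        have : ∑ u ∈ Rs, MM B u w * (z u * z w) = (∑ u ∈ Rs, MM B u w * x u) * z w := by
          rw [Finset.sum_mul]
          exact Finset.sum_congr rfl fun u hu' => by rw [hzx u hu']; ring
        rw [this, hnx w (hS0 hw), zero_mul]
      rw [this]
      linarith
    have h4' : ((Qd B (Rs ∪ S0) z : ℤ) : ℝ) ≤ -(g : ℝ) := by exact_mod_cast h4
    refine h3.mono ?_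
    set L : ℝ := |((∑ v ∈ Rs ∪ S0, im B v * z v : ℤ) : ℝ)| with hL
    have h5 : max (max L K) ((L + t) / 2) ≤
        max (max (max ((Y : ℝ) - ∑ v ∈ S0, |((im B v : ℤ) : ℝ)|) y0) K)
          ((max ((Y : ℝ) - ∑ v ∈ S0, |((im B v : ℤ) : ℝ)|) y0 + t) / 2) :=
      max_le_max (max_le_max hzb le_rfl) (by linarith)
    linarith
  · -- budget
    intro F hFS hF
    have hdF : Disjoint Rs F := Finset.disjoint_of_subset_right hFS hdS
    set b' : ℤ := max b (cR - nb + F.card) with hb'
    have hb'0 : 0 ≤ b' := hb0.trans (le_max_left _ _)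
    have hb'1 : cR - nb + F.card ≤ b' := le_max_right _ _
    have hsub : S \ F ⊆ S := Finset.sdiff_subset
    have hchF : ∑ v ∈ F, a v + ch a (S \ F) ≤ F.card + ch a S := by
      have h3 : ch a S = ch a (S \ F) + ch a F := by
        unfold ch
        rw [Finset.sum_sdiff hFS]
      have h4 : ∑ v ∈ F, a v ≤ ∑ v ∈ F, (1 + if a v = 1 then (0 : ℤ) else 1) := by
        refine Finset.sum_le_sum fun v _ => ?_
        have := ch_bounds ha v
        linarith [this.2]
      rw [Finset.sum_add_distrib, Finset.sum_const, nsmul_eq_mul, mul_one] at h4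
      unfold ch at *
      linarith
    have hchSF : 0 ≤ ch a (S \ F) := ch_nonneg _
    have hGF : ∑ v ∈ (S \ F).filter (Harm a (im B)), |a v + im B v| =
        ∑ v ∈ S.filter (Harm a (im B)), |a v + im B v| := by
      congr 1
      ext v
      simp only [Finset.mem_filter, Finset.mem_sdiff]
      constructor
      · rintro ⟨⟨h3, _⟩, h4⟩; exact ⟨h3, h4⟩
      · rintro ⟨h3, h4⟩
        refine ⟨⟨h3, fun h5 => ?_⟩, h4⟩
        have h6 := hF v h5
        rcases h4 with h7 | h7
        · linarith [h6.1]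
        · linarith [h6.2]
    -- the run after `Rs ∪ F`
    have goF : ∀ x : V → ℤ, (∀ v, x v = 1 ∨ x v = -1) → GoodE B a x 1 Rs →
        (∀ z ∈ S, ∑ u ∈ Rs, MM B u z * x u = 0) → DD B a x Rs ≤ ch a Rs - nb →
        Cr B (Rs ∪ S) C (b' : ℝ) ∨
          Out B a S C ((cR - nb + F.card : ℤ) : ℝ) ((DD B a x Rs + ∑ v ∈ Rs, im B v * x v +
            im B h + ∑ v ∈ F, (a v + im B v) -
            ∑ v ∈ S.filter (Harm a (im B)), |a v + im B v| : ℤ) : ℝ) := by
      intro x hx hg hn hD
      have hP' : PathB B a x b' Rs := by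
        refine hg.toPathB fun P hP _ => ?_
        have := ch_mono (a := a) hP
        have := le_max_left b (cR - nb + F.card)
        linarith
      obtain ⟨x', c1, c2, c3, c4, c5⟩ := placeF hB (fun v => (ha v).1) hx hP' hdF
        (fun v hv => hn v (hFS hv)) (fun u hu v hv => hind u (hFS hu) v (hFS hv))
        (by linarith)
      have e : (Rs ∪ F) ∪ (S \ F) = Rs ∪ S := by
        rw [Finset.union_assoc, Finset.union_sdiff_of_subset hFS]
      have e3 : ∑ u ∈ Rs ∪ F, im B u * x' u = ∑ u ∈ Rs, im B u * x u + ∑ u ∈ F, im B u := by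
        rw [Finset.sum_union hdF]
        congr 1
        · exact Finset.sum_congr rfl fun w hw => by rw [c2 w hw]
        · exact Finset.sum_congr rfl fun w hw => by rw [c3 w hw, mul_one]
      have h3 := go b' hb'0 (Rs ∪ F) (S \ F) x' (cR - nb + F.card) c1 c4
        (by
          rw [Finset.disjoint_union_left]
          exact ⟨Finset.disjoint_of_subset_right hsub hdS, Finset.disjoint_sdiff⟩) e hsub
        (by rw [c5]; linarith)
        (fun u hu' h2 => by
          have h4 : (if a u = 1 then 0 else 1) ≤ ch a (S \ F) := by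
            unfold ch
            exact Finset.single_le_sum (f := fun v => if a v = 1 then (0 : ℤ) else 1)
              (fun i _ => by split_ifs <;> norm_num) hu'
          rw [h2] at h4
          norm_num at h4
          rw [c5]
          linarith)
        (fun u hu' => by
          rw [Finset.sum_union hdF]
          have h6 : ∑ w ∈ Rs, MM B w u * x' w = 0 := by
            rw [← hn u (hsub hu')]
            exact Finset.sum_congr rfl fun w hw => by rw [c2 w hw]
          have h7 : ∑ w ∈ F, MM B w u * x' w = 0 := by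
            refine Finset.sum_eq_zero fun w hw => ?_
            rw [hind w (hFS hw) u (hsub hu'), zero_mul]
          rw [h6, h7, add_zero])
        (by rw [c5]; linarith)
      rcases h3 with h3 | h3
      · exact Or.inl h3
      · right
        refine h3.mono le_rfl ?_
        rw [e3, c5, hGF]
        have : DD B a x Rs + ∑ v ∈ F, a v + (∑ u ∈ Rs, im B u * x u + ∑ u ∈ F, im B u) +
            im B h - ∑ v ∈ S.filter (Harm a (im B)), |a v + im B v| ≤
            DD B a x Rs + ∑ v ∈ Rs, im B v * x v + im B h + ∑ v ∈ F, (a v + im B v) -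
              ∑ v ∈ S.filter (Harm a (im B)), |a v + im B v| := by
          rw [Finset.sum_add_distrib]
          linarith
        exact_mod_cast this
    by_cases hcr : Cr B (Rs ∪ S) C (b' : ℝ)
    · exact Or.inl hcr
    right
    have E1 := (goF x1 hx1 hg1 hn1 hD1).resolve_left hcr
    have E2 := (goF x hx hgx hnx hDx).resolve_left hcr
    have hGS := hGam0 S
    refine ⟨?_, ?_⟩
    · refine E1.mono le_rfl ?_
      have h4 : DD B a x1 Rs + ∑ v ∈ Rs, im B v * x1 v + im B h + ∑ v ∈ F, (a v + im B v) -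
        ∑ v ∈ S.filter (Harm a (im B)), |a v + im B v| ≤
        im B h - g - ∑ v ∈ S.filter (Harm a (im B)), |a v + im B v| +
          ∑ v ∈ F, (a v + im B v) := by
        rw [hx1e]; linarith
      exact_mod_cast h4
    · refine E2.mono le_rfl ?_
      have : DD B a x Rs + ∑ v ∈ Rs, im B v * x v + im B h + ∑ v ∈ F, (a v + im B v) -
          ∑ v ∈ S.filter (Harm a (im B)), |a v + im B v| ≤
          cR - nb + im B h - Y + ∑ v ∈ F, (a v + im B v) := by
        linarith
      exact_mod_cast this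
  · -- T1
    by_cases hcr : Cr B (Rs ∪ S) C (b : ℝ)
    · exact Or.inl hcr
    right
    have E1 := (go0 x1 hx1 hg1 hn1 hD1).resolve_left hcr
    have E2 := (go0 x hx hgx hnx hDx).resolve_left hcr
    have hGS := hGam0 S
    refine ⟨?_, ?_, ?_, ?_⟩
    · refine E1.mono le_rfl ?_
      have h4 : DD B a x1 Rs + ∑ v ∈ Rs, im B v * x1 v + im B h -
        ∑ v ∈ S.filter (Harm a (im B)), |a v + im B v| ≤
        im B h - g - ∑ v ∈ S.filter (Harm a (im B)), |a v + im B v| := by
        rw [hx1e]; linarith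
      exact_mod_cast h4
    · refine E2.mono le_rfl ?_
      have : DD B a x Rs + ∑ v ∈ Rs, im B v * x v + im B h -
          ∑ v ∈ S.filter (Harm a (im B)), |a v + im B v| ≤ cR - nb + im B h - Y := by
        linarith
      exact_mod_cast this
    · intro v hv hv0
      -- `v` is placed first, with sign `-`
      have hvRs : v ∉ Rs := Finset.disjoint_right.1 hdS hv
      set x1 : V → ℤ := fun u => if u = v then -1 else x u with hx1def
      have hxv : x1 v = -1 := by simp [hx1def]
      have hxR : ∀ u ∈ Rs, x1 u = x u := by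
        intro u hu'
        have : u ≠ v := fun e => hvRs (e ▸ hu')
        simp [hx1def, this]
      have hx1 : ∀ u, x1 u = 1 ∨ x1 u = -1 := by
        intro u
        simp only [hx1def]
        split_ifs
        · right; rfl
        · exact hx u
      have hDv : DD B a x1 (insert v Rs) = DD B a x Rs + a v * x1 v :=
        DD_place hB hvRs hxR (hnx v hv)
      have hav := ha v
      have hPv : PathB B a x1 b (insert v Rs) := by
        refine PathB.step Rs v ((toP x hgx).congr fun u hu' => (hxR u hu').symm) hvRs ?_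
        rw [hDv, hxv]
        linarith
      have hsub : S.erase v ⊆ S := Finset.erase_subset _ _
      have hchv : ch a S = (if a v = 1 then 0 else 1) + ch a (S.erase v) := by
        unfold ch
        rw [Finset.add_sum_erase S (fun v => if a v = 1 then (0 : ℤ) else 1) hv]
      have hcv0 : (0 : ℤ) ≤ (if a v = 1 then 0 else 1) := by split_ifs <;> norm_num
      have e : insert v Rs ∪ S.erase v = Rs ∪ S := by
        ext z
        simp only [Finset.mem_union, Finset.mem_insert, Finset.mem_erase]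
        by_cases hz : z = v
        · subst hz; simp [hv]
        · simp [hz]
      have e3 : ∑ u ∈ insert v Rs, im B u * x1 u = - im B v + ∑ u ∈ Rs, im B u * x u := by
        rw [Finset.sum_insert hvRs, hxv]
        congr 1
        · ring
        · exact Finset.sum_congr rfl fun w hw => by rw [hxR w hw]
      have hG := hGam0 (S.erase v)
      have h3 := go b hb0 (insert v Rs) (S.erase v) x1 (cR - nb) hx1 hPv
        (by
          rw [Finset.disjoint_insert_left]
          exact ⟨Finset.notMem_erase _ _, Finset.disjoint_of_subset_right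
            (Finset.erase_subset _ _) hdS⟩) e hsub
        (by rw [hDv, hxv]; linarith)
        (fun u hu' h2 => by
          have := chS u (hsub hu')
          rw [h2] at this
          norm_num at this
          rw [hDv, hxv]
          linarith)
        (fun u hu' => by
          rw [Finset.sum_insert hvRs, hind v hv u (hsub hu'), zero_mul, zero_add,
            ← hnx u (hsub hu')]
          exact Finset.sum_congr rfl fun w hw => by rw [hxR w hw])
        (by rw [hDv, hxv]; linarith)
      refine (h3.resolve_left hcr).mono le_rfl ?_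
      rw [e3, hDv, hxv]
      have : DD B a x Rs + a v * -1 + (-im B v + ∑ u ∈ Rs, im B u * x u) + im B h -
          ∑ v ∈ (S.erase v).filter (Harm a (im B)), |a v + im B v| ≤
          cR - nb + im B h - Y - |im B v| := by
        rw [abs_of_nonneg hv0]
        linarith
      exact_mod_cast this
    · intro hnb2 v hv
      have hvRs : v ∉ Rs := Finset.disjoint_right.1 hdS hv
      obtain ⟨τ, hτ, hτv⟩ : ∃ τ : ℤ, (τ = 1 ∨ τ = -1) ∧ im B v * τ = - |im B v| := by
        rcases le_total 0 (im B v) with h3 | h3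
        · exact ⟨-1, Or.inr rfl, by rw [abs_of_nonneg h3]; ring⟩
        · exact ⟨1, Or.inl rfl, by rw [abs_of_nonpos h3]; ring⟩
      set x1 : V → ℤ := fun u => if u = v then τ else x u with hx1def
      have hxv : x1 v = τ := by simp [hx1def]
      have hxR : ∀ u ∈ Rs, x1 u = x u := by
        intro u hu'
        have : u ≠ v := fun e => hvRs (e ▸ hu')
        simp [hx1def, this]
      have hx1 : ∀ u, x1 u = 1 ∨ x1 u = -1 := by
        intro u
        simp only [hx1def]
        split_ifs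
        · exact hτ
        · exact hx u
      have hDv : DD B a x1 (insert v Rs) = DD B a x Rs + a v * x1 v :=
        DD_place hB hvRs hxR (hnx v hv)
      have hav := ha v
      have hcv := ch_bounds ha v
      have hav1 : a v * τ ≤ 1 + (if a v = 1 then (0 : ℤ) else 1) := by
        rcases hτ with h3 | h3 <;> rw [h3] <;> linarith [hcv.2, hav.1]
      have hchv := chS v hv
      have hPv : PathB B a x1 b (insert v Rs) := by
        refine PathB.step Rs v ((toP x hgx).congr fun u hu' => (hxR u hu').symm) hvRs ?_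
        rw [hDv, hxv]
        linarith
      have hsub : S.erase v ⊆ S := Finset.erase_subset _ _
      have hchvS : ch a S = (if a v = 1 then 0 else 1) + ch a (S.erase v) := by
        unfold ch
        rw [Finset.add_sum_erase S (fun v => if a v = 1 then (0 : ℤ) else 1) hv]
      have hchv0 : 0 ≤ ch a (S.erase v) := ch_nonneg _
      have chS2 : ∀ u ∈ S.erase v, a u = 2 → 1 ≤ ch a (S.erase v) := by
        intro u hu' h2
        have : (if a u = 1 then 0 else 1) ≤ ch a (S.erase v) := by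
          unfold ch
          exact Finset.single_le_sum (f := fun v => if a v = 1 then (0 : ℤ) else 1)
            (fun i _ => by split_ifs <;> norm_num) hu'
        rw [h2] at this
        norm_num at this
        linarith
      have e : insert v Rs ∪ S.erase v = Rs ∪ S := by
        ext z
        simp only [Finset.mem_union, Finset.mem_insert, Finset.mem_erase]
        by_cases hz : z = v
        · subst hz; simp [hv]
        · simp [hz]
      have e3 : ∑ u ∈ insert v Rs, im B u * x1 u = - |im B v| + ∑ u ∈ Rs, im B u * x u := by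
        rw [Finset.sum_insert hvRs, hxv, hτv]
        congr 1
        exact Finset.sum_congr rfl fun w hw => by rw [hxR w hw]
      have hG := hGam0 (S.erase v)
      have h3 := go b hb0 (insert v Rs) (S.erase v) x1 (cR - nb + 1) hx1 hPv
        (by
          rw [Finset.disjoint_insert_left]
          exact ⟨Finset.notMem_erase _ _, Finset.disjoint_of_subset_right
            (Finset.erase_subset _ _) hdS⟩) e hsub
        (by rw [hDv, hxv]; linarith)
        (fun u hu' h2 => by
          have := chS2 u hu' h2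
          rw [hDv, hxv]
          linarith)
        (fun u hu' => by
          rw [Finset.sum_insert hvRs, hind v hv u (hsub hu'), zero_mul, zero_add,
            ← hnx u (hsub hu')]
          exact Finset.sum_congr rfl fun w hw => by rw [hxR w hw])
        (by rw [hDv, hxv]; linarith)
      refine (h3.resolve_left hcr).mono le_rfl ?_
      rw [e3, hDv, hxv]
      have : DD B a x Rs + a v * τ + (-|im B v| + ∑ u ∈ Rs, im B u * x u) + im B h -
          ∑ v ∈ (S.erase v).filter (Harm a (im B)), |a v + im B v| ≤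
          cR - nb + 1 + im B h - Y - |im B v| := by
        linarith
      exact_mod_cast this

/-- the path statement without budget -/
theorem path_neutral (h0 : ∀ u v, 0 ≤ B u v) (h1 : ∀ u v, B u v ≤ 1) (hB : ∀ v, B v v = 0)
    (h : V) (hq : 0 < im B h) {Rs S C : Finset V} {g : ℤ} (hbl : BlocksN B S Rs g)
    (hdS : Disjoint Rs S) (hind : ∀ u ∈ S, ∀ v ∈ S, MM B u v = 0)
    (hhR : h ∉ Rs ∪ S) (hC : h ∉ C) (hd : Disjoint (Rs ∪ S) C)
    (hu : insert h ((Rs ∪ S) ∪ C) = univ) {cR e : ℤ} (hcR : ch (MM B h) (Rs ∪ S) ≤ cR)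
    (he1 : e ≤ 1) (he : Rs = ∅ → e ≤ 0) :
    ∃ Y nb : ℤ, (0 ≤ Y ∧ (Rs = ∅ → Y = 0)) ∧ 0 ≤ nb ∧ e ≤ nb ∧ (Rs.Nonempty → 1 ≤ nb) ∧ (Rs.card : ℤ) ≤ g + nb ∧
      (∀ S0 ⊆ S, ∀ y0 M K t : ℝ, 0 ≤ K → 0 ≤ y0 → (∀ v ∈ S0, |((im B v : ℤ) : ℝ)| ≤ y0) →
        St B (im B) (univ \ (Rs ∪ S0)) M K t →
        Val B (-(g : ℝ) + M + max (max (max ((Y : ℝ) - ∑ v ∈ S0, |((im B v : ℤ) : ℝ)|) y0) K)
          ((max ((Y : ℝ) - ∑ v ∈ S0, |((im B v : ℤ) : ℝ)|) y0 + t) / 2))) ∧
      (Cr B (Rs ∪ S) C ((max 0 (cR - e) : ℤ) : ℝ) ∨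
        (Out B (MM B h) S C ((cR - nb : ℤ) : ℝ) ((im B h - g - Gam B h S : ℤ) : ℝ) ∧
          Out B (MM B h) S C ((cR - nb : ℤ) : ℝ) ((cR - nb + im B h - Y : ℤ) : ℝ) ∧
          (∀ v ∈ S, 0 ≤ im B v →
            Out B (MM B h) S C ((cR - nb : ℤ) : ℝ)
              ((cR - nb + im B h - Y - |im B v| : ℤ) : ℝ)) ∧
          (e + 1 ≤ nb → ∀ v ∈ S,
            Out B (MM B h) S C ((cR - nb + 1 : ℤ) : ℝ)
              ((cR - nb + 1 + im B h - Y - |im B v| : ℤ) : ℝ)))) := by
  obtain ⟨Y, nb, h2, h3, h4, h5, h6, h7, _, h8⟩ := path_neutralF h0 h1 hB h hq hbl hdS hind hhR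
    hC hd hu hcR he1 he
  exact ⟨Y, nb, h2, h3, h4, h5, h6, h7, h8⟩

end Pool.Agent.Exact


end

section

/-!
# Cutting the two chains into hubs and the rest
-/

set_option autoImplicit false
set_option linter.unusedSectionVars false
set_option linter.unusedSimpArgs false
set_option linter.unnecessarySeqFocus false
set_option linter.unreachableTactic false
set_option linter.unusedTactic false

namespace Pool.Agent.Exact

open Finset

variable {V : Type*} [Fintype V] [DecidableEq V]
variable {B : V → V → ℤ} {Rl : Finset V} {ℓ nQ nP : ℕ} {uq up : ℕ → V} {q p : ℕ → ℝ}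

/-- the hubs: the first `a` vertices of `uq` and the first `b` vertices of `up` -/
def hb (a b : ℕ) : Finset (ℕ ⊕ ℕ) := iq 0 a ∪ ip 0 b

/-- the hubs without the first -/
def hb1 (a b : ℕ) : Finset (ℕ ⊕ ℕ) := iq 1 a ∪ ip 0 b

/-- the other real vertices -/
def rr (nQ nP a b : ℕ) : Finset (ℕ ⊕ ℕ) := iq a nQ ∪ ip b nP

/-- the dummies -/
def dm (ℓ nQ nP : ℕ) : Finset (ℕ ⊕ ℕ) := iq nQ (2 * ℓ) ∪ ip nP (2 * ℓ)

/-- vertices of an index set -/
def vs (uq up : ℕ → V) (I : Finset (ℕ ⊕ ℕ)) : Finset V := I.image (vx uq up)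

lemma Frame.nQle (h : Frame B Rl ℓ nQ nP uq up q p) : nQ + 10 ≤ 2 * ℓ := by
  have := h.sys.card
  have := h.sys.big
  omega

lemma Frame.nPle (h : Frame B Rl ℓ nQ nP uq up q p) : nP + 10 ≤ 2 * ℓ := by
  have := h.sys.card
  have := h.sys.big
  omega

lemma Frame.real (h : Frame B Rl ℓ nQ nP uq up q p) : vs uq up (rr nQ nP 0 0) = Rl := by
  have hQ := h.nQle
  have hP := h.nPle
  ext v
  simp only [vs, rr, Finset.mem_image, Finset.mem_union, Sum.exists, inl_mem_iq, inl_mem_ip,
    inr_mem_iq, inr_mem_ip, or_false, false_or, vx, Sum.elim_inl, Sum.elim_inr]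
  constructor
  · rintro (⟨i, hi, rfl⟩ | ⟨i, hi, rfl⟩)
    · exact (h.sys.realQ i (by omega)).2 (by omega)
    · exact (h.sys.realP i (by omega)).2 (by omega)
  · intro hv
    rcases h.sys.cover v with ⟨i, hi, rfl⟩ | ⟨i, hi, rfl⟩
    · left
      exact ⟨i, ⟨Nat.zero_le _, (h.sys.realQ i hi).1 hv⟩, rfl⟩
    · right
      exact ⟨i, ⟨Nat.zero_le _, (h.sys.realP i hi).1 hv⟩, rfl⟩

lemma vs_mono {I J : Finset (ℕ ⊕ ℕ)} (h : I ⊆ J) : vs uq up I ⊆ vs uq up J :=
  Finset.image_subset_image h

lemma Frame.stDm (h : Frame B Rl ℓ nQ nP uq up q p) {K : ℝ} (hK : 0 ≤ K) :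
    StI B uq up (dm ℓ nQ nP) 0 K 0 := by
  have key : ∀ v ∈ (dm ℓ nQ nP).image (vx uq up), v ∉ Rl := by
    intro v hv
    rw [Finset.mem_image] at hv
    obtain ⟨x, hx, rfl⟩ := hv
    unfold dm at hx
    rcases x with i | i
    · simp only [Finset.mem_union, inl_mem_iq, inl_mem_ip, or_false] at hx
      simp only [vx, Sum.elim_inl]
      rw [h.sys.realQ i hx.2]
      omega
    · simp only [Finset.mem_union, inr_mem_iq, inr_mem_ip, false_or] at hx
      simp only [vx, Sum.elim_inr]
      rw [h.sys.realP i hx.2]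
      omega
  refine St.zero ?_ ?_ hK
  · intro v hv
    have h4 := key v hv
    unfold im
    rw [Finset.sum_eq_zero fun u _ => (h.sys.dummy _ h4 u).2,
      Finset.sum_eq_zero fun u _ => (h.sys.dummy _ h4 u).1]
    rfl
  · intro u _ v hv
    exact (h.sys.dummy v (key v hv) u).1

lemma Frame.withDm (h : Frame B Rl ℓ nQ nP uq up q p) {I : Finset (ℕ ⊕ ℕ)} {M K t : ℝ}
    (hK : 0 ≤ K) (hI : StI B uq up I M K t) (hf : I ⊆ rr nQ nP 0 0) :
    StI B uq up (I ∪ dm ℓ nQ nP) M K t := by
  have hQ := h.nQle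
  have hP := h.nPle
  have h1 : I ∪ dm ℓ nQ nP ⊆ full ℓ := by
    refine Finset.union_subset (hf.trans ?_) ?_
    · unfold rr; (intro x hx; revert hx; rcases x with x | x <;>
    simp only [Finset.mem_union, Finset.mem_insert, Finset.mem_singleton, inl_mem_full,
      inr_mem_full, inl_mem_iq, inr_mem_iq, inl_mem_ip, inr_mem_ip, Sum.inl.injEq, Sum.inr.injEq,
      reduceCtorEq, Finset.notMem_empty, or_false, false_or, false_imp_iff, imp_false,
      implies_true, not_false_eq_true, iff_false, false_iff] <;> omega)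
    · unfold dm; (intro x hx; revert hx; rcases x with x | x <;>
    simp only [Finset.mem_union, Finset.mem_insert, Finset.mem_singleton, inl_mem_full,
      inr_mem_full, inl_mem_iq, inr_mem_iq, inl_mem_ip, inr_mem_ip, Sum.inl.injEq, Sum.inr.injEq,
      reduceCtorEq, Finset.notMem_empty, or_false, false_or, false_imp_iff, imp_false,
      implies_true, not_false_eq_true, iff_false, false_iff] <;> omega)
  have h2 : Disjoint I (dm ℓ nQ nP) := by
    refine Finset.disjoint_of_subset_left hf ?_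
    unfold rr dm
    (rw [Finset.disjoint_left]; intro x hx hx'; revert hx hx'; rcases x with x | x <;>
    simp only [Finset.mem_union, Finset.mem_insert, Finset.mem_singleton, inl_mem_full,
      inr_mem_full, inl_mem_iq, inr_mem_iq, inl_mem_ip, inr_mem_ip, Sum.inl.injEq, Sum.inr.injEq,
      reduceCtorEq, Finset.notMem_empty, or_false, false_or, false_imp_iff, imp_false,
      implies_true, not_false_eq_true, iff_false, false_iff] <;> omega)
  exact (h.jn hI (h.stDm hK) h1 h2).mono (by norm_num) le_rfl (by norm_num)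

/-- crossing values in terms of index sets -/
def CrI (B : V → V → ℤ) (uq up : ℕ → V) (q p : ℕ → ℝ) (a b : ℕ) (Db : ℝ) : Prop :=
  ∀ M K t : ℝ, 0 ≤ K → q a ≤ K → p b ≤ K → StI B uq up (hb1 a b) M K t →
    Val B (Db + M + max K ((t + q a + p b) / 2))

/-- values if only the last vertex leads to a crossing, in terms of index sets -/
def CrSI (B : V → V → ℤ) (uq up : ℕ → V) (p : ℕ → ℝ) (a b : ℕ) (Db : ℝ) : Prop :=
  ∀ M K t : ℝ, 0 ≤ K → p b - 1 ≤ K → StI B uq up (hb1 a b) M K t →
    Val B (Db + M + max K ((t + p b - 1) / 2))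

/-- the finer version of `CrSI` -/
def CrTI (B : V → V → ℤ) (uq up : ℕ → V) (p : ℕ → ℝ) (a b : ℕ) (Db D1 : ℝ) : Prop :=
  ∀ M K t κ : ℝ, 0 ≤ K → StI B uq up (hb1 a b) M K t →
    (κ < p b - 1 → Val B (Db + M + max (max K κ) ((t + p b - 1) / 2)) ∨
      Val B (D1 + M + max (max K (p b)) ((t + 2 * p b - κ) / 2))) ∧
    (p b - 1 ≤ κ → Val B (Db + M + max (max K κ) ((t + p b - 1) / 2)))

lemma CrTI.toS {a b : ℕ} {Db D1 : ℝ} (h : CrTI B uq up p a b Db D1) :
    CrSI B uq up p a b Db := by
  intro M K t hK hpK hst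
  have h1 := (h M K t (p b - 1) hK hst).2 le_rfl
  rw [max_eq_left hpK] at h1
  exact h1

/-- values at the end of the path in terms of index sets -/
def EnI (B : V → V → ℤ) (uq up : ℕ → V) (a b : ℕ) (Db β : ℝ) : Prop :=
  ∃ D L : ℝ, 0 ≤ L ∧ D ≤ Db ∧ D + L ≤ β ∧ ∀ M K t : ℝ, 0 ≤ K →
    StI B uq up (hb1 a b) M K t → Val B (D + M + max (max L K) ((L + t) / 2))

lemma EnI.mono {a b : ℕ} {Db β Db' β' : ℝ} (h : EnI B uq up a b Db β) (h1 : Db ≤ Db')
    (h2 : β ≤ β') : EnI B uq up a b Db' β' := by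
  obtain ⟨D, L, h3, h4, h5, h6⟩ := h
  exact ⟨D, L, h3, h4.trans h1, h5.trans h2, h6⟩

/-- values at the end of a path with a last vertex `y`; the first kind does not use `y` -/
def EnLI (B : V → V → ℤ) (uq up : ℕ → V) (a b : ℕ) (S : Finset V) (D1 β : ℝ) : Prop :=
  ∃ y ∈ S, im B y + MM B (uq 0) y < 0 ∧ 1 ≤ MM B (uq 0) y ∧ ∃ D L : ℝ, 1 ≤ L ∧ D ≤ D1 ∧
    D + MM B (uq 0) y ≤ D1 + 1 ∧ D + L + MM B (uq 0) y + ((im B y : ℤ) : ℝ) ≤ β ∧
    (∀ M K t : ℝ, 0 ≤ K → St B (im B) (insert y (vs uq up (hb1 a b))) M K t →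
      Val B (D + M + max (max L K) ((L + t) / 2))) ∧
    (∀ M K t : ℝ, 0 ≤ K → StI B uq up (hb1 a b) M K t →
      Val B (D + MM B (uq 0) y + M + max (max |L + ((im B y : ℤ) : ℝ)| K)
        ((|L + ((im B y : ℤ) : ℝ)| + t) / 2)))

/-- the end of the path in terms of index sets -/
def OutI (B : V → V → ℤ) (uq up : ℕ → V) (a b : ℕ) (S : Finset V) (D1 β : ℝ) : Prop :=
  EnI B uq up a b D1 β ∨ EnLI B uq up a b S D1 β

lemma OutI.mono {a b : ℕ} {S : Finset V} {D1 β D1' β' : ℝ} (h : OutI B uq up a b S D1 β)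
    (h1 : D1 ≤ D1') (h2 : β ≤ β') : OutI B uq up a b S D1' β' := by
  rcases h with h | ⟨y, hy, h3, h4, D, L, h5, h6, h6', h7, h8, h9⟩
  · exact Or.inl (h.mono h1 h2)
  · exact Or.inr ⟨y, hy, h3, h4, D, L, h5, h6.trans h1, by linarith, h7.trans h2, h8, h9⟩

/-- T2: all neutral vertices signed greedily -/
def T2I (B : V → V → ℤ) (uq up : ℕ → V) (a b : ℕ) (S : Finset V) (g Y : ℤ) : Prop :=
  ∀ y0 M K t : ℝ, 0 ≤ K → 0 ≤ y0 → (∀ v ∈ S, |((im B v : ℤ) : ℝ)| ≤ y0) →
    StI B uq up (hb a b) M K t →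
    Val B (-(g : ℝ) + M + max (max (max ((Y : ℝ) - ∑ v ∈ S, |((im B v : ℤ) : ℝ)|) y0) K)
      ((max ((Y : ℝ) - ∑ v ∈ S, |((im B v : ℤ) : ℝ)|) y0 + t) / 2))

/-- T2: neutral vertices attached to a hub -/
def T2A (B : V → V → ℤ) (uq up : ℕ → V) (a b : ℕ) (S : Finset V) (g Y : ℤ) : Prop :=
  ∀ z ∈ hb a b, ∀ S0 ⊆ S, ∀ s : V → ℤ, (∀ v, s v = 1 ∨ s v = -1) →
    ∀ y0 M K t : ℝ, 0 ≤ K → 0 ≤ y0 → (∀ v ∈ S0, |((im B v : ℤ) : ℝ)| ≤ y0) →
    |((im B (vx uq up z) + ∑ v ∈ S \ S0, im B v * s v : ℤ) : ℝ)| ≤ K →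
    StI B uq up ((hb a b).erase z) M K t →
    Val B (-(g : ℝ) + (M + ((∑ v ∈ S \ S0, MM B (vx uq up z) v * s v : ℤ) : ℝ)) +
      max (max (max ((Y : ℝ) - ∑ v ∈ S0, |((im B v : ℤ) : ℝ)|) y0) K)
        ((max ((Y : ℝ) - ∑ v ∈ S0, |((im B v : ℤ) : ℝ)|) y0 + (t +
        |((im B (vx uq up z) + ∑ v ∈ S \ S0, im B v * s v : ℤ) : ℝ)|)) / 2))

/-- T1 at the end of the path -/
structure EndI (B : V → V → ℤ) (uq up : ℕ → V) (q0 : ℝ) (a b : ℕ) (S : Finset V)
    (g Y nb cR e : ℤ) : Prop where
  w : OutI B uq up a b S (cR - nb) (q0 - g - Gam B (uq 0) S)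
  t : OutI B uq up a b S (cR - nb) (cR - nb + q0 - Y)
  v : ∀ v ∈ S, 0 ≤ im B v → OutI B uq up a b S (cR - nb) (cR - nb + q0 - Y - |((im B v : ℤ) : ℝ)|)
  v' : e + 1 ≤ nb → ∀ v ∈ S,
    OutI B uq up a b S (cR - nb + 1) (cR - nb + 1 + q0 - Y - |((im B v : ℤ) : ℝ)|)

/-- T1 with a budget: a set `F` of harmful neutral vertices is placed on the side of the hub -/
def BudI (B : V → V → ℤ) (uq up : ℕ → V) (q p : ℕ → ℝ) (a b : ℕ) (S : Finset V)
    (g Y nb cR e : ℤ) : Prop :=
  ∀ F ⊆ S, (∀ v ∈ F, im B v + MM B (uq 0) v < 0 ∧ 1 ≤ MM B (uq 0) v) →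
    CrI B uq up q p a b ((max (max 0 (cR - e)) (cR - nb + F.card) : ℤ) : ℝ) ∨
    (OutI B uq up a b S (cR - nb + F.card)
        (q 0 - g - Gam B (uq 0) S + ∑ v ∈ F, ((MM B (uq 0) v : ℝ) + im B v)) ∧
      OutI B uq up a b S (cR - nb + F.card)
        (cR - nb + q 0 - Y + ∑ v ∈ F, ((MM B (uq 0) v : ℝ) + im B v)))

/-- the decomposition of the set `R` -/
structure Dec (B : V → V → ℤ) (pick : Finset V → V) (R Rs S : Finset V) (g : ℤ)
    (Kc : V → Finset V) : Prop where
  un : Rs ∪ S = R
  dj : Disjoint Rs S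
  cg : (Rs.card : ℤ) ≤ 2 * g
  g0 : 0 ≤ g
  ind : ∀ u ∈ S, ∀ v ∈ S, MM B u v = 0
  bad : ∀ v ∈ S, Bad B R (Kc v) ∧ v ∈ Kc v ∧ v = pick (Kc v) ∧ (Kc v).erase v ⊆ Rs
  kd : ∀ u ∈ S, ∀ v ∈ S, u ≠ v → Disjoint (Kc u) (Kc v)
  bl : BlocksN B S Rs g

/-- **The path statement for a cut of the two chains, with a budget.** -/
theorem Frame.cutF (h : Frame B Rl ℓ nQ nP uq up q p) {a b : ℕ} (ha1 : 1 ≤ a) (haQ : a ≤ nQ)
    (hbP : b ≤ nP) (hq0 : 0 < q 0)
    (pick : Finset V → V) (hpick : ∀ K : Finset V, K.Nonempty → pick K ∈ K) :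
    ∃ (Rs S : Finset V) (g : ℤ) (Kc : V → Finset V),
      Dec B pick (vs uq up (rr nQ nP a b)) Rs S g Kc ∧
      ∀ cR e : ℤ, ch (MM B (uq 0)) (vs uq up (rr nQ nP a b)) ≤ cR → e ≤ 1 → (Rs = ∅ → e ≤ 0) →
        ∃ Y nb : ℤ, (0 ≤ Y ∧ (Rs = ∅ → Y = 0)) ∧ 0 ≤ nb ∧ e ≤ nb ∧ (Rs.Nonempty → 1 ≤ nb) ∧
          (Rs.card : ℤ) ≤ g + nb ∧ T2I B uq up a b S g Y ∧ T2A B uq up a b S g Y ∧
          BudI B uq up q p a b S g Y nb cR e ∧
          (CrI B uq up q p a b ((max 0 (cR - e) : ℤ) : ℝ) ∨
            EndI B uq up (q 0) a b S g Y nb cR e) := by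
  classical
  have hQ := h.nQle
  have hP := h.nPle
  have hB0 := h.sys.B0
  have hB1 := h.sys.B1
  have hBd := h.sys.Bd
  set R := vs uq up (rr nQ nP a b) with hR
  obtain ⟨Rs, S, g, Kc, hRS, hdS, hbl, hcg, hind, hbad, hKd⟩ := exists_dec hB0 hB1 hBd pick hpick
    R.card R rfl
  have hg0 : 0 ≤ g := by
    have : (0 : ℤ) ≤ Rs.card := Nat.cast_nonneg _
    linarith
  refine ⟨Rs, S, g, Kc, ⟨hRS, hdS, hcg, hg0, hind, hbad, hKd, hbl⟩, ?_⟩
  intro cR e hcR he1 he0
  set hv : V := uq 0 with hhv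
  set Cv : Finset V := vs uq up (hb1 a b ∪ dm ℓ nQ nP) with hCv
  have hfull : insert (Sum.inl 0) (rr nQ nP a b ∪ (hb1 a b ∪ dm ℓ nQ nP)) = full ℓ := by
    unfold rr hb1 dm
    (ext x; rcases x with x | x <;>
    simp only [Finset.mem_union, Finset.mem_insert, Finset.mem_singleton, inl_mem_full,
      inr_mem_full, inl_mem_iq, inr_mem_iq, inl_mem_ip, inr_mem_ip, Sum.inl.injEq, Sum.inr.injEq,
      reduceCtorEq, Finset.notMem_empty, or_false, false_or, false_imp_iff, imp_false,
      implies_true, not_false_eq_true, iff_false, false_iff] <;> omega)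
  have hRf : rr nQ nP a b ⊆ full ℓ := by unfold rr; (intro x hx; revert hx; rcases x with x | x <;>
    simp only [Finset.mem_union, Finset.mem_insert, Finset.mem_singleton, inl_mem_full,
      inr_mem_full, inl_mem_iq, inr_mem_iq, inl_mem_ip, inr_mem_ip, Sum.inl.injEq, Sum.inr.injEq,
      reduceCtorEq, Finset.notMem_empty, or_false, false_or, false_imp_iff, imp_false,
      implies_true, not_false_eq_true, iff_false, false_iff] <;> omega)
  have hCf : hb1 a b ∪ dm ℓ nQ nP ⊆ full ℓ := by unfold hb1 dm; (intro x hx; revert hx; rcases x with x | x <;>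
    simp only [Finset.mem_union, Finset.mem_insert, Finset.mem_singleton, inl_mem_full,
      inr_mem_full, inl_mem_iq, inr_mem_iq, inl_mem_ip, inr_mem_ip, Sum.inl.injEq, Sum.inr.injEq,
      reduceCtorEq, Finset.notMem_empty, or_false, false_or, false_imp_iff, imp_false,
      implies_true, not_false_eq_true, iff_false, false_iff] <;> omega)
  have h0R : (Sum.inl 0 : ℕ ⊕ ℕ) ∉ rr nQ nP a b := by
    unfold rr
    simp only [Finset.mem_union, inl_mem_iq, inl_mem_ip, or_false, not_and]
    omega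
  have h0C : (Sum.inl 0 : ℕ ⊕ ℕ) ∉ hb1 a b ∪ dm ℓ nQ nP := by
    unfold hb1 dm
    simp only [Finset.mem_union, inl_mem_iq, inl_mem_ip, or_false, not_or, not_and]
    omega
  have h0f : (Sum.inl 0 : ℕ ⊕ ℕ) ∈ full ℓ := by simp; omega
  have hnot : ∀ I ⊆ full ℓ, (Sum.inl 0 : ℕ ⊕ ℕ) ∉ I → hv ∉ vs uq up I := by
    intro I hI h0 hmem
    unfold vs at hmem
    rw [Finset.mem_image] at hmem
    obtain ⟨x, hx, hx'⟩ := hmem
    have := h.inj (hI hx) h0f hx'
    rw [this] at hx
    exact h0 hx
  have hhR : hv ∉ Rs ∪ S := by rw [hRS]; exact hnot _ hRf h0R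
  have hhC : hv ∉ Cv := hnot _ hCf h0C
  have hdRC : Disjoint (Rs ∪ S) Cv := by
    rw [hRS]
    refine h.disj hRf hCf ?_
    unfold rr hb1 dm
    (rw [Finset.disjoint_left]; intro x hx hx'; revert hx hx'; rcases x with x | x <;>
    simp only [Finset.mem_union, Finset.mem_insert, Finset.mem_singleton, inl_mem_full,
      inr_mem_full, inl_mem_iq, inr_mem_iq, inl_mem_ip, inr_mem_ip, Sum.inl.injEq, Sum.inr.injEq,
      reduceCtorEq, Finset.notMem_empty, or_false, false_or, false_imp_iff, imp_false,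
      implies_true, not_false_eq_true, iff_false, false_iff] <;> omega)
  have huniv : insert hv ((Rs ∪ S) ∪ Cv) = Finset.univ := by
    rw [hRS, hR, hCv]
    unfold vs
    rw [← Finset.image_union, ← h.univ, ← hfull, Finset.image_insert]
    rfl
  have hRl : hv ∈ Rl := by
    rw [hhv, h.sys.realQ 0 (by omega)]; omega
  have himq : ((im B hv : ℤ) : ℝ) = q 0 := h.sys.wtQ 0 (by omega)
  have hq : 0 < im B hv := by
    have : (0 : ℝ) < ((im B hv : ℤ) : ℝ) := by rw [himq]; exact hq0
    exact_mod_cast this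
  obtain ⟨Y, nb, hY, hnb0, hnbe, hnb1, hcard, hT2, hTF, hT1⟩ := path_neutralF hB0 hB1 hBd hv hq hbl
    hdS hind hhR hhC hdRC huniv (cR := cR) (e := e) (by rw [hRS]; exact hcR) he1 he0
  refine ⟨Y, nb, hY, hnb0, hnbe, hnb1, hcard, ?_, ?_, ?_⟩
  · intro y0 M K t hK hy0 hy hst
    refine hT2 S (Finset.Subset.refl _) y0 M K t hK hy0 hy ?_
    have h3 := h.withDm hK hst (by unfold hb rr; (intro x hx; revert hx; rcases x with x | x <;>
    simp only [Finset.mem_union, Finset.mem_insert, Finset.mem_singleton, inl_mem_full,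
      inr_mem_full, inl_mem_iq, inr_mem_iq, inl_mem_ip, inr_mem_ip, Sum.inl.injEq, Sum.inr.injEq,
      reduceCtorEq, Finset.notMem_empty, or_false, false_or, false_imp_iff, imp_false,
      implies_true, not_false_eq_true, iff_false, false_iff] <;> omega))
    have h4 : Finset.univ \ (Rs ∪ S) = (hb a b ∪ dm ℓ nQ nP).image (vx uq up) := by
      rw [hRS, hR]
      unfold vs
      have h5 : full ℓ = rr nQ nP a b ∪ (hb a b ∪ dm ℓ nQ nP) := by
        unfold rr hb dm; (ext x; rcases x with x | x <;>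
    simp only [Finset.mem_union, Finset.mem_insert, Finset.mem_singleton, inl_mem_full,
      inr_mem_full, inl_mem_iq, inr_mem_iq, inl_mem_ip, inr_mem_ip, Sum.inl.injEq, Sum.inr.injEq,
      reduceCtorEq, Finset.notMem_empty, or_false, false_or, false_imp_iff, imp_false,
      implies_true, not_false_eq_true, iff_false, false_iff] <;> omega)
      rw [← h.univ, h5, Finset.image_union, Finset.union_sdiff_cancel_left]
      refine h.disj hRf (by unfold hb dm; (intro x hx; revert hx; rcases x with x | x <;>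
    simp only [Finset.mem_union, Finset.mem_insert, Finset.mem_singleton, inl_mem_full,
      inr_mem_full, inl_mem_iq, inr_mem_iq, inl_mem_ip, inr_mem_ip, Sum.inl.injEq, Sum.inr.injEq,
      reduceCtorEq, Finset.notMem_empty, or_false, false_or, false_imp_iff, imp_false,
      implies_true, not_false_eq_true, iff_false, false_iff] <;> omega)) ?_
      unfold rr hb dm
      (rw [Finset.disjoint_left]; intro x hx hx'; revert hx hx'; rcases x with x | x <;>
    simp only [Finset.mem_union, Finset.mem_insert, Finset.mem_singleton, inl_mem_full,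
      inr_mem_full, inl_mem_iq, inr_mem_iq, inl_mem_ip, inr_mem_ip, Sum.inl.injEq, Sum.inr.injEq,
      reduceCtorEq, Finset.notMem_empty, or_false, false_or, false_imp_iff, imp_false,
      implies_true, not_false_eq_true, iff_false, false_iff] <;> omega)
    rw [h4]
    exact h3
  · intro z hz S0 hS0 s hs y0 M K t hK hy0 hy hit hst
    have hzf : hb a b ⊆ full ℓ := by unfold hb; (intro x hx; revert hx; rcases x with x | x <;>
    simp only [Finset.mem_union, Finset.mem_insert, Finset.mem_singleton, inl_mem_full,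
      inr_mem_full, inl_mem_iq, inr_mem_iq, inl_mem_ip, inr_mem_ip, Sum.inl.injEq, Sum.inr.injEq,
      reduceCtorEq, Finset.notMem_empty, or_false, false_or, false_imp_iff, imp_false,
      implies_true, not_false_eq_true, iff_false, false_iff] <;> omega)
    set zv : V := vx uq up z with hzv
    -- the group
    have hzS : zv ∉ Rs ∪ S := by
      rw [hRS]
      have : Disjoint (rr nQ nP a b) (hb a b) := by
        unfold rr hb
        (rw [Finset.disjoint_left]; intro x hx hx'; revert hx hx'; rcases x with x | x <;>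
    simp only [Finset.mem_union, Finset.mem_insert, Finset.mem_singleton, inl_mem_full,
      inr_mem_full, inl_mem_iq, inr_mem_iq, inl_mem_ip, inr_mem_ip, Sum.inl.injEq, Sum.inr.injEq,
      reduceCtorEq, Finset.notMem_empty, or_false, false_or, false_imp_iff, imp_false,
      implies_true, not_false_eq_true, iff_false, false_iff] <;> omega)
      exact Finset.disjoint_right.1 (h.disj hRf hzf this) (Finset.mem_image_of_mem _ hz)
    have hzS' : zv ∉ S \ S0 := fun h' => hzS (by
      rw [Finset.mem_union]; right; exact (Finset.mem_sdiff.1 h').1)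
    set x : V → ℤ := fun v => if v = zv then 1 else s v with hx
    have hxz : x zv = 1 := by simp [hx]
    have hxS : ∀ v ∈ S \ S0, x v = s v := by
      intro v hv'
      have : v ≠ zv := fun e => hzS' (e ▸ hv')
      simp [hx, this]
    have hgr : St B (im B) (insert zv (S \ S0)) ((∑ v ∈ S \ S0, MM B zv v * s v : ℤ) : ℝ)
        |((im B zv + ∑ v ∈ S \ S0, im B v * s v : ℤ) : ℝ)|
        |((im B zv + ∑ v ∈ S \ S0, im B v * s v : ℤ) : ℝ)| := by
      refine St.group _ x ?_ ?_ ?_
      · intro v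
        simp only [hx]
        split_ifs
        · left; rfl
        · exact hs v
      · rw [Qd_star zv (S \ S0) hzS' hB0 hBd (fun l hl l' hl' => hind l
          (Finset.mem_sdiff.1 hl).1 l' (Finset.mem_sdiff.1 hl').1)]
        refine le_of_eq ?_
        congr 1
        refine Finset.sum_congr rfl fun v hv' => ?_
        rw [hxz, hxS v hv', one_mul]
      · rw [Finset.sum_insert hzS', hxz, mul_one, Finset.sum_congr rfl fun v hv' => by
          rw [hxS v hv']]
    have h3 := h.withDm hK hst (by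
      refine (Finset.erase_subset _ _).trans ?_
      unfold hb rr; (intro x hx; revert hx; rcases x with x | x <;>
    simp only [Finset.mem_union, Finset.mem_insert, Finset.mem_singleton, inl_mem_full,
      inr_mem_full, inl_mem_iq, inr_mem_iq, inl_mem_ip, inr_mem_ip, Sum.inl.injEq, Sum.inr.injEq,
      reduceCtorEq, Finset.notMem_empty, or_false, false_or, false_imp_iff, imp_false,
      implies_true, not_false_eq_true, iff_false, false_iff] <;> omega))
    have hdj : Disjoint (((hb a b).erase z ∪ dm ℓ nQ nP).image (vx uq up))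
        (insert zv (S \ S0)) := by
      rw [Finset.disjoint_right]
      intro v hv' hv''
      rcases Finset.mem_insert.1 hv' with rfl | hv'
      · rw [Finset.mem_image] at hv''
        obtain ⟨w, hw, hw'⟩ := hv''
        have hzf' : z ∈ full ℓ := hzf hz
        have hwf : w ∈ full ℓ := by
          rcases Finset.mem_union.1 hw with h5 | h5
          · exact hzf (Finset.mem_of_mem_erase h5)
          · revert h5
            have : dm ℓ nQ nP ⊆ full ℓ := by unfold dm; (intro x hx; revert hx; rcases x with x | x <;>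
    simp only [Finset.mem_union, Finset.mem_insert, Finset.mem_singleton, inl_mem_full,
      inr_mem_full, inl_mem_iq, inr_mem_iq, inl_mem_ip, inr_mem_ip, Sum.inl.injEq, Sum.inr.injEq,
      reduceCtorEq, Finset.notMem_empty, or_false, false_or, false_imp_iff, imp_false,
      implies_true, not_false_eq_true, iff_false, false_iff] <;> omega)
            intro h5
            exact this h5
        have hwz := h.inj hwf hzf' hw'
        rw [hwz] at hw
        rcases Finset.mem_union.1 hw with h5 | h5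
        · exact Finset.notMem_erase _ _ h5
        · have : Disjoint (hb a b) (dm ℓ nQ nP) := by
            unfold hb dm
            (rw [Finset.disjoint_left]; intro x hx hx'; revert hx hx'; rcases x with x | x <;>
    simp only [Finset.mem_union, Finset.mem_insert, Finset.mem_singleton, inl_mem_full,
      inr_mem_full, inl_mem_iq, inr_mem_iq, inl_mem_ip, inr_mem_ip, Sum.inl.injEq, Sum.inr.injEq,
      reduceCtorEq, Finset.notMem_empty, or_false, false_or, false_imp_iff, imp_false,
      implies_true, not_false_eq_true, iff_false, false_iff] <;> omega)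
          exact Finset.disjoint_left.1 this hz h5
      · have h5 : v ∈ Rs ∪ S := by
          rw [Finset.mem_union]; right; exact (Finset.mem_sdiff.1 hv').1
        rw [hRS] at h5
        have : Disjoint (rr nQ nP a b) ((hb a b).erase z ∪ dm ℓ nQ nP) := by
          refine Finset.disjoint_of_subset_right (Finset.union_subset_union_left
            (Finset.erase_subset _ _)) ?_
          unfold rr hb dm
          (rw [Finset.disjoint_left]; intro x hx hx'; revert hx hx'; rcases x with x | x <;>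
    simp only [Finset.mem_union, Finset.mem_insert, Finset.mem_singleton, inl_mem_full,
      inr_mem_full, inl_mem_iq, inr_mem_iq, inl_mem_ip, inr_mem_ip, Sum.inl.injEq, Sum.inr.injEq,
      reduceCtorEq, Finset.notMem_empty, or_false, false_or, false_imp_iff, imp_false,
      implies_true, not_false_eq_true, iff_false, false_iff] <;> omega)
        refine Finset.disjoint_left.1 (h.disj hRf ?_ this) h5 hv''
        refine Finset.union_subset ((Finset.erase_subset _ _).trans hzf) ?_
        unfold dm; (intro x hx; revert hx; rcases x with x | x <;>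
    simp only [Finset.mem_union, Finset.mem_insert, Finset.mem_singleton, inl_mem_full,
      inr_mem_full, inl_mem_iq, inr_mem_iq, inl_mem_ip, inr_mem_ip, Sum.inl.injEq, Sum.inr.injEq,
      reduceCtorEq, Finset.notMem_empty, or_false, false_or, false_imp_iff, imp_false,
      implies_true, not_false_eq_true, iff_false, false_iff] <;> omega)
    have h4 := St.union h3 (hgr.mono le_rfl hit le_rfl) hdj
    have h6 : Finset.univ \ (Rs ∪ S0) = ((hb a b).erase z ∪ dm ℓ nQ nP).image (vx uq up) ∪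
        insert zv (S \ S0) := by
      have e1 : full ℓ = rr nQ nP a b ∪ insert z ((hb a b).erase z ∪ dm ℓ nQ nP) := by
        rw [← Finset.insert_union, Finset.insert_erase hz]
        unfold rr hb dm; (ext x; rcases x with x | x <;>
    simp only [Finset.mem_union, Finset.mem_insert, Finset.mem_singleton, inl_mem_full,
      inr_mem_full, inl_mem_iq, inr_mem_iq, inl_mem_ip, inr_mem_ip, Sum.inl.injEq, Sum.inr.injEq,
      reduceCtorEq, Finset.notMem_empty, or_false, false_or, false_imp_iff, imp_false,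
      implies_true, not_false_eq_true, iff_false, false_iff] <;> omega)
      have e2 : (Finset.univ : Finset V) = (Rs ∪ S) ∪ insert zv
          (((hb a b).erase z ∪ dm ℓ nQ nP).image (vx uq up)) := by
        rw [← h.univ, e1, Finset.image_union, Finset.image_insert, hRS]
        rfl
      ext v
      have hv' : v ∈ (Rs ∪ S) ∪ insert zv
          (((hb a b).erase z ∪ dm ℓ nQ nP).image (vx uq up)) := by
        rw [← e2]; exact Finset.mem_univ v
      have hd5 : v ∈ (((hb a b).erase z ∪ dm ℓ nQ nP).image (vx uq up)) → v ∉ Rs ∪ S := by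
        intro h7 h5
        rw [hRS] at h5
        have : Disjoint (rr nQ nP a b) ((hb a b).erase z ∪ dm ℓ nQ nP) := by
          refine Finset.disjoint_of_subset_right (Finset.union_subset_union_left
            (Finset.erase_subset _ _)) ?_
          unfold rr hb dm
          (rw [Finset.disjoint_left]; intro x hx hx'; revert hx hx'; rcases x with x | x <;>
    simp only [Finset.mem_union, Finset.mem_insert, Finset.mem_singleton, inl_mem_full,
      inr_mem_full, inl_mem_iq, inr_mem_iq, inl_mem_ip, inr_mem_ip, Sum.inl.injEq, Sum.inr.injEq,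
      reduceCtorEq, Finset.notMem_empty, or_false, false_or, false_imp_iff, imp_false,
      implies_true, not_false_eq_true, iff_false, false_iff] <;> omega)
        refine Finset.disjoint_left.1 (h.disj hRf ?_ this) h5 h7
        refine Finset.union_subset ((Finset.erase_subset _ _).trans hzf) ?_
        unfold dm; (intro x hx; revert hx; rcases x with x | x <;>
    simp only [Finset.mem_union, Finset.mem_insert, Finset.mem_singleton, inl_mem_full,
      inr_mem_full, inl_mem_iq, inr_mem_iq, inl_mem_ip, inr_mem_ip, Sum.inl.injEq, Sum.inr.injEq,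
      reduceCtorEq, Finset.notMem_empty, or_false, false_or, false_imp_iff, imp_false,
      implies_true, not_false_eq_true, iff_false, false_iff] <;> omega)
      have hd6 : v ∈ Rs → v ∉ S := fun h7 h8 => Finset.disjoint_left.1 hdS h7 h8
      simp only [Finset.mem_sdiff, Finset.mem_univ, true_and, Finset.mem_union,
        Finset.mem_insert, not_or] at hv' hd5 hzS ⊢
      constructor
      · rintro ⟨h7, h8⟩
        rcases hv' with (h9 | h9) | h9 | h9
        · exact absurd h9 h7
        · right; right; exact ⟨h9, h8⟩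
        · right; left; exact h9
        · left; exact h9
      · rintro (h9 | h9 | h9)
        · exact ⟨(hd5 h9).1, fun h10 => (hd5 h9).2 (hS0 h10)⟩
        · rw [h9]; exact ⟨hzS.1, fun h10 => hzS.2 (hS0 h10)⟩
        · exact ⟨fun h10 => hd6 h10 h9.1, h9.2⟩
    rw [← h6] at h4
    exact hT2 S0 hS0 y0 _ K _ hK hy0 hy h4
  · -- T1
    have conv : ∀ Db : ℤ, ∀ Db' : ℝ, (Db : ℝ) = Db' → ∀ β : ℤ, ∀ β' : ℝ, (β : ℝ) = β' →
        Out B (MM B hv) S Cv Db β → OutI B uq up a b S Db' β' := by
      intro Db Db' hDb β β' hβ hO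
      rcases hO with hE | hE
      · left
        obtain ⟨D, L, h3, h4, h5, h6⟩ := hE
        refine ⟨D, L, h3, by rw [← hDb]; exact h4, by rw [← hβ]; exact h5, ?_⟩
        intro M K t hK hst
        exact h6 M K t hK (h.withDm hK hst (by unfold hb1 rr; (intro x hx; revert hx; rcases x with x | x <;>
    simp only [Finset.mem_union, Finset.mem_insert, Finset.mem_singleton, inl_mem_full,
      inr_mem_full, inl_mem_iq, inr_mem_iq, inl_mem_ip, inr_mem_ip, Sum.inl.injEq, Sum.inr.injEq,
      reduceCtorEq, Finset.notMem_empty, or_false, false_or, false_imp_iff, imp_false,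
      implies_true, not_false_eq_true, iff_false, false_iff] <;> omega)))
      · right
        obtain ⟨y, hy, h3, h4, D, L, h5, h6, h6', h7, h8, h9⟩ := hE
        refine ⟨y, hy, h3, h4, D, L, h5, by rw [← hDb]; exact h6, by rw [← hDb]; exact h6',
          by rw [← hβ]; exact h7, ?_, ?_⟩
        · intro M K t hK hst
          refine h8 M K t hK ?_
          have hyR : y ∈ vs uq up (rr nQ nP a b) := by
            rw [← hR, ← hRS, Finset.mem_union]; right; exact hy
          have hdm : Disjoint (insert y (vs uq up (hb1 a b))) ((dm ℓ nQ nP).image (vx uq up)) := by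
            rw [Finset.disjoint_insert_left]
            constructor
            · have : Disjoint (rr nQ nP a b) (dm ℓ nQ nP) := by
                unfold rr dm
                (rw [Finset.disjoint_left]; intro x hx hx'; revert hx hx'; rcases x with x | x <;>
    simp only [Finset.mem_union, Finset.mem_insert, Finset.mem_singleton, inl_mem_full,
      inr_mem_full, inl_mem_iq, inr_mem_iq, inl_mem_ip, inr_mem_ip, Sum.inl.injEq, Sum.inr.injEq,
      reduceCtorEq, Finset.notMem_empty, or_false, false_or, false_imp_iff, imp_false,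
      implies_true, not_false_eq_true, iff_false, false_iff] <;> omega)
              exact Finset.disjoint_left.1 (h.disj hRf (by unfold dm; (intro x hx; revert hx; rcases x with x | x <;>
    simp only [Finset.mem_union, Finset.mem_insert, Finset.mem_singleton, inl_mem_full,
      inr_mem_full, inl_mem_iq, inr_mem_iq, inl_mem_ip, inr_mem_ip, Sum.inl.injEq, Sum.inr.injEq,
      reduceCtorEq, Finset.notMem_empty, or_false, false_or, false_imp_iff, imp_false,
      implies_true, not_false_eq_true, iff_false, false_iff] <;> omega)) this) hyR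
            · exact h.disj (by unfold hb1; (intro x hx; revert hx; rcases x with x | x <;>
    simp only [Finset.mem_union, Finset.mem_insert, Finset.mem_singleton, inl_mem_full,
      inr_mem_full, inl_mem_iq, inr_mem_iq, inl_mem_ip, inr_mem_ip, Sum.inl.injEq, Sum.inr.injEq,
      reduceCtorEq, Finset.notMem_empty, or_false, false_or, false_imp_iff, imp_false,
      implies_true, not_false_eq_true, iff_false, false_iff] <;> omega)) (by unfold dm; (intro x hx; revert hx; rcases x with x | x <;>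
    simp only [Finset.mem_union, Finset.mem_insert, Finset.mem_singleton, inl_mem_full,
      inr_mem_full, inl_mem_iq, inr_mem_iq, inl_mem_ip, inr_mem_ip, Sum.inl.injEq, Sum.inr.injEq,
      reduceCtorEq, Finset.notMem_empty, or_false, false_or, false_imp_iff, imp_false,
      implies_true, not_false_eq_true, iff_false, false_iff] <;> omega)) (by
                unfold hb1 dm
                (rw [Finset.disjoint_left]; intro x hx hx'; revert hx hx'; rcases x with x | x <;>
    simp only [Finset.mem_union, Finset.mem_insert, Finset.mem_singleton, inl_mem_full,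
      inr_mem_full, inl_mem_iq, inr_mem_iq, inl_mem_ip, inr_mem_ip, Sum.inl.injEq, Sum.inr.injEq,
      reduceCtorEq, Finset.notMem_empty, or_false, false_or, false_imp_iff, imp_false,
      implies_true, not_false_eq_true, iff_false, false_iff] <;> omega))
          have h10 := St.union hst (h.stDm hK) hdm
          have e1 : insert y (vs uq up (hb1 a b)) ∪ (dm ℓ nQ nP).image (vx uq up) =
              insert y Cv := by
            rw [hCv]
            unfold vs
            rw [Finset.image_union, Finset.insert_union]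
          rw [e1] at h10
          exact h10.mono (by norm_num) le_rfl (by norm_num)
        · intro M K t hK hst
          exact h9 M K t hK (h.withDm hK hst (by unfold hb1 rr; (intro x hx; revert hx; rcases x with x | x <;>
    simp only [Finset.mem_union, Finset.mem_insert, Finset.mem_singleton, inl_mem_full,
      inr_mem_full, inl_mem_iq, inr_mem_iq, inl_mem_ip, inr_mem_ip, Sum.inl.injEq, Sum.inr.injEq,
      reduceCtorEq, Finset.notMem_empty, or_false, false_or, false_imp_iff, imp_false,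
      implies_true, not_false_eq_true, iff_false, false_iff] <;> omega)))
    have hqn : 0 ≤ q a := h.sys.chQ.nn a (by omega)
    have hpn : 0 ≤ p b := h.sys.chP.nn b (by omega)
    have bQ : ∀ v ∈ Rs ∪ S, 0 ≤ im B v → ((im B v : ℤ) : ℝ) ≤ q a := by
      intro v hv' hv0
      rw [hRS, hR] at hv'
      unfold vs rr at hv'
      simp only [Finset.mem_image, Finset.mem_union, Sum.exists, inl_mem_iq, inl_mem_ip,
        inr_mem_iq, inr_mem_ip, or_false, false_or, vx, Sum.elim_inl, Sum.elim_inr] at hv'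
      rcases hv' with ⟨i, hi, rfl⟩ | ⟨i, hi, rfl⟩
      · rw [h.sys.wtQ i (by omega)]
        exact h.sys.chQ.anti a i hi.1 (by omega)
      · rw [h.sys.wtP i (by omega)]
        have := h.sys.chP.nn i (by omega)
        linarith
    have bP : ∀ v ∈ Rs ∪ S, im B v < 0 → -((im B v : ℤ) : ℝ) ≤ p b := by
      intro v hv' hv0
      rw [hRS, hR] at hv'
      unfold vs rr at hv'
      simp only [Finset.mem_image, Finset.mem_union, Sum.exists, inl_mem_iq, inl_mem_ip,
        inr_mem_iq, inr_mem_ip, or_false, false_or, vx, Sum.elim_inl, Sum.elim_inr] at hv'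
      rcases hv' with ⟨i, hi, rfl⟩ | ⟨i, hi, rfl⟩
      · have h7 := h.sys.wtQ i (by omega)
        have h8 := h.sys.chQ.nn i (by omega)
        have h9 : ((im B (uq i) : ℤ) : ℝ) < 0 := by exact_mod_cast hv0
        linarith
      · rw [h.sys.wtP i (by omega), neg_neg]
        exact h.sys.chP.anti b i hi.1 (by omega)
    have cr : ∀ Db : ℝ, Cr B (Rs ∪ S) Cv Db → CrI B uq up q p a b Db := by
      intro Db h3 M K t hK hqa hpb hst
      have h4 := h.withDm hK hst (by unfold hb1 rr; (intro x hx; revert hx; rcases x with x | x <;>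
    simp only [Finset.mem_union, Finset.mem_insert, Finset.mem_singleton, inl_mem_full,
      inr_mem_full, inl_mem_iq, inr_mem_iq, inl_mem_ip, inr_mem_ip, Sum.inl.injEq, Sum.inr.injEq,
      reduceCtorEq, Finset.notMem_empty, or_false, false_or, false_imp_iff, imp_false,
      implies_true, not_false_eq_true, iff_false, false_iff] <;> omega))
      exact h3 M K t (q a) (p b) hK h4 bQ hqa hqn bP hpb hpn
    refine ⟨?_, ?_⟩
    · intro F hF hF'
      rcases hTF F hF hF' with h3 | ⟨h3, h4⟩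
      · exact Or.inl (cr _ h3)
      · right
        refine ⟨conv _ _ ?_ _ _ ?_ h3, conv _ _ ?_ _ _ ?_ h4⟩
        all_goals first
          | (push_cast; done)
          | (push_cast; rw [himq]; done)
          | (push_cast; ring1)
          | (push_cast; rw [himq]; ring1)
    rcases hT1 with h3 | ⟨h3, h4, h5, h6⟩
    · left
      intro M K t hK hqa hpb hst
      have h4 := h.withDm hK hst (by unfold hb1 rr; (intro x hx; revert hx; rcases x with x | x <;>
    simp only [Finset.mem_union, Finset.mem_insert, Finset.mem_singleton, inl_mem_full,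
      inr_mem_full, inl_mem_iq, inr_mem_iq, inl_mem_ip, inr_mem_ip, Sum.inl.injEq, Sum.inr.injEq,
      reduceCtorEq, Finset.notMem_empty, or_false, false_or, false_imp_iff, imp_false,
      implies_true, not_false_eq_true, iff_false, false_iff] <;> omega))
      exact h3 M K t (q a) (p b) hK h4 bQ hqa hqn bP hpb hpn
    · right
      refine ⟨conv _ _ ?_ _ _ ?_ h3, conv _ _ ?_ _ _ ?_ h4,
        fun v hv' hv0 => conv _ _ ?_ _ _ ?_ (h5 v hv' hv0),
        fun hn v hv' => conv _ _ ?_ _ _ ?_ (h6 hn v hv')⟩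
      all_goals first
        | (push_cast; done)
        | (push_cast; rw [himq]; done)
        | (push_cast; ring1)
        | (push_cast; rw [himq]; ring1)

/-- **The path statement for a cut of the two chains.** -/
theorem Frame.cut (h : Frame B Rl ℓ nQ nP uq up q p) {a b : ℕ} (ha1 : 1 ≤ a) (haQ : a ≤ nQ)
    (hbP : b ≤ nP) (hq0 : 0 < q 0)
    (pick : Finset V → V) (hpick : ∀ K : Finset V, K.Nonempty → pick K ∈ K) :
    ∃ (Rs S : Finset V) (g : ℤ) (Kc : V → Finset V),
      Dec B pick (vs uq up (rr nQ nP a b)) Rs S g Kc ∧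
      ∀ cR e : ℤ, ch (MM B (uq 0)) (vs uq up (rr nQ nP a b)) ≤ cR → e ≤ 1 → (Rs = ∅ → e ≤ 0) →
        ∃ Y nb : ℤ, (0 ≤ Y ∧ (Rs = ∅ → Y = 0)) ∧ 0 ≤ nb ∧ e ≤ nb ∧ (Rs.Nonempty → 1 ≤ nb) ∧
          (Rs.card : ℤ) ≤ g + nb ∧ T2I B uq up a b S g Y ∧ T2A B uq up a b S g Y ∧
          (CrI B uq up q p a b ((max 0 (cR - e) : ℤ) : ℝ) ∨
            EndI B uq up (q 0) a b S g Y nb cR e) := by
  obtain ⟨Rs, S, g, Kc, h1, h2⟩ := h.cutF ha1 haQ hbP hq0 pick hpick
  refine ⟨Rs, S, g, Kc, h1, ?_⟩
  intro cR e h3 h4 h5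
  obtain ⟨Y, nb, h6, h7, h8, h9, h10, h11, h12, _, h13⟩ := h2 cR e h3 h4 h5
  exact ⟨Y, nb, h6, h7, h8, h9, h10, h11, h12, h13⟩

/-- from the end of the path to the last crossing or the simple end -/
lemma Frame.outI (h : Frame B Rl ℓ nQ nP uq up q p) {a b : ℕ} (hbP : b ≤ nP) {S : Finset V}
    (haQ : a ≤ nQ) (hS : S ⊆ vs uq up (rr nQ nP a b)) {D1 β : ℝ}
    (hO : OutI B uq up a b S D1 β) :
    CrTI B uq up p a b (D1 + 1) D1 ∨ EnI B uq up a b (D1 + 1) β := by
  have hQ := h.nQle
  have hP := h.nPle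
  rcases hO with hE | ⟨y, hy, h3, h4, D, L, h5, h6, h6', h7, h8, h9⟩
  · exact Or.inr (hE.mono (by linarith) le_rfl)
  · have hy0 : im B y < 0 := by linarith
    have hy0' : ((im B y : ℤ) : ℝ) < 0 := by exact_mod_cast hy0
    have hyp : -((im B y : ℤ) : ℝ) ≤ p b := by
      have hv' := hS hy
      unfold vs rr at hv'
      simp only [Finset.mem_image, Finset.mem_union, Sum.exists, inl_mem_iq, inl_mem_ip,
        inr_mem_iq, inr_mem_ip, or_false, false_or, vx, Sum.elim_inl, Sum.elim_inr] at hv'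
      rcases hv' with ⟨i, hi, hiy⟩ | ⟨i, hi, hiy⟩
      · have h7 := h.sys.wtQ i (by omega)
        have h8 := h.sys.chQ.nn i (by omega)
        rw [hiy] at h7
        linarith
      · have h7 := h.sys.wtP i (by omega)
        rw [hiy] at h7
        rw [h7, neg_neg]
        exact h.sys.chP.anti b i hi.1 (by omega)
    rcases lt_or_ge 0 (L + ((im B y : ℤ) : ℝ)) with h10 | h10
    · right
      refine ⟨D + MM B (uq 0) y, L + ((im B y : ℤ) : ℝ), h10.le, by linarith, by linarith, ?_⟩
      intro M K t hK hst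
      have := h9 M K t hK hst
      rw [abs_of_pos h10] at this
      exact this
    · left
      intro M K t κ hK hst
      have hsm : -(L + ((im B y : ℤ) : ℝ)) ≤ κ →
          Val B (D1 + 1 + M + max (max K κ) ((t + p b - 1) / 2)) := by
        intro h11
        have h12 := h9 M K t hK hst
        rw [abs_of_nonpos h10] at h12
        refine h12.mono ?_
        have h13 : max (max (-(L + ((im B y : ℤ) : ℝ))) K)
            ((-(L + ((im B y : ℤ) : ℝ)) + t) / 2) ≤ max (max K κ) ((t + p b - 1) / 2) :=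
          max_le_max (max_le (h11.trans (le_max_right _ _)) (le_max_left _ _)) (by linarith)
        linarith
      refine ⟨fun hκ => ?_, fun hκ => hsm (by linarith)⟩
      rcases le_or_gt (-(L + ((im B y : ℤ) : ℝ))) κ with h11 | h11
      · exact Or.inl (hsm h11)
      · right
        have hyC : Disjoint (vs uq up (hb1 a b)) {y} := by
          rw [Finset.disjoint_singleton_right]
          have : Disjoint (rr nQ nP a b) (hb1 a b) := by
            unfold rr hb1
            (rw [Finset.disjoint_left]; intro x hx hx'; revert hx hx'; rcases x with x | x <;>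
    simp only [Finset.mem_union, Finset.mem_insert, Finset.mem_singleton, inl_mem_full,
      inr_mem_full, inl_mem_iq, inr_mem_iq, inl_mem_ip, inr_mem_ip, Sum.inl.injEq, Sum.inr.injEq,
      reduceCtorEq, Finset.notMem_empty, or_false, false_or, false_imp_iff, imp_false,
      implies_true, not_false_eq_true, iff_false, false_iff] <;> omega)
          exact Finset.disjoint_left.1 (h.disj (by unfold rr; (intro x hx; revert hx; rcases x with x | x <;>
    simp only [Finset.mem_union, Finset.mem_insert, Finset.mem_singleton, inl_mem_full,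
      inr_mem_full, inl_mem_iq, inr_mem_iq, inl_mem_ip, inr_mem_ip, Sum.inl.injEq, Sum.inr.injEq,
      reduceCtorEq, Finset.notMem_empty, or_false, false_or, false_imp_iff, imp_false,
      implies_true, not_false_eq_true, iff_false, false_iff] <;> omega)) (by unfold hb1; (intro x hx; revert hx; rcases x with x | x <;>
    simp only [Finset.mem_union, Finset.mem_insert, Finset.mem_singleton, inl_mem_full,
      inr_mem_full, inl_mem_iq, inr_mem_iq, inl_mem_ip, inr_mem_ip, Sum.inl.injEq, Sum.inr.injEq,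
      reduceCtorEq, Finset.notMem_empty, or_false, false_or, false_imp_iff, imp_false,
      implies_true, not_false_eq_true, iff_false, false_iff] <;> omega))
            this) (hS hy)
        have h12 : St B (im B) {y} 0 (max K (p b)) (p b) :=
          (St.one h.sys.Bd y (K := -((im B y : ℤ) : ℝ)) (by rw [abs_of_neg hy0'])).mono le_rfl
            (hyp.trans (le_max_right _ _)) hyp
        have h14 := St.union (St.mono hst le_rfl (le_max_left K (p b)) le_rfl) h12 hyC
        have e : vs uq up (hb1 a b) ∪ {y} = insert y (vs uq up (hb1 a b)) := by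
          ext z; simp only [Finset.mem_union, Finset.mem_singleton, Finset.mem_insert]; tauto
        have h15 : St B (im B) (insert y (vs uq up (hb1 a b))) (M + 0) (max K (p b)) (t + p b) := by
          rw [← e]; exact h14
        refine (h8 _ _ _ (hK.trans (le_max_left _ _)) h15).mono ?_
        have hL : L ≤ p b - κ := by linarith
        have hLr : L ≤ p b := by linarith
        have h13 : max (max L (max K (p b))) ((L + (t + p b)) / 2) ≤
            max (max K (p b)) ((t + 2 * p b - κ) / 2) :=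
          max_le_max (max_le (hLr.trans (le_max_right _ _)) le_rfl) (by linarith)
        linarith

/-- the charges of the first hub -/
lemma Frame.chR (h : Frame B Rl ℓ nQ nP uq up q p) {a b : ℕ} (ha1 : 1 ≤ a) (haQ : a ≤ nQ)
    (hbP : b ≤ nP) {T : Finset V} (hT : T ⊆ vs uq up (hb1 a b)) :
    ((ch (MM B (uq 0)) (vs uq up (rr nQ nP a b)) +
      ∑ c ∈ T, (1 - (B (uq 0) c - B c (uq 0))) : ℤ) : ℝ) ≤ Rl.card - 1 - q 0 := by
  have hQ := h.nQle
  have hP := h.nPle
  have hRl : uq 0 ∈ Rl := by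
    rw [h.sys.realQ 0 (by omega)]; omega
  have himq : ((im B (uq 0) : ℤ) : ℝ) = q 0 := h.sys.wtQ 0 (by omega)
  have hsub : ∀ I ⊆ rr nQ nP 0 0, vs uq up I ⊆ Rl := by
    intro I hI
    rw [← h.real]
    exact vs_mono hI
  have hRRl : vs uq up (rr nQ nP a b) ⊆ Rl := hsub _ (by unfold rr; (intro x hx; revert hx; rcases x with x | x <;>
    simp only [Finset.mem_union, Finset.mem_insert, Finset.mem_singleton, inl_mem_full,
      inr_mem_full, inl_mem_iq, inr_mem_iq, inl_mem_ip, inr_mem_ip, Sum.inl.injEq, Sum.inr.injEq,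
      reduceCtorEq, Finset.notMem_empty, or_false, false_or, false_imp_iff, imp_false,
      implies_true, not_false_eq_true, iff_false, false_iff] <;> omega))
  have hTRl : T ⊆ Rl := hT.trans (hsub _ (by unfold hb1 rr; (intro x hx; revert hx; rcases x with x | x <;>
    simp only [Finset.mem_union, Finset.mem_insert, Finset.mem_singleton, inl_mem_full,
      inr_mem_full, inl_mem_iq, inr_mem_iq, inl_mem_ip, inr_mem_ip, Sum.inl.injEq, Sum.inr.injEq,
      reduceCtorEq, Finset.notMem_empty, or_false, false_or, false_imp_iff, imp_false,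
      implies_true, not_false_eq_true, iff_false, false_iff] <;> omega)))
  have hd : Disjoint (vs uq up (rr nQ nP a b)) T := by
    refine Finset.disjoint_of_subset_right hT (h.disj (by unfold rr; (intro x hx; revert hx; rcases x with x | x <;>
    simp only [Finset.mem_union, Finset.mem_insert, Finset.mem_singleton, inl_mem_full,
      inr_mem_full, inl_mem_iq, inr_mem_iq, inl_mem_ip, inr_mem_ip, Sum.inl.injEq, Sum.inr.injEq,
      reduceCtorEq, Finset.notMem_empty, or_false, false_or, false_imp_iff, imp_false,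
      implies_true, not_false_eq_true, iff_false, false_iff] <;> omega))
      (by unfold hb1; (intro x hx; revert hx; rcases x with x | x <;>
    simp only [Finset.mem_union, Finset.mem_insert, Finset.mem_singleton, inl_mem_full,
      inr_mem_full, inl_mem_iq, inr_mem_iq, inl_mem_ip, inr_mem_ip, Sum.inl.injEq, Sum.inr.injEq,
      reduceCtorEq, Finset.notMem_empty, or_false, false_or, false_imp_iff, imp_false,
      implies_true, not_false_eq_true, iff_false, false_iff] <;> omega)) ?_)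
    unfold rr hb1
    (rw [Finset.disjoint_left]; intro x hx hx'; revert hx hx'; rcases x with x | x <;>
    simp only [Finset.mem_union, Finset.mem_insert, Finset.mem_singleton, inl_mem_full,
      inr_mem_full, inl_mem_iq, inr_mem_iq, inl_mem_ip, inr_mem_ip, Sum.inl.injEq, Sum.inr.injEq,
      reduceCtorEq, Finset.notMem_empty, or_false, false_or, false_imp_iff, imp_false,
      implies_true, not_false_eq_true, iff_false, false_iff] <;> omega)
  have h0f : (Sum.inl 0 : ℕ ⊕ ℕ) ∈ full ℓ := by simp; omega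
  have hnot : ∀ I ⊆ full ℓ, (Sum.inl 0 : ℕ ⊕ ℕ) ∉ I → uq 0 ∉ vs uq up I := by
    intro I hI h0 hmem
    unfold vs at hmem
    rw [Finset.mem_image] at hmem
    obtain ⟨x, hx, hx'⟩ := hmem
    have := h.inj (hI hx) h0f hx'
    rw [this] at hx
    exact h0 hx
  have hh : uq 0 ∉ vs uq up (rr nQ nP a b) ∪ T := by
    rw [Finset.mem_union, not_or]
    refine ⟨hnot _ (by unfold rr; (intro x hx; revert hx; rcases x with x | x <;>
    simp only [Finset.mem_union, Finset.mem_insert, Finset.mem_singleton, inl_mem_full,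
      inr_mem_full, inl_mem_iq, inr_mem_iq, inl_mem_ip, inr_mem_ip, Sum.inl.injEq, Sum.inr.injEq,
      reduceCtorEq, Finset.notMem_empty, or_false, false_or, false_imp_iff, imp_false,
      implies_true, not_false_eq_true, iff_false, false_iff] <;> omega)) ?_, fun h' => hnot _ (by unfold hb1; (intro x hx; revert hx; rcases x with x | x <;>
    simp only [Finset.mem_union, Finset.mem_insert, Finset.mem_singleton, inl_mem_full,
      inr_mem_full, inl_mem_iq, inr_mem_iq, inl_mem_ip, inr_mem_ip, Sum.inl.injEq, Sum.inr.injEq,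
      reduceCtorEq, Finset.notMem_empty, or_false, false_or, false_imp_iff, imp_false,
      implies_true, not_false_eq_true, iff_false, false_iff] <;> omega)) ?_
      (hT h')⟩
    · unfold rr
      simp only [Finset.mem_union, inl_mem_iq, inl_mem_ip, or_false, not_and]
      omega
    · unfold hb1
      simp only [Finset.mem_union, inl_mem_iq, inl_mem_ip, or_false, not_and]
      omega
  have h3 := charge_sum h.sys.B0 h.sys.B1 h.sys.Bd h.sys.dummy hRl 1 (Or.inl rfl)
    (Finset.union_subset hRRl hTRl) hh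
  rw [one_mul, Finset.sum_union hd] at h3
  have h4 : ch (MM B (uq 0)) (vs uq up (rr nQ nP a b)) ≤
      ∑ v ∈ vs uq up (rr nQ nP a b), (1 - 1 * (B (uq 0) v - B v (uq 0))) := by
    unfold ch
    refine Finset.sum_le_sum fun v _ => ?_
    have h4 := mult_le h.sys.B0 h.sys.B1 (uq 0) v 1 (Or.inl rfl)
    refine le_trans ?_ h4
    split_ifs with h5
    · exact abs_nonneg _
    · have : MM B (uq 0) v - 1 ≠ 0 := fun e => h5 (by linarith)
      exact Int.one_le_abs this
  have h5 : ∑ c ∈ T, (1 - (B (uq 0) c - B c (uq 0))) =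
      ∑ c ∈ T, (1 - 1 * (B (uq 0) c - B c (uq 0))) :=
    Finset.sum_congr rfl fun c _ => by rw [one_mul]
  have h6 : ch (MM B (uq 0)) (vs uq up (rr nQ nP a b)) +
      ∑ c ∈ T, (1 - (B (uq 0) c - B c (uq 0))) ≤ Rl.card - 1 - im B (uq 0) := by
    rw [h5]; linarith
  rw [← himq]
  exact_mod_cast h6

end Pool.Agent.Exact


end

section

/-!
# Exchanging the two types
-/

set_option autoImplicit false
set_option linter.unusedSectionVars false

namespace Pool.Agent.Exact

open Finset

variable {V : Type*} [Fintype V] [DecidableEq V]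
variable {B : V → V → ℤ} {Rl : Finset V} {ℓ nQ nP : ℕ} {uq up : ℕ → V} {q p : ℕ → ℝ}

/-- the transposed digraph -/
def Tr (B : V → V → ℤ) : V → V → ℤ := fun u v => B v u

lemma im_Tr (v : V) : im (Tr B) v = - im B v := im_transpose v

lemma MM_Tr (u v : V) : MM (Tr B) u v = MM B u v := MM_transpose u v

lemma Qd_Tr (S : Finset V) (x : V → ℤ) : Qd (Tr B) S x = Qd B S x := Qd_transpose S x

lemma Val_Tr {r : ℝ} (h : Val (Tr B) r) : Val B r := Val_transpose h

lemma Chain.swap {u : ℕ → V} {L : ℕ} {w : ℕ → ℝ} (h : Chain (im B) u L w) :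
    Chain (im (Tr B)) u L w := by
  refine ⟨h.inj, ?_, h.anti, h.nn⟩
  rcases h.wt with h1 | h1
  · right
    intro i hi
    rw [im_Tr]
    push_cast
    rw [h1 i hi]
  · left
    intro i hi
    rw [im_Tr]
    push_cast
    rw [h1 i hi, neg_neg]

/-- exchanging the two types -/
lemma Frame.swap (h : Frame B Rl ℓ nQ nP uq up q p) : Frame (Tr B) Rl ℓ nP nQ up uq p q := by
  refine ⟨⟨fun u v => h.sys.B0 v u, fun u v => h.sys.B1 v u, fun v => h.sys.Bd v,
    fun v hv u => ⟨(h.sys.dummy v hv u).2, (h.sys.dummy v hv u).1⟩, h.sys.chP.swap, ?_,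
    h.sys.chQ.swap, ?_, fun i hi j hj e => h.sys.disj j hj i hi e.symm,
    fun v => (h.sys.cover v).symm, h.sys.realP, h.sys.realQ, ?_, h.sys.big⟩⟩
  · intro i hi
    rw [im_Tr]; push_cast; rw [h.sys.wtP i hi, neg_neg]
  · intro i hi
    rw [im_Tr]; push_cast; rw [h.sys.wtQ i hi]
  · rw [add_comm]; exact h.sys.card

lemma Grp.swap {S : Finset V} {M : ℤ} {l : List ℝ} (h : Grp B (im B) S M l) :
    Grp (Tr B) (im (Tr B)) S M (l.map fun d => -d) := by
  induction h with
  | empty => exact Grp.empty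
  | cons S M l T z hS hd hz ih =>
    have h1 := Grp.cons (B := Tr B) (s := im (Tr B)) S M _ T z ih hd hz
    rw [Qd_Tr] at h1
    have e : ((∑ v ∈ T, im (Tr B) v * z v : ℤ) : ℝ) = -((∑ v ∈ T, im B v * z v : ℤ) : ℝ) := by
      push_cast
      rw [← Finset.sum_neg_distrib]
      refine Finset.sum_congr rfl fun v _ => ?_
      rw [im_Tr]; push_cast; ring
    rw [e] at h1
    exact h1

lemma St.swap {S : Finset V} {M K t : ℝ} (h : St B (im B) S M K t) :
    St (Tr B) (im (Tr B)) S M K t := by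
  obtain ⟨m, l, h1, h2, h3, h4⟩ := h
  refine ⟨m, l.map fun d => -d, h1.swap, h2, ?_, ?_⟩
  · intro d hd
    rw [List.mem_map] at hd
    obtain ⟨e, he, rfl⟩ := hd
    rw [abs_neg]
    exact h3 e he
  · rw [List.map_map]
    have : ((fun d : ℝ => |d|) ∘ fun d : ℝ => -d) = fun d => |d| := by
      funext d; simp
    rw [this]
    exact h4

/-- structures on index sets after exchanging the two types -/
lemma StI.swap {I : Finset (ℕ ⊕ ℕ)} {M K t : ℝ}
    (h : StI (Tr B) up uq (I.image Sum.swap) M K t) : StI B uq up I M K t := by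
  unfold StI at h ⊢
  have h1 := St.swap (B := Tr B) h
  have e : (I.image Sum.swap).image (vx up uq) = I.image (vx uq up) := by
    rw [Finset.image_image]
    congr 1
    funext x
    rcases x with x | x <;> rfl
  rw [e] at h1
  exact h1

lemma swap_hb (a b : ℕ) : (hb a b).image Sum.swap = hb b a := by
  ext x
  rcases x with x | x
  · simp [hb, iq, ip]
  · simp [hb, iq, ip]

end Pool.Agent.Exact


end

section

/-!
# The arrangements of the remaining hubs
-/

set_option autoImplicit false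
set_option linter.unusedSectionVars false
set_option linter.unusedSimpArgs false
set_option linter.unnecessarySeqFocus false
set_option linter.unreachableTactic false
set_option linter.unusedTactic false

namespace Pool.Agent.Exact

open Finset

variable {V : Type*} [Fintype V] [DecidableEq V]
variable {B : V → V → ℤ} {Rl : Finset V} {ℓ nQ nP : ℕ} {uq up : ℕ → V} {q p : ℕ → ℝ}

/-- the pure arrangement: `(q₁,q₂), …` and `(p₀,p₁), …` -/
theorem Frame.aPure (h : Frame B Rl ℓ nQ nP uq up q p) {K : ℝ} (i j : ℕ) (hi : i < ℓ) (hj : j ≤ ℓ)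
    (hQ : ∀ l < i, q (2 * l + 1) - q (2 * l + 2) ≤ K)
    (hP : ∀ l < j, p (2 * l) - p (2 * l + 1) ≤ K) :
    StI B uq up (hb1 (2 * i + 1) (2 * j)) 0 K (q 0 - q (2 * i) - AA q i + AA p j) := by
  have h1 := h.Qo (K := K) 0 i (Nat.zero_le _) hi fun l _ h2 => hQ l h2
  have h2 := h.Pe (K := K) 0 j (Nat.zero_le _) hj fun l _ h2 => hP l h2
  have h3 := h.join (U := hb1 (2 * i + 1) (2 * j)) h1 h2 (by unfold hb1; (ext x; rcases x with x | x <;>
    simp only [Finset.mem_union, Finset.mem_insert, Finset.mem_singleton, inl_mem_full,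
      inr_mem_full, inl_mem_iq, inr_mem_iq, inl_mem_ip, inr_mem_ip, Sum.inl.injEq, Sum.inr.injEq,
      reduceCtorEq, Finset.notMem_empty, or_false, false_or, false_imp_iff, imp_false,
      implies_true, not_false_eq_true, iff_false, false_iff] <;> omega))
    (by unfold hb1; (intro x hx; revert hx; rcases x with x | x <;>
    simp only [Finset.mem_union, Finset.mem_insert, Finset.mem_singleton, inl_mem_full,
      inr_mem_full, inl_mem_iq, inr_mem_iq, inl_mem_ip, inr_mem_ip, Sum.inl.injEq, Sum.inr.injEq,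
      reduceCtorEq, Finset.notMem_empty, or_false, false_or, false_imp_iff, imp_false,
      implies_true, not_false_eq_true, iff_false, false_iff] <;> omega)) (by (rw [Finset.disjoint_left]; intro x hx hx'; revert hx hx'; rcases x with x | x <;>
    simp only [Finset.mem_union, Finset.mem_insert, Finset.mem_singleton, inl_mem_full,
      inr_mem_full, inl_mem_iq, inr_mem_iq, inl_mem_ip, inr_mem_ip, Sum.inl.injEq, Sum.inr.injEq,
      reduceCtorEq, Finset.notMem_empty, or_false, false_or, false_imp_iff, imp_false,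
      implies_true, not_false_eq_true, iff_false, false_iff] <;> omega))
  rw [AA_zero, AA_zero] at h3
  refine h3.mono (by norm_num) le_rfl ?_
  rw [Nat.mul_zero]
  linarith

/-- the mixed arrangement: `(q₁,p₀)` aligned, `(q₂,q₃), …` and `(p₁,p₂), …` -/
theorem Frame.aMix (h : Frame B Rl ℓ nQ nP uq up q p) {K : ℝ} (i j : ℕ) (hi : i + 1 ≤ ℓ)
    (hj : j < ℓ) (h0 : |q 1 - p 0| ≤ K)
    (hQ : ∀ l, 1 ≤ l → l < i + 1 → q (2 * l) - q (2 * l + 1) ≤ K)
    (hP : ∀ l < j, p (2 * l + 1) - p (2 * l + 2) ≤ K) :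
    StI B uq up (hb1 (2 * (i + 1)) (2 * j + 1)) (MM B (uq 1) (up 0)) K
      (|q 1 - p 0| + (AA q (i + 1) - AA q 1) + (p 0 - p (2 * j) - AA p j)) := by
  have hl := h.l2
  have h1 := h.Qe (K := K) 1 (i + 1) (by omega) hi hQ
  have h2 := h.Po (K := K) 0 j (Nat.zero_le _) hj fun l _ h2 => hP l h2
  have h3 := h.QP (K := K) 1 0 (by omega) (by omega) h0
  have h4 := h.join (U := {Sum.inl 1, Sum.inr 0} ∪ iq (2 * 1) (2 * (i + 1))) h3 h1 rfl
    (by (intro x hx; revert hx; rcases x with x | x <;>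
    simp only [Finset.mem_union, Finset.mem_insert, Finset.mem_singleton, inl_mem_full,
      inr_mem_full, inl_mem_iq, inr_mem_iq, inl_mem_ip, inr_mem_ip, Sum.inl.injEq, Sum.inr.injEq,
      reduceCtorEq, Finset.notMem_empty, or_false, false_or, false_imp_iff, imp_false,
      implies_true, not_false_eq_true, iff_false, false_iff] <;> omega)) (by (rw [Finset.disjoint_left]; intro x hx hx'; revert hx hx'; rcases x with x | x <;>
    simp only [Finset.mem_union, Finset.mem_insert, Finset.mem_singleton, inl_mem_full,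
      inr_mem_full, inl_mem_iq, inr_mem_iq, inl_mem_ip, inr_mem_ip, Sum.inl.injEq, Sum.inr.injEq,
      reduceCtorEq, Finset.notMem_empty, or_false, false_or, false_imp_iff, imp_false,
      implies_true, not_false_eq_true, iff_false, false_iff] <;> omega))
  have h5 := h.join (U := hb1 (2 * (i + 1)) (2 * j + 1)) h4 h2 (by unfold hb1; (ext x; rcases x with x | x <;>
    simp only [Finset.mem_union, Finset.mem_insert, Finset.mem_singleton, inl_mem_full,
      inr_mem_full, inl_mem_iq, inr_mem_iq, inl_mem_ip, inr_mem_ip, Sum.inl.injEq, Sum.inr.injEq,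
      reduceCtorEq, Finset.notMem_empty, or_false, false_or, false_imp_iff, imp_false,
      implies_true, not_false_eq_true, iff_false, false_iff] <;> omega))
    (by unfold hb1; (intro x hx; revert hx; rcases x with x | x <;>
    simp only [Finset.mem_union, Finset.mem_insert, Finset.mem_singleton, inl_mem_full,
      inr_mem_full, inl_mem_iq, inr_mem_iq, inl_mem_ip, inr_mem_ip, Sum.inl.injEq, Sum.inr.injEq,
      reduceCtorEq, Finset.notMem_empty, or_false, false_or, false_imp_iff, imp_false,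
      implies_true, not_false_eq_true, iff_false, false_iff] <;> omega)) (by (rw [Finset.disjoint_left]; intro x hx hx'; revert hx hx'; rcases x with x | x <;>
    simp only [Finset.mem_union, Finset.mem_insert, Finset.mem_singleton, inl_mem_full,
      inr_mem_full, inl_mem_iq, inr_mem_iq, inl_mem_ip, inr_mem_ip, Sum.inl.injEq, Sum.inr.injEq,
      reduceCtorEq, Finset.notMem_empty, or_false, false_or, false_imp_iff, imp_false,
      implies_true, not_false_eq_true, iff_false, false_iff] <;> omega))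
  rw [AA_zero] at h5
  refine h5.mono (by norm_num) le_rfl ?_
  rw [Nat.mul_zero]
  linarith

/-- crossing with the pure arrangement -/
theorem Frame.crPure (h : Frame B Rl ℓ nQ nP uq up q p) {K D θ : ℝ} (i j : ℕ) (hi : i < ℓ)
    (hj : j ≤ ℓ) (hK0 : 0 ≤ K) (hq : q (2 * i + 1) ≤ K) (hp : p (2 * j) ≤ K)
    (hQ : ∀ l < i, q (2 * l + 1) - q (2 * l + 2) ≤ K)
    (hP : ∀ l < j, p (2 * l) - p (2 * l + 1) ≤ K) (h1 : D + K ≤ θ)
    (h2 : D + (q 0 - q (2 * i) - AA q i + AA p j + q (2 * i + 1) + p (2 * j)) / 2 ≤ θ)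
    (hC : CrI B uq up q p (2 * i + 1) (2 * j) D) : Val B θ := by
  refine (hC _ K _ hK0 hq hp (h.aPure i j hi hj hQ hP)).mono ?_
  rw [add_zero, ← max_add_add_left]
  exact max_le h1 h2

/-- last crossing with the pure arrangement -/
theorem Frame.crsPure (h : Frame B Rl ℓ nQ nP uq up q p) {K D θ : ℝ} (i j : ℕ) (hi : i < ℓ)
    (hj : j ≤ ℓ) (hK0 : 0 ≤ K) (hp : p (2 * j) - 1 ≤ K)
    (hQ : ∀ l < i, q (2 * l + 1) - q (2 * l + 2) ≤ K)
    (hP : ∀ l < j, p (2 * l) - p (2 * l + 1) ≤ K) (h1 : D + K ≤ θ)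
    (h2 : D + (q 0 - q (2 * i) - AA q i + AA p j + p (2 * j) - 1) / 2 ≤ θ)
    (hC : CrSI B uq up p (2 * i + 1) (2 * j) D) : Val B θ := by
  refine (hC _ K _ hK0 hp (h.aPure i j hi hj hQ hP)).mono ?_
  rw [add_zero, ← max_add_add_left]
  exact max_le h1 h2

/-- crossing with the mixed arrangement -/
theorem Frame.crMix (h : Frame B Rl ℓ nQ nP uq up q p) {K D θ : ℝ} (i j : ℕ) (hi : i + 1 ≤ ℓ)
    (hj : j < ℓ) (hK0 : 0 ≤ K) (hq : q (2 * (i + 1)) ≤ K) (hp : p (2 * j + 1) ≤ K)
    (h0 : |q 1 - p 0| ≤ K)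
    (hQ : ∀ l, 1 ≤ l → l < i + 1 → q (2 * l) - q (2 * l + 1) ≤ K)
    (hP : ∀ l < j, p (2 * l + 1) - p (2 * l + 2) ≤ K)
    (h1 : D + MM B (uq 1) (up 0) + K ≤ θ)
    (h2 : D + MM B (uq 1) (up 0) + (|q 1 - p 0| + (AA q (i + 1) - AA q 1) +
      (p 0 - p (2 * j) - AA p j) + q (2 * (i + 1)) + p (2 * j + 1)) / 2 ≤ θ)
    (hC : CrI B uq up q p (2 * (i + 1)) (2 * j + 1) D) : Val B θ := by
  refine (hC _ K _ hK0 hq hp (h.aMix i j hi hj h0 hQ hP)).mono ?_
  rw [← max_add_add_left]
  exact max_le h1 h2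

/-- last crossing with the mixed arrangement -/
theorem Frame.crsMix (h : Frame B Rl ℓ nQ nP uq up q p) {K D θ : ℝ} (i j : ℕ) (hi : i + 1 ≤ ℓ)
    (hj : j < ℓ) (hK0 : 0 ≤ K) (hp : p (2 * j + 1) - 1 ≤ K)
    (h0 : |q 1 - p 0| ≤ K)
    (hQ : ∀ l, 1 ≤ l → l < i + 1 → q (2 * l) - q (2 * l + 1) ≤ K)
    (hP : ∀ l < j, p (2 * l + 1) - p (2 * l + 2) ≤ K)
    (h1 : D + MM B (uq 1) (up 0) + K ≤ θ)
    (h2 : D + MM B (uq 1) (up 0) + (|q 1 - p 0| + (AA q (i + 1) - AA q 1) +
      (p 0 - p (2 * j) - AA p j) + p (2 * j + 1) - 1) / 2 ≤ θ)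
    (hC : CrSI B uq up p (2 * (i + 1)) (2 * j + 1) D) : Val B θ := by
  refine (hC _ K _ hK0 hp (h.aMix i j hi hj h0 hQ hP)).mono ?_
  rw [← max_add_add_left]
  exact max_le h1 h2

end Pool.Agent.Exact


end

section

/-!
# Crossing in the leaves of the decision tree
-/

set_option autoImplicit false
set_option linter.unusedSectionVars false
set_option linter.unusedSimpArgs false
set_option linter.unnecessarySeqFocus false
set_option linter.unreachableTactic false
set_option linter.unusedTactic false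

namespace Pool.Agent.Exact

open Finset

variable {V : Type*} [Fintype V] [DecidableEq V]
variable {B : V → V → ℤ} {Rl : Finset V} {ℓ nQ nP : ℕ} {uq up : ℕ → V} {q p : ℕ → ℝ}

section basic

variable (h : Frame B Rl ℓ nQ nP uq up q p)
include h

lemma Frame.qa {i j : ℕ} (hij : i ≤ j) (hj : j < 2 * ℓ) : q j ≤ q i := h.sys.chQ.anti i j hij hj
lemma Frame.pa {i j : ℕ} (hij : i ≤ j) (hj : j < 2 * ℓ) : p j ≤ p i := h.sys.chP.anti i j hij hj
lemma Frame.qn {i : ℕ} (hi : i < 2 * ℓ) : 0 ≤ q i := h.sys.chQ.nn i hi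
lemma Frame.pn {i : ℕ} (hi : i < 2 * ℓ) : 0 ≤ p i := h.sys.chP.nn i hi

/-- `D(l) + AA(i) ≤ AA(j)` for `i ≤ l < j` -/
lemma Frame.qgA {i l j : ℕ} (h1 : i ≤ l) (h2 : l < j) (h3 : j ≤ ℓ) :
    AA q i + (q (2 * l) - q (2 * l + 1)) ≤ AA q j := by
  have := gap_le_AA h.sys.chQ h1 h2 (by omega)
  linarith

lemma Frame.pgA {i l j : ℕ} (h1 : i ≤ l) (h2 : l < j) (h3 : j ≤ ℓ) :
    AA p i + (p (2 * l) - p (2 * l + 1)) ≤ AA p j := h.swap.qgA h1 h2 h3

/-- monotonicity -/
lemma Frame.qAm {i j : ℕ} (h1 : i ≤ j) (h3 : j ≤ ℓ) : AA q i ≤ AA q j :=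
  AA_mono h.sys.chQ h1 (by omega)

lemma Frame.pAm {i j : ℕ} (h1 : i ≤ j) (h3 : j ≤ ℓ) : AA p i ≤ AA p j := h.swap.qAm h1 h3

/-- `A(j) - A(i) + q (2j) ≤ q (2i)` -/
lemma Frame.qE {i j : ℕ} (h1 : i ≤ j) (h3 : j < ℓ) : AA q j - AA q i + q (2 * j) ≤ q (2 * i) := by
  have := EE_mono h.sys.chQ h1 (by omega)
  linarith

lemma Frame.pE {i j : ℕ} (h1 : i ≤ j) (h3 : j < ℓ) : AA p j - AA p i + p (2 * j) ≤ p (2 * i) :=
  h.swap.qE h1 h3

/-- an even difference in the part `i ≤ l < j` -/
lemma Frame.qgE {i l j : ℕ} (h1 : i ≤ l) (h2 : l < j) (h3 : j < ℓ) :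
    AA q j - AA q i + q (2 * j) + (q (2 * l + 1) - q (2 * l + 2)) ≤ q (2 * i) := by
  have := gap_le_EE h.sys.chQ h1 h2 (by omega)
  linarith

lemma Frame.pgE {i l j : ℕ} (h1 : i ≤ l) (h2 : l < j) (h3 : j < ℓ) :
    AA p j - AA p i + p (2 * j) + (p (2 * l + 1) - p (2 * l + 2)) ≤ p (2 * i) :=
  h.swap.qgE h1 h2 h3

/-- the whole tail -/
lemma Frame.qT {i : ℕ} (hi : i < ℓ) : AA q ℓ - AA q i ≤ q (2 * i) := by
  have hl := h.l2
  have h1 := h.qE (i := i) (j := ℓ - 1) (by omega) (by omega)
  have h2 := AA_succ q (ℓ - 1)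
  rw [show ℓ - 1 + 1 = ℓ by omega] at h2
  have h3 := h.qn (i := 2 * (ℓ - 1) + 1) (by omega)
  linarith

lemma Frame.pT {i : ℕ} (hi : i < ℓ) : AA p ℓ - AA p i ≤ p (2 * i) := h.swap.qT hi

end basic

variable {θ ζ y lam : ℝ}

/-- leaf L1 -/
theorem Frame.leafL1 (h : Frame B Rl ℓ nQ nP uq up q p) (hq0 : q 0 = θ + y)
    (hθ : θ = ζ + y + lam) (hy : 0 ≤ y) {i : ℕ} (hi : i < ℓ)
    (hD : θ - 2 < q (2 * i) - q (2 * i + 1)) (hp : p 0 < y + 2) {D : ℝ}
    (hlam : D + 2 ≤ ζ + lam) :
    (CrI B uq up q p (2 * i + 1) 0 D → Val B θ) ∧ (CrSI B uq up p (2 * i + 1) 0 D → Val B θ) := by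
  have hl := h.l2
  have e1 := h.qgA (Nat.zero_le i) (Nat.lt_succ_self i) (by omega)
  have e2 := h.qE (Nat.zero_le i) hi
  have e4 := AA_succ q i
  have e6 := h.qn (i := 2 * i + 1) (by omega)
  have e7 := h.qAm (Nat.zero_le i) hi.le
  have e8 := h.pn (i := 0) (by omega)
  have e9 := AA_zero q
  have e10 := AA_zero p
  simp only [Nat.mul_zero, AA_zero, sub_zero] at e1 e2 e7
  have items : ∀ l < i, q (2 * l + 1) - q (2 * l + 2) ≤ y + 2 := by
    intro l hl'
    have := h.qgE (Nat.zero_le l) hl' hi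
    simp only [Nat.mul_zero, AA_zero, sub_zero] at this
    linarith
  constructor
  · intro hC
    refine h.crPure (K := y + 2) (D := D) i 0 hi (Nat.zero_le _) (by linarith) (by linarith)
      (by simpa using hp.le) items (fun l h3 => absurd h3 (Nat.not_lt_zero _)) (by linarith) ?_ hC
    simp only [Nat.mul_zero, AA_zero]
    linarith
  · intro hC
    refine h.crsPure (K := y + 2) (D := D) i 0 hi (Nat.zero_le _) (by linarith)
      (by simp only [Nat.mul_zero]; linarith) items (fun l h3 => absurd h3 (Nat.not_lt_zero _)) (by linarith) ?_ hC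
    simp only [Nat.mul_zero, AA_zero]
    linarith

/-- leaf 1a -/
theorem Frame.leaf1a (h : Frame B Rl ℓ nQ nP uq up q p) (hq0 : q 0 = θ + y) (hpq : p 0 ≤ q 0)
    (hθ : θ = ζ + y + lam) (hy : 0 ≤ y) {i j : ℕ} (hi : i < ℓ) (hj : j + 1 < ℓ)
    (hD : θ < q (2 * i) - q (2 * i + 1)) (hE : θ - 2 < p (2 * j + 1) - p (2 * j + 2)) {D : ℝ}
    (hlam : D + 2 ≤ ζ + lam) :
    (CrI B uq up q p (2 * i + 1) (2 * (j + 1)) D → Val B θ) ∧
      (CrSI B uq up p (2 * i + 1) (2 * (j + 1)) D → Val B θ) := by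
  have hl := h.l2
  have e1 := h.qgA (Nat.zero_le i) (Nat.lt_succ_self i) (by omega)
  have e2 := h.qE (Nat.zero_le i) hi
  have e4 := AA_succ q i
  have e6 := h.qn (i := 2 * i + 1) (by omega)
  have e7 := h.qAm (Nat.zero_le i) hi.le
  have f1 := h.pgE (Nat.zero_le j) (Nat.lt_succ_self j) (by omega)
  have f2 := h.pn (i := 2 * (j + 1)) (by omega)
  have f3 := h.pAm (Nat.zero_le (j + 1)) (by omega)
  have f4 := h.pa (i := 0) (j := 2 * (j + 1)) (Nat.zero_le _) (by omega)
  simp only [Nat.mul_zero, AA_zero, sub_zero] at e1 e2 e7 f1 f3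
  have f5 : p (2 * (j + 1)) = p (2 * j + 2) := by ring_nf
  simp only [Nat.succ_eq_add_one] at f1
  have items : ∀ l < i, q (2 * l + 1) - q (2 * l + 2) ≤ y + 2 := by
    intro l hl'
    have := h.qgE (Nat.zero_le l) hl' hi
    simp only [Nat.mul_zero, AA_zero, sub_zero] at this
    linarith
  have itemsP : ∀ l < j + 1, p (2 * l) - p (2 * l + 1) ≤ y + 2 := by
    intro l hl'
    have := h.pgA (Nat.zero_le l) hl' (by omega)
    simp only [AA_zero] at this
    linarith
  constructor
  · intro hC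
    refine h.crPure (K := y + 2) (D := D) i (j + 1) hi (by omega) (by linarith) (by linarith)
      (by linarith) items itemsP (by linarith) ?_ hC
    linarith
  · intro hC
    refine h.crsPure (K := y + 2) (D := D) i (j + 1) hi (by omega) (by linarith)
      (by linarith) items itemsP (by linarith) ?_ hC
    linarith

/-- leaf 1c -/
theorem Frame.leaf1c (h : Frame B Rl ℓ nQ nP uq up q p) (hq0 : q 0 = θ + y) (hpq : p 0 ≤ q 0)
    (hθ : θ = ζ + y + lam) (hy : 0 ≤ y) {i r : ℕ} (hi : i < ℓ) (hr : r < ℓ) {MB : ℝ}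
    (hD : θ < q (2 * i) - q (2 * i + 1)) (hA : AA q ℓ + AA p ℓ < 2 * y + 2 * MB)
    (hh : ∀ l < r, θ < p (2 * l + 1)) (hp : p (2 * r) < q (2 * i) - q (2 * i + 1) - θ + 2)
    {D : ℝ} (hlam : D + 2 ≤ ζ + lam) (hM : 2 * D + 2 * MB + 2 ≤ 3 * ζ + 3 * lam) :
    (CrI B uq up q p (2 * i + 1) (2 * r) D → Val B θ) ∧
      (CrSI B uq up p (2 * i + 1) (2 * r) D → Val B θ) := by
  have hl := h.l2
  have e1 := h.qgA (Nat.zero_le i) (Nat.lt_succ_self i) (by omega)
  have e2 := h.qE (Nat.zero_le i) hi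
  have e4 := AA_succ q i
  have e5 := h.qAm (i := i + 1) (j := ℓ) (by omega) le_rfl
  have e6 := h.qn (i := 2 * i + 1) (by omega)
  have e7 := h.qAm (Nat.zero_le i) hi.le
  have f1 := h.pAm (i := r) (j := ℓ) (by omega) le_rfl
  simp only [Nat.mul_zero, AA_zero, sub_zero] at e1 e2 e7
  simp only [Nat.succ_eq_add_one] at e1
  have items : ∀ l < i, q (2 * l + 1) - q (2 * l + 2) ≤ y + 2 := by
    intro l hl'
    have := h.qgE (Nat.zero_le l) hl' hi
    simp only [Nat.mul_zero, AA_zero, sub_zero] at this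
    linarith
  have itemsP : ∀ l < r, p (2 * l) - p (2 * l + 1) ≤ y + 2 := by
    intro l hl'
    have h1 := hh l hl'
    have h2 := h.pa (i := 0) (j := 2 * l) (Nat.zero_le _) (by omega)
    linarith
  constructor
  · intro hC
    refine h.crPure (K := y + 2) (D := D) i r hi hr.le (by linarith) (by linarith)
      (by linarith) items itemsP (by linarith) ?_ hC
    linarith
  · intro hC
    refine h.crsPure (K := y + 2) (D := D) i r hi hr.le (by linarith)
      (by linarith) items itemsP (by linarith) ?_ hC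
    linarith

/-- leaf 2a -/
theorem Frame.leaf2a (h : Frame B Rl ℓ nQ nP uq up q p) (hq0 : q 0 = θ + y) (hpq : p 0 ≤ q 0 - 1)
    {i j : ℕ} (hi : i + 1 < ℓ) (hj : j < ℓ) {MB : ℝ} (hMB : 0 ≤ MB)
    (hE : θ - MB < q (2 * i + 1) - q (2 * i + 2)) (hD : θ < p (2 * j) - p (2 * j + 1))
    {D : ℝ} (h1 : D + MM B (uq 1) (up 0) + (y + MB - (q 0 - q 1)) ≤ θ)
    (h2 : D + MM B (uq 1) (up 0) + (y - 1 + MB) ≤ θ) :
    (CrI B uq up q p (2 * (i + 1)) (2 * j + 1) D → Val B θ) ∧
      (CrSI B uq up p (2 * (i + 1)) (2 * j + 1) D → Val B θ) := by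
  have hl := h.l2
  have e1 := h.qgE (Nat.zero_le i) (Nat.lt_succ_self i) (by omega)
  have e2 := AA_succ q 0
  have e3 := h.qn (i := 2 * (i + 1)) (by omega)
  have e4 := h.qa (i := 1) (j := 2 * i + 1) (by omega) (by omega)
  have e5 := h.qa (i := 0) (j := 1) (by omega) (by omega)
  have e6 : q (2 * (i + 1)) = q (2 * i + 2) := by ring_nf
  have e7 := h.qAm (i := 1) (j := i + 1) (by omega) (by omega)
  have f1 := h.pgA (Nat.zero_le j) (Nat.lt_succ_self j) (by omega)
  have f2 := h.pE (Nat.zero_le j) hj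
  have f4 := AA_succ p j
  have f6 := h.pn (i := 2 * j + 1) (by omega)
  have f7 := h.pAm (Nat.zero_le j) hj.le
  have f8 := h.pa (i := 0) (j := 2 * j) (Nat.zero_le _) (by omega)
  simp only [Nat.mul_zero, AA_zero, sub_zero, Nat.succ_eq_add_one, zero_add] at e1 e2 f1 f2 f7
  set K := max (y + MB - (q 0 - q 1)) (y - 1 + MB) with hK
  have k1 : y + MB - (q 0 - q 1) ≤ K := le_max_left _ _
  have k2 : y - 1 + MB ≤ K := le_max_right _ _
  have k3 : D + MM B (uq 1) (up 0) + K ≤ θ := by
    rw [hK, ← max_add_add_left]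
    exact max_le h1 h2
  have k0 : 0 ≤ K := by linarith
  have i0 : |q 1 - p 0| ≤ K := by
    rw [abs_le]; constructor <;> linarith
  have iQ : ∀ l, 1 ≤ l → l < i + 1 → q (2 * l) - q (2 * l + 1) ≤ K := by
    intro l h5 h6
    have := h.qgA h5 h6 (by omega)
    linarith
  have iP : ∀ l < j, p (2 * l + 1) - p (2 * l + 2) ≤ K := by
    intro l h6
    have := h.pgE (Nat.zero_le l) h6 hj
    simp only [Nat.mul_zero, AA_zero, sub_zero] at this
    linarith
  have ht : D + MM B (uq 1) (up 0) + (|q 1 - p 0| + (AA q (i + 1) - AA q 1) +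
      (p 0 - p (2 * j) - AA p j) + q (2 * (i + 1)) + p (2 * j + 1)) / 2 ≤ θ := by
    rcases abs_cases (q 1 - p 0) with ⟨h5, _⟩ | ⟨h5, _⟩ <;> rw [h5] <;> linarith
  constructor
  · intro hC
    exact h.crMix (K := K) (D := D) i j hi.le hj k0 (by linarith) (by linarith) i0 iQ iP k3 ht hC
  · intro hC
    exact h.crsMix (K := K) (D := D) i j hi.le hj k0 (by linarith) i0 iQ iP k3 (by linarith) hC

/-- leaf 2c, normal crossing -/
theorem Frame.leaf2c (h : Frame B Rl ℓ nQ nP uq up q p) (hq0 : q 0 = θ + y) (hpq : p 0 ≤ q 0 - 1)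
    (hθ : θ = ζ + y + lam) {i j : ℕ} (hi : i + 1 < ℓ) (hj : j < ℓ) {MB : ℝ}
    (hD : θ < p (2 * j) - p (2 * j + 1)) (hA : AA q ℓ + AA p ℓ < 2 * y + 2 * MB)
    (hq : q (2 * (i + 1)) < p (2 * j) - p (2 * j + 1) - θ + 2)
    {D : ℝ} (h1 : D + MM B (uq 1) (up 0) + (y + 1) ≤ θ)
    (h2 : D + MM B (uq 1) (up 0) + (y - ζ - lam + 2 * MB) ≤ θ)
    (h3 : D + MM B (uq 1) (up 0) + (2 * y - ζ - lam - 2 * (q 0 - q 1) + 2 * MB + 2) / 2 ≤ θ)
    (hC : CrI B uq up q p (2 * (i + 1)) (2 * j + 1) D) : Val B θ := by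
  have hl := h.l2
  have e2 := AA_succ q 0
  have e4 := h.qAm (i := 1) (j := ℓ) (by omega) le_rfl
  have e5 := h.qa (i := 0) (j := 1) (by omega) (by omega)
  have e7 := h.qAm (i := 1) (j := i + 1) (by omega) (by omega)
  have e8 := h.qAm (i := i + 1) (j := ℓ) (by omega) le_rfl
  have f1 := h.pgA (Nat.zero_le j) (Nat.lt_succ_self j) (by omega)
  have f2 := h.pE (Nat.zero_le j) hj
  have f4 := AA_succ p j
  have f5 := h.pAm (i := j + 1) (j := ℓ) (by omega) le_rfl
  have f6 := h.pn (i := 2 * j + 1) (by omega)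
  have f7 := h.pAm (Nat.zero_le j) hj.le
  have f8 := h.pa (i := 0) (j := 2 * j) (Nat.zero_le _) (by omega)
  simp only [Nat.mul_zero, AA_zero, sub_zero, Nat.succ_eq_add_one, zero_add] at e2 f1 f2 f7
  set K := max (y + 1) (y - ζ - lam + 2 * MB) with hK
  have k1 : y + 1 ≤ K := le_max_left _ _
  have k2 : y - ζ - lam + 2 * MB ≤ K := le_max_right _ _
  have k3 : D + MM B (uq 1) (up 0) + K ≤ θ := by
    rw [hK, ← max_add_add_left]
    exact max_le h1 h2
  have k0 : 0 ≤ K := by linarith
  have i0 : |q 1 - p 0| ≤ K := by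
    rw [abs_le]; constructor <;> linarith
  have iQ : ∀ l, 1 ≤ l → l < i + 1 → q (2 * l) - q (2 * l + 1) ≤ K := by
    intro l h5 h6
    have := h.qgA h5 h6 (by omega)
    linarith
  have iP : ∀ l < j, p (2 * l + 1) - p (2 * l + 2) ≤ K := by
    intro l h6
    have := h.pgE (Nat.zero_le l) h6 hj
    simp only [Nat.mul_zero, AA_zero, sub_zero] at this
    linarith
  have ht : D + MM B (uq 1) (up 0) + (|q 1 - p 0| + (AA q (i + 1) - AA q 1) +
      (p 0 - p (2 * j) - AA p j) + q (2 * (i + 1)) + p (2 * j + 1)) / 2 ≤ θ := by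
    rcases abs_cases (q 1 - p 0) with ⟨h5, _⟩ | ⟨h5, _⟩ <;> rw [h5] <;> linarith
  exact h.crMix (K := K) (D := D) i j hi.le hj k0 (by linarith) (by linarith) i0 iQ iP k3 ht hC

/-- leaf 2c, last crossing -/
theorem Frame.leaf2cs (h : Frame B Rl ℓ nQ nP uq up q p) (hq0 : q 0 = θ + y) (hpq : p 0 ≤ q 0 - 1)
    (hθ : θ = ζ + y + lam) {i j : ℕ} (hi : i + 1 < ℓ) (hj : j < ℓ) {MB : ℝ}
    (hD : θ < p (2 * j) - p (2 * j + 1)) (hA : AA q ℓ + AA p ℓ < 2 * y + 2 * MB)
    {D : ℝ} (h1 : D + MM B (uq 1) (up 0) + y ≤ θ)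
    (h2 : D + MM B (uq 1) (up 0) + (y - ζ - lam + 2 * MB) ≤ θ)
    (hC : CrSI B uq up p (2 * (i + 1)) (2 * j + 1) D) : Val B θ := by
  have hl := h.l2
  have e2 := AA_succ q 0
  have e4 := h.qAm (i := 1) (j := ℓ) (by omega) le_rfl
  have e5 := h.qa (i := 0) (j := 1) (by omega) (by omega)
  have e7 := h.qAm (i := 1) (j := i + 1) (by omega) (by omega)
  have e8 := h.qAm (i := i + 1) (j := ℓ) (by omega) le_rfl
  have f1 := h.pgA (Nat.zero_le j) (Nat.lt_succ_self j) (by omega)
  have f2 := h.pE (Nat.zero_le j) hj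
  have f4 := AA_succ p j
  have f5 := h.pAm (i := j + 1) (j := ℓ) (by omega) le_rfl
  have f6 := h.pn (i := 2 * j + 1) (by omega)
  have f7 := h.pAm (Nat.zero_le j) hj.le
  have f8 := h.pa (i := 0) (j := 2 * j) (Nat.zero_le _) (by omega)
  simp only [Nat.mul_zero, AA_zero, sub_zero, Nat.succ_eq_add_one, zero_add] at e2 f1 f2 f7
  set K := max y (y - ζ - lam + 2 * MB) with hK
  have k1 : y ≤ K := le_max_left _ _
  have k2 : y - ζ - lam + 2 * MB ≤ K := le_max_right _ _
  have k3 : D + MM B (uq 1) (up 0) + K ≤ θ := by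
    rw [hK, ← max_add_add_left]
    exact max_le h1 h2
  have k0 : 0 ≤ K := by linarith
  have i0 : |q 1 - p 0| ≤ K := by
    rw [abs_le]; constructor <;> linarith
  have iQ : ∀ l, 1 ≤ l → l < i + 1 → q (2 * l) - q (2 * l + 1) ≤ K := by
    intro l h5 h6
    have := h.qgA h5 h6 (by omega)
    linarith
  have iP : ∀ l < j, p (2 * l + 1) - p (2 * l + 2) ≤ K := by
    intro l h6
    have := h.pgE (Nat.zero_le l) h6 hj
    simp only [Nat.mul_zero, AA_zero, sub_zero] at this
    linarith
  have ht : D + MM B (uq 1) (up 0) + (|q 1 - p 0| + (AA q (i + 1) - AA q 1) +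
      (p 0 - p (2 * j) - AA p j) + p (2 * j + 1)) / 2 ≤ θ := by
    rcases abs_cases (q 1 - p 0) with ⟨h5, _⟩ | ⟨h5, _⟩ <;> rw [h5] <;> linarith
  exact h.crsMix (K := K) (D := D) i j hi.le hj k0 (by linarith) i0 iQ iP k3 (by linarith) hC

/-- leaf 3b -/
theorem Frame.leaf3b (h : Frame B Rl ℓ nQ nP uq up q p) (hq0 : q 0 = θ + y) (hpq : p 0 ≤ q 0)
    (hθ : θ = ζ + y + lam) (hy : 0 ≤ y) {l j : ℕ} (hi : l < ℓ) (hj : j + 1 < ℓ) {MB MH : ℝ}
    (hMB : MB ≤ 2) (hE : θ - MB < p (2 * j + 1) - p (2 * j + 2)) (hA : 2 * θ < AA q ℓ + AA p ℓ)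
    (hq : q (2 * l + 1) < p (2 * j + 1) - p (2 * j + 2) - θ + MH)
    {D : ℝ} (hlam : D + 2 ≤ ζ + lam) (hMH : MH ≤ ζ + lam + 2) (hMB' : MB ≤ ζ + lam + 2) :
    (CrI B uq up q p (2 * l + 1) (2 * (j + 1)) D → Val B θ) ∧
      (CrSI B uq up p (2 * l + 1) (2 * (j + 1)) D → Val B θ) := by
  have hl := h.l2
  have e1 := h.qT hi
  have e2 := h.qT (i := 0) (by omega)
  have e6 := h.qn (i := 2 * l + 1) (by omega)
  have f1 := h.pgE (Nat.zero_le j) (Nat.lt_succ_self j) (by omega)
  have f2 := h.pn (i := 2 * (j + 1)) (by omega)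
  have f3 := h.pAm (Nat.zero_le (j + 1)) (by omega)
  have f4 := h.pT (i := j + 1) (by omega)
  have f5 : p (2 * (j + 1)) = p (2 * j + 2) := by ring_nf
  simp only [Nat.mul_zero, AA_zero, sub_zero, Nat.succ_eq_add_one] at f1 f3 e2
  have e7 := h.qAm (i := l) (j := ℓ) (by omega) le_rfl
  have items : ∀ l' < l, q (2 * l' + 1) - q (2 * l' + 2) ≤ y + 2 := by
    intro l' hl'
    have := h.qgE (Nat.zero_le l') hl' hi
    simp only [Nat.mul_zero, AA_zero, sub_zero] at this
    linarith
  have itemsP : ∀ l' < j + 1, p (2 * l') - p (2 * l' + 1) ≤ y + 2 := by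
    intro l' hl'
    have := h.pgA (Nat.zero_le l') hl' (by omega)
    simp only [AA_zero] at this
    linarith
  constructor
  · intro hC
    refine h.crPure (K := y + 2) (D := D) l (j + 1) hi (by omega) (by linarith) (by linarith)
      (by linarith) items itemsP (by linarith) ?_ hC
    linarith
  · intro hC
    refine h.crsPure (K := y + 2) (D := D) l (j + 1) hi (by omega) (by linarith)
      (by linarith) items itemsP (by linarith) ?_ hC
    linarith

/-- leaf 3c -/
theorem Frame.leaf3c (h : Frame B Rl ℓ nQ nP uq up q p) (hq0 : q 0 = θ + y) (hpq : p 0 ≤ q 0)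
    (hθ : θ = ζ + y + lam) (hzl : 0 ≤ ζ + lam) {i l : ℕ} (hi : i + 1 < ℓ)
    (hj : l < ℓ) {MB MH : ℝ}
    (hE : θ - MB < q (2 * i + 1) - q (2 * i + 2)) (hA : 2 * θ < AA q ℓ + AA p ℓ)
    (hp : p (2 * l + 1) < q (2 * i + 1) - q (2 * i + 2) - θ + MH)
    {D : ℝ} (h1 : D + MM B (uq 1) (up 0) + (y + MB) ≤ θ)
    (h2 : D + MM B (uq 1) (up 0) + (y - ζ - lam + MH) ≤ θ) :
    (CrI B uq up q p (2 * (i + 1)) (2 * l + 1) D → Val B θ) ∧
      (CrSI B uq up p (2 * (i + 1)) (2 * l + 1) D → Val B θ) := by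
  have hl := h.l2
  have e1 := h.qgE (Nat.zero_le i) (Nat.lt_succ_self i) (by omega)
  have e2 := AA_succ q 0
  have e3 := h.qn (i := 2 * (i + 1)) (by omega)
  have e4 := h.qa (i := 1) (j := 2 * i + 1) (by omega) (by omega)
  have e5 := h.qa (i := 0) (j := 1) (by omega) (by omega)
  have e6 : q (2 * (i + 1)) = q (2 * i + 2) := by ring_nf
  have e7 := h.qAm (i := 1) (j := i + 1) (by omega) (by omega)
  have e8 := h.qT (i := i + 1) (by omega)
  have f1 := h.pT hj
  have f2 := h.pT (i := 0) (by omega)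
  have f3 := h.pn (i := 2 * l + 1) (by omega)
  simp only [Nat.mul_zero, AA_zero, sub_zero, Nat.succ_eq_add_one, zero_add] at e1 e2 f2
  set K := max (y + MB) (y - ζ - lam + MH) with hK
  have k1 : y + MB ≤ K := le_max_left _ _
  have k2 : y - ζ - lam + MH ≤ K := le_max_right _ _
  have k3 : D + MM B (uq 1) (up 0) + K ≤ θ := by
    rw [hK, ← max_add_add_left]
    exact max_le h1 h2
  have k0 : 0 ≤ K := by linarith
  have i0 : |q 1 - p 0| ≤ K := by
    rw [abs_le]; constructor <;> linarith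
  have iQ : ∀ l', 1 ≤ l' → l' < i + 1 → q (2 * l') - q (2 * l' + 1) ≤ K := by
    intro l' h5 h6
    have := h.qgA h5 h6 (by omega)
    linarith
  have iP : ∀ l' < l, p (2 * l' + 1) - p (2 * l' + 2) ≤ K := by
    intro l' h6
    have := h.pgE (Nat.zero_le l') h6 hj
    simp only [Nat.mul_zero, AA_zero, sub_zero] at this
    linarith
  have ht : D + MM B (uq 1) (up 0) + (|q 1 - p 0| + (AA q (i + 1) - AA q 1) +
      (p 0 - p (2 * l) - AA p l) + q (2 * (i + 1)) + p (2 * l + 1)) / 2 ≤ θ := by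
    rcases abs_cases (q 1 - p 0) with ⟨h5, _⟩ | ⟨h5, _⟩ <;> rw [h5] <;> linarith
  constructor
  · intro hC
    exact h.crMix (K := K) (D := D) i l hi.le hj k0 (by linarith) (by linarith) i0 iQ iP k3 ht hC
  · intro hC
    exact h.crsMix (K := K) (D := D) i l hi.le hj k0 (by linarith) i0 iQ iP k3 (by linarith) hC

end Pool.Agent.Exact


end

section

/-!
# The remaining static structures

`sG3P` is the structure `sG3Q` for the other type, `sH` aligns the two largest vertices and uses a
triple, `sE1` aligns `q (2l)` with `p 0`.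
-/

set_option autoImplicit false
set_option linter.unusedSectionVars false

namespace Pool.Agent.Exact

open Finset

variable {V : Type*} [Fintype V] [DecidableEq V]
variable {B : V → V → ℤ} {Rl : Finset V} {ℓ nQ nP : ℕ} {uq up : ℕ → V} {q p : ℕ → ℝ}

/-- the triple `p_{2i}+, p_{2i+1}-, q_{2r}+` -/
theorem Frame.sG3P (h : Frame B Rl ℓ nQ nP uq up q p) {K : ℝ} (hK0 : 0 ≤ K) (i r : ℕ)
    (hi : i < ℓ) (hr : r < ℓ) (h0 : |p (2 * i) - p (2 * i + 1) - q (2 * r)| ≤ K)
    (hP : ∀ l < ℓ, l ≠ i → p (2 * l) - p (2 * l + 1) ≤ K)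
    (hQ1 : ∀ l < r, q (2 * l) - q (2 * l + 1) ≤ K)
    (hQ2 : ∀ l, r ≤ l → l + 1 < ℓ → q (2 * l + 1) - q (2 * l + 2) ≤ K) :
    Val B (((MM B (up (2 * i)) (uq (2 * r)) - MM B (up (2 * i)) (up (2 * i + 1)) -
        MM B (up (2 * i + 1)) (uq (2 * r)) : ℤ) : ℝ) +
      max K ((|p (2 * i) - p (2 * i + 1) - q (2 * r)| + (AA p ℓ - (p (2 * i) - p (2 * i + 1))) +
        (AA q r + q (2 * r) - (AA q ℓ - AA q r))) / 2)) := by
  have h1 := h.swap.sG3Q hK0 i r hi hr h0 hP hQ1 hQ2
  simp only [MM_Tr] at h1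
  exact Val_Tr h1

/-- the tops aligned, and the triple `p_{2j+1}+, p_{2j+2}-, q_{2l+1}+` -/
theorem Frame.sH (h : Frame B Rl ℓ nQ nP uq up q p) {K : ℝ} (hK0 : 0 ≤ K) (j l : ℕ)
    (hj : j + 1 < ℓ) (hl : l < ℓ) (h0 : |q 0 - p 0| ≤ K)
    (h1 : |p (2 * j + 1) - p (2 * j + 2) - q (2 * l + 1)| ≤ K)
    (hQ1 : ∀ i < l, q (2 * i + 1) - q (2 * i + 2) ≤ K)
    (hQ2 : ∀ i < ℓ, l < i → q (2 * i) - q (2 * i + 1) ≤ K)
    (hP : ∀ i, i + 1 < ℓ → i ≠ j → p (2 * i + 1) - p (2 * i + 2) ≤ K) :
    Val B (((MM B (uq 0) (up 0) + (MM B (up (2 * j + 1)) (uq (2 * l + 1)) -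
        MM B (up (2 * j + 1)) (up (2 * j + 2)) - MM B (up (2 * j + 2)) (uq (2 * l + 1))) : ℤ) : ℝ) +
      max K ((|q 0 - p 0| + |p (2 * j + 1) - p (2 * j + 2) - q (2 * l + 1)| +
        (q 0 - q (2 * l) - AA q l) + (AA q ℓ - AA q (l + 1)) +
        (p 0 - AA p ℓ - (p (2 * j + 1) - p (2 * j + 2)))) / 2)) := by
  have hl2 := h.l2
  have a1 := h.Qo (K := K) 0 l (Nat.zero_le _) hl fun i _ h2 => hQ1 i h2
  have a2 := h.Qe (K := K) (l + 1) ℓ (by omega) le_rfl fun i h2 h3 => hQ2 i h3 (by omega)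
  have a3 := h.Po (K := K) 0 j (Nat.zero_le _) (by omega) fun i _ h2 => hP i (by omega) (by omega)
  have a4 := h.Pot (K := K) hK0 (j + 1) hj fun i h2 h3 => hP i h3 (by omega)
  have a5 := h.QP (K := K) 0 0 (by omega) (by omega) h0
  have a6 := h.tri (x := Sum.inr (2 * j + 1)) (y := Sum.inr (2 * j + 2))
    (z := Sum.inl (2 * l + 1))
    (by rw [inr_mem_full]; omega) (by rw [inr_mem_full]; omega) (by rw [inl_mem_full]; omega)
    (by simp) (by simp) (by simp) 1 (-1) 1 (Or.inl rfl) (Or.inr rfl) (Or.inl rfl) le_rfl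
    (K := |p (2 * j + 1) - p (2 * j + 2) - q (2 * l + 1)|) (by
      have e1 := h.sys.wtP (2 * j + 1) (by omega)
      have e2 := h.sys.wtP (2 * j + 2) (by omega)
      have e3 := h.sys.wtQ (2 * l + 1) (by omega)
      push_cast
      simp only [vx, Sum.elim_inl, Sum.elim_inr]
      rw [e1, e2, e3, ← abs_neg]
      apply le_of_eq
      congr 1
      ring)
  have a6' := a6.mono le_rfl h1 le_rfl
  have b1 := h.jn a1 a2 (by (intro x hx; revert hx; rcases x with x | x <;>
    simp only [Finset.mem_union, Finset.mem_insert, Finset.mem_singleton, inl_mem_full,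
      inr_mem_full, inl_mem_iq, inr_mem_iq, inl_mem_ip, inr_mem_ip, Sum.inl.injEq, Sum.inr.injEq,
      reduceCtorEq, Finset.notMem_empty, or_false, false_or, false_imp_iff, imp_false,
      implies_true, not_false_eq_true, iff_false, false_iff] <;> omega)) (by (rw [Finset.disjoint_left]; intro x hx hx'; revert hx hx'; rcases x with x | x <;>
    simp only [Finset.mem_union, Finset.mem_insert, Finset.mem_singleton, inl_mem_full,
      inr_mem_full, inl_mem_iq, inr_mem_iq, inl_mem_ip, inr_mem_ip, Sum.inl.injEq, Sum.inr.injEq,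
      reduceCtorEq, Finset.notMem_empty, or_false, false_or, false_imp_iff, imp_false,
      implies_true, not_false_eq_true, iff_false, false_iff] <;> omega))
  have b2 := h.jn a3 a4 (by (intro x hx; revert hx; rcases x with x | x <;>
    simp only [Finset.mem_union, Finset.mem_insert, Finset.mem_singleton, inl_mem_full,
      inr_mem_full, inl_mem_iq, inr_mem_iq, inl_mem_ip, inr_mem_ip, Sum.inl.injEq, Sum.inr.injEq,
      reduceCtorEq, Finset.notMem_empty, or_false, false_or, false_imp_iff, imp_false,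
      implies_true, not_false_eq_true, iff_false, false_iff] <;> omega)) (by (rw [Finset.disjoint_left]; intro x hx hx'; revert hx hx'; rcases x with x | x <;>
    simp only [Finset.mem_union, Finset.mem_insert, Finset.mem_singleton, inl_mem_full,
      inr_mem_full, inl_mem_iq, inr_mem_iq, inl_mem_ip, inr_mem_ip, Sum.inl.injEq, Sum.inr.injEq,
      reduceCtorEq, Finset.notMem_empty, or_false, false_or, false_imp_iff, imp_false,
      implies_true, not_false_eq_true, iff_false, false_iff] <;> omega))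
  have b3 := h.jn b1 b2 (by (intro x hx; revert hx; rcases x with x | x <;>
    simp only [Finset.mem_union, Finset.mem_insert, Finset.mem_singleton, inl_mem_full,
      inr_mem_full, inl_mem_iq, inr_mem_iq, inl_mem_ip, inr_mem_ip, Sum.inl.injEq, Sum.inr.injEq,
      reduceCtorEq, Finset.notMem_empty, or_false, false_or, false_imp_iff, imp_false,
      implies_true, not_false_eq_true, iff_false, false_iff] <;> omega)) (by (rw [Finset.disjoint_left]; intro x hx hx'; revert hx hx'; rcases x with x | x <;>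
    simp only [Finset.mem_union, Finset.mem_insert, Finset.mem_singleton, inl_mem_full,
      inr_mem_full, inl_mem_iq, inr_mem_iq, inl_mem_ip, inr_mem_ip, Sum.inl.injEq, Sum.inr.injEq,
      reduceCtorEq, Finset.notMem_empty, or_false, false_or, false_imp_iff, imp_false,
      implies_true, not_false_eq_true, iff_false, false_iff] <;> omega))
  have b4 := h.jn a5 a6' (by (intro x hx; revert hx; rcases x with x | x <;>
    simp only [Finset.mem_union, Finset.mem_insert, Finset.mem_singleton, inl_mem_full,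
      inr_mem_full, inl_mem_iq, inr_mem_iq, inl_mem_ip, inr_mem_ip, Sum.inl.injEq, Sum.inr.injEq,
      reduceCtorEq, Finset.notMem_empty, or_false, false_or, false_imp_iff, imp_false,
      implies_true, not_false_eq_true, iff_false, false_iff] <;> omega)) (by (rw [Finset.disjoint_left]; intro x hx hx'; revert hx hx'; rcases x with x | x <;>
    simp only [Finset.mem_union, Finset.mem_insert, Finset.mem_singleton, inl_mem_full,
      inr_mem_full, inl_mem_iq, inr_mem_iq, inl_mem_ip, inr_mem_ip, Sum.inl.injEq, Sum.inr.injEq,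
      reduceCtorEq, Finset.notMem_empty, or_false, false_or, false_imp_iff, imp_false,
      implies_true, not_false_eq_true, iff_false, false_iff] <;> omega))
  have b5 := h.join (U := full ℓ) b4 b3 (by (ext x; rcases x with x | x <;>
    simp only [Finset.mem_union, Finset.mem_insert, Finset.mem_singleton, inl_mem_full,
      inr_mem_full, inl_mem_iq, inr_mem_iq, inl_mem_ip, inr_mem_ip, Sum.inl.injEq, Sum.inr.injEq,
      reduceCtorEq, Finset.notMem_empty, or_false, false_or, false_imp_iff, imp_false,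
      implies_true, not_false_eq_true, iff_false, false_iff] <;> omega)) (by (intro x hx; revert hx; rcases x with x | x <;>
    simp only [Finset.mem_union, Finset.mem_insert, Finset.mem_singleton, inl_mem_full,
      inr_mem_full, inl_mem_iq, inr_mem_iq, inl_mem_ip, inr_mem_ip, Sum.inl.injEq, Sum.inr.injEq,
      reduceCtorEq, Finset.notMem_empty, or_false, false_or, false_imp_iff, imp_false,
      implies_true, not_false_eq_true, iff_false, false_iff] <;> omega)) (by (rw [Finset.disjoint_left]; intro x hx hx'; revert hx hx'; rcases x with x | x <;>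
    simp only [Finset.mem_union, Finset.mem_insert, Finset.mem_singleton, inl_mem_full,
      inr_mem_full, inl_mem_iq, inr_mem_iq, inl_mem_ip, inr_mem_ip, Sum.inl.injEq, Sum.inr.injEq,
      reduceCtorEq, Finset.notMem_empty, or_false, false_or, false_imp_iff, imp_false,
      implies_true, not_false_eq_true, iff_false, false_iff] <;> omega))
  have b6 := h.val hK0 b5
  refine b6.mono ?_
  rw [AA_zero, AA_zero, AA_succ p j]
  simp only [vx, Sum.elim_inl, Sum.elim_inr]
  have e4 : (MM B (up (2 * j + 1)) (up (2 * j + 2)) * (1 * -1) +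
      MM B (up (2 * j + 1)) (uq (2 * l + 1)) * (1 * 1)
      + MM B (up (2 * j + 2)) (uq (2 * l + 1)) * (-1 * 1)) =
      MM B (up (2 * j + 1)) (uq (2 * l + 1)) - MM B (up (2 * j + 1)) (up (2 * j + 2)) -
        MM B (up (2 * j + 2)) (uq (2 * l + 1)) := by ring
  rw [e4]
  push_cast
  refine add_le_add (by linarith) (max_le_max le_rfl ?_)
  have e6 : p (2 * (j + 1)) = p (2 * j + 2) := by ring_nf
  rw [e6]
  linarith

/-- the tops aligned, and the triple `q_{2j+1}+, q_{2j+2}-, p_{2l+1}+` -/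
theorem Frame.sHQ (h : Frame B Rl ℓ nQ nP uq up q p) {K : ℝ} (hK0 : 0 ≤ K) (j l : ℕ)
    (hj : j + 1 < ℓ) (hl : l < ℓ) (h0 : |q 0 - p 0| ≤ K)
    (h1 : |q (2 * j + 1) - q (2 * j + 2) - p (2 * l + 1)| ≤ K)
    (hP1 : ∀ i < l, p (2 * i + 1) - p (2 * i + 2) ≤ K)
    (hP2 : ∀ i < ℓ, l < i → p (2 * i) - p (2 * i + 1) ≤ K)
    (hQ : ∀ i, i + 1 < ℓ → i ≠ j → q (2 * i + 1) - q (2 * i + 2) ≤ K) :
    Val B (((MM B (uq 0) (up 0) + (MM B (uq (2 * j + 1)) (up (2 * l + 1)) -
        MM B (uq (2 * j + 1)) (uq (2 * j + 2)) - MM B (uq (2 * j + 2)) (up (2 * l + 1))) : ℤ) : ℝ) +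
      max K ((|q 0 - p 0| + |q (2 * j + 1) - q (2 * j + 2) - p (2 * l + 1)| +
        (p 0 - p (2 * l) - AA p l) + (AA p ℓ - AA p (l + 1)) +
        (q 0 - AA q ℓ - (q (2 * j + 1) - q (2 * j + 2)))) / 2)) := by
  have h2 := h.swap.sH hK0 j l hj hl (by rw [abs_sub_comm]; exact h0) h1 hP1 hP2 hQ
  simp only [MM_Tr] at h2
  rw [MM_comm (up 0) (uq 0), abs_sub_comm (p 0) (q 0)] at h2
  exact Val_Tr h2

/-- `(q_{2l}, p_0)` aligned -/
theorem Frame.sE1 (h : Frame B Rl ℓ nQ nP uq up q p) {K : ℝ} (hK0 : 0 ≤ K) (l : ℕ)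
    (hl : l < ℓ) (h0 : |q (2 * l) - p 0| ≤ K)
    (hQ1 : ∀ i < l, q (2 * i) - q (2 * i + 1) ≤ K)
    (hQ2 : ∀ i, l ≤ i → i + 1 < ℓ → q (2 * i + 1) - q (2 * i + 2) ≤ K)
    (hP : ∀ i, i + 1 < ℓ → p (2 * i + 1) - p (2 * i + 2) ≤ K) :
    Val B (((MM B (uq (2 * l)) (up 0) : ℤ) : ℝ) +
      max K ((|q (2 * l) - p 0| + AA q l + (q (2 * l) - (AA q ℓ - AA q l)) +
        (p 0 - AA p ℓ)) / 2)) := by
  have hl2 := h.l2
  have a1 := h.Qe (K := K) 0 l (Nat.zero_le _) hl.le fun i _ h2 => hQ1 i h2
  have a2 := h.Qot (K := K) hK0 l hl hQ2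
  have a3 := h.Pot (K := K) hK0 0 (by omega) fun i _ h2 => hP i h2
  have a5 := h.QP (K := K) (2 * l) 0 (by omega) (by omega) h0
  have b1 := h.jn a1 a2 (by (intro x hx; revert hx; rcases x with x | x <;>
    simp only [Finset.mem_union, Finset.mem_insert, Finset.mem_singleton, inl_mem_full,
      inr_mem_full, inl_mem_iq, inr_mem_iq, inl_mem_ip, inr_mem_ip, Sum.inl.injEq, Sum.inr.injEq,
      reduceCtorEq, Finset.notMem_empty, or_false, false_or, false_imp_iff, imp_false,
      implies_true, not_false_eq_true, iff_false, false_iff] <;> omega)) (by (rw [Finset.disjoint_left]; intro x hx hx'; revert hx hx'; rcases x with x | x <;>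
    simp only [Finset.mem_union, Finset.mem_insert, Finset.mem_singleton, inl_mem_full,
      inr_mem_full, inl_mem_iq, inr_mem_iq, inl_mem_ip, inr_mem_ip, Sum.inl.injEq, Sum.inr.injEq,
      reduceCtorEq, Finset.notMem_empty, or_false, false_or, false_imp_iff, imp_false,
      implies_true, not_false_eq_true, iff_false, false_iff] <;> omega))
  have b2 := h.jn b1 a3 (by (intro x hx; revert hx; rcases x with x | x <;>
    simp only [Finset.mem_union, Finset.mem_insert, Finset.mem_singleton, inl_mem_full,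
      inr_mem_full, inl_mem_iq, inr_mem_iq, inl_mem_ip, inr_mem_ip, Sum.inl.injEq, Sum.inr.injEq,
      reduceCtorEq, Finset.notMem_empty, or_false, false_or, false_imp_iff, imp_false,
      implies_true, not_false_eq_true, iff_false, false_iff] <;> omega)) (by (rw [Finset.disjoint_left]; intro x hx hx'; revert hx hx'; rcases x with x | x <;>
    simp only [Finset.mem_union, Finset.mem_insert, Finset.mem_singleton, inl_mem_full,
      inr_mem_full, inl_mem_iq, inr_mem_iq, inl_mem_ip, inr_mem_ip, Sum.inl.injEq, Sum.inr.injEq,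
      reduceCtorEq, Finset.notMem_empty, or_false, false_or, false_imp_iff, imp_false,
      implies_true, not_false_eq_true, iff_false, false_iff] <;> omega))
  have b5 := h.join (U := full ℓ) a5 b2 (by (ext x; rcases x with x | x <;>
    simp only [Finset.mem_union, Finset.mem_insert, Finset.mem_singleton, inl_mem_full,
      inr_mem_full, inl_mem_iq, inr_mem_iq, inl_mem_ip, inr_mem_ip, Sum.inl.injEq, Sum.inr.injEq,
      reduceCtorEq, Finset.notMem_empty, or_false, false_or, false_imp_iff, imp_false,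
      implies_true, not_false_eq_true, iff_false, false_iff] <;> omega)) (by (intro x hx; revert hx; rcases x with x | x <;>
    simp only [Finset.mem_union, Finset.mem_insert, Finset.mem_singleton, inl_mem_full,
      inr_mem_full, inl_mem_iq, inr_mem_iq, inl_mem_ip, inr_mem_ip, Sum.inl.injEq, Sum.inr.injEq,
      reduceCtorEq, Finset.notMem_empty, or_false, false_or, false_imp_iff, imp_false,
      implies_true, not_false_eq_true, iff_false, false_iff] <;> omega)) (by (rw [Finset.disjoint_left]; intro x hx hx'; revert hx hx'; rcases x with x | x <;>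
    simp only [Finset.mem_union, Finset.mem_insert, Finset.mem_singleton, inl_mem_full,
      inr_mem_full, inl_mem_iq, inr_mem_iq, inl_mem_ip, inr_mem_ip, Sum.inl.injEq, Sum.inr.injEq,
      reduceCtorEq, Finset.notMem_empty, or_false, false_or, false_imp_iff, imp_false,
      implies_true, not_false_eq_true, iff_false, false_iff] <;> omega))
  have b6 := h.val hK0 b5
  refine b6.mono ?_
  rw [AA_zero, AA_zero]
  refine add_le_add (by linarith) (max_le_max le_rfl ?_)
  linarith

end Pool.Agent.Exact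


end

section

/-!
# Counting facts in the frame
-/

set_option autoImplicit false
set_option linter.unusedSectionVars false

namespace Pool.Agent.Exact

open Finset

variable {V : Type*} [Fintype V] [DecidableEq V]
variable {B : V → V → ℤ} {Rl : Finset V} {ℓ nQ nP : ℕ} {uq up : ℕ → V} {q p : ℕ → ℝ}

/-- the context: minimum outdegree (or indegree) at least `k`, and `θ = m / (2k-1)` -/
structure Ctx (B : V → V → ℤ) (Rl : Finset V) (ℓ nQ nP : ℕ) (uq up : ℕ → V) (q p : ℕ → ℝ)
    (k : ℤ) (θ : ℝ) : Prop where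
  fr : Frame B Rl ℓ nQ nP uq up q p
  k3 : 3 ≤ k
  hm : (2 * (k : ℝ) - 1) * θ = mm B
  deg : (∀ v ∈ Rl, k ≤ ∑ u, B v u) ∨ ∀ v ∈ Rl, k ≤ ∑ u, B u v

variable {k : ℤ} {θ : ℝ}

/-- the context after exchanging the types -/
lemma Ctx.swap (h : Ctx B Rl ℓ nQ nP uq up q p k θ) : Ctx (Tr B) Rl ℓ nP nQ up uq p q k θ where
  fr := h.fr.swap
  k3 := h.k3
  hm := by
    rw [h.hm]
    exact congrArg _ (mm_transpose (B := B)).symm
  deg := by
    rcases h.deg with h1 | h1
    · exact Or.inr h1
    · exact Or.inl h1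

section
variable (h : Ctx B Rl ℓ nQ nP uq up q p k θ)
include h

lemma Ctx.k3r : (3 : ℝ) ≤ k := by exact_mod_cast h.k3

/-- `kn ≤ m` -/
lemma Ctx.kn : (k : ℝ) * Rl.card ≤ (2 * k - 1) * θ := by
  rw [h.hm]
  rcases h.deg with h1 | h1
  · have := mm_ge_out h.fr.sys.B0 h.fr.sys.dummy h1 (S := ∅) (by simp)
    simp only [Finset.card_empty, Nat.cast_zero, sub_zero, Finset.sum_empty, add_zero] at this
    exact_mod_cast this
  · have := mm_ge_out (B := Tr B) (fun u v => h.fr.sys.B0 v u)
      (fun v hv u => ⟨(h.fr.sys.dummy v hv u).2, (h.fr.sys.dummy v hv u).1⟩) h1 (S := ∅) (by simp)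
    simp only [Finset.card_empty, Nat.cast_zero, sub_zero, Finset.sum_empty, add_zero] at this
    have e : mm (Tr B) = mm B := mm_transpose
    rw [e] at this
    exact_mod_cast this

lemma Ctx.θ0 : 0 ≤ θ := by
  have h1 := h.kn
  have h2 := h.k3r
  have h3 : (0 : ℝ) ≤ Rl.card := Nat.cast_nonneg _
  have h4 : 0 ≤ (k : ℝ) * Rl.card := by positivity
  by_contra hc
  push Not at hc
  nlinarith

/-- `λ ≥ 2` for `n ≥ 2k-1` -/
lemma Ctx.lam2 (hn : 2 * k - 1 ≤ (Rl.card : ℤ)) : 2 ≤ 2 * θ - Rl.card + 1 := by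
  have h1 := h.kn
  have h2 := h.k3r
  have h3 : 2 * (k : ℝ) - 1 ≤ Rl.card := by exact_mod_cast hn
  by_contra hc
  push Not at hc
  nlinarith

/-- real vertices -/
lemma Ctx.realQ0 {i : ℕ} (hi : i < 2 * ℓ) (hq : 0 < q i) : uq i ∈ Rl := by
  rw [h.fr.sys.realQ i hi]
  by_contra hc
  push Not at hc
  rw [h.fr.zQ hc hi] at hq
  exact lt_irrefl _ hq

lemma Ctx.realP0 {i : ℕ} (hi : i < 2 * ℓ) (hp : 0 < p i) : up i ∈ Rl := h.swap.realQ0 hi hp

/-- the largest possible weight -/
lemma Ctx.qle {i : ℕ} (hi : i < 2 * ℓ) (hq : 0 < q i) : q i ≤ Rl.card - 1 := by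
  have hr := h.realQ0 hi hq
  have h1 := charge_sum h.fr.sys.B0 h.fr.sys.B1 h.fr.sys.Bd h.fr.sys.dummy hr 1 (Or.inl rfl)
    (T := ∅) (by simp) (by simp)
  rw [Finset.sum_empty] at h1
  have h2 := h.fr.sys.wtQ i hi
  rw [← h2]
  have : im B (uq i) ≤ (Rl.card : ℤ) - 1 := by linarith
  have h3 : ((im B (uq i) : ℤ) : ℝ) ≤ (((Rl.card : ℤ) - 1 : ℤ) : ℝ) := by exact_mod_cast this
  push_cast at h3
  linarith

lemma Ctx.ple {i : ℕ} (hi : i < 2 * ℓ) (hp : 0 < p i) : p i ≤ Rl.card - 1 := h.swap.qle hi hp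

/-- indegree at least `k`: the first type has weight at most `n-1-k` -/
lemma Ctx.qleK (hin : ∀ v ∈ Rl, k ≤ ∑ u, B u v) {i : ℕ} (hi : i < 2 * ℓ) (hq : 0 < q i) :
    q i ≤ Rl.card - 1 - k := by
  have hr := h.realQ0 hi hq
  have h1 := im_ge (B := Tr B) (fun u v => h.fr.sys.B0 v u) (fun u v => h.fr.sys.B1 v u)
    h.fr.sys.Bd (fun v hv u => ⟨(h.fr.sys.dummy v hv u).2, (h.fr.sys.dummy v hv u).1⟩) hin hr
  rw [im_Tr] at h1
  have h2 := h.fr.sys.wtQ i hi
  rw [← h2]
  have : im B (uq i) ≤ (Rl.card : ℤ) - 1 - k := by linarith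
  have h3 : ((im B (uq i) : ℤ) : ℝ) ≤ (((Rl.card : ℤ) - 1 - k : ℤ) : ℝ) := by exact_mod_cast this
  push_cast at h3
  linarith

lemma Ctx.pleK (hout : ∀ v ∈ Rl, k ≤ ∑ u, B v u) {i : ℕ} (hi : i < 2 * ℓ) (hp : 0 < p i) :
    p i ≤ Rl.card - 1 - k := h.swap.qleK hout hi hp

/-- outdegree at least `k`: `k (n-1) + q_0 ≤ m` -/
lemma Ctx.O1 (hout : ∀ v ∈ Rl, k ≤ ∑ u, B v u) {i : ℕ} (hi : i < 2 * ℓ) (hq : 0 < q i) :
    (k : ℝ) * (Rl.card - 1) + q i ≤ (2 * k - 1) * θ := by
  have hr := h.realQ0 hi hq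
  have h1 := mm_ge_out h.fr.sys.B0 h.fr.sys.dummy hout (S := {uq i}) (by simpa using hr)
  rw [Finset.card_singleton, Finset.sum_singleton] at h1
  rw [h.hm, ← h.fr.sys.wtQ i hi]
  exact_mod_cast h1

lemma Ctx.O1' (hin : ∀ v ∈ Rl, k ≤ ∑ u, B u v) {i : ℕ} (hi : i < 2 * ℓ) (hp : 0 < p i) :
    (k : ℝ) * (Rl.card - 1) + p i ≤ (2 * k - 1) * θ := h.swap.O1 hin hi hp

/-- the number of arcs between the hub and a vertex -/
lemma Ctx.MM_le (v : V) {i : ℕ} (hi : i < 2 * ℓ) (hq : 0 < q i) (hv : v ≠ uq i) :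
    ((MM B (uq i) v : ℤ) : ℝ) ≤ 1 + (Rl.card - 1 - q i) := by
  have hr := h.realQ0 hi hq
  by_cases hvr : v ∈ Rl
  · have h1 := charge_sum h.fr.sys.B0 h.fr.sys.B1 h.fr.sys.Bd h.fr.sys.dummy hr 1 (Or.inl rfl)
      (T := {v}) (by simpa using hvr) (by simpa using hv.symm)
    rw [Finset.sum_singleton] at h1
    have h2 := mult_le h.fr.sys.B0 h.fr.sys.B1 (uq i) v 1 (Or.inl rfl)
    have h3 := (abs_le.1 h2).2
    have h4 := h.fr.sys.wtQ i hi
    have h5 : MM B (uq i) v ≤ 1 + ((Rl.card : ℤ) - 1 - im B (uq i)) := by linarith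
    have h6 : ((MM B (uq i) v : ℤ) : ℝ) ≤ ((1 + ((Rl.card : ℤ) - 1 - im B (uq i)) : ℤ) : ℝ) := by
      exact_mod_cast h5
    push_cast at h6
    rw [h4] at h6
    exact h6
  · have e : MM B (uq i) v = 0 := by
      unfold MM
      rw [(h.fr.sys.dummy v hvr (uq i)).1, (h.fr.sys.dummy v hvr (uq i)).2, add_zero]
    rw [e]
    have := h.qle hi hq
    push_cast
    linarith

lemma Ctx.MM2 (u v : V) : ((MM B u v : ℤ) : ℝ) ≤ 2 := by
  have := (MM_range h.fr.sys.B0 h.fr.sys.B1 u v).2
  exact_mod_cast this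

lemma Ctx.MM0 (u v : V) : 0 ≤ ((MM B u v : ℤ) : ℝ) := by
  have := (MM_range h.fr.sys.B0 h.fr.sys.B1 u v).1
  exact_mod_cast this

lemma Ctx.uqp {i j : ℕ} (hi : i < 2 * ℓ) (hj : j < 2 * ℓ) : up j ≠ uq i :=
  fun e => h.fr.sys.disj i hi j hj e.symm

/-- the integer `ζ` -/
lemma Ctx.zeta {i : ℕ} (hi : i < 2 * ℓ) (hq : 0 < q i) :
    ∃ z : ℤ, 0 ≤ z ∧ (z : ℝ) = Rl.card - 1 - q i := by
  refine ⟨(Rl.card : ℤ) - 1 - im B (uq i), ?_, ?_⟩
  · have h1 := h.qle hi hq
    rw [← h.fr.sys.wtQ i hi] at h1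
    have : im B (uq i) ≤ (Rl.card : ℤ) - 1 := by
      have h2 : ((im B (uq i) : ℤ) : ℝ) ≤ (((Rl.card : ℤ) - 1 : ℤ) : ℝ) := by
        push_cast; linarith
      exact_mod_cast h2
    linarith
  · push_cast
    rw [h.fr.sys.wtQ i hi]

/-- `θ ≥ 3` -/
lemma Ctx.θ3 (hn : 2 * k - 1 ≤ (Rl.card : ℤ)) : 3 ≤ θ := by
  have h1 := h.kn
  have h2 := h.k3r
  have h3 : 2 * (k : ℝ) - 1 ≤ Rl.card := by exact_mod_cast hn
  by_contra hc
  push Not at hc
  nlinarith

/-- the fact (Z1) -/
theorem Ctx.Z1 (hn : 2 * k - 1 ≤ (Rl.card : ℤ)) (hq : 0 < q 0)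
    (hp : q 0 - θ + 2 ≤ p 0) (hpp : 0 < p 0) :
    q 0 + MM B (uq 0) (up 0) + 2 ≤ 2 * θ ∧ q 0 + 3 ≤ 2 * θ ∧
      (q 0 = Rl.card - 1 → (Rl.card : ℝ) + 2 ≤ 2 * θ) := by
  have hl := h.fr.l2
  have h2l : 0 < 2 * ℓ := by omega
  have k3 := h.k3r
  have lam := h.lam2 hn
  have hM2 := h.MM2 (uq 0) (up 0)
  have hM1 := h.MM_le (up 0) h2l hq (h.uqp h2l h2l)
  obtain ⟨z, hz0, hz⟩ := h.zeta h2l hq
  rcases h.deg with hd | hd
  · -- outdegree
    have hO := h.O1 hd h2l hq
    have hP := h.pleK hd h2l hpp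
    rcases lt_trichotomy z 1 with hz1 | hz1 | hz1
    · have hz2 : z = 0 := by omega
      rw [hz2] at hz
      push_cast at hz
      have h3 : (Rl.card : ℝ) + 2 ≤ 2 * θ := by
        by_contra hc
        push Not at hc
        nlinarith
      refine ⟨by linarith, by linarith, fun _ => h3⟩
    · rw [hz1] at hz
      push_cast at hz
      have h3 : (Rl.card : ℝ) + 2 ≤ 2 * θ := by
        by_contra hc
        push Not at hc
        have h4 : 3 * (Rl.card : ℝ) < 6 * k + 2 := by nlinarith
        have h5 : (2 * k : ℝ) < Rl.card := by linarith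
        have h6 : 2 * k < (Rl.card : ℤ) := by exact_mod_cast h5
        have h7 : 3 * (Rl.card : ℤ) < 6 * k + 2 := by exact_mod_cast h4
        omega
      refine ⟨by linarith, by linarith, fun _ => h3⟩
    · have hz2 : (2 : ℝ) ≤ z := by exact_mod_cast hz1
      refine ⟨by linarith, by linarith, fun e => ?_⟩
      exfalso
      linarith
  · have hQ := h.qleK hd h2l hq
    refine ⟨by linarith, by linarith, fun e => ?_⟩
    exfalso
    linarith

/-- the fact (Z3) -/
theorem Ctx.Z3 (hn : 2 * k - 1 ≤ (Rl.card : ℤ)) (hq : 0 < q 0) (hpp : 0 < p 0) (hpq : p 0 ≤ q 0)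
    (hp : 2 * θ - q 0 - MM B (uq 0) (up 0) < p 0 - θ) :
    3 < 2 * θ - Rl.card + 1 := by
  have hl := h.fr.l2
  have h2l : 0 < 2 * ℓ := by omega
  have k3 := h.k3r
  have lam := h.lam2 hn
  have hM2 := h.MM2 (uq 0) (up 0)
  obtain ⟨z, hz0, hz⟩ := h.zeta h2l hq
  have hz0' : (0 : ℝ) ≤ z := by exact_mod_cast hz0
  rcases h.deg with hd | hd
  · have hO := h.O1 hd h2l hq
    have hP := h.pleK hd h2l hpp
    by_contra hc
    push Not at hc
    nlinarith
  · have hQ := h.qleK hd h2l hq
    have hO := h.O1' hd h2l hpp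
    by_contra hc
    push Not at hc
    nlinarith

end

end Pool.Agent.Exact


end

section

/-!
# The static branches of the decision tree
-/

set_option autoImplicit false
set_option linter.unusedSectionVars false

namespace Pool.Agent.Exact

open Finset

variable {V : Type*} [Fintype V] [DecidableEq V]
variable {B : V → V → ℤ} {Rl : Finset V} {ℓ nQ nP : ℕ} {uq up : ℕ → V} {q p : ℕ → ℝ}

section basic

variable (h : Frame B Rl ℓ nQ nP uq up q p)
include h

/-- one even difference and all odd differences -/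
lemma Frame.qeT {i l : ℕ} (h1 : i ≤ l) (h2 : l + 1 < ℓ) :
    AA q ℓ - AA q i + (q (2 * l + 1) - q (2 * l + 2)) ≤ q (2 * i) := by
  have a1 := h.qgE (i := i) (l := l) (j := l + 1) h1 (by omega) h2
  have a2 := h.qT (i := l + 1) h2
  linarith

lemma Frame.peT {i l : ℕ} (h1 : i ≤ l) (h2 : l + 1 < ℓ) :
    AA p ℓ - AA p i + (p (2 * l + 1) - p (2 * l + 2)) ≤ p (2 * i) := h.swap.qeT h1 h2

lemma Frame.qeT' {i j : ℕ} (h1 : i < j) (h2 : j + 1 < ℓ) :
    AA q ℓ + (q (2 * i + 1) - q (2 * i + 2)) + (q (2 * j + 1) - q (2 * j + 2)) ≤ q 0 := by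
  have a1 := h.qgE (i := 0) (l := i) (j := i + 1) (by omega) (by omega) (by omega)
  have a2 := h.qeT (i := i + 1) (l := j) (by omega) h2
  simp only [Nat.mul_zero, AA_zero, sub_zero] at a1
  linarith

/-- two even differences and all odd differences -/
lemma Frame.qeT2 {i j : ℕ} (h1 : i ≠ j) (h2 : i + 1 < ℓ) (h3 : j + 1 < ℓ) :
    AA q ℓ + (q (2 * i + 1) - q (2 * i + 2)) + (q (2 * j + 1) - q (2 * j + 2)) ≤ q 0 := by
  rcases lt_or_gt_of_ne h1 with h4 | h4
  · exact h.qeT' h4 h3
  · have := h.qeT' h4 h2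
    linarith

lemma Frame.peT2 {i j : ℕ} (h1 : i ≠ j) (h2 : i + 1 < ℓ) (h3 : j + 1 < ℓ) :
    AA p ℓ + (p (2 * i + 1) - p (2 * i + 2)) + (p (2 * j + 1) - p (2 * j + 2)) ≤ p 0 :=
  h.swap.qeT2 h1 h2 h3

/-- two odd differences -/
lemma Frame.qDD' {i j : ℕ} (h1 : i < j) (h3 : j < ℓ) :
    (q (2 * i) - q (2 * i + 1)) + (q (2 * j) - q (2 * j + 1)) ≤ AA q ℓ := by
  have a1 := h.qgA (i := 0) (l := i) (j := i + 1) (by omega) (by omega) (by omega)
  have a2 := h.qgA (i := i + 1) (l := j) (j := ℓ) (by omega) h3 le_rfl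
  rw [AA_zero] at a1
  linarith

lemma Frame.qDD {i j : ℕ} (h1 : i ≠ j) (h2 : i < ℓ) (h3 : j < ℓ) :
    (q (2 * i) - q (2 * i + 1)) + (q (2 * j) - q (2 * j + 1)) ≤ AA q ℓ := by
  rcases lt_or_gt_of_ne h1 with h4 | h4
  · exact h.qDD' h4 h3
  · have := h.qDD' h4 h2
    linarith

lemma Frame.pDD {i j : ℕ} (h1 : i ≠ j) (h2 : i < ℓ) (h3 : j < ℓ) :
    (p (2 * i) - p (2 * i + 1)) + (p (2 * j) - p (2 * j + 1)) ≤ AA p ℓ := h.swap.qDD h1 h2 h3

lemma Frame.qD {i : ℕ} (h2 : i < ℓ) : (q (2 * i) - q (2 * i + 1)) ≤ AA q ℓ := by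
  have a1 := h.qgA (i := 0) (l := i) (j := ℓ) (by omega) (by omega) le_rfl
  rw [AA_zero] at a1
  linarith

lemma Frame.pD {i : ℕ} (h2 : i < ℓ) : (p (2 * i) - p (2 * i + 1)) ≤ AA p ℓ := h.swap.qD h2

lemma Frame.qA0 : AA q ℓ ≤ q 0 := by
  have := h.qT (i := 0) (by have := h.l2; omega)
  simpa [AA_zero] using this

lemma Frame.pA0 : AA p ℓ ≤ p 0 := h.swap.qA0

/-- the end of the chain -/
lemma Frame.qend : q (2 * ℓ - 1) = 0 := by
  have hl := h.l2
  have := h.nQle
  exact h.zQ (by omega) (by omega)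

lemma Frame.pend : p (2 * ℓ - 1) = 0 := h.swap.qend

/-- the first small weight -/
lemma Frame.qfirst {t : ℝ} (ht : 0 ≤ t) :
    ∃ i, i < 2 * ℓ ∧ q i ≤ t ∧ ∀ j < i, t < q j := by
  classical
  have hl := h.l2
  have hex : ∃ i, i < 2 * ℓ ∧ q i ≤ t := ⟨2 * ℓ - 1, by omega, by rw [h.qend]; exact ht⟩
  refine ⟨Nat.find hex, (Nat.find_spec hex).1, (Nat.find_spec hex).2, fun j hj => ?_⟩
  have h1 := Nat.find_min hex hj
  push Not at h1
  exact h1 (by have := (Nat.find_spec hex).1; omega)

lemma Frame.pfirst {t : ℝ} (ht : 0 ≤ t) :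
    ∃ i, i < 2 * ℓ ∧ p i ≤ t ∧ ∀ j < i, t < p j := h.swap.qfirst ht

/-- structure A fails -/
lemma Frame.failA {θ : ℝ} (hθ : 0 ≤ θ) (hn : ¬ Val B θ) :
    (∃ l < ℓ, θ < q (2 * l) - q (2 * l + 1)) ∨ (∃ l < ℓ, θ < p (2 * l) - p (2 * l + 1)) ∨
      2 * θ < AA q ℓ + AA p ℓ := by
  by_contra hc
  push Not at hc
  obtain ⟨h1, h2, h3⟩ := hc
  exact hn ((h.sA hθ h1 h2).mono (max_le le_rfl (by linarith)))

end basic

/-- the value of structure B with cost `MB` -/
def BSt (B : V → V → ℤ) (ℓ : ℕ) (q p : ℕ → ℝ) (MB : ℝ) : Prop :=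
  ∀ K : ℝ, 0 ≤ K → |q 0 - p 0| ≤ K →
    (∀ l, l + 1 < ℓ → q (2 * l + 1) - q (2 * l + 2) ≤ K) →
    (∀ l, l + 1 < ℓ → p (2 * l + 1) - p (2 * l + 2) ≤ K) →
    Val B (MB + max K ((|q 0 - p 0| + (q 0 - AA q ℓ) + (p 0 - AA p ℓ)) / 2))

lemma Frame.bst (h : Frame B Rl ℓ nQ nP uq up q p) : BSt B ℓ q p (MM B (uq 0) (up 0)) :=
  fun _ hK h0 hQ hP => h.sB hK h0 hQ hP

/-- structure B fails -/
lemma failB {θ MB : ℝ} (hB : BSt B ℓ q p MB) (hpq : p 0 ≤ q 0) (hθ : MB ≤ θ)
    (hn : ¬ Val B θ) :
    θ - MB < q 0 - p 0 ∨ (∃ l, l + 1 < ℓ ∧ θ - MB < q (2 * l + 1) - q (2 * l + 2)) ∨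
      (∃ l, l + 1 < ℓ ∧ θ - MB < p (2 * l + 1) - p (2 * l + 2)) ∨
      2 * θ - 2 * MB < 2 * q 0 - AA q ℓ - AA p ℓ := by
  by_contra hc
  push Not at hc
  obtain ⟨h1, h2, h3, h4⟩ := hc
  have e : |q 0 - p 0| = q 0 - p 0 := abs_of_nonneg (by linarith)
  have h5 := hB (θ - MB) (by linarith) (by rw [e]; exact h1) h2 h3
  refine hn (h5.mono ?_)
  rw [e]
  have : max (θ - MB) ((q 0 - p 0 + (q 0 - AA q ℓ) + (p 0 - AA p ℓ)) / 2) ≤ θ - MB :=
    max_le le_rfl (by linarith)
  linarith

variable {k : ℤ} {θ : ℝ}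

section tree

variable (h : Ctx B Rl ℓ nQ nP uq up q p k θ)
include h

/-- (0): the largest weight is larger than `θ` -/
lemma Ctx.top (hnv : ¬ Val B θ) (hpq : p 0 ≤ q 0) : θ < q 0 := by
  by_contra hc
  push Not at hc
  have hl := h.fr.l2
  rcases h.fr.failA h.θ0 hnv with ⟨l, hl', h1⟩ | ⟨l, hl', h1⟩ | h1
  · have := h.fr.qD hl'
    have := h.fr.qA0
    linarith
  · have := h.fr.pD hl'
    have := h.fr.pA0
    linarith
  · have := h.fr.qA0
    have := h.fr.pA0
    linarith

/-- `q_0 + 2 ≤ 2θ` -/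
lemma Ctx.y2 (hn : 2 * k - 1 ≤ (Rl.card : ℤ)) (hq : 0 < q 0) : q 0 + 2 ≤ 2 * θ := by
  have hl := h.fr.l2
  have h1 := h.qle (i := 0) (by omega) hq
  have h2 := h.lam2 hn
  linarith

/-- case 1 -/
theorem Ctx.case1 (hn : 2 * k - 1 ≤ (Rl.card : ℤ)) (hnv : ¬ Val B θ) (hpq : p 0 ≤ q 0)
    (hp : q 0 - θ + 2 ≤ p 0) {i : ℕ} (hi : i < ℓ) (hD : θ < q (2 * i) - q (2 * i + 1)) :
    (∃ j, j + 1 < ℓ ∧ θ - 2 < p (2 * j + 1) - p (2 * j + 2)) ∨
      (AA q ℓ + AA p ℓ < 2 * (q 0 - θ) + 2 * MM B (uq 0) (up 0) ∧ ∃ r < ℓ,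
        (∀ l < r, θ < p (2 * l + 1)) ∧ p (2 * r) ≤ θ ∧
          p (2 * r) < q (2 * i) - q (2 * i + 1) - θ + 2) := by
  have hl := h.fr.l2
  have hqθ := h.top hnv hpq
  have hθ0 := h.θ0
  have hq : 0 < q 0 := by linarith
  have hpp : 0 < p 0 := by linarith
  obtain ⟨z1, z2, z3⟩ := h.Z1 hn hq hp hpp
  have hM2 := h.MM2 (uq 0) (up 0)
  have hM0 := h.MM0 (uq 0) (up 0)
  set MB : ℝ := ((MM B (uq 0) (up 0) : ℤ) : ℝ) with hMB
  by_cases hE : ∃ j, j + 1 < ℓ ∧ θ - 2 < p (2 * j + 1) - p (2 * j + 2)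
  · exact Or.inl hE
  · right
    push Not at hE
    have hA := h.fr.qD hi
    have hA0 := h.fr.qA0
    have he : ∀ l, l + 1 < ℓ → q (2 * l + 1) - q (2 * l + 2) ≤ q 0 - θ := by
      intro l hl'
      have := h.fr.qeT (i := 0) (l := l) (by omega) hl'
      simp only [Nat.mul_zero, AA_zero, sub_zero] at this
      linarith
    have hAA : AA q ℓ + AA p ℓ < 2 * (q 0 - θ) + 2 * MB := by
      rcases failB h.fr.bst hpq (by linarith) hnv with h1 | ⟨l, hl', h1⟩ | ⟨l, hl', h1⟩ | h1
      · rw [← hMB] at h1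
        linarith
      · have := he l hl'
        rw [← hMB] at h1
        linarith
      · have := hE l hl'
        rw [← hMB] at h1
        linarith
      · rw [← hMB] at h1
        linarith
    refine ⟨hAA, ?_⟩
    obtain ⟨i0, hi0, h1, h2⟩ := h.fr.pfirst hθ0
    -- the structure G3
    have key : ∀ r, r < ℓ → (∀ l < r, θ < p (2 * l + 1)) →
        |q (2 * i) - q (2 * i + 1) - p (2 * r)| ≤ θ - 2 →
        (p (2 * r) ≤ θ ∨ p (2 * r + 1) ≤ θ) → False := by
      intro r hr h3 h4 h5
      have hK0 : 0 ≤ θ - 2 := by linarith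
      have g1 := h.fr.sG3Q hK0 i r hi hr h4 (fun l hl' hne => by
          have := h.fr.qDD hne hl' hi
          linarith) (fun l hl' => by
          have a1 := h3 l hl'
          have a2 := h.fr.pa (i := 0) (j := 2 * l) (Nat.zero_le _) (by omega)
          linarith) (fun l _ hl' => hE l hl')
      refine hnv (g1.mono ?_)
      have c1 := h.MM2 (uq (2 * i)) (up (2 * r))
      have c2 := h.MM0 (uq (2 * i)) (uq (2 * i + 1))
      have c3 := h.MM0 (uq (2 * i + 1)) (up (2 * r))
      have c4 := h.fr.pAm (i := r) (j := ℓ) hr.le le_rfl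
      have c5 := h.fr.pgA (i := r) (l := r) (j := ℓ) le_rfl hr le_rfl
      push_cast
      have : max (θ - 2) ((|q (2 * i) - q (2 * i + 1) - p (2 * r)| +
          (AA q ℓ - (q (2 * i) - q (2 * i + 1))) +
          (AA p r + p (2 * r) - (AA p ℓ - AA p r))) / 2) ≤ θ - 2 := by
        refine max_le le_rfl ?_
        rcases le_total (p (2 * r)) (q (2 * i) - q (2 * i + 1)) with h6 | h6
        · rw [abs_of_nonneg (by linarith)]
          linarith
        · rw [abs_of_nonpos (by linarith)]
          rcases h5 with h5 | h5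
          · linarith
          · linarith
      linarith
    rcases Nat.even_or_odd' i0 with ⟨r, hr | hr⟩
    · -- even
      subst hr
      have hr : r < ℓ := by omega
      have h3 : ∀ l < r, θ < p (2 * l + 1) := fun l hl' => h2 _ (by omega)
      by_cases h4 : q (2 * i) - q (2 * i + 1) - θ + 2 ≤ p (2 * r)
      · exfalso
        refine key r hr h3 ?_ (Or.inl h1)
        rw [abs_of_nonneg (by linarith)]
        linarith
      · push Not at h4
        exact ⟨r, hr, h3, h1, h4⟩
    · subst hr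
      exfalso
      have hr : r < ℓ := by omega
      refine key r hr (fun l hl' => h2 _ (by omega)) ?_ (Or.inr h1)
      have a1 := h2 (2 * r) (by omega)
      have a2 := h.fr.pa (i := 0) (j := 2 * r) (Nat.zero_le _) (by omega)
      have a3 := h.fr.qa (i := 0) (j := 2 * i) (Nat.zero_le _) (by omega)
      have a4 := h.fr.qn (i := 2 * i + 1) (by omega)
      rw [abs_le]
      constructor <;> linarith

/-- case 2 -/
theorem Ctx.case2 (hn : 2 * k - 1 ≤ (Rl.card : ℤ)) (hnv : ¬ Val B θ) (hpq : p 0 ≤ q 0 - 1)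
    {MB : ℝ} (hB : BSt B ℓ q p MB) (hMB : MB ≤ MM B (uq 0) (up 0))
    {j : ℕ} (hj : j < ℓ) (hD : θ < p (2 * j) - p (2 * j + 1)) :
    (∃ i, i + 1 < ℓ ∧ θ - MB < q (2 * i + 1) - q (2 * i + 2)) ∨
      (AA q ℓ + AA p ℓ < 2 * (q 0 - θ) + 2 * MB ∧ ∃ i, i + 1 < ℓ ∧
        θ - 2 < q (2 * i + 1) ∧ q (2 * (i + 1)) ≤ θ - 2 ∧
          q (2 * (i + 1)) < p (2 * j) - p (2 * j + 1) - θ + 2) := by
  have hl := h.fr.l2
  have hqθ := h.top hnv (by linarith)
  have hθ0 := h.θ0
  have hq : 0 < q 0 := by linarith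
  have hy2 := h.y2 hn hq
  have hp0 := h.fr.pa (i := 0) (j := 2 * j) (Nat.zero_le _) (by omega)
  have hp1 := h.fr.pn (i := 2 * j + 1) (by omega)
  have hpp : 0 < p 0 := by linarith
  obtain ⟨z1, z2, z3⟩ := h.Z1 hn hq (by linarith) hpp
  have hM2 := h.MM2 (uq 0) (up 0)
  by_cases hE : ∃ i, i + 1 < ℓ ∧ θ - MB < q (2 * i + 1) - q (2 * i + 2)
  · exact Or.inl hE
  · right
    push Not at hE
    have hA := h.fr.pD hj
    have hA0 := h.fr.pA0
    have he : ∀ l, l + 1 < ℓ → p (2 * l + 1) - p (2 * l + 2) ≤ q 0 - θ := by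
      intro l hl'
      have := h.fr.peT (i := 0) (l := l) (by omega) hl'
      simp only [Nat.mul_zero, AA_zero, sub_zero] at this
      linarith
    have hAA : AA q ℓ + AA p ℓ < 2 * (q 0 - θ) + 2 * MB := by
      rcases failB hB (by linarith) (by linarith) hnv with h1 | ⟨l, hl', h1⟩ | ⟨l, hl', h1⟩ | h1
      · linarith
      · have := hE l hl'
        linarith
      · have := he l hl'
        linarith
      · linarith
    refine ⟨hAA, ?_⟩
    have hK0 : 0 ≤ θ - 2 := by linarith
    obtain ⟨i0, hi0, h1, h2⟩ := h.fr.qfirst hK0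
    -- the structure G3
    have key : ∀ r, r < ℓ → |p (2 * j) - p (2 * j + 1) - q (2 * r)| ≤ θ - 2 →
        q (2 * r + 1) ≤ θ - 2 → False := by
      intro r hr h4 h5
      have g1 := h.fr.sG3P hK0 j r hj hr h4 (fun l hl' hne => by
          have := h.fr.pDD hne hl' hj
          linarith) (fun l hl' => by
          have a1 := h.fr.qD (i := l) (by omega)
          linarith) (fun l hl1 hl' => by
          have a1 := h.fr.qa (i := 2 * r + 1) (j := 2 * l + 1) (by omega) (by omega)
          have a2 := h.fr.qn (i := 2 * l + 2) (by omega)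
          linarith)
      refine hnv (g1.mono ?_)
      have c1 := h.MM2 (up (2 * j)) (uq (2 * r))
      have c2 := h.MM0 (up (2 * j)) (up (2 * j + 1))
      have c3 := h.MM0 (up (2 * j + 1)) (uq (2 * r))
      have c4 := h.fr.qAm (i := r) (j := ℓ) hr.le le_rfl
      have c5 := h.fr.qgA (i := r) (l := r) (j := ℓ) le_rfl hr le_rfl
      push_cast
      have : max (θ - 2) ((|p (2 * j) - p (2 * j + 1) - q (2 * r)| +
          (AA p ℓ - (p (2 * j) - p (2 * j + 1))) +
          (AA q r + q (2 * r) - (AA q ℓ - AA q r))) / 2) ≤ θ - 2 := by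
        refine max_le le_rfl ?_
        rcases le_total (q (2 * r)) (p (2 * j) - p (2 * j + 1)) with h6 | h6
        · rw [abs_of_nonneg (by linarith)]
          linarith
        · rw [abs_of_nonpos (by linarith)]
          linarith
      linarith
    rcases Nat.even_or_odd' i0 with ⟨r, hr | hr⟩
    · -- even
      subst hr
      have hr : r < ℓ := by omega
      have hr0 : r ≠ 0 := by
        rintro rfl
        rw [Nat.mul_zero] at h1
        linarith
      obtain ⟨i, rfl⟩ : ∃ i, r = i + 1 := ⟨r - 1, by omega⟩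
      by_cases h4 : p (2 * j) - p (2 * j + 1) - θ + 2 ≤ q (2 * (i + 1))
      · exfalso
        refine key (i + 1) hr ?_ ?_
        · rw [abs_of_nonneg (by linarith)]
          linarith
        · have := h.fr.qa (i := 2 * (i + 1)) (j := 2 * (i + 1) + 1) (by omega) (by omega)
          linarith
      · push Not at h4
        exact ⟨i, hr, h2 _ (by omega), h1, h4⟩
    · subst hr
      exfalso
      have hr : r < ℓ := by omega
      refine key r hr ?_ h1
      have a1 := h2 (2 * r) (by omega)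
      have a2 := h.fr.qa (i := 0) (j := 2 * r) (Nat.zero_le _) (by omega)
      rw [abs_le]
      constructor <;> linarith

/-- case 3 with small `p_0`: the structure `E1` -/
theorem Ctx.case3a (hn : 2 * k - 1 ≤ (Rl.card : ℤ)) (hnv : ¬ Val B θ) (hpq : p 0 ≤ q 0)
    (hp : p 0 < q 0 - θ + 2) (hD : ∀ l < ℓ, q (2 * l) - q (2 * l + 1) ≤ θ - 2)
    (hA : 2 * θ < AA q ℓ + AA p ℓ) : False := by
  have hl := h.fr.l2
  have hqθ := h.top hnv hpq
  have hθ0 := h.θ0
  have hq : 0 < q 0 := by linarith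
  have hy2 := h.y2 hn hq
  have hA0 := h.fr.qA0
  have hA1 := h.fr.pA0
  have hp0 := h.fr.pn (i := 0) (by omega)
  classical
  have hex : ∃ l, l < ℓ ∧ q (2 * l + 1) ≤ p 0 := ⟨ℓ - 1, by omega, by
    have := h.fr.qend
    rw [show 2 * (ℓ - 1) + 1 = 2 * ℓ - 1 by omega, this]
    exact hp0⟩
  obtain ⟨l, ⟨hl1, h1⟩, h2⟩ : ∃ l, (l < ℓ ∧ q (2 * l + 1) ≤ p 0) ∧
      ∀ m < l, p 0 < q (2 * m + 1) := by
    refine ⟨Nat.find hex, Nat.find_spec hex, fun m hm => ?_⟩
    have h3 := Nat.find_min hex hm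
    push Not at h3
    exact h3 (by have := (Nat.find_spec hex).1; omega)
  have hK0 : 0 ≤ θ - 2 := by linarith
  have he : ∀ i, i + 1 < ℓ → q (2 * i + 1) - q (2 * i + 2) ≤ θ - 2 := by
    intro i hi
    have := h.fr.qeT (i := 0) (l := i) (by omega) hi
    simp only [Nat.mul_zero, AA_zero, sub_zero] at this
    linarith
  have he' : ∀ i, i + 1 < ℓ → p (2 * i + 1) - p (2 * i + 2) ≤ θ - 2 := by
    intro i hi
    have := h.fr.peT (i := 0) (l := i) (by omega) hi
    simp only [Nat.mul_zero, AA_zero, sub_zero] at this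
    linarith
  have hAl := h.fr.qE (i := 0) (j := l) (by omega) hl1
  simp only [Nat.mul_zero, AA_zero, sub_zero] at hAl
  have hDl := hD l hl1
  have habs : |q (2 * l) - p 0| ≤ θ - 2 ∧
      |q (2 * l) - p 0| + AA q l + (q (2 * l) - (AA q ℓ - AA q l)) + (p 0 - AA p ℓ) ≤
        2 * q 0 - AA q ℓ - AA p ℓ := by
    rcases le_total (p 0) (q (2 * l)) with h3 | h3
    · rw [abs_of_nonneg (by linarith)]
      constructor <;> linarith
    · rw [abs_of_nonpos (by linarith)]
      by_cases hl0 : l = 0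
      · subst hl0
        simp only [Nat.mul_zero] at *
        simp only [AA_zero] at *
        constructor <;> linarith
      · obtain ⟨m, rfl⟩ : ∃ m, l = m + 1 := ⟨l - 1, by omega⟩
        have a1 := h2 m (by omega)
        have a2 := he m (by omega)
        have a3 := h.fr.qE (i := 0) (j := m) (by omega) (by omega)
        simp only [Nat.mul_zero, AA_zero, sub_zero] at a3
        have a4 := AA_succ q m
        have a5 : q (2 * (m + 1)) = q (2 * m + 2) := by ring_nf
        constructor <;> linarith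
  have g := h.fr.sE1 hK0 l hl1 habs.1 (fun i hi => hD i (by omega)) (fun i _ hi => he i hi) he'
  refine hnv (g.mono ?_)
  have c1 := h.MM2 (uq (2 * l)) (up 0)
  have : max (θ - 2) ((|q (2 * l) - p 0| + AA q l + (q (2 * l) - (AA q ℓ - AA q l)) +
      (p 0 - AA p ℓ)) / 2) ≤ θ - 2 := by
    refine max_le le_rfl ?_
    have := habs.2
    linarith
  linarith

/-- numerical facts in case 3b -/
theorem Ctx.case3b (hn : 2 * k - 1 ≤ (Rl.card : ℤ)) (hnv : ¬ Val B θ) (hpq : p 0 ≤ q 0)
    (hA : 2 * θ < AA q ℓ + AA p ℓ) {j : ℕ} (hj : j + 1 < ℓ)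
    (hE : θ - MM B (uq 0) (up 0) < p (2 * j + 1) - p (2 * j + 2)) :
    q 0 + MM B (uq 0) (up 0) + 2 ≤ 2 * θ ∧ 3 < 2 * θ - Rl.card + 1 ∧
      ∃ l < ℓ, θ - (MM B (uq 0) (up 0) + 2) < q (2 * l) ∧
        q (2 * l + 1) ≤ θ - (MM B (uq 0) (up 0) + 2) ∧
        q (2 * l + 1) < p (2 * j + 1) - p (2 * j + 2) - θ + (MM B (uq 0) (up 0) + 2) := by
  have hl := h.fr.l2
  have hqθ := h.top hnv hpq
  have hθ0 := h.θ0
  have hq : 0 < q 0 := by linarith
  have hy2 := h.y2 hn hq
  have hA0 := h.fr.qA0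
  have hA1 := h.fr.pA0
  have hM2 := h.MM2 (uq 0) (up 0)
  have hM0 := h.MM0 (uq 0) (up 0)
  have hEt := h.fr.peT (i := 0) (l := j) (by omega) hj
  simp only [Nat.mul_zero, AA_zero, sub_zero] at hEt
  have hpp : 0 < p 0 := by linarith
  have hZ3 := h.Z3 hn hq hpp hpq (by linarith)
  obtain ⟨z1, z2, z3⟩ := h.Z1 hn hq (by linarith) hpp
  set MB : ℝ := ((MM B (uq 0) (up 0) : ℤ) : ℝ) with hMB
  refine ⟨z1, hZ3, ?_⟩
  have hK0 : 0 ≤ θ - (MB + 2) := by linarith
  -- the structure H
  have key : ∀ l, l < ℓ →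
      |p (2 * j + 1) - p (2 * j + 2) - q (2 * l + 1)| ≤ θ - (MB + 2) →
      q (2 * l + 2) ≤ θ - (MB + 2) ∨ 2 * l + 2 = 2 * ℓ → False := by
    intro l hl1 h4 h5
    have h6 : AA q ℓ - AA q (l + 1) ≤ θ - (MB + 2) := by
      rcases h5 with h5 | h5
      · by_cases h7 : l + 1 < ℓ
        · have := h.fr.qT h7
          rw [show 2 * (l + 1) = 2 * l + 2 by ring] at this
          linarith
        · have e : l + 1 = ℓ := by omega
          rw [e]; linarith
      · have e : l + 1 = ℓ := by omega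
        rw [e]; linarith
    have g1 := h.fr.sH hK0 j l hj hl1 (by rw [abs_of_nonneg (by linarith)]; linarith) h4
      (fun i hi => by
        have := h.fr.qeT (i := 0) (l := i) (by omega) (by omega)
        simp only [Nat.mul_zero, AA_zero, sub_zero] at this
        linarith) (fun i hi1 hi2 => by
        have := h.fr.qgA (i := l + 1) (l := i) (j := ℓ) (by omega) hi1 le_rfl
        linarith) (fun i hi1 hi2 => by
        have := h.fr.peT2 hi2 hi1 hj
        linarith)
    refine hnv (g1.mono ?_)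
    have c1 := h.MM2 (up (2 * j + 1)) (uq (2 * l + 1))
    have c2 := h.MM0 (up (2 * j + 1)) (up (2 * j + 2))
    have c3 := h.MM0 (up (2 * j + 2)) (uq (2 * l + 1))
    have c4 := AA_succ q l
    have c5 := h.fr.qT hl1
    push_cast
    rw [← hMB]
    have : max (θ - (MB + 2)) ((|q 0 - p 0| + |p (2 * j + 1) - p (2 * j + 2) - q (2 * l + 1)| +
        (q 0 - q (2 * l) - AA q l) + (AA q ℓ - AA q (l + 1)) +
        (p 0 - AA p ℓ - (p (2 * j + 1) - p (2 * j + 2)))) / 2) ≤ θ - (MB + 2) := by
      refine max_le le_rfl ?_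
      rw [abs_of_nonneg (show 0 ≤ q 0 - p 0 by linarith)]
      rcases le_total (q (2 * l + 1)) (p (2 * j + 1) - p (2 * j + 2)) with h6 | h6
      · rw [abs_of_nonneg (by linarith)]
        linarith
      · rw [abs_of_nonpos (by linarith)]
        linarith
    linarith
  obtain ⟨i0, hi0, h1, h2⟩ := h.fr.qfirst hK0
  have h20 := h2 0
  rcases Nat.even_or_odd' i0 with ⟨r, hr | hr⟩
  · subst hr
    exfalso
    have hr : r < ℓ := by omega
    have hr0 : r ≠ 0 := by
      rintro rfl
      rw [Nat.mul_zero] at h1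
      linarith
    obtain ⟨l, rfl⟩ : ∃ i, r = i + 1 := ⟨r - 1, by omega⟩
    have a1 := h2 (2 * l + 1) (by omega)
    rw [show 2 * (l + 1) = 2 * l + 2 by ring] at h1
    refine key l (by omega) ?_ (Or.inl h1)
    have a2 := h.fr.qT (i := l + 1) hr
    have a3 := h.fr.qE (i := 0) (j := l) (by omega) (by omega)
    have a4 := AA_succ q l
    simp only [Nat.mul_zero, AA_zero, sub_zero] at a3
    rw [show 2 * (l + 1) = 2 * l + 2 by ring] at a2
    rw [abs_le]
    constructor <;> linarith
  · subst hr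
    have hr : r < ℓ := by omega
    by_cases h4 : p (2 * j + 1) - p (2 * j + 2) - θ + (MB + 2) ≤ q (2 * r + 1)
    · exfalso
      refine key r hr ?_ ?_
      · rw [abs_le]
        constructor <;> linarith
      · by_cases h7 : r + 1 < ℓ
        · left
          have := h.fr.qa (i := 2 * r + 1) (j := 2 * r + 2) (by omega) (by omega)
          linarith
        · right
          omega
    · push Not at h4
      exact ⟨r, hr, h2 _ (by omega), h1, h4⟩

/-- numerical facts in case 3c -/
theorem Ctx.case3c (hn : 2 * k - 1 ≤ (Rl.card : ℤ)) (hnv : ¬ Val B θ) (hpq : p 0 ≤ q 0)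
    (hA : 2 * θ < AA q ℓ + AA p ℓ) {j : ℕ} (hj : j + 1 < ℓ)
    (hE : θ - MM B (uq 0) (up 0) < q (2 * j + 1) - q (2 * j + 2)) :
    q 0 + MM B (uq 0) (up 0) + 2 ≤ 2 * θ ∧ 3 < 2 * θ - Rl.card + 1 ∧ θ < p 0 ∧
      ∃ l < ℓ, θ - (MM B (uq 0) (up 0) + 2) < p (2 * l) ∧
        p (2 * l + 1) ≤ θ - (MM B (uq 0) (up 0) + 2) ∧
        p (2 * l + 1) < q (2 * j + 1) - q (2 * j + 2) - θ + (MM B (uq 0) (up 0) + 2) := by
  have hl := h.fr.l2
  have hqθ := h.top hnv hpq
  have hθ0 := h.θ0
  have hq : 0 < q 0 := by linarith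
  have hy2 := h.y2 hn hq
  have hA0 := h.fr.qA0
  have hA1 := h.fr.pA0
  have hM2 := h.MM2 (uq 0) (up 0)
  have hM0 := h.MM0 (uq 0) (up 0)
  have hEt := h.fr.qeT (i := 0) (l := j) (by omega) hj
  simp only [Nat.mul_zero, AA_zero, sub_zero] at hEt
  have hpp : 0 < p 0 := by linarith
  have hZ3 := h.Z3 hn hq hpp hpq (by linarith)
  obtain ⟨z1, z2, z3⟩ := h.Z1 hn hq (by linarith) hpp
  set MB : ℝ := ((MM B (uq 0) (up 0) : ℤ) : ℝ) with hMB
  refine ⟨z1, hZ3, by linarith, ?_⟩
  have hK0 : 0 ≤ θ - (MB + 2) := by linarith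
  -- the structure H
  have key : ∀ l, l < ℓ →
      |q (2 * j + 1) - q (2 * j + 2) - p (2 * l + 1)| ≤ θ - (MB + 2) →
      p (2 * l + 2) ≤ θ - (MB + 2) ∨ 2 * l + 2 = 2 * ℓ → False := by
    intro l hl1 h4 h5
    have h6 : AA p ℓ - AA p (l + 1) ≤ θ - (MB + 2) := by
      rcases h5 with h5 | h5
      · by_cases h7 : l + 1 < ℓ
        · have := h.fr.pT h7
          rw [show 2 * (l + 1) = 2 * l + 2 by ring] at this
          linarith
        · have e : l + 1 = ℓ := by omega
          rw [e]; linarith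
      · have e : l + 1 = ℓ := by omega
        rw [e]; linarith
    have g1 := h.fr.sHQ hK0 j l hj hl1 (by rw [abs_of_nonneg (by linarith)]; linarith) h4
      (fun i hi => by
        have := h.fr.peT (i := 0) (l := i) (by omega) (by omega)
        simp only [Nat.mul_zero, AA_zero, sub_zero] at this
        linarith) (fun i hi1 hi2 => by
        have := h.fr.pgA (i := l + 1) (l := i) (j := ℓ) (by omega) hi1 le_rfl
        linarith) (fun i hi1 hi2 => by
        have := h.fr.qeT2 hi2 hi1 hj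
        linarith)
    refine hnv (g1.mono ?_)
    have c1 := h.MM2 (uq (2 * j + 1)) (up (2 * l + 1))
    have c2 := h.MM0 (uq (2 * j + 1)) (uq (2 * j + 2))
    have c3 := h.MM0 (uq (2 * j + 2)) (up (2 * l + 1))
    have c4 := AA_succ p l
    have c5 := h.fr.pT hl1
    push_cast
    rw [← hMB]
    have : max (θ - (MB + 2)) ((|q 0 - p 0| + |q (2 * j + 1) - q (2 * j + 2) - p (2 * l + 1)| +
        (p 0 - p (2 * l) - AA p l) + (AA p ℓ - AA p (l + 1)) +
        (q 0 - AA q ℓ - (q (2 * j + 1) - q (2 * j + 2)))) / 2) ≤ θ - (MB + 2) := by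
      refine max_le le_rfl ?_
      rw [abs_of_nonneg (show 0 ≤ q 0 - p 0 by linarith)]
      rcases le_total (p (2 * l + 1)) (q (2 * j + 1) - q (2 * j + 2)) with h6 | h6
      · rw [abs_of_nonneg (by linarith)]
        linarith
      · rw [abs_of_nonpos (by linarith)]
        linarith
    linarith
  obtain ⟨i0, hi0, h1, h2⟩ := h.fr.pfirst hK0
  rcases Nat.even_or_odd' i0 with ⟨r, hr | hr⟩
  · subst hr
    exfalso
    have hr : r < ℓ := by omega
    have hr0 : r ≠ 0 := by
      rintro rfl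
      rw [Nat.mul_zero] at h1
      linarith
    obtain ⟨l, rfl⟩ : ∃ i, r = i + 1 := ⟨r - 1, by omega⟩
    have a1 := h2 (2 * l + 1) (by omega)
    rw [show 2 * (l + 1) = 2 * l + 2 by ring] at h1
    refine key l (by omega) ?_ (Or.inl h1)
    have a2 := h.fr.pT (i := l + 1) hr
    have a3 := h.fr.pE (i := 0) (j := l) (by omega) (by omega)
    have a4 := AA_succ p l
    simp only [Nat.mul_zero, AA_zero, sub_zero] at a3
    rw [show 2 * (l + 1) = 2 * l + 2 by ring] at a2
    rw [abs_le]
    constructor <;> linarith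
  · subst hr
    have hr : r < ℓ := by omega
    by_cases h4 : q (2 * j + 1) - q (2 * j + 2) - θ + (MB + 2) ≤ p (2 * r + 1)
    · exfalso
      refine key r hr ?_ ?_
      · rw [abs_le]
        constructor <;> linarith
      · by_cases h7 : r + 1 < ℓ
        · left
          have := h.fr.pa (i := 2 * r + 1) (j := 2 * r + 2) (by omega) (by omega)
          linarith
        · right
          omega
    · push Not at h4
      exact ⟨r, hr, h2 _ (by omega), h1, h4⟩

end tree

end Pool.Agent.Exact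


end

section

/-!
# The decision tree for `n ≥ 2k-1`
-/

set_option autoImplicit false
set_option linter.unusedSectionVars false

namespace Pool.Agent.Exact

open Finset

variable {V : Type*} [Fintype V] [DecidableEq V]
variable {B : V → V → ℤ} {Rl : Finset V} {ℓ nQ nP : ℕ} {uq up : ℕ → V} {q p : ℕ → ℝ}
variable {k : ℤ} {θ : ℝ}

/-- the leaves of the tree (`n ≥ 2k-1`); in the leaf `c2` the cost of the alignment may be changed
later -/
inductive Leaf (B : V → V → ℤ) (n : ℝ) (ℓ : ℕ) (uq up : ℕ → V) (q p : ℕ → ℝ) (θ : ℝ) : Prop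
  | L1 (i : ℕ) (hi : i < ℓ) (hD : θ - 2 < q (2 * i) - q (2 * i + 1)) (hp : p 0 < q 0 - θ + 2) :
      Leaf B n ℓ uq up q p θ
  | c1a (i j : ℕ) (hi : i < ℓ) (hj : j + 1 < ℓ) (hp : q 0 - θ + 2 ≤ p 0)
      (hD : θ < q (2 * i) - q (2 * i + 1)) (hE : θ - 2 < p (2 * j + 1) - p (2 * j + 2)) :
      Leaf B n ℓ uq up q p θ
  | c1c (i r : ℕ) (hi : i < ℓ) (hr : r < ℓ) (hp : q 0 - θ + 2 ≤ p 0)
      (hD : θ < q (2 * i) - q (2 * i + 1))
      (hA : AA q ℓ + AA p ℓ < 2 * (q 0 - θ) + 2 * MM B (uq 0) (up 0))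
      (hh : ∀ l < r, θ < p (2 * l + 1)) (hp1 : p (2 * r) ≤ θ)
      (hp2 : p (2 * r) < q (2 * i) - q (2 * i + 1) - θ + 2) : Leaf B n ℓ uq up q p θ
  | c2 (j : ℕ) (hj : j < ℓ) (hpq : p 0 ≤ q 0 - 1) (hQ : ∀ l < ℓ, q (2 * l) - q (2 * l + 1) ≤ θ)
      (hD : θ < p (2 * j) - p (2 * j + 1)) : Leaf B n ℓ uq up q p θ
  | c3b (j l : ℕ) (hj : j + 1 < ℓ) (hl : l < ℓ) (hlam : 3 < 2 * θ - n + 1)
      (hz : q 0 + MM B (uq 0) (up 0) + 2 ≤ 2 * θ)
      (hQ : ∀ l < ℓ, q (2 * l) - q (2 * l + 1) ≤ θ)
      (hP : ∀ l < ℓ, p (2 * l) - p (2 * l + 1) ≤ θ)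
      (hA : 2 * θ < AA q ℓ + AA p ℓ)
      (hE : θ - MM B (uq 0) (up 0) < p (2 * j + 1) - p (2 * j + 2))
      (h1 : θ - (MM B (uq 0) (up 0) + 2) < q (2 * l))
      (h2 : q (2 * l + 1) ≤ θ - (MM B (uq 0) (up 0) + 2))
      (h3 : q (2 * l + 1) < p (2 * j + 1) - p (2 * j + 2) - θ + (MM B (uq 0) (up 0) + 2)) :
      Leaf B n ℓ uq up q p θ
  | c3c (i l : ℕ) (hi : i + 1 < ℓ) (hl : l < ℓ) (hlam : 3 < 2 * θ - n + 1)
      (hz : q 0 + MM B (uq 0) (up 0) + 2 ≤ 2 * θ) (hp0 : θ < p 0)
      (hQ : ∀ l < ℓ, q (2 * l) - q (2 * l + 1) ≤ θ)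
      (hP : ∀ l < ℓ, p (2 * l) - p (2 * l + 1) ≤ θ)
      (hA : 2 * θ < AA q ℓ + AA p ℓ)
      (hE : θ - MM B (uq 0) (up 0) < q (2 * i + 1) - q (2 * i + 2))
      (h1 : θ - (MM B (uq 0) (up 0) + 2) < p (2 * l))
      (h2 : p (2 * l + 1) ≤ θ - (MM B (uq 0) (up 0) + 2))
      (h3 : p (2 * l + 1) < q (2 * i + 1) - q (2 * i + 2) - θ + (MM B (uq 0) (up 0) + 2)) :
      Leaf B n ℓ uq up q p θ

/-- **The decision tree.** `hw` can be achieved by exchanging the types. -/
theorem Ctx.tree (h : Ctx B Rl ℓ nQ nP uq up q p k θ) (hn : 2 * k - 1 ≤ (Rl.card : ℤ))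
    (hnv : ¬ Val B θ) (hpq : p 0 ≤ q 0)
    (hw : (∃ j < ℓ, θ < p (2 * j) - p (2 * j + 1)) → (∃ i < ℓ, θ < q (2 * i) - q (2 * i + 1)) ∨
      p 0 ≤ q 0 - 1) : Leaf B Rl.card ℓ uq up q p θ := by
  have hl := h.fr.l2
  have hqθ := h.top hnv hpq
  have hθ0 := h.θ0
  have hq : 0 < q 0 := by linarith
  have hy2 := h.y2 hn hq
  by_cases hp : p 0 < q 0 - θ + 2
  · by_cases hD : ∃ i < ℓ, θ - 2 < q (2 * i) - q (2 * i + 1)
    · obtain ⟨i, hi, hD⟩ := hD
      exact Leaf.L1 i hi hD hp
    · exfalso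
      push Not at hD
      refine h.case3a hn hnv hpq hp hD ?_
      rcases h.fr.failA hθ0 hnv with ⟨l, hl', h1⟩ | ⟨l, hl', h1⟩ | h1
      · have := hD l hl'
        linarith
      · have := h.fr.pD hl'
        have := h.fr.pA0
        linarith
      · exact h1
  · push Not at hp
    by_cases hD : ∃ i < ℓ, θ < q (2 * i) - q (2 * i + 1)
    · obtain ⟨i, hi, hD⟩ := hD
      rcases h.case1 hn hnv hpq hp hi hD with ⟨j, hj, hE⟩ | ⟨hA, r, hr, h1, h2, h3⟩
      · exact Leaf.c1a i j hi hj hp hD hE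
      · exact Leaf.c1c i r hi hr hp hD hA h1 h2 h3
    · by_cases hD' : ∃ j < ℓ, θ < p (2 * j) - p (2 * j + 1)
      · rcases hw hD' with h1 | h1
        · exact absurd h1 hD
        · push Not at hD
          obtain ⟨j, hj, hD'⟩ := hD'
          exact Leaf.c2 j hj h1 hD hD'
      · push Not at hD hD'
        have hA : 2 * θ < AA q ℓ + AA p ℓ := by
          rcases h.fr.failA hθ0 hnv with ⟨l, hl', h1⟩ | ⟨l, hl', h1⟩ | h1
          · exact absurd h1 (not_lt.2 (hD l hl'))
          · exact absurd h1 (not_lt.2 (hD' l hl'))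
          · exact h1
        have hM2 := h.MM2 (uq 0) (up 0)
        rcases failB h.fr.bst hpq (by linarith) hnv with h1 | ⟨l, hl', h1⟩ | ⟨l, hl', h1⟩ | h1
        · linarith
        · obtain ⟨z1, z2, z3, m, hm, z4, z5, z6⟩ := h.case3c hn hnv hpq hA hl' h1
          exact Leaf.c3c l m hl' hm z2 z1 z3 hD hD' hA h1 z4 z5 z6
        · obtain ⟨z1, z2, m, hm, z4, z5, z6⟩ := h.case3b hn hnv hpq hA hl' h1
          exact Leaf.c3b l m hl' hm z2 z1 hD hD' hA h1 z4 z5 z6
        · linarith

/-- the order of two vertices of the same weight may be exchanged -/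
theorem Frame.swap01 (h : Frame B Rl ℓ nQ nP uq up q p) (he : q 0 = q 1) (h2 : 2 ≤ nQ) :
    Frame B Rl ℓ nQ nP (uq ∘ Equiv.swap 0 1) up q p := by
  have hl := h.l2
  have hs : ∀ i, i < 2 * ℓ → Equiv.swap (0 : ℕ) 1 i < 2 * ℓ := by
    intro i hi
    rcases eq_or_ne i 0 with rfl | h0
    · rw [Equiv.swap_apply_left]; omega
    · rcases eq_or_ne i 1 with rfl | h1
      · rw [Equiv.swap_apply_right]; omega
      · rw [Equiv.swap_apply_of_ne_of_ne h0 h1]; exact hi
  have hq : ∀ i, q (Equiv.swap (0 : ℕ) 1 i) = q i := by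
    intro i
    rcases eq_or_ne i 0 with rfl | h0
    · rw [Equiv.swap_apply_left]; exact he.symm
    · rcases eq_or_ne i 1 with rfl | h1
      · rw [Equiv.swap_apply_right]; exact he
      · rw [Equiv.swap_apply_of_ne_of_ne h0 h1]
  have hnq : ∀ i, i < 2 * ℓ → (Equiv.swap (0 : ℕ) 1 i < nQ ↔ i < nQ) := by
    intro i hi
    rcases eq_or_ne i 0 with rfl | h0
    · rw [Equiv.swap_apply_left]; constructor <;> intro _ <;> omega
    · rcases eq_or_ne i 1 with rfl | h1
      · rw [Equiv.swap_apply_right]; constructor <;> intro _ <;> omega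
      · rw [Equiv.swap_apply_of_ne_of_ne h0 h1]
  have hs2 : ∀ i, Equiv.swap (0 : ℕ) 1 (Equiv.swap (0 : ℕ) 1 i) = i := fun i =>
    Equiv.swap_apply_self _ _ _
  constructor
  exact {
    B0 := h.sys.B0
    B1 := h.sys.B1
    Bd := h.sys.Bd
    dummy := h.sys.dummy
    chQ := {
      inj := fun i hi j hj e => by
        have := h.sys.chQ.inj _ (hs i hi) _ (hs j hj) e
        exact (Equiv.swap 0 1).injective this
      wt := Or.inl fun i hi => by
        rw [Function.comp_apply, h.sys.wtQ _ (hs i hi), hq]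
      anti := h.sys.chQ.anti
      nn := h.sys.chQ.nn }
    wtQ := fun i hi => by rw [Function.comp_apply, h.sys.wtQ _ (hs i hi), hq]
    chP := h.sys.chP
    wtP := h.sys.wtP
    disj := fun i hi j hj => h.sys.disj _ (hs i hi) j hj
    cover := fun v => by
      rcases h.sys.cover v with ⟨i, hi, e⟩ | h1
      · left
        exact ⟨Equiv.swap 0 1 i, hs i hi, by rw [Function.comp_apply, hs2]; exact e⟩
      · exact Or.inr h1
    realQ := fun i hi => by
      rw [Function.comp_apply, h.sys.realQ _ (hs i hi), hnq i hi]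
    realP := h.sys.realP
    card := h.sys.card
    big := h.sys.big }

/-- the second alignment of the structure B -/
theorem Ctx.bst01 (h : Ctx B Rl ℓ nQ nP uq up q p k θ) (he : q 0 = q 1) (hq : 0 < q 0) :
    BSt B ℓ q p (MM B (uq 1) (up 0)) := by
  have hl := h.fr.l2
  have h2 : 2 ≤ nQ := by
    have h1 := h.realQ0 (i := 1) (by omega) (by linarith)
    rw [h.fr.sys.realQ 1 (by omega)] at h1
    omega
  have h3 := (h.fr.swap01 he h2).bst
  simpa using h3

end Pool.Agent.Exact


end
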