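import Mathlib
import Pool.Agent.EXAM.C04

/-! Parts: Lib_helper23.Exact.Glue, Lib_helper68.Exact.Arr, Lib_helper68.Exact.PoT, Lib_helper68.Exact.PoE -/

section

/-!
# Crossings are good in all leaves of the decision tree
-/

set_option autoImplicit false
set_option linter.unusedSectionVars false

namespace Pool.Agent.Exact

open Finset

variable {V : Type*} [Fintype V] [DecidableEq V]
variable {B : V → V → ℤ} {Rl : Finset V} {ℓ nQ nP : ℕ} {uq up : ℕ → V} {q p : ℕ → ℝ}
variable {k : ℤ} {θ : ℝ}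

/-- the charge of the rest, as a real number -/
noncomputable def cRr (B : V → V → ℤ) (nQ nP : ℕ) (uq up : ℕ → V) (a b : ℕ) : ℝ :=
  ((ch (MM B (uq 0)) (vs uq up (rr nQ nP a b)) : ℤ) : ℝ)

/-- the cut is admissible and crossings give good values -/
structure Closed (B : V → V → ℤ) (nQ nP : ℕ) (uq up : ℕ → V) (q p : ℕ → ℝ) (θ : ℝ) (a b : ℕ) :
    Prop where
  a1 : 1 ≤ a
  aQ : a ≤ nQ
  bP : b ≤ nP
  cr : ∀ D : ℝ, D ≤ max 0 (cRr B nQ nP uq up a b - 1) → CrI B uq up q p a b D → Val B θ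
  crs : ∀ D : ℝ, D ≤ cRr B nQ nP uq up a b → CrSI B uq up p a b D → Val B θ

section
variable (h : Ctx B Rl ℓ nQ nP uq up q p k θ)
include h

lemma Ctx.idxQ {i : ℕ} (hi : i < 2 * ℓ) (hq : 0 < q i) : i + 1 ≤ nQ := by
  have h1 := h.realQ0 hi hq
  rwa [h.fr.sys.realQ i hi] at h1

lemma Ctx.idxP {i : ℕ} (hi : i < 2 * ℓ) (hp : 0 < p i) : i + 1 ≤ nP := h.swap.idxQ hi hp

lemma Ctx.cR0 {a b : ℕ} : 0 ≤ cRr B nQ nP uq up a b := by
  unfold cRr
  exact_mod_cast ch_nonneg _

lemma Ctx.cR {a b : ℕ} (ha1 : 1 ≤ a) (haQ : a ≤ nQ) (hbP : b ≤ nP) :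
    cRr B nQ nP uq up a b ≤ Rl.card - 1 - q 0 := by
  have h1 := h.fr.chR ha1 haQ hbP (T := ∅) (by simp)
  simp only [Finset.sum_empty, add_zero] at h1
  exact h1

lemma Ctx.cRB {a b : ℕ} (ha1 : 1 ≤ a) (haQ : a ≤ nQ) (hbP : b ≤ nP) (hb : 1 ≤ b) :
    cRr B nQ nP uq up a b + (MM B (uq 0) (up 0) - 1) ≤ Rl.card - 1 - q 0 := by
  have h1 := h.fr.chR ha1 haQ hbP (T := {up 0}) (by
    intro v hv
    rw [Finset.mem_singleton] at hv
    subst hv
    unfold vs
    refine Finset.mem_image.2 ⟨Sum.inr 0, ?_, rfl⟩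
    simp only [hb1, Finset.mem_union, inr_mem_iq, inr_mem_ip]
    omega)
  rw [Finset.sum_singleton] at h1
  have h2 := h.fr.sys.B1 (uq 0) (up 0)
  have h3 : MM B (uq 0) (up 0) - 1 ≤ 1 - (B (uq 0) (up 0) - B (up 0) (uq 0)) := by
    unfold MM; linarith
  have h4 : ((MM B (uq 0) (up 0) - 1 : ℤ) : ℝ) ≤
      ((1 - (B (uq 0) (up 0) - B (up 0) (uq 0)) : ℤ) : ℝ) := by exact_mod_cast h3
  unfold cRr
  push_cast at h1 h4 ⊢
  linarith

lemma Ctx.cRM {a b : ℕ} (ha1 : 2 ≤ a) (haQ : a ≤ nQ) (hbP : b ≤ nP) (hb : 1 ≤ b) :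
    cRr B nQ nP uq up a b + (MM B (uq 0) (up 0) - 1) +
      (1 - (B (uq 0) (uq 1) - B (uq 1) (uq 0))) ≤ Rl.card - 1 - q 0 := by
  have hl := h.fr.l2
  have hne : uq 1 ≠ up 0 := (h.uqp (by omega) (by omega)).symm
  have h1 := h.fr.chR (by omega) haQ hbP (T := {uq 1, up 0}) (by
    intro v hv
    rw [Finset.mem_insert, Finset.mem_singleton] at hv
    unfold vs
    rcases hv with hv | hv
    · subst hv
      refine Finset.mem_image.2 ⟨Sum.inl 1, ?_, rfl⟩
      simp only [hb1, Finset.mem_union, inl_mem_iq, inl_mem_ip]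
      omega
    · subst hv
      refine Finset.mem_image.2 ⟨Sum.inr 0, ?_, rfl⟩
      simp only [hb1, Finset.mem_union, inr_mem_iq, inr_mem_ip]
      omega)
  rw [Finset.sum_pair hne] at h1
  have h2 := h.fr.sys.B1 (uq 0) (up 0)
  have h3 : MM B (uq 0) (up 0) - 1 ≤ 1 - (B (uq 0) (up 0) - B (up 0) (uq 0)) := by
    unfold MM; linarith
  have h4 : ((MM B (uq 0) (up 0) - 1 : ℤ) : ℝ) ≤
      ((1 - (B (uq 0) (up 0) - B (up 0) (uq 0)) : ℤ) : ℝ) := by exact_mod_cast h3
  unfold cRr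
  push_cast at h1 h4 ⊢
  linarith

/-- exchanging the first two vertices -/
lemma Ctx.swap01 (he : q 0 = q 1) (h2 : 2 ≤ nQ) :
    Ctx B Rl ℓ nQ nP (uq ∘ Equiv.swap 0 1) up q p k θ where
  fr := h.fr.swap01 he h2
  k3 := h.k3
  hm := h.hm
  deg := h.deg

/-- the difference of two weights is an integer -/
lemma Ctx.qint {i j : ℕ} (hi : i < 2 * ℓ) (hj : j < 2 * ℓ) (hlt : q j < q i) :
    q j + 1 ≤ q i := by
  have h1 := h.fr.sys.wtQ i hi
  have h2 := h.fr.sys.wtQ j hj
  rw [← h1, ← h2] at hlt ⊢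
  exact_mod_cast Int.add_one_le_iff.2 (by exact_mod_cast hlt)

end

/-- the leaves of the tree with good crossings -/
inductive LeafC (B : V → V → ℤ) (n : ℝ) (ℓ nQ nP : ℕ) (uq up : ℕ → V) (q p : ℕ → ℝ) (θ : ℝ) : Prop
  | L1 (i : ℕ) (hi : i < ℓ) (hD : θ - 2 < q (2 * i) - q (2 * i + 1)) (hp : p 0 < q 0 - θ + 2)
      (hC : Closed B nQ nP uq up q p θ (2 * i + 1) 0) : LeafC B n ℓ nQ nP uq up q p θ
  | c1a (i j : ℕ) (hi : i < ℓ) (hj : j + 1 < ℓ) (hp : q 0 - θ + 2 ≤ p 0)
      (hD : θ < q (2 * i) - q (2 * i + 1)) (hE : θ - 2 < p (2 * j + 1) - p (2 * j + 2))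
      (hC : Closed B nQ nP uq up q p θ (2 * i + 1) (2 * (j + 1))) :
      LeafC B n ℓ nQ nP uq up q p θ
  | c1c (i r : ℕ) (hi : i < ℓ) (hr : r < ℓ) (hp : q 0 - θ + 2 ≤ p 0)
      (hD : θ < q (2 * i) - q (2 * i + 1))
      (hA : AA q ℓ + AA p ℓ < 2 * (q 0 - θ) + 2 * MM B (uq 0) (up 0))
      (hh : ∀ l < r, θ < p (2 * l + 1)) (hp1 : p (2 * r) ≤ θ)
      (hp2 : p (2 * r) < q (2 * i) - q (2 * i + 1) - θ + 2)
      (hC : Closed B nQ nP uq up q p θ (2 * i + 1) (2 * r)) : LeafC B n ℓ nQ nP uq up q p θ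
  | c2a (i j : ℕ) (hi : i + 1 < ℓ) (hj : j < ℓ) (hpq : p 0 ≤ q 0 - 1)
      (hQ : ∀ l < ℓ, q (2 * l) - q (2 * l + 1) ≤ θ)
      (hE : θ - MM B (uq 0) (up 0) < q (2 * i + 1) - q (2 * i + 2))
      (hD : θ < p (2 * j) - p (2 * j + 1))
      (hC : Closed B nQ nP uq up q p θ (2 * (i + 1)) (2 * j + 1)) : LeafC B n ℓ nQ nP uq up q p θ
  | c2c (i j : ℕ) (hi : i + 1 < ℓ) (hj : j < ℓ) (hpq : p 0 ≤ q 0 - 1)
      (hQ : ∀ l < ℓ, q (2 * l) - q (2 * l + 1) ≤ θ)
      (hD : θ < p (2 * j) - p (2 * j + 1))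
      (hA : AA q ℓ + AA p ℓ < 2 * (q 0 - θ) + 2 * MM B (uq 0) (up 0))
      (h1 : θ - 2 < q (2 * i + 1)) (h2 : q (2 * (i + 1)) ≤ θ - 2)
      (h3 : q (2 * (i + 1)) < p (2 * j) - p (2 * j + 1) - θ + 2)
      (hC : Closed B nQ nP uq up q p θ (2 * (i + 1)) (2 * j + 1)) : LeafC B n ℓ nQ nP uq up q p θ
  | c3b (j l : ℕ) (hj : j + 1 < ℓ) (hl : l < ℓ) (hlam : 3 < 2 * θ - n + 1)
      (hz : q 0 + MM B (uq 0) (up 0) + 2 ≤ 2 * θ)
      (hQ : ∀ l < ℓ, q (2 * l) - q (2 * l + 1) ≤ θ)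
      (hP : ∀ l < ℓ, p (2 * l) - p (2 * l + 1) ≤ θ)
      (hA : 2 * θ < AA q ℓ + AA p ℓ)
      (hE : θ - MM B (uq 0) (up 0) < p (2 * j + 1) - p (2 * j + 2))
      (h1 : θ - (MM B (uq 0) (up 0) + 2) < q (2 * l))
      (h2 : q (2 * l + 1) ≤ θ - (MM B (uq 0) (up 0) + 2))
      (h3 : q (2 * l + 1) < p (2 * j + 1) - p (2 * j + 2) - θ + (MM B (uq 0) (up 0) + 2))
      (hC : Closed B nQ nP uq up q p θ (2 * l + 1) (2 * (j + 1))) :
      LeafC B n ℓ nQ nP uq up q p θ
  | c3c (i l : ℕ) (hi : i + 1 < ℓ) (hl : l < ℓ) (hlam : 3 < 2 * θ - n + 1)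
      (hz : q 0 + MM B (uq 0) (up 0) + 2 ≤ 2 * θ) (hp0 : θ < p 0)
      (hQ : ∀ l < ℓ, q (2 * l) - q (2 * l + 1) ≤ θ)
      (hP : ∀ l < ℓ, p (2 * l) - p (2 * l + 1) ≤ θ)
      (hA : 2 * θ < AA q ℓ + AA p ℓ)
      (hE : θ - MM B (uq 0) (up 0) < q (2 * i + 1) - q (2 * i + 2))
      (h1 : θ - (MM B (uq 0) (up 0) + 2) < p (2 * l))
      (h2 : p (2 * l + 1) ≤ θ - (MM B (uq 0) (up 0) + 2))
      (h3 : p (2 * l + 1) < q (2 * i + 1) - q (2 * i + 2) - θ + (MM B (uq 0) (up 0) + 2))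
      (hC : Closed B nQ nP uq up q p θ (2 * (i + 1)) (2 * l + 1)) : LeafC B n ℓ nQ nP uq up q p θ

section
variable (h : Ctx B Rl ℓ nQ nP uq up q p k θ)
include h

/-- a bound of `D` -/
lemma max_cases' {x c r : ℝ} (hx : x ≤ max 0 (c - 1)) (h0 : 0 ≤ r) (h1 : c - 1 ≤ r) : x ≤ r :=
  hx.trans (max_le h0 h1)

theorem Ctx.closedL1 (hn : 2 * k - 1 ≤ (Rl.card : ℤ)) (hnv : ¬ Val B θ) (hpq : p 0 ≤ q 0)
    {i : ℕ} (hi : i < ℓ) (hD : θ - 2 < q (2 * i) - q (2 * i + 1)) (hp : p 0 < q 0 - θ + 2) :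
    Closed B nQ nP uq up q p θ (2 * i + 1) 0 := by
  have hl := h.fr.l2
  have hqθ := h.top hnv hpq
  have hθ3 := h.θ3 hn
  have hlam := h.lam2 hn
  have hq1 := h.fr.qn (i := 2 * i + 1) (by omega)
  have haQ : 2 * i + 1 ≤ nQ := h.idxQ (i := 2 * i) (by omega) (by linarith)
  have hcR := h.cR (a := 2 * i + 1) (b := 0) (by omega) haQ (Nat.zero_le _)
  have hcR0 := h.cR0 (a := 2 * i + 1) (b := 0)
  have key : ∀ D : ℝ, D + 2 ≤ ((Rl.card : ℝ) - 1 - q 0) + (2 * θ - Rl.card + 1) →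
      (CrI B uq up q p (2 * i + 1) 0 D → Val B θ) ∧
        (CrSI B uq up p (2 * i + 1) 0 D → Val B θ) := fun D hD' =>
    h.fr.leafL1 (y := q 0 - θ) (ζ := Rl.card - 1 - q 0) (lam := 2 * θ - Rl.card + 1)
      (by ring) (by ring) (by linarith) hi hD hp hD'
  refine ⟨by omega, haQ, Nat.zero_le _, fun D hD' hC => ?_, fun D hD' hC => ?_⟩
  · exact (key D (by
      rcases le_max_iff.1 hD' with h1 | h1 <;> linarith)).1 hC
  · exact (key D (by linarith)).2 hC

theorem Ctx.closed1a (hn : 2 * k - 1 ≤ (Rl.card : ℤ)) (hnv : ¬ Val B θ) (hpq : p 0 ≤ q 0)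
    {i j : ℕ} (hi : i < ℓ) (hj : j + 1 < ℓ)
    (hD : θ < q (2 * i) - q (2 * i + 1)) (hE : θ - 2 < p (2 * j + 1) - p (2 * j + 2)) :
    Closed B nQ nP uq up q p θ (2 * i + 1) (2 * (j + 1)) := by
  have hl := h.fr.l2
  have hqθ := h.top hnv hpq
  have hθ3 := h.θ3 hn
  have hlam := h.lam2 hn
  have hq1 := h.fr.qn (i := 2 * i + 1) (by omega)
  have hp1 := h.fr.pn (i := 2 * j + 2) (by omega)
  have haQ : 2 * i + 1 ≤ nQ := h.idxQ (i := 2 * i) (by omega) (by linarith)
  have hbP : 2 * (j + 1) ≤ nP := h.idxP (i := 2 * j + 1) (by omega) (by linarith)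
  have hcR := h.cR (a := 2 * i + 1) (b := 2 * (j + 1)) (by omega) haQ hbP
  have hcR0 := h.cR0 (a := 2 * i + 1) (b := 2 * (j + 1))
  have key : ∀ D : ℝ, D + 2 ≤ ((Rl.card : ℝ) - 1 - q 0) + (2 * θ - Rl.card + 1) →
      (CrI B uq up q p (2 * i + 1) (2 * (j + 1)) D → Val B θ) ∧
        (CrSI B uq up p (2 * i + 1) (2 * (j + 1)) D → Val B θ) := fun D hD' =>
    h.fr.leaf1a (y := q 0 - θ) (ζ := Rl.card - 1 - q 0) (lam := 2 * θ - Rl.card + 1)
      (by ring) hpq (by ring) (by linarith) hi hj hD hE hD'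
  refine ⟨by omega, haQ, hbP, fun D hD' hC => ?_, fun D hD' hC => ?_⟩
  · exact (key D (by
      rcases le_max_iff.1 hD' with h1 | h1 <;> linarith)).1 hC
  · exact (key D (by linarith)).2 hC

theorem Ctx.closed1c (hn : 2 * k - 1 ≤ (Rl.card : ℤ)) (hnv : ¬ Val B θ) (hpq : p 0 ≤ q 0)
    {i r : ℕ} (hi : i < ℓ) (hr : r < ℓ)
    (hD : θ < q (2 * i) - q (2 * i + 1))
    (hA : AA q ℓ + AA p ℓ < 2 * (q 0 - θ) + 2 * MM B (uq 0) (up 0))
    (hh : ∀ l < r, θ < p (2 * l + 1))
    (hp2 : p (2 * r) < q (2 * i) - q (2 * i + 1) - θ + 2) :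
    Closed B nQ nP uq up q p θ (2 * i + 1) (2 * r) := by
  have hl := h.fr.l2
  have hqθ := h.top hnv hpq
  have hθ3 := h.θ3 hn
  have hlam := h.lam2 hn
  have hq1 := h.fr.qn (i := 2 * i + 1) (by omega)
  have haQ : 2 * i + 1 ≤ nQ := h.idxQ (i := 2 * i) (by omega) (by linarith)
  have hbP : 2 * r ≤ nP := by
    rcases Nat.eq_zero_or_pos r with rfl | hr0
    · simp
    · have h1 := hh (r - 1) (by omega)
      have h2 := h.idxP (i := 2 * (r - 1) + 1) (by omega) (by linarith)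
      omega
  have hcR := h.cR (a := 2 * i + 1) (b := 2 * r) (by omega) haQ hbP
  have hcR0 := h.cR0 (a := 2 * i + 1) (b := 2 * r)
  have hM2 := h.MM2 (uq 0) (up 0)
  have key : ∀ D : ℝ, D + 2 ≤ ((Rl.card : ℝ) - 1 - q 0) + (2 * θ - Rl.card + 1) →
      2 * D + 2 * MM B (uq 0) (up 0) + 2 ≤
        3 * ((Rl.card : ℝ) - 1 - q 0) + 3 * (2 * θ - Rl.card + 1) →
      (CrI B uq up q p (2 * i + 1) (2 * r) D → Val B θ) ∧
        (CrSI B uq up p (2 * i + 1) (2 * r) D → Val B θ) := fun D hD' hD'' =>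
    h.fr.leaf1c (y := q 0 - θ) (ζ := Rl.card - 1 - q 0) (lam := 2 * θ - Rl.card + 1)
      (by ring) hpq (by ring) (by linarith) hi hr hD hA hh hp2 hD' hD''
  refine ⟨by omega, haQ, hbP, fun D hD' hC => ?_, fun D hD' hC => ?_⟩
  · refine (key D ?_ ?_).1 hC
    · rcases le_max_iff.1 hD' with h1 | h1 <;> linarith
    · rcases le_max_iff.1 hD' with h1 | h1 <;> linarith
  · refine (key D (by linarith) ?_).2 hC
    rcases Nat.eq_zero_or_pos r with rfl | hr0
    · linarith
    · have := h.cRB (a := 2 * i + 1) (b := 2 * r) (by omega) haQ hbP (by omega)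
      linarith

theorem Ctx.closed2a (hn : 2 * k - 1 ≤ (Rl.card : ℤ)) (hnv : ¬ Val B θ)
    (hpq : p 0 ≤ q 0 - 1) {i j : ℕ} (hi : i + 1 < ℓ) (hj : j < ℓ)
    (hE : θ - MM B (uq 0) (up 0) < q (2 * i + 1) - q (2 * i + 2))
    (hD : θ < p (2 * j) - p (2 * j + 1))
    (hc : q 1 + 1 ≤ q 0 ∨ B (uq 0) (uq 1) ≤ B (uq 1) (uq 0)) :
    Closed B nQ nP uq up q p θ (2 * (i + 1)) (2 * j + 1) := by
  have hl := h.fr.l2
  have hqθ := h.top hnv (by linarith)
  have hθ3 := h.θ3 hn
  have hlam := h.lam2 hn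
  have hq1 := h.fr.qn (i := 2 * i + 2) (by omega)
  have hp1 := h.fr.pn (i := 2 * j + 1) (by omega)
  have hM2 := h.MM2 (uq 0) (up 0)
  have hM0 := h.MM0 (uq 0) (up 0)
  have hN2 := h.MM2 (uq 1) (up 0)
  have haQ : 2 * (i + 1) ≤ nQ := h.idxQ (i := 2 * i + 1) (by omega) (by linarith)
  have hbP : 2 * j + 1 ≤ nP := h.idxP (i := 2 * j) (by omega) (by linarith)
  have hcR := h.cRM (a := 2 * (i + 1)) (b := 2 * j + 1) (by omega) haQ hbP (by omega)
  have hcR0 := h.cR0 (a := 2 * (i + 1)) (b := 2 * j + 1)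
  have hcR' := h.cR (a := 2 * (i + 1)) (b := 2 * j + 1) (by omega) haQ hbP
  have hb1 : ((B (uq 0) (uq 1) : ℤ) : ℝ) ≤ 1 := by exact_mod_cast h.fr.sys.B1 _ _
  have hb0 : (0 : ℝ) ≤ ((B (uq 1) (uq 0) : ℤ) : ℝ) := by exact_mod_cast h.fr.sys.B0 _ _
  have hc' : q 1 + 1 ≤ q 0 ∨ ((B (uq 0) (uq 1) : ℤ) : ℝ) ≤ ((B (uq 1) (uq 0) : ℤ) : ℝ) := by
    rcases hc with h1 | h1
    · exact Or.inl h1
    · right; exact_mod_cast h1
  have ha : q 1 ≤ q 0 := h.fr.qa (by omega) (by omega)
  have key : ∀ D : ℝ, D + MM B (uq 1) (up 0) + MM B (uq 0) (up 0) - (q 0 - q 1) ≤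
      ((Rl.card : ℝ) - 1 - q 0) + (2 * θ - Rl.card + 1) →
      D + MM B (uq 1) (up 0) + MM B (uq 0) (up 0) - 1 ≤
      ((Rl.card : ℝ) - 1 - q 0) + (2 * θ - Rl.card + 1) →
      (CrI B uq up q p (2 * (i + 1)) (2 * j + 1) D → Val B θ) ∧
        (CrSI B uq up p (2 * (i + 1)) (2 * j + 1) D → Val B θ) := fun D hD' hD'' =>
    h.fr.leaf2a (y := q 0 - θ) (by ring) hpq hi hj hM0 hE hD
      (by linarith) (by linarith)
  refine ⟨by omega, haQ, hbP, fun D hD' hC => ?_, fun D hD' hC => ?_⟩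
  · refine (key D ?_ ?_).1 hC
    · rcases le_max_iff.1 hD' with h1 | h1 <;> rcases hc' with h2 | h2 <;> linarith
    · rcases le_max_iff.1 hD' with h1 | h1 <;> linarith
  · refine (key D ?_ ?_).2 hC
    · rcases hc' with h2 | h2 <;> linarith
    · linarith

theorem Ctx.closed2c (hn : 2 * k - 1 ≤ (Rl.card : ℤ)) (hnv : ¬ Val B θ)
    (hpq : p 0 ≤ q 0 - 1) {i j : ℕ} (hi : i + 1 < ℓ) (hj : j < ℓ)
    (hD : θ < p (2 * j) - p (2 * j + 1))
    (hA : AA q ℓ + AA p ℓ < 2 * (q 0 - θ) + 2 * MM B (uq 0) (up 0))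
    (h1 : θ - 2 < q (2 * i + 1))
    (h3 : q (2 * (i + 1)) < p (2 * j) - p (2 * j + 1) - θ + 2)
    (hc : q 1 + 1 ≤ q 0 ∨ B (uq 0) (uq 1) ≤ B (uq 1) (uq 0)) :
    Closed B nQ nP uq up q p θ (2 * (i + 1)) (2 * j + 1) := by
  have hl := h.fr.l2
  have hqθ := h.top hnv (by linarith)
  have hθ3 := h.θ3 hn
  have hlam := h.lam2 hn
  have hp1 := h.fr.pn (i := 2 * j + 1) (by omega)
  have hM2 := h.MM2 (uq 0) (up 0)
  have hM0 := h.MM0 (uq 0) (up 0)
  have hN2 := h.MM2 (uq 1) (up 0)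
  have haQ : 2 * (i + 1) ≤ nQ := h.idxQ (i := 2 * i + 1) (by omega) (by linarith)
  have hbP : 2 * j + 1 ≤ nP := h.idxP (i := 2 * j) (by omega) (by linarith)
  have hcR := h.cRM (a := 2 * (i + 1)) (b := 2 * j + 1) (by omega) haQ hbP (by omega)
  have hcRB := h.cRB (a := 2 * (i + 1)) (b := 2 * j + 1) (by omega) haQ hbP (by omega)
  have hcR0 := h.cR0 (a := 2 * (i + 1)) (b := 2 * j + 1)
  have hcR' := h.cR (a := 2 * (i + 1)) (b := 2 * j + 1) (by omega) haQ hbP
  have hb1 : ((B (uq 0) (uq 1) : ℤ) : ℝ) ≤ 1 := by exact_mod_cast h.fr.sys.B1 _ _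
  have hb0 : (0 : ℝ) ≤ ((B (uq 1) (uq 0) : ℤ) : ℝ) := by exact_mod_cast h.fr.sys.B0 _ _
  have hc' : q 1 + 1 ≤ q 0 ∨ ((B (uq 0) (uq 1) : ℤ) : ℝ) ≤ ((B (uq 1) (uq 0) : ℤ) : ℝ) := by
    rcases hc with h1 | h1
    · exact Or.inl h1
    · right; exact_mod_cast h1
  have ha : q 1 ≤ q 0 := h.fr.qa (by omega) (by omega)
  have hy2 := h.y2 hn (by linarith)
  have hpa := h.fr.pa (i := 0) (j := 2 * j) (Nat.zero_le _) (by omega)
  obtain ⟨z1, z2, z3⟩ := h.Z1 hn (by linarith) (by linarith) (by linarith)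
  obtain ⟨ζ, hζ0, hζ⟩ := h.zeta (i := 0) (by omega) (by linarith)
  have hz : (Rl.card : ℝ) - 1 - q 0 = 0 ∧ 3 ≤ 2 * θ - Rl.card + 1 ∨ 1 ≤ (Rl.card : ℝ) - 1 - q 0 := by
    rcases hζ0.eq_or_lt with h5 | h5
    · left
      rw [← h5] at hζ
      have h6 : q 0 = Rl.card - 1 := by push_cast at hζ; linarith
      refine ⟨by linarith, ?_⟩
      have := z3 h6
      linarith
    · right
      rw [← hζ]
      exact_mod_cast h5
  refine ⟨by omega, haQ, hbP, fun D hD' hC => ?_, fun D hD' hC => ?_⟩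
  · refine h.fr.leaf2c (y := q 0 - θ) (ζ := Rl.card - 1 - q 0) (lam := 2 * θ - Rl.card + 1)
      (by ring) hpq (by ring) hi hj hD hA h3 ?_ ?_ ?_ hC
    · rcases le_max_iff.1 hD' with h5 | h5 <;> rcases hz with h6 | h6 <;> linarith
    · rcases le_max_iff.1 hD' with h5 | h5 <;> linarith
    · rcases le_max_iff.1 hD' with h5 | h5 <;> rcases hc' with h2 | h2 <;> linarith
  · refine h.fr.leaf2cs (y := q 0 - θ) (ζ := Rl.card - 1 - q 0) (lam := 2 * θ - Rl.card + 1)
      (by ring) hpq (by ring) hi hj hD hA ?_ ?_ hC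
    · linarith
    · linarith

theorem Ctx.closed3b (hn : 2 * k - 1 ≤ (Rl.card : ℤ)) (hnv : ¬ Val B θ) (hpq : p 0 ≤ q 0)
    {j l : ℕ} (hj : j + 1 < ℓ) (hl : l < ℓ)
    (hz : q 0 + MM B (uq 0) (up 0) + 2 ≤ 2 * θ)
    (hA : 2 * θ < AA q ℓ + AA p ℓ)
    (hE : θ - MM B (uq 0) (up 0) < p (2 * j + 1) - p (2 * j + 2))
    (h1 : θ - (MM B (uq 0) (up 0) + 2) < q (2 * l))
    (h3 : q (2 * l + 1) < p (2 * j + 1) - p (2 * j + 2) - θ + (MM B (uq 0) (up 0) + 2)) :
    Closed B nQ nP uq up q p θ (2 * l + 1) (2 * (j + 1)) := by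
  have hl2 := h.fr.l2
  have hqθ := h.top hnv hpq
  have hθ3 := h.θ3 hn
  have hlam := h.lam2 hn
  have hM2 := h.MM2 (uq 0) (up 0)
  have hM0 := h.MM0 (uq 0) (up 0)
  have hp1 := h.fr.pn (i := 2 * j + 2) (by omega)
  have haQ : 2 * l + 1 ≤ nQ := h.idxQ (i := 2 * l) (by omega) (by linarith)
  have hbP : 2 * (j + 1) ≤ nP := h.idxP (i := 2 * j + 1) (by omega) (by linarith)
  have hcR := h.cR (a := 2 * l + 1) (b := 2 * (j + 1)) (by omega) haQ hbP
  have hcR0 := h.cR0 (a := 2 * l + 1) (b := 2 * (j + 1))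
  have key : ∀ D : ℝ, D + 2 ≤ ((Rl.card : ℝ) - 1 - q 0) + (2 * θ - Rl.card + 1) →
      (CrI B uq up q p (2 * l + 1) (2 * (j + 1)) D → Val B θ) ∧
        (CrSI B uq up p (2 * l + 1) (2 * (j + 1)) D → Val B θ) := fun D hD' =>
    h.fr.leaf3b (y := q 0 - θ) (ζ := Rl.card - 1 - q 0) (lam := 2 * θ - Rl.card + 1)
      (by ring) hpq (by ring) (by linarith) hl hj hM2 hE hA h3 hD' (by linarith) (by linarith)
  refine ⟨by omega, haQ, hbP, fun D hD' hC => ?_, fun D hD' hC => ?_⟩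
  · exact (key D (by
      rcases le_max_iff.1 hD' with h1 | h1 <;> linarith)).1 hC
  · exact (key D (by linarith)).2 hC

theorem Ctx.closed3c (hn : 2 * k - 1 ≤ (Rl.card : ℤ)) (hnv : ¬ Val B θ) (hpq : p 0 ≤ q 0)
    {i l : ℕ} (hi : i + 1 < ℓ) (hl : l < ℓ) (hlam : 3 < 2 * θ - (Rl.card : ℝ) + 1)
    (hz : q 0 + MM B (uq 0) (up 0) + 2 ≤ 2 * θ)
    (hA : 2 * θ < AA q ℓ + AA p ℓ)
    (hE : θ - MM B (uq 0) (up 0) < q (2 * i + 1) - q (2 * i + 2))
    (h1 : θ - (MM B (uq 0) (up 0) + 2) < p (2 * l))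
    (h3 : p (2 * l + 1) < q (2 * i + 1) - q (2 * i + 2) - θ + (MM B (uq 0) (up 0) + 2)) :
    Closed B nQ nP uq up q p θ (2 * (i + 1)) (2 * l + 1) := by
  have hl2 := h.fr.l2
  have hqθ := h.top hnv hpq
  have hθ3 := h.θ3 hn
  have hM2 := h.MM2 (uq 0) (up 0)
  have hM0 := h.MM0 (uq 0) (up 0)
  have hN2 := h.MM2 (uq 1) (up 0)
  have hq1 := h.fr.qn (i := 2 * i + 2) (by omega)
  have haQ : 2 * (i + 1) ≤ nQ := h.idxQ (i := 2 * i + 1) (by omega) (by linarith)
  have hbP : 2 * l + 1 ≤ nP := h.idxP (i := 2 * l) (by omega) (by linarith)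
  have hcRB := h.cRB (a := 2 * (i + 1)) (b := 2 * l + 1) (by omega) haQ hbP (by omega)
  have hcR := h.cR (a := 2 * (i + 1)) (b := 2 * l + 1) (by omega) haQ hbP
  have hcR0 := h.cR0 (a := 2 * (i + 1)) (b := 2 * l + 1)
  have key : ∀ D : ℝ, D + MM B (uq 1) (up 0) + MM B (uq 0) (up 0) ≤
      ((Rl.card : ℝ) - 1 - q 0) + (2 * θ - Rl.card + 1) →
      D + MM B (uq 1) (up 0) + MM B (uq 0) (up 0) + 2 ≤
      2 * ((Rl.card : ℝ) - 1 - q 0) + 2 * (2 * θ - Rl.card + 1) →
      (CrI B uq up q p (2 * (i + 1)) (2 * l + 1) D → Val B θ) ∧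
        (CrSI B uq up p (2 * (i + 1)) (2 * l + 1) D → Val B θ) := fun D hD' hD'' =>
    h.fr.leaf3c (y := q 0 - θ) (ζ := Rl.card - 1 - q 0) (lam := 2 * θ - Rl.card + 1)
      (by ring) hpq (by ring) (by linarith) hi hl hE hA h3 (by linarith) (by linarith)
  refine ⟨by omega, haQ, hbP, fun D hD' hC => ?_, fun D hD' hC => ?_⟩
  · refine (key D ?_ ?_).1 hC
    · rcases le_max_iff.1 hD' with h1 | h1 <;> linarith
    · rcases le_max_iff.1 hD' with h1 | h1 <;> linarith
  · refine (key D ?_ ?_).2 hC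
    · linarith
    · linarith

/-- the two possibilities in case 2 -/
theorem Ctx.leafC2 (hn : 2 * k - 1 ≤ (Rl.card : ℤ)) (hnv : ¬ Val B θ)
    {j : ℕ} (hj : j < ℓ) (hpq : p 0 ≤ q 0 - 1) (hQ : ∀ l < ℓ, q (2 * l) - q (2 * l + 1) ≤ θ)
    (hD : θ < p (2 * j) - p (2 * j + 1))
    (hc : q 1 + 1 ≤ q 0 ∨ B (uq 0) (uq 1) ≤ B (uq 1) (uq 0)) :
    LeafC B Rl.card ℓ nQ nP uq up q p θ := by
  rcases h.case2 hn hnv hpq h.fr.bst le_rfl hj hD with ⟨i, hi, hE⟩ | ⟨hA, i, hi, h1, h2, h3⟩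
  · exact LeafC.c2a i j hi hj hpq hQ hE hD (h.closed2a hn hnv hpq hi hj hE hD hc)
  · exact LeafC.c2c i j hi hj hpq hQ hD hA h1 h2 h3 (h.closed2c hn hnv hpq hi hj hD hA h1 h3 hc)

/-- **The decision tree with good crossings.** -/
theorem Ctx.leafC (hn : 2 * k - 1 ≤ (Rl.card : ℤ))
    (hnv : ¬ Val B θ) (hpq : p 0 ≤ q 0)
    (hw : (∃ j < ℓ, θ < p (2 * j) - p (2 * j + 1)) → (∃ i < ℓ, θ < q (2 * i) - q (2 * i + 1)) ∨
      p 0 ≤ q 0 - 1) :
    ∃ uq' : ℕ → V, Ctx B Rl ℓ nQ nP uq' up q p k θ ∧ LeafC B Rl.card ℓ nQ nP uq' up q p θ := by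
  have hl := h.fr.l2
  rcases h.tree hn hnv hpq hw with ⟨i, hi, hD, hp⟩ | ⟨i, j, hi, hj, hp, hD, hE⟩ |
    ⟨i, r, hi, hr, hp, hD, hA, hh, hp1, hp2⟩ | ⟨j, hj, hpq', hQ, hD⟩ |
    ⟨j, l, hj, hl, hlam, hz, hQ, hP, hA, hE, h1, h2, h3⟩ |
    ⟨i, l, hi, hl, hlam, hz, hp0, hQ, hP, hA, hE, h1, h2, h3⟩
  · exact ⟨uq, h, LeafC.L1 i hi hD hp (h.closedL1 hn hnv hpq hi hD hp)⟩
  · exact ⟨uq, h, LeafC.c1a i j hi hj hp hD hE (h.closed1a hn hnv hpq hi hj hD hE)⟩
  · exact ⟨uq, h, LeafC.c1c i r hi hr hp hD hA hh hp1 hp2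
      (h.closed1c hn hnv hpq hi hr hD hA hh hp2)⟩
  · by_cases hc : q 1 + 1 ≤ q 0 ∨ B (uq 0) (uq 1) ≤ B (uq 1) (uq 0)
    · exact ⟨uq, h, h.leafC2 hn hnv hj hpq' hQ hD hc⟩
    · push Not at hc
      obtain ⟨hc1, hc2⟩ := hc
      have he : q 0 = q 1 := by
        rcases (h.fr.qa (i := 0) (j := 1) (by omega) (by omega)).lt_or_eq with h5 | h5
        · have := h.qint (i := 0) (j := 1) (by omega) (by omega) h5
          linarith
        · exact h5.symm
      have hq0 := h.top hnv hpq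
      have hθ0 := h.θ0
      have h2 : 2 ≤ nQ := h.idxQ (i := 1) (by omega) (by linarith)
      have h' := h.swap01 he h2
      refine ⟨_, h', h'.leafC2 hn hnv hj hpq' hQ hD (Or.inr ?_)⟩
      simp only [Function.comp_apply, Equiv.swap_apply_left, Equiv.swap_apply_right]
      exact hc2.le
  · exact ⟨uq, h, LeafC.c3b j l hj hl hlam hz hQ hP hA hE h1 h2 h3
      (h.closed3b hn hnv hpq hj hl hz hA hE h1 h3)⟩
  · exact ⟨uq, h, LeafC.c3c i l hi hl hlam hz hp0 hQ hP hA hE h1 h2 h3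
      (h.closed3c hn hnv hpq hi hl hlam hz hA hE h1 h3)⟩

end
end Pool.Agent.Exact


end

section

/-!
# Arrangements of all hubs, with an odd number of hubs of the first type
-/

set_option autoImplicit false
set_option linter.unusedSectionVars false
set_option linter.unusedSimpArgs false
set_option linter.unnecessarySeqFocus false
set_option linter.unreachableTactic false
set_option linter.unusedTactic false

namespace Pool.Agent.Exact

open Finset

variable {V : Type*} [Fintype V] [DecidableEq V]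
variable {B : V → V → ℤ} {Rl : Finset V} {ℓ nQ nP : ℕ} {uq up : ℕ → V} {q p : ℕ → ℝ}

/-- sorted pairs, the lowest vertex of the odd type single -/
theorem Frame.tA (h : Frame B Rl ℓ nQ nP uq up q p) {K : ℝ} (i j : ℕ) (hi : i < ℓ) (hj : j ≤ ℓ)
    (h0 : q (2 * i) ≤ K) (hQ : ∀ l < i, q (2 * l) - q (2 * l + 1) ≤ K)
    (hP : ∀ l < j, p (2 * l) - p (2 * l + 1) ≤ K) :
    StI B uq up (hb (2 * i + 1) (2 * j)) 0 K (AA q i + q (2 * i) + AA p j) := by
  have h1 := h.Qe (K := K) 0 i (Nat.zero_le _) hi.le fun l _ h2 => hQ l h2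
  have h2 := h.Pe (K := K) 0 j (Nat.zero_le _) hj fun l _ h2 => hP l h2
  have h3 := h.Q1 (K := K) (2 * i) (by omega) h0
  have h4 := h.join (U := iq (2 * 0) (2 * i) ∪ iq (2 * i) (2 * i + 1)) h1 h3 rfl
    (by (intro x hx; revert hx; rcases x with x | x <;>
    simp only [Finset.mem_union, Finset.mem_insert, Finset.mem_singleton, inl_mem_full,
      inr_mem_full, inl_mem_iq, inr_mem_iq, inl_mem_ip, inr_mem_ip, Sum.inl.injEq, Sum.inr.injEq,
      reduceCtorEq, Finset.notMem_empty, or_false, false_or, false_imp_iff, imp_false,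
      implies_true, not_false_eq_true, iff_false, false_iff] <;> omega)) (by (rw [Finset.disjoint_left]; intro x hx hx'; revert hx hx'; rcases x with x | x <;>
    simp only [Finset.mem_union, Finset.mem_insert, Finset.mem_singleton, inl_mem_full,
      inr_mem_full, inl_mem_iq, inr_mem_iq, inl_mem_ip, inr_mem_ip, Sum.inl.injEq, Sum.inr.injEq,
      reduceCtorEq, Finset.notMem_empty, or_false, false_or, false_imp_iff, imp_false,
      implies_true, not_false_eq_true, iff_false, false_iff] <;> omega))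
  have h5 := h.join (U := hb (2 * i + 1) (2 * j)) h4 h2 (by unfold hb; (ext x; rcases x with x | x <;>
    simp only [Finset.mem_union, Finset.mem_insert, Finset.mem_singleton, inl_mem_full,
      inr_mem_full, inl_mem_iq, inr_mem_iq, inl_mem_ip, inr_mem_ip, Sum.inl.injEq, Sum.inr.injEq,
      reduceCtorEq, Finset.notMem_empty, or_false, false_or, false_imp_iff, imp_false,
      implies_true, not_false_eq_true, iff_false, false_iff] <;> omega))
    (by unfold hb; (intro x hx; revert hx; rcases x with x | x <;>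
    simp only [Finset.mem_union, Finset.mem_insert, Finset.mem_singleton, inl_mem_full,
      inr_mem_full, inl_mem_iq, inr_mem_iq, inl_mem_ip, inr_mem_ip, Sum.inl.injEq, Sum.inr.injEq,
      reduceCtorEq, Finset.notMem_empty, or_false, false_or, false_imp_iff, imp_false,
      implies_true, not_false_eq_true, iff_false, false_iff] <;> omega)) (by (rw [Finset.disjoint_left]; intro x hx hx'; revert hx hx'; rcases x with x | x <;>
    simp only [Finset.mem_union, Finset.mem_insert, Finset.mem_singleton, inl_mem_full,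
      inr_mem_full, inl_mem_iq, inr_mem_iq, inl_mem_ip, inr_mem_ip, Sum.inl.injEq, Sum.inr.injEq,
      reduceCtorEq, Finset.notMem_empty, or_false, false_or, false_imp_iff, imp_false,
      implies_true, not_false_eq_true, iff_false, false_iff] <;> omega))
  rw [AA_zero, AA_zero] at h5
  exact h5.mono (by norm_num) le_rfl (by linarith)

/-- sorted pairs of the hubs except the lowest of the odd type -/
theorem Frame.tA' (h : Frame B Rl ℓ nQ nP uq up q p) {K : ℝ} (i j : ℕ) (hi : i < ℓ) (hj : j ≤ ℓ)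
    (hQ : ∀ l < i, q (2 * l) - q (2 * l + 1) ≤ K)
    (hP : ∀ l < j, p (2 * l) - p (2 * l + 1) ≤ K) :
    StI B uq up ((hb (2 * i + 1) (2 * j)).erase (Sum.inl (2 * i))) 0 K (AA q i + AA p j) := by
  have h1 := h.Qe (K := K) 0 i (Nat.zero_le _) hi.le fun l _ h2 => hQ l h2
  have h2 := h.Pe (K := K) 0 j (Nat.zero_le _) hj fun l _ h2 => hP l h2
  have e : (hb (2 * i + 1) (2 * j)).erase (Sum.inl (2 * i)) = iq (2 * 0) (2 * i) ∪
      ip (2 * 0) (2 * j) := by
    unfold hb
    ext x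
    rcases x with x | x <;>
      simp only [Finset.mem_erase, Finset.mem_union, inl_mem_iq, inl_mem_ip, inr_mem_iq,
        inr_mem_ip, ne_eq, Sum.inl.injEq, reduceCtorEq, not_false_eq_true, or_false, false_or,
        true_and] <;> omega
  have h5 := h.join h1 h2 e (by rw [e]; (intro x hx; revert hx; rcases x with x | x <;>
    simp only [Finset.mem_union, Finset.mem_insert, Finset.mem_singleton, inl_mem_full,
      inr_mem_full, inl_mem_iq, inr_mem_iq, inl_mem_ip, inr_mem_ip, Sum.inl.injEq, Sum.inr.injEq,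
      reduceCtorEq, Finset.notMem_empty, or_false, false_or, false_imp_iff, imp_false,
      implies_true, not_false_eq_true, iff_false, false_iff] <;> omega)) (by (rw [Finset.disjoint_left]; intro x hx hx'; revert hx hx'; rcases x with x | x <;>
    simp only [Finset.mem_union, Finset.mem_insert, Finset.mem_singleton, inl_mem_full,
      inr_mem_full, inl_mem_iq, inr_mem_iq, inl_mem_ip, inr_mem_ip, Sum.inl.injEq, Sum.inr.injEq,
      reduceCtorEq, Finset.notMem_empty, or_false, false_or, false_imp_iff, imp_false,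
      implies_true, not_false_eq_true, iff_false, false_iff] <;> omega))
  rw [AA_zero, AA_zero] at h5
  exact h5.mono (by norm_num) le_rfl (by linarith)

/-- the triple `q₀ +, q_{2i-1} -, q_{2i} -` -/
theorem Frame.tTO (h : Frame B Rl ℓ nQ nP uq up q p) {K M : ℝ} (i j : ℕ) (hi : i + 1 < ℓ)
    (hj : j ≤ ℓ) (h0 : |q 0 - q (2 * i + 1) - q (2 * i + 2)| ≤ K)
    (hM : ((MM B (uq (2 * i + 1)) (uq (2 * i + 2)) - MM B (uq 0) (uq (2 * i + 1)) -
      MM B (uq 0) (uq (2 * i + 2)) : ℤ) : ℝ) ≤ M)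
    (hQ : ∀ l < i, q (2 * l + 1) - q (2 * l + 2) ≤ K)
    (hP : ∀ l < j, p (2 * l) - p (2 * l + 1) ≤ K) :
    StI B uq up (hb (2 * (i + 1) + 1) (2 * j)) M K
      (|q 0 - q (2 * i + 1) - q (2 * i + 2)| + (q 0 - q (2 * i) - AA q i) + AA p j) := by
  have h1 := h.Qo (K := K) 0 i (Nat.zero_le _) (by omega) fun l _ h2 => hQ l h2
  have h2 := h.Pe (K := K) 0 j (Nat.zero_le _) hj fun l _ h2 => hP l h2
  have w1 := h.sys.wtQ 0 (by omega)
  have w2 := h.sys.wtQ (2 * i + 1) (by omega)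
  have w3 := h.sys.wtQ (2 * i + 2) (by omega)
  have h3 := h.tri (x := Sum.inl 0) (y := Sum.inl (2 * i + 1)) (z := Sum.inl (2 * i + 2))
    (by rw [inl_mem_full]; omega) (by rw [inl_mem_full]; omega) (by rw [inl_mem_full]; omega)
    (by simp) (by simp) (by simp) 1 (-1) (-1) (Or.inl rfl) (Or.inr rfl) (Or.inr rfl)
    (M := M) (K := |q 0 - q (2 * i + 1) - q (2 * i + 2)|) (by
      refine le_trans (le_of_eq ?_) hM
      simp only [vx, Sum.elim_inl]
      push_cast; ring) (by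
      simp only [vx, Sum.elim_inl]
      push_cast
      rw [w1, w2, w3]
      rw [show q 0 * 1 + q (2 * i + 1) * -1 + q (2 * i + 2) * -1 =
        q 0 - q (2 * i + 1) - q (2 * i + 2) by ring])
  have h3' : StI B uq up {Sum.inl 0, Sum.inl (2 * i + 1), Sum.inl (2 * i + 2)} M K
      |q 0 - q (2 * i + 1) - q (2 * i + 2)| := StI.mono h3 le_rfl h0 le_rfl
  have h4 := h.join (U := {Sum.inl 0, Sum.inl (2 * i + 1), Sum.inl (2 * i + 2)} ∪
    iq (2 * 0 + 1) (2 * i + 1)) h3' h1 rfl (by (intro x hx; revert hx; rcases x with x | x <;>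
    simp only [Finset.mem_union, Finset.mem_insert, Finset.mem_singleton, inl_mem_full,
      inr_mem_full, inl_mem_iq, inr_mem_iq, inl_mem_ip, inr_mem_ip, Sum.inl.injEq, Sum.inr.injEq,
      reduceCtorEq, Finset.notMem_empty, or_false, false_or, false_imp_iff, imp_false,
      implies_true, not_false_eq_true, iff_false, false_iff] <;> omega)) (by (rw [Finset.disjoint_left]; intro x hx hx'; revert hx hx'; rcases x with x | x <;>
    simp only [Finset.mem_union, Finset.mem_insert, Finset.mem_singleton, inl_mem_full,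
      inr_mem_full, inl_mem_iq, inr_mem_iq, inl_mem_ip, inr_mem_ip, Sum.inl.injEq, Sum.inr.injEq,
      reduceCtorEq, Finset.notMem_empty, or_false, false_or, false_imp_iff, imp_false,
      implies_true, not_false_eq_true, iff_false, false_iff] <;> omega))
  have h5 := h.join (U := hb (2 * (i + 1) + 1) (2 * j)) h4 h2 (by unfold hb; (ext x; rcases x with x | x <;>
    simp only [Finset.mem_union, Finset.mem_insert, Finset.mem_singleton, inl_mem_full,
      inr_mem_full, inl_mem_iq, inr_mem_iq, inl_mem_ip, inr_mem_ip, Sum.inl.injEq, Sum.inr.injEq,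
      reduceCtorEq, Finset.notMem_empty, or_false, false_or, false_imp_iff, imp_false,
      implies_true, not_false_eq_true, iff_false, false_iff] <;> omega))
    (by unfold hb; (intro x hx; revert hx; rcases x with x | x <;>
    simp only [Finset.mem_union, Finset.mem_insert, Finset.mem_singleton, inl_mem_full,
      inr_mem_full, inl_mem_iq, inr_mem_iq, inl_mem_ip, inr_mem_ip, Sum.inl.injEq, Sum.inr.injEq,
      reduceCtorEq, Finset.notMem_empty, or_false, false_or, false_imp_iff, imp_false,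
      implies_true, not_false_eq_true, iff_false, false_iff] <;> omega)) (by (rw [Finset.disjoint_left]; intro x hx hx'; revert hx hx'; rcases x with x | x <;>
    simp only [Finset.mem_union, Finset.mem_insert, Finset.mem_singleton, inl_mem_full,
      inr_mem_full, inl_mem_iq, inr_mem_iq, inl_mem_ip, inr_mem_ip, Sum.inl.injEq, Sum.inr.injEq,
      reduceCtorEq, Finset.notMem_empty, or_false, false_or, false_imp_iff, imp_false,
      implies_true, not_false_eq_true, iff_false, false_iff] <;> omega))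
  rw [AA_zero, AA_zero] at h5
  refine h5.mono (by linarith) le_rfl ?_
  rw [Nat.mul_zero]
  linarith

/-- the triple `p₀ +, p_{2j-1} -, q_{2i} +` -/
theorem Frame.tTE (h : Frame B Rl ℓ nQ nP uq up q p) {K M : ℝ} (i j : ℕ) (hi : i < ℓ)
    (hj : j < ℓ) (h0 : |p 0 - p (2 * j + 1) - q (2 * i)| ≤ K)
    (hM : ((MM B (up 0) (uq (2 * i)) - MM B (up 0) (up (2 * j + 1)) -
      MM B (up (2 * j + 1)) (uq (2 * i)) : ℤ) : ℝ) ≤ M)
    (hQ : ∀ l < i, q (2 * l) - q (2 * l + 1) ≤ K)
    (hP : ∀ l < j, p (2 * l + 1) - p (2 * l + 2) ≤ K) :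
    StI B uq up (hb (2 * i + 1) (2 * (j + 1))) M K
      (|p 0 - p (2 * j + 1) - q (2 * i)| + AA q i + (p 0 - p (2 * j) - AA p j)) := by
  have h1 := h.Qe (K := K) 0 i (Nat.zero_le _) hi.le fun l _ h2 => hQ l h2
  have h2 := h.Po (K := K) 0 j (Nat.zero_le _) hj fun l _ h2 => hP l h2
  have w1 := h.sys.wtP 0 (by omega)
  have w2 := h.sys.wtP (2 * j + 1) (by omega)
  have w3 := h.sys.wtQ (2 * i) (by omega)
  have h3 := h.tri (x := Sum.inr 0) (y := Sum.inr (2 * j + 1)) (z := Sum.inl (2 * i))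
    (by rw [inr_mem_full]; omega) (by rw [inr_mem_full]; omega) (by rw [inl_mem_full]; omega)
    (by simp) (by simp) (by simp) 1 (-1) 1 (Or.inl rfl) (Or.inr rfl) (Or.inl rfl)
    (M := M) (K := |p 0 - p (2 * j + 1) - q (2 * i)|) (by
      refine le_trans (le_of_eq ?_) hM
      simp only [vx, Sum.elim_inl, Sum.elim_inr]
      push_cast; ring) (by
      simp only [vx, Sum.elim_inl, Sum.elim_inr]
      push_cast
      rw [w1, w2, w3]
      rw [show -p 0 * 1 + -p (2 * j + 1) * -1 + q (2 * i) * 1 =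
        -(p 0 - p (2 * j + 1) - q (2 * i)) by ring, abs_neg])
  have h3' : StI B uq up {Sum.inr 0, Sum.inr (2 * j + 1), Sum.inl (2 * i)} M K
      |p 0 - p (2 * j + 1) - q (2 * i)| := StI.mono h3 le_rfl h0 le_rfl
  have h4 := h.join (U := {Sum.inr 0, Sum.inr (2 * j + 1), Sum.inl (2 * i)} ∪
    iq (2 * 0) (2 * i)) h3' h1 rfl (by (intro x hx; revert hx; rcases x with x | x <;>
    simp only [Finset.mem_union, Finset.mem_insert, Finset.mem_singleton, inl_mem_full,
      inr_mem_full, inl_mem_iq, inr_mem_iq, inl_mem_ip, inr_mem_ip, Sum.inl.injEq, Sum.inr.injEq,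
      reduceCtorEq, Finset.notMem_empty, or_false, false_or, false_imp_iff, imp_false,
      implies_true, not_false_eq_true, iff_false, false_iff] <;> omega)) (by (rw [Finset.disjoint_left]; intro x hx hx'; revert hx hx'; rcases x with x | x <;>
    simp only [Finset.mem_union, Finset.mem_insert, Finset.mem_singleton, inl_mem_full,
      inr_mem_full, inl_mem_iq, inr_mem_iq, inl_mem_ip, inr_mem_ip, Sum.inl.injEq, Sum.inr.injEq,
      reduceCtorEq, Finset.notMem_empty, or_false, false_or, false_imp_iff, imp_false,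
      implies_true, not_false_eq_true, iff_false, false_iff] <;> omega))
  have h5 := h.join (U := hb (2 * i + 1) (2 * (j + 1))) h4 h2 (by unfold hb; (ext x; rcases x with x | x <;>
    simp only [Finset.mem_union, Finset.mem_insert, Finset.mem_singleton, inl_mem_full,
      inr_mem_full, inl_mem_iq, inr_mem_iq, inl_mem_ip, inr_mem_ip, Sum.inl.injEq, Sum.inr.injEq,
      reduceCtorEq, Finset.notMem_empty, or_false, false_or, false_imp_iff, imp_false,
      implies_true, not_false_eq_true, iff_false, false_iff] <;> omega))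
    (by unfold hb; (intro x hx; revert hx; rcases x with x | x <;>
    simp only [Finset.mem_union, Finset.mem_insert, Finset.mem_singleton, inl_mem_full,
      inr_mem_full, inl_mem_iq, inr_mem_iq, inl_mem_ip, inr_mem_ip, Sum.inl.injEq, Sum.inr.injEq,
      reduceCtorEq, Finset.notMem_empty, or_false, false_or, false_imp_iff, imp_false,
      implies_true, not_false_eq_true, iff_false, false_iff] <;> omega)) (by (rw [Finset.disjoint_left]; intro x hx hx'; revert hx hx'; rcases x with x | x <;>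
    simp only [Finset.mem_union, Finset.mem_insert, Finset.mem_singleton, inl_mem_full,
      inr_mem_full, inl_mem_iq, inr_mem_iq, inl_mem_ip, inr_mem_ip, Sum.inl.injEq, Sum.inr.injEq,
      reduceCtorEq, Finset.notMem_empty, or_false, false_or, false_imp_iff, imp_false,
      implies_true, not_false_eq_true, iff_false, false_iff] <;> omega))
  rw [AA_zero, AA_zero] at h5
  refine h5.mono (by linarith) le_rfl ?_
  rw [Nat.mul_zero]
  linarith

/-- `(q_{2i}, p₀)` aligned, `p_{2j-1}` single -/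
theorem Frame.tS4 (h : Frame B Rl ℓ nQ nP uq up q p) {K : ℝ} (i j : ℕ) (hi : i < ℓ)
    (hj : j < ℓ) (h0 : |q (2 * i) - p 0| ≤ K) (h1 : p (2 * j + 1) ≤ K)
    (hQ : ∀ l < i, q (2 * l) - q (2 * l + 1) ≤ K)
    (hP : ∀ l < j, p (2 * l + 1) - p (2 * l + 2) ≤ K) :
    StI B uq up (hb (2 * i + 1) (2 * (j + 1))) (MM B (uq (2 * i)) (up 0)) K
      (|q (2 * i) - p 0| + AA q i + (p 0 - p (2 * j) - AA p j) + p (2 * j + 1)) := by
  have a1 := h.Qe (K := K) 0 i (Nat.zero_le _) hi.le fun l _ h2 => hQ l h2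
  have a2 := h.Po (K := K) 0 j (Nat.zero_le _) hj fun l _ h2 => hP l h2
  have a3 := h.QP (K := K) (2 * i) 0 (by omega) (by omega) h0
  have a4 := h.P1 (K := K) (2 * j + 1) (by omega) h1
  have b1 := h.join (U := {Sum.inl (2 * i), Sum.inr 0} ∪ iq (2 * 0) (2 * i)) a3 a1 rfl
    (by (intro x hx; revert hx; rcases x with x | x <;>
    simp only [Finset.mem_union, Finset.mem_insert, Finset.mem_singleton, inl_mem_full,
      inr_mem_full, inl_mem_iq, inr_mem_iq, inl_mem_ip, inr_mem_ip, Sum.inl.injEq, Sum.inr.injEq,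
      reduceCtorEq, Finset.notMem_empty, or_false, false_or, false_imp_iff, imp_false,
      implies_true, not_false_eq_true, iff_false, false_iff] <;> omega)) (by (rw [Finset.disjoint_left]; intro x hx hx'; revert hx hx'; rcases x with x | x <;>
    simp only [Finset.mem_union, Finset.mem_insert, Finset.mem_singleton, inl_mem_full,
      inr_mem_full, inl_mem_iq, inr_mem_iq, inl_mem_ip, inr_mem_ip, Sum.inl.injEq, Sum.inr.injEq,
      reduceCtorEq, Finset.notMem_empty, or_false, false_or, false_imp_iff, imp_false,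
      implies_true, not_false_eq_true, iff_false, false_iff] <;> omega))
  have b2 := h.join (U := ip (2 * 0 + 1) (2 * j + 1) ∪ ip (2 * j + 1) (2 * j + 1 + 1)) a2 a4 rfl
    (by (intro x hx; revert hx; rcases x with x | x <;>
    simp only [Finset.mem_union, Finset.mem_insert, Finset.mem_singleton, inl_mem_full,
      inr_mem_full, inl_mem_iq, inr_mem_iq, inl_mem_ip, inr_mem_ip, Sum.inl.injEq, Sum.inr.injEq,
      reduceCtorEq, Finset.notMem_empty, or_false, false_or, false_imp_iff, imp_false,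
      implies_true, not_false_eq_true, iff_false, false_iff] <;> omega)) (by (rw [Finset.disjoint_left]; intro x hx hx'; revert hx hx'; rcases x with x | x <;>
    simp only [Finset.mem_union, Finset.mem_insert, Finset.mem_singleton, inl_mem_full,
      inr_mem_full, inl_mem_iq, inr_mem_iq, inl_mem_ip, inr_mem_ip, Sum.inl.injEq, Sum.inr.injEq,
      reduceCtorEq, Finset.notMem_empty, or_false, false_or, false_imp_iff, imp_false,
      implies_true, not_false_eq_true, iff_false, false_iff] <;> omega))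
  have b3 := h.join (U := hb (2 * i + 1) (2 * (j + 1))) b1 b2 (by unfold hb; (ext x; rcases x with x | x <;>
    simp only [Finset.mem_union, Finset.mem_insert, Finset.mem_singleton, inl_mem_full,
      inr_mem_full, inl_mem_iq, inr_mem_iq, inl_mem_ip, inr_mem_ip, Sum.inl.injEq, Sum.inr.injEq,
      reduceCtorEq, Finset.notMem_empty, or_false, false_or, false_imp_iff, imp_false,
      implies_true, not_false_eq_true, iff_false, false_iff] <;> omega))
    (by unfold hb; (intro x hx; revert hx; rcases x with x | x <;>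
    simp only [Finset.mem_union, Finset.mem_insert, Finset.mem_singleton, inl_mem_full,
      inr_mem_full, inl_mem_iq, inr_mem_iq, inl_mem_ip, inr_mem_ip, Sum.inl.injEq, Sum.inr.injEq,
      reduceCtorEq, Finset.notMem_empty, or_false, false_or, false_imp_iff, imp_false,
      implies_true, not_false_eq_true, iff_false, false_iff] <;> omega)) (by (rw [Finset.disjoint_left]; intro x hx hx'; revert hx hx'; rcases x with x | x <;>
    simp only [Finset.mem_union, Finset.mem_insert, Finset.mem_singleton, inl_mem_full,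
      inr_mem_full, inl_mem_iq, inr_mem_iq, inl_mem_ip, inr_mem_ip, Sum.inl.injEq, Sum.inr.injEq,
      reduceCtorEq, Finset.notMem_empty, or_false, false_or, false_imp_iff, imp_false,
      implies_true, not_false_eq_true, iff_false, false_iff] <;> omega))
  rw [AA_zero, AA_zero] at b3
  refine b3.mono (by linarith) le_rfl ?_
  rw [Nat.mul_zero]
  linarith

/-- the same without the single vertex -/
theorem Frame.tS4' (h : Frame B Rl ℓ nQ nP uq up q p) {K : ℝ} (i j : ℕ) (hi : i < ℓ)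
    (hj : j < ℓ) (h0 : |q (2 * i) - p 0| ≤ K)
    (hQ : ∀ l < i, q (2 * l) - q (2 * l + 1) ≤ K)
    (hP : ∀ l < j, p (2 * l + 1) - p (2 * l + 2) ≤ K) :
    StI B uq up ((hb (2 * i + 1) (2 * (j + 1))).erase (Sum.inr (2 * j + 1)))
      (MM B (uq (2 * i)) (up 0)) K
      (|q (2 * i) - p 0| + AA q i + (p 0 - p (2 * j) - AA p j)) := by
  have a1 := h.Qe (K := K) 0 i (Nat.zero_le _) hi.le fun l _ h2 => hQ l h2
  have a2 := h.Po (K := K) 0 j (Nat.zero_le _) hj fun l _ h2 => hP l h2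
  have a3 := h.QP (K := K) (2 * i) 0 (by omega) (by omega) h0
  have b1 := h.join (U := {Sum.inl (2 * i), Sum.inr 0} ∪ iq (2 * 0) (2 * i)) a3 a1 rfl
    (by (intro x hx; revert hx; rcases x with x | x <;>
    simp only [Finset.mem_union, Finset.mem_insert, Finset.mem_singleton, inl_mem_full,
      inr_mem_full, inl_mem_iq, inr_mem_iq, inl_mem_ip, inr_mem_ip, Sum.inl.injEq, Sum.inr.injEq,
      reduceCtorEq, Finset.notMem_empty, or_false, false_or, false_imp_iff, imp_false,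
      implies_true, not_false_eq_true, iff_false, false_iff] <;> omega)) (by (rw [Finset.disjoint_left]; intro x hx hx'; revert hx hx'; rcases x with x | x <;>
    simp only [Finset.mem_union, Finset.mem_insert, Finset.mem_singleton, inl_mem_full,
      inr_mem_full, inl_mem_iq, inr_mem_iq, inl_mem_ip, inr_mem_ip, Sum.inl.injEq, Sum.inr.injEq,
      reduceCtorEq, Finset.notMem_empty, or_false, false_or, false_imp_iff, imp_false,
      implies_true, not_false_eq_true, iff_false, false_iff] <;> omega))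
  have e : (hb (2 * i + 1) (2 * (j + 1))).erase (Sum.inr (2 * j + 1)) =
      ({Sum.inl (2 * i), Sum.inr 0} ∪ iq (2 * 0) (2 * i)) ∪ ip (2 * 0 + 1) (2 * j + 1) := by
    unfold hb
    ext x
    rcases x with x | x <;>
      simp only [Finset.mem_erase, Finset.mem_union, Finset.mem_insert, Finset.mem_singleton,
        inl_mem_iq, inl_mem_ip, inr_mem_iq,
        inr_mem_ip, ne_eq, Sum.inl.injEq, Sum.inr.injEq, reduceCtorEq, not_false_eq_true, or_false,
        false_or, true_and] <;> omega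
  have b3 := h.join b1 a2 e (by rw [e]; (intro x hx; revert hx; rcases x with x | x <;>
    simp only [Finset.mem_union, Finset.mem_insert, Finset.mem_singleton, inl_mem_full,
      inr_mem_full, inl_mem_iq, inr_mem_iq, inl_mem_ip, inr_mem_ip, Sum.inl.injEq, Sum.inr.injEq,
      reduceCtorEq, Finset.notMem_empty, or_false, false_or, false_imp_iff, imp_false,
      implies_true, not_false_eq_true, iff_false, false_iff] <;> omega)) (by (rw [Finset.disjoint_left]; intro x hx hx'; revert hx hx'; rcases x with x | x <;>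
    simp only [Finset.mem_union, Finset.mem_insert, Finset.mem_singleton, inl_mem_full,
      inr_mem_full, inl_mem_iq, inr_mem_iq, inl_mem_ip, inr_mem_ip, Sum.inl.injEq, Sum.inr.injEq,
      reduceCtorEq, Finset.notMem_empty, or_false, false_or, false_imp_iff, imp_false,
      implies_true, not_false_eq_true, iff_false, false_iff] <;> omega))
  rw [AA_zero, AA_zero] at b3
  refine b3.mono (by linarith) le_rfl ?_
  rw [Nat.mul_zero]
  linarith

/-- the triple `q₀ +, p_{2j-2} +, p_{2j-1} +` -/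
theorem Frame.tG3 (h : Frame B Rl ℓ nQ nP uq up q p) {K M : ℝ} (i j : ℕ) (hi : i < ℓ)
    (hj : j < ℓ) (h0 : |q 0 - p (2 * j) - p (2 * j + 1)| ≤ K)
    (hM : ((MM B (uq 0) (up (2 * j)) + MM B (uq 0) (up (2 * j + 1)) +
      MM B (up (2 * j)) (up (2 * j + 1)) : ℤ) : ℝ) ≤ M)
    (hQ : ∀ l < i, q (2 * l + 1) - q (2 * l + 2) ≤ K)
    (hP : ∀ l < j, p (2 * l) - p (2 * l + 1) ≤ K) :
    StI B uq up (hb (2 * i + 1) (2 * (j + 1))) M K
      (|q 0 - p (2 * j) - p (2 * j + 1)| + (q 0 - q (2 * i) - AA q i) + AA p j) := by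
  have h1 := h.Qo (K := K) 0 i (Nat.zero_le _) hi fun l _ h2 => hQ l h2
  have h2 := h.Pe (K := K) 0 j (Nat.zero_le _) hj.le fun l _ h2 => hP l h2
  have w1 := h.sys.wtQ 0 (by omega)
  have w2 := h.sys.wtP (2 * j) (by omega)
  have w3 := h.sys.wtP (2 * j + 1) (by omega)
  have h3 := h.tri (x := Sum.inl 0) (y := Sum.inr (2 * j)) (z := Sum.inr (2 * j + 1))
    (by rw [inl_mem_full]; omega) (by rw [inr_mem_full]; omega) (by rw [inr_mem_full]; omega)
    (by simp) (by simp) (by simp) 1 1 1 (Or.inl rfl) (Or.inl rfl) (Or.inl rfl)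
    (M := M) (K := |q 0 - p (2 * j) - p (2 * j + 1)|) (by
      refine le_trans (le_of_eq ?_) hM
      simp only [vx, Sum.elim_inl, Sum.elim_inr]
      push_cast; ring) (by
      simp only [vx, Sum.elim_inl, Sum.elim_inr]
      push_cast
      rw [w1, w2, w3]
      rw [show q 0 * 1 + -p (2 * j) * 1 + -p (2 * j + 1) * 1 =
        q 0 - p (2 * j) - p (2 * j + 1) by ring])
  have h3' : StI B uq up {Sum.inl 0, Sum.inr (2 * j), Sum.inr (2 * j + 1)} M K
      |q 0 - p (2 * j) - p (2 * j + 1)| := StI.mono h3 le_rfl h0 le_rfl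
  have h4 := h.join (U := {Sum.inl 0, Sum.inr (2 * j), Sum.inr (2 * j + 1)} ∪
    iq (2 * 0 + 1) (2 * i + 1)) h3' h1 rfl (by (intro x hx; revert hx; rcases x with x | x <;>
    simp only [Finset.mem_union, Finset.mem_insert, Finset.mem_singleton, inl_mem_full,
      inr_mem_full, inl_mem_iq, inr_mem_iq, inl_mem_ip, inr_mem_ip, Sum.inl.injEq, Sum.inr.injEq,
      reduceCtorEq, Finset.notMem_empty, or_false, false_or, false_imp_iff, imp_false,
      implies_true, not_false_eq_true, iff_false, false_iff] <;> omega)) (by (rw [Finset.disjoint_left]; intro x hx hx'; revert hx hx'; rcases x with x | x <;>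
    simp only [Finset.mem_union, Finset.mem_insert, Finset.mem_singleton, inl_mem_full,
      inr_mem_full, inl_mem_iq, inr_mem_iq, inl_mem_ip, inr_mem_ip, Sum.inl.injEq, Sum.inr.injEq,
      reduceCtorEq, Finset.notMem_empty, or_false, false_or, false_imp_iff, imp_false,
      implies_true, not_false_eq_true, iff_false, false_iff] <;> omega))
  have h5 := h.join (U := hb (2 * i + 1) (2 * (j + 1))) h4 h2 (by unfold hb; (ext x; rcases x with x | x <;>
    simp only [Finset.mem_union, Finset.mem_insert, Finset.mem_singleton, inl_mem_full,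
      inr_mem_full, inl_mem_iq, inr_mem_iq, inl_mem_ip, inr_mem_ip, Sum.inl.injEq, Sum.inr.injEq,
      reduceCtorEq, Finset.notMem_empty, or_false, false_or, false_imp_iff, imp_false,
      implies_true, not_false_eq_true, iff_false, false_iff] <;> omega))
    (by unfold hb; (intro x hx; revert hx; rcases x with x | x <;>
    simp only [Finset.mem_union, Finset.mem_insert, Finset.mem_singleton, inl_mem_full,
      inr_mem_full, inl_mem_iq, inr_mem_iq, inl_mem_ip, inr_mem_ip, Sum.inl.injEq, Sum.inr.injEq,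
      reduceCtorEq, Finset.notMem_empty, or_false, false_or, false_imp_iff, imp_false,
      implies_true, not_false_eq_true, iff_false, false_iff] <;> omega)) (by (rw [Finset.disjoint_left]; intro x hx hx'; revert hx hx'; rcases x with x | x <;>
    simp only [Finset.mem_union, Finset.mem_insert, Finset.mem_singleton, inl_mem_full,
      inr_mem_full, inl_mem_iq, inr_mem_iq, inl_mem_ip, inr_mem_ip, Sum.inl.injEq, Sum.inr.injEq,
      reduceCtorEq, Finset.notMem_empty, or_false, false_or, false_imp_iff, imp_false,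
      implies_true, not_false_eq_true, iff_false, false_iff] <;> omega))
  rw [AA_zero, AA_zero] at h5
  refine h5.mono (by linarith) le_rfl ?_
  rw [Nat.mul_zero]
  linarith

/-- `(q_{2i}, p_{2j-2})` aligned, `p_{2j-1}` single -/
theorem Frame.tS2 (h : Frame B Rl ℓ nQ nP uq up q p) {K : ℝ} (i j : ℕ) (hi : i < ℓ)
    (hj : j < ℓ) (h0 : |q (2 * i) - p (2 * j)| ≤ K) (h1 : p (2 * j + 1) ≤ K)
    (hQ : ∀ l < i, q (2 * l) - q (2 * l + 1) ≤ K)
    (hP : ∀ l < j, p (2 * l) - p (2 * l + 1) ≤ K) :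
    StI B uq up (hb (2 * i + 1) (2 * (j + 1))) (MM B (uq (2 * i)) (up (2 * j))) K
      (|q (2 * i) - p (2 * j)| + AA q i + AA p j + p (2 * j + 1)) := by
  have a1 := h.Qe (K := K) 0 i (Nat.zero_le _) hi.le fun l _ h2 => hQ l h2
  have a2 := h.Pe (K := K) 0 j (Nat.zero_le _) hj.le fun l _ h2 => hP l h2
  have a3 := h.QP (K := K) (2 * i) (2 * j) (by omega) (by omega) h0
  have a4 := h.P1 (K := K) (2 * j + 1) (by omega) h1
  have b1 := h.join (U := {Sum.inl (2 * i), Sum.inr (2 * j)} ∪ iq (2 * 0) (2 * i)) a3 a1 rfl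
    (by (intro x hx; revert hx; rcases x with x | x <;>
    simp only [Finset.mem_union, Finset.mem_insert, Finset.mem_singleton, inl_mem_full,
      inr_mem_full, inl_mem_iq, inr_mem_iq, inl_mem_ip, inr_mem_ip, Sum.inl.injEq, Sum.inr.injEq,
      reduceCtorEq, Finset.notMem_empty, or_false, false_or, false_imp_iff, imp_false,
      implies_true, not_false_eq_true, iff_false, false_iff] <;> omega)) (by (rw [Finset.disjoint_left]; intro x hx hx'; revert hx hx'; rcases x with x | x <;>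
    simp only [Finset.mem_union, Finset.mem_insert, Finset.mem_singleton, inl_mem_full,
      inr_mem_full, inl_mem_iq, inr_mem_iq, inl_mem_ip, inr_mem_ip, Sum.inl.injEq, Sum.inr.injEq,
      reduceCtorEq, Finset.notMem_empty, or_false, false_or, false_imp_iff, imp_false,
      implies_true, not_false_eq_true, iff_false, false_iff] <;> omega))
  have b2 := h.join (U := ip (2 * 0) (2 * j) ∪ ip (2 * j + 1) (2 * j + 1 + 1)) a2 a4 rfl
    (by (intro x hx; revert hx; rcases x with x | x <;>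
    simp only [Finset.mem_union, Finset.mem_insert, Finset.mem_singleton, inl_mem_full,
      inr_mem_full, inl_mem_iq, inr_mem_iq, inl_mem_ip, inr_mem_ip, Sum.inl.injEq, Sum.inr.injEq,
      reduceCtorEq, Finset.notMem_empty, or_false, false_or, false_imp_iff, imp_false,
      implies_true, not_false_eq_true, iff_false, false_iff] <;> omega)) (by (rw [Finset.disjoint_left]; intro x hx hx'; revert hx hx'; rcases x with x | x <;>
    simp only [Finset.mem_union, Finset.mem_insert, Finset.mem_singleton, inl_mem_full,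
      inr_mem_full, inl_mem_iq, inr_mem_iq, inl_mem_ip, inr_mem_ip, Sum.inl.injEq, Sum.inr.injEq,
      reduceCtorEq, Finset.notMem_empty, or_false, false_or, false_imp_iff, imp_false,
      implies_true, not_false_eq_true, iff_false, false_iff] <;> omega))
  have b3 := h.join (U := hb (2 * i + 1) (2 * (j + 1))) b1 b2 (by unfold hb; (ext x; rcases x with x | x <;>
    simp only [Finset.mem_union, Finset.mem_insert, Finset.mem_singleton, inl_mem_full,
      inr_mem_full, inl_mem_iq, inr_mem_iq, inl_mem_ip, inr_mem_ip, Sum.inl.injEq, Sum.inr.injEq,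
      reduceCtorEq, Finset.notMem_empty, or_false, false_or, false_imp_iff, imp_false,
      implies_true, not_false_eq_true, iff_false, false_iff] <;> omega))
    (by unfold hb; (intro x hx; revert hx; rcases x with x | x <;>
    simp only [Finset.mem_union, Finset.mem_insert, Finset.mem_singleton, inl_mem_full,
      inr_mem_full, inl_mem_iq, inr_mem_iq, inl_mem_ip, inr_mem_ip, Sum.inl.injEq, Sum.inr.injEq,
      reduceCtorEq, Finset.notMem_empty, or_false, false_or, false_imp_iff, imp_false,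
      implies_true, not_false_eq_true, iff_false, false_iff] <;> omega)) (by (rw [Finset.disjoint_left]; intro x hx hx'; revert hx hx'; rcases x with x | x <;>
    simp only [Finset.mem_union, Finset.mem_insert, Finset.mem_singleton, inl_mem_full,
      inr_mem_full, inl_mem_iq, inr_mem_iq, inl_mem_ip, inr_mem_ip, Sum.inl.injEq, Sum.inr.injEq,
      reduceCtorEq, Finset.notMem_empty, or_false, false_or, false_imp_iff, imp_false,
      implies_true, not_false_eq_true, iff_false, false_iff] <;> omega))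
  rw [AA_zero, AA_zero] at b3
  exact b3.mono (by linarith) le_rfl (by linarith)

/-- `(q₀, p₀)` aligned, `p_{2j-1}` single -/
theorem Frame.tB (h : Frame B Rl ℓ nQ nP uq up q p) {K : ℝ} (i j : ℕ) (hi : i < ℓ)
    (hj : j < ℓ) (h0 : |q 0 - p 0| ≤ K) (h1 : p (2 * j + 1) ≤ K)
    (hQ : ∀ l < i, q (2 * l + 1) - q (2 * l + 2) ≤ K)
    (hP : ∀ l < j, p (2 * l + 1) - p (2 * l + 2) ≤ K) :
    StI B uq up (hb (2 * i + 1) (2 * (j + 1))) (MM B (uq 0) (up 0)) K
      (|q 0 - p 0| + (q 0 - q (2 * i) - AA q i) + (p 0 - p (2 * j) - AA p j) +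
        p (2 * j + 1)) := by
  have hl := h.l2
  have a1 := h.Qo (K := K) 0 i (Nat.zero_le _) hi fun l _ h2 => hQ l h2
  have a2 := h.Po (K := K) 0 j (Nat.zero_le _) hj fun l _ h2 => hP l h2
  have a3 := h.QP (K := K) 0 0 (by omega) (by omega) h0
  have a4 := h.P1 (K := K) (2 * j + 1) (by omega) h1
  have b1 := h.join (U := {Sum.inl 0, Sum.inr 0} ∪ iq (2 * 0 + 1) (2 * i + 1)) a3 a1 rfl
    (by (intro x hx; revert hx; rcases x with x | x <;>
    simp only [Finset.mem_union, Finset.mem_insert, Finset.mem_singleton, inl_mem_full,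
      inr_mem_full, inl_mem_iq, inr_mem_iq, inl_mem_ip, inr_mem_ip, Sum.inl.injEq, Sum.inr.injEq,
      reduceCtorEq, Finset.notMem_empty, or_false, false_or, false_imp_iff, imp_false,
      implies_true, not_false_eq_true, iff_false, false_iff] <;> omega)) (by (rw [Finset.disjoint_left]; intro x hx hx'; revert hx hx'; rcases x with x | x <;>
    simp only [Finset.mem_union, Finset.mem_insert, Finset.mem_singleton, inl_mem_full,
      inr_mem_full, inl_mem_iq, inr_mem_iq, inl_mem_ip, inr_mem_ip, Sum.inl.injEq, Sum.inr.injEq,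
      reduceCtorEq, Finset.notMem_empty, or_false, false_or, false_imp_iff, imp_false,
      implies_true, not_false_eq_true, iff_false, false_iff] <;> omega))
  have b2 := h.join (U := ip (2 * 0 + 1) (2 * j + 1) ∪ ip (2 * j + 1) (2 * j + 1 + 1)) a2 a4 rfl
    (by (intro x hx; revert hx; rcases x with x | x <;>
    simp only [Finset.mem_union, Finset.mem_insert, Finset.mem_singleton, inl_mem_full,
      inr_mem_full, inl_mem_iq, inr_mem_iq, inl_mem_ip, inr_mem_ip, Sum.inl.injEq, Sum.inr.injEq,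
      reduceCtorEq, Finset.notMem_empty, or_false, false_or, false_imp_iff, imp_false,
      implies_true, not_false_eq_true, iff_false, false_iff] <;> omega)) (by (rw [Finset.disjoint_left]; intro x hx hx'; revert hx hx'; rcases x with x | x <;>
    simp only [Finset.mem_union, Finset.mem_insert, Finset.mem_singleton, inl_mem_full,
      inr_mem_full, inl_mem_iq, inr_mem_iq, inl_mem_ip, inr_mem_ip, Sum.inl.injEq, Sum.inr.injEq,
      reduceCtorEq, Finset.notMem_empty, or_false, false_or, false_imp_iff, imp_false,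
      implies_true, not_false_eq_true, iff_false, false_iff] <;> omega))
  have b3 := h.join (U := hb (2 * i + 1) (2 * (j + 1))) b1 b2 (by unfold hb; (ext x; rcases x with x | x <;>
    simp only [Finset.mem_union, Finset.mem_insert, Finset.mem_singleton, inl_mem_full,
      inr_mem_full, inl_mem_iq, inr_mem_iq, inl_mem_ip, inr_mem_ip, Sum.inl.injEq, Sum.inr.injEq,
      reduceCtorEq, Finset.notMem_empty, or_false, false_or, false_imp_iff, imp_false,
      implies_true, not_false_eq_true, iff_false, false_iff] <;> omega))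
    (by unfold hb; (intro x hx; revert hx; rcases x with x | x <;>
    simp only [Finset.mem_union, Finset.mem_insert, Finset.mem_singleton, inl_mem_full,
      inr_mem_full, inl_mem_iq, inr_mem_iq, inl_mem_ip, inr_mem_ip, Sum.inl.injEq, Sum.inr.injEq,
      reduceCtorEq, Finset.notMem_empty, or_false, false_or, false_imp_iff, imp_false,
      implies_true, not_false_eq_true, iff_false, false_iff] <;> omega)) (by (rw [Finset.disjoint_left]; intro x hx hx'; revert hx hx'; rcases x with x | x <;>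
    simp only [Finset.mem_union, Finset.mem_insert, Finset.mem_singleton, inl_mem_full,
      inr_mem_full, inl_mem_iq, inr_mem_iq, inl_mem_ip, inr_mem_ip, Sum.inl.injEq, Sum.inr.injEq,
      reduceCtorEq, Finset.notMem_empty, or_false, false_or, false_imp_iff, imp_false,
      implies_true, not_false_eq_true, iff_false, false_iff] <;> omega))
  rw [AA_zero, AA_zero] at b3
  refine b3.mono (by linarith) le_rfl ?_
  rw [Nat.mul_zero]
  linarith

/-- the final arrangement with two aligned pairs -/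
theorem Frame.aTwo (h : Frame B Rl ℓ nQ nP uq up q p) {K : ℝ} (i j : ℕ) (hi : i + 1 < ℓ)
    (hj : j < ℓ) (h0 : |q 1 - p 0| ≤ K) (h1 : |q (2 * (i + 1)) - p (2 * j + 1)| ≤ K)
    (hQ : ∀ l, 1 ≤ l → l < i + 1 → q (2 * l) - q (2 * l + 1) ≤ K)
    (hP : ∀ l < j, p (2 * l + 1) - p (2 * l + 2) ≤ K) :
    StI B uq up (hb1 (2 * (i + 1) + 1) (2 * (j + 1)))
      (MM B (uq 1) (up 0) + MM B (uq (2 * (i + 1))) (up (2 * j + 1))) K
      (|q 1 - p 0| + |q (2 * (i + 1)) - p (2 * j + 1)| + (AA q (i + 1) - AA q 1) +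
        (p 0 - p (2 * j) - AA p j)) := by
  have a1 := h.Qe (K := K) 1 (i + 1) (by omega) hi.le hQ
  have a2 := h.Po (K := K) 0 j (Nat.zero_le _) hj fun l _ h2 => hP l h2
  have a3 := h.QP (K := K) 1 0 (by omega) (by omega) h0
  have a4 := h.QP (K := K) (2 * (i + 1)) (2 * j + 1) (by omega) (by omega) h1
  have b1 := h.join (U := {Sum.inl 1, Sum.inr 0} ∪ iq (2 * 1) (2 * (i + 1))) a3 a1 rfl
    (by (intro x hx; revert hx; rcases x with x | x <;>
    simp only [Finset.mem_union, Finset.mem_insert, Finset.mem_singleton, inl_mem_full,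
      inr_mem_full, inl_mem_iq, inr_mem_iq, inl_mem_ip, inr_mem_ip, Sum.inl.injEq, Sum.inr.injEq,
      reduceCtorEq, Finset.notMem_empty, or_false, false_or, false_imp_iff, imp_false,
      implies_true, not_false_eq_true, iff_false, false_iff] <;> omega)) (by (rw [Finset.disjoint_left]; intro x hx hx'; revert hx hx'; rcases x with x | x <;>
    simp only [Finset.mem_union, Finset.mem_insert, Finset.mem_singleton, inl_mem_full,
      inr_mem_full, inl_mem_iq, inr_mem_iq, inl_mem_ip, inr_mem_ip, Sum.inl.injEq, Sum.inr.injEq,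
      reduceCtorEq, Finset.notMem_empty, or_false, false_or, false_imp_iff, imp_false,
      implies_true, not_false_eq_true, iff_false, false_iff] <;> omega))
  have b2 := h.join (U := {Sum.inl (2 * (i + 1)), Sum.inr (2 * j + 1)} ∪
    ip (2 * 0 + 1) (2 * j + 1)) a4 a2 rfl (by (intro x hx; revert hx; rcases x with x | x <;>
    simp only [Finset.mem_union, Finset.mem_insert, Finset.mem_singleton, inl_mem_full,
      inr_mem_full, inl_mem_iq, inr_mem_iq, inl_mem_ip, inr_mem_ip, Sum.inl.injEq, Sum.inr.injEq,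
      reduceCtorEq, Finset.notMem_empty, or_false, false_or, false_imp_iff, imp_false,
      implies_true, not_false_eq_true, iff_false, false_iff] <;> omega)) (by (rw [Finset.disjoint_left]; intro x hx hx'; revert hx hx'; rcases x with x | x <;>
    simp only [Finset.mem_union, Finset.mem_insert, Finset.mem_singleton, inl_mem_full,
      inr_mem_full, inl_mem_iq, inr_mem_iq, inl_mem_ip, inr_mem_ip, Sum.inl.injEq, Sum.inr.injEq,
      reduceCtorEq, Finset.notMem_empty, or_false, false_or, false_imp_iff, imp_false,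
      implies_true, not_false_eq_true, iff_false, false_iff] <;> omega))
  have b3 := h.join (U := hb1 (2 * (i + 1) + 1) (2 * (j + 1))) b1 b2 (by unfold hb1; (ext x; rcases x with x | x <;>
    simp only [Finset.mem_union, Finset.mem_insert, Finset.mem_singleton, inl_mem_full,
      inr_mem_full, inl_mem_iq, inr_mem_iq, inl_mem_ip, inr_mem_ip, Sum.inl.injEq, Sum.inr.injEq,
      reduceCtorEq, Finset.notMem_empty, or_false, false_or, false_imp_iff, imp_false,
      implies_true, not_false_eq_true, iff_false, false_iff] <;> omega))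
    (by unfold hb1; (intro x hx; revert hx; rcases x with x | x <;>
    simp only [Finset.mem_union, Finset.mem_insert, Finset.mem_singleton, inl_mem_full,
      inr_mem_full, inl_mem_iq, inr_mem_iq, inl_mem_ip, inr_mem_ip, Sum.inl.injEq, Sum.inr.injEq,
      reduceCtorEq, Finset.notMem_empty, or_false, false_or, false_imp_iff, imp_false,
      implies_true, not_false_eq_true, iff_false, false_iff] <;> omega)) (by (rw [Finset.disjoint_left]; intro x hx hx'; revert hx hx'; rcases x with x | x <;>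
    simp only [Finset.mem_union, Finset.mem_insert, Finset.mem_singleton, inl_mem_full,
      inr_mem_full, inl_mem_iq, inr_mem_iq, inl_mem_ip, inr_mem_ip, Sum.inl.injEq, Sum.inr.injEq,
      reduceCtorEq, Finset.notMem_empty, or_false, false_or, false_imp_iff, imp_false,
      implies_true, not_false_eq_true, iff_false, false_iff] <;> omega))
  rw [AA_zero] at b3
  refine b3.mono (by linarith) le_rfl ?_
  rw [Nat.mul_zero]
  linarith

/-- the mixed arrangement with the lowest vertices aligned -/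
theorem Frame.aMixLow (h : Frame B Rl ℓ nQ nP uq up q p) {K : ℝ} (i j : ℕ) (hi : i < ℓ)
    (hj : j < ℓ) (h0 : |q (2 * i + 1) - p (2 * j)| ≤ K)
    (hQ : ∀ l < i, q (2 * l + 1) - q (2 * l + 2) ≤ K)
    (hP : ∀ l < j, p (2 * l) - p (2 * l + 1) ≤ K) :
    StI B uq up (hb1 (2 * (i + 1)) (2 * j + 1)) (MM B (uq (2 * i + 1)) (up (2 * j))) K
      (|q (2 * i + 1) - p (2 * j)| + (q 0 - q (2 * i) - AA q i) + AA p j) := by
  have a1 := h.Qo (K := K) 0 i (Nat.zero_le _) hi fun l _ h2 => hQ l h2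
  have a2 := h.Pe (K := K) 0 j (Nat.zero_le _) hj.le fun l _ h2 => hP l h2
  have a3 := h.QP (K := K) (2 * i + 1) (2 * j) (by omega) (by omega) h0
  have b1 := h.join (U := {Sum.inl (2 * i + 1), Sum.inr (2 * j)} ∪ iq (2 * 0 + 1) (2 * i + 1))
    a3 a1 rfl (by (intro x hx; revert hx; rcases x with x | x <;>
    simp only [Finset.mem_union, Finset.mem_insert, Finset.mem_singleton, inl_mem_full,
      inr_mem_full, inl_mem_iq, inr_mem_iq, inl_mem_ip, inr_mem_ip, Sum.inl.injEq, Sum.inr.injEq,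
      reduceCtorEq, Finset.notMem_empty, or_false, false_or, false_imp_iff, imp_false,
      implies_true, not_false_eq_true, iff_false, false_iff] <;> omega)) (by (rw [Finset.disjoint_left]; intro x hx hx'; revert hx hx'; rcases x with x | x <;>
    simp only [Finset.mem_union, Finset.mem_insert, Finset.mem_singleton, inl_mem_full,
      inr_mem_full, inl_mem_iq, inr_mem_iq, inl_mem_ip, inr_mem_ip, Sum.inl.injEq, Sum.inr.injEq,
      reduceCtorEq, Finset.notMem_empty, or_false, false_or, false_imp_iff, imp_false,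
      implies_true, not_false_eq_true, iff_false, false_iff] <;> omega))
  have b3 := h.join (U := hb1 (2 * (i + 1)) (2 * j + 1)) b1 a2 (by unfold hb1; (ext x; rcases x with x | x <;>
    simp only [Finset.mem_union, Finset.mem_insert, Finset.mem_singleton, inl_mem_full,
      inr_mem_full, inl_mem_iq, inr_mem_iq, inl_mem_ip, inr_mem_ip, Sum.inl.injEq, Sum.inr.injEq,
      reduceCtorEq, Finset.notMem_empty, or_false, false_or, false_imp_iff, imp_false,
      implies_true, not_false_eq_true, iff_false, false_iff] <;> omega))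
    (by unfold hb1; (intro x hx; revert hx; rcases x with x | x <;>
    simp only [Finset.mem_union, Finset.mem_insert, Finset.mem_singleton, inl_mem_full,
      inr_mem_full, inl_mem_iq, inr_mem_iq, inl_mem_ip, inr_mem_ip, Sum.inl.injEq, Sum.inr.injEq,
      reduceCtorEq, Finset.notMem_empty, or_false, false_or, false_imp_iff, imp_false,
      implies_true, not_false_eq_true, iff_false, false_iff] <;> omega)) (by (rw [Finset.disjoint_left]; intro x hx hx'; revert hx hx'; rcases x with x | x <;>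
    simp only [Finset.mem_union, Finset.mem_insert, Finset.mem_singleton, inl_mem_full,
      inr_mem_full, inl_mem_iq, inr_mem_iq, inl_mem_ip, inr_mem_ip, Sum.inl.injEq, Sum.inr.injEq,
      reduceCtorEq, Finset.notMem_empty, or_false, false_or, false_imp_iff, imp_false,
      implies_true, not_false_eq_true, iff_false, false_iff] <;> omega))
  rw [AA_zero, AA_zero] at b3
  refine b3.mono (by linarith) le_rfl ?_
  rw [Nat.mul_zero]
  linarith

end Pool.Agent.Exact


end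

section

/-!
# Greedy arrangements, an odd number of hubs of the first type, an even number of the second
-/

set_option autoImplicit false
set_option linter.unusedSectionVars false

namespace Pool.Agent.Exact

open Finset

variable {V : Type*} [Fintype V] [DecidableEq V]
variable {B : V → V → ℤ} {Rl : Finset V} {ℓ nQ nP : ℕ} {uq up : ℕ → V} {q p : ℕ → ℝ}
variable {k : ℤ} {θ : ℝ}

/-- closing with all neutral vertices signed greedily -/
lemma T2I.close {a b : ℕ} {S : Finset V} {g Y : ℤ} (hT2 : T2I B uq up a b S g Y)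
    {M K t z : ℝ} (hst : StI B uq up (hb a b) M K t) (hK0 : 0 ≤ K) (hz0 : 0 ≤ z)
    (hS : ∀ v ∈ S, |((im B v : ℤ) : ℝ)| ≤ z) (hY : (Y : ℝ) ≤ z) (h1 : K + M ≤ θ + g)
    (h2 : z + M ≤ θ + g) (h3 : z + t + 2 * M ≤ 2 * θ + 2 * g) : Val B θ := by
  refine (hT2 z M K t hK0 hz0 hS hst).mono ?_
  have h5 : (0 : ℝ) ≤ ∑ v ∈ S, |((im B v : ℤ) : ℝ)| :=
    Finset.sum_nonneg fun v _ => abs_nonneg _
  have h6 : max ((Y : ℝ) - ∑ v ∈ S, |((im B v : ℤ) : ℝ)|) z = z :=
    max_eq_right (by linarith)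
  rw [h6, ← max_add_add_left, ← max_add_add_left]
  refine max_le (max_le ?_ ?_) ?_ <;> linarith

lemma Frame.qgap (h : Frame B Rl ℓ nQ nP uq up q p) {i : ℕ} (hi : i < ℓ) :
    0 ≤ AA q i ∧ AA q i ≤ q 0 - q (2 * i) ∧
    (∀ l < i, q (2 * l) - q (2 * l + 1) ≤ AA q i) ∧
    (∀ l < i, q (2 * l + 1) - q (2 * l + 2) ≤ q 0 - q (2 * i) - AA q i) := by
  have e2 := h.qE (Nat.zero_le i) hi
  have e7 := h.qAm (Nat.zero_le i) hi.le
  simp only [Nat.mul_zero, AA_zero, sub_zero] at e2 e7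
  refine ⟨e7, by linarith, ?_, ?_⟩
  · intro l hl
    have := h.qgA (Nat.zero_le l) hl hi.le
    simp only [AA_zero] at this
    linarith
  · intro l hl
    have := h.qgE (Nat.zero_le l) hl hi
    simp only [Nat.mul_zero, AA_zero, sub_zero] at this
    linarith

lemma Frame.pgap (h : Frame B Rl ℓ nQ nP uq up q p) {j : ℕ} (hj : j < ℓ) :
    0 ≤ AA p j ∧ AA p j ≤ p 0 - p (2 * j) ∧
    (∀ l < j, p (2 * l) - p (2 * l + 1) ≤ AA p j) ∧
    (∀ l < j, p (2 * l + 1) - p (2 * l + 2) ≤ p 0 - p (2 * j) - AA p j) := h.swap.qgap hj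

section
variable (h : Ctx B Rl ℓ nQ nP uq up q p k θ)
include h

lemma Ctx.MM2z (u v : V) : MM B u v ≤ 2 := by
  have := h.MM2 u v
  exact_mod_cast this

lemma Ctx.MM0z (u v : V) : 0 ≤ MM B u v := by
  have := h.MM0 u v
  exact_mod_cast this

/-- the arrangements `S4` or `TE`, with the lowest vertex of the second type -/
theorem Ctx.poS4 {i j : ℕ} (hi : i < ℓ) (hj : j < ℓ) {S : Finset V} {g Y : ℤ}
    (hT2 : T2I B uq up (2 * i + 1) (2 * (j + 1)) S g Y) {z : ℝ} (hz0 : 0 ≤ z)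
    (hS : ∀ v ∈ S, |((im B v : ℤ) : ℝ)| ≤ z) (hY : (Y : ℝ) ≤ z)
    (b1 : p (2 * j + 1) ≤ θ + g - 2) (c1 : q 0 - p (2 * j + 1) ≤ θ + g - 2)
    (gQ : q 0 - q (2 * i) ≤ θ + g - 2) (gP : p 0 - p (2 * j + 1) ≤ θ + g - 2)
    (gP' : p 0 - p (2 * j + 1) ≤ q (2 * i)) (hz : z + 2 ≤ θ + g)
    (ht : z + 4 + (q (2 * i) + AA q i - AA p (j + 1)) ≤ 2 * θ + 2 * g) : Val B θ := by
  have hl := h.fr.l2
  obtain ⟨q1, q2, q3, q4⟩ := h.fr.qgap hi
  obtain ⟨p1, p2, p3, p4⟩ := h.fr.pgap hj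
  have e1 := AA_succ p j
  have e2 := h.fr.pa (i := 2 * j) (j := 2 * j + 1) (by omega) (by omega)
  have e3 := h.fr.pa (i := 0) (j := 2 * j + 1) (by omega) (by omega)
  have e4 := h.fr.qa (i := 0) (j := 2 * i) (by omega) (by omega)
  have e5 := h.fr.pn (i := 2 * j + 1) (by omega)
  rcases le_or_gt (p 0) (q (2 * i)) with h1 | h1
  · have h2 : |q (2 * i) - p 0| = q (2 * i) - p 0 := abs_of_nonneg (by linarith)
    refine hT2.close (M := 2) (K := θ + g - 2) ((h.fr.tS4 (K := θ + g - 2) i j hi hj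
      (by rw [h2]; linarith) b1 (fun l hl' => by have := q3 l hl'; linarith)
      (fun l hl' => by have := p4 l hl'; linarith)).mono (h.MM2 _ _) le_rfl le_rfl)
      (by linarith) hz0 hS hY (by linarith) hz ?_
    rw [h2]
    linarith
  · have h2 : |p 0 - p (2 * j + 1) - q (2 * i)| = q (2 * i) - (p 0 - p (2 * j + 1)) := by
      rw [abs_of_nonpos (by linarith)]; ring
    have hM : ((MM B (up 0) (uq (2 * i)) - MM B (up 0) (up (2 * j + 1)) -
      MM B (up (2 * j + 1)) (uq (2 * i)) : ℤ) : ℝ) ≤ 2 := by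
      have h3 := h.MM2z (up 0) (uq (2 * i))
      have h4 := h.MM0z (up 0) (up (2 * j + 1))
      have h5 := h.MM0z (up (2 * j + 1)) (uq (2 * i))
      exact_mod_cast (by linarith : MM B (up 0) (uq (2 * i)) - MM B (up 0) (up (2 * j + 1)) -
        MM B (up (2 * j + 1)) (uq (2 * i)) ≤ 2)
    refine hT2.close (M := 2) (K := θ + g - 2) (h.fr.tTE (K := θ + g - 2) (M := 2) i j hi hj
      (by rw [h2]; linarith) hM (fun l hl' => by have := q3 l hl'; linarith)
      (fun l hl' => by have := p4 l hl'; linarith)) (by linarith) hz0 hS hY (by linarith) hz ?_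
    rw [h2]
    linarith

/-- the arrangements `S4` or `TE` and `G3` -/
theorem Ctx.poG {i j : ℕ} (hi : i < ℓ) (hj : j < ℓ) {S : Finset V} {g Y : ℤ}
    (hT2 : T2I B uq up (2 * i + 1) (2 * (j + 1)) S g Y) {z : ℝ} (hz0 : 0 ≤ z)
    (hS : ∀ v ∈ S, |((im B v : ℤ) : ℝ)| ≤ z) (hY : (Y : ℝ) ≤ z)
    (b1 : p (2 * j + 1) ≤ θ + g - 2) (c1 : q 0 - p (2 * j + 1) ≤ θ + g - 2)
    (gQ : q 0 - q (2 * i) ≤ θ + g - 6) (gP : p 0 - p (2 * j + 1) ≤ θ + g - 6)
    (gP' : p 0 - p (2 * j + 1) ≤ q (2 * i)) (hz : z + 6 ≤ θ + g)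
    (c2 : q 0 - p (2 * j) - p (2 * j + 1) ≤ θ + g - 6)
    (c3 : p (2 * j) + p (2 * j + 1) + 6 ≤ q 0 + θ + g)
    (c4 : q 0 - p (2 * j) + 8 + z ≤ 2 * θ + 2 * g)
    (c5 : p (2 * j + 1) + 8 + z ≤ 2 * θ + 2 * g) : Val B θ := by
  have hl := h.fr.l2
  by_contra hn
  obtain ⟨q1, q2, q3, q4⟩ := h.fr.qgap hi
  obtain ⟨p1, p2, p3, p4⟩ := h.fr.pgap hj
  have e1 := AA_succ p j
  have e2 := h.fr.pa (i := 2 * j) (j := 2 * j + 1) (by omega) (by omega)
  have e3 := h.fr.pa (i := 0) (j := 2 * j + 1) (by omega) (by omega)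
  have e4 := h.fr.qa (i := 0) (j := 2 * i) (by omega) (by omega)
  have F1 : 2 * θ + 2 * g < z + 4 + (q (2 * i) + AA q i - AA p (j + 1)) := by
    by_contra hc
    push Not at hc
    exact hn (h.poS4 hi hj hT2 hz0 hS hY b1 c1 (by linarith) (by linarith) gP' (by linarith) hc)
  have hM : ((MM B (uq 0) (up (2 * j)) + MM B (uq 0) (up (2 * j + 1)) +
      MM B (up (2 * j)) (up (2 * j + 1)) : ℤ) : ℝ) ≤ 6 := by
    have h3 := h.MM2z (uq 0) (up (2 * j))
    have h4 := h.MM2z (uq 0) (up (2 * j + 1))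
    have h5 := h.MM2z (up (2 * j)) (up (2 * j + 1))
    exact_mod_cast (by linarith : MM B (uq 0) (up (2 * j)) + MM B (uq 0) (up (2 * j + 1)) +
      MM B (up (2 * j)) (up (2 * j + 1)) ≤ 6)
  have hG := h.fr.tG3 (K := θ + g - 6) (M := 6) i j hi hj
    (abs_le.2 ⟨by linarith, by linarith⟩) hM (fun l hl' => by have := q4 l hl'; linarith)
    (fun l hl' => by have := p3 l hl'; linarith)
  refine hn (hT2.close hG (by linarith) hz0 hS hY (by linarith) hz ?_)
  rcases le_or_gt 0 (q 0 - p (2 * j) - p (2 * j + 1)) with h1 | h1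
  · rw [abs_of_nonneg h1]
    linarith
  · rw [abs_of_neg h1]
    linarith

/-- the arrangements `S2` and `B` -/
theorem Ctx.poB {i j : ℕ} (hi : i < ℓ) (hj : j < ℓ) {S : Finset V} {g Y : ℤ}
    (hT2 : T2I B uq up (2 * i + 1) (2 * (j + 1)) S g Y) {z : ℝ} (hz0 : 0 ≤ z)
    (hS : ∀ v ∈ S, |((im B v : ℤ) : ℝ)| ≤ z) (hY : (Y : ℝ) ≤ z) (hpq : p 0 ≤ q 0)
    (b1 : p (2 * j + 1) ≤ θ + g - 2) (c1 : q 0 - p (2 * j + 1) ≤ θ + g - 2)
    (gQ : q 0 - q (2 * i) ≤ θ + g - 2) (gP : p 0 - p (2 * j + 1) ≤ θ + g - 2)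
    (b2 : p (2 * j + 1) ≤ q (2 * i)) (hz : z + 2 ≤ θ + g)
    (c4 : q 0 + 4 + z ≤ 2 * θ + 2 * g) : Val B θ := by
  have hl := h.fr.l2
  by_contra hn
  obtain ⟨q1, q2, q3, q4⟩ := h.fr.qgap hi
  obtain ⟨p1, p2, p3, p4⟩ := h.fr.pgap hj
  have e1 := AA_succ p j
  have e2 := h.fr.pa (i := 2 * j) (j := 2 * j + 1) (by omega) (by omega)
  have e3 := h.fr.pa (i := 0) (j := 2 * j + 1) (by omega) (by omega)
  have e4 := h.fr.qa (i := 0) (j := 2 * i) (by omega) (by omega)
  have e6 := h.fr.pa (i := 0) (j := 2 * j) (by omega) (by omega)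
  have h2 : |q 0 - p 0| = q 0 - p 0 := abs_of_nonneg (by linarith)
  have F1 := h.fr.tB (K := θ + g - 2) i j hi hj (by rw [h2]; linarith) b1
    (fun l hl' => by have := q4 l hl'; linarith) (fun l hl' => by have := p4 l hl'; linarith)
  have F2 := h.fr.tS2 (K := θ + g - 2) i j hi hj
    (abs_le.2 ⟨by linarith, by linarith⟩) b1
    (fun l hl' => by have := q3 l hl'; linarith) (fun l hl' => by have := p3 l hl'; linarith)
  have G1 : 2 * θ + 2 * g < z + (|q 0 - p 0| + (q 0 - q (2 * i) - AA q i) +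
      (p 0 - p (2 * j) - AA p j) + p (2 * j + 1)) + 2 * 2 := by
    by_contra hc
    push Not at hc
    exact hn (hT2.close (F1.mono (h.MM2 _ _) le_rfl le_rfl) (by linarith) hz0 hS hY
      (by linarith) hz hc)
  have G2 : 2 * θ + 2 * g < z + (|q (2 * i) - p (2 * j)| + AA q i + AA p j +
      p (2 * j + 1)) + 2 * 2 := by
    by_contra hc
    push Not at hc
    exact hn (hT2.close (F2.mono (h.MM2 _ _) le_rfl le_rfl) (by linarith) hz0 hS hY
      (by linarith) hz hc)
  rw [h2] at G1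
  rcases le_or_gt 0 (q (2 * i) - p (2 * j)) with h1 | h1
  · rw [abs_of_nonneg h1] at G2
    linarith
  · rw [abs_of_neg h1] at G2
    linarith

/-- the arrangements `A`, `TE` and `TO` -/
theorem Ctx.poA {i j : ℕ} (hi : i < ℓ) (hj : j < ℓ) {S : Finset V} {g Y : ℤ}
    (hT2 : T2I B uq up (2 * i + 1) (2 * (j + 1)) S g Y) {z : ℝ} (hz0 : 0 ≤ z)
    (hS : ∀ v ∈ S, |((im B v : ℤ) : ℝ)| ≤ z) (hY : (Y : ℝ) ≤ z)
    (a1 : q (2 * i) ≤ θ + g) (gQ : q 0 - q (2 * i) ≤ θ + g) (gQ' : q 0 ≤ 2 * q (2 * i))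
    (gP : p 0 - p (2 * j + 1) ≤ θ + g - 2) (gP' : p 0 - p (2 * j + 1) ≤ q (2 * i))
    (hz : z + 4 ≤ θ + g) : Val B θ := by
  have hl := h.fr.l2
  by_contra hn
  obtain ⟨q1, q2, q3, q4⟩ := h.fr.qgap hi
  obtain ⟨p1, p2, p3, p4⟩ := h.fr.pgap hj
  have e1 := AA_succ p j
  have e2 := h.fr.pa (i := 2 * j) (j := 2 * j + 1) (by omega) (by omega)
  have e3 := h.fr.pa (i := 0) (j := 2 * j + 1) (by omega) (by omega)
  have e4 := h.fr.qa (i := 0) (j := 2 * i) (by omega) (by omega)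
  have e6 := h.fr.pa (i := 0) (j := 2 * j) (by omega) (by omega)
  have F1 := h.fr.tA (K := θ + g) i (j + 1) hi (by omega) a1
    (fun l hl' => by have := q3 l hl'; linarith) (fun l hl' => by
      rcases Nat.lt_succ_iff_lt_or_eq.1 hl' with h1 | h1
      · have := p3 l h1; linarith
      · subst h1; linarith)
  have G1 : 2 * θ + 2 * g < z + (AA q i + q (2 * i) + AA p (j + 1)) + 2 * 0 := by
    by_contra hc
    push Not at hc
    exact hn (hT2.close F1 (by linarith) hz0 hS hY (by linarith) (by linarith) hc)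
  rcases le_or_gt (AA q i) (AA p (j + 1)) with h1 | h1
  · -- `TE`
    have h2 : |p 0 - p (2 * j + 1) - q (2 * i)| = q (2 * i) - (p 0 - p (2 * j + 1)) := by
      rw [abs_of_nonpos (by linarith)]; ring
    have hM : ((MM B (up 0) (uq (2 * i)) - MM B (up 0) (up (2 * j + 1)) -
      MM B (up (2 * j + 1)) (uq (2 * i)) : ℤ) : ℝ) ≤ 2 := by
      have h3 := h.MM2z (up 0) (uq (2 * i))
      have h4 := h.MM0z (up 0) (up (2 * j + 1))
      have h5 := h.MM0z (up (2 * j + 1)) (uq (2 * i))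
      exact_mod_cast (by linarith : MM B (up 0) (uq (2 * i)) - MM B (up 0) (up (2 * j + 1)) -
        MM B (up (2 * j + 1)) (uq (2 * i)) ≤ 2)
    have F2 := h.fr.tTE (K := θ + g - 2) (M := 2) i j hi hj
      (by rw [h2]; linarith) hM (fun l hl' => by have := q3 l hl'; linarith)
      (fun l hl' => by have := p4 l hl'; linarith)
    refine hn (hT2.close F2 (by linarith) hz0 hS hY (by linarith) (by linarith) ?_)
    rw [h2]
    linarith
  · -- `TO`
    rcases Nat.eq_zero_or_pos i with h0 | h0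
    · subst h0
      rw [AA_zero] at h1 G1
      linarith
    · obtain ⟨i, rfl⟩ : ∃ m, i = m + 1 := ⟨i - 1, by omega⟩
      have f1 := AA_succ q i
      obtain ⟨r1, r2, r3, r4⟩ := h.fr.qgap (i := i) (by omega)
      have f2 := h.fr.qa (i := 2 * i) (j := 2 * i + 1) (by omega) (by omega)
      have f3 := h.fr.qa (i := 2 * i + 1) (j := 2 * (i + 1)) (by omega) (by omega)
      have f4 : q (2 * (i + 1)) = q (2 * i + 2) := by ring_nf
      have hM : ((MM B (uq (2 * i + 1)) (uq (2 * i + 2)) - MM B (uq 0) (uq (2 * i + 1)) -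
        MM B (uq 0) (uq (2 * i + 2)) : ℤ) : ℝ) ≤ 2 := by
        have h3 := h.MM2z (uq (2 * i + 1)) (uq (2 * i + 2))
        have h4 := h.MM0z (uq 0) (uq (2 * i + 1))
        have h5 := h.MM0z (uq 0) (uq (2 * i + 2))
        exact_mod_cast (by linarith : MM B (uq (2 * i + 1)) (uq (2 * i + 2)) -
          MM B (uq 0) (uq (2 * i + 1)) - MM B (uq 0) (uq (2 * i + 2)) ≤ 2)
      have h2 : |q 0 - q (2 * i + 1) - q (2 * i + 2)| =
          q (2 * i + 1) + q (2 * i + 2) - q 0 := by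
        rw [abs_of_nonpos (by linarith)]; ring
      have F2 := h.fr.tTO (K := θ + g - 2) (M := 2) i (j + 1) (by omega) (by omega)
        (by rw [h2]; linarith) hM (fun l hl' => by have := r4 l hl'; linarith)
        (fun l hl' => by
          rcases Nat.lt_succ_iff_lt_or_eq.1 hl' with h1 | h1
          · have := p3 l h1; linarith
          · subst h1; linarith)
      refine hn (hT2.close F2 (by linarith) hz0 hS hY (by linarith) (by linarith) ?_)
      rw [h2]
      linarith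

end
end Pool.Agent.Exact


end

section

/-!
# The end of the path, an odd number of hubs of the first type, an even number of the second
-/

set_option autoImplicit false
set_option linter.unusedSectionVars false

namespace Pool.Agent.Exact

open Finset

variable {V : Type*} [Fintype V] [DecidableEq V]
variable {B : V → V → ℤ} {Rl : Finset V} {ℓ nQ nP : ℕ} {uq up : ℕ → V} {q p : ℕ → ℝ}
variable {k : ℤ} {θ : ℝ}

/-- closing the end of the path -/
lemma EnI.close2 {a b : ℕ} {Db β M K t : ℝ} (hE : EnI B uq up a b Db β)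
    (hst : StI B uq up (hb1 a b) M K t) (hK : 0 ≤ K) (h1 : Db + M + K ≤ θ)
    (h2 : Db + β + t + 2 * M ≤ 2 * θ) (h3 : β + M ≤ θ) : Val B θ := by
  obtain ⟨D, L, hL, hD, hDL, hv⟩ := hE
  refine (hv M K t hK hst).mono ?_
  rw [← max_add_add_left, ← max_add_add_left]
  refine max_le (max_le ?_ ?_) ?_ <;> linarith

/-- closing the end of the path, with a last vertex -/
lemma Frame.closeOut2 (h : Frame B Rl ℓ nQ nP uq up q p) {a b : ℕ} {S : Finset V}
    {D1 β M K t : ℝ} (hbP : b ≤ nP) (haQ : a ≤ nQ) (hS : S ⊆ vs uq up (rr nQ nP a b))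
    (hO : OutI B uq up a b S D1 β) (hCrS : CrSI B uq up p a b (D1 + 1) → Val B θ)
    (hst : StI B uq up (hb1 a b) M K t) (hK : 0 ≤ K) (h1 : D1 + 1 + M + K ≤ θ)
    (h2 : D1 + 1 + β + t + 2 * M ≤ 2 * θ) (h3 : β + M ≤ θ) : Val B θ := by
  rcases h.outI hbP haQ hS hO with h4 | h4
  · exact hCrS h4.toS
  · exact h4.close2 hst hK h1 h2 h3

section
variable (h : Ctx B Rl ℓ nQ nP uq up q p k θ)
include h

/-- the arrangement `TE` -/
theorem Ctx.poTE {i j : ℕ} (hi : i < ℓ) (hj : j < ℓ) {S : Finset V} {g Y : ℤ}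
    (hT2 : T2I B uq up (2 * i + 1) (2 * (j + 1)) S g Y) {z : ℝ} (hz0 : 0 ≤ z)
    (hS : ∀ v ∈ S, |((im B v : ℤ) : ℝ)| ≤ z) (hY : (Y : ℝ) ≤ z)
    (i1 : q (2 * i) - (p 0 - p (2 * j + 1)) ≤ θ + g - 2)
    (gP' : p 0 - p (2 * j + 1) ≤ q (2 * i)) (gQ : AA q i ≤ θ + g - 2)
    (gE : p 0 - p (2 * j + 1) ≤ θ + g - 2)
    (hz : z + (2 - MM B (up (2 * j + 1)) (uq (2 * i))) ≤ θ + g)
    (ht : z + 4 + (q (2 * i) + AA q i - AA p (j + 1)) ≤ 2 * θ + 2 * g) : Val B θ := by
  have hl := h.fr.l2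
  obtain ⟨q1, q2, q3, q4⟩ := h.fr.qgap hi
  obtain ⟨p1, p2, p3, p4⟩ := h.fr.pgap hj
  have e1 := AA_succ p j
  have e2 := h.fr.pa (i := 2 * j) (j := 2 * j + 1) (by omega) (by omega)
  have h2 : |p 0 - p (2 * j + 1) - q (2 * i)| = q (2 * i) - (p 0 - p (2 * j + 1)) := by
    rw [abs_of_nonpos (by linarith)]; ring
  have hM : ((MM B (up 0) (uq (2 * i)) - MM B (up 0) (up (2 * j + 1)) -
    MM B (up (2 * j + 1)) (uq (2 * i)) : ℤ) : ℝ) ≤
      2 - MM B (up (2 * j + 1)) (uq (2 * i)) := by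
    have h3 := h.MM2z (up 0) (uq (2 * i))
    have h4 := h.MM0z (up 0) (up (2 * j + 1))
    exact_mod_cast (by linarith : MM B (up 0) (uq (2 * i)) - MM B (up 0) (up (2 * j + 1)) -
      MM B (up (2 * j + 1)) (uq (2 * i)) ≤ 2 - MM B (up (2 * j + 1)) (uq (2 * i)))
  have hN0 := h.MM0 (up (2 * j + 1)) (uq (2 * i))
  have hK0 : 0 ≤ θ + g - 2 := le_trans (abs_nonneg _) (h2.le.trans i1)
  refine hT2.close (M := 2 - MM B (up (2 * j + 1)) (uq (2 * i))) (K := θ + g - 2)
    (h.fr.tTE (K := θ + g - 2) i j hi hj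
    (by rw [h2]; linarith) hM (fun l hl' => by have := q3 l hl'; linarith)
    (fun l hl' => by have := p4 l hl'; linarith)) hK0 hz0 hS hY (by linarith) hz ?_
  rw [h2]
  linarith

/-- the end of the path fails only because of the total -/
theorem Ctx.tot (hnv : ¬ Val B θ) {i j : ℕ} (hi : i < ℓ) (hj : j < ℓ)
    (haQ : 2 * i + 1 ≤ nQ) (hbP : 2 * (j + 1) ≤ nP) {S : Finset V}
    (hS : S ⊆ vs uq up (rr nQ nP (2 * i + 1) (2 * (j + 1)))) {D1 β m : ℝ}
    (hO : OutI B uq up (2 * i + 1) (2 * (j + 1)) S D1 β)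
    (hCrS : CrSI B uq up p (2 * i + 1) (2 * (j + 1)) (D1 + 1) → Val B θ)
    (m1 : q 0 - q (2 * i) - AA q i ≤ q 0 - θ + m) (m2 : p 0 - p (2 * j + 1) ≤ q 0 - θ + m)
    (hR : D1 + 1 + (q 0 - θ + m) ≤ θ) (hβ : β ≤ θ) :
    2 * θ < D1 + 1 + β + (q 0 - q (2 * i) - AA q i + AA p (j + 1)) := by
  have hl := h.fr.l2
  obtain ⟨q1, q2, q3, q4⟩ := h.fr.qgap hi
  obtain ⟨p1, p2, p3, p4⟩ := h.fr.pgap hj
  have e1 := AA_succ p j
  have e2 := h.fr.pa (i := 2 * j) (j := 2 * j + 1) (by omega) (by omega)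
  by_contra hc
  push Not at hc
  have hst := h.fr.aPure (K := q 0 - θ + m) i (j + 1) hi (by omega)
    (fun l hl' => by have := q4 l hl'; linarith) (fun l hl' => by
      rcases Nat.lt_succ_iff_lt_or_eq.1 hl' with h1 | h1
      · have := p3 l h1; linarith
      · subst h1; linarith)
  exact hnv (h.fr.closeOut2 hbP haQ hS hO hCrS hst (by linarith) (by linarith) (by linarith)
    (by linarith))

/-- the total fails and all neutral vertices are small -/
theorem Ctx.poW (hnv : ¬ Val B θ) {i j : ℕ} (hi : i < ℓ) (hj : j < ℓ) {S : Finset V} {g Y : ℤ}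
    (hT2 : T2I B uq up (2 * i + 1) (2 * (j + 1)) S g Y) {z D1 : ℝ} (hz0 : 0 ≤ z)
    (hS : ∀ v ∈ S, |((im B v : ℤ) : ℝ)| ≤ z) (hY : (Y : ℝ) ≤ z)
    (hT : θ < D1 + 1 + (q 0 - q (2 * i) - AA q i + AA p (j + 1)))
    (gP' : p 0 - p (2 * j + 1) ≤ q (2 * i)) (gQ : AA q i ≤ θ + g - 2)
    (gE : p 0 - p (2 * j + 1) ≤ θ + g - 2) (hR3 : D1 + q 0 + 3 ≤ 2 * θ + g) (hz : z + 2 ≤ θ + g)
    (hz5 : z + 5 + D1 + q 0 ≤ 3 * θ + 2 * g) : False := by
  have hl := h.fr.l2
  obtain ⟨q1, q2, q3, q4⟩ := h.fr.qgap hi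
  obtain ⟨p1, p2, p3, p4⟩ := h.fr.pgap hj
  have e1 := AA_succ p j
  have hN0 := h.MM0 (up (2 * j + 1)) (uq (2 * i))
  exact hnv (h.poTE hi hj hT2 hz0 hS hY (by linarith) gP' gQ gE (by linarith) (by linarith))

/-- the total fails and there is a large bound for the neutral vertices -/
theorem Ctx.poD (hnv : ¬ Val B θ) {i j : ℕ} (hi : i < ℓ) (hj : j < ℓ)
    (haQ : 2 * i + 1 ≤ nQ) (hbP : 2 * (j + 1) ≤ nP) (hpq : p 0 ≤ q 0) {S : Finset V} {g Y : ℤ}
    (hSR : S ⊆ vs uq up (rr nQ nP (2 * i + 1) (2 * (j + 1)))) {D1 m X Z : ℝ}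
    (hT2 : T2I B uq up (2 * i + 1) (2 * (j + 1)) S g Y)
    (hO : OutI B uq up (2 * i + 1) (2 * (j + 1)) S D1 (D1 + q 0 - X))
    (hCrS : CrSI B uq up p (2 * i + 1) (2 * (j + 1)) (D1 + 1) → Val B θ)
    (hm : 0 ≤ m) (hE : q 0 - q (2 * i) - AA q i ≤ q 0 - θ + m)
    (m1 : θ - m ≤ q (2 * i)) (m2 : θ - m ≤ p (2 * j + 1))
    (hR : D1 + 1 + (q 0 - θ + m) ≤ θ) (hR3 : D1 + q 0 + 3 ≤ 2 * θ)
    (hX : D1 + q 0 - X ≤ θ) (hg : (1 : ℝ) ≤ g)
    (gP' : p 0 - p (2 * j + 1) ≤ q (2 * i)) (gE : p 0 - p (2 * j + 1) ≤ θ + g - 2)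
    (hZ0 : 0 ≤ Z) (hZX : Z ≤ X) (hYZ : (Y : ℝ) ≤ Z)
    (hSZ : ∀ v ∈ S, |((im B v : ℤ) : ℝ)| ≤ Z) : False := by
  have hl := h.fr.l2
  obtain ⟨q1, q2, q3, q4⟩ := h.fr.qgap hi
  obtain ⟨p1, p2, p3, p4⟩ := h.fr.pgap hj
  have e1 := AA_succ p j
  have e2 := h.fr.pa (i := 2 * j) (j := 2 * j + 1) (by omega) (by omega)
  have hN0 := h.MM0 (up (2 * j + 1)) (uq (2 * i))
  have hN2 := h.MM2 (up (2 * j + 1)) (uq (2 * i))
  have hT := h.tot hnv hi hj haQ hbP hSR hO hCrS hE (by linarith) hR hX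
  obtain ⟨N, hN⟩ : ∃ N : ℝ, N = MM B (up (2 * j + 1)) (uq (2 * i)) := ⟨_, rfl⟩
  rw [← hN] at hN0 hN2
  rcases le_or_gt (Z + (2 - N)) (θ + g) with h1 | h1
  · exact hnv (h.poTE hi hj hT2 hZ0 hSZ hYZ (by linarith) gP' (by linarith) gE
      (by rw [← hN]; linarith) (by linarith))
  · rcases Nat.eq_zero_or_pos i with h0 | h0
    · subst h0
      rw [AA_zero, Nat.mul_zero] at hT
      linarith
    · obtain ⟨i, rfl⟩ : ∃ m, i = m + 1 := ⟨i - 1, by omega⟩
      have f0 := h.fr.qgA (i := 0) (l := 0) (j := i + 1) le_rfl (by omega) (by omega)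
      have f1 : AA q 1 = q 0 - q 1 := by
        have := AA_succ q 0
        rw [AA_zero] at this
        simp only [Nat.mul_zero, zero_add] at this
        rw [this]
      rw [AA_zero] at f0
      simp only [Nat.mul_zero, zero_add] at f0
      have f2 := h.fr.qa (i := 0) (j := 1) (by omega) (by omega)
      have b0 : q 0 - p 0 ≤ q 0 - θ + m - AA p (j + 1) := by linarith
      have b3 : AA q (i + 1) ≤ θ - D1 - 3 - N := by linarith
      have b4 : q 0 - p 0 ≤ θ - D1 - 3 - N := by linarith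
      have b5 : q (2 * (i + 1)) - θ + m ≤ θ - D1 - 3 - N := by linarith
      have b6 : p (2 * j + 1) - q (2 * (i + 1)) ≤ θ - D1 - 3 - N := by linarith
      have c1 : |q 1 - p 0| ≤ θ - D1 - 3 - N := abs_le.2 ⟨by linarith, by linarith⟩
      have c2 : |q (2 * (i + 1)) - p (2 * j + 1)| ≤ θ - D1 - 3 - N :=
        abs_le.2 ⟨by linarith, by linarith⟩
      have hst := h.fr.aTwo (K := θ - D1 - 3 - N) i j hi hj c1 c2
        (fun l _ hl' => by have := q3 l hl'; linarith)
        (fun l hl' => by have := p4 l hl'; linarith)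
      have hM1 := h.MM2 (uq 1) (up 0)
      have hMN : ((MM B (uq (2 * (i + 1))) (up (2 * j + 1)) : ℤ) : ℝ) = N := by
        rw [hN, MM_comm]
      rw [hMN] at hst
      refine hnv (h.fr.closeOut2 hbP haQ hSR hO hCrS
        (hst.mono (M' := 2 + N) (by linarith) le_rfl le_rfl)
        (le_trans (abs_nonneg _) c1) (by linarith) ?_ (by linarith))
      rcases le_or_gt 0 (q 1 - p 0) with h2 | h2 <;>
        rcases le_or_gt 0 (q (2 * (i + 1)) - p (2 * j + 1)) with h3 | h3
      · rw [abs_of_nonneg h2, abs_of_nonneg h3]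
        linarith
      · rw [abs_of_nonneg h2, abs_of_neg h3]
        linarith
      · rw [abs_of_neg h2, abs_of_nonneg h3]
        linarith
      · rw [abs_of_neg h2, abs_of_neg h3]
        linarith

end
end Pool.Agent.Exact


end
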