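import Mathlib

/-! Parts: Lib_helper68.Exact.NumPo, Lib_helper68.Exact.NumPo2, Lib_helper23.Exact.Ratio, Lib_helper23.Exact.Arith0 -/

section

/-!
# Arithmetic of the case of hubs of both types, first type outgoing, odd
-/

set_option autoImplicit false

namespace Pool.Agent.Exact

/-- the numerical facts; `a = k-1-d-j` and `b = k-j` are the numbers of hubs -/
structure Po (k d j : ℤ) (K μ G y w : ℝ) : Prop where
  k3 : 3 ≤ k
  dj : d + j ≤ k - 2
  j2 : j ≤ k - 2
  K0 : 0 ≤ K
  μ0 : 0 ≤ μ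
  G0 : 0 ≤ G
  yG : G < y
  Y : y ≤ K + k - 2
  w0 : 0 ≤ w
  wK : w ≤ (k - j) * K
  σ0 : 0 ≤ μ + 2 * K - 2 * G + d + 2 * j
  C : ((d : ℝ) + 2 + j) * (μ + 2 * K - 2 * G + d + 2 * j) + w < y + (k - j) * (K + j + 1)
  D : ((k : ℝ) - 2 - d - j) * G + (k - d - j) * K + y ≤ (d + j) * μ
  D' : 0 ≤ j → ((k : ℝ) - 3 - d - j) * G + (k - d - j) * K + y +
    j * (μ + 2 * K - 2 * G + d + 2 * j) ≤ (d + j) * μ
  T : ((k : ℝ) - j + 2) * K + w + (2 - j) * μ + k * (d - 1) + 3 * j < (2 * k - 1) * G
  SS : ((k : ℝ) + 2 + j) * K + w + 2 * μ + k * (d - 2) + (2 * j + d + 2) * (j + 1) <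
    (2 * k + 2) * G
  ii : w ≤ (k - j) * (K + j + 1)

variable {k d j : ℤ} {K μ G y w : ℝ}

section
variable (h : Po k d j K μ G y w)
include h

lemma Po.dj1 : 1 ≤ d + j := by
  have h1 := h.D
  have h2 := h.dj
  have h3 := h.K0
  have h4 := h.G0
  have h5 := h.yG
  have h6 := h.μ0
  have hdj : ((d : ℝ) + j) ≤ k - 2 := by exact_mod_cast h2
  by_contra hc
  push Not at hc
  have hc' : (d : ℝ) + j ≤ 0 := by exact_mod_cast (by omega : d + j ≤ 0)
  have a1 : 0 ≤ ((k : ℝ) - 2 - d - j) * G := mul_nonneg (by linarith) h4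
  have a2 : 0 ≤ ((k : ℝ) - d - j) * K := mul_nonneg (by linarith) h3
  have a3 : ((d : ℝ) + j) * μ ≤ 0 := mul_nonpos_of_nonpos_of_nonneg hc' h6
  linarith

lemma Po.jlow : 3 - k ≤ j := by
  have h1 := h.T
  have h2 := h.σ0
  have h3 := h.K0
  have h6 := h.μ0
  have h7 := h.w0
  have hk := h.k3
  have hdj := h.dj1
  by_contra hc
  push Not at hc
  have k3r : (3 : ℝ) ≤ k := by exact_mod_cast hk
  have hc' : (j : ℝ) ≤ 2 - k := by exact_mod_cast (by omega : j ≤ 2 - k)
  have hdr : (1 : ℝ) - j ≤ d := by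
    have : 1 - j ≤ d := by omega
    exact_mod_cast this
  have a1 : (2 * (k : ℝ) - 1) * (2 * G) ≤ (2 * k - 1) * (μ + 2 * K + d + 2 * j) :=
    mul_le_mul_of_nonneg_left (by linarith) (by linarith)
  have a2 : 0 ≤ (2 * (3 - (k : ℝ) - j)) * K := mul_nonneg (by linarith) h3
  have a3 : 0 ≤ (5 - 2 * (k : ℝ) - 2 * j) * μ := mul_nonneg (by linarith) h6
  nlinarith

/-- the mean of the levels of the second type is small -/
theorem Po.C1 (hd : d % 2 = 0) : w < (k - j) * G := by
  have hk := h.k3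
  have hj := h.j2
  have hjl := h.jlow
  have hdj := h.dj
  have hdj1 := h.dj1
  have h3 := h.K0
  have h4 := h.G0
  have h5 := h.yG
  have h6 := h.μ0
  have hSS := h.SS
  have hwK := h.wK
  have k3r : (3 : ℝ) ≤ k := by exact_mod_cast hk
  have hjr : (j : ℝ) ≤ k - 2 := by exact_mod_cast hj
  have hjlr : 3 - (k : ℝ) ≤ j := by exact_mod_cast hjl
  have hdjr : (d : ℝ) + j ≤ k - 2 := by exact_mod_cast hdj
  have hdj1r : (1 : ℝ) ≤ (d : ℝ) + j := by exact_mod_cast hdj1
  by_contra hc
  push Not at hc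
  have hKG : G ≤ K := by
    by_contra hc'
    push Not at hc'
    have : ((k : ℝ) - j) * K < (k - j) * G := mul_lt_mul_of_pos_left hc' (by linarith)
    linarith
  have a1 : ((k : ℝ) + 2 + j) * G ≤ (k + 2 + j) * K :=
    mul_le_mul_of_nonneg_left hKG (by linarith)
  have a2 : 2 * μ + k * ((d : ℝ) - 2) + (2 * j + d + 2) * (j + 1) < 0 := by nlinarith
  rcases le_or_gt 0 j with h7 | h7
  · have h7r : (0 : ℝ) ≤ j := by exact_mod_cast h7
    rcases lt_or_ge d 1 with h8 | h8
    · have hD' := h.D' h7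
      have h8r : (d : ℝ) ≤ 0 := by exact_mod_cast (by omega : d ≤ 0)
      have b1 : (d : ℝ) * μ ≤ 0 := mul_nonpos_of_nonpos_of_nonneg h8r h6
      have b2 : ((k : ℝ) - d + j) * G ≤ (k - d + j) * K :=
        mul_le_mul_of_nonneg_left hKG (by linarith)
      have b3 : 0 ≤ (2 * (k : ℝ) - 2 * d - 2 * j - 2) * G := mul_nonneg (by linarith) h4
      have b4 : 0 ≤ (j : ℝ) * (d + j - 1) := mul_nonneg h7r (by linarith)
      have b5 : 0 ≤ (j : ℝ) * j := mul_nonneg h7r h7r
      nlinarith
    · have h8' : 2 ≤ d := by omega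
      have h8r : (2 : ℝ) ≤ d := by exact_mod_cast h8'
      have b1 : 0 ≤ (k : ℝ) * (d - 2) := mul_nonneg (by linarith) (by linarith)
      have b2 : 0 ≤ (2 * (j : ℝ) + d + 2) * (j + 1) := mul_nonneg (by linarith) (by linarith)
      linarith
  · have h7r : (j : ℝ) ≤ -1 := by exact_mod_cast (by omega : j ≤ -1)
    rcases le_or_gt (d + 2 + 2 * j) 0 with h9 | h9
    · have h9r : (d : ℝ) + 2 + 2 * j ≤ 0 := by exact_mod_cast h9
      have b1 : 0 ≤ (2 * (j : ℝ) + d + 2) * (j + 1) :=
        mul_nonneg_of_nonpos_of_nonpos (by linarith) (by linarith)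
      have b2 : 0 ≤ (k : ℝ) * (d - 2) := by
        refine mul_nonneg (by linarith) ?_
        have : 2 ≤ d := by omega
        have : (2 : ℝ) ≤ d := by exact_mod_cast this
        linarith
      linarith
    · have h9r : (0 : ℝ) ≤ (d : ℝ) + 2 + 2 * j := by exact_mod_cast h9.le
      have b1 : 0 ≤ (k - ((d : ℝ) + 2 + 2 * j)) * (-(j : ℝ) - 1) := by
        refine mul_nonneg ?_ (by linarith)
        linarith
      have b2 : 0 ≤ (k : ℝ) * (d + j - 1) := mul_nonneg (by linarith) (by linarith)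
      nlinarith

end

end Pool.Agent.Exact


end

section

/-!
# Arithmetic of the case of hubs of both types, first type outgoing, odd: consequences
-/

set_option autoImplicit false

namespace Pool.Agent.Exact

variable {k d j : ℤ} {K μ G y w : ℝ}

section
variable (h : Po k d j K μ G y w)
include h

/-- a combination of `D'` and `μ + 2 G < 4` -/
lemma Po.star (hj : 0 ≤ j) (hd : 0 ≤ d) (hm : μ + 2 * G < 4) :
    ((k : ℝ) - 3 + d - 3 * j) * G + (k - d + j) * K + y + j * (d + 2 * j) ≤ 4 * d := by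
  have h1 := h.D' hj
  have hdr : (0 : ℝ) ≤ d := by exact_mod_cast hd
  have a1 : (d : ℝ) * (μ + 2 * G) ≤ d * 4 := mul_le_mul_of_nonneg_left hm.le hdr
  linarith

lemma Po.negd (hd : d ≤ 0) (hdp : d % 2 = 0) (hjp : (k - j) % 2 = 0) (hG : G ≤ 3 / 2) :
    False := by
  have hj := h.j2
  have hdj := h.dj
  have hdj1 := h.dj1
  have hk := h.k3
  have h3 := h.K0
  have h4 := h.G0
  have h5 := h.yG
  have h6 := h.μ0
  have hY := h.Y
  have j1 : 1 ≤ j := by omega
  have hD' := h.D' (by omega)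
  have k3r : (3 : ℝ) ≤ k := by exact_mod_cast hk
  have hjr : (j : ℝ) ≤ k - 2 := by exact_mod_cast hj
  have hdjr : (d : ℝ) + j ≤ k - 2 := by exact_mod_cast hdj
  have hdj1r : (1 : ℝ) ≤ (d : ℝ) + j := by exact_mod_cast hdj1
  have j1r : (1 : ℝ) ≤ j := by exact_mod_cast j1
  have hdr : (d : ℝ) ≤ 0 := by exact_mod_cast hd
  have b1 : (d : ℝ) * μ ≤ 0 := mul_nonpos_of_nonpos_of_nonneg hdr h6
  have b2 : 0 ≤ ((k : ℝ) - d + j) * K := mul_nonneg (by linarith) h3
  have key : ((k : ℝ) - 2 - d - 3 * j) * G + (k - d + j) * K + j * (d + 2 * j) < 0 := by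
    linarith
  rcases le_or_gt 0 ((k : ℝ) - 2 - d - 3 * j) with h7 | h7
  · have b3 : 0 ≤ ((k : ℝ) - 2 - d - 3 * j) * G := mul_nonneg h7 h4
    have b4 : 0 ≤ (j : ℝ) * (d + 2 * j) := mul_nonneg (by linarith) (by linarith)
    linarith
  · have b3 : ((k : ℝ) - 2 - d - 3 * j) * (3 / 2) ≤ ((k : ℝ) - 2 - d - 3 * j) * G :=
      mul_le_mul_of_nonpos_left hG h7.le
    rcases le_or_gt 2 j with h8 | h8
    · have h8r : (2 : ℝ) ≤ j := by exact_mod_cast h8
      have b4 : 0 ≤ ((j : ℝ) - 2) * (d + 2 * j) := mul_nonneg (by linarith) (by linarith)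
      linarith
    · have e1 : j = 1 := by omega
      have e2 : d = 0 := by omega
      have e3 : k = 3 := by
        subst e1 e2
        have : (k : ℝ) < 5 := by
          have := h7
          push_cast at this
          linarith
        have : k < 5 := by exact_mod_cast this
        omega
      subst e1 e2 e3
      push_cast at key hY hD'
      linarith

/-- **Either `4 ≤ μ + 2 G` or `y` is small.** -/
theorem Po.m (hdp : d % 2 = 0) (hjp : (k - j) % 2 = 0) (hG1 : G = 1 / 2 ∨ G = 1 ∨ G = 3 / 2)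
    (hm : μ + 2 * G < 4) : 1 ≤ G ∧ y ≤ μ + 2 * G - 1 := by
  have hj := h.j2
  have hjl := h.jlow
  have hdj := h.dj
  have hdj1 := h.dj1
  have hk := h.k3
  have h3 := h.K0
  have h4 := h.G0
  have h5 := h.yG
  have h6 := h.μ0
  have hw := h.w0
  have hY := h.Y
  have hT := h.T
  have hD := h.D
  have hC := h.C
  have G12 : 1 / 2 ≤ G := by rcases hG1 with h7 | h7 | h7 <;> rw [h7] <;> norm_num
  have G32 : G ≤ 3 / 2 := by rcases hG1 with h7 | h7 | h7 <;> rw [h7] <;> norm_num
  rcases le_or_gt d 0 with hd0 | hd0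
  · exact (h.negd hd0 hdp hjp G32).elim
  have hd2 : 2 ≤ d := by omega
  have k3r : (3 : ℝ) ≤ k := by exact_mod_cast hk
  have hjr : (j : ℝ) ≤ k - 2 := by exact_mod_cast hj
  have hjlr : 3 - (k : ℝ) ≤ j := by exact_mod_cast hjl
  have hdjr : (d : ℝ) + j ≤ k - 2 := by exact_mod_cast hdj
  have hdj1r : (1 : ℝ) ≤ (d : ℝ) + j := by exact_mod_cast hdj1
  have hd2r : (2 : ℝ) ≤ d := by exact_mod_cast hd2
  have GT : (2 * (k : ℝ) - 1) * G ≤ (2 * k - 1) * (3 / 2) :=
    mul_le_mul_of_nonneg_left G32 (by linarith)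
  rcases le_or_gt 0 j with hj0 | hj0
  · have hj0r : (0 : ℝ) ≤ j := by exact_mod_cast hj0
    have hst := h.star hj0 (by omega) hm
    have a1 : 0 ≤ ((k : ℝ) - j + 2) * K := mul_nonneg (by linarith) h3
    rcases le_or_gt 3 j with hj3 | hj3
    · exfalso
      have hj3r : (3 : ℝ) ≤ j := by exact_mod_cast hj3
      have a2 : ((j : ℝ) - 2) * (μ + 2 * G) ≤ (j - 2) * 4 :=
        mul_le_mul_of_nonneg_left hm.le (by linarith)
      have a3 : (2 * (k : ℝ) + 3 - 2 * j) * G ≤ (2 * k + 3 - 2 * j) * (3 / 2) :=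
        mul_le_mul_of_nonneg_left G32 (by linarith)
      have hd3 : d < 4 := by
        by_contra hc
        push Not at hc
        have hcr : (4 : ℝ) ≤ d := by exact_mod_cast hc
        have a4 : 0 ≤ (k : ℝ) * (d - 4) := mul_nonneg (by linarith) (by linarith)
        linarith
      have e1 : d = 2 := by omega
      subst e1
      push_cast at hst hdjr
      have a5 : 0 ≤ ((k : ℝ) - 2 + j) * K := mul_nonneg (by linarith) h3
      have a7 : 0 ≤ ((j : ℝ) - 3) * j := mul_nonneg (by linarith) hj0r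
      rcases le_or_gt 0 ((k : ℝ) - 3 * j) with h7 | h7
      · have a6 : 0 ≤ ((k : ℝ) - 3 * j) * G := mul_nonneg h7 h4
        linarith
      · have a6 : ((k : ℝ) - 3 * j) * (3 / 2) ≤ (k - 3 * j) * G :=
          mul_le_mul_of_nonpos_left G32 h7.le
        linarith
    · have a2 : 0 ≤ (2 - (j : ℝ)) * μ := by
        refine mul_nonneg ?_ h6
        have : (j : ℝ) ≤ 2 := by exact_mod_cast (by omega : j ≤ 2)
        linarith
      have hd3 : d < 4 := by
        by_contra hc
        push Not at hc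
        have hcr : (4 : ℝ) ≤ d := by exact_mod_cast hc
        have a4 : 0 ≤ (k : ℝ) * (d - 4) := mul_nonneg (by linarith) (by linarith)
        linarith
      have e1 : d = 2 := by omega
      subst e1
      interval_cases j
      · -- `j = 0`
        push_cast at hst hT hD hC
        have a3 : 0 ≤ ((k : ℝ) + 2) * K := mul_nonneg (by linarith) h3
        have a4 : 0 ≤ ((k : ℝ) - 2) * K := mul_nonneg (by linarith) h3
        rcases hG1 with h7 | h7 | h7
        · exfalso
          rw [h7] at hT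
          linarith
        · have hk8 : k < 8 := by
            rw [h7] at hst h5
            have : (k : ℝ) < 8 := by linarith
            exact_mod_cast this
          have hk4 : 4 ≤ k := by omega
          have : k = 4 ∨ k = 6 := by omega
          refine ⟨h7.ge, ?_⟩
          rcases this with h8 | h8 <;> subst h8 <;> push_cast at * <;> rw [h7] at * <;>
            by_contra hc <;> push Not at hc <;> linarith
        · have hk8 : k < 6 := by
            rw [h7] at hst h5
            have : (k : ℝ) < 6 := by linarith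
            exact_mod_cast this
          have : k = 4 := by omega
          subst this
          refine ⟨by rw [h7]; norm_num, ?_⟩
          push_cast at *
          rw [h7] at *
          by_contra hc
          push Not at hc
          linarith
      · -- `j = 1`
        push_cast at hst hT hD hC
        have a3 : 0 ≤ ((k : ℝ) + 1) * K := mul_nonneg (by linarith) h3
        have a4 : 0 ≤ ((k : ℝ) - 1) * K := mul_nonneg (by linarith) h3
        have hk5 : 5 ≤ k := by omega
        rcases hG1 with h7 | h7 | h7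
        · exfalso
          rw [h7] at hT
          linarith
        · exfalso
          have hk8 : k < 7 := by
            rw [h7] at hst h5
            have : (k : ℝ) < 7 := by linarith
            exact_mod_cast this
          have : k = 5 := by omega
          subst this
          push_cast at *
          rw [h7] at *
          linarith
        · have hk8 : k < 6 := by
            rw [h7] at hst h5
            have : (k : ℝ) < 6 := by linarith
            exact_mod_cast this
          have : k = 5 := by omega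
          subst this
          refine ⟨by rw [h7]; norm_num, ?_⟩
          push_cast at *
          rw [h7] at *
          by_contra hc
          push Not at hc
          linarith
      · -- `j = 2`
        exfalso
        push_cast at hst
        have hk6 : 6 ≤ k := by omega
        have hk6r : (6 : ℝ) ≤ k := by exact_mod_cast hk6
        have a3 : 0 ≤ ((k : ℝ) - 6) * G := mul_nonneg (by linarith) h4
        have a4 : 0 ≤ (k : ℝ) * K := mul_nonneg (by linarith) h3
        linarith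
  · -- `j < 0`
    exfalso
    have hj0r : (j : ℝ) ≤ -1 := by exact_mod_cast (by omega : j ≤ -1)
    obtain ⟨t, rfl⟩ : ∃ t : ℤ, j = -t := ⟨-j, by ring⟩
    obtain ⟨c, rfl⟩ : ∃ c : ℤ, d = c - 2 + t := ⟨d + 2 - t, by ring⟩
    have ht1 : 1 ≤ t := by omega
    have ht2 : t ≤ k - 3 := by omega
    have hc3 : 3 ≤ c := by omega
    have hck : c ≤ k := by omega
    push_cast at *
    have t1r : (1 : ℝ) ≤ t := by exact_mod_cast ht1
    have t2r : (t : ℝ) ≤ k - 3 := by exact_mod_cast ht2
    have c3r : (3 : ℝ) ≤ c := by exact_mod_cast hc3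
    have ckr : (c : ℝ) ≤ k := by exact_mod_cast hck
    have a1 : 0 ≤ ((k : ℝ) + t + 2) * K := mul_nonneg (by linarith) h3
    have a2 : 0 ≤ ((t : ℝ)) * μ := mul_nonneg (by linarith) h6
    have a3 : 0 ≤ ((k : ℝ) - 3) * (t - 1) := mul_nonneg (by linarith) (by linarith)
    have a4 : 0 ≤ ((k : ℝ) + 2 - c) * K := mul_nonneg (by linarith) h3
    have a5 : ((c : ℝ) - 2) * (μ + 2 * G) ≤ (c - 2) * 4 :=
      mul_le_mul_of_nonneg_left hm.le (by linarith)
    have hc6 : c < 6 := by
      by_contra hc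
      push Not at hc
      have hcr : (6 : ℝ) ≤ c := by exact_mod_cast hc
      have a6 : 0 ≤ (k : ℝ) * (c - 6) := mul_nonneg (by linarith) (by linarith)
      linarith
    have hc345 : c = 3 ∨ c = 4 ∨ c = 5 := by omega
    rcases hc345 with rfl | rfl | rfl
    · -- `c = 3`
      have hk5 : 5 ≤ k := by omega
      have hk5r : (5 : ℝ) ≤ k := by exact_mod_cast hk5
      push_cast at *
      have b1 : ((k : ℝ) - 2) * G < μ := by linarith
      have b2 : ((k : ℝ) - 3) * (1 / 2) ≤ (k - 3) * G := mul_le_mul_of_nonneg_left G12 (by linarith)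
      have b3 : (t : ℝ) * ((k - 2) * G) ≤ t * μ := mul_le_mul_of_nonneg_left b1.le (by linarith)
      have b4 : ((k : ℝ) - 2) * G ≤ t * ((k - 2) * G) := by
        have : 0 ≤ ((t : ℝ) - 1) * ((k - 2) * G) :=
          mul_nonneg (by linarith) (mul_nonneg (by linarith) h4)
        linarith
      have b5 : 0 ≤ ((k : ℝ) - 5) * G := mul_nonneg (by linarith) h4
      linarith
    · -- `c = 4`
      push_cast at *
      have ht : 2 ≤ t := by omega
      have htr : (2 : ℝ) ≤ t := by exact_mod_cast ht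
      have hk5 : 5 ≤ k := by omega
      have hk5r : (5 : ℝ) ≤ k := by exact_mod_cast hk5
      have b1 : ((k : ℝ) - 3) * G < 2 * μ := by linarith
      have b2 : 0 ≤ ((t : ℝ) - 2) * μ := mul_nonneg (by linarith) h6
      have b3 : 0 ≤ ((k : ℝ) - 3) * (t - 2) := mul_nonneg (by linarith) (by linarith)
      linarith
    · -- `c = 5`
      push_cast at *
      have hk5r : (5 : ℝ) ≤ k := by exact_mod_cast hck
      have hG32 : G = 3 / 2 := by
        rcases hG1 with h7 | h7 | h7
        · exfalso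
          rw [h7] at hT
          linarith
        · exfalso
          rw [h7] at hT
          linarith
        · exact h7
      have b1 : 0 ≤ ((k : ℝ) - 5) * G := mul_nonneg (by linarith) h4
      have b2 : 0 ≤ ((t : ℝ) - 1) * μ := mul_nonneg (by linarith) h6
      have b3 : 0 ≤ ((k : ℝ) - 3) * K := mul_nonneg (by linarith) h3
      rw [hG32] at *
      linarith

end

end Pool.Agent.Exact


end

section

/-!
# Choosing a subset of small cost and large gain
-/

set_option autoImplicit false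

namespace Pool.Agent.Exact

open Finset

theorem exists_ratio {α : Type*} [DecidableEq α] (f m : α → ℝ) : ∀ (n : ℕ) (S : Finset α),
    S.card = n → (∀ v ∈ S, 0 ≤ m v ∧ m v ≤ 2) → (∀ v ∈ S, m v = 0 → 0 ≤ f v) →
    ∀ W : ℝ, 0 ≤ W → ∃ F ⊆ S, ∑ v ∈ F, m v ≤ W ∧ (F = S ∨ W - 2 < ∑ v ∈ F, m v) ∧
      (∑ v ∈ F, m v) * ∑ v ∈ S, f v ≤ (∑ v ∈ F, f v) * ∑ v ∈ S, m v := by
  intro n
  induction n using Nat.strong_induction_on with
  | _ n ih =>
    intro S hSn hm hf W hW
    rcases le_or_gt (∑ v ∈ S, m v) W with h1 | h1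
    · exact ⟨S, Finset.Subset.refl _, h1, Or.inl rfl, le_of_eq (mul_comm _ _)⟩
    · have hne : (S.filter fun v => 0 < m v).Nonempty := by
        rw [Finset.filter_nonempty_iff]
        by_contra hc
        push Not at hc
        have : ∑ v ∈ S, m v ≤ 0 := Finset.sum_nonpos fun v hv => hc v hv
        linarith
      obtain ⟨v, hv, hmin⟩ := Finset.exists_min_image _ (fun v => f v / m v) hne
      rw [Finset.mem_filter] at hv
      obtain ⟨hvS, hv0⟩ := hv
      have hsub : ∀ u ∈ S.erase v, u ∈ S := fun u hu => Finset.mem_of_mem_erase hu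
      have key : ∀ u ∈ S, m u * f v ≤ f u * m v := by
        intro u hu
        rcases (hm u hu).1.eq_or_lt with h2 | h2
        · rw [← h2, zero_mul]
          exact mul_nonneg (hf u hu h2.symm) hv0.le
        · have h3 := hmin u (Finset.mem_filter.2 ⟨hu, h2⟩)
          rw [div_le_div_iff₀ hv0 h2] at h3
          linarith
      have hmS : ∑ u ∈ S, m u = m v + ∑ u ∈ S.erase v, m u := (Finset.add_sum_erase _ _ hvS).symm
      have hfS : ∑ u ∈ S, f u = f v + ∑ u ∈ S.erase v, f u := (Finset.add_sum_erase _ _ hvS).symm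
      have hM0 : 0 ≤ ∑ u ∈ S.erase v, m u := Finset.sum_nonneg fun u hu => (hm u (hsub u hu)).1
      have hkey : (∑ u ∈ S.erase v, m u) * f v ≤ (∑ u ∈ S.erase v, f u) * m v := by
        rw [Finset.sum_mul, Finset.sum_mul]
        exact Finset.sum_le_sum fun u hu => key u (hsub u hu)
      have hrat : (∑ u ∈ S.erase v, m u) * ∑ u ∈ S, f u ≤
          (∑ u ∈ S.erase v, f u) * ∑ u ∈ S, m u := by
        rw [hmS, hfS]
        nlinarith
      rcases le_or_gt (∑ u ∈ S.erase v, m u) W with h2 | h2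
      · refine ⟨S.erase v, Finset.erase_subset _ _, h2, Or.inr ?_, hrat⟩
        have := (hm v hvS).2
        linarith
      · have hlt : (S.erase v).card < n := by rw [← hSn]; exact Finset.card_erase_lt_of_mem hvS
        obtain ⟨F, hF, a1, a2, a3⟩ := ih _ hlt (S.erase v) rfl (fun u hu => hm u (hsub u hu))
          (fun u hu => hf u (hsub u hu)) W hW
        have hFm : 0 ≤ ∑ u ∈ F, m u := Finset.sum_nonneg fun u hu => (hm u (hsub u (hF hu))).1
        have a2' : W - 2 < ∑ u ∈ F, m u := by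
          rcases a2 with a2 | a2
          · rw [a2] at a1; linarith
          · exact a2
        refine ⟨F, hF.trans (Finset.erase_subset _ _), a1, Or.inr a2', ?_⟩
        have hpos : 0 < ∑ u ∈ S.erase v, m u := by linarith
        have hS0 : 0 ≤ ∑ u ∈ S, m u := by rw [hmS]; linarith
        have b1 : (∑ u ∈ F, m u) * ((∑ u ∈ S.erase v, m u) * ∑ u ∈ S, f u) ≤
            (∑ u ∈ F, m u) * ((∑ u ∈ S.erase v, f u) * ∑ u ∈ S, m u) :=
          mul_le_mul_of_nonneg_left hrat hFm
        have b2 : ((∑ u ∈ F, m u) * ∑ u ∈ S.erase v, f u) * ∑ u ∈ S, m u ≤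
            ((∑ u ∈ F, f u) * ∑ u ∈ S.erase v, m u) * ∑ u ∈ S, m u :=
          mul_le_mul_of_nonneg_right a3 hS0
        refine le_of_mul_le_mul_left ?_ hpos
        calc (∑ u ∈ S.erase v, m u) * ((∑ u ∈ F, m u) * ∑ u ∈ S, f u)
            = (∑ u ∈ F, m u) * ((∑ u ∈ S.erase v, m u) * ∑ u ∈ S, f u) := by ring
          _ ≤ (∑ u ∈ F, m u) * ((∑ u ∈ S.erase v, f u) * ∑ u ∈ S, m u) := b1
          _ = ((∑ u ∈ F, m u) * ∑ u ∈ S.erase v, f u) * ∑ u ∈ S, m u := by ring
          _ ≤ ((∑ u ∈ F, f u) * ∑ u ∈ S.erase v, m u) * ∑ u ∈ S, m u := b2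
          _ = (∑ u ∈ S.erase v, m u) * ((∑ u ∈ F, f u) * ∑ u ∈ S, m u) := by ring

/-- no subset of cost at most `W` has gain at least `w` -/
theorem ratio_fail {α : Type*} [DecidableEq α] {f m : α → ℝ} {S : Finset α}
    (hm : ∀ v ∈ S, 0 ≤ m v ∧ m v ≤ 2) (hf : ∀ v ∈ S, m v = 0 → 0 ≤ f v) {W w : ℝ} (hW : 0 ≤ W)
    (hw : 0 < w) (hno : ∀ F ⊆ S, ∑ v ∈ F, m v ≤ W → ∑ v ∈ F, f v < w) :
    ∑ v ∈ S, f v < w ∨ (W - 2) * ∑ v ∈ S, f v ≤ w * ∑ v ∈ S, m v := by
  obtain ⟨F, hF, a1, a2, a3⟩ := exists_ratio f m S.card S rfl hm hf W hW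
  have h1 := hno F hF a1
  rcases a2 with a2 | a2
  · left; rw [← a2]; exact h1
  · have hS0 : 0 ≤ ∑ v ∈ S, m v := Finset.sum_nonneg fun v hv => (hm v hv).1
    rcases lt_or_ge (∑ v ∈ S, f v) w with h2 | h2
    · exact Or.inl h2
    · right
      have h3 : (W - 2) * ∑ v ∈ S, f v ≤ (∑ v ∈ F, m v) * ∑ v ∈ S, f v :=
        mul_le_mul_of_nonneg_right a2.le (by linarith)
      have h4 : (∑ v ∈ F, f v) * ∑ v ∈ S, m v ≤ w * ∑ v ∈ S, m v :=
        mul_le_mul_of_nonneg_right h1.le hS0
      linarith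

/-- a minimal set of large gain -/
theorem exists_minimal {α : Type*} [DecidableEq α] (f : α → ℝ) (w : ℝ) : ∀ (n : ℕ)
    (S : Finset α), S.card = n → w ≤ ∑ v ∈ S, f v →
    ∃ F ⊆ S, w ≤ ∑ v ∈ F, f v ∧ ∀ v ∈ F, ∑ u ∈ F.erase v, f u < w := by
  intro n
  induction n using Nat.strong_induction_on with
  | _ n ih =>
    intro S hSn hS
    by_cases hc : ∃ v ∈ S, w ≤ ∑ u ∈ S.erase v, f u
    · obtain ⟨v, hv, h1⟩ := hc
      have hlt : (S.erase v).card < n := by rw [← hSn]; exact Finset.card_erase_lt_of_mem hv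
      obtain ⟨F, hF, a1, a2⟩ := ih _ hlt (S.erase v) rfl h1
      exact ⟨F, hF.trans (Finset.erase_subset _ _), a1, a2⟩
    · push Not at hc
      exact ⟨S, Finset.Subset.refl _, hS, hc⟩

/-- the largest elements of a sorted list -/
theorem sorted_take {α : Type*} (f : α → ℤ) (l : List α) (hs : l.Pairwise fun a b => f b ≤ f a)
    (j : ℕ) (hj : j ≤ l.length) :
    (j : ℤ) * (l.map f).sum ≤ l.length * ((l.take j).map f).sum := by
  rcases hj.eq_or_lt with h1 | h1
  · rw [h1, List.take_length]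
  · have e : (l.map f).sum = ((l.take j).map f).sum + ((l.drop j).map f).sum := by
      rw [← List.sum_append, ← List.map_append, List.take_append_drop]
    set c : ℤ := f l[j] with hc
    have a1 : (j : ℤ) * c ≤ ((l.take j).map f).sum := by
      have h2 : ∀ x ∈ (l.take j).map f, c ≤ x := by
        intro x hx
        rw [List.mem_map] at hx
        obtain ⟨v, hv, rfl⟩ := hx
        obtain ⟨i, hi, rfl⟩ := List.getElem_of_mem hv
        rw [List.length_take] at hi
        rw [List.getElem_take]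
        exact List.pairwise_iff_getElem.1 hs i j (by omega) h1 (by omega)
      have h3 := List.card_nsmul_le_sum _ c h2
      rw [List.length_map, List.length_take, min_eq_left h1.le, nsmul_eq_mul] at h3
      exact h3
    have a2 : ((l.drop j).map f).sum ≤ (l.length - j : ℤ) * c := by
      have h2 : ∀ x ∈ (l.drop j).map f, x ≤ c := by
        intro x hx
        rw [List.mem_map] at hx
        obtain ⟨v, hv, rfl⟩ := hx
        obtain ⟨i, hi, rfl⟩ := List.getElem_of_mem hv
        rw [List.length_drop] at hi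
        rw [List.getElem_drop]
        rcases Nat.eq_zero_or_pos i with h3 | h3
        · subst h3
          simp only [Nat.add_zero]
          exact le_rfl
        · exact List.pairwise_iff_getElem.1 hs j (j + i) h1 (by omega) (by omega)
      have h3 := List.sum_le_card_nsmul _ c h2
      rw [List.length_map, List.length_drop, nsmul_eq_mul, Nat.cast_sub h1.le] at h3
      exact h3
    rw [e]
    have h4 : (0 : ℤ) ≤ j := Nat.cast_nonneg _
    have h5 : (0 : ℤ) ≤ l.length - j := by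
      have : (j : ℤ) ≤ l.length := by exact_mod_cast h1.le
      linarith
    nlinarith [mul_le_mul_of_nonneg_left a2 h4, mul_le_mul_of_nonneg_left a1 h5]

/-- the sum of a prefix of a sorted list -/
theorem sorted_take_ge {α : Type*} (f : α → ℤ) (l : List α)
    (hs : l.Pairwise fun a b => f b ≤ f a) (j : ℕ) (hj : j < l.length) :
    ((j : ℤ) + 1) * f l[j] ≤ ((l.take (j + 1)).map f).sum := by
  have h2 : ∀ x ∈ (l.take (j + 1)).map f, f l[j] ≤ x := by
    intro x hx
    rw [List.mem_map] at hx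
    obtain ⟨v, hv, rfl⟩ := hx
    obtain ⟨i, hi, rfl⟩ := List.getElem_of_mem hv
    rw [List.length_take] at hi
    rw [List.getElem_take]
    rcases Nat.lt_or_ge i j with h3 | h3
    · exact List.pairwise_iff_getElem.1 hs i j (by omega) hj h3
    · have : i = j := by omega
      subst this
      exact le_rfl
  have h3 := List.card_nsmul_le_sum _ (f l[j]) h2
  rw [List.length_map, List.length_take, min_eq_left (by omega), nsmul_eq_mul] at h3
  push_cast at h3
  exact h3

/-- a product of sums -/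
lemma cs_aux {x1 x2 y1 y2 c1 c2 : ℝ} (hx1 : 0 ≤ x1) (hx2 : 0 ≤ x2) (hy1 : 0 ≤ y1)
    (hy2 : 0 ≤ y2) (hc1 : 0 ≤ c1) (hc2 : 0 ≤ c2) (h1 : c1 ^ 2 ≤ x1 * x2)
    (h2 : c2 ^ 2 ≤ y1 * y2) : (c1 + c2) ^ 2 ≤ (x1 + y1) * (x2 + y2) := by
  have h3 : c1 * c2 ≤ (x1 * y2 + x2 * y1) / 2 := by
    have h4 : (c1 * c2) ^ 2 ≤ ((x1 * y2 + x2 * y1) / 2) ^ 2 := by
      have h5 : (c1 * c2) ^ 2 ≤ (x1 * x2) * (y1 * y2) := by
        rw [mul_pow]
        exact mul_le_mul h1 h2 (sq_nonneg _) (mul_nonneg hx1 hx2)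
      nlinarith [sq_nonneg (x1 * y2 - x2 * y1)]
    have h6 : 0 ≤ (x1 * y2 + x2 * y1) / 2 := by
      have := mul_nonneg hx1 hy2
      have := mul_nonneg hx2 hy1
      linarith
    exact (abs_le_of_sq_le_sq' h4 h6).2
  nlinarith

end Pool.Agent.Exact


end

section

/-!
# Arithmetic for the hubs of the first type
-/

set_option autoImplicit false

namespace Pool.Agent.Exact

/-- the loss for many hubs -/
lemma arith_loss {k n a : ℤ} {θ μ : ℝ} (k3 : 3 ≤ k)
    (hlam : (n : ℝ) + 1 ≤ 2 * θ) (hμ : θ - 2 < μ) (hs : μ ≤ (n : ℝ) - a)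
    (c6 : (k : ℝ) * ((n : ℝ) - a) + a * μ ≤ (2 * k - 1) * θ) (ha : k + 1 ≤ a) :
    ((a : ℝ) - k) * ((n : ℝ) - a - μ) ≤ 2 := by
  obtain ⟨c, hc⟩ : ∃ c : ℤ, a = k + c := ⟨a - k, by ring⟩
  subst hc
  have hc1 : 1 ≤ c := by linarith
  push_cast at *
  obtain ⟨s, hs'⟩ : ∃ s : ℝ, s = (n : ℝ) - (k + c) - μ := ⟨_, rfl⟩
  have hs0 : 0 ≤ s := by linarith
  have k3r : (3 : ℝ) ≤ k := by exact_mod_cast k3
  have e1 : μ = (n : ℝ) - (k + c) - s := by linarith
  have key : s * (k + c + 1) < 4 * k - 2 - (c + 1) * (k + c - 3) := by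
    rw [e1] at c6 hμ
    have hc1r : (1 : ℝ) ≤ c := by exact_mod_cast hc1
    have a1 : (2 * (k : ℝ) - 1) * θ < (2 * k - 1) * (n - (k + c) - s + 2) :=
      mul_lt_mul_of_pos_left (by linarith) (by linarith)
    have a2 : (k : ℝ) + c + 2 * s - 3 < n - (k + c) := by linarith
    have a3 := mul_lt_mul_of_pos_left a2 (by linarith : (0 : ℝ) < c + 1)
    linarith only [c6, a1, a3]
  rw [← hs', show (k : ℝ) + c - k = c by ring]
  rcases lt_trichotomy c 2 with h | h | h
  · have h1 : c = 1 := by omega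
    subst h1
    push_cast at key ⊢
    by_contra hc
    have hp := mul_pos (show (0 : ℝ) < k + 2 by linarith only [k3r])
      (show (0 : ℝ) < s - 2 by linarith only [hc])
    linarith only [hp, key]
  · subst h
    push_cast at key ⊢
    by_contra hc
    have hp := mul_pos (show (0 : ℝ) < k + 3 by linarith only [k3r])
      (show (0 : ℝ) < s - 1 by linarith only [hc])
    linarith only [hp, key]
  · exfalso
    have h3 : (3 : ℝ) ≤ c := by exact_mod_cast h
    have p1 := mul_nonneg (show (0 : ℝ) ≤ c - 3 by linarith only [h3])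
      (show (0 : ℝ) ≤ k + c - 3 by linarith only [h3, k3r])
    have p2 := mul_nonneg hs0 (show (0 : ℝ) ≤ k + c + 1 by linarith only [h3, k3r])
    linarith only [p1, p2, key, h3]

theorem arith_L1 {k n a ρ σ hl g nb : ℤ} {θ μ Sg q0 p0 A : ℝ} (k3 : 3 ≤ k)
    (hn : 2 * k - 1 ≤ n) (ha1 : 1 ≤ a) (haodd : a % 2 = 1)
    (hkn : (k : ℝ) * n ≤ (2 * k - 1) * θ) (hμ : θ - 2 < μ) (hS1 : a * μ ≤ Sg)
    (hq0 : q0 ≤ n - 1) (hp0 : p0 ≤ n - 1 - k) (hA : A + μ ≤ q0) (hA0 : 0 ≤ A)
    (c0 : 0 ≤ ρ) (c1 : 0 ≤ hl) (c2 : hl ≤ σ) (c3 : 2 * k * hl + σ ≤ n - a)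
    (c4 : ρ + σ = n - a) (c5 : Sg ≤ a * ((n : ℝ) - a) - k * (σ - hl))
    (c6 : (k : ℝ) * (n - a) + Sg ≤ (2 * k - 1) * θ) (c7 : ρ ≤ 2 * g)
    (c8 : 0 < ρ → 1 ≤ nb ∧ ρ ≤ g + nb ∧ (θ + g < μ ∨ 3 * θ - n + nb + 2 * g < A + μ ∨
      (nb = 1 ∧ 2 * θ + 2 * g < A + μ + p0))) : False := by
  have k3r : (3 : ℝ) ≤ k := by exact_mod_cast k3
  have hnr : 2 * (k : ℝ) - 1 ≤ n := by exact_mod_cast hn
  have ha1r : (1 : ℝ) ≤ a := by exact_mod_cast ha1
  have c1r : (0 : ℝ) ≤ hl := by exact_mod_cast c1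
  have c2r : (hl : ℝ) ≤ σ := by exact_mod_cast c2
  have c3r : 2 * (k : ℝ) * hl + σ ≤ n - a := by exact_mod_cast c3
  have c4r : (ρ : ℝ) + σ = n - a := by exact_mod_cast c4
  have c7r : (ρ : ℝ) ≤ 2 * g := by exact_mod_cast c7
  have hlam : (n : ℝ) + 1 ≤ 2 * θ := by
    by_contra hc
    have hp := mul_pos (show (0 : ℝ) < 2 * k - 1 by linarith only [k3r])
      (show (0 : ℝ) < n + 1 - 2 * θ by linarith only [hc])
    linarith only [hp, hkn, hnr]
  have hθ3 : 3 ≤ θ := by linarith only [hlam, hnr, k3r]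
  have hμ0 : μ ≤ (n : ℝ) - a := by
    have h1 : 0 ≤ (k : ℝ) * (σ - hl) :=
      mul_nonneg (by linarith only [k3r]) (by linarith only [c2r])
    by_contra hc
    have hp := mul_pos (show (0 : ℝ) < a by linarith only [ha1r])
      (show (0 : ℝ) < μ - (n - a) by linarith only [hc])
    linarith only [hp, h1, hS1, c5]
  have c6' : (k : ℝ) * ((n : ℝ) - a) + a * μ ≤ (2 * k - 1) * θ := by linarith only [c6, hS1]
  -- lower bound for `ρ`
  obtain ⟨δ, hδ0, hδ2, hδ, hR⟩ : ∃ δ : ℝ, 0 ≤ δ ∧ δ ≤ 2 ∧ (δ = 0 ∨ k + 1 ≤ a) ∧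
      (k : ℝ) * μ - k * hl - δ ≤ k * ρ := by
    rcases le_or_gt a k with h1 | h1
    · refine ⟨0, le_rfl, by norm_num, Or.inl rfl, ?_⟩
      have h1r : (a : ℝ) ≤ k := by exact_mod_cast h1
      have h2 : (k : ℝ) * ρ = k * (n - a) - k * σ := by rw [← c4r]; ring
      have hp := mul_nonneg (show (0 : ℝ) ≤ k - a by linarith only [h1r])
        (show (0 : ℝ) ≤ n - a - μ by linarith only [hμ0])
      linarith only [hp, h2, hS1, c5]
    · have h2 := arith_loss k3 hlam hμ hμ0 c6' h1
      have h1r : (k : ℝ) + 1 ≤ a := by exact_mod_cast h1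
      refine ⟨2, by norm_num, le_rfl, Or.inr h1, ?_⟩
      have h3 : (k : ℝ) * ρ = k * (n - a) - k * σ := by rw [← c4r]; ring
      linarith only [h2, h3, hS1, c5]
  have hρ : 0 < ρ := by
    by_contra hc
    have h0 : ρ = 0 := by omega
    rw [h0] at c4 hR
    have h1 : hl = 0 := by
      have h2 : 2 * k * hl ≤ 0 := by omega
      by_contra hne
      have h3 : 0 < hl := lt_of_le_of_ne c1 (Ne.symm hne)
      have h4 : 0 < 2 * k * hl := mul_pos (by linarith only [k3]) h3
      exact absurd h2 (not_le.2 h4)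
    rw [h1] at hR
    push_cast at hR
    have hp := mul_pos (show (0 : ℝ) < k by linarith only [k3r])
      (show (0 : ℝ) < μ - 1 by linarith only [hμ, hθ3])
    linarith only [hp, hR, hδ2, k3r]
  obtain ⟨hnb, hρg, hcase⟩ := c8 hρ
  have hnbr : (1 : ℝ) ≤ nb := by exact_mod_cast hnb
  have hρgr : (ρ : ℝ) ≤ g + nb := by exact_mod_cast hρg
  have hnl : (2 * (k : ℝ) + 1) * hl + a ≤ n := by linarith only [c2r, c3r]
  have hk0 : (0 : ℝ) < k := by linarith only [k3r]
  rcases hcase with h1 | h1 | ⟨h0, h1⟩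
  · -- item
    have h2 : (k : ℝ) * ρ ≤ k * (2 * μ - 2 * θ) :=
      mul_le_mul_of_nonneg_left (by linarith only [c7r, h1]) hk0.le
    have h3 : 2 * (k : ℝ) * θ ≤ k * (n - 1) + k * hl + δ := by
      have hp := mul_nonneg hk0.le (show (0 : ℝ) ≤ n - 1 - μ by linarith only [hA, hA0, hq0])
      linarith only [hp, h2, hR]
    have h4 : (hl : ℝ) + 1 ≤ 2 * θ - n + 1 := by
      by_contra hc
      have hp := mul_pos (show (0 : ℝ) < 2 * k - 1 by linarith only [k3r])
        (show (0 : ℝ) < n + hl - 2 * θ by linarith only [hc])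
      linarith only [hp, hkn, hnl, c1r, ha1r]
    have hp := mul_nonneg hk0.le (show (0 : ℝ) ≤ 2 * θ - n - hl by linarith only [h4])
    linarith only [hp, h3, hδ2, k3r]
  · -- total
    have h2 : 1.5 * (ρ : ℝ) < 2 * n - 1 - 3 * θ := by
      linarith only [h1, hA, hA0, hq0, c7r, hρgr]
    have h3 : 4.5 * (k : ℝ) * θ < 2 * k * n + 2 * k + 1.5 * k * hl + 1.5 * δ := by
      have p1 := mul_pos hk0 (show (0 : ℝ) < 2 * n - 1 - 3 * θ - 1.5 * ρ by linarith only [h2])
      have p2 := mul_pos hk0 (show (0 : ℝ) < μ - θ + 2 by linarith only [hμ])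
      linarith only [p1, p2, hR]
    have h6 : n * (0.5 * (k : ℝ) + 2) * k < (2 * k - 1) * (2 * k + 1.5 * k * hl + 3) := by
      have p0 : (0 : ℝ) < 2 * k - 1 := by linarith only [k3r]
      have p1 := mul_pos p0 (show (0 : ℝ) <
        2 * k * n + 2 * k + 1.5 * k * hl + 1.5 * δ - 4.5 * k * θ by linarith only [h3])
      have p2 := mul_nonneg hk0.le (show (0 : ℝ) ≤ (2 * k - 1) * θ - k * n by linarith only [hkn])
      have p3 := mul_nonneg p0.le (show (0 : ℝ) ≤ 2 - δ by linarith only [hδ2])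
      linarith only [p1, p2, p3]
    rcases eq_or_lt_of_le c1 with h4 | h4
    · rw [← h4] at h6
      push_cast at h6
      have p0 : (0 : ℝ) < 2 * k - 1 := by linarith only [k3r]
      have p4 := mul_nonneg (show (0 : ℝ) ≤ n - (2 * k - 1) by linarith only [hnr])
        (mul_nonneg (show (0 : ℝ) ≤ 0.5 * k + 2 by linarith only [k3r]) hk0.le)
      have p5 := mul_nonneg p0.le (mul_nonneg (show (0 : ℝ) ≤ k - 3 by linarith only [k3r])
        (show (0 : ℝ) ≤ k + 3 by linarith only [k3r]))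
      linarith only [h6, p4, p5, p0]
    · have h5 : (1 : ℝ) ≤ hl := by exact_mod_cast h4
      have h7 : ((2 * (k : ℝ) + 1) * hl + 1) * ((0.5 * (k : ℝ) + 2) * k) ≤
          n * ((0.5 * (k : ℝ) + 2) * k) := by
        refine mul_le_mul_of_nonneg_right (by linarith only [hnl, ha1r]) ?_
        positivity
      have h8 : ((k : ℝ) ^ 3 + 1.5 * k ^ 2 + 3.5 * k) * 1 ≤
          ((k : ℝ) ^ 3 + 1.5 * k ^ 2 + 3.5 * k) * hl := by
        refine mul_le_mul_of_nonneg_left h5 ?_
        positivity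
      linarith only [h6, h7, h8, mul_nonneg hk0.le (sq_nonneg ((k : ℝ) - 1)), hk0]
  · -- one block
    rw [h0] at hρgr
    push_cast at hρgr
    have h2 : 2 * (ρ : ℝ) < 2 * n - k - 2 * θ := by
      linarith only [h1, hA, hA0, hq0, hp0, hρgr, c7r]
    have h3 : 4 * (k : ℝ) * θ + k ^ 2 < 2 * k * n + 4 * k + 2 * k * hl + 2 * δ := by
      have p1 := mul_pos hk0 (show (0 : ℝ) < 2 * n - k - 2 * θ - 2 * ρ by linarith only [h2])
      have p2 := mul_pos hk0 (show (0 : ℝ) < μ - θ + 2 by linarith only [hμ])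
      linarith only [p1, p2, hR]
    have q0' : (0 : ℝ) < 2 * k - 1 := by linarith only [k3r]
    have h4 : 2 * (k : ℝ) * n < (2 * k - 1) * (4 * k - k ^ 2 + 2 * k * hl + 2 * δ) := by
      have p1 := mul_pos q0' (show (0 : ℝ) <
        2 * k * n + 4 * k + 2 * k * hl + 2 * δ - 4 * k * θ - k ^ 2 by linarith only [h3])
      have p2 := mul_nonneg hk0.le (show (0 : ℝ) ≤ (2 * k - 1) * θ - k * n by linarith only [hkn])
      linarith only [p1, p2]
    rcases hδ with h5 | h5
    · rw [h5] at h4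
      have h6 : 2 * (n : ℝ) < (2 * k - 1) * (4 - k + 2 * hl) := by
        by_contra hc
        have := mul_le_mul_of_nonneg_left (not_lt.1 hc) hk0.le
        linarith only [this, h4]
      have h7 : 2 * n < (2 * k - 1) * (4 - k + 2 * hl) := by exact_mod_cast h6
      rcases lt_or_ge k 4 with h8 | h8
      · have h9 : k = 3 := by omega
        subst h9
        omega
      · have hp := mul_nonneg (show (0 : ℤ) ≤ 2 * k - 1 by linarith only [k3])
          (show (0 : ℤ) ≤ k - 4 by linarith only [h8])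
        linarith only [hp, h7, c1, c2, c3, ha1]
    · have h6 : 2 * (k : ℝ) * n < (2 * k - 1) * (4 * k - k ^ 2 + 2 * k * hl + 4) := by
        have p3 := mul_nonneg q0'.le (show (0 : ℝ) ≤ 2 - δ by linarith only [hδ2])
        linarith only [p3, h4]
      have h7 : 2 * k * n < (2 * k - 1) * (4 * k - k ^ 2 + 2 * k * hl + 4) := by exact_mod_cast h6
      have h8 : μ ≤ (n : ℝ) - a := hμ0
      have h9 : a + 1 ≤ n := by
        have : (a : ℝ) < n := by linarith only [hμ0, hμ, hθ3]
        exact_mod_cast this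
      rcases lt_or_ge k 4 with h10 | h10
      · have h11 : k = 3 := by omega
        subst h11
        omega
      · have hk0' : (0 : ℤ) ≤ k := by linarith only [k3]
        have p1 := mul_nonneg hk0' c1
        have p2 := mul_nonneg (sq_nonneg k) (show (0 : ℤ) ≤ k - 4 by linarith only [h10])
        have p3 := mul_nonneg hk0' (show (0 : ℤ) ≤ k - 4 by linarith only [h10])
        have p4 := mul_nonneg hk0' (show (0 : ℤ) ≤ n - (2 * k + 1) * hl - a by
          linarith only [c2, c3])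
        have p5 := mul_nonneg hk0' (show (0 : ℤ) ≤ a - k - 1 by linarith only [h5])
        linarith only [p1, p2, p3, p4, p5, h7, h10]

end Pool.Agent.Exact


end
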