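import Mathlib
import Pool.Agent.EXAM.C04
import Pool.Agent.EXAM.C06

/-! Parts: Lib_helper68.Exact.Arcs, Lib_helper68.Exact.Comp, Lib_helper23.Exact.NCount, Lib_helper68.Exact.CntO, Lib_helper68.Exact.NumPo3, Lib_helper68.Exact.NumPo4 -/

section

/-!
# Counting arcs between classes
-/

set_option autoImplicit false
set_option linter.unusedSectionVars false

namespace Pool.Agent.Exact

open Finset

variable {V : Type*} [Fintype V] [DecidableEq V]
variable {B : V → V → ℤ} {Rl : Finset V}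

/-- the number of arcs from `X` to `Y` -/
def ar (B : V → V → ℤ) (X Y : Finset V) : ℤ := ∑ u ∈ X, ∑ v ∈ Y, B u v

lemma ar_nn (h0 : ∀ u v, 0 ≤ B u v) (X Y : Finset V) : 0 ≤ ar B X Y :=
  Finset.sum_nonneg fun u _ => Finset.sum_nonneg fun v _ => h0 u v

lemma ar_le (h1 : ∀ u v, B u v ≤ 1) (X Y : Finset V) : ar B X Y ≤ X.card * Y.card := by
  unfold ar
  calc ∑ u ∈ X, ∑ v ∈ Y, B u v ≤ ∑ _u ∈ X, (Y.card : ℤ) := by
        refine Finset.sum_le_sum fun u _ => ?_
        calc ∑ v ∈ Y, B u v ≤ ∑ _v ∈ Y, (1 : ℤ) := Finset.sum_le_sum fun v _ => h1 u v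
          _ = Y.card := by simp
    _ = X.card * Y.card := by simp

lemma ar_self (h1 : ∀ u v, B u v ≤ 1) (hB : ∀ v, B v v = 0) (X : Finset V) :
    ar B X X ≤ X.card * (X.card - 1) := by
  unfold ar
  calc ∑ u ∈ X, ∑ v ∈ X, B u v ≤ ∑ _u ∈ X, ((X.card : ℤ) - 1) := by
        refine Finset.sum_le_sum fun u hu => ?_
        rw [← Finset.add_sum_erase X _ hu, hB, zero_add]
        calc ∑ v ∈ X.erase u, B u v ≤ ∑ _v ∈ X.erase u, (1 : ℤ) :=
              Finset.sum_le_sum fun v _ => h1 u v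
          _ = (X.card : ℤ) - 1 := by
              rw [Finset.sum_const, Finset.card_erase_of_mem hu, nsmul_eq_mul, mul_one]
              have : 1 ≤ X.card := Finset.card_pos.2 ⟨u, hu⟩
              push_cast [Nat.cast_sub this]
              ring
    _ = X.card * (X.card - 1) := by rw [Finset.sum_const, nsmul_eq_mul]

lemma ar_Tr (X Y : Finset V) : ar (Tr B) X Y = ar B Y X := by
  unfold ar Tr
  exact Finset.sum_comm

lemma ar_unL {X X' : Finset V} (hd : Disjoint X X') (Y : Finset V) :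
    ar B (X ∪ X') Y = ar B X Y + ar B X' Y := by
  unfold ar
  exact Finset.sum_union hd

lemma ar_unR {Y Y' : Finset V} (hd : Disjoint Y Y') (X : Finset V) :
    ar B X (Y ∪ Y') = ar B X Y + ar B X Y' := by
  unfold ar
  rw [← Finset.sum_add_distrib]
  exact Finset.sum_congr rfl fun u _ => Finset.sum_union hd

lemma ar_monoL (h0 : ∀ u v, 0 ≤ B u v) {X X' : Finset V} (hX : X ⊆ X') (Y : Finset V) :
    ar B X Y ≤ ar B X' Y :=
  Finset.sum_le_sum_of_subset_of_nonneg hX fun u _ _ => Finset.sum_nonneg fun v _ => h0 u v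

lemma ar_monoR (h0 : ∀ u v, 0 ≤ B u v) {Y Y' : Finset V} (hY : Y ⊆ Y') (X : Finset V) :
    ar B X Y ≤ ar B X Y' :=
  Finset.sum_le_sum fun u _ => Finset.sum_le_sum_of_subset_of_nonneg hY fun v _ _ => h0 u v

lemma row_real (hdum : ∀ v, v ∉ Rl → ∀ u, B u v = 0 ∧ B v u = 0) (v : V) :
    ∑ u, B v u = ∑ u ∈ Rl, B v u :=
  (Finset.sum_subset (Finset.subset_univ _) fun u _ hu => (hdum u hu v).1).symm

lemma col_real (hdum : ∀ v, v ∉ Rl → ∀ u, B u v = 0 ∧ B v u = 0) (v : V) :
    ∑ u, B u v = ∑ u ∈ Rl, B u v :=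
  (Finset.sum_subset (Finset.subset_univ _) fun u _ hu => (hdum u hu v).2).symm

lemma sum_row (hdum : ∀ v, v ∉ Rl → ∀ u, B u v = 0 ∧ B v u = 0) (X : Finset V) :
    ∑ v ∈ X, ∑ u, B v u = ar B X Rl := by
  unfold ar
  exact Finset.sum_congr rfl fun v _ => row_real hdum v

lemma sum_col (hdum : ∀ v, v ∉ Rl → ∀ u, B u v = 0 ∧ B v u = 0) (X : Finset V) :
    ∑ v ∈ X, ∑ u, B u v = ar B Rl X := by
  unfold ar
  have h1 : ∑ u ∈ Rl, ∑ v ∈ X, B u v = ∑ v ∈ X, ∑ u ∈ Rl, B u v := Finset.sum_comm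
  rw [h1]
  exact Finset.sum_congr rfl fun v _ => col_real hdum v

lemma im_sum_ar (hdum : ∀ v, v ∉ Rl → ∀ u, B u v = 0 ∧ B v u = 0) (X : Finset V) :
    ∑ v ∈ X, im B v = ar B X Rl - ar B Rl X := by
  rw [← sum_row hdum, ← sum_col hdum, ← Finset.sum_sub_distrib]
  refine Finset.sum_congr rfl fun v _ => ?_
  unfold im
  rw [← Finset.sum_sub_distrib]

lemma mm_ar (hdum : ∀ v, v ∉ Rl → ∀ u, B u v = 0 ∧ B v u = 0) : mm B = ar B Rl Rl := by
  rw [mm_real hdum, sum_row hdum]

lemma ar_out {k : ℤ} (hdum : ∀ v, v ∉ Rl → ∀ u, B u v = 0 ∧ B v u = 0)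
    (hdeg : ∀ v ∈ Rl, k ≤ ∑ u, B v u) {X : Finset V} (hX : X ⊆ Rl) :
    k * X.card ≤ ar B X Rl := by
  rw [← sum_row hdum]
  calc k * (X.card : ℤ) = ∑ _v ∈ X, k := by rw [Finset.sum_const, nsmul_eq_mul]; ring
    _ ≤ _ := Finset.sum_le_sum fun v hv => hdeg v (hX hv)

/-- a partition of the real vertices -/
structure Par (Rl O I Rs S : Finset V) : Prop where
  un : O ∪ I ∪ (Rs ∪ S) = Rl
  d1 : Disjoint O I
  d2 : Disjoint (O ∪ I) (Rs ∪ S)
  d3 : Disjoint Rs S

section par
variable {O I Rs S : Finset V} (h : Par Rl O I Rs S)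
include h

lemma Par.row (X : Finset V) :
    ar B X Rl = ar B X O + ar B X I + ar B X Rs + ar B X S := by
  rw [← h.un, ar_unR h.d2, ar_unR h.d1, ar_unR h.d3]
  ring

lemma Par.col (Y : Finset V) :
    ar B Rl Y = ar B O Y + ar B I Y + ar B Rs Y + ar B S Y := by
  rw [← h.un, ar_unL h.d2, ar_unL h.d1, ar_unL h.d3]
  ring

lemma Par.card : (Rl.card : ℤ) = O.card + I.card + Rs.card + S.card := by
  rw [← h.un, Finset.card_union_of_disjoint h.d2, Finset.card_union_of_disjoint h.d1,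
    Finset.card_union_of_disjoint h.d3]
  push_cast
  ring

lemma Par.sO : O ⊆ Rl := by
  rw [← h.un]
  exact Finset.subset_union_left.trans Finset.subset_union_left

lemma Par.sI : I ⊆ Rl := by
  rw [← h.un]
  exact Finset.subset_union_right.trans Finset.subset_union_left

lemma Par.sR : Rs ⊆ Rl := by
  rw [← h.un]
  exact Finset.subset_union_left.trans Finset.subset_union_right

lemma Par.sS : S ⊆ Rl := by
  rw [← h.un]
  exact Finset.subset_union_right.trans Finset.subset_union_right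

/-- the number of all arcs -/
lemma Par.total (hdum : ∀ v, v ∉ Rl → ∀ u, B u v = 0 ∧ B v u = 0) :
    mm B = ar B O Rl + ar B I Rl + ar B Rs Rl + ar B S Rl := by
  rw [mm_ar hdum, h.col]

lemma Par.total' (hdum : ∀ v, v ∉ Rl → ∀ u, B u v = 0 ∧ B v u = 0) :
    mm B = ar B Rl O + ar B Rl I + ar B Rl Rs + ar B Rl S := by
  rw [mm_ar hdum, h.row]

end par

/-- the indegree inside `K` -/
def indg (B : V → V → ℤ) (K : Finset V) (v : V) : ℤ := ∑ u ∈ K, B u v

/-- a choice of a vertex of smallest indegree inside `K` -/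
lemma exists_pick [Nonempty V] (B : V → V → ℤ) : ∃ pick : Finset V → V,
    ∀ K : Finset V, K.Nonempty → pick K ∈ K ∧ ∀ u ∈ K, indg B K (pick K) ≤ indg B K u := by
  classical
  have h : ∀ K : Finset V, ∃ v : V, K.Nonempty → v ∈ K ∧ ∀ u ∈ K, indg B K v ≤ indg B K u := by
    intro K
    rcases K.eq_empty_or_nonempty with h | h
    · exact ⟨Classical.arbitrary V, fun h' => absurd h (Finset.nonempty_iff_ne_empty.1 h')⟩
    · obtain ⟨v, hv, h1⟩ := Finset.exists_min_image K (indg B K) h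
      exact ⟨v, fun _ => ⟨hv, h1⟩⟩
  exact ⟨fun K => (h K).choose, fun K hK => (h K).choose_spec hK⟩

/-- the smallest indegree in a bad component -/
lemma ind_le (hB : ∀ v, B v v = 0) {K : Finset V} {v : V} (hv : v ∈ K)
    (hmin : ∀ u ∈ K, indg B K v ≤ indg B K u) (hs : ∀ u ∈ K, ∀ v ∈ K, MM B u v ≤ 1) :
    2 * indg B K v ≤ K.card - 1 := by
  have h1 : (K.card : ℤ) * indg B K v ≤ EE B K := by
    unfold EE
    rw [Finset.sum_comm]
    calc (K.card : ℤ) * indg B K v = ∑ _u ∈ K, indg B K v := by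
          rw [Finset.sum_const, nsmul_eq_mul]
      _ ≤ ∑ u ∈ K, indg B K u := Finset.sum_le_sum fun u hu => hmin u hu
  have h2 := EE_le_of_simple hB hs
  have h3 : (0 : ℤ) < K.card := by exact_mod_cast Finset.card_pos.2 ⟨v, hv⟩
  have h4 : (K.card : ℤ) * (2 * indg B K v) ≤ K.card * (K.card - 1) := by linarith
  exact le_of_mul_le_mul_left h4 h3

lemma ClosedIn.zero (h0 : ∀ u v, 0 ≤ B u v) {R K : Finset V} (hK : ClosedIn B R K) {u v : V}
    (hu : u ∈ K) (hv : v ∈ R) (hv' : v ∉ K) : B u v = 0 ∧ B v u = 0 := by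
  have h1 := hK.2 u hu v (Finset.mem_sdiff.2 ⟨hv, hv'⟩)
  unfold MM at h1
  have h2 := h0 u v
  have h3 := h0 v u
  constructor <;> omega

section dec
variable {R Rs S : Finset V} {g : ℤ} {Kc : V → Finset V} {pick : Finset V → V}

/-- arcs inside `S` -/
lemma Dec.SS (hd : Dec B pick R Rs S g Kc) (h0 : ∀ u v, 0 ≤ B u v) : ar B S S = 0 := by
  unfold ar
  refine Finset.sum_eq_zero fun u hu => Finset.sum_eq_zero fun v hv => ?_
  have h1 := hd.ind u hu v hv
  unfold MM at h1
  have h2 := h0 u v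
  have h3 := h0 v u
  omega

/-- the sizes of the bad components -/
lemma Dec.sizes (hd : Dec B pick R Rs S g Kc) :
    ∑ v ∈ S, ((Kc v).card - 1 : ℤ) ≤ Rs.card := by
  classical
  have h1 : ∑ v ∈ S, ((Kc v).card - 1 : ℤ) = ∑ v ∈ S, (((Kc v).erase v).card : ℤ) := by
    refine Finset.sum_congr rfl fun v hv => ?_
    have h2 := (hd.bad v hv).2.1
    rw [Finset.card_erase_of_mem h2]
    have : 1 ≤ (Kc v).card := Finset.card_pos.2 ⟨v, h2⟩
    push_cast [Nat.cast_sub this]
    ring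
  rw [h1]
  have h2 : (∑ v ∈ S, ((Kc v).erase v).card) = (S.biUnion fun v => (Kc v).erase v).card := by
    rw [Finset.card_biUnion]
    intro u hu v hv huv
    exact Finset.disjoint_of_subset_left (Finset.erase_subset _ _)
      (Finset.disjoint_of_subset_right (Finset.erase_subset _ _) (hd.kd u hu v hv huv))
  have h3 : (S.biUnion fun v => (Kc v).erase v).card ≤ Rs.card := by
    refine Finset.card_le_card fun x hx => ?_
    rw [Finset.mem_biUnion] at hx
    obtain ⟨v, hv, hx⟩ := hx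
    exact (hd.bad v hv).2.2.2 hx
  exact_mod_cast (by rw [h2]; exact h3 : (∑ v ∈ S, ((Kc v).erase v).card) ≤ Rs.card)

/-- the indegree of a vertex of `S` inside `R` -/
lemma Dec.colS (hd : Dec B pick R Rs S g Kc) (h0 : ∀ u v, 0 ≤ B u v) (hB : ∀ v, B v v = 0)
    {v : V} (hv : v ∈ S) : ∑ u ∈ Rs, B u v = indg B (Kc v) v := by
  classical
  have hK := (hd.bad v hv).1.cl
  have hvK := (hd.bad v hv).2.1
  have hsub := (hd.bad v hv).2.2.2
  unfold indg
  rw [← Finset.add_sum_erase (Kc v) _ hvK, hB, zero_add]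
  refine (Finset.sum_subset hsub ?_).symm
  intro u hu hu'
  have huR : u ∈ R := by
    rw [← hd.un]
    exact Finset.mem_union_left _ hu
  have huv : u ≠ v := by
    rintro rfl
    exact Finset.disjoint_left.1 hd.dj hu hv
  have huK : u ∉ Kc v := fun h' => hu' (Finset.mem_erase.2 ⟨huv, h'⟩)
  exact (hK.zero h0 hvK huR huK).2

/-- arcs from `Rs` to `S` -/
lemma Dec.RS (hd : Dec B pick R Rs S g Kc) (h0 : ∀ u v, 0 ≤ B u v) (hB : ∀ v, B v v = 0)
    (hpick : ∀ K : Finset V, K.Nonempty → pick K ∈ K ∧ ∀ u ∈ K, indg B K (pick K) ≤ indg B K u) :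
    2 * ar B Rs S ≤ Rs.card := by
  classical
  have h1 : ar B Rs S = ∑ v ∈ S, indg B (Kc v) v := by
    unfold ar
    rw [Finset.sum_comm]
    exact Finset.sum_congr rfl fun v hv => hd.colS h0 hB hv
  rw [h1, Finset.mul_sum]
  refine le_trans (Finset.sum_le_sum fun v hv => ?_) hd.sizes
  have hne : (Kc v).Nonempty := ⟨v, (hd.bad v hv).2.1⟩
  have e := (hd.bad v hv).2.2.1
  refine ind_le hB (hd.bad v hv).2.1 ?_ (hd.bad v hv).1.simple
  intro u hu
  have h5 := (hpick (Kc v) hne).2 u hu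
  rwa [← e] at h5

end dec

end Pool.Agent.Exact


end

section

/-!
# Arcs from bad components
-/

set_option autoImplicit false
set_option linter.unusedSectionVars false

namespace Pool.Agent.Exact

open Finset

variable {V : Type*} [Fintype V] [DecidableEq V]
variable {B : V → V → ℤ} {Rl : Finset V}
variable {R Rs S : Finset V} {g : ℤ} {Kc : V → Finset V} {pick : Finset V → V}

/-- an arc from a bad component stays in the component or leaves `R` -/
lemma Dec.rowK (hd : Dec B pick R Rs S g Kc) (h0 : ∀ u v, 0 ≤ B u v)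
    (hdum : ∀ v, v ∉ Rl → ∀ u, B u v = 0 ∧ B v u = 0) {W : Finset V} (hW : W ∪ R = Rl)
    (hdj : Disjoint W R) {v : V} (hv : v ∈ S) {u : V} (hu : u ∈ Kc v) :
    ∑ w, B u w = ∑ w ∈ W, B u w + ∑ w ∈ Kc v, B u w := by
  classical
  have hK := (hd.bad v hv).1.cl
  have hKR := hK.1
  rw [row_real hdum, ← hW, Finset.sum_union hdj]
  congr 1
  refine (Finset.sum_subset hKR ?_).symm
  intro w hw hw'
  exact (hK.zero h0 hu hw hw').1

/-- **Arcs from a bad component to a set of vertices.** -/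
lemma Dec.outK (hd : Dec B pick R Rs S g Kc) (h0 : ∀ u v, 0 ≤ B u v) (h1 : ∀ u v, B u v ≤ 1)
    (hB : ∀ v, B v v = 0) (hdum : ∀ v, v ∉ Rl → ∀ u, B u v = 0 ∧ B v u = 0) {k : ℤ}
    (hdeg : ∀ v ∈ Rl, k ≤ ∑ u, B v u) {O I : Finset V} (hOI : Disjoint O I)
    (hW : (O ∪ I) ∪ R = Rl) (hdj : Disjoint (O ∪ I) R) (hk : (I.card : ℤ) ≤ k) {v : V}
    (hv : v ∈ S) :
    2 * (k - I.card) ≤ 2 * ar B (Kc v) O + ((Kc v).card - 1) := by
  classical
  have hKR := (hd.bad v hv).1.cl.1
  have hsimple := (hd.bad v hv).1.simple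
  have e3 := EE_le_of_simple hB hsimple
  have hn1 : (1 : ℤ) ≤ (Kc v).card := by
    exact_mod_cast Finset.card_pos.2 ⟨v, (hd.bad v hv).2.1⟩
  have e0 : 0 ≤ ar B (Kc v) O := ar_nn h0 _ _
  have e1 : k * (Kc v).card ≤ ar B (Kc v) O + ar B (Kc v) I + EE B (Kc v) := by
    have h2 : ∑ _u ∈ Kc v, k ≤ ∑ u ∈ Kc v, ∑ w, B u w := by
      refine Finset.sum_le_sum fun u hu => hdeg u ?_
      rw [← hW]
      exact Finset.mem_union_right _ (hKR hu)
    rw [Finset.sum_const, nsmul_eq_mul,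
      Finset.sum_congr rfl fun u hu => hd.rowK h0 hdum hW hdj hv hu,
      Finset.sum_add_distrib] at h2
    have h3 : ∑ u ∈ Kc v, ∑ w ∈ O ∪ I, B u w = ar B (Kc v) O + ar B (Kc v) I := by
      rw [← ar_unR hOI]
      rfl
    rw [h3] at h2
    unfold EE
    linarith
  have e2 : ar B (Kc v) I ≤ (Kc v).card * I.card := ar_le h1 _ _
  set n : ℤ := ((Kc v).card : ℤ) with hn
  set j : ℤ := k - I.card with hj
  have hj0 : 0 ≤ j := by linarith
  have e4 : 2 * (n * j) ≤ 2 * ar B (Kc v) O + n * (n - 1) := by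
    have : n * j = k * n - n * I.card := by rw [hj]; ring
    rw [this]
    linarith
  rcases le_or_gt n (2 * j) with h5 | h5
  · nlinarith [mul_nonneg (by linarith : (0 : ℤ) ≤ n - 1) (by linarith : (0 : ℤ) ≤ 2 * j - n)]
  · linarith

/-- **Arcs from `R` to a set of vertices.** -/
lemma Dec.outR (hd : Dec B pick R Rs S g Kc) (h0 : ∀ u v, 0 ≤ B u v) (h1 : ∀ u v, B u v ≤ 1)
    (hB : ∀ v, B v v = 0) (hdum : ∀ v, v ∉ Rl → ∀ u, B u v = 0 ∧ B v u = 0) {k : ℤ}
    (hdeg : ∀ v ∈ Rl, k ≤ ∑ u, B v u) {O I : Finset V} (hOI : Disjoint O I)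
    (hW : (O ∪ I) ∪ R = Rl) (hdj : Disjoint (O ∪ I) R) (hk : (I.card : ℤ) ≤ k) :
    2 * ((k - I.card) * S.card) ≤ 2 * ar B R O + Rs.card := by
  classical
  have h2 : ∑ v ∈ S, 2 * (k - (I.card : ℤ)) ≤
      ∑ v ∈ S, (2 * ar B (Kc v) O + ((Kc v).card - 1)) :=
    Finset.sum_le_sum fun v hv => hd.outK h0 h1 hB hdum hdeg hOI hW hdj hk hv
  rw [Finset.sum_const, nsmul_eq_mul, Finset.sum_add_distrib, ← Finset.mul_sum] at h2
  have h3 := hd.sizes
  have h4 : ∑ v ∈ S, ar B (Kc v) O ≤ ar B R O := by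
    have hpd : (S : Set V).PairwiseDisjoint Kc := fun u hu v hv huv => hd.kd u hu v hv huv
    have : ∑ v ∈ S, ar B (Kc v) O = ar B (S.biUnion Kc) O := by
      unfold ar
      rw [Finset.sum_biUnion hpd]
    rw [this]
    refine ar_monoL h0 ?_ _
    intro x hx
    rw [Finset.mem_biUnion] at hx
    obtain ⟨v, hv, hx⟩ := hx
    exact (hd.bad v hv).1.cl.1 hx
  linarith

lemma BlocksN.tr {N S : Finset V} {g : ℤ} (h : BlocksN B N S g) : BlocksN (Tr B) N S g := by
  induction h with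
  | empty => exact BlocksN.empty
  | star S g c L hS hcS hcL hLS hL h1 h2 h3 ih =>
    have e : ∑ l ∈ L, MM B c l = ∑ l ∈ L, MM (Tr B) c l :=
      Finset.sum_congr rfl fun l _ => by rw [MM_Tr]
    rw [e]
    refine BlocksN.star S g c L ih hcS hcL hLS hL ?_ ?_ ?_
    · intro l hl; rw [MM_Tr]; exact h1 l hl
    · intro l hl l' hl'; rw [MM_Tr]; exact h2 l hl l' hl'
    · intro z hz
      rw [MM_Tr, h3 z hz]
      exact Finset.sum_congr rfl fun l _ => by rw [MM_Tr]
  | hole S g u v w hS hu hv hw huv huw hvw h1 h2 ih =>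
    rw [← MM_Tr (B := B) u v]
    refine BlocksN.hole S g u v w ih hu hv hw huv huw hvw ?_ ?_
    · rw [MM_Tr]; exact h1
    · intro z hz
      rw [MM_Tr, MM_Tr, MM_Tr]
      exact h2 z hz

/-- the decomposition for the transposed digraph -/
lemma Dec.swap (hd : Dec B pick R Rs S g Kc) : Dec (Tr B) pick R Rs S g Kc := by
  have hA : Adj (Tr B) = Adj B := by
    funext u v
    unfold Adj
    rw [MM_Tr]
  refine ⟨hd.un, hd.dj, hd.cg, hd.g0, ?_, ?_, hd.kd, hd.bl.tr⟩
  · intro u hu v hv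
    rw [MM_Tr]
    exact hd.ind u hu v hv
  · intro v hv
    obtain ⟨hb, h2, h3, h4⟩ := hd.bad v hv
    refine ⟨⟨⟨hb.cl.1, fun u hu w hw => ?_⟩, ?_, ?_, ?_, ?_⟩, h2, h3, h4⟩
    · rw [MM_Tr]; exact hb.cl.2 u hu w hw
    · rw [hA]; exact hb.conn
    · rw [hA]; exact hb.ns
    · rw [hA]; exact hb.pm
    · intro u hu w hw
      rw [MM_Tr]; exact hb.simple u hu w hw

end Pool.Agent.Exact


end

section

/-!
# Counting arcs between hubs and bad components
-/

set_option autoImplicit false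
set_option linter.unusedSectionVars false

namespace Pool.Agent.Exact

open Finset

section count

variable {V : Type*} [Fintype V] [DecidableEq V] {B : V → V → ℤ} {Rl : Finset V}

/-- the number of arcs leaving a vertex -/
lemma outdeg_le (h1 : ∀ u v, B u v ≤ 1) (hB : ∀ v, B v v = 0)
    (hdum : ∀ v, v ∉ Rl → ∀ u, B u v = 0 ∧ B v u = 0) {v : V} (hv : v ∈ Rl) :
    ∑ u, B v u ≤ (Rl.card : ℤ) - 1 := by
  have e : ∑ u, B v u = ∑ u ∈ Rl.erase v, B v u := by
    refine (Finset.sum_subset (Finset.subset_univ _) ?_).symm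
    intro u _ hu
    by_cases huv : u = v
    · rw [huv, hB]
    · have hur : u ∉ Rl := fun h' => hu (Finset.mem_erase.2 ⟨huv, h'⟩)
      exact (hdum u hur v).1
  rw [e]
  have h2 : ∑ u ∈ Rl.erase v, B v u ≤ ∑ _u ∈ Rl.erase v, (1 : ℤ) :=
    Finset.sum_le_sum fun u _ => h1 v u
  rw [Finset.sum_const, nsmul_eq_mul, mul_one, Finset.card_erase_of_mem hv] at h2
  have : 1 ≤ Rl.card := Finset.card_pos.2 ⟨v, hv⟩
  rw [Nat.cast_sub this] at h2
  simpa using h2

/-- the arcs leaving a bad component -/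
lemma Bad.arcs (h0 : ∀ u v, 0 ≤ B u v) (hB : ∀ v, B v v = 0)
    (hdum : ∀ v, v ∉ Rl → ∀ u, B u v = 0 ∧ B v u = 0) {k : ℤ} (hk : 1 ≤ k)
    (hdeg : ∀ v ∈ Rl, k ≤ ∑ u, B v u) {W R K : Finset V} (hU : W ∪ R = Rl)
    (hWR : Disjoint W R) (hb : Bad B R K) (hne : K.Nonempty) :
    k ≤ ∑ u ∈ K, ∑ w ∈ W, B u w ∨ 2 * k + 1 ≤ (K.card : ℤ) := by
  rcases lt_or_ge (K.card : ℤ) (2 * k + 1) with hc | hc
  · left
    have hKR := hb.cl.1
    have e1 : ∀ u ∈ K, ∑ w, B u w = ∑ w ∈ K, B u w + ∑ w ∈ W, B u w := by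
      intro u hu
      have hd : Disjoint K W := (Finset.disjoint_of_subset_right hKR hWR).symm
      rw [← Finset.sum_union hd]
      refine (Finset.sum_subset (Finset.subset_univ _) ?_).symm
      intro w _ hw
      rw [Finset.mem_union, not_or] at hw
      by_cases hwR : w ∈ R
      · have := hb.cl.2 u hu w (Finset.mem_sdiff.2 ⟨hwR, hw.1⟩)
        unfold MM at this
        have a1 := h0 u w
        have a2 := h0 w u
        omega
      · have hwr : w ∉ Rl := by
          rw [← hU, Finset.mem_union, not_or]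
          exact ⟨hw.2, hwR⟩
        exact (hdum w hwr u).1
    have e2 : k * K.card ≤ EE B K + ∑ u ∈ K, ∑ w ∈ W, B u w := by
      have h2 : ∑ _u ∈ K, k ≤ ∑ u ∈ K, ∑ w, B u w := by
        refine Finset.sum_le_sum fun u hu => hdeg u ?_
        rw [← hU]
        exact Finset.mem_union_right _ (hKR hu)
      rw [Finset.sum_const, nsmul_eq_mul, Finset.sum_congr rfl e1, Finset.sum_add_distrib] at h2
      unfold EE
      linarith
    have e3 := EE_le_of_simple hB hb.simple
    have hc1 : (1 : ℤ) ≤ K.card := by exact_mod_cast Finset.card_pos.2 hne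
    nlinarith
  · exact Or.inr hc

/-- **Counting for the bad components**, minimum outdegree at least `k` -/
theorem nc_count (h0 : ∀ u v, 0 ≤ B u v) (h1 : ∀ u v, B u v ≤ 1) (hB : ∀ v, B v v = 0)
    (hdum : ∀ v, v ∉ Rl → ∀ u, B u v = 0 ∧ B v u = 0) {k : ℤ} (hk : 1 ≤ k)
    (hdeg : ∀ v ∈ Rl, k ≤ ∑ u, B v u) {W R : Finset V} (hU : W ∪ R = Rl)
    (hWR : Disjoint W R) {S : Finset V} {Kc : V → Finset V}
    (hb : ∀ v ∈ S, Bad B R (Kc v) ∧ v ∈ Kc v)
    (hd : ∀ u ∈ S, ∀ v ∈ S, u ≠ v → Disjoint (Kc u) (Kc v)) :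
    ∃ hl : ℤ, 0 ≤ hl ∧ hl ≤ S.card ∧ 2 * k * hl + S.card ≤ R.card ∧
      ∑ w ∈ W, im B w ≤ W.card * R.card - k * (S.card - hl) := by
  classical
  set big : V → Prop := fun v => 2 * k + 1 ≤ ((Kc v).card : ℤ) with hbig
  have hpd : (S : Set V).PairwiseDisjoint Kc := fun u hu v hv huv => hd u hu v hv huv
  have hsub : S.biUnion Kc ⊆ R := by
    intro x hx
    rw [Finset.mem_biUnion] at hx
    obtain ⟨v, hv, hx⟩ := hx
    exact (hb v hv).1.cl.1 hx
  have hf : ∀ c : ℤ, ∑ v ∈ S, (if big v then c else 0) = c * (S.filter big).card := by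
    intro c
    rw [← Finset.sum_filter, Finset.sum_const, nsmul_eq_mul, mul_comm]
  refine ⟨(S.filter big).card, Nat.cast_nonneg _, ?_, ?_, ?_⟩
  · exact_mod_cast Finset.card_filter_le _ _
  · have h2 : ((S.biUnion Kc).card : ℤ) = ∑ v ∈ S, ((Kc v).card : ℤ) := by
      rw [Finset.card_biUnion hpd]
      push_cast
      rfl
    have h3 : ((S.biUnion Kc).card : ℤ) ≤ R.card := by exact_mod_cast Finset.card_le_card hsub
    have h4 : ∑ v ∈ S, ((if big v then 2 * k else 0) + 1) ≤ ∑ v ∈ S, ((Kc v).card : ℤ) := by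
      refine Finset.sum_le_sum fun v hv => ?_
      split_ifs with h5
      · exact h5
      · have : 0 < (Kc v).card := Finset.card_pos.2 ⟨v, (hb v hv).2⟩
        have : (1 : ℤ) ≤ (Kc v).card := by exact_mod_cast this
        linarith
    rw [Finset.sum_add_distrib, hf, Finset.sum_const, nsmul_eq_mul, mul_one] at h4
    linarith
  · have e1 : ∑ w ∈ W, im B w = ∑ w ∈ W, ∑ u ∈ R, (B w u - B u w) := by
      rw [sum_im]
      refine Finset.sum_congr rfl fun w _ => ?_
      refine (Finset.sum_subset ?_ ?_).symm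
      · intro u hu
        rw [Finset.mem_compl]
        exact Finset.disjoint_right.1 hWR hu
      · intro u hu hu'
        rw [Finset.mem_compl] at hu
        have hur : u ∉ Rl := by
          rw [← hU, Finset.mem_union, not_or]
          exact ⟨hu, hu'⟩
        rw [(hdum u hur w).1, (hdum u hur w).2, sub_self]
    have e2 : ∑ w ∈ W, ∑ u ∈ R, (B w u - B u w) ≤
        W.card * R.card - ∑ w ∈ W, ∑ u ∈ R, B u w := by
      have : ∑ w ∈ W, ∑ u ∈ R, (B w u - B u w) ≤ ∑ w ∈ W, ∑ u ∈ R, ((1 : ℤ) - B u w) :=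
        Finset.sum_le_sum fun w _ => Finset.sum_le_sum fun u _ => by linarith [h1 w u]
      refine this.trans (le_of_eq ?_)
      simp only [Finset.sum_sub_distrib, Finset.sum_const, nsmul_eq_mul, mul_one]
    have e3 : ∑ w ∈ W, ∑ u ∈ R, B u w = ∑ u ∈ R, ∑ w ∈ W, B u w := Finset.sum_comm
    have e4 : ∑ v ∈ S, ∑ u ∈ Kc v, ∑ w ∈ W, B u w ≤ ∑ u ∈ R, ∑ w ∈ W, B u w := by
      rw [← Finset.sum_biUnion hpd]
      exact Finset.sum_le_sum_of_subset_of_nonneg hsub fun u _ _ =>
        Finset.sum_nonneg fun w _ => h0 u w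
    have e5 : ∑ v ∈ S, (k - if big v then k else 0) ≤ ∑ v ∈ S, ∑ u ∈ Kc v, ∑ w ∈ W, B u w := by
      refine Finset.sum_le_sum fun v hv => ?_
      have hnn : 0 ≤ ∑ u ∈ Kc v, ∑ w ∈ W, B u w :=
        Finset.sum_nonneg fun u _ => Finset.sum_nonneg fun w _ => h0 u w
      split_ifs with h5
      · linarith
      · rcases (hb v hv).1.arcs h0 hB hdum hk hdeg hU hWR ⟨v, (hb v hv).2⟩ with h6 | h6
        · linarith
        · exact absurd h6 h5
    rw [Finset.sum_sub_distrib, hf, Finset.sum_const, nsmul_eq_mul] at e5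
    have e6 : k * (S.card - ((S.filter big).card : ℤ)) = S.card * k - k * (S.filter big).card := by
      ring
    rw [e1, e6]
    linarith

end count

variable {V : Type*} [Fintype V] [DecidableEq V]
variable {B : V → V → ℤ} {Rl : Finset V} {ℓ nQ nP : ℕ} {uq up : ℕ → V} {q p : ℕ → ℝ}
variable {k : ℤ} {θ : ℝ}

lemma Frame.iqf (h : Frame B Rl ℓ nQ nP uq up q p) {a : ℕ} (ha : a ≤ nQ) :
    iq 0 a ⊆ full ℓ := by
  have := h.nQle
  (intro x hx; revert hx; rcases x with x | x <;>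
    simp only [Finset.mem_union, Finset.mem_insert, Finset.mem_singleton, inl_mem_full,
      inr_mem_full, inl_mem_iq, inr_mem_iq, inl_mem_ip, inr_mem_ip, Sum.inl.injEq, Sum.inr.injEq,
      reduceCtorEq, Finset.notMem_empty, or_false, false_or, false_imp_iff, imp_false,
      implies_true, not_false_eq_true, iff_false, false_iff] <;> omega)

/-- the sum of the imbalances of hubs -/
lemma Frame.sum_hub (h : Frame B Rl ℓ nQ nP uq up q p) {a : ℕ} (ha : a ≤ nQ) :
    (((∑ v ∈ vs uq up (iq 0 a), im B v : ℤ)) : ℝ) = ∑ j ∈ range a, q j := by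
  have hQ := h.nQle
  have e1 : vs uq up (iq 0 a) = (range a).image uq := by
    unfold vs
    rw [image_iq]
    unfold sg
    rw [Nat.Ico_zero_eq_range]
  rw [e1, Finset.sum_image (fun i hi j hj e => h.sys.chQ.inj i (by
    have := Finset.mem_range.1 hi; omega) j (by have := Finset.mem_range.1 hj; omega) e)]
  push_cast
  refine Finset.sum_congr rfl fun j hj => ?_
  have := Finset.mem_range.1 hj
  exact h.sys.wtQ j (by omega)

lemma Frame.card_hub (h : Frame B Rl ℓ nQ nP uq up q p) {a : ℕ} (ha : a ≤ nQ) :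
    (vs uq up (iq 0 a)).card = a := by
  have hQ := h.nQle
  have e1 : vs uq up (iq 0 a) = (range a).image uq := by
    unfold vs
    rw [image_iq]
    unfold sg
    rw [Nat.Ico_zero_eq_range]
  rw [e1, Finset.card_image_of_injOn (fun i hi j hj e => h.sys.chQ.inj i (by
    have := Finset.mem_range.1 hi; omega) j (by have := Finset.mem_range.1 hj; omega) e),
    Finset.card_range]

lemma Frame.hub_un (h : Frame B Rl ℓ nQ nP uq up q p) {a : ℕ} (ha : a ≤ nQ) :
    vs uq up (iq 0 a) ∪ vs uq up (rr nQ nP a 0) = Rl := by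
  rw [← h.real]
  unfold vs
  rw [← Finset.image_union]
  congr 1
  unfold rr
  (ext x; rcases x with x | x <;>
    simp only [Finset.mem_union, Finset.mem_insert, Finset.mem_singleton, inl_mem_full,
      inr_mem_full, inl_mem_iq, inr_mem_iq, inl_mem_ip, inr_mem_ip, Sum.inl.injEq, Sum.inr.injEq,
      reduceCtorEq, Finset.notMem_empty, or_false, false_or, false_imp_iff, imp_false,
      implies_true, not_false_eq_true, iff_false, false_iff] <;> omega)

lemma Frame.hub_dj (h : Frame B Rl ℓ nQ nP uq up q p) {a : ℕ} (ha : a ≤ nQ) :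
    Disjoint (vs uq up (iq 0 a)) (vs uq up (rr nQ nP a 0)) := by
  have hQ := h.nQle
  have hP := h.nPle
  refine h.disj (h.iqf ha) (by unfold rr; (intro x hx; revert hx; rcases x with x | x <;>
    simp only [Finset.mem_union, Finset.mem_insert, Finset.mem_singleton, inl_mem_full,
      inr_mem_full, inl_mem_iq, inr_mem_iq, inl_mem_ip, inr_mem_ip, Sum.inl.injEq, Sum.inr.injEq,
      reduceCtorEq, Finset.notMem_empty, or_false, false_or, false_imp_iff, imp_false,
      implies_true, not_false_eq_true, iff_false, false_iff] <;> omega)) ?_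
  unfold rr
  (rw [Finset.disjoint_left]; intro x hx hx'; revert hx hx'; rcases x with x | x <;>
    simp only [Finset.mem_union, Finset.mem_insert, Finset.mem_singleton, inl_mem_full,
      inr_mem_full, inl_mem_iq, inr_mem_iq, inl_mem_ip, inr_mem_ip, Sum.inl.injEq, Sum.inr.injEq,
      reduceCtorEq, Finset.notMem_empty, or_false, false_or, false_imp_iff, imp_false,
      implies_true, not_false_eq_true, iff_false, false_iff] <;> omega)

/-- the counting facts for the hubs `uq 0, …, uq (a-1)` -/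
theorem Ctx.cnt (h : Ctx B Rl ℓ nQ nP uq up q p k θ) (hout : ∀ v ∈ Rl, k ≤ ∑ u, B v u) {a : ℕ}
    (ha : a ≤ nQ) {pick : Finset V → V} {Rs S : Finset V} {g : ℤ} {Kc : V → Finset V}
    (hdec : Dec B pick (vs uq up (rr nQ nP a 0)) Rs S g Kc) :
    ∃ hl : ℤ, 0 ≤ hl ∧ hl ≤ S.card ∧ 2 * k * hl + S.card ≤ (Rl.card : ℤ) - a ∧
      (Rs.card : ℤ) + S.card = Rl.card - a ∧
      ∑ j ∈ range a, q j ≤ a * ((Rl.card : ℝ) - a) - k * (S.card - hl) ∧
      (k : ℝ) * (Rl.card - a) + ∑ j ∈ range a, q j ≤ (2 * k - 1) * θ := by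
  have k3 := h.k3
  have hcW := h.fr.card_hub ha
  have hU := h.fr.hub_un ha
  have hdj := h.fr.hub_dj ha
  have hcR : ((vs uq up (rr nQ nP a 0)).card : ℤ) = Rl.card - a := by
    rw [← hU, Finset.card_union_of_disjoint hdj, hcW]
    push_cast
    ring
  obtain ⟨hl, c1, c2, c3, c4⟩ := nc_count h.fr.sys.B0 h.fr.sys.B1 h.fr.sys.Bd h.fr.sys.dummy
    (k := k) (by omega) hout hU hdj (S := S) (Kc := Kc)
    (fun v hv => ⟨(hdec.bad v hv).1, (hdec.bad v hv).2.1⟩) hdec.kd
  refine ⟨hl, c1, c2, by rw [← hcR]; exact c3, ?_, ?_, ?_⟩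
  · rw [← hcR, ← hdec.un, Finset.card_union_of_disjoint hdec.dj]
    push_cast
    ring
  · rw [← h.fr.sum_hub ha]
    rw [hcW, hcR] at c4
    exact_mod_cast c4
  · rw [← h.fr.sum_hub ha, h.hm]
    have h1 := mm_ge_out h.fr.sys.B0 h.fr.sys.dummy hout (S := vs uq up (iq 0 a))
      (by rw [← hU]; exact Finset.subset_union_left)
    rw [hcW] at h1
    exact_mod_cast h1

end Pool.Agent.Exact


end

section

/-!
# Counting facts for hubs of both types, minimum outdegree at least `k`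
-/

set_option autoImplicit false
set_option linter.unusedSectionVars false
set_option linter.unusedSimpArgs false
set_option linter.unnecessarySeqFocus false
set_option linter.unreachableTactic false
set_option linter.unusedTactic false

namespace Pool.Agent.Exact

open Finset

variable {V : Type*} [Fintype V] [DecidableEq V]
variable {B : V → V → ℤ} {Rl : Finset V} {ℓ nQ nP : ℕ} {uq up : ℕ → V} {q p : ℕ → ℝ}
variable {k : ℤ} {θ : ℝ}

lemma Frame.ipf (h : Frame B Rl ℓ nQ nP uq up q p) {b : ℕ} (hb : b ≤ nP) :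
    ip 0 b ⊆ full ℓ := by
  have := h.nPle
  (intro x hx; revert hx; rcases x with x | x <;>
    simp only [Finset.mem_union, Finset.mem_insert, Finset.mem_singleton, inl_mem_full,
      inr_mem_full, inl_mem_iq, inr_mem_iq, inl_mem_ip, inr_mem_ip, Sum.inl.injEq, Sum.inr.injEq,
      reduceCtorEq, Finset.notMem_empty, or_false, false_or, false_imp_iff, imp_false,
      implies_true, not_false_eq_true, iff_false, false_iff] <;> omega)

/-- the sum of the imbalances of hubs of the second type -/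
lemma Frame.sum_hubP (h : Frame B Rl ℓ nQ nP uq up q p) {b : ℕ} (hb : b ≤ nP) :
    (((∑ v ∈ vs uq up (ip 0 b), im B v : ℤ)) : ℝ) = - ∑ j ∈ range b, p j := by
  have hP := h.nPle
  have e1 : vs uq up (ip 0 b) = (range b).image up := by
    unfold vs
    rw [image_ip]
    unfold sg
    rw [Nat.Ico_zero_eq_range]
  rw [e1, Finset.sum_image (fun i hi j hj e => h.sys.chP.inj i (by
    have := Finset.mem_range.1 hi; omega) j (by have := Finset.mem_range.1 hj; omega) e)]
  push_cast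
  rw [← Finset.sum_neg_distrib]
  refine Finset.sum_congr rfl fun j hj => ?_
  have := Finset.mem_range.1 hj
  exact h.sys.wtP j (by omega)

lemma Frame.card_hubP (h : Frame B Rl ℓ nQ nP uq up q p) {b : ℕ} (hb : b ≤ nP) :
    (vs uq up (ip 0 b)).card = b := by
  have hP := h.nPle
  have e1 : vs uq up (ip 0 b) = (range b).image up := by
    unfold vs
    rw [image_ip]
    unfold sg
    rw [Nat.Ico_zero_eq_range]
  rw [e1, Finset.card_image_of_injOn (fun i hi j hj e => h.sys.chP.inj i (by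
    have := Finset.mem_range.1 hi; omega) j (by have := Finset.mem_range.1 hj; omega) e),
    Finset.card_range]

variable {Rs S : Finset V} {g : ℤ} {Kc : V → Finset V} {pick : Finset V → V}

/-- the partition of the real vertices -/
lemma Frame.par (h : Frame B Rl ℓ nQ nP uq up q p) {a b : ℕ} (ha : a ≤ nQ) (hb : b ≤ nP)
    (hd : Dec B pick (vs uq up (rr nQ nP a b)) Rs S g Kc) :
    Par Rl (vs uq up (iq 0 a)) (vs uq up (ip 0 b)) Rs S := by
  have hQ := h.nQle
  have hP := h.nPle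
  have hqf := h.iqf ha
  have hpf := h.ipf hb
  have hrf : rr nQ nP a b ⊆ full ℓ := by unfold rr; (intro x hx; revert hx; rcases x with x | x <;>
    simp only [Finset.mem_union, Finset.mem_insert, Finset.mem_singleton, inl_mem_full,
      inr_mem_full, inl_mem_iq, inr_mem_iq, inl_mem_ip, inr_mem_ip, Sum.inl.injEq, Sum.inr.injEq,
      reduceCtorEq, Finset.notMem_empty, or_false, false_or, false_imp_iff, imp_false,
      implies_true, not_false_eq_true, iff_false, false_iff] <;> omega)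
  refine ⟨?_, ?_, ?_, hd.dj⟩
  · rw [hd.un, ← h.real]
    unfold vs
    rw [← Finset.image_union, ← Finset.image_union]
    congr 1
    unfold rr
    (ext x; rcases x with x | x <;>
    simp only [Finset.mem_union, Finset.mem_insert, Finset.mem_singleton, inl_mem_full,
      inr_mem_full, inl_mem_iq, inr_mem_iq, inl_mem_ip, inr_mem_ip, Sum.inl.injEq, Sum.inr.injEq,
      reduceCtorEq, Finset.notMem_empty, or_false, false_or, false_imp_iff, imp_false,
      implies_true, not_false_eq_true, iff_false, false_iff] <;> omega)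
  · exact h.disj hqf hpf (by (rw [Finset.disjoint_left]; intro x hx hx'; revert hx hx'; rcases x with x | x <;>
    simp only [Finset.mem_union, Finset.mem_insert, Finset.mem_singleton, inl_mem_full,
      inr_mem_full, inl_mem_iq, inr_mem_iq, inl_mem_ip, inr_mem_ip, Sum.inl.injEq, Sum.inr.injEq,
      reduceCtorEq, Finset.notMem_empty, or_false, false_or, false_imp_iff, imp_false,
      implies_true, not_false_eq_true, iff_false, false_iff] <;> omega))
  · rw [hd.un]
    have e : vs uq up (iq 0 a) ∪ vs uq up (ip 0 b) = vs uq up (iq 0 a ∪ ip 0 b) := by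
      unfold vs
      rw [Finset.image_union]
    rw [e]
    exact h.disj (Finset.union_subset hqf hpf) hrf (by unfold rr; (rw [Finset.disjoint_left]; intro x hx hx'; revert hx hx'; rcases x with x | x <;>
    simp only [Finset.mem_union, Finset.mem_insert, Finset.mem_singleton, inl_mem_full,
      inr_mem_full, inl_mem_iq, inr_mem_iq, inl_mem_ip, inr_mem_ip, Sum.inl.injEq, Sum.inr.injEq,
      reduceCtorEq, Finset.notMem_empty, or_false, false_or, false_imp_iff, imp_false,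
      implies_true, not_false_eq_true, iff_false, false_iff] <;> omega))

lemma Gam_ge (h : V) (S : Finset V) :
    ∑ v ∈ S, (MM B h v + im B v) ≤ Gam B h S := by
  classical
  have hG : Gam B h S = ∑ v ∈ S.filter (Harm (MM B h) (im B)), |MM B h v + im B v| := by
    unfold Gam
    congr
  rw [hG, ← Finset.sum_filter_add_sum_filter_not S (Harm (MM B h) (im B))]
  have h1 : ∑ v ∈ S.filter (Harm (MM B h) (im B)), (MM B h v + im B v) ≤
      ∑ v ∈ S.filter (Harm (MM B h) (im B)), |MM B h v + im B v| :=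
    Finset.sum_le_sum fun v _ => le_abs_self _
  have h2 : ∑ v ∈ S.filter (fun v => ¬ Harm (MM B h) (im B) v), (MM B h v + im B v) ≤ 0 := by
    refine Finset.sum_nonpos fun v hv => ?_
    have h3 := (Finset.mem_filter.1 hv).2
    unfold Harm at h3
    push Not at h3
    linarith [h3.1]
  linarith

lemma Gam_nn (h : V) (S : Finset V) : 0 ≤ Gam B h S := by
  unfold Gam
  exact Finset.sum_nonneg fun v _ => abs_nonneg _

/-- **The counting facts**, minimum outdegree at least `k`, the largest vertex has outgoing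
type -/
structure CntO (k θ n a b ρ σ Γ q0 SQ SP : ℝ) : Prop where
  card : n = a + b + ρ + σ
  C : k * σ - (a - 1) * σ - ρ / 2 - Γ + SP ≤ b * (a + ρ + σ)
  D : SQ + k * (n - a) ≤ (2 * k - 1) * θ
  D' : b ≤ k → SQ + k * (n - a) + (k - b) * σ - ρ / 2 ≤ (2 * k - 1) * θ
  T : b * k + SP + k * σ - Γ + q0 - b ≤ (2 * k - 1) * θ
  SS : (k + 1) * σ + q0 - n + 1 - ρ / 2 - Γ + SP ≤ (2 * k - 1) * θ - k * (n - a) + b * (ρ + σ)
  ii : SP ≤ b * (n - b)
  G0 : 0 ≤ Γ

theorem Ctx.cntO (h : Ctx B Rl ℓ nQ nP uq up q p k θ) (hout : ∀ v ∈ Rl, k ≤ ∑ u, B v u)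
    {a b : ℕ} (ha1 : 1 ≤ a) (ha : a ≤ nQ) (hb : b ≤ nP)
    (hd : Dec B pick (vs uq up (rr nQ nP a b)) Rs S g Kc)
    (hpick : ∀ K : Finset V, K.Nonempty → pick K ∈ K ∧ ∀ u ∈ K, indg B K (pick K) ≤ indg B K u) :
    CntO k θ Rl.card a b Rs.card S.card (Gam B (uq 0) S) (q 0) (∑ j ∈ range a, q j)
      (∑ j ∈ range b, p j) := by
  classical
  have hQ := h.fr.nQle
  have hP := h.fr.nPle
  have B0 := h.fr.sys.B0
  have B1 := h.fr.sys.B1
  have Bd := h.fr.sys.Bd
  have dum := h.fr.sys.dummy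
  have par := h.fr.par ha hb hd
  set O : Finset V := vs uq up (iq 0 a) with hO
  set I : Finset V := vs uq up (ip 0 b) with hI
  have cO : (O.card : ℤ) = a := by rw [hO, h.fr.card_hub ha]
  have cI : (I.card : ℤ) = b := by rw [hI, h.fr.card_hubP hb]
  have sO : (((∑ v ∈ O, im B v : ℤ)) : ℝ) = ∑ j ∈ range a, q j := h.fr.sum_hub ha
  have sI : (((∑ v ∈ I, im B v : ℤ)) : ℝ) = - ∑ j ∈ range b, p j := h.fr.sum_hubP hb
  have h0O : uq 0 ∈ O := by
    rw [hO]
    unfold vs
    rw [Finset.mem_image]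
    exact ⟨Sum.inl 0, by simp only [inl_mem_iq]; omega, rfl⟩
  set H : Finset V := {uq 0} with hH
  set O' : Finset V := O.erase (uq 0) with hO'
  have hOu : O = H ∪ O' := by
    rw [hH, hO', ← Finset.insert_eq, Finset.insert_erase h0O]
  have hHd : Disjoint H O' := by rw [hH, hO']; simp
  have cO' : (O'.card : ℤ) = a - 1 := by
    rw [hO', Finset.card_erase_of_mem h0O]
    have : 1 ≤ O.card := Finset.card_pos.2 ⟨_, h0O⟩
    push_cast [Nat.cast_sub this]
    rw [cO]
  have cH : (H.card : ℤ) = 1 := by rw [hH]; simp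
  -- total number
  have tot := par.total (B := B) dum
  have tot' := par.total' (B := B) dum
  have rO := par.row (B := B) O
  have rI := par.row (B := B) I
  have rR := par.row (B := B) Rs
  have rS := par.row (B := B) S
  have rH := par.row (B := B) H
  have c_O := par.col (B := B) O
  have c_I := par.col (B := B) I
  have c_R := par.col (B := B) Rs
  have c_S := par.col (B := B) S
  have oO := ar_out dum hout par.sO
  have oI := ar_out dum hout par.sI
  have oR := ar_out dum hout par.sR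
  have oS := ar_out dum hout par.sS
  have iO := im_sum_ar dum O
  have iI := im_sum_ar dum I
  have iS := im_sum_ar dum S
  have iH := im_sum_ar dum H
  have SS0 := hd.SS B0
  have RS := hd.RS B0 Bd hpick
  have spOS : ar B O S = ar B H S + ar B O' S := by rw [← ar_unL hHd, ← hOu]
  have spOI : ar B O I = ar B H I + ar B O' I := by rw [← ar_unL hHd, ← hOu]
  have spSO : ar B S O = ar B S H + ar B S O' := by rw [← ar_unR hHd, ← hOu]
  have lO'S := ar_le B1 O' S
  have lOI := ar_le B1 O I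
  have lRI := ar_le B1 Rs I
  have lSI := ar_le B1 S I
  have lHI := ar_le B1 H I
  have lHO := ar_le B1 H O
  have lHR := ar_le B1 H Rs
  have nn : ∀ X Y : Finset V, 0 ≤ ar B X Y := fun X Y => ar_nn B0 X Y
  have cardE := par.card
  have Gge := Gam_ge (B := B) (uq 0) S
  have Gnn := Gam_nn (B := B) (uq 0) S
  have eMM : ∑ v ∈ S, (MM B (uq 0) v + im B v) = ar B H S + ar B S H + ∑ v ∈ S, im B v := by
    rw [Finset.sum_add_distrib]
    congr 1
    unfold MM ar
    rw [hH, Finset.sum_singleton, Finset.sum_add_distrib]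
    congr 1
    refine Finset.sum_congr rfl fun v _ => ?_
    rw [Finset.sum_singleton]
  rw [eMM] at Gge
  have imH : ((∑ v ∈ H, im B v : ℤ) : ℝ) = q 0 := by
    rw [hH, Finset.sum_singleton]
    exact h.fr.sys.wtQ 0 (by have := h.fr.l2; omega)
  have hHO : ar B H O ≤ (a : ℤ) - 1 := by
    have e1 : ar B H O = ar B H H + ar B H O' := by rw [← ar_unR hHd, ← hOu]
    have e2 : ar B H H = 0 := by
      unfold ar
      rw [hH]
      simp [Bd]
    have e3 := ar_le B1 H O'
    rw [cH, cO', one_mul] at e3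
    rw [e1, e2, zero_add]
    exact e3
  rw [cO'] at lO'S
  rw [cO, cI] at lOI
  rw [cI] at lRI lSI
  rw [cH, cI, one_mul] at lHI
  rw [cH, one_mul] at lHR
  rw [cO, cI] at cardE
  rw [cI] at oI
  have spHO' := ar_monoL B0 (X := H) (X' := O) (by rw [hOu]; exact Finset.subset_union_left)
  have mHO := ar_monoL B0 (X := H) (X' := Rl) (by
    refine Finset.Subset.trans ?_ par.sO
    rw [hOu]; exact Finset.subset_union_left)
  have m1 := mHO O
  have m2 := mHO Rs
  have tot1 : (2 * (k : ℝ) - 1) * θ = ((mm B : ℤ) : ℝ) := h.hm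
  set ρ : ℤ := (Rs.card : ℤ) with hρ
  set σ : ℤ := (S.card : ℤ) with hσ
  set Γ : ℤ := Gam B (uq 0) S with hΓ
  -- integer statements
  have C1 : 2 * (k * σ) - 2 * (((a : ℤ) - 1) * σ) - ρ - 2 * Γ - 2 * ∑ v ∈ I, im B v ≤
      2 * (b * (a + ρ + σ)) := by
    have n1 := nn I O
    have n2 := nn I Rs
    have n3 := nn S H
    linarith
  have D1 : ∑ v ∈ O, im B v + k * (b + ρ + σ) ≤ mm B := by
    have n1 := nn Rl O
    linarith
  have D2 : (b : ℤ) ≤ k → 2 * (∑ v ∈ O, im B v + k * (b + ρ + σ)) + 2 * ((k - b) * σ) - ρ ≤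
      2 * mm B := by
    intro hbk
    have hW : (O ∪ I) ∪ vs uq up (rr nQ nP a b) = Rl := by rw [← hd.un]; exact par.un
    have hdj : Disjoint (O ∪ I) (vs uq up (rr nQ nP a b)) := by rw [← hd.un]; exact par.d2
    have e1 := hd.outR B0 B1 Bd dum hout par.d1 hW hdj (by rw [cI]; exact hbk)
    rw [cI, ← hd.un, ar_unL par.d3] at e1
    have n1 := nn O O
    have n2 := nn I O
    linarith
  have T1 : (b : ℤ) * k - ∑ v ∈ I, im B v + k * σ - Γ + ∑ v ∈ H, im B v - b ≤ mm B := by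
    have n1 := nn Rl H
    have n3 := nn S H
    linarith
  have SS1 : 2 * ((k + 1) * σ) + 2 * ∑ v ∈ H, im B v - 2 * Rl.card + 2 - ρ - 2 * Γ -
      2 * ∑ v ∈ I, im B v ≤ 2 * mm B - 2 * (k * (b + ρ + σ)) + 2 * (b * (ρ + σ)) := by
    have n1 := nn I O
    have n2 := nn I Rs
    have n3 := nn S H
    have n4 := nn O Rs
    have n5 := nn Rl H
    have n6 := nn O O
    linarith
  have ii1 : - ∑ v ∈ I, im B v ≤ b * (Rl.card - b) := by
    have h1 := sum_im_le B0 B1 dum (S := I) par.sI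
    rw [cI] at h1
    have h2 := (abs_le.1 h1).1
    linarith
  have cardR : (Rl.card : ℝ) = a + b + (Rs.card : ℝ) + S.card := by
    have h1 : ((Rl.card : ℤ) : ℝ) = (((a : ℤ) + b + ρ + σ : ℤ) : ℝ) := by rw [cardE]
    rw [hρ, hσ] at h1
    push_cast at h1
    exact h1
  have C1r : 2 * ((k : ℝ) * S.card) - 2 * (((a : ℝ) - 1) * S.card) - Rs.card - 2 * (Γ : ℝ) -
      2 * ((∑ v ∈ I, im B v : ℤ) : ℝ) ≤ 2 * (b * (a + Rs.card + S.card)) := by
    exact_mod_cast C1
  have D1r : ((∑ v ∈ O, im B v : ℤ) : ℝ) + k * (b + Rs.card + S.card) ≤ mm B := by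
    exact_mod_cast D1
  have T1r : (b : ℝ) * k - ((∑ v ∈ I, im B v : ℤ) : ℝ) + k * S.card - Γ +
      ((∑ v ∈ H, im B v : ℤ) : ℝ) - b ≤ mm B := by exact_mod_cast T1
  have SS1r : 2 * (((k : ℝ) + 1) * S.card) + 2 * ((∑ v ∈ H, im B v : ℤ) : ℝ) - 2 * Rl.card + 2 -
      Rs.card - 2 * Γ - 2 * ((∑ v ∈ I, im B v : ℤ) : ℝ) ≤
      2 * mm B - 2 * (k * (b + Rs.card + S.card)) + 2 * (b * (Rs.card + S.card)) := by
    exact_mod_cast SS1
  have ii1r : - ((∑ v ∈ I, im B v : ℤ) : ℝ) ≤ b * (Rl.card - b) := by exact_mod_cast ii1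
  rw [sI] at C1r T1r SS1r ii1r
  rw [sO] at D1r
  rw [imH] at T1r SS1r
  rw [← tot1] at D1r T1r SS1r
  refine ⟨cardR, ?_, ?_, ?_, ?_, ?_, ?_, ?_⟩
  · linarith
  · have : (Rl.card : ℝ) - a = b + Rs.card + S.card := by rw [cardR]; ring
    rw [this]
    linarith
  · intro hbk
    have hbk' : (b : ℤ) ≤ k := by exact_mod_cast hbk
    have D2r : 2 * (((∑ v ∈ O, im B v : ℤ) : ℝ) + k * (b + Rs.card + S.card)) +
        2 * (((k : ℝ) - b) * S.card) - Rs.card ≤ 2 * mm B := by exact_mod_cast D2 hbk'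
    rw [sO, ← tot1] at D2r
    have : (Rl.card : ℝ) - a = b + Rs.card + S.card := by rw [cardR]; ring
    rw [this]
    linarith
  · linarith
  · have : (Rl.card : ℝ) - a = b + Rs.card + S.card := by rw [cardR]; ring
    rw [this]
    linarith
  · linarith
  · exact_mod_cast Gnn

end Pool.Agent.Exact


end

section

/-!
# Arithmetic of the case of hubs of both types, first type outgoing, odd: summary
-/

set_option autoImplicit false
set_option linter.unusedSectionVars false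

namespace Pool.Agent.Exact

variable {k d j : ℤ} {K μ G y w : ℝ}

section
variable (h : Po k d j K μ G y w)
include h

lemma Po.k4 (hdp : d % 2 = 0) (hjp : (k - j) % 2 = 0) : 4 ≤ k := by
  have hk := h.k3
  by_contra hc
  have e0 : k = 3 := by omega
  subst e0
  have h1 := h.dj
  have h2 := h.dj1
  have h3 := h.jlow
  have h4 := h.j2
  have e1 : j = 1 := by omega
  have e2 : d = 0 := by omega
  subst e1 e2
  have h5 := h.D' (by norm_num)
  have h6 := h.Y
  have h7 := h.yG
  have h8 := h.K0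
  push_cast at h5 h6
  linarith

/-- a crude form of `D` -/
lemma Po.Dy : y + 2 * K ≤ (k - 2) * μ := by
  have h1 := h.D
  have h2 := h.dj
  have h3 := h.K0
  have h4 := h.G0
  have h6 := h.μ0
  have hdjr : (d : ℝ) + j ≤ k - 2 := by exact_mod_cast h2
  have a1 : 0 ≤ ((k : ℝ) - 2 - d - j) * G := mul_nonneg (by linarith) h4
  have a2 : 2 * K ≤ ((k : ℝ) - d - j) * K := mul_le_mul_of_nonneg_right (by linarith) h3
  have a3 : ((d : ℝ) + j) * μ ≤ (k - 2) * μ := mul_le_mul_of_nonneg_right hdjr h6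
  linarith

theorem Po.out (hdp : d % 2 = 0) (hjp : (k - j) % 2 = 0) {card g nb : ℤ} {NB : ℝ}
    (hG : G = card / 2) (c1 : 1 ≤ card) (c2 : card ≤ 2 * g) (c3 : card ≤ g + nb) (nb1 : 1 ≤ nb)
    (hNB : (nb : ℝ) - 1 ≤ NB) (hNB' : nb ≤ k - 2 → (nb : ℝ) ≤ NB) :
    (6 ≤ μ + 2 + NB + g ∧ G + 6 ≤ μ + 2 + NB + 2 * g ∧ 4 ≤ μ + 2 * g ∧
      8 ≤ 2 * μ + K + k + g) ∨ (y + 4 ≤ μ + 2 + NB + 2 * g ∧ y + 4 ≤ μ + K + k + g) := by
  have hk4 := h.k4 hdp hjp
  have h6 := h.μ0
  have hK := h.K0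
  have hDy := h.Dy
  have hyG := h.yG
  have k4r : (4 : ℝ) ≤ k := by exact_mod_cast hk4
  have g1 : 1 ≤ g := by omega
  have g1r : (1 : ℝ) ≤ g := by exact_mod_cast g1
  have c2r : (card : ℝ) ≤ 2 * g := by exact_mod_cast c2
  have c3r : (card : ℝ) ≤ g + nb := by exact_mod_cast c3
  have NB1 : 1 ≤ NB := by
    rcases le_or_gt nb (k - 2) with h1 | h1
    · have h2 := hNB' h1
      have : (1 : ℝ) ≤ nb := by exact_mod_cast nb1
      linarith
    · have : (2 : ℝ) ≤ nb := by exact_mod_cast (by omega : 2 ≤ nb)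
      linarith
  rcases le_or_gt 4 (μ + 2 * G) with hm | hm
  · rcases le_or_gt 8 (2 * μ + K + k + g) with h8 | h8
    · left
      rcases le_or_gt nb (k - 2) with h1 | h1
      · have h2 := hNB' h1
        refine ⟨?_, ?_, ?_, h8⟩ <;> linarith
      · rcases le_or_gt card (g + nb - 1) with h3 | h3
        · have h3r : (card : ℝ) ≤ g + nb - 1 := by exact_mod_cast h3
          refine ⟨?_, ?_, ?_, h8⟩ <;> linarith
        · have h4 : 6 ≤ card := by omega
          have h4r : (6 : ℝ) ≤ card := by exact_mod_cast h4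
          refine ⟨?_, ?_, ?_, h8⟩ <;> linarith
    · right
      have g2 : g = 1 ∨ 2 ≤ g := by omega
      have k6 : k < 6 := by
        have : (k : ℝ) < 6 := by linarith
        exact_mod_cast this
      have k45 : k = 4 ∨ k = 5 := by omega
      rcases g2 with g2 | g2
      · exfalso
        subst g2
        push_cast at *
        linarith
      · have g2r : (2 : ℝ) ≤ g := by exact_mod_cast g2
        rcases k45 with k5 | k5
        · subst k5
          push_cast at *
          constructor <;> linarith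
        · exfalso
          subst k5
          push_cast at *
          linarith
  · right
    have hc4 : (card : ℝ) < 4 := by rw [hG] at hm; linarith
    have hc4' : card < 4 := by exact_mod_cast hc4
    have hc : card = 1 ∨ card = 2 ∨ card = 3 := by omega
    have hG1 : G = 1 / 2 ∨ G = 1 ∨ G = 3 / 2 := by
      rcases hc with h1 | h1 | h1 <;> rw [hG, h1] <;> norm_num
    obtain ⟨m1, m2⟩ := h.m hdp hjp hG1 hm
    rcases hc with h1 | h1 | h1
    · exfalso
      rw [hG, h1] at m1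
      norm_num at m1
    · rw [hG, h1] at m2
      push_cast at m2
      constructor <;> linarith
    · have g2 : 2 ≤ g := by omega
      have g2r : (2 : ℝ) ≤ g := by exact_mod_cast g2
      rw [hG, h1] at m2
      push_cast at m2
      constructor <;> linarith

/-- the case of high hubs of the second type -/
theorem Po.outc (hdp : d % 2 = 0) (hjp : (k - j) % 2 = 0) {card g nb : ℤ} {NB : ℝ}
    (hG : G = card / 2) (c2 : card ≤ 2 * g) (c3 : card ≤ g + nb)
    (hNB : (nb : ℝ) - 1 ≤ NB) (hw : 2 * ((k : ℝ) - j) ≤ w) :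
    6 ≤ μ + 2 + NB + g ∧ G + 6 ≤ μ + 2 + NB + 2 * g ∧ 4 ≤ μ + 2 * g ∧
      8 ≤ 2 * μ + K + k + g := by
  have hk4 := h.k4 hdp hjp
  have h1 := h.C1 hdp
  have h6 := h.μ0
  have hj := h.j2
  have hK := h.K0
  have hDy := h.Dy
  have hyG := h.yG
  have c2r : (card : ℝ) ≤ 2 * g := by exact_mod_cast c2
  have c3r : (card : ℝ) ≤ g + nb := by exact_mod_cast c3
  have hjr : (j : ℝ) ≤ k - 2 := by exact_mod_cast hj
  have h2 : 2 < G := by
    have h3 : ((k : ℝ) - j) * 2 < (k - j) * G := by linarith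
    exact lt_of_mul_lt_mul_left h3 (by linarith)
  have h4 : (4 : ℝ) < card := by rw [hG] at h2; linarith
  have h5 : 5 ≤ card := by
    have : (4 : ℤ) < card := by exact_mod_cast h4
    omega
  have h5r : (5 : ℝ) ≤ card := by exact_mod_cast h5
  have g3 : 3 ≤ g := by omega
  have g3r : (3 : ℝ) ≤ g := by exact_mod_cast g3
  refine ⟨by linarith, by linarith, by linarith, ?_⟩
  rcases lt_or_ge 4 k with k5 | k5
  · have k5r : (5 : ℝ) ≤ k := by exact_mod_cast (by omega : 5 ≤ k)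
    linarith
  · have : k = 4 := by omega
    subst this
    push_cast at *
    linarith

end

/-- the numerical structure from the counting facts -/
theorem CntO.po {k a b : ℤ} {θ n ρ σ Γ q0 SQ SP g : ℝ} (c : CntO k θ n a b ρ σ Γ q0 SQ SP)
    (k3 : 3 ≤ k) (a1 : 1 ≤ a) (b2 : 2 ≤ b) (hρ : 0 ≤ ρ) (hσ : 0 ≤ σ) (hg : ρ ≤ 2 * g)
    (hΓ : Γ < q0 - θ - g) (hθ : n + 1 ≤ 2 * θ) (hq : q0 ≤ n - 1)
    (hSQ : q0 + (a - 1) * (θ + g) ≤ SQ) (hSP : b * (θ - 2) ≤ SP) (hSP' : SP ≤ b * (n - 1 - k))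
    (hK : θ ≤ n + 1 - k) :
    Po k (b - a - 1) (k - b) (n + 1 - k - θ) (2 * θ - n - 1) (ρ / 2) (q0 - θ)
      (SP - b * (θ - 2)) := by
  have hc := c.card
  have e : σ = n - a - b - ρ := by linarith
  subst e
  have h1 := c.C
  have h2 := c.D
  have h4 := c.T
  have h5 := c.SS
  have h6 := c.ii
  have h7 := c.G0
  have a1r : (1 : ℝ) ≤ a := by exact_mod_cast a1
  have b2r : (2 : ℝ) ≤ b := by exact_mod_cast b2
  have hSQ' : q0 + (a - 1) * (θ + ρ / 2) ≤ SQ := by
    have : ((a : ℝ) - 1) * (ρ / 2) ≤ (a - 1) * g :=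
      mul_le_mul_of_nonneg_left (by linarith) (by linarith)
    linarith
  refine ⟨k3, by omega, by omega, by linarith, by linarith, by linarith, by linarith,
    by linarith, by linarith, ?_, ?_, ?_, ?_, ?_, ?_, ?_, ?_⟩
  · push_cast; linarith
  · push_cast; linarith
  · push_cast; linarith
  · push_cast; linarith
  · intro hj
    have h3 := c.D' (by exact_mod_cast (by omega : b ≤ k))
    push_cast; linarith
  · push_cast; linarith
  · push_cast; linarith
  · push_cast; linarith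

end Pool.Agent.Exact


end

section

/-!
# Arithmetic of the case of hubs of both types, first type outgoing, odd: a general lower bound
`u` for the levels of the hubs of the first type
-/

set_option autoImplicit false
set_option linter.unusedSectionVars false

namespace Pool.Agent.Exact

/-- the numerical facts with levels at least `u` -/
structure PoU (k d j : ℤ) (K μ G y w u : ℝ) : Prop where
  k3 : 3 ≤ k
  dj : d + j ≤ k - 2
  j2 : j ≤ k - 2
  K0 : 0 ≤ K
  μ0 : 0 ≤ μ
  G0 : 0 ≤ G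
  yG : G < y
  Y : y ≤ K + k - 2
  w0 : 0 ≤ w
  wK : w ≤ (k - j) * K
  σ0 : 0 ≤ μ + 2 * K - 2 * G + d + 2 * j
  C : ((d : ℝ) + 2 + j) * (μ + 2 * K - 2 * G + d + 2 * j) + w < y + (k - j) * (K + j + 1)
  D : ((k : ℝ) - 2 - d - j) * u + (k - d - j) * K + y ≤ (d + j) * μ
  D' : 0 ≤ j → ((k : ℝ) - 2 - d - j) * u - G + (k - d - j) * K + y +
    j * (μ + 2 * K - 2 * G + d + 2 * j) ≤ (d + j) * μ
  T : ((k : ℝ) - j + 2) * K + w + (2 - j) * μ + k * (d - 1) + 3 * j < (2 * k - 1) * G
  SS : ((k : ℝ) + 2 + j) * K + w + 2 * μ + k * (d - 2) + (2 * j + d + 2) * (j + 1) <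
    (2 * k + 2) * G
  ii : w ≤ (k - j) * (K + j + 1)

variable {k d j : ℤ} {K μ G y w u : ℝ}

/-- levels at least `G` -/
lemma PoU.toPo (h : PoU k d j K μ G y w u) (hu : G ≤ u) : Po k d j K μ G y w := by
  have h1 := h.D
  have h2 := h.dj
  have hdjr : (d : ℝ) + j ≤ k - 2 := by exact_mod_cast h2
  have a1 : ((k : ℝ) - 2 - d - j) * G ≤ ((k : ℝ) - 2 - d - j) * u :=
    mul_le_mul_of_nonneg_left hu (by linarith)
  refine ⟨h.k3, h.dj, h.j2, h.K0, h.μ0, h.G0, h.yG, h.Y, h.w0, h.wK, h.σ0, h.C, by linarith,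
    ?_, h.T, h.SS, h.ii⟩
  intro hj
  have h3 := h.D' hj
  linarith

section
variable (h : PoU k d j K μ G y w u)
include h

lemma PoU.jlow (hdj : 1 ≤ d + j) : 3 - k ≤ j := by
  have h1 := h.T
  have h2 := h.σ0
  have h3 := h.K0
  have h6 := h.μ0
  have h7 := h.w0
  have hk := h.k3
  by_contra hc
  push Not at hc
  have k3r : (3 : ℝ) ≤ k := by exact_mod_cast hk
  have hc' : (j : ℝ) ≤ 2 - k := by exact_mod_cast (by omega : j ≤ 2 - k)
  have hdr : (1 : ℝ) - j ≤ d := by
    have : 1 - j ≤ d := by omega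
    exact_mod_cast this
  have a1 : (2 * (k : ℝ) - 1) * (2 * G) ≤ (2 * k - 1) * (μ + 2 * K + d + 2 * j) :=
    mul_le_mul_of_nonneg_left (by linarith) (by linarith)
  have a2 : 0 ≤ (2 * (3 - (k : ℝ) - j)) * K := mul_nonneg (by linarith) h3
  have a3 : 0 ≤ (5 - 2 * (k : ℝ) - 2 * j) * μ := mul_nonneg (by linarith) h6
  nlinarith

lemma PoU.dj0 (hu : 0 ≤ u) : 1 ≤ d + j := by
  have h1 := h.D
  have h2 := h.dj
  have h3 := h.K0
  have h4 := h.G0
  have h5 := h.yG
  have h6 := h.μ0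
  have hdj : ((d : ℝ) + j) ≤ k - 2 := by exact_mod_cast h2
  by_contra hc
  push Not at hc
  have hc' : (d : ℝ) + j ≤ 0 := by exact_mod_cast (by omega : d + j ≤ 0)
  have a1 : 0 ≤ ((k : ℝ) - 2 - d - j) * u := mul_nonneg (by linarith) hu
  have a2 : 0 ≤ ((k : ℝ) - d - j) * K := mul_nonneg (by linarith) h3
  have a3 : ((d : ℝ) + j) * μ ≤ 0 := mul_nonpos_of_nonpos_of_nonneg hc' h6
  linarith

/-- high hubs of the second type, few vertices in `Rs` -/
theorem PoU.noc (hdp : d % 2 = 0) (hu : 0 ≤ u) (hw : 2 * ((k : ℝ) - j) ≤ w)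
    (hG : G ≤ 3 / 2) : False := by
  have hk := h.k3
  have hj := h.j2
  have hdj := h.dj
  have hdj1 := h.dj0 hu
  have hjl := h.jlow hdj1
  have h3 := h.K0
  have h4 := h.G0
  have h5 := h.yG
  have h6 := h.μ0
  have hSS := h.SS
  have hwK := h.wK
  have k3r : (3 : ℝ) ≤ k := by exact_mod_cast hk
  have hjr : (j : ℝ) ≤ k - 2 := by exact_mod_cast hj
  have hjlr : 3 - (k : ℝ) ≤ j := by exact_mod_cast hjl
  have hdjr : (d : ℝ) + j ≤ k - 2 := by exact_mod_cast hdj
  have hdj1r : (1 : ℝ) ≤ (d : ℝ) + j := by exact_mod_cast hdj1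
  have K2 : 2 ≤ K := by
    have h7 : ((k : ℝ) - j) * 2 ≤ (k - j) * K := by linarith
    exact le_of_mul_le_mul_left h7 (by linarith)
  have a1 : ((k : ℝ) + 2 + j) * 2 ≤ (k + 2 + j) * K :=
    mul_le_mul_of_nonneg_left K2 (by linarith)
  have a2 : (2 * (k : ℝ) + 2) * G ≤ (2 * k + 2) * (3 / 2) :=
    mul_le_mul_of_nonneg_left hG (by linarith)
  have key : (k : ℝ) * (d - 1) + 1 + (2 * j + d + 2) * (j + 1) < 0 := by linarith
  rcases lt_or_ge d 1 with h8 | h8
  · have h8r : (d : ℝ) ≤ 0 := by exact_mod_cast (by omega : d ≤ 0)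
    have hD' := h.D' (by omega)
    have hj1r : (1 : ℝ) ≤ j := by exact_mod_cast (by omega : 1 ≤ j)
    have b1 : (d : ℝ) * μ ≤ 0 := mul_nonpos_of_nonpos_of_nonneg h8r h6
    have b2 : 0 ≤ ((k : ℝ) - d - j) * K := mul_nonneg (by linarith) h3
    have b3 : 0 ≤ (j : ℝ) * (2 * K - 2 * G + d + 2 * j) :=
      mul_nonneg (by linarith) (by linarith)
    have b4 : 0 ≤ ((k : ℝ) - 2 - d - j) * u := mul_nonneg (by linarith) hu
    linarith
  · have h8r : (2 : ℝ) ≤ d := by exact_mod_cast (by omega : 2 ≤ d)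
    rcases le_or_gt (-1) j with h9 | h9
    · have h9r : (-1 : ℝ) ≤ j := by exact_mod_cast h9
      have b1 : 0 ≤ (2 * (j : ℝ) + d + 2) * (j + 1) := mul_nonneg (by linarith) (by linarith)
      have b2 : 0 ≤ (k : ℝ) * (d - 1) := mul_nonneg (by linarith) (by linarith)
      linarith
    · have h9r : (j : ℝ) ≤ -2 := by exact_mod_cast (by omega : j ≤ -2)
      rcases le_or_gt (2 * (j : ℝ) + d + 2) 0 with h10 | h10
      · have b1 : 0 ≤ (2 * (j : ℝ) + d + 2) * (j + 1) :=
          mul_nonneg_of_nonpos_of_nonpos h10 (by linarith)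
        have b2 : 0 ≤ (k : ℝ) * (d - 1) := mul_nonneg (by linarith) (by linarith)
        linarith
      · have b1 : 0 ≤ (k - ((d : ℝ) + 2 + 2 * j)) * (-(j : ℝ) - 1) :=
          mul_nonneg (by linarith) (by linarith)
        have b2 : 0 ≤ (k : ℝ) * (d + j - 1) := mul_nonneg (by linarith) (by linarith)
        nlinarith

/-- large `K`, few vertices in `Rs` -/
theorem PoU.noc3 (hdp : d % 2 = 0) (hu : -4 ≤ u) (hμ : 1 ≤ μ) (hK : μ + 3 ≤ K)
    (hG : G ≤ 1) : False := by
  have hk := h.k3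
  have hj := h.j2
  have hdj := h.dj
  have h3 := h.K0
  have h4 := h.G0
  have h5 := h.yG
  have h6 := h.μ0
  have hSS := h.SS
  have hD := h.D
  have hw := h.w0
  have k3r : (3 : ℝ) ≤ k := by exact_mod_cast hk
  have hjr : (j : ℝ) ≤ k - 2 := by exact_mod_cast hj
  have hdjr : (d : ℝ) + j ≤ k - 2 := by exact_mod_cast hdj
  have c1 : ((k : ℝ) - 2 - d - j) * (-4) ≤ ((k : ℝ) - 2 - d - j) * u :=
    mul_le_mul_of_nonneg_left hu (by linarith)
  have c2 : ((k : ℝ) - d - j) * (μ + 3) ≤ (k - d - j) * K :=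
    mul_le_mul_of_nonneg_left hK (by linarith)
  have hdj1 : 1 ≤ d + j := by
    by_contra hc
    push Not at hc
    have hc' : (d : ℝ) + j ≤ 0 := by exact_mod_cast (by omega : d + j ≤ 0)
    have a1 : ((k : ℝ) - 2 * (d + j)) * 1 ≤ (k - 2 * (d + j)) * μ :=
      mul_le_mul_of_nonneg_left hμ (by linarith)
    linarith
  have hjl := h.jlow hdj1
  have hjlr : 3 - (k : ℝ) ≤ j := by exact_mod_cast hjl
  have hdj1r : (1 : ℝ) ≤ (d : ℝ) + j := by exact_mod_cast hdj1
  have a1 : ((k : ℝ) + 2 + j) * 4 ≤ (k + 2 + j) * K :=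
    mul_le_mul_of_nonneg_left (by linarith) (by linarith)
  have a2 : (2 * (k : ℝ) + 2) * G ≤ (2 * k + 2) * 1 :=
    mul_le_mul_of_nonneg_left hG (by linarith)
  have key : (k : ℝ) * d + 8 + 4 * j + (2 * j + d + 2) * (j + 1) < 0 := by linarith
  rcases lt_or_ge d 0 with h8 | h8
  · have h8r : (d : ℝ) ≤ -1 := by exact_mod_cast (by omega : d ≤ -1)
    have hD' := h.D' (by omega)
    have hj1r : (1 : ℝ) ≤ j := by exact_mod_cast (by omega : 1 ≤ j)
    have b1 : (d : ℝ) * μ ≤ 0 := mul_nonpos_of_nonpos_of_nonneg (by linarith) h6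
    have b3 : 0 ≤ (j : ℝ) * (2 * K - 2 * G + d + 2 * j) :=
      mul_nonneg (by linarith) (by linarith)
    have b4 : ((k : ℝ) - d - j) * 1 ≤ (k - d - j) * μ :=
      mul_le_mul_of_nonneg_left hμ (by linarith)
    linarith
  · have h8r : (0 : ℝ) ≤ d := by exact_mod_cast h8
    rcases le_or_gt 0 j with h9 | h9
    · have h9r : (0 : ℝ) ≤ j := by exact_mod_cast h9
      have b1 : 0 ≤ (2 * (j : ℝ) + d + 2) * (j + 1) := mul_nonneg (by linarith) (by linarith)
      have b2 : 0 ≤ (k : ℝ) * d := mul_nonneg (by linarith) (by linarith)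
      linarith
    · have h9r : (j : ℝ) ≤ -1 := by exact_mod_cast (by omega : j ≤ -1)
      rcases le_or_gt (2 * (j : ℝ) + d + 2) 0 with h10 | h10
      · have b1 : 0 ≤ (2 * (j : ℝ) + d + 2) * (j + 1) :=
          mul_nonneg_of_nonpos_of_nonpos h10 (by linarith)
        have b2 : 0 ≤ ((k : ℝ) - 3) * (d + j - 1) := mul_nonneg (by linarith) (by linarith)
        nlinarith
      · have b1 : 0 ≤ (k - 2 - ((d : ℝ) + j)) * (-(j : ℝ) - 1) :=
          mul_nonneg (by linarith) (by linarith)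
        have b2 : 0 ≤ (k : ℝ) * (d + j - 1) := mul_nonneg (by linarith) (by linarith)
        nlinarith [sq_nonneg ((j : ℝ) + 5 / 2)]

end

/-- the numerical structure from the counting facts -/
theorem CntO.poU {k a b : ℤ} {θ n ρ σ Γ q0 SQ SP g u : ℝ} (c : CntO k θ n a b ρ σ Γ q0 SQ SP)
    (k3 : 3 ≤ k) (a1 : 1 ≤ a) (b2 : 2 ≤ b) (hρ : 0 ≤ ρ) (hσ : 0 ≤ σ) (hg : ρ ≤ 2 * g)
    (hΓ : Γ < q0 - θ - g) (hθ : n + 1 ≤ 2 * θ) (hq : q0 ≤ n - 1)
    (hSQ : q0 + (a - 1) * (θ + u) ≤ SQ) (hSP : b * (θ - 2) ≤ SP) (hSP' : SP ≤ b * (n - 1 - k))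
    (hK : θ ≤ n + 1 - k) :
    PoU k (b - a - 1) (k - b) (n + 1 - k - θ) (2 * θ - n - 1) (ρ / 2) (q0 - θ)
      (SP - b * (θ - 2)) u := by
  have hc := c.card
  have e : σ = n - a - b - ρ := by linarith
  subst e
  have h1 := c.C
  have h2 := c.D
  have h4 := c.T
  have h5 := c.SS
  have h6 := c.ii
  have h7 := c.G0
  have a1r : (1 : ℝ) ≤ a := by exact_mod_cast a1
  have b2r : (2 : ℝ) ≤ b := by exact_mod_cast b2
  refine ⟨k3, by omega, by omega, by linarith, by linarith, by linarith, by linarith,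
    by linarith, by linarith, ?_, ?_, ?_, ?_, ?_, ?_, ?_, ?_⟩
  · push_cast; linarith
  · push_cast; linarith
  · push_cast; linarith
  · push_cast; linarith
  · intro hj
    have h3 := c.D' (by exact_mod_cast (by omega : b ≤ k))
    push_cast; linarith
  · push_cast; linarith
  · push_cast; linarith
  · push_cast; linarith

/-- high hubs of the second type and one block: the requirements of the arrangements -/
theorem Po.outc1 (h : Po k d j K μ G y w) (hdp : d % 2 = 0) (hjp : (k - j) % 2 = 0)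
    {card g : ℤ} {NB : ℝ} (hG : G = card / 2) (c2 : card ≤ 2 * g) (c3 : card ≤ g + 1)
    (hw : 2 * ((k : ℝ) - j) ≤ w)
    (hNB : 0 ≤ NB ∨ (NB = -1 ∧ y = K + k - 3) ∨ (NB = -2 ∧ y = K + k - 2)) :
    6 ≤ μ + 2 + NB + g ∧ G + 6 ≤ μ + 2 + NB + 2 * g ∧ 4 ≤ μ + 2 * g ∧
      8 ≤ 2 * μ + K + k + g := by
  rcases hNB with hNB | hNB
  · exact h.outc hdp hjp hG c2 (nb := 1) c3 (by push_cast; linarith) hw
  have hk4 := h.k4 hdp hjp
  have h1 := h.C1 hdp
  have h6 := h.μ0
  have hj := h.j2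
  have hK := h.K0
  have hDy := h.Dy
  have hyG := h.yG
  have hwK := h.wK
  have k4r : (4 : ℝ) ≤ k := by exact_mod_cast hk4
  have c2r : (card : ℝ) ≤ 2 * g := by exact_mod_cast c2
  have c3r : (card : ℝ) ≤ g + 1 := by exact_mod_cast c3
  have hjr : (j : ℝ) ≤ k - 2 := by exact_mod_cast hj
  have K2 : 2 ≤ K := by
    have h7 : ((k : ℝ) - j) * 2 ≤ (k - j) * K := by linarith
    exact le_of_mul_le_mul_left h7 (by linarith)
  have h2 : 2 < G := by
    have h3 : ((k : ℝ) - j) * 2 < (k - j) * G := by linarith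
    exact lt_of_mul_lt_mul_left h3 (by linarith)
  have h4 : (4 : ℝ) < card := by rw [hG] at h2; linarith
  have h5 : 5 ≤ card := by
    have : (4 : ℤ) < card := by exact_mod_cast h4
    omega
  have h5r : (5 : ℝ) ≤ card := by exact_mod_cast h5
  have g4 : 4 ≤ g := by omega
  have g4r : (4 : ℝ) ≤ g := by exact_mod_cast g4
  have μ1 : 1 < μ := by
    by_contra hc
    push Not at hc
    have a1 : ((k : ℝ) - 2) * μ ≤ (k - 2) * 1 := mul_le_mul_of_nonneg_left hc (by linarith)
    rcases hNB with ⟨_, h7⟩ | ⟨_, h7⟩ <;> linarith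
  rcases hNB with ⟨h7, h8⟩ | ⟨h7, h8⟩
  · subst h7
    refine ⟨?_, ?_, ?_, ?_⟩ <;> linarith
  · subst h7
    rcases lt_or_ge 4 g with g5 | g5
    · have g5r : (5 : ℝ) ≤ g := by exact_mod_cast (by omega : 5 ≤ g)
      refine ⟨?_, ?_, ?_, ?_⟩ <;> linarith
    · have g4' : g = 4 := by omega
      have hcard : card = 5 := by omega
      have μ2 : 2 ≤ μ := by
        by_contra hc
        push Not at hc
        have hSS := h.SS
        have hD := h.D
        have hjl := h.jlow
        have hdj := h.dj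
        have hdj1 := h.dj1
        have hjlr : 3 - (k : ℝ) ≤ j := by exact_mod_cast hjl
        have hdjr : (d : ℝ) + j ≤ k - 2 := by exact_mod_cast hdj
        have hdj1r : (1 : ℝ) ≤ (d : ℝ) + j := by exact_mod_cast hdj1
        have hG5 : G = 5 / 2 := by rw [hG, hcard]; norm_num
        rw [hG5] at hSS hD
        rw [h8] at hD
        clear hG hG5 h1 hyG h2 h4 h5r g4r c2r c3r
        have a1 : ((k : ℝ) + 2 + j) * 2 ≤ (k + 2 + j) * K :=
          mul_le_mul_of_nonneg_left K2 (by linarith)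
        have a2 : ((k : ℝ) + 1 - d - j) * 2 ≤ (k + 1 - d - j) * K :=
          mul_le_mul_of_nonneg_left K2 (by linarith)
        have a3 : ((d : ℝ) + j) * μ ≤ (d + j) * 2 :=
          mul_le_mul_of_nonneg_left hc.le (by linarith)
        have b1 : 11 * (k : ℝ) + 16 ≤ 13 * (d + 2 + j) := by linarith
        have b2 : 0 ≤ (13 * ((d : ℝ) + 2 + j) - (11 * (k : ℝ) + 16)) * (k + 1 + j) :=
          mul_nonneg (by linarith) (by linarith)
        have b3 : ((d : ℝ) + 2 + j) * ((k : ℝ) + 1 + j) - 5 * k - k * j - 1 + j * j + j < 0 := by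
          linarith
        have hk9 : (8 : ℝ) ≤ k := by linarith
        have b4 : 11 * (k : ℝ) * k - 38 * k - 2 * k * j + 13 * j * j + 29 * j + 3 < 0 := by
          linarith
        nlinarith [sq_nonneg ((k : ℝ) - j), sq_nonneg ((j : ℝ) + 2),
          mul_nonneg (sub_nonneg.2 hk9) (sub_nonneg.2 hk9)]
      have : (g : ℝ) = 4 := by rw [g4']; norm_num
      have hc5 : (card : ℝ) = 5 := by rw [hcard]; norm_num
      refine ⟨?_, ?_, ?_, ?_⟩ <;> linarith

end Pool.Agent.Exact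


end
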