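import Mathlib
import Pool.Agent.EXAM.C05
import Pool.Agent.EXAM.C07

/-! Parts: Lib_helper68.Exact.MiCnt, Lib_helper68.Exact.MiMain -/

section

/-!
# Hubs of both types, minimum indegree at least `k`: counting
-/

set_option autoImplicit false
set_option linter.unusedSectionVars false

namespace Pool.Agent.Exact

open Finset

/-- the counting facts, minimum indegree at least `k`, hubs of both types -/
structure CntM (k θ n a b ρ σ MMs Z q0 SQ SP : ℝ) : Prop where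
  card : n = a + b + ρ + σ
  E1 : SP + k * (n - b) ≤ (2 * k - 1) * θ
  OI : SQ + SP + k * a ≤ (2 * k - 1) * θ + a * b
  ZC : (k - b) * σ ≤ Z + ((2 * k - 1) * θ - SP - k * (n - b)) + k * a + ρ
  HH : σ - (n - 1 - q0 - k) ≤ MMs

/-- the numerical consequences -/
theorem CntM.num {k a b : ℤ} {θ n ρ σ MMs Z Γ q0 SQ SP g y u : ℝ}
    (c : CntM k θ n a b ρ σ MMs Z q0 SQ SP) (a2 : 2 ≤ a) (b1 : 1 ≤ b)
    (par : (a + b) % 2 = 1) (hρ : 0 ≤ ρ) (hg : ρ ≤ 2 * g) (hθ : n + 1 ≤ 2 * θ)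
    (hq0 : q0 = θ + y) (hqn : q0 ≤ n - 1 - k) (hu : g < u) (huy : u ≤ y)
    (hSQ : q0 + (a - 1) * (θ - 2) ≤ SQ) (hSP : b * (θ + u) ≤ SP) (hG : MMs - Z ≤ Γ)
    (hΓ : Γ < y - g + 2) :
    (a + b ≤ 2 * k - 3 ∧ b ≤ k - 2) ∧ u - g ≤ Z ∧ 3 * y + 4 ≤ Z + θ + 2 * g ∧
      2 * y + 2 - (2 * θ - n - 1) ≤ σ + 2 * g := by
  subst hq0
  have hc := c.card
  have e : σ = n - a - b - ρ := by linarith
  subst e
  have hE := c.E1
  have hO := c.OI
  have hZ := c.ZC
  have hH := c.HH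
  have a2r : (2 : ℝ) ≤ a := by exact_mod_cast a2
  have b1r : (1 : ℝ) ≤ b := by exact_mod_cast b1
  obtain ⟨κ, hκ⟩ : ∃ κ : ℝ, κ = n - 1 - k - θ - y := ⟨_, rfl⟩
  obtain ⟨μ, hμ⟩ : ∃ μ : ℝ, μ = 2 * θ - n - 1 := ⟨_, rfl⟩
  obtain ⟨G, hG'⟩ : ∃ G : ℝ, G = ρ / 2 := ⟨_, rfl⟩
  have κ0 : 0 ≤ κ := by linarith
  have μ0 : 0 ≤ μ := by linarith
  have G0 : 0 ≤ G := by linarith
  have Gg : G ≤ g := by linarith
  have g0 : 0 ≤ g := by linarith
  have y0 : 0 < y := by linarith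
  have eρ : ρ = 2 * G := by linarith
  have eθ : θ = μ + 2 + k + y + κ := by linarith
  have en : n = μ + 3 + 2 * k + 2 * y + 2 * κ := by linarith
  clear hκ hμ hG' hc
  subst eρ
  subst eθ
  subst en
  have bu : 0 < (b : ℝ) * u := mul_pos (by linarith) (by linarith)
  have byk : 0 < ((b : ℝ) + 1) * (y + 2 + κ) := mul_pos (by linarith) (by linarith)
  -- few hubs of the second type
  have s1 : b ≤ k - 2 := by
    by_contra hc1
    push Not at hc1
    have hc' : (k : ℝ) - 1 ≤ b := by exact_mod_cast (by omega : k - 1 ≤ b)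
    have h6 : ((k : ℝ) - 1 - b) * μ ≤ 0 := mul_nonpos_of_nonpos_of_nonneg (by linarith) μ0
    linarith
  have s1r : (b : ℝ) ≤ k - 2 := by exact_mod_cast s1
  have akb : 0 ≤ (a : ℝ) * (k - 2 - b) := mul_nonneg (by linarith) (by linarith)
  have s2 : a + b ≤ 2 * k - 3 := by
    by_contra hc1
    push Not at hc1
    have hc' : 2 * (k : ℝ) - 1 ≤ a + b := by exact_mod_cast (by omega : 2 * k - 1 ≤ a + b)
    have h6 : (2 * (k : ℝ) - 1 - a - b) * (μ + 2 + k + y + κ) ≤ 0 :=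
      mul_nonpos_of_nonpos_of_nonneg (by linarith) (by linarith)
    linarith
  have s2r : (a : ℝ) + b ≤ 2 * k - 3 := by exact_mod_cast s2
  refine ⟨⟨s2, s1⟩, by linarith, ?_, by linarith⟩
  rcases le_or_gt (y - g) (3 * k - 1 - a - b) with h1 | h1
  · linarith
  · have P1 : 0 ≤ (2 * (k : ℝ) - b - 1) * (y - g - (a + b - k) - 5) :=
      mul_nonneg (by linarith) (by linarith)
    have P2 : 0 ≤ (2 * (k : ℝ) - b + 2) * κ := mul_nonneg (by linarith) κ0
    have P3 : 0 ≤ (b : ℝ) * (u - g) := mul_nonneg (by linarith) (by linarith)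
    have P4 : 0 ≤ ((k : ℝ) - b + 1) * (g - G) := mul_nonneg (by linarith) (by linarith)
    have P5 : 0 ≤ (2 * (b : ℝ) - 1) * g := mul_nonneg (by linarith) g0
    linarith

variable {V : Type*} [Fintype V] [DecidableEq V]
variable {B : V → V → ℤ} {Rl : Finset V} {ℓ nQ nP : ℕ} {uq up : ℕ → V} {q p : ℕ → ℝ}
variable {k : ℤ} {θ : ℝ}
variable {R Rs S : Finset V} {g : ℤ} {Kc : V → Finset V} {pick : Finset V → V}

/-- the number of arcs from `S` to `Rs` -/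
lemma Dec.SR (hd : Dec B pick R Rs S g Kc) (h0 : ∀ u v, 0 ≤ B u v) (h1 : ∀ u v, B u v ≤ 1) :
    ar B S Rs ≤ Rs.card := by
  classical
  refine le_trans ?_ hd.sizes
  unfold ar
  refine Finset.sum_le_sum fun v hv => ?_
  have hK := (hd.bad v hv).1.cl
  have hvK := (hd.bad v hv).2.1
  have hsub := (hd.bad v hv).2.2.2
  have e1 : ∑ u ∈ Rs, B v u = ∑ u ∈ (Kc v).erase v, B v u := by
    refine (Finset.sum_subset hsub ?_).symm
    intro u hu hu'
    have huR : u ∈ R := by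
      rw [← hd.un]
      exact Finset.mem_union_left _ hu
    have huv : u ≠ v := by
      rintro rfl
      exact Finset.disjoint_left.1 hd.dj hu hv
    have huK : u ∉ Kc v := fun h' => hu' (Finset.mem_erase.2 ⟨huv, h'⟩)
    exact (hK.zero h0 hvK huR huK).1
  rw [e1]
  calc ∑ u ∈ (Kc v).erase v, B v u ≤ ∑ _u ∈ (Kc v).erase v, (1 : ℤ) :=
        Finset.sum_le_sum fun u _ => h1 v u
    _ = (((Kc v).erase v).card : ℤ) := by simp
    _ = (Kc v).card - 1 := by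
        rw [Finset.card_erase_of_mem hvK]
        have : 1 ≤ (Kc v).card := Finset.card_pos.2 ⟨v, hvK⟩
        push_cast [Nat.cast_sub this]
        ring

/-- **The counting facts**, minimum indegree at least `k`, hubs of both types -/
theorem Ctx.cntM (h : Ctx B Rl ℓ nQ nP uq up q p k θ) (hin : ∀ v ∈ Rl, k ≤ ∑ u, B u v)
    {a b : ℕ} (ha1 : 1 ≤ a) (ha : a ≤ nQ) (hb : b ≤ nP)
    (hd : Dec B pick (vs uq up (rr nQ nP a b)) Rs S g Kc) :
    CntM k θ Rl.card a b Rs.card S.card ((∑ v ∈ S, MM B (uq 0) v : ℤ) : ℝ)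
      ((- ∑ v ∈ S, im B v : ℤ) : ℝ) (q 0) (∑ j ∈ range a, q j) (∑ j ∈ range b, p j) ∧
    ∀ v ∈ S, |((im B v : ℤ) : ℝ)| ≤ a + b + Rs.card := by
  classical
  have hQ := h.fr.nQle
  have hP := h.fr.nPle
  have B0 := h.fr.sys.B0
  have B1 := h.fr.sys.B1
  have Bd := h.fr.sys.Bd
  have dum := h.fr.sys.dummy
  have par := h.fr.par ha hb hd
  set O : Finset V := vs uq up (iq 0 a) with hO
  set I : Finset V := vs uq up (ip 0 b) with hI
  have cO : (O.card : ℤ) = a := by rw [hO, h.fr.card_hub ha]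
  have cI : (I.card : ℤ) = b := by rw [hI, h.fr.card_hubP hb]
  have sO : (((∑ v ∈ O, im B v : ℤ)) : ℝ) = ∑ j ∈ range a, q j := h.fr.sum_hub ha
  have sI : (((∑ v ∈ I, im B v : ℤ)) : ℝ) = - ∑ j ∈ range b, p j := h.fr.sum_hubP hb
  have h0O : uq 0 ∈ O := by
    rw [hO]
    unfold vs
    rw [Finset.mem_image]
    exact ⟨Sum.inl 0, by simp only [inl_mem_iq]; omega, rfl⟩
  have h0R : uq 0 ∈ Rl := par.sO h0O
  have h0S : uq 0 ∉ S := by
    intro h'
    exact Finset.disjoint_left.1 par.d2 (Finset.mem_union_left _ h0O) (Finset.mem_union_right _ h')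
  -- total number
  have tot := par.total (B := B) dum
  have tot' := par.total' (B := B) dum
  have rO := par.row (B := B) O
  have rI := par.row (B := B) I
  have rR := par.row (B := B) Rs
  have rS := par.row (B := B) S
  have c_O := par.col (B := B) O
  have c_I := par.col (B := B) I
  have c_R := par.col (B := B) Rs
  have c_S := par.col (B := B) S
  have inn : ∀ X : Finset V, X ⊆ Rl → k * (X.card : ℤ) ≤ ar B Rl X := by
    intro X hX
    rw [← sum_col dum]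
    calc k * (X.card : ℤ) = ∑ _v ∈ X, k := by rw [Finset.sum_const, nsmul_eq_mul]; ring
      _ ≤ _ := Finset.sum_le_sum fun v hv => hin v (hX hv)
  have nO := inn O par.sO
  have nR := inn Rs par.sR
  have nS := inn S par.sS
  have iO := im_sum_ar dum O
  have iI := im_sum_ar dum I
  have iS := im_sum_ar dum S
  have SS0 := hd.SS B0
  have SR := hd.SR B0 B1
  have lOI := ar_le B1 O I
  have lSI := ar_le B1 S I
  have nn : ∀ X Y : Finset V, 0 ≤ ar B X Y := fun X Y => ar_nn B0 X Y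
  have cardE := par.card
  rw [cO, cI] at lOI cardE
  rw [cI] at lSI
  rw [cO] at nO
  have tot1 : (2 * (k : ℝ) - 1) * θ = ((mm B : ℤ) : ℝ) := h.hm
  have q0e : ((im B (uq 0) : ℤ) : ℝ) = q 0 := h.fr.sys.wtQ 0 (by have := h.fr.l2; omega)
  -- integer statements
  have E1z : - ∑ v ∈ I, im B v + k * (a + Rs.card + S.card) ≤ mm B := by
    have n1 := nn I O
    have n2 := nn I Rs
    have n3 := nn I S
    have n4 := nn I I
    linarith
  have OIz : ∑ v ∈ O, im B v - ∑ v ∈ I, im B v + k * a ≤ mm B + a * b := by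
    have n1 := nn I O
    have n2 := nn I Rs
    have n3 := nn I S
    have n5 := nn Rs O
    have n6 := nn Rs Rs
    have n7 := nn Rs S
    have n8 := nn S O
    have n9 := nn S Rs
    have n10 := nn I I
    linarith
  have ZCz : (k - b) * (S.card : ℤ) ≤ - ∑ v ∈ S, im B v +
      (mm B + ∑ v ∈ I, im B v - k * (a + Rs.card + S.card)) + k * a + Rs.card := by
    have n1 := nn I O
    have n2 := nn I Rs
    have n3 := nn I S
    have n4 := nn I I
    have n5 := nn Rs O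
    have n6 := nn O O
    linarith
  have HHz : (S.card : ℤ) - ((Rl.card : ℤ) - 1 - im B (uq 0) - k) ≤ ∑ v ∈ S, MM B (uq 0) v := by
    have f1 : ∑ u, B (uq 0) u = ∑ u ∈ Rl.erase (uq 0), B (uq 0) u := by
      rw [row_real dum, ← Finset.add_sum_erase Rl _ h0R, Bd, zero_add]
    have hSs : S ⊆ Rl.erase (uq 0) := fun v hv =>
      Finset.mem_erase.2 ⟨fun e => h0S (e ▸ hv), par.sS hv⟩
    have f2 : ∑ u ∈ Rl.erase (uq 0), B (uq 0) u =
        ∑ u ∈ Rl.erase (uq 0) \ S, B (uq 0) u + ∑ u ∈ S, B (uq 0) u :=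
      (Finset.sum_sdiff hSs).symm
    have f3 : ∑ u ∈ Rl.erase (uq 0) \ S, B (uq 0) u ≤ (Rl.card : ℤ) - 1 - S.card := by
      calc ∑ u ∈ Rl.erase (uq 0) \ S, B (uq 0) u
          ≤ ∑ _u ∈ Rl.erase (uq 0) \ S, (1 : ℤ) := Finset.sum_le_sum fun u _ => B1 _ u
        _ = ((Rl.erase (uq 0) \ S).card : ℤ) := by simp
        _ = (Rl.card : ℤ) - 1 - S.card := by
            rw [Finset.card_sdiff_of_subset hSs, Finset.card_erase_of_mem h0R]
            have g1 : 1 ≤ Rl.card := Finset.card_pos.2 ⟨_, h0R⟩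
            have g2 : S.card ≤ Rl.card - 1 := by
              rw [← Finset.card_erase_of_mem h0R]
              exact Finset.card_le_card hSs
            rw [Nat.cast_sub g2, Nat.cast_sub g1]
            push_cast
            ring
    have f4 : ∑ u ∈ S, B (uq 0) u ≤ ∑ v ∈ S, MM B (uq 0) v := by
      refine Finset.sum_le_sum fun v _ => ?_
      unfold MM
      linarith [B0 v (uq 0)]
    have f5 := hin (uq 0) h0R
    have f6 : im B (uq 0) = ∑ u, B (uq 0) u - ∑ u, B u (uq 0) := rfl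
    linarith
  have cardR : (Rl.card : ℝ) = a + b + (Rs.card : ℝ) + S.card := by
    have h1 : ((Rl.card : ℤ) : ℝ) = (((a : ℤ) + b + Rs.card + S.card : ℤ) : ℝ) := by rw [cardE]
    push_cast at h1
    exact h1
  have E1r : - ((∑ v ∈ I, im B v : ℤ) : ℝ) + k * (a + Rs.card + S.card) ≤ mm B := by
    exact_mod_cast E1z
  have OIr : ((∑ v ∈ O, im B v : ℤ) : ℝ) - ((∑ v ∈ I, im B v : ℤ) : ℝ) + k * a ≤
      mm B + a * b := by exact_mod_cast OIz
  have ZCr : ((k : ℝ) - b) * S.card ≤ ((- ∑ v ∈ S, im B v : ℤ) : ℝ) +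
      (mm B + ((∑ v ∈ I, im B v : ℤ) : ℝ) - k * (a + Rs.card + S.card)) + k * a +
      Rs.card := by exact_mod_cast ZCz
  have HHr : (S.card : ℝ) - ((Rl.card : ℝ) - 1 - ((im B (uq 0) : ℤ) : ℝ) - k) ≤
      ((∑ v ∈ S, MM B (uq 0) v : ℤ) : ℝ) := by exact_mod_cast HHz
  rw [sI, ← tot1] at E1r ZCr
  rw [sO, sI, ← tot1] at OIr
  rw [q0e] at HHr
  have e2 : (Rl.card : ℝ) - b = a + Rs.card + S.card := by rw [cardR]; ring
  refine ⟨⟨cardR, ?_, ?_, ?_, HHr⟩, ?_⟩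
  · rw [e2]
    linarith
  · linarith
  · rw [e2]
    linarith
  · intro v hv
    have hcard : ((Rl \ S).card : ℤ) = a + b + Rs.card := by
      have e3 := Finset.card_sdiff_add_card_eq_card par.sS
      have e4 : ((Rl \ S).card : ℤ) + S.card = Rl.card := by exact_mod_cast e3
      linarith
    have hz : ∀ u ∈ S, B v u = 0 ∧ B u v = 0 := by
      intro u hu
      have h5 := hd.ind v hv u hu
      unfold MM at h5
      have h6 := B0 v u
      have h7 := B0 u v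
      constructor <;> omega
    have r1 : ∑ u, B v u ≤ (a : ℤ) + b + Rs.card := by
      rw [row_real dum, ← Finset.sum_sdiff par.sS, Finset.sum_eq_zero fun u hu => (hz u hu).1,
        add_zero, ← hcard]
      calc ∑ u ∈ Rl \ S, B v u ≤ ∑ _u ∈ Rl \ S, (1 : ℤ) := Finset.sum_le_sum fun u _ => B1 _ u
        _ = _ := by simp
    have r2 : ∑ u, B u v ≤ (a : ℤ) + b + Rs.card := by
      rw [col_real dum, ← Finset.sum_sdiff par.sS, Finset.sum_eq_zero fun u hu => (hz u hu).2,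
        add_zero, ← hcard]
      calc ∑ u ∈ Rl \ S, B u v ≤ ∑ _u ∈ Rl \ S, (1 : ℤ) := Finset.sum_le_sum fun u _ => B1 u _
        _ = _ := by simp
    have r3 : 0 ≤ ∑ u, B v u := Finset.sum_nonneg fun u _ => B0 v u
    have r4 : 0 ≤ ∑ u, B u v := Finset.sum_nonneg fun u _ => B0 u v
    have h1 : |im B v| ≤ (a : ℤ) + b + Rs.card := by
      unfold im
      rw [abs_le]
      constructor <;> linarith
    rw [← Int.cast_abs]
    exact_mod_cast h1

end Pool.Agent.Exact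


end

section

/-!
# Hubs of both types, an even number of the first and an odd number of the second, minimum
indegree at least `k`: attaching vertices to the lowest hub of the second type
-/

set_option autoImplicit false
set_option linter.unusedSectionVars false
set_option linter.unusedSimpArgs false
set_option linter.unnecessarySeqFocus false
set_option linter.unreachableTactic false
set_option linter.unusedTactic false

namespace Pool.Agent.Exact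

open Finset

/-- a maximal subset with a bounded sum -/
theorem exists_max_sub {α : Type*} [DecidableEq α] (f : α → ℝ) {c : ℝ} (hc : 0 ≤ c)
    (P : Finset α) : ∃ F ⊆ P, ∑ v ∈ F, f v ≤ c ∧ (F = P ∨ ∃ v ∈ P, c < ∑ v ∈ F, f v + f v) := by
  induction P using Finset.induction_on with
  | empty => exact ⟨∅, Finset.Subset.refl _, by simpa using hc, Or.inl rfl⟩
  | insert x P hx ih =>
    obtain ⟨F, hF, h1, h2⟩ := ih
    rcases h2 with rfl | ⟨v, hv, h2⟩
    · rcases le_or_gt (∑ v ∈ F, f v + f x) c with h3 | h3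
      · refine ⟨insert x F, Finset.Subset.refl _, ?_, Or.inl rfl⟩
        rw [Finset.sum_insert hx]
        linarith
      · exact ⟨F, Finset.subset_insert _ _, h1, Or.inr ⟨x, Finset.mem_insert_self _ _, h3⟩⟩
    · exact ⟨F, hF.trans (Finset.subset_insert _ _), h1,
        Or.inr ⟨v, Finset.mem_insert_of_mem hv, h2⟩⟩

variable {V : Type*} [Fintype V] [DecidableEq V]
variable {B : V → V → ℤ} {Rl : Finset V} {ℓ nQ nP : ℕ} {uq up : ℕ → V} {q p : ℕ → ℝ}
variable {k : ℤ} {θ : ℝ}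
variable {Rs S : Finset V} {g : ℤ} {Kc : V → Finset V} {pick : Finset V → V}

/-- **Attaching vertices of the second type to a hub of the second type.** -/
theorem closeZ {a b : ℕ} {F : Finset V} {Y : ℤ} {y0 K0 t pz : ℝ} {z : ℕ ⊕ ℕ}
    (hT : T2A B uq up a b S g Y) (hz : z ∈ hb a b)
    (hst : StI B uq up ((hb a b).erase z) 0 K0 t) (hK0 : 0 ≤ K0)
    (hpz : ((im B (vx uq up z) : ℤ) : ℝ) = - pz) (hB0 : ∀ u v, 0 ≤ B u v) (hFS : F ⊆ S)
    (hneg : ∀ v ∈ F, im B v < 0) (hF : ∑ v ∈ F, |((im B v : ℤ) : ℝ)| ≤ pz)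
    (hy0 : 0 ≤ y0) (hβ : ∀ v ∈ S, |((im B v : ℤ) : ℝ)| ≤ y0)
    (h1 : (Y : ℝ) - (∑ v ∈ S, |((im B v : ℤ) : ℝ)| - ∑ v ∈ F, |((im B v : ℤ) : ℝ)|) ≤ θ + g)
    (h2 : y0 ≤ θ + g) (h3 : K0 ≤ θ + g)
    (h4 : pz - ∑ v ∈ F, |((im B v : ℤ) : ℝ)| ≤ θ + g)
    (h5 : (Y : ℝ) - ∑ v ∈ S, |((im B v : ℤ) : ℝ)| + t + pz ≤ 2 * θ + 2 * g)
    (h6 : y0 + t + (pz - ∑ v ∈ F, |((im B v : ℤ) : ℝ)|) ≤ 2 * θ + 2 * g) : Val B θ := by
  classical
  have hSF : S \ (S \ F) = F := Finset.sdiff_sdiff_eq_self hFS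
  have hsum : ∑ v ∈ S \ F, |((im B v : ℤ) : ℝ)| =
      ∑ v ∈ S, |((im B v : ℤ) : ℝ)| - ∑ v ∈ F, |((im B v : ℤ) : ℝ)| := by
    rw [← Finset.sum_sdiff hFS]
    ring
  set L : ℝ := ((im B (vx uq up z) + ∑ v ∈ F, im B v * (-1) : ℤ) : ℝ) with hL
  have hLe : L = - (pz - ∑ v ∈ F, |((im B v : ℤ) : ℝ)|) := by
    rw [hL]
    push_cast
    rw [hpz, neg_sub, sub_eq_add_neg, add_comm]
    congr 1
    refine Finset.sum_congr rfl fun v hv => ?_
    have h7 : ((im B v : ℤ) : ℝ) < 0 := by exact_mod_cast hneg v hv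
    rw [abs_of_neg h7]
    ring
  have hLa : |L| = pz - ∑ v ∈ F, |((im B v : ℤ) : ℝ)| := by
    rw [hLe, abs_neg, abs_of_nonneg (by linarith)]
  have hcost : ((∑ v ∈ F, MM B (vx uq up z) v * (-1) : ℤ) : ℝ) ≤ 0 := by
    have h7 : ∑ v ∈ F, MM B (vx uq up z) v * (-1) ≤ 0 := by
      refine Finset.sum_nonpos fun v _ => ?_
      have : 0 ≤ MM B (vx uq up z) v := by
        unfold MM
        linarith [hB0 (vx uq up z) v, hB0 v (vx uq up z)]
      linarith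
    exact_mod_cast h7
  have h7 := hT z hz (S \ F) Finset.sdiff_subset (fun _ => -1) (fun _ => Or.inr rfl) y0 0
    (max K0 |L|) t (hK0.trans (le_max_left _ _)) hy0
    (fun v hv => hβ v (Finset.mem_sdiff.1 hv).1)
    (by rw [hSF]; exact le_max_right _ _) (hst.mono le_rfl (le_max_left _ _) le_rfl)
  rw [hSF, ← hL, hsum] at h7
  refine h7.mono ?_
  rw [hLa]
  generalize ((∑ v ∈ F, MM B (vx uq up z) v * (-1) : ℤ) : ℝ) = C at *
  generalize ∑ v ∈ S, |((im B v : ℤ) : ℝ)| = W at *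
  generalize ∑ v ∈ F, |((im B v : ℤ) : ℝ)| = X at *
  have e : -(g : ℝ) + (0 + C) ≤ -(g : ℝ) := by linarith
  have m1 : max (max (max ((Y : ℝ) - (W - X)) y0) (max K0 (pz - X)))
      ((max ((Y : ℝ) - (W - X)) y0 + (t + (pz - X))) / 2) ≤ θ + g := by
    refine max_le (max_le (max_le h1 h2) (max_le h3 h4)) ?_
    rcases max_choice ((Y : ℝ) - (W - X)) y0 with h8 | h8 <;> rw [h8] <;> linarith
  linarith

/-- the vertices of the rest -/
lemma Frame.absR (h : Frame B Rl ℓ nQ nP uq up q p) {a b : ℕ} {v : V}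
    (hv : v ∈ vs uq up (rr nQ nP a b)) {m : ℝ} (hq : ∀ l, a ≤ l → l < nQ → q l ≤ m)
    (hp : ∀ l, b ≤ l → l < nP → p l ≤ m) : |((im B v : ℤ) : ℝ)| ≤ m := by
  have hQ := h.nQle
  have hP := h.nPle
  unfold vs at hv
  rw [Finset.mem_image] at hv
  obtain ⟨x, hx, rfl⟩ := hv
  rcases x with l | l
  · have hx' : a ≤ l ∧ l < nQ := by
      unfold rr at hx
      simpa only [Finset.mem_union, inl_mem_iq, inl_mem_ip, or_false] using hx
    have h1 : ((im B (vx uq up (Sum.inl l)) : ℤ) : ℝ) = q l := h.sys.wtQ l (by omega)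
    rw [h1, abs_of_nonneg (h.sys.chQ.nn l (by omega))]
    exact hq l hx'.1 hx'.2
  · have hx' : b ≤ l ∧ l < nP := by
      unfold rr at hx
      simpa only [Finset.mem_union, inr_mem_iq, inr_mem_ip, false_or] using hx
    have h1 : ((im B (vx uq up (Sum.inr l)) : ℤ) : ℝ) = - p l := h.sys.wtP l (by omega)
    rw [h1, abs_neg, abs_of_nonneg (h.sys.chP.nn l (by omega))]
    exact hp l hx'.1 hx'.2

lemma ch_add_MM (a : V → ℤ) (ha : ∀ v, 0 ≤ a v) (S : Finset V) :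
    (S.card : ℤ) ≤ ch a S + ∑ v ∈ S, a v := by
  unfold ch
  rw [← Finset.sum_add_distrib]
  calc (S.card : ℤ) = ∑ _v ∈ S, (1 : ℤ) := by simp
    _ ≤ _ := by
      refine Finset.sum_le_sum fun v _ => ?_
      have := ha v
      split_ifs with h1 <;> omega

/-- the hubs without the lowest hub of the second type -/
lemma hb_erase (a b : ℕ) : (hb a (b + 1)).erase (Sum.inr b) = iq (2 * 0) a ∪ ip (2 * 0) b := by
  unfold hb
  ext x
  rcases x with x | x
  · simp only [Finset.mem_erase, Finset.mem_union, inl_mem_iq, inl_mem_ip, or_false, ne_eq,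
      reduceCtorEq, not_false_eq_true, true_and, Nat.mul_zero]
  · simp only [Finset.mem_erase, Finset.mem_union, inr_mem_iq, inr_mem_ip, false_or, ne_eq,
      Sum.inr.injEq, Nat.mul_zero]
    omega

/-- **No low values for the hubs of the second type if item and total fail.** -/
theorem Ctx.mi4 (h : Ctx B Rl ℓ nQ nP uq up q p k θ) (hn : 2 * k - 1 ≤ (Rl.card : ℤ))
    (hnv : ¬ Val B θ) (hpq : p 0 ≤ q 0) (hin : ∀ v ∈ Rl, k ≤ ∑ u, B u v) {i j : ℕ}
    (hi : i + 1 < ℓ) (hj : j < ℓ) (haQ : 2 * (i + 1) ≤ nQ) (hbP : 2 * j + 1 ≤ nP)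
    (hd : Dec B pick (vs uq up (rr nQ nP (2 * (i + 1)) (2 * j + 1))) Rs S g Kc) {Y : ℤ} {nb : ℝ}
    (hT : T2A B uq up (2 * (i + 1)) (2 * j + 1) S g Y) (hnb : 0 ≤ nb)
    (hqi : θ - 2 ≤ q (2 * i + 1))
    (hrQ : q (2 * (i + 1)) ≤ max (q (2 * i + 1) - (θ - 2)) (p (2 * j) - θ) + 2)
    (hrP : p (2 * j + 1) ≤ max (q (2 * i + 1) - (θ - 2)) (p (2 * j) - θ) + 2)
    (hu : θ + g < p (2 * j)) (hΓ : ((Gam B (uq 0) S : ℤ) : ℝ) < q 0 - θ - g + 2)
    (hTf : ((Y : ℝ) + ((Gam B (uq 0) S : ℤ) : ℝ) + ((ch (MM B (uq 0)) S : ℤ) : ℝ) + nb <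
      cRr B nQ nP uq up (2 * (i + 1)) (2 * j + 1) + q 0 - θ + 2) ∨ Y ≤ 0) : False := by
  classical
  have hl := h.fr.l2
  have hQ := h.fr.nQle
  have hP := h.fr.nPle
  have hlam := h.lam2 hn
  have hqθ := h.top hnv hpq
  have hθ3 := h.θ3 hn
  have k3r := h.k3r
  have hq0k : q 0 ≤ Rl.card - 1 - k := h.qleK hin (by omega) (by linarith)
  have hcR := h.cR (a := 2 * (i + 1)) (b := 2 * j + 1) (by omega) haQ hbP
  have hcg : (Rs.card : ℝ) ≤ 2 * (g : ℝ) := by exact_mod_cast hd.cg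
  have hg0 : (0 : ℝ) ≤ (g : ℝ) := by exact_mod_cast hd.g0
  obtain ⟨c, hw⟩ := h.cntM hin (a := 2 * (i + 1)) (b := 2 * j + 1) (by omega) haQ hbP hd
  have hpp : ∀ l < 2 * j + 1, p (2 * j) ≤ p l := fun l hl' =>
    h.fr.pa (i := l) (j := 2 * j) (by omega) (by omega)
  have hpj0 : p (2 * j) ≤ p 0 := h.fr.pa (i := 0) (j := 2 * j) (by omega) (by omega)
  have hqi0 : q (2 * i + 1) ≤ q 0 := h.fr.qa (i := 0) (j := 2 * i + 1) (by omega) (by omega)
  have c' : CntM k θ Rl.card (((2 * (i + 1) : ℕ) : ℤ) : ℝ) (((2 * j + 1 : ℕ) : ℤ) : ℝ) Rs.card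
      S.card ((∑ v ∈ S, MM B (uq 0) v : ℤ) : ℝ) ((- ∑ v ∈ S, im B v : ℤ) : ℝ) (q 0)
      (∑ l ∈ range (2 * (i + 1)), q l) (∑ l ∈ range (2 * j + 1), p l) := by
    simpa only [Int.cast_natCast] using c
  have hS2 : (2 * j + 1 : ℕ) * p (2 * j) ≤ ∑ l ∈ range (2 * j + 1), p l := by
    have h1 : ∑ _l ∈ range (2 * j + 1), p (2 * j) ≤ ∑ l ∈ range (2 * j + 1), p l :=
      Finset.sum_le_sum fun l hl' => hpp l (Finset.mem_range.1 hl')
    rwa [Finset.sum_const, nsmul_eq_mul, Finset.card_range] at h1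
  have hS3 : q 0 + (2 * i + 1 : ℕ) * q (2 * i + 1) ≤ ∑ l ∈ range (2 * i + 1 + 1), q l := by
    rw [Finset.sum_range_succ', add_comm]
    have h1 : ∑ _l ∈ range (2 * i + 1), q (2 * i + 1) ≤ ∑ l ∈ range (2 * i + 1), q (l + 1) :=
      Finset.sum_le_sum fun l hl' => h.fr.qa (i := l + 1) (j := 2 * i + 1)
        (by have := Finset.mem_range.1 hl'; omega) (by omega)
    rw [Finset.sum_const, nsmul_eq_mul, Finset.card_range] at h1
    linarith
  have hi0 : (0 : ℝ) ≤ ((2 * i + 1 : ℕ) : ℝ) := Nat.cast_nonneg _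
  have hS4 : ((2 * i + 1 : ℕ) : ℝ) * (θ - 2) ≤ ((2 * i + 1 : ℕ) : ℝ) * q (2 * i + 1) :=
    mul_le_mul_of_nonneg_left hqi hi0
  have e1 : 2 * (i + 1) = 2 * i + 1 + 1 := by ring
  -- the set S
  have hGz : ∑ v ∈ S, MM B (uq 0) v - (- ∑ v ∈ S, im B v) ≤ Gam B (uq 0) S := by
    have := Gam_ge (B := B) (uq 0) S
    rw [Finset.sum_add_distrib] at this
    linarith
  have hGr : ((∑ v ∈ S, MM B (uq 0) v : ℤ) : ℝ) - ((- ∑ v ∈ S, im B v : ℤ) : ℝ) ≤
      ((Gam B (uq 0) S : ℤ) : ℝ) := by exact_mod_cast hGz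
  have hG0 : (0 : ℝ) ≤ ((Gam B (uq 0) S : ℤ) : ℝ) := by exact_mod_cast Gam_nn (B := B) (uq 0) S
  have hchz := ch_add_MM (MM B (uq 0)) (fun v => by
    unfold MM; linarith [h.fr.sys.B0 (uq 0) v, h.fr.sys.B0 v (uq 0)]) S
  have hchr : (S.card : ℝ) ≤ ((ch (MM B (uq 0)) S : ℤ) : ℝ) +
      ((∑ v ∈ S, MM B (uq 0) v : ℤ) : ℝ) := by exact_mod_cast hchz
  have hch0 : (0 : ℝ) ≤ ((ch (MM B (uq 0)) S : ℤ) : ℝ) := by
    exact_mod_cast ch_nonneg (a := MM B (uq 0)) S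
  obtain ⟨⟨n1, n2⟩, n3, n4, n5⟩ := c'.num (g := g) (y := q 0 - θ) (u := p (2 * j) - θ)
    (Γ := ((Gam B (uq 0) S : ℤ) : ℝ)) (by push_cast; omega) (by push_cast; omega) (by omega)
    (Nat.cast_nonneg _) hcg (by linarith) (by ring) hq0k (by linarith) (by linarith)
    (by rw [e1]; push_cast at hS3 hS4 ⊢; linarith) (by push_cast at hS2 ⊢; linarith) hGr
    (by linarith)
  have n1r : ((2 * (i + 1) : ℕ) : ℝ) + ((2 * j + 1 : ℕ) : ℝ) ≤ 2 * k - 3 := by exact_mod_cast n1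
  -- the negative vertices of `S`
  set P : Finset V := S.filter fun v => im B v < 0 with hPd
  have hPS : P ⊆ S := Finset.filter_subset _ _
  obtain ⟨F, hFP, hF1, hF2⟩ := exists_max_sub (fun v => |((im B v : ℤ) : ℝ)|)
    (c := p (2 * j)) (by linarith) P
  have hWP : ((- ∑ v ∈ S, im B v : ℤ) : ℝ) ≤ ∑ v ∈ P, |((im B v : ℤ) : ℝ)| := by
    have e2 : ∑ v ∈ S, im B v = ∑ v ∈ P, im B v + ∑ v ∈ S.filter (fun v => ¬ im B v < 0), im B v :=
      (Finset.sum_filter_add_sum_filter_not S _ _).symm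
    have e3 : 0 ≤ ∑ v ∈ S.filter (fun v => ¬ im B v < 0), im B v :=
      Finset.sum_nonneg fun v hv => not_lt.1 (Finset.mem_filter.1 hv).2
    have e4 : - ∑ v ∈ P, im B v = ∑ v ∈ P, |im B v| := by
      rw [← Finset.sum_neg_distrib]
      refine Finset.sum_congr rfl fun v hv => ?_
      rw [abs_of_neg (Finset.mem_filter.1 hv).2]
    have e5 : - ∑ v ∈ S, im B v ≤ ∑ v ∈ P, |im B v| := by linarith
    have e6 : ((- ∑ v ∈ S, im B v : ℤ) : ℝ) ≤ ((∑ v ∈ P, |im B v| : ℤ) : ℝ) := by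
      exact_mod_cast e5
    push_cast at e6 ⊢
    exact e6
  have hPW : ∑ v ∈ P, |((im B v : ℤ) : ℝ)| ≤ ∑ v ∈ S, |((im B v : ℤ) : ℝ)| :=
    Finset.sum_le_sum_of_subset_of_nonneg hPS fun v _ _ => abs_nonneg _
  have hFW : ∑ v ∈ F, |((im B v : ℤ) : ℝ)| ≤ ∑ v ∈ S, |((im B v : ℤ) : ℝ)| :=
    Finset.sum_le_sum_of_subset_of_nonneg (hFP.trans hPS) fun v _ _ => abs_nonneg _
  -- the hubs
  have hzm : (Sum.inr (2 * j) : ℕ ⊕ ℕ) ∈ hb (2 * (i + 1)) (2 * j + 1) := by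
    unfold hb
    simp only [Finset.mem_union, inr_mem_iq, inr_mem_ip]
    omega
  have hzw : ((im B (vx uq up (Sum.inr (2 * j))) : ℤ) : ℝ) = - p (2 * j) :=
    h.fr.sys.wtP (2 * j) (by omega)
  have hAq : AA q (i + 1) ≤ q 0 - q (2 * i + 1) := by
    have f1 := h.fr.qE (Nat.zero_le i) (by omega : i < ℓ)
    simp only [Nat.mul_zero, AA_zero, sub_zero] at f1
    rw [AA_succ]
    linarith
  have hAp : AA p j ≤ p 0 - p (2 * j) := by
    have f1 := h.fr.pE (Nat.zero_le j) hj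
    simp only [Nat.mul_zero, AA_zero, sub_zero] at f1
    linarith
  have hst : StI B uq up ((hb (2 * (i + 1)) (2 * j + 1)).erase (Sum.inr (2 * j))) 0 (q 0 - θ + 2)
      (AA q (i + 1) + AA p j) := by
    have f1 := h.fr.Qe (K := q 0 - θ + 2) 0 (i + 1) (Nat.zero_le _) hi.le fun l _ hl' => by
      have g1 := h.fr.qgA (Nat.zero_le l) hl' hi.le
      simp only [AA_zero, sub_zero] at g1
      linarith
    have f2 := h.fr.Pe (K := q 0 - θ + 2) 0 j (Nat.zero_le _) hj.le fun l _ hl' => by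
      have g1 := h.fr.pgA (Nat.zero_le l) hl' hj.le
      simp only [AA_zero, sub_zero] at g1
      linarith
    have f3 := h.fr.join f1 f2 rfl (by unfold full; (intro x hx; revert hx; rcases x with x | x <;>
    simp only [Finset.mem_union, Finset.inl_mem_disjSum, Finset.inr_mem_disjSum, Finset.mem_range,
      inl_mem_iq, inr_mem_iq, inl_mem_ip, inr_mem_ip, or_false, false_or] <;> omega))
      (by (rw [Finset.disjoint_left]; intro x hx hx'; revert hx hx'; rcases x with x | x <;>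
    simp only [inl_mem_iq, inr_mem_iq, inl_mem_ip, inr_mem_ip, false_imp_iff, imp_false,
      implies_true, not_false_eq_true] <;> omega))
    rw [hb_erase]
    simp only [AA_zero, sub_zero] at f3
    exact f3.mono (by norm_num) le_rfl le_rfl
  -- the bound of the rest
  obtain ⟨x, hx⟩ : ∃ x : ℝ, x = q (2 * i + 1) - (θ - 2) := ⟨_, rfl⟩
  obtain ⟨u, hu'⟩ : ∃ u : ℝ, u = p (2 * j) - θ := ⟨_, rfl⟩
  rw [← hx, ← hu'] at hrQ hrP
  have hβ : ∀ v ∈ S, |((im B v : ℤ) : ℝ)| ≤ max x u + 2 := by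
    intro v hv
    refine h.fr.absR (a := 2 * (i + 1)) (b := 2 * j + 1) ?_ ?_ ?_
    · rw [← hd.un]
      exact Finset.mem_union_right _ hv
    · intro l h1 h2
      exact (h.fr.qa (i := 2 * (i + 1)) (j := l) h1 (by omega)).trans hrQ
    · intro l h1 h2
      exact (h.fr.pa (i := 2 * j + 1) (j := l) h1 (by omega)).trans hrP
  apply hnv
  have hF0 : 0 ≤ ∑ v ∈ F, |((im B v : ℤ) : ℝ)| := Finset.sum_nonneg fun v _ => abs_nonneg _
  have hmx : max x u = x ∨ max x u = u := max_choice _ _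
  have hmx0 : x ≤ max x u := le_max_left _ _
  have hmu0 : u ≤ max x u := le_max_right _ _
  have key : ∑ v ∈ P, |((im B v : ℤ) : ℝ)| = ∑ v ∈ F, |((im B v : ℤ) : ℝ)| ∨
      (p (2 * j) - ∑ v ∈ F, |((im B v : ℤ) : ℝ)| < 2 * k - 3 + 2 * g ∧
        p (2 * j) - ∑ v ∈ F, |((im B v : ℤ) : ℝ)| < max x u + 2) := by
    rcases hF2 with rfl | ⟨v, hv, hF2⟩
    · exact Or.inl rfl
    · right
      have h1 := hw v (hPS hv)
      have h2 := hβ v (hPS hv)
      constructor <;> linarith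
  have hmx4 : max x u + 2 ≤ q 0 - θ + 4 := by
    rcases hmx with h1 | h1 <;> rw [h1] <;> linarith
  have hY : (Y : ℝ) + ((Gam B (uq 0) S : ℤ) : ℝ) + ((ch (MM B (uq 0)) S : ℤ) : ℝ) <
      Rl.card + 1 - θ ∨ (Y : ℝ) ≤ 0 := by
    rcases hTf with h1 | h1
    · left
      linarith
    · right
      exact_mod_cast h1
  refine closeZ (F := F) (K0 := q 0 - θ + 2) (y0 := max x u + 2) hT hzm hst (by linarith) hzw
    h.fr.sys.B0 (hFP.trans hPS) (fun v hv => (Finset.mem_filter.1 (hFP hv)).2) hF1 (by linarith)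
    hβ ?_ ?_ ?_ ?_ ?_ ?_
  · rcases hY with h1 | h1 <;> linarith
  · linarith
  · linarith
  · rcases key with h1 | ⟨_, h1⟩ <;> linarith
  · rcases hY with h1 | h1 <;> linarith
  · rcases key with h1 | ⟨h1, _⟩
    · rcases hmx with h2 | h2 <;> rw [h2] <;> linarith
    · rcases hmx with h2 | h2 <;> rw [h2] <;> linarith

section leafs
variable (h : Ctx B Rl ℓ nQ nP uq up q p k θ) (hn : 2 * k - 1 ≤ (Rl.card : ℤ))
  (hnv : ¬ Val B θ) (hpq : p 0 ≤ q 0) (hin : ∀ v ∈ Rl, k ≤ ∑ u, B u v)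
include h hn hnv hpq hin

/-- the leaf 2a -/
theorem Ctx.mi2a {i j : ℕ} (hi : i + 1 < ℓ) (hj : j < ℓ)
    (hE : θ - MM B (uq 0) (up 0) < q (2 * i + 1) - q (2 * i + 2))
    (hD : θ < p (2 * j) - p (2 * j + 1)) (haQ : 2 * (i + 1) ≤ nQ) (hbP : 2 * j + 1 ≤ nP)
    (hd : Dec B pick (vs uq up (rr nQ nP (2 * (i + 1)) (2 * j + 1))) Rs S g Kc) {Y : ℤ} {nb : ℝ}
    (hT : T2A B uq up (2 * (i + 1)) (2 * j + 1) S g Y) (hnb : 0 ≤ nb)
    (hu : θ + g < p (2 * j)) (hΓ : ((Gam B (uq 0) S : ℤ) : ℝ) < q 0 - θ - g + 2)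
    (hTf : ((Y : ℝ) + ((Gam B (uq 0) S : ℤ) : ℝ) + ((ch (MM B (uq 0)) S : ℤ) : ℝ) + nb <
      cRr B nQ nP uq up (2 * (i + 1)) (2 * j + 1) + q 0 - θ + 2) ∨ Y ≤ 0) : False := by
  have hM2 := h.MM2 (uq 0) (up 0)
  have hQ := h.fr.nQle
  have hP := h.fr.nPle
  have hqn := h.fr.qn (i := 2 * i + 2) (by omega)
  have hpn := h.fr.pn (i := 2 * j + 1) (by omega)
  have e1 : 2 * (i + 1) = 2 * i + 2 := by ring
  have m1 := le_max_left (q (2 * i + 1) - (θ - 2)) (p (2 * j) - θ)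
  have m2 := le_max_right (q (2 * i + 1) - (θ - 2)) (p (2 * j) - θ)
  exact h.mi4 hn hnv hpq hin hi hj haQ hbP hd hT hnb (by linarith) (by rw [e1]; linarith)
    (by linarith) hu hΓ hTf

/-- the leaf 2c -/
theorem Ctx.mi2c {i j : ℕ} (hi : i + 1 < ℓ) (hj : j < ℓ)
    (hD : θ < p (2 * j) - p (2 * j + 1)) (h1 : θ - 2 < q (2 * i + 1))
    (h3 : q (2 * (i + 1)) < p (2 * j) - p (2 * j + 1) - θ + 2)
    (haQ : 2 * (i + 1) ≤ nQ) (hbP : 2 * j + 1 ≤ nP)
    (hd : Dec B pick (vs uq up (rr nQ nP (2 * (i + 1)) (2 * j + 1))) Rs S g Kc) {Y : ℤ} {nb : ℝ}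
    (hT : T2A B uq up (2 * (i + 1)) (2 * j + 1) S g Y) (hnb : 0 ≤ nb)
    (hu : θ + g < p (2 * j)) (hΓ : ((Gam B (uq 0) S : ℤ) : ℝ) < q 0 - θ - g + 2)
    (hTf : ((Y : ℝ) + ((Gam B (uq 0) S : ℤ) : ℝ) + ((ch (MM B (uq 0)) S : ℤ) : ℝ) + nb <
      cRr B nQ nP uq up (2 * (i + 1)) (2 * j + 1) + q 0 - θ + 2) ∨ Y ≤ 0) : False := by
  have hQ := h.fr.nQle
  have hP := h.fr.nPle
  have hpn := h.fr.pn (i := 2 * j + 1) (by omega)
  have m1 := le_max_left (q (2 * i + 1) - (θ - 2)) (p (2 * j) - θ)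
  have m2 := le_max_right (q (2 * i + 1) - (θ - 2)) (p (2 * j) - θ)
  exact h.mi4 hn hnv hpq hin hi hj haQ hbP hd hT hnb h1.le (by linarith)
    (by linarith) hu hΓ hTf

/-- the leaf 3c -/
theorem Ctx.mi3c {i l : ℕ} (hi : i + 1 < ℓ) (hl : l < ℓ)
    (hE : θ - MM B (uq 0) (up 0) < q (2 * i + 1) - q (2 * i + 2))
    (h3 : p (2 * l + 1) < q (2 * i + 1) - q (2 * i + 2) - θ + (MM B (uq 0) (up 0) + 2))
    (haQ : 2 * (i + 1) ≤ nQ) (hbP : 2 * l + 1 ≤ nP)
    (hd : Dec B pick (vs uq up (rr nQ nP (2 * (i + 1)) (2 * l + 1))) Rs S g Kc) {Y : ℤ} {nb : ℝ}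
    (hT : T2A B uq up (2 * (i + 1)) (2 * l + 1) S g Y) (hnb : 0 ≤ nb)
    (hu : θ + g < p (2 * l)) (hΓ : ((Gam B (uq 0) S : ℤ) : ℝ) < q 0 - θ - g + 2)
    (hTf : ((Y : ℝ) + ((Gam B (uq 0) S : ℤ) : ℝ) + ((ch (MM B (uq 0)) S : ℤ) : ℝ) + nb <
      cRr B nQ nP uq up (2 * (i + 1)) (2 * l + 1) + q 0 - θ + 2) ∨ Y ≤ 0) : False := by
  have hM2 := h.MM2 (uq 0) (up 0)
  have hQ := h.fr.nQle
  have hP := h.fr.nPle
  have hqn := h.fr.qn (i := 2 * i + 2) (by omega)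
  have hpn := h.fr.pn (i := 2 * l + 1) (by omega)
  have e1 : 2 * (i + 1) = 2 * i + 2 := by ring
  have m1 := le_max_left (q (2 * i + 1) - (θ - 2)) (p (2 * l) - θ)
  have m2 := le_max_right (q (2 * i + 1) - (θ - 2)) (p (2 * l) - θ)
  exact h.mi4 hn hnv hpq hin hi hl haQ hbP hd hT hnb (by linarith) (by rw [e1]; linarith)
    (by linarith) hu hΓ hTf

end leafs

end Pool.Agent.Exact


end
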