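import Mathlib
import Pool.Agent.EXAM.C04
import Pool.Agent.EXAM.C05
import Pool.Agent.EXAM.C06
import Pool.Agent.EXAM.C07

/-! Parts: Lib_helper43.NC.Plc, Lib_helper43.NC.T2x, Lib_helper43.NC.Path3, Lib_helper23.Exact.Nc0, Lib_helper23.Exact.L1out, Lib_helper23.Exact.Small -/

section

/-!
# Blocks of neutral vertices
-/

set_option autoImplicit false
set_option linter.unusedSectionVars false

namespace Pool.Agent.Exact

open Finset

section blocks

variable {V : Type*} [DecidableEq V] {B : V → V → ℤ} {a s : V → ℤ}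

/-- one step of a path -/
lemma plStep (hB : ∀ v, B v v = 0) {b : ℤ} (X : Finset V) (x : V → ℤ) (v : V) (y : ℤ)
    (hx : ∀ v, x v = 1 ∨ x v = -1) (hP : PathB B a x b X) (hv : v ∉ X) (hy : y = 1 ∨ y = -1)
    (hn : ∑ u ∈ X, MM B u v * x u = 0) :
    ∃ x1 : V → ℤ, (∀ v, x1 v = 1 ∨ x1 v = -1) ∧ (∀ u ∈ X, x1 u = x u) ∧ x1 v = y ∧
      PathB B a x1 b X ∧ (DD B a x X + a v * y ≤ b → PathB B a x1 b (insert v X)) ∧
      DD B a x1 (insert v X) = DD B a x X + a v * y ∧
      ∑ u ∈ insert v X, s u * x1 u = ∑ u ∈ X, s u * x u + s v * y ∧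
      (∀ w, MM B v w = 0 → ∑ u ∈ X, MM B u w * x u = 0 →
        ∑ u ∈ insert v X, MM B u w * x1 u = 0) := by
  classical
  set x1 : V → ℤ := fun u => if u = v then y else x u with hx1
  have h1 : x1 v = y := by simp [hx1]
  have h2 : ∀ u ∈ X, x1 u = x u := by
    intro u hu
    have : u ≠ v := fun e => hv (e ▸ hu)
    simp [hx1, this]
  have h3 : DD B a x1 (insert v X) = DD B a x X + a v * y := by
    rw [DD_place hB hv h2 hn, h1]
  have hPX : PathB B a x1 b X := hP.congr fun u hu => (h2 u hu).symm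
  refine ⟨x1, ?_, h2, h1, hPX, ?_, h3, ?_, ?_⟩
  · intro u
    simp only [hx1]
    split_ifs
    · exact hy
    · exact hx u
  · intro hD
    refine PathB.step X v hPX hv ?_
    rw [h3]; exact hD
  · rw [Finset.sum_insert hv, h1, Finset.sum_congr rfl fun u hu => by rw [h2 u hu]]
    ring
  · intro w hw hw'
    rw [Finset.sum_insert hv, hw, zero_mul, zero_add]
    rw [← hw']
    exact Finset.sum_congr rfl fun u hu => by rw [h2 u hu]

open Classical in
/-- a set of neutral vertices that can be placed with small differences -/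
structure Plc (B : V → V → ℤ) (a s : V → ℤ) (T : Finset V) (w Γ : ℤ) : Prop where
  w0 : 0 ≤ w
  run : ∀ (b : ℤ) (X : Finset V) (x : V → ℤ), (∀ v, x v = 1 ∨ x v = -1) → PathB B a x b X →
    Disjoint X T → DD B a x X ≤ b → (∀ v ∈ T, ∑ u ∈ X, MM B u v * x u = 0) →
    ∃ x' : V → ℤ, (∀ v, x' v = 1 ∨ x' v = -1) ∧ (∀ v ∈ X, x' v = x v) ∧
      PathB B a x' b (X ∪ T) ∧ DD B a x' (X ∪ T) ≤ DD B a x X ∧
      DD B a x' (X ∪ T) + ∑ v ∈ X ∪ T, s v * x' v + Γ ≤ DD B a x X + ∑ v ∈ X, s v * x v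
  alt : ∀ c : ℤ, ∃ z : V → ℤ, (∀ v, z v = 1 ∨ z v = -1) ∧
    |c + ∑ v ∈ T, s v * z v| ≤ max |c| w
  gam : ∑ v ∈ T.filter (Harm a s), |a v + s v| ≤ Γ
  ws : w ≤ 2 ∨ (w ≤ Γ ∧ ((∃ v ∈ T, 0 ≤ s v ∧ w ≤ s v) ∨ ∃ v ∈ T, s v < 0 ∧ w ≤ - s v))

lemma Plc.Γ0 {T : Finset V} {w Γ : ℤ} (h : Plc B a s T w Γ) : 0 ≤ Γ := by
  classical
  refine le_trans ?_ h.gam
  exact Finset.sum_nonneg fun v _ => abs_nonneg _

lemma Plc.empty : Plc B a s ∅ 0 0 where
  w0 := le_rfl
  run := by
    intro b X x hx hP _ _ _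
    refine ⟨x, hx, fun _ _ => rfl, by simpa using hP, by simp, by simp⟩
  alt := by
    intro c
    exact ⟨fun _ => 1, fun _ => Or.inl rfl, by simp⟩
  gam := by simp
  ws := Or.inl (by norm_num)

/-- the union of two such sets -/
lemma Plc.union {T U : Finset V} {w w' Γ Γ' : ℤ} (h : Plc B a s T w Γ)
    (h' : Plc B a s U w' Γ') (hd : Disjoint T U) (hi : ∀ u ∈ T, ∀ v ∈ U, MM B u v = 0) :
    Plc B a s (T ∪ U) (max w w') (Γ + Γ') where
  w0 := h.w0.trans (le_max_left _ _)
  run := by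
    intro b X x hx hP hdX hD hn
    rw [Finset.disjoint_union_right] at hdX
    obtain ⟨x1, a1, a2, a3, a4, a5⟩ := h.run b X x hx hP hdX.1 hD
      (fun v hv => hn v (Finset.mem_union_left _ hv))
    obtain ⟨x2, b1, b2, b3, b4, b5⟩ := h'.run b (X ∪ T) x1 a1 a3
      (Finset.disjoint_union_left.2 ⟨hdX.2, hd⟩) (a4.trans hD) (by
        intro v hv
        rw [Finset.sum_union hdX.1]
        have e1 : ∑ u ∈ X, MM B u v * x1 u = 0 := by
          rw [← hn v (Finset.mem_union_right _ hv)]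
          exact Finset.sum_congr rfl fun u hu => by rw [a2 u hu]
        have e2 : ∑ u ∈ T, MM B u v * x1 u = 0 :=
          Finset.sum_eq_zero fun u hu => by rw [hi u hu v hv, zero_mul]
        rw [e1, e2, add_zero])
    rw [Finset.union_assoc] at b3 b4 b5
    refine ⟨x2, b1, fun v hv => ?_, b3, b4.trans a4, by linarith⟩
    rw [b2 v (Finset.mem_union_left _ hv), a2 v hv]
  alt := by
    classical
    intro c
    obtain ⟨z, hz, hz'⟩ := h.alt c
    obtain ⟨z', hy, hy'⟩ := h'.alt (c + ∑ v ∈ T, s v * z v)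
    refine ⟨fun v => if v ∈ T then z v else z' v, ?_, ?_⟩
    · intro v
      dsimp only
      split_ifs
      · exact hz v
      · exact hy v
    · rw [Finset.sum_union hd, ← add_assoc]
      have e1 : ∑ v ∈ T, s v * (if v ∈ T then z v else z' v) = ∑ v ∈ T, s v * z v :=
        Finset.sum_congr rfl fun v hv => by rw [if_pos hv]
      have e2 : ∑ v ∈ U, s v * (if v ∈ T then z v else z' v) = ∑ v ∈ U, s v * z' v :=
        Finset.sum_congr rfl fun v hv => by rw [if_neg (Finset.disjoint_right.1 hd hv)]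
      rw [e1, e2]
      refine hy'.trans (max_le (hz'.trans ?_) ?_)
      · exact max_le_max le_rfl (le_max_left _ _)
      · exact (le_max_right _ _).trans (le_max_right _ _)
  gam := by
    classical
    rw [Finset.filter_union, Finset.sum_union (Finset.disjoint_filter_filter hd)]
    have := h.gam
    have := h'.gam
    linarith
  ws := by
    have hΓ := h.Γ0
    have hΓ' := h'.Γ0
    rcases max_choice w w' with e | e <;> rw [e]
    · rcases h.ws with h1 | ⟨h1, h2⟩
      · exact Or.inl h1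
      · right
        refine ⟨by linarith, ?_⟩
        rcases h2 with ⟨v, hv, h3⟩ | ⟨v, hv, h3⟩
        · exact Or.inl ⟨v, Finset.mem_union_left _ hv, h3⟩
        · exact Or.inr ⟨v, Finset.mem_union_left _ hv, h3⟩
    · rcases h'.ws with h1 | ⟨h1, h2⟩
      · exact Or.inl h1
      · right
        refine ⟨by linarith, ?_⟩
        rcases h2 with ⟨v, hv, h3⟩ | ⟨v, hv, h3⟩
        · exact Or.inl ⟨v, Finset.mem_union_right _ hv, h3⟩
        · exact Or.inr ⟨v, Finset.mem_union_right _ hv, h3⟩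

/-- a sign that does not increase the absolute value too much -/
lemma exists_sign_int (c d : ℤ) : ∃ τ : ℤ, (τ = 1 ∨ τ = -1) ∧ |c + d * τ| ≤ max |c| |d| := by
  rcases le_total 0 c with h1 | h1 <;> rcases le_total 0 d with h2 | h2
  · refine ⟨-1, Or.inr rfl, ?_⟩
    rw [abs_of_nonneg h1, abs_of_nonneg h2, abs_le]
    have := le_max_left c d
    have := le_max_right c d
    constructor <;> linarith
  · refine ⟨1, Or.inl rfl, ?_⟩
    rw [abs_of_nonneg h1, abs_of_nonpos h2, abs_le]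
    have := le_max_left c (-d)
    have := le_max_right c (-d)
    constructor <;> linarith
  · refine ⟨1, Or.inl rfl, ?_⟩
    rw [abs_of_nonpos h1, abs_of_nonneg h2, abs_le]
    have := le_max_left (-c) d
    have := le_max_right (-c) d
    constructor <;> linarith
  · refine ⟨-1, Or.inr rfl, ?_⟩
    rw [abs_of_nonpos h1, abs_of_nonpos h2, abs_le]
    have := le_max_left (-c) (-d)
    have := le_max_right (-c) (-d)
    constructor <;> linarith

/-- a harmless vertex -/
lemma Plc.one (hB : ∀ v, B v v = 0) (ha : ∀ v, 0 ≤ a v ∧ a v ≤ 2) {v : V} (hv : Harm a s v) :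
    Plc B a s {v} |s v| |a v + s v| where
  w0 := abs_nonneg _
  run := by
    intro b X x hx hP hd hD hn
    have hvX : v ∉ X := by
      rw [Finset.disjoint_singleton_right] at hd
      exact hd
    obtain ⟨y, hy, hy1, hy2⟩ := harm_sign ha hv
    obtain ⟨x1, a1, a2, a3, a0, a4, a5, a6, a7⟩ := plStep (s := s) hB X x v y hx hP hvX hy
      (hn v (Finset.mem_singleton_self v))
    have e : X ∪ {v} = insert v X := by
      ext z; simp only [Finset.mem_insert, Finset.mem_union, Finset.mem_singleton]; tauto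
    rw [e]
    refine ⟨x1, a1, a2, a4 (by linarith), by rw [a5]; linarith, ?_⟩
    rw [a5, a6]
    have e3 : (a v + s v) * y = a v * y + s v * y := by ring
    rw [e3] at hy2
    linarith
  alt := by
    intro c
    obtain ⟨τ, hτ, hc⟩ := exists_sign_int c (s v)
    exact ⟨fun _ => τ, fun _ => hτ, by simpa using hc⟩
  gam := by
    classical
    rw [Finset.filter_singleton, if_pos hv, Finset.sum_singleton]
  ws := by
    have h1 := ha v
    rcases le_or_gt 0 (s v) with h2 | h2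
    · right
      refine ⟨?_, Or.inl ⟨v, Finset.mem_singleton_self v, h2, by rw [abs_of_nonneg h2]⟩⟩
      rw [abs_of_nonneg h2, abs_of_nonneg (by linarith)]
      linarith
    · rcases hv with hv | hv
      · left
        rw [abs_of_neg h2]
        linarith
      · right
        refine ⟨?_, Or.inr ⟨v, Finset.mem_singleton_self v, h2, by rw [abs_of_neg h2]⟩⟩
        rw [hv, zero_add]

/-- a pair of vertices with opposite signs, `v` is placed first with sign `-` -/
lemma Plc.pair (hB : ∀ v, B v v = 0) (ha : ∀ v, 0 ≤ a v ∧ a v ≤ 2) {u v : V} (huv : u ≠ v)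
    (hu : ¬ Harm a s u) (hv : ¬ Harm a s v) (hm : MM B v u = 0) (hauv : a u ≤ a v)
    (hs : s u ≤ s v) :
    Plc B a s {u, v} (s v - s u) (s v - s u + (a v - a u)) where
  w0 := by linarith
  run := by
    intro b X x hx hP hd hD hn
    have hvX : v ∉ X := fun h => Finset.disjoint_left.1 hd h (by simp)
    have huX : u ∉ insert v X := by
      simp only [Finset.mem_insert, not_or]
      exact ⟨huv, fun h => Finset.disjoint_left.1 hd h (by simp)⟩
    have hav := ha v
    obtain ⟨x1, a1, a2, a3, a0, a4, a5, a6, a7⟩ := plStep (s := s) hB X x v (-1) hx hP hvX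
      (Or.inr rfl) (hn v (by simp))
    replace a4 := a4 (by linarith)
    obtain ⟨x2, c1, c2, c3, c0, c4, c5, c6, c7⟩ := plStep (s := s) hB (insert v X) x1 u 1 a1 a4
      huX (Or.inl rfl) (a7 u hm (hn u (by simp)))
    replace c4 := c4 (by rw [a5]; linarith)
    have e : X ∪ {u, v} = insert u (insert v X) := by
      ext z; simp only [Finset.mem_insert, Finset.mem_union, Finset.mem_singleton]; tauto
    rw [e]
    refine ⟨x2, c1, ?_, c4, by rw [c5, a5]; linarith, ?_⟩
    · intro z hz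
      rw [c2 z (Finset.mem_insert_of_mem hz), a2 z hz]
    · rw [c5, c6, a5, a6]
      linarith
  alt := by
    classical
    intro c
    obtain ⟨τ, hτ, hc⟩ := exists_sign_int c (s v - s u)
    refine ⟨fun w => if w = v then τ else -τ, ?_, ?_⟩
    · intro w
      dsimp only
      split_ifs
      · exact hτ
      · rcases hτ with h | h <;> rw [h] <;> norm_num
    · rw [Finset.sum_pair huv]
      dsimp only
      rw [if_neg huv, if_pos rfl]
      have e : c + (s u * -τ + s v * τ) = c + (s v - s u) * τ := by ring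
      rw [e]
      refine hc.trans ?_
      rw [abs_of_nonneg (show 0 ≤ s v - s u by linarith)]
  gam := by
    classical
    have : ({u, v} : Finset V).filter (Harm a s) = ∅ := by
      rw [Finset.filter_eq_empty_iff]
      intro w hw
      simp only [Finset.mem_insert, Finset.mem_singleton] at hw
      rcases hw with rfl | rfl
      · exact hu
      · exact hv
    rw [this, Finset.sum_empty]
    linarith
  ws := by
    right
    have h1 := ha u
    have h2 := ha v
    unfold Harm at hu hv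
    push Not at hu hv
    exact ⟨by linarith, Or.inr ⟨u, by simp, by linarith, by linarith⟩⟩

open Classical in
/-- **Decomposition of a set of neutral vertices.** -/
theorem exists_plc (hB : ∀ v, B v v = 0) (ha : ∀ v, 0 ≤ a v ∧ a v ≤ 2) :
    ∀ (n : ℕ) (S : Finset V), S.card = n → (∀ u ∈ S, ∀ v ∈ S, MM B u v = 0) →
      (∃ w Γ, Plc B a s S w Γ) ∨
      (∃ y ∈ S, s y + a y < 0 ∧ 1 ≤ a y ∧ ∃ w Γ, Plc B a s (S.erase y) w Γ) ∨
      (∃ y1 ∈ S, ∃ y2 ∈ S, y1 ≠ y2 ∧ a y1 = 1 ∧ a y2 = 2 ∧ s y1 + 1 < 0 ∧ s y2 < s y1 ∧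
        ∃ w Γ, Plc B a s ((S.erase y2).erase y1) w Γ) := by
  intro n
  induction n using Nat.strong_induction_on with
  | _ n ih =>
    intro S hSn hind
    -- removing a block
    have rem : ∀ (T : Finset V) (w Γ : ℤ), T ⊆ S → T.Nonempty → Plc B a s T w Γ →
        (∃ w Γ, Plc B a s S w Γ) ∨
        (∃ y ∈ S, s y + a y < 0 ∧ 1 ≤ a y ∧ ∃ w Γ, Plc B a s (S.erase y) w Γ) ∨
        (∃ y1 ∈ S, ∃ y2 ∈ S, y1 ≠ y2 ∧ a y1 = 1 ∧ a y2 = 2 ∧ s y1 + 1 < 0 ∧ s y2 < s y1 ∧
          ∃ w Γ, Plc B a s ((S.erase y2).erase y1) w Γ) := by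
      intro T w Γ hTS hT hp
      have hlt : (S \ T).card < n := by
        rw [← hSn]
        exact Finset.card_lt_card (Finset.sdiff_ssubset hTS hT)
      have hsub : S \ T ⊆ S := Finset.sdiff_subset
      rcases ih _ hlt (S \ T) rfl (fun u hu v hv => hind u (hsub hu) v (hsub hv)) with
        ⟨w', Γ', h1⟩ | ⟨y, hy, h1, h2, w', Γ', h3⟩ | ⟨y1, hy1, y2, hy2, h1, h2, h3, h4, h5, w', Γ', h6⟩
      · left
        have h2 := hp.union h1 Finset.disjoint_sdiff
          (fun u hu v hv => hind u (hTS hu) v (hsub hv))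
        rw [Finset.union_sdiff_of_subset hTS] at h2
        exact ⟨_, _, h2⟩
      · right; left
        refine ⟨y, hsub hy, h1, h2, ?_⟩
        have hyT : y ∉ T := (Finset.mem_sdiff.1 hy).2
        have h4 := hp.union h3 (Finset.disjoint_of_subset_right (Finset.erase_subset _ _)
          Finset.disjoint_sdiff) (fun u hu v hv => hind u (hTS hu) v
            (hsub (Finset.mem_of_mem_erase hv)))
        have e : T ∪ (S \ T).erase y = S.erase y := by
          ext z
          simp only [Finset.mem_union, Finset.mem_erase, Finset.mem_sdiff]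
          constructor
          · rintro (h | ⟨h, h', _⟩)
            · exact ⟨fun e => hyT (e ▸ h), hTS h⟩
            · exact ⟨h, h'⟩
          · rintro ⟨h, h'⟩
            by_cases hz : z ∈ T
            · exact Or.inl hz
            · exact Or.inr ⟨h, h', hz⟩
        rw [e] at h4
        exact ⟨_, _, h4⟩
      · right; right
        refine ⟨y1, hsub hy1, y2, hsub hy2, h1, h2, h3, h4, h5, ?_⟩
        have hyT1 : y1 ∉ T := (Finset.mem_sdiff.1 hy1).2
        have hyT2 : y2 ∉ T := (Finset.mem_sdiff.1 hy2).2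
        have h7 := hp.union h6 (Finset.disjoint_of_subset_right
          ((Finset.erase_subset _ _).trans (Finset.erase_subset _ _))
          Finset.disjoint_sdiff) (fun u hu v hv => hind u (hTS hu) v
            (hsub (Finset.mem_of_mem_erase (Finset.mem_of_mem_erase hv))))
        have e : T ∪ ((S \ T).erase y2).erase y1 = (S.erase y2).erase y1 := by
          ext z
          simp only [Finset.mem_union, Finset.mem_erase, Finset.mem_sdiff]
          constructor
          · rintro (h | ⟨h, h', h'', _⟩)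
            · exact ⟨fun e => hyT1 (e ▸ h), fun e => hyT2 (e ▸ h), hTS h⟩
            · exact ⟨h, h', h''⟩
          · rintro ⟨h, h', h''⟩
            by_cases hz : z ∈ T
            · exact Or.inl hz
            · exact Or.inr ⟨h, h', h'', hz⟩
        rw [e] at h7
        exact ⟨_, _, h7⟩
    by_cases hH : ∃ v ∈ S, Harm a s v
    · obtain ⟨v, hvS, hvH⟩ := hH
      exact rem {v} _ _ (by simpa using hvS) ⟨v, by simp⟩ (Plc.one hB ha hvH)
    · push Not at hH
      have hprop : ∀ v ∈ S, s v + a v < 0 ∧ (a v = 1 ∨ a v = 2) := by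
        intro v hv
        have h1 := hH v hv
        unfold Harm at h1
        push Not at h1
        have := ha v
        exact ⟨h1.1, by omega⟩
      by_cases hpair : ∃ u ∈ S, ∃ v ∈ S, u ≠ v ∧ a u ≤ a v ∧ s u ≤ s v
      · obtain ⟨u, hu, v, hv, huv, hauv, hsuv⟩ := hpair
        refine rem {u, v} _ _ ?_ ⟨u, by simp⟩ (Plc.pair hB ha huv (hH u hu) (hH v hv)
          (hind v hv u hu) hauv hsuv)
        intro z hz
        simp only [Finset.mem_insert, Finset.mem_singleton] at hz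
        rcases hz with rfl | rfl
        · exact hu
        · exact hv
      · push Not at hpair
        have huniq : ∀ u ∈ S, ∀ v ∈ S, a u = a v → u = v := by
          intro u hu v hv hauv
          by_contra huv
          have h1 := hpair u hu v hv huv hauv.le
          have h2 := hpair v hv u hu (Ne.symm huv) hauv.symm.le
          linarith
        rcases S.eq_empty_or_nonempty with rfl | ⟨v, hv⟩
        · exact Or.inl ⟨_, _, Plc.empty⟩
        · by_cases hone : S = {v}
          · right; left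
            subst hone
            refine ⟨v, hv, (hprop v hv).1, ?_, ?_⟩
            · rcases (hprop v hv).2 with h | h
              · rw [h]
              · rw [h]; norm_num
            · rw [Finset.erase_singleton]
              exact ⟨_, _, Plc.empty⟩
          · right; right
            obtain ⟨w, hw, hwv⟩ : ∃ w ∈ S, w ≠ v := by
              by_contra hcon
              push Not at hcon
              exact hone (Finset.eq_singleton_iff_unique_mem.2 ⟨hv, hcon⟩)
            obtain ⟨y1, hy1, y2, hy2, ha1, ha2, hy12⟩ : ∃ y1 ∈ S, ∃ y2 ∈ S, a y1 = 1 ∧ a y2 = 2 ∧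
                y1 ≠ y2 := by
              rcases (hprop v hv).2 with h | h <;> rcases (hprop w hw).2 with h' | h'
              · exact absurd (huniq w hw v hv (by rw [h, h'])) hwv
              · exact ⟨v, hv, w, hw, h, h', hwv.symm⟩
              · exact ⟨w, hw, v, hv, h', h, hwv⟩
              · exact absurd (huniq w hw v hv (by rw [h, h'])) hwv
            have h3 := hpair y1 hy1 y2 hy2 hy12 (by rw [ha1, ha2]; norm_num)
            refine ⟨y1, hy1, y2, hy2, hy12, ha1, ha2, ?_, h3, ?_⟩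
            · have := (hprop y1 hy1).1
              rw [ha1] at this
              exact this
            · have : (S.erase y2).erase y1 = ∅ := by
                rw [Finset.eq_empty_iff_forall_notMem]
                intro z hz
                simp only [Finset.mem_erase] at hz
                rcases (hprop z hz.2.2).2 with h | h
                · exact hz.1 (huniq z hz.2.2 y1 hy1 (by rw [h, ha1]))
                · exact hz.2.1 (huniq z hz.2.2 y2 hy2 (by rw [h, ha2]))
              rw [this]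
              exact ⟨_, _, Plc.empty⟩

end blocks

end Pool.Agent.Exact


end

section

/-!
# The statements T2 for a given pattern
-/

set_option autoImplicit false
set_option linter.unusedSectionVars false
set_option linter.unusedSimpArgs false
set_option linter.unnecessarySeqFocus false
set_option linter.unreachableTactic false
set_option linter.unusedTactic false
set_option linter.unusedVariables false

namespace Pool.Agent.Exact

open Finset

variable {V : Type*} [Fintype V] [DecidableEq V] {B : V → V → ℤ}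

/-- greedy signs of a part of `S` -/
theorem t2all (h0 : ∀ u v, 0 ≤ B u v) {Rs S : Finset V} {g Y : ℤ} (hdS : Disjoint Rs S)
    (hind : ∀ u ∈ S, ∀ v ∈ S, MM B u v = 0) {x : V → ℤ} (hx : ∀ v, x v = 1 ∨ x v = -1)
    (hqx : Qd B Rs x ≤ -g) (hnx : ∀ z ∈ S, ∑ u ∈ Rs, MM B u z * x u = 0)
    (hY : Y = - ∑ v ∈ Rs, im B v * x v) (hsx : ∑ v ∈ Rs, im B v * x v ≤ 0) :
    ∀ S0 ⊆ S, ∀ y0 M K t : ℝ, 0 ≤ K → 0 ≤ y0 → (∀ v ∈ S0, |((im B v : ℤ) : ℝ)| ≤ y0) →
      St B (im B) (univ \ (Rs ∪ S0)) M K t →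
      Val B (-(g : ℝ) + M + max (max (max ((Y : ℝ) - ∑ v ∈ S0, |((im B v : ℤ) : ℝ)|) y0) K)
        ((max ((Y : ℝ) - ∑ v ∈ S0, |((im B v : ℤ) : ℝ)|) y0 + t) / 2)) := by
  classical
  intro S0 hS0 y0 M K t hK hy0 hy hst
  -- signs for `S0`
  have key : ∀ T : Finset V, T ⊆ S0 → ∃ z : V → ℤ, (∀ v, z v = 1 ∨ z v = -1) ∧
      (∀ v ∈ Rs, z v = x v) ∧
      |((∑ v ∈ Rs ∪ T, im B v * z v : ℤ) : ℝ)| ≤
        max ((Y : ℝ) - ∑ v ∈ T, |((im B v : ℤ) : ℝ)|) y0 := by
    intro T
    induction T using Finset.induction_on with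
    | empty =>
      intro _
      refine ⟨x, hx, fun _ _ => rfl, ?_⟩
      rw [Finset.union_empty, Finset.sum_empty, sub_zero]
      refine le_trans (le_of_eq ?_) (le_max_left _ _)
      rw [hY]
      push_cast
      rw [abs_of_nonpos]
      have : ((∑ v ∈ Rs, im B v * x v : ℤ) : ℝ) ≤ 0 := by exact_mod_cast hsx
      push_cast at this
      exact this
    | insert v T hv ih =>
      intro hT
      obtain ⟨z, hz, hzx, hzb⟩ := ih ((Finset.subset_insert _ _).trans hT)
      have hvS0 : v ∈ S0 := hT (Finset.mem_insert_self _ _)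
      have hvRs : v ∉ Rs := Finset.disjoint_right.1 hdS (hS0 hvS0)
      have hvU : v ∉ Rs ∪ T := by
        simp only [Finset.mem_union, not_or]; exact ⟨hvRs, hv⟩
      have hvy := hy v hvS0
      set L : ℝ := ((∑ v ∈ Rs ∪ T, im B v * z v : ℤ) : ℝ) with hL
      -- choose the sign
      obtain ⟨τ, hτ, hτL⟩ := exists_sign_abs L ((im B v : ℤ) : ℝ)
      refine ⟨fun u => if u = v then τ else z u, ?_, ?_, ?_⟩
      · intro u
        dsimp only
        split_ifs
        · exact hτ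
        · exact hz u
      · intro u hu'
        have : u ≠ v := fun e => hvRs (e ▸ hu')
        simp only [this, if_false]
        exact hzx u hu'
      · have e1 : Rs ∪ insert v T = insert v (Rs ∪ T) := by rw [Finset.union_insert]
        rw [e1, Finset.sum_insert hvU]
        simp only [if_true]
        have e2 : ∑ u ∈ Rs ∪ T, im B u * (if u = v then τ else z u) =
            ∑ u ∈ Rs ∪ T, im B u * z u := by
          refine Finset.sum_congr rfl fun u hu' => ?_
          have : u ≠ v := fun e => hvU (e ▸ hu')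
          simp only [this, if_false]
        rw [e2]
        have e3 : ((im B v * τ + ∑ u ∈ Rs ∪ T, im B u * z u : ℤ) : ℝ) =
            L + ((im B v : ℤ) : ℝ) * τ := by
          rw [hL]; push_cast; ring
        rw [e3, hτL, Finset.sum_insert hv]
        have hw0 : 0 ≤ |((im B v : ℤ) : ℝ)| := abs_nonneg _
        have hL0 : 0 ≤ |L| := abs_nonneg _
        rw [abs_le]
        rcases le_max_iff.1 hzb with h3 | h3
        · have m1 := le_max_left ((Y : ℝ) - (|((im B v : ℤ) : ℝ)| +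
            ∑ v ∈ T, |((im B v : ℤ) : ℝ)|)) y0
          have m2 := le_max_right ((Y : ℝ) - (|((im B v : ℤ) : ℝ)| +
            ∑ v ∈ T, |((im B v : ℤ) : ℝ)|)) y0
          constructor <;> linarith
        · have m2 := le_max_right ((Y : ℝ) - (|((im B v : ℤ) : ℝ)| +
            ∑ v ∈ T, |((im B v : ℤ) : ℝ)|)) y0
          constructor <;> linarith
  obtain ⟨z, hz, hzx, hzb⟩ := key S0 (Finset.Subset.refl _)
  have hdS0 : Disjoint Rs S0 := Finset.disjoint_of_subset_right hS0 hdS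
  rw [← Finset.compl_eq_univ_sdiff] at hst
  have h3 := extendSt (Rs ∪ S0) z hz hK hst
  have h4 : Qd B (Rs ∪ S0) z ≤ -g := by
    rw [Qd_union hdS0, Qd_congr hzx,
      Qd_indep h0 (fun l hl l' hl' => hind l (hS0 hl) l' (hS0 hl'))]
    have : Int B Rs S0 z = 0 := by
      rw [Int_sum_right]
      refine Finset.sum_eq_zero fun w hw => ?_
      unfold Int
      simp only [Finset.sum_singleton]
      have : ∑ u ∈ Rs, MM B u w * (z u * z w) = (∑ u ∈ Rs, MM B u w * x u) * z w := by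
        rw [Finset.sum_mul]
        exact Finset.sum_congr rfl fun u hu' => by rw [hzx u hu']; ring
      rw [this, hnx w (hS0 hw), zero_mul]
    rw [this]
    linarith
  have h4' : ((Qd B (Rs ∪ S0) z : ℤ) : ℝ) ≤ -(g : ℝ) := by exact_mod_cast h4
  refine h3.mono ?_
  set L : ℝ := |((∑ v ∈ Rs ∪ S0, im B v * z v : ℤ) : ℝ)| with hL
  have h5 : max (max L K) ((L + t) / 2) ≤
      max (max (max ((Y : ℝ) - ∑ v ∈ S0, |((im B v : ℤ) : ℝ)|) y0) K)
        ((max ((Y : ℝ) - ∑ v ∈ S0, |((im B v : ℤ) : ℝ)|) y0 + t) / 2) :=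
    max_le_max (max_le_max hzb le_rfl) (by linarith)
  linarith

variable {Rl : Finset V} {ℓ nQ nP : ℕ} {uq up : ℕ → V} {q p : ℕ → ℝ}

/-- T2 in terms of index sets -/
theorem Frame.t2iA (h : Frame B Rl ℓ nQ nP uq up q p) {a b : ℕ} (haQ : a ≤ nQ) (hbP : b ≤ nP)
    {Rs S : Finset V} {g Y : ℤ} (hRS : Rs ∪ S = vs uq up (rr nQ nP a b)) (hdS : Disjoint Rs S)
    (hind : ∀ u ∈ S, ∀ v ∈ S, MM B u v = 0)
    (hT2 : ∀ S0 ⊆ S, ∀ y0 M K t : ℝ, 0 ≤ K → 0 ≤ y0 → (∀ v ∈ S0, |((im B v : ℤ) : ℝ)| ≤ y0) →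
      St B (im B) (Finset.univ \ (Rs ∪ S0)) M K t →
      Val B (-(g : ℝ) + M + max (max (max ((Y : ℝ) - ∑ v ∈ S0, |((im B v : ℤ) : ℝ)|) y0) K)
        ((max ((Y : ℝ) - ∑ v ∈ S0, |((im B v : ℤ) : ℝ)|) y0 + t) / 2))) :
    T2I B uq up a b S g Y ∧ T2A B uq up a b S g Y := by
  classical
  have hQ := h.nQle
  have hP := h.nPle
  have hB0 := h.sys.B0
  have hB1 := h.sys.B1
  have hBd := h.sys.Bd
  set R := vs uq up (rr nQ nP a b) with hR
  have hRf : rr nQ nP a b ⊆ full ℓ := by unfold rr; (intro x hx; revert hx; rcases x with x | x <;>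
    simp only [Finset.mem_union, Finset.mem_insert, Finset.mem_singleton, inl_mem_full,
      inr_mem_full, inl_mem_iq, inr_mem_iq, inl_mem_ip, inr_mem_ip, Sum.inl.injEq, Sum.inr.injEq,
      reduceCtorEq, Finset.notMem_empty, or_false, false_or, false_imp_iff, imp_false,
      implies_true, not_false_eq_true, iff_false, false_iff] <;> omega)
  refine ⟨?_, ?_⟩
  · intro y0 M K t hK hy0 hy hst
    refine hT2 S (Finset.Subset.refl _) y0 M K t hK hy0 hy ?_
    have h3 := h.withDm hK hst (by unfold hb rr; (intro x hx; revert hx; rcases x with x | x <;>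
    simp only [Finset.mem_union, Finset.mem_insert, Finset.mem_singleton, inl_mem_full,
      inr_mem_full, inl_mem_iq, inr_mem_iq, inl_mem_ip, inr_mem_ip, Sum.inl.injEq, Sum.inr.injEq,
      reduceCtorEq, Finset.notMem_empty, or_false, false_or, false_imp_iff, imp_false,
      implies_true, not_false_eq_true, iff_false, false_iff] <;> omega))
    have h4 : Finset.univ \ (Rs ∪ S) = (hb a b ∪ dm ℓ nQ nP).image (vx uq up) := by
      rw [hRS, hR]
      unfold vs
      have h5 : full ℓ = rr nQ nP a b ∪ (hb a b ∪ dm ℓ nQ nP) := by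
        unfold rr hb dm; (ext x; rcases x with x | x <;>
    simp only [Finset.mem_union, Finset.mem_insert, Finset.mem_singleton, inl_mem_full,
      inr_mem_full, inl_mem_iq, inr_mem_iq, inl_mem_ip, inr_mem_ip, Sum.inl.injEq, Sum.inr.injEq,
      reduceCtorEq, Finset.notMem_empty, or_false, false_or, false_imp_iff, imp_false,
      implies_true, not_false_eq_true, iff_false, false_iff] <;> omega)
      rw [← h.univ, h5, Finset.image_union, Finset.union_sdiff_cancel_left]
      refine h.disj hRf (by unfold hb dm; (intro x hx; revert hx; rcases x with x | x <;>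
    simp only [Finset.mem_union, Finset.mem_insert, Finset.mem_singleton, inl_mem_full,
      inr_mem_full, inl_mem_iq, inr_mem_iq, inl_mem_ip, inr_mem_ip, Sum.inl.injEq, Sum.inr.injEq,
      reduceCtorEq, Finset.notMem_empty, or_false, false_or, false_imp_iff, imp_false,
      implies_true, not_false_eq_true, iff_false, false_iff] <;> omega)) ?_
      unfold rr hb dm
      (rw [Finset.disjoint_left]; intro x hx hx'; revert hx hx'; rcases x with x | x <;>
    simp only [Finset.mem_union, Finset.mem_insert, Finset.mem_singleton, inl_mem_full,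
      inr_mem_full, inl_mem_iq, inr_mem_iq, inl_mem_ip, inr_mem_ip, Sum.inl.injEq, Sum.inr.injEq,
      reduceCtorEq, Finset.notMem_empty, or_false, false_or, false_imp_iff, imp_false,
      implies_true, not_false_eq_true, iff_false, false_iff] <;> omega)
    rw [h4]
    exact h3
  · intro z hz S0 hS0 s hs y0 M K t hK hy0 hy hit hst
    have hzf : hb a b ⊆ full ℓ := by unfold hb; (intro x hx; revert hx; rcases x with x | x <;>
    simp only [Finset.mem_union, Finset.mem_insert, Finset.mem_singleton, inl_mem_full,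
      inr_mem_full, inl_mem_iq, inr_mem_iq, inl_mem_ip, inr_mem_ip, Sum.inl.injEq, Sum.inr.injEq,
      reduceCtorEq, Finset.notMem_empty, or_false, false_or, false_imp_iff, imp_false,
      implies_true, not_false_eq_true, iff_false, false_iff] <;> omega)
    set zv : V := vx uq up z with hzv
    -- the group
    have hzS : zv ∉ Rs ∪ S := by
      rw [hRS]
      have : Disjoint (rr nQ nP a b) (hb a b) := by
        unfold rr hb
        (rw [Finset.disjoint_left]; intro x hx hx'; revert hx hx'; rcases x with x | x <;>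
    simp only [Finset.mem_union, Finset.mem_insert, Finset.mem_singleton, inl_mem_full,
      inr_mem_full, inl_mem_iq, inr_mem_iq, inl_mem_ip, inr_mem_ip, Sum.inl.injEq, Sum.inr.injEq,
      reduceCtorEq, Finset.notMem_empty, or_false, false_or, false_imp_iff, imp_false,
      implies_true, not_false_eq_true, iff_false, false_iff] <;> omega)
      exact Finset.disjoint_right.1 (h.disj hRf hzf this) (Finset.mem_image_of_mem _ hz)
    have hzS' : zv ∉ S \ S0 := fun h' => hzS (by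
      rw [Finset.mem_union]; right; exact (Finset.mem_sdiff.1 h').1)
    set x : V → ℤ := fun v => if v = zv then 1 else s v with hx
    have hxz : x zv = 1 := by simp [hx]
    have hxS : ∀ v ∈ S \ S0, x v = s v := by
      intro v hv'
      have : v ≠ zv := fun e => hzS' (e ▸ hv')
      simp [hx, this]
    have hgr : St B (im B) (insert zv (S \ S0)) ((∑ v ∈ S \ S0, MM B zv v * s v : ℤ) : ℝ)
        |((im B zv + ∑ v ∈ S \ S0, im B v * s v : ℤ) : ℝ)|
        |((im B zv + ∑ v ∈ S \ S0, im B v * s v : ℤ) : ℝ)| := by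
      refine St.group _ x ?_ ?_ ?_
      · intro v
        simp only [hx]
        split_ifs
        · left; rfl
        · exact hs v
      · rw [Qd_star zv (S \ S0) hzS' hB0 hBd (fun l hl l' hl' => hind l
          (Finset.mem_sdiff.1 hl).1 l' (Finset.mem_sdiff.1 hl').1)]
        refine le_of_eq ?_
        congr 1
        refine Finset.sum_congr rfl fun v hv' => ?_
        rw [hxz, hxS v hv', one_mul]
      · rw [Finset.sum_insert hzS', hxz, mul_one, Finset.sum_congr rfl fun v hv' => by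
          rw [hxS v hv']]
    have h3 := h.withDm hK hst (by
      refine (Finset.erase_subset _ _).trans ?_
      unfold hb rr; (intro x hx; revert hx; rcases x with x | x <;>
    simp only [Finset.mem_union, Finset.mem_insert, Finset.mem_singleton, inl_mem_full,
      inr_mem_full, inl_mem_iq, inr_mem_iq, inl_mem_ip, inr_mem_ip, Sum.inl.injEq, Sum.inr.injEq,
      reduceCtorEq, Finset.notMem_empty, or_false, false_or, false_imp_iff, imp_false,
      implies_true, not_false_eq_true, iff_false, false_iff] <;> omega))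
    have hdj : Disjoint (((hb a b).erase z ∪ dm ℓ nQ nP).image (vx uq up))
        (insert zv (S \ S0)) := by
      rw [Finset.disjoint_right]
      intro v hv' hv''
      rcases Finset.mem_insert.1 hv' with rfl | hv'
      · rw [Finset.mem_image] at hv''
        obtain ⟨w, hw, hw'⟩ := hv''
        have hzf' : z ∈ full ℓ := hzf hz
        have hwf : w ∈ full ℓ := by
          rcases Finset.mem_union.1 hw with h5 | h5
          · exact hzf (Finset.mem_of_mem_erase h5)
          · revert h5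
            have : dm ℓ nQ nP ⊆ full ℓ := by unfold dm; (intro x hx; revert hx; rcases x with x | x <;>
    simp only [Finset.mem_union, Finset.mem_insert, Finset.mem_singleton, inl_mem_full,
      inr_mem_full, inl_mem_iq, inr_mem_iq, inl_mem_ip, inr_mem_ip, Sum.inl.injEq, Sum.inr.injEq,
      reduceCtorEq, Finset.notMem_empty, or_false, false_or, false_imp_iff, imp_false,
      implies_true, not_false_eq_true, iff_false, false_iff] <;> omega)
            intro h5
            exact this h5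
        have hwz := h.inj hwf hzf' hw'
        rw [hwz] at hw
        rcases Finset.mem_union.1 hw with h5 | h5
        · exact Finset.notMem_erase _ _ h5
        · have : Disjoint (hb a b) (dm ℓ nQ nP) := by
            unfold hb dm
            (rw [Finset.disjoint_left]; intro x hx hx'; revert hx hx'; rcases x with x | x <;>
    simp only [Finset.mem_union, Finset.mem_insert, Finset.mem_singleton, inl_mem_full,
      inr_mem_full, inl_mem_iq, inr_mem_iq, inl_mem_ip, inr_mem_ip, Sum.inl.injEq, Sum.inr.injEq,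
      reduceCtorEq, Finset.notMem_empty, or_false, false_or, false_imp_iff, imp_false,
      implies_true, not_false_eq_true, iff_false, false_iff] <;> omega)
          exact Finset.disjoint_left.1 this hz h5
      · have h5 : v ∈ Rs ∪ S := by
          rw [Finset.mem_union]; right; exact (Finset.mem_sdiff.1 hv').1
        rw [hRS] at h5
        have : Disjoint (rr nQ nP a b) ((hb a b).erase z ∪ dm ℓ nQ nP) := by
          refine Finset.disjoint_of_subset_right (Finset.union_subset_union_left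
            (Finset.erase_subset _ _)) ?_
          unfold rr hb dm
          (rw [Finset.disjoint_left]; intro x hx hx'; revert hx hx'; rcases x with x | x <;>
    simp only [Finset.mem_union, Finset.mem_insert, Finset.mem_singleton, inl_mem_full,
      inr_mem_full, inl_mem_iq, inr_mem_iq, inl_mem_ip, inr_mem_ip, Sum.inl.injEq, Sum.inr.injEq,
      reduceCtorEq, Finset.notMem_empty, or_false, false_or, false_imp_iff, imp_false,
      implies_true, not_false_eq_true, iff_false, false_iff] <;> omega)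
        refine Finset.disjoint_left.1 (h.disj hRf ?_ this) h5 hv''
        refine Finset.union_subset ((Finset.erase_subset _ _).trans hzf) ?_
        unfold dm; (intro x hx; revert hx; rcases x with x | x <;>
    simp only [Finset.mem_union, Finset.mem_insert, Finset.mem_singleton, inl_mem_full,
      inr_mem_full, inl_mem_iq, inr_mem_iq, inl_mem_ip, inr_mem_ip, Sum.inl.injEq, Sum.inr.injEq,
      reduceCtorEq, Finset.notMem_empty, or_false, false_or, false_imp_iff, imp_false,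
      implies_true, not_false_eq_true, iff_false, false_iff] <;> omega)
    have h4 := St.union h3 (hgr.mono le_rfl hit le_rfl) hdj
    have h6 : Finset.univ \ (Rs ∪ S0) = ((hb a b).erase z ∪ dm ℓ nQ nP).image (vx uq up) ∪
        insert zv (S \ S0) := by
      have e1 : full ℓ = rr nQ nP a b ∪ insert z ((hb a b).erase z ∪ dm ℓ nQ nP) := by
        rw [← Finset.insert_union, Finset.insert_erase hz]
        unfold rr hb dm; (ext x; rcases x with x | x <;>
    simp only [Finset.mem_union, Finset.mem_insert, Finset.mem_singleton, inl_mem_full,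
      inr_mem_full, inl_mem_iq, inr_mem_iq, inl_mem_ip, inr_mem_ip, Sum.inl.injEq, Sum.inr.injEq,
      reduceCtorEq, Finset.notMem_empty, or_false, false_or, false_imp_iff, imp_false,
      implies_true, not_false_eq_true, iff_false, false_iff] <;> omega)
      have e2 : (Finset.univ : Finset V) = (Rs ∪ S) ∪ insert zv
          (((hb a b).erase z ∪ dm ℓ nQ nP).image (vx uq up)) := by
        rw [← h.univ, e1, Finset.image_union, Finset.image_insert, hRS]
        rfl
      ext v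
      have hv' : v ∈ (Rs ∪ S) ∪ insert zv
          (((hb a b).erase z ∪ dm ℓ nQ nP).image (vx uq up)) := by
        rw [← e2]; exact Finset.mem_univ v
      have hd5 : v ∈ (((hb a b).erase z ∪ dm ℓ nQ nP).image (vx uq up)) → v ∉ Rs ∪ S := by
        intro h7 h5
        rw [hRS] at h5
        have : Disjoint (rr nQ nP a b) ((hb a b).erase z ∪ dm ℓ nQ nP) := by
          refine Finset.disjoint_of_subset_right (Finset.union_subset_union_left
            (Finset.erase_subset _ _)) ?_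
          unfold rr hb dm
          (rw [Finset.disjoint_left]; intro x hx hx'; revert hx hx'; rcases x with x | x <;>
    simp only [Finset.mem_union, Finset.mem_insert, Finset.mem_singleton, inl_mem_full,
      inr_mem_full, inl_mem_iq, inr_mem_iq, inl_mem_ip, inr_mem_ip, Sum.inl.injEq, Sum.inr.injEq,
      reduceCtorEq, Finset.notMem_empty, or_false, false_or, false_imp_iff, imp_false,
      implies_true, not_false_eq_true, iff_false, false_iff] <;> omega)
        refine Finset.disjoint_left.1 (h.disj hRf ?_ this) h5 h7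
        refine Finset.union_subset ((Finset.erase_subset _ _).trans hzf) ?_
        unfold dm; (intro x hx; revert hx; rcases x with x | x <;>
    simp only [Finset.mem_union, Finset.mem_insert, Finset.mem_singleton, inl_mem_full,
      inr_mem_full, inl_mem_iq, inr_mem_iq, inl_mem_ip, inr_mem_ip, Sum.inl.injEq, Sum.inr.injEq,
      reduceCtorEq, Finset.notMem_empty, or_false, false_or, false_imp_iff, imp_false,
      implies_true, not_false_eq_true, iff_false, false_iff] <;> omega)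
      have hd6 : v ∈ Rs → v ∉ S := fun h7 h8 => Finset.disjoint_left.1 hdS h7 h8
      simp only [Finset.mem_sdiff, Finset.mem_univ, true_and, Finset.mem_union,
        Finset.mem_insert, not_or] at hv' hd5 hzS ⊢
      constructor
      · rintro ⟨h7, h8⟩
        rcases hv' with (h9 | h9) | h9 | h9
        · exact absurd h9 h7
        · right; right; exact ⟨h9, h8⟩
        · right; left; exact h9
        · left; exact h9
      · rintro (h9 | h9 | h9)
        · exact ⟨(hd5 h9).1, fun h10 => (hd5 h9).2 (hS0 h10)⟩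
        · rw [h9]; exact ⟨hzS.1, fun h10 => hzS.2 (hS0 h10)⟩
        · exact ⟨fun h10 => hd6 h10 h9.1, h9.2⟩
    rw [← h6] at h4
    exact hT2 S0 hS0 y0 _ K _ hK hy0 hy h4

end Pool.Agent.Exact


end

section

/-!
# The path statement with the same data for all structures
-/

set_option autoImplicit false
set_option linter.unusedSectionVars false

namespace Pool.Agent.Exact

open Finset

variable {V : Type*} [Fintype V] [DecidableEq V] {B : V → V → ℤ}

/-- the values available for structures on `C` -/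
def EV (B : V → V → ℤ) (C : Finset V) (D L : ℝ) : Prop :=
  ∀ M K t : ℝ, 0 ≤ K → St B (im B) C M K t → Val B (D + M + max (max L K) ((L + t) / 2))

lemma EV.mono {C : Finset V} {D L L' : ℝ} (h : EV B C D L) (hL : L ≤ L') : EV B C D L' := by
  intro M K t hK hst
  refine (h M K t hK hst).mono ?_
  have : max (max L K) ((L + t) / 2) ≤ max (max L' K) ((L' + t) / 2) :=
    max_le_max (max_le_max hL le_rfl) (by linarith)
  linarith

/-- flipping the signs of `Rs ∪ S0` -/
lemma flipEV (h0 : ∀ u v, 0 ≤ B u v) {Rs S S0 : Finset V} {g : ℤ}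
    (hdS : Disjoint Rs S) (hind : ∀ u ∈ S, ∀ v ∈ S, MM B u v = 0) (hS0 : S0 ⊆ S)
    {x z : V → ℤ} (hx : ∀ v, x v = 1 ∨ x v = -1) (hz : ∀ v, z v = 1 ∨ z v = -1)
    (hq : Qd B Rs x ≤ -g) (hn : ∀ z ∈ S, ∑ u ∈ Rs, MM B u z * x u = 0) {Y' : ℤ}
    (hY : |∑ v ∈ Rs, im B v * x v + ∑ v ∈ S0, im B v * z v| ≤ Y') :
    EV B (univ \ (Rs ∪ S0)) (-(g : ℝ)) (Y' : ℝ) := by
  classical
  intro M K t hK hst
  have hdS0 : Disjoint Rs S0 := Finset.disjoint_of_subset_right hS0 hdS
  rw [← Finset.compl_eq_univ_sdiff] at hst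
  set y : V → ℤ := fun v => if v ∈ Rs then x v else z v with hy
  have hyx : ∀ v ∈ Rs, y v = x v := fun v hv => by simp [hy, hv]
  have hyz : ∀ v ∈ S0, y v = z v := fun v hv => by
    have : v ∉ Rs := Finset.disjoint_right.1 hdS0 hv
    simp [hy, this]
  have h3 := extendSt (Rs ∪ S0) y (by
    intro v
    simp only [hy]
    split_ifs
    · exact hx v
    · exact hz v) hK hst
  have h4 : Qd B (Rs ∪ S0) y ≤ -g := by
    rw [Qd_union hdS0, Qd_congr hyx,
      Qd_indep h0 (fun l hl l' hl' => hind l (hS0 hl) l' (hS0 hl'))]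
    have : Int B Rs S0 y = 0 := by
      rw [Int_sum_right]
      refine Finset.sum_eq_zero fun w hw => ?_
      unfold Int
      simp only [Finset.sum_singleton]
      have : ∑ u ∈ Rs, MM B u w * (y u * y w) = (∑ u ∈ Rs, MM B u w * x u) * y w := by
        rw [Finset.sum_mul]
        exact Finset.sum_congr rfl fun u hu' => by rw [hyx u hu']; ring
      rw [this, hn w (hS0 hw), zero_mul]
    rw [this]
    linarith
  have h4' : ((Qd B (Rs ∪ S0) y : ℤ) : ℝ) ≤ -(g : ℝ) := by exact_mod_cast h4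
  have h5 : ∑ v ∈ Rs ∪ S0, im B v * y v =
      ∑ v ∈ Rs, im B v * x v + ∑ v ∈ S0, im B v * z v := by
    rw [Finset.sum_union hdS0]
    congr 1
    · exact Finset.sum_congr rfl fun v hv => by rw [hyx v hv]
    · exact Finset.sum_congr rfl fun v hv => by rw [hyz v hv]
  refine h3.mono ?_
  set L : ℝ := |((∑ v ∈ Rs ∪ S0, im B v * y v : ℤ) : ℝ)| with hL
  have h6 : L ≤ (Y' : ℝ) := by
    rw [hL, h5, ← Int.cast_abs]
    exact_mod_cast hY
  have h7 : max (max L K) ((L + t) / 2) ≤ max (max (Y' : ℝ) K) (((Y' : ℝ) + t) / 2) :=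
    max_le_max (max_le_max h6 le_rfl) (by linarith)
  linarith

/-- a run with a last vertex -/
lemma runE (hB : ∀ v, B v v = 0) (h0 : ∀ u v, 0 ≤ B u v) (h : V) (R C : Finset V)
    (hR : h ∉ R) (hC : h ∉ C) (hd : Disjoint R C) (hu : insert h (R ∪ C) = univ)
    {x : V → ℤ} (hx : ∀ v, x v = 1 ∨ x v = -1) {b : ℤ} (hb : 0 ≤ b) {y : V} (hy : y ∈ R)
    (hn : ∑ u ∈ R.erase y, MM B u y * x u = 0)
    (hP : PathB B (MM B h) x b (R.erase y)) (hq : 0 < im B h) {d β : ℤ}
    (hD : DD B (MM B h) x (R.erase y) ≤ d)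
    (hβ : DD B (MM B h) x (R.erase y) + ∑ v ∈ R.erase y, im B v * x v + im B h ≤ β) :
    Cr B R C b ∨ ∃ D L : ℤ, 1 ≤ L ∧ D ≤ d ∧ D + L ≤ β ∧ EV B (insert y C) D L ∧
      EV B C (D + MM B h y) |(L : ℝ) + im B y| := by
  classical
  set x' : V → ℤ := fun v => if v = y then 1 else x v with hx'
  have hyx : ∀ v ∈ R.erase y, x' v = x v := by
    intro v hv
    have : v ≠ y := (Finset.mem_erase.1 hv).1
    simp [hx', this]
  have hyy : x' y = 1 := by simp [hx']
  have hP' : PathB B (MM B h) x' b (R.erase y) := hP.congr fun v hv => (hyx v hv).symm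
  have e1 : DD B (MM B h) x' (R.erase y) = DD B (MM B h) x (R.erase y) := DD_congr hyx
  have e2 : ∑ v ∈ R.erase y, im B v * x' v = ∑ v ∈ R.erase y, im B v * x v :=
    Finset.sum_congr rfl fun v hv => by rw [hyx v hv]
  have e3 : DD B (MM B h) x' R = DD B (MM B h) x (R.erase y) + MM B h y := by
    have h3 := DD_place (a := MM B h) hB (Finset.notMem_erase y R) hyx hn
    rw [Finset.insert_erase hy, hyy, mul_one] at h3
    exact h3
  have e4 : ∑ v ∈ R, im B v * x' v = im B y + ∑ v ∈ R.erase y, im B v * x v := by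
    rw [← Finset.add_sum_erase _ _ hy, hyy, mul_one, e2]
  rcases run_last hB h0 h R C hR hC hd hu (x := x') (by
      intro v
      simp only [hx']
      split_ifs
      · left; rfl
      · exact hx v) hb hy hP' hq with h3 | ⟨h3, h4, h5⟩
  · exact Or.inl h3
  · right
    rw [e2] at h3
    refine ⟨DD B (MM B h) x (R.erase y), im B h + ∑ v ∈ R.erase y, im B v * x v, ?_, hD,
      by linarith, ?_, ?_⟩
    · linarith
    · intro M K t hK hst
      have h6 := h4 M K t hK hst
      rw [e1, e2] at h6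
      exact h6
    · intro M K t hK hst
      have h6 := h5 M K t hK hst
      rw [e3, e4] at h6
      have e5 : ((im B h + (im B y + ∑ v ∈ R.erase y, im B v * x v) : ℤ) : ℝ) =
          ((im B h + ∑ v ∈ R.erase y, im B v * x v : ℤ) : ℝ) + ((im B y : ℤ) : ℝ) := by
        push_cast; ring
      rw [e5] at h6
      push_cast at h6 ⊢
      exact h6

/-- common data at the end of the path: no last vertex -/
structure EndN (B : V → V → ℤ) (h : V) (Rs S C : Finset V) (g chR Y nb w Γ D0 L0 Dw Lw : ℤ) :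
    Prop where
  w0 : 0 ≤ w
  gam : Gam B h S ≤ Γ
  ws : w ≤ 2 ∨ (w ≤ Γ ∧ ((∃ v ∈ S, 0 ≤ im B v ∧ w ≤ im B v) ∨ ∃ v ∈ S, im B v < 0 ∧ w ≤ - im B v))
  l0 : 1 ≤ L0
  d0 : D0 ≤ chR - nb
  dl0 : D0 + L0 ≤ chR - nb + im B h - Y - Γ
  v0 : EV B C D0 L0
  lw : 1 ≤ Lw
  dw : Dw ≤ chR - nb
  dlw : Dw + Lw ≤ im B h - g - Γ
  vw : EV B C Dw Lw
  t2 : EV B (univ \ (Rs ∪ S)) (-(g : ℝ)) ((max Y w : ℤ) : ℝ)

/-- common data at the end of the path: a last vertex `y` -/
structure EndL (B : V → V → ℤ) (h : V) (Rs S C : Finset V) (g chR Y nb w Γ D0 L0 Dw Lw : ℤ)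
    (y : V) : Prop where
  yS : y ∈ S
  yn : im B y + MM B h y < 0
  ya : 1 ≤ MM B h y
  w0 : 0 ≤ w
  gam : Gam B h S ≤ Γ
  ws : w ≤ 2 ∨ (w ≤ Γ ∧ ((∃ v ∈ S, 0 ≤ im B v ∧ w ≤ im B v) ∨ ∃ v ∈ S, im B v < 0 ∧ w ≤ - im B v))
  l0 : 1 ≤ L0
  d0 : D0 ≤ chR - nb
  dl0 : D0 + L0 ≤ chR - nb + im B h - Y - Γ
  v0y : EV B (insert y C) D0 L0
  v0 : EV B C (D0 + MM B h y) |(L0 : ℝ) + im B y|
  lw : 1 ≤ Lw
  dw : Dw ≤ chR - nb
  dlw : Dw + Lw ≤ im B h - g - Γ
  vwy : EV B (insert y C) Dw Lw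
  vw : EV B C (Dw + MM B h y) |(Lw : ℝ) + im B y|
  t2 : EV B (univ \ (Rs ∪ S)) (-(g : ℝ)) ((max |Y + im B y| w : ℤ) : ℝ)
  t2y : EV B (univ \ (Rs ∪ S.erase y)) (-(g : ℝ)) ((max Y w : ℤ) : ℝ)

/-- common data at the end of the path: the last two vertices `y1`, `y2` -/
structure EndP (B : V → V → ℤ) (h : V) (Rs S C : Finset V) (g chR Y nb w Γ D0 L0 Dw Lw : ℤ)
    (y1 y2 : V) : Prop where
  y1S : y1 ∈ S
  y2S : y2 ∈ S
  a1 : MM B h y1 = 1
  a2 : MM B h y2 = 2
  s1 : im B y1 + 1 < 0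
  s12 : im B y2 < im B y1
  w0 : 0 ≤ w
  gam : Gam B h S ≤ Γ
  ws : w ≤ 2 ∨ (w ≤ Γ ∧ ((∃ v ∈ S, 0 ≤ im B v ∧ w ≤ im B v) ∨ ∃ v ∈ S, im B v < 0 ∧ w ≤ - im B v)) ∨
    (w ≤ Γ + 1 ∧ w + 2 ≤ - im B y2)
  l0 : 1 ≤ L0
  d0 : D0 + 2 ≤ chR - nb + 1
  dl0 : D0 + L0 + 2 + im B y2 ≤ chR - nb + im B h - Y - Γ
  v0y : EV B (insert y2 C) D0 L0
  v0 : EV B C (D0 + 2) |(L0 : ℝ) + im B y2|
  lw : 1 ≤ Lw
  dw : Dw + 2 ≤ chR - nb + 1
  dlw : Dw + Lw + 2 + im B y2 ≤ im B h - g - Γ
  vwy : EV B (insert y2 C) Dw Lw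
  vw : EV B C (Dw + 2) |(Lw : ℝ) + im B y2|
  t2 : EV B (univ \ (Rs ∪ S)) (-(g : ℝ)) ((max Y w : ℤ) : ℝ)

/-- **The path statement with joint data.** -/
theorem path3 (h0 : ∀ u v, 0 ≤ B u v) (h1 : ∀ u v, B u v ≤ 1) (hB : ∀ v, B v v = 0)
    (h : V) (hq : 0 < im B h) {Rs S C : Finset V} {g : ℤ} (hbl : BlocksN B S Rs g)
    (hdS : Disjoint Rs S) (hind : ∀ u ∈ S, ∀ v ∈ S, MM B u v = 0)
    (hhR : h ∉ Rs ∪ S) (hC : h ∉ C) (hd : Disjoint (Rs ∪ S) C)
    (hu : insert h ((Rs ∪ S) ∪ C) = univ) {b : ℤ} (hb0 : 0 ≤ b)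
    (hb : Rs.Nonempty → ch (MM B h) (Rs ∪ S) - 1 ≤ b) :
    ∃ Y nb : ℤ, 0 ≤ Y ∧ (Rs = ∅ → Y = 0) ∧ 0 ≤ nb ∧ (Rs.Nonempty → 1 ≤ nb) ∧
      (Rs.card : ℤ) ≤ g + nb ∧
      (∀ y0 : ℤ, (∀ v ∈ Rs, |im B v| ≤ y0) → Y ≤ Rs.card * y0) ∧
      (∀ S0 ⊆ S, ∀ y0 M K t : ℝ, 0 ≤ K → 0 ≤ y0 → (∀ v ∈ S0, |((im B v : ℤ) : ℝ)| ≤ y0) →
        St B (im B) (univ \ (Rs ∪ S0)) M K t →
        Val B (-(g : ℝ) + M + max (max (max ((Y : ℝ) - ∑ v ∈ S0, |((im B v : ℤ) : ℝ)|) y0) K)
          ((max ((Y : ℝ) - ∑ v ∈ S0, |((im B v : ℤ) : ℝ)|) y0 + t) / 2))) ∧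
      (Cr B (Rs ∪ S) C b ∨ ∃ w Γ D0 L0 Dw Lw : ℤ,
        EndN B h Rs S C g (ch (MM B h) Rs) Y nb w Γ D0 L0 Dw Lw ∨
        (∃ y, EndL B h Rs S C g (ch (MM B h) Rs) Y nb w Γ D0 L0 Dw Lw y) ∨
        (∃ y1 y2, EndP B h Rs S C g (ch (MM B h) Rs) Y nb w Γ D0 L0 Dw Lw y1 y2)) := by
  classical
  have ha : ∀ v, 0 ≤ MM B h v ∧ MM B h v ≤ 2 := fun v => MM_range h0 h1 h v
  have hGamS : Gam B h S = ∑ v ∈ S.filter (Harm (MM B h) (im B)), |MM B h v + im B v| := by
    unfold Gam
    congr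
  set a := MM B h with hadef
  obtain ⟨x0, nb, hx0, hq0, hg0, hg0', hneu, hcard, hnb0, hnb1, hDD, hDD'⟩ :=
    hbl.realise2 h0 hB ha
  have hchU : ch a (Rs ∪ S) = ch a Rs + ch a S := ch_union hdS
  have hchS0 : 0 ≤ ch a S := ch_nonneg _
  have hchR0 : 0 ≤ ch a Rs := ch_nonneg _
  have hbR : ∀ P ⊆ Rs, P.Nonempty → ch a P - 1 ≤ b := by
    intro P hP hPn
    have h3 := ch_mono (a := a) hP
    have h4 := hb (hPn.mono hP)
    linarith
  have hRs0 : Rs = ∅ → ch a Rs = 0 := by
    intro h3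
    rw [h3]; simp [ch]
  have hDb : ch a Rs - nb ≤ b := by
    rcases Rs.eq_empty_or_nonempty with h3 | h3
    · rw [hRs0 h3]; linarith
    · have := hb h3
      have := hnb1 h3
      linarith
  -- both signs
  have both : ∀ f : V → ℤ, ∃ x : V → ℤ, (∀ v, x v = 1 ∨ x v = -1) ∧ Qd B Rs x ≤ -g ∧
      GoodE B a x 1 Rs ∧ (∀ z ∈ S, ∑ u ∈ Rs, MM B u z * x u = 0) ∧
      DD B a x Rs ≤ ch a Rs - nb ∧ ∑ v ∈ Rs, f v * x v ≤ 0 := by
    intro f
    rcases le_total (∑ v ∈ Rs, f v * x0 v) 0 with h3 | h3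
    · exact ⟨x0, hx0, hq0, hg0, hneu, hDD, h3⟩
    · refine ⟨fun v => - x0 v, ?_, ?_, hg0', ?_, hDD', ?_⟩
      · intro v
        rcases hx0 v with h | h <;> simp [h]
      · rw [Qd_neg]; exact hq0
      · intro z hz
        have : ∑ u ∈ Rs, MM B u z * - x0 u = - ∑ u ∈ Rs, MM B u z * x0 u := by
          rw [← Finset.sum_neg_distrib]
          exact Finset.sum_congr rfl fun v _ => by ring
        rw [this, hneu z hz, neg_zero]
      · have : ∑ v ∈ Rs, f v * - x0 v = - ∑ v ∈ Rs, f v * x0 v := by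
          rw [← Finset.sum_neg_distrib]
          exact Finset.sum_congr rfl fun v _ => by ring
        rw [this]; linarith
  have toP : ∀ x : V → ℤ, GoodE B a x 1 Rs → PathB B a x b Rs := fun x hx =>
    hx.toPathB fun P hP hPn => hbR P hP hPn
  -- first sign
  obtain ⟨x1, hx1, hq1, hg1, hn1, hD1, hs1⟩ := both fun v => a v + im B v
  have hx1e : DD B a x1 Rs + ∑ v ∈ Rs, im B v * x1 v =
      Qd B Rs x1 + ∑ v ∈ Rs, (a v + im B v) * x1 v := by
    unfold DD
    rw [add_comm (∑ v ∈ Rs, a v * x1 v), add_assoc, ← Finset.sum_add_distrib]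
    congr 1
    exact Finset.sum_congr rfl fun v _ => by ring
  -- second sign
  obtain ⟨x, hx, hqx, hgx, hnx, hDx, hsx⟩ := both (im B)
  set Y : ℤ := - ∑ v ∈ Rs, im B v * x v with hY
  have hY0 : 0 ≤ Y := by rw [hY]; linarith
  have hYe : Rs = ∅ → Y = 0 := by
    intro h3
    rw [hY, h3]
    simp
  have hYb : ∀ y0 : ℤ, (∀ v ∈ Rs, |im B v| ≤ y0) → Y ≤ Rs.card * y0 := by
    intro y0 h3
    have h4 : - ∑ v ∈ Rs, im B v * x v ≤ ∑ _v ∈ Rs, y0 := by
      rw [← Finset.sum_neg_distrib]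
      refine Finset.sum_le_sum fun v hv => ?_
      have h5 := h3 v hv
      have h6 := abs_le.1 h5
      rcases hx v with h | h <;> rw [h] <;> linarith [h6.1, h6.2]
    rw [Finset.sum_const, nsmul_eq_mul] at h4
    exact h4
  refine ⟨Y, nb, hY0, hYe, hnb0, hnb1, hcard, hYb,
    t2all h0 hdS hind hx hqx hnx hY hsx, ?_⟩
  by_cases hcr : Cr B (Rs ∪ S) C b
  · exact Or.inl hcr
  right
  have hW : DD B a x1 Rs + ∑ v ∈ Rs, im B v * x1 v ≤ -g := by linarith
  have hT : DD B a x Rs + ∑ v ∈ Rs, im B v * x v ≤ ch a Rs - nb - Y := by rw [hY]; linarith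
  have hneg : ∀ c : ℤ, |-c| = |c| := fun c => abs_neg c
  rcases exists_plc (s := im B) hB ha S.card S rfl hind with ⟨w, Γ, hp⟩ |
    ⟨y, hy, hy1, hy2, w, Γ, hp⟩ | ⟨y1, hy1, y2, hy2, hy12, ha1, ha2, hs1', hs12, w, Γ, hp⟩
  · -- no last vertex
    have go : ∀ x : V → ℤ, (∀ v, x v = 1 ∨ x v = -1) → GoodE B a x 1 Rs →
        (∀ z ∈ S, ∑ u ∈ Rs, MM B u z * x u = 0) → DD B a x Rs ≤ ch a Rs - nb → ∀ β : ℤ,
        DD B a x Rs + ∑ v ∈ Rs, im B v * x v ≤ β →
        ∃ D L : ℤ, 1 ≤ L ∧ D ≤ ch a Rs - nb ∧ D + L ≤ β + im B h - Γ ∧ EV B C D L := by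
      intro x hx hg hn hD β hβ
      obtain ⟨x', b1, b2, b3, b4, b5⟩ := hp.run b Rs x hx (toP x hg) hdS (hD.trans hDb) hn
      rcases run hB h0 h (Rs ∪ S) C hhR hC hd hu b1 hb0 b3 hq with h3 | ⟨h3, h4, h5⟩
      · exact absurd h3 hcr
      · exact ⟨_, _, by linarith, by linarith, by linarith, h5⟩
    obtain ⟨D0, L0, c1, c2, c3, c4⟩ := go x hx hgx hnx hDx _ hT
    obtain ⟨Dw, Lw, d1, d2, d3, d4⟩ := go x1 hx1 hg1 hn1 hD1 _ hW
    obtain ⟨z, hz, hz'⟩ := hp.alt (-Y)
    refine ⟨w, Γ, D0, L0, Dw, Lw, Or.inl ⟨hp.w0, by rw [hGamS]; exact hp.gam, hp.ws, c1, c2,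
      by linarith, c4, d1, d2, by linarith, d4, ?_⟩⟩
    refine flipEV h0 hdS hind (Finset.Subset.refl _) hx hz hqx hnx ?_
    have e : ∑ v ∈ Rs, im B v * x v = -Y := by rw [hY]; ring
    rw [e]
    rw [hneg, abs_of_nonneg hY0] at hz'
    exact hz'
  · -- last vertex `y`
    have hySub : S.erase y ⊆ S := Finset.erase_subset _ _
    have hyRs : y ∉ Rs := Finset.disjoint_right.1 hdS hy
    have heR : (Rs ∪ S).erase y = Rs ∪ S.erase y := by
      ext z
      simp only [Finset.mem_erase, Finset.mem_union]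
      constructor
      · rintro ⟨h3, h4 | h4⟩
        · exact Or.inl h4
        · exact Or.inr ⟨h3, h4⟩
      · rintro (h3 | ⟨h3, h4⟩)
        · exact ⟨fun e => hyRs (e ▸ h3), Or.inl h3⟩
        · exact ⟨h3, Or.inr h4⟩
    have hyn : ¬ Harm a (im B) y := by
      unfold Harm
      push Not
      constructor
      · exact hy1
      · intro h3
        linarith
    have hgam : Gam B h S ≤ Γ := by
      rw [hGamS]
      refine le_trans (le_of_eq ?_) hp.gam
      congr 1
      ext z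
      simp only [Finset.mem_filter, Finset.mem_erase]
      constructor
      · rintro ⟨h3, h4⟩
        exact ⟨⟨fun e => hyn (e ▸ h4), h3⟩, h4⟩
      · rintro ⟨⟨_, h3⟩, h4⟩
        exact ⟨h3, h4⟩
    have hws : w ≤ 2 ∨ (w ≤ Γ ∧ ((∃ v ∈ S, 0 ≤ im B v ∧ w ≤ im B v) ∨
        ∃ v ∈ S, im B v < 0 ∧ w ≤ - im B v)) := by
      rcases hp.ws with h3 | ⟨h3, ⟨v, hv, h4⟩ | ⟨v, hv, h4⟩⟩
      · exact Or.inl h3
      · exact Or.inr ⟨h3, Or.inl ⟨v, hySub hv, h4⟩⟩
      · exact Or.inr ⟨h3, Or.inr ⟨v, hySub hv, h4⟩⟩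
    have go : ∀ x : V → ℤ, (∀ v, x v = 1 ∨ x v = -1) → GoodE B a x 1 Rs →
        (∀ z ∈ S, ∑ u ∈ Rs, MM B u z * x u = 0) → DD B a x Rs ≤ ch a Rs - nb → ∀ β : ℤ,
        DD B a x Rs + ∑ v ∈ Rs, im B v * x v ≤ β →
        ∃ D L : ℤ, 1 ≤ L ∧ D ≤ ch a Rs - nb ∧ D + L ≤ β + im B h - Γ ∧
          EV B (insert y C) D L ∧ EV B C (D + a y) |(L : ℝ) + im B y| := by
      intro x hx hg hn hD β hβ
      obtain ⟨x', b1, b2, b3, b4, b5⟩ := hp.run b Rs x hx (toP x hg)
        (Finset.disjoint_of_subset_right hySub hdS) (hD.trans hDb) (fun z hz => hn z (hySub hz))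
      have h3 := runE hB h0 h (Rs ∪ S) C hhR hC hd hu b1 hb0 (y := y)
        (Finset.mem_union_right _ hy) (by
          rw [heR, Finset.sum_union (Finset.disjoint_of_subset_right hySub hdS)]
          have e1 : ∑ u ∈ Rs, MM B u y * x' u = 0 := by
            rw [← hn y hy]
            exact Finset.sum_congr rfl fun u hu' => by rw [b2 u hu']
          have e2 : ∑ u ∈ S.erase y, MM B u y * x' u = 0 :=
            Finset.sum_eq_zero fun u hu' => by rw [hind u (hySub hu') y hy, zero_mul]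
          rw [e1, e2, add_zero]) (by rw [heR]; exact b3) hq (d := ch a Rs - nb)
        (β := β + im B h - Γ) (by rw [heR]; linarith) (by rw [heR]; linarith)
      exact h3.resolve_left hcr
    obtain ⟨D0, L0, c1, c2, c3, c4, c5⟩ := go x hx hgx hnx hDx _ hT
    obtain ⟨Dw, Lw, d1, d2, d3, d4, d5⟩ := go x1 hx1 hg1 hn1 hD1 _ hW
    refine ⟨w, Γ, D0, L0, Dw, Lw, Or.inr (Or.inl ⟨y, hy, hy1, hy2, hp.w0, hgam, hws, c1, c2,
      by linarith, c4, c5, d1, d2, by linarith, d4, d5, ?_, ?_⟩)⟩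
    · obtain ⟨z, hz, hz'⟩ := hp.alt (-(Y + im B y))
      rw [hneg] at hz'
      have e : ∑ v ∈ Rs, im B v * x v = -Y := by rw [hY]; ring
      refine flipEV h0 hdS hind (Finset.Subset.refl _) hx (z := fun v => if v = y then -1 else z v)
        ?_ hqx hnx ?_
      · intro v
        split_ifs
        · right; rfl
        · exact hz v
      · rw [e, ← Finset.add_sum_erase _ _ hy, if_pos rfl,
          Finset.sum_congr rfl fun v hv => by rw [if_neg (Finset.mem_erase.1 hv).1]]
        have e3 : -Y + (im B y * -1 + ∑ v ∈ S.erase y, im B v * z v) =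
            -(Y + im B y) + ∑ v ∈ S.erase y, im B v * z v := by ring
        rw [e3]
        exact hz'
    · obtain ⟨z, hz, hz'⟩ := hp.alt (-Y)
      rw [hneg, abs_of_nonneg hY0] at hz'
      have e : ∑ v ∈ Rs, im B v * x v = -Y := by rw [hY]; ring
      refine flipEV h0 hdS hind hySub hx hz hqx hnx ?_
      rw [e]
      exact hz'
  · -- the last two vertices
    set T : Finset V := (S.erase y2).erase y1 with hTdef
    have hTS : T ⊆ S := (Finset.erase_subset _ _).trans (Finset.erase_subset _ _)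
    have hy1Rs : y1 ∉ Rs := Finset.disjoint_right.1 hdS hy1
    have hy2Rs : y2 ∉ Rs := Finset.disjoint_right.1 hdS hy2
    have hy1e : y1 ∈ S.erase y2 := Finset.mem_erase.2 ⟨hy12, hy1⟩
    have hy1T : y1 ∉ T := Finset.notMem_erase _ _
    have hdT : Disjoint Rs T := Finset.disjoint_of_subset_right hTS hdS
    have hy1X : y1 ∉ Rs ∪ T := by
      simp only [Finset.mem_union, not_or]; exact ⟨hy1Rs, hy1T⟩
    have heR : (Rs ∪ S).erase y2 = insert y1 (Rs ∪ T) := by
      rw [← Finset.union_insert, hTdef, Finset.insert_erase hy1e]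
      ext z
      simp only [Finset.mem_erase, Finset.mem_union]
      constructor
      · rintro ⟨h3, h4 | h4⟩
        · exact Or.inl h4
        · exact Or.inr ⟨h3, h4⟩
      · rintro (h3 | ⟨h3, h4⟩)
        · exact ⟨fun e => hy2Rs (e ▸ h3), Or.inl h3⟩
        · exact ⟨h3, Or.inr h4⟩
    have hy1n : ¬ Harm a (im B) y1 := by
      unfold Harm
      push Not
      constructor
      · rw [ha1]; exact hs1'
      · intro h3
        rw [h3] at ha1
        norm_num at ha1
    have hy2n : ¬ Harm a (im B) y2 := by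
      unfold Harm
      push Not
      constructor
      · rw [ha2]; linarith
      · intro h3
        rw [h3] at ha2
        norm_num at ha2
    have hgam : Gam B h S ≤ Γ := by
      rw [hGamS]
      refine le_trans (le_of_eq ?_) hp.gam
      congr 1
      ext z
      simp only [hTdef, Finset.mem_filter, Finset.mem_erase]
      constructor
      · rintro ⟨h3, h4⟩
        exact ⟨⟨fun e => hy1n (e ▸ h4), fun e => hy2n (e ▸ h4), h3⟩, h4⟩
      · rintro ⟨⟨_, _, h3⟩, h4⟩
        exact ⟨h3, h4⟩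
    have hΓ0 := hp.Γ0
    have go : ∀ x : V → ℤ, (∀ v, x v = 1 ∨ x v = -1) → GoodE B a x 1 Rs →
        (∀ z ∈ S, ∑ u ∈ Rs, MM B u z * x u = 0) → DD B a x Rs ≤ ch a Rs - nb → ∀ β : ℤ,
        DD B a x Rs + ∑ v ∈ Rs, im B v * x v ≤ β →
        ∃ D L : ℤ, 1 ≤ L ∧ D ≤ ch a Rs - nb - 1 ∧ D + L ≤ β + im B h - Γ - (1 + im B y1) ∧
          EV B (insert y2 C) D L ∧ EV B C (D + a y2) |(L : ℝ) + im B y2| := by
      intro x hx hg hn hD β hβ
      obtain ⟨x', b1, b2, b3, b4, b5⟩ := hp.run b Rs x hx (toP x hg) hdT (hD.trans hDb)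
        (fun z hz => hn z (hTS hz))
      have hneuT : ∀ z ∈ S, z ∉ T → ∑ u ∈ Rs ∪ T, MM B u z * x' u = 0 := by
        intro z hz _
        rw [Finset.sum_union hdT]
        have e1 : ∑ u ∈ Rs, MM B u z * x' u = 0 := by
          rw [← hn z hz]
          exact Finset.sum_congr rfl fun u hu' => by rw [b2 u hu']
        have e2 : ∑ u ∈ T, MM B u z * x' u = 0 :=
          Finset.sum_eq_zero fun u hu' => by rw [hind u (hTS hu') z hz, zero_mul]
        rw [e1, e2, add_zero]
      obtain ⟨x2, c1, c2, c3, c0, c4, c5, c6, c7⟩ := plStep (s := im B) hB (Rs ∪ T) x' y1 (-1)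
        b1 b3 hy1X (Or.inr rfl) (hneuT y1 hy1 hy1T)
      replace c4 := c4 (by rw [ha1]; linarith)
      have h3 := runE hB h0 h (Rs ∪ S) C hhR hC hd hu c1 hb0 (y := y2)
        (Finset.mem_union_right _ hy2) (by
          rw [heR]
          exact c7 y2 (hind y1 hy1 y2 hy2) (hneuT y2 hy2 (by simp [hTdef])))
        (by rw [heR]; exact c4) hq (d := ch a Rs - nb - 1)
        (β := β + im B h - Γ - (1 + im B y1)) (by rw [heR, c5, ha1]; linarith)
        (by rw [heR, c5, c6, ha1]; linarith)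
      exact h3.resolve_left hcr
    obtain ⟨D0, L0, c1, c2, c3, c4, c5⟩ := go x hx hgx hnx hDx _ hT
    obtain ⟨Dw, Lw, d1, d2, d3, d4, d5⟩ := go x1 hx1 hg1 hn1 hD1 _ hW
    rw [ha2] at c5 d5
    refine ⟨max w (im B y1 - im B y2), Γ + (im B y1 - im B y2 - 1), D0, L0, Dw, Lw,
      Or.inr (Or.inr ⟨y1, y2, hy1, hy2, ha1, ha2, hs1', hs12, hp.w0.trans (le_max_left _ _),
        by linarith, ?_, c1, by linarith, by linarith, c4, by exact_mod_cast c5, d1, by linarith,
        by linarith, d4, by exact_mod_cast d5, ?_⟩)⟩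
    · rcases max_choice w (im B y1 - im B y2) with e | e <;> rw [e]
      · rcases hp.ws with h3 | ⟨h3, ⟨v, hv, h4⟩ | ⟨v, hv, h4⟩⟩
        · exact Or.inl h3
        · exact Or.inr (Or.inl ⟨by linarith, Or.inl ⟨v, hTS hv, h4⟩⟩)
        · exact Or.inr (Or.inl ⟨by linarith, Or.inr ⟨v, hTS hv, h4⟩⟩)
      · right; right
        constructor <;> linarith
    · obtain ⟨z, hz, hz'⟩ := hp.alt (-Y)
      rw [hneg, abs_of_nonneg hY0] at hz'
      obtain ⟨τ, hτ, hτ'⟩ := exists_sign_int (-Y + ∑ v ∈ T, im B v * z v) (im B y1 - im B y2)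
      have e : ∑ v ∈ Rs, im B v * x v = -Y := by rw [hY]; ring
      refine flipEV h0 hdS hind (Finset.Subset.refl _) hx
        (z := fun v => if v = y1 then τ else if v = y2 then -τ else z v) ?_ hqx hnx ?_
      · intro v
        split_ifs
        · exact hτ
        · rcases hτ with h | h <;> rw [h] <;> norm_num
        · exact hz v
      · rw [e, ← Finset.add_sum_erase _ _ hy2, ← Finset.add_sum_erase _ _ hy1e, if_pos rfl,
          if_neg (Ne.symm hy12), if_pos rfl]
        have e2 : ∑ v ∈ (S.erase y2).erase y1, im B v *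
            (if v = y1 then τ else if v = y2 then -τ else z v) =
            ∑ v ∈ T, im B v * z v := by
          refine Finset.sum_congr rfl fun v hv => ?_
          have h3 : v ≠ y1 := (Finset.mem_erase.1 hv).1
          have h4 : v ≠ y2 := (Finset.mem_erase.1 (Finset.mem_erase.1 hv).2).1
          rw [if_neg h3, if_neg h4]
        rw [e2]
        have e3 : -Y + (im B y2 * -τ + (im B y1 * τ + ∑ v ∈ T, im B v * z v)) =
            (-Y + ∑ v ∈ T, im B v * z v) + (im B y1 - im B y2) * τ := by ring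
        rw [e3]
        refine hτ'.trans ?_
        rw [abs_of_pos (show 0 < im B y1 - im B y2 by linarith)]
        exact max_le (hz'.trans (max_le_max le_rfl (le_max_left _ _)))
          ((le_max_right _ _).trans (le_max_right _ _))

end Pool.Agent.Exact


end

section

/-!
# No crossing, all hubs of the first type (minimum outdegree at least `k`)
-/

set_option autoImplicit false
set_option linter.unusedSectionVars false

namespace Pool.Agent.Exact

open Finset

variable {V : Type*} [Fintype V] [DecidableEq V]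
variable {B : V → V → ℤ} {Rl : Finset V} {ℓ nQ nP : ℕ} {uq up : ℕ → V} {q p : ℕ → ℝ}
variable {k : ℤ} {θ : ℝ}

/-- closing the end of the path -/
lemma EnI.close {a b : ℕ} {Db β K t : ℝ} (hE : EnI B uq up a b Db β)
    (hst : StI B uq up (hb1 a b) 0 K t) (hK : 0 ≤ K) (h1 : Db + K ≤ θ) (h2 : Db + t ≤ θ)
    (h3 : β ≤ θ) : Val B θ := by
  obtain ⟨D, L, hL, hD, hDL, hv⟩ := hE
  refine (hv 0 K t hK hst).mono ?_
  rw [add_zero, ← max_add_add_left, ← max_add_add_left]
  refine max_le (max_le ?_ ?_) ?_ <;> linarith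

/-- closing the end of the path, with a last vertex -/
lemma Frame.closeOut (h : Frame B Rl ℓ nQ nP uq up q p) {a b : ℕ} {S : Finset V} {D1 β K t : ℝ}
    (hbP : b ≤ nP) (haQ : a ≤ nQ) (hS : S ⊆ vs uq up (rr nQ nP a b))
    (hO : OutI B uq up a b S D1 β) (hCrS : CrSI B uq up p a b (D1 + 1) → Val B θ)
    (hst : StI B uq up (hb1 a b) 0 K t) (hK : 0 ≤ K) (h1 : D1 + 1 + K ≤ θ)
    (h2 : D1 + 1 + t ≤ θ) (h3 : β ≤ θ) : Val B θ := by
  rcases h.outI hbP haQ hS hO with h4 | h4
  · exact hCrS h4.toS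
  · exact h4.close hst hK h1 h2 h3

/-- vertices with negative imbalance -/
lemma Frame.im_neg (h : Frame B Rl ℓ nQ nP uq up q p) {v : V} (hv : im B v < 0) :
    |((im B v : ℤ) : ℝ)| ≤ p 0 := by
  have hv' : ((im B v : ℤ) : ℝ) < 0 := by exact_mod_cast hv
  rcases h.sys.cover v with ⟨i, hi, rfl⟩ | ⟨i, hi, rfl⟩
  · exfalso
    rw [h.sys.wtQ i hi] at hv'
    have := h.sys.chQ.nn i hi
    linarith
  · rw [abs_of_neg hv', h.sys.wtP i hi, neg_neg]
    exact h.sys.chP.anti 0 i (Nat.zero_le _) hi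

/-- the charge of the rest -/
lemma Ctx.chle (h : Ctx B Rl ℓ nQ nP uq up q p k θ) {a b : ℕ} (ha : 1 ≤ a) (hq : 0 < q 0) :
    ch (MM B (uq 0)) (vs uq up (rr nQ nP a b)) ≤ (Rl.card : ℤ) - 1 - im B (uq 0) := by
  have hl := h.fr.l2
  have hQ := h.fr.nQle
  have hP := h.fr.nPle
  have hr := h.realQ0 (i := 0) (by omega) hq
  have h1 := charge_sum h.fr.sys.B0 h.fr.sys.B1 h.fr.sys.Bd h.fr.sys.dummy hr 1 (Or.inl rfl)
    (T := vs uq up (rr nQ nP a b)) (by
      rw [← h.fr.real]
      refine vs_mono ?_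
      unfold rr
      (intro x hx; revert hx; rcases x with x | x <;>
    simp only [Finset.mem_union, Finset.mem_insert, Finset.mem_singleton, inl_mem_full,
      inr_mem_full, inl_mem_iq, inr_mem_iq, inl_mem_ip, inr_mem_ip, Sum.inl.injEq, Sum.inr.injEq,
      reduceCtorEq, Finset.notMem_empty, or_false, false_or, false_imp_iff, imp_false,
      implies_true, not_false_eq_true, iff_false, false_iff] <;> omega)) (by
      intro hmem
      unfold vs at hmem
      rw [Finset.mem_image] at hmem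
      obtain ⟨x, hx, hx'⟩ := hmem
      have h2 : x ∈ full ℓ := by
        have : rr nQ nP a b ⊆ full ℓ := by unfold rr; (intro x hx; revert hx; rcases x with x | x <;>
    simp only [Finset.mem_union, Finset.mem_insert, Finset.mem_singleton, inl_mem_full,
      inr_mem_full, inl_mem_iq, inr_mem_iq, inl_mem_ip, inr_mem_ip, Sum.inl.injEq, Sum.inr.injEq,
      reduceCtorEq, Finset.notMem_empty, or_false, false_or, false_imp_iff, imp_false,
      implies_true, not_false_eq_true, iff_false, false_iff] <;> omega)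
        exact this hx
      have h3 : x = Sum.inl 0 := h.fr.inj h2 (by simp; omega) hx'
      rw [h3] at hx
      unfold rr at hx
      simp only [Finset.mem_union, inl_mem_iq, inl_mem_ip, or_false] at hx
      omega)
  rw [one_mul] at h1
  refine le_trans ?_ h1
  unfold ch
  refine Finset.sum_le_sum fun v _ => ?_
  have h2 := mult_le h.fr.sys.B0 h.fr.sys.B1 (uq 0) v 1 (Or.inl rfl)
  split_ifs with h3
  · exact (abs_nonneg _).trans h2
  · have h4 : MM B (uq 0) v - 1 ≠ 0 := fun e => h3 (by linarith)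
    have h5 := Int.one_le_abs h4
    exact h5.trans h2

/-- **No crossing for hubs `uq 0, …, uq (2i)`.** -/
theorem Ctx.nc0 (h : Ctx B Rl ℓ nQ nP uq up q p k θ) (hnv : ¬ Val B θ)
    (hout : ∀ v ∈ Rl, k ≤ ∑ u, B v u) {i : ℕ} (hi : i < ℓ) (hqi : 0 < q (2 * i))
    (hlam : 0 ≤ 2 * θ - Rl.card + 1)
    (hCr : CrI B uq up q p (2 * i + 1) 0 (max 0 ((Rl.card : ℝ) - 1 - q 0 - 1)) → Val B θ)
    (hCrS : ∀ D : ℝ, D ≤ (Rl.card : ℝ) - 1 - q 0 → CrSI B uq up p (2 * i + 1) 0 D → Val B θ)
    (ht : (Rl.card : ℝ) - 1 - q 0 + (q 0 - q (2 * i) - AA q i) ≤ θ)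
    (hD : ∀ l < i, q (2 * l) - q (2 * l + 1) ≤ θ) (hp : p 0 ≤ θ) :
    ∃ ρ σ hl g nb : ℤ, 0 ≤ ρ ∧ 0 ≤ hl ∧ hl ≤ σ ∧
      2 * k * hl + σ ≤ (Rl.card : ℤ) - (2 * i + 1 : ℕ) ∧
      ρ + σ = (Rl.card : ℤ) - (2 * i + 1 : ℕ) ∧
      ∑ j ∈ range (2 * i + 1), q j ≤
        (2 * i + 1 : ℕ) * ((Rl.card : ℝ) - (2 * i + 1 : ℕ)) - k * (σ - hl) ∧
      (k : ℝ) * (Rl.card - (2 * i + 1 : ℕ)) + ∑ j ∈ range (2 * i + 1), q j ≤ (2 * k - 1) * θ ∧
      ρ ≤ 2 * g ∧ (0 < ρ → 1 ≤ nb ∧ ρ ≤ g + nb ∧
        (θ + g < q (2 * i) ∨ 3 * θ - Rl.card + nb + 2 * g < AA q i + q (2 * i) ∨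
          (nb = 1 ∧ 2 * θ + 2 * g < AA q i + q (2 * i) + p 0))) := by
  classical
  have hl2 := h.fr.l2
  have hQle := h.fr.nQle
  have hθ0 := h.θ0
  have hq0 : 0 < q 0 := lt_of_lt_of_le hqi (h.fr.sys.chQ.anti 0 (2 * i) (by omega) (by omega))
  have haQ : 2 * i + 1 ≤ nQ := by
    have h1 := h.realQ0 (i := 2 * i) (by omega) hqi
    rw [h.fr.sys.realQ (2 * i) (by omega)] at h1
    omega
  obtain ⟨pick, hpick⟩ : ∃ pick : Finset V → V, ∀ K : Finset V, K.Nonempty → pick K ∈ K := by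
    refine ⟨fun K => if hK : K.Nonempty then hK.choose else uq 0, fun K hK => ?_⟩
    simp only [hK, dif_pos]
    exact hK.choose_spec
  obtain ⟨Rs, S, g, Kc, hdec, hcut⟩ := h.fr.cut (a := 2 * i + 1) (b := 0) (by omega) haQ
    (by omega) hq0 pick hpick
  obtain ⟨hl, c1, c2, c3, c4, c5, c6⟩ := h.cnt hout haQ hdec
  -- reduce to the case of a nonempty set
  rcases Rs.eq_empty_or_nonempty with hRs | hRs
  · refine ⟨Rs.card, S.card, hl, g, 0, Nat.cast_nonneg _, c1, c2, c3, c4, c5, c6, hdec.cg, ?_⟩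
    intro h0
    rw [hRs] at h0
    simp at h0
  set R := vs uq up (rr nQ nP (2 * i + 1) 0) with hR
  obtain ⟨Y, nb, hY, hnb0, hnbe, hnb1, hcard, hT2, hT2A, hT1⟩ := hcut (ch (MM B (uq 0)) R) 1
    le_rfl le_rfl (fun e => absurd e hRs.ne_empty)
  have hch := h.chle (a := 2 * i + 1) (b := 0) (by omega) hq0
  have himq : ((im B (uq 0) : ℤ) : ℝ) = q 0 := h.fr.sys.wtQ 0 (by omega)
  have hcR : ((ch (MM B (uq 0)) R : ℤ) : ℝ) ≤ (Rl.card : ℝ) - 1 - q 0 := by
    rw [← himq]
    exact_mod_cast hch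
  set cR := ch (MM B (uq 0)) R with hcRdef
  have hnb1' : 1 ≤ nb := hnb1 hRs
  have hnb1r : (1 : ℝ) ≤ nb := by exact_mod_cast hnb1'
  have hYr : (0 : ℝ) ≤ Y := by exact_mod_cast hY.1
  refine ⟨Rs.card, S.card, hl, g, nb, Nat.cast_nonneg _, c1, c2, c3, c4, c5, c6, hdec.cg,
    fun _ => ⟨hnb1', hcard, ?_⟩⟩
  have hgr : (0 : ℝ) ≤ g := by exact_mod_cast hdec.g0
  -- the arrangement of the other hubs
  set t : ℝ := q 0 - q (2 * i) - AA q i with htdef
  have htE : ∀ l < i, q (2 * l + 1) - q (2 * l + 2) ≤ t := by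
    intro l hl'
    have := h.fr.qgE (Nat.zero_le l) hl' hi
    rw [AA_zero] at this
    simp only [Nat.mul_zero] at this
    linarith
  have ht0 : 0 ≤ t := by
    have := h.fr.qE (Nat.zero_le i) hi
    rw [AA_zero] at this
    simp only [Nat.mul_zero] at this
    linarith
  have harr : StI B uq up (hb1 (2 * i + 1) 0) 0 t t := by
    have := h.fr.aPure (K := t) i 0 hi (Nat.zero_le _) htE (by simp)
    rw [AA_zero, add_zero] at this
    exact this
  have hζ : (0 : ℝ) ≤ Rl.card - 1 - q 0 := by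
    have := h.qle (i := 0) (by omega) hq0
    linarith
  have hSR : S ⊆ R := by
    rw [← hdec.un]
    exact Finset.subset_union_right
  rcases hT1 with hT1 | hT1
  · exfalso
    refine hnv (hCr ?_)
    intro M K t' hK h1 h2 h3
    refine (hT1 M K t' hK h1 h2 h3).mono ?_
    have h4 : ((max 0 (cR - 1) : ℤ) : ℝ) ≤ max 0 ((Rl.card : ℝ) - 1 - q 0 - 1) := by
      push_cast
      exact max_le_max le_rfl (by linarith)
    linarith
  · -- the end of the path
    have hY1 : (Y : ℝ) < cR - nb + q 0 - θ := by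
      by_contra hc
      push Not at hc
      exact hnv (h.fr.closeOut (Nat.zero_le _) haQ hSR hT1.t (hCrS _ (by linarith)) harr ht0
        (by linarith) (by linarith) (by linarith))
    have hv1 : ∀ v ∈ S, 0 ≤ im B v → |((im B v : ℤ) : ℝ)| < cR - nb + q 0 - θ := by
      intro v hv hv0
      by_contra hc
      push Not at hc
      exact hnv (h.fr.closeOut (Nat.zero_le _) haQ hSR (hT1.v v hv hv0) (hCrS _ (by linarith))
        harr ht0 (by linarith) (by linarith) (by linarith))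
    have hv2 : 2 ≤ nb → ∀ v ∈ S, |((im B v : ℤ) : ℝ)| < cR - nb + q 0 - θ + 1 := by
      intro hnb v hv
      by_contra hc
      push Not at hc
      have hnbr : (2 : ℝ) ≤ nb := by exact_mod_cast hnb
      exact hnv (h.fr.closeOut (Nat.zero_le _) haQ hSR (hT1.v' (by linarith) v hv)
        (hCrS _ (by linarith)) harr ht0 (by linarith) (by linarith) (by linarith))
    -- all neutral vertices signed greedily
    have harr2 : ∀ K : ℝ, θ ≤ K → q (2 * i) ≤ K →
        StI B uq up (hb (2 * i + 1) 0) 0 K (AA q i + q (2 * i)) := by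
      intro K hK1 hK2
      have := h.fr.tA (K := K) i 0 hi (Nat.zero_le _) hK2 (fun l hl' => (hD l hl').trans hK1)
        (by simp)
      rw [AA_zero, add_zero] at this
      exact this
    by_contra hcon
    push Not at hcon
    obtain ⟨hc1, hc2, hc3⟩ := hcon
    have key : ∀ y0 : ℝ, (Y : ℝ) ≤ y0 → (∀ v ∈ S, |((im B v : ℤ) : ℝ)| ≤ y0) → y0 ≤ θ →
        y0 + (AA q i + q (2 * i)) ≤ 2 * θ + 2 * g → False := by
      intro y0 h1 h2 h3 h4
      refine hnv ((hT2 y0 0 (θ + g) _ (by linarith) (by linarith) h2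
        (harr2 (θ + g) (by linarith) hc1)).mono ?_)
      have h5 : (0 : ℝ) ≤ ∑ v ∈ S, |((im B v : ℤ) : ℝ)| :=
        Finset.sum_nonneg fun v _ => abs_nonneg _
      have h6 : max ((Y : ℝ) - ∑ v ∈ S, |((im B v : ℤ) : ℝ)|) y0 = y0 :=
        max_eq_right (by linarith)
      rw [h6, add_zero, ← max_add_add_left, ← max_add_add_left]
      refine max_le (max_le ?_ ?_) ?_ <;> linarith
    rcases lt_or_ge 1 nb with hnb2 | hnb2
    · have hnb2' : 2 ≤ nb := by omega
      have hnb2r : (2 : ℝ) ≤ nb := by exact_mod_cast hnb2'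
      refine key ((Rl.card : ℝ) - θ - nb) ?_ (fun v hv => ?_) ?_ ?_
      · linarith
      · have := hv2 hnb2' v hv
        linarith
      · linarith
      · linarith
    · have hnb3 : nb = 1 := le_antisymm hnb2 hnb1'
      have hnb3r : (nb : ℝ) = 1 := by rw [hnb3]; norm_num
      have hc3' := hc3 hnb3
      refine key (max ((Rl.card : ℝ) - θ - nb) (p 0)) ?_ (fun v hv => ?_) ?_ ?_
      · exact le_max_of_le_left (by linarith)
      · rcases lt_or_ge (im B v) 0 with h1 | h1
        · exact le_max_of_le_right (h.fr.im_neg h1)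
        · have := hv1 v hv h1
          exact le_max_of_le_left (by linarith)
      · exact max_le (by linarith) hp
      · rcases max_choice ((Rl.card : ℝ) - θ - nb) (p 0) with h1 | h1 <;> rw [h1] <;> linarith

end Pool.Agent.Exact


end

section

/-!
# The leaf L1, minimum outdegree at least `k`
-/

set_option autoImplicit false
set_option linter.unusedSectionVars false

namespace Pool.Agent.Exact

open Finset

variable {V : Type*} [Fintype V] [DecidableEq V]
variable {B : V → V → ℤ} {Rl : Finset V} {ℓ nQ nP : ℕ} {uq up : ℕ → V} {q p : ℕ → ℝ}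
variable {k : ℤ} {θ : ℝ}

/-- the sum of the weights of the hubs -/
lemma Frame.sum_ge (h : Frame B Rl ℓ nQ nP uq up q p) {i : ℕ} (hi : i < ℓ) :
    ((2 * i + 1 : ℕ) : ℝ) * q (2 * i) ≤ ∑ j ∈ range (2 * i + 1), q j := by
  have h1 : ∑ _j ∈ range (2 * i + 1), q (2 * i) ≤ ∑ j ∈ range (2 * i + 1), q j := by
    refine Finset.sum_le_sum fun j hj => ?_
    have := Finset.mem_range.1 hj
    exact h.sys.chQ.anti j (2 * i) (by omega) (by omega)
  rw [Finset.sum_const, nsmul_eq_mul, Finset.card_range] at h1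
  exact h1

/-- the other weights are at most `n - 1 - k` -/
lemma Ctx.p0K (h : Ctx B Rl ℓ nQ nP uq up q p k θ) (hout : ∀ v ∈ Rl, k ≤ ∑ u, B v u)
    (hn : k + 1 ≤ (Rl.card : ℤ)) : p 0 ≤ Rl.card - 1 - k := by
  have hl := h.fr.l2
  rcases lt_or_ge 0 (p 0) with h1 | h1
  · exact h.pleK hout (by omega) h1
  · have : (k : ℝ) + 1 ≤ Rl.card := by exact_mod_cast hn
    linarith

/-- **The leaf L1, minimum outdegree at least `k`.** -/
theorem Ctx.L1out (h : Ctx B Rl ℓ nQ nP uq up q p k θ) (hn : 2 * k - 1 ≤ (Rl.card : ℤ))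
    (hnv : ¬ Val B θ) (hpq : p 0 ≤ q 0) (hout : ∀ v ∈ Rl, k ≤ ∑ u, B v u) {i : ℕ} (hi : i < ℓ)
    (hD : θ - 2 < q (2 * i) - q (2 * i + 1)) (hp : p 0 < q 0 - θ + 2) : False := by
  have hl := h.fr.l2
  have k3 := h.k3
  have hθ3 := h.θ3 hn
  have hlam := h.lam2 hn
  have hqθ := h.top hnv hpq
  have hq : 0 < q 0 := by linarith
  have hy2 := h.y2 hn hq
  have hqn := h.qle (i := 0) (by omega) hq
  have hqi1 := h.fr.qn (i := 2 * i + 1) (by omega)
  have hqi : 0 < q (2 * i) := by linarith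
  have hA0 := h.fr.qA0
  have hDi := h.fr.qD hi
  have hE := h.fr.qE (Nat.zero_le i) hi
  rw [AA_zero] at hE
  simp only [Nat.mul_zero, sub_zero] at hE
  have hAi : 0 ≤ AA q i := by
    have := AA_mono h.fr.sys.chQ (Nat.zero_le i) (by omega)
    rwa [AA_zero] at this
  have hT := h.fr.qT hi
  have hAi1 : AA q (i + 1) ≤ AA q ℓ := AA_mono h.fr.sys.chQ (by omega) (by omega)
  rw [AA_succ] at hAi1
  have hA1 : AA q i + (q (2 * i) - q (2 * i + 1)) + q (2 * i + 1) ≤ q 0 := by linarith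
  have hpn := h.fr.pn (i := 0) (by omega)
  have htE : ∀ l < i, q (2 * l + 1) - q (2 * l + 2) ≤ q 0 - q (2 * i) - AA q i := by
    intro l hl'
    have := h.fr.qgE (Nat.zero_le l) hl' hi
    rw [AA_zero] at this
    simp only [Nat.mul_zero] at this
    linarith
  have hζ : (0 : ℝ) ≤ Rl.card - 1 - q 0 := by linarith
  have hmx : max 0 ((Rl.card : ℝ) - 1 - q 0 - 1) ≤ Rl.card - 1 - q 0 :=
    max_le hζ (by linarith)
  obtain ⟨ρ, σ, hlg, g, nb, c0, c1, c2, c3, c4, c5, c6, c7, c8⟩ := h.nc0 hnv hout hi hqi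
    (by linarith) (fun hC => h.fr.crPure (K := q 0 - θ + 2) i 0 hi (Nat.zero_le _) (by linarith)
      (by linarith) hp.le (fun l hl' => by have := htE l hl'; linarith) (by simp) (by linarith)
      (by rw [AA_zero, Nat.mul_zero]; linarith) hC)
    (fun D hDz hC => h.fr.crsPure (K := q 0 - θ + 2) i 0 hi (Nat.zero_le _) (by linarith)
      (by rw [Nat.mul_zero]; linarith) (fun l hl' => by have := htE l hl'; linarith) (by simp) (by linarith)
      (by rw [AA_zero, Nat.mul_zero]; linarith) hC)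
    (by linarith) (fun l hl' => by
      have := h.fr.qDD' hl' hi
      linarith) (by linarith)
  have hkn := h.kn
  refine arith_L1 (k := k) (n := (Rl.card : ℤ)) (a := ((2 * i + 1 : ℕ) : ℤ)) (ρ := ρ) (σ := σ)
    (hl := hlg) (g := g) (nb := nb) (θ := θ) (μ := q (2 * i))
    (Sg := ∑ j ∈ range (2 * i + 1), q j) (q0 := q 0) (p0 := p 0) (A := AA q i) k3 hn
    (by push_cast; omega) (by push_cast; omega) (by exact_mod_cast hkn) (by linarith)
    (by exact_mod_cast h.fr.sum_ge hi) (by push_cast; linarith) ?_ hE hAi c0 c1 c2 c3 c4 ?_ ?_ c7 ?_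
  · have := h.p0K hout (by linarith)
    push_cast
    linarith
  · exact_mod_cast c5
  · exact_mod_cast c6
  · intro h0
    obtain ⟨d1, d2, d3⟩ := c8 h0
    refine ⟨d1, d2, ?_⟩
    rcases d3 with d3 | d3 | d3
    · exact Or.inl d3
    · right; left
      push_cast
      linarith
    · exact Or.inr (Or.inr d3)

end Pool.Agent.Exact


end

section

/-!
# The range `n < 2k-1`
-/

set_option autoImplicit false
set_option linter.unusedSectionVars false

namespace Pool.Agent.Exact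

open Finset

variable {V : Type*} [Fintype V] [DecidableEq V]
variable {B : V → V → ℤ} {Rl : Finset V} {ℓ nQ nP : ℕ} {uq up : ℕ → V} {q p : ℕ → ℝ}
variable {k : ℤ} {θ : ℝ}

/-- arithmetic of the last step for small `n` -/
lemma arith_small {k n a ρ σ hl g nb : ℤ} {θ μ Sg p0 A : ℝ} (k3 : 3 ≤ k)
    (hn : n < 2 * k - 1) (ha1 : 1 ≤ a) (hak : a ≤ k) (hμ : 0 < μ) (hS1 : a * μ ≤ Sg)
    (hθ : 0 ≤ θ) (c1 : 0 ≤ hl) (c2 : hl ≤ σ) (c3 : 2 * k * hl + σ ≤ n - a)
    (c4 : ρ + σ = n - a) (c5 : Sg ≤ a * ((n : ℝ) - a) - k * (σ - hl)) (c7 : ρ ≤ 2 * g)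
    (c8 : 0 < ρ → 1 ≤ nb ∧ ρ ≤ g + nb ∧ (θ + g < μ ∨ 3 * θ - n + nb + 2 * g < A + μ ∨
      (nb = 1 ∧ 2 * θ + 2 * g < A + μ + p0))) (H1 : μ ≤ 2 * θ)
    (H2 : A ≤ 3 * θ - n + μ / 2) (H3 : A + p0 ≤ 2 * θ + μ - 2) : False := by
  have k3r : (3 : ℝ) ≤ k := by exact_mod_cast k3
  have ha1r : (1 : ℝ) ≤ a := by exact_mod_cast ha1
  have hakr : (a : ℝ) ≤ k := by exact_mod_cast hak
  have c4r : (ρ : ℝ) + σ = n - a := by exact_mod_cast c4
  have c7r : (ρ : ℝ) ≤ 2 * g := by exact_mod_cast c7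
  have h0 : hl = 0 := by
    by_contra hc
    have h1 : 1 ≤ hl := by omega
    have h2 : 0 ≤ k * (hl - 1) := mul_nonneg (by omega) (by omega)
    linarith only [h2, c2, c3, hn, ha1, h1]
  subst h0
  have c2r : (0 : ℝ) ≤ σ := by exact_mod_cast c2
  push_cast at c5
  have hμ0 : μ ≤ (n : ℝ) - a := by
    have h1 : 0 ≤ (k : ℝ) * σ := mul_nonneg (by linarith only [k3r]) c2r
    by_contra hc
    push Not at hc
    have h2 : (a : ℝ) * (n - a) < a * μ :=
      mul_lt_mul_of_pos_left hc (by linarith only [ha1r])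
    linarith only [h1, h2, hS1, c5]
  have hρ : μ ≤ ρ := by
    have h1 : (k : ℝ) * σ ≤ a * (n - a - μ) := by linarith only [hS1, c5]
    have h2 : (a : ℝ) * (n - a - μ) ≤ k * (n - a - μ) :=
      mul_le_mul_of_nonneg_right hakr (by linarith only [hμ0])
    by_contra hc
    push Not at hc
    have h3 : (k : ℝ) * ρ < k * μ := mul_lt_mul_of_pos_left hc (by linarith only [k3r])
    have h4 : (k : ℝ) * (n - a) = k * ρ + k * σ := by rw [← c4r]; ring
    linarith only [h1, h2, h3, h4]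
  have hρ0 : 0 < ρ := by
    have : (0 : ℝ) < ρ := by linarith only [hρ, hμ]
    exact_mod_cast this
  obtain ⟨hnb, hρg, hcase⟩ := c8 hρ0
  have hρgr : (ρ : ℝ) ≤ g + nb := by exact_mod_cast hρg
  rcases hcase with h1 | h1 | ⟨h0, h1⟩
  · linarith only [h1, H1, c7r, hρ]
  · linarith only [h1, H2, hρgr, c7r, hρ]
  · rw [h0] at hρgr
    push_cast at hρgr
    linarith only [h1, H3, hρgr, hρ]

/-- a bound for the number of hubs -/
lemma Frame.hub_card (h : Frame B Rl ℓ nQ nP uq up q p) {a : ℕ} (ha1 : 1 ≤ a) (ha : a ≤ nQ) :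
    q (a - 1) ≤ (Rl.card : ℝ) - a := by
  have hQ := h.nQle
  have h1 := sum_im_le h.sys.B0 h.sys.B1 h.sys.dummy (S := vs uq up (iq 0 a))
    (by rw [← h.hub_un ha]; exact Finset.subset_union_left)
  rw [h.card_hub ha] at h1
  have h2 := (abs_le.1 h1).2
  have h3 : (((∑ v ∈ vs uq up (iq 0 a), im B v : ℤ)) : ℝ) ≤ a * ((Rl.card : ℝ) - a) := by
    exact_mod_cast h2
  rw [h.sum_hub ha] at h3
  have h4 : ∑ _j ∈ range a, q (a - 1) ≤ ∑ j ∈ range a, q j := by
    refine Finset.sum_le_sum fun j hj => ?_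
    have := Finset.mem_range.1 hj
    exact h.sys.chQ.anti j (a - 1) (by omega) (by omega)
  rw [Finset.sum_const, nsmul_eq_mul, Finset.card_range] at h4
  have ha0 : (0 : ℝ) < a := by exact_mod_cast ha1
  have h5 := h4.trans h3
  exact le_of_mul_le_mul_left h5 ha0

section small

variable (h : Ctx B Rl ℓ nQ nP uq up q p k θ)
include h

/-- counting facts for `n < 2k-1` -/
theorem Ctx.smallFacts (hn : (Rl.card : ℤ) < 2 * k - 1) (hnv : ¬ Val B θ) (hpq : p 0 ≤ q 0) :
    (∀ v ∈ Rl, k ≤ ∑ u, B v u) ∧ k + 1 ≤ (Rl.card : ℤ) ∧ p 0 ≤ Rl.card - 1 - k ∧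
      p 0 ≤ θ - 9 / 4 ∧ 3 / 2 < 2 * θ - Rl.card + 1 ∧ 12 / 5 ≤ θ := by
  have hl := h.fr.l2
  have hqθ := h.top hnv hpq
  have hθ0 := h.θ0
  have hq : 0 < q 0 := by linarith only [hqθ, hθ0]
  have k3 := h.k3
  have k3r := h.k3r
  have hr := h.realQ0 (i := 0) (by omega) hq
  have hkn := h.kn
  have hnr : (Rl.card : ℝ) ≤ 2 * k - 2 := by
    have : (Rl.card : ℤ) ≤ 2 * k - 2 := by omega
    exact_mod_cast this
  have hk0 : (0 : ℝ) < 2 * k - 1 := by linarith only [k3r]
  have hkn' : 0 ≤ ((k : ℝ) - 1) * (2 * k - 2 - Rl.card) :=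
    mul_nonneg (by linarith only [k3r]) (by linarith only [hnr])
  have hk1 : k + 1 ≤ (Rl.card : ℤ) := by
    rcases h.deg with hd | hd
    · have h1 := outdeg_le h.fr.sys.B1 h.fr.sys.Bd h.fr.sys.dummy hr
      have h2 := hd _ hr
      linarith only [h1, h2]
    · have h1 := outdeg_le (B := Tr B) (fun u v => h.fr.sys.B1 v u) h.fr.sys.Bd
        (fun v hv u => ⟨(h.fr.sys.dummy v hv u).2, (h.fr.sys.dummy v hv u).1⟩) hr
      have h2 := hd _ hr
      have h3 : ∑ u, Tr B (uq 0) u = ∑ u, B u (uq 0) := rfl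
      rw [h3] at h1
      linarith only [h1, h2]
  have hk1r : (k : ℝ) + 1 ≤ Rl.card := by exact_mod_cast hk1
  have hout : ∀ v ∈ Rl, k ≤ ∑ u, B v u := by
    rcases h.deg with hd | hd
    · exact hd
    · exfalso
      have h1 := h.qleK hd (i := 0) (by omega) hq
      have h2 : 0 < (2 * (k : ℝ) - 1) * (Rl.card - 1 - k - θ) :=
        mul_pos hk0 (by linarith only [h1, hqθ])
      linarith only [h2, hkn, hkn', k3r]
  have hp0 := h.p0K hout hk1
  refine ⟨hout, hk1, hp0, ?_, ?_, ?_⟩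
  · by_contra hc
    push Not at hc
    have h2 : 0 < (2 * (k : ℝ) - 1) * (Rl.card - k + 5 / 4 - θ) :=
      mul_pos hk0 (by linarith only [hc, hp0])
    linarith only [h2, hkn, hkn', k3r]
  · by_contra hc
    push Not at hc
    have h2 : 0 ≤ (2 * (k : ℝ) - 1) * (Rl.card + 1 / 2 - 2 * θ) :=
      mul_nonneg hk0.le (by linarith only [hc])
    linarith only [h2, hkn, hk1r]
  · by_contra hc
    push Not at hc
    have h2 : 0 < (2 * (k : ℝ) - 1) * (12 / 5 - θ) := mul_pos hk0 (by linarith only [hc])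
    have h3 : 0 ≤ (k : ℝ) * (Rl.card - k - 1) :=
      mul_nonneg (by linarith only [k3r]) (by linarith only [hk1r])
    have h4 : 0 ≤ (5 * (k : ℝ) - 4) * (k - 3) :=
      mul_nonneg (by linarith only [k3r]) (by linarith only [k3r])
    linarith only [h2, h3, h4, hkn]

/-- T1 for `n < 2k-1` -/
theorem Ctx.smallT1 (hn : (Rl.card : ℤ) < 2 * k - 1) (hnv : ¬ Val B θ) (hpq : p 0 ≤ q 0)
    {i : ℕ} (hi : i < ℓ) (hμ : 0 < q (2 * i)) (hak : (2 * i + 1 : ℕ) ≤ k)
    (hCr : ∀ x : ℝ, max 0 ((Rl.card : ℝ) - 1 - q 0 - 1) = x →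
      x + q (2 * i + 1) ≤ θ ∧ x + p 0 ≤ θ ∧ x + (q 0 - q (2 * i) - AA q i) ≤ θ ∧
      2 * x + (q 0 - q (2 * i) - AA q i) + q (2 * i + 1) + p 0 ≤ 2 * θ)
    (hCrS : (Rl.card : ℝ) - 1 - q 0 + p 0 - 1 ≤ θ)
    (ht : (Rl.card : ℝ) - 1 - q 0 + (q 0 - q (2 * i) - AA q i) ≤ θ)
    (hD : ∀ l < i, q (2 * l) - q (2 * l + 1) ≤ θ)
    (H2 : AA q i ≤ 3 * θ - Rl.card + q (2 * i) / 2)
    (H3 : AA q i + p 0 ≤ 2 * θ + q (2 * i) - 2) : False := by
  have hl := h.fr.l2
  obtain ⟨hout, hk1, hp0, hp1, hlam, hθ⟩ := h.smallFacts hn hnv hpq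
  have hqθ := h.top hnv hpq
  have hq : 0 < q 0 := by linarith only [hqθ, hθ]
  have k3 := h.k3
  have hqn := h.qle (i := 0) (by omega) hq
  have hqi1 := h.fr.qn (i := 2 * i + 1) (by omega)
  have hE := h.fr.qE (Nat.zero_le i) hi
  rw [AA_zero] at hE
  simp only [Nat.mul_zero, sub_zero] at hE
  have hAi : 0 ≤ AA q i := by
    have := AA_mono h.fr.sys.chQ (Nat.zero_le i) (by omega)
    rwa [AA_zero] at this
  have hpn := h.fr.pn (i := 0) (by omega)
  have htE : ∀ l < i, q (2 * l + 1) - q (2 * l + 2) ≤ q 0 - q (2 * i) - AA q i := by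
    intro l hl'
    have := h.fr.qgE (Nat.zero_le l) hl' hi
    rw [AA_zero] at this
    simp only [Nat.mul_zero] at this
    linarith only [this]
  have hζ : (0 : ℝ) ≤ Rl.card - 1 - q 0 := by linarith only [hqn]
  obtain ⟨x, hx⟩ : ∃ x : ℝ, max 0 ((Rl.card : ℝ) - 1 - q 0 - 1) = x := ⟨_, rfl⟩
  obtain ⟨x1, x2, x3, x4⟩ := hCr x hx
  obtain ⟨ρ, σ, hlg, g, nb, c0, c1, c2, c3, c4, c5, c6, c7, c8⟩ := h.nc0 hnv hout hi hμ
    (by linarith) (fun hC => by
      rw [hx] at hC
      exact h.fr.crPure (K := θ - x) i 0 hi (Nat.zero_le _) (by linarith)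
        (by linarith) (by rw [Nat.mul_zero]; linarith)
        (fun l hl' => by have := htE l hl'; linarith) (by simp) (by linarith)
        (by rw [AA_zero, Nat.mul_zero]; linarith) hC)
    (fun D hDz hC => h.fr.crsPure (K := θ - D) i 0 hi (Nat.zero_le _) (by linarith)
      (by rw [Nat.mul_zero]; linarith) (fun l hl' => by have := htE l hl'; linarith) (by simp)
      (by linarith) (by rw [AA_zero, Nat.mul_zero]; linarith) hC)
    ht hD (by linarith)
  refine arith_small (k := k) (n := (Rl.card : ℤ)) (a := ((2 * i + 1 : ℕ) : ℤ)) (ρ := ρ)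
    (σ := σ) (hl := hlg) (g := g) (nb := nb) (θ := θ) (μ := q (2 * i))
    (Sg := ∑ j ∈ range (2 * i + 1), q j) (p0 := p 0) (A := AA q i) k3 hn
    (by push_cast; omega) hak hμ (by exact_mod_cast h.fr.sum_ge hi) (by linarith)
    c1 c2 c3 c4 ?_ c7 ?_ ?_ ?_ H3
  · exact_mod_cast c5
  · intro h0
    obtain ⟨d1, d2, d3⟩ := c8 h0
    refine ⟨d1, d2, ?_⟩
    rcases d3 with d3 | d3 | d3
    · exact Or.inl d3
    · right; left
      push_cast
      linarith
    · exact Or.inr (Or.inr d3)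
  · have := h.fr.sys.chQ.anti 0 (2 * i) (by omega) (by omega)
    linarith
  · push_cast
    linarith

/-- a static structure with a large difference -/
lemma Ctx.smallG3 (hnv : ¬ Val B θ) {i : ℕ} (hi : i < ℓ)
    (hK : |q (2 * i) - q (2 * i + 1) - p 0| ≤ θ - 2)
    (hD : ∀ l < ℓ, l ≠ i → q (2 * l) - q (2 * l + 1) ≤ θ - 2) (hp : p 0 ≤ θ - 2)
    (hT : |q (2 * i) - q (2 * i + 1) - p 0| + (AA q ℓ - (q (2 * i) - q (2 * i + 1))) +
      (p 0 - AA p ℓ) ≤ 2 * (θ - 2)) : False := by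
  have hl := h.fr.l2
  have hpn := h.fr.pn (i := 0) (by omega)
  have he' : ∀ i, i + 1 < ℓ → p (2 * i + 1) - p (2 * i + 2) ≤ θ - 2 := by
    intro i hi
    have h1 := h.fr.sys.chP.anti 0 (2 * i + 1) (by omega) (by omega)
    have h2 := h.fr.pn (i := 2 * i + 2) (by omega)
    linarith
  have g := h.fr.sG3Q (K := θ - 2) (by linarith) i 0 hi (by omega)
    (by rw [Nat.mul_zero]; exact hK) hD (by simp) (fun l _ hl' => he' l hl')
  refine hnv (g.mono ?_)
  have hM : ((MM B (uq (2 * i)) (up (2 * 0)) - MM B (uq (2 * i)) (uq (2 * i + 1)) -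
      MM B (uq (2 * i + 1)) (up (2 * 0)) : ℤ) : ℝ) ≤ 2 := by
    have c1 := h.MM2 (uq (2 * i)) (up (2 * 0))
    have c2 := h.MM0 (uq (2 * i)) (uq (2 * i + 1))
    have c3 := h.MM0 (uq (2 * i + 1)) (up (2 * 0))
    push_cast
    linarith
  have hX : max (θ - 2) ((|q (2 * i) - q (2 * i + 1) - p (2 * 0)| +
      (AA q ℓ - (q (2 * i) - q (2 * i + 1))) + (AA p 0 + p (2 * 0) - (AA p ℓ - AA p 0))) / 2) ≤
      θ - 2 := by
    refine max_le le_rfl ?_
    rw [AA_zero, Nat.mul_zero]
    linarith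
  linarith

/-- facts about a hub -/
lemma Ctx.smallHub {i : ℕ} (hi : i < ℓ) : AA q i + q (2 * i) ≤ q 0 ∧ 0 ≤ AA q i ∧
    AA q ℓ - AA q i ≤ q (2 * i) ∧ AA q i + (q (2 * i) - q (2 * i + 1)) ≤ AA q ℓ := by
  have hE := h.fr.qE (Nat.zero_le i) hi
  rw [AA_zero] at hE
  simp only [Nat.mul_zero, sub_zero] at hE
  have hAi : 0 ≤ AA q i := by
    have := AA_mono h.fr.sys.chQ (Nat.zero_le i) (by omega)
    rwa [AA_zero] at this
  have hAi1 : AA q (i + 1) ≤ AA q ℓ := AA_mono h.fr.sys.chQ (by omega) (by omega)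
  rw [AA_succ] at hAi1
  exact ⟨hE, hAi, h.fr.qT hi, hAi1⟩

/-- the number of hubs -/
lemma Ctx.smallHubCard {j : ℕ} (hj : j < 2 * ℓ) (hqj : 0 < q j) :
    q j ≤ (Rl.card : ℝ) - ((j : ℝ) + 1) := by
  have h1 := h.realQ0 hj hqj
  rw [h.fr.sys.realQ j hj] at h1
  have := h.fr.hub_card (a := j + 1) (by omega) (by omega)
  rw [Nat.add_sub_cancel] at this
  push_cast at this
  exact this

/-- the range `n < 2k-1`, a difference larger than `θ` -/
lemma Ctx.smallA (hn : (Rl.card : ℤ) < 2 * k - 1) (hnv : ¬ Val B θ) (hpq : p 0 ≤ q 0) {i : ℕ}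
    (hi : i < ℓ) (hD : θ < q (2 * i) - q (2 * i + 1)) : False := by
  have hl := h.fr.l2
  obtain ⟨hout, hk1, hp0, hp1, hlam, hθ⟩ := h.smallFacts hn hnv hpq
  have hqθ := h.top hnv hpq
  have hq : 0 < q 0 := by linarith only [hqθ, hθ]
  have hnr : (Rl.card : ℝ) ≤ 2 * k - 2 := by
    have : (Rl.card : ℤ) ≤ 2 * k - 2 := by omega
    exact_mod_cast this
  have hqn := h.qle (i := 0) (by omega) hq
  have hA0 := h.fr.qA0
  have hDi := h.fr.qD hi
  obtain ⟨a1, a2, a3, a4⟩ := h.smallHub hi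
  have hqi1 := h.fr.qn (i := 2 * i + 1) (by omega)
  have hDl : ∀ l < ℓ, l ≠ i → q (2 * l) - q (2 * l + 1) ≤ q 0 - θ := by
    intro l hl' hli
    have := h.fr.qDD hli hl' hi
    linarith only [this, hA0, hD]
  rcases le_or_gt (q 0 - θ + 2) (p 0) with hp | hp
  · have e : |q (2 * i) - q (2 * i + 1) - p 0| = q (2 * i) - q (2 * i + 1) - p 0 :=
      abs_of_nonneg (by linarith only [hD, hp1])
    refine h.smallG3 hnv hi ?_ ?_ (by linarith only [hp1]) ?_
    · rw [e]
      linarith only [hDi, hA0, hp]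
    · intro l hl' hli
      have := hDl l hl' hli
      linarith only [this, hp, hp1]
    · rw [e]
      have := AA_mono h.fr.sys.chP (Nat.zero_le ℓ) (by omega)
      rw [AA_zero] at this
      linarith only [this, hA0, hp, hp1]
  · have hμ : 0 < q (2 * i) := by linarith only [hD, hqi1, hθ]
    have hc := h.smallHubCard (j := 2 * i) (by omega) hμ
    refine h.smallT1 hn hnv hpq hi hμ ?_ ?_ ?_ ?_ ?_ ?_ ?_
    · have h1 : ((2 * i + 1 : ℕ) : ℝ) < k := by
        push_cast at hc ⊢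
        linarith only [hc, hD, hqi1, hlam, hnr]
      have h2 : ((2 * i + 1 : ℕ) : ℤ) < k := by exact_mod_cast h1
      exact h2.le
    · intro x hx
      have hx1 : x ≤ Rl.card - 1 - q 0 := by
        rw [← hx]; exact max_le (by linarith only [hqn]) (by linarith only [hqn])
      rcases max_choice 0 ((Rl.card : ℝ) - 1 - q 0 - 1) with h1 | h1 <;> rw [h1] at hx
      · refine ⟨?_, ?_, ?_, ?_⟩ <;>
          linarith only [hx, hx1, hD, hqi1, a1, a2, hlam, hp, hp1, hqn, hθ]
      · refine ⟨?_, ?_, ?_, ?_⟩ <;>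
          linarith only [hx, hx1, hD, hqi1, a1, a2, hlam, hp, hp1, hqn, hθ]
    · linarith only [hp, hlam]
    · linarith only [a2, hD, hqi1, hlam]
    · intro l hl'
      have := hDl l (by omega) (by omega)
      linarith only [this, hqn, hlam]
    · linarith only [a1, hqn, hlam, hD, hqi1, hθ]
    · linarith only [a1, hp1, hqn, hlam, hD, hqi1, hθ]

/-- the range `n < 2k-1`, two large differences -/
lemma Ctx.smallB (hn : (Rl.card : ℤ) < 2 * k - 1) (hnv : ¬ Val B θ) (hpq : p 0 ≤ q 0)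
    (hN1 : ∀ i < ℓ, q (2 * i) - q (2 * i + 1) ≤ θ) (hA : 2 * θ < AA q ℓ + AA p ℓ)
    (hz : q 0 + 2 ≤ 2 * θ) {i l : ℕ} (hil : i < l) (hl2 : l < ℓ)
    (hD1 : θ - 2 < q (2 * i) - q (2 * i + 1)) (hD2 : θ - 2 < q (2 * l) - q (2 * l + 1)) :
    False := by
  have hl := h.fr.l2
  obtain ⟨hout, hk1, hp0, hp1, hlam, hθ⟩ := h.smallFacts hn hnv hpq
  have hqθ := h.top hnv hpq
  have hq : 0 < q 0 := by linarith only [hqθ, hθ]
  have hnr : (Rl.card : ℝ) ≤ 2 * k - 2 := by
    have : (Rl.card : ℤ) ≤ 2 * k - 2 := by omega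
    exact_mod_cast this
  have hqn := h.qle (i := 0) (by omega) hq
  have hA0 := h.fr.qA0
  have hA1 := h.fr.pA0
  obtain ⟨a1, a2, a3, a4⟩ := h.smallHub hl2
  have hAl : θ - 2 < AA q l := by
    have h1 := h.fr.qgA (i := 0) (l := i) (j := l) (by omega) hil hl2.le
    rw [AA_zero] at h1
    linarith only [h1, hD1]
  have hqi1 := h.fr.qn (i := 2 * l + 1) (by omega)
  have hμ : 0 < q (2 * l) := by linarith only [hD2, hqi1, hθ]
  have hc := h.smallHubCard (j := 2 * l) (by omega) hμ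
  refine h.smallT1 hn hnv hpq hl2 hμ ?_ ?_ ?_ ?_ ?_ ?_ ?_
  · have h1 : ((2 * l + 1 : ℕ) : ℝ) < k + 1 := by
      push_cast at hc ⊢
      linarith only [hc, hD2, hqi1, hlam, hnr]
    have h2 : ((2 * l + 1 : ℕ) : ℤ) < k + 1 := by exact_mod_cast h1
    exact Int.lt_add_one_iff.1 h2
  · intro x hx
    rcases max_choice 0 ((Rl.card : ℝ) - 1 - q 0 - 1) with h1 | h1 <;> rw [h1] at hx
    · refine ⟨?_, ?_, ?_, ?_⟩ <;> linarith only [hx, hAl, hD2, hqi1, a1, hz, hθ, hp1, hlam]
    · refine ⟨?_, ?_, ?_, ?_⟩ <;> linarith only [hx, hAl, hD2, hqi1, a1, hz, hθ, hp1, hlam]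
  · linarith only [hAl, hD2, hqi1, a1, hθ, hp1, hlam]
  · linarith only [hAl, hD2, hqi1, hlam, hA, hA0, hA1, hz, hp1]
  · exact fun m hm => hN1 m (by omega)
  · linarith only [hAl, hD2, hqi1, a1, hz, hθ, hlam]
  · linarith only [hAl, hD2, hqi1, a1, hz, hθ, hp1]

/-- the range `n < 2k-1`, one large difference -/
lemma Ctx.smallC (hn : (Rl.card : ℤ) < 2 * k - 1) (hnv : ¬ Val B θ) (hpq : p 0 ≤ q 0)
    (hN1 : ∀ i < ℓ, q (2 * i) - q (2 * i + 1) ≤ θ) (hA : 2 * θ < AA q ℓ + AA p ℓ)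
    (hz : q 0 + 2 ≤ 2 * θ) {i : ℕ} (hi : i < ℓ) (hDi : θ - 2 < q (2 * i) - q (2 * i + 1))
    (hG2 : ∀ l < ℓ, l ≠ i → q (2 * l) - q (2 * l + 1) ≤ θ - 2) : False := by
  obtain ⟨hout, hk1, hp0, hp1, hlam, hθ⟩ := h.smallFacts hn hnv hpq
  have hA0 := h.fr.qA0
  have hA1 := h.fr.pA0
  have e : |q (2 * i) - q (2 * i + 1) - p 0| = q (2 * i) - q (2 * i + 1) - p 0 :=
    abs_of_nonneg (by linarith only [hDi, hp1])
  have hN := hN1 i hi
  refine h.smallG3 hnv hi ?_ (fun l hl' hli => hG2 l hl' hli) (by linarith only [hp1]) ?_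
  · rw [e]
    linarith only [hN, hA, hA0, hA1, hz]
  · rw [e]
    linarith only [hA, hA0, hz]

/-- the range `n < 2k-1`, no large difference -/
lemma Ctx.smallD (hn : (Rl.card : ℤ) < 2 * k - 1) (hnv : ¬ Val B θ) (hpq : p 0 ≤ q 0)
    (hA : 2 * θ < AA q ℓ + AA p ℓ) (hz : q 0 + 2 ≤ 2 * θ)
    (hG : ∀ i < ℓ, q (2 * i) - q (2 * i + 1) ≤ θ - 2) : False := by
  classical
  have hl := h.fr.l2
  obtain ⟨hout, hk1, hp0, hp1, hlam, hθ⟩ := h.smallFacts hn hnv hpq
  have hA1 := h.fr.pA0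
  have hpn := h.fr.pn (i := 0) (by omega)
  have hex : ∃ l, l < ℓ ∧ q (2 * l + 1) ≤ p 0 := ⟨ℓ - 1, by omega, by
    have := h.fr.qend
    rw [show 2 * (ℓ - 1) + 1 = 2 * ℓ - 1 by omega, this]
    exact hpn⟩
  obtain ⟨l, ⟨hl1, h1⟩, h2⟩ : ∃ l, (l < ℓ ∧ q (2 * l + 1) ≤ p 0) ∧
      ∀ m < l, p 0 < q (2 * m + 1) := by
    refine ⟨Nat.find hex, Nat.find_spec hex, fun m hm => ?_⟩
    have h3 := Nat.find_min hex hm
    push Not at h3
    exact h3 (by have := (Nat.find_spec hex).1; omega)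
  have hK0 : 0 ≤ θ - 2 := by linarith only [hθ]
  have he : ∀ i, i + 1 < ℓ → q (2 * i + 1) - q (2 * i + 2) ≤ θ - 2 := by
    intro i hi
    have := h.fr.qeT (i := 0) (l := i) (by omega) hi
    simp only [Nat.mul_zero, AA_zero, sub_zero] at this
    linarith only [this, hz, hA, hA1, hp1]
  have he' : ∀ i, i + 1 < ℓ → p (2 * i + 1) - p (2 * i + 2) ≤ θ - 2 := by
    intro i hi
    have h3 := h.fr.sys.chP.anti 0 (2 * i + 1) (by omega) (by omega)
    have h4 := h.fr.pn (i := 2 * i + 2) (by omega)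
    linarith only [h3, h4, hp1]
  obtain ⟨a1, a2, a3, a4⟩ := h.smallHub hl1
  have hDl := hG l hl1
  have habs : |q (2 * l) - p 0| ≤ θ - 2 ∧
      |q (2 * l) - p 0| + AA q l + (q (2 * l) - (AA q ℓ - AA q l)) + (p 0 - AA p ℓ) ≤
        2 * q 0 - AA q ℓ - AA p ℓ := by
    rcases le_total (p 0) (q (2 * l)) with h3 | h3
    · rw [abs_of_nonneg (by linarith only [h3])]
      constructor
      · linarith only [hDl, h1]
      · linarith only [a1]
    · rw [abs_of_nonpos (by linarith only [h3])]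
      by_cases hl0 : l = 0
      · subst hl0
        have e0 : q (2 * 0) = q 0 := rfl
        have e1 : AA q 0 = 0 := AA_zero q
        constructor
        · linarith only [e0, hpq, hθ]
        · linarith only [e0, e1, hpq]
      · obtain ⟨m, rfl⟩ : ∃ m, l = m + 1 := ⟨l - 1, by omega⟩
        have b1 := h2 m (by omega)
        have b2 := he m (by omega)
        have b3 := h.fr.qE (i := 0) (j := m) (by omega) (by omega)
        simp only [Nat.mul_zero, AA_zero, sub_zero] at b3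
        have b4 := AA_succ q m
        have b5 : q (2 * (m + 1)) = q (2 * m + 2) := by ring_nf
        constructor
        · linarith only [b1, b2, b5]
        · linarith only [b1, b3, b4]
  have g := h.fr.sE1 hK0 l hl1 habs.1 (fun i hi => hG i (by omega))
    (fun i _ hi => he i hi) he'
  refine hnv (g.mono ?_)
  have c1 := h.MM2 (uq (2 * l)) (up 0)
  have : max (θ - 2) ((|q (2 * l) - p 0| + AA q l + (q (2 * l) - (AA q ℓ - AA q l)) +
    (p 0 - AA p ℓ)) / 2) ≤ θ - 2 := max_le le_rfl (by linarith only [habs.2, hz, hA])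
  linarith only [c1, this]

/-- the range `n < 2k-1`, the case `q 0 = n - 1` and `λ < 2` -/
lemma Ctx.smallE (hn : (Rl.card : ℤ) < 2 * k - 1) (hnv : ¬ Val B θ) (hpq : p 0 ≤ q 0)
    (hN1 : ∀ i < ℓ, q (2 * i) - q (2 * i + 1) ≤ θ) (hA : 2 * θ < AA q ℓ + AA p ℓ)
    (hz : 2 * θ < q 0 + 2) : False := by
  classical
  have hl := h.fr.l2
  obtain ⟨hout, hk1, hp0, hp1, hlam, hθ⟩ := h.smallFacts hn hnv hpq
  have hqθ := h.top hnv hpq
  have hq : 0 < q 0 := by linarith only [hqθ, hθ]
  have k3 := h.k3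
  have hnr : (Rl.card : ℝ) ≤ 2 * k - 2 := by
    have : (Rl.card : ℤ) ≤ 2 * k - 2 := by omega
    exact_mod_cast this
  have hqn := h.qle (i := 0) (by omega) hq
  have hA1 := h.fr.pA0
  obtain ⟨z, hz0, hz1⟩ := h.zeta (i := 0) (by omega) hq
  have hz2 : z = 0 := by
    have h1 : (z : ℝ) < 1 := by rw [hz1]; linarith only [hz, hlam]
    have h2 : z < 1 := by exact_mod_cast h1
    omega
  rw [hz2] at hz1
  push_cast at hz1
  have hO := h.O1 hout (i := 0) (by omega) hq
  have k3r := h.k3r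
  have h3n : 3 * (Rl.card : ℝ) < 4 * k + 1 := by
    have h1 : 0 < (2 * (k : ℝ) - 1) * (Rl.card + 1 - 2 * θ) :=
      mul_pos (by linarith only [k3r]) (by linarith only [hz, hz1])
    linarith only [h1, hO, hz1]
  have hex : ∃ i, i < ℓ ∧ q (2 * i + 1) ≤ θ ∧ p 0 + q 0 - 2 * θ ≤ AA q (i + 1) :=
    ⟨ℓ - 1, by omega, by
      have := h.fr.qend
      rw [show 2 * (ℓ - 1) + 1 = 2 * ℓ - 1 by omega, this]
      exact h.θ0, by
      rw [show ℓ - 1 + 1 = ℓ by omega]
      linarith only [hA, hA1, hp1, hqn, hlam]⟩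
  obtain ⟨i, ⟨hi, hi1, hi2⟩, hmin⟩ : ∃ i, (i < ℓ ∧ q (2 * i + 1) ≤ θ ∧
      p 0 + q 0 - 2 * θ ≤ AA q (i + 1)) ∧
      ∀ m < i, θ < q (2 * m + 1) ∨ AA q (m + 1) < p 0 + q 0 - 2 * θ := by
    refine ⟨Nat.find hex, Nat.find_spec hex, fun m hm => ?_⟩
    have h3 := Nat.find_min hex hm
    by_contra hc
    push Not at hc
    exact h3 ⟨by have := (Nat.find_spec hex).1; omega, hc.1, hc.2⟩
  obtain ⟨a1, a2, a3, a4⟩ := h.smallHub hi
  rw [AA_succ] at hi2
  -- the three cases
  have hcases : AA q i < θ - 1 ∧ 0 < q (2 * i) ∧ ((2 * i + 1 : ℕ) : ℤ) ≤ k := by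
    rcases Nat.eq_zero_or_pos i with h0 | h0
    · subst h0
      rw [AA_zero]
      refine ⟨by linarith only [hθ], by simpa using hq, ?_⟩
      push_cast
      omega
    · obtain ⟨m, rfl⟩ : ∃ m, i = m + 1 := ⟨i - 1, by omega⟩
      rcases hmin m (by omega) with h1 | h1
      · obtain ⟨b1, b2, b3, b4⟩ := h.smallHub (i := m) (by omega)
        have b5 := AA_succ q m
        have hA2 : AA q (m + 1) < θ - 1 := by linarith only [b1, b5, h1, hqn, hlam]
        have hμ : 0 < q (2 * (m + 1)) := by linarith only [a3, hA, hA1, hp1, hA2, hθ]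
        refine ⟨hA2, hμ, ?_⟩
        have hc := h.smallHubCard (j := 2 * m + 1) (by omega) (by linarith only [h1, hθ])
        have h2 : ((2 * (m + 1) + 1 : ℕ) : ℝ) < k + 1 := by
          push_cast at hc ⊢
          linarith only [hc, h1, hlam, hnr]
        have h3 : ((2 * (m + 1) + 1 : ℕ) : ℤ) < k + 1 := by exact_mod_cast h2
        exact Int.lt_add_one_iff.1 h3
      · have hA2 : AA q (m + 1) < θ - 1 := by linarith only [h1, hp1, hqn, hlam]
        have hμ : 0 < q (2 * (m + 1)) := by linarith only [a3, hA, hA1, hp1, hA2, hθ]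
        refine ⟨hA2, hμ, ?_⟩
        have hc := h.smallHubCard (j := 2 * (m + 1)) (by omega) hμ
        have h2 : ((2 * (m + 1) + 1 : ℕ) : ℝ) < k + 1 := by
          push_cast at hc ⊢
          linarith only [hc, a3, hA, hA1, h1, hz1, hlam, hp0, h3n, k3r]
        have h3 : ((2 * (m + 1) + 1 : ℕ) : ℤ) < k + 1 := by exact_mod_cast h2
        exact Int.lt_add_one_iff.1 h3
  obtain ⟨hA2, hμ, hak⟩ := hcases
  refine h.smallT1 hn hnv hpq hi hμ hak ?_ ?_ ?_ ?_ ?_ ?_
  · intro x hx
    have hx0 : x = 0 := by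
      rw [← hx]
      exact max_eq_left (by linarith only [hz1])
    rw [hx0]
    refine ⟨?_, ?_, ?_, ?_⟩
    · linarith only [hi1]
    · linarith only [hp1]
    · linarith only [a3, hA, hA1, hp1, hqn, hlam]
    · linarith only [hi2]
  · linarith only [hz1, hp1, hθ]
  · linarith only [hz1, a3, hA, hA1, hp1, hqn, hlam]
  · exact fun m hm => hN1 m (by omega)
  · linarith only [hA2, hlam, hμ]
  · linarith only [hA2, hp1, hμ]

/-- **The range `n < 2k-1`, `p 0 ≤ q 0`.** -/
theorem Ctx.small (hn : (Rl.card : ℤ) < 2 * k - 1) (hpq : p 0 ≤ q 0) : Val B θ := by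
  by_contra hnv
  by_cases hN1 : ∃ i < ℓ, θ < q (2 * i) - q (2 * i + 1)
  · obtain ⟨i, hi, hD⟩ := hN1
    exact h.smallA hn hnv hpq hi hD
  · push Not at hN1
    have hA : 2 * θ < AA q ℓ + AA p ℓ := by
      rcases h.fr.failA h.θ0 hnv with ⟨l, hl', h1⟩ | ⟨l, hl', h1⟩ | h1
      · exact absurd h1 (not_lt.2 (hN1 l hl'))
      · have h2 := h.fr.pD hl'
        have h3 := h.fr.pA0
        have h4 := (h.smallFacts hn hnv hpq).2.2.2.1
        linarith only [h1, h2, h3, h4]
      · exact h1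
    rcases le_or_gt (q 0 + 2) (2 * θ) with hz | hz
    · by_cases hG : ∃ i < ℓ, θ - 2 < q (2 * i) - q (2 * i + 1)
      · obtain ⟨i, hi, hDi⟩ := hG
        by_cases hG2 : ∃ l < ℓ, l ≠ i ∧ θ - 2 < q (2 * l) - q (2 * l + 1)
        · obtain ⟨l, hl', hli, hDl⟩ := hG2
          rcases lt_or_gt_of_ne hli with h1 | h1
          · exact h.smallB hn hnv hpq hN1 hA hz h1 hi hDl hDi
          · exact h.smallB hn hnv hpq hN1 hA hz h1 hl' hDi hDl
        · push Not at hG2
          exact h.smallC hn hnv hpq hN1 hA hz hi hDi hG2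
      · push Not at hG
        exact h.smallD hn hnv hpq hA hz hG
    · exact h.smallE hn hnv hpq hN1 hA hz

end small

end Pool.Agent.Exact


end
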