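import Mathlib
import Pool.Agent.EXAM.C05
import Pool.Agent.EXAM.C07

/-! Parts: Lib_helper68.Exact.PoH, Lib_helper68.Exact.PoT1, Lib_helper68.Exact.PoNC -/

section

/-!
# The first statement T1 does not fail because of an item: hubs of both types, first type outgoing
-/

set_option autoImplicit false
set_option linter.unusedSectionVars false

namespace Pool.Agent.Exact

open Finset

variable {V : Type*} [Fintype V] [DecidableEq V]
variable {B : V → V → ℤ} {Rl : Finset V} {ℓ nQ nP : ℕ} {uq up : ℕ → V} {q p : ℕ → ℝ}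
variable {k : ℤ} {θ : ℝ}

/-- the first term and the lower bound of the others -/
lemma sum_first (f : ℕ → ℝ) (m : ℕ) (hf : ∀ l ≤ m, f m ≤ f l) :
    f 0 + m * f m ≤ ∑ l ∈ range (m + 1), f l := by
  rw [Finset.sum_range_succ', add_comm]
  have h1 : ∑ _l ∈ range m, f m ≤ ∑ l ∈ range m, f (l + 1) := by
    refine Finset.sum_le_sum fun l hl => ?_
    have := Finset.mem_range.1 hl
    exact hf (l + 1) (by omega)
  rw [Finset.sum_const, nsmul_eq_mul, Finset.card_range] at h1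
  linarith

/-- the sum of pairs -/
lemma sum_pairs (f : ℕ → ℝ) (j : ℕ) {c : ℝ} (hf : ∀ l ≤ j, c ≤ f (2 * l) + f (2 * l + 1)) :
    (j + 1) * c ≤ ∑ l ∈ range (2 * (j + 1)), f l := by
  induction j with
  | zero =>
    rw [show 2 * (0 + 1) = 1 + 1 by norm_num, Finset.sum_range_succ, Finset.sum_range_one]
    have := hf 0 le_rfl
    simp only [Nat.mul_zero, zero_add] at this
    push_cast
    linarith
  | succ j ih =>
    rw [show 2 * (j + 1 + 1) = 2 * (j + 1) + 1 + 1 by ring, Finset.sum_range_succ,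
      Finset.sum_range_succ]
    have h1 := ih fun l hl => hf l (by omega)
    have h2 := hf (j + 1) le_rfl
    push_cast
    linarith

section
variable (h : Ctx B Rl ℓ nQ nP uq up q p k θ)
include h

/-- the arrangements if the hubs of the first type are high -/
theorem Ctx.poHigh (hn : 2 * k - 1 ≤ (Rl.card : ℤ)) (hpq : p 0 ≤ q 0) {i j : ℕ} (hi : i < ℓ)
    (hj : j < ℓ) {S : Finset V} {g Y : ℤ} (k4 : 4 ≤ k)
    (hT2 : T2I B uq up (2 * i + 1) (2 * (j + 1)) S g Y) {NB G : ℝ}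
    (hz0 : 0 ≤ (Rl.card : ℝ) - 1 - θ - NB)
    (hS : ∀ v ∈ S, |((im B v : ℤ) : ℝ)| ≤ (Rl.card : ℝ) - 1 - θ - NB)
    (hY : (Y : ℝ) ≤ (Rl.card : ℝ) - 1 - θ - NB)
    (hq : θ + g < q (2 * i)) (hp : θ - 2 < p (2 * j + 1)) (hp0 : p 0 ≤ Rl.card - 1 - k)
    (hq0 : q 0 ≤ Rl.card - 1) (hG : G ≤ g) (g1 : 1 ≤ g) (hNB : 0 ≤ NB + g)
    (hC1 : p (2 * j) + p (2 * j + 1) + 4 < 2 * θ + 2 * G)
    (hO : (6 ≤ (2 * θ - Rl.card - 1) + 2 + NB + g ∧
      G + 6 ≤ (2 * θ - Rl.card - 1) + 2 + NB + 2 * g ∧ 4 ≤ (2 * θ - Rl.card - 1) + 2 * g ∧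
      8 ≤ 2 * (2 * θ - Rl.card - 1) + (Rl.card + 1 - k - θ) + k + g) ∨
      (q 0 - θ + 4 ≤ (2 * θ - Rl.card - 1) + 2 + NB + 2 * g ∧
        q 0 - θ + 4 ≤ (2 * θ - Rl.card - 1) + (Rl.card + 1 - k - θ) + k + g)) : Val B θ := by
  have hl := h.fr.l2
  have hlam := h.lam2 hn
  have e2 := h.fr.pa (i := 2 * j) (j := 2 * j + 1) (by omega) (by omega)
  have k4r : (4 : ℝ) ≤ k := by exact_mod_cast k4
  have g1r : (1 : ℝ) ≤ g := by exact_mod_cast g1
  rcases hO with ⟨o1, o2, o3, o4⟩ | ⟨o1, o2⟩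
  · have μg : 2 ≤ (2 * θ - Rl.card - 1) + (g : ℝ) := by
      rcases (show g = 1 ∨ 2 ≤ g by omega) with g2 | g2
      · rw [g2] at o3 ⊢
        push_cast at o3 ⊢
        linarith
      · have : (2 : ℝ) ≤ g := by exact_mod_cast g2
        linarith
    rcases le_or_gt (p (2 * j) + p (2 * j + 1) + 6) (q 0 + θ + g) with h1 | h1
    · exact h.poG hi hj hT2 hz0 hS hY (by linarith) (by linarith) (by linarith) (by linarith)
        (by linarith) (by linarith) (by linarith) h1 (by linarith) (by linarith)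
    · exact h.poB hi hj hT2 hz0 hS hY hpq (by linarith) (by linarith) (by linarith)
        (by linarith) (by linarith) (by linarith) (by linarith)
  · exact h.poB hi hj hT2 hz0 hS hY hpq (by linarith) (by linarith) (by linarith)
      (by linarith) (by linarith) (by linarith) (by linarith)

variable {Rs S : Finset V} {g : ℤ} {Kc : V → Finset V} {pick : Finset V → V}

/-- the arithmetic structure in the case of a failing item -/
theorem Ctx.poPoU (hn : 2 * k - 1 ≤ (Rl.card : ℤ)) (hout : ∀ v ∈ Rl, k ≤ ∑ u, B v u)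
    {i j : ℕ} (hi : i < ℓ) (hj : j < ℓ) (haQ : 2 * i + 1 ≤ nQ) (hbP : 2 * (j + 1) ≤ nP)
    (hd : Dec B pick (vs uq up (rr nQ nP (2 * i + 1) (2 * (j + 1)))) Rs S g Kc)
    (hpick : ∀ K : Finset V, K.Nonempty → pick K ∈ K ∧ ∀ u ∈ K, indg B K (pick K) ≤ indg B K u)
    {u : ℝ} (hq0 : 0 < q 0) (hu : θ + u ≤ q (2 * i)) (hv : θ - 2 ≤ p (2 * j + 1))
    (hΓ : ((Gam B (uq 0) S : ℤ) : ℝ) < q 0 - θ - g) :
    PoU k ((2 * (j + 1) : ℕ) - (2 * i + 1 : ℕ) - 1) (k - (2 * (j + 1) : ℕ))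
      (Rl.card + 1 - k - θ) (2 * θ - Rl.card - 1) (Rs.card / 2) (q 0 - θ)
      (∑ l ∈ range (2 * (j + 1)), p l - (2 * (j + 1) : ℕ) * (θ - 2)) u := by
  have hl := h.fr.l2
  have hlam := h.lam2 hn
  have hθ3 := h.θ3 hn
  have c := h.cntO hout (a := 2 * i + 1) (b := 2 * (j + 1)) (by omega) haQ hbP hd hpick
  have hcg : (Rs.card : ℝ) ≤ 2 * (g : ℝ) := by exact_mod_cast hd.cg
  have hqn := h.qle (i := 0) (by omega) hq0
  have hpp : ∀ l < 2 * (j + 1), p (2 * j + 1) ≤ p l := fun l hl' =>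
    h.fr.pa (i := l) (j := 2 * j + 1) (by omega) (by omega)
  have hpn : ∀ l < 2 * (j + 1), p l ≤ Rl.card - 1 - k := fun l hl' =>
    h.pleK hout (by omega) (by have := hpp l hl'; linarith)
  have c' : CntO k θ Rl.card (((2 * i + 1 : ℕ) : ℤ) : ℝ) (((2 * (j + 1) : ℕ) : ℤ) : ℝ) Rs.card
      S.card (Gam B (uq 0) S) (q 0) (∑ l ∈ range (2 * i + 1), q l)
      (∑ l ∈ range (2 * (j + 1)), p l) := by simpa only [Int.cast_natCast] using c
  have hS1 : ∑ l ∈ range (2 * (j + 1)), p l ≤ (2 * (j + 1) : ℕ) * ((Rl.card : ℝ) - 1 - k) := by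
    have h1 : ∑ l ∈ range (2 * (j + 1)), p l ≤
        ∑ _l ∈ range (2 * (j + 1)), ((Rl.card : ℝ) - 1 - k) :=
      Finset.sum_le_sum fun l hl' => hpn l (Finset.mem_range.1 hl')
    rwa [Finset.sum_const, nsmul_eq_mul, Finset.card_range] at h1
  have hS2 : (2 * (j + 1) : ℕ) * (θ - 2) ≤ ∑ l ∈ range (2 * (j + 1)), p l := by
    have h1 : ∑ _l ∈ range (2 * (j + 1)), (θ - 2) ≤ ∑ l ∈ range (2 * (j + 1)), p l :=
      Finset.sum_le_sum fun l hl' => by
        have := hpp l (Finset.mem_range.1 hl')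
        linarith
    rwa [Finset.sum_const, nsmul_eq_mul, Finset.card_range] at h1
  have hS3 := sum_first q (2 * i) fun l hl' => h.fr.qa (i := l) (j := 2 * i) hl' (by omega)
  have h2 := hpn (2 * j + 1) (by omega)
  have hi0 : (0 : ℝ) ≤ ((2 * i : ℕ) : ℝ) := Nat.cast_nonneg _
  have hS4 : ((2 * i : ℕ) : ℝ) * (θ + u) ≤ ((2 * i : ℕ) : ℝ) * q (2 * i) :=
    mul_le_mul_of_nonneg_left hu hi0
  have key := c'.poU (g := g) (u := u) h.k3 (by push_cast; omega) (by push_cast; omega)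
    (Nat.cast_nonneg _) (Nat.cast_nonneg _) hcg (by linarith) (by linarith) hqn
    (by push_cast at hS3 hS4 ⊢; linarith) (by exact_mod_cast hS2) (by exact_mod_cast hS1)
    (by linarith)
  simpa only [Int.cast_natCast] using key

end
end Pool.Agent.Exact


end

section

/-!
# The first statement T1: hubs of both types, an odd number of the first, an even of the second
-/

set_option autoImplicit false
set_option linter.unusedSectionVars false

namespace Pool.Agent.Exact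

open Finset

variable {V : Type*} [Fintype V] [DecidableEq V]
variable {B : V → V → ℤ} {Rl : Finset V} {ℓ nQ nP : ℕ} {uq up : ℕ → V} {q p : ℕ → ℝ}
variable {k : ℤ} {θ : ℝ}

section
variable (h : Ctx B Rl ℓ nQ nP uq up q p k θ)
include h

/-- **The first statement T1 fails only because of an item.** -/
theorem Ctx.poT1 (hnv : ¬ Val B θ) {i j : ℕ} (hi : i < ℓ) (hj : j < ℓ)
    (haQ : 2 * i + 1 ≤ nQ) (hbP : 2 * (j + 1) ≤ nP) (hpq : p 0 ≤ q 0) {S : Finset V}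
    {g Y nb cR e : ℤ}
    (hSR : S ⊆ vs uq up (rr nQ nP (2 * i + 1) (2 * (j + 1)))) {m z : ℝ}
    (hT2 : T2I B uq up (2 * i + 1) (2 * (j + 1)) S g Y)
    (hE : EndI B uq up (q 0) (2 * i + 1) (2 * (j + 1)) S g Y nb cR e)
    (hCrS : ∀ D : ℝ, D ≤ cR → CrSI B uq up p (2 * i + 1) (2 * (j + 1)) D → Val B θ)
    (hY0 : 0 ≤ Y) (hnb : 1 ≤ nb) (hg : 1 ≤ g)
    (hm : 0 ≤ m) (hEg : q 0 - q (2 * i) - AA q i ≤ q 0 - θ + m)
    (m1 : θ - m ≤ q (2 * i)) (m2 : θ - m ≤ p (2 * j + 1))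
    (hR : cR + (q 0 - θ + m) ≤ θ) (hR3 : cR + q 0 + 2 ≤ 2 * θ)
    (gP' : p 0 - p (2 * j + 1) ≤ q (2 * i)) (gE : p 0 - p (2 * j + 1) ≤ θ + g - 2)
    (gQ : AA q i ≤ θ + g - 2 ∨ m ≤ 2 ∨ cR - nb + 1 + q 0 - θ + m ≤ θ)
    (z1 : cR - nb + q 0 - θ ≤ z)
    (zneg : ∀ v ∈ S, im B v < 0 → |((im B v : ℤ) : ℝ)| ≤ z ∨
      (2 ≤ nb ∧ e ≤ 1 ∧ cR - nb + 1 + q 0 - θ ≤ z))
    (z2 : z + 2 ≤ θ + g) (z5 : z + 5 + (cR - nb) + q 0 ≤ 3 * θ + 2 * g) :
    0 ≤ z ∧ (∀ v ∈ S, |((im B v : ℤ) : ℝ)| ≤ z) ∧ (Y : ℝ) ≤ z ∧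
      ((Gam B (uq 0) S : ℤ) : ℝ) < q 0 - θ - g := by
  classical
  have hl := h.fr.l2
  have hnbr : (1 : ℝ) ≤ nb := by exact_mod_cast hnb
  have hgr : (1 : ℝ) ≤ g := by exact_mod_cast hg
  have hY0r : (0 : ℝ) ≤ Y := by exact_mod_cast hY0
  obtain ⟨q1, q2, q3, q4⟩ := h.fr.qgap hi
  obtain ⟨p1, p2, p3, p4⟩ := h.fr.pgap hj
  have e1 := AA_succ p j
  -- all neutral vertices are small
  have hall : (∀ v ∈ S, |((im B v : ℤ) : ℝ)| ≤ z) ∧ (Y : ℝ) ≤ z := by
    by_contra hcon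
    -- the largest neutral vertex
    have hmax : ∃ Z : ℝ, z < Z ∧ (Y : ℝ) ≤ Z ∧ (∀ v ∈ S, |((im B v : ℤ) : ℝ)| ≤ Z) ∧
        (Z = Y ∨ ∃ v ∈ S, Z = |((im B v : ℤ) : ℝ)|) := by
      rcases S.eq_empty_or_nonempty with hS | hS
      · refine ⟨Y, ?_, le_rfl, by simp [hS], Or.inl rfl⟩
        by_contra hc
        push Not at hc
        exact hcon ⟨by simp [hS], hc⟩
      · obtain ⟨v, hv, hvm⟩ := Finset.exists_max_image S
          (fun v => |((im B v : ℤ) : ℝ)|) hS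
        refine ⟨max Y |((im B v : ℤ) : ℝ)|, ?_, le_max_left _ _,
          fun u hu => (hvm u hu).trans (le_max_right _ _), ?_⟩
        · by_contra hc
          push Not at hc
          exact hcon ⟨fun u hu => (hvm u hu).trans ((le_max_right _ _).trans hc),
            (le_max_left _ _).trans hc⟩
        · rcases max_choice (Y : ℝ) |((im B v : ℤ) : ℝ)| with h1 | h1
          · exact Or.inl h1
          · exact Or.inr ⟨v, hv, h1⟩
    obtain ⟨Z, hZz, hYZ, hSZ, hZ⟩ := hmax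
    rcases hZ with hZ | ⟨v, hv, hZ⟩
    · exact h.poD hnv hi hj haQ hbP hpq hSR (D1 := cR - nb) (m := m) (X := Y) (Z := Z) hT2
        (hE.t) (fun hC => hCrS _ (by linarith) hC) hm hEg m1 m2
        (by linarith) (by linarith) (by linarith) hgr gP' gE (by linarith) hZ.le hYZ hSZ
    · rcases lt_or_ge (im B v) 0 with hv0 | hv0
      · rcases zneg v hv hv0 with h1 | ⟨h1, h1', h2⟩
        · linarith
        · have h1r : (2 : ℝ) ≤ nb := by exact_mod_cast h1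
          exact h.poD hnv hi hj haQ hbP hpq hSR (D1 := cR - nb + 1) (m := m)
            (X := Y + |((im B v : ℤ) : ℝ)|) (Z := Z) hT2
            ((hE.v' (by linarith) v hv).mono le_rfl (by linarith))
            (fun hC => hCrS _ (by linarith) hC) hm hEg m1 m2
            (by linarith) (by linarith) (by linarith) hgr gP' gE (by linarith) (by linarith)
            hYZ hSZ
      · exact h.poD hnv hi hj haQ hbP hpq hSR (D1 := cR - nb) (m := m)
          (X := Y + |((im B v : ℤ) : ℝ)|) (Z := Z) hT2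
          ((hE.v v hv hv0).mono le_rfl (by linarith))
          (fun hC => hCrS _ (by linarith) hC) hm hEg m1 m2
          (by linarith) (by linarith) (by linarith) hgr gP' gE (by linarith) (by linarith)
          hYZ hSZ
  obtain ⟨hSz, hYz⟩ := hall
  have z0 : 0 ≤ z := hY0r.trans hYz
  refine ⟨z0, hSz, hYz, ?_⟩
  by_contra hc
  push Not at hc
  have hT := h.tot hnv hi hj haQ hbP hSR hE.w (m := m)
    (fun hC => hCrS _ (by linarith) hC) hEg (by linarith) (by linarith) (by linarith)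
  have hgQ : AA q i ≤ θ + g - 2 := by
    have h1 : AA q i < AA p (j + 1) - q (2 * i) + (cR - nb + 1) + q 0 - θ := by linarith
    rcases gQ with h2 | h2 | h2
    · exact h2
    · linarith
    · linarith
  exact h.poW hnv hi hj hT2 (D1 := cR - nb) z0 hSz hYz (by linarith) gP' hgQ gE
    (by linarith) z2 z5

end
end Pool.Agent.Exact


end

section

/-!
# No crossing, hubs of both types, an odd number of the first, minimum outdegree at least `k`:
nonempty set `Rs`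
-/

set_option autoImplicit false
set_option linter.unusedSectionVars false

namespace Pool.Agent.Exact

open Finset

variable {V : Type*} [Fintype V] [DecidableEq V]
variable {B : V → V → ℤ} {Rl : Finset V} {ℓ nQ nP : ℕ} {uq up : ℕ → V} {q p : ℕ → ℝ}
variable {k : ℤ} {θ : ℝ}

section
variable (h : Ctx B Rl ℓ nQ nP uq up q p k θ)
include h

variable {Rs S : Finset V} {g : ℤ} {Kc : V → Finset V} {pick : Finset V → V}

/-- the two lowest hubs of the second type -/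
lemma Ctx.poC1 {j : ℕ} (hj : j < ℓ) {G : ℝ}
    (hw : ∑ l ∈ range (2 * (j + 1)), p l - ((2 * (j + 1) : ℕ) : ℝ) * (θ - 2) <
      ((2 * (j + 1) : ℕ) : ℝ) * G) :
    p (2 * j) + p (2 * j + 1) + 4 < 2 * θ + 2 * G := by
  have h1 := sum_pairs p j (c := p (2 * j) + p (2 * j + 1)) fun l hl => by
    have h2 := h.fr.pa (i := 2 * l) (j := 2 * j) (by omega) (by omega)
    have h3 := h.fr.pa (i := 2 * l + 1) (j := 2 * j + 1) (by omega) (by omega)
    linarith
  push_cast at hw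
  have h2 : ((j : ℝ) + 1) * (p (2 * j) + p (2 * j + 1) + 4) < (j + 1) * (2 * θ + 2 * G) := by
    linarith
  exact lt_of_mul_lt_mul_left h2 (by positivity)

/-- the item fails and the hubs of the first type are high -/
theorem Ctx.poNeHigh (hn : 2 * k - 1 ≤ (Rl.card : ℤ)) (hnv : ¬ Val B θ) (hpq : p 0 ≤ q 0)
    (hout : ∀ v ∈ Rl, k ≤ ∑ u, B v u) {i j : ℕ} (hi : i < ℓ) (hj : j < ℓ)
    (haQ : 2 * i + 1 ≤ nQ) (hbP : 2 * (j + 1) ≤ nP)
    (hd : Dec B pick (vs uq up (rr nQ nP (2 * i + 1) (2 * (j + 1)))) Rs S g Kc)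
    (hpick : ∀ K : Finset V, K.Nonempty → pick K ∈ K ∧ ∀ u ∈ K, indg B K (pick K) ≤ indg B K u)
    (hRs : Rs.Nonempty) {Y nb : ℤ} (hnb : 1 ≤ nb) (hcard : (Rs.card : ℤ) ≤ g + nb)
    (hT2 : T2I B uq up (2 * i + 1) (2 * (j + 1)) S g Y) (hq0 : 0 < q 0)
    (hq : θ + g < q (2 * i)) (hv : θ - 2 < p (2 * j + 1))
    (hΓ : ((Gam B (uq 0) S : ℤ) : ℝ) < q 0 - θ - g) {NB : ℝ}
    (hNB : ((nb : ℝ) - 1 ≤ NB ∧ (nb ≤ k - 2 → (nb : ℝ) ≤ NB)) ∨
      ((nb : ℝ) - 1 ≤ NB ∧ θ ≤ p (2 * j + 1)) ∨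
      (nb = 1 ∧ θ ≤ p (2 * j + 1) ∧
        (0 ≤ NB ∨ (NB = -1 ∧ q 0 = Rl.card - 2) ∨ (NB = -2 ∧ q 0 = Rl.card - 1))))
    (hz0 : 0 ≤ (Rl.card : ℝ) - 1 - θ - NB)
    (hS : ∀ v ∈ S, |((im B v : ℤ) : ℝ)| ≤ (Rl.card : ℝ) - 1 - θ - NB)
    (hY : (Y : ℝ) ≤ (Rl.card : ℝ) - 1 - θ - NB) : False := by
  have hl := h.fr.l2
  have hθ3 := h.θ3 hn
  have hU := h.poPoU hn hout hi hj haQ hbP hd hpick (u := g) hq0 hq.le hv.le hΓ
  have hcg : (Rs.card : ℝ) ≤ 2 * (g : ℝ) := by exact_mod_cast hd.cg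
  have hP := hU.toPo (by linarith)
  have hdp : (((2 * (j + 1) : ℕ) : ℤ) - (2 * i + 1 : ℕ) - 1) % 2 = 0 := by push_cast; omega
  have hjp : (k - (k - ((2 * (j + 1) : ℕ) : ℤ))) % 2 = 0 := by push_cast; omega
  have k4 := hP.k4 hdp hjp
  have hC := hP.C1 hdp
  have c1 : 1 ≤ (Rs.card : ℤ) := by
    have := Finset.card_pos.2 hRs
    exact_mod_cast this
  have g1 : 1 ≤ g := by
    have := hd.cg
    omega
  have hC1 := h.poC1 hj (θ := θ) (G := Rs.card / 2) (by push_cast at hC ⊢; linarith)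
  have hp0 : p 0 ≤ Rl.card - 1 - k := by
    refine h.pleK hout (by omega) ?_
    have := h.fr.pa (i := 0) (j := 2 * j + 1) (by omega) (by omega)
    linarith
  have hqn := h.qle (i := 0) (by omega) hq0
  have hnbr : (1 : ℝ) ≤ nb := by exact_mod_cast hnb
  have hg1 : (1 : ℝ) ≤ g := by exact_mod_cast g1
  have hGe : ((Rs.card : ℝ) / 2) = (((Rs.card : ℤ) : ℝ) / 2) := by push_cast; ring
  have hw2 : θ ≤ p (2 * j + 1) → 2 * ((k : ℝ) - ((k - ((2 * (j + 1) : ℕ) : ℤ) : ℤ) : ℝ)) ≤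
      ∑ l ∈ range (2 * (j + 1)), p l - (2 * (j + 1) : ℕ) * (θ - 2) := by
    intro hp
    have h1 : ∑ _l ∈ range (2 * (j + 1)), θ ≤ ∑ l ∈ range (2 * (j + 1)), p l :=
      Finset.sum_le_sum fun l hl' => by
        have := h.fr.pa (i := l) (j := 2 * j + 1) (by have := Finset.mem_range.1 hl'; omega)
          (by omega)
        linarith
    rw [Finset.sum_const, nsmul_eq_mul, Finset.card_range] at h1
    push_cast at h1 ⊢
    linarith
  rcases hNB with ⟨n1, n2⟩ | ⟨n1, n2⟩ | ⟨n1, n2, n3⟩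
  · have hO := hP.out hdp hjp hGe c1 hd.cg hcard hnb n1 n2
    refine hnv (h.poHigh hn hpq hi hj k4 hT2 hz0 hS hY hq hv hp0 hqn (G := Rs.card / 2)
      (by linarith) g1 (by linarith) hC1 ?_)
    rcases hO with ⟨o1, o2, o3, o4⟩ | ⟨o1, o2⟩
    · exact Or.inl ⟨by linarith, by linarith, by linarith, by linarith⟩
    · exact Or.inr ⟨by linarith, by linarith⟩
  · obtain ⟨o1, o2, o3, o4⟩ := hP.outc hdp hjp hGe hd.cg hcard n1 (hw2 n2)
    exact hnv (h.poHigh hn hpq hi hj k4 hT2 hz0 hS hY hq hv hp0 hqn (G := Rs.card / 2)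
      (by linarith) g1 (by linarith) hC1
      (Or.inl ⟨by linarith, by linarith, by linarith, by linarith⟩))
  · rw [n1] at hcard
    obtain ⟨o1, o2, o3, o4⟩ := hP.outc1 hdp hjp (NB := NB) hGe hd.cg hcard (hw2 n2) (by
      rcases n3 with n3 | ⟨n3, n4⟩ | ⟨n3, n4⟩
      · exact Or.inl n3
      · exact Or.inr (Or.inl ⟨n3, by linarith⟩)
      · exact Or.inr (Or.inr ⟨n3, by linarith⟩))
    have hcr : (Rs.card : ℝ) ≤ g + 1 := by exact_mod_cast hcard
    have hC5 : 0 ≤ NB + g := by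
      rcases n3 with n3 | ⟨n3, n4⟩ | ⟨n3, n4⟩
      · linarith
      · linarith
      · -- `g ≥ 2`
        have h5 : (2 : ℝ) < (Rs.card : ℝ) / 2 := by
          have h6 := hw2 n2
          have h7 : ((k : ℝ) - ((k - ((2 * (j + 1) : ℕ) : ℤ) : ℤ) : ℝ)) * 2 <
              (k - ((k - ((2 * (j + 1) : ℕ) : ℤ) : ℤ) : ℝ)) * (Rs.card / 2) := by linarith
          refine lt_of_mul_lt_mul_left h7 ?_
          push_cast
          have : (0 : ℝ) ≤ j := Nat.cast_nonneg _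
          linarith
        linarith
    exact hnv (h.poHigh hn hpq hi hj k4 hT2 hz0 hS hY hq hv hp0 hqn (G := Rs.card / 2)
      (by linarith) g1 hC5 hC1
      (Or.inl ⟨by linarith, by linarith, by linarith, by linarith⟩))

end
end Pool.Agent.Exact


end
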