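import Mathlib
import Pool.Agent.EXAM.C10
import Pool.Agent.EXAM.C11

/-! Parts: Lib_helper68.Exact.PoNC2, Lib_helper68.Exact.PoNC3, Lib_helper68.Exact.PoEm -/

section

/-!
# No crossing, hubs of both types, an odd number of the first, minimum outdegree at least `k`:
the leaves 1a, 1c, 3b with nonempty `Rs`
-/

set_option autoImplicit false
set_option linter.unusedSectionVars false

namespace Pool.Agent.Exact

open Finset

variable {V : Type*} [Fintype V] [DecidableEq V]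
variable {B : V → V → ℤ} {Rl : Finset V} {ℓ nQ nP : ℕ} {uq up : ℕ → V} {q p : ℕ → ℝ}
variable {k : ℤ} {θ : ℝ}

/-- the negative vertices of the rest -/
lemma Frame.negR (h : Frame B Rl ℓ nQ nP uq up q p) {a b : ℕ} {v : V}
    (hv : v ∈ vs uq up (rr nQ nP a b)) (hv0 : im B v < 0) : |((im B v : ℤ) : ℝ)| ≤ p b := by
  have hQ := h.nQle
  have hP := h.nPle
  have hv0' : ((im B v : ℤ) : ℝ) < 0 := by exact_mod_cast hv0
  unfold vs at hv
  rw [Finset.mem_image] at hv
  obtain ⟨x, hx, rfl⟩ := hv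
  rcases x with l | l
  · exfalso
    have hx' : a ≤ l ∧ l < nQ := by
      unfold rr at hx
      simpa only [Finset.mem_union, inl_mem_iq, inl_mem_ip, or_false] using hx
    have h1 : ((im B (vx uq up (Sum.inl l)) : ℤ) : ℝ) = q l := h.sys.wtQ l (by omega)
    rw [h1] at hv0'
    have := h.sys.chQ.nn l (by omega)
    linarith
  · have hx' : b ≤ l ∧ l < nP := by
      unfold rr at hx
      simpa only [Finset.mem_union, inr_mem_iq, inr_mem_ip, false_or] using hx
    have h1 : ((im B (vx uq up (Sum.inr l)) : ℤ) : ℝ) = - p l := h.sys.wtP l (by omega)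
    rw [abs_of_neg hv0', h1, neg_neg]
    exact h.sys.chP.anti b l hx'.1 (by omega)

section
variable (h : Ctx B Rl ℓ nQ nP uq up q p k θ)
include h

variable {Rs S : Finset V} {g : ℤ} {Kc : V → Finset V} {pick : Finset V → V}

/-- the arrangements `A`, `TE` and `TO` if the hubs of the first type are low -/
theorem Ctx.poA3 {i j : ℕ} (hi : i < ℓ) (hj : j < ℓ) {S : Finset V} {g Y : ℤ}
    (hT2 : T2I B uq up (2 * i + 1) (2 * (j + 1)) S g Y) {z m : ℝ} (hz0 : 0 ≤ z)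
    (hS : ∀ v ∈ S, |((im B v : ℤ) : ℝ)| ≤ z) (hY : (Y : ℝ) ≤ z)
    (a1 : q (2 * i) ≤ θ + g) (g2 : (2 : ℝ) ≤ g) (hθ : 0 ≤ θ)
    (hQ : ∀ l < ℓ, q (2 * l) - q (2 * l + 1) ≤ θ) (hP : ∀ l < ℓ, p (2 * l) - p (2 * l + 1) ≤ θ)
    (m1 : θ - m ≤ q (2 * i))
    (gP : p 0 - p (2 * j + 1) ≤ θ + g - 2) (gP' : p 0 - p (2 * j + 1) ≤ q (2 * i))
    (hz : z + 4 ≤ θ + g) (hE : q 0 - θ + m ≤ θ + g - 2) (hI2 : q 0 + 2 * m + 2 ≤ 3 * θ + g)
    (hI3 : z + 4 + 2 * q 0 + 3 * m ≤ 5 * θ + 2 * g) : Val B θ := by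
  have hl := h.fr.l2
  by_contra hn
  obtain ⟨q1, q2, q3, q4⟩ := h.fr.qgap hi
  obtain ⟨p1, p2, p3, p4⟩ := h.fr.pgap hj
  have e1 := AA_succ p j
  have e2 := h.fr.pa (i := 2 * j) (j := 2 * j + 1) (by omega) (by omega)
  have e3 := h.fr.pa (i := 0) (j := 2 * j + 1) (by omega) (by omega)
  have e4 := h.fr.qa (i := 0) (j := 2 * i) (by omega) (by omega)
  have e6 := h.fr.pa (i := 0) (j := 2 * j) (by omega) (by omega)
  have F1 := h.fr.tA (K := θ + g) i (j + 1) hi (by omega) a1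
    (fun l hl' => by have := hQ l (by omega); linarith) (fun l hl' => by
      have := hP l (by omega); linarith)
  have G1 : 2 * θ + 2 * g < z + (AA q i + q (2 * i) + AA p (j + 1)) + 2 * 0 := by
    by_contra hc
    push Not at hc
    exact hn (hT2.close F1 (by linarith) hz0 hS hY (by linarith) (by linarith) hc)
  rcases le_or_gt (AA q i) (AA p (j + 1)) with h1 | h1
  · -- `TE`
    have h2 : |p 0 - p (2 * j + 1) - q (2 * i)| = q (2 * i) - (p 0 - p (2 * j + 1)) := by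
      rw [abs_of_nonpos (by linarith)]; ring
    have hM : ((MM B (up 0) (uq (2 * i)) - MM B (up 0) (up (2 * j + 1)) -
      MM B (up (2 * j + 1)) (uq (2 * i)) : ℤ) : ℝ) ≤ 2 := by
      have h3 := h.MM2z (up 0) (uq (2 * i))
      have h4 := h.MM0z (up 0) (up (2 * j + 1))
      have h5 := h.MM0z (up (2 * j + 1)) (uq (2 * i))
      exact_mod_cast (by linarith : MM B (up 0) (uq (2 * i)) - MM B (up 0) (up (2 * j + 1)) -
        MM B (up (2 * j + 1)) (uq (2 * i)) ≤ 2)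
    have F2 := h.fr.tTE (K := θ + g - 2) (M := 2) i j hi hj
      (by rw [h2]; linarith) hM (fun l hl' => by have := hQ l (by omega); linarith)
      (fun l hl' => by have := p4 l hl'; linarith)
    refine hn (hT2.close F2 (by linarith) hz0 hS hY (by linarith) (by linarith) ?_)
    rw [h2]
    linarith
  · -- `TO`
    rcases Nat.eq_zero_or_pos i with h0 | h0
    · subst h0
      rw [AA_zero] at h1 G1
      linarith
    · obtain ⟨i, rfl⟩ : ∃ m, i = m + 1 := ⟨i - 1, by omega⟩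
      have f1 := AA_succ q i
      obtain ⟨r1, r2, r3, r4⟩ := h.fr.qgap (i := i) (by omega)
      have f2 := h.fr.qa (i := 2 * i) (j := 2 * i + 1) (by omega) (by omega)
      have f3 := h.fr.qa (i := 2 * i + 1) (j := 2 * (i + 1)) (by omega) (by omega)
      have f4 : q (2 * (i + 1)) = q (2 * i + 2) := by ring_nf
      have hM : ((MM B (uq (2 * i + 1)) (uq (2 * i + 2)) - MM B (uq 0) (uq (2 * i + 1)) -
        MM B (uq 0) (uq (2 * i + 2)) : ℤ) : ℝ) ≤ 2 := by
        have h3 := h.MM2z (uq (2 * i + 1)) (uq (2 * i + 2))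
        have h4 := h.MM0z (uq 0) (uq (2 * i + 1))
        have h5 := h.MM0z (uq 0) (uq (2 * i + 2))
        exact_mod_cast (by linarith : MM B (uq (2 * i + 1)) (uq (2 * i + 2)) -
          MM B (uq 0) (uq (2 * i + 1)) - MM B (uq 0) (uq (2 * i + 2)) ≤ 2)
      have F2 := h.fr.tTO (K := θ + g - 2) (M := 2) i (j + 1) (by omega) (by omega)
        (abs_le.2 ⟨by linarith, by linarith⟩) hM
        (fun l hl' => by have := r4 l hl'; linarith)
        (fun l hl' => by have := hP l (by omega); linarith)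
      refine hn (hT2.close F2 (by linarith) hz0 hS hY (by linarith) (by linarith) ?_)
      rcases le_or_gt 0 (q 0 - q (2 * i + 1) - q (2 * i + 2)) with h5 | h5
      · rw [abs_of_nonneg h5]
        linarith
      · rw [abs_of_neg h5]
        linarith

/-- the effective number of blocks -/
lemma Ctx.exists_NB (k3 : 3 ≤ k) {nb : ℤ} (hnb : 1 ≤ nb) :
    ∃ NB : ℝ, 1 ≤ NB ∧ (nb : ℝ) - 1 ≤ NB ∧ NB ≤ nb ∧ (nb ≤ k - 2 → NB = nb) ∧
      (k - 2 < nb → NB = nb - 1) := by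
  by_cases h1 : nb ≤ k - 2
  · refine ⟨nb, by exact_mod_cast hnb, by linarith, le_rfl, fun _ => rfl, fun h2 => by omega⟩
  · push Not at h1
    have h2 : (2 : ℝ) ≤ nb := by exact_mod_cast (by omega : 2 ≤ nb)
    exact ⟨nb - 1, by linarith, le_rfl, by linarith, fun h3 => by omega, fun _ => rfl⟩

/-- leaf 1a, nonempty `Rs` -/
theorem Ctx.po1aNe (hn : 2 * k - 1 ≤ (Rl.card : ℤ)) (hnv : ¬ Val B θ) (hpq : p 0 ≤ q 0)
    (hout : ∀ v ∈ Rl, k ≤ ∑ u, B v u) {i j : ℕ} (hi : i < ℓ) (hj : j + 1 < ℓ)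
    (hD : θ < q (2 * i) - q (2 * i + 1)) (hE : θ - 2 < p (2 * j + 1) - p (2 * j + 2))
    (hC : Closed B nQ nP uq up q p θ (2 * i + 1) (2 * (j + 1)))
    (hd : Dec B pick (vs uq up (rr nQ nP (2 * i + 1) (2 * (j + 1)))) Rs S g Kc)
    (hpick : ∀ K : Finset V, K.Nonempty → pick K ∈ K ∧ ∀ u ∈ K, indg B K (pick K) ≤ indg B K u)
    (hRs : Rs.Nonempty) {Y nb cR : ℤ} (hY : 0 ≤ Y) (hnb : 1 ≤ nb)
    (hcard : (Rs.card : ℤ) ≤ g + nb)
    (hcR : (cR : ℝ) = cRr B nQ nP uq up (2 * i + 1) (2 * (j + 1)))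
    (hT2 : T2I B uq up (2 * i + 1) (2 * (j + 1)) S g Y)
    (hT1 : CrI B uq up q p (2 * i + 1) (2 * (j + 1)) ((max 0 (cR - 1) : ℤ) : ℝ) ∨
      EndI B uq up (q 0) (2 * i + 1) (2 * (j + 1)) S g Y nb cR 1) : False := by
  have hl := h.fr.l2
  have hθ3 := h.θ3 hn
  have hlam := h.lam2 hn
  have hq1 := h.fr.qn (i := 2 * i + 1) (by omega)
  have hp1 := h.fr.pn (i := 2 * j + 2) (by omega)
  have haQ := hC.aQ
  have hbP := hC.bP
  have hqa := h.fr.qa (i := 0) (j := 2 * i) (by omega) (by omega)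
  have hq0 : 0 < q 0 := by linarith
  have hqn := h.qle (i := 0) (by omega) hq0
  have hpa := h.fr.pa (i := 0) (j := 2 * j + 1) (by omega) (by omega)
  have hp0 : p 0 ≤ Rl.card - 1 - k := h.pleK hout (by omega) (by linarith)
  have hpj : p (2 * j + 1) ≤ Rl.card - 1 - k := h.pleK hout (by omega) (by linarith)
  have hcR' := h.cR hC.a1 haQ hbP
  rw [← hcR] at hcR'
  have k3r := h.k3r
  have c1 : 1 ≤ (Rs.card : ℤ) := by
    have := Finset.card_pos.2 hRs
    exact_mod_cast this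
  have g1 : 1 ≤ g := by
    have := hd.cg
    omega
  have g1r : (1 : ℝ) ≤ g := by exact_mod_cast g1
  have hnbr : (1 : ℝ) ≤ nb := by exact_mod_cast hnb
  have hSR : S ⊆ vs uq up (rr nQ nP (2 * i + 1) (2 * (j + 1))) := by
    rw [← hd.un]
    exact Finset.subset_union_right
  rcases hT1 with hT1 | hT1
  · refine hnv (hC.cr _ ?_ hT1)
    rw [← hcR]
    push_cast
    exact le_rfl
  obtain ⟨NB, n1, n2, n3, n4, n5⟩ := h.exists_NB h.k3 hnb
  have hneg : ∀ v ∈ S, im B v < 0 → |((im B v : ℤ) : ℝ)| ≤ Rl.card + 1 - k - θ := by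
    intro v hv hv0
    have h1 := h.fr.negR (hSR hv) hv0
    have h2 : p (2 * (j + 1)) = p (2 * j + 2) := by ring_nf
    linarith
  obtain ⟨i1, i2, i3⟩ := h.fr.qgap hi
  obtain ⟨z0, hSz, hYz, hΓ⟩ := h.poT1 hnv hi (by omega) haQ hbP hpq hSR (m := 2)
    (z := (Rl.card : ℝ) - 1 - θ - NB) hT2 hT1 (fun D hD' hC' => hC.crs D (by linarith) hC') hY hnb
    g1 (by norm_num) (by linarith) (by linarith) (by linarith) (by linarith) (by linarith)
    (by linarith) (by linarith) (Or.inr (Or.inl le_rfl)) (by linarith) (by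
      intro v hv hv0
      rcases le_or_gt nb (k - 2) with h1 | h1
      · left
        have h2 := hneg v hv hv0
        have h3 : (nb : ℝ) ≤ k - 2 := by exact_mod_cast h1
        rw [n4 h1]
        linarith
      · right
        have h3 := h.k3
        refine ⟨by omega, le_rfl, ?_⟩
        rw [n5 h1]
        linarith) (by linarith) (by linarith)
  rcases lt_or_ge (θ + g) (q (2 * i)) with h1 | h1
  · exact h.poNeHigh hn hnv hpq hout hi (by omega) haQ hbP hd hpick hRs hnb hcard hT2 hq0 h1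
      (by linarith) hΓ (Or.inl ⟨n2, fun h2 => (n4 h2).ge⟩) z0 hSz hYz
  · exact hnv (h.poA hi (by omega) hT2 z0 hSz hYz h1 (by linarith) (by linarith) (by linarith)
      (by linarith) (by linarith))

end
end Pool.Agent.Exact


end

section

/-!
# No crossing, hubs of both types, an odd number of the first, minimum outdegree at least `k`:
the leaves 1c and 3b with nonempty `Rs`
-/

set_option autoImplicit false
set_option linter.unusedSectionVars false

namespace Pool.Agent.Exact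

open Finset

variable {V : Type*} [Fintype V] [DecidableEq V]
variable {B : V → V → ℤ} {Rl : Finset V} {ℓ nQ nP : ℕ} {uq up : ℕ → V} {q p : ℕ → ℝ}
variable {k : ℤ} {θ : ℝ}

/-- a consequence of the counting fact `D` -/
lemma CntO.Dy {k a b : ℤ} {θ n ρ σ Γ q0 SQ SP : ℝ} (c : CntO k θ n a b ρ σ Γ q0 SQ SP)
    (a1 : 1 ≤ a) (hθ : n + 1 ≤ 2 * θ) (hK : θ + k ≤ n + 1) (hy : θ < q0)
    (hSQ : q0 + (a - 1) * θ ≤ SQ) :
    a ≤ k - 2 ∧ q0 - θ + 2 * (n + 1 - k - θ) ≤ (k - 2) * (2 * θ - n - 1) := by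
  have h2 := c.D
  have a1r : (1 : ℝ) ≤ a := by exact_mod_cast a1
  have h3 : (q0 - θ) + (a + 1) * (n + 1 - k - θ) ≤ (k - 1 - a) * (2 * θ - n - 1) := by linarith
  have h4 : a ≤ k - 2 := by
    by_contra hc
    push Not at hc
    have hc' : (k : ℝ) - 1 ≤ a := by exact_mod_cast (by omega : k - 1 ≤ a)
    have h5 : ((k : ℝ) - 1 - a) * (2 * θ - n - 1) ≤ 0 :=
      mul_nonpos_of_nonpos_of_nonneg (by linarith) (by linarith)
    have h6 : 0 ≤ ((a : ℝ) + 1) * (n + 1 - k - θ) := mul_nonneg (by linarith) (by linarith)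
    linarith
  refine ⟨h4, ?_⟩
  have h5 : ((k : ℝ) - 1 - a) * (2 * θ - n - 1) ≤ (k - 2) * (2 * θ - n - 1) :=
    mul_le_mul_of_nonneg_right (by linarith) (by linarith)
  have h6 : 2 * (n + 1 - k - θ) ≤ ((a : ℝ) + 1) * (n + 1 - k - θ) :=
    mul_le_mul_of_nonneg_right (by linarith) (by linarith)
  linarith

section
variable (h : Ctx B Rl ℓ nQ nP uq up q p k θ)
include h

variable {Rs S : Finset V} {g : ℤ} {Kc : V → Finset V} {pick : Finset V → V}

/-- a consequence of the counting fact `D`, high hubs of the first type -/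
lemma Ctx.poDy (hn : 2 * k - 1 ≤ (Rl.card : ℤ)) (hout : ∀ v ∈ Rl, k ≤ ∑ u, B v u)
    {i j : ℕ} (hi : i < ℓ) (haQ : 2 * i + 1 ≤ nQ) (hbP : 2 * (j + 1) ≤ nP)
    (hd : Dec B pick (vs uq up (rr nQ nP (2 * i + 1) (2 * (j + 1)))) Rs S g Kc)
    (hpick : ∀ K : Finset V, K.Nonempty → pick K ∈ K ∧ ∀ u ∈ K, indg B K (pick K) ≤ indg B K u)
    (hu : θ < q (2 * i)) (hK : θ + k ≤ Rl.card + 1) :
    ((2 * i + 1 : ℕ) : ℤ) ≤ k - 2 ∧
      q 0 - θ + 2 * (Rl.card + 1 - k - θ) ≤ (k - 2) * (2 * θ - Rl.card - 1) := by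
  have hl := h.fr.l2
  have hlam := h.lam2 hn
  have c := h.cntO hout (a := 2 * i + 1) (b := 2 * (j + 1)) (by omega) haQ hbP hd hpick
  have c' : CntO k θ Rl.card (((2 * i + 1 : ℕ) : ℤ) : ℝ) (((2 * (j + 1) : ℕ) : ℤ) : ℝ) Rs.card
      S.card (Gam B (uq 0) S) (q 0) (∑ l ∈ range (2 * i + 1), q l)
      (∑ l ∈ range (2 * (j + 1)), p l) := by simpa only [Int.cast_natCast] using c
  have hS3 := sum_first q (2 * i) fun l hl' => h.fr.qa (i := l) (j := 2 * i) hl' (by omega)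
  have hi0 : (0 : ℝ) ≤ ((2 * i : ℕ) : ℝ) := Nat.cast_nonneg _
  have hS4 : ((2 * i : ℕ) : ℝ) * θ ≤ ((2 * i : ℕ) : ℝ) * q (2 * i) :=
    mul_le_mul_of_nonneg_left hu.le hi0
  have hq := h.fr.qa (i := 0) (j := 2 * i) (by omega) (by omega)
  exact c'.Dy (by push_cast; omega) (by linarith) hK (by linarith)
    (by push_cast at hS3 hS4 ⊢; linarith)

/-- leaf 1c, nonempty `Rs` -/
theorem Ctx.po1cNe (hn : 2 * k - 1 ≤ (Rl.card : ℤ)) (hnv : ¬ Val B θ) (hpq : p 0 ≤ q 0)
    (hout : ∀ v ∈ Rl, k ≤ ∑ u, B v u) {i j : ℕ} (hi : i < ℓ) (hj : j + 1 < ℓ)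
    (hD : θ < q (2 * i) - q (2 * i + 1)) (hE : θ < p (2 * j + 1))
    (hp2 : p (2 * (j + 1)) < q (2 * i) - q (2 * i + 1) - θ + 2)
    (hC : Closed B nQ nP uq up q p θ (2 * i + 1) (2 * (j + 1)))
    (hd : Dec B pick (vs uq up (rr nQ nP (2 * i + 1) (2 * (j + 1)))) Rs S g Kc)
    (hpick : ∀ K : Finset V, K.Nonempty → pick K ∈ K ∧ ∀ u ∈ K, indg B K (pick K) ≤ indg B K u)
    (hRs : Rs.Nonempty) {Y nb cR : ℤ} (hY : 0 ≤ Y) (hnb : 1 ≤ nb)
    (hcard : (Rs.card : ℤ) ≤ g + nb)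
    (hcR : (cR : ℝ) = cRr B nQ nP uq up (2 * i + 1) (2 * (j + 1)))
    (hT2 : T2I B uq up (2 * i + 1) (2 * (j + 1)) S g Y)
    (hT1 : CrI B uq up q p (2 * i + 1) (2 * (j + 1)) ((max 0 (cR - 1) : ℤ) : ℝ) ∨
      EndI B uq up (q 0) (2 * i + 1) (2 * (j + 1)) S g Y nb cR 1) : False := by
  have hl := h.fr.l2
  have hθ3 := h.θ3 hn
  have hlam := h.lam2 hn
  have hq1 := h.fr.qn (i := 2 * i + 1) (by omega)
  have haQ := hC.aQ
  have hbP := hC.bP
  have hqa := h.fr.qa (i := 0) (j := 2 * i) (by omega) (by omega)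
  have hq0 : 0 < q 0 := by linarith
  have hqn := h.qle (i := 0) (by omega) hq0
  have hpa := h.fr.pa (i := 0) (j := 2 * j + 1) (by omega) (by omega)
  have hp0 : p 0 ≤ Rl.card - 1 - k := h.pleK hout (by omega) (by linarith)
  have hpj : p (2 * j + 1) ≤ Rl.card - 1 - k := h.pleK hout (by omega) (by linarith)
  have hcR' := h.cR hC.a1 haQ hbP
  rw [← hcR] at hcR'
  have k3r := h.k3r
  have c1 : 1 ≤ (Rs.card : ℤ) := by
    have := Finset.card_pos.2 hRs
    exact_mod_cast this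
  have g1 : 1 ≤ g := by
    have := hd.cg
    omega
  have g1r : (1 : ℝ) ≤ g := by exact_mod_cast g1
  have hnbr : (1 : ℝ) ≤ nb := by exact_mod_cast hnb
  have hSR : S ⊆ vs uq up (rr nQ nP (2 * i + 1) (2 * (j + 1))) := by
    rw [← hd.un]
    exact Finset.subset_union_right
  rcases hT1 with hT1 | hT1
  · refine hnv (hC.cr _ ?_ hT1)
    rw [← hcR]
    push_cast
    exact le_rfl
  obtain ⟨i1, i2, i3⟩ := h.fr.qgap hi
  rcases (show nb = 1 ∨ 2 ≤ nb by omega) with hnb1 | hnb2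
  · -- one block
    obtain ⟨z, hz0, hz⟩ := h.zeta (i := 0) (by omega) hq0
    obtain ⟨d1, d2⟩ := h.poDy hn hout hi haQ hbP hd hpick (by linarith) (by linarith)
    have k5 : 3 ≤ k := by push_cast at d1; omega
    obtain ⟨NB, m1, m2, m3⟩ : ∃ NB : ℝ, NB ≤ 1 ∧ -2 ≤ NB ∧
        (0 ≤ NB ∨ (NB = -1 ∧ q 0 = Rl.card - 2) ∨ (NB = -2 ∧ q 0 = Rl.card - 1)) ∧
        q 0 - θ + 2 ≤ (Rl.card : ℝ) - 1 - θ - NB := by
      rcases (show z = 0 ∨ z = 1 ∨ 2 ≤ z by omega) with z1 | z1 | z1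
      · rw [z1] at hz
        push_cast at hz
        exact ⟨-2, by norm_num, by norm_num, Or.inr (Or.inr ⟨rfl, by linarith⟩), by linarith⟩
      · rw [z1] at hz
        push_cast at hz
        exact ⟨-1, by norm_num, by norm_num, Or.inr (Or.inl ⟨rfl, by linarith⟩), by linarith⟩
      · have z1r : (2 : ℝ) ≤ z := by exact_mod_cast z1
        exact ⟨0, by norm_num, by norm_num, Or.inl le_rfl, by linarith⟩
    obtain ⟨m3, m4⟩ := m3
    have μ1 : NB = -2 → 1 ≤ 2 * θ - (Rl.card : ℝ) - 1 := by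
      intro h5
      rcases m3 with h6 | ⟨h6, _⟩ | ⟨_, h6⟩
      · linarith
      · linarith
      · by_contra hc
        push Not at hc
        have k5r : (3 : ℝ) ≤ k := by exact_mod_cast k5
        have h7 : ((k : ℝ) - 2) * (2 * θ - Rl.card - 1) ≤ (k - 2) * 1 :=
          mul_le_mul_of_nonneg_left hc.le (by linarith)
        linarith
    have hμ : 0 ≤ (2 * θ - (Rl.card : ℝ) - 1) + NB + g := by
      rcases m3 with h6 | ⟨h6, _⟩ | ⟨h6, _⟩
      · linarith
      · linarith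
      · have := μ1 h6
        linarith
    obtain ⟨z0, hSz, hYz, hΓ⟩ := h.poT1 hnv hi (by omega) haQ hbP hpq hSR (m := 2)
      (z := (Rl.card : ℝ) - 1 - θ - NB) hT2 hT1 (fun D hD' hC' => hC.crs D (by linarith) hC')
      hY hnb
      g1 (by norm_num) (by linarith) (by linarith) (by linarith) (by linarith) (by linarith)
      (by linarith) (by linarith) (Or.inr (Or.inl le_rfl)) (by linarith) (by
        intro v hv hv0
        left
        have h1 := h.fr.negR (hSR hv) hv0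
        linarith) (by linarith) (by linarith)
    rcases lt_or_ge (θ + g) (q (2 * i)) with h1 | h1
    · exact h.poNeHigh hn hnv hpq hout hi (by omega) haQ hbP hd hpick hRs hnb hcard hT2 hq0 h1
        (by linarith) hΓ (Or.inr (Or.inr ⟨hnb1, hE.le, m3⟩)) z0 hSz hYz
    · rcases lt_or_ge g 3 with g3 | g3
      · have hU := h.poPoU hn hout hi (by omega) haQ hbP hd hpick (u := 0) hq0
          (by linarith) (by linarith) hΓ
        rw [hnb1] at hcard
        have hc3 : (Rs.card : ℤ) ≤ 3 := by omega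
        have hc3r : (Rs.card : ℝ) ≤ 3 := by exact_mod_cast hc3
        refine hU.noc (by push_cast; omega) le_rfl ?_ (by linarith)
        have h1 : ∑ _l ∈ range (2 * (j + 1)), θ ≤ ∑ l ∈ range (2 * (j + 1)), p l :=
          Finset.sum_le_sum fun l hl' => by
            have := h.fr.pa (i := l) (j := 2 * j + 1) (by have := Finset.mem_range.1 hl'; omega)
              (by omega)
            linarith
        rw [Finset.sum_const, nsmul_eq_mul, Finset.card_range] at h1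
        push_cast at h1 ⊢
        linarith
      · have g3r : (3 : ℝ) ≤ g := by exact_mod_cast g3
        refine hnv (h.poA hi (by omega) hT2 z0 hSz hYz h1 (by linarith) (by linarith)
          (by linarith) (by linarith) ?_)
        rcases m3 with h6 | ⟨h6, _⟩ | ⟨h6, _⟩
        · linarith
        · linarith
        · have := μ1 h6
          linarith
  · -- several blocks
    have hnb2r : (2 : ℝ) ≤ nb := by exact_mod_cast hnb2
    obtain ⟨z0, hSz, hYz, hΓ⟩ := h.poT1 hnv hi (by omega) haQ hbP hpq hSR (m := 2)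
      (z := (Rl.card : ℝ) - 1 - θ - (nb - 1)) hT2 hT1
      (fun D hD' hC' => hC.crs D (by linarith) hC') hY hnb
      g1 (by norm_num) (by linarith) (by linarith) (by linarith) (by linarith) (by linarith)
      (by linarith) (by linarith) (Or.inr (Or.inl le_rfl)) (by linarith) (by
        intro v hv hv0
        exact Or.inr ⟨hnb2, le_rfl, by linarith⟩) (by linarith) (by linarith)
    rcases lt_or_ge (θ + g) (q (2 * i)) with h1 | h1
    · exact h.poNeHigh hn hnv hpq hout hi (by omega) haQ hbP hd hpick hRs hnb hcard hT2 hq0 h1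
        (by linarith) hΓ (Or.inr (Or.inl ⟨le_rfl, hE.le⟩)) z0 hSz hYz
    · exact hnv (h.poA hi (by omega) hT2 z0 hSz hYz h1 (by linarith) (by linarith)
        (by linarith) (by linarith) (by linarith))

/-- leaf 3b, nonempty `Rs` -/
theorem Ctx.po3bNe (hn : 2 * k - 1 ≤ (Rl.card : ℤ)) (hnv : ¬ Val B θ) (hpq : p 0 ≤ q 0)
    (hout : ∀ v ∈ Rl, k ≤ ∑ u, B v u) {i j : ℕ} (hi : i < ℓ) (hj : j + 1 < ℓ)
    (hlam : 3 < 2 * θ - (Rl.card : ℝ) + 1)
    (hQ : ∀ l < ℓ, q (2 * l) - q (2 * l + 1) ≤ θ)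
    (hP : ∀ l < ℓ, p (2 * l) - p (2 * l + 1) ≤ θ)
    (hA : 2 * θ < AA q ℓ + AA p ℓ)
    (hE : θ - MM B (uq 0) (up 0) < p (2 * j + 1) - p (2 * j + 2))
    (h1 : θ - (MM B (uq 0) (up 0) + 2) < q (2 * i))
    (hC : Closed B nQ nP uq up q p θ (2 * i + 1) (2 * (j + 1)))
    (hd : Dec B pick (vs uq up (rr nQ nP (2 * i + 1) (2 * (j + 1)))) Rs S g Kc)
    (hpick : ∀ K : Finset V, K.Nonempty → pick K ∈ K ∧ ∀ u ∈ K, indg B K (pick K) ≤ indg B K u)
    (hRs : Rs.Nonempty) {Y nb cR : ℤ} (hY : 0 ≤ Y) (hnb : 1 ≤ nb)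
    (hcard : (Rs.card : ℤ) ≤ g + nb)
    (hcR : (cR : ℝ) = cRr B nQ nP uq up (2 * i + 1) (2 * (j + 1)))
    (hT2 : T2I B uq up (2 * i + 1) (2 * (j + 1)) S g Y)
    (hT1 : CrI B uq up q p (2 * i + 1) (2 * (j + 1)) ((max 0 (cR - 1) : ℤ) : ℝ) ∨
      EndI B uq up (q 0) (2 * i + 1) (2 * (j + 1)) S g Y nb cR 1) : False := by
  have hl := h.fr.l2
  have hθ3 := h.θ3 hn
  have hqθ := h.top hnv hpq
  have hp1 := h.fr.pn (i := 2 * j + 2) (by omega)
  have haQ := hC.aQ
  have hbP := hC.bP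
  have hM0 := h.MM0 (uq 0) (up 0)
  have hM2 := h.MM2 (uq 0) (up 0)
  have hqa := h.fr.qa (i := 0) (j := 2 * i) (by omega) (by omega)
  have hq0 : 0 < q 0 := by linarith
  have hqn := h.qle (i := 0) (by omega) hq0
  have hpa := h.fr.pa (i := 0) (j := 2 * j + 1) (by omega) (by omega)
  have hp0 : p 0 ≤ Rl.card - 1 - k := h.pleK hout (by omega) (by linarith)
  have hpj : p (2 * j + 1) ≤ Rl.card - 1 - k := h.pleK hout (by omega) (by linarith)
  have hcR' := h.cR hC.a1 haQ hbP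
  have hcRB := h.cRB hC.a1 haQ hbP (by omega)
  rw [← hcR] at hcR' hcRB
  have hMz := h.MM_le (up 0) (i := 0) (by omega) hq0 (h.uqp (by omega) (by omega))
  have k3r := h.k3r
  have c1 : 1 ≤ (Rs.card : ℤ) := by
    have := Finset.card_pos.2 hRs
    exact_mod_cast this
  have g1 : 1 ≤ g := by
    have := hd.cg
    omega
  have g1r : (1 : ℝ) ≤ g := by exact_mod_cast g1
  have hnbr : (1 : ℝ) ≤ nb := by exact_mod_cast hnb
  have hSR : S ⊆ vs uq up (rr nQ nP (2 * i + 1) (2 * (j + 1))) := by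
    rw [← hd.un]
    exact Finset.subset_union_right
  rcases hT1 with hT1 | hT1
  · refine hnv (hC.cr _ ?_ hT1)
    rw [← hcR]
    push_cast
    exact le_rfl
  obtain ⟨NB, n1, n2, n3, n4, n5⟩ := h.exists_NB h.k3 hnb
  have hneg : ∀ v ∈ S, im B v < 0 → |((im B v : ℤ) : ℝ)| ≤ Rl.card + 1 - k - θ := by
    intro v hv hv0
    have h1 := h.fr.negR (hSR hv) hv0
    have h2 : p (2 * (j + 1)) = p (2 * j + 2) := by ring_nf
    linarith
  obtain ⟨i1, i2, i3⟩ := h.fr.qgap hi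
  obtain ⟨z0, hSz, hYz, hΓ⟩ := h.poT1 hnv hi (by omega) haQ hbP hpq hSR
    (m := MM B (uq 0) (up 0) + 2)
    (z := (Rl.card : ℝ) - 1 - θ - NB) hT2 hT1 (fun D hD' hC' => hC.crs D (by linarith) hC') hY hnb
    g1 (by linarith) (by linarith) (by linarith) (by linarith) (by linarith) (by linarith)
    (by linarith) (by linarith) (Or.inr (Or.inr (by linarith))) (by linarith) (by
      intro v hv hv0
      rcases le_or_gt nb (k - 2) with h1 | h1
      · left
        have h2 := hneg v hv hv0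
        have h3 : (nb : ℝ) ≤ k - 2 := by exact_mod_cast h1
        rw [n4 h1]
        linarith
      · right
        have h3 := h.k3
        refine ⟨by omega, le_rfl, ?_⟩
        rw [n5 h1]
        linarith) (by linarith) (by linarith)
  rcases lt_or_ge (θ + g) (q (2 * i)) with h2 | h2
  · exact h.poNeHigh hn hnv hpq hout hi (by omega) haQ hbP hd hpick hRs hnb hcard hT2 hq0 h2
      (by linarith) hΓ (Or.inl ⟨n2, fun h3 => (n4 h3).ge⟩) z0 hSz hYz
  · rcases lt_or_ge g 2 with g2 | g2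
    · have hU := h.poPoU hn hout hi (by omega) haQ hbP hd hpick (u := -4) hq0
        (by linarith) (by linarith) hΓ
      have hc2 : (Rs.card : ℤ) ≤ 2 := by
        have := hd.cg
        omega
      have hc2r : (Rs.card : ℝ) ≤ 2 := by exact_mod_cast hc2
      have f1 := h.fr.qT (i := i) hi
      have f2 := h.fr.pT (i := j + 1) (by omega)
      have f3 : p (2 * (j + 1)) = p (2 * j + 2) := by ring_nf
      obtain ⟨p1, p2, p3, p4⟩ := h.fr.pgap (j := j) (by omega)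
      have e1 := AA_succ p j
      exact hU.noc3 (by push_cast; omega) le_rfl (by linarith) (by linarith) (by linarith)
    · have g2r : (2 : ℝ) ≤ g := by exact_mod_cast g2
      exact hnv (h.poA3 hi (by omega) hT2 (m := MM B (uq 0) (up 0) + 2) z0 hSz hYz h2 g2r
        (by linarith) hQ hP (by linarith) (by linarith) (by linarith) (by linarith)
        (by linarith) (by linarith) (by linarith))

end
end Pool.Agent.Exact


end

section

/-!
# No crossing, hubs of both types, an odd number of the first: empty `Rs`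
-/

set_option autoImplicit false
set_option linter.unusedSectionVars false

namespace Pool.Agent.Exact

open Finset

variable {V : Type*} [Fintype V] [DecidableEq V]
variable {B : V → V → ℤ} {Rl : Finset V} {ℓ nQ nP : ℕ} {uq up : ℕ → V} {q p : ℕ → ℝ}
variable {k : ℤ} {θ : ℝ}

lemma BlocksN.gz {N S : Finset V} {g : ℤ} (h : BlocksN B N S g) (hS : S = ∅) : g = 0 := by
  cases h with
  | empty => rfl
  | star S' g' c L _ _ _ _ _ _ _ _ =>
    exfalso
    have : c ∈ S' ∪ insert c L := by simp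
    rw [hS] at this
    simp at this
  | hole S' g' u v w _ _ _ _ _ _ _ _ _ =>
    exfalso
    have : w ∈ insert w (S' ∪ {u, v}) := by simp
    rw [hS] at this
    simp at this

/-- the positive vertices of the rest -/
lemma Frame.posR (h : Frame B Rl ℓ nQ nP uq up q p) {a b : ℕ} {v : V}
    (hv : v ∈ vs uq up (rr nQ nP a b)) (hv0 : 0 ≤ im B v) (ha : a < 2 * ℓ) :
    |((im B v : ℤ) : ℝ)| ≤ q a := by
  have hQ := h.nQle
  have hP := h.nPle
  have hv0' : (0 : ℝ) ≤ ((im B v : ℤ) : ℝ) := by exact_mod_cast hv0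
  have hqa := h.sys.chQ.nn a ha
  unfold vs at hv
  rw [Finset.mem_image] at hv
  obtain ⟨x, hx, rfl⟩ := hv
  rw [abs_of_nonneg hv0']
  rcases x with l | l
  · have hx' : a ≤ l ∧ l < nQ := by
      unfold rr at hx
      simpa only [Finset.mem_union, inl_mem_iq, inl_mem_ip, or_false] using hx
    have h1 : ((im B (vx uq up (Sum.inl l)) : ℤ) : ℝ) = q l := h.sys.wtQ l (by omega)
    rw [h1]
    exact h.sys.chQ.anti a l hx'.1 (by omega)
  · have hx' : b ≤ l ∧ l < nP := by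
      unfold rr at hx
      simpa only [Finset.mem_union, inr_mem_iq, inr_mem_ip, false_or] using hx
    have h1 : ((im B (vx uq up (Sum.inr l)) : ℤ) : ℝ) = - p l := h.sys.wtP l (by omega)
    have := h.sys.chP.nn l (by omega)
    rw [h1]
    linarith

section
variable (h : Ctx B Rl ℓ nQ nP uq up q p k θ)
include h

/-- the end of the path fails only because of the total, empty `Rs` -/
theorem Ctx.tot0 (hnv : ¬ Val B θ) {i j : ℕ} (hi : i < ℓ) (hj : j < ℓ)
    (haQ : 2 * i + 1 ≤ nQ) (hbP : 2 * (j + 1) ≤ nP) {S : Finset V}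
    (hS : S ⊆ vs uq up (rr nQ nP (2 * i + 1) (2 * (j + 1)))) {D1 β : ℝ}
    (hO : OutI B uq up (2 * i + 1) (2 * (j + 1)) S D1 β)
    (hCrS : CrSI B uq up p (2 * i + 1) (2 * (j + 1)) (D1 + 1) → Val B θ)
    (m1 : θ ≤ q (2 * i) + AA q i) (hy : D1 + 1 + q 0 ≤ 2 * θ)
    (hP : D1 + 1 + (p 0 - p (2 * j + 1)) ≤ θ) (hβ : β ≤ θ) :
    2 * θ < D1 + 1 + β + (q 0 - q (2 * i) - AA q i + AA p (j + 1)) := by
  have hl := h.fr.l2
  obtain ⟨q1, q2, q3, q4⟩ := h.fr.qgap hi
  obtain ⟨p1, p2, p3, p4⟩ := h.fr.pgap hj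
  have e1 := AA_succ p j
  have e2 := h.fr.pa (i := 2 * j) (j := 2 * j + 1) (by omega) (by omega)
  by_contra hc
  push Not at hc
  have hst := h.fr.aPure (K := θ - (D1 + 1)) i (j + 1) hi (by omega)
    (fun l hl' => by have := q4 l hl'; linarith) (fun l hl' => by
      rcases Nat.lt_succ_iff_lt_or_eq.1 hl' with h1 | h1
      · have := p3 l h1; linarith
      · subst h1; linarith)
  exact hnv (h.fr.closeOut2 hbP haQ hS hO hCrS hst (by linarith) (by linarith) (by linarith)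
    (by linarith))

/-- the last crossing in the leaf 1a -/
theorem Ctx.crs1a {i j : ℕ} (hi : i < ℓ) (hj : j + 1 < ℓ) (hpq : p 0 ≤ q 0)
    (hD : θ < q (2 * i) - q (2 * i + 1)) (hE : θ - 2 < p (2 * j + 1) - p (2 * j + 2)) {D : ℝ}
    (hp0 : p 0 ≤ Rl.card - 1 - k) (d1 : D + (Rl.card + 1 - k) ≤ 2 * θ)
    (d2 : 2 * D + 1 + 2 * q 0 ≤ 4 * θ)
    (hC : CrSI B uq up p (2 * i + 1) (2 * (j + 1)) D) : Val B θ := by
  have hl := h.fr.l2
  obtain ⟨q1, q2, q3, q4⟩ := h.fr.qgap hi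
  obtain ⟨p1, p2, p3, p4⟩ := h.fr.pgap (j := j) (by omega)
  have e1 := AA_succ p j
  have e2 := h.fr.pa (i := 2 * j) (j := 2 * j + 1) (by omega) (by omega)
  have e3 := h.fr.pa (i := 0) (j := 2 * j + 1) (by omega) (by omega)
  have f1 := h.fr.qn (i := 2 * i + 1) (by omega)
  have f2 := h.fr.pn (i := 2 * j + 2) (by omega)
  have f3 : p (2 * (j + 1)) = p (2 * j + 2) := by ring_nf
  refine h.fr.crsPure (K := θ - D) (D := D) i (j + 1) hi (by omega) (by linarith)
    (by linarith) (fun l hl' => by have := q4 l hl'; linarith) (fun l hl' => by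
      rcases Nat.lt_succ_iff_lt_or_eq.1 hl' with h1 | h1
      · have := p3 l h1; linarith
      · subst h1; linarith) (by linarith) (by linarith) hC

/-- the last crossing in the leaf 1c -/
theorem Ctx.crs1c {i j : ℕ} (hi : i < ℓ) (hj : j + 1 < ℓ) (hpq : p 0 ≤ q 0)
    (hD : θ < q (2 * i) - q (2 * i + 1)) (hE : θ < p (2 * j + 1))
    (hA : AA q ℓ + AA p ℓ < 2 * (q 0 - θ) + 2 * MM B (uq 0) (up 0))
    (hp2 : p (2 * (j + 1)) < q (2 * i) - q (2 * i + 1) - θ + 2) {D : ℝ}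
    (hp0 : p 0 ≤ Rl.card - 1 - k) (d1 : D + (Rl.card - 1 - k) ≤ 2 * θ)
    (d2 : 2 * D + 1 + 2 * q 0 ≤ 4 * θ) (d3 : D + 1 + q 0 ≤ 2 * θ)
    (d4 : 2 * D + 2 * MM B (uq 0) (up 0) + 1 + 3 * q 0 ≤ 6 * θ)
    (hC : CrSI B uq up p (2 * i + 1) (2 * (j + 1)) D) : Val B θ := by
  have hl := h.fr.l2
  obtain ⟨q1, q2, q3, q4⟩ := h.fr.qgap hi
  obtain ⟨p1, p2, p3, p4⟩ := h.fr.pgap (j := j) (by omega)
  have e1 := AA_succ p j
  have e2 := h.fr.pa (i := 2 * j) (j := 2 * j + 1) (by omega) (by omega)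
  have e3 := h.fr.pa (i := 0) (j := 2 * j + 1) (by omega) (by omega)
  have e4 := h.fr.qa (i := 0) (j := 2 * i) (by omega) (by omega)
  have f1 := h.fr.qn (i := 2 * i + 1) (by omega)
  have f2 := h.fr.pn (i := 2 * j + 2) (by omega)
  have f3 : p (2 * (j + 1)) = p (2 * j + 2) := by ring_nf
  have g1 := h.fr.qgA (Nat.zero_le i) (Nat.lt_succ_self i) (by omega)
  have g2 := h.fr.qAm (i := i + 1) (j := ℓ) (by omega) le_rfl
  have g3 := h.fr.pAm (i := j + 1) (j := ℓ) (by omega) le_rfl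
  have g4 := AA_succ q i
  simp only [AA_zero, Nat.succ_eq_add_one] at g1
  refine h.fr.crsPure (K := θ - D) (D := D) i (j + 1) hi (by omega) (by linarith)
    (by linarith) (fun l hl' => by have := q4 l hl'; linarith) (fun l hl' => by
      rcases Nat.lt_succ_iff_lt_or_eq.1 hl' with h1 | h1
      · have := p3 l h1; linarith
      · subst h1; linarith) (by linarith) (by linarith) hC

/-- leaf 1a, independent rest: the item fails -/
theorem Ctx.pe1a (hn : 2 * k - 1 ≤ (Rl.card : ℤ)) (hnv : ¬ Val B θ) (hpq : p 0 ≤ q 0)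
    {i j : ℕ} (hi : i < ℓ) (hj : j + 1 < ℓ)
    (hD : θ < q (2 * i) - q (2 * i + 1)) (hE : θ - 2 < p (2 * j + 1) - p (2 * j + 2))
    (hC : Closed B nQ nP uq up q p θ (2 * i + 1) (2 * (j + 1)))
    (hp0 : p 0 ≤ Rl.card - 1 - k)
    (hμ : 1 < Rl.card + 1 - k - θ → Rl.card - 2 ≤ q 0 → 3 ≤ 2 * θ - Rl.card + 1)
    {S : Finset V} (hSR : S ⊆ vs uq up (rr nQ nP (2 * i + 1) (2 * (j + 1)))) {g Y : ℤ}
    (hg : 0 ≤ g) (hY : Y = 0)
    (hT2 : T2I B uq up (2 * i + 1) (2 * (j + 1)) S g Y) {c : ℤ} (c0 : 0 ≤ c) (c1 : c ≤ 1)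
    (hc : (c : ℝ) ≤ cRr B nQ nP uq up (2 * i + 1) (2 * (j + 1))) {Γ : ℝ}
    (hT1 : CrI B uq up q p (2 * i + 1) (2 * (j + 1)) (c : ℝ) ∨
      OutI B uq up (2 * i + 1) (2 * (j + 1)) S (c : ℝ) (q 0 - Γ)) : Γ < q 0 - θ := by
  have hl := h.fr.l2
  have hθ3 := h.θ3 hn
  have hlam := h.lam2 hn
  have k3r := h.k3r
  have haQ := hC.aQ
  have hbP := hC.bP
  have hcR' := h.cR hC.a1 haQ hbP
  have c0r : (0 : ℝ) ≤ c := by exact_mod_cast c0
  have c1r : (c : ℝ) ≤ 1 := by exact_mod_cast c1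
  have g0r : (0 : ℝ) ≤ g := by exact_mod_cast hg
  have hY0 : (Y : ℝ) = 0 := by exact_mod_cast hY
  obtain ⟨q1, q2, q3, q4⟩ := h.fr.qgap hi
  obtain ⟨p1, p2, p3, p4⟩ := h.fr.pgap (j := j) (by omega)
  have e1 := AA_succ p j
  have e2 := h.fr.pa (i := 2 * j) (j := 2 * j + 1) (by omega) (by omega)
  have e3 := h.fr.pa (i := 0) (j := 2 * j + 1) (by omega) (by omega)
  have f1 := h.fr.qn (i := 2 * i + 1) (by omega)
  have f2 := h.fr.pn (i := 2 * j + 2) (by omega)
  have f3 : p (2 * (j + 1)) = p (2 * j + 2) := by ring_nf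
  have f4 := h.fr.qa (i := 0) (j := 2 * i) (by omega) (by omega)
  have hq0 : 0 < q 0 := by linarith
  have hqn := h.qle (i := 0) (by omega) hq0
  obtain ⟨ζ, hζ0, hζ⟩ := h.zeta (i := 0) (by omega) hq0
  have hζc : ζ ≤ 1 ∨ q 0 ≤ Rl.card - 3 := by
    rcases (show ζ ≤ 1 ∨ 2 ≤ ζ by omega) with h1 | h1
    · exact Or.inl h1
    · right
      have : (2 : ℝ) ≤ ζ := by exact_mod_cast h1
      linarith
  rcases hT1 with hT1 | hT1
  · refine absurd ((h.fr.leaf1a (y := q 0 - θ) (ζ := Rl.card - 1 - q 0)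
      (lam := 2 * θ - Rl.card + 1) (by ring) hpq (by ring) (by linarith) hi hj hD hE
      (D := c) (by linarith)).1 hT1) hnv
  by_contra hΓ
  push Not at hΓ
  have hT := h.tot0 hnv hi (by omega) haQ hbP hSR hT1
    (fun hC' => h.crs1a hi hj hpq hD hE hp0 (by linarith) (by
      rcases hζc with h1 | h1
      · have h2 : (c : ℝ) + q 0 ≤ Rl.card - 1 := by linarith
        linarith
      · linarith) hC') (by linarith) (by linarith) (by linarith) (by linarith)
  have hT' : θ < c + 1 + (q 0 - q (2 * i) - AA q i + AA p (j + 1)) := by linarith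
  have hK1 : 1 < Rl.card + 1 - k - θ := by linarith
  have hμ' : (Rl.card : ℝ) + 2 ≤ 2 * θ ∨ q 0 ≤ Rl.card - 3 := by
    rcases hζc with h1 | h1
    · left
      have h1r : (ζ : ℝ) ≤ 1 := by exact_mod_cast h1
      have := hμ hK1 (by linarith)
      linarith
    · exact Or.inr h1
  have hb : ∀ v ∈ S, |((im B v : ℤ) : ℝ)| ≤ max (q 0 - θ) (Rl.card + 1 - k - θ) := by
    intro v hv
    rcases lt_or_ge (im B v) 0 with hv0 | hv0
    · have h1 := h.fr.negR (hSR hv) hv0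
      exact le_trans (by linarith) (le_max_right _ _)
    · have h1 := h.fr.posR (hSR hv) hv0 (by omega)
      exact le_trans (by linarith) (le_max_left _ _)
  refine h.poW hnv hi (by omega) hT2 (z := max (q 0 - θ) (Rl.card + 1 - k - θ)) (D1 := c)
    (le_trans (by linarith) (le_max_left _ _)) hb
    (by rw [hY0]; exact le_trans (by linarith) (le_max_left _ _)) hT' (by linarith)
    (by linarith) (by linarith) ?_ ?_ ?_
  · rcases hμ' with h1 | h1 <;> linarith
  · rw [← max_add_add_right]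
    refine max_le ?_ ?_ <;> linarith
  · rw [← max_add_add_right, ← max_add_add_right, ← max_add_add_right]
    refine max_le ?_ ?_
    · rcases hμ' with h1 | h1 <;> linarith
    · linarith

/-- leaf 1c, independent rest: the item fails -/
theorem Ctx.pe1c (hn : 2 * k - 1 ≤ (Rl.card : ℤ)) (hnv : ¬ Val B θ) (hpq : p 0 ≤ q 0)
    {i j : ℕ} (hi : i < ℓ) (hj : j + 1 < ℓ)
    (hD : θ < q (2 * i) - q (2 * i + 1)) (hE : θ < p (2 * j + 1))
    (hh : ∀ l < j + 1, θ < p (2 * l + 1))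
    (hA : AA q ℓ + AA p ℓ < 2 * (q 0 - θ) + 2 * MM B (uq 0) (up 0))
    (hp2 : p (2 * (j + 1)) < q (2 * i) - q (2 * i + 1) - θ + 2)
    (hC : Closed B nQ nP uq up q p θ (2 * i + 1) (2 * (j + 1)))
    (hp0 : p 0 ≤ Rl.card - 1 - k)
    (hμ : 1 < Rl.card + 1 - k - θ → Rl.card - 2 ≤ q 0 → 3 ≤ 2 * θ - Rl.card + 1)
    {S : Finset V} (hSR : S ⊆ vs uq up (rr nQ nP (2 * i + 1) (2 * (j + 1))))
    (hneg : ∀ v ∈ S, im B v < 0 → |((im B v : ℤ) : ℝ)| ≤ Rl.card - 1 - θ) {g Y : ℤ}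
    (hg : 0 ≤ g) (hY : Y = 0)
    (hT2 : T2I B uq up (2 * i + 1) (2 * (j + 1)) S g Y) {c : ℤ} (c0 : 0 ≤ c) (c1 : c ≤ 1)
    (hc : (c : ℝ) ≤ cRr B nQ nP uq up (2 * i + 1) (2 * (j + 1))) {Γ : ℝ}
    (hT1 : CrI B uq up q p (2 * i + 1) (2 * (j + 1)) (c : ℝ) ∨
      OutI B uq up (2 * i + 1) (2 * (j + 1)) S (c : ℝ) (q 0 - Γ)) : Γ < q 0 - θ := by
  have hl := h.fr.l2
  have hθ3 := h.θ3 hn
  have hlam := h.lam2 hn
  have k3r := h.k3r
  have haQ := hC.aQ
  have hbP := hC.bP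
  have hM2 := h.MM2 (uq 0) (up 0)
  have hcR' := h.cR hC.a1 haQ hbP
  have hcRB := h.cRB hC.a1 haQ hbP (by omega)
  have c0r : (0 : ℝ) ≤ c := by exact_mod_cast c0
  have c1r : (c : ℝ) ≤ 1 := by exact_mod_cast c1
  have g0r : (0 : ℝ) ≤ g := by exact_mod_cast hg
  have hY0 : (Y : ℝ) = 0 := by exact_mod_cast hY
  obtain ⟨q1, q2, q3, q4⟩ := h.fr.qgap hi
  obtain ⟨p1, p2, p3, p4⟩ := h.fr.pgap (j := j) (by omega)
  have e1 := AA_succ p j
  have e2 := h.fr.pa (i := 2 * j) (j := 2 * j + 1) (by omega) (by omega)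
  have e3 := h.fr.pa (i := 0) (j := 2 * j + 1) (by omega) (by omega)
  have f1 := h.fr.qn (i := 2 * i + 1) (by omega)
  have f4 := h.fr.qa (i := 0) (j := 2 * i) (by omega) (by omega)
  have hq0 : 0 < q 0 := by linarith
  have hqn := h.qle (i := 0) (by omega) hq0
  obtain ⟨ζ, hζ0, hζ⟩ := h.zeta (i := 0) (by omega) hq0
  have hζc : ζ ≤ 1 ∨ q 0 ≤ Rl.card - 3 := by
    rcases (show ζ ≤ 1 ∨ 2 ≤ ζ by omega) with h1 | h1
    · exact Or.inl h1
    · right
      have : (2 : ℝ) ≤ ζ := by exact_mod_cast h1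
      linarith
  rcases hT1 with hT1 | hT1
  · refine absurd ((h.fr.leaf1c (y := q 0 - θ) (ζ := Rl.card - 1 - q 0)
      (lam := 2 * θ - Rl.card + 1) (by ring) hpq (by ring) (by linarith) hi hj hD hA hh hp2
      (D := c) (by linarith) (by linarith)).1 hT1) hnv
  by_contra hΓ
  push Not at hΓ
  have hT := h.tot0 hnv hi (by omega) haQ hbP hSR hT1
    (fun hC' => h.crs1c hi hj hpq hD hE hA hp2 hp0 (by linarith) (by
      rcases hζc with h1 | h1
      · have h2 : (c : ℝ) + q 0 ≤ Rl.card - 1 := by linarith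
        linarith
      · linarith) (by linarith) (by linarith) hC') (by linarith) (by linarith) (by linarith)
      (by linarith)
  have hT' : θ < c + 1 + (q 0 - q (2 * i) - AA q i + AA p (j + 1)) := by linarith
  have hK1 : 1 < Rl.card + 1 - k - θ := by linarith
  have hμ' : (Rl.card : ℝ) + 2 ≤ 2 * θ ∨ q 0 ≤ Rl.card - 3 := by
    rcases hζc with h1 | h1
    · left
      have h1r : (ζ : ℝ) ≤ 1 := by exact_mod_cast h1
      have := hμ hK1 (by linarith)
      linarith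
    · exact Or.inr h1
  have hb : ∀ v ∈ S, |((im B v : ℤ) : ℝ)| ≤ Rl.card - 1 - θ := by
    intro v hv
    rcases lt_or_ge (im B v) 0 with hv0 | hv0
    · exact hneg v hv hv0
    · have h1 := h.fr.posR (hSR hv) hv0 (by omega)
      linarith
  refine h.poW hnv hi (by omega) hT2 (z := Rl.card - 1 - θ) (D1 := c)
    (by linarith) hb (by rw [hY0]; linarith) hT' (by linarith)
    (by linarith) (by linarith) ?_ (by linarith) ?_
  · rcases hμ' with h1 | h1 <;> linarith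
  · rcases hμ' with h1 | h1 <;> linarith

/-- leaf 3b, independent rest: the item fails -/
theorem Ctx.pe3b (hn : 2 * k - 1 ≤ (Rl.card : ℤ)) (hnv : ¬ Val B θ) (hpq : p 0 ≤ q 0)
    {i j : ℕ} (hi : i < ℓ) (hj : j + 1 < ℓ)
    (hlam : 3 < 2 * θ - (Rl.card : ℝ) + 1)
    (hz : q 0 + MM B (uq 0) (up 0) + 2 ≤ 2 * θ)
    (hA : 2 * θ < AA q ℓ + AA p ℓ)
    (hE : θ - MM B (uq 0) (up 0) < p (2 * j + 1) - p (2 * j + 2))
    (h1 : θ - (MM B (uq 0) (up 0) + 2) < q (2 * i))
    (h2 : q (2 * i + 1) ≤ θ - (MM B (uq 0) (up 0) + 2))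
    (h3 : q (2 * i + 1) < p (2 * j + 1) - p (2 * j + 2) - θ + (MM B (uq 0) (up 0) + 2))
    (hC : Closed B nQ nP uq up q p θ (2 * i + 1) (2 * (j + 1)))
    (hp0 : p 0 ≤ Rl.card - 1 - k)
    {S : Finset V} (hSR : S ⊆ vs uq up (rr nQ nP (2 * i + 1) (2 * (j + 1)))) {g Y : ℤ}
    (hg : 0 ≤ g) (hY : Y = 0)
    (hT2 : T2I B uq up (2 * i + 1) (2 * (j + 1)) S g Y) {c : ℤ} (c0 : 0 ≤ c) (c1 : c ≤ 1)
    (hc : (c : ℝ) ≤ cRr B nQ nP uq up (2 * i + 1) (2 * (j + 1))) {Γ : ℝ}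
    (hT1 : CrI B uq up q p (2 * i + 1) (2 * (j + 1)) (c : ℝ) ∨
      OutI B uq up (2 * i + 1) (2 * (j + 1)) S (c : ℝ) (q 0 - Γ)) : Γ < q 0 - θ := by
  have hl := h.fr.l2
  have hθ3 := h.θ3 hn
  have k3r := h.k3r
  have haQ := hC.aQ
  have hbP := hC.bP
  have hqθ := h.top hnv hpq
  have hM2 := h.MM2 (uq 0) (up 0)
  have hM0 := h.MM0 (uq 0) (up 0)
  have hcR' := h.cR hC.a1 haQ hbP
  have hcRB := h.cRB hC.a1 haQ hbP (by omega)
  have c0r : (0 : ℝ) ≤ c := by exact_mod_cast c0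
  have c1r : (c : ℝ) ≤ 1 := by exact_mod_cast c1
  have g0r : (0 : ℝ) ≤ g := by exact_mod_cast hg
  have hY0 : (Y : ℝ) = 0 := by exact_mod_cast hY
  obtain ⟨q1, q2, q3, q4⟩ := h.fr.qgap hi
  obtain ⟨p1, p2, p3, p4⟩ := h.fr.pgap (j := j) (by omega)
  have e1 := AA_succ p j
  have e2 := h.fr.pa (i := 2 * j) (j := 2 * j + 1) (by omega) (by omega)
  have e3 := h.fr.pa (i := 0) (j := 2 * j + 1) (by omega) (by omega)
  have f1 := h.fr.qn (i := 2 * i + 1) (by omega)
  have f2 := h.fr.pn (i := 2 * j + 2) (by omega)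
  have f3 : p (2 * (j + 1)) = p (2 * j + 2) := by ring_nf
  have f4 := h.fr.qa (i := 0) (j := 2 * i) (by omega) (by omega)
  have f5 := h.fr.qT (i := i) hi
  have f6 := h.fr.pT (i := j + 1) (by omega)
  have hq0 : 0 < q 0 := by linarith
  have hqn := h.qle (i := 0) (by omega) hq0
  have hMz := h.MM_le (up 0) (i := 0) (by omega) hq0 (h.uqp (by omega) (by omega))
  have key := fun (D : ℝ) (hD' : D + 2 ≤ ((Rl.card : ℝ) - 1 - q 0) + (2 * θ - Rl.card + 1)) =>
    h.fr.leaf3b (y := q 0 - θ) (ζ := Rl.card - 1 - q 0) (lam := 2 * θ - Rl.card + 1)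
      (by ring) hpq (by ring) (by linarith) hi hj hM2 hE hA h3 hD' (by linarith) (by linarith)
  rcases hT1 with hT1 | hT1
  · exact absurd ((key c (by linarith)).1 hT1) hnv
  by_contra hΓ
  push Not at hΓ
  have hT := h.tot0 hnv hi (by omega) haQ hbP hSR hT1
    (fun hC' => (key (c + 1) (by linarith)).2 hC') (by linarith) (by linarith) (by linarith)
    (by linarith)
  have hT' : θ < c + 1 + (q 0 - q (2 * i) - AA q i + AA p (j + 1)) := by linarith
  have hb : ∀ v ∈ S, |((im B v : ℤ) : ℝ)| ≤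
      max (θ - (MM B (uq 0) (up 0) + 2)) (Rl.card - 1 - k - θ + MM B (uq 0) (up 0)) := by
    intro v hv
    rcases lt_or_ge (im B v) 0 with hv0 | hv0
    · have h1 := h.fr.negR (hSR hv) hv0
      exact le_trans (by linarith) (le_max_right _ _)
    · have h1 := h.fr.posR (hSR hv) hv0 (by omega)
      exact le_trans (by linarith) (le_max_left _ _)
  refine h.poW hnv hi (by omega) hT2
    (z := max (θ - (MM B (uq 0) (up 0) + 2)) (Rl.card - 1 - k - θ + MM B (uq 0) (up 0)))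
    (D1 := c) (le_trans f1 (h2.trans (le_max_left _ _))) hb
    (by rw [hY0]; exact le_trans f1 (h2.trans (le_max_left _ _))) hT' (by linarith)
    (by linarith) (by linarith) (by linarith) ?_ ?_
  · rw [← max_add_add_right]
    refine max_le ?_ ?_ <;> linarith
  · rw [← max_add_add_right, ← max_add_add_right, ← max_add_add_right]
    refine max_le ?_ ?_ <;> linarith

end
end Pool.Agent.Exact


end
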