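import Mathlib
import Pool.Agent.EXAM.C12

/-! Parts: Lib_helper68.Exact.PoAll -/

section

/-!
# Hubs of both types, an odd number of the first, minimum outdegree at least `k`:
the leaves 1a, 1c, 3b
-/

set_option autoImplicit false
set_option linter.unusedSectionVars false

namespace Pool.Agent.Exact

open Finset

variable {V : Type*} [Fintype V] [DecidableEq V]
variable {B : V → V → ℤ} {Rl : Finset V} {ℓ nQ nP : ℕ} {uq up : ℕ → V} {q p : ℕ → ℝ}
variable {k : ℤ} {θ : ℝ}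
variable {Rs S : Finset V} {g : ℤ} {Kc : V → Finset V} {pick : Finset V → V}

/-- the small leftover charge -/
lemma exists_c {a : V → ℤ} {R : Finset V} : ∃ c : ℤ, 0 ≤ c ∧ c ≤ 1 ∧ c ≤ ch a R ∧
    ∀ v ∈ R, a v = 2 → 1 ≤ c := by
  refine ⟨min (ch a R) 1, le_min (ch_nonneg _) (by norm_num), min_le_right _ _,
    min_le_left _ _, ?_⟩
  intro v hv h2
  refine le_min ?_ le_rfl
  have h3 : ch a {v} ≤ ch a R := ch_mono (Finset.singleton_subset_iff.2 hv)
  refine le_trans ?_ h3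
  unfold ch
  rw [Finset.sum_singleton, h2]
  norm_num

section
variable (h : Ctx B Rl ℓ nQ nP uq up q p k θ)
include h

/-- the number of hubs, minimum outdegree at least `k` -/
lemma Ctx.TQo (hout : ∀ v ∈ Rl, k ≤ ∑ u, B v u) {a b : ℕ} (ha : a ≤ nQ) (hb : b ≤ nP)
    (hd : Dec B pick (vs uq up (rr nQ nP a b)) Rs S g Kc) :
    ∑ l ∈ range a, q l + ∑ l ∈ range b, p l + k * b - a * b ≤ (2 * k - 1) * θ := by
  classical
  have B0 := h.fr.sys.B0
  have B1 := h.fr.sys.B1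
  have dum := h.fr.sys.dummy
  have par := h.fr.par ha hb hd
  set O : Finset V := vs uq up (iq 0 a) with hO
  set I : Finset V := vs uq up (ip 0 b) with hI
  have cO : (O.card : ℤ) = a := by rw [hO, h.fr.card_hub ha]
  have cI : (I.card : ℤ) = b := by rw [hI, h.fr.card_hubP hb]
  have sO : (((∑ v ∈ O, im B v : ℤ)) : ℝ) = ∑ j ∈ range a, q j := h.fr.sum_hub ha
  have sI : (((∑ v ∈ I, im B v : ℤ)) : ℝ) = - ∑ j ∈ range b, p j := h.fr.sum_hubP hb
  have tot := par.total (B := B) dum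
  have c_I := par.col (B := B) I
  have oI := ar_out dum hout par.sI
  have iO := im_sum_ar dum O
  have iI := im_sum_ar dum I
  have lOI := ar_le B1 O I
  have n1 := ar_monoR B0 par.sI I
  have n2 := ar_monoR B0 par.sI Rs
  have n3 := ar_monoR B0 par.sI S
  have n4 := ar_nn B0 Rl O
  rw [cO, cI] at lOI
  rw [cI] at oI
  have key : ∑ v ∈ O, im B v - ∑ v ∈ I, im B v + k * b - a * b ≤ mm B := by linarith
  have keyr : ((∑ v ∈ O, im B v : ℤ) : ℝ) - ((∑ v ∈ I, im B v : ℤ) : ℝ) + k * b - a * b ≤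
      mm B := by exact_mod_cast key
  rw [sO, sI, ← h.hm] at keyr
  linarith

/-- a negative vertex of an independent rest, minimum outdegree at least `k` -/
lemma Ctx.negE (hout : ∀ v ∈ Rl, k ≤ ∑ u, B v u) {a b : ℕ} (ha : a ≤ nQ) (hb : b ≤ nP)
    (hd : Dec B pick (vs uq up (rr nQ nP a b)) Rs S g Kc) (hRs : Rs = ∅) {v : V} (hv : v ∈ S) :
    - im B v ≤ a + b - k := by
  classical
  have B0 := h.fr.sys.B0
  have B1 := h.fr.sys.B1
  have dum := h.fr.sys.dummy
  have par := h.fr.par ha hb hd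
  set O : Finset V := vs uq up (iq 0 a) with hO
  set I : Finset V := vs uq up (ip 0 b) with hI
  have cO : (O.card : ℤ) = a := by rw [hO, h.fr.card_hub ha]
  have cI : (I.card : ℤ) = b := by rw [hI, h.fr.card_hubP hb]
  have hvS : ({v} : Finset V) ⊆ S := Finset.singleton_subset_iff.2 hv
  have hvR : ({v} : Finset V) ⊆ Rl := hvS.trans par.sS
  have c1 := par.col (B := B) {v}
  have c2 : ar B Rs {v} = 0 := by rw [hRs]; unfold ar; simp
  have c3 : ar B S {v} ≤ 0 := by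
    have := ar_monoR B0 hvS S
    rw [hd.SS B0] at this
    exact this
  have l1 := ar_le B1 O {v}
  have l2 := ar_le B1 I {v}
  have o1 := ar_out dum hout hvR
  have i1 := im_sum_ar dum {v}
  rw [Finset.sum_singleton] at i1
  rw [cO, Finset.card_singleton] at l1
  rw [cI, Finset.card_singleton] at l2
  rw [Finset.card_singleton] at o1
  push_cast at l1 l2 o1
  linarith

/-- `2θ - n` is large -/
lemma Ctx.pemu (hn : 2 * k - 1 ≤ (Rl.card : ℤ)) (hout : ∀ v ∈ Rl, k ≤ ∑ u, B v u)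
    {i j : ℕ} (hi : i < ℓ) (haQ : 2 * i + 1 ≤ nQ) (hbP : 2 * (j + 1) ≤ nP)
    (hd : Dec B pick (vs uq up (rr nQ nP (2 * i + 1) (2 * (j + 1)))) Rs S g Kc)
    (hpick : ∀ K : Finset V, K.Nonempty → pick K ∈ K ∧ ∀ u ∈ K, indg B K (pick K) ≤ indg B K u)
    (hu : θ < q (2 * i)) (hK : 1 < Rl.card + 1 - k - θ) (hq : Rl.card - 2 ≤ q 0) :
    3 ≤ 2 * θ - Rl.card + 1 := by
  obtain ⟨d1, d2⟩ := h.poDy hn hout hi haQ hbP hd hpick hu (by linarith)
  have k3r := h.k3r
  by_contra hc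
  push Not at hc
  have h1 : ((k : ℝ) - 2) * (2 * θ - Rl.card - 1) ≤ (k - 2) * 1 :=
    mul_le_mul_of_nonneg_left (by linarith) (by linarith)
  linarith

end

section
variable (h : Ctx B Rl ℓ nQ nP uq up q p k θ)
include h

/-- **Leaf 1a**, minimum outdegree at least `k`. -/
theorem Ctx.po1a (hn : 2 * k - 1 ≤ (Rl.card : ℤ)) (hnv : ¬ Val B θ) (hpq : p 0 ≤ q 0)
    (hout : ∀ v ∈ Rl, k ≤ ∑ u, B v u) {i j : ℕ} (hi : i < ℓ) (hj : j + 1 < ℓ)
    (hD : θ < q (2 * i) - q (2 * i + 1)) (hE : θ - 2 < p (2 * j + 1) - p (2 * j + 2))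
    (hC : Closed B nQ nP uq up q p θ (2 * i + 1) (2 * (j + 1))) : False := by
  have hl := h.fr.l2
  have hθ3 := h.θ3 hn
  have haQ := hC.aQ
  have hbP := hC.bP
  have f1 := h.fr.qn (i := 2 * i + 1) (by omega)
  have f2 := h.fr.pn (i := 2 * j + 2) (by omega)
  have f4 := h.fr.qa (i := 0) (j := 2 * i) (by omega) (by omega)
  have e3 := h.fr.pa (i := 0) (j := 2 * j + 1) (by omega) (by omega)
  have hq0 : 0 < q 0 := by linarith
  have hp0 : p 0 ≤ Rl.card - 1 - k := h.pleK hout (by omega) (by linarith)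
  have : Nonempty V := ⟨uq 0⟩
  obtain ⟨pick, hpick⟩ := exists_pick B
  obtain ⟨Rs, S, g, Kc, hd, hcut⟩ := h.fr.cut hC.a1 haQ hbP hq0 pick
    (fun K hK => (hpick K hK).1)
  rcases Rs.eq_empty_or_nonempty with hRs | hRs
  · obtain ⟨Y, nb, hY, -, -, -, -, hT2, -, -⟩ := hcut _ 0 le_rfl (by norm_num) (fun _ => le_rfl)
    have hS : S = vs uq up (rr nQ nP (2 * i + 1) (2 * (j + 1))) := by
      rw [← hd.un, hRs, Finset.empty_union]
    have hind := hd.ind
    rw [hS] at hind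
    obtain ⟨c, c0, c1, c2, c3⟩ := exists_c (a := MM B (uq 0))
      (R := vs uq up (rr nQ nP (2 * i + 1) (2 * (j + 1))))
    have hT1 := h.fr.cut0 hC.a1 haQ hbP hq0 hind c0 c3
    rw [← hS] at hT1
    have key := h.pe1a hn hnv hpq hi hj hD hE hC hp0
      (fun h1 h2 => h.pemu hn hout hi haQ hbP hd hpick (by linarith) h1 h2) hS.le hd.g0
      (hY.2 hRs) hT2 c0 c1 (by unfold cRr; exact_mod_cast c2) hT1
    have hg : g = 0 := hd.bl.gz hRs
    have hU := h.poPoU hn hout hi (by omega) haQ hbP hd hpick (u := 0) hq0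
      (by linarith) (by linarith) (by rw [hg]; push_cast; linarith)
    have hU' := hU.toPo (by rw [hRs]; simp)
    have h1 := hU'.C1 (by push_cast; omega)
    have h2 := hU'.w0
    rw [hRs] at h1
    simp only [Finset.card_empty, Nat.cast_zero, zero_div, mul_zero] at h1
    linarith
  · obtain ⟨Y, nb, hY, -, -, hnb, hcard, hT2, -, hT1⟩ := hcut _ 1 le_rfl le_rfl
      (fun h1 => absurd h1 (Finset.nonempty_iff_ne_empty.1 hRs))
    exact h.po1aNe hn hnv hpq hout hi hj hD hE hC hd hpick hRs hY.1 (hnb hRs) hcard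
      (cR := ch (MM B (uq 0)) (vs uq up (rr nQ nP (2 * i + 1) (2 * (j + 1))))) rfl hT2 hT1

/-- **Leaf 1c**, minimum outdegree at least `k`. -/
theorem Ctx.po1c (hn : 2 * k - 1 ≤ (Rl.card : ℤ)) (hnv : ¬ Val B θ) (hpq : p 0 ≤ q 0)
    (hout : ∀ v ∈ Rl, k ≤ ∑ u, B v u) {i r : ℕ} (hi : i < ℓ) (hr : r < ℓ)
    (hp : q 0 - θ + 2 ≤ p 0)
    (hD : θ < q (2 * i) - q (2 * i + 1))
    (hA : AA q ℓ + AA p ℓ < 2 * (q 0 - θ) + 2 * MM B (uq 0) (up 0))
    (hh : ∀ l < r, θ < p (2 * l + 1))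
    (hp2 : p (2 * r) < q (2 * i) - q (2 * i + 1) - θ + 2)
    (hC : Closed B nQ nP uq up q p θ (2 * i + 1) (2 * r)) : False := by
  have hl := h.fr.l2
  have hθ3 := h.θ3 hn
  have haQ := hC.aQ
  have hbP := hC.bP
  have f1 := h.fr.qn (i := 2 * i + 1) (by omega)
  have f4 := h.fr.qa (i := 0) (j := 2 * i) (by omega) (by omega)
  rcases Nat.eq_zero_or_pos r with hr0 | hr0
  · subst hr0
    rw [Nat.mul_zero] at hp2
    linarith
  obtain ⟨j, rfl⟩ : ∃ j, r = j + 1 := ⟨r - 1, by omega⟩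
  have hE : θ < p (2 * j + 1) := hh j (by omega)
  have e3 := h.fr.pa (i := 0) (j := 2 * j + 1) (by omega) (by omega)
  have hq0 : 0 < q 0 := by linarith
  have hqn := h.qle (i := 0) (by omega) hq0
  have hp0 : p 0 ≤ Rl.card - 1 - k := h.pleK hout (by omega) (by linarith)
  have : Nonempty V := ⟨uq 0⟩
  obtain ⟨pick, hpick⟩ := exists_pick B
  obtain ⟨Rs, S, g, Kc, hd, hcut⟩ := h.fr.cut hC.a1 haQ hbP hq0 pick
    (fun K hK => (hpick K hK).1)
  rcases Rs.eq_empty_or_nonempty with hRs | hRs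
  · obtain ⟨Y, nb, hY, -, -, -, -, hT2, -, -⟩ := hcut _ 0 le_rfl (by norm_num) (fun _ => le_rfl)
    have hS : S = vs uq up (rr nQ nP (2 * i + 1) (2 * (j + 1))) := by
      rw [← hd.un, hRs, Finset.empty_union]
    have hind := hd.ind
    rw [hS] at hind
    obtain ⟨c, c0, c1, c2, c3⟩ := exists_c (a := MM B (uq 0))
      (R := vs uq up (rr nQ nP (2 * i + 1) (2 * (j + 1))))
    have hT1 := h.fr.cut0 hC.a1 haQ hbP hq0 hind c0 c3
    rw [← hS] at hT1
    -- the number of hubs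
    have hneg : ∀ v ∈ S, im B v < 0 → |((im B v : ℤ) : ℝ)| ≤ Rl.card - 1 - θ := by
      intro v hv hv0
      have hv0' : ((im B v : ℤ) : ℝ) < 0 := by exact_mod_cast hv0
      have h1 := h.TQo hout haQ hbP hd
      obtain ⟨d1, d2⟩ := h.poDy hn hout hi haQ hbP hd hpick (by linarith) (by linarith)
      have h2 : ∑ _l ∈ range (2 * i + 1), θ ≤ ∑ l ∈ range (2 * i + 1), q l :=
        Finset.sum_le_sum fun l hl' => by
          have := h.fr.qa (i := l) (j := 2 * i) (by have := Finset.mem_range.1 hl'; omega)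
            (by omega)
          linarith
      have h3 : ∑ _l ∈ range (2 * (j + 1)), θ < ∑ l ∈ range (2 * (j + 1)), p l :=
        Finset.sum_lt_sum_of_nonempty ⟨0, Finset.mem_range.2 (by omega)⟩ fun l hl' => by
          have := h.fr.pa (i := l) (j := 2 * j + 1) (by have := Finset.mem_range.1 hl'; omega)
            (by omega)
          linarith
      rw [Finset.sum_const, nsmul_eq_mul, Finset.card_range] at h2 h3
      have h4 : ((2 * i + 1 : ℕ) : ℝ) ≤ k - 2 := by exact_mod_cast d1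
      have h5 : (0 : ℝ) ≤ ((2 * (j + 1) : ℕ) : ℝ) := Nat.cast_nonneg _
      have h6 : 0 ≤ ((k : ℝ) - ((2 * i + 1 : ℕ) : ℝ)) * ((2 * (j + 1) : ℕ) : ℝ) :=
        mul_nonneg (by linarith) h5
      have h7 : (((2 * i + 1 : ℕ) : ℝ) + ((2 * (j + 1) : ℕ) : ℝ)) * θ < (2 * k - 1) * θ := by
        linarith
      have h8 : ((2 * i + 1 : ℕ) : ℝ) + ((2 * (j + 1) : ℕ) : ℝ) < 2 * k - 1 :=
        lt_of_mul_lt_mul_right h7 (by linarith)
      have h9 : ((2 * i + 1 : ℕ) : ℤ) + ((2 * (j + 1) : ℕ) : ℤ) ≤ 2 * k - 2 := by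
        have : ((2 * i + 1 : ℕ) : ℤ) + ((2 * (j + 1) : ℕ) : ℤ) < 2 * k - 1 := by
          exact_mod_cast h8
        omega
      have h10 := h.negE hout haQ hbP hd hRs hv
      have h11 : - im B v ≤ k - 2 := by linarith
      have h12 : - ((im B v : ℤ) : ℝ) ≤ k - 2 := by exact_mod_cast h11
      rw [abs_of_neg hv0']
      linarith
    have key := h.pe1c hn hnv hpq hi hr hD hE hh hA hp2 hC hp0
      (fun h1 h2 => h.pemu hn hout hi haQ hbP hd hpick (by linarith) h1 h2) hS.le hneg hd.g0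
      (hY.2 hRs) hT2 c0 c1 (by unfold cRr; exact_mod_cast c2) hT1
    have hg : g = 0 := hd.bl.gz hRs
    have hU := h.poPoU hn hout hi (by omega) haQ hbP hd hpick (u := 0) hq0
      (by linarith) (by linarith) (by rw [hg]; push_cast; linarith)
    have hU' := hU.toPo (by rw [hRs]; simp)
    have h1 := hU'.C1 (by push_cast; omega)
    have h2 := hU'.w0
    rw [hRs] at h1
    simp only [Finset.card_empty, Nat.cast_zero, zero_div, mul_zero] at h1
    linarith
  · obtain ⟨Y, nb, hY, -, -, hnb, hcard, hT2, -, hT1⟩ := hcut _ 1 le_rfl le_rfl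
      (fun h1 => absurd h1 (Finset.nonempty_iff_ne_empty.1 hRs))
    exact h.po1cNe hn hnv hpq hout hi hr hD hE hp2 hC hd hpick hRs hY.1 (hnb hRs) hcard
      (cR := ch (MM B (uq 0)) (vs uq up (rr nQ nP (2 * i + 1) (2 * (j + 1))))) rfl hT2 hT1

/-- **Leaf 3b**, minimum outdegree at least `k`. -/
theorem Ctx.po3b (hn : 2 * k - 1 ≤ (Rl.card : ℤ)) (hnv : ¬ Val B θ) (hpq : p 0 ≤ q 0)
    (hout : ∀ v ∈ Rl, k ≤ ∑ u, B v u) {j i : ℕ} (hj : j + 1 < ℓ) (hi : i < ℓ)
    (hlam : 3 < 2 * θ - (Rl.card : ℝ) + 1)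
    (hz : q 0 + MM B (uq 0) (up 0) + 2 ≤ 2 * θ)
    (hQ : ∀ l < ℓ, q (2 * l) - q (2 * l + 1) ≤ θ)
    (hP : ∀ l < ℓ, p (2 * l) - p (2 * l + 1) ≤ θ)
    (hA : 2 * θ < AA q ℓ + AA p ℓ)
    (hE : θ - MM B (uq 0) (up 0) < p (2 * j + 1) - p (2 * j + 2))
    (h1 : θ - (MM B (uq 0) (up 0) + 2) < q (2 * i))
    (h2 : q (2 * i + 1) ≤ θ - (MM B (uq 0) (up 0) + 2))
    (h3 : q (2 * i + 1) < p (2 * j + 1) - p (2 * j + 2) - θ + (MM B (uq 0) (up 0) + 2))
    (hC : Closed B nQ nP uq up q p θ (2 * i + 1) (2 * (j + 1))) : False := by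
  have hl := h.fr.l2
  have hθ3 := h.θ3 hn
  have hqθ := h.top hnv hpq
  have haQ := hC.aQ
  have hbP := hC.bP
  have hM0 := h.MM0 (uq 0) (up 0)
  have hM2 := h.MM2 (uq 0) (up 0)
  have f1 := h.fr.qn (i := 2 * i + 1) (by omega)
  have f2 := h.fr.pn (i := 2 * j + 2) (by omega)
  have f4 := h.fr.qa (i := 0) (j := 2 * i) (by omega) (by omega)
  have e3 := h.fr.pa (i := 0) (j := 2 * j + 1) (by omega) (by omega)
  have hq0 : 0 < q 0 := by linarith
  have hqn := h.qle (i := 0) (by omega) hq0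
  have hp0 : p 0 ≤ Rl.card - 1 - k := h.pleK hout (by omega) (by linarith)
  have : Nonempty V := ⟨uq 0⟩
  obtain ⟨pick, hpick⟩ := exists_pick B
  obtain ⟨Rs, S, g, Kc, hd, hcut⟩ := h.fr.cut hC.a1 haQ hbP hq0 pick
    (fun K hK => (hpick K hK).1)
  rcases Rs.eq_empty_or_nonempty with hRs | hRs
  · obtain ⟨Y, nb, hY, -, -, -, -, hT2, -, -⟩ := hcut _ 0 le_rfl (by norm_num) (fun _ => le_rfl)
    have hS : S = vs uq up (rr nQ nP (2 * i + 1) (2 * (j + 1))) := by
      rw [← hd.un, hRs, Finset.empty_union]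
    have hind := hd.ind
    rw [hS] at hind
    obtain ⟨c, c0, c1, c2, c3⟩ := exists_c (a := MM B (uq 0))
      (R := vs uq up (rr nQ nP (2 * i + 1) (2 * (j + 1))))
    have hT1 := h.fr.cut0 hC.a1 haQ hbP hq0 hind c0 c3
    rw [← hS] at hT1
    have key := h.pe3b hn hnv hpq hi hj hlam hz hA hE h1 h2 h3 hC hp0 hS.le hd.g0
      (hY.2 hRs) hT2 c0 c1 (by unfold cRr; exact_mod_cast c2) hT1
    have hg : g = 0 := hd.bl.gz hRs
    have hU := h.poPoU hn hout hi (by omega) haQ hbP hd hpick (u := -4) hq0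
      (by linarith) (by linarith) (by rw [hg]; push_cast; linarith)
    have hMz := h.MM_le (up 0) (i := 0) (by omega) hq0 (h.uqp (by omega) (by omega))
    have k3r := h.k3r
    have f5 := h.fr.qT (i := i) hi
    have f6 := h.fr.pT (i := j + 1) (by omega)
    have f7 : p (2 * (j + 1)) = p (2 * j + 2) := by ring_nf
    obtain ⟨i1, i2, i3⟩ := h.fr.qgap hi
    obtain ⟨p1, p2, p3, p4⟩ := h.fr.pgap (j := j) (by omega)
    have e1 := AA_succ p j
    exact hU.noc3 (by push_cast; omega) le_rfl (by linarith) (by linarith)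
      (by rw [hRs]; simp)
  · obtain ⟨Y, nb, hY, -, -, hnb, hcard, hT2, -, hT1⟩ := hcut _ 1 le_rfl le_rfl
      (fun h1 => absurd h1 (Finset.nonempty_iff_ne_empty.1 hRs))
    exact h.po3bNe hn hnv hpq hout hi hj hlam hQ hP hA hE h1 hC hd hpick hRs hY.1 (hnb hRs)
      hcard
      (cR := ch (MM B (uq 0)) (vs uq up (rr nQ nP (2 * i + 1) (2 * (j + 1))))) rfl hT2 hT1

end
end Pool.Agent.Exact


end
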