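import Mathlib
import Pool.Agent.EXAM.C09
import Pool.Agent.EXAM.C13
import Pool.Agent.Lib_helper68.JudiciousBounds

/-! Parts: Lib_helper68.JudiciousTwo, Lib_helper68.JudiciousUpper, Lib_helper68.Exact.Fin -/

section

namespace Pool.Agent.Judicious

open Finset

variable {V : Type} [DecidableEq V]

/-- A fixed-point-free function on a finite set is properly 3-colourable. -/
theorem three_color_fn (φ : V → V) :
    ∀ (m : ℕ) (C : Finset V), C.card = m → (∀ v ∈ C, φ v ≠ v) →
      ∃ χ : V → Fin 3, ∀ v ∈ C, φ v ∈ C → χ v ≠ χ (φ v) := by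
  intro m
  induction m with
  | zero =>
    intro C hC _
    rw [Finset.card_eq_zero] at hC
    subst hC
    exact ⟨fun _ => 0, by simp⟩
  | succ m ih =>
    intro C hC hφ
    -- a vertex with at most one preimage
    obtain ⟨v, hvC, hv⟩ : ∃ v ∈ C, (C.filter (fun u => φ u = v)).card ≤ 1 := by
      by_contra hcon
      push Not at hcon
      have h1 : ∑ v ∈ C, 2 ≤ ∑ v ∈ C, (C.filter (fun u => φ u = v)).card :=
        Finset.sum_le_sum (fun v hv => hcon v hv)
      have h2 : ∑ v ∈ C, (C.filter (fun u => φ u = v)).card ≤ C.card := by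
        rw [← Finset.card_biUnion]
        · apply Finset.card_le_card
          intro x hx
          rw [Finset.mem_biUnion] at hx
          obtain ⟨_, _, h⟩ := hx
          exact (Finset.mem_filter.mp h).1
        · intro a _ b _ hab
          rw [Function.onFun, Finset.disjoint_left]
          intro x hx hx'
          exact hab ((Finset.mem_filter.mp hx).2.symm.trans (Finset.mem_filter.mp hx').2)
      rw [Finset.sum_const, smul_eq_mul] at h1
      omega
    obtain ⟨χ, hχ⟩ := ih (C.erase v) (by rw [Finset.card_erase_of_mem hvC]; omega)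
      (fun u hu => hφ u (Finset.mem_of_mem_erase hu))
    -- forbidden colours
    set F : Finset (Fin 3) := insert (χ (φ v)) ((C.filter (fun u => φ u = v)).image χ) with hF
    have hFcard : F.card < (Finset.univ : Finset (Fin 3)).card := by
      have h1 : F.card ≤ ((C.filter (fun u => φ u = v)).image χ).card + 1 :=
        Finset.card_insert_le _ _
      have h2 := Finset.card_image_le (s := C.filter (fun u => φ u = v)) (f := χ)
      rw [Finset.card_univ, Fintype.card_fin]
      omega
    obtain ⟨col, _, hcol⟩ := Finset.exists_mem_notMem_of_card_lt_card hFcard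
    refine ⟨fun u => if u = v then col else χ u, ?_⟩
    intro u hu hφu
    by_cases huv : u = v
    · subst huv
      have hne : φ u ≠ u := hφ u hu
      simp only [if_true, hne, if_false]
      intro h
      exact hcol (by rw [h, hF]; exact Finset.mem_insert_self _ _)
    · simp only [huv, if_false]
      by_cases hφv : φ u = v
      · simp only [hφv, if_true]
        intro h
        apply hcol
        rw [← h, hF]
        exact Finset.mem_insert_of_mem (Finset.mem_image_of_mem χ (Finset.mem_filter.mpr ⟨hu, hφv⟩))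
      · simp only [hφv, if_false]
        exact hχ u (Finset.mem_erase.mpr ⟨huv, hu⟩) (Finset.mem_erase.mpr ⟨hφv, hφu⟩)

/-- adjacency indicator -/
def dd (D : Finset (V × V)) (x y : V) : ℕ := if (x, y) ∈ D then 1 else 0

/-- edges inside `P` -/
def eIn (D : Finset (V × V)) (P : Finset V) : ℕ := ∑ x ∈ P, ∑ y ∈ P, dd D x y

/-- monochromatic edges inside `P` -/
def mono (D : Finset (V × V)) (χ : V → Fin 3) (P : Finset V) : ℕ :=
  ∑ x ∈ P, ∑ y ∈ P, if χ x = χ y then dd D x y else 0

theorem sum_union_sq (g : V → V → ℕ) (P C : Finset V) (h : Disjoint P C) :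
    ∑ x ∈ P ∪ C, ∑ y ∈ P ∪ C, g x y =
      ∑ x ∈ P, ∑ y ∈ P, g x y + ∑ x ∈ C, ∑ y ∈ C, g x y +
        ∑ x ∈ P, ∑ y ∈ C, (g x y + g y x) := by
  rw [Finset.sum_union h]
  simp_rw [Finset.sum_union h, Finset.sum_add_distrib]
  rw [Finset.sum_comm (s := C) (t := P) (f := fun x y => g x y)]
  ring

/-- the invariant of the colouring process -/
def Good (D : Finset (V × V)) (P : Finset V) (χ : V → Fin 3) : Prop :=
  (∀ v ∈ P, ∃ w ∈ P, (v, w) ∈ D ∧ χ v ≠ χ w) ∧ 2 * mono D χ P + P.card ≤ eIn D P

theorem good_union (D : Finset (V × V)) (P C : Finset V) (h : Disjoint P C) (χ ψ : V → Fin 3)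
    (hg : Good D P χ)
    (h1 : ∀ v ∈ C, (∃ w ∈ P, (v, w) ∈ D ∧ ψ v ≠ χ w) ∨ (∃ w ∈ C, (v, w) ∈ D ∧ ψ v ≠ ψ w))
    (h2 : 2 * (mono D ψ C + ∑ x ∈ P, ∑ y ∈ C, (if χ x = ψ y then dd D x y + dd D y x else 0)) +
      C.card ≤ eIn D C + ∑ x ∈ P, ∑ y ∈ C, (dd D x y + dd D y x)) :
    Good D (P ∪ C) (fun x => if x ∈ C then ψ x else χ x) := by
  have hPC : ∀ x ∈ P, x ∉ C := fun x hx => Finset.disjoint_left.mp h hx
  refine ⟨?_, ?_⟩
  · intro v hv
    rcases Finset.mem_union.mp hv with hv | hv
    · obtain ⟨w, hw, hvw, hne⟩ := hg.1 v hv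
      refine ⟨w, Finset.mem_union_left _ hw, hvw, ?_⟩
      simp only [hPC v hv, hPC w hw, if_false]; exact hne
    · rcases h1 v hv with ⟨w, hw, hvw, hne⟩ | ⟨w, hw, hvw, hne⟩
      · refine ⟨w, Finset.mem_union_left _ hw, hvw, ?_⟩
        simp only [hv, hPC w hw, if_false, if_true]; exact hne
      · refine ⟨w, Finset.mem_union_right _ hw, hvw, ?_⟩
        simp only [hv, hw, if_true]; exact hne
  · unfold mono eIn at *
    rw [sum_union_sq _ P C h, sum_union_sq _ P C h, Finset.card_union_of_disjoint h]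
    have e1 : ∑ x ∈ P, ∑ y ∈ P, (if (fun x => if x ∈ C then ψ x else χ x) x =
        (fun x => if x ∈ C then ψ x else χ x) y then dd D x y else 0) =
        ∑ x ∈ P, ∑ y ∈ P, if χ x = χ y then dd D x y else 0 := by
      refine Finset.sum_congr rfl (fun x hx => Finset.sum_congr rfl (fun y hy => ?_))
      simp only [hPC x hx, hPC y hy, if_false]
    have e2 : ∑ x ∈ C, ∑ y ∈ C, (if (fun x => if x ∈ C then ψ x else χ x) x =
        (fun x => if x ∈ C then ψ x else χ x) y then dd D x y else 0) =
        ∑ x ∈ C, ∑ y ∈ C, if ψ x = ψ y then dd D x y else 0 := by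
      refine Finset.sum_congr rfl (fun x hx => Finset.sum_congr rfl (fun y hy => ?_))
      simp only [hx, hy, if_true]
    have e3 : ∑ x ∈ P, ∑ y ∈ C, ((if (fun x => if x ∈ C then ψ x else χ x) x =
        (fun x => if x ∈ C then ψ x else χ x) y then dd D x y else 0) +
        (if (fun x => if x ∈ C then ψ x else χ x) y =
        (fun x => if x ∈ C then ψ x else χ x) x then dd D y x else 0)) =
        ∑ x ∈ P, ∑ y ∈ C, (if χ x = ψ y then dd D x y + dd D y x else 0) := by
      refine Finset.sum_congr rfl (fun x hx => Finset.sum_congr rfl (fun y hy => ?_))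
      simp only [hPC x hx, hy, if_false, if_true]
      by_cases hc : χ x = ψ y
      · simp [hc]
      · have hc' : ¬ ψ y = χ x := fun h => hc h.symm
        simp [hc, hc']
    rw [e1, e2, e3]
    have := hg.2
    unfold mono eIn at this
    omega

/-- Adding one vertex that has an out-edge into the coloured part. -/
theorem extend_one (D : Finset (V × V)) (hD : ∀ p ∈ D, p.1 ≠ p.2) (P : Finset V) (χ : V → Fin 3)
    (hg : Good D P χ) (u w : V) (hu : u ∉ P) (hw : w ∈ P) (huw : (u, w) ∈ D) :
    ∃ χ' : V → Fin 3, Good D (P ∪ {u}) χ' := by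
  -- weights of the three colours
  set m : Fin 3 → ℕ := fun c => ∑ x ∈ P, (if χ x = c then dd D x u + dd D u x else 0) with hm
  have htot : m 0 + m 1 + m 2 = ∑ x ∈ P, (dd D x u + dd D u x) := by
    simp only [hm]
    rw [← Finset.sum_add_distrib, ← Finset.sum_add_distrib]
    refine Finset.sum_congr rfl (fun x _ => ?_)
    have : χ x = 0 ∨ χ x = 1 ∨ χ x = 2 := by
      have := (χ x).isLt
      rcases h : χ x with ⟨n, hn⟩
      interval_cases n <;> simp
    rcases this with h | h | h <;> rw [h] <;> simp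
  have hpos : 1 ≤ m (χ w) := by
    simp only [hm]
    have h1 : (if χ w = χ w then dd D w u + dd D u w else 0) ≤
        ∑ x ∈ P, (if χ x = χ w then dd D x u + dd D u x else 0) :=
      Finset.single_le_sum (f := fun x => if χ x = χ w then dd D x u + dd D u x else 0)
        (fun _ _ => Nat.zero_le _) hw
    refine le_trans ?_ h1
    rw [if_pos rfl]
    unfold dd
    rw [if_pos huw]; omega
  obtain ⟨c, hc, hcm⟩ : ∃ c : Fin 3, c ≠ χ w ∧ 2 * m c + 1 ≤ m 0 + m 1 + m 2 := by
    have : χ w = 0 ∨ χ w = 1 ∨ χ w = 2 := by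
      have := (χ w).isLt
      rcases h : χ w with ⟨n, hn⟩
      interval_cases n <;> simp
    rcases this with h | h | h <;> rw [h] at hpos ⊢
    · rcases le_total (m 1) (m 2) with h' | h'
      · exact ⟨1, by decide, by omega⟩
      · exact ⟨2, by decide, by omega⟩
    · rcases le_total (m 0) (m 2) with h' | h'
      · exact ⟨0, by decide, by omega⟩
      · exact ⟨2, by decide, by omega⟩
    · rcases le_total (m 0) (m 1) with h' | h'
      · exact ⟨0, by decide, by omega⟩
      · exact ⟨1, by decide, by omega⟩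
  refine ⟨_, good_union D P {u} (Finset.disjoint_singleton_right.mpr hu) χ (fun _ => c) hg ?_ ?_⟩
  · intro v hv
    rw [Finset.mem_singleton] at hv
    subst hv
    exact Or.inl ⟨w, hw, huw, hc⟩
  · have huu : dd D u u = 0 := by
      unfold dd; rw [if_neg]; intro h; exact hD _ h rfl
    unfold mono eIn
    simp only [Finset.sum_singleton, Finset.card_singleton, if_true, huu]
    rw [← htot]
    simp only [hm] at hcm ⊢
    omega

/-- Adding a chordless directed cycle that has no out-edge into the coloured part. -/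
theorem extend_cycle (D : Finset (V × V)) (hD : ∀ p ∈ D, p.1 ≠ p.2) (P : Finset V) (χ : V → Fin 3)
    (hg : Good D P χ) (Q : Finset V) (hQ : Q.Nonempty) (hdis : Disjoint P Q)
    (hout : ∀ v ∈ Q, ∃ w ∈ Q, (v, w) ∈ D) :
    ∃ (C : Finset V) (χ' : V → Fin 3), C.Nonempty ∧ C ⊆ Q ∧ Good D (P ∪ C) χ' := by
  -- minimal closed set
  set S := Q.powerset.filter (fun C => C.Nonempty ∧ ∀ v ∈ C, ∃ w ∈ C, (v, w) ∈ D) with hS
  have hSne : S.Nonempty := ⟨Q, by rw [hS, Finset.mem_filter]; exact
    ⟨Finset.mem_powerset_self Q, hQ, hout⟩⟩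
  obtain ⟨C, hCS, hCmin⟩ := Finset.exists_min_image S Finset.card hSne
  rw [hS, Finset.mem_filter, Finset.mem_powerset] at hCS
  obtain ⟨hCQ, hCne, hCout⟩ := hCS
  -- unique in-neighbour property
  have hA : ∀ w ∈ C, ∃ u ∈ C, ∀ x ∈ C, (u, x) ∈ D → x = w := by
    intro w hw
    by_contra hcon
    push Not at hcon
    have hmem : C.erase w ∈ S := by
      rw [hS, Finset.mem_filter, Finset.mem_powerset]
      refine ⟨(Finset.erase_subset _ _).trans hCQ, ?_, ?_⟩
      · obtain ⟨x, hx, _, hxw⟩ := hcon w hw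
        exact ⟨x, Finset.mem_erase.mpr ⟨hxw, hx⟩⟩
      · intro v hv
        obtain ⟨x, hx, hvx, hxw⟩ := hcon v (Finset.mem_of_mem_erase hv)
        exact ⟨x, Finset.mem_erase.mpr ⟨hxw, hx⟩, hvx⟩
    have := hCmin _ hmem
    rw [Finset.card_erase_of_mem hw] at this
    have := Finset.card_pos.mpr hCne
    omega
  -- every vertex has a unique out-neighbour in C
  have hB : ∀ u ∈ C, ∃ w ∈ C, (u, w) ∈ D ∧ ∀ x ∈ C, (u, x) ∈ D → x = w := by
    choose! f hf1 hf2 using hA
    have hinj : Set.InjOn f C := by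
      intro a ha b hb hab
      obtain ⟨y, hy, hay⟩ := hCout (f a) (hf1 a ha)
      have h1 := hf2 a ha y hy hay
      have h2 := hf2 b hb y hy (by rw [← hab]; exact hay)
      exact h1.symm.trans h2
    have hsurj : Set.SurjOn f C C :=
      Finset.surjOn_of_injOn_of_card_le f (fun a ha => hf1 a ha) hinj le_rfl
    intro u hu
    obtain ⟨w, hw, hwu⟩ := hsurj hu
    obtain ⟨y, hy, huy⟩ := hCout u hu
    have h1 := hf2 w hw
    rw [hwu] at h1
    have h2 := h1 y hy huy
    exact ⟨w, hw, h2 ▸ huy, h1⟩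
  choose! φ hφ1 hφ2 hφ3 using hB
  obtain ⟨ψ, hψ⟩ := three_color_fn φ C.card C rfl (by
    intro v hv h
    exact hD _ (hφ2 v hv) h.symm)
  have hψ' : ∀ v ∈ C, ψ v ≠ ψ (φ v) := fun v hv => hψ v hv (hφ1 v hv)
  have hdd : ∀ x ∈ C, ∀ y ∈ C, dd D x y = if y = φ x then 1 else 0 := by
    intro x hx y hy
    unfold dd
    by_cases h : (x, y) ∈ D
    · rw [if_pos h, if_pos (hφ3 x hx y hy h)]
    · rw [if_neg h, if_neg]
      rintro rfl
      exact h (hφ2 x hx)
  have hC1 : eIn D C = C.card := by
    unfold eIn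
    rw [Finset.card_eq_sum_ones]
    refine Finset.sum_congr rfl (fun x hx => ?_)
    rw [Finset.sum_congr rfl (fun y hy => hdd x hx y hy), Finset.sum_ite_eq' C (φ x), if_pos (hφ1 x hx)]
  have hC2 : ∀ r : Fin 3, mono D (fun x => ψ x + r) C = 0 := by
    intro r
    unfold mono
    refine Finset.sum_eq_zero (fun x hx => Finset.sum_eq_zero (fun y hy => ?_))
    rw [hdd x hx y hy]
    by_cases h : y = φ x
    · subst h
      rw [if_neg]
      intro h
      exact hψ' x hx (add_right_cancel h)
    · simp [h]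
  -- choose the rotation
  set T := ∑ x ∈ P, ∑ y ∈ C, (dd D x y + dd D y x) with hT
  set cr : Fin 3 → ℕ := fun r =>
    ∑ x ∈ P, ∑ y ∈ C, (if χ x = ψ y + r then dd D x y + dd D y x else 0) with hcr
  have hsum : ∑ r, cr r = T := by
    simp only [hcr]
    rw [Finset.sum_comm]
    rw [hT]
    refine Finset.sum_congr rfl (fun x _ => ?_)
    rw [Finset.sum_comm]
    refine Finset.sum_congr rfl (fun y _ => ?_)
    rw [Finset.sum_eq_single (χ x - ψ y)]
    · rw [if_pos]; abel
    · intro r _ hr
      rw [if_neg]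
      intro h
      apply hr
      rw [h]; abel
    · intro h; exact absurd (Finset.mem_univ _) h
  obtain ⟨r, hr⟩ : ∃ r, 2 * cr r ≤ T := by
    by_contra hcon
    push Not at hcon
    have h3 := Fin.sum_univ_three cr
    have h0 := hcon 0
    have h1 := hcon 1
    have h2 := hcon 2
    omega
  refine ⟨C, _, hCne, hCQ, good_union D P C (Disjoint.mono_right hCQ hdis) χ (fun x => ψ x + r) hg ?_ ?_⟩
  · intro v hv
    refine Or.inr ⟨φ v, hφ1 v hv, hφ2 v hv, ?_⟩
    intro h
    exact hψ' v hv (add_right_cancel h)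
  · rw [hC1, hC2 r]
    simp only [hcr] at hr
    simp only [zero_add]
    omega

/-- The colouring lemma: if every vertex of `U` has an out-neighbour in `U`, then `U` has a
3-colouring in which every vertex has an out-neighbour of a different colour and at most
half of the edges beyond `|U|` are monochromatic. -/
theorem exists_good (D : Finset (V × V)) (hD : ∀ p ∈ D, p.1 ≠ p.2) (U : Finset V)
    (hU : ∀ v ∈ U, ∃ w ∈ U, (v, w) ∈ D) : ∃ χ : V → Fin 3, Good D U χ := by
  suffices h : ∀ (m : ℕ) (P : Finset V) (χ : V → Fin 3), (U \ P).card = m → P ⊆ U → Good D P χ →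
      ∃ χ' : V → Fin 3, Good D U χ' by
    refine h (U \ ∅).card ∅ (fun _ => 0) rfl (Finset.empty_subset _) ⟨by simp, ?_⟩
    simp [mono, eIn]
  intro m
  induction m using Nat.strong_induction_on with
  | _ m ih =>
    intro P χ hm hPU hg
    by_cases hPU' : P = U
    · subst hPU'; exact ⟨χ, hg⟩
    have hne : (U \ P).Nonempty := by
      rw [Finset.sdiff_nonempty]
      intro h; exact hPU' (Finset.Subset.antisymm hPU h)
    by_cases h1 : ∃ u ∈ U \ P, ∃ w ∈ P, (u, w) ∈ D
    · obtain ⟨u, hu, w, hw, huw⟩ := h1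
      rw [Finset.mem_sdiff] at hu
      obtain ⟨χ', hχ'⟩ := extend_one D hD P χ hg u w hu.2 hw huw
      refine ih (U \ (P ∪ {u})).card ?_ (P ∪ {u}) χ' rfl ?_ hχ'
      · rw [← hm]
        apply Finset.card_lt_card
        rw [Finset.ssubset_iff_of_subset (Finset.sdiff_subset_sdiff le_rfl Finset.subset_union_left)]
        exact ⟨u, Finset.mem_sdiff.mpr hu, by simp⟩
      · exact Finset.union_subset hPU (Finset.singleton_subset_iff.mpr hu.1)
    · push Not at h1
      obtain ⟨C, χ', hCne, hCQ, hχ'⟩ := extend_cycle D hD P χ hg (U \ P) hne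
        Finset.disjoint_sdiff (by
          intro v hv
          obtain ⟨w, hw, hvw⟩ := hU v (Finset.mem_sdiff.mp hv).1
          refine ⟨w, Finset.mem_sdiff.mpr ⟨hw, ?_⟩, hvw⟩
          intro hwP
          exact h1 v hv w hwP hvw)
      refine ih (U \ (P ∪ C)).card ?_ (P ∪ C) χ' rfl ?_ hχ'
      · rw [← hm]
        apply Finset.card_lt_card
        obtain ⟨u, hu⟩ := hCne
        rw [Finset.ssubset_iff_of_subset (Finset.sdiff_subset_sdiff le_rfl Finset.subset_union_left)]
        exact ⟨u, hCQ hu, by simp [hu]⟩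
      · exact Finset.union_subset hPU (hCQ.trans Finset.sdiff_subset)

section dominated

variable [Fintype V]

theorem cut_eq_sum (D : Finset (V × V)) (X Y : Finset V) :
    cut D X Y = ∑ x ∈ X, ∑ y ∈ Y, dd D x y := by
  unfold cut dd
  rw [← Finset.sum_product' (s := X) (t := Y) (f := fun x y => if (x, y) ∈ D then 1 else 0)]
  rw [Finset.card_eq_sum_ones, Finset.sum_filter, ← Finset.sum_filter (s := X ×ˢ Y)]
  rw [← Finset.sum_filter]
  apply Finset.sum_congr _ (fun _ _ => rfl)
  ext p
  simp only [Finset.mem_filter, Finset.mem_product]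
  tauto

theorem outdeg_eq_sum (D : Finset (V × V)) (v : V) : outdeg D v = ∑ y, dd D v y := by
  have : outdeg D v = cut D {v} Finset.univ := by
    unfold outdeg cut
    congr 1
    ext p
    simp
  rw [this, cut_eq_sum]; simp

theorem indeg_eq_sum (D : Finset (V × V)) (v : V) : indeg D v = ∑ x, dd D x v := by
  have : indeg D v = cut D Finset.univ {v} := by
    unfold indeg cut
    congr 1
    ext p
    simp
  rw [this, cut_eq_sum]; simp

theorem card_eq_sum_dd (D : Finset (V × V)) : D.card = ∑ x, ∑ y, dd D x y := by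
  have : D.card = cut D Finset.univ Finset.univ := by
    unfold cut; simp
  rw [this, cut_eq_sum]

/-- The dominated case. -/
theorem dominated (D : Finset (V × V)) (hD : ∀ p ∈ D, p.1 ≠ p.2) (hout : ∀ v, 2 ≤ outdeg D v)
    (v0 : V) (hdom : (D.card : ℤ) < 3 * (indeg D v0 - outdeg D v0)) : D.card ≤ 6 * best D := by
  set U : Finset V := Finset.univ.erase v0 with hU
  have hUuniv : (Finset.univ : Finset V) = insert v0 U := by
    rw [hU, Finset.insert_erase (Finset.mem_univ v0)]
  have hv0U : v0 ∉ U := Finset.notMem_erase v0 _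
  have hUout : ∀ v ∈ U, ∃ w ∈ U, (v, w) ∈ D := by
    intro v _
    have h2 := hout v
    unfold outdeg at h2
    obtain ⟨p, hp, q, hq, hpq⟩ := Finset.one_lt_card.mp h2
    rw [Finset.mem_filter] at hp hq
    have : p.2 ≠ v0 ∨ q.2 ≠ v0 := by
      by_contra hcon
      push Not at hcon
      exact hpq (Prod.ext (hp.2.trans hq.2.symm) (hcon.1.trans hcon.2.symm))
    rcases this with h | h
    · exact ⟨p.2, Finset.mem_erase.mpr ⟨h, Finset.mem_univ _⟩, by
        have := hp.1; rw [← hp.2]; exact this⟩
    · exact ⟨q.2, Finset.mem_erase.mpr ⟨h, Finset.mem_univ _⟩, by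
        have := hq.1; rw [← hq.2]; exact this⟩
  obtain ⟨χ, hχ1, hχ2⟩ := exists_good D hD U hUout
  have hself : dd D v0 v0 = 0 := by
    unfold dd; rw [if_neg]; intro h; exact hD _ h rfl
  set f := outdeg D v0 with hf
  set l := indeg D v0 with hl
  have hfs : f = ∑ y ∈ U, dd D v0 y := by
    rw [hf, outdeg_eq_sum, hUuniv, Finset.sum_insert hv0U, hself, zero_add]
  have hls : l = ∑ x ∈ U, dd D x v0 := by
    rw [hl, indeg_eq_sum, hUuniv, Finset.sum_insert hv0U, hself, zero_add]
  have hcard : D.card = eIn D U + l + f := by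
    rw [card_eq_sum_dd, hUuniv, Finset.sum_insert hv0U, Finset.sum_insert hv0U, hself]
    simp_rw [Finset.sum_insert hv0U]
    rw [Finset.sum_add_distrib, ← hfs, ← hls]
    unfold eIn
    ring
  have hlU : l ≤ U.card := by
    rw [hls, Finset.card_eq_sum_ones]
    refine Finset.sum_le_sum (fun x _ => ?_)
    unfold dd; split_ifs <;> omega
  -- the three cuts
  set A : Fin 3 → Finset V := fun i => U.filter (fun x => χ x = i) with hA
  set B : Fin 3 → Finset V := fun i => U.filter (fun x => χ x ≠ i) with hB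
  set X : Fin 3 → Finset V := fun i => insert v0 (A i) with hX
  have hAU : ∀ i, A i ⊆ U := fun i => Finset.filter_subset _ _
  have hv0A : ∀ i, v0 ∉ A i := fun i h => hv0U (hAU i h)
  have hXc : ∀ i, (X i)ᶜ = B i := by
    intro i
    ext x
    simp only [hX, hA, hB, hU, Finset.mem_compl, Finset.mem_insert, Finset.mem_filter,
      Finset.mem_erase, Finset.mem_univ, and_true]
    tauto
  have hx : ∀ i, cut D (X i) (X i)ᶜ =
      ∑ x ∈ A i, ∑ y ∈ B i, dd D x y + ∑ y ∈ B i, dd D v0 y := by
    intro i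
    rw [cut_eq_sum, hXc i, hX, Finset.sum_insert (hv0A i)]
    ring
  have hsum1 : ∑ i, ∑ x ∈ A i, ∑ y ∈ B i, dd D x y + mono D χ U = eIn D U := by
    have h1 : ∀ i, ∑ x ∈ A i, ∑ y ∈ B i, dd D x y =
        ∑ x ∈ U, ∑ y ∈ U, (if χ x = i ∧ χ y ≠ i then dd D x y else 0) := by
      intro i
      simp only [hA, hB, Finset.sum_filter]
      refine Finset.sum_congr rfl (fun x _ => ?_)
      by_cases h : χ x = i
      · simp [h]
      · simp [h]
    simp_rw [h1]
    rw [Finset.sum_comm]
    unfold mono eIn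
    rw [← Finset.sum_add_distrib]
    refine Finset.sum_congr rfl (fun x _ => ?_)
    rw [Finset.sum_comm, ← Finset.sum_add_distrib]
    refine Finset.sum_congr rfl (fun y _ => ?_)
    rw [Finset.sum_eq_single (χ x)]
    · by_cases h : χ x = χ y
      · simp [h]
      · have h' : ¬ χ y = χ x := fun e => h e.symm
        simp [h, h']
    · intro i _ hi
      rw [if_neg]
      rintro ⟨h, _⟩
      exact hi h.symm
    · intro h; exact absurd (Finset.mem_univ _) h
  have hsum2 : ∑ i, ∑ y ∈ B i, dd D v0 y = 2 * f := by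
    have h1 : ∀ i, ∑ y ∈ B i, dd D v0 y = ∑ y ∈ U, (if χ y ≠ i then dd D v0 y else 0) := by
      intro i
      simp only [hB, Finset.sum_filter]
    simp_rw [h1]
    rw [Finset.sum_comm, hfs, Finset.mul_sum]
    refine Finset.sum_congr rfl (fun y _ => ?_)
    rw [Fin.sum_univ_three]
    have : χ y = 0 ∨ χ y = 1 ∨ χ y = 2 := by
      have := (χ y).isLt
      rcases h : χ y with ⟨n, hn⟩
      interval_cases n <;> simp
    rcases this with h | h | h <;> rw [h] <;> simp <;> ring
  have hsum : ∑ i, cut D (X i) (X i)ᶜ + mono D χ U = eIn D U + 2 * f := by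
    simp_rw [hx]
    rw [Finset.sum_add_distrib, hsum2]
    omega
  obtain ⟨i, hi⟩ : ∃ i, D.card ≤ 6 * cut D (X i) (X i)ᶜ := by
    by_contra hcon
    push Not at hcon
    have h0 := hcon 0
    have h1 := hcon 1
    have h2 := hcon 2
    have h3 := Fin.sum_univ_three (fun i => cut D (X i) (X i)ᶜ)
    rw [h3] at hsum
    omega
  by_cases hy : D.card ≤ 6 * cut D (X i)ᶜ (X i)
  · have := le_best D (X i)
    rcases le_total (cut D (X i) (X i)ᶜ) (cut D (X i)ᶜ (X i)) with h | h
    · rw [min_eq_left h] at this; omega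
    · rw [min_eq_right h] at this; omega
  · -- shrink
    push Not at hy
    set L : Finset V := U.filter (fun x => (x, v0) ∈ D) with hL
    have hLcard : L.card = l := by
      rw [hls, hL, Finset.card_filter]
      rfl
    have hLB : (L ∩ B i).card ≤ cut D (X i)ᶜ (X i) := by
      rw [cut_eq_sum, hXc i, Finset.card_eq_sum_ones]
      calc ∑ x ∈ L ∩ B i, 1 ≤ ∑ x ∈ L ∩ B i, ∑ y ∈ X i, dd D x y := by
            refine Finset.sum_le_sum (fun x hx => ?_)
            have hxL : (x, v0) ∈ D := by
              have := (Finset.mem_inter.mp hx).1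
              rw [hL, Finset.mem_filter] at this
              exact this.2
            have h1 : dd D x v0 ≤ ∑ y ∈ X i, dd D x y :=
              Finset.single_le_sum (f := fun y => dd D x y) (fun _ _ => Nat.zero_le _)
                (Finset.mem_insert_self v0 (A i))
            refine le_trans ?_ h1
            unfold dd; rw [if_pos hxL]
        _ ≤ ∑ x ∈ B i, ∑ y ∈ X i, dd D x y :=
            Finset.sum_le_sum_of_subset Finset.inter_subset_right
    have hLsplit : (L ∩ A i).card + (L ∩ B i).card = L.card := by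
      rw [← Finset.card_union_of_disjoint]
      · congr 1
        ext x
        simp only [hA, hB, hL, Finset.mem_union, Finset.mem_inter, Finset.mem_filter]
        tauto
      · rw [Finset.disjoint_left]
        intro x hx hx'
        simp only [hA, hB, Finset.mem_inter, Finset.mem_filter] at hx hx'
        exact hx'.2.2 hx.2.2
    set m := (D.card + 5) / 6 with hm
    have hf2 : 2 ≤ f := hout v0
    have hmA : m ≤ (A i).card := by
      have h1 : (L ∩ A i).card ≤ (A i).card := Finset.card_le_card Finset.inter_subset_right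
      omega
    obtain ⟨S, hSA, hScard⟩ := Finset.exists_subset_card_eq hmA
    have hv0S : v0 ∉ S := fun h => hv0A i (hSA h)
    set Y : Finset V := insert v0 S with hY
    have hcut1 : S.card ≤ cut D Y Yᶜ := by
      rw [cut_eq_sum, Finset.card_eq_sum_ones]
      calc ∑ x ∈ S, 1 ≤ ∑ x ∈ S, ∑ y ∈ Yᶜ, dd D x y := by
            refine Finset.sum_le_sum (fun x hx => ?_)
            have hxA := hSA hx
            rw [hA, Finset.mem_filter] at hxA
            obtain ⟨w, hw, hxw, hne⟩ := hχ1 x hxA.1
            have hwY : w ∈ Yᶜ := by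
              rw [Finset.mem_compl, hY, Finset.mem_insert]
              rintro (h | h)
              · subst h; exact hv0U hw
              · have := hSA h
                rw [hA, Finset.mem_filter] at this
                exact hne (hxA.2.trans this.2.symm)
            have h1 : dd D x w ≤ ∑ y ∈ Yᶜ, dd D x y :=
              Finset.single_le_sum (f := fun y => dd D x y) (fun _ _ => Nat.zero_le _) hwY
            refine le_trans ?_ h1
            unfold dd; rw [if_pos hxw]
        _ ≤ ∑ x ∈ Y, ∑ y ∈ Yᶜ, dd D x y :=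
            Finset.sum_le_sum_of_subset (Finset.subset_insert _ _)
    have hcut2 : (L \ S).card ≤ cut D Yᶜ Y := by
      rw [cut_eq_sum, Finset.card_eq_sum_ones]
      calc ∑ x ∈ L \ S, 1 ≤ ∑ x ∈ L \ S, ∑ y ∈ Y, dd D x y := by
            refine Finset.sum_le_sum (fun x hx => ?_)
            have hxL : (x, v0) ∈ D := by
              have := (Finset.mem_sdiff.mp hx).1
              rw [hL, Finset.mem_filter] at this
              exact this.2
            have h1 : dd D x v0 ≤ ∑ y ∈ Y, dd D x y :=
              Finset.single_le_sum (f := fun y => dd D x y) (fun _ _ => Nat.zero_le _)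
                (Finset.mem_insert_self v0 S)
            refine le_trans ?_ h1
            unfold dd; rw [if_pos hxL]
        _ ≤ ∑ x ∈ Yᶜ, ∑ y ∈ Y, dd D x y := by
            refine Finset.sum_le_sum_of_subset (fun x hx => ?_)
            rw [Finset.mem_sdiff] at hx
            rw [Finset.mem_compl, hY, Finset.mem_insert]
            rintro (h | h)
            · subst h
              have := hx.1
              rw [hL, Finset.mem_filter] at this
              exact hv0U this.1
            · exact hx.2 h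
    have hcard3 : L.card ≤ (L \ S).card + S.card := by
      have := Finset.card_le_card (Finset.subset_union_left (s₁ := L) (s₂ := S))
      rw [← Finset.sdiff_union_self_eq_union] at this
      exact this.trans (Finset.card_union_le _ _)
    have hb := le_best D Y
    rcases le_total (cut D Y Yᶜ) (cut D Yᶜ Y) with h | h
    · rw [min_eq_left h] at hb; omega
    · rw [min_eq_right h] at hb; omega

/-- Every finite digraph with minimum outdegree at least two has a bipartition both of whose
directed cuts contain at least one sixth of the edges. -/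
theorem two_bound (D : Finset (V × V)) (hD : ∀ p ∈ D, p.1 ≠ p.2) (hout : ∀ v, 2 ≤ outdeg D v) :
    D.card ≤ 6 * best D := by
  by_cases hdom : ∃ v0, (D.card : ℤ) < 3 * (indeg D v0 - outdeg D v0)
  · obtain ⟨v0, h⟩ := hdom
    exact dominated D hD hout v0 h
  · push Not at hdom
    have hpos : ∀ v, 3 * imb D v ≤ D.card := by
      intro v
      have h1 := outdeg_le D hD v
      have h2 : outdeg D v + 2 * (Fintype.card V - 1) ≤ D.card := by
        rw [card_eq_sum_outdeg, ← Finset.add_sum_erase _ _ (Finset.mem_univ v)]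
        have h3 : 2 * (Fintype.card V - 1) ≤ ∑ x ∈ Finset.univ.erase v, outdeg D x := by
          have h4 := Finset.card_nsmul_le_sum (Finset.univ.erase v) (fun x => outdeg D x) 2
            (fun x _ => hout x)
          rw [Finset.card_erase_of_mem (Finset.mem_univ v), Finset.card_univ, smul_eq_mul] at h4
          omega
        omega
      unfold imb
      omega
    have hb := imb_bound D hD (D.card / 3) (by
      intro v
      have h1 := hpos v
      have h2 := hdom v
      unfold imb at *
      rw [abs_le]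
      constructor <;> omega)
    omega

end dominated

end Pool.Agent.Judicious


end

section

namespace Pool.Agent.Judicious

open Finset

section tournament

variable (j : ℕ)

/-- the circulant tournament on `ZMod (2j+1)` -/
def TT (a b : ZMod (2 * j + 1)) : ℕ := if 1 ≤ (b - a).val ∧ (b - a).val ≤ j then 1 else 0

theorem TT_tour (a b : ZMod (2 * j + 1)) :
    TT j a b + TT j b a = if a = b then 0 else 1 := by
  unfold TT
  by_cases h : a = b
  · subst h; simp
  · have h1 : b - a ≠ 0 := fun h' => h (sub_eq_zero.mp h').symm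
    have h2 : (a - b).val = (2 * j + 1) - (b - a).val := by
      have : a - b = -(b - a) := by ring
      rw [this, ZMod.neg_val, if_neg h1]
    have h3 : (b - a).val < 2 * j + 1 := ZMod.val_lt _
    have h4 : (b - a).val ≠ 0 := by rw [Ne, ZMod.val_eq_zero]; exact h1
    rw [h2, if_neg h]
    by_cases h5 : (b - a).val ≤ j
    · rw [if_pos ⟨by omega, h5⟩, if_neg (by omega)]
    · rw [if_neg (by omega), if_pos (by omega)]

theorem card_val_lt (m i : ℕ) [NeZero m] (hj : i ≤ m) :
    ∑ b : ZMod m, (if b.val < i then 1 else 0) = i := by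
  rw [← Finset.card_filter]
  have : (Finset.univ.filter (fun b : ZMod m => b.val < i)).card = (Finset.range i).card := by
    apply Finset.card_bij (fun b _ => b.val)
    · intro b hb
      simpa using hb
    · intro b _ b' _ h
      exact ZMod.val_injective m h
    · intro x hx
      rw [Finset.mem_range] at hx
      refine ⟨(x : ZMod m), ?_, ?_⟩
      · simp only [Finset.mem_filter, Finset.mem_univ, true_and]
        rw [ZMod.val_cast_of_lt (by omega)]; exact hx
      · rw [ZMod.val_cast_of_lt (by omega)]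
  rw [this, Finset.card_range]

theorem TT_out (a : ZMod (2 * j + 1)) : ∑ b, TT j a b = j := by
  have h1 : ∑ b, TT j a b =
      ∑ b : ZMod (2 * j + 1), (if 1 ≤ b.val ∧ b.val ≤ j then 1 else 0) := by
    apply Fintype.sum_equiv (Equiv.subRight a)
    intro b
    rfl
  rw [h1]
  have h2 : ∑ b : ZMod (2 * j + 1), (if 1 ≤ b.val ∧ b.val ≤ j then 1 else 0) +
      ∑ b : ZMod (2 * j + 1), (if b.val < 1 then 1 else 0) =
      ∑ b : ZMod (2 * j + 1), (if b.val < j + 1 then 1 else 0) := by
    rw [← Finset.sum_add_distrib]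
    refine Finset.sum_congr rfl (fun b _ => ?_)
    by_cases h3 : b.val < 1
    · rw [if_neg (by omega), if_pos h3, if_pos (by omega)]
    · by_cases h4 : b.val < j + 1
      · rw [if_pos (by omega), if_neg h3, if_pos h4]
      · rw [if_neg (by omega), if_neg h3, if_neg h4]
  rw [card_val_lt _ 1 (by omega), card_val_lt _ (j + 1) (by omega)] at h2
  omega

theorem TT_cut (S : Finset (ZMod (2 * j + 1))) :
    2 * ∑ a ∈ S, ∑ b ∈ Sᶜ, TT j a b ≤ (j + 1) * j := by
  have h1 : ∑ a ∈ S, ∑ b ∈ S, TT j a b + ∑ a ∈ S, ∑ b ∈ Sᶜ, TT j a b = j * S.card := by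
    rw [← Finset.sum_add_distrib]
    have : ∀ a ∈ S, ∑ b ∈ S, TT j a b + ∑ b ∈ Sᶜ, TT j a b = j := by
      intro a _
      rw [Finset.sum_add_sum_compl, TT_out j a]
    rw [Finset.sum_congr rfl this, Finset.sum_const, smul_eq_mul, mul_comm]
  have h2 : 2 * ∑ a ∈ S, ∑ b ∈ S, TT j a b + S.card = S.card * S.card := by
    have h3 : ∑ a ∈ S, (∑ b ∈ S, TT j a b + ∑ b ∈ S, TT j b a + 1) = ∑ a ∈ S, S.card := by
      refine Finset.sum_congr rfl (fun a ha => ?_)
      rw [← Finset.sum_add_distrib]
      rw [Finset.sum_congr rfl (fun b _ => TT_tour j a b)]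
      have h4 : ∑ b ∈ S, (if a = b then 1 else 0) = 1 := by
        rw [Finset.sum_ite_eq, if_pos ha]
      have h5 : ∑ b ∈ S, (if a = b then 0 else 1) + ∑ b ∈ S, (if a = b then 1 else 0) =
          ∑ b ∈ S, 1 := by
        rw [← Finset.sum_add_distrib]
        refine Finset.sum_congr rfl (fun b _ => ?_)
        split_ifs <;> rfl
      rw [h4] at h5
      rw [h5, ← Finset.card_eq_sum_ones]
    rw [Finset.sum_add_distrib, Finset.sum_add_distrib, ← Finset.card_eq_sum_ones,
      Finset.sum_comm (s := S) (t := S) (f := fun a b => TT j b a), Finset.sum_const,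
      smul_eq_mul] at h3
    omega
  have h6 : S.card ≤ 2 * j + 1 := by
    have := Finset.card_le_univ S
    rwa [ZMod.card] at this
  set s := S.card
  set A := ∑ a ∈ S, ∑ b ∈ S, TT j a b
  set B := ∑ a ∈ S, ∑ b ∈ Sᶜ, TT j a b
  have h7 : 2 * B + s * s = (2 * j + 1) * s := by nlinarith
  rcases Nat.lt_or_ge s (j + 1) with h | h
  · obtain ⟨t, ht⟩ : ∃ t, j = s + t := ⟨j - s, by omega⟩
    rw [ht] at h7 ⊢
    nlinarith
  · obtain ⟨t, ht⟩ : ∃ t, s = j + 1 + t := ⟨s - (j + 1), by omega⟩
    rw [ht] at h7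
    nlinarith

end tournament

section example_digraph

variable (j q : ℕ)

/-- adjacency of the extremal digraph: `q + 1` circulant tournaments on `2j+1` vertices, each
vertex sending one further edge to the apex `none`, and the apex sending `j + 1` edges. -/
def adj : Option (Fin (q + 1) × ZMod (2 * j + 1)) → Option (Fin (q + 1) × ZMod (2 * j + 1)) → Prop
  | some x, some y => x.1 = y.1 ∧ (1 ≤ (y.2 - x.2).val ∧ (y.2 - x.2).val ≤ j)
  | some _, none => True
  | none, some y => y.1 = 0 ∧ y.2.val < j + 1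
  | none, none => False

instance : DecidableRel (adj j q)
  | some x, some y => by unfold adj; infer_instance
  | some _, none => by unfold adj; infer_instance
  | none, some y => by unfold adj; infer_instance
  | none, none => by unfold adj; infer_instance

/-- the extremal digraph -/
def exD : Finset (Option (Fin (q + 1) × ZMod (2 * j + 1)) × Option (Fin (q + 1) × ZMod (2 * j + 1))) :=
  Finset.univ.filter (fun p => adj j q p.1 p.2)

theorem mem_exD (x y : Option (Fin (q + 1) × ZMod (2 * j + 1))) :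
    (x, y) ∈ exD j q ↔ adj j q x y := by
  simp [exD]

theorem exD_loopless : ∀ p ∈ exD j q, p.1 ≠ p.2 := by
  rintro ⟨x, y⟩ h
  rw [mem_exD] at h
  intro hxy
  simp only at hxy
  subst hxy
  rcases x with _ | x
  · exact h
  · have := h.2.1
    simp at this

theorem dd_ss (x y : Fin (q + 1) × ZMod (2 * j + 1)) :
    dd (exD j q) (some x) (some y) = if x.1 = y.1 then TT j x.2 y.2 else 0 := by
  unfold dd TT
  have : ((some x, some y) ∈ exD j q) ↔
      (x.1 = y.1 ∧ (1 ≤ (y.2 - x.2).val ∧ (y.2 - x.2).val ≤ j)) := by rw [mem_exD]; rfl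
  by_cases h : x.1 = y.1
  · rw [if_pos h]
    by_cases h' : 1 ≤ (y.2 - x.2).val ∧ (y.2 - x.2).val ≤ j
    · rw [if_pos (this.mpr ⟨h, h'⟩), if_pos h']
    · rw [if_neg (fun h'' => h' (this.mp h'').2), if_neg h']
  · rw [if_neg h, if_neg (fun h'' => h (this.mp h'').1)]

theorem dd_sn (x : Fin (q + 1) × ZMod (2 * j + 1)) : dd (exD j q) (some x) none = 1 := by
  unfold dd; rw [if_pos]; rw [mem_exD]; trivial

theorem dd_nn : dd (exD j q) none none = 0 := by
  unfold dd; rw [if_neg]; rw [mem_exD]; exact fun h => h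

theorem outdeg_none : outdeg (exD j q) none = j + 1 := by
  rw [outdeg_eq_sum, Fintype.sum_option, dd_nn, zero_add, Fintype.sum_prod_type,
    Fin.sum_univ_succ]
  have h1 : ∑ b, dd (exD j q) none (some ((0 : Fin (q + 1)), b)) = j + 1 := by
    rw [← card_val_lt (2 * j + 1) (j + 1) (by omega)]
    refine Finset.sum_congr rfl (fun b _ => ?_)
    unfold dd
    have : ((none, some ((0 : Fin (q + 1)), b)) ∈ exD j q) ↔ b.val < j + 1 := by
      rw [mem_exD]
      exact ⟨fun h => h.2, fun h => ⟨rfl, h⟩⟩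
    by_cases h : b.val < j + 1
    · rw [if_pos (this.mpr h), if_pos h]
    · rw [if_neg (fun h' => h (this.mp h')), if_neg h]
  have h2 : ∑ i : Fin q, ∑ b, dd (exD j q) none (some (i.succ, b)) = 0 := by
    refine Finset.sum_eq_zero (fun i _ => Finset.sum_eq_zero (fun b _ => ?_))
    unfold dd
    rw [if_neg]
    rw [mem_exD]
    exact fun h => Fin.succ_ne_zero i h.1
  rw [h1, h2, add_zero]

theorem outdeg_some (x : Fin (q + 1) × ZMod (2 * j + 1)) : outdeg (exD j q) (some x) = j + 1 := by
  rw [outdeg_eq_sum, Fintype.sum_option, dd_sn, Fintype.sum_prod_type]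
  have : ∑ i, ∑ b, dd (exD j q) (some x) (some (i, b)) = j := by
    rw [Finset.sum_eq_single x.1]
    · refine (Finset.sum_congr rfl (fun b _ => ?_)).trans (TT_out j x.2)
      rw [dd_ss, if_pos rfl]
    · intro i _ hi
      refine Finset.sum_eq_zero (fun b _ => ?_)
      rw [dd_ss, if_neg (fun h => hi h.symm)]
    · intro h; exact absurd (Finset.mem_univ _) h
  rw [this]; ring

theorem outdeg_exD (x : Option (Fin (q + 1) × ZMod (2 * j + 1))) : outdeg (exD j q) x = j + 1 := by
  rcases x with _ | x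
  · exact outdeg_none j q
  · exact outdeg_some j q x

theorem card_exD : (exD j q).card = (j + 1) * ((q + 1) * (2 * j + 1) + 1) := by
  rw [card_eq_sum_outdeg, Finset.sum_congr rfl (fun x _ => outdeg_exD j q x), Finset.sum_const,
    smul_eq_mul, Finset.card_univ, Fintype.card_option, Fintype.card_prod, Fintype.card_fin,
    ZMod.card, mul_comm]

theorem cut_exD (X : Finset (Option (Fin (q + 1) × ZMod (2 * j + 1)))) (hX : none ∈ X) :
    2 * cut (exD j q) X Xᶜ ≤ 2 * (j + 1) + (q + 1) * ((j + 1) * j) := by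
  have h0 : cut (exD j q) X Xᶜ = ∑ x, ∑ y, (if x ∈ X ∧ y ∉ X then dd (exD j q) x y else 0) := by
    rw [cut_eq_sum]
    rw [← Finset.sum_filter_add_sum_filter_not Finset.univ (fun x => x ∈ X)]
    have e1 : Finset.univ.filter (fun x => x ∈ X) = X := by ext x; simp
    rw [e1]
    have e2 : ∑ x ∈ Finset.univ.filter (fun x => ¬ x ∈ X),
        ∑ y, (if x ∈ X ∧ y ∉ X then dd (exD j q) x y else 0) = 0 := by
      refine Finset.sum_eq_zero (fun x hx => Finset.sum_eq_zero (fun y _ => ?_))
      rw [if_neg]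
      intro h
      exact (Finset.mem_filter.mp hx).2 h.1
    rw [e2, add_zero]
    refine Finset.sum_congr rfl (fun x hx => ?_)
    rw [← Finset.sum_filter]
    apply Finset.sum_congr _ (fun _ _ => rfl)
    ext y
    simp [hx]
  rw [h0, Fintype.sum_option]
  have h1 : ∑ y, (if (none : Option (Fin (q + 1) × ZMod (2 * j + 1))) ∈ X ∧ y ∉ X then
      dd (exD j q) none y else 0) ≤ j + 1 := by
    rw [← outdeg_none j q, outdeg_eq_sum]
    refine Finset.sum_le_sum (fun y _ => ?_)
    split_ifs <;> omega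
  have h2 : 2 * ∑ x : Fin (q + 1) × ZMod (2 * j + 1),
      ∑ y, (if some x ∈ X ∧ y ∉ X then dd (exD j q) (some x) y else 0) ≤
      (q + 1) * ((j + 1) * j) := by
    have h3 : ∀ i : Fin (q + 1), 2 * ∑ a : ZMod (2 * j + 1),
        ∑ y, (if some (i, a) ∈ X ∧ y ∉ X then dd (exD j q) (some (i, a)) y else 0) ≤
        (j + 1) * j := by
      intro i
      set S : Finset (ZMod (2 * j + 1)) := Finset.univ.filter (fun a => some (i, a) ∈ X) with hS
      have h4 : ∀ a : ZMod (2 * j + 1),
          ∑ y, (if some (i, a) ∈ X ∧ y ∉ X then dd (exD j q) (some (i, a)) y else 0) =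
          if a ∈ S then ∑ b ∈ Sᶜ, TT j a b else 0 := by
        intro a
        rw [Fintype.sum_option, if_neg (by rintro ⟨_, h⟩; exact h hX), zero_add,
          Fintype.sum_prod_type, Finset.sum_eq_single i]
        · by_cases ha : a ∈ S
          · rw [if_pos ha]
            have ha' : some (i, a) ∈ X := by simpa [hS] using ha
            have : Sᶜ = Finset.univ.filter (fun b => some (i, b) ∉ X) := by
              ext b; simp [hS]
            rw [this, Finset.sum_filter]
            refine Finset.sum_congr rfl (fun b _ => ?_)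
            rw [dd_ss]
            by_cases hb : some (i, b) ∉ X
            · rw [if_pos ⟨ha', hb⟩, if_pos rfl, if_pos hb]
            · rw [if_neg (fun h => hb h.2), if_neg hb]
          · rw [if_neg ha]
            have ha' : some (i, a) ∉ X := by simpa [hS] using ha
            refine Finset.sum_eq_zero (fun b _ => ?_)
            rw [if_neg (fun h => ha' h.1)]
        · intro i' _ hi'
          refine Finset.sum_eq_zero (fun b _ => ?_)
          rw [dd_ss, if_neg (fun h : i = i' => hi' h.symm), ite_self]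
        · intro h; exact absurd (Finset.mem_univ _) h
      rw [Finset.sum_congr rfl (fun a _ => h4 a), ← Finset.sum_filter]
      have : Finset.univ.filter (fun a => a ∈ S) = S := by ext; simp
      rw [this]
      exact TT_cut j S
    rw [Fintype.sum_prod_type, Finset.mul_sum]
    refine (Finset.sum_le_sum (fun i _ => h3 i)).trans ?_
    rw [Finset.sum_const, smul_eq_mul, Finset.card_univ, Fintype.card_fin]
  omega

theorem best_exD : 2 * best (exD j q) ≤ 2 * (j + 1) + (q + 1) * ((j + 1) * j) := by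
  have : best (exD j q) ≤ (2 * (j + 1) + (q + 1) * ((j + 1) * j)) / 2 := by
    unfold best
    refine Finset.sup_le (fun X _ => ?_)
    by_cases hX : none ∈ X
    · have := cut_exD j q X hX
      exact (min_le_left _ _).trans (by omega)
    · have h1 : none ∈ Xᶜ := Finset.mem_compl.mpr hX
      have h2 := cut_exD j q Xᶜ h1
      rw [compl_compl] at h2
      exact (min_le_right _ _).trans (by omega)
  omega

theorem mem_ratios : (best (exD j q) : ℝ) / (exD j q).card ∈ ratios (j + 1) :=
  ⟨_, inferInstance, inferInstance, exD j q, exD_loopless j q, fun v => (outdeg_exD j q v).ge, by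
    rw [card_exD]; exact Nat.succ_le_of_lt (by positivity), rfl⟩

end example_digraph

theorem c_upper (k : ℕ) (hk : 1 ≤ k) : c k ≤ ((k : ℝ) - 1) / (2 * (2 * k - 1)) := by
  obtain ⟨j, rfl⟩ : ∃ j, k = j + 1 := ⟨k - 1, by omega⟩
  have hc : ∀ q : ℕ, c (j + 1) * (2 * ((q + 1) * (2 * j + 1) + 1)) ≤ 2 + (q + 1) * j := by
    intro q
    have h1 : c (j + 1) ≤ (best (exD j q) : ℝ) / (exD j q).card :=
      csInf_le (ratios_bddBelow _) (mem_ratios j q)
    have h2 : (2 * best (exD j q) : ℝ) ≤ 2 * (j + 1) + (q + 1) * ((j + 1) * j) := by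
      exact_mod_cast best_exD j q
    have h3 : ((exD j q).card : ℝ) = (j + 1) * ((q + 1) * (2 * j + 1) + 1) := by
      exact_mod_cast card_exD j q
    rw [h3] at h1
    have hpos : (0 : ℝ) < (j + 1) * ((q + 1) * (2 * j + 1) + 1) := by positivity
    rw [le_div_iff₀ hpos] at h1
    have hj : (0 : ℝ) < j + 1 := by positivity
    have h4 : (j + 1 : ℝ) * (c (j + 1) * (2 * ((q + 1) * (2 * j + 1) + 1))) ≤
        (j + 1 : ℝ) * (2 + (q + 1) * j) := by nlinarith
    exact le_of_mul_le_mul_left h4 hj
  have hc0 : 0 ≤ c (j + 1) := Real.sInf_nonneg (ratios_nonneg _)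
  push_cast
  have hden : (0 : ℝ) < 2 * (2 * ((j : ℝ) + 1) - 1) := by
    have : (0 : ℝ) ≤ j := by positivity
    linarith
  rw [le_div_iff₀ hden]
  by_contra hcon
  push Not at hcon
  set δ := c (j + 1) * (2 * (2 * ((j : ℝ) + 1) - 1)) - ((j : ℝ) + 1 - 1) with hδ
  have hδpos : 0 < δ := by rw [hδ]; linarith
  obtain ⟨q, hq⟩ := exists_nat_gt (2 / δ)
  rw [div_lt_iff₀ hδpos] at hq
  have h5 := hc q
  nlinarith

theorem ratios_nonempty (k : ℕ) (hk : 1 ≤ k) : (ratios k).Nonempty := by
  obtain ⟨j, rfl⟩ : ∃ j, k = j + 1 := ⟨k - 1, by omega⟩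
  exact ⟨_, mem_ratios j 0⟩

theorem c_lower (k : ℕ) (hk : 1 ≤ k) : ((k : ℝ) - 1) / (4 * k) ≤ c k :=
  le_csInf (ratios_nonempty k hk) (ratios_lower k hk)

theorem c_two : c 2 = 1 / 6 := by
  apply le_antisymm
  · have := c_upper 2 (by norm_num)
    norm_num at this ⊢
    exact this
  · refine le_csInf (ratios_nonempty 2 (by norm_num)) ?_
    rintro r ⟨V, _, _, D, hD, hout, hcard, rfl⟩
    have h := two_bound D hD hout
    have h' : (D.card : ℝ) ≤ 6 * best D := by exact_mod_cast h
    have hc' : (0 : ℝ) < D.card := by exact_mod_cast hcard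
    rw [div_le_div_iff₀ (by norm_num) hc']
    linarith

end Pool.Agent.Judicious


end

section

/-!
# From the leaves of the decision tree to the constant of the problem
-/

set_option autoImplicit false
set_option linter.unusedSectionVars false

namespace Pool.Agent.Exact

open Finset

/-- all leaves of the decision tree are good -/
def LeafsOK : Prop := ∀ (V : Type) [Fintype V] [DecidableEq V] (B : V → V → ℤ) (Rl : Finset V)
  (ℓ nQ nP : ℕ) (uq up : ℕ → V) (q p : ℕ → ℝ) (k : ℤ) (θ : ℝ), Ctx B Rl ℓ nQ nP uq up q p k θ →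
  2 * k - 1 ≤ (Rl.card : ℤ) → p 0 ≤ q 0 → LeafC B Rl.card ℓ nQ nP uq up q p θ → Val B θ

section
variable {V : Type} [Fintype V] [DecidableEq V]
variable {B : V → V → ℤ} {Rl : Finset V} {ℓ nQ nP : ℕ} {uq up : ℕ → V} {q p : ℕ → ℝ}
variable {k : ℤ} {θ : ℝ}

lemma Ctx.valAux (H : LeafsOK) (h : Ctx B Rl ℓ nQ nP uq up q p k θ) (hpq : p 0 ≤ q 0)
    (hw : (∃ j < ℓ, θ < p (2 * j) - p (2 * j + 1)) → (∃ i < ℓ, θ < q (2 * i) - q (2 * i + 1)) ∨
      p 0 ≤ q 0 - 1) : Val B θ := by
  rcases lt_or_ge (Rl.card : ℤ) (2 * k - 1) with hn | hn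
  · exact h.small hn hpq
  · by_contra hnv
    obtain ⟨uq', h', hL⟩ := h.leafC hn hnv hpq hw
    exact hnv (H V B Rl ℓ nQ nP uq' up q p k θ h' hn hpq hL)

lemma Ctx.valLt (H : LeafsOK) (h : Ctx B Rl ℓ nQ nP uq up q p k θ) (hpq : p 0 < q 0) :
    Val B θ := by
  have hl := h.fr.l2
  refine h.valAux H hpq.le fun _ => Or.inr ?_
  have h1 := h.fr.sys.wtQ 0 (by omega)
  have h2 := h.fr.sys.wtP 0 (by omega)
  have h3 : ((im B (uq 0) : ℤ) : ℝ) > ((-im B (up 0) : ℤ) : ℝ) := by
    push_cast
    rw [h1, h2]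
    linarith
  have h4 : -im B (up 0) + 1 ≤ im B (uq 0) := by
    have : -im B (up 0) < im B (uq 0) := by exact_mod_cast h3
    omega
  have h5 : ((-im B (up 0) + 1 : ℤ) : ℝ) ≤ ((im B (uq 0) : ℤ) : ℝ) := by exact_mod_cast h4
  push_cast at h5
  rw [h1, h2] at h5
  linarith

theorem Ctx.val (H : LeafsOK) (h : Ctx B Rl ℓ nQ nP uq up q p k θ) : Val B θ := by
  rcases lt_trichotomy (p 0) (q 0) with hpq | hpq | hpq
  · exact h.valLt H hpq
  · by_cases hc : (∃ j < ℓ, θ < p (2 * j) - p (2 * j + 1)) →
        (∃ i < ℓ, θ < q (2 * i) - q (2 * i + 1))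
    · exact h.valAux H hpq.le fun h1 => Or.inl (hc h1)
    · push Not at hc
      exact Val_Tr (h.swap.valAux H hpq.ge fun _ => Or.inl hc.1)
  · exact Val_Tr (h.swap.valLt H hpq)

end

section
variable {V : Type} [Fintype V] [DecidableEq V] {B : V → V → ℤ}

lemma mm_Bx (d : ℕ) : mm (Bx B d) = mm B := by
  unfold mm
  simp [Fintype.sum_sum_type, Bx]

theorem val_digraph (H : LeafsOK) (h0 : ∀ u v, 0 ≤ B u v) (h1 : ∀ u v, B u v ≤ 1)
    (hB : ∀ v, B v v = 0) {k : ℤ} (k3 : 3 ≤ k) (hout : ∀ v, k ≤ ∑ u, B v u) :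
    Val B ((mm B : ℝ) / (2 * k - 1)) := by
  obtain ⟨d, L, nQ, nP, uq, up, q, p, hs, hL⟩ := exists_sys h0 h1 hB
  obtain ⟨ℓ, rfl⟩ := hL.two_dvd
  have k3r : (3 : ℝ) ≤ k := by exact_mod_cast k3
  have hC : Ctx (Bx B d) ((univ : Finset V).map ⟨Sum.inl, Sum.inl_injective⟩) ℓ nQ nP uq up q p
      k ((mm B : ℝ) / (2 * k - 1)) := by
    refine ⟨⟨hs⟩, k3, ?_, Or.inl ?_⟩
    · rw [mm_Bx]
      exact mul_div_cancel₀ _ (by linarith)
    · intro v hv
      rw [Finset.mem_map] at hv
      obtain ⟨w, -, rfl⟩ := hv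
      have e : ∑ u, Bx B d (Sum.inl w) u = ∑ u, B w u := by
        simp [Fintype.sum_sum_type, Bx]
      show k ≤ ∑ u, Bx B d (Sum.inl w) u
      rw [e]
      exact hout w
  exact Val_Bx (hC.val H)

end

open Pool.Agent.Judicious

section
variable {V : Type} [Fintype V] [DecidableEq V]

lemma four_cut (D : Finset (V × V)) (x : V → ℤ) (hx : ∀ v, x v = 1 ∨ x v = -1) :
    4 * (cut D (univ.filter fun v => x v = 1) (univ.filter fun v => x v = 1)ᶜ : ℤ) =
      ∑ u, ∑ v, (dd D u v : ℤ) * ((1 + x u) * (1 - x v)) := by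
  rw [cut_eq_sum]
  push_cast
  rw [Finset.mul_sum, Finset.sum_filter]
  refine Finset.sum_congr rfl fun u _ => ?_
  rcases hx u with h1 | h1
  · rw [if_pos h1, h1, Finset.mul_sum, Finset.compl_filter, Finset.sum_filter]
    refine Finset.sum_congr rfl fun v _ => ?_
    rcases hx v with h2 | h2
    · rw [if_neg (by simp [h2]), h2]; ring
    · rw [if_pos (by rw [h2]; norm_num), h2]; ring
  · rw [if_neg (by rw [h1]; norm_num), h1]
    simp

lemma four_cut' (D : Finset (V × V)) (x : V → ℤ) (hx : ∀ v, x v = 1 ∨ x v = -1) :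
    4 * (cut D (univ.filter fun v => x v = 1) (univ.filter fun v => x v = 1)ᶜ : ℤ) =
      D.card + ∑ v, im (fun u v => (dd D u v : ℤ)) v * x v -
        Qd (fun u v => (dd D u v : ℤ)) univ x := by
  rw [four_cut D x hx, card_eq_sum_dd]
  unfold im Qd
  have e1 : ∑ v, (∑ u, (dd D v u : ℤ) - ∑ u, (dd D u v : ℤ)) * x v =
      ∑ u, ∑ v, (dd D u v : ℤ) * x u - ∑ u, ∑ v, (dd D u v : ℤ) * x v := by
    have e2 : ∑ u, ∑ v, (dd D u v : ℤ) * x v = ∑ v, ∑ u, (dd D u v : ℤ) * x v :=
      Finset.sum_comm
    rw [e2, ← Finset.sum_sub_distrib]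
    refine Finset.sum_congr rfl fun v _ => ?_
    rw [sub_mul, Finset.sum_mul, Finset.sum_mul]
  rw [e1]
  push_cast
  rw [← Finset.sum_sub_distrib, ← Finset.sum_add_distrib, ← Finset.sum_sub_distrib]
  refine Finset.sum_congr rfl fun u _ => ?_
  rw [← Finset.sum_sub_distrib, ← Finset.sum_add_distrib, ← Finset.sum_sub_distrib]
  refine Finset.sum_congr rfl fun v _ => ?_
  ring

theorem best_ge (D : Finset (V × V)) {θ : ℝ} (h : Val (fun u v => (dd D u v : ℤ)) θ) :
    (D.card : ℝ) - θ ≤ 4 * best D := by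
  obtain ⟨x, hx, hv⟩ := h
  set X : Finset V := univ.filter fun v => x v = 1 with hX
  have h1 := four_cut' D x hx
  have h2 := four_cut' D (fun v => - x v) (fun v => by rcases hx v with h | h <;> simp [h])
  have e1 : (univ.filter fun v => - x v = 1) = Xᶜ := by
    rw [hX, Finset.compl_filter]
    ext v
    simp only [Finset.mem_filter, Finset.mem_univ, true_and]
    rcases hx v with h | h <;> simp [h]
  rw [← hX] at h1
  rw [e1, compl_compl] at h2
  have e2 : Qd (fun u v => (dd D u v : ℤ)) univ (fun v => - x v) =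
      Qd (fun u v => (dd D u v : ℤ)) univ x := by
    unfold Qd
    refine Finset.sum_congr rfl fun u _ => Finset.sum_congr rfl fun v _ => ?_
    ring
  have e3 : ∑ v, im (fun u v => (dd D u v : ℤ)) v * (- x v) =
      - ∑ v, im (fun u v => (dd D u v : ℤ)) v * x v := by
    rw [← Finset.sum_neg_distrib]
    exact Finset.sum_congr rfl fun v _ => by ring
  rw [e2, e3] at h2
  have h3 : min (cut D X Xᶜ) (cut D Xᶜ X) ≤ best D :=
    Finset.le_sup (f := fun X : Finset V => min (cut D X Xᶜ) (cut D Xᶜ X)) (Finset.mem_univ X)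
  have h1r : 4 * (cut D X Xᶜ : ℝ) = D.card +
      ((∑ v, im (fun u v => (dd D u v : ℤ)) v * x v : ℤ) : ℝ) -
        ((Qd (fun u v => (dd D u v : ℤ)) univ x : ℤ) : ℝ) := by exact_mod_cast h1
  have h2r : 4 * (cut D Xᶜ X : ℝ) = D.card +
      ((- ∑ v, im (fun u v => (dd D u v : ℤ)) v * x v : ℤ) : ℝ) -
        ((Qd (fun u v => (dd D u v : ℤ)) univ x : ℤ) : ℝ) := by exact_mod_cast h2
  push_cast at h1r h2r hv
  have h4 := le_abs_self (∑ v, ((im (fun u v => (dd D u v : ℤ)) v : ℤ) : ℝ) * (x v : ℝ))
  have h5 := neg_abs_le (∑ v, ((im (fun u v => (dd D u v : ℤ)) v : ℤ) : ℝ) * (x v : ℝ))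
  rcases le_total (cut D X Xᶜ) (cut D Xᶜ X) with h6 | h6
  · rw [min_eq_left h6] at h3
    have h7 : (cut D X Xᶜ : ℝ) ≤ best D := by exact_mod_cast h3
    linarith
  · rw [min_eq_right h6] at h3
    have h7 : (cut D Xᶜ X : ℝ) ≤ best D := by exact_mod_cast h3
    linarith

end

/-- **The exact value of the constant, if all leaves are good.** -/
theorem c_exact (H : LeafsOK) (k : ℕ) (hk : 1 ≤ k) : c k = ((k : ℝ) - 1) / (2 * (2 * k - 1)) := by
  refine le_antisymm (c_upper k hk) ?_
  rcases (show k = 1 ∨ k = 2 ∨ 3 ≤ k by omega) with h1 | h1 | h1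
  · subst h1
    have := c_lower 1 le_rfl
    norm_num at this ⊢
    exact this
  · subst h1
    rw [c_two]
    norm_num
  · refine le_csInf (ratios_nonempty k hk) ?_
    rintro r ⟨V, _, _, D, hD, hout, hcard, rfl⟩
    have k3r : (3 : ℝ) ≤ k := by exact_mod_cast h1
    have hc : (0 : ℝ) < D.card := by exact_mod_cast hcard
    have hv := val_digraph (B := fun u v => (dd D u v : ℤ)) H (fun u v => by positivity)
      (fun u v => by unfold dd; split_ifs <;> norm_num)
      (fun v => by
        unfold dd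
        have : (v, v) ∉ D := fun h => hD _ h rfl
        simp [this]) (k := k) (by exact_mod_cast h1)
      (fun v => by
        have h2 := hout v
        rw [outdeg_eq_sum] at h2
        exact_mod_cast h2)
    have hm : (mm (fun u v => (dd D u v : ℤ)) : ℝ) = D.card := by
      have : mm (fun u v => (dd D u v : ℤ)) = (D.card : ℤ) := by
        unfold mm
        rw [card_eq_sum_dd]
        push_cast
        rfl
      rw [this]
      push_cast
      rfl
    rw [hm] at hv
    have h2 := best_ge D hv
    have h3 : (0 : ℝ) < 2 * k - 1 := by linarith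
    rw [div_le_div_iff₀ (by linarith) hc]
    push_cast at h2
    have h4 : (D.card : ℝ) / (2 * k - 1) * (2 * k - 1) = D.card := by
      field_simp
    have h5 := mul_le_mul_of_nonneg_right h2 h3.le
    rw [sub_mul, h4] at h5
    linarith

end Pool.Agent.Exact


end
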