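import Mathlib
import Pool.Agent.EXAM.C16

/-! Parts: Lib_helper23.Exact.ArithPi -/

section

/-!
# Arithmetic for hubs of both types, minimum indegree at least `k`
-/

set_option autoImplicit false
set_option linter.unusedSectionVars false

namespace Pool.Agent.Exact

namespace Pi

/-- the polynomial inequality, many hubs of the first type -/
lemma polyA {κ b a k P ε μ δ : ℝ} (hk : k = κ + b + 1) (hκ : 1 ≤ κ) (hb : 2 ≤ b) (ha : k ≤ a)
    (hP : 0 ≤ P) (hε : 0 ≤ ε) (hμ : 0 ≤ μ) (hδ : 0 ≤ δ) (hD : 3 * (P + ε) + 2 ≤ κ * μ) :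
    P * (2 * P + 3 * ε + μ + (2 * k + 3 - a - b) + k + δ) + P ≤
      μ * (a * P + (k - 1) * δ + k * κ) := by
  have h1 : 0 ≤ (a - 1 - κ) * (μ * P) := mul_nonneg (by linarith) (mul_nonneg hμ hP)
  have h2 : 0 ≤ (κ * μ - (3 * (P + ε) + 2)) * P := mul_nonneg (by linarith) hP
  have h3 : 0 ≤ (k - 1 - κ) * (μ * δ) := mul_nonneg (by linarith) (mul_nonneg hμ hδ)
  have h4 : 0 ≤ (κ * μ - (3 * (P + ε) + 2)) * δ := mul_nonneg (by linarith) hδ
  have h5 : 0 ≤ (κ * μ - (3 * (P + ε) + 2)) * k := mul_nonneg (by linarith) (by linarith)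
  have h6 : 0 ≤ (a + b - k - 2) * P := mul_nonneg (by linarith) hP
  have h7 : 0 ≤ P * P := mul_nonneg hP hP
  have h8 : 0 ≤ ε * δ := mul_nonneg hε hδ
  have h9 : 0 ≤ P * δ := mul_nonneg hP hδ
  have h10 : 0 ≤ k * ε := mul_nonneg (by linarith) hε
  nlinarith

/-- the polynomial inequality, few hubs of the first type -/
lemma polyB {κ b α k P ε μ δ : ℝ} (hk : k = κ + b + 1) (hα : 1 ≤ α) (hκ : α ≤ κ) (hb : 2 ≤ b)
    (hP : 0 ≤ P) (hε : 0 ≤ ε) (hμ : 0 ≤ μ) (hδ : 0 ≤ δ) (hD : 3 * (P + ε) + 2 ≤ κ * μ) :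
    P * (2 * P + 3 * ε + μ + (κ + α) + 4 + δ) ≤
      μ * ((k + α) * P + (k - 1 / 2) * δ + k * (κ - α) + α * (κ + α + 2)) := by
  have h1 : 0 ≤ (k + α - 1 - κ) * (μ * P) := mul_nonneg (by linarith) (mul_nonneg hμ hP)
  have h2 : 0 ≤ (κ * μ - (3 * (P + ε) + 2)) * P := mul_nonneg (by linarith) hP
  have h3 : 0 ≤ (k - 1 / 2 - κ) * (μ * δ) := mul_nonneg (by linarith) (mul_nonneg hμ hδ)
  have h4 : 0 ≤ (κ * μ - (3 * (P + ε) + 2)) * δ := mul_nonneg (by linarith) hδ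
  have h7 : 0 ≤ P * P := mul_nonneg hP hP
  have h8 : 0 ≤ ε * δ := mul_nonneg hε hδ
  have h9 : 0 ≤ P * δ := mul_nonneg hP hδ
  -- the constant
  have h10 : (κ + α + 2) * P ≤ μ * (k * (κ - α) + α * (κ + α + 2)) := by
    have h11 : κ * ((κ + α + 2) * P) ≤ κ * (μ * (k * (κ - α) + α * (κ + α + 2))) := by
      have hc : 0 ≤ k * (κ - α) + α * (κ + α + 2) := by
        have := mul_nonneg (by linarith : 0 ≤ k) (by linarith : 0 ≤ κ - α)
        have := mul_nonneg (by linarith : 0 ≤ α) (by linarith : 0 ≤ κ + α + 2)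
        linarith
      have h12 : (3 * P) * (k * (κ - α) + α * (κ + α + 2)) ≤
          (κ * μ) * (k * (κ - α) + α * (κ + α + 2)) :=
        mul_le_mul_of_nonneg_right (by linarith) hc
      have h13 : κ * (κ + α + 2) ≤ 3 * (k * (κ - α) + α * (κ + α + 2)) := by
        have h14 : 0 ≤ (3 * k - (κ + α + 2)) * (κ - α) :=
          mul_nonneg (by linarith) (by linarith)
        have h15 : 0 ≤ α * (κ + α + 2) := mul_nonneg (by linarith) (by linarith)
        nlinarith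
      have h16 := mul_le_mul_of_nonneg_right h13 hP
      nlinarith
    exact le_of_mul_le_mul_left h11 (by linarith)
  nlinarith

variable {k θ n a b ρ σ q0 SQ SP bS c0 g : ℝ}

/-- the basic consequence of the counting facts -/
lemma base (c : CntPi k θ n a b ρ σ q0 SQ SP bS c0) (hSP : b * (θ - 2) ≤ SP) :
    (b + 1) * (θ - (2 * θ - n + 1) - k) + 2 ≤ (k - b - 1) * (2 * θ - n + 1 - 2) := by
  have h1 := c.F
  nlinarith

/-- few hubs of the second type -/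
lemma kpos (c : CntPi k θ n a b ρ σ q0 SQ SP bS c0) (hSP : b * (θ - 2) ≤ SP) (hb : 0 ≤ b)
    (hl : 2 ≤ 2 * θ - n + 1) (hK : q0 ≤ n - 1 - k) (hq : θ ≤ q0) : 0 < k - b - 1 := by
  have h1 := base c hSP
  have h2 : 0 ≤ (b + 1) * (θ - (2 * θ - n + 1) - k) := mul_nonneg (by linarith) (by linarith)
  by_contra hc
  push Not at hc
  have h3 : (k - b - 1) * (2 * θ - n + 1 - 2) ≤ 0 :=
    mul_nonpos_of_nonpos_of_nonneg hc (by linarith)
  linarith

/-- the number of hubs of the first type -/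
lemma apos (c : CntPi k θ n a b ρ σ q0 SQ SP bS c0) (hSP : b * (θ - 2) ≤ SP) (hb : 2 ≤ b)
    (hl : 2 ≤ 2 * θ - n + 1) (hK : q0 ≤ n - 1 - k) (hq : θ + g ≤ q0) (hg : 0 ≤ g)
    (hρ : ρ ≤ 2 * g) (ha : a ≤ k) : k - a < k - b - 1 := by
  have h1 := c.F'
  have hn := c.card
  have hk := kpos c hSP (by linarith) hl hK (by linarith)
  by_contra hc
  push Not at hc
  have hσ : σ = n - a - b - ρ := by linarith
  have h2 : (b + 1) * (θ - (2 * θ - n + 1) - k) + 2 * (k - b - 1) + 2 + (k - a) * σ - ρ ≤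
      (k - b - 1) * (2 * θ - n + 1) := by
    nlinarith
  -- `σ` is large
  have h3 : 2 * θ - n + 1 + (2 * k - 1 - a - b) + 2 ≤ σ := by
    rw [hσ]
    linarith
  have h4 : (k - a) * (2 * θ - n + 1 + (2 * k - 1 - a - b) + 2) ≤ (k - a) * σ :=
    mul_le_mul_of_nonneg_left h3 (by linarith)
  have h5 : 0 ≤ (k - a) * (2 * k - 1 - a - b + 2) := mul_nonneg (by linarith) (by linarith)
  have h6 : (k - b - 1) * (2 * θ - n + 1) ≤ (k - a) * (2 * θ - n + 1) :=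
    mul_le_mul_of_nonneg_right hc (by linarith)
  have h7 : 0 ≤ (b + 1) * (θ - (2 * θ - n + 1) - k - g) := mul_nonneg (by linarith) (by linarith)
  have h8 : 0 ≤ (b - 1) * g := mul_nonneg (by linarith) hg
  nlinarith

/-- the lower bound for the excesses, many hubs of the first type -/
lemma GA {G : ℝ} (c : CntPi k θ n a b ρ σ q0 SQ SP bS c0) (hSQ : q0 + (a - 1) * (θ + g) ≤ SQ)
    (hG : bS - c0 ≤ G) (hb : 0 ≤ b) (hl : 2 ≤ 2 * θ - n + 1) (hK : q0 ≤ n - 1 - k)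
    (hg : 0 ≤ g) (ha : k ≤ a) (hk : 2 ≤ k) :
    a * (q0 - θ - g) + (k - 1) * (2 * g - ρ) + k * (k - b - 1) + (a + b - 1) ≤ G := by
  have h1 := c.G
  have h2 := c.c
  have hσ : σ = n - a - b - ρ := by linarith [c.card]
  have key : q0 + (a - 1) * (θ + g) + k * a + (k - 1) * σ - (2 * k - 1) * θ - (n - 1 - q0) =
      a * (q0 - θ - g) + (a - k) * (2 * θ - n + 1) + k * (a - b - 1) + (a + b - 1) +
      (a - 2) * (n - 1 - k - q0) + (2 * a + 1 - 2 * k) * g + (k - 1) * (2 * g - ρ) := by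
    rw [hσ]; ring
  have h3 : 0 ≤ (a - k) * (2 * θ - n + 1) := mul_nonneg (by linarith) (by linarith)
  have h4 : 0 ≤ (a - 2) * (n - 1 - k - q0) := mul_nonneg (by linarith) (by linarith)
  have h5 : 0 ≤ (2 * a + 1 - 2 * k) * g := mul_nonneg (by linarith) hg
  have h6 : 0 ≤ k * (a - k) := mul_nonneg (by linarith) (by linarith)
  linarith

/-- the lower bound for the excesses, few hubs of the first type -/
lemma GB {G : ℝ} (c : CntPi k θ n a b ρ σ q0 SQ SP bS c0) (hSQ : q0 + (a - 1) * (θ + g) ≤ SQ)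
    (hG : bS - c0 ≤ G) (hK : q0 ≤ n - 1 - k) (ha : a ≤ k) (hk : 2 ≤ k) :
    (k + (k - a)) * (q0 - θ - g) + (k - 1 / 2) * (2 * g - ρ) +
      (k * ((k - b - 1) - (k - a)) + (k - a) * ((k - b - 1) + (k - a) + 2)) + (a + b - 1) ≤ G := by
  have h1 := c.G'
  have h2 := c.c
  have hσ : σ = n - a - b - ρ := by linarith [c.card]
  have key : q0 + (a - 1) * (θ + g) + k * a + (2 * k - a) * σ + (k - a - 1 / 2) * ρ -
      (2 * k - 1) * θ - σ - (n - 1 - q0) =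
      (k + (k - a)) * (q0 - θ - g) + (k - 1 / 2) * (2 * g - ρ) +
      (k * ((k - b - 1) - (k - a)) + (k - a) * ((k - b - 1) + (k - a) + 2)) + (a + b - 1) +
      (k - 2 + (k - a)) * (n - 1 - k - q0) := by
    rw [hσ]; ring
  have h4 : 0 ≤ (k - 2 + (k - a)) * (n - 1 - k - q0) := mul_nonneg (by linarith) (by linarith)
  linarith

/-- **The inequality for nonempty `Rs`.** -/
theorem main1 {G : ℝ} (c : CntPi k θ n a b ρ σ q0 SQ SP bS c0) (hSP : b * (θ - 2) ≤ SP)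
    (hSQ : q0 + (a - 1) * (θ + g) ≤ SQ) (hG : bS - c0 ≤ G) (hb : 2 ≤ b) (ha1 : 1 ≤ a)
    (hl : 2 ≤ 2 * θ - n + 1) (hK : q0 ≤ n - 1 - k) (hg : 1 ≤ g) (hρ : ρ ≤ 2 * g)
    (hP : 0 < q0 - θ - g) (hκ : 1 ≤ k - b - 1) (hα : a < k → 1 ≤ k - a ∧ k - a ≤ k - b - 1) :
    q0 - θ - g ≤ G ∧ σ * (q0 - θ - g) ≤ (2 * θ - n + 1 + g - 3) * G := by
  have h1 := base c hSP
  have hσ : σ = n - a - b - ρ := by linarith [c.card]
  obtain ⟨P, hPd⟩ : ∃ P, P = q0 - θ - g := ⟨_, rfl⟩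
  obtain ⟨ε, hεd⟩ : ∃ ε, ε = n - 1 - k - q0 := ⟨_, rfl⟩
  obtain ⟨μ, hμd⟩ : ∃ μ, μ = 2 * θ - n + 1 - 2 := ⟨_, rfl⟩
  obtain ⟨δ, hδd⟩ : ∃ δ, δ = 2 * g - ρ := ⟨_, rfl⟩
  have hP0 : 0 ≤ P := by linarith
  have hε0 : 0 ≤ ε := by linarith
  have hμ0 : 0 ≤ μ := by linarith
  have hδ0 : 0 ≤ δ := by linarith
  have hT : θ - (2 * θ - n + 1) - k = P + ε + g := by rw [hPd, hεd]; ring
  rw [hT, ← hμd] at h1
  have h2 : 0 ≤ (b - 2) * (P + ε + g) := mul_nonneg (by linarith) (by linarith)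
  have hD : 3 * (P + ε) + 2 ≤ (k - b - 1) * μ := by linarith
  have hσ' : σ = 2 * P + 2 * ε + μ + (2 * k + 3 - a - b) + δ := by
    rw [hσ, hPd, hεd, hμd, hδd]; ring
  rw [← hPd] at hP ⊢
  have hf : 2 * θ - n + 1 + g - 3 = μ + (g - 1) := by rw [hμd]; ring
  rw [hf]
  rcases lt_or_ge a k with h3 | h3
  · obtain ⟨α1, α2⟩ := hα h3
    have h4 := GB c hSQ hG hK h3.le (by linarith)
    rw [← hPd, ← hδd] at h4
    have h5 := polyB (κ := k - b - 1) (b := b) (α := k - a) (k := k) (P := P) (ε := ε) (μ := μ)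
      (δ := δ) (by ring) α1 α2 hb hP0 hε0 hμ0 hδ0 hD
    have c1 : 0 ≤ (k + (k - a) - 1) * P := mul_nonneg (by linarith) hP0
    have c2 : 0 ≤ (k - 1 / 2) * δ := mul_nonneg (by linarith) hδ0
    have c3 : 0 ≤ k * ((k - b - 1) - (k - a)) := mul_nonneg (by linarith) (by linarith)
    have c4 : 0 ≤ (k - a) * ((k - b - 1) + (k - a) + 2) := mul_nonneg (by linarith) (by linarith)
    refine ⟨by linarith, ?_⟩
    have hG0 : 0 ≤ G := by linarith
    have h6 : μ * ((k + (k - a)) * P + (k - 1 / 2) * δ +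
        (k * ((k - b - 1) - (k - a)) + (k - a) * ((k - b - 1) + (k - a) + 2))) ≤ μ * G :=
      mul_le_mul_of_nonneg_left (by linarith) hμ0
    have h7 : 0 ≤ (g - 1) * G := mul_nonneg (by linarith) hG0
    have h8 : 0 ≤ P * ε := mul_nonneg hP0 hε0
    rw [hσ']
    nlinarith
  · have h4 := GA c hSQ hG (by linarith) hl hK (by linarith) h3 (by linarith)
    rw [← hPd, ← hδd] at h4
    have h5 := polyA (κ := k - b - 1) (b := b) (a := a) (k := k) (P := P) (ε := ε) (μ := μ)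
      (δ := δ) (by ring) hκ hb h3 hP0 hε0 hμ0 hδ0 hD
    have c1 : 0 ≤ (a - 1) * P := mul_nonneg (by linarith) hP0
    have c2 : 0 ≤ (k - 1) * δ := mul_nonneg (by linarith) hδ0
    have c3 : 0 ≤ k * (k - b - 1) := mul_nonneg (by linarith) (by linarith)
    refine ⟨by linarith, ?_⟩
    have hG0 : 0 ≤ G := by linarith
    have h6 : μ * (a * P + (k - 1) * δ + k * (k - b - 1)) ≤ μ * G :=
      mul_le_mul_of_nonneg_left (by linarith) hμ0
    have h7 : 0 ≤ (g - 1) * G := mul_nonneg (by linarith) hG0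
    have h8 : 0 ≤ P * ε := mul_nonneg hP0 hε0
    have h9 : 0 ≤ P * k := mul_nonneg hP0 (by linarith)
    rw [hσ']
    nlinarith

/-- **The inequality for empty `Rs`.** -/
theorem main0 {G : ℝ} (c : CntPi k θ n a b 0 σ q0 SQ SP bS c0) (hSP : b * (θ - 2) ≤ SP)
    (hSQ : q0 + (a - 1) * θ ≤ SQ) (hG : bS - c0 ≤ G) (hb : 2 ≤ b) (ha1 : 1 ≤ a)
    (hl : 2 ≤ 2 * θ - n + 1) (hK : q0 ≤ n - 1 - k)
    (hP : 0 < q0 - θ) (hκ : 1 ≤ k - b - 1)
    (hα : a < k → 1 ≤ k - a ∧ k - a ≤ k - b - 1 ∧ 5 ≤ k) :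
    q0 - θ ≤ G ∧ (q0 - θ) * (σ + (n - 1 - q0)) < (θ - (q0 - θ) - 6) * G := by
  have h1 := base c hSP
  have hσ : σ = n - a - b := by linarith [c.card]
  obtain ⟨P, hPd⟩ : ∃ P, P = q0 - θ := ⟨_, rfl⟩
  obtain ⟨ε, hεd⟩ : ∃ ε, ε = n - 1 - k - q0 := ⟨_, rfl⟩
  obtain ⟨μ, hμd⟩ : ∃ μ, μ = 2 * θ - n + 1 - 2 := ⟨_, rfl⟩
  have hP0 : 0 ≤ P := by linarith
  have hε0 : 0 ≤ ε := by linarith
  have hμ0 : 0 ≤ μ := by linarith
  have hT : θ - (2 * θ - n + 1) - k = P + ε := by rw [hPd, hεd]; ring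
  rw [hT, ← hμd] at h1
  have h2 : 0 ≤ (b - 2) * (P + ε) := mul_nonneg (by linarith) (by linarith)
  have hD : 3 * (P + ε) + 2 ≤ (k - b - 1) * μ := by linarith
  have hσ' : σ + (n - 1 - q0) = 2 * P + 3 * ε + μ + (2 * k + 3 - a - b) + k := by
    rw [hσ, hPd, hεd, hμd]; ring
  rw [← hPd] at hP ⊢
  have hf : θ - P - 6 = ε + μ + (k - 4) := by rw [hPd, hεd, hμd]; ring
  rw [hf, hσ']
  rcases lt_or_ge a k with h3 | h3
  · obtain ⟨α1, α2, k5⟩ := hα h3
    have h4 := GB (g := 0) c (by linarith) hG hK h3.le (by linarith)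
    rw [sub_zero, ← hPd] at h4
    have h5 := polyB (κ := k - b - 1) (b := b) (α := k - a) (k := k) (P := P) (ε := ε) (μ := μ)
      (δ := 0) (by ring) α1 α2 hb hP0 hε0 hμ0 le_rfl hD
    have c1 : 0 ≤ (k + (k - a) - 1) * P := mul_nonneg (by linarith) hP0
    have c3 : 0 ≤ k * ((k - b - 1) - (k - a)) := mul_nonneg (by linarith) (by linarith)
    have c4 : 0 ≤ (k - a) * ((k - b - 1) + (k - a) + 2) := mul_nonneg (by linarith) (by linarith)
    refine ⟨by linarith, ?_⟩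
    have hG0 : 0 ≤ G := by linarith
    have h6 : μ * ((k + (k - a)) * P + (k - 1 / 2) * 0 +
        (k * ((k - b - 1) - (k - a)) + (k - a) * ((k - b - 1) + (k - a) + 2))) ≤ μ * G :=
      mul_le_mul_of_nonneg_left (by linarith) hμ0
    have h7 : 0 ≤ ε * G := mul_nonneg hε0 hG0
    have h8 : k * P < 1 * G := by
      have : 0 < (k - a) * P := mul_pos (by linarith) hP
      linarith
    have h9 : 1 * G ≤ (k - 4) * G := mul_le_mul_of_nonneg_right (by linarith) hG0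
    nlinarith
  · have h4 := GA (g := 0) c (by linarith) hG (by linarith) hl hK le_rfl h3 (by linarith)
    rw [sub_zero, ← hPd] at h4
    have h5 := polyA (κ := k - b - 1) (b := b) (a := a) (k := k) (P := P) (ε := ε) (μ := μ)
      (δ := 0) (by ring) hκ hb h3 hP0 hε0 hμ0 le_rfl hD
    have c1 : 0 ≤ (a - 1) * P := mul_nonneg (by linarith) hP0
    have c3 : 0 ≤ k * (k - b - 1) := mul_nonneg (by linarith) (by linarith)
    refine ⟨by linarith, ?_⟩
    have hG0 : 0 ≤ G := by linarith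
    have h6 : μ * (a * P + (k - 1) * 0 + k * (k - b - 1)) ≤ μ * G :=
      mul_le_mul_of_nonneg_left (by linarith) hμ0
    have h7 : 0 ≤ ε * G := mul_nonneg hε0 hG0
    have h9 : 0 ≤ (k - 4) * G := mul_nonneg (by linarith) hG0
    nlinarith

end Pi

end Pool.Agent.Exact


end
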