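import Mathlib
import Pool.Agent.EXAM.C11

/-! Parts: Lib_helper68.Exact.MoCnt -/

section

/-!
# Hubs of both types, an even number of the first and an odd number of the second, minimum
outdegree at least `k`: the hubs of the second type are low if the item fails
-/

set_option autoImplicit false
set_option linter.unusedSectionVars false

namespace Pool.Agent.Exact

open Finset

/-- the average level of the hubs of the second type -/
theorem CntO.xI {k a b : ℤ} {θ n ρ σ Γ q0 SQ SP g : ℝ} (c : CntO k θ n a b ρ σ Γ q0 SQ SP)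
    (k3 : 3 ≤ k) (a1 : 1 ≤ a) (b1 : 1 ≤ b) (hρ : 0 ≤ ρ) (hg : ρ ≤ 2 * g)
    (hΓ : Γ < q0 - θ - g + 2) (hθ : n + 1 ≤ 2 * θ) (hy : θ ≤ q0)
    (hSQ : q0 + (a - 1) * (θ - 2) ≤ SQ) (hSP' : SP ≤ b * (n - 1 - k)) :
    SP < b * (θ + ρ / 2) := by
  have hc := c.card
  have e : σ = n - a - b - ρ := by linarith
  subst e
  have h2 := c.D
  have h4 := c.T
  have h5 := c.SS
  have k3r : (3 : ℝ) ≤ k := by exact_mod_cast k3
  have a1r : (1 : ℝ) ≤ a := by exact_mod_cast a1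
  have b1r : (1 : ℝ) ≤ b := by exact_mod_cast b1
  by_contra hcon
  push Not at hcon
  have hK : θ + ρ / 2 ≤ n - 1 - k := by
    have h6 : (b : ℝ) * (θ + ρ / 2) ≤ b * (n - 1 - k) := hcon.trans hSP'
    exact le_of_mul_le_mul_left h6 (by linarith)
  -- the numbers
  obtain ⟨κ, hκ⟩ : ∃ κ : ℝ, κ = n - 1 - k - θ - ρ / 2 := ⟨_, rfl⟩
  obtain ⟨μ, hμ⟩ : ∃ μ : ℝ, μ = 2 * θ - n - 1 := ⟨_, rfl⟩
  obtain ⟨G, hG⟩ : ∃ G : ℝ, G = ρ / 2 := ⟨_, rfl⟩
  have κ0 : 0 ≤ κ := by linarith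
  have μ0 : 0 ≤ μ := by linarith
  have G0 : 0 ≤ G := by linarith
  have eρ : ρ = 2 * G := by linarith
  have en : n = 2 * κ + 2 * G + μ + 3 + 2 * k := by linarith
  have eθ : θ = κ + G + μ + 2 + k := by linarith
  subst eρ
  clear hG hκ hμ hK
  subst eθ
  subst en
  have D1 : (q0 - (κ + G + μ + 2 + k)) + 4 + (a + 1) * (κ + G) ≤ (k - 1 - a) * μ := by linarith
  -- few hubs of the first type
  have s1 : a ≤ k - 2 := by
    by_contra hc1
    push Not at hc1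
    have hc' : (k : ℝ) - 1 ≤ a := by exact_mod_cast (by omega : k - 1 ≤ a)
    have h6 : ((k : ℝ) - 1 - a) * μ ≤ 0 := mul_nonpos_of_nonpos_of_nonneg (by linarith) μ0
    have h7 : 0 ≤ ((a : ℝ) + 1) * (κ + G) := mul_nonneg (by linarith) (by linarith)
    linarith
  have s1r : (a : ℝ) ≤ k - 2 := by exact_mod_cast s1
  -- few hubs of the second type
  have s2 : b ≤ k := by
    by_contra hc1
    push Not at hc1
    have hc' : (k : ℝ) + 1 ≤ b := by exact_mod_cast (by omega : k + 1 ≤ b)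
    have h6 : 0 ≤ ((b : ℝ) + 2) * κ := mul_nonneg (by linarith) κ0
    have h7 : 0 ≤ ((b : ℝ) + 2 - k) * μ := mul_nonneg (by linarith) μ0
    have h8 : 0 ≤ (k : ℝ) * (1 + b - a) := mul_nonneg (by linarith) (by linarith)
    have h9 : 0 ≤ (2 * (b : ℝ) + 3 - 2 * k) * G := mul_nonneg (by linarith) G0
    linarith
  have s2r : (b : ℝ) ≤ k := by exact_mod_cast s2
  have h3 := c.D' (by exact_mod_cast s2)
  have s3 : a + 2 ≤ b := by
    by_contra hc1
    push Not at hc1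
    have hc' : (b : ℝ) ≤ a + 1 := by exact_mod_cast (by omega : b ≤ a + 1)
    have h6 : ((b : ℝ) - 1 - a) * μ ≤ 0 := mul_nonpos_of_nonpos_of_nonneg (by linarith) μ0
    have h7 : 0 ≤ ((a : ℝ) + 1) * κ := mul_nonneg (by linarith) κ0
    have h8 : 0 ≤ (a : ℝ) * G := mul_nonneg (by linarith) G0
    have h9 : 0 ≤ ((k : ℝ) - b) * κ := mul_nonneg (by linarith) κ0
    have h10 : 0 ≤ ((k : ℝ) - b) * (2 * k + 3 - a - b) := mul_nonneg (by linarith) (by linarith)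
    linarith
  have s3r : (a : ℝ) + 2 ≤ b := by exact_mod_cast s3
  have h6 : 0 ≤ (2 * (k : ℝ) + 2 - b) * κ := mul_nonneg (by linarith) κ0
  have h7 : 0 ≤ ((b : ℝ) - 2 - a) * (2 * k + 1 - b) := mul_nonneg (by linarith) (by linarith)
  have h8 : 0 ≤ ((k : ℝ) - b) * (k - b) := mul_nonneg (by linarith) (by linarith)
  linarith

variable {V : Type*} [Fintype V] [DecidableEq V]
variable {B : V → V → ℤ} {Rl : Finset V} {ℓ nQ nP : ℕ} {uq up : ℕ → V} {q p : ℕ → ℝ}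
variable {k : ℤ} {θ : ℝ}
variable {Rs S : Finset V} {g : ℤ} {Kc : V → Finset V} {pick : Finset V → V}

/-- **The hubs of the second type are low.** -/
theorem Ctx.moLow (h : Ctx B Rl ℓ nQ nP uq up q p k θ) (hn : 2 * k - 1 ≤ (Rl.card : ℤ))
    (hout : ∀ v ∈ Rl, k ≤ ∑ u, B v u) {i j : ℕ} (hi : i + 1 < ℓ) (hj : j < ℓ)
    (haQ : 2 * (i + 1) ≤ nQ) (hbP : 2 * j + 1 ≤ nP)
    (hd : Dec B pick (vs uq up (rr nQ nP (2 * (i + 1)) (2 * j + 1))) Rs S g Kc)
    (hpick : ∀ K : Finset V, K.Nonempty → pick K ∈ K ∧ ∀ u ∈ K, indg B K (pick K) ≤ indg B K u)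
    (hq0 : θ ≤ q 0) (hqi : θ - 2 ≤ q (2 * i + 1)) (hpj : 0 < p (2 * j))
    (hΓ : ((Gam B (uq 0) S : ℤ) : ℝ) < q 0 - θ - g + 2) :
    p (2 * j) < θ + Rs.card / 2 := by
  have hl := h.fr.l2
  have hlam := h.lam2 hn
  have c := h.cntO hout (a := 2 * (i + 1)) (b := 2 * j + 1) (by omega) haQ hbP hd hpick
  have hcg : (Rs.card : ℝ) ≤ 2 * (g : ℝ) := by exact_mod_cast hd.cg
  have hpp : ∀ l < 2 * j + 1, p (2 * j) ≤ p l := fun l hl' =>
    h.fr.pa (i := l) (j := 2 * j) (by omega) (by omega)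
  have hpn : ∀ l < 2 * j + 1, p l ≤ Rl.card - 1 - k := fun l hl' =>
    h.pleK hout (by omega) (by have := hpp l hl'; linarith)
  have c' : CntO k θ Rl.card (((2 * (i + 1) : ℕ) : ℤ) : ℝ) (((2 * j + 1 : ℕ) : ℤ) : ℝ) Rs.card
      S.card (Gam B (uq 0) S) (q 0) (∑ l ∈ range (2 * (i + 1)), q l)
      (∑ l ∈ range (2 * j + 1), p l) := by simpa only [Int.cast_natCast] using c
  have hS1 : ∑ l ∈ range (2 * j + 1), p l ≤ (2 * j + 1 : ℕ) * ((Rl.card : ℝ) - 1 - k) := by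
    have h1 : ∑ l ∈ range (2 * j + 1), p l ≤
        ∑ _l ∈ range (2 * j + 1), ((Rl.card : ℝ) - 1 - k) :=
      Finset.sum_le_sum fun l hl' => hpn l (Finset.mem_range.1 hl')
    rwa [Finset.sum_const, nsmul_eq_mul, Finset.card_range] at h1
  have hS2 : (2 * j + 1 : ℕ) * p (2 * j) ≤ ∑ l ∈ range (2 * j + 1), p l := by
    have h1 : ∑ _l ∈ range (2 * j + 1), p (2 * j) ≤ ∑ l ∈ range (2 * j + 1), p l :=
      Finset.sum_le_sum fun l hl' => hpp l (Finset.mem_range.1 hl')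
    rwa [Finset.sum_const, nsmul_eq_mul, Finset.card_range] at h1
  have hS3 := sum_first q (2 * i + 1) fun l hl' =>
    h.fr.qa (i := l) (j := 2 * i + 1) hl' (by omega)
  have hi0 : (0 : ℝ) ≤ ((2 * i + 1 : ℕ) : ℝ) := Nat.cast_nonneg _
  have hS4 : ((2 * i + 1 : ℕ) : ℝ) * (θ - 2) ≤ ((2 * i + 1 : ℕ) : ℝ) * q (2 * i + 1) :=
    mul_le_mul_of_nonneg_left hqi hi0
  have e1 : 2 * (i + 1) = 2 * i + 1 + 1 := by ring
  have key := c'.xI (g := g) h.k3 (by push_cast; omega) (by push_cast; omega)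
    (Nat.cast_nonneg _) hcg hΓ (by linarith) hq0
    (by rw [e1]; push_cast at hS3 hS4 ⊢; linarith) (by exact_mod_cast hS1)
  have h1 : ((2 * j + 1 : ℕ) : ℝ) * p (2 * j) < ((2 * j + 1 : ℕ) : ℝ) * (θ + Rs.card / 2) := by
    refine lt_of_le_of_lt hS2 ?_
    exact_mod_cast key
  exact lt_of_mul_lt_mul_left h1 (Nat.cast_nonneg _)

end Pool.Agent.Exact


end
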