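import Mathlib

/-! Parts: Lib_helper43.NC.MxDef, Lib_helper43.NC.MxE, Lib_helper43.NC.MxR2a -/

section

/-!
# Real parameters of a leaf with hubs of both types, an even number of the first
-/

set_option autoImplicit false

namespace Pool.Agent.Exact

/-- the failing modes of a structure with one signed item -/
def FT (th E X M x c d : ℝ) : Prop :=
  th < E + M + X ∨ th < E + M + x ∨ th < E + M - x ∨ th < E + M + c ∨ th < E + M + d ∨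
    2 * th < 2 * (E + M) + X + x + c + d ∨ 2 * th < 2 * (E + M) + X - x + c + d

/-- the failing modes of a structure with one signed item and an extra single vertex -/
def FR (th E X M x c d s : ℝ) : Prop :=
  th < E + M + X ∨ th < E + M + x ∨ th < E + M - x ∨ th < E + M + c ∨ th < E + M + d ∨
    th < E + M + s ∨ 2 * th < 2 * (E + M) + X + x + c + d + s ∨
    2 * th < 2 * (E + M) + X - x + c + d + s

/-- levels of the hubs above `θ` -/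
structure MB0 (th lam y z MB u1 u2 ux ua al v2 vb be : ℝ) : Prop where
  l2 : 2 ≤ lam
  z0 : 0 ≤ z
  zz : z + lam + y ≤ th
  zM : z + MB + lam + y ≤ th + 1
  M0 : 0 ≤ MB
  M2 : MB ≤ 2
  ZM : MB + 2 + y ≤ th
  uy : u1 ≤ y
  al0 : 0 ≤ al
  u12 : u2 ≤ u1
  ux2 : ux ≤ u2
  uax : ua ≤ ux
  al1 : u1 - u2 ≤ al
  eU : al + ux ≤ u1
  v2y : v2 ≤ y
  be1 : y - v2 ≤ be
  vb2 : vb ≤ v2
  eZ : be + vb ≤ y

/-- multiplicities at the lowest hub of the second type -/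
structure MJ (th lam y z MB MA : ℝ) : Prop where
  A0 : 0 ≤ MA
  A2 : MA ≤ 2
  zA : z + MA + lam + y ≤ th + 1
  zMA : z + MB + MA + lam + y ≤ th + 2

/-- leaf 2a -/
structure L2a (y MB u1 ua vb : ℝ) : Prop where
  xua : 0 < ua
  xvb : -MB < vb
  xpq : u1 + 1 ≤ y

/-- leaf 2c -/
structure L2c (th y MB u1 ua al vb be : ℝ) : Prop where
  xua : 0 < ua
  xvb : -2 < vb
  xpq : u1 + 1 ≤ y
  xA : th + al + be < 2 * y + 2 * MB

/-- leaf 3c -/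
structure L3c (th lam y MB u1 ua al vb be : ℝ) : Prop where
  xua : -MB - 2 < ua
  xvb : -MB < vb
  xl3 : 3 < lam
  xu1 : 0 < u1
  xyM : y + MB + 2 ≤ th
  xuz : th - y - MB < u1
  xbe : be ≤ y + MB
  xeU : u1 - ua - al + th < u1 + y + MB

/-- the last vertex -/
structure LY (sy ay cy : ℝ) : Prop where
  a1 : 1 ≤ ay
  a2 : ay ≤ 2
  ac : ay ≤ 1 + cy
  c0 : 0 ≤ cy
  say : ay + 1 ≤ sy

end Pool.Agent.Exact


end

section

/-!
# No components: crossings and low hubs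
-/

set_option autoImplicit false
set_option linter.unusedVariables false

namespace Pool.Agent.Exact

theorem xl2a {th lam y z D L MB m11 u1 u2 ux ua al v2 vb be sy : ℝ}
    (hb : MB0 th lam y z MB u1 u2 ux ua al v2 vb be) (h112 : m11 ≤ 2) (hl : L2a y MB u1 ua vb)
    (hyp1 : sy < ua) (hD : D ≤ 0) (hL1 : 1 ≤ L) (hLs : L ≤ sy)
    (a11 : FT th D L m11 (ua - vb - sy) (y - vb - be) al) : False := by
  rcases a11 with a1 | a1 | a1 | a1 | a1 | a1 | a1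
  · linarith only [hb.M0, hb.ZM, hb.uy, hb.u12, hb.ux2, hb.uax, h112, hyp1, hD, hLs, a1]
  · linarith only [hb.ZM, hb.uy, hb.u12, hb.ux2, hb.uax, h112, hl.xvb, hD, hL1, hLs, a1]
  · linarith only [hb.M0, hb.ZM, hb.v2y, hb.vb2, h112, hyp1, hD, a1]
  · linarith only [hb.ZM, hb.v2y, hb.be1, h112, hl.xvb, hD, a1]
  · linarith only [hb.M0, hb.ZM, hb.uy, hb.uax, hb.eU, h112, hyp1, hD, hL1, hLs, a1]
  · linarith only [hb.ZM, hb.uy, hb.uax, hb.eU, hb.v2y, hb.be1, h112, hl.xvb, hD, hLs, a1]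
  · linarith only [hb.M0, hb.ZM, hb.uy, hb.uax, hb.eU, hb.v2y, hb.be1, h112, hyp1, hD, hLs, a1]

theorem xl2c_i0 {th lam y z D L MB m11 u1 u2 ux ua al v2 vb be sy ay cy : ℝ}
    (hb : MB0 th lam y z MB u1 u2 ux ua al v2 vb be) (hi1 : vb = v2) (hi2 : y = vb + be)
    (h112 : m11 ≤ 2) (hl : L2c th y MB u1 ua al vb be) (hy : LY sy ay cy) (hyp1 : sy < ua)
    (hD : D ≤ 0) (hL1 : 1 ≤ L) (t11 : FT th (D + ay) (sy - L) m11 (vb - ua) (y - vb - be) al)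
    : False := by
  rcases t11 with a1 | a1 | a1 | a1 | a1 | a1 | a1
  · linarith only [hb.M0, hb.ZM, hb.u12, hb.ux2, hb.uax, h112, hl.xpq, hy.a2, hyp1, hD, hL1, a1]
  · linarith only [hb.l2, hb.z0, hb.zz, hb.v2y, hi1, h112, hy.say, hyp1, hD, a1]
  · linarith only [hb.ZM, hb.u12, hb.ux2, hb.uax, hb.al1, hi2, h112, hl.xpq, hl.xA, hy.a2, hD, a1]
  · linarith only [hb.ZM, hb.u12, hb.al1, hb.v2y, hi1, hi2, h112, hl.xA, hy.a2, hD, a1]
  · linarith only [hb.ZM, hb.v2y, hi1, hi2, h112, hl.xA, hy.a2, hD, a1]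
  · linarith only [hb.l2, hb.z0, hb.zz, hb.uax, hb.eU, hb.v2y, hi1, hi2, h112, hl.xpq, hy.a2, hy.say, hyp1, hD, hL1, a1]
  · linarith only [hb.M0, hb.ZM, hb.u12, hb.ux2, hb.uax, hi2, h112, hl.xpq, hl.xA, hy.a2, hyp1, hD, hL1, a1]

theorem xl2c_i1 {th lam y z D L MB m12 u1 u2 ux ua al v2 vb be sy ay cy : ℝ}
    (hb : MB0 th lam y z MB u1 u2 ux ua al v2 vb be) (h122 : m12 ≤ 2)
    (hl : L2c th y MB u1 ua al vb be) (hl3 : 3 ≤ lam) (hy : LY sy ay cy) (hyp1 : sy < ua)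
    (hD : D ≤ 0) (hL1 : 1 ≤ L)
    (t12 : FT th (D + ay) (sy - L) m12 (v2 - u1) (v2 + be - y) (u1 - ua - al)) : False := by
  rcases t12 with a1 | a1 | a1 | a1 | a1 | a1 | a1
  · linarith only [hb.M0, hb.ZM, hb.u12, hb.ux2, hb.uax, h122, hl.xpq, hy.a2, hyp1, hD, hL1, a1]
  · linarith only [hb.M0, hb.ZM, hb.u12, hb.ux2, hb.uax, hb.v2y, h122, hy.say, hyp1, hD, a1]
  · linarith only [hb.ZM, hb.al0, hb.be1, h122, hl.xpq, hl.xA, hy.a2, hD, a1]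
  · linarith only [hb.ZM, hb.al0, hb.v2y, h122, hl.xA, hy.a2, hD, a1]
  · linarith only [hb.M0, hb.ZM, hb.uy, hb.al0, h122, hy.say, hyp1, hD, a1]
  · linarith only [hb.z0, hb.zz, hb.zM, hb.al0, hb.v2y, h122, hl.xA, hl3, hy.a2, hyp1, hD, hL1, a1]
  · linarith only [hb.M0, hb.ZM, hb.al0, h122, hl.xpq, hl.xA, hy.a2, hyp1, hD, hL1, a1]

theorem xl3c_g {th lam y z D L MB m12 u1 u2 ux ua al v2 vb be sy ay cy : ℝ}
    (hb : MB0 th lam y z MB u1 u2 ux ua al v2 vb be) (h122 : m12 ≤ 2)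
    (hl : L3c th lam y MB u1 ua al vb be) (hy : LY sy ay cy) (hyp1 : sy < MB + vb + 2)
    (hyp2 : MB + sy + 2 ≤ th) (hlam : 4 ≤ lam) (hD : D ≤ 0) (hL1 : 1 ≤ L) (hLs : L ≤ sy)
    (t12 : FT th (D + ay) (sy - L) m12 (v2 - u1) (v2 + be - y) (u1 - ua - al))
    (r12 : FR th D L m12 (v2 - u1) (v2 + be - y) (u1 - ua - al) sy) : False := by
  rcases t12 with a1 | a1 | a1 | a1 | a1 | a1 | a1
  · rcases r12 with a2 | a2 | a2 | a2 | a2 | a2 | a2 | a2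
    · linarith only [hb.M0, h122, hyp2, hD, hLs, a2]
    · linarith only [hb.M0, hb.v2y, h122, hl.xyM, hl.xuz, hD, a2]
    · linarith only [hb.ZM, hb.uy, hb.vb2, h122, hl.xvb, hD, a2]
    · linarith only [hb.v2y, h122, hl.xyM, hl.xbe, hD, a2]
    · linarith only [hb.M0, hb.ZM, hb.uy, h122, hl.xeU, hD, a2]
    · linarith only [hb.M0, h122, hyp2, hD, a2]
    · linarith only [hb.z0, hb.zz, hb.zM, hb.v2y, hb.eZ, h122, hl.xeU, hy.a2, hyp1, hyp2, hlam, hD, a1, a2]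
    · linarith only [hb.z0, hb.zz, hb.ZM, hb.uy, hb.eZ, h122, hl.xeU, hy.a2, hyp1, hyp2, hlam, hD, a1, a2]
  · linarith only [hb.M0, hb.v2y, h122, hl.xyM, hl.xuz, hy.a2, hD, a1]
  · linarith only [hb.z0, hb.zM, hb.uy, hb.vb2, h122, hy.say, hyp1, hlam, hD, a1]
  · linarith only [hb.z0, hb.zM, hb.v2y, hb.eZ, h122, hy.say, hyp1, hlam, hD, a1]
  · linarith only [hb.M0, hb.ZM, hb.uy, h122, hl.xeU, hy.a2, hD, a1]
  · linarith only [hb.z0, hb.zz, hb.zM, hb.v2y, hb.eZ, h122, hl.xeU, hy.a2, hyp1, hlam, hD, hL1, a1]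
  · linarith only [hb.z0, hb.zz, hb.zM, hb.uy, hb.eZ, h122, hl.xeU, hy.a2, hyp1, hlam, hD, hL1, a1]

theorem xl3c_o {th lam y z D L MB m11 m12 u1 u2 ux ua al v2 vb be sy ay cy : ℝ}
    (hb : MB0 th lam y z MB u1 u2 ux ua al v2 vb be) (h112 : m11 ≤ 2) (h122 : m12 ≤ 2)
    (hl : L3c th lam y MB u1 ua al vb be) (hy : LY sy ay cy) (hyp1 : sy < MB + vb + 2)
    (hyp2 : MB + sy + 2 ≤ th) (o1 : 4 * lam + y + 4 * u1 ≤ 2 * th)
    (o2 : 5 * lam + y + 5 * u1 + vb ≤ 2 * th) (o3 : lam + u1 + 3 ≤ th) (hD : D ≤ 0) (hL1 : 1 ≤ L)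
    (hLs : L ≤ sy) (t11 : FT th (D + ay) (sy - L) m11 (vb - ua) (y - vb - be) al)
    (t12 : FT th (D + ay) (sy - L) m12 (v2 - u1) (v2 + be - y) (u1 - ua - al)) : False := by
  rcases t11 with a1 | a1 | a1 | a1 | a1 | a1 | a1
  · linarith only [h112, hl.xl3, hl.xyM, hl.xuz, hy.a2, hyp1, hyp2, o2, hD, hL1, a1]
  · linarith only [hb.M2, h112, hl.xua, hl.xl3, hl.xyM, hl.xuz, hy.a2, o2, hD, a1]
  · linarith only [hb.l2, hb.M2, hb.u12, hb.ux2, hb.uax, h112, hy.say, hyp1, o3, hD, a1]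
  · rcases t12 with a2 | a2 | a2 | a2 | a2 | a2 | a2
    · linarith only [h122, hl.xl3, hl.xyM, hl.xuz, hy.a2, hyp1, hyp2, o2, hD, hL1, a2]
    · linarith only [hb.M0, hb.v2y, h122, hl.xyM, hl.xuz, hy.a2, hD, a2]
    · linarith only [hb.be1, h112, h122, hl.xl3, hy.say, hyp1, hyp2, o3, hD, a1, a2]
    · linarith only [hb.v2y, h112, h122, hl.xl3, hl.xu1, hl.xyM, hy.say, hyp1, hyp2, o2, hD, a1, a2]
    · linarith only [h122, hl.xl3, hl.xu1, hl.xyM, hl.xeU, hy.say, hyp1, hyp2, o2, hD, a2]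
    · linarith only [hb.v2y, h112, h122, hl.xl3, hl.xu1, hl.xyM, hl.xeU, hy.a2, hyp1, o2, o3, hD, hL1, hLs, a1, a2]
    · linarith only [h122, hl.xl3, hl.xyM, hl.xbe, hl.xeU, hy.a2, hyp2, o1, hD, hL1, hLs, a2]
  · linarith only [hb.M2, hb.uax, hb.eU, h112, hl.xua, hl.xl3, hl.xeU, hy.say, hyp1, hyp2, o2, hD, a1]
  · linarith only [hb.M2, hb.ZM, hb.uax, hb.eU, hb.v2y, hb.be1, h112, hl.xua, hl.xl3, hl.xeU, hy.a2, hyp1, o2, hD, hL1, a1]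
  · linarith only [hb.M2, hb.ZM, hb.uax, hb.eU, hb.v2y, hb.be1, h112, hl.xl3, hl.xeU, hy.say, hyp1, o2, hD, hL1, a1]

theorem xl3c_i {th lam y z MB u1 u2 ux ua al v2 vb be : ℝ}
    (hb : MB0 th lam y z MB u1 u2 ux ua al v2 vb be) (hl : L3c th lam y MB u1 ua al vb be)
    (in3 : lam + y + 3 ≤ th) (in1 : 4 * lam + 4 * y + u1 ≤ 2 * th) : False := by
  linarith only [hb.M2, hb.uy, hl.xl3, hl.xuz, in3, in1]

theorem e1N_wQ_g {th lam y z g X MB u1 u2 ux ua al v2 vb be : ℝ}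
    (hb : MB0 th lam y z MB u1 u2 ux ua al v2 vb be) (hl : L3c th lam y MB u1 ua al vb be)
    (hg0 : 0 = g) (hug : ua ≤ 0) (hXc0 : X < MB + vb)
    (tO : FT th (-g) X 2 (th + ux + ua - u1) (u1 - ux - al) be) : False := by
  rcases tO with a1 | a1 | a1 | a1 | a1 | a1 | a1
  · linarith only [hb.v2y, hb.vb2, hl.xyM, hg0, hXc0, a1]
  · linarith only [hb.eU, hl.xyM, hl.xeU, hg0, hug, a1]
  · linarith only [hb.uy, hb.uax, hl.xua, hl.xyM, hl.xuz, hg0, a1]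
  · linarith only [hb.M0, hb.ZM, hb.uy, hb.uax, hl.xeU, hg0, a1]
  · linarith only [hl.xyM, hl.xbe, hg0, a1]
  · linarith only [hb.eZ, hl.xyM, hl.xeU, hg0, hug, hXc0, a1]
  · linarith only [hb.ZM, hb.uy, hb.uax, hb.eZ, hl.xua, hl.xeU, hg0, hXc0, a1]

theorem e1N_wQ_o {th lam y z g X MB MA m11 u1 u2 ux ua al v2 vb be : ℝ}
    (hb : MB0 th lam y z MB u1 u2 ux ua al v2 vb be) (hj : MJ th lam y z MB MA) (h110 : 0 ≤ m11)
    (hl : L3c th lam y MB u1 ua al vb be) (hg0 : 0 = g) (hug : ua ≤ 0) (hXc0 : X < MB + vb)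
    (o2 : 5 * lam + y + 5 * u1 + vb ≤ 2 * th) (o3 : lam + u1 + 3 ≤ th)
    (tE : FT th (-g) X (MA - m11) (th + ua + vb - y) al (y - vb - be)) : False := by
  rcases tE with a1 | a1 | a1 | a1 | a1 | a1 | a1
  · linarith only [hj.A2, hb.v2y, hb.vb2, h110, hl.xyM, hg0, hXc0, a1]
  · linarith only [hb.l2, hb.M2, hj.A2, h110, hl.xyM, hl.xuz, hg0, hug, o2, a1]
  · linarith only [hb.ZM, hb.uy, hj.A2, h110, hl.xua, hl.xvb, hl.xu1, hg0, a1]
  · linarith only [hb.M2, hb.uax, hb.eU, hj.A2, h110, hl.xua, hl.xl3, hg0, o3, a1]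
  · linarith only [hj.A2, hb.v2y, hb.be1, h110, hl.xvb, hl.xyM, hg0, a1]
  · linarith only [hb.l2, hb.z0, hb.M2, hb.uax, hb.eU, hj.zMA, hb.v2y, hb.be1, hb.eZ, h110, hl.xeU, hg0, hXc0, o2, a1]
  · linarith only [hb.M2, hb.uax, hb.eU, hj.A2, hb.v2y, hb.be1, h110, hl.xua, hl.xvb, hl.xl3, hl.xyM, hl.xeU, hg0, hXc0, o2, a1]

theorem e1N_wQ_i {th lam y z MB u1 u2 ux ua al v2 vb be : ℝ}
    (hb : MB0 th lam y z MB u1 u2 ux ua al v2 vb be) (hl : L3c th lam y MB u1 ua al vb be)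
    (in3 : lam + y + 3 ≤ th) (in1 : 4 * lam + 4 * y + u1 ≤ 2 * th) : False := by
  linarith only [hb.l2, hb.M2, hb.uy, hl.xuz, in3, in1]

theorem e1N_wP_g {th lam y z g X MB u1 u2 ux ua al v2 vb be : ℝ}
    (hb : MB0 th lam y z MB u1 u2 ux ua al v2 vb be) (hl : L3c th lam y MB u1 ua al vb be)
    (hg0 : 0 = g) (hug : ua ≤ 0) (hXc0 : X < MB + vb + 2) (hXc1 : X + MB + 2 ≤ th)
    (hlam : 4 ≤ lam) (tO : FT th (-g) X 2 (th + ux + ua - u1) (u1 - ux - al) be) : False := by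
  rcases tO with a1 | a1 | a1 | a1 | a1 | a1 | a1
  · linarith only [hb.M0, hg0, hXc1, a1]
  · linarith only [hb.eU, hl.xyM, hl.xeU, hg0, hug, a1]
  · linarith only [hb.uy, hb.uax, hl.xua, hl.xyM, hl.xuz, hg0, a1]
  · linarith only [hb.M0, hb.ZM, hb.uy, hb.uax, hl.xeU, hg0, a1]
  · linarith only [hl.xyM, hl.xbe, hg0, a1]
  · linarith only [hb.z0, hb.zM, hb.eZ, hl.xeU, hg0, hug, hXc0, hlam, a1]
  · linarith only [hb.z0, hb.zM, hb.uy, hb.uax, hb.eZ, hl.xua, hl.xeU, hg0, hXc0, hlam, a1]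

theorem e1N_wP_o {th lam y z g X MB MA m11 u1 u2 ux ua al v2 vb be : ℝ}
    (hb : MB0 th lam y z MB u1 u2 ux ua al v2 vb be) (hj : MJ th lam y z MB MA) (h110 : 0 ≤ m11)
    (hl : L3c th lam y MB u1 ua al vb be) (hg0 : 0 = g) (hug : ua ≤ 0) (hX0 : 0 ≤ X)
    (hXc0 : X < MB + vb + 2) (hXc1 : X + MB + 2 ≤ th) (o2 : 5 * lam + y + 5 * u1 + vb ≤ 2 * th)
    (o3 : lam + u1 + 3 ≤ th) (tE : FT th (-g) X (MA - m11) (th + ua + vb - y) al (y - vb - be))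
    : False := by
  rcases tE with a1 | a1 | a1 | a1 | a1 | a1 | a1
  · linarith only [hj.A2, h110, hl.xl3, hl.xyM, hl.xuz, hg0, hXc0, hXc1, o2, a1]
  · linarith only [hb.l2, hb.M2, hj.A2, h110, hl.xyM, hl.xuz, hg0, hug, o2, a1]
  · linarith only [hj.A2, h110, hl.xua, hl.xvb, hl.xyM, hg0, hX0, hXc1, a1]
  · linarith only [hb.M2, hb.uax, hb.eU, hj.A2, h110, hl.xua, hl.xl3, hg0, o3, a1]
  · linarith only [hj.A2, hb.v2y, hb.be1, h110, hl.xvb, hl.xyM, hg0, a1]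
  · linarith only [hb.uax, hb.eU, hj.A2, hb.v2y, hb.be1, h110, hl.xl3, hl.xu1, hl.xeU, hg0, hXc0, hXc1, o2, a1]
  · linarith only [hb.M2, hb.uax, hb.eU, hj.A2, hb.v2y, hb.be1, h110, hl.xua, hl.xvb, hl.xl3, hl.xyM, hl.xeU, hg0, hXc0, o2, a1]

theorem e1N_wP_i {th lam y z MB u1 u2 ux ua al v2 vb be : ℝ}
    (hb : MB0 th lam y z MB u1 u2 ux ua al v2 vb be) (hl : L3c th lam y MB u1 ua al vb be)
    (in3 : lam + y + 3 ≤ th) (in1 : 4 * lam + 4 * y + u1 ≤ 2 * th) : False := by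
  linarith only [hb.l2, hb.M2, hb.uy, hl.xuz, in3, in1]

theorem e1N_2_g {th lam y z g X MB u1 u2 ux ua al v2 vb be : ℝ}
    (hb : MB0 th lam y z MB u1 u2 ux ua al v2 vb be) (hl : L3c th lam y MB u1 ua al vb be)
    (hg0 : 0 = g) (hug : ua ≤ 0) (hX : X ≤ 2) (hlam : 4 ≤ lam)
    (tO : FT th (-g) X 2 (th + ux + ua - u1) (u1 - ux - al) be) : False := by
  rcases tO with a1 | a1 | a1 | a1 | a1 | a1 | a1
  · linarith only [hb.M0, hb.uy, hl.xyM, hl.xuz, hg0, hX, a1]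
  · linarith only [hb.eU, hl.xyM, hl.xeU, hg0, hug, a1]
  · linarith only [hb.uy, hb.uax, hl.xua, hl.xyM, hl.xuz, hg0, a1]
  · linarith only [hb.M0, hb.ZM, hb.uy, hb.uax, hl.xeU, hg0, a1]
  · linarith only [hl.xyM, hl.xbe, hg0, a1]
  · linarith only [hb.z0, hb.zM, hl.xbe, hl.xeU, hg0, hug, hX, hlam, a1]
  · linarith only [hb.z0, hb.zM, hb.uy, hb.uax, hl.xua, hl.xbe, hl.xeU, hg0, hX, hlam, a1]

theorem e1N_2_o {th lam y z g X MB MA m11 u1 u2 ux ua al v2 vb be : ℝ}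
    (hb : MB0 th lam y z MB u1 u2 ux ua al v2 vb be) (hj : MJ th lam y z MB MA) (h110 : 0 ≤ m11)
    (hl : L3c th lam y MB u1 ua al vb be) (hg0 : 0 = g) (hug : ua ≤ 0) (hX : X ≤ 2)
    (o2 : 5 * lam + y + 5 * u1 + vb ≤ 2 * th) (o3 : lam + u1 + 3 ≤ th)
    (tE : FT th (-g) X (MA - m11) (th + ua + vb - y) al (y - vb - be)) : False := by
  rcases tE with a1 | a1 | a1 | a1 | a1 | a1 | a1
  · linarith only [hj.A2, h110, hl.xl3, hl.xu1, hg0, hX, o3, a1]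
  · linarith only [hb.l2, hb.M2, hj.A2, h110, hl.xyM, hl.xuz, hg0, hug, o2, a1]
  · linarith only [hb.ZM, hb.uy, hj.A2, h110, hl.xua, hl.xvb, hl.xu1, hg0, a1]
  · linarith only [hb.M2, hb.uax, hb.eU, hj.A2, h110, hl.xua, hl.xl3, hg0, o3, a1]
  · linarith only [hj.A2, hb.v2y, hb.be1, h110, hl.xvb, hl.xyM, hg0, a1]
  · linarith only [hb.uax, hb.eU, hj.A2, hb.v2y, hb.be1, h110, hl.xl3, hg0, hX, o3, a1]
  · linarith only [hb.M2, hb.uax, hb.eU, hj.A2, hb.v2y, hb.be1, h110, hl.xua, hl.xvb, hl.xl3, hl.xyM, hl.xeU, hg0, hX, o2, a1]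

theorem e1N_2_i {th lam y z MB u1 u2 ux ua al v2 vb be : ℝ}
    (hb : MB0 th lam y z MB u1 u2 ux ua al v2 vb be) (hl : L3c th lam y MB u1 ua al vb be)
    (in3 : lam + y + 3 ≤ th) (in1 : 4 * lam + 4 * y + u1 ≤ 2 * th) : False := by
  linarith only [hb.l2, hb.M2, hb.uy, hl.xuz, in3, in1]

theorem e1L_S_g {th lam y z g Y X MB u1 u2 ux ua al v2 vb be sy : ℝ}
    (hb : MB0 th lam y z MB u1 u2 ux ua al v2 vb be) (hl : L3c th lam y MB u1 ua al vb be)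
    (hg0 : 0 = g) (hY0 : 0 = Y) (hug : ua ≤ 0) (hyp1 : sy < MB + vb + 2) (hyp2 : MB + sy + 2 ≤ th)
    (hX : sy = Y + X) (hlam : 4 ≤ lam) (tO : FT th (-g) X 2 (th + ux + ua - u1) (u1 - ux - al) be)
    : False := by
  rcases tO with a1 | a1 | a1 | a1 | a1 | a1 | a1
  · linarith only [hb.M0, hg0, hY0, hyp2, hX, a1]
  · linarith only [hb.eU, hl.xyM, hl.xeU, hg0, hug, a1]
  · linarith only [hb.uy, hb.uax, hl.xua, hl.xyM, hl.xuz, hg0, a1]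
  · linarith only [hb.M0, hb.ZM, hb.uy, hb.uax, hl.xeU, hg0, a1]
  · linarith only [hl.xyM, hl.xbe, hg0, a1]
  · linarith only [hb.z0, hb.zM, hb.eZ, hl.xeU, hg0, hY0, hug, hyp1, hX, hlam, a1]
  · linarith only [hb.z0, hb.zM, hb.uy, hb.uax, hb.eZ, hl.xua, hl.xeU, hg0, hY0, hyp1, hX, hlam, a1]

theorem e1L_S_o {th lam y z g Y X MB MA m11 u1 u2 ux ua al v2 vb be sy ay cy : ℝ}
    (hb : MB0 th lam y z MB u1 u2 ux ua al v2 vb be) (hj : MJ th lam y z MB MA) (h110 : 0 ≤ m11)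
    (hl : L3c th lam y MB u1 ua al vb be) (hg0 : 0 = g) (hY0 : 0 = Y) (hug : ua ≤ 0)
    (hy : LY sy ay cy) (hyp1 : sy < MB + vb + 2) (hyp2 : MB + sy + 2 ≤ th) (hX : sy = Y + X)
    (o2 : 5 * lam + y + 5 * u1 + vb ≤ 2 * th) (o3 : lam + u1 + 3 ≤ th)
    (tE : FT th (-g) X (MA - m11) (th + ua + vb - y) al (y - vb - be)) : False := by
  rcases tE with a1 | a1 | a1 | a1 | a1 | a1 | a1
  · linarith only [hj.A2, h110, hl.xl3, hl.xyM, hl.xuz, hg0, hY0, hyp1, hyp2, hX, o2, a1]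
  · linarith only [hb.M2, hj.A2, h110, hl.xl3, hl.xyM, hl.xuz, hg0, hug, o2, a1]
  · linarith only [hj.A2, h110, hl.xua, hl.xyM, hg0, hy.a1, hy.say, hyp1, hyp2, a1]
  · linarith only [hb.M2, hb.uax, hb.eU, hj.A2, h110, hl.xua, hl.xl3, hg0, o3, a1]
  · linarith only [hj.A2, hb.v2y, hb.be1, h110, hl.xvb, hl.xyM, hg0, a1]
  · linarith only [hb.uax, hb.eU, hj.A2, hb.v2y, hb.be1, h110, hl.xl3, hl.xyM, hl.xeU, hg0, hY0, hyp1, hyp2, hX, o2, a1]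
  · linarith only [hb.M2, hb.uax, hb.eU, hj.A2, hb.v2y, hb.be1, h110, hl.xua, hl.xvb, hl.xl3, hl.xyM, hl.xeU, hg0, hY0, hyp1, hX, o2, a1]

theorem e1L_S_i {th lam y z MB u1 u2 ux ua al v2 vb be : ℝ}
    (hb : MB0 th lam y z MB u1 u2 ux ua al v2 vb be) (hl : L3c th lam y MB u1 ua al vb be)
    (in3 : lam + y + 3 ≤ th) (in1 : 4 * lam + 4 * y + u1 ≤ 2 * th) : False := by
  linarith only [hb.M2, hb.uy, hl.xl3, hl.xuz, in3, in1]

theorem e1L_wQ_g {th lam y z g X MB u1 u2 ux ua al v2 vb be : ℝ}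
    (hb : MB0 th lam y z MB u1 u2 ux ua al v2 vb be) (hl : L3c th lam y MB u1 ua al vb be)
    (hg0 : 0 = g) (hug : ua ≤ 0) (hXc0 : X < MB + vb)
    (tO : FT th (-g) X 2 (th + ux + ua - u1) (u1 - ux - al) be) : False := by
  rcases tO with a1 | a1 | a1 | a1 | a1 | a1 | a1
  · linarith only [hb.v2y, hb.vb2, hl.xyM, hg0, hXc0, a1]
  · linarith only [hb.eU, hl.xyM, hl.xeU, hg0, hug, a1]
  · linarith only [hb.uy, hb.uax, hl.xua, hl.xyM, hl.xuz, hg0, a1]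
  · linarith only [hb.M0, hb.ZM, hb.uy, hb.uax, hl.xeU, hg0, a1]
  · linarith only [hl.xyM, hl.xbe, hg0, a1]
  · linarith only [hb.eZ, hl.xyM, hl.xeU, hg0, hug, hXc0, a1]
  · linarith only [hb.uy, hb.uax, hb.eZ, hl.xua, hl.xyM, hl.xeU, hg0, hXc0, a1]

theorem e1L_wQ_o {th lam y z g Y X MB MA m11 u1 u2 ux ua al v2 vb be sy ay cy : ℝ}
    (hb : MB0 th lam y z MB u1 u2 ux ua al v2 vb be) (hj : MJ th lam y z MB MA) (h110 : 0 ≤ m11)
    (hl : L3c th lam y MB u1 ua al vb be) (hg0 : 0 = g) (hY0 : 0 = Y) (hug : ua ≤ 0)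
    (hy : LY sy ay cy) (hyp1 : sy < MB + vb + 2) (hyp2 : MB + sy + 2 ≤ th) (hXb : sy ≤ Y + X)
    (hXc0 : X < MB + vb) (o2 : 5 * lam + y + 5 * u1 + vb ≤ 2 * th) (o3 : lam + u1 + 3 ≤ th)
    (tE : FT th (-g) X (MA - m11) (th + ua + vb - y) al (y - vb - be)) : False := by
  rcases tE with a1 | a1 | a1 | a1 | a1 | a1 | a1
  · linarith only [hj.A2, hb.v2y, hb.vb2, h110, hl.xyM, hg0, hXc0, a1]
  · linarith only [hb.M2, hj.A2, h110, hl.xl3, hl.xyM, hl.xuz, hg0, hug, o2, a1]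
  · linarith only [hj.A2, h110, hl.xua, hl.xyM, hg0, hy.a1, hy.say, hyp1, hyp2, a1]
  · linarith only [hb.M2, hb.uax, hb.eU, hj.A2, h110, hl.xua, hl.xl3, hg0, o3, a1]
  · linarith only [hj.A2, hb.v2y, hb.be1, h110, hl.xvb, hl.xyM, hg0, a1]
  · linarith only [hb.M2, hb.uax, hb.eU, hj.A2, hb.v2y, hb.be1, h110, hl.xl3, hl.xu1, hl.xeU, hg0, hXc0, o2, a1]
  · linarith only [hb.l2, hb.z0, hb.M2, hb.uax, hb.eU, hj.A2, hj.zMA, hb.v2y, hb.be1, h110, hl.xua, hg0, hY0, hy.a1, hy.say, hyp2, hXb, hXc0, o2, a1]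

theorem e1L_wQ_i {th lam y z MB u1 u2 ux ua al v2 vb be : ℝ}
    (hb : MB0 th lam y z MB u1 u2 ux ua al v2 vb be) (hl : L3c th lam y MB u1 ua al vb be)
    (in3 : lam + y + 3 ≤ th) (in1 : 4 * lam + 4 * y + u1 ≤ 2 * th) : False := by
  linarith only [hb.M2, hb.uy, hl.xl3, hl.xuz, in3, in1]

theorem e1L_wP_g {th lam y z g X MB u1 u2 ux ua al v2 vb be : ℝ}
    (hb : MB0 th lam y z MB u1 u2 ux ua al v2 vb be) (hl : L3c th lam y MB u1 ua al vb be)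
    (hg0 : 0 = g) (hug : ua ≤ 0) (hXc0 : X < MB + vb + 2) (hXc1 : X + MB + 2 ≤ th)
    (hlam : 4 ≤ lam) (tO : FT th (-g) X 2 (th + ux + ua - u1) (u1 - ux - al) be) : False := by
  rcases tO with a1 | a1 | a1 | a1 | a1 | a1 | a1
  · linarith only [hb.M0, hg0, hXc1, a1]
  · linarith only [hb.eU, hl.xyM, hl.xeU, hg0, hug, a1]
  · linarith only [hb.uy, hb.uax, hl.xua, hl.xyM, hl.xuz, hg0, a1]
  · linarith only [hb.M0, hb.ZM, hb.uy, hb.uax, hl.xeU, hg0, a1]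
  · linarith only [hl.xyM, hl.xbe, hg0, a1]
  · linarith only [hb.z0, hb.zM, hb.eZ, hl.xeU, hg0, hug, hXc0, hlam, a1]
  · linarith only [hb.z0, hb.zM, hb.uy, hb.uax, hb.eZ, hl.xua, hl.xeU, hg0, hXc0, hlam, a1]

theorem e1L_wP_o {th lam y z g Y X MB MA m11 u1 u2 ux ua al v2 vb be sy : ℝ}
    (hb : MB0 th lam y z MB u1 u2 ux ua al v2 vb be) (hj : MJ th lam y z MB MA) (h110 : 0 ≤ m11)
    (hl : L3c th lam y MB u1 ua al vb be) (hg0 : 0 = g) (hug : ua ≤ 0) (hXa : Y ≤ X + sy)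
    (hXb : sy ≤ Y + X) (hXc0 : X < MB + vb + 2) (hXc1 : X + MB + 2 ≤ th)
    (o2 : 5 * lam + y + 5 * u1 + vb ≤ 2 * th) (o3 : lam + u1 + 3 ≤ th)
    (tE : FT th (-g) X (MA - m11) (th + ua + vb - y) al (y - vb - be)) : False := by
  rcases tE with a1 | a1 | a1 | a1 | a1 | a1 | a1
  · linarith only [hj.A2, h110, hl.xl3, hl.xyM, hl.xuz, hg0, hXc0, hXc1, o2, a1]
  · linarith only [hb.M2, hj.A2, h110, hl.xl3, hl.xyM, hl.xuz, hg0, hug, o2, a1]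
  · linarith only [hj.A2, h110, hl.xua, hl.xvb, hl.xyM, hg0, hXa, hXb, hXc1, a1]
  · linarith only [hb.M2, hb.uax, hb.eU, hj.A2, h110, hl.xua, hl.xl3, hg0, o3, a1]
  · linarith only [hj.A2, hb.v2y, hb.be1, h110, hl.xvb, hl.xyM, hg0, a1]
  · linarith only [hb.uax, hb.eU, hj.A2, hb.v2y, hb.be1, h110, hl.xl3, hl.xyM, hl.xeU, hg0, hXc0, hXc1, o2, a1]
  · linarith only [hb.M2, hb.uax, hb.eU, hj.A2, hb.v2y, hb.be1, h110, hl.xua, hl.xvb, hl.xl3, hl.xyM, hl.xeU, hg0, hXc0, o2, a1]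

theorem e1L_wP_i {th lam y z MB u1 u2 ux ua al v2 vb be : ℝ}
    (hb : MB0 th lam y z MB u1 u2 ux ua al v2 vb be) (hl : L3c th lam y MB u1 ua al vb be)
    (in3 : lam + y + 3 ≤ th) (in1 : 4 * lam + 4 * y + u1 ≤ 2 * th) : False := by
  linarith only [hb.M2, hb.uy, hl.xl3, hl.xuz, in3, in1]

theorem e1L_2_g {th lam y z g X MB u1 u2 ux ua al v2 vb be sy ay cy : ℝ}
    (hb : MB0 th lam y z MB u1 u2 ux ua al v2 vb be) (hl : L3c th lam y MB u1 ua al vb be)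
    (hg0 : 0 = g) (hug : ua ≤ 0) (hy : LY sy ay cy) (hyp2 : MB + sy + 2 ≤ th) (hX : X ≤ 2)
    (hlam : 4 ≤ lam) (tO : FT th (-g) X 2 (th + ux + ua - u1) (u1 - ux - al) be) : False := by
  rcases tO with a1 | a1 | a1 | a1 | a1 | a1 | a1
  · linarith only [hb.M0, hg0, hy.a1, hy.say, hyp2, hX, a1]
  · linarith only [hb.eU, hl.xyM, hl.xeU, hg0, hug, a1]
  · linarith only [hb.uy, hb.uax, hl.xua, hl.xyM, hl.xuz, hg0, a1]
  · linarith only [hb.M0, hb.ZM, hb.uy, hb.uax, hl.xeU, hg0, a1]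
  · linarith only [hl.xyM, hl.xbe, hg0, a1]
  · linarith only [hb.z0, hb.zM, hl.xbe, hl.xeU, hg0, hug, hX, hlam, a1]
  · linarith only [hb.z0, hb.zM, hb.uy, hb.uax, hl.xua, hl.xbe, hl.xeU, hg0, hX, hlam, a1]

theorem e1L_2_o {th lam y z g X MB MA m11 u1 u2 ux ua al v2 vb be sy ay cy : ℝ}
    (hb : MB0 th lam y z MB u1 u2 ux ua al v2 vb be) (hj : MJ th lam y z MB MA) (h110 : 0 ≤ m11)
    (hl : L3c th lam y MB u1 ua al vb be) (hg0 : 0 = g) (hug : ua ≤ 0) (hy : LY sy ay cy)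
    (hyp1 : sy < MB + vb + 2) (hyp2 : MB + sy + 2 ≤ th) (hX : X ≤ 2)
    (o2 : 5 * lam + y + 5 * u1 + vb ≤ 2 * th) (o3 : lam + u1 + 3 ≤ th)
    (tE : FT th (-g) X (MA - m11) (th + ua + vb - y) al (y - vb - be)) : False := by
  rcases tE with a1 | a1 | a1 | a1 | a1 | a1 | a1
  · linarith only [hj.A2, h110, hl.xl3, hl.xyM, hl.xuz, hg0, hX, o3, a1]
  · linarith only [hb.M2, hj.A2, h110, hl.xl3, hl.xyM, hl.xuz, hg0, hug, o2, a1]
  · linarith only [hj.A2, h110, hl.xua, hl.xyM, hg0, hy.a1, hy.say, hyp1, hyp2, a1]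
  · linarith only [hb.M2, hb.uax, hb.eU, hj.A2, h110, hl.xua, hl.xl3, hg0, o3, a1]
  · linarith only [hj.A2, hb.v2y, hb.be1, h110, hl.xvb, hl.xyM, hg0, a1]
  · linarith only [hb.uax, hb.eU, hj.A2, hb.v2y, hb.be1, h110, hl.xl3, hg0, hX, o3, a1]
  · linarith only [hb.M2, hb.uax, hb.eU, hj.A2, hb.v2y, hb.be1, h110, hl.xua, hl.xvb, hl.xl3, hl.xyM, hl.xeU, hg0, hX, o2, a1]

theorem e1L_2_i {th lam y z MB u1 u2 ux ua al v2 vb be : ℝ}
    (hb : MB0 th lam y z MB u1 u2 ux ua al v2 vb be) (hl : L3c th lam y MB u1 ua al vb be)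
    (in1 : 4 * lam + 4 * y + u1 ≤ 2 * th) : False := by
  linarith only [hb.M2, hb.uy, hl.xl3, hl.xyM, hl.xuz, in1]

end Pool.Agent.Exact


end

section

/-!
# Low hubs, leaf 2a
-/

set_option autoImplicit false
set_option linter.unusedVariables false

namespace Pool.Agent.Exact

theorem r12a_j0_N_Y {th lam y z g nb Y sg D L X MB MA m11 u1 u2 ux ua al v2 vb be : ℝ}
    (hb : MB0 th lam y z MB u1 u2 ux ua al v2 vb be) (hj1 : u1 = ua) (hj2 : 0 = al)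
    (hj3 : MB = MA) (h110 : 0 ≤ m11) (h112 : m11 ≤ 2) (hl : L2a y MB u1 ua vb) (hs0 : 0 ≤ sg)
    (hY0 : 0 ≤ Y) (hg1 : 1 ≤ g) (hn1 : 1 ≤ nb) (hug : ua ≤ g) (hL0 : 0 ≤ L) (hD : nb + D ≤ z)
    (hDL : nb + Y + sg + D + L ≤ th + y + z) (hX0 : 0 ≤ X) (hX : Y = X)
    (t11 : FT th D L m11 (vb - ua) (y - vb - be) al) (tA : FT th (-g) X 0 (th + ua) al be)
    (tE : FT th (-g) X (MA - m11) (th + ua + vb - y) al (y - vb - be)) : False := by
  rcases t11 with a1 | a1 | a1 | a1 | a1 | a1 | a1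
  · rcases tA with a2 | a2 | a2 | a2 | a2 | a2 | a2
    · linarith only [hb.l2, hb.zM, hb.M0, h112, hs0, hg1, hn1, hDL, hX, a1, a2]
    · linarith only [hug, a2]
    · linarith only [hb.l2, hb.zM, hb.M0, h112, hl.xua, hs0, hn1, hug, hDL, hX0, hX, a1, a2]
    · linarith only [hb.ZM, hj2, hb.v2y, hb.vb2, hl.xua, hl.xvb, hug, a2]
    · linarith only [hb.ZM, hb.eZ, hl.xua, hl.xvb, hug, a2]
    · rcases tE with a3 | a3 | a3 | a3 | a3 | a3 | a3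
      · linarith only [hb.l2, hb.zM, hj3, hs0, hg1, hn1, hDL, hX, a1, a3]
      · linarith only [hb.l2, hb.zM, hj2, hj3, hb.eZ, hs0, hg1, hn1, hug, hDL, hX, a1, a2, a3]
      · linarith only [hb.M2, hb.ZM, hj3, hb.v2y, hb.vb2, h110, hl.xua, hl.xvb, hg1, a3]
      · linarith only [hb.M2, hb.ZM, hj2, hj3, hb.v2y, hb.vb2, h110, hl.xvb, hg1, a3]
      · linarith only [hb.M2, hb.ZM, hj3, hb.v2y, hb.be1, h110, hl.xvb, hg1, a3]
      · linarith only [hb.l2, hb.zM, hj2, hj3, hs0, hg1, hn1, hug, hDL, hX, a1, a2, a3]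
      · linarith only [hb.l2, hb.z0, hb.zM, hj2, hj3, hl.xvb, hs0, hg1, hn1, hDL, hX, a1, a2, a3]
    · linarith only [hb.l2, hb.z0, hb.zz, hb.zM, hj2, hb.eZ, h112, hl.xua, hl.xvb, hs0, hn1, hug, hDL, hX0, hX, a1, a2]
  · linarith only [hb.l2, hb.zz, hb.v2y, hb.vb2, h112, hl.xua, hn1, hD, a1]
  · linarith only [hb.l2, hb.zM, hj1, h112, hl.xvb, hl.xpq, hn1, hD, a1]
  · linarith only [hb.l2, hb.zM, hb.v2y, hb.be1, h112, hl.xvb, hn1, hD, a1]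
  · linarith only [hb.l2, hb.zM, hj2, hb.v2y, hb.vb2, h112, hl.xvb, hn1, hD, a1]
  · rcases tA with a2 | a2 | a2 | a2 | a2 | a2 | a2
    · linarith only [hb.l2, hb.zz, hj2, hb.v2y, hb.be1, h112, hl.xua, hs0, hn1, hug, hD, hDL, hX, a1, a2]
    · linarith only [hug, a2]
    · linarith only [hb.ZM, hb.v2y, hb.vb2, hl.xua, hl.xvb, hug, a2]
    · linarith only [hb.ZM, hj2, hb.v2y, hb.vb2, hl.xua, hl.xvb, hug, a2]
    · linarith only [hb.ZM, hb.eZ, hl.xua, hl.xvb, hug, a2]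
    · linarith only [hb.l2, hb.zz, hj2, h112, hs0, hg1, hn1, hD, hDL, hX, a1, a2]
    · linarith only [hb.l2, hb.z0, hb.zz, hj2, h112, hl.xua, hs0, hY0, hn1, hug, hL0, hDL, hX, a1, a2]
  · rcases tA with a2 | a2 | a2 | a2 | a2 | a2 | a2
    · linarith only [hb.l2, hb.zM, hj2, hb.v2y, hb.be1, h112, hl.xvb, hs0, hn1, hug, hD, hDL, hX, a1, a2]
    · linarith only [hug, a2]
    · linarith only [hb.ZM, hb.v2y, hb.vb2, hl.xua, hl.xvb, hug, a2]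
    · linarith only [hb.ZM, hj2, hb.v2y, hb.vb2, hl.xua, hl.xvb, hug, a2]
    · linarith only [hb.ZM, hb.eZ, hl.xua, hl.xvb, hug, a2]
    · linarith only [hb.l2, hb.zM, hj2, h112, hl.xvb, hs0, hn1, hug, hD, hDL, hX, a1, a2]
    · linarith only [hb.l2, hb.z0, hb.zz, hb.zM, hj2, h112, hl.xvb, hs0, hY0, hg1, hn1, hL0, hDL, hX, a1, a2]

theorem r12a_j0_N_wQ {th lam y z g Y X MB u1 u2 ux ua al v2 vb be : ℝ}
    (hb : MB0 th lam y z MB u1 u2 ux ua al v2 vb be) (hj2 : 0 = al) (hl : L2a y MB u1 ua vb)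
    (hY0 : 0 ≤ Y) (hg1 : 1 ≤ g) (hug : ua ≤ g) (hX0 : 0 ≤ X) (hXY : Y ≤ X) (hXc0 : X < MB + vb)
    (tA : FT th (-g) X 0 (th + ua) al be) : False := by
  rcases tA with a1 | a1 | a1 | a1 | a1 | a1 | a1
  · linarith only [hb.ZM, hb.v2y, hb.vb2, hg1, hXc0, a1]
  · linarith only [hug, a1]
  · linarith only [hb.ZM, hb.v2y, hb.vb2, hl.xua, hug, hX0, hXc0, a1]
  · linarith only [hb.ZM, hj2, hb.v2y, hb.vb2, hY0, hg1, hXY, hXc0, a1]
  · linarith only [hb.ZM, hb.eZ, hY0, hg1, hXY, hXc0, a1]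
  · linarith only [hb.ZM, hj2, hb.eZ, hg1, hug, hXc0, a1]
  · linarith only [hb.ZM, hj2, hb.v2y, hb.vb2, hb.eZ, hl.xua, hug, hX0, hXc0, a1]

theorem r12a_j0_N_wP {th lam y z g X MB u1 u2 ux ua al v2 vb be : ℝ}
    (hb : MB0 th lam y z MB u1 u2 ux ua al v2 vb be) (hj1 : u1 = ua) (hj2 : 0 = al)
    (hl : L2a y MB u1 ua vb) (hg1 : 1 ≤ g) (hug : ua ≤ g) (hX0 : 0 ≤ X) (hXc0 : X < ua)
    (tA : FT th (-g) X 0 (th + ua) al be) : False := by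
  rcases tA with a1 | a1 | a1 | a1 | a1 | a1 | a1
  · linarith only [hb.M0, hb.ZM, hb.uy, hj1, hug, hX0, hXc0, a1]
  · linarith only [hug, a1]
  · linarith only [hb.M0, hb.ZM, hb.uy, hj1, hug, hX0, hXc0, a1]
  · linarith only [hb.M0, hb.ZM, hb.uy, hj1, hj2, hug, hX0, hXc0, a1]
  · linarith only [hb.ZM, hb.eZ, hl.xua, hl.xvb, hug, a1]
  · linarith only [hb.ZM, hj2, hb.eZ, hl.xvb, hug, hXc0, a1]
  · linarith only [hb.ZM, hj2, hb.v2y, hb.vb2, hb.eZ, hl.xvb, hg1, hXc0, a1]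

theorem r12a_j0_N_2 {th lam y z g X MB u1 u2 ux ua al v2 vb be : ℝ}
    (hb : MB0 th lam y z MB u1 u2 ux ua al v2 vb be) (hj2 : 0 = al) (hl : L2a y MB u1 ua vb)
    (hg1 : 1 ≤ g) (hug : ua ≤ g) (hX : X ≤ 2) (tA : FT th (-g) X 0 (th + ua) al be) : False := by
  rcases tA with a1 | a1 | a1 | a1 | a1 | a1 | a1
  · linarith only [hb.ZM, hb.v2y, hb.vb2, hl.xvb, hg1, hX, a1]
  · linarith only [hug, a1]
  · linarith only [hb.ZM, hb.v2y, hb.vb2, hl.xua, hl.xvb, hug, a1]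
  · linarith only [hb.ZM, hj2, hb.v2y, hb.vb2, hl.xvb, hg1, a1]
  · linarith only [hb.ZM, hb.eZ, hl.xua, hl.xvb, hug, a1]
  · linarith only [hb.ZM, hj2, hb.eZ, hl.xvb, hg1, hug, hX, a1]
  · linarith only [hb.ZM, hj2, hb.v2y, hb.vb2, hb.eZ, hl.xua, hl.xvb, hug, hX, a1]

theorem r12a_j0_L_Y {th lam y z g nb Y sg D L X MB MA m11 m12 u1 u2 ux ua al v2 vb be sy ay cy : ℝ}
    (hb : MB0 th lam y z MB u1 u2 ux ua al v2 vb be) (hj1 : u1 = ua) (hj2 : 0 = al)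
    (hj3 : MB = MA) (h110 : 0 ≤ m11) (h112 : m11 ≤ 2) (h122 : m12 ≤ 2) (hl : L2a y MB u1 ua vb)
    (hs0 : 0 ≤ sg) (hY0 : 0 ≤ Y) (hg1 : 1 ≤ g) (hn1 : 1 ≤ nb) (hug : ua ≤ g) (hy : LY sy ay cy)
    (hyp1 : sy < ua) (hsL : sy ≤ L) (hD : nb + D + cy ≤ z)
    (hDL : nb + Y + sg + D + L + cy ≤ th + y + z) (hX0 : 0 ≤ X) (hX : Y = X + sy)
    (t11 : FT th (D + ay) (L - sy) m11 (vb - ua) (y - vb - be) al)
    (t12 : FT th (D + ay) (L - sy) m12 (v2 - u1) (v2 + be - y) (u1 - ua - al))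
    (tA : FT th (-g) X 0 (th + ua) al be)
    (tE : FT th (-g) X (MA - m11) (th + ua + vb - y) al (y - vb - be)) : False := by
  rcases tA with a1 | a1 | a1 | a1 | a1 | a1 | a1
  · rcases t11 with a2 | a2 | a2 | a2 | a2 | a2 | a2
    · linarith only [hb.l2, hb.zM, hb.M0, h112, hs0, hn1, hug, hy.a1, hy.c0, hy.say, hyp1, hDL, hX, a1, a2]
    · linarith only [hb.l2, hb.zM, hb.M0, hb.v2y, hb.vb2, h112, hn1, hy.c0, hy.say, hyp1, hD, a2]
    · linarith only [hb.l2, hb.zM, h112, hl.xvb, hs0, hn1, hug, hy.a1, hy.c0, hy.say, hsL, hDL, hX, a1, a2]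
    · rcases t12 with a3 | a3 | a3 | a3 | a3 | a3 | a3
      · linarith only [hb.l2, hb.zz, h122, hs0, hg1, hn1, hy.a1, hy.c0, hy.say, hDL, hX, a1, a3]
      · linarith only [hb.l2, hb.zz, hj1, hb.v2y, h122, hn1, hy.c0, hy.say, hyp1, hD, a3]
      · linarith only [hb.l2, hb.zM, hb.vb2, h122, hl.xvb, hl.xpq, hn1, hy.ac, hD, a3]
      · linarith only [hb.l2, hb.zM, hb.M0, hb.v2y, h112, h122, hl.xvb, hs0, hg1, hn1, hy.c0, hy.say, hsL, hD, hDL, hX, a1, a2, a3]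
      · linarith only [hb.l2, hb.zz, hj2, h122, hl.xpq, hn1, hy.c0, hy.say, hyp1, hD, a3]
      · linarith only [hb.l2, hb.zM, hb.M0, hj2, hb.v2y, h112, h122, hl.xvb, hs0, hg1, hn1, hy.c0, hy.say, hyp1, hD, hDL, hX, a1, a2, a3]
      · linarith only [hb.l2, hb.zM, hb.M0, hj2, h112, h122, hl.xvb, hl.xpq, hs0, hg1, hn1, hy.c0, hy.say, hyp1, hD, hDL, hX, a1, a2, a3]
    · linarith only [hb.l2, hb.zM, hb.M0, hj1, hj2, h112, hl.xpq, hn1, hy.c0, hy.say, hyp1, hD, a2]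
    · linarith only [hb.l2, hb.zz, hj2, hb.v2y, hb.be1, h112, hs0, hn1, hug, hy.a1, hy.c0, hy.say, hyp1, hD, hDL, hX, a1, a2]
    · linarith only [hb.l2, hb.zM, hj2, hb.v2y, hb.be1, h112, hl.xvb, hs0, hn1, hug, hy.c0, hy.say, hD, hDL, hX, a1, a2]
  · linarith only [hug, a1]
  · linarith only [hb.l2, hb.z0, hb.zM, hb.M0, hj1, hl.xua, hl.xpq, hug, a1]
  · linarith only [hb.ZM, hj2, hb.v2y, hb.vb2, hl.xua, hl.xvb, hug, a1]
  · linarith only [hb.ZM, hb.eZ, hl.xua, hl.xvb, hug, a1]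
  · rcases t11 with a2 | a2 | a2 | a2 | a2 | a2 | a2
    · rcases tE with a3 | a3 | a3 | a3 | a3 | a3 | a3
      · linarith only [hb.l2, hb.zM, hj3, hs0, hg1, hn1, hy.a1, hy.c0, hy.say, hDL, hX, a2, a3]
      · linarith only [hb.l2, hb.zM, hj2, hj3, hb.eZ, hs0, hg1, hn1, hug, hy.a1, hy.c0, hy.say, hDL, hX, a1, a2, a3]
      · linarith only [hb.ZM, hj1, hj3, h110, hl.xua, hl.xvb, hl.xpq, hg1, a3]
      · linarith only [hb.ZM, hb.uy, hj1, hj2, hj3, h110, hl.xua, hug, a3]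
      · linarith only [hb.l2, hb.z0, hb.zM, hj2, hj3, hl.xvb, hs0, hg1, hn1, hug, hy.a1, hy.c0, hy.say, hDL, hX, a1, a2, a3]
      · linarith only [hb.l2, hb.zM, hj2, hj3, hs0, hg1, hn1, hug, hy.a1, hy.c0, hy.say, hDL, hX, a1, a2, a3]
      · linarith only [hb.l2, hb.z0, hb.zM, hj2, hj3, hl.xvb, hs0, hg1, hn1, hy.a1, hy.c0, hy.say, hDL, hX, a1, a2, a3]
    · linarith only [hb.l2, hb.zM, hb.M0, hb.v2y, hb.vb2, h112, hn1, hy.c0, hy.say, hyp1, hD, a2]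
    · linarith only [hb.l2, hb.zM, hj1, h112, hl.xvb, hl.xpq, hn1, hy.ac, hD, a2]
    · rcases t12 with a3 | a3 | a3 | a3 | a3 | a3 | a3
      · linarith only [hb.l2, hb.zM, hb.M0, hj2, h112, h122, hl.xvb, hs0, hn1, hug, hy.a1, hy.c0, hy.say, hyp1, hD, hDL, hX, a1, a2, a3]
      · linarith only [hb.l2, hb.zz, hj1, hb.v2y, h122, hn1, hy.c0, hy.say, hyp1, hD, a3]
      · linarith only [hb.l2, hb.zM, hb.vb2, h122, hl.xvb, hl.xpq, hn1, hy.ac, hD, a3]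
      · linarith only [hb.l2, hb.zM, hb.M0, hj2, hb.v2y, h112, h122, hl.xvb, hs0, hn1, hug, hy.c0, hy.say, hyp1, hsL, hD, hDL, hX, a1, a2, a3]
      · linarith only [hb.l2, hb.zz, hj2, h122, hl.xpq, hn1, hy.c0, hy.say, hyp1, hD, a3]
      · linarith only [hb.l2, hb.zM, hb.M0, hb.v2y, h112, h122, hl.xvb, hs0, hg1, hn1, hy.ac, hy.c0, hy.say, hD, hDL, hX, a1, a2, a3]
      · linarith only [hb.l2, hb.zM, hb.M0, h112, h122, hl.xvb, hl.xpq, hs0, hg1, hn1, hy.ac, hy.c0, hy.say, hD, hDL, hX, a1, a2, a3]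
    · linarith only [hb.l2, hb.zM, hb.M0, hj1, hj2, h112, hl.xpq, hn1, hy.c0, hy.say, hyp1, hD, a2]
    · linarith only [hb.l2, hb.zz, hj2, h112, hs0, hg1, hn1, hy.c0, hy.say, hD, hDL, hX, a1, a2]
    · linarith only [hb.l2, hb.zM, hj2, h112, hl.xvb, hs0, hn1, hug, hy.c0, hy.say, hD, hDL, hX, a1, a2]
  · rcases t11 with a2 | a2 | a2 | a2 | a2 | a2 | a2
    · linarith only [hb.l2, hb.z0, hb.zz, hb.zM, hj2, hb.eZ, h112, hl.xvb, hs0, hn1, hug, hy.a1, hy.c0, hy.say, hyp1, hDL, hX0, hX, a1, a2]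
    · linarith only [hb.l2, hb.zM, hb.M0, hb.v2y, hb.vb2, h112, hn1, hy.c0, hy.say, hyp1, hD, a2]
    · linarith only [hb.l2, hb.zM, hj1, h112, hl.xvb, hl.xpq, hn1, hy.ac, hD, a2]
    · linarith only [hb.l2, hb.z0, hb.zM, hb.M0, hj1, hj2, h112, hl.xvb, hl.xpq, hs0, hn1, hug, hy.a1, hy.c0, hy.say, hyp1, hsL, hDL, hX, a1, a2]
    · linarith only [hb.l2, hb.zM, hb.M0, hj1, hj2, h112, hl.xpq, hn1, hy.c0, hy.say, hyp1, hD, a2]
    · linarith only [hb.l2, hb.z0, hb.zz, hj2, h112, hs0, hY0, hn1, hug, hy.a1, hy.c0, hy.say, hyp1, hsL, hDL, hX, a1, a2]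
    · linarith only [hb.l2, hb.z0, hb.zz, hb.zM, hj2, h112, hl.xvb, hs0, hY0, hn1, hug, hy.a1, hy.c0, hy.say, hyp1, hsL, hDL, hX, a1, a2]

theorem r12a_j0_L_S {th lam y z g Y X MB u1 u2 ux ua al v2 vb be sy : ℝ}
    (hb : MB0 th lam y z MB u1 u2 ux ua al v2 vb be) (hj1 : u1 = ua) (hj2 : 0 = al)
    (hl : L2a y MB u1 ua vb) (hY0 : 0 ≤ Y) (hg1 : 1 ≤ g) (hug : ua ≤ g) (hyp1 : sy < ua)
    (hXa : Y ≤ X + sy) (hX : sy = Y + X) (tA : FT th (-g) X 0 (th + ua) al be) : False := by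
  rcases tA with a1 | a1 | a1 | a1 | a1 | a1 | a1
  · linarith only [hb.l2, hb.z0, hb.zM, hb.M0, hj1, hl.xpq, hY0, hug, hyp1, hXa, hX, a1]
  · linarith only [hug, a1]
  · linarith only [hb.l2, hb.z0, hb.zM, hb.M0, hj1, hl.xua, hl.xpq, hug, a1]
  · linarith only [hb.ZM, hj2, hb.v2y, hb.vb2, hl.xua, hl.xvb, hug, a1]
  · linarith only [hb.ZM, hb.eZ, hl.xua, hl.xvb, hug, a1]
  · linarith only [hb.ZM, hj2, hb.eZ, hl.xvb, hY0, hug, hyp1, hX, a1]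
  · linarith only [hb.ZM, hj2, hb.v2y, hb.vb2, hb.eZ, hl.xvb, hY0, hg1, hyp1, hX, a1]

theorem r12a_j0_L_wQ {th lam y z g X MB u1 u2 ux ua al v2 vb be : ℝ}
    (hb : MB0 th lam y z MB u1 u2 ux ua al v2 vb be) (hj1 : u1 = ua) (hj2 : 0 = al)
    (hl : L2a y MB u1 ua vb) (hg1 : 1 ≤ g) (hug : ua ≤ g) (hXc0 : X < MB + vb)
    (tA : FT th (-g) X 0 (th + ua) al be) : False := by
  rcases tA with a1 | a1 | a1 | a1 | a1 | a1 | a1
  · linarith only [hb.ZM, hb.v2y, hb.vb2, hg1, hXc0, a1]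
  · linarith only [hug, a1]
  · linarith only [hb.l2, hb.z0, hb.zM, hb.M0, hj1, hl.xua, hl.xpq, hug, a1]
  · linarith only [hb.ZM, hj2, hb.v2y, hb.vb2, hl.xua, hl.xvb, hug, a1]
  · linarith only [hb.ZM, hb.eZ, hl.xua, hl.xvb, hug, a1]
  · linarith only [hb.ZM, hj2, hb.eZ, hg1, hug, hXc0, a1]
  · linarith only [hb.ZM, hj2, hb.v2y, hb.vb2, hb.eZ, hl.xua, hl.xvb, hug, hXc0, a1]

theorem r12a_j0_L_wP {th lam y z g X MB u1 u2 ux ua al v2 vb be : ℝ}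
    (hb : MB0 th lam y z MB u1 u2 ux ua al v2 vb be) (hj1 : u1 = ua) (hj2 : 0 = al)
    (hl : L2a y MB u1 ua vb) (hg1 : 1 ≤ g) (hug : ua ≤ g) (hXc0 : X < ua)
    (tA : FT th (-g) X 0 (th + ua) al be) : False := by
  rcases tA with a1 | a1 | a1 | a1 | a1 | a1 | a1
  · linarith only [hb.l2, hb.z0, hb.zM, hb.M0, hj1, hl.xpq, hg1, hXc0, a1]
  · linarith only [hug, a1]
  · linarith only [hb.l2, hb.z0, hb.zM, hb.M0, hj1, hl.xua, hl.xpq, hug, a1]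
  · linarith only [hb.ZM, hj2, hb.v2y, hb.vb2, hl.xua, hl.xvb, hug, a1]
  · linarith only [hb.ZM, hb.eZ, hl.xua, hl.xvb, hug, a1]
  · linarith only [hb.ZM, hj2, hb.eZ, hl.xvb, hug, hXc0, a1]
  · linarith only [hb.ZM, hj2, hb.v2y, hb.vb2, hb.eZ, hl.xua, hl.xvb, hug, hXc0, a1]

theorem r12a_j0_L_2 {th lam y z g X MB u1 u2 ux ua al v2 vb be : ℝ}
    (hb : MB0 th lam y z MB u1 u2 ux ua al v2 vb be) (hj1 : u1 = ua) (hj2 : 0 = al)
    (hl : L2a y MB u1 ua vb) (hug : ua ≤ g) (hX : X ≤ 2) (tA : FT th (-g) X 0 (th + ua) al be)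
    : False := by
  rcases tA with a1 | a1 | a1 | a1 | a1 | a1 | a1
  · linarith only [hb.l2, hb.z0, hb.zM, hb.M0, hj1, hl.xua, hl.xpq, hug, hX, a1]
  · linarith only [hug, a1]
  · linarith only [hb.l2, hb.z0, hb.zM, hb.M0, hj1, hl.xua, hl.xpq, hug, a1]
  · linarith only [hb.ZM, hj2, hb.v2y, hb.vb2, hl.xua, hl.xvb, hug, a1]
  · linarith only [hb.ZM, hb.eZ, hl.xua, hl.xvb, hug, a1]
  · linarith only [hb.ZM, hj2, hb.eZ, hl.xua, hl.xvb, hug, hX, a1]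
  · linarith only [hb.ZM, hj2, hb.v2y, hb.vb2, hb.eZ, hl.xua, hl.xvb, hug, hX, a1]

theorem r12a_j1_N_Y_a {th lam y z g nb Y sg D L X MB MA m11 m12 u1 u2 ux ua al v2 vb be : ℝ}
    (hb : MB0 th lam y z MB u1 u2 ux ua al v2 vb be) (hj : MJ th lam y z MB MA) (h110 : 0 ≤ m11)
    (h122 : m12 ≤ 2) (hl : L2a y MB u1 ua vb) (hs0 : 0 ≤ sg) (hY0 : 0 ≤ Y) (hg1 : 1 ≤ g)
    (hn1 : 1 ≤ nb) (hug : ua ≤ g) (hD : nb + D ≤ z) (hDL : nb + Y + sg + D + L ≤ th + y + z)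
    (hX : Y = X) (hm11 : 0 = m11) (t11 : FT th D L m11 (vb - ua) (y - vb - be) al)
    (t12 : FT th D L m12 (v2 - u1) (v2 + be - y) (u1 - ua - al))
    (tA : FT th (-g) X 0 (th + ua) al be)
    (tE : FT th (-g) X (MA - m11) (th + ua + vb - y) al (y - vb - be))
    (tO : FT th (-g) X 2 (th + ux + ua - u1) (u1 - ux - al) be) : False := by
  rcases t11 with a1 | a1 | a1 | a1 | a1 | a1 | a1
  · rcases tA with a2 | a2 | a2 | a2 | a2 | a2 | a2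
    · linarith only [hb.l2, hb.zz, hs0, hg1, hn1, hDL, hX, hm11, a1, a2]
    · linarith only [hug, a2]
    · linarith only [hb.l2, hb.zM, hb.M0, hl.xua, hs0, hY0, hg1, hn1, hDL, hm11, a1, a2]
    · linarith only [hb.l2, hb.z0, hb.zz, hb.uax, hb.eU, hl.xua, hl.xpq, hg1, a2]
    · linarith only [hb.ZM, hb.eZ, hl.xvb, hg1, a2]
    · rcases t12 with a3 | a3 | a3 | a3 | a3 | a3 | a3
      · rcases tE with a4 | a4 | a4 | a4 | a4 | a4 | a4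
        · linarith only [hb.l2, hj.zA, hs0, hg1, hn1, hDL, hX, a1, a4]
        · rcases tO with a5 | a5 | a5 | a5 | a5 | a5 | a5
          · linarith only [hb.l2, hb.zz, hs0, hg1, hn1, hDL, hX, hm11, a1, a5]
          · linarith only [hb.l2, hb.eU, hj.zA, hb.eZ, hs0, hg1, hn1, hug, hDL, hX, a1, a2, a4, a5]
          · linarith only [hb.M0, hb.ZM, hb.uy, hb.u12, hb.ux2, hb.uax, hl.xua, hug, a5]
          · linarith only [hb.M0, hb.ZM, hb.uy, hb.al0, hb.uax, hl.xua, hug, a5]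
          · linarith only [hb.ZM, hb.eZ, hl.xvb, hg1, a5]
          · linarith only [hb.l2, hj.zA, hb.eZ, hs0, hg1, hn1, hug, hDL, hX, a1, a2, a4, a5]
          · linarith only [hb.l2, hb.z0, hb.zz, hb.uax, hj.zA, hb.eZ, hl.xpq, hs0, hg1, hn1, hDL, hX, a1, a2, a4, a5]
        · linarith only [hb.ZM, hj.A2, hb.v2y, hb.vb2, h110, hl.xua, hl.xvb, hg1, a4]
        · linarith only [hb.l2, hb.z0, hb.uax, hb.eU, hj.zA, h110, hl.xua, hl.xpq, hg1, a4]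
        · linarith only [hb.ZM, hj.A2, hb.v2y, hb.be1, h110, hl.xvb, hg1, a4]
        · rcases tO with a5 | a5 | a5 | a5 | a5 | a5 | a5
          · linarith only [hb.l2, hb.zz, hs0, hg1, hn1, hDL, hX, hm11, a1, a5]
          · linarith only [hb.l2, hb.eU, hj.zA, hs0, hg1, hn1, hug, hDL, hX, a1, a2, a4, a5]
          · linarith only [hb.M0, hb.ZM, hb.uy, hb.u12, hb.ux2, hb.uax, hl.xua, hug, a5]
          · linarith only [hb.M0, hb.ZM, hb.uy, hb.al0, hb.uax, hl.xua, hug, a5]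
          · linarith only [hb.ZM, hb.eZ, hl.xvb, hg1, a5]
          · linarith only [hb.l2, hj.zA, hs0, hg1, hn1, hug, hDL, hX, a1, a4, a5]
          · linarith only [hb.l2, hb.z0, hb.zz, hb.uax, hj.zA, h122, hl.xua, hl.xpq, hs0, hg1, hn1, hDL, hX, hm11, a3, a4, a5]
        · rcases tO with a5 | a5 | a5 | a5 | a5 | a5 | a5
          · linarith only [hb.l2, hb.zz, hs0, hg1, hn1, hDL, hX, hm11, a1, a5]
          · linarith only [hb.l2, hb.z0, hb.eU, hj.A0, hj.zA, hj.zMA, hl.xvb, hs0, hg1, hn1, hug, hDL, hX, a1, a2, a4, a5]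
          · linarith only [hb.M0, hb.ZM, hb.uy, hb.u12, hb.ux2, hb.uax, hl.xua, hug, a5]
          · linarith only [hb.M0, hb.ZM, hb.uy, hb.al0, hb.uax, hl.xua, hug, a5]
          · linarith only [hb.ZM, hb.eZ, hl.xvb, hg1, a5]
          · linarith only [hb.l2, hb.z0, hb.zz, hj.zMA, hl.xvb, hs0, hg1, hn1, hDL, hX, a1, a4, a5]
          · linarith only [hb.l2, hb.z0, hb.zz, hb.uax, hj.zMA, h122, hl.xua, hl.xvb, hl.xpq, hs0, hg1, hn1, hDL, hX, hm11, a3, a4, a5]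
      · linarith only [hb.l2, hb.u12, hb.ux2, hb.uax, hj.A0, hj.zA, hb.v2y, h122, hl.xua, hn1, hD, a3]
      · linarith only [hb.l2, hb.zM, hb.vb2, h122, hl.xvb, hl.xpq, hn1, hD, a3]
      · linarith only [hb.l2, hb.zM, hb.v2y, hb.eZ, h122, hl.xvb, hn1, hD, a3]
      · linarith only [hb.l2, hb.zz, hb.al0, h122, hl.xua, hl.xpq, hn1, hD, a3]
      · rcases tE with a4 | a4 | a4 | a4 | a4 | a4 | a4
        · linarith only [hb.l2, hj.zA, hs0, hg1, hn1, hDL, hX, a1, a4]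
        · linarith only [hb.l2, hj.zA, hb.v2y, hb.eZ, h122, hs0, hg1, hn1, hug, hD, hDL, hX, hm11, a2, a3, a4]
        · linarith only [hb.ZM, hj.A2, hb.v2y, hb.vb2, h110, hl.xua, hl.xvb, hg1, a4]
        · linarith only [hb.l2, hb.z0, hb.uax, hb.eU, hj.zA, h110, hl.xua, hl.xpq, hg1, a4]
        · linarith only [hb.ZM, hj.A2, hb.v2y, hb.be1, h110, hl.xvb, hg1, a4]
        · linarith only [hb.l2, hj.zA, hb.v2y, h122, hs0, hg1, hn1, hD, hDL, hX, hm11, a3, a4]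
        · linarith only [hb.l2, hb.z0, hb.zM, hj.zA, hb.v2y, h122, hl.xua, hl.xvb, hs0, hg1, hn1, hD, hDL, hX, hm11, a3, a4]
      · rcases tE with a4 | a4 | a4 | a4 | a4 | a4 | a4
        · linarith only [hb.l2, hj.zA, hs0, hg1, hn1, hDL, hX, a1, a4]
        · linarith only [hb.l2, hj.zA, hb.eZ, h122, hl.xpq, hs0, hg1, hn1, hug, hD, hDL, hX, hm11, a2, a3, a4]
        · linarith only [hb.ZM, hj.A2, hb.v2y, hb.vb2, h110, hl.xua, hl.xvb, hg1, a4]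
        · linarith only [hb.l2, hb.z0, hb.uax, hb.eU, hj.zA, h110, hl.xua, hl.xpq, hg1, a4]
        · linarith only [hb.ZM, hj.A2, hb.v2y, hb.be1, h110, hl.xvb, hg1, a4]
        · linarith only [hb.l2, hj.zA, h122, hl.xpq, hs0, hg1, hn1, hD, hDL, hX, hm11, a3, a4]
        · linarith only [hb.l2, hb.z0, hb.zM, hj.zA, h122, hl.xua, hl.xvb, hl.xpq, hs0, hg1, hn1, hD, hDL, hX, hm11, a3, a4]
    · linarith only [hb.l2, hb.z0, hb.zz, hb.zM, hb.uax, hb.eU, hb.eZ, hl.xua, hl.xvb, hl.xpq, hs0, hn1, hug, hDL, hX, hm11, a1, a2]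
  · linarith only [hb.l2, hb.zz, hb.v2y, hb.vb2, hl.xua, hn1, hD, hm11, a1]
  · linarith only [hb.l2, hb.zM, hb.u12, hb.ux2, hb.uax, hl.xvb, hl.xpq, hn1, hD, hm11, a1]
  · linarith only [hb.l2, hb.zM, hb.v2y, hb.be1, hl.xvb, hn1, hD, hm11, a1]
  · linarith only [hb.l2, hb.zz, hb.uax, hb.eU, hl.xua, hl.xpq, hn1, hD, hm11, a1]
  · rcases tA with a2 | a2 | a2 | a2 | a2 | a2 | a2
    · rcases t12 with a3 | a3 | a3 | a3 | a3 | a3 | a3
      · linarith only [hb.l2, hb.zz, h122, hs0, hg1, hn1, hDL, hX, a2, a3]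
      · linarith only [hb.l2, hb.uax, hb.eU, hj.A0, hj.zA, hb.v2y, hb.be1, h122, hl.xua, hs0, hn1, hug, hD, hDL, hX, hm11, a1, a2, a3]
      · linarith only [hb.l2, hb.zM, hb.vb2, h122, hl.xvb, hl.xpq, hn1, hD, a3]
      · linarith only [hb.l2, hb.zM, hb.v2y, hb.eZ, h122, hl.xvb, hn1, hD, a3]
      · linarith only [hb.l2, hb.zz, hb.al0, h122, hl.xua, hl.xpq, hn1, hD, a3]
      · linarith only [hb.l2, hb.zz, hb.v2y, h122, hl.xua, hs0, hg1, hn1, hD, hDL, hX, hm11, a1, a2, a3]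
      · linarith only [hb.l2, hb.zz, h122, hl.xua, hl.xpq, hs0, hn1, hug, hD, hDL, hX, hm11, a1, a2, a3]
    · linarith only [hug, a2]
    · linarith only [hb.ZM, hb.v2y, hb.vb2, hl.xua, hl.xvb, hg1, a2]
    · linarith only [hb.l2, hb.z0, hb.zz, hb.uax, hb.eU, hl.xua, hl.xpq, hg1, a2]
    · linarith only [hb.ZM, hb.eZ, hl.xvb, hg1, a2]
    · rcases tO with a3 | a3 | a3 | a3 | a3 | a3 | a3
      · rcases t12 with a4 | a4 | a4 | a4 | a4 | a4 | a4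
        · linarith only [hb.l2, hb.zz, h122, hs0, hg1, hn1, hDL, hX, a3, a4]
        · linarith only [hb.l2, hb.uax, hb.eU, hj.A0, hj.zA, hb.v2y, h122, hl.xua, hs0, hn1, hug, hD, hDL, hX, hm11, a1, a2, a4]
        · linarith only [hb.l2, hb.zM, hb.vb2, h122, hl.xvb, hl.xpq, hn1, hD, a4]
        · linarith only [hb.l2, hb.zM, hb.v2y, hb.eZ, h122, hl.xvb, hn1, hD, a4]
        · linarith only [hb.l2, hb.zz, h122, hl.xua, hl.xpq, hs0, hn1, hug, hD, hDL, hX, hm11, a1, a2, a4]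
        · linarith only [hb.l2, hb.zz, hb.v2y, h122, hl.xua, hs0, hg1, hn1, hD, hDL, hX, hm11, a1, a3, a4]
        · linarith only [hb.l2, hb.zz, h122, hl.xua, hl.xpq, hs0, hn1, hug, hD, hDL, hX, hm11, a1, a3, a4]
      · linarith only [hb.l2, hb.zz, hb.eU, hs0, hg1, hn1, hug, hD, hDL, hX, hm11, a1, a2, a3]
      · linarith only [hb.l2, hb.z0, hb.uax, hj.A0, hj.zA, hj.zMA, hb.v2y, hb.vb2, hl.xua, hl.xvb, hl.xpq, hg1, a3]
      · linarith only [hb.M0, hb.ZM, hb.uy, hb.al0, hb.uax, hl.xua, hg1, a3]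
      · linarith only [hb.ZM, hb.eZ, hl.xvb, hg1, a3]
      · linarith only [hb.l2, hb.zz, hs0, hg1, hn1, hD, hDL, hX, hm11, a1, a3]
      · linarith only [hb.l2, hb.z0, hb.zz, hb.uax, hl.xua, hl.xpq, hs0, hg1, hn1, hD, hDL, hX, hm11, a1, a3]
    · linarith only [hb.l2, hb.z0, hb.zz, hb.uax, hb.eU, hl.xua, hl.xpq, hs0, hg1, hn1, hD, hDL, hX, hm11, a1, a2]
  · rcases tA with a2 | a2 | a2 | a2 | a2 | a2 | a2
    · rcases t12 with a3 | a3 | a3 | a3 | a3 | a3 | a3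
      · linarith only [hb.l2, hb.zz, h122, hs0, hg1, hn1, hDL, hX, a2, a3]
      · linarith only [hb.l2, hb.uax, hb.eU, hj.A0, hj.zA, hj.zMA, hb.v2y, hb.be1, h122, hl.xua, hl.xvb, hs0, hn1, hug, hD, hDL, hX, hm11, a1, a2, a3]
      · linarith only [hb.l2, hb.zM, hb.vb2, h122, hl.xvb, hl.xpq, hn1, hD, a3]
      · linarith only [hb.l2, hb.zM, hb.v2y, hb.eZ, h122, hl.xvb, hn1, hD, a3]
      · linarith only [hb.l2, hb.zz, hb.al0, h122, hl.xua, hl.xpq, hn1, hD, a3]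
      · linarith only [hb.l2, hb.zz, hb.zM, hb.v2y, h122, hl.xvb, hs0, hg1, hn1, hD, hDL, hX, hm11, a1, a2, a3]
      · linarith only [hb.l2, hb.zz, hb.zM, h122, hl.xua, hl.xvb, hl.xpq, hs0, hn1, hug, hD, hDL, hX, hm11, a1, a2, a3]
    · linarith only [hug, a2]
    · linarith only [hb.ZM, hb.v2y, hb.vb2, hl.xua, hl.xvb, hg1, a2]
    · linarith only [hb.l2, hb.z0, hb.zz, hb.uax, hb.eU, hl.xua, hl.xpq, hg1, a2]
    · linarith only [hb.ZM, hb.eZ, hl.xvb, hg1, a2]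
    · rcases tO with a3 | a3 | a3 | a3 | a3 | a3 | a3
      · rcases t12 with a4 | a4 | a4 | a4 | a4 | a4 | a4
        · linarith only [hb.l2, hb.zz, h122, hs0, hg1, hn1, hDL, hX, a3, a4]
        · linarith only [hb.l2, hb.uax, hb.eU, hj.A0, hj.zA, hj.zMA, hb.v2y, h122, hl.xua, hl.xvb, hs0, hn1, hug, hD, hDL, hX, hm11, a1, a2, a4]
        · linarith only [hb.l2, hb.zM, hb.vb2, h122, hl.xvb, hl.xpq, hn1, hD, a4]
        · linarith only [hb.l2, hb.zM, hb.v2y, hb.eZ, h122, hl.xvb, hn1, hD, a4]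
        · linarith only [hb.l2, hb.zz, hb.zM, h122, hl.xua, hl.xvb, hl.xpq, hs0, hn1, hug, hD, hDL, hX, hm11, a1, a2, a4]
        · linarith only [hb.l2, hb.zz, hb.zM, hb.v2y, h122, hl.xvb, hs0, hg1, hn1, hD, hDL, hX, hm11, a1, a3, a4]
        · linarith only [hb.l2, hb.zz, hb.zM, h122, hl.xua, hl.xvb, hl.xpq, hs0, hn1, hug, hD, hDL, hX, hm11, a1, a3, a4]
      · linarith only [hb.l2, hb.zM, hb.eU, hl.xvb, hs0, hn1, hug, hD, hDL, hX, hm11, a1, a2, a3]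
      · linarith only [hb.l2, hb.z0, hb.uax, hj.A0, hj.zA, hj.zMA, hb.v2y, hb.vb2, hl.xua, hl.xvb, hl.xpq, hg1, a3]
      · linarith only [hb.M0, hb.ZM, hb.uy, hb.al0, hb.uax, hl.xua, hg1, a3]
      · linarith only [hb.ZM, hb.eZ, hl.xvb, hg1, a3]
      · linarith only [hb.l2, hb.zM, hl.xvb, hs0, hn1, hug, hD, hDL, hX, hm11, a1, a3]
      · linarith only [hb.l2, hb.z0, hb.zz, hb.zM, hb.uax, hl.xua, hl.xvb, hl.xpq, hs0, hg1, hn1, hD, hDL, hX, hm11, a1, a3]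
    · linarith only [hb.l2, hb.z0, hb.zz, hb.zM, hb.uax, hb.eU, hl.xua, hl.xvb, hl.xpq, hs0, hg1, hn1, hD, hDL, hX, hm11, a1, a2]

theorem r12a_j1_N_Y_b {th lam y z g nb Y sg D L X MB MA m11 m12 u1 u2 ux ua al v2 vb be : ℝ}
    (hb : MB0 th lam y z MB u1 u2 ux ua al v2 vb be) (hj : MJ th lam y z MB MA) (h110 : 0 ≤ m11)
    (h112 : m11 ≤ 2) (h122 : m12 ≤ 2) (hl : L2a y MB u1 ua vb) (hs0 : 0 ≤ sg) (hg1 : 1 ≤ g)
    (hn1 : 1 ≤ nb) (hug : ua ≤ g) (hD : nb + D ≤ z) (hDL : nb + Y + sg + D + L ≤ th + y + z)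
    (hX0 : 0 ≤ X) (hX : Y = X) (hm11 : 1 ≤ m11) (t11 : FT th D L m11 (vb - ua) (y - vb - be) al)
    (t12 : FT th D L m12 (v2 - u1) (v2 + be - y) (u1 - ua - al))
    (tA : FT th (-g) X 0 (th + ua) al be)
    (tE : FT th (-g) X (MA - m11) (th + ua + vb - y) al (y - vb - be))
    (tO : FT th (-g) X 2 (th + ux + ua - u1) (u1 - ux - al) be) : False := by
  rcases t11 with a1 | a1 | a1 | a1 | a1 | a1 | a1
  · rcases tA with a2 | a2 | a2 | a2 | a2 | a2 | a2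
    · linarith only [hb.l2, hb.zz, h112, hs0, hg1, hn1, hDL, hX, a1, a2]
    · linarith only [hug, a2]
    · linarith only [hb.l2, hb.zz, h112, hl.xua, hs0, hn1, hug, hDL, hX0, hX, a1, a2]
    · linarith only [hb.l2, hb.z0, hb.zz, hb.uax, hb.eU, hl.xua, hl.xpq, hug, a2]
    · linarith only [hb.ZM, hb.eZ, hl.xvb, hg1, a2]
    · rcases t12 with a3 | a3 | a3 | a3 | a3 | a3 | a3
      · rcases tE with a4 | a4 | a4 | a4 | a4 | a4 | a4
        · linarith only [hb.l2, hj.zA, hs0, hg1, hn1, hDL, hX, a1, a4]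
        · rcases tO with a5 | a5 | a5 | a5 | a5 | a5 | a5
          · linarith only [hb.l2, hb.zz, h122, hs0, hg1, hn1, hDL, hX, a3, a5]
          · linarith only [hb.l2, hb.eU, hj.zA, hb.eZ, hs0, hg1, hn1, hug, hDL, hX, a1, a2, a4, a5]
          · linarith only [hb.l2, hb.z0, hb.uax, hj.zA, hj.zMA, hb.v2y, hb.vb2, h110, hl.xvb, hl.xpq, hg1, a4, a5]
          · linarith only [hb.M0, hb.ZM, hb.uy, hb.al0, hb.uax, hl.xua, hg1, a5]
          · linarith only [hb.ZM, hb.eZ, hl.xvb, hg1, a5]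
          · linarith only [hb.l2, hj.zA, hb.eZ, hs0, hg1, hn1, hug, hDL, hX, a1, a2, a4, a5]
          · linarith only [hb.l2, hb.z0, hb.uax, hj.zA, hb.v2y, hb.vb2, hb.eZ, hl.xpq, hs0, hg1, hn1, hug, hDL, hX, hm11, a1, a2, a4, a5]
        · linarith only [hb.ZM, hj.A2, hb.v2y, hb.vb2, h110, hl.xua, hl.xvb, hg1, a4]
        · linarith only [hb.l2, hb.z0, hb.uax, hb.eU, hj.zA, h110, hl.xua, hl.xpq, hg1, a4]
        · linarith only [hb.ZM, hj.A2, hb.v2y, hb.be1, h110, hl.xvb, hg1, a4]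
        · rcases tO with a5 | a5 | a5 | a5 | a5 | a5 | a5
          · linarith only [hb.l2, hb.zz, h122, hs0, hg1, hn1, hDL, hX, a3, a5]
          · linarith only [hb.l2, hb.eU, hj.zA, hs0, hg1, hn1, hug, hDL, hX, a1, a2, a4, a5]
          · linarith only [hb.l2, hb.z0, hb.uax, hj.A0, hj.zA, hj.zMA, hb.v2y, hb.vb2, hl.xua, hl.xvb, hl.xpq, hg1, a5]
          · linarith only [hb.M0, hb.ZM, hb.uy, hb.al0, hb.uax, hl.xua, hg1, a5]
          · linarith only [hb.ZM, hb.eZ, hl.xvb, hg1, a5]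
          · linarith only [hb.l2, hj.zA, hs0, hg1, hn1, hug, hDL, hX, a1, a4, a5]
          · linarith only [hb.l2, hb.z0, hb.uax, hj.A0, hj.zA, hl.xua, hl.xpq, hs0, hn1, hug, hDL, hX, a1, a4, a5]
        · rcases tO with a5 | a5 | a5 | a5 | a5 | a5 | a5
          · linarith only [hb.l2, hb.zz, h122, hs0, hg1, hn1, hDL, hX, a3, a5]
          · linarith only [hb.l2, hb.z0, hb.eU, hj.A0, hj.zA, hj.zMA, hl.xua, hl.xvb, hs0, hn1, hug, hDL, hX, a1, a2, a4, a5]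
          · linarith only [hb.l2, hb.z0, hb.uax, hj.A0, hj.zA, hj.zMA, hb.v2y, hb.vb2, hl.xua, hl.xvb, hl.xpq, hg1, a5]
          · linarith only [hb.M0, hb.ZM, hb.uy, hb.al0, hb.uax, hl.xua, hg1, a5]
          · linarith only [hb.ZM, hb.eZ, hl.xvb, hg1, a5]
          · linarith only [hb.l2, hb.z0, hb.zM, hj.zA, hl.xvb, hs0, hg1, hn1, hDL, hX, a1, a4, a5]
          · linarith only [hb.l2, hb.z0, hb.uax, hj.A0, hj.zA, hj.zMA, hl.xua, hl.xvb, hl.xpq, hs0, hn1, hug, hDL, hX, a1, a4, a5]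
      · linarith only [hb.l2, hb.u12, hb.ux2, hb.uax, hj.A0, hj.zA, hb.v2y, h122, hl.xua, hn1, hD, a3]
      · linarith only [hb.l2, hb.zM, hb.vb2, h122, hl.xvb, hl.xpq, hn1, hD, a3]
      · linarith only [hb.l2, hb.zM, hb.v2y, hb.eZ, h122, hl.xvb, hn1, hD, a3]
      · linarith only [hb.l2, hb.zz, hb.al0, h122, hl.xua, hl.xpq, hn1, hD, a3]
      · rcases tE with a4 | a4 | a4 | a4 | a4 | a4 | a4
        · linarith only [hb.l2, hj.zA, hs0, hg1, hn1, hDL, hX, a1, a4]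
        · linarith only [hb.l2, hj.zA, hb.v2y, hb.eZ, h122, hs0, hg1, hn1, hug, hD, hDL, hX, hm11, a2, a3, a4]
        · linarith only [hb.ZM, hj.A2, hb.v2y, hb.vb2, h110, hl.xua, hl.xvb, hg1, a4]
        · linarith only [hb.l2, hb.z0, hb.uax, hb.eU, hj.zA, h110, hl.xua, hl.xpq, hg1, a4]
        · linarith only [hb.ZM, hj.A2, hb.v2y, hb.be1, h110, hl.xvb, hg1, a4]
        · linarith only [hb.l2, hj.zA, hb.v2y, h122, hs0, hg1, hn1, hD, hDL, hX, hm11, a3, a4]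
        · linarith only [hb.l2, hb.z0, hb.zM, hj.zA, hb.v2y, h122, hl.xua, hl.xvb, hs0, hg1, hn1, hD, hDL, hX, hm11, a3, a4]
      · rcases tE with a4 | a4 | a4 | a4 | a4 | a4 | a4
        · linarith only [hb.l2, hj.zA, hs0, hg1, hn1, hDL, hX, a1, a4]
        · linarith only [hb.l2, hj.zA, hb.eZ, h122, hl.xpq, hs0, hg1, hn1, hug, hD, hDL, hX, hm11, a2, a3, a4]
        · linarith only [hb.ZM, hj.A2, hb.v2y, hb.vb2, h110, hl.xua, hl.xvb, hg1, a4]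
        · linarith only [hb.l2, hb.z0, hb.uax, hb.eU, hj.zA, h110, hl.xua, hl.xpq, hg1, a4]
        · linarith only [hb.ZM, hj.A2, hb.v2y, hb.be1, h110, hl.xvb, hg1, a4]
        · linarith only [hb.l2, hj.zA, h122, hl.xpq, hs0, hg1, hn1, hD, hDL, hX, hm11, a3, a4]
        · linarith only [hb.l2, hb.z0, hb.zM, hj.zA, h122, hl.xua, hl.xvb, hl.xpq, hs0, hg1, hn1, hD, hDL, hX, hm11, a3, a4]
    · linarith only [hb.l2, hb.z0, hb.zz, hb.zM, hb.uax, hb.eU, hb.eZ, h112, hl.xua, hl.xvb, hl.xpq, hs0, hn1, hug, hDL, hX, a1, a2]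
  · linarith only [hb.l2, hb.zz, hb.v2y, hb.vb2, h112, hl.xua, hn1, hD, a1]
  · linarith only [hb.l2, hb.zM, hb.u12, hb.ux2, hb.uax, h112, hl.xvb, hl.xpq, hn1, hD, a1]
  · linarith only [hb.l2, hb.zM, hb.v2y, hb.be1, h112, hl.xvb, hn1, hD, a1]
  · linarith only [hb.l2, hb.zz, hb.uax, hb.eU, h112, hl.xua, hl.xpq, hn1, hD, a1]
  · rcases tA with a2 | a2 | a2 | a2 | a2 | a2 | a2
    · rcases t12 with a3 | a3 | a3 | a3 | a3 | a3 | a3
      · linarith only [hb.l2, hb.zz, h122, hs0, hg1, hn1, hDL, hX, a2, a3]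
      · linarith only [hb.l2, hb.uax, hb.eU, hj.A0, hj.zA, hb.v2y, hb.be1, h112, h122, hl.xua, hs0, hg1, hn1, hD, hDL, hX, a1, a2, a3]
      · linarith only [hb.l2, hb.zM, hb.vb2, h122, hl.xvb, hl.xpq, hn1, hD, a3]
      · linarith only [hb.l2, hb.zM, hb.v2y, hb.eZ, h122, hl.xvb, hn1, hD, a3]
      · linarith only [hb.l2, hb.zz, hb.al0, h122, hl.xua, hl.xpq, hn1, hD, a3]
      · linarith only [hb.l2, hb.zz, hb.v2y, h112, h122, hl.xua, hs0, hn1, hug, hD, hDL, hX, a1, a2, a3]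
      · linarith only [hb.l2, hb.zz, h112, h122, hl.xua, hl.xpq, hs0, hn1, hug, hD, hDL, hX, a1, a2, a3]
    · linarith only [hug, a2]
    · linarith only [hb.ZM, hb.v2y, hb.vb2, hl.xua, hl.xvb, hug, a2]
    · linarith only [hb.l2, hb.z0, hb.zz, hb.uax, hb.eU, hl.xua, hl.xpq, hug, a2]
    · linarith only [hb.ZM, hb.eZ, hl.xvb, hg1, a2]
    · rcases tO with a3 | a3 | a3 | a3 | a3 | a3 | a3
      · rcases t12 with a4 | a4 | a4 | a4 | a4 | a4 | a4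
        · linarith only [hb.l2, hb.zz, h122, hs0, hg1, hn1, hDL, hX, a3, a4]
        · linarith only [hb.l2, hb.uax, hb.eU, hj.A0, hj.zA, hb.v2y, h112, h122, hl.xua, hs0, hg1, hn1, hD, hDL, hX, a1, a2, a4]
        · linarith only [hb.l2, hb.zM, hb.vb2, h122, hl.xvb, hl.xpq, hn1, hD, a4]
        · linarith only [hb.l2, hb.zM, hb.v2y, hb.eZ, h122, hl.xvb, hn1, hD, a4]
        · linarith only [hb.l2, hb.zz, h112, h122, hl.xua, hl.xpq, hs0, hn1, hug, hD, hDL, hX, a1, a2, a4]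
        · linarith only [hb.l2, hb.zz, hb.v2y, h112, h122, hl.xua, hs0, hn1, hug, hD, hDL, hX, a1, a3, a4]
        · linarith only [hb.l2, hb.zz, h112, h122, hl.xua, hl.xpq, hs0, hn1, hug, hD, hDL, hX, a1, a3, a4]
      · linarith only [hb.l2, hb.zz, hb.eU, h112, hs0, hg1, hn1, hug, hD, hDL, hX, a1, a2, a3]
      · linarith only [hb.l2, hb.z0, hb.uax, hj.A0, hj.zA, hj.zMA, hb.v2y, hb.vb2, hl.xua, hl.xvb, hl.xpq, hg1, a3]
      · linarith only [hb.M0, hb.ZM, hb.uy, hb.al0, hb.uax, hl.xua, hg1, a3]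
      · linarith only [hb.ZM, hb.eZ, hl.xvb, hg1, a3]
      · linarith only [hb.l2, hb.zz, h112, hs0, hg1, hn1, hD, hDL, hX, a1, a3]
      · linarith only [hb.l2, hb.z0, hb.zz, hb.uax, h112, hl.xua, hl.xpq, hs0, hn1, hug, hD, hDL, hX, a1, a3]
    · linarith only [hb.l2, hb.z0, hb.zz, hb.uax, hb.eU, h112, hl.xua, hl.xpq, hs0, hn1, hug, hD, hDL, hX, a1, a2]
  · rcases tA with a2 | a2 | a2 | a2 | a2 | a2 | a2
    · rcases t12 with a3 | a3 | a3 | a3 | a3 | a3 | a3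
      · linarith only [hb.l2, hb.zz, h122, hs0, hg1, hn1, hDL, hX, a2, a3]
      · linarith only [hb.l2, hb.zz, hb.uax, hb.eU, hj.A0, hj.zMA, hb.v2y, hb.be1, h112, h122, hl.xvb, hs0, hg1, hn1, hD, hDL, hX, a1, a2, a3]
      · linarith only [hb.l2, hb.zM, hb.vb2, h122, hl.xvb, hl.xpq, hn1, hD, a3]
      · linarith only [hb.l2, hb.zM, hb.v2y, hb.eZ, h122, hl.xvb, hn1, hD, a3]
      · linarith only [hb.l2, hb.zz, hb.al0, h122, hl.xua, hl.xpq, hn1, hD, a3]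
      · linarith only [hb.l2, hb.zz, hb.zM, hb.v2y, h112, h122, hl.xua, hl.xvb, hs0, hn1, hug, hD, hDL, hX, a1, a2, a3]
      · linarith only [hb.l2, hb.zz, hb.zM, h112, h122, hl.xua, hl.xvb, hl.xpq, hs0, hn1, hug, hD, hDL, hX, a1, a2, a3]
    · linarith only [hug, a2]
    · linarith only [hb.ZM, hb.v2y, hb.vb2, hl.xua, hl.xvb, hug, a2]
    · linarith only [hb.l2, hb.z0, hb.zz, hb.uax, hb.eU, hl.xua, hl.xpq, hug, a2]
    · linarith only [hb.ZM, hb.eZ, hl.xvb, hg1, a2]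
    · rcases t12 with a3 | a3 | a3 | a3 | a3 | a3 | a3
      · rcases tE with a4 | a4 | a4 | a4 | a4 | a4 | a4
        · linarith only [hb.l2, hj.zA, h122, hs0, hg1, hn1, hDL, hX, hm11, a3, a4]
        · linarith only [hb.l2, hb.uax, hb.eU, hj.zA, hl.xpq, hs0, hg1, hn1, hug, hD, hDL, hX, a1, a2, a4]
        · linarith only [hb.ZM, hj.A2, hb.v2y, hb.vb2, h110, hl.xua, hl.xvb, hg1, a4]
        · linarith only [hb.l2, hb.z0, hb.uax, hb.eU, hj.zA, h110, hl.xua, hl.xpq, hg1, a4]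
        · linarith only [hb.ZM, hj.A2, hb.v2y, hb.be1, h110, hl.xvb, hg1, a4]
        · rcases tO with a5 | a5 | a5 | a5 | a5 | a5 | a5
          · linarith only [hb.l2, hb.zz, h122, hs0, hg1, hn1, hDL, hX, a3, a5]
          · linarith only [hb.l2, hb.eU, hj.zA, h122, hs0, hg1, hn1, hug, hDL, hX, hm11, a2, a3, a4, a5]
          · linarith only [hb.l2, hb.z0, hb.uax, hj.A0, hj.zA, hj.zMA, hb.v2y, hb.vb2, hl.xua, hl.xvb, hl.xpq, hg1, a5]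
          · linarith only [hb.M0, hb.ZM, hb.uy, hb.al0, hb.uax, hl.xua, hg1, a5]
          · linarith only [hb.ZM, hb.eZ, hl.xvb, hg1, a5]
          · linarith only [hb.l2, hj.zA, h122, hs0, hg1, hn1, hug, hDL, hX, hm11, a3, a4, a5]
          · linarith only [hb.l2, hb.z0, hb.zz, hb.zM, hb.uax, h112, hl.xua, hl.xvb, hl.xpq, hs0, hn1, hug, hD, hDL, hX, a1, a5]
        · rcases tO with a5 | a5 | a5 | a5 | a5 | a5 | a5
          · linarith only [hb.l2, hb.zz, h122, hs0, hg1, hn1, hDL, hX, a3, a5]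
          · linarith only [hb.l2, hb.z0, hb.eU, hj.A0, hj.zMA, hb.v2y, hb.be1, hl.xvb, hs0, hg1, hn1, hug, hD, hDL, hX, a1, a4, a5]
          · linarith only [hb.l2, hb.z0, hb.uax, hj.A0, hj.zA, hj.zMA, hb.v2y, hb.vb2, hl.xua, hl.xvb, hl.xpq, hg1, a5]
          · linarith only [hb.M0, hb.ZM, hb.uy, hb.al0, hb.uax, hl.xua, hg1, a5]
          · linarith only [hb.ZM, hb.eZ, hl.xvb, hg1, a5]
          · linarith only [hb.l2, hb.z0, hb.zM, hj.zA, h122, hl.xvb, hs0, hg1, hn1, hDL, hX, hm11, a3, a4, a5]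
          · linarith only [hb.l2, hb.z0, hb.zz, hb.zM, hb.uax, h112, hl.xua, hl.xvb, hl.xpq, hs0, hn1, hug, hD, hDL, hX, a1, a5]
      · linarith only [hb.l2, hb.uax, hb.eU, hj.A0, hj.zA, hj.zMA, hb.v2y, h112, h122, hl.xvb, hs0, hg1, hn1, hD, hDL, hX, a1, a2, a3]
      · linarith only [hb.l2, hb.zM, hb.vb2, h122, hl.xvb, hl.xpq, hn1, hD, a3]
      · linarith only [hb.l2, hb.zM, hb.v2y, hb.eZ, h122, hl.xvb, hn1, hD, a3]
      · linarith only [hb.l2, hb.zz, hb.zM, h112, h122, hl.xua, hl.xvb, hl.xpq, hs0, hn1, hug, hD, hDL, hX, a1, a2, a3]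
      · rcases tE with a4 | a4 | a4 | a4 | a4 | a4 | a4
        · linarith only [hb.l2, hb.zM, hj.zA, hb.v2y, h122, hl.xvb, hs0, hg1, hn1, hD, hDL, hX, a1, a3, a4]
        · linarith only [hb.l2, hj.zA, hb.v2y, hb.eZ, h122, hs0, hg1, hn1, hug, hD, hDL, hX, hm11, a2, a3, a4]
        · linarith only [hb.ZM, hj.A2, hb.v2y, hb.vb2, h110, hl.xua, hl.xvb, hg1, a4]
        · linarith only [hb.l2, hb.z0, hb.uax, hb.eU, hj.zA, h110, hl.xua, hl.xpq, hg1, a4]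
        · linarith only [hb.ZM, hj.A2, hb.v2y, hb.be1, h110, hl.xvb, hg1, a4]
        · linarith only [hb.l2, hj.zA, hb.v2y, h122, hs0, hg1, hn1, hD, hDL, hX, hm11, a3, a4]
        · linarith only [hb.l2, hb.z0, hb.zM, hj.zA, hb.v2y, h122, hl.xua, hl.xvb, hs0, hg1, hn1, hD, hDL, hX, hm11, a3, a4]
      · rcases tE with a4 | a4 | a4 | a4 | a4 | a4 | a4
        · linarith only [hb.l2, hb.zM, hj.zA, h122, hl.xvb, hl.xpq, hs0, hg1, hn1, hD, hDL, hX, a1, a3, a4]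
        · linarith only [hb.l2, hj.zA, hb.eZ, h122, hl.xpq, hs0, hg1, hn1, hug, hD, hDL, hX, hm11, a2, a3, a4]
        · linarith only [hb.ZM, hj.A2, hb.v2y, hb.vb2, h110, hl.xua, hl.xvb, hg1, a4]
        · linarith only [hb.l2, hb.z0, hb.uax, hb.eU, hj.zA, h110, hl.xua, hl.xpq, hg1, a4]
        · linarith only [hb.ZM, hj.A2, hb.v2y, hb.be1, h110, hl.xvb, hg1, a4]
        · linarith only [hb.l2, hj.zA, h122, hl.xpq, hs0, hg1, hn1, hD, hDL, hX, hm11, a3, a4]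
        · linarith only [hb.l2, hb.z0, hb.zM, hj.zA, h122, hl.xua, hl.xvb, hl.xpq, hs0, hg1, hn1, hD, hDL, hX, hm11, a3, a4]
    · linarith only [hb.l2, hb.z0, hb.zz, hb.zM, hb.uax, hb.eU, h112, hl.xua, hl.xvb, hl.xpq, hs0, hn1, hug, hD, hDL, hX, a1, a2]

theorem r12a_j1_N_wQ {th lam y z g Y X MB MA u1 u2 ux ua al v2 vb be : ℝ}
    (hb : MB0 th lam y z MB u1 u2 ux ua al v2 vb be) (hj : MJ th lam y z MB MA)
    (hl : L2a y MB u1 ua vb) (hY0 : 0 ≤ Y) (hg1 : 1 ≤ g) (hug : ua ≤ g) (hXY : Y ≤ X)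
    (hXc0 : X < MB + vb) (tA : FT th (-g) X 0 (th + ua) al be)
    (tO : FT th (-g) X 2 (th + ux + ua - u1) (u1 - ux - al) be) : False := by
  rcases tA with a1 | a1 | a1 | a1 | a1 | a1 | a1
  · linarith only [hb.ZM, hb.v2y, hb.vb2, hg1, hXc0, a1]
  · linarith only [hug, a1]
  · linarith only [hb.ZM, hb.v2y, hb.vb2, hl.xua, hl.xvb, hug, a1]
  · linarith only [hb.l2, hb.z0, hb.zz, hb.uax, hb.eU, hl.xua, hl.xpq, hug, a1]
  · linarith only [hb.ZM, hb.eZ, hY0, hg1, hXY, hXc0, a1]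
  · rcases tO with a2 | a2 | a2 | a2 | a2 | a2 | a2
    · linarith only [hb.ZM, hb.v2y, hb.vb2, hg1, hXc0, a2]
    · linarith only [hb.ZM, hb.eU, hb.eZ, hg1, hug, hXc0, a1, a2]
    · linarith only [hb.l2, hb.z0, hb.zz, hb.zM, hb.uax, hb.eU, hb.eZ, hl.xua, hl.xpq, hug, hXc0, a1, a2]
    · linarith only [hb.l2, hb.z0, hb.zz, hb.zM, hb.uax, hb.eZ, hl.xpq, hg1, hXc0, a1, a2]
    · linarith only [hb.ZM, hb.eZ, hY0, hg1, hXY, hXc0, a2]
    · linarith only [hb.ZM, hb.eZ, hg1, hug, hXc0, a1, a2]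
    · linarith only [hb.l2, hb.z0, hb.zz, hb.zM, hb.uax, hb.eZ, hl.xua, hl.xpq, hug, hXc0, a1, a2]
  · linarith only [hb.l2, hb.z0, hb.uax, hb.eU, hj.A0, hj.zA, hj.zMA, hb.v2y, hb.vb2, hb.eZ, hl.xua, hl.xvb, hl.xpq, hug, hXc0, a1]

theorem r12a_j1_N_wP {th lam y z g X MB MA m11 u1 u2 ux ua al v2 vb be : ℝ}
    (hb : MB0 th lam y z MB u1 u2 ux ua al v2 vb be) (hj : MJ th lam y z MB MA) (h110 : 0 ≤ m11)
    (hl : L2a y MB u1 ua vb) (hg1 : 1 ≤ g) (hug : ua ≤ g) (hX0 : 0 ≤ X) (hXc0 : X < ua)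
    (tA : FT th (-g) X 0 (th + ua) al be)
    (tE : FT th (-g) X (MA - m11) (th + ua + vb - y) al (y - vb - be)) : False := by
  rcases tA with a1 | a1 | a1 | a1 | a1 | a1 | a1
  · linarith only [hb.M0, hb.ZM, hb.uy, hb.u12, hb.ux2, hb.uax, hg1, hXc0, a1]
  · linarith only [hug, a1]
  · linarith only [hb.M0, hb.ZM, hb.uy, hb.u12, hb.ux2, hb.uax, hug, hX0, hXc0, a1]
  · linarith only [hb.M0, hb.ZM, hb.uy, hb.uax, hb.eU, hug, hX0, hXc0, a1]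
  · linarith only [hb.ZM, hb.eZ, hl.xvb, hg1, a1]
  · rcases tE with a2 | a2 | a2 | a2 | a2 | a2 | a2
    · linarith only [hb.ZM, hj.A2, hb.v2y, hb.vb2, h110, hl.xvb, hug, hXc0, a2]
    · linarith only [hb.l2, hb.z0, hb.uax, hb.eU, hj.zA, hb.eZ, h110, hl.xpq, hg1, hug, hXc0, a1, a2]
    · linarith only [hb.ZM, hj.A2, hb.v2y, hb.vb2, h110, hl.xua, hl.xvb, hug, a2]
    · linarith only [hb.l2, hb.z0, hb.uax, hb.eU, hj.zA, h110, hl.xua, hl.xpq, hug, a2]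
    · linarith only [hb.ZM, hj.A2, hb.v2y, hb.be1, h110, hl.xua, hl.xvb, hug, a2]
    · linarith only [hb.l2, hb.z0, hb.uax, hb.eU, hj.zA, h110, hl.xpq, hg1, hug, hXc0, a1, a2]
    · linarith only [hb.l2, hb.z0, hb.uax, hb.eU, hj.A0, hj.zA, hj.zMA, h110, hl.xvb, hl.xpq, hg1, hXc0, a1, a2]
  · linarith only [hb.l2, hb.z0, hb.uax, hb.eU, hj.A0, hj.zA, hj.zMA, hb.v2y, hb.vb2, hb.eZ, hl.xua, hl.xvb, hl.xpq, hug, hXc0, a1]

theorem r12a_j1_N_2 {th lam y z g X MB MA m11 u1 u2 ux ua al v2 vb be : ℝ}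
    (hb : MB0 th lam y z MB u1 u2 ux ua al v2 vb be) (hj : MJ th lam y z MB MA) (h110 : 0 ≤ m11)
    (hl : L2a y MB u1 ua vb) (hg1 : 1 ≤ g) (hug : ua ≤ g) (hX : X ≤ 2)
    (tA : FT th (-g) X 0 (th + ua) al be)
    (tE : FT th (-g) X (MA - m11) (th + ua + vb - y) al (y - vb - be)) : False := by
  rcases tA with a1 | a1 | a1 | a1 | a1 | a1 | a1
  · linarith only [hb.ZM, hb.v2y, hb.vb2, hl.xua, hl.xvb, hug, hX, a1]
  · linarith only [hug, a1]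
  · linarith only [hb.ZM, hb.v2y, hb.vb2, hl.xua, hl.xvb, hug, a1]
  · linarith only [hb.l2, hb.z0, hb.zz, hb.uax, hb.eU, hl.xua, hl.xpq, hug, a1]
  · linarith only [hb.ZM, hb.eZ, hl.xvb, hg1, a1]
  · rcases tE with a2 | a2 | a2 | a2 | a2 | a2 | a2
    · linarith only [hb.l2, hb.z0, hb.uax, hb.eU, hj.A0, hj.zA, hj.zMA, hb.eZ, h110, hl.xvb, hl.xpq, hg1, hX, a1, a2]
    · linarith only [hb.l2, hb.z0, hb.uax, hb.eU, hj.zA, hb.eZ, h110, hl.xpq, hg1, hug, hX, a1, a2]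
    · linarith only [hb.ZM, hj.A2, hb.v2y, hb.vb2, h110, hl.xua, hl.xvb, hug, a2]
    · linarith only [hb.l2, hb.z0, hb.uax, hb.eU, hj.zA, h110, hl.xua, hl.xpq, hug, a2]
    · linarith only [hb.ZM, hj.A2, hb.v2y, hb.be1, h110, hl.xua, hl.xvb, hug, a2]
    · linarith only [hb.l2, hb.z0, hb.uax, hb.eU, hj.zA, h110, hl.xpq, hg1, hX, a1, a2]
    · linarith only [hb.l2, hb.z0, hb.uax, hb.eU, hj.A0, hj.zA, hj.zMA, h110, hl.xua, hl.xvb, hl.xpq, hug, hX, a1, a2]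
  · linarith only [hb.l2, hb.z0, hb.uax, hb.eU, hj.A0, hj.zA, hj.zMA, hb.v2y, hb.vb2, hb.eZ, hl.xua, hl.xvb, hl.xpq, hug, hX, a1]

theorem r12a_j1_L_Y {th lam y z g nb Y sg D L X MB MA m11 m12 u1 u2 ux ua al v2 vb be sy ay cy : ℝ}
    (hb : MB0 th lam y z MB u1 u2 ux ua al v2 vb be) (hj : MJ th lam y z MB MA) (h110 : 0 ≤ m11)
    (h112 : m11 ≤ 2) (h122 : m12 ≤ 2) (hl : L2a y MB u1 ua vb) (hs0 : 0 ≤ sg) (hg1 : 1 ≤ g)
    (hn1 : 1 ≤ nb) (hug : ua ≤ g) (hy : LY sy ay cy) (hyp1 : sy < ua) (hsL : sy ≤ L)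
    (hD : nb + D + cy ≤ z) (hDL : nb + Y + sg + D + L + cy ≤ th + y + z) (hX : Y = X + sy)
    (t11 : FT th (D + ay) (L - sy) m11 (vb - ua) (y - vb - be) al)
    (t12 : FT th (D + ay) (L - sy) m12 (v2 - u1) (v2 + be - y) (u1 - ua - al))
    (tA : FT th (-g) X 0 (th + ua) al be)
    (tE : FT th (-g) X (MA - m11) (th + ua + vb - y) al (y - vb - be))
    (tO : FT th (-g) X 2 (th + ux + ua - u1) (u1 - ux - al) be) : False := by
  rcases tA with a1 | a1 | a1 | a1 | a1 | a1 | a1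
  · rcases t11 with a2 | a2 | a2 | a2 | a2 | a2 | a2
    · linarith only [hb.l2, hb.zz, h112, hs0, hg1, hn1, hy.a1, hy.c0, hy.say, hDL, hX, a1, a2]
    · linarith only [hb.l2, hb.zz, hb.v2y, hb.vb2, h112, hn1, hy.c0, hy.say, hyp1, hD, a2]
    · linarith only [hb.l2, hb.zM, h112, hl.xvb, hs0, hn1, hug, hy.a1, hy.c0, hy.say, hsL, hDL, hX, a1, a2]
    · rcases t12 with a3 | a3 | a3 | a3 | a3 | a3 | a3
      · linarith only [hb.l2, hb.zz, h122, hs0, hg1, hn1, hy.a1, hy.c0, hy.say, hDL, hX, a1, a3]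
      · linarith only [hb.l2, hb.zz, hb.u12, hb.ux2, hb.uax, hb.v2y, h122, hn1, hy.c0, hy.say, hyp1, hD, a3]
      · linarith only [hb.l2, hb.zM, hb.vb2, h122, hl.xvb, hl.xpq, hn1, hy.ac, hD, a3]
      · linarith only [hb.l2, hb.zM, hb.M0, hb.v2y, h112, h122, hl.xvb, hs0, hg1, hn1, hy.c0, hy.say, hsL, hD, hDL, hX, a1, a2, a3]
      · linarith only [hb.l2, hb.zz, hb.uy, hb.al0, h122, hn1, hy.c0, hy.say, hyp1, hD, a3]
      · linarith only [hb.l2, hb.zM, hb.M0, hb.al0, hb.v2y, h112, h122, hl.xvb, hs0, hg1, hn1, hy.c0, hy.say, hyp1, hD, hDL, hX, a1, a2, a3]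
      · linarith only [hb.l2, hb.zM, hb.M0, hb.al0, h112, h122, hl.xvb, hl.xpq, hs0, hg1, hn1, hy.c0, hy.say, hyp1, hD, hDL, hX, a1, a2, a3]
    · linarith only [hb.l2, hb.zz, hb.uy, hb.uax, hb.eU, h112, hn1, hy.c0, hy.say, hyp1, hD, a2]
    · rcases t12 with a3 | a3 | a3 | a3 | a3 | a3 | a3
      · linarith only [hb.l2, hb.zz, h122, hs0, hg1, hn1, hy.a1, hy.c0, hy.say, hDL, hX, a1, a3]
      · linarith only [hb.l2, hb.zz, hb.u12, hb.ux2, hb.uax, hb.v2y, h122, hn1, hy.c0, hy.say, hyp1, hD, a3]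
      · linarith only [hb.l2, hb.zM, hb.vb2, h122, hl.xvb, hl.xpq, hn1, hy.ac, hD, a3]
      · linarith only [hb.l2, hb.zz, hb.uax, hb.eU, hb.v2y, h112, h122, hl.xua, hl.xpq, hs0, hg1, hn1, hy.c0, hy.say, hyp1, hD, hDL, hX, a1, a2, a3]
      · linarith only [hb.l2, hb.zz, hb.uy, hb.al0, h122, hn1, hy.c0, hy.say, hyp1, hD, a3]
      · linarith only [hb.l2, hb.zz, hb.v2y, h112, h122, hl.xua, hs0, hg1, hn1, hy.c0, hy.say, hD, hDL, hX, a1, a2, a3]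
      · linarith only [hb.l2, hb.zz, h112, h122, hl.xua, hl.xpq, hs0, hg1, hn1, hy.c0, hy.say, hD, hDL, hX, a1, a2, a3]
    · rcases t12 with a3 | a3 | a3 | a3 | a3 | a3 | a3
      · linarith only [hb.l2, hb.zz, h122, hs0, hg1, hn1, hy.a1, hy.c0, hy.say, hDL, hX, a1, a3]
      · linarith only [hb.l2, hb.zz, hb.u12, hb.ux2, hb.uax, hb.v2y, h122, hn1, hy.c0, hy.say, hyp1, hD, a3]
      · linarith only [hb.l2, hb.zM, hb.vb2, h122, hl.xvb, hl.xpq, hn1, hy.ac, hD, a3]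
      · linarith only [hb.l2, hb.uax, hb.eU, hj.A0, hj.zA, hj.zMA, hb.v2y, h112, h122, hl.xvb, hl.xpq, hs0, hg1, hn1, hy.ac, hy.c0, hy.say, hD, hDL, hX, a1, a2, a3]
      · linarith only [hb.l2, hb.zz, hb.uy, hb.al0, h122, hn1, hy.c0, hy.say, hyp1, hD, a3]
      · linarith only [hb.l2, hb.zM, hb.M0, hb.v2y, h112, h122, hl.xvb, hs0, hg1, hn1, hy.c0, hy.say, hD, hDL, hX, a1, a2, a3]
      · linarith only [hb.l2, hb.zM, hb.M0, h112, h122, hl.xvb, hl.xpq, hs0, hg1, hn1, hy.c0, hy.say, hD, hDL, hX, a1, a2, a3]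
  · linarith only [hug, a1]
  · linarith only [hb.M0, hb.ZM, hb.uy, hb.u12, hb.ux2, hb.uax, hl.xua, hug, a1]
  · linarith only [hb.M0, hb.ZM, hb.uy, hb.uax, hb.eU, hl.xua, hug, a1]
  · linarith only [hb.ZM, hb.eZ, hl.xvb, hg1, a1]
  · rcases t11 with a2 | a2 | a2 | a2 | a2 | a2 | a2
    · rcases tE with a3 | a3 | a3 | a3 | a3 | a3 | a3
      · linarith only [hb.l2, hj.zA, hs0, hg1, hn1, hy.a1, hy.c0, hy.say, hDL, hX, a2, a3]
      · rcases tO with a4 | a4 | a4 | a4 | a4 | a4 | a4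
        · linarith only [hb.l2, hb.zz, h112, hs0, hg1, hn1, hy.a1, hy.c0, hy.say, hDL, hX, a2, a4]
        · linarith only [hb.l2, hb.eU, hj.zA, hb.eZ, hs0, hg1, hn1, hug, hy.a1, hy.c0, hy.say, hDL, hX, a1, a2, a3, a4]
        · linarith only [hb.M0, hb.ZM, hb.uy, hb.u12, hb.ux2, hb.uax, hug, hy.a1, hy.say, hyp1, a4]
        · linarith only [hb.M0, hb.ZM, hb.uy, hb.al0, hb.uax, hug, hy.a1, hy.say, hyp1, a4]
        · linarith only [hb.ZM, hb.eZ, hl.xvb, hg1, a4]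
        · linarith only [hb.l2, hj.zA, hb.eZ, hs0, hg1, hn1, hug, hy.a1, hy.c0, hy.say, hDL, hX, a1, a2, a3, a4]
        · linarith only [hb.l2, hb.z0, hb.zz, hb.uax, hj.zA, hb.eZ, hl.xpq, hs0, hg1, hn1, hy.a1, hy.c0, hy.say, hDL, hX, a1, a2, a3, a4]
      · linarith only [hb.ZM, hj.A2, hb.v2y, hb.vb2, h110, hl.xua, hl.xvb, hug, a3]
      · linarith only [hb.M0, hb.ZM, hb.uy, hb.uax, hb.eU, hj.A2, h110, hl.xua, hug, a3]
      · linarith only [hb.ZM, hj.A2, hb.v2y, hb.be1, h110, hl.xvb, hg1, a3]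
      · rcases tO with a4 | a4 | a4 | a4 | a4 | a4 | a4
        · linarith only [hb.l2, hb.zz, h112, hs0, hg1, hn1, hy.a1, hy.c0, hy.say, hDL, hX, a2, a4]
        · linarith only [hb.l2, hb.eU, hj.zA, hs0, hg1, hn1, hug, hy.a1, hy.c0, hy.say, hDL, hX, a1, a2, a3, a4]
        · linarith only [hb.M0, hb.ZM, hb.uy, hb.u12, hb.ux2, hb.uax, hug, hy.a1, hy.say, hyp1, a4]
        · linarith only [hb.M0, hb.ZM, hb.uy, hb.al0, hb.uax, hug, hy.a1, hy.say, hyp1, a4]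
        · linarith only [hb.ZM, hb.eZ, hl.xvb, hg1, a4]
        · linarith only [hb.l2, hj.zA, hs0, hg1, hn1, hug, hy.a1, hy.c0, hy.say, hDL, hX, a2, a3, a4]
        · linarith only [hb.l2, hb.z0, hb.zz, hb.uax, hj.zA, hl.xpq, hs0, hn1, hug, hy.a1, hy.c0, hy.say, hyp1, hDL, hX, a2, a3, a4]
      · rcases tO with a4 | a4 | a4 | a4 | a4 | a4 | a4
        · linarith only [hb.l2, hb.zz, h112, hs0, hg1, hn1, hy.a1, hy.c0, hy.say, hDL, hX, a2, a4]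
        · linarith only [hb.l2, hb.z0, hb.eU, hj.A0, hj.zA, hj.zMA, hl.xvb, hs0, hg1, hn1, hug, hy.a1, hy.c0, hy.say, hDL, hX, a1, a2, a3, a4]
        · linarith only [hb.M0, hb.ZM, hb.uy, hb.u12, hb.ux2, hb.uax, hug, hy.a1, hy.say, hyp1, a4]
        · linarith only [hb.M0, hb.ZM, hb.uy, hb.al0, hb.uax, hug, hy.a1, hy.say, hyp1, a4]
        · linarith only [hb.ZM, hb.eZ, hl.xvb, hg1, a4]
        · linarith only [hb.l2, hb.z0, hb.zz, hj.zMA, hl.xvb, hs0, hg1, hn1, hy.a1, hy.c0, hy.say, hDL, hX, a2, a3, a4]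
        · linarith only [hb.l2, hb.z0, hb.zz, hb.uax, hj.zMA, hl.xvb, hl.xpq, hs0, hn1, hug, hy.a1, hy.c0, hy.say, hyp1, hDL, hX, a2, a3, a4]
    · linarith only [hb.l2, hb.zz, hb.v2y, hb.vb2, h112, hn1, hy.c0, hy.say, hyp1, hD, a2]
    · linarith only [hb.l2, hb.zM, hb.u12, hb.ux2, hb.uax, h112, hl.xvb, hl.xpq, hn1, hy.ac, hD, a2]
    · rcases t12 with a3 | a3 | a3 | a3 | a3 | a3 | a3
      · rcases tO with a4 | a4 | a4 | a4 | a4 | a4 | a4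
        · linarith only [hb.l2, hb.zz, h122, hs0, hg1, hn1, hy.a1, hy.c0, hy.say, hDL, hX, a3, a4]
        · linarith only [hb.l2, hb.eU, hj.A0, hj.zA, hj.zMA, h112, h122, hl.xvb, hs0, hn1, hug, hy.a1, hy.c0, hy.say, hyp1, hD, hDL, hX, a1, a2, a3, a4]
        · linarith only [hb.M0, hb.ZM, hb.uy, hb.u12, hb.ux2, hb.uax, hug, hy.a1, hy.say, hyp1, a4]
        · linarith only [hb.M0, hb.ZM, hb.uy, hb.al0, hb.uax, hug, hy.a1, hy.say, hyp1, a4]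
        · linarith only [hb.ZM, hb.eZ, hl.xvb, hg1, a4]
        · linarith only [hb.l2, hb.zM, hb.M0, h112, h122, hl.xvb, hs0, hn1, hug, hy.a1, hy.c0, hy.say, hyp1, hD, hDL, hX, a1, a2, a3, a4]
        · linarith only [hb.l2, hb.zz, hb.ZM, hb.uax, h112, h122, hl.xua, hl.xvb, hl.xpq, hs0, hg1, hn1, hy.c0, hy.say, hD, hDL, hX, a1, a2, a3, a4]
      · linarith only [hb.l2, hb.zz, hb.u12, hb.ux2, hb.uax, hb.v2y, h122, hn1, hy.c0, hy.say, hyp1, hD, a3]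
      · linarith only [hb.l2, hb.zM, hb.vb2, h122, hl.xvb, hl.xpq, hn1, hy.ac, hD, a3]
      · linarith only [hb.l2, hb.zM, hb.M0, hb.u12, hb.ux2, hb.uax, hb.v2y, h112, h122, hl.xvb, hl.xpq, hn1, hy.ac, hy.c0, hy.say, hyp1, hD, a2, a3]
      · linarith only [hb.l2, hb.zz, hb.uy, hb.al0, h122, hn1, hy.c0, hy.say, hyp1, hD, a3]
      · linarith only [hb.l2, hb.zM, hb.M0, hb.v2y, h112, h122, hl.xvb, hs0, hg1, hn1, hy.ac, hy.c0, hy.say, hD, hDL, hX, a1, a2, a3]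
      · linarith only [hb.l2, hb.zM, hb.M0, h112, h122, hl.xvb, hl.xpq, hs0, hg1, hn1, hy.ac, hy.c0, hy.say, hD, hDL, hX, a1, a2, a3]
    · linarith only [hb.l2, hb.zz, hb.uy, hb.uax, hb.eU, h112, hn1, hy.c0, hy.say, hyp1, hD, a2]
    · rcases tO with a3 | a3 | a3 | a3 | a3 | a3 | a3
      · rcases t12 with a4 | a4 | a4 | a4 | a4 | a4 | a4
        · linarith only [hb.l2, hb.zz, h122, hs0, hg1, hn1, hy.a1, hy.c0, hy.say, hDL, hX, a3, a4]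
        · linarith only [hb.l2, hb.zz, hb.u12, hb.ux2, hb.uax, hb.v2y, h122, hn1, hy.c0, hy.say, hyp1, hD, a4]
        · linarith only [hb.l2, hb.zM, hb.vb2, h122, hl.xvb, hl.xpq, hn1, hy.ac, hD, a4]
        · linarith only [hb.l2, hb.zz, hb.uax, hb.eU, hb.v2y, h112, h122, hl.xua, hl.xpq, hs0, hg1, hn1, hy.c0, hy.say, hyp1, hD, hDL, hX, a2, a3, a4]
        · linarith only [hb.l2, hb.zz, h112, h122, hl.xpq, hs0, hg1, hn1, hy.c0, hy.say, hyp1, hD, hDL, hX, a1, a2, a4]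
        · linarith only [hb.l2, hb.zz, hb.v2y, h112, h122, hl.xua, hs0, hg1, hn1, hy.c0, hy.say, hD, hDL, hX, a2, a3, a4]
        · linarith only [hb.l2, hb.zz, h112, h122, hl.xua, hl.xpq, hs0, hg1, hn1, hy.c0, hy.say, hD, hDL, hX, a2, a3, a4]
      · linarith only [hb.l2, hb.zz, hb.eU, h112, hs0, hn1, hug, hy.a1, hy.c0, hy.say, hyp1, hD, hDL, hX, a1, a2, a3]
      · linarith only [hb.M0, hb.ZM, hb.uy, hb.u12, hb.ux2, hb.uax, hl.xua, hug, a3]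
      · linarith only [hb.M0, hb.ZM, hb.uy, hb.al0, hb.uax, hl.xua, hug, a3]
      · linarith only [hb.ZM, hb.eZ, hl.xvb, hg1, a3]
      · linarith only [hb.l2, hb.zz, h112, hs0, hg1, hn1, hy.c0, hy.say, hD, hDL, hX, a2, a3]
      · linarith only [hb.l2, hb.z0, hb.zz, hb.uax, h112, hl.xpq, hs0, hn1, hug, hy.a1, hy.c0, hy.say, hyp1, hD, hDL, hX, a2, a3]
    · rcases tE with a3 | a3 | a3 | a3 | a3 | a3 | a3
      · rcases t12 with a4 | a4 | a4 | a4 | a4 | a4 | a4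
        · linarith only [hb.l2, hj.zA, h110, h122, hs0, hg1, hn1, hy.a1, hy.c0, hy.say, hDL, hX, a3, a4]
        · linarith only [hb.l2, hb.zz, hb.u12, hb.ux2, hb.uax, hb.v2y, h122, hn1, hy.c0, hy.say, hyp1, hD, a4]
        · linarith only [hb.l2, hb.zM, hb.vb2, h122, hl.xvb, hl.xpq, hn1, hy.ac, hD, a4]
        · linarith only [hb.l2, hb.uax, hb.eU, hj.A0, hj.zA, hj.zMA, hb.v2y, h112, h122, hl.xvb, hl.xpq, hs0, hg1, hn1, hy.ac, hy.c0, hy.say, hD, hDL, hX, a2, a3, a4]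
        · linarith only [hb.l2, hb.zM, hb.M0, h112, h122, hl.xvb, hl.xpq, hs0, hg1, hn1, hy.ac, hy.c0, hy.say, hD, hDL, hX, a1, a2, a4]
        · linarith only [hb.l2, hb.zz, hj.zMA, hb.v2y, h122, hl.xvb, hs0, hg1, hn1, hy.c0, hy.say, hD, hDL, hX, a2, a3, a4]
        · linarith only [hb.l2, hb.zz, hj.zMA, h122, hl.xvb, hl.xpq, hs0, hg1, hn1, hy.c0, hy.say, hD, hDL, hX, a2, a3, a4]
      · linarith only [hb.l2, hb.uax, hb.eU, hj.zA, hl.xpq, hs0, hn1, hug, hy.a1, hy.c0, hy.say, hyp1, hD, hDL, hX, a1, a2, a3]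
      · linarith only [hb.ZM, hj.A2, hb.v2y, hb.vb2, h110, hl.xua, hl.xvb, hug, a3]
      · linarith only [hb.M0, hb.ZM, hb.uy, hb.uax, hb.eU, hj.A2, h110, hl.xua, hug, a3]
      · linarith only [hb.ZM, hj.A2, hb.v2y, hb.be1, h110, hl.xvb, hg1, a3]
      · rcases t12 with a4 | a4 | a4 | a4 | a4 | a4 | a4
        · rcases tO with a5 | a5 | a5 | a5 | a5 | a5 | a5
          · linarith only [hb.l2, hb.zz, h122, hs0, hg1, hn1, hy.a1, hy.c0, hy.say, hDL, hX, a4, a5]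
          · linarith only [hb.l2, hb.eU, hj.A0, hj.zA, hj.zMA, h122, hl.xvb, hs0, hn1, hug, hy.a1, hy.c0, hy.say, hyp1, hD, hDL, hX, a1, a2, a3, a4, a5]
          · linarith only [hb.M0, hb.ZM, hb.uy, hb.u12, hb.ux2, hb.uax, hl.xua, hug, a5]
          · linarith only [hb.M0, hb.ZM, hb.uy, hb.u12, hb.uax, hb.al1, hl.xua, hug, a5]
          · linarith only [hb.ZM, hb.eZ, hl.xvb, hg1, a5]
          · linarith only [hb.l2, hb.zz, hj.zMA, h122, hl.xvb, hs0, hn1, hug, hy.a1, hy.c0, hy.say, hyp1, hD, hDL, hX, a2, a3, a4, a5]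
          · linarith only [hb.l2, hb.zz, hb.ZM, hb.uax, h112, hl.xvb, hl.xpq, hs0, hn1, hug, hy.a1, hy.c0, hy.say, hyp1, hD, hDL, hX, a2, a5]
        · linarith only [hb.l2, hb.zz, hb.u12, hb.ux2, hb.uax, hb.v2y, h122, hn1, hy.c0, hy.say, hyp1, hD, a4]
        · linarith only [hb.l2, hb.zM, hb.vb2, h122, hl.xvb, hl.xpq, hn1, hy.ac, hD, a4]
        · linarith only [hb.l2, hb.uax, hb.eU, hj.A0, hj.zA, hj.zMA, hb.v2y, h122, hl.xvb, hl.xpq, hs0, hg1, hn1, hy.ac, hy.c0, hy.say, hD, hDL, hX, a2, a3, a4]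
        · linarith only [hb.l2, hb.zM, hb.M0, h112, h122, hl.xvb, hl.xpq, hs0, hg1, hn1, hy.ac, hy.c0, hy.say, hD, hDL, hX, a1, a2, a4]
        · linarith only [hb.l2, hj.zA, hb.v2y, h110, h122, hs0, hg1, hn1, hy.c0, hy.say, hD, hDL, hX, a3, a4]
        · linarith only [hb.l2, hj.zA, h110, h122, hl.xpq, hs0, hg1, hn1, hy.c0, hy.say, hD, hDL, hX, a3, a4]
      · rcases t12 with a4 | a4 | a4 | a4 | a4 | a4 | a4
        · rcases tO with a5 | a5 | a5 | a5 | a5 | a5 | a5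
          · linarith only [hb.l2, hb.zz, h122, hs0, hg1, hn1, hy.a1, hy.c0, hy.say, hDL, hX, a4, a5]
          · linarith only [hb.l2, hb.z0, hb.eU, hj.A0, hj.zA, hj.zMA, h122, hl.xvb, hs0, hn1, hug, hy.a1, hy.c0, hy.say, hyp1, hD, hDL, hX, a1, a2, a3, a4, a5]
          · linarith only [hb.M0, hb.ZM, hb.uy, hb.u12, hb.ux2, hb.uax, hl.xua, hug, a5]
          · linarith only [hb.M0, hb.ZM, hb.uy, hb.u12, hb.uax, hb.al1, hl.xua, hug, a5]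
          · linarith only [hb.ZM, hb.eZ, hl.xvb, hg1, a5]
          · linarith only [hb.l2, hb.z0, hj.A0, hj.zA, hj.zMA, h122, hl.xvb, hs0, hn1, hug, hy.a1, hy.c0, hy.say, hyp1, hD, hDL, hX, a2, a3, a4, a5]
          · linarith only [hb.l2, hb.zz, hb.ZM, hb.uax, h112, hl.xvb, hl.xpq, hs0, hn1, hug, hy.a1, hy.c0, hy.say, hyp1, hD, hDL, hX, a2, a5]
        · linarith only [hb.l2, hb.zz, hb.u12, hb.ux2, hb.uax, hb.v2y, h122, hn1, hy.c0, hy.say, hyp1, hD, a4]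
        · linarith only [hb.l2, hb.zM, hb.vb2, h122, hl.xvb, hl.xpq, hn1, hy.ac, hD, a4]
        · linarith only [hb.l2, hb.z0, hb.uax, hb.eU, hj.A0, hj.zA, hj.zMA, hb.v2y, h122, hl.xvb, hl.xpq, hs0, hg1, hn1, hy.c0, hy.say, hyp1, hD, hDL, hX, a2, a3, a4]
        · linarith only [hb.l2, hb.zM, hb.M0, h112, h122, hl.xvb, hl.xpq, hs0, hg1, hn1, hy.ac, hy.c0, hy.say, hD, hDL, hX, a1, a2, a4]
        · linarith only [hb.l2, hb.z0, hb.zz, hj.zMA, hb.v2y, h110, h122, hl.xua, hl.xvb, hs0, hg1, hn1, hy.c0, hy.say, hD, hDL, hX, a3, a4]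
        · linarith only [hb.l2, hb.z0, hb.zz, hj.zMA, h110, h122, hl.xua, hl.xvb, hl.xpq, hs0, hg1, hn1, hy.c0, hy.say, hD, hDL, hX, a3, a4]
  · rcases t11 with a2 | a2 | a2 | a2 | a2 | a2 | a2
    · linarith only [hb.l2, hb.z0, hb.uax, hb.eU, hj.A0, hj.zA, hj.zMA, hb.eZ, h112, hl.xvb, hl.xpq, hs0, hn1, hug, hy.a1, hy.c0, hy.say, hyp1, hDL, hX, a1, a2]
    · linarith only [hb.l2, hb.zz, hb.v2y, hb.vb2, h112, hn1, hy.c0, hy.say, hyp1, hD, a2]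
    · linarith only [hb.l2, hb.zM, hb.u12, hb.ux2, hb.uax, h112, hl.xvb, hl.xpq, hn1, hy.ac, hD, a2]
    · linarith only [hb.l2, hb.z0, hb.uax, hb.eU, hj.A0, hj.zA, hj.zMA, h112, hl.xvb, hl.xpq, hs0, hn1, hug, hy.a1, hy.c0, hy.say, hyp1, hsL, hDL, hX, a1, a2]
    · linarith only [hb.l2, hb.zz, hb.uy, hb.uax, hb.eU, h112, hn1, hy.c0, hy.say, hyp1, hD, a2]
    · linarith only [hb.l2, hb.z0, hb.zz, hb.uax, hb.eU, h112, hl.xpq, hs0, hn1, hug, hy.a1, hy.c0, hy.say, hyp1, hD, hDL, hX, a1, a2]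
    · linarith only [hb.l2, hb.z0, hb.uax, hb.eU, hj.A0, hj.zA, hj.zMA, h112, hl.xvb, hl.xpq, hs0, hn1, hug, hy.a1, hy.c0, hy.say, hyp1, hD, hDL, hX, a1, a2]

theorem r12a_j1_L_S {th lam y z g Y X MB MA m11 u1 u2 ux ua al v2 vb be sy : ℝ}
    (hb : MB0 th lam y z MB u1 u2 ux ua al v2 vb be) (hj : MJ th lam y z MB MA) (h110 : 0 ≤ m11)
    (hl : L2a y MB u1 ua vb) (hY0 : 0 ≤ Y) (hg1 : 1 ≤ g) (hug : ua ≤ g) (hyp1 : sy < ua)
    (hXa : Y ≤ X + sy) (hX : sy = Y + X) (tA : FT th (-g) X 0 (th + ua) al be)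
    (tE : FT th (-g) X (MA - m11) (th + ua + vb - y) al (y - vb - be)) : False := by
  rcases tA with a1 | a1 | a1 | a1 | a1 | a1 | a1
  · linarith only [hb.M0, hb.ZM, hb.uy, hb.u12, hb.ux2, hb.uax, hY0, hg1, hyp1, hX, a1]
  · linarith only [hug, a1]
  · linarith only [hb.M0, hb.ZM, hb.uy, hb.u12, hb.ux2, hb.uax, hl.xua, hug, a1]
  · linarith only [hb.M0, hb.ZM, hb.uy, hb.uax, hb.eU, hl.xua, hug, a1]
  · linarith only [hb.ZM, hb.eZ, hl.xvb, hg1, a1]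
  · rcases tE with a2 | a2 | a2 | a2 | a2 | a2 | a2
    · linarith only [hb.ZM, hj.A2, hb.v2y, hb.vb2, h110, hl.xvb, hY0, hug, hyp1, hX, a2]
    · linarith only [hb.M0, hb.ZM, hb.uy, hb.uax, hb.eU, hj.A2, hb.eZ, h110, hY0, hg1, hug, hyp1, hX, a1, a2]
    · linarith only [hb.ZM, hj.A2, hb.v2y, hb.vb2, h110, hl.xua, hl.xvb, hug, a2]
    · linarith only [hb.M0, hb.ZM, hb.uy, hb.uax, hb.eU, hj.A2, h110, hl.xua, hug, a2]
    · linarith only [hb.ZM, hj.A2, hb.v2y, hb.be1, h110, hl.xvb, hg1, a2]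
    · linarith only [hb.M0, hb.ZM, hb.uy, hb.uax, hb.eU, hj.A2, h110, hY0, hg1, hug, hyp1, hX, a1, a2]
    · linarith only [hb.M0, hb.ZM, hb.uax, hb.eU, hj.A2, h110, hl.xvb, hl.xpq, hY0, hg1, hyp1, hX, a1, a2]
  · linarith only [hb.M0, hb.ZM, hb.u12, hb.uax, hb.al1, hb.eU, hb.eZ, hl.xvb, hl.xpq, hY0, hg1, hyp1, hXa, hX, a1]

theorem r12a_j1_L_wQ {th lam y z g X MB u1 u2 ux ua al v2 vb be sy ay cy : ℝ}
    (hb : MB0 th lam y z MB u1 u2 ux ua al v2 vb be) (hl : L2a y MB u1 ua vb) (hg1 : 1 ≤ g)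
    (hug : ua ≤ g) (hy : LY sy ay cy) (hyp1 : sy < ua) (hXc0 : X < MB + vb)
    (tA : FT th (-g) X 0 (th + ua) al be)
    (tO : FT th (-g) X 2 (th + ux + ua - u1) (u1 - ux - al) be) : False := by
  rcases tA with a1 | a1 | a1 | a1 | a1 | a1 | a1
  · linarith only [hb.ZM, hb.v2y, hb.vb2, hg1, hXc0, a1]
  · linarith only [hug, a1]
  · linarith only [hb.M0, hb.ZM, hb.uy, hb.u12, hb.ux2, hb.uax, hl.xua, hug, a1]
  · linarith only [hb.M0, hb.ZM, hb.uy, hb.uax, hb.eU, hl.xua, hug, a1]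
  · linarith only [hb.ZM, hb.eZ, hl.xvb, hg1, a1]
  · rcases tO with a2 | a2 | a2 | a2 | a2 | a2 | a2
    · linarith only [hb.ZM, hb.v2y, hb.vb2, hg1, hXc0, a2]
    · linarith only [hb.ZM, hb.eU, hb.eZ, hg1, hug, hXc0, a1, a2]
    · linarith only [hb.M0, hb.ZM, hb.uy, hb.u12, hb.ux2, hb.uax, hl.xua, hug, a2]
    · linarith only [hb.M0, hb.ZM, hb.uy, hb.al0, hb.uax, hl.xua, hug, a2]
    · linarith only [hb.ZM, hb.eZ, hl.xvb, hg1, a2]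
    · linarith only [hb.ZM, hb.eZ, hg1, hug, hXc0, a1, a2]
    · linarith only [hb.M0, hb.ZM, hb.uy, hb.uax, hb.eZ, hug, hy.a1, hy.say, hyp1, hXc0, a1, a2]
  · linarith only [hb.M0, hb.ZM, hb.uy, hb.u12, hb.uax, hb.al1, hb.eU, hb.eZ, hug, hy.a1, hy.say, hyp1, hXc0, a1]

theorem r12a_j1_L_wP {th lam y z g Y X MB MA m11 u1 u2 ux ua al v2 vb be sy : ℝ}
    (hb : MB0 th lam y z MB u1 u2 ux ua al v2 vb be) (hj : MJ th lam y z MB MA) (h110 : 0 ≤ m11)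
    (hl : L2a y MB u1 ua vb) (hg1 : 1 ≤ g) (hug : ua ≤ g) (hXa : Y ≤ X + sy) (hXb : sy ≤ Y + X)
    (hXc0 : X < ua) (tA : FT th (-g) X 0 (th + ua) al be)
    (tE : FT th (-g) X (MA - m11) (th + ua + vb - y) al (y - vb - be)) : False := by
  rcases tA with a1 | a1 | a1 | a1 | a1 | a1 | a1
  · linarith only [hb.M0, hb.ZM, hb.uy, hb.u12, hb.ux2, hb.uax, hug, hXa, hXb, hXc0, a1]
  · linarith only [hug, a1]
  · linarith only [hb.M0, hb.ZM, hb.uy, hb.u12, hb.ux2, hb.uax, hl.xua, hug, a1]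
  · linarith only [hb.M0, hb.ZM, hb.uy, hb.uax, hb.eU, hl.xua, hug, a1]
  · linarith only [hb.ZM, hb.eZ, hl.xvb, hg1, a1]
  · rcases tE with a2 | a2 | a2 | a2 | a2 | a2 | a2
    · linarith only [hb.ZM, hj.A2, hb.v2y, hb.vb2, h110, hl.xvb, hug, hXc0, a2]
    · linarith only [hb.M0, hb.ZM, hb.uy, hb.uax, hb.eU, hj.A2, hb.eZ, h110, hug, hXa, hXb, hXc0, a1, a2]
    · linarith only [hb.ZM, hj.A2, hb.v2y, hb.vb2, h110, hl.xua, hl.xvb, hug, a2]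
    · linarith only [hb.M0, hb.ZM, hb.uy, hb.uax, hb.eU, hj.A2, h110, hl.xua, hug, a2]
    · linarith only [hb.ZM, hj.A2, hb.v2y, hb.be1, h110, hl.xvb, hg1, a2]
    · linarith only [hb.M0, hb.ZM, hb.uy, hb.uax, hb.eU, hj.A2, h110, hug, hXa, hXb, hXc0, a1, a2]
    · linarith only [hb.M0, hb.ZM, hb.uax, hb.eU, hj.A2, h110, hl.xvb, hl.xpq, hug, hXa, hXb, hXc0, a1, a2]
  · linarith only [hb.M0, hb.ZM, hb.u12, hb.uax, hb.al1, hb.eU, hb.eZ, hl.xvb, hl.xpq, hug, hXa, hXb, hXc0, a1]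

theorem r12a_j1_L_2 {th lam y z g X MB MA m11 u1 u2 ux ua al v2 vb be sy ay cy : ℝ}
    (hb : MB0 th lam y z MB u1 u2 ux ua al v2 vb be) (hj : MJ th lam y z MB MA) (h110 : 0 ≤ m11)
    (hl : L2a y MB u1 ua vb) (hg1 : 1 ≤ g) (hug : ua ≤ g) (hy : LY sy ay cy) (hyp1 : sy < ua)
    (hX : X ≤ 2) (tA : FT th (-g) X 0 (th + ua) al be)
    (tE : FT th (-g) X (MA - m11) (th + ua + vb - y) al (y - vb - be)) : False := by
  rcases tA with a1 | a1 | a1 | a1 | a1 | a1 | a1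
  · linarith only [hb.M0, hb.ZM, hb.uy, hb.u12, hb.ux2, hb.uax, hug, hy.a1, hy.say, hyp1, hX, a1]
  · linarith only [hug, a1]
  · linarith only [hb.M0, hb.ZM, hb.uy, hb.u12, hb.ux2, hb.uax, hug, hy.a1, hy.say, hyp1, a1]
  · linarith only [hb.M0, hb.ZM, hb.uy, hb.uax, hb.eU, hug, hy.a1, hy.say, hyp1, a1]
  · linarith only [hb.ZM, hb.eZ, hl.xvb, hg1, a1]
  · rcases tE with a2 | a2 | a2 | a2 | a2 | a2 | a2
    · linarith only [hb.ZM, hj.A2, hb.v2y, hb.vb2, h110, hl.xvb, hug, hy.a1, hy.say, hyp1, hX, a2]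
    · linarith only [hb.M0, hb.ZM, hb.uy, hb.uax, hb.eU, hj.A2, hb.eZ, h110, hg1, hug, hX, a1, a2]
    · linarith only [hb.ZM, hj.A2, hb.v2y, hb.vb2, h110, hl.xua, hl.xvb, hug, a2]
    · linarith only [hb.M0, hb.ZM, hb.uy, hb.uax, hb.eU, hj.A2, h110, hl.xua, hug, a2]
    · linarith only [hb.ZM, hj.A2, hb.v2y, hb.be1, h110, hl.xvb, hg1, a2]
    · linarith only [hb.M0, hb.ZM, hb.uy, hb.uax, hb.eU, hj.A2, h110, hg1, hX, a1, a2]
    · linarith only [hb.M0, hb.ZM, hb.uax, hb.eU, hj.A2, h110, hl.xua, hl.xvb, hl.xpq, hug, hX, a1, a2]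
  · linarith only [hb.M0, hb.ZM, hb.u12, hb.uax, hb.al1, hb.eU, hb.eZ, hl.xua, hl.xvb, hl.xpq, hug, hX, a1]

end Pool.Agent.Exact


end
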