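import Mathlib
import Pool.Agent.EXAM.C22

/-! Parts: Lib_helper43.NC.MxRL, Lib_helper43.NC.MxR2c, Lib_helper43.NC.MxR3c, Lib_helper43.NC.MxW -/

section

/-!
# Runs with `D + L ≤ θ - 2`
-/

set_option autoImplicit false
set_option linter.unusedVariables false

namespace Pool.Agent.Exact

theorem rl2a_RN {th lam y z nb D L MB m11 m12 u1 u2 ux ua al v2 vb be : ℝ}
    (hb : MB0 th lam y z MB u1 u2 ux ua al v2 vb be) (h112 : m11 ≤ 2) (h122 : m12 ≤ 2)
    (hl : L2a y MB u1 ua vb) (hDL : D + L + 2 ≤ th) (hn1 : 1 ≤ nb) (hD : nb + D ≤ z)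
    (t11 : FT th D L m11 (vb - ua) (y - vb - be) al)
    (t12 : FT th D L m12 (v2 - u1) (v2 + be - y) (u1 - ua - al)) : False := by
  rcases t11 with a1 | a1 | a1 | a1 | a1 | a1 | a1
  · linarith only [h112, hDL, a1]
  · linarith only [hb.l2, hb.zz, hb.v2y, hb.vb2, h112, hl.xua, hn1, hD, a1]
  · linarith only [hb.l2, hb.zM, hb.u12, hb.ux2, hb.uax, h112, hl.xvb, hl.xpq, hn1, hD, a1]
  · linarith only [hb.l2, hb.zM, hb.v2y, hb.be1, h112, hl.xvb, hn1, hD, a1]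
  · linarith only [hb.l2, hb.zz, hb.uax, hb.eU, h112, hl.xua, hl.xpq, hn1, hD, a1]
  · rcases t12 with a2 | a2 | a2 | a2 | a2 | a2 | a2
    · linarith only [h122, hDL, a2]
    · linarith only [hb.l2, hb.zz, hb.u12, hb.uax, hb.al1, hb.eU, hb.v2y, h122, hl.xua, hn1, hD, a2]
    · linarith only [hb.l2, hb.zM, hb.vb2, h122, hl.xvb, hl.xpq, hn1, hD, a2]
    · linarith only [hb.l2, hb.zM, hb.v2y, hb.eZ, h122, hl.xvb, hn1, hD, a2]
    · linarith only [hb.l2, hb.zz, hb.v2y, hb.be1, h112, h122, hl.xua, hl.xpq, hDL, hn1, hD, a1, a2]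
    · linarith only [hb.l2, hb.zz, hb.v2y, h112, h122, hl.xua, hDL, hn1, hD, a1, a2]
    · linarith only [hb.l2, hb.zz, h112, h122, hl.xua, hl.xpq, hDL, hn1, hD, a1, a2]
  · rcases t12 with a2 | a2 | a2 | a2 | a2 | a2 | a2
    · linarith only [h122, hDL, a2]
    · linarith only [hb.l2, hb.zz, hb.u12, hb.uax, hb.al1, hb.eU, hb.v2y, h122, hl.xua, hn1, hD, a2]
    · linarith only [hb.l2, hb.zM, hb.vb2, h122, hl.xvb, hl.xpq, hn1, hD, a2]
    · linarith only [hb.l2, hb.zM, hb.v2y, hb.eZ, h122, hl.xvb, hn1, hD, a2]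
    · linarith only [hb.l2, hb.zM, hb.v2y, hb.be1, h112, h122, hl.xvb, hl.xpq, hDL, hn1, hD, a1, a2]
    · linarith only [hb.l2, hb.zM, hb.v2y, h112, h122, hl.xvb, hDL, hn1, hD, a1, a2]
    · linarith only [hb.l2, hb.zM, h112, h122, hl.xvb, hl.xpq, hDL, hn1, hD, a1, a2]

theorem rl2c_RN_i0 {th lam y z nb D L MB m11 m12 u1 u2 ux ua al v2 vb be : ℝ}
    (hb : MB0 th lam y z MB u1 u2 ux ua al v2 vb be) (hi1 : vb = v2) (hi2 : y = vb + be)
    (h112 : m11 ≤ 2) (h122 : m12 ≤ 2) (hl : L2c th y MB u1 ua al vb be) (hDL : D + L + 2 ≤ th)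
    (hL0 : 0 ≤ L) (hn1 : 1 ≤ nb) (hD : nb + D ≤ z)
    (t11 : FT th D L m11 (vb - ua) (y - vb - be) al)
    (t12 : FT th D L m12 (v2 - u1) (v2 + be - y) (u1 - ua - al)) : False := by
  rcases t11 with a1 | a1 | a1 | a1 | a1 | a1 | a1
  · linarith only [h112, hDL, a1]
  · linarith only [hb.l2, hb.zz, hb.v2y, hb.be1, hi2, h112, hl.xua, hn1, hD, a1]
  · linarith only [hb.l2, hb.z0, hb.zM, hb.al0, hb.u12, hb.ux2, hb.uax, hi2, h112, hl.xpq, hl.xA, hn1, hD, a1]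
  · linarith only [hi2, h112, hDL, hL0, a1]
  · linarith only [hb.l2, hb.z0, hb.zM, hb.v2y, hb.be1, h112, hl.xA, hn1, hD, a1]
  · rcases t12 with a2 | a2 | a2 | a2 | a2 | a2 | a2
    · linarith only [h122, hDL, a2]
    · linarith only [hb.l2, hb.zz, hb.u12, hb.ux2, hb.uax, hb.v2y, h122, hl.xua, hn1, hD, a2]
    · linarith only [hb.l2, hb.zz, hi1, h122, hl.xvb, hl.xpq, hn1, hD, a2]
    · linarith only [hi1, hi2, h122, hDL, hL0, a2]
    · linarith only [hb.l2, hb.zz, hb.al0, h122, hl.xua, hl.xpq, hn1, hD, a2]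
    · linarith only [hb.l2, hb.zz, hb.v2y, h112, h122, hl.xua, hDL, hn1, hD, a1, a2]
    · linarith only [hb.l2, hb.zz, h112, h122, hl.xua, hl.xpq, hDL, hn1, hD, a1, a2]
  · linarith only [hb.l2, hb.z0, hb.zM, hb.u12, hb.ux2, hb.uax, hi2, h112, hl.xpq, hl.xA, hDL, hn1, hD, a1]

theorem rl2c_RN_i1 {th lam y z nb D L MB m11 m12 u1 u2 ux ua al v2 vb be : ℝ}
    (hb : MB0 th lam y z MB u1 u2 ux ua al v2 vb be) (h112 : m11 ≤ 2) (h122 : m12 ≤ 2)
    (hl : L2c th y MB u1 ua al vb be) (hDL : D + L + 2 ≤ th) (hl3 : 3 ≤ lam) (hn1 : 1 ≤ nb)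
    (hD : nb + D ≤ z) (t11 : FT th D L m11 (vb - ua) (y - vb - be) al)
    (t12 : FT th D L m12 (v2 - u1) (v2 + be - y) (u1 - ua - al)) : False := by
  rcases t11 with a1 | a1 | a1 | a1 | a1 | a1 | a1
  · linarith only [h112, hDL, a1]
  · linarith only [hb.l2, hb.zz, hb.v2y, hb.vb2, h112, hl.xua, hn1, hD, a1]
  · linarith only [hb.zz, hb.u12, hb.ux2, hb.uax, h112, hl.xvb, hl.xpq, hl3, hn1, hD, a1]
  · linarith only [hb.zz, hb.v2y, hb.be1, h112, hl.xvb, hl3, hn1, hD, a1]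
  · linarith only [hb.l2, hb.z0, hb.zM, hb.v2y, hb.be1, h112, hl.xA, hn1, hD, a1]
  · rcases t12 with a2 | a2 | a2 | a2 | a2 | a2 | a2
    · linarith only [h122, hDL, a2]
    · linarith only [hb.l2, hb.zz, hb.u12, hb.ux2, hb.uax, hb.v2y, h122, hl.xua, hn1, hD, a2]
    · linarith only [hb.zz, hb.vb2, h122, hl.xvb, hl.xpq, hl3, hn1, hD, a2]
    · linarith only [hb.zz, hb.v2y, hb.eZ, h122, hl.xvb, hl3, hn1, hD, a2]
    · linarith only [hb.zz, hb.v2y, hb.be1, h112, h122, hl.xua, hl.xpq, hDL, hl3, hn1, hD, a1, a2]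
    · linarith only [hb.zz, hb.v2y, h112, h122, hl.xua, hDL, hl3, hn1, hD, a1, a2]
    · linarith only [hb.zz, h112, h122, hl.xua, hl.xpq, hDL, hl3, hn1, hD, a1, a2]
  · rcases t12 with a2 | a2 | a2 | a2 | a2 | a2 | a2
    · linarith only [h122, hDL, a2]
    · linarith only [hb.l2, hb.zz, hb.u12, hb.ux2, hb.uax, hb.v2y, h122, hl.xua, hn1, hD, a2]
    · linarith only [hb.zz, hb.vb2, h122, hl.xvb, hl.xpq, hl3, hn1, hD, a2]
    · linarith only [hb.zz, hb.v2y, hb.eZ, h122, hl.xvb, hl3, hn1, hD, a2]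
    · linarith only [hb.zz, hb.v2y, hb.be1, h112, h122, hl.xvb, hl.xpq, hDL, hl3, hn1, hD, a1, a2]
    · linarith only [hb.zz, hb.v2y, h112, h122, hl.xvb, hDL, hl3, hn1, hD, a1, a2]
    · linarith only [hb.zz, h112, h122, hl.xvb, hl.xpq, hDL, hl3, hn1, hD, a1, a2]

theorem rl3c_RN {th lam y z nb D L MB m11 m12 u1 u2 ux ua al v2 vb be : ℝ}
    (hb : MB0 th lam y z MB u1 u2 ux ua al v2 vb be) (h112 : m11 ≤ 2) (h122 : m12 ≤ 2)
    (hl : L3c th lam y MB u1 ua al vb be) (hDL : D + L + 2 ≤ th) (hua : 0 ≤ ua) (hn1 : 1 ≤ nb)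
    (hD : nb + D ≤ z) (t11 : FT th D L m11 (vb - ua) (y - vb - be) al)
    (t12 : FT th D L m12 (v2 - u1) (v2 + be - y) (u1 - ua - al)) : False := by
  rcases t11 with a1 | a1 | a1 | a1 | a1 | a1 | a1
  · linarith only [h112, hDL, a1]
  · linarith only [hb.l2, hb.zz, hb.v2y, hb.vb2, h112, hua, hn1, hD, a1]
  · linarith only [hb.l2, hb.zM, hb.uy, hb.u12, hb.ux2, hb.uax, h112, hl.xvb, hn1, hD, a1]
  · linarith only [hb.l2, hb.zM, hb.v2y, hb.be1, h112, hl.xvb, hn1, hD, a1]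
  · linarith only [hb.l2, hb.zz, hb.uy, hb.uax, hb.eU, h112, hua, hn1, hD, a1]
  · rcases t12 with a2 | a2 | a2 | a2 | a2 | a2 | a2
    · linarith only [h122, hDL, a2]
    · linarith only [hb.zz, hb.v2y, h122, hl.xl3, hl.xu1, hn1, hD, a2]
    · linarith only [hb.l2, hb.zM, hb.uy, hb.vb2, h122, hl.xvb, hn1, hD, a2]
    · linarith only [hb.l2, hb.zM, hb.v2y, h122, hl.xbe, hn1, hD, a2]
    · linarith only [hb.zz, hb.ZM, hb.uy, h122, hl.xl3, hl.xeU, hn1, hD, a2]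
    · linarith only [hb.l2, hb.zz, hb.v2y, h112, h122, hDL, hua, hn1, hD, a1, a2]
    · linarith only [hb.zz, hb.uy, h112, h122, hl.xl3, hDL, hua, hn1, hD, a1, a2]
  · rcases t12 with a2 | a2 | a2 | a2 | a2 | a2 | a2
    · linarith only [h122, hDL, a2]
    · linarith only [hb.zz, hb.v2y, h122, hl.xl3, hl.xu1, hn1, hD, a2]
    · linarith only [hb.l2, hb.zM, hb.uy, hb.vb2, h122, hl.xvb, hn1, hD, a2]
    · linarith only [hb.l2, hb.zM, hb.v2y, h122, hl.xbe, hn1, hD, a2]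
    · linarith only [hb.zz, hb.ZM, hb.uy, h122, hl.xl3, hl.xeU, hn1, hD, a2]
    · linarith only [hb.l2, hb.zM, hb.v2y, h112, h122, hl.xvb, hDL, hn1, hD, a1, a2]
    · linarith only [hb.zM, hb.uy, h112, h122, hl.xvb, hl.xl3, hDL, hn1, hD, a1, a2]

theorem rl2a_RL {th lam y z nb D L MB m11 m12 u1 u2 ux ua al v2 vb be sy ay cy : ℝ}
    (hb : MB0 th lam y z MB u1 u2 ux ua al v2 vb be) (h112 : m11 ≤ 2) (h122 : m12 ≤ 2)
    (hl : L2a y MB u1 ua vb) (hDL : D + L + 2 ≤ th) (hy : LY sy ay cy) (hyp1 : sy < ua)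
    (hn1 : 1 ≤ nb) (hD : nb + D + cy ≤ z)
    (t12 : FT th (D + ay) (L - sy) m12 (v2 - u1) (v2 + be - y) (u1 - ua - al))
    (a11 : FT th D L m11 (ua - vb - sy) (y - vb - be) al) : False := by
  rcases a11 with a1 | a1 | a1 | a1 | a1 | a1 | a1
  · linarith only [h112, hDL, a1]
  · linarith only [hb.l2, hb.zM, hb.u12, hb.ux2, hb.uax, h112, hl.xvb, hl.xpq, hy.a1, hy.c0, hy.say, hn1, hD, a1]
  · linarith only [hb.l2, hb.zz, hb.v2y, hb.vb2, h112, hy.c0, hyp1, hn1, hD, a1]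
  · linarith only [hb.l2, hb.zM, hb.v2y, hb.be1, h112, hl.xvb, hy.c0, hn1, hD, a1]
  · linarith only [hb.l2, hb.zz, hb.uax, hb.eU, h112, hl.xpq, hy.a1, hy.c0, hy.say, hyp1, hn1, hD, a1]
  · rcases t12 with a2 | a2 | a2 | a2 | a2 | a2 | a2
    · linarith only [h122, hDL, hy.say, a2]
    · linarith only [hb.l2, hb.zz, hb.u12, hb.ux2, hb.uax, hb.v2y, h122, hy.c0, hy.say, hyp1, hn1, hD, a2]
    · linarith only [hb.l2, hb.zM, hb.vb2, h122, hl.xvb, hl.xpq, hy.ac, hn1, hD, a2]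
    · linarith only [hb.l2, hb.zM, hb.uax, hb.eU, hb.v2y, h112, h122, hl.xvb, hl.xpq, hDL, hy.c0, hy.say, hn1, hD, a1, a2]
    · linarith only [hb.l2, hb.zz, hb.al0, h122, hl.xpq, hy.c0, hy.say, hyp1, hn1, hD, a2]
    · linarith only [hb.l2, hb.zM, hb.v2y, h112, h122, hl.xvb, hDL, hy.c0, hy.say, hn1, hD, a1, a2]
    · linarith only [hb.l2, hb.zM, h112, h122, hl.xvb, hl.xpq, hDL, hy.c0, hy.say, hn1, hD, a1, a2]
  · rcases t12 with a2 | a2 | a2 | a2 | a2 | a2 | a2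
    · linarith only [h122, hDL, hy.say, a2]
    · linarith only [hb.l2, hb.zz, hb.u12, hb.ux2, hb.uax, hb.v2y, h122, hy.c0, hy.say, hyp1, hn1, hD, a2]
    · linarith only [hb.l2, hb.zM, hb.vb2, h122, hl.xvb, hl.xpq, hy.ac, hn1, hD, a2]
    · linarith only [hb.l2, hb.zz, hb.uax, hb.eU, hb.v2y, h112, h122, hl.xpq, hDL, hy.c0, hy.say, hyp1, hn1, hD, a1, a2]
    · linarith only [hb.l2, hb.zz, hb.al0, h122, hl.xpq, hy.c0, hy.say, hyp1, hn1, hD, a2]
    · linarith only [hb.l2, hb.zz, hb.v2y, h112, h122, hDL, hy.c0, hy.say, hyp1, hn1, hD, a1, a2]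
    · linarith only [hb.l2, hb.zz, h112, h122, hl.xua, hl.xpq, hDL, hy.ac, hn1, hD, a1, a2]

theorem rl2c_RL_i0 {th lam y z nb D L MB m11 m12 u1 u2 ux ua al v2 vb be sy ay cy : ℝ}
    (hb : MB0 th lam y z MB u1 u2 ux ua al v2 vb be) (hi1 : vb = v2) (hi2 : y = vb + be)
    (h112 : m11 ≤ 2) (h122 : m12 ≤ 2) (hl : L2c th y MB u1 ua al vb be) (hDL : D + L + 2 ≤ th)
    (hy : LY sy ay cy) (hyp1 : sy < ua) (hsL : sy ≤ L) (hn1 : 1 ≤ nb) (hD : nb + D + cy ≤ z)
    (t11 : FT th (D + ay) (L - sy) m11 (vb - ua) (y - vb - be) al)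
    (t12 : FT th (D + ay) (L - sy) m12 (v2 - u1) (v2 + be - y) (u1 - ua - al)) : False := by
  rcases t11 with a1 | a1 | a1 | a1 | a1 | a1 | a1
  · linarith only [h112, hDL, hy.say, a1]
  · linarith only [hb.l2, hb.zz, hb.v2y, hi1, h112, hy.c0, hy.say, hyp1, hn1, hD, a1]
  · linarith only [hb.l2, hb.z0, hb.zM, hb.al0, hb.u12, hb.ux2, hb.uax, hi2, h112, hl.xpq, hl.xA, hy.ac, hn1, hD, a1]
  · linarith only [hi2, h112, hDL, hy.say, hsL, a1]
  · linarith only [hb.l2, hb.zz, hb.uax, hb.eU, h112, hl.xpq, hy.c0, hy.say, hyp1, hn1, hD, a1]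
  · rcases t12 with a2 | a2 | a2 | a2 | a2 | a2 | a2
    · linarith only [h122, hDL, hy.say, a2]
    · linarith only [hb.l2, hb.zz, hb.uax, hb.eU, hb.v2y, hi1, hi2, h112, h122, hDL, hy.c0, hy.say, hyp1, hn1, hD, a1, a2]
    · linarith only [hb.l2, hb.z0, hb.zz, hb.zM, hi1, hi2, h112, h122, hl.xpq, hl.xA, hDL, hy.ac, hy.c0, hy.say, hyp1, hsL, hn1, hD, a1, a2]
    · linarith only [hb.eZ, hi1, h122, hDL, hy.say, hsL, a2]
    · linarith only [hb.l2, hb.zz, hb.al0, h122, hl.xua, hl.xpq, hy.ac, hn1, hD, a2]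
    · linarith only [hb.l2, hb.zz, hb.v2y, h112, h122, hDL, hy.c0, hy.say, hyp1, hn1, hD, a1, a2]
    · linarith only [hb.l2, hb.zz, h112, h122, hl.xpq, hDL, hy.c0, hy.say, hyp1, hn1, hD, a1, a2]
  · linarith only [hb.l2, hb.zz, hb.uax, hb.eU, hi2, h112, hl.xvb, hl.xpq, hDL, hy.ac, hy.say, hn1, hD, a1]

theorem rl2c_RL_i1 {th lam y z nb D L MB m11 m12 u1 u2 ux ua al v2 vb be sy ay cy : ℝ}
    (hb : MB0 th lam y z MB u1 u2 ux ua al v2 vb be) (h112 : m11 ≤ 2) (h122 : m12 ≤ 2)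
    (hl : L2c th y MB u1 ua al vb be) (hDL : D + L + 2 ≤ th) (hl3 : 3 ≤ lam) (hy : LY sy ay cy)
    (hyp1 : sy < ua) (hsL : sy ≤ L) (hn1 : 1 ≤ nb) (hD : nb + D + cy ≤ z)
    (t11 : FT th (D + ay) (L - sy) m11 (vb - ua) (y - vb - be) al)
    (t12 : FT th (D + ay) (L - sy) m12 (v2 - u1) (v2 + be - y) (u1 - ua - al)) : False := by
  rcases t12 with a1 | a1 | a1 | a1 | a1 | a1 | a1
  · linarith only [h122, hDL, hy.say, a1]
  · linarith only [hb.l2, hb.zz, hb.u12, hb.ux2, hb.uax, hb.v2y, h122, hy.c0, hy.say, hyp1, hn1, hD, a1]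
  · linarith only [hb.zz, hb.vb2, h122, hl.xvb, hl.xpq, hl3, hy.ac, hn1, hD, a1]
  · linarith only [hb.l2, hb.z0, hb.zM, hb.al0, hb.v2y, h122, hl.xA, hy.ac, hn1, hD, a1]
  · linarith only [hb.l2, hb.zz, hb.al0, h122, hl.xpq, hy.c0, hy.say, hyp1, hn1, hD, a1]
  · rcases t11 with a2 | a2 | a2 | a2 | a2 | a2 | a2
    · linarith only [h112, hDL, hy.say, a2]
    · linarith only [hb.l2, hb.zz, hb.v2y, hb.vb2, h112, hy.c0, hy.say, hyp1, hn1, hD, a2]
    · linarith only [hb.zz, hb.u12, hb.ux2, hb.uax, h112, hl.xvb, hl.xpq, hl3, hy.ac, hn1, hD, a2]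
    · linarith only [hb.zz, hb.al0, hb.v2y, h112, h122, hl.xvb, hDL, hl3, hy.ac, hy.c0, hy.say, hyp1, hn1, hD, a1, a2]
    · linarith only [hb.l2, hb.z0, hb.zM, hb.v2y, hb.be1, h112, hl.xA, hy.ac, hn1, hD, a2]
    · linarith only [hb.zz, hb.v2y, h112, h122, hDL, hl3, hy.c0, hy.say, hyp1, hn1, hD, a1, a2]
    · linarith only [hb.zz, hb.v2y, h112, h122, hl.xvb, hDL, hl3, hy.ac, hy.say, hn1, hD, a1, a2]
  · rcases t11 with a2 | a2 | a2 | a2 | a2 | a2 | a2
    · linarith only [h112, hDL, hy.say, a2]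
    · linarith only [hb.l2, hb.zz, hb.v2y, hb.vb2, h112, hy.c0, hy.say, hyp1, hn1, hD, a2]
    · linarith only [hb.l2, hb.z0, hb.zz, hb.zM, hb.al0, h112, h122, hl.xvb, hl.xpq, hl.xA, hDL, hy.ac, hy.say, hn1, hD, a1, a2]
    · linarith only [hb.zz, hb.al0, h112, h122, hl.xua, hl.xvb, hl.xpq, hDL, hl3, hy.ac, hy.say, hn1, hD, a1, a2]
    · linarith only [hb.l2, hb.z0, hb.zz, hb.zM, h112, h122, hl.xpq, hl.xA, hDL, hy.ac, hy.c0, hy.say, hyp1, hsL, hn1, hD, a1, a2]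
    · linarith only [hb.zz, h112, h122, hl.xpq, hDL, hl3, hy.c0, hy.say, hyp1, hn1, hD, a1, a2]
    · linarith only [hb.zz, h112, h122, hl.xvb, hl.xpq, hDL, hl3, hy.ac, hy.say, hn1, hD, a1, a2]

theorem rl3c_RL {th lam y z nb D L MB m11 m12 u1 u2 ux ua al v2 vb be sy ay cy : ℝ}
    (hb : MB0 th lam y z MB u1 u2 ux ua al v2 vb be) (h112 : m11 ≤ 2) (h122 : m12 ≤ 2)
    (hl : L3c th lam y MB u1 ua al vb be) (hDL : D + L + 2 ≤ th) (hua : 0 ≤ ua) (hy : LY sy ay cy)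
    (hyp1 : sy < MB + vb + 2) (hn1 : 1 ≤ nb) (hD : nb + D + cy ≤ z)
    (t11 : FT th (D + ay) (L - sy) m11 (vb - ua) (y - vb - be) al)
    (t12 : FT th (D + ay) (L - sy) m12 (v2 - u1) (v2 + be - y) (u1 - ua - al)) : False := by
  rcases t11 with a1 | a1 | a1 | a1 | a1 | a1 | a1
  · linarith only [h112, hDL, hy.say, a1]
  · linarith only [hb.l2, hb.zz, hb.v2y, hb.vb2, h112, hua, hy.ac, hn1, hD, a1]
  · linarith only [hb.zM, hb.uy, hb.u12, hb.ux2, hb.uax, h112, hl.xl3, hy.c0, hy.say, hyp1, hn1, hD, a1]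
  · linarith only [hb.zM, hb.v2y, hb.be1, h112, hl.xl3, hy.c0, hy.say, hyp1, hn1, hD, a1]
  · linarith only [hb.l2, hb.zz, hb.uy, hb.uax, hb.eU, h112, hua, hy.ac, hn1, hD, a1]
  · rcases t12 with a2 | a2 | a2 | a2 | a2 | a2 | a2
    · linarith only [h122, hDL, hy.say, a2]
    · linarith only [hb.zz, hb.v2y, h122, hl.xl3, hl.xu1, hy.ac, hn1, hD, a2]
    · linarith only [hb.zM, hb.uy, hb.vb2, h122, hl.xl3, hy.c0, hy.say, hyp1, hn1, hD, a2]
    · linarith only [hb.zM, hb.v2y, h122, hl.xl3, hl.xbe, hy.ac, hn1, hD, a2]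
    · linarith only [hb.zz, hb.uy, hb.al0, h122, hl.xl3, hua, hy.ac, hn1, hD, a2]
    · linarith only [hb.zz, hb.v2y, h112, h122, hl.xl3, hDL, hua, hy.ac, hy.say, hn1, hD, a1, a2]
    · linarith only [hb.zz, hb.uy, h112, h122, hl.xl3, hDL, hua, hy.ac, hy.say, hn1, hD, a1, a2]
  · rcases t12 with a2 | a2 | a2 | a2 | a2 | a2 | a2
    · linarith only [h122, hDL, hy.say, a2]
    · linarith only [hb.zz, hb.v2y, h122, hl.xl3, hl.xu1, hy.ac, hn1, hD, a2]
    · linarith only [hb.zM, hb.uy, hb.vb2, h122, hl.xl3, hy.c0, hy.say, hyp1, hn1, hD, a2]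
    · linarith only [hb.zM, hb.v2y, h122, hl.xl3, hl.xbe, hy.ac, hn1, hD, a2]
    · linarith only [hb.zz, hb.uy, hb.al0, h122, hl.xl3, hua, hy.ac, hn1, hD, a2]
    · linarith only [hb.zM, hb.v2y, h112, h122, hl.xl3, hDL, hy.c0, hy.say, hyp1, hn1, hD, a1, a2]
    · linarith only [hb.zM, hb.uy, h112, h122, hl.xl3, hDL, hy.c0, hy.say, hyp1, hn1, hD, a1, a2]

theorem rl2a_EN_g {th lam y z D L MB m11 m12 u1 u2 ux ua al v2 vb be : ℝ}
    (hb : MB0 th lam y z MB u1 u2 ux ua al v2 vb be) (h112 : m11 ≤ 2) (h122 : m12 ≤ 2)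
    (hl : L2a y MB u1 ua vb) (hDL : D + L + 2 ≤ th) (hlam : 3 ≤ lam) (hD : D ≤ 1) (hDz : D ≤ z)
    (t11 : FT th D L m11 (vb - ua) (y - vb - be) al)
    (t12 : FT th D L m12 (v2 - u1) (v2 + be - y) (u1 - ua - al)) : False := by
  rcases t11 with a1 | a1 | a1 | a1 | a1 | a1 | a1
  · linarith only [h112, hDL, a1]
  · linarith only [hb.zM, hb.M0, hb.v2y, hb.vb2, h112, hl.xua, hlam, hDz, a1]
  · linarith only [hb.ZM, hb.u12, hb.ux2, hb.uax, h112, hl.xvb, hl.xpq, hD, a1]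
  · linarith only [hb.zM, hb.v2y, hb.be1, h112, hl.xvb, hlam, hDz, a1]
  · linarith only [hb.zM, hb.M0, hb.uax, hb.eU, h112, hl.xua, hl.xpq, hlam, hDz, a1]
  · rcases t12 with a2 | a2 | a2 | a2 | a2 | a2 | a2
    · linarith only [h122, hDL, a2]
    · linarith only [hb.l2, hb.zz, hb.u12, hb.ux2, hb.uax, hb.v2y, h122, hl.xua, hDz, a2]
    · linarith only [hb.ZM, hb.vb2, h122, hl.xvb, hl.xpq, hD, a2]
    · linarith only [hb.zM, hb.v2y, hb.eZ, h122, hl.xvb, hlam, hDz, a2]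
    · linarith only [hb.M0, hb.ZM, hb.al0, h122, hl.xua, hl.xpq, hD, a2]
    · linarith only [hb.zz, hb.v2y, h112, h122, hl.xua, hDL, hlam, hDz, a1, a2]
    · linarith only [hb.M0, hb.ZM, h112, h122, hl.xua, hl.xpq, hDL, hD, a1, a2]
  · rcases t12 with a2 | a2 | a2 | a2 | a2 | a2 | a2
    · linarith only [h122, hDL, a2]
    · linarith only [hb.l2, hb.zz, hb.u12, hb.ux2, hb.uax, hb.v2y, h122, hl.xua, hDz, a2]
    · linarith only [hb.ZM, hb.vb2, h122, hl.xvb, hl.xpq, hD, a2]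
    · linarith only [hb.zM, hb.v2y, hb.eZ, h122, hl.xvb, hlam, hDz, a2]
    · linarith only [hb.M0, hb.ZM, hb.al0, h122, hl.xua, hl.xpq, hD, a2]
    · linarith only [hb.zM, hb.v2y, h112, h122, hl.xvb, hDL, hlam, hDz, a1, a2]
    · linarith only [hb.ZM, h112, h122, hl.xvb, hl.xpq, hDL, hD, a1, a2]

theorem rl2a_EN_o {th lam y z D L MB m11 m12 u1 u2 ux ua al v2 vb be : ℝ}
    (hb : MB0 th lam y z MB u1 u2 ux ua al v2 vb be) (h112 : m11 ≤ 2) (h122 : m12 ≤ 2)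
    (hl : L2a y MB u1 ua vb) (hDL : D + L + 2 ≤ th) (o1 : 3 * lam + y + 3 * u1 ≤ th)
    (o2 : 4 * lam + y + 4 * u1 + vb ≤ th) (hD : D ≤ 1) (hDz : D ≤ z)
    (t11 : FT th D L m11 (vb - ua) (y - vb - be) al)
    (t12 : FT th D L m12 (v2 - u1) (v2 + be - y) (u1 - ua - al)) : False := by
  rcases t11 with a1 | a1 | a1 | a1 | a1 | a1 | a1
  · linarith only [h112, hDL, a1]
  · linarith only [hb.l2, hb.zz, hb.v2y, hb.vb2, h112, hl.xua, hDz, a1]
  · linarith only [hb.ZM, hb.u12, hb.ux2, hb.uax, h112, hl.xvb, hl.xpq, hD, a1]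
  · linarith only [hb.l2, hb.M2, hb.u12, hb.ux2, hb.uax, hb.v2y, hb.be1, h112, hl.xua, hl.xvb, o2, hD, a1]
  · linarith only [hb.l2, hb.zz, hb.uy, hb.uax, hb.eU, h112, hl.xua, hDz, a1]
  · linarith only [hb.l2, hb.u12, hb.uax, hb.al1, hb.eU, hb.v2y, hb.be1, h112, hl.xua, hDL, o1, hD, a1]
  · rcases t12 with a2 | a2 | a2 | a2 | a2 | a2 | a2
    · linarith only [h122, hDL, a2]
    · linarith only [hb.l2, hb.zz, hb.u12, hb.ux2, hb.uax, hb.v2y, h122, hl.xua, hDz, a2]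
    · linarith only [hb.ZM, hb.vb2, h122, hl.xvb, hl.xpq, hD, a2]
    · linarith only [hb.l2, hb.M2, hb.u12, hb.ux2, hb.uax, hb.v2y, hb.eZ, h122, hl.xua, hl.xvb, o2, hD, a2]
    · linarith only [hb.l2, hb.zz, hb.uy, hb.al0, h122, hl.xua, hDz, a2]
    · linarith only [hb.l2, hb.M2, hb.u12, hb.ux2, hb.uax, hb.v2y, h112, h122, hl.xua, hl.xvb, hDL, o2, hD, a1, a2]
    · linarith only [hb.ZM, h112, h122, hl.xvb, hl.xpq, hDL, hD, a1, a2]

theorem rl2a_EN_i {th lam y z D L MB m11 u1 u2 ux ua al v2 vb be : ℝ}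
    (hb : MB0 th lam y z MB u1 u2 ux ua al v2 vb be) (h112 : m11 ≤ 2) (hl : L2a y MB u1 ua vb)
    (hDL : D + L + 2 ≤ th) (in3 : lam + y + 3 ≤ th) (in1 : 3 * lam + 3 * y + u1 ≤ th)
    (hL0 : 0 ≤ L) (hD : D ≤ 1) (hDz : D ≤ z) (t11 : FT th D L m11 (vb - ua) (y - vb - be) al)
    : False := by
  rcases t11 with a1 | a1 | a1 | a1 | a1 | a1 | a1
  · linarith only [h112, hDL, a1]
  · linarith only [hb.l2, hb.zz, hb.v2y, hb.vb2, h112, hl.xua, hDz, a1]
  · linarith only [hb.ZM, hb.u12, hb.ux2, hb.uax, h112, hl.xvb, hl.xpq, hD, a1]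
  · linarith only [hb.l2, hb.M2, hb.v2y, hb.be1, h112, hl.xvb, in3, hD, a1]
  · linarith only [hb.M0, hb.ZM, hb.uax, hb.eU, h112, hl.xua, hl.xpq, hD, a1]
  · linarith only [hb.l2, hb.uax, hb.eU, hb.v2y, hb.be1, h112, hl.xua, hl.xpq, hDL, in1, hL0, hD, a1]
  · linarith only [hb.l2, hb.M2, hb.u12, hb.uax, hb.al1, hb.eU, hb.v2y, hb.be1, h112, hl.xua, hl.xvb, hl.xpq, hDL, in1, hD, a1]

theorem rl2c_EN_i0 {th lam y z D L MB m11 m12 u1 u2 ux ua al v2 vb be : ℝ}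
    (hb : MB0 th lam y z MB u1 u2 ux ua al v2 vb be) (hi1 : vb = v2) (hi2 : y = vb + be)
    (h112 : m11 ≤ 2) (h122 : m12 ≤ 2) (hl : L2c th y MB u1 ua al vb be) (hDL : D + L + 2 ≤ th)
    (hL0 : 0 ≤ L) (hD : D ≤ 1) (hDz : D ≤ z) (t11 : FT th D L m11 (vb - ua) (y - vb - be) al)
    (t12 : FT th D L m12 (v2 - u1) (v2 + be - y) (u1 - ua - al)) : False := by
  rcases t11 with a1 | a1 | a1 | a1 | a1 | a1 | a1
  · linarith only [h112, hDL, a1]
  · linarith only [hb.l2, hb.zz, hb.v2y, hb.be1, hi2, h112, hl.xua, hDz, a1]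
  · linarith only [hb.ZM, hb.al0, hb.u12, hb.ux2, hb.uax, hi2, h112, hl.xpq, hl.xA, hD, a1]
  · linarith only [hi2, h112, hDL, hL0, a1]
  · linarith only [hb.ZM, hb.v2y, hb.be1, h112, hl.xA, hD, a1]
  · rcases t12 with a2 | a2 | a2 | a2 | a2 | a2 | a2
    · linarith only [h122, hDL, a2]
    · linarith only [hb.l2, hb.zz, hb.u12, hb.ux2, hb.uax, hb.v2y, h122, hl.xua, hDz, a2]
    · linarith only [hb.ZM, hb.uy, hb.al0, hi1, hi2, h122, hl.xA, hD, a2]
    · linarith only [hi1, hi2, h122, hDL, hL0, a2]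
    · linarith only [hb.M0, hb.ZM, hb.al0, h122, hl.xua, hl.xpq, hD, a2]
    · linarith only [hb.l2, hb.zz, hb.v2y, h112, h122, hl.xua, hDL, hDz, a1, a2]
    · linarith only [hb.M0, hb.ZM, h112, h122, hl.xua, hl.xpq, hDL, hD, a1, a2]
  · linarith only [hb.ZM, hb.u12, hb.ux2, hb.uax, hi2, h112, hl.xpq, hl.xA, hDL, hD, a1]

theorem rl2c_EN_i1_g {th lam y z D L MB m11 m12 u1 u2 ux ua al v2 vb be : ℝ}
    (hb : MB0 th lam y z MB u1 u2 ux ua al v2 vb be) (h112 : m11 ≤ 2) (h122 : m12 ≤ 2)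
    (hl : L2c th y MB u1 ua al vb be) (hDL : D + L + 2 ≤ th) (hl3 : 3 ≤ lam) (hlam : 4 ≤ lam)
    (hD : D ≤ 1) (hDz : D ≤ z) (t11 : FT th D L m11 (vb - ua) (y - vb - be) al)
    (t12 : FT th D L m12 (v2 - u1) (v2 + be - y) (u1 - ua - al)) : False := by
  rcases t11 with a1 | a1 | a1 | a1 | a1 | a1 | a1
  · linarith only [h112, hDL, a1]
  · linarith only [hb.zz, hb.v2y, hb.vb2, h112, hl.xua, hlam, hDz, a1]
  · linarith only [hb.zz, hb.u12, hb.ux2, hb.uax, h112, hl.xvb, hl.xpq, hlam, hDz, a1]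
  · linarith only [hb.zz, hb.v2y, hb.be1, h112, hl.xvb, hlam, hDz, a1]
  · linarith only [hb.ZM, hb.v2y, hb.be1, h112, hl.xA, hD, a1]
  · rcases t12 with a2 | a2 | a2 | a2 | a2 | a2 | a2
    · linarith only [h122, hDL, a2]
    · linarith only [hb.zz, hb.u12, hb.ux2, hb.uax, hb.v2y, h122, hl.xua, hlam, hDz, a2]
    · linarith only [hb.zz, hb.vb2, h122, hl.xvb, hl.xpq, hlam, hDz, a2]
    · linarith only [hb.M0, hb.ZM, hb.v2y, hb.be1, h112, h122, hl.xua, hl.xA, hDL, hD, a1, a2]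
    · linarith only [hb.M0, hb.ZM, hb.al0, h122, hl.xua, hl.xpq, hD, a2]
    · linarith only [hb.zz, hb.v2y, h112, h122, hl.xua, hDL, hl3, hDz, a1, a2]
    · linarith only [hb.M0, hb.ZM, h112, h122, hl.xua, hl.xpq, hDL, hD, a1, a2]
  · rcases t12 with a2 | a2 | a2 | a2 | a2 | a2 | a2
    · linarith only [h122, hDL, a2]
    · linarith only [hb.zz, hb.u12, hb.ux2, hb.uax, hb.v2y, h122, hl.xua, hlam, hDz, a2]
    · linarith only [hb.zz, hb.vb2, h122, hl.xvb, hl.xpq, hlam, hDz, a2]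
    · linarith only [hb.ZM, hb.al0, hb.v2y, h122, hl.xA, hD, a2]
    · linarith only [hb.M0, hb.ZM, hb.al0, h122, hl.xua, hl.xpq, hD, a2]
    · linarith only [hb.zz, hb.v2y, h112, h122, hl.xvb, hDL, hlam, hDz, a1, a2]
    · linarith only [hb.zz, h112, h122, hl.xvb, hl.xpq, hDL, hl3, hDz, a1, a2]

theorem rl2c_EN_i1_o {th lam y z D L MB m11 u1 u2 ux ua al v2 vb1 vb be : ℝ}
    (hb : MB0 th lam y z MB u1 u2 ux ua al v2 vb be) (h112 : m11 ≤ 2)
    (hl : L2c th y MB u1 ua al vb be) (hDL : D + L + 2 ≤ th) (hl3 : 3 ≤ lam)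
    (o1 : 4 * lam + y + 4 * u1 ≤ 2 * th) (o3 : lam + u1 + 3 ≤ th) (vb1a : vb1 ≤ v2)
    (vb1b : vb ≤ vb1) (vb1c : y + vb1 ≤ v2 + vb + be)
    (o4 : 7 * lam + y + 7 * u1 + v2 + vb1 + vb ≤ 2 * th) (hL0 : 0 ≤ L) (hD : D ≤ 1)
    (t11 : FT th D L m11 (vb - ua) (y - vb - be) al) : False := by
  rcases t11 with a1 | a1 | a1 | a1 | a1 | a1 | a1
  · linarith only [h112, hDL, a1]
  · linarith only [hb.u12, hb.ux2, hb.uax, h112, hl.xua, hl.xpq, hl3, o3, vb1a, vb1b, o4, hD, a1]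
  · linarith only [hb.u12, hb.ux2, hb.uax, h112, hl.xua, hl.xvb, hl.xpq, hl3, o1, hD, a1]
  · linarith only [hb.u12, hb.uax, hb.al1, hb.eU, hb.v2y, h112, hl.xua, hl.xvb, hl3, vb1b, vb1c, o4, hD, a1]
  · linarith only [hb.uax, hb.eU, h112, hl.xua, hl.xpq, hDL, hl3, o1, hL0, hD, a1]
  · linarith only [hb.u12, hb.uax, hb.al1, hb.eU, hb.v2y, h112, hl.xua, hl.xvb, hDL, hl3, vb1b, vb1c, o4, hD, a1]
  · linarith only [hb.u12, hb.uax, hb.al1, hb.eU, hb.v2y, h112, hl.xua, hl.xvb, hDL, hl3, vb1b, vb1c, o4, hD, a1]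

theorem rl2c_EN_i1_i {th lam y z MB u1 u2 ux ua al v2 vb be : ℝ}
    (hb : MB0 th lam y z MB u1 u2 ux ua al v2 vb be) (hl : L2c th y MB u1 ua al vb be)
    (hl3 : 3 ≤ lam) (in1 : 4 * lam + 4 * y + u1 ≤ 2 * th) : False := by
  linarith only [hb.M2, hb.al0, hb.u12, hb.ux2, hb.uax, hb.v2y, hb.be1, hl.xua, hl.xA, hl3, in1]

theorem rl3c_EN {th lam y z D L MB m11 m12 u1 u2 ux ua al v2 vb be : ℝ}
    (hb : MB0 th lam y z MB u1 u2 ux ua al v2 vb be) (h112 : m11 ≤ 2) (h122 : m12 ≤ 2)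
    (hl : L3c th lam y MB u1 ua al vb be) (hDL : D + L + 2 ≤ th) (hua : 0 ≤ ua) (hD : D ≤ 1)
    (hDz : D ≤ z) (t11 : FT th D L m11 (vb - ua) (y - vb - be) al)
    (t12 : FT th D L m12 (v2 - u1) (v2 + be - y) (u1 - ua - al)) : False := by
  rcases t11 with a1 | a1 | a1 | a1 | a1 | a1 | a1
  · linarith only [h112, hDL, a1]
  · linarith only [hb.l2, hb.zz, hb.v2y, hb.vb2, h112, hua, hDz, a1]
  · linarith only [hb.zM, hb.uy, hb.u12, hb.ux2, hb.uax, h112, hl.xvb, hl.xl3, hDz, a1]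
  · linarith only [hb.zM, hb.v2y, hb.be1, h112, hl.xvb, hl.xl3, hDz, a1]
  · linarith only [hb.l2, hb.zz, hb.uy, hb.uax, hb.eU, h112, hua, hDz, a1]
  · rcases t12 with a2 | a2 | a2 | a2 | a2 | a2 | a2
    · linarith only [h122, hDL, a2]
    · linarith only [hb.M0, hb.v2y, h122, hl.xyM, hl.xuz, hD, a2]
    · linarith only [hb.zM, hb.uy, hb.vb2, h122, hl.xvb, hl.xl3, hDz, a2]
    · linarith only [hb.zM, hb.v2y, h122, hl.xl3, hl.xbe, hDz, a2]
    · linarith only [hb.M0, hb.ZM, hb.uy, h122, hl.xeU, hD, a2]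
    · linarith only [hb.l2, hb.zz, hb.v2y, h112, h122, hDL, hua, hDz, a1, a2]
    · linarith only [hb.zz, hb.uy, h112, h122, hl.xl3, hDL, hua, hDz, a1, a2]
  · rcases t12 with a2 | a2 | a2 | a2 | a2 | a2 | a2
    · linarith only [h122, hDL, a2]
    · linarith only [hb.M0, hb.v2y, h122, hl.xyM, hl.xuz, hD, a2]
    · linarith only [hb.zM, hb.uy, hb.vb2, h122, hl.xvb, hl.xl3, hDz, a2]
    · linarith only [hb.zM, hb.v2y, h122, hl.xl3, hl.xbe, hDz, a2]
    · linarith only [hb.M0, hb.ZM, hb.uy, h122, hl.xeU, hD, a2]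
    · linarith only [hb.zM, hb.v2y, h112, h122, hl.xvb, hl.xl3, hDL, hDz, a1, a2]
    · linarith only [hb.zM, hb.uy, h112, h122, hl.xvb, hl.xl3, hDL, hDz, a1, a2]

theorem rl2a_EL {th lam y z D L MB m11 m12 u1 u2 ux ua al v2 vb be sy ay cy : ℝ}
    (hb : MB0 th lam y z MB u1 u2 ux ua al v2 vb be) (h112 : m11 ≤ 2) (h122 : m12 ≤ 2)
    (hl : L2a y MB u1 ua vb) (hDL : D + L + 2 ≤ th) (hy : LY sy ay cy) (hyp1 : sy < ua)
    (hD : D ≤ 0) (t12 : FT th (D + ay) (L - sy) m12 (v2 - u1) (v2 + be - y) (u1 - ua - al))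
    (a11 : FT th D L m11 (ua - vb - sy) (y - vb - be) al) : False := by
  rcases a11 with a1 | a1 | a1 | a1 | a1 | a1 | a1
  · linarith only [h112, hDL, a1]
  · linarith only [hb.ZM, hb.uy, hb.u12, hb.ux2, hb.uax, h112, hl.xvb, hy.a1, hy.say, hD, a1]
  · linarith only [hb.M0, hb.ZM, hb.v2y, hb.vb2, h112, hyp1, hD, a1]
  · linarith only [hb.ZM, hb.v2y, hb.be1, h112, hl.xvb, hD, a1]
  · linarith only [hb.M0, hb.ZM, hb.uy, hb.uax, hb.eU, h112, hl.xua, hD, a1]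
  · rcases t12 with a2 | a2 | a2 | a2 | a2 | a2 | a2
    · linarith only [h122, hDL, hy.say, a2]
    · linarith only [hb.M0, hb.ZM, hb.u12, hb.ux2, hb.uax, hb.v2y, h122, hy.say, hyp1, hD, a2]
    · linarith only [hb.ZM, hb.uax, hb.eU, hb.be1, h112, h122, hl.xvb, hl.xpq, hDL, hy.say, hD, a1, a2]
    · linarith only [hb.ZM, hb.uax, hb.eU, hb.v2y, h112, h122, hl.xvb, hl.xpq, hDL, hy.say, hD, a1, a2]
    · linarith only [hb.M0, hb.ZM, hb.uy, hb.al0, h122, hy.say, hyp1, hD, a2]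
    · linarith only [hb.ZM, hb.v2y, h112, h122, hl.xvb, hDL, hy.say, hD, a1, a2]
    · linarith only [hb.ZM, h112, h122, hl.xvb, hl.xpq, hDL, hy.say, hD, a1, a2]
  · rcases t12 with a2 | a2 | a2 | a2 | a2 | a2 | a2
    · linarith only [h122, hDL, hy.say, a2]
    · linarith only [hb.M0, hb.ZM, hb.u12, hb.ux2, hb.uax, hb.v2y, h122, hy.say, hyp1, hD, a2]
    · linarith only [hb.M0, hb.ZM, hb.uax, hb.eU, hb.be1, h112, h122, hl.xpq, hDL, hy.say, hyp1, hD, a1, a2]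
    · linarith only [hb.M0, hb.ZM, hb.uax, hb.eU, hb.v2y, h112, h122, hl.xpq, hDL, hy.say, hyp1, hD, a1, a2]
    · linarith only [hb.M0, hb.ZM, hb.uy, hb.al0, h122, hy.say, hyp1, hD, a2]
    · linarith only [hb.M0, hb.ZM, hb.v2y, h112, h122, hDL, hy.say, hyp1, hD, a1, a2]
    · linarith only [hb.M0, hb.ZM, hb.uy, h112, h122, hDL, hy.say, hyp1, hD, a1, a2]

theorem rl2c_EL_i0 {th lam y z D L MB m11 m12 u1 u2 ux ua al v2 vb be sy ay cy : ℝ}
    (hb : MB0 th lam y z MB u1 u2 ux ua al v2 vb be) (hi1 : vb = v2) (hi2 : y = vb + be)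
    (h112 : m11 ≤ 2) (h122 : m12 ≤ 2) (hl : L2c th y MB u1 ua al vb be) (hDL : D + L + 2 ≤ th)
    (hy : LY sy ay cy) (hyp1 : sy < ua) (hsL : sy ≤ L) (hD : D ≤ 0)
    (t11 : FT th (D + ay) (L - sy) m11 (vb - ua) (y - vb - be) al)
    (t12 : FT th (D + ay) (L - sy) m12 (v2 - u1) (v2 + be - y) (u1 - ua - al)) : False := by
  rcases t11 with a1 | a1 | a1 | a1 | a1 | a1 | a1
  · linarith only [h112, hDL, hy.say, a1]
  · linarith only [hb.l2, hb.z0, hb.zz, hb.v2y, hi1, h112, hy.say, hyp1, hD, a1]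
  · linarith only [hb.ZM, hb.u12, hb.ux2, hb.uax, hb.al1, hi2, h112, hl.xpq, hl.xA, hy.a2, hD, a1]
  · linarith only [hi2, h112, hDL, hy.say, hsL, a1]
  · linarith only [hb.ZM, hb.v2y, hi1, hi2, h112, hl.xA, hy.a2, hD, a1]
  · rcases t12 with a2 | a2 | a2 | a2 | a2 | a2 | a2
    · linarith only [h122, hDL, hy.say, a2]
    · linarith only [hb.l2, hb.z0, hb.zz, hb.uax, hb.eU, hb.v2y, hi1, hi2, h112, h122, hDL, hy.say, hyp1, hD, a1, a2]
    · linarith only [hb.ZM, hb.uy, hb.al0, hb.be1, h122, hl.xA, hy.a2, hD, a2]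
    · linarith only [hb.eZ, hi1, h122, hDL, hy.say, hsL, a2]
    · linarith only [hb.M0, hb.ZM, hb.uy, hb.al0, h122, hy.say, hyp1, hD, a2]
    · linarith only [hb.l2, hb.z0, hb.zz, hb.v2y, h112, h122, hDL, hy.say, hyp1, hD, a1, a2]
    · linarith only [hb.l2, hb.z0, hb.zz, h112, h122, hl.xpq, hDL, hy.say, hyp1, hD, a1, a2]
  · linarith only [hb.ZM, hb.u12, hb.ux2, hb.uax, hi2, h112, hl.xpq, hl.xA, hDL, hy.a2, hy.say, hD, a1]

theorem rl2c_EL_i1 {th lam y z D L MB m11 m12 u1 u2 ux ua al v2 vb be sy ay cy : ℝ}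
    (hb : MB0 th lam y z MB u1 u2 ux ua al v2 vb be) (h112 : m11 ≤ 2) (h122 : m12 ≤ 2)
    (hl : L2c th y MB u1 ua al vb be) (hDL : D + L + 2 ≤ th) (hl3 : 3 ≤ lam) (hy : LY sy ay cy)
    (hyp1 : sy < ua) (hsL : sy ≤ L) (hD : D ≤ 0)
    (t12 : FT th (D + ay) (L - sy) m12 (v2 - u1) (v2 + be - y) (u1 - ua - al))
    (a11 : FT th D L m11 (ua - vb - sy) (y - vb - be) al) : False := by
  rcases t12 with a1 | a1 | a1 | a1 | a1 | a1 | a1
  · linarith only [h122, hDL, hy.say, a1]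
  · linarith only [hb.M0, hb.ZM, hb.u12, hb.ux2, hb.uax, hb.v2y, h122, hy.say, hyp1, hD, a1]
  · linarith only [hb.ZM, hb.al0, hb.be1, h122, hl.xpq, hl.xA, hy.a2, hD, a1]
  · linarith only [hb.ZM, hb.al0, hb.v2y, h122, hl.xA, hy.a2, hD, a1]
  · linarith only [hb.M0, hb.ZM, hb.uy, hb.al0, h122, hy.say, hyp1, hD, a1]
  · rcases a11 with a2 | a2 | a2 | a2 | a2 | a2 | a2
    · linarith only [h112, hDL, a2]
    · linarith only [hb.M0, hb.ZM, hb.uy, hb.u12, hb.ux2, hb.uax, h112, hl.xvb, hy.a1, hy.say, hD, a2]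
    · linarith only [hb.M0, hb.ZM, hb.v2y, hb.vb2, h112, hyp1, hD, a2]
    · linarith only [hb.M0, hb.ZM, hb.al0, hb.v2y, h112, h122, hl.xvb, hDL, hy.say, hyp1, hD, a1, a2]
    · linarith only [hb.ZM, hb.v2y, hb.be1, h112, hl.xA, hD, a2]
    · linarith only [hb.z0, hb.zz, hb.v2y, h112, h122, hl.xvb, hDL, hl3, hy.say, hD, a1, a2]
    · linarith only [hb.M0, hb.ZM, hb.v2y, h112, h122, hDL, hy.say, hyp1, hD, a1, a2]
  · rcases a11 with a2 | a2 | a2 | a2 | a2 | a2 | a2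
    · linarith only [h112, hDL, a2]
    · linarith only [hb.M0, hb.ZM, hb.al0, h112, h122, hl.xvb, hl.xpq, hl.xA, hDL, hy.say, hD, a1, a2]
    · linarith only [hb.M0, hb.ZM, hb.v2y, hb.vb2, h112, hyp1, hD, a2]
    · linarith only [hb.M0, hb.ZM, hb.al0, h112, h122, hl.xvb, hl.xpq, hDL, hy.say, hyp1, hD, a1, a2]
    · linarith only [hb.M0, hb.ZM, hb.uy, h112, h122, hl.xua, hl.xA, hDL, hy.say, hsL, hD, a1, a2]
    · linarith only [hb.M0, hb.ZM, h112, h122, hl.xvb, hl.xpq, hDL, hy.say, hD, a1, a2]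
    · linarith only [hb.M0, hb.ZM, hb.uy, h112, h122, hDL, hy.say, hyp1, hD, a1, a2]

theorem rl3c_EL_g {th lam y z D L MB m11 m12 u1 u2 ux ua al v2 vb be sy ay cy : ℝ}
    (hb : MB0 th lam y z MB u1 u2 ux ua al v2 vb be) (h112 : m11 ≤ 2) (h122 : m12 ≤ 2)
    (hl : L3c th lam y MB u1 ua al vb be) (hDL : D + L + 2 ≤ th) (hua : 0 ≤ ua) (hlam : 4 ≤ lam)
    (hy : LY sy ay cy) (hyp1 : sy < MB + vb + 2) (hD : D ≤ 0)
    (t11 : FT th (D + ay) (L - sy) m11 (vb - ua) (y - vb - be) al)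
    (t12 : FT th (D + ay) (L - sy) m12 (v2 - u1) (v2 + be - y) (u1 - ua - al)) : False := by
  rcases t11 with a1 | a1 | a1 | a1 | a1 | a1 | a1
  · linarith only [h112, hDL, hy.say, a1]
  · linarith only [hb.z0, hb.zz, hb.v2y, hb.vb2, h112, hua, hlam, hy.a2, hD, a1]
  · linarith only [hb.z0, hb.zM, hb.uy, hb.u12, hb.ux2, hb.uax, h112, hlam, hy.say, hyp1, hD, a1]
  · linarith only [hb.z0, hb.zM, hb.v2y, hb.be1, h112, hlam, hy.say, hyp1, hD, a1]
  · linarith only [hb.z0, hb.zz, hb.uy, hb.uax, hb.eU, h112, hua, hlam, hy.a2, hD, a1]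
  · rcases t12 with a2 | a2 | a2 | a2 | a2 | a2 | a2
    · linarith only [h122, hDL, hy.say, a2]
    · linarith only [hb.M0, hb.v2y, h122, hl.xyM, hl.xuz, hy.a2, hD, a2]
    · linarith only [hb.z0, hb.zM, hb.uy, hb.vb2, h122, hlam, hy.say, hyp1, hD, a2]
    · linarith only [hb.z0, hb.zM, hb.v2y, hb.eZ, h122, hlam, hy.say, hyp1, hD, a2]
    · linarith only [hb.z0, hb.zz, hb.uy, hb.al0, h122, hua, hlam, hy.a2, hD, a2]
    · linarith only [hb.z0, hb.zz, hb.v2y, h112, h122, hDL, hua, hlam, hy.a2, hy.say, hD, a1, a2]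
    · linarith only [hb.z0, hb.zz, hb.uy, h112, h122, hDL, hua, hlam, hy.a2, hy.say, hD, a1, a2]
  · rcases t12 with a2 | a2 | a2 | a2 | a2 | a2 | a2
    · linarith only [h122, hDL, hy.say, a2]
    · linarith only [hb.M0, hb.v2y, h122, hl.xyM, hl.xuz, hy.a2, hD, a2]
    · linarith only [hb.z0, hb.zM, hb.uy, hb.vb2, h122, hlam, hy.say, hyp1, hD, a2]
    · linarith only [hb.z0, hb.zM, hb.v2y, hb.eZ, h122, hlam, hy.say, hyp1, hD, a2]
    · linarith only [hb.z0, hb.zz, hb.uy, hb.al0, h122, hua, hlam, hy.a2, hD, a2]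
    · linarith only [hb.v2y, h112, h122, hl.xyM, hDL, hy.say, hyp1, hD, a1, a2]
    · linarith only [hb.ZM, hb.uy, h112, h122, hDL, hy.say, hyp1, hD, a1, a2]

theorem rl3c_EL_o {th lam y z D L MB m11 m12 u1 u2 ux ua al v2 vb be sy ay cy : ℝ}
    (hb : MB0 th lam y z MB u1 u2 ux ua al v2 vb be) (h112 : m11 ≤ 2) (h122 : m12 ≤ 2)
    (hl : L3c th lam y MB u1 ua al vb be) (hDL : D + L + 2 ≤ th) (hua : 0 ≤ ua)
    (o1 : 4 * lam + y + 4 * u1 ≤ 2 * th) (o2 : 5 * lam + y + 5 * u1 + vb ≤ 2 * th)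
    (o3 : lam + u1 + 3 ≤ th) (hy : LY sy ay cy) (hyp1 : sy < MB + vb + 2) (hsL : sy ≤ L)
    (hD : D ≤ 0) (t11 : FT th (D + ay) (L - sy) m11 (vb - ua) (y - vb - be) al)
    (t12 : FT th (D + ay) (L - sy) m12 (v2 - u1) (v2 + be - y) (u1 - ua - al)) : False := by
  rcases t12 with a1 | a1 | a1 | a1 | a1 | a1 | a1
  · linarith only [h122, hDL, hy.say, a1]
  · linarith only [hb.M0, hb.v2y, h122, hl.xyM, hl.xuz, hy.a2, hD, a1]
  · linarith only [hb.l2, hb.M2, hb.vb2, h122, o3, hy.say, hyp1, hD, a1]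
  · rcases t11 with a2 | a2 | a2 | a2 | a2 | a2 | a2
    · linarith only [h112, hDL, hy.say, a2]
    · linarith only [hb.v2y, hb.eZ, h112, h122, hl.xl3, hl.xu1, hua, o2, o3, hy.a2, hD, a1, a2]
    · linarith only [hb.l2, hb.M2, hb.u12, hb.ux2, hb.uax, h112, o3, hy.say, hyp1, hD, a2]
    · linarith only [hb.v2y, h112, h122, hl.xyM, hDL, hy.say, hyp1, hsL, hD, a1, a2]
    · linarith only [hb.uax, hb.eU, h112, hl.xl3, hua, o3, hy.a2, hD, a2]
    · linarith only [hb.uax, hb.eU, hb.v2y, h112, h122, hl.xl3, hl.xyM, hl.xeU, hDL, hua, o1, hy.a2, hy.say, hD, a1, a2]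
    · linarith only [hb.M2, hb.ZM, hb.uax, hb.eU, hb.v2y, h112, h122, hl.xvb, hl.xl3, hDL, o2, hy.say, hyp1, hsL, hD, a1, a2]
  · linarith only [h122, hl.xl3, hl.xyM, hl.xeU, o3, hy.a2, hD, a1]
  · rcases t11 with a2 | a2 | a2 | a2 | a2 | a2 | a2
    · linarith only [h112, hDL, hy.say, a2]
    · linarith only [hb.v2y, hb.vb2, h112, hl.xl3, hl.xu1, hua, o2, hy.a2, hD, a2]
    · linarith only [hb.l2, hb.M2, hb.u12, hb.ux2, hb.uax, h112, o3, hy.say, hyp1, hD, a2]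
    · linarith only [hb.M0, hb.v2y, h112, h122, hl.xyM, hl.xeU, hDL, hy.a2, hy.say, hyp1, hD, a1, a2]
    · linarith only [hb.uax, hb.eU, h112, hl.xl3, hua, o3, hy.a2, hD, a2]
    · linarith only [hb.z0, hb.zz, hb.v2y, h112, h122, hl.xl3, hDL, hua, hy.a2, hy.say, hD, a1, a2]
    · linarith only [hb.v2y, h112, h122, hl.xyM, hDL, hy.say, hyp1, hD, a1, a2]
  · linarith only [hb.M2, hb.ZM, h122, hl.xl3, hl.xuz, hl.xbe, hl.xeU, hDL, o2, hy.say, hyp1, hD, a1]

theorem rl3c_EL_i {th lam y z MB u1 u2 ux ua al v2 vb be : ℝ}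
    (hb : MB0 th lam y z MB u1 u2 ux ua al v2 vb be) (hl : L3c th lam y MB u1 ua al vb be)
    (in1 : 4 * lam + 4 * y + u1 ≤ 2 * th) : False := by
  linarith only [hb.M2, hb.uy, hl.xl3, hl.xyM, hl.xuz, in1]

theorem lam3_2c_o {th lam y z MB u1 u2 ux ua al v2 vb1 vb be : ℝ}
    (hb : MB0 th lam y z MB u1 u2 ux ua al v2 vb be) (hl : L2c th y MB u1 ua al vb be)
    (vb1b : vb ≤ vb1) (vb1c : y + vb1 ≤ v2 + vb + be)
    (o4 : 6 * lam + y + 6 * u1 + v2 + vb1 + vb ≤ th) : False := by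
  linarith only [hb.l2, hb.M2, hb.al0, hb.u12, hb.ux2, hb.uax, hl.xua, hl.xvb, hl.xA, vb1b, vb1c, o4]

theorem lam3_2c_i {th lam y z MB u1 u2 ux ua al v2 vb be : ℝ}
    (hb : MB0 th lam y z MB u1 u2 ux ua al v2 vb be) (hl : L2c th y MB u1 ua al vb be)
    (in3 : lam + y + 3 ≤ th) (in1 : 3 * lam + 3 * y + u1 ≤ th) : False := by
  linarith only [hb.l2, hb.M2, hb.u12, hb.uax, hb.al1, hb.eU, hb.v2y, hb.be1, hl.xua, hl.xA, in3, in1]

end Pool.Agent.Exact


end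

section

/-!
# Low hubs, leaf 2c
-/

set_option autoImplicit false
set_option linter.unusedVariables false

namespace Pool.Agent.Exact

theorem r12c_j0i0_N_Y {th lam y z g nb Y sg D L X MB MA m11 u1 u2 ux ua al v2 vb be : ℝ}
    (hb : MB0 th lam y z MB u1 u2 ux ua al v2 vb be) (hj1 : u1 = ua) (hj2 : 0 = al)
    (hj3 : MB = MA) (hi1 : vb = v2) (hi2 : y = vb + be) (h110 : 0 ≤ m11) (h112 : m11 ≤ 2)
    (hl : L2c th y MB u1 ua al vb be) (hs0 : 0 ≤ sg) (hg1 : 1 ≤ g) (hn1 : 1 ≤ nb) (hug : ua ≤ g)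
    (hL0 : 0 ≤ L) (hD : nb + D ≤ z) (hDL : nb + Y + sg + D + L ≤ th + y + z) (hX0 : 0 ≤ X)
    (hX : Y = X) (t11 : FT th D L m11 (vb - ua) (y - vb - be) al)
    (tA : FT th (-g) X 0 (th + ua) al be)
    (tE : FT th (-g) X (MA - m11) (th + ua + vb - y) al (y - vb - be)) : False := by
  rcases t11 with a1 | a1 | a1 | a1 | a1 | a1 | a1
  · rcases tA with a2 | a2 | a2 | a2 | a2 | a2 | a2
    · linarith only [hb.l2, hb.zz, h112, hs0, hg1, hn1, hDL, hX, a1, a2]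
    · linarith only [hug, a2]
    · linarith only [hb.l2, hb.z0, hb.zM, hb.M0, hj1, hl.xua, hl.xpq, hug, a2]
    · linarith only [hb.ZM, hb.v2y, hb.be1, hl.xA, hg1, a2]
    · linarith only [hb.ZM, hb.al0, hl.xA, hg1, a2]
    · rcases tE with a3 | a3 | a3 | a3 | a3 | a3 | a3
      · linarith only [hb.l2, hb.zM, hj3, hs0, hg1, hn1, hDL, hX, a1, a3]
      · linarith only [hb.l2, hb.zM, hj2, hj3, hi2, hs0, hg1, hn1, hug, hDL, hX, a1, a2, a3]
      · linarith only [hb.ZM, hj1, hj2, hj3, hi2, h110, hl.xua, hl.xpq, hl.xA, hg1, a3]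
      · linarith only [hb.ZM, hj1, hj2, hj3, h110, hl.xua, hl.xpq, hug, a3]
      · linarith only [hb.ZM, hj1, hj3, hi2, h110, hl.xua, hl.xpq, hug, a3]
      · linarith only [hb.l2, hb.zM, hj2, hj3, hs0, hg1, hn1, hug, hDL, hX, a1, a2, a3]
      · linarith only [hb.l2, hb.z0, hb.zz, hb.zM, hj2, hj3, hl.xvb, hs0, hg1, hn1, hDL, hX, a1, a2, a3]
    · linarith only [hb.l2, hb.z0, hb.zz, hb.zM, h112, hl.xua, hl.xA, hs0, hn1, hug, hDL, hX0, hX, a1, a2]
  · linarith only [hb.l2, hb.zM, hb.M0, hb.v2y, hi1, h112, hl.xua, hn1, hD, a1]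
  · linarith only [hb.l2, hb.zz, hj1, h112, hl.xvb, hl.xpq, hn1, hD, a1]
  · linarith only [hb.l2, hb.zM, hb.M0, hj1, hi2, h112, hl.xua, hl.xpq, hn1, hD, a1]
  · linarith only [hb.l2, hb.z0, hb.zM, hb.v2y, hi1, hi2, h112, hl.xA, hn1, hD, a1]
  · rcases tA with a2 | a2 | a2 | a2 | a2 | a2 | a2
    · linarith only [hb.l2, hb.zz, hj2, hb.v2y, hb.be1, h112, hl.xua, hs0, hg1, hn1, hD, hDL, hX, a1, a2]
    · linarith only [hug, a2]
    · linarith only [hb.l2, hb.z0, hb.zM, hb.M0, hj1, hl.xua, hl.xpq, hug, a2]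
    · linarith only [hb.ZM, hb.v2y, hb.be1, hl.xA, hg1, a2]
    · linarith only [hb.ZM, hb.al0, hl.xA, hg1, a2]
    · linarith only [hb.l2, hb.zz, hj2, h112, hs0, hg1, hn1, hD, hDL, hX, a1, a2]
    · linarith only [hb.l2, hb.z0, hb.zM, hb.M0, hb.v2y, hi1, hi2, h112, hl.xua, hl.xA, hs0, hn1, hug, hD, hDL, hX, a1, a2]
  · rcases tA with a2 | a2 | a2 | a2 | a2 | a2 | a2
    · linarith only [hb.l2, hb.z0, hb.zz, hb.zM, hi2, h112, hl.xA, hs0, hn1, hug, hL0, hD, hDL, hX0, hX, a1, a2]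
    · linarith only [hug, a2]
    · linarith only [hb.l2, hb.z0, hb.zM, hb.M0, hj1, hl.xua, hl.xpq, hug, a2]
    · linarith only [hb.ZM, hb.v2y, hb.be1, hl.xA, hg1, a2]
    · linarith only [hb.ZM, hb.al0, hl.xA, hg1, a2]
    · linarith only [hb.l2, hb.z0, hb.zM, hi2, h112, hl.xA, hs0, hn1, hug, hD, hDL, hX, a1, a2]
    · linarith only [hb.l2, hb.z0, hb.zz, hb.zM, hi2, h112, hl.xA, hs0, hn1, hug, hL0, hD, hDL, hX0, hX, a1, a2]

theorem r12c_j0i0_N_wQ {th lam y z g X MB u1 u2 ux ua al v2 vb be : ℝ}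
    (hb : MB0 th lam y z MB u1 u2 ux ua al v2 vb be) (hj2 : 0 = al)
    (hl : L2c th y MB u1 ua al vb be) (hg1 : 1 ≤ g) (hug : ua ≤ g) (hX0 : 0 ≤ X)
    (hXc0 : X < ua + 2) (hXc1 : X + 2 ≤ th) (tA : FT th (-g) X 0 (th + ua) al be) : False := by
  rcases tA with a1 | a1 | a1 | a1 | a1 | a1 | a1
  · linarith only [hg1, hXc1, a1]
  · linarith only [hug, a1]
  · linarith only [hug, hX0, hXc0, hXc1, a1]
  · linarith only [hj2, hug, hX0, hXc0, hXc1, a1]
  · linarith only [hb.ZM, hb.al0, hl.xA, hg1, a1]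
  · linarith only [hb.ZM, hl.xA, hug, hXc0, a1]
  · linarith only [hb.ZM, hl.xA, hug, hX0, hXc0, hXc1, a1]

theorem r12c_j0i0_N_wP {th lam y z g X MB u1 u2 ux ua al v2 vb be : ℝ}
    (hb : MB0 th lam y z MB u1 u2 ux ua al v2 vb be) (hj1 : u1 = ua) (hj2 : 0 = al)
    (hl : L2c th y MB u1 ua al vb be) (hg1 : 1 ≤ g) (hug : ua ≤ g) (hX0 : 0 ≤ X) (hXc0 : X < ua)
    (tA : FT th (-g) X 0 (th + ua) al be) : False := by
  rcases tA with a1 | a1 | a1 | a1 | a1 | a1 | a1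
  · linarith only [hb.M0, hb.ZM, hb.uy, hj1, hg1, hXc0, a1]
  · linarith only [hug, a1]
  · linarith only [hb.M0, hb.ZM, hb.uy, hj1, hg1, hX0, hXc0, a1]
  · linarith only [hb.M0, hb.ZM, hb.uy, hj1, hj2, hug, hX0, hXc0, a1]
  · linarith only [hb.ZM, hb.al0, hl.xA, hg1, a1]
  · linarith only [hb.ZM, hl.xA, hug, hXc0, a1]
  · linarith only [hb.l2, hb.z0, hb.zM, hb.M0, hj1, hl.xua, hl.xpq, hl.xA, hug, hXc0, a1]

theorem r12c_j0i0_N_2 {th lam y z g X MB u1 u2 ux ua al v2 vb be : ℝ}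
    (hb : MB0 th lam y z MB u1 u2 ux ua al v2 vb be) (hl : L2c th y MB u1 ua al vb be)
    (hg1 : 1 ≤ g) (hug : ua ≤ g) (hX : X ≤ 2) (tA : FT th (-g) X 0 (th + ua) al be) : False := by
  rcases tA with a1 | a1 | a1 | a1 | a1 | a1 | a1
  · linarith only [hb.ZM, hb.al0, hb.v2y, hb.be1, hl.xA, hg1, hX, a1]
  · linarith only [hug, a1]
  · linarith only [hb.ZM, hb.al0, hb.v2y, hb.be1, hl.xua, hl.xA, hg1, a1]
  · linarith only [hb.ZM, hb.v2y, hb.be1, hl.xA, hg1, a1]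
  · linarith only [hb.ZM, hb.al0, hl.xA, hg1, a1]
  · linarith only [hb.ZM, hl.xA, hg1, hug, hX, a1]
  · linarith only [hb.ZM, hb.al0, hb.v2y, hb.be1, hl.xua, hl.xA, hg1, hX, a1]

theorem r12c_j0i0_L_Y {th lam y z g nb Y sg D L X MB MA m11 u1 u2 ux ua al v2 vb be sy ay cy : ℝ}
    (hb : MB0 th lam y z MB u1 u2 ux ua al v2 vb be) (hj1 : u1 = ua) (hj2 : 0 = al)
    (hj3 : MB = MA) (hi2 : y = vb + be) (h110 : 0 ≤ m11) (h112 : m11 ≤ 2)
    (hl : L2c th y MB u1 ua al vb be) (hs0 : 0 ≤ sg) (hY0 : 0 ≤ Y) (hg1 : 1 ≤ g) (hn1 : 1 ≤ nb)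
    (hug : ua ≤ g) (hy : LY sy ay cy) (hyp1 : sy < ua) (hsL : sy ≤ L) (hD : nb + D + cy ≤ z)
    (hDL : nb + Y + sg + D + L + cy ≤ th + y + z) (hX : Y = X + sy)
    (t11 : FT th (D + ay) (L - sy) m11 (vb - ua) (y - vb - be) al)
    (tA : FT th (-g) X 0 (th + ua) al be)
    (tE : FT th (-g) X (MA - m11) (th + ua + vb - y) al (y - vb - be)) : False := by
  rcases t11 with a1 | a1 | a1 | a1 | a1 | a1 | a1
  · rcases tA with a2 | a2 | a2 | a2 | a2 | a2 | a2
    · linarith only [hb.l2, hb.zz, h112, hs0, hn1, hug, hy.a1, hy.c0, hy.say, hyp1, hDL, hX, a1, a2]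
    · linarith only [hug, a2]
    · linarith only [hb.M0, hb.ZM, hb.uy, hj1, hug, hy.a1, hy.say, hyp1, a2]
    · linarith only [hb.M0, hb.ZM, hb.uy, hj1, hj2, hl.xua, hug, a2]
    · linarith only [hb.ZM, hb.al0, hl.xA, hg1, a2]
    · rcases tE with a3 | a3 | a3 | a3 | a3 | a3 | a3
      · linarith only [hb.l2, hb.zM, hj3, hs0, hn1, hug, hy.a1, hy.c0, hy.say, hyp1, hDL, hX, a1, a3]
      · linarith only [hb.l2, hb.zM, hj2, hj3, hi2, hs0, hn1, hug, hy.a1, hy.c0, hy.say, hyp1, hDL, hX, a1, a2, a3]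
      · linarith only [hb.ZM, hb.al0, hj3, hb.v2y, hb.vb2, hi2, h110, hl.xua, hl.xvb, hl.xA, hug, a3]
      · linarith only [hb.ZM, hj2, hj3, hb.v2y, hb.vb2, h110, hl.xvb, hg1, a3]
      · linarith only [hb.ZM, hj3, hb.v2y, hb.vb2, hi2, h110, hl.xvb, hg1, a3]
      · linarith only [hb.l2, hb.zM, hj2, hj3, hs0, hn1, hug, hy.a1, hy.c0, hy.say, hyp1, hDL, hX, a1, a2, a3]
      · linarith only [hb.l2, hb.z0, hb.zM, hb.M0, hj2, hj3, hl.xvb, hs0, hn1, hug, hy.a1, hy.c0, hy.say, hyp1, hDL, hX, a1, a2, a3]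
    · linarith only [hb.l2, hb.z0, hb.zM, hb.M0, h112, hl.xA, hs0, hY0, hn1, hug, hy.a1, hy.c0, hy.say, hyp1, hDL, hX, a1, a2]
  · linarith only [hb.l2, hb.zz, hb.v2y, hb.vb2, h112, hn1, hy.c0, hy.say, hyp1, hD, a1]
  · linarith only [hb.l2, hb.z0, hb.zM, hj1, hj2, hi2, h112, hl.xpq, hl.xA, hn1, hy.ac, hD, a1]
  · linarith only [hb.l2, hb.zz, hj1, hi2, h112, hl.xpq, hn1, hy.c0, hy.say, hyp1, hD, a1]
  · linarith only [hb.l2, hb.z0, hb.zM, hb.v2y, hb.be1, h112, hl.xA, hn1, hy.ac, hD, a1]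
  · rcases tA with a2 | a2 | a2 | a2 | a2 | a2 | a2
    · linarith only [hb.l2, hb.zz, hj2, hb.v2y, hb.be1, h112, hs0, hn1, hug, hy.a1, hy.c0, hy.say, hyp1, hD, hDL, hX, a1, a2]
    · linarith only [hug, a2]
    · linarith only [hb.M0, hb.ZM, hb.uy, hj1, hug, hy.a1, hy.say, hyp1, a2]
    · linarith only [hb.M0, hb.ZM, hb.uy, hj1, hj2, hl.xua, hug, a2]
    · linarith only [hb.ZM, hb.al0, hl.xA, hg1, a2]
    · linarith only [hb.l2, hb.zz, hj2, h112, hs0, hg1, hn1, hy.c0, hy.say, hD, hDL, hX, a1, a2]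
    · linarith only [hb.l2, hb.z0, hb.zz, hj2, h112, hs0, hY0, hn1, hug, hy.a1, hy.c0, hy.say, hyp1, hsL, hDL, hX, a1, a2]
  · rcases tA with a2 | a2 | a2 | a2 | a2 | a2 | a2
    · linarith only [hb.l2, hb.z0, hb.zM, hb.M0, hi2, h112, hl.xA, hs0, hn1, hug, hy.a1, hy.c0, hy.say, hyp1, hsL, hDL, hX, a1, a2]
    · linarith only [hug, a2]
    · linarith only [hb.M0, hb.ZM, hb.uy, hj1, hug, hy.a1, hy.say, hyp1, a2]
    · linarith only [hb.M0, hb.ZM, hb.uy, hj1, hj2, hl.xua, hug, a2]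
    · linarith only [hb.ZM, hb.al0, hl.xA, hg1, a2]
    · linarith only [hb.l2, hb.z0, hb.zM, hi2, h112, hl.xA, hs0, hn1, hug, hy.c0, hy.say, hD, hDL, hX, a1, a2]
    · linarith only [hb.l2, hb.z0, hb.zM, hb.M0, hi2, h112, hl.xA, hs0, hY0, hn1, hug, hy.c0, hy.say, hyp1, hsL, hD, hDL, hX, a1, a2]

theorem r12c_j0i0_L_S {th lam y z g Y X MB u1 u2 ux ua al v2 vb be sy ay cy : ℝ}
    (hb : MB0 th lam y z MB u1 u2 ux ua al v2 vb be) (hj1 : u1 = ua)
    (hl : L2c th y MB u1 ua al vb be) (hY0 : 0 ≤ Y) (hg1 : 1 ≤ g) (hug : ua ≤ g)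
    (hy : LY sy ay cy) (hyp1 : sy < ua) (hX : sy = Y + X) (tA : FT th (-g) X 0 (th + ua) al be)
    : False := by
  rcases tA with a1 | a1 | a1 | a1 | a1 | a1 | a1
  · linarith only [hb.M0, hb.ZM, hb.uy, hj1, hY0, hg1, hyp1, hX, a1]
  · linarith only [hug, a1]
  · linarith only [hb.M0, hb.ZM, hj1, hl.xua, hl.xpq, hug, a1]
  · linarith only [hb.ZM, hb.v2y, hb.be1, hl.xA, hg1, a1]
  · linarith only [hb.ZM, hb.al0, hl.xA, hg1, a1]
  · linarith only [hb.ZM, hl.xA, hY0, hug, hyp1, hX, a1]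
  · linarith only [hb.M0, hb.ZM, hb.uy, hj1, hl.xA, hY0, hug, hy.a1, hy.say, hyp1, hX, a1]

theorem r12c_j0i0_L_wQ {th lam y z g Y X MB u1 u2 ux ua al v2 vb be sy : ℝ}
    (hb : MB0 th lam y z MB u1 u2 ux ua al v2 vb be) (hj2 : 0 = al)
    (hl : L2c th y MB u1 ua al vb be) (hg1 : 1 ≤ g) (hug : ua ≤ g) (hXa : Y ≤ X + sy)
    (hXb : sy ≤ Y + X) (hXc0 : X < ua + 2) (hXc1 : X + 2 ≤ th)
    (tA : FT th (-g) X 0 (th + ua) al be) : False := by
  rcases tA with a1 | a1 | a1 | a1 | a1 | a1 | a1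
  · linarith only [hg1, hXc1, a1]
  · linarith only [hug, a1]
  · linarith only [hug, hXa, hXb, hXc0, hXc1, a1]
  · linarith only [hj2, hug, hXa, hXb, hXc0, hXc1, a1]
  · linarith only [hb.ZM, hb.al0, hl.xA, hg1, a1]
  · linarith only [hb.ZM, hl.xA, hug, hXc0, a1]
  · linarith only [hb.ZM, hl.xA, hug, hXa, hXb, hXc0, hXc1, a1]

theorem r12c_j0i0_L_wP {th lam y z g X MB u1 u2 ux ua al v2 vb be : ℝ}
    (hb : MB0 th lam y z MB u1 u2 ux ua al v2 vb be) (hj1 : u1 = ua)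
    (hl : L2c th y MB u1 ua al vb be) (hg1 : 1 ≤ g) (hug : ua ≤ g) (hXc0 : X < ua)
    (tA : FT th (-g) X 0 (th + ua) al be) : False := by
  rcases tA with a1 | a1 | a1 | a1 | a1 | a1 | a1
  · linarith only [hb.M0, hb.ZM, hb.uy, hj1, hg1, hXc0, a1]
  · linarith only [hug, a1]
  · linarith only [hb.M0, hb.ZM, hj1, hl.xua, hl.xpq, hug, a1]
  · linarith only [hb.ZM, hb.v2y, hb.be1, hl.xA, hg1, a1]
  · linarith only [hb.ZM, hb.al0, hl.xA, hg1, a1]
  · linarith only [hb.ZM, hl.xA, hug, hXc0, a1]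
  · linarith only [hb.M0, hb.ZM, hj1, hl.xua, hl.xpq, hl.xA, hug, hXc0, a1]

theorem r12c_j0i0_L_2 {th lam y z g X MB u1 u2 ux ua al v2 vb be : ℝ}
    (hb : MB0 th lam y z MB u1 u2 ux ua al v2 vb be) (hj1 : u1 = ua)
    (hl : L2c th y MB u1 ua al vb be) (hg1 : 1 ≤ g) (hug : ua ≤ g) (hX : X ≤ 2)
    (tA : FT th (-g) X 0 (th + ua) al be) : False := by
  rcases tA with a1 | a1 | a1 | a1 | a1 | a1 | a1
  · linarith only [hb.M0, hb.ZM, hj1, hl.xua, hl.xpq, hug, hX, a1]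
  · linarith only [hug, a1]
  · linarith only [hb.M0, hb.ZM, hj1, hl.xua, hl.xpq, hug, a1]
  · linarith only [hb.ZM, hb.v2y, hb.be1, hl.xA, hg1, a1]
  · linarith only [hb.ZM, hb.al0, hl.xA, hg1, a1]
  · linarith only [hb.ZM, hl.xA, hg1, hug, hX, a1]
  · linarith only [hb.M0, hb.ZM, hj1, hl.xua, hl.xpq, hl.xA, hug, hX, a1]

theorem r12c_j0i1_N_Y {th lam y z g nb Y sg D L X MB MA m11 u1 u2 ux ua al v2 vb be : ℝ}
    (hb : MB0 th lam y z MB u1 u2 ux ua al v2 vb be) (hj1 : u1 = ua) (hj2 : 0 = al)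
    (hj3 : MB = MA) (h110 : 0 ≤ m11) (h112 : m11 ≤ 2) (hl : L2c th y MB u1 ua al vb be)
    (hs0 : 0 ≤ sg) (hg1 : 1 ≤ g) (hn1 : 1 ≤ nb) (hug : ua ≤ g) (hl3 : 3 ≤ lam) (hD : nb + D ≤ z)
    (hDL : nb + Y + sg + D + L ≤ th + y + z) (hX0 : 0 ≤ X) (hX : Y = X)
    (t11 : FT th D L m11 (vb - ua) (y - vb - be) al) (tA : FT th (-g) X 0 (th + ua) al be)
    (tE : FT th (-g) X (MA - m11) (th + ua + vb - y) al (y - vb - be)) : False := by
  rcases t11 with a1 | a1 | a1 | a1 | a1 | a1 | a1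
  · rcases tA with a2 | a2 | a2 | a2 | a2 | a2 | a2
    · linarith only [hb.zM, hb.M0, h112, hs0, hg1, hn1, hl3, hDL, hX, a1, a2]
    · linarith only [hug, a2]
    · linarith only [hb.zM, hb.M0, h112, hl.xua, hs0, hn1, hug, hl3, hDL, hX0, hX, a1, a2]
    · linarith only [hb.ZM, hb.v2y, hb.be1, hl.xA, hg1, a2]
    · linarith only [hb.ZM, hb.al0, hl.xA, hg1, a2]
    · rcases tE with a3 | a3 | a3 | a3 | a3 | a3 | a3
      · linarith only [hb.zM, hj3, hs0, hg1, hn1, hl3, hDL, hX, a1, a3]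
      · linarith only [hb.zM, hj2, hj3, hb.eZ, hs0, hg1, hn1, hug, hl3, hDL, hX, a1, a2, a3]
      · linarith only [hb.ZM, hj2, hj3, hb.v2y, hb.be1, h110, hl.xua, hl.xvb, hl.xA, hg1, a3]
      · linarith only [hb.M2, hb.ZM, hj3, hb.v2y, hb.be1, h110, hl.xA, hg1, a3]
      · linarith only [hb.ZM, hj3, hb.v2y, hb.be1, h110, hl.xvb, hg1, a3]
      · linarith only [hb.zM, hj2, hj3, hs0, hg1, hn1, hug, hl3, hDL, hX, a1, a2, a3]
      · linarith only [hb.l2, hb.z0, hb.zz, hb.zM, hj2, hj3, hl.xvb, hs0, hg1, hn1, hDL, hX, a1, a2, a3]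
    · linarith only [hb.l2, hb.z0, hb.zM, hb.M0, h112, hl.xua, hl.xA, hs0, hg1, hn1, hDL, hX0, hX, a1, a2]
  · linarith only [hb.zM, hb.M0, hb.v2y, hb.vb2, h112, hl.xua, hn1, hl3, hD, a1]
  · linarith only [hb.zM, hb.M0, hj1, h112, hl.xvb, hl.xpq, hn1, hl3, hD, a1]
  · linarith only [hb.zz, hb.v2y, hb.be1, h112, hl.xvb, hn1, hl3, hD, a1]
  · linarith only [hb.l2, hb.z0, hb.zM, hb.v2y, hb.be1, h112, hl.xA, hn1, hD, a1]
  · rcases tA with a2 | a2 | a2 | a2 | a2 | a2 | a2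
    · linarith only [hb.zz, hj2, hb.v2y, hb.be1, h112, hl.xua, hs0, hn1, hug, hl3, hD, hDL, hX, a1, a2]
    · linarith only [hug, a2]
    · linarith only [hb.ZM, hb.al0, hb.v2y, hb.be1, hl.xua, hl.xA, hg1, a2]
    · linarith only [hb.ZM, hb.v2y, hb.be1, hl.xA, hg1, a2]
    · linarith only [hb.ZM, hb.al0, hl.xA, hg1, a2]
    · linarith only [hb.zz, hj2, h112, hs0, hg1, hn1, hl3, hD, hDL, hX, a1, a2]
    · linarith only [hb.l2, hb.z0, hb.zM, hb.M0, hb.v2y, hb.be1, h112, hl.xua, hl.xA, hs0, hn1, hug, hD, hDL, hX, a1, a2]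
  · rcases tA with a2 | a2 | a2 | a2 | a2 | a2 | a2
    · linarith only [hb.zz, hj2, hb.v2y, hb.be1, h112, hl.xvb, hs0, hn1, hug, hl3, hD, hDL, hX, a1, a2]
    · linarith only [hug, a2]
    · linarith only [hb.ZM, hb.al0, hb.v2y, hb.be1, hl.xua, hl.xA, hg1, a2]
    · linarith only [hb.ZM, hb.v2y, hb.be1, hl.xA, hg1, a2]
    · linarith only [hb.ZM, hb.al0, hl.xA, hg1, a2]
    · linarith only [hb.zz, hj2, h112, hl.xvb, hs0, hn1, hug, hl3, hD, hDL, hX, a1, a2]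
    · linarith only [hb.l2, hb.z0, hb.zM, hb.M0, hb.v2y, hb.be1, h112, hl.xvb, hl.xA, hs0, hg1, hn1, hD, hDL, hX, a1, a2]

theorem r12c_j0i1_N_wQ {th lam y z g Y X MB u1 u2 ux ua al v2 vb be : ℝ}
    (hb : MB0 th lam y z MB u1 u2 ux ua al v2 vb be) (hj2 : 0 = al)
    (hl : L2c th y MB u1 ua al vb be) (hY0 : 0 ≤ Y) (hg1 : 1 ≤ g) (hug : ua ≤ g) (hX0 : 0 ≤ X)
    (hXY : Y ≤ X) (hXc0 : X < ua + 2) (hXc1 : X + 2 ≤ th) (tA : FT th (-g) X 0 (th + ua) al be)
    : False := by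
  rcases tA with a1 | a1 | a1 | a1 | a1 | a1 | a1
  · linarith only [hug, hX0, hXc0, hXc1, a1]
  · linarith only [hug, a1]
  · linarith only [hug, hX0, hXc0, hXc1, a1]
  · linarith only [hj2, hug, hX0, hXc0, hXc1, a1]
  · linarith only [hb.ZM, hb.al0, hl.xA, hg1, a1]
  · linarith only [hb.ZM, hl.xA, hug, hXc0, a1]
  · linarith only [hb.ZM, hl.xA, hY0, hg1, hXY, hXc0, hXc1, a1]

theorem r12c_j0i1_N_wP {th lam y z g X MB u1 u2 ux ua al v2 vb be : ℝ}
    (hb : MB0 th lam y z MB u1 u2 ux ua al v2 vb be) (hj1 : u1 = ua) (hj2 : 0 = al)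
    (hl : L2c th y MB u1 ua al vb be) (hg1 : 1 ≤ g) (hug : ua ≤ g) (hX0 : 0 ≤ X) (hXc0 : X < ua)
    (tA : FT th (-g) X 0 (th + ua) al be) : False := by
  rcases tA with a1 | a1 | a1 | a1 | a1 | a1 | a1
  · linarith only [hb.M0, hb.ZM, hb.uy, hj1, hug, hX0, hXc0, a1]
  · linarith only [hug, a1]
  · linarith only [hb.M0, hb.ZM, hb.uy, hj1, hug, hX0, hXc0, a1]
  · linarith only [hb.M0, hb.ZM, hb.uy, hj1, hj2, hug, hX0, hXc0, a1]
  · linarith only [hb.ZM, hb.al0, hl.xA, hg1, a1]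
  · linarith only [hb.ZM, hl.xA, hug, hXc0, a1]
  · linarith only [hb.ZM, hb.al0, hb.v2y, hb.be1, hl.xA, hg1, hXc0, a1]

theorem r12c_j0i1_N_2 {th lam y z g X MB u1 u2 ux ua al v2 vb be : ℝ}
    (hb : MB0 th lam y z MB u1 u2 ux ua al v2 vb be) (hl : L2c th y MB u1 ua al vb be)
    (hg1 : 1 ≤ g) (hug : ua ≤ g) (hX : X ≤ 2) (tA : FT th (-g) X 0 (th + ua) al be) : False := by
  rcases tA with a1 | a1 | a1 | a1 | a1 | a1 | a1
  · linarith only [hb.ZM, hb.al0, hb.v2y, hb.be1, hl.xA, hg1, hX, a1]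
  · linarith only [hug, a1]
  · linarith only [hb.ZM, hb.al0, hb.v2y, hb.be1, hl.xua, hl.xA, hg1, a1]
  · linarith only [hb.ZM, hb.v2y, hb.be1, hl.xA, hg1, a1]
  · linarith only [hb.ZM, hb.al0, hl.xA, hg1, a1]
  · linarith only [hb.ZM, hl.xA, hg1, hug, hX, a1]
  · linarith only [hb.ZM, hb.al0, hb.v2y, hb.be1, hl.xua, hl.xA, hg1, hX, a1]

theorem r12c_j0i1_L_Y {th lam y z g nb Y sg D L X MB MA m11 m12 u1 u2 ux ua al v2 vb be sy ay cy : ℝ}
    (hb : MB0 th lam y z MB u1 u2 ux ua al v2 vb be) (hj1 : u1 = ua) (hj2 : 0 = al)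
    (hj3 : MB = MA) (h110 : 0 ≤ m11) (h112 : m11 ≤ 2) (h122 : m12 ≤ 2)
    (hl : L2c th y MB u1 ua al vb be) (hs0 : 0 ≤ sg) (hY0 : 0 ≤ Y) (hg1 : 1 ≤ g) (hn1 : 1 ≤ nb)
    (hug : ua ≤ g) (hl3 : 3 ≤ lam) (hy : LY sy ay cy) (hyp1 : sy < ua) (hsL : sy ≤ L)
    (hD : nb + D + cy ≤ z) (hDL : nb + Y + sg + D + L + cy ≤ th + y + z) (hX : Y = X + sy)
    (t11 : FT th (D + ay) (L - sy) m11 (vb - ua) (y - vb - be) al)
    (t12 : FT th (D + ay) (L - sy) m12 (v2 - u1) (v2 + be - y) (u1 - ua - al))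
    (tA : FT th (-g) X 0 (th + ua) al be)
    (tE : FT th (-g) X (MA - m11) (th + ua + vb - y) al (y - vb - be)) : False := by
  rcases t12 with a1 | a1 | a1 | a1 | a1 | a1 | a1
  · rcases tA with a2 | a2 | a2 | a2 | a2 | a2 | a2
    · linarith only [hb.zM, hb.M0, h122, hs0, hn1, hug, hl3, hy.a1, hy.c0, hy.say, hyp1, hDL, hX, a1, a2]
    · linarith only [hug, a2]
    · linarith only [hb.M0, hb.ZM, hb.uy, hj1, hug, hy.a1, hy.say, hyp1, a2]
    · linarith only [hb.ZM, hb.v2y, hb.be1, hl.xA, hg1, a2]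
    · linarith only [hb.ZM, hb.al0, hl.xA, hg1, a2]
    · rcases tE with a3 | a3 | a3 | a3 | a3 | a3 | a3
      · linarith only [hb.zM, hj3, h110, h122, hs0, hn1, hug, hl3, hy.a1, hy.c0, hy.say, hyp1, hDL, hX, a1, a3]
      · linarith only [hb.zM, hj2, hj3, hb.eZ, h110, h122, hs0, hn1, hug, hl3, hy.a1, hy.c0, hy.say, hyp1, hDL, hX, a1, a2, a3]
      · linarith only [hb.ZM, hb.al0, hj3, hb.v2y, hb.be1, h110, hl.xua, hl.xvb, hl.xA, hg1, a3]
      · linarith only [hb.ZM, hb.uy, hj1, hj2, hj3, h110, hl.xua, hug, a3]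
      · linarith only [hb.ZM, hj3, hb.v2y, hb.be1, h110, hl.xvb, hg1, a3]
      · linarith only [hb.zM, hj2, hj3, h110, h122, hs0, hn1, hug, hl3, hy.a1, hy.c0, hy.say, hyp1, hDL, hX, a1, a2, a3]
      · linarith only [hb.z0, hb.zM, hb.M0, hj2, hj3, h110, h122, hl.xvb, hs0, hn1, hug, hl3, hy.a1, hy.c0, hy.say, hyp1, hDL, hX, a1, a2, a3]
    · linarith only [hb.z0, hb.zM, hb.M0, h122, hl.xA, hs0, hY0, hn1, hug, hl3, hy.a1, hy.c0, hy.say, hyp1, hDL, hX, a1, a2]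
  · linarith only [hb.zM, hb.M0, hj1, hb.v2y, h122, hn1, hl3, hy.c0, hy.say, hyp1, hD, a1]
  · linarith only [hb.zz, hb.vb2, h122, hl.xvb, hl.xpq, hn1, hl3, hy.ac, hD, a1]
  · linarith only [hb.zM, hb.ZM, hb.al0, hb.v2y, h122, hl.xA, hn1, hl3, hy.ac, hD, a1]
  · linarith only [hb.zM, hb.M0, hb.uy, hb.al0, h122, hn1, hl3, hy.c0, hy.say, hyp1, hD, a1]
  · rcases tA with a2 | a2 | a2 | a2 | a2 | a2 | a2
    · rcases t11 with a3 | a3 | a3 | a3 | a3 | a3 | a3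
      · linarith only [hb.zM, hb.M0, h112, hs0, hn1, hug, hl3, hy.a1, hy.c0, hy.say, hyp1, hDL, hX, a2, a3]
      · linarith only [hb.zM, hb.M0, hb.v2y, hb.vb2, h112, hn1, hl3, hy.c0, hy.say, hyp1, hD, a3]
      · linarith only [hb.zM, hb.M0, h112, hl.xvb, hs0, hn1, hug, hl3, hy.a1, hy.c0, hy.say, hsL, hDL, hX, a2, a3]
      · linarith only [hb.zM, hb.M0, hj2, hb.v2y, h112, h122, hl.xvb, hs0, hg1, hn1, hl3, hy.c0, hy.say, hyp1, hD, hDL, hX, a1, a2, a3]
      · linarith only [hb.zM, hb.M0, hj2, hb.v2y, hb.be1, h112, hl.xA, hs0, hY0, hn1, hl3, hy.ac, hy.c0, hy.say, hsL, hD, hDL, a3]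
      · linarith only [hb.zM, hb.M0, hb.v2y, h112, h122, hl.xua, hs0, hn1, hug, hl3, hy.c0, hy.say, hD, hDL, hX, a1, a2, a3]
      · linarith only [hb.zM, hb.M0, hb.v2y, h112, h122, hl.xvb, hs0, hg1, hn1, hl3, hy.c0, hy.say, hD, hDL, hX, a1, a2, a3]
    · linarith only [hug, a2]
    · linarith only [hb.M0, hb.ZM, hb.uy, hj1, hug, hy.a1, hy.say, hyp1, a2]
    · linarith only [hb.ZM, hb.v2y, hb.be1, hl.xA, hg1, a2]
    · linarith only [hb.ZM, hb.al0, hl.xA, hg1, a2]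
    · rcases t11 with a3 | a3 | a3 | a3 | a3 | a3 | a3
      · rcases tE with a4 | a4 | a4 | a4 | a4 | a4 | a4
        · linarith only [hb.zM, hj3, hs0, hn1, hug, hl3, hy.a1, hy.c0, hy.say, hyp1, hDL, hX, a3, a4]
        · linarith only [hb.zM, hj2, hj3, hb.eZ, hs0, hn1, hug, hl3, hy.a1, hy.c0, hy.say, hyp1, hDL, hX, a2, a3, a4]
        · linarith only [hb.ZM, hb.al0, hj3, hb.v2y, hb.be1, h110, hl.xua, hl.xvb, hl.xA, hg1, a4]
        · linarith only [hb.ZM, hb.uy, hj1, hj2, hj3, h110, hl.xua, hug, a4]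
        · linarith only [hb.ZM, hj3, hb.v2y, hb.be1, h110, hl.xvb, hg1, a4]
        · linarith only [hb.zM, hj2, hj3, hs0, hn1, hug, hl3, hy.a1, hy.c0, hy.say, hyp1, hDL, hX, a2, a3, a4]
        · linarith only [hb.z0, hb.zM, hb.M0, hj2, hj3, hl.xvb, hs0, hn1, hug, hl3, hy.a1, hy.c0, hy.say, hyp1, hDL, hX, a2, a3, a4]
      · linarith only [hb.zM, hb.M0, hb.v2y, hb.vb2, h112, hn1, hl3, hy.c0, hy.say, hyp1, hD, a3]
      · linarith only [hb.zz, hb.v2y, hb.eZ, h112, h122, hl.xvb, hs0, hn1, hug, hl3, hy.ac, hy.c0, hy.say, hD, hDL, hX, a1, a2, a3]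
      · linarith only [hb.zM, hb.M0, hb.v2y, h112, h122, hl.xvb, hs0, hn1, hug, hl3, hy.c0, hy.say, hyp1, hD, hDL, hX, a1, a2, a3]
      · linarith only [hb.zM, hb.M0, hj2, hb.v2y, hb.be1, h112, hl.xA, hs0, hY0, hn1, hl3, hy.ac, hy.c0, hy.say, hsL, hD, hDL, a3]
      · linarith only [hb.zM, hb.M0, hj2, h112, hs0, hg1, hn1, hl3, hy.c0, hy.say, hD, hDL, hX, a2, a3]
      · linarith only [hb.zM, hb.M0, hj2, h112, hl.xvb, hs0, hn1, hug, hl3, hy.c0, hy.say, hD, hDL, hX, a2, a3]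
    · linarith only [hb.z0, hb.zz, hb.v2y, hb.eZ, h122, hl.xua, hl.xvb, hs0, hn1, hug, hl3, hy.c0, hy.say, hD, hDL, hX, a1, a2]
  · rcases tA with a2 | a2 | a2 | a2 | a2 | a2 | a2
    · linarith only [hb.zM, hb.M0, hj1, hj2, hb.eZ, h122, hl.xvb, hl.xpq, hs0, hg1, hn1, hl3, hy.c0, hy.say, hD, hDL, hX, a1, a2]
    · linarith only [hug, a2]
    · linarith only [hb.M0, hb.ZM, hb.uy, hj1, hug, hy.a1, hy.say, hyp1, a2]
    · linarith only [hb.ZM, hb.v2y, hb.be1, hl.xA, hg1, a2]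
    · linarith only [hb.ZM, hb.al0, hl.xA, hg1, a2]
    · linarith only [hb.zM, hb.M0, hj1, hb.eZ, h122, hl.xvb, hs0, hn1, hug, hl3, hy.c0, hy.say, hD, hDL, hX, a1, a2]
    · linarith only [hb.z0, hb.zz, hb.eZ, h122, hl.xua, hl.xvb, hl.xpq, hs0, hn1, hug, hl3, hy.c0, hy.say, hD, hDL, hX, a1, a2]

theorem r12c_j0i1_L_S {th lam y z g Y X MB u1 u2 ux ua al v2 vb be sy ay cy : ℝ}
    (hb : MB0 th lam y z MB u1 u2 ux ua al v2 vb be) (hj1 : u1 = ua)
    (hl : L2c th y MB u1 ua al vb be) (hY0 : 0 ≤ Y) (hg1 : 1 ≤ g) (hug : ua ≤ g)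
    (hy : LY sy ay cy) (hyp1 : sy < ua) (hXa : Y ≤ X + sy) (hX : sy = Y + X)
    (tA : FT th (-g) X 0 (th + ua) al be) : False := by
  rcases tA with a1 | a1 | a1 | a1 | a1 | a1 | a1
  · linarith only [hb.M0, hb.ZM, hb.uy, hj1, hY0, hg1, hyp1, hX, a1]
  · linarith only [hug, a1]
  · linarith only [hb.M0, hb.ZM, hb.uy, hj1, hug, hy.a1, hy.say, hyp1, a1]
  · linarith only [hb.ZM, hb.v2y, hb.be1, hl.xA, hg1, a1]
  · linarith only [hb.ZM, hb.al0, hl.xA, hg1, a1]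
  · linarith only [hb.ZM, hl.xA, hY0, hug, hyp1, hX, a1]
  · linarith only [hb.M0, hb.ZM, hj1, hl.xpq, hl.xA, hY0, hg1, hyp1, hXa, hX, a1]

theorem r12c_j0i1_L_wQ {th lam y z g Y X MB u1 u2 ux ua al v2 vb be sy : ℝ}
    (hb : MB0 th lam y z MB u1 u2 ux ua al v2 vb be) (hj2 : 0 = al)
    (hl : L2c th y MB u1 ua al vb be) (hg1 : 1 ≤ g) (hug : ua ≤ g) (hXa : Y ≤ X + sy)
    (hXb : sy ≤ Y + X) (hXc0 : X < ua + 2) (hXc1 : X + 2 ≤ th)
    (tA : FT th (-g) X 0 (th + ua) al be) : False := by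
  rcases tA with a1 | a1 | a1 | a1 | a1 | a1 | a1
  · linarith only [hug, hXa, hXb, hXc0, hXc1, a1]
  · linarith only [hug, a1]
  · linarith only [hug, hXa, hXb, hXc0, hXc1, a1]
  · linarith only [hj2, hug, hXa, hXb, hXc0, hXc1, a1]
  · linarith only [hb.ZM, hb.al0, hl.xA, hg1, a1]
  · linarith only [hb.ZM, hl.xA, hug, hXc0, a1]
  · linarith only [hb.ZM, hl.xA, hg1, hXa, hXb, hXc0, hXc1, a1]

theorem r12c_j0i1_L_wP {th lam y z g Y X MB u1 u2 ux ua al v2 vb be sy : ℝ}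
    (hb : MB0 th lam y z MB u1 u2 ux ua al v2 vb be) (hj1 : u1 = ua)
    (hl : L2c th y MB u1 ua al vb be) (hg1 : 1 ≤ g) (hug : ua ≤ g) (hXa : Y ≤ X + sy)
    (hXb : sy ≤ Y + X) (hXc0 : X < ua) (tA : FT th (-g) X 0 (th + ua) al be) : False := by
  rcases tA with a1 | a1 | a1 | a1 | a1 | a1 | a1
  · linarith only [hb.M0, hb.ZM, hb.uy, hj1, hug, hXa, hXb, hXc0, a1]
  · linarith only [hug, a1]
  · linarith only [hb.M0, hb.ZM, hb.uy, hj1, hug, hXa, hXb, hXc0, a1]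
  · linarith only [hb.ZM, hb.v2y, hb.be1, hl.xA, hg1, a1]
  · linarith only [hb.ZM, hb.al0, hl.xA, hg1, a1]
  · linarith only [hb.ZM, hl.xA, hug, hXc0, a1]
  · linarith only [hb.M0, hb.ZM, hj1, hl.xpq, hl.xA, hg1, hXa, hXb, hXc0, a1]

theorem r12c_j0i1_L_2 {th lam y z g X MB u1 u2 ux ua al v2 vb be : ℝ}
    (hb : MB0 th lam y z MB u1 u2 ux ua al v2 vb be) (hj1 : u1 = ua)
    (hl : L2c th y MB u1 ua al vb be) (hg1 : 1 ≤ g) (hug : ua ≤ g) (hl3 : 3 ≤ lam) (hX : X ≤ 2)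
    (tA : FT th (-g) X 0 (th + ua) al be) : False := by
  rcases tA with a1 | a1 | a1 | a1 | a1 | a1 | a1
  · linarith only [hb.z0, hb.zM, hb.M0, hj1, hl.xua, hl.xpq, hug, hl3, hX, a1]
  · linarith only [hug, a1]
  · linarith only [hb.z0, hb.zM, hb.M0, hj1, hl.xua, hl.xpq, hug, hl3, a1]
  · linarith only [hb.ZM, hb.v2y, hb.be1, hl.xA, hg1, a1]
  · linarith only [hb.ZM, hb.al0, hl.xA, hg1, a1]
  · linarith only [hb.ZM, hl.xA, hg1, hug, hX, a1]
  · linarith only [hb.l2, hb.z0, hb.zM, hb.M0, hj1, hl.xua, hl.xpq, hl.xA, hug, hX, a1]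

theorem r12c_j1i0_N_Y {th lam y z g nb Y sg D L X MB MA m11 m12 u1 u2 ux ua al v2 vb be : ℝ}
    (hb : MB0 th lam y z MB u1 u2 ux ua al v2 vb be) (hj : MJ th lam y z MB MA) (hi1 : vb = v2)
    (hi2 : y = vb + be) (h110 : 0 ≤ m11) (h112 : m11 ≤ 2) (h122 : m12 ≤ 2)
    (hl : L2c th y MB u1 ua al vb be) (hs0 : 0 ≤ sg) (hY0 : 0 ≤ Y) (hg1 : 1 ≤ g) (hn1 : 1 ≤ nb)
    (hug : ua ≤ g) (hL0 : 0 ≤ L) (hD : nb + D ≤ z) (hDL : nb + Y + sg + D + L ≤ th + y + z)
    (hX : Y = X) (t11 : FT th D L m11 (vb - ua) (y - vb - be) al)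
    (t12 : FT th D L m12 (v2 - u1) (v2 + be - y) (u1 - ua - al))
    (tA : FT th (-g) X 0 (th + ua) al be)
    (tE : FT th (-g) X (MA - m11) (th + ua + vb - y) al (y - vb - be))
    (tO : FT th (-g) X 2 (th + ux + ua - u1) (u1 - ux - al) be) : False := by
  rcases t11 with a1 | a1 | a1 | a1 | a1 | a1 | a1
  · rcases tA with a2 | a2 | a2 | a2 | a2 | a2 | a2
    · linarith only [hb.l2, hb.zz, h112, hs0, hg1, hn1, hDL, hX, a1, a2]
    · linarith only [hug, a2]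
    · linarith only [hb.l2, hb.zz, h112, hl.xua, hs0, hY0, hn1, hug, hDL, a1, a2]
    · linarith only [hb.ZM, hb.v2y, hb.be1, hl.xA, hg1, a2]
    · linarith only [hb.ZM, hb.al0, hl.xA, hg1, a2]
    · rcases t12 with a3 | a3 | a3 | a3 | a3 | a3 | a3
      · rcases tE with a4 | a4 | a4 | a4 | a4 | a4 | a4
        · linarith only [hb.l2, hj.zA, hs0, hg1, hn1, hDL, hX, a1, a4]
        · rcases tO with a5 | a5 | a5 | a5 | a5 | a5 | a5
          · linarith only [hb.l2, hb.zz, h122, hs0, hg1, hn1, hDL, hX, a3, a5]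
          · linarith only [hb.l2, hb.eU, hj.zA, hi2, hs0, hg1, hn1, hug, hDL, hX, a1, a2, a4, a5]
          · linarith only [hb.M0, hb.ZM, hb.u12, hb.ux2, hb.uax, hl.xua, hl.xpq, hug, a5]
          · linarith only [hb.M0, hb.ZM, hb.al0, hb.uax, hl.xua, hl.xpq, hug, a5]
          · linarith only [hb.ZM, hb.al0, hl.xA, hg1, a5]
          · linarith only [hb.l2, hj.zA, hi2, hs0, hg1, hn1, hug, hDL, hX, a1, a2, a4, a5]
          · linarith only [hb.l2, hb.z0, hb.zz, hb.uax, hj.zA, hi2, hl.xpq, hs0, hg1, hn1, hDL, hX, a1, a2, a4, a5]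
        · linarith only [hb.ZM, hb.al0, hj.A2, hb.v2y, hb.vb2, hi2, h110, hl.xua, hl.xA, hug, a4]
        · linarith only [hb.ZM, hj.A2, hb.v2y, hb.vb2, hi2, h110, hl.xA, hg1, a4]
        · linarith only [hb.ZM, hb.al0, hj.A2, hb.v2y, hb.vb2, hi2, h110, hl.xA, hg1, a4]
        · rcases tO with a5 | a5 | a5 | a5 | a5 | a5 | a5
          · linarith only [hb.l2, hb.zz, h122, hs0, hg1, hn1, hDL, hX, a3, a5]
          · linarith only [hb.l2, hb.eU, hj.zA, hs0, hg1, hn1, hug, hDL, hX, a1, a2, a4, a5]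
          · linarith only [hb.M0, hb.ZM, hb.u12, hb.ux2, hb.uax, hl.xua, hl.xpq, hug, a5]
          · linarith only [hb.M0, hb.ZM, hb.al0, hb.uax, hl.xua, hl.xpq, hug, a5]
          · linarith only [hb.ZM, hb.al0, hl.xA, hg1, a5]
          · linarith only [hb.l2, hj.zA, hs0, hg1, hn1, hug, hDL, hX, a1, a4, a5]
          · linarith only [hb.l2, hb.z0, hb.zz, hb.uax, hj.zA, hl.xua, hl.xpq, hs0, hn1, hug, hDL, hX, a1, a4, a5]
        · linarith only [hb.l2, hb.z0, hb.zz, hj.zMA, hi2, hl.xua, hl.xA, hs0, hY0, hn1, hug, hDL, hX, a1, a4]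
      · linarith only [hb.l2, hb.zz, hb.u12, hb.ux2, hb.uax, hb.v2y, h122, hl.xua, hn1, hD, a3]
      · linarith only [hb.l2, hb.zz, hi1, h122, hl.xvb, hl.xpq, hn1, hD, a3]
      · linarith only [hb.l2, hb.zM, hb.M0, hb.eZ, hi1, h122, hl.xA, hs0, hY0, hg1, hn1, hug, hL0, hD, hDL, hX, a2, a3]
      · linarith only [hb.l2, hb.zz, hb.al0, h122, hl.xua, hl.xpq, hn1, hD, a3]
      · linarith only [hb.l2, hb.zz, hb.eZ, hi1, h122, hs0, hg1, hn1, hD, hDL, hX, a2, a3]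
      · rcases tE with a4 | a4 | a4 | a4 | a4 | a4 | a4
        · linarith only [hb.l2, hj.zA, hs0, hg1, hn1, hDL, hX, a1, a4]
        · linarith only [hb.l2, hj.zA, hi2, h110, h122, hl.xpq, hs0, hg1, hn1, hug, hD, hDL, hX, a2, a3, a4]
        · linarith only [hb.ZM, hb.al0, hj.A2, hb.v2y, hb.vb2, hi2, h110, hl.xua, hl.xA, hug, a4]
        · linarith only [hb.ZM, hj.A2, hb.v2y, hb.vb2, hi2, h110, hl.xA, hg1, a4]
        · linarith only [hb.ZM, hb.al0, hj.A2, hb.v2y, hb.vb2, hi2, h110, hl.xA, hg1, a4]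
        · linarith only [hb.l2, hj.zA, h110, h122, hl.xpq, hs0, hg1, hn1, hD, hDL, hX, a3, a4]
        · linarith only [hb.l2, hb.z0, hb.zz, hj.zMA, hi2, hl.xua, hl.xA, hs0, hY0, hn1, hug, hDL, hX, a1, a4]
    · linarith only [hb.l2, hb.z0, hb.zM, hb.M0, h112, hl.xua, hl.xA, hs0, hY0, hn1, hug, hDL, hX, a1, a2]
  · linarith only [hb.l2, hb.zz, hb.v2y, hb.be1, hi2, h112, hl.xua, hn1, hD, a1]
  · linarith only [hb.l2, hb.zz, hb.u12, hb.ux2, hb.uax, h112, hl.xvb, hl.xpq, hn1, hD, a1]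
  · linarith only [hb.l2, hb.z0, hb.zM, hb.al0, hb.v2y, hi1, hi2, h112, hl.xA, hn1, hD, a1]
  · linarith only [hb.l2, hb.z0, hb.zM, hb.v2y, hb.be1, h112, hl.xA, hn1, hD, a1]
  · rcases tA with a2 | a2 | a2 | a2 | a2 | a2 | a2
    · rcases t12 with a3 | a3 | a3 | a3 | a3 | a3 | a3
      · linarith only [hb.l2, hb.zz, h122, hs0, hg1, hn1, hDL, hX, a2, a3]
      · linarith only [hb.l2, hb.zz, hb.u12, hb.ux2, hb.uax, hb.v2y, h122, hl.xua, hn1, hD, a3]
      · linarith only [hb.l2, hb.zz, hi1, h122, hl.xvb, hl.xpq, hn1, hD, a3]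
      · linarith only [hb.l2, hb.zz, hb.eZ, hi1, h122, hs0, hg1, hn1, hL0, hDL, hX, a2, a3]
      · linarith only [hb.l2, hb.zz, hb.al0, h122, hl.xua, hl.xpq, hn1, hD, a3]
      · linarith only [hb.l2, hb.zz, hb.v2y, h112, h122, hl.xua, hs0, hn1, hug, hD, hDL, hX, a1, a2, a3]
      · linarith only [hb.l2, hb.zz, h112, h122, hl.xua, hl.xpq, hs0, hn1, hug, hD, hDL, hX, a1, a2, a3]
    · linarith only [hug, a2]
    · linarith only [hb.M0, hb.ZM, hb.u12, hb.ux2, hb.uax, hl.xua, hl.xpq, hug, a2]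
    · linarith only [hb.ZM, hb.v2y, hb.be1, hl.xA, hg1, a2]
    · linarith only [hb.ZM, hb.al0, hl.xA, hg1, a2]
    · rcases tO with a3 | a3 | a3 | a3 | a3 | a3 | a3
      · rcases t12 with a4 | a4 | a4 | a4 | a4 | a4 | a4
        · linarith only [hb.l2, hb.zz, h122, hs0, hg1, hn1, hDL, hX, a3, a4]
        · linarith only [hb.l2, hb.zz, hb.u12, hb.ux2, hb.uax, hb.v2y, h122, hl.xua, hn1, hD, a4]
        · linarith only [hb.l2, hb.zz, hi1, h122, hl.xvb, hl.xpq, hn1, hD, a4]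
        · linarith only [hb.l2, hb.zz, hb.eZ, hi1, h122, hs0, hg1, hn1, hL0, hDL, hX, a3, a4]
        · linarith only [hb.l2, hb.zz, h112, h122, hl.xua, hl.xpq, hs0, hn1, hug, hD, hDL, hX, a1, a2, a4]
        · linarith only [hb.l2, hb.zz, hb.eZ, hi1, h122, hs0, hg1, hn1, hD, hDL, hX, a2, a4]
        · linarith only [hb.l2, hb.zz, h112, h122, hl.xua, hl.xpq, hs0, hn1, hug, hD, hDL, hX, a1, a3, a4]
      · linarith only [hb.l2, hb.zz, hb.eU, h112, hs0, hg1, hn1, hug, hD, hDL, hX, a1, a2, a3]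
      · linarith only [hb.M0, hb.ZM, hb.u12, hb.ux2, hb.uax, hl.xua, hl.xpq, hug, a3]
      · linarith only [hb.M0, hb.ZM, hb.al0, hb.uax, hl.xua, hl.xpq, hug, a3]
      · linarith only [hb.ZM, hb.al0, hl.xA, hg1, a3]
      · linarith only [hb.l2, hb.zz, h112, hs0, hg1, hn1, hD, hDL, hX, a1, a3]
      · linarith only [hb.l2, hb.z0, hb.zz, hb.uax, h112, hl.xua, hl.xpq, hs0, hn1, hug, hD, hDL, hX, a1, a3]
    · linarith only [hb.l2, hb.z0, hb.zM, hb.M0, hb.v2y, hb.be1, h112, hl.xua, hl.xA, hs0, hn1, hug, hD, hDL, hX, a1, a2]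
  · rcases tA with a2 | a2 | a2 | a2 | a2 | a2 | a2
    · linarith only [hb.l2, hb.z0, hb.zM, hb.M0, hi2, h112, hl.xA, hs0, hg1, hn1, hug, hL0, hDL, hX, a1, a2]
    · linarith only [hug, a2]
    · linarith only [hb.l2, hb.z0, hb.zM, hb.M0, hi2, h112, hl.xA, hs0, hY0, hn1, hug, hL0, hD, hDL, a1, a2]
    · linarith only [hb.ZM, hb.v2y, hb.be1, hl.xA, hg1, a2]
    · linarith only [hb.ZM, hb.al0, hl.xA, hg1, a2]
    · linarith only [hb.l2, hb.z0, hb.zM, hi2, h112, hl.xA, hs0, hn1, hug, hD, hDL, hX, a1, a2]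
    · linarith only [hb.l2, hb.z0, hb.zM, hb.M0, hi2, h112, hl.xA, hs0, hY0, hn1, hug, hL0, hD, hDL, hX, a1, a2]

theorem r12c_j1i0_N_wQ {th lam y z g X MB u1 u2 ux ua al v2 vb be : ℝ}
    (hb : MB0 th lam y z MB u1 u2 ux ua al v2 vb be) (hl : L2c th y MB u1 ua al vb be)
    (hg1 : 1 ≤ g) (hug : ua ≤ g) (hX0 : 0 ≤ X) (hXc0 : X < ua + 2) (hXc1 : X + 2 ≤ th)
    (tA : FT th (-g) X 0 (th + ua) al be) : False := by
  rcases tA with a1 | a1 | a1 | a1 | a1 | a1 | a1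
  · linarith only [hg1, hXc1, a1]
  · linarith only [hug, a1]
  · linarith only [hug, hX0, hXc0, hXc1, a1]
  · linarith only [hb.M0, hb.ZM, hb.uy, hb.uax, hb.eU, hg1, hX0, hXc0, a1]
  · linarith only [hb.ZM, hb.al0, hl.xA, hg1, a1]
  · linarith only [hb.ZM, hl.xA, hug, hXc0, a1]
  · linarith only [hb.ZM, hl.xA, hug, hX0, hXc0, hXc1, a1]

theorem r12c_j1i0_N_wP {th lam y z g X MB u1 u2 ux ua al v2 vb be : ℝ}
    (hb : MB0 th lam y z MB u1 u2 ux ua al v2 vb be) (hl : L2c th y MB u1 ua al vb be)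
    (hg1 : 1 ≤ g) (hug : ua ≤ g) (hX0 : 0 ≤ X) (hXc0 : X < ua)
    (tA : FT th (-g) X 0 (th + ua) al be) : False := by
  rcases tA with a1 | a1 | a1 | a1 | a1 | a1 | a1
  · linarith only [hb.ZM, hb.al0, hb.v2y, hb.be1, hl.xA, hug, hXc0, a1]
  · linarith only [hug, a1]
  · linarith only [hb.ZM, hb.al0, hb.v2y, hb.be1, hl.xA, hug, hX0, hXc0, a1]
  · linarith only [hb.ZM, hb.v2y, hb.be1, hl.xA, hg1, a1]
  · linarith only [hb.ZM, hb.al0, hl.xA, hg1, a1]
  · linarith only [hb.ZM, hl.xA, hug, hXc0, a1]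
  · linarith only [hb.ZM, hb.al0, hb.v2y, hb.be1, hl.xA, hug, hX0, hXc0, a1]

theorem r12c_j1i0_N_2 {th lam y z g X MB u1 u2 ux ua al v2 vb be : ℝ}
    (hb : MB0 th lam y z MB u1 u2 ux ua al v2 vb be) (hl : L2c th y MB u1 ua al vb be)
    (hg1 : 1 ≤ g) (hug : ua ≤ g) (hX : X ≤ 2) (tA : FT th (-g) X 0 (th + ua) al be) : False := by
  rcases tA with a1 | a1 | a1 | a1 | a1 | a1 | a1
  · linarith only [hb.ZM, hb.al0, hb.v2y, hb.be1, hl.xA, hg1, hX, a1]
  · linarith only [hug, a1]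
  · linarith only [hb.ZM, hb.al0, hb.v2y, hb.be1, hl.xua, hl.xA, hug, a1]
  · linarith only [hb.ZM, hb.v2y, hb.be1, hl.xA, hg1, a1]
  · linarith only [hb.ZM, hb.al0, hl.xA, hg1, a1]
  · linarith only [hb.ZM, hl.xA, hg1, hug, hX, a1]
  · linarith only [hb.ZM, hb.al0, hb.v2y, hb.be1, hl.xua, hl.xA, hug, hX, a1]

theorem r12c_j1i0_L_Y {th lam y z g nb Y sg D L X MB MA m11 m12 u1 u2 ux ua al v2 vb be sy ay cy : ℝ}
    (hb : MB0 th lam y z MB u1 u2 ux ua al v2 vb be) (hj : MJ th lam y z MB MA) (hi1 : vb = v2)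
    (hi2 : y = vb + be) (h110 : 0 ≤ m11) (h112 : m11 ≤ 2) (h122 : m12 ≤ 2)
    (hl : L2c th y MB u1 ua al vb be) (hs0 : 0 ≤ sg) (hY0 : 0 ≤ Y) (hg1 : 1 ≤ g) (hn1 : 1 ≤ nb)
    (hug : ua ≤ g) (hy : LY sy ay cy) (hyp1 : sy < ua) (hsL : sy ≤ L) (hD : nb + D + cy ≤ z)
    (hDL : nb + Y + sg + D + L + cy ≤ th + y + z) (hX0 : 0 ≤ X) (hXb : sy ≤ Y + X)
    (hX : Y = X + sy) (t11 : FT th (D + ay) (L - sy) m11 (vb - ua) (y - vb - be) al)
    (t12 : FT th (D + ay) (L - sy) m12 (v2 - u1) (v2 + be - y) (u1 - ua - al))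
    (tA : FT th (-g) X 0 (th + ua) al be)
    (tE : FT th (-g) X (MA - m11) (th + ua + vb - y) al (y - vb - be))
    (tO : FT th (-g) X 2 (th + ux + ua - u1) (u1 - ux - al) be) : False := by
  rcases t11 with a1 | a1 | a1 | a1 | a1 | a1 | a1
  · rcases tA with a2 | a2 | a2 | a2 | a2 | a2 | a2
    · linarith only [hb.l2, hb.zz, h112, hs0, hn1, hug, hy.a1, hy.c0, hy.say, hyp1, hDL, hX, a1, a2]
    · linarith only [hug, a2]
    · linarith only [hb.M0, hb.ZM, hb.uy, hb.u12, hb.ux2, hb.uax, hl.xua, hug, a2]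
    · linarith only [hb.ZM, hb.v2y, hb.be1, hl.xA, hg1, a2]
    · linarith only [hb.ZM, hb.al0, hl.xA, hg1, a2]
    · rcases t12 with a3 | a3 | a3 | a3 | a3 | a3 | a3
      · rcases tE with a4 | a4 | a4 | a4 | a4 | a4 | a4
        · linarith only [hb.l2, hj.zA, hs0, hg1, hn1, hy.a1, hy.c0, hy.say, hDL, hX, a1, a4]
        · rcases tO with a5 | a5 | a5 | a5 | a5 | a5 | a5
          · linarith only [hb.l2, hb.zz, h122, hs0, hn1, hug, hy.a1, hy.c0, hy.say, hyp1, hDL, hX, a3, a5]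
          · linarith only [hb.l2, hb.eU, hj.zA, hi2, hs0, hn1, hug, hy.a1, hy.c0, hy.say, hyp1, hDL, hX, a1, a2, a4, a5]
          · linarith only [hb.M0, hb.ZM, hb.uy, hb.u12, hb.ux2, hb.uax, hl.xua, hug, a5]
          · linarith only [hb.M0, hb.ZM, hb.uy, hb.al0, hb.uax, hl.xua, hug, a5]
          · linarith only [hb.ZM, hb.al0, hl.xA, hg1, a5]
          · linarith only [hb.l2, hj.zA, hi2, hs0, hn1, hug, hy.a1, hy.c0, hy.say, hyp1, hDL, hX, a1, a2, a4, a5]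
          · linarith only [hb.l2, hb.z0, hb.zz, hb.uax, hj.zA, hi2, hl.xpq, hs0, hn1, hug, hy.a1, hy.c0, hy.say, hyp1, hDL, hX, a1, a2, a4, a5]
        · linarith only [hb.l2, hb.z0, hb.zz, hj.zA, hb.v2y, hi1, h110, hl.xua, hl.xvb, hg1, a4]
        · linarith only [hb.ZM, hj.A2, hb.v2y, hi1, hi2, h110, hl.xA, hg1, a4]
        · linarith only [hb.l2, hb.z0, hj.zA, hb.v2y, hi1, hi2, h110, hl.xvb, hg1, a4]
        · rcases tO with a5 | a5 | a5 | a5 | a5 | a5 | a5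
          · linarith only [hb.l2, hb.zz, h122, hs0, hn1, hug, hy.a1, hy.c0, hy.say, hyp1, hDL, hX, a3, a5]
          · linarith only [hb.l2, hb.eU, hj.zA, hs0, hn1, hug, hy.a1, hy.c0, hy.say, hyp1, hDL, hX, a1, a2, a4, a5]
          · linarith only [hb.M0, hb.ZM, hb.uy, hb.u12, hb.ux2, hb.uax, hl.xua, hug, a5]
          · linarith only [hb.M0, hb.ZM, hb.uy, hb.al0, hb.uax, hl.xua, hug, a5]
          · linarith only [hb.ZM, hb.al0, hl.xA, hg1, a5]
          · linarith only [hb.l2, hj.zA, hs0, hg1, hn1, hug, hy.a1, hy.c0, hy.say, hDL, hX, a1, a4, a5]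
          · linarith only [hb.l2, hb.z0, hb.zz, hb.uax, hj.zA, hl.xpq, hs0, hn1, hug, hy.a1, hy.c0, hy.say, hyp1, hDL, hX, a1, a4, a5]
        · linarith only [hb.l2, hb.z0, hb.zz, hj.zMA, hi2, hl.xA, hs0, hn1, hug, hy.a1, hy.c0, hy.say, hyp1, hDL, hX0, hX, a1, a4]
      · linarith only [hb.l2, hb.zz, hb.uax, hb.eU, hi1, hi2, h112, h122, hs0, hn1, hug, hy.a1, hy.c0, hy.say, hyp1, hD, hDL, hX, a1, a2, a3]
      · linarith only [hb.l2, hb.z0, hb.zM, hb.u12, hb.al1, hi1, hi2, h122, hl.xpq, hl.xA, hn1, hy.ac, hD, a3]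
      · linarith only [hb.l2, hb.zM, hb.M0, hi1, hi2, h122, hl.xA, hs0, hn1, hug, hy.a1, hy.c0, hy.say, hyp1, hsL, hD, hDL, hXb, hX, a2, a3]
      · linarith only [hb.l2, hb.zz, hb.u12, hb.al1, h122, hl.xpq, hn1, hy.c0, hy.say, hyp1, hD, a3]
      · linarith only [hb.l2, hb.zz, hi1, hi2, h122, hs0, hg1, hn1, hy.c0, hy.say, hD, hDL, hX, a2, a3]
      · rcases tE with a4 | a4 | a4 | a4 | a4 | a4 | a4
        · linarith only [hb.l2, hj.zA, hs0, hg1, hn1, hy.a1, hy.c0, hy.say, hDL, hX, a1, a4]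
        · linarith only [hb.l2, hj.zA, hi2, h110, h122, hl.xpq, hs0, hn1, hug, hy.a1, hy.c0, hy.say, hyp1, hD, hDL, hX, a2, a3, a4]
        · linarith only [hb.l2, hb.z0, hb.zz, hj.zA, hb.v2y, hi1, h110, hl.xua, hl.xvb, hg1, a4]
        · linarith only [hb.ZM, hj.A2, hb.v2y, hi1, hi2, h110, hl.xA, hg1, a4]
        · linarith only [hb.l2, hb.z0, hj.zA, hb.v2y, hi1, hi2, h110, hl.xvb, hg1, a4]
        · linarith only [hb.l2, hj.zA, h110, h122, hl.xpq, hs0, hn1, hug, hy.a1, hy.c0, hy.say, hyp1, hD, hDL, hX, a3, a4]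
        · linarith only [hb.l2, hb.z0, hb.zz, hj.zA, h110, h122, hl.xvb, hl.xpq, hs0, hn1, hug, hy.a1, hy.c0, hy.say, hyp1, hD, hDL, hX, a3, a4]
    · linarith only [hb.l2, hb.z0, hb.zM, hb.M0, h112, hl.xA, hs0, hn1, hug, hy.a1, hy.c0, hy.say, hyp1, hDL, hX0, hX, a1, a2]
  · linarith only [hb.l2, hb.zz, hb.v2y, hb.vb2, h112, hn1, hy.c0, hy.say, hyp1, hD, a1]
  · linarith only [hb.l2, hb.zM, hb.ZM, hb.uy, hb.al0, hb.u12, hb.ux2, hb.uax, hi2, h112, hl.xA, hn1, hy.ac, hD, a1]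
  · linarith only [hb.l2, hb.zz, hb.uy, hb.u12, hb.ux2, hb.uax, hi2, h112, hn1, hy.c0, hy.say, hyp1, hD, a1]
  · linarith only [hb.l2, hb.z0, hb.zM, hb.v2y, hb.be1, h112, hl.xA, hn1, hy.ac, hD, a1]
  · rcases tA with a2 | a2 | a2 | a2 | a2 | a2 | a2
    · rcases t12 with a3 | a3 | a3 | a3 | a3 | a3 | a3
      · linarith only [hb.l2, hb.zz, h122, hs0, hn1, hug, hy.a1, hy.c0, hy.say, hyp1, hDL, hX, a2, a3]
      · linarith only [hb.l2, hb.zz, hb.u12, hb.ux2, hb.uax, hb.v2y, h122, hl.xua, hn1, hy.ac, hD, a3]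
      · linarith only [hb.l2, hb.zM, hb.M0, hi1, hi2, h112, h122, hl.xpq, hl.xA, hs0, hY0, hn1, hy.ac, hy.c0, hy.say, hyp1, hD, hDL, a1, a3]
      · linarith only [hb.l2, hb.zz, hi1, hi2, h122, hs0, hn1, hug, hy.a1, hy.c0, hy.say, hyp1, hsL, hDL, hX, a2, a3]
      · linarith only [hb.l2, hb.zz, hb.u12, hb.al1, h122, hl.xpq, hn1, hy.c0, hy.say, hyp1, hD, a3]
      · linarith only [hb.l2, hb.zz, hb.v2y, h112, h122, hs0, hn1, hug, hy.a1, hy.c0, hy.say, hyp1, hD, hDL, hX, a1, a2, a3]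
      · linarith only [hb.l2, hb.zz, h112, h122, hl.xua, hl.xpq, hs0, hg1, hn1, hy.c0, hy.say, hD, hDL, hX, a1, a2, a3]
    · linarith only [hug, a2]
    · linarith only [hb.M0, hb.ZM, hb.uy, hb.u12, hb.ux2, hb.uax, hl.xua, hug, a2]
    · linarith only [hb.ZM, hb.v2y, hb.be1, hl.xA, hg1, a2]
    · linarith only [hb.ZM, hb.al0, hl.xA, hg1, a2]
    · rcases tO with a3 | a3 | a3 | a3 | a3 | a3 | a3
      · rcases t12 with a4 | a4 | a4 | a4 | a4 | a4 | a4
        · linarith only [hb.l2, hb.zz, h122, hs0, hn1, hug, hy.a1, hy.c0, hy.say, hyp1, hDL, hX, a3, a4]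
        · linarith only [hb.l2, hb.zz, hb.u12, hb.ux2, hb.uax, hb.v2y, h122, hl.xua, hn1, hy.ac, hD, a4]
        · linarith only [hb.l2, hb.zM, hb.M0, hi1, hi2, h112, h122, hl.xpq, hl.xA, hs0, hY0, hn1, hy.ac, hy.c0, hy.say, hyp1, hD, hDL, a1, a4]
        · linarith only [hb.l2, hb.zz, hi1, hi2, h122, hs0, hn1, hug, hy.a1, hy.c0, hy.say, hyp1, hsL, hDL, hX, a3, a4]
        · linarith only [hb.l2, hb.zz, hb.u12, hb.al1, h122, hl.xpq, hn1, hy.c0, hy.say, hyp1, hD, a4]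
        · linarith only [hb.l2, hb.zz, hi1, hi2, h122, hs0, hg1, hn1, hy.c0, hy.say, hD, hDL, hX, a2, a4]
        · linarith only [hb.l2, hb.zz, h112, h122, hl.xua, hl.xpq, hs0, hg1, hn1, hy.c0, hy.say, hD, hDL, hX, a1, a3, a4]
      · linarith only [hb.l2, hb.zz, hb.eU, h112, hs0, hn1, hug, hy.a1, hy.c0, hy.say, hyp1, hD, hDL, hX, a1, a2, a3]
      · linarith only [hb.M0, hb.ZM, hb.uy, hb.u12, hb.ux2, hb.uax, hug, hy.a1, hy.say, hyp1, a3]
      · linarith only [hb.M0, hb.ZM, hb.uy, hb.al0, hb.uax, hug, hy.a1, hy.say, hyp1, a3]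
      · linarith only [hb.ZM, hb.al0, hl.xA, hg1, a3]
      · linarith only [hb.l2, hb.zz, h112, hs0, hg1, hn1, hy.c0, hy.say, hD, hDL, hX, a1, a3]
      · linarith only [hb.l2, hb.z0, hb.zz, hb.uax, h112, hl.xpq, hs0, hn1, hug, hy.a1, hy.c0, hy.say, hyp1, hD, hDL, hX, a1, a3]
    · linarith only [hb.l2, hb.z0, hb.zM, hb.M0, hb.v2y, hb.be1, h112, hl.xA, hs0, hn1, hug, hy.a1, hy.c0, hy.say, hyp1, hD, hDL, hX, a1, a2]
  · rcases tA with a2 | a2 | a2 | a2 | a2 | a2 | a2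
    · linarith only [hb.l2, hb.z0, hb.zM, hb.M0, hi2, h112, hl.xA, hs0, hn1, hug, hy.a1, hy.c0, hy.say, hyp1, hsL, hDL, hX, a1, a2]
    · linarith only [hug, a2]
    · linarith only [hb.M0, hb.ZM, hb.uy, hb.u12, hb.ux2, hb.uax, hl.xua, hug, a2]
    · linarith only [hb.ZM, hb.v2y, hb.be1, hl.xA, hg1, a2]
    · linarith only [hb.ZM, hb.al0, hl.xA, hg1, a2]
    · linarith only [hb.l2, hb.z0, hb.zM, hi2, h112, hl.xA, hs0, hn1, hug, hy.c0, hy.say, hD, hDL, hX, a1, a2]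
    · linarith only [hb.l2, hb.z0, hb.zM, hb.M0, hi2, h112, hl.xA, hs0, hY0, hn1, hug, hy.c0, hy.say, hyp1, hsL, hD, hDL, hX, a1, a2]

theorem r12c_j1i0_L_S {th lam y z g Y X MB u1 u2 ux ua al v2 vb be sy : ℝ}
    (hb : MB0 th lam y z MB u1 u2 ux ua al v2 vb be) (hl : L2c th y MB u1 ua al vb be)
    (hY0 : 0 ≤ Y) (hg1 : 1 ≤ g) (hug : ua ≤ g) (hyp1 : sy < ua) (hXa : Y ≤ X + sy)
    (hX : sy = Y + X) (tA : FT th (-g) X 0 (th + ua) al be) : False := by
  rcases tA with a1 | a1 | a1 | a1 | a1 | a1 | a1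
  · linarith only [hb.M0, hb.ZM, hb.uy, hb.u12, hb.ux2, hb.uax, hY0, hg1, hyp1, hX, a1]
  · linarith only [hug, a1]
  · linarith only [hb.M0, hb.ZM, hb.uy, hb.u12, hb.ux2, hb.uax, hl.xua, hug, a1]
  · linarith only [hb.ZM, hb.v2y, hb.be1, hl.xA, hg1, a1]
  · linarith only [hb.ZM, hb.al0, hl.xA, hg1, a1]
  · linarith only [hb.ZM, hl.xA, hY0, hug, hyp1, hX, a1]
  · linarith only [hb.M0, hb.ZM, hb.u12, hb.ux2, hb.uax, hl.xpq, hl.xA, hY0, hg1, hyp1, hXa, hX, a1]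

theorem r12c_j1i0_L_wQ {th lam y z g Y X MB u1 u2 ux ua al v2 vb be sy : ℝ}
    (hb : MB0 th lam y z MB u1 u2 ux ua al v2 vb be) (hl : L2c th y MB u1 ua al vb be)
    (hg1 : 1 ≤ g) (hug : ua ≤ g) (hXa : Y ≤ X + sy) (hXb : sy ≤ Y + X) (hXc0 : X < ua + 2)
    (hXc1 : X + 2 ≤ th) (tA : FT th (-g) X 0 (th + ua) al be) : False := by
  rcases tA with a1 | a1 | a1 | a1 | a1 | a1 | a1
  · linarith only [hg1, hXc1, a1]
  · linarith only [hug, a1]
  · linarith only [hug, hXa, hXb, hXc0, hXc1, a1]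
  · linarith only [hb.ZM, hb.v2y, hb.be1, hl.xA, hg1, a1]
  · linarith only [hb.ZM, hb.al0, hl.xA, hg1, a1]
  · linarith only [hb.ZM, hl.xA, hug, hXc0, a1]
  · linarith only [hb.M0, hb.ZM, hb.u12, hb.ux2, hb.uax, hl.xua, hl.xpq, hl.xA, hug, hXc1, a1]

theorem r12c_j1i0_L_wP {th lam y z g X MB u1 u2 ux ua al v2 vb be : ℝ}
    (hb : MB0 th lam y z MB u1 u2 ux ua al v2 vb be) (hl : L2c th y MB u1 ua al vb be)
    (hg1 : 1 ≤ g) (hug : ua ≤ g) (hXc0 : X < ua) (tA : FT th (-g) X 0 (th + ua) al be) : False := by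
  rcases tA with a1 | a1 | a1 | a1 | a1 | a1 | a1
  · linarith only [hb.M0, hb.ZM, hb.uy, hb.u12, hb.ux2, hb.uax, hg1, hXc0, a1]
  · linarith only [hug, a1]
  · linarith only [hb.M0, hb.ZM, hb.uy, hb.u12, hb.ux2, hb.uax, hl.xua, hug, a1]
  · linarith only [hb.ZM, hb.v2y, hb.be1, hl.xA, hg1, a1]
  · linarith only [hb.ZM, hb.al0, hl.xA, hg1, a1]
  · linarith only [hb.ZM, hl.xA, hug, hXc0, a1]
  · linarith only [hb.M0, hb.ZM, hb.u12, hb.ux2, hb.uax, hl.xua, hl.xpq, hl.xA, hug, hXc0, a1]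

theorem r12c_j1i0_L_2 {th lam y z g Y X MB u1 u2 ux ua al v2 vb be sy ay cy : ℝ}
    (hb : MB0 th lam y z MB u1 u2 ux ua al v2 vb be) (hl : L2c th y MB u1 ua al vb be)
    (hY0 : 0 ≤ Y) (hg1 : 1 ≤ g) (hug : ua ≤ g) (hy : LY sy ay cy) (hyp1 : sy < ua)
    (hXa : Y ≤ X + sy) (hX : X ≤ 2) (tA : FT th (-g) X 0 (th + ua) al be) : False := by
  rcases tA with a1 | a1 | a1 | a1 | a1 | a1 | a1
  · linarith only [hb.M0, hb.ZM, hb.uy, hb.u12, hb.ux2, hb.uax, hug, hy.a1, hy.say, hyp1, hX, a1]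
  · linarith only [hug, a1]
  · linarith only [hb.M0, hb.ZM, hb.uy, hb.u12, hb.ux2, hb.uax, hl.xua, hug, a1]
  · linarith only [hb.ZM, hb.v2y, hb.be1, hl.xA, hg1, a1]
  · linarith only [hb.ZM, hb.al0, hl.xA, hg1, a1]
  · linarith only [hb.ZM, hl.xA, hg1, hug, hX, a1]
  · linarith only [hb.M0, hb.ZM, hb.u12, hb.ux2, hb.uax, hl.xpq, hl.xA, hY0, hg1, hyp1, hXa, hX, a1]

theorem r12c_j1i1_N_Y {th lam y z g nb Y sg D L X MB MA m11 m12 u1 u2 ux ua al v2 vb be : ℝ}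
    (hb : MB0 th lam y z MB u1 u2 ux ua al v2 vb be) (hj : MJ th lam y z MB MA) (h110 : 0 ≤ m11)
    (h112 : m11 ≤ 2) (h122 : m12 ≤ 2) (hl : L2c th y MB u1 ua al vb be) (hs0 : 0 ≤ sg)
    (hY0 : 0 ≤ Y) (hg1 : 1 ≤ g) (hn1 : 1 ≤ nb) (hug : ua ≤ g) (hl3 : 3 ≤ lam) (hD : nb + D ≤ z)
    (hDL : nb + Y + sg + D + L ≤ th + y + z) (hX0 : 0 ≤ X) (hX : Y = X)
    (t11 : FT th D L m11 (vb - ua) (y - vb - be) al)
    (t12 : FT th D L m12 (v2 - u1) (v2 + be - y) (u1 - ua - al))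
    (tA : FT th (-g) X 0 (th + ua) al be)
    (tE : FT th (-g) X (MA - m11) (th + ua + vb - y) al (y - vb - be))
    (tO : FT th (-g) X 2 (th + ux + ua - u1) (u1 - ux - al) be) : False := by
  rcases t11 with a1 | a1 | a1 | a1 | a1 | a1 | a1
  · rcases tA with a2 | a2 | a2 | a2 | a2 | a2 | a2
    · linarith only [hj.A0, hj.zA, h112, hs0, hg1, hn1, hl3, hDL, hX, a1, a2]
    · linarith only [hug, a2]
    · linarith only [hj.A0, hj.zA, h112, hl.xua, hs0, hn1, hug, hl3, hDL, hX0, hX, a1, a2]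
    · linarith only [hb.ZM, hb.v2y, hb.be1, hl.xA, hg1, a2]
    · linarith only [hb.ZM, hb.al0, hl.xA, hg1, a2]
    · rcases t12 with a3 | a3 | a3 | a3 | a3 | a3 | a3
      · rcases tE with a4 | a4 | a4 | a4 | a4 | a4 | a4
        · linarith only [hj.zA, hs0, hg1, hn1, hl3, hDL, hX, a1, a4]
        · rcases tO with a5 | a5 | a5 | a5 | a5 | a5 | a5
          · linarith only [hj.A0, hj.zA, h122, hs0, hg1, hn1, hl3, hDL, hX, a3, a5]
          · linarith only [hb.eU, hj.zA, hb.eZ, hs0, hg1, hn1, hug, hl3, hDL, hX, a1, a2, a4, a5]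
          · linarith only [hb.M0, hb.ZM, hb.uy, hb.u12, hb.ux2, hb.uax, hl.xua, hug, a5]
          · linarith only [hb.M0, hb.ZM, hb.uy, hb.al0, hb.uax, hl.xua, hug, a5]
          · linarith only [hj.zA, hb.eZ, hs0, hY0, hg1, hn1, hug, hl3, hDL, a1, a4, a5]
          · linarith only [hj.zA, hb.eZ, hs0, hg1, hn1, hug, hl3, hDL, hX, a1, a2, a4, a5]
          · linarith only [hb.M0, hb.ZM, hb.uy, hb.uax, hj.zMA, hb.eZ, hs0, hg1, hn1, hl3, hDL, hX, a1, a2, a4, a5]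
        · linarith only [hb.l2, hb.z0, hb.zz, hj.zA, hb.v2y, hb.vb2, h110, hl.xua, hl.xvb, hg1, a4]
        · linarith only [hb.ZM, hj.A2, hb.v2y, hb.be1, h110, hl.xA, hg1, a4]
        · linarith only [hb.l2, hb.z0, hj.zA, hb.v2y, hb.be1, h110, hl.xvb, hg1, a4]
        · rcases tO with a5 | a5 | a5 | a5 | a5 | a5 | a5
          · linarith only [hj.A0, hj.zA, h122, hs0, hg1, hn1, hl3, hDL, hX, a3, a5]
          · linarith only [hb.eU, hj.zA, hs0, hg1, hn1, hug, hl3, hDL, hX, a1, a2, a4, a5]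
          · linarith only [hb.M0, hb.ZM, hb.uy, hb.u12, hb.ux2, hb.uax, hl.xua, hug, a5]
          · linarith only [hb.M0, hb.ZM, hb.uy, hb.al0, hb.uax, hl.xua, hug, a5]
          · linarith only [hb.ZM, hb.al0, hl.xA, hg1, a5]
          · linarith only [hj.zA, hs0, hg1, hn1, hug, hl3, hDL, hX, a1, a4, a5]
          · linarith only [hb.M0, hb.ZM, hb.uy, hb.uax, hj.zMA, hl.xua, hs0, hn1, hug, hl3, hDL, hX, a1, a4, a5]
        · rcases tO with a5 | a5 | a5 | a5 | a5 | a5 | a5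
          · linarith only [hj.A0, hj.zA, h122, hs0, hg1, hn1, hl3, hDL, hX, a3, a5]
          · linarith only [hb.z0, hb.eU, hj.A0, hj.zA, hl.xvb, hs0, hg1, hn1, hug, hl3, hDL, hX, a1, a2, a4, a5]
          · linarith only [hb.M0, hb.ZM, hb.uy, hb.u12, hb.ux2, hb.uax, hl.xua, hug, a5]
          · linarith only [hb.M0, hb.ZM, hb.uy, hb.al0, hb.uax, hl.xua, hug, a5]
          · linarith only [hb.ZM, hb.al0, hl.xA, hg1, a5]
          · linarith only [hb.z0, hb.zz, hj.zA, hl.xvb, hs0, hg1, hn1, hl3, hDL, hX, a1, a4, a5]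
          · linarith only [hb.M0, hb.ZM, hb.uax, hj.zMA, hl.xua, hl.xvb, hl.xpq, hs0, hn1, hug, hl3, hDL, hX, a1, a4, a5]
      · linarith only [hb.u12, hb.uax, hb.al1, hb.eU, hj.A0, hj.zA, hb.v2y, h122, hl.xua, hn1, hl3, hD, a3]
      · linarith only [hj.A0, hj.zA, hb.vb2, h122, hl.xvb, hl.xpq, hn1, hl3, hD, a3]
      · linarith only [hb.ZM, hb.u12, hb.al1, hj.A0, hj.zMA, hb.v2y, h122, hl.xA, hn1, hl3, hD, a3]
      · linarith only [hb.zz, hb.al0, h122, hl.xua, hl.xpq, hn1, hl3, hD, a3]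
      · rcases tE with a4 | a4 | a4 | a4 | a4 | a4 | a4
        · linarith only [hj.zA, hs0, hg1, hn1, hl3, hDL, hX, a1, a4]
        · linarith only [hj.zA, hb.v2y, hb.eZ, h110, h122, hs0, hg1, hn1, hug, hl3, hD, hDL, hX, a2, a3, a4]
        · linarith only [hb.l2, hb.z0, hb.zz, hj.zA, hb.v2y, hb.vb2, h110, hl.xua, hl.xvb, hg1, a4]
        · linarith only [hb.ZM, hj.A2, hb.v2y, hb.be1, h110, hl.xA, hg1, a4]
        · linarith only [hb.l2, hb.z0, hj.zA, hb.v2y, hb.be1, h110, hl.xvb, hg1, a4]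
        · linarith only [hj.zA, hb.v2y, h110, h122, hs0, hg1, hn1, hl3, hD, hDL, hX, a3, a4]
        · linarith only [hb.l2, hb.z0, hb.zz, hj.zA, hb.v2y, h110, h122, hl.xua, hl.xvb, hs0, hg1, hn1, hD, hDL, hX, a3, a4]
      · rcases tE with a4 | a4 | a4 | a4 | a4 | a4 | a4
        · linarith only [hj.zA, hs0, hg1, hn1, hl3, hDL, hX, a1, a4]
        · linarith only [hj.zA, hb.eZ, h110, h122, hl.xpq, hs0, hg1, hn1, hug, hl3, hD, hDL, hX, a2, a3, a4]
        · linarith only [hb.l2, hb.z0, hb.zz, hj.zA, hb.v2y, hb.vb2, h110, hl.xua, hl.xvb, hg1, a4]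
        · linarith only [hb.ZM, hj.A2, hb.v2y, hb.be1, h110, hl.xA, hg1, a4]
        · linarith only [hb.l2, hb.z0, hj.zA, hb.v2y, hb.be1, h110, hl.xvb, hg1, a4]
        · linarith only [hj.zA, h110, h122, hl.xpq, hs0, hg1, hn1, hl3, hD, hDL, hX, a3, a4]
        · linarith only [hb.l2, hb.z0, hb.zz, hj.zA, h110, h122, hl.xua, hl.xvb, hl.xpq, hs0, hg1, hn1, hD, hDL, hX, a3, a4]
    · linarith only [hb.l2, hb.z0, hb.zz, hb.zM, h112, hl.xua, hl.xA, hs0, hg1, hn1, hDL, hX0, hX, a1, a2]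
  · linarith only [hj.A0, hj.zA, hb.v2y, hb.vb2, h112, hl.xua, hn1, hl3, hD, a1]
  · linarith only [hb.u12, hb.uax, hb.al1, hb.eU, hj.A0, hj.zA, h112, hl.xvb, hl.xpq, hn1, hl3, hD, a1]
  · linarith only [hb.zz, hb.v2y, hb.be1, h112, hl.xvb, hn1, hl3, hD, a1]
  · linarith only [hb.uax, hb.eU, hj.A0, hj.zA, h112, hl.xua, hl.xpq, hn1, hl3, hD, a1]
  · rcases tA with a2 | a2 | a2 | a2 | a2 | a2 | a2
    · rcases t12 with a3 | a3 | a3 | a3 | a3 | a3 | a3
      · linarith only [hj.A0, hj.zA, h122, hl.xua, hs0, hn1, hug, hl3, hDL, hX, a2, a3]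
      · linarith only [hb.uax, hb.eU, hj.A0, hj.zA, hb.v2y, hb.be1, h112, h122, hl.xua, hs0, hn1, hug, hl3, hD, hDL, hX, a1, a2, a3]
      · linarith only [hj.A0, hj.zA, hb.vb2, h122, hl.xvb, hl.xpq, hn1, hl3, hD, a3]
      · linarith only [hj.A0, hj.zA, hj.zMA, hb.v2y, h112, h122, hl.xua, hl.xA, hs0, hn1, hl3, hD, hDL, hX0, hX, a1, a3]
      · linarith only [hj.A0, hj.zA, hb.v2y, hb.be1, h112, h122, hl.xua, hl.xpq, hs0, hn1, hug, hl3, hD, hDL, hX, a1, a2, a3]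
      · linarith only [hj.A0, hj.zA, hb.v2y, h112, h122, hl.xua, hs0, hn1, hug, hl3, hD, hDL, hX, a1, a2, a3]
      · linarith only [hj.A0, hj.zA, h112, h122, hl.xua, hl.xpq, hs0, hn1, hug, hl3, hD, hDL, hX, a1, a2, a3]
    · linarith only [hug, a2]
    · linarith only [hb.ZM, hb.al0, hb.v2y, hb.be1, hl.xua, hl.xA, hg1, a2]
    · linarith only [hb.ZM, hb.v2y, hb.be1, hl.xA, hg1, a2]
    · linarith only [hb.ZM, hb.al0, hl.xA, hg1, a2]
    · rcases tO with a3 | a3 | a3 | a3 | a3 | a3 | a3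
      · rcases t12 with a4 | a4 | a4 | a4 | a4 | a4 | a4
        · linarith only [hj.A0, hj.zA, h122, hs0, hg1, hn1, hl3, hDL, hX, a3, a4]
        · linarith only [hb.uax, hb.eU, hj.A0, hj.zA, hb.v2y, h112, h122, hl.xua, hs0, hn1, hug, hl3, hD, hDL, hX, a1, a2, a4]
        · linarith only [hj.A0, hj.zA, hb.vb2, h122, hl.xvb, hl.xpq, hn1, hl3, hD, a4]
        · linarith only [hj.A0, hj.zA, hj.zMA, hb.v2y, h112, h122, hl.xua, hl.xA, hs0, hn1, hl3, hD, hDL, hX0, hX, a1, a4]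
        · linarith only [hj.A0, hj.zA, h112, h122, hl.xua, hl.xpq, hs0, hn1, hug, hl3, hD, hDL, hX, a1, a2, a4]
        · linarith only [hj.A0, hj.zA, hb.v2y, h112, h122, hl.xua, hs0, hn1, hug, hl3, hD, hDL, hX, a1, a3, a4]
        · linarith only [hj.A0, hj.zA, h112, h122, hl.xua, hl.xpq, hs0, hn1, hug, hl3, hD, hDL, hX, a1, a3, a4]
      · linarith only [hb.eU, hj.A0, hj.zA, h112, hs0, hg1, hn1, hug, hl3, hD, hDL, hX, a1, a2, a3]
      · linarith only [hb.l2, hb.z0, hb.uax, hj.A0, hj.zA, hb.v2y, hb.vb2, hl.xua, hl.xvb, hl.xpq, hg1, a3]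
      · linarith only [hb.M0, hb.ZM, hb.uy, hb.al0, hb.uax, hl.xua, hg1, a3]
      · linarith only [hb.ZM, hb.al0, hl.xA, hg1, a3]
      · linarith only [hj.A0, hj.zA, h112, hs0, hg1, hn1, hl3, hD, hDL, hX, a1, a3]
      · linarith only [hb.l2, hb.z0, hb.zz, hb.uax, h112, hl.xua, hl.xpq, hs0, hg1, hn1, hD, hDL, hX, a1, a3]
    · linarith only [hb.ZM, hj.A0, hj.zA, hb.v2y, hb.be1, h112, hl.xua, hl.xA, hs0, hn1, hug, hl3, hD, hDL, hX, a1, a2]
  · rcases tA with a2 | a2 | a2 | a2 | a2 | a2 | a2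
    · rcases t12 with a3 | a3 | a3 | a3 | a3 | a3 | a3
      · linarith only [hj.A0, hj.zA, h122, hl.xua, hs0, hn1, hug, hl3, hDL, hX, a2, a3]
      · linarith only [hb.uax, hb.eU, hj.A0, hj.zA, hb.v2y, hb.be1, h112, h122, hl.xvb, hs0, hg1, hn1, hl3, hD, hDL, hX, a1, a2, a3]
      · linarith only [hj.A0, hj.zA, hb.vb2, h122, hl.xvb, hl.xpq, hn1, hl3, hD, a3]
      · linarith only [hb.uax, hb.eU, hj.A0, hj.zA, hb.v2y, h112, h122, hl.xua, hl.xvb, hl.xpq, hs0, hn1, hug, hl3, hD, hDL, hX, a1, a2, a3]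
      · linarith only [hj.A0, hj.zA, hb.v2y, hb.be1, h112, h122, hl.xua, hl.xvb, hl.xpq, hs0, hn1, hug, hl3, hD, hDL, hX, a1, a2, a3]
      · linarith only [hj.A0, hj.zA, hb.v2y, h112, h122, hl.xua, hl.xvb, hs0, hn1, hug, hl3, hD, hDL, hX, a1, a2, a3]
      · linarith only [hj.A0, hj.zA, h112, h122, hl.xua, hl.xvb, hl.xpq, hs0, hn1, hug, hl3, hD, hDL, hX, a1, a2, a3]
    · linarith only [hug, a2]
    · linarith only [hb.ZM, hb.al0, hb.v2y, hb.be1, hl.xua, hl.xA, hg1, a2]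
    · linarith only [hb.ZM, hb.v2y, hb.be1, hl.xA, hg1, a2]
    · linarith only [hb.ZM, hb.al0, hl.xA, hg1, a2]
    · rcases t12 with a3 | a3 | a3 | a3 | a3 | a3 | a3
      · rcases tE with a4 | a4 | a4 | a4 | a4 | a4 | a4
        · linarith only [hj.zA, h110, h122, hs0, hg1, hn1, hl3, hDL, hX, a3, a4]
        · linarith only [hb.uax, hb.eU, hj.zA, hl.xpq, hs0, hg1, hn1, hug, hl3, hD, hDL, hX, a1, a2, a4]
        · linarith only [hb.l2, hb.z0, hb.zz, hj.zA, hb.v2y, hb.vb2, h110, hl.xua, hl.xvb, hg1, a4]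
        · linarith only [hb.ZM, hj.A2, hb.v2y, hb.be1, h110, hl.xA, hg1, a4]
        · linarith only [hb.l2, hb.z0, hj.zA, hb.v2y, hb.be1, h110, hl.xvb, hg1, a4]
        · rcases tO with a5 | a5 | a5 | a5 | a5 | a5 | a5
          · linarith only [hj.A0, hj.zA, h122, hs0, hg1, hn1, hl3, hDL, hX, a3, a5]
          · linarith only [hb.eU, hj.zA, h110, h122, hs0, hg1, hn1, hug, hl3, hDL, hX, a2, a3, a4, a5]
          · linarith only [hb.M0, hb.ZM, hb.uy, hb.u12, hb.ux2, hb.uax, hl.xua, hug, a5]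
          · linarith only [hb.M0, hb.ZM, hb.uy, hb.al0, hb.uax, hl.xua, hug, a5]
          · linarith only [hb.ZM, hb.al0, hl.xA, hg1, a5]
          · linarith only [hj.zA, h110, h122, hs0, hg1, hn1, hug, hl3, hDL, hX, a3, a4, a5]
          · linarith only [hb.zM, hb.M0, hb.ZM, hb.uax, h112, hl.xua, hl.xvb, hl.xpq, hs0, hn1, hug, hl3, hD, hDL, hX, a1, a5]
        · rcases tO with a5 | a5 | a5 | a5 | a5 | a5 | a5
          · linarith only [hj.A0, hj.zA, h122, hs0, hg1, hn1, hl3, hDL, hX, a3, a5]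
          · linarith only [hb.z0, hb.eU, hj.A0, hj.zA, h122, hl.xvb, hs0, hg1, hn1, hug, hl3, hD, hDL, hX, a1, a2, a3, a4, a5]
          · linarith only [hb.M0, hb.ZM, hb.uy, hb.u12, hb.ux2, hb.uax, hl.xua, hug, a5]
          · linarith only [hb.M0, hb.ZM, hb.uy, hb.al0, hb.uax, hl.xua, hug, a5]
          · linarith only [hb.ZM, hb.al0, hl.xA, hg1, a5]
          · linarith only [hb.z0, hb.zz, hj.zA, h122, hl.xvb, hs0, hg1, hn1, hug, hl3, hD, hDL, hX, a1, a3, a4, a5]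
          · linarith only [hb.zM, hb.M0, hb.ZM, hb.uax, h112, hl.xua, hl.xvb, hl.xpq, hs0, hn1, hug, hl3, hD, hDL, hX, a1, a5]
      · linarith only [hb.uax, hb.eU, hj.A0, hj.zA, hb.v2y, h112, h122, hl.xua, hl.xvb, hs0, hn1, hug, hl3, hD, hDL, hX, a1, a2, a3]
      · linarith only [hj.A0, hj.zA, hb.vb2, h122, hl.xvb, hl.xpq, hn1, hl3, hD, a3]
      · linarith only [hb.ZM, hb.u12, hb.al1, hj.A0, hj.zMA, hb.v2y, h122, hl.xA, hn1, hl3, hD, a3]
      · linarith only [hj.A0, hj.zA, h112, h122, hl.xua, hl.xvb, hl.xpq, hs0, hn1, hug, hl3, hD, hDL, hX, a1, a2, a3]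
      · rcases tE with a4 | a4 | a4 | a4 | a4 | a4 | a4
        · linarith only [hj.A0, hj.zA, hb.v2y, h122, hl.xua, hl.xvb, hs0, hn1, hug, hl3, hD, hDL, hX, a1, a3, a4]
        · linarith only [hj.zA, hb.v2y, hb.eZ, h110, h122, hs0, hg1, hn1, hug, hl3, hD, hDL, hX, a2, a3, a4]
        · linarith only [hb.l2, hb.z0, hb.zz, hj.zA, hb.v2y, hb.vb2, h110, hl.xua, hl.xvb, hg1, a4]
        · linarith only [hb.ZM, hj.A2, hb.v2y, hb.be1, h110, hl.xA, hg1, a4]
        · linarith only [hb.l2, hb.z0, hj.zA, hb.v2y, hb.be1, h110, hl.xvb, hg1, a4]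
        · linarith only [hj.zA, hb.v2y, h110, h122, hs0, hg1, hn1, hl3, hD, hDL, hX, a3, a4]
        · linarith only [hb.l2, hb.z0, hb.zz, hj.zA, hb.v2y, h110, h122, hl.xua, hl.xvb, hs0, hg1, hn1, hD, hDL, hX, a3, a4]
      · rcases tE with a4 | a4 | a4 | a4 | a4 | a4 | a4
        · linarith only [hj.A0, hj.zA, h122, hl.xua, hl.xvb, hl.xpq, hs0, hn1, hug, hl3, hD, hDL, hX, a1, a3, a4]
        · linarith only [hj.zA, hb.eZ, h110, h122, hl.xpq, hs0, hg1, hn1, hug, hl3, hD, hDL, hX, a2, a3, a4]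
        · linarith only [hb.l2, hb.z0, hb.zz, hj.zA, hb.v2y, hb.vb2, h110, hl.xua, hl.xvb, hg1, a4]
        · linarith only [hb.ZM, hj.A2, hb.v2y, hb.be1, h110, hl.xA, hg1, a4]
        · linarith only [hb.l2, hb.z0, hj.zA, hb.v2y, hb.be1, h110, hl.xvb, hg1, a4]
        · linarith only [hj.zA, h110, h122, hl.xpq, hs0, hg1, hn1, hl3, hD, hDL, hX, a3, a4]
        · linarith only [hb.l2, hb.z0, hb.zz, hj.zA, h110, h122, hl.xua, hl.xvb, hl.xpq, hs0, hg1, hn1, hD, hDL, hX, a3, a4]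
    · linarith only [hb.ZM, hj.A0, hj.zA, hb.v2y, hb.be1, h112, hl.xvb, hl.xA, hs0, hg1, hn1, hl3, hD, hDL, hX, a1, a2]

theorem r12c_j1i1_N_wQ {th lam y z g X MB u1 u2 ux ua al v2 vb be : ℝ}
    (hb : MB0 th lam y z MB u1 u2 ux ua al v2 vb be) (hl : L2c th y MB u1 ua al vb be)
    (hg1 : 1 ≤ g) (hug : ua ≤ g) (hX0 : 0 ≤ X) (hXc0 : X < ua + 2) (hXc1 : X + 2 ≤ th)
    (tA : FT th (-g) X 0 (th + ua) al be) : False := by
  rcases tA with a1 | a1 | a1 | a1 | a1 | a1 | a1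
  · linarith only [hug, hX0, hXc0, hXc1, a1]
  · linarith only [hug, a1]
  · linarith only [hug, hX0, hXc0, hXc1, a1]
  · linarith only [hb.ZM, hb.v2y, hb.be1, hl.xA, hg1, a1]
  · linarith only [hb.ZM, hb.al0, hl.xA, hg1, a1]
  · linarith only [hb.ZM, hl.xA, hug, hXc0, a1]
  · linarith only [hb.ZM, hl.xA, hug, hX0, hXc0, hXc1, a1]

theorem r12c_j1i1_N_wP {th lam y z g X MB u1 u2 ux ua al v2 vb be : ℝ}
    (hb : MB0 th lam y z MB u1 u2 ux ua al v2 vb be) (hl : L2c th y MB u1 ua al vb be)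
    (hg1 : 1 ≤ g) (hug : ua ≤ g) (hX0 : 0 ≤ X) (hXc0 : X < ua)
    (tA : FT th (-g) X 0 (th + ua) al be) : False := by
  rcases tA with a1 | a1 | a1 | a1 | a1 | a1 | a1
  · linarith only [hb.M0, hb.ZM, hb.uy, hb.u12, hb.ux2, hb.uax, hug, hX0, hXc0, a1]
  · linarith only [hug, a1]
  · linarith only [hb.M0, hb.ZM, hb.uy, hb.u12, hb.ux2, hb.uax, hug, hX0, hXc0, a1]
  · linarith only [hb.M0, hb.ZM, hb.uy, hb.uax, hb.eU, hug, hX0, hXc0, a1]
  · linarith only [hb.ZM, hb.al0, hl.xA, hg1, a1]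
  · linarith only [hb.ZM, hl.xA, hug, hXc0, a1]
  · linarith only [hb.ZM, hb.al0, hb.v2y, hb.be1, hl.xA, hg1, hXc0, a1]

theorem r12c_j1i1_N_2 {th lam y z g X MB u1 u2 ux ua al v2 vb be : ℝ}
    (hb : MB0 th lam y z MB u1 u2 ux ua al v2 vb be) (hl : L2c th y MB u1 ua al vb be)
    (hg1 : 1 ≤ g) (hug : ua ≤ g) (hX : X ≤ 2) (tA : FT th (-g) X 0 (th + ua) al be) : False := by
  rcases tA with a1 | a1 | a1 | a1 | a1 | a1 | a1
  · linarith only [hb.ZM, hb.al0, hb.v2y, hb.be1, hl.xA, hg1, hX, a1]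
  · linarith only [hug, a1]
  · linarith only [hb.ZM, hb.al0, hb.v2y, hb.be1, hl.xua, hl.xA, hug, a1]
  · linarith only [hb.ZM, hb.v2y, hb.be1, hl.xA, hg1, a1]
  · linarith only [hb.ZM, hb.al0, hl.xA, hg1, a1]
  · linarith only [hb.ZM, hl.xA, hg1, hug, hX, a1]
  · linarith only [hb.ZM, hb.al0, hb.v2y, hb.be1, hl.xua, hl.xA, hug, hX, a1]

theorem r12c_j1i1_L_Y {th lam y z g nb Y sg D L X MB MA m11 m12 u1 u2 ux ua al v2 vb be sy ay cy : ℝ}
    (hb : MB0 th lam y z MB u1 u2 ux ua al v2 vb be) (hj : MJ th lam y z MB MA) (h110 : 0 ≤ m11)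
    (h112 : m11 ≤ 2) (h122 : m12 ≤ 2) (hl : L2c th y MB u1 ua al vb be) (hs0 : 0 ≤ sg)
    (hY0 : 0 ≤ Y) (hg1 : 1 ≤ g) (hn1 : 1 ≤ nb) (hug : ua ≤ g) (hl3 : 3 ≤ lam) (hy : LY sy ay cy)
    (hyp1 : sy < ua) (hsL : sy ≤ L) (hD : nb + D + cy ≤ z)
    (hDL : nb + Y + sg + D + L + cy ≤ th + y + z) (hX0 : 0 ≤ X) (hX : Y = X + sy)
    (t11 : FT th (D + ay) (L - sy) m11 (vb - ua) (y - vb - be) al)
    (t12 : FT th (D + ay) (L - sy) m12 (v2 - u1) (v2 + be - y) (u1 - ua - al))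
    (tA : FT th (-g) X 0 (th + ua) al be)
    (tE : FT th (-g) X (MA - m11) (th + ua + vb - y) al (y - vb - be))
    (tO : FT th (-g) X 2 (th + ux + ua - u1) (u1 - ux - al) be) : False := by
  rcases t12 with a1 | a1 | a1 | a1 | a1 | a1 | a1
  · rcases tA with a2 | a2 | a2 | a2 | a2 | a2 | a2
    · linarith only [hj.A0, hj.zA, h122, hs0, hn1, hug, hl3, hy.a1, hy.c0, hy.say, hyp1, hDL, hX, a1, a2]
    · linarith only [hug, a2]
    · linarith only [hj.A0, hj.zA, h122, hs0, hn1, hug, hl3, hy.a1, hy.c0, hy.say, hyp1, hDL, hX0, hX, a1, a2]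
    · linarith only [hb.ZM, hb.v2y, hb.be1, hl.xA, hg1, a2]
    · linarith only [hb.ZM, hb.al0, hl.xA, hg1, a2]
    · rcases tE with a3 | a3 | a3 | a3 | a3 | a3 | a3
      · linarith only [hj.zA, h110, h122, hs0, hn1, hug, hl3, hy.a1, hy.c0, hy.say, hyp1, hDL, hX, a1, a3]
      · rcases tO with a4 | a4 | a4 | a4 | a4 | a4 | a4
        · linarith only [hj.A0, hj.zA, h122, hs0, hn1, hug, hl3, hy.a1, hy.c0, hy.say, hyp1, hDL, hX, a1, a4]
        · linarith only [hb.eU, hj.zA, hb.eZ, h110, h122, hs0, hn1, hug, hl3, hy.a1, hy.c0, hy.say, hyp1, hDL, hX, a1, a2, a3, a4]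
        · linarith only [hb.M0, hb.ZM, hb.uy, hb.u12, hb.ux2, hb.uax, hl.xua, hug, a4]
        · linarith only [hb.M0, hb.ZM, hb.uy, hb.u12, hb.uax, hb.al1, hl.xua, hug, a4]
        · linarith only [hj.zA, hb.eZ, h110, h122, hs0, hn1, hug, hl3, hy.a1, hy.c0, hy.say, hyp1, hDL, hX0, hX, a1, a3, a4]
        · linarith only [hj.zA, hb.eZ, h110, h122, hs0, hn1, hug, hl3, hy.a1, hy.c0, hy.say, hyp1, hDL, hX, a1, a2, a3, a4]
        · linarith only [hb.M0, hb.ZM, hb.uy, hb.uax, hj.zMA, hb.eZ, h110, h122, hs0, hn1, hug, hl3, hy.a1, hy.c0, hy.say, hyp1, hDL, hX, a1, a2, a3, a4]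
      · linarith only [hb.z0, hb.zz, hj.zA, hb.v2y, hb.vb2, h110, hl.xua, hl.xvb, hug, hl3, a3]
      · linarith only [hb.ZM, hj.A2, hb.v2y, hb.be1, h110, hl.xA, hg1, a3]
      · linarith only [hb.l2, hb.z0, hj.zA, hb.v2y, hb.be1, h110, hl.xvb, hg1, a3]
      · rcases tO with a4 | a4 | a4 | a4 | a4 | a4 | a4
        · linarith only [hj.A0, hj.zA, h122, hs0, hn1, hug, hl3, hy.a1, hy.c0, hy.say, hyp1, hDL, hX, a1, a4]
        · linarith only [hb.eU, hj.zA, h110, h122, hs0, hn1, hug, hl3, hy.a1, hy.c0, hy.say, hyp1, hDL, hX, a1, a2, a3, a4]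
        · linarith only [hb.M0, hb.ZM, hb.uy, hb.u12, hb.ux2, hb.uax, hl.xua, hug, a4]
        · linarith only [hb.M0, hb.ZM, hb.uy, hb.u12, hb.uax, hb.al1, hl.xua, hug, a4]
        · linarith only [hb.ZM, hb.al0, hl.xA, hg1, a4]
        · linarith only [hj.zA, h110, h122, hs0, hn1, hug, hl3, hy.a1, hy.c0, hy.say, hyp1, hDL, hX, a1, a3, a4]
        · linarith only [hb.M0, hb.ZM, hb.uy, hb.uax, hj.zMA, h110, h122, hs0, hn1, hug, hl3, hy.a1, hy.c0, hy.say, hyp1, hDL, hX, a1, a3, a4]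
      · rcases tO with a4 | a4 | a4 | a4 | a4 | a4 | a4
        · linarith only [hj.A0, hj.zA, h122, hs0, hn1, hug, hl3, hy.a1, hy.c0, hy.say, hyp1, hDL, hX, a1, a4]
        · linarith only [hb.z0, hb.eU, hj.A0, hj.zA, h110, h122, hl.xvb, hs0, hn1, hug, hl3, hy.a1, hy.c0, hy.say, hyp1, hDL, hX, a1, a2, a3, a4]
        · linarith only [hb.M0, hb.ZM, hb.uy, hb.u12, hb.ux2, hb.uax, hl.xua, hug, a4]
        · linarith only [hb.M0, hb.ZM, hb.uy, hb.u12, hb.uax, hb.al1, hl.xua, hug, a4]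
        · linarith only [hb.ZM, hb.al0, hl.xA, hg1, a4]
        · linarith only [hb.z0, hb.zz, hj.zA, h110, h122, hl.xvb, hs0, hn1, hug, hl3, hy.a1, hy.c0, hy.say, hyp1, hDL, hX, a1, a3, a4]
        · linarith only [hb.M0, hb.ZM, hb.uax, hj.zMA, h110, h122, hl.xvb, hl.xpq, hs0, hn1, hug, hl3, hy.a1, hy.c0, hy.say, hyp1, hDL, hX, a1, a3, a4]
    · linarith only [hb.ZM, hj.A0, hj.zA, h122, hl.xA, hs0, hY0, hn1, hug, hl3, hy.a1, hy.c0, hy.say, hyp1, hDL, hX, a1, a2]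
  · linarith only [hb.u12, hb.uax, hb.al1, hb.eU, hj.A0, hj.zA, hb.v2y, h122, hn1, hl3, hy.c0, hy.say, hyp1, hD, a1]
  · linarith only [hb.ZM, hb.al0, hj.A0, hj.zMA, hb.be1, h122, hl.xpq, hl.xA, hn1, hl3, hy.ac, hD, a1]
  · linarith only [hb.ZM, hb.al0, hj.A0, hj.zMA, hb.v2y, h122, hl.xA, hn1, hl3, hy.ac, hD, a1]
  · linarith only [hb.zM, hb.M0, hb.uy, hb.al0, h122, hn1, hl3, hy.c0, hy.say, hyp1, hD, a1]
  · rcases tA with a2 | a2 | a2 | a2 | a2 | a2 | a2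
    · rcases t11 with a3 | a3 | a3 | a3 | a3 | a3 | a3
      · linarith only [hj.A0, hj.zA, h112, hs0, hn1, hug, hl3, hy.a1, hy.c0, hy.say, hyp1, hDL, hX, a2, a3]
      · linarith only [hj.A0, hj.zA, hb.v2y, hb.vb2, h112, hn1, hl3, hy.c0, hy.say, hyp1, hD, a3]
      · linarith only [hj.A0, hj.zA, h112, hl.xvb, hs0, hn1, hug, hl3, hy.a1, hy.c0, hy.say, hsL, hDL, hX, a2, a3]
      · linarith only [hb.u12, hb.al1, hj.A0, hj.zA, hb.v2y, h112, h122, hl.xvb, hs0, hg1, hn1, hl3, hy.c0, hy.say, hyp1, hD, hDL, hX, a1, a2, a3]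
      · linarith only [hj.A0, hj.zA, hj.zMA, hb.v2y, h112, h122, hl.xA, hs0, hn1, hl3, hy.ac, hy.c0, hy.say, hyp1, hD, hDL, hX0, hX, a1, a3]
      · linarith only [hj.A0, hj.zA, hb.v2y, h112, h122, hs0, hn1, hug, hl3, hy.a1, hy.c0, hy.say, hyp1, hD, hDL, hX, a1, a2, a3]
      · linarith only [hj.A0, hj.zA, hb.v2y, h112, h122, hl.xvb, hs0, hn1, hug, hl3, hy.a1, hy.c0, hy.say, hyp1, hD, hDL, hX, a1, a2, a3]
    · linarith only [hug, a2]
    · linarith only [hb.M0, hb.ZM, hb.uy, hb.u12, hb.ux2, hb.uax, hug, hy.a1, hy.say, hyp1, a2]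
    · linarith only [hb.ZM, hb.v2y, hb.be1, hl.xA, hg1, a2]
    · linarith only [hb.ZM, hb.al0, hl.xA, hg1, a2]
    · rcases tE with a3 | a3 | a3 | a3 | a3 | a3 | a3
      · rcases t11 with a4 | a4 | a4 | a4 | a4 | a4 | a4
        · linarith only [hj.zA, hs0, hn1, hug, hl3, hy.a1, hy.c0, hy.say, hyp1, hDL, hX, a3, a4]
        · linarith only [hj.A0, hj.zA, hb.v2y, hb.vb2, h112, hn1, hl3, hy.c0, hy.say, hyp1, hD, a4]
        · linarith only [hj.zA, hl.xvb, hs0, hn1, hug, hl3, hy.a1, hy.c0, hy.say, hsL, hDL, hX, a3, a4]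
        · linarith only [hj.A0, hj.zA, hb.v2y, h112, h122, hl.xvb, hs0, hn1, hug, hl3, hy.c0, hy.say, hyp1, hD, hDL, hX, a1, a2, a4]
        · linarith only [hj.A0, hj.zA, hj.zMA, hb.v2y, h112, h122, hl.xA, hs0, hn1, hl3, hy.ac, hy.c0, hy.say, hyp1, hD, hDL, hX0, hX, a1, a4]
        · linarith only [hj.A0, hj.zA, hb.v2y, h122, hs0, hn1, hug, hl3, hy.a1, hy.c0, hy.say, hyp1, hD, hDL, hX, a1, a3, a4]
        · linarith only [hj.A0, hj.zA, hb.v2y, h122, hl.xvb, hs0, hn1, hug, hl3, hy.a1, hy.c0, hy.say, hyp1, hD, hDL, hX, a1, a3, a4]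
      · linarith only [hj.zA, hb.v2y, hb.eZ, h110, h122, hs0, hn1, hug, hl3, hy.a1, hy.c0, hy.say, hyp1, hD, hDL, hX, a1, a2, a3]
      · linarith only [hb.z0, hb.zz, hj.zA, hb.v2y, hb.vb2, h110, hl.xua, hl.xvb, hug, hl3, a3]
      · linarith only [hb.ZM, hj.A2, hb.v2y, hb.be1, h110, hl.xA, hg1, a3]
      · linarith only [hb.l2, hb.z0, hj.zA, hb.v2y, hb.be1, h110, hl.xvb, hg1, a3]
      · linarith only [hj.zA, hb.v2y, h110, h122, hs0, hn1, hug, hl3, hy.a1, hy.c0, hy.say, hyp1, hD, hDL, hX, a1, a3]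
      · linarith only [hb.z0, hb.zz, hj.zA, hb.v2y, h110, h122, hl.xua, hl.xvb, hs0, hn1, hug, hl3, hy.c0, hy.say, hD, hDL, hX, a1, a3]
    · linarith only [hb.ZM, hb.al0, hj.A0, hj.zA, hb.v2y, h122, hl.xua, hl.xA, hs0, hn1, hug, hl3, hy.c0, hy.say, hD, hDL, hX, a1, a2]
  · rcases tA with a2 | a2 | a2 | a2 | a2 | a2 | a2
    · rcases t11 with a3 | a3 | a3 | a3 | a3 | a3 | a3
      · linarith only [hj.A0, hj.zA, h112, hs0, hn1, hug, hl3, hy.a1, hy.c0, hy.say, hyp1, hDL, hX, a2, a3]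
      · linarith only [hj.A0, hj.zA, hb.v2y, hb.vb2, h112, hn1, hl3, hy.c0, hy.say, hyp1, hD, a3]
      · linarith only [hj.A0, hj.zA, h112, hl.xvb, hs0, hn1, hug, hl3, hy.a1, hy.c0, hy.say, hsL, hDL, hX, a2, a3]
      · linarith only [hb.u12, hb.al1, hj.A0, hj.zA, h112, h122, hl.xvb, hl.xpq, hs0, hg1, hn1, hl3, hy.c0, hy.say, hyp1, hD, hDL, hX, a1, a2, a3]
      · linarith only [hj.A0, hj.zA, hj.zMA, h112, h122, hl.xpq, hl.xA, hs0, hn1, hl3, hy.ac, hy.c0, hy.say, hyp1, hD, hDL, hX0, hX, a1, a3]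
      · linarith only [hj.A0, hj.zA, h112, h122, hl.xpq, hs0, hn1, hug, hl3, hy.a1, hy.c0, hy.say, hyp1, hD, hDL, hX, a1, a2, a3]
      · linarith only [hj.A0, hj.zA, h112, h122, hl.xvb, hl.xpq, hs0, hn1, hug, hl3, hy.a1, hy.c0, hy.say, hyp1, hD, hDL, hX, a1, a2, a3]
    · linarith only [hug, a2]
    · linarith only [hb.M0, hb.ZM, hb.uy, hb.u12, hb.ux2, hb.uax, hug, hy.a1, hy.say, hyp1, a2]
    · linarith only [hb.ZM, hb.v2y, hb.be1, hl.xA, hg1, a2]
    · linarith only [hb.ZM, hb.al0, hl.xA, hg1, a2]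
    · rcases tE with a3 | a3 | a3 | a3 | a3 | a3 | a3
      · rcases t11 with a4 | a4 | a4 | a4 | a4 | a4 | a4
        · linarith only [hj.zA, hs0, hn1, hug, hl3, hy.a1, hy.c0, hy.say, hyp1, hDL, hX, a3, a4]
        · linarith only [hj.A0, hj.zA, hb.v2y, hb.vb2, h112, hn1, hl3, hy.c0, hy.say, hyp1, hD, a4]
        · linarith only [hj.zA, hl.xvb, hs0, hn1, hug, hl3, hy.a1, hy.c0, hy.say, hsL, hDL, hX, a3, a4]
        · linarith only [hj.A0, hj.zA, h112, h122, hl.xvb, hl.xpq, hs0, hn1, hug, hl3, hy.c0, hy.say, hyp1, hD, hDL, hX, a1, a2, a4]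
        · linarith only [hj.A0, hj.zA, hj.zMA, h112, h122, hl.xpq, hl.xA, hs0, hn1, hl3, hy.ac, hy.c0, hy.say, hyp1, hD, hDL, hX0, hX, a1, a4]
        · linarith only [hj.A0, hj.zA, h122, hl.xpq, hs0, hn1, hug, hl3, hy.a1, hy.c0, hy.say, hyp1, hD, hDL, hX, a1, a3, a4]
        · linarith only [hj.A0, hj.zA, h122, hl.xvb, hl.xpq, hs0, hn1, hug, hl3, hy.a1, hy.c0, hy.say, hyp1, hD, hDL, hX, a1, a3, a4]
      · linarith only [hj.zA, hb.eZ, h110, h122, hl.xpq, hs0, hn1, hug, hl3, hy.a1, hy.c0, hy.say, hyp1, hD, hDL, hX, a1, a2, a3]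
      · linarith only [hb.z0, hb.zz, hj.zA, hb.v2y, hb.vb2, h110, hl.xua, hl.xvb, hug, hl3, a3]
      · linarith only [hb.ZM, hj.A2, hb.v2y, hb.be1, h110, hl.xA, hg1, a3]
      · linarith only [hb.l2, hb.z0, hj.zA, hb.v2y, hb.be1, h110, hl.xvb, hg1, a3]
      · linarith only [hj.zA, h110, h122, hl.xpq, hs0, hn1, hug, hl3, hy.a1, hy.c0, hy.say, hyp1, hD, hDL, hX, a1, a3]
      · linarith only [hb.z0, hb.zz, hj.zA, h110, h122, hl.xua, hl.xvb, hl.xpq, hs0, hn1, hug, hl3, hy.c0, hy.say, hD, hDL, hX, a1, a3]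
    · linarith only [hb.ZM, hb.al0, hj.A0, hj.zA, h122, hl.xua, hl.xpq, hl.xA, hs0, hn1, hug, hl3, hy.c0, hy.say, hD, hDL, hX, a1, a2]

theorem r12c_j1i1_L_S {th lam y z g Y X MB u1 u2 ux ua al v2 vb be sy ay cy : ℝ}
    (hb : MB0 th lam y z MB u1 u2 ux ua al v2 vb be) (hl : L2c th y MB u1 ua al vb be)
    (hY0 : 0 ≤ Y) (hg1 : 1 ≤ g) (hug : ua ≤ g) (hy : LY sy ay cy) (hyp1 : sy < ua)
    (hX : sy = Y + X) (tA : FT th (-g) X 0 (th + ua) al be) : False := by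
  rcases tA with a1 | a1 | a1 | a1 | a1 | a1 | a1
  · linarith only [hb.M0, hb.ZM, hb.uy, hb.u12, hb.ux2, hb.uax, hY0, hg1, hyp1, hX, a1]
  · linarith only [hug, a1]
  · linarith only [hb.M0, hb.ZM, hb.uy, hb.u12, hb.ux2, hb.uax, hl.xua, hug, a1]
  · linarith only [hb.ZM, hb.v2y, hb.be1, hl.xA, hg1, a1]
  · linarith only [hb.ZM, hb.al0, hl.xA, hg1, a1]
  · linarith only [hb.ZM, hl.xA, hY0, hug, hyp1, hX, a1]
  · linarith only [hb.M0, hb.ZM, hb.u12, hb.ux2, hb.uax, hl.xpq, hl.xA, hY0, hg1, hy.a1, hy.say, hyp1, hX, a1]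

theorem r12c_j1i1_L_wQ {th lam y z g Y X MB u1 u2 ux ua al v2 vb be sy : ℝ}
    (hb : MB0 th lam y z MB u1 u2 ux ua al v2 vb be) (hl : L2c th y MB u1 ua al vb be)
    (hg1 : 1 ≤ g) (hug : ua ≤ g) (hXa : Y ≤ X + sy) (hXb : sy ≤ Y + X) (hXc0 : X < ua + 2)
    (hXc1 : X + 2 ≤ th) (tA : FT th (-g) X 0 (th + ua) al be) : False := by
  rcases tA with a1 | a1 | a1 | a1 | a1 | a1 | a1
  · linarith only [hg1, hXc1, a1]
  · linarith only [hug, a1]
  · linarith only [hug, hXa, hXb, hXc0, hXc1, a1]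
  · linarith only [hb.ZM, hb.v2y, hb.be1, hl.xA, hg1, a1]
  · linarith only [hb.ZM, hb.al0, hl.xA, hg1, a1]
  · linarith only [hb.ZM, hl.xA, hug, hXc0, a1]
  · linarith only [hb.ZM, hl.xA, hug, hXa, hXb, hXc0, hXc1, a1]

theorem r12c_j1i1_L_wP {th lam y z g X MB u1 u2 ux ua al v2 vb be : ℝ}
    (hb : MB0 th lam y z MB u1 u2 ux ua al v2 vb be) (hl : L2c th y MB u1 ua al vb be)
    (hg1 : 1 ≤ g) (hug : ua ≤ g) (hXc0 : X < ua) (tA : FT th (-g) X 0 (th + ua) al be) : False := by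
  rcases tA with a1 | a1 | a1 | a1 | a1 | a1 | a1
  · linarith only [hb.M0, hb.ZM, hb.uy, hb.u12, hb.ux2, hb.uax, hg1, hXc0, a1]
  · linarith only [hug, a1]
  · linarith only [hb.M0, hb.ZM, hb.uy, hb.u12, hb.ux2, hb.uax, hl.xua, hug, a1]
  · linarith only [hb.ZM, hb.v2y, hb.be1, hl.xA, hg1, a1]
  · linarith only [hb.ZM, hb.al0, hl.xA, hg1, a1]
  · linarith only [hb.ZM, hl.xA, hug, hXc0, a1]
  · linarith only [hb.M0, hb.ZM, hb.u12, hb.ux2, hb.uax, hl.xua, hl.xpq, hl.xA, hug, hXc0, a1]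

theorem r12c_j1i1_L_2 {th lam y z g X MB u1 u2 ux ua al v2 vb be : ℝ}
    (hb : MB0 th lam y z MB u1 u2 ux ua al v2 vb be) (hl : L2c th y MB u1 ua al vb be)
    (hg1 : 1 ≤ g) (hug : ua ≤ g) (hX : X ≤ 2) (tA : FT th (-g) X 0 (th + ua) al be) : False := by
  rcases tA with a1 | a1 | a1 | a1 | a1 | a1 | a1
  · linarith only [hb.M0, hb.ZM, hb.uy, hb.u12, hb.ux2, hb.uax, hl.xua, hug, hX, a1]
  · linarith only [hug, a1]
  · linarith only [hb.M0, hb.ZM, hb.uy, hb.u12, hb.ux2, hb.uax, hl.xua, hug, a1]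
  · linarith only [hb.ZM, hb.v2y, hb.be1, hl.xA, hg1, a1]
  · linarith only [hb.ZM, hb.al0, hl.xA, hg1, a1]
  · linarith only [hb.ZM, hl.xA, hg1, hug, hX, a1]
  · linarith only [hb.M0, hb.ZM, hb.u12, hb.ux2, hb.uax, hl.xua, hl.xpq, hl.xA, hug, hX, a1]

end Pool.Agent.Exact


end

section

/-!
# Low hubs, leaf 3c
-/

set_option autoImplicit false
set_option linter.unusedVariables false

namespace Pool.Agent.Exact

theorem r13c_j0_N_Y {th lam y z g nb Y sg D L X MB MA m11 u1 u2 ux ua al v2 vb be : ℝ}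
    (hb : MB0 th lam y z MB u1 u2 ux ua al v2 vb be) (hj1 : u1 = ua) (hj2 : 0 = al)
    (hj3 : MB = MA) (h110 : 0 ≤ m11) (h112 : m11 ≤ 2) (hl : L3c th lam y MB u1 ua al vb be)
    (hs0 : 0 ≤ sg) (hY0 : 0 ≤ Y) (hg1 : 1 ≤ g) (hn1 : 1 ≤ nb) (hug : ua ≤ g) (hL0 : 0 ≤ L)
    (hD : nb + D ≤ z) (hDL : nb + Y + sg + D + L ≤ th + y + z) (hX0 : 0 ≤ X) (hX : Y = X)
    (t11 : FT th D L m11 (vb - ua) (y - vb - be) al) (tA : FT th (-g) X 0 (th + ua) al be)
    (tE : FT th (-g) X (MA - m11) (th + ua + vb - y) al (y - vb - be)) : False := by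
  rcases t11 with a1 | a1 | a1 | a1 | a1 | a1 | a1
  · rcases tA with a2 | a2 | a2 | a2 | a2 | a2 | a2
    · linarith only [hb.l2, hb.zM, hb.M0, h112, hs0, hg1, hn1, hDL, hX, a1, a2]
    · linarith only [hug, a2]
    · linarith only [hj2, hb.v2y, hb.be1, hl.xyM, hl.xbe, hl.xeU, hug, a2]
    · linarith only [hj2, hb.v2y, hb.be1, hl.xyM, hl.xbe, hg1, a2]
    · linarith only [hl.xyM, hl.xbe, hg1, a2]
    · rcases tE with a3 | a3 | a3 | a3 | a3 | a3 | a3
      · linarith only [hb.l2, hb.zM, hj3, hs0, hg1, hn1, hDL, hX, a1, a3]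
      · linarith only [hb.l2, hb.zM, hj2, hj3, hb.eZ, hs0, hg1, hn1, hug, hDL, hX, a1, a2, a3]
      · linarith only [hb.M2, hb.ZM, hj2, hj3, hb.v2y, hb.vb2, h110, hl.xvb, hl.xeU, hg1, a3]
      · linarith only [hb.ZM, hb.uy, hj1, hj2, hj3, h110, hl.xeU, hg1, a3]
      · linarith only [hb.M2, hb.ZM, hj3, hb.v2y, hb.be1, h110, hl.xvb, hg1, a3]
      · linarith only [hb.l2, hb.z0, hb.zM, hj2, hj3, hl.xeU, hs0, hn1, hug, hDL, hX, a1, a2, a3]
      · linarith only [hb.l2, hb.z0, hb.zM, hj2, hj3, hl.xvb, hs0, hg1, hn1, hDL, hX, a1, a2, a3]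
    · linarith only [hb.zz, hj2, h112, hl.xl3, hl.xyM, hl.xbe, hl.xeU, hs0, hn1, hug, hDL, hX0, hX, a1, a2]
  · linarith only [hb.l2, hb.z0, hb.zz, hb.zM, hj2, hb.v2y, hb.vb2, h112, hl.xeU, hn1, hD, a1]
  · linarith only [hb.l2, hb.zM, hb.uy, hj1, h112, hl.xvb, hn1, hD, a1]
  · linarith only [hb.l2, hb.zM, hb.v2y, hb.be1, h112, hl.xvb, hn1, hD, a1]
  · linarith only [hb.l2, hb.zM, hj2, hb.v2y, hb.vb2, h112, hl.xvb, hn1, hD, a1]
  · rcases tA with a2 | a2 | a2 | a2 | a2 | a2 | a2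
    · linarith only [hb.l2, hb.z0, hb.zz, hb.zM, hj2, hb.v2y, hb.be1, h112, hl.xeU, hs0, hn1, hug, hD, hDL, hX, a1, a2]
    · linarith only [hug, a2]
    · linarith only [hj2, hb.v2y, hb.be1, hl.xyM, hl.xbe, hl.xeU, hug, a2]
    · linarith only [hj2, hb.v2y, hb.be1, hl.xyM, hl.xbe, hg1, a2]
    · linarith only [hl.xyM, hl.xbe, hg1, a2]
    · linarith only [hb.l2, hb.zz, hj2, h112, hs0, hg1, hn1, hD, hDL, hX, a1, a2]
    · linarith only [hb.l2, hb.z0, hb.zz, hb.zM, hj2, h112, hl.xeU, hs0, hY0, hn1, hug, hL0, hDL, hX, a1, a2]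
  · rcases tA with a2 | a2 | a2 | a2 | a2 | a2 | a2
    · linarith only [hb.l2, hb.zM, hj2, hb.v2y, hb.be1, h112, hl.xvb, hs0, hn1, hug, hD, hDL, hX, a1, a2]
    · linarith only [hug, a2]
    · linarith only [hj2, hb.v2y, hb.be1, hl.xyM, hl.xbe, hl.xeU, hug, a2]
    · linarith only [hj2, hb.v2y, hb.be1, hl.xyM, hl.xbe, hg1, a2]
    · linarith only [hl.xyM, hl.xbe, hg1, a2]
    · linarith only [hb.l2, hb.zM, hj2, h112, hl.xvb, hs0, hn1, hug, hD, hDL, hX, a1, a2]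
    · linarith only [hb.l2, hb.z0, hb.zz, hb.zM, hj2, h112, hl.xvb, hs0, hY0, hg1, hn1, hL0, hDL, hX, a1, a2]

theorem r13c_j0_N_wQ {th lam y z g X MB u1 u2 ux ua al v2 vb be : ℝ}
    (hb : MB0 th lam y z MB u1 u2 ux ua al v2 vb be) (hj2 : 0 = al)
    (hl : L3c th lam y MB u1 ua al vb be) (hg1 : 1 ≤ g) (hug : ua ≤ g) (hXc0 : X < MB + vb)
    (tA : FT th (-g) X 0 (th + ua) al be) : False := by
  rcases tA with a1 | a1 | a1 | a1 | a1 | a1 | a1
  · linarith only [hb.v2y, hb.vb2, hl.xyM, hg1, hXc0, a1]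
  · linarith only [hug, a1]
  · linarith only [hj2, hb.v2y, hb.be1, hl.xyM, hl.xbe, hl.xeU, hug, a1]
  · linarith only [hj2, hb.v2y, hb.be1, hl.xyM, hl.xbe, hg1, a1]
  · linarith only [hl.xyM, hl.xbe, hg1, a1]
  · linarith only [hj2, hb.eZ, hl.xyM, hg1, hug, hXc0, a1]
  · linarith only [hj2, hb.v2y, hb.be1, hb.eZ, hl.xyM, hl.xbe, hl.xeU, hug, hXc0, a1]

theorem r13c_j0_N_wP {th lam y z g Y X MB u1 u2 ux ua al v2 vb be : ℝ}
    (hb : MB0 th lam y z MB u1 u2 ux ua al v2 vb be) (hj2 : 0 = al)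
    (hl : L3c th lam y MB u1 ua al vb be) (hY0 : 0 ≤ Y) (hg1 : 1 ≤ g) (hug : ua ≤ g) (hX0 : 0 ≤ X)
    (hXY : Y ≤ X) (hXc0 : X < MB + vb + 2) (hXc1 : X + MB + 2 ≤ th)
    (tA : FT th (-g) X 0 (th + ua) al be) : False := by
  rcases tA with a1 | a1 | a1 | a1 | a1 | a1 | a1
  · linarith only [hl.xua, hug, hXc1, a1]
  · linarith only [hug, a1]
  · linarith only [hl.xua, hug, hX0, hXc1, a1]
  · linarith only [hj2, hl.xua, hug, hX0, hXc1, a1]
  · linarith only [hl.xyM, hl.xbe, hg1, a1]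
  · linarith only [hj2, hb.eZ, hl.xyM, hg1, hug, hXc0, a1]
  · linarith only [hj2, hl.xua, hl.xyM, hl.xbe, hY0, hg1, hug, hXY, hXc1, a1]

theorem r13c_j0_N_2 {th lam y z g X MB u1 u2 ux ua al v2 vb be : ℝ}
    (hb : MB0 th lam y z MB u1 u2 ux ua al v2 vb be) (hj2 : 0 = al)
    (hl : L3c th lam y MB u1 ua al vb be) (hg1 : 1 ≤ g) (hug : ua ≤ g) (hX : X ≤ 2)
    (tA : FT th (-g) X 0 (th + ua) al be) : False := by
  rcases tA with a1 | a1 | a1 | a1 | a1 | a1 | a1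
  · linarith only [hb.v2y, hb.be1, hl.xyM, hl.xbe, hg1, hX, a1]
  · linarith only [hug, a1]
  · linarith only [hj2, hb.v2y, hb.be1, hl.xyM, hl.xbe, hl.xeU, hg1, a1]
  · linarith only [hj2, hb.v2y, hb.be1, hl.xyM, hl.xbe, hg1, a1]
  · linarith only [hl.xyM, hl.xbe, hg1, a1]
  · linarith only [hj2, hl.xyM, hl.xbe, hg1, hug, hX, a1]
  · linarith only [hj2, hb.v2y, hb.be1, hl.xyM, hl.xbe, hl.xeU, hg1, hX, a1]

theorem r13c_j0_L_Y {th lam y z g nb Y sg D L X MB MA m11 u1 u2 ux ua al v2 vb be sy ay cy : ℝ}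
    (hb : MB0 th lam y z MB u1 u2 ux ua al v2 vb be) (hj1 : u1 = ua) (hj2 : 0 = al)
    (hj3 : MB = MA) (h110 : 0 ≤ m11) (h112 : m11 ≤ 2) (hl : L3c th lam y MB u1 ua al vb be)
    (hs0 : 0 ≤ sg) (hg1 : 1 ≤ g) (hn1 : 1 ≤ nb) (hug : ua ≤ g) (hy : LY sy ay cy)
    (hyp1 : sy < MB + vb + 2) (hyp2 : MB + sy + 2 ≤ th) (hD : nb + D + cy ≤ z)
    (hDL : nb + Y + sg + D + L + cy ≤ th + y + z) (hXb : sy ≤ Y + X) (hX : Y = X + sy)
    (t11 : FT th (D + ay) (L - sy) m11 (vb - ua) (y - vb - be) al)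
    (tA : FT th (-g) X 0 (th + ua) al be)
    (tE : FT th (-g) X (MA - m11) (th + ua + vb - y) al (y - vb - be)) : False := by
  rcases t11 with a1 | a1 | a1 | a1 | a1 | a1 | a1
  · rcases tA with a2 | a2 | a2 | a2 | a2 | a2 | a2
    · linarith only [hb.l2, hb.zz, h112, hs0, hg1, hn1, hy.a1, hy.c0, hy.say, hDL, hX, a1, a2]
    · linarith only [hug, a2]
    · linarith only [hl.xua, hug, hy.a1, hy.say, hyp2, a2]
    · linarith only [hb.M0, hb.uy, hj2, hl.xu1, hl.xyM, hg1, a2]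
    · linarith only [hl.xyM, hl.xbe, hg1, a2]
    · rcases tE with a3 | a3 | a3 | a3 | a3 | a3 | a3
      · linarith only [hb.l2, hb.zM, hj3, hs0, hg1, hn1, hy.a1, hy.c0, hy.say, hDL, hX, a1, a3]
      · linarith only [hb.l2, hb.zM, hj2, hj3, hb.eZ, hs0, hg1, hn1, hug, hy.a1, hy.c0, hy.say, hDL, hX, a1, a2, a3]
      · linarith only [hb.ZM, hb.uy, hj2, hj3, h110, hl.xvb, hl.xu1, hl.xeU, hug, a3]
      · linarith only [hb.ZM, hb.uy, hj1, hj2, hj3, h110, hl.xeU, hug, a3]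
      · linarith only [hb.M2, hj3, hb.v2y, hb.be1, h110, hl.xvb, hl.xyM, hg1, a3]
      · linarith only [hb.l2, hb.zM, hj2, hj3, hs0, hg1, hn1, hug, hy.a1, hy.c0, hy.say, hDL, hX, a1, a2, a3]
      · linarith only [hb.l2, hb.z0, hb.zM, hj2, hj3, hs0, hg1, hn1, hy.a1, hy.c0, hy.say, hyp1, hDL, hX, a1, a2, a3]
    · linarith only [hb.l2, hb.z0, hb.zM, hb.M0, hj2, hb.eZ, h112, hl.xeU, hs0, hn1, hug, hy.a1, hy.c0, hy.say, hyp1, hDL, hXb, hX, a1, a2]
  · linarith only [hb.l2, hb.z0, hb.zM, hb.M0, hj2, hb.v2y, hb.vb2, h112, hl.xeU, hn1, hy.ac, hD, a1]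
  · linarith only [hb.zM, hb.uy, hj1, h112, hl.xl3, hn1, hy.c0, hy.say, hyp1, hD, a1]
  · linarith only [hb.zM, hb.v2y, hb.be1, h112, hl.xl3, hn1, hy.c0, hy.say, hyp1, hD, a1]
  · linarith only [hb.zM, hj2, hb.v2y, hb.vb2, h112, hl.xl3, hn1, hy.c0, hy.say, hyp1, hD, a1]
  · rcases tA with a2 | a2 | a2 | a2 | a2 | a2 | a2
    · linarith only [hb.l2, hb.z0, hb.zM, hb.M0, hj2, hb.v2y, hb.be1, h112, hl.xeU, hs0, hn1, hug, hy.c0, hy.say, hD, hDL, hX, a1, a2]
    · linarith only [hug, a2]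
    · linarith only [hl.xua, hug, hy.a1, hy.say, hyp2, a2]
    · linarith only [hb.M0, hb.uy, hj2, hl.xu1, hl.xyM, hg1, a2]
    · linarith only [hl.xyM, hl.xbe, hg1, a2]
    · linarith only [hb.l2, hb.zz, hj2, h112, hs0, hg1, hn1, hy.c0, hy.say, hD, hDL, hX, a1, a2]
    · linarith only [hb.l2, hb.z0, hb.zz, hj2, h112, hl.xeU, hs0, hg1, hn1, hy.a1, hy.c0, hy.say, hyp2, hD, hDL, hX, a1, a2]
  · rcases tA with a2 | a2 | a2 | a2 | a2 | a2 | a2
    · linarith only [hb.l2, hb.zM, hj2, hb.v2y, hb.be1, h112, hs0, hn1, hug, hy.a1, hy.c0, hy.say, hyp1, hD, hDL, hX, a1, a2]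
    · linarith only [hug, a2]
    · linarith only [hl.xua, hug, hy.a1, hy.say, hyp2, a2]
    · linarith only [hb.M0, hb.uy, hj2, hl.xu1, hl.xyM, hg1, a2]
    · linarith only [hl.xyM, hl.xbe, hg1, a2]
    · linarith only [hb.l2, hb.zM, hj2, h112, hs0, hn1, hug, hy.a1, hy.c0, hy.say, hyp1, hD, hDL, hX, a1, a2]
    · linarith only [hb.l2, hb.zz, hj2, h112, hs0, hg1, hn1, hy.a1, hy.c0, hy.say, hyp1, hyp2, hD, hDL, hX, a1, a2]

theorem r13c_j0_L_S {th lam y z g Y X MB u1 u2 ux ua al v2 vb be sy ay cy : ℝ}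
    (hb : MB0 th lam y z MB u1 u2 ux ua al v2 vb be) (hj2 : 0 = al)
    (hl : L3c th lam y MB u1 ua al vb be) (hY0 : 0 ≤ Y) (hg1 : 1 ≤ g) (hug : ua ≤ g)
    (hy : LY sy ay cy) (hyp1 : sy < MB + vb + 2) (hyp2 : MB + sy + 2 ≤ th) (hX : sy = Y + X)
    (tA : FT th (-g) X 0 (th + ua) al be) : False := by
  rcases tA with a1 | a1 | a1 | a1 | a1 | a1 | a1
  · linarith only [hl.xua, hY0, hug, hyp2, hX, a1]
  · linarith only [hug, a1]
  · linarith only [hl.xua, hug, hy.a1, hy.say, hyp2, a1]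
  · linarith only [hb.M0, hj2, hg1, hy.a1, hy.say, hyp2, a1]
  · linarith only [hl.xyM, hl.xbe, hg1, a1]
  · linarith only [hj2, hb.eZ, hl.xyM, hY0, hg1, hug, hyp1, hX, a1]
  · linarith only [hb.M0, hj2, hl.xyM, hl.xbe, hl.xeU, hY0, hug, hy.a1, hy.say, hyp2, hX, a1]

theorem r13c_j0_L_wQ {th lam y z g X MB u1 u2 ux ua al v2 vb be sy ay cy : ℝ}
    (hb : MB0 th lam y z MB u1 u2 ux ua al v2 vb be) (hj2 : 0 = al)
    (hl : L3c th lam y MB u1 ua al vb be) (hg1 : 1 ≤ g) (hug : ua ≤ g) (hy : LY sy ay cy)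
    (hyp2 : MB + sy + 2 ≤ th) (hXc0 : X < MB + vb) (tA : FT th (-g) X 0 (th + ua) al be) : False := by
  rcases tA with a1 | a1 | a1 | a1 | a1 | a1 | a1
  · linarith only [hb.v2y, hb.vb2, hl.xyM, hg1, hXc0, a1]
  · linarith only [hug, a1]
  · linarith only [hl.xua, hug, hy.a1, hy.say, hyp2, a1]
  · linarith only [hb.M0, hj2, hg1, hy.a1, hy.say, hyp2, a1]
  · linarith only [hl.xyM, hl.xbe, hg1, a1]
  · linarith only [hj2, hb.eZ, hl.xyM, hg1, hug, hXc0, a1]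
  · linarith only [hj2, hb.v2y, hb.be1, hb.vb2, hl.xyM, hl.xbe, hl.xeU, hug, hXc0, a1]

theorem r13c_j0_L_wP {th lam y z g Y X MB u1 u2 ux ua al v2 vb be sy : ℝ}
    (hb : MB0 th lam y z MB u1 u2 ux ua al v2 vb be) (hj2 : 0 = al)
    (hl : L3c th lam y MB u1 ua al vb be) (hg1 : 1 ≤ g) (hug : ua ≤ g) (hXa : Y ≤ X + sy)
    (hXb : sy ≤ Y + X) (hXc0 : X < MB + vb + 2) (hXc1 : X + MB + 2 ≤ th)
    (tA : FT th (-g) X 0 (th + ua) al be) : False := by
  rcases tA with a1 | a1 | a1 | a1 | a1 | a1 | a1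
  · linarith only [hl.xua, hug, hXc1, a1]
  · linarith only [hug, a1]
  · linarith only [hl.xua, hug, hXa, hXb, hXc1, a1]
  · linarith only [hb.M0, hb.uy, hj2, hl.xu1, hl.xyM, hg1, a1]
  · linarith only [hl.xyM, hl.xbe, hg1, a1]
  · linarith only [hj2, hb.eZ, hl.xyM, hg1, hug, hXc0, a1]
  · linarith only [hb.M0, hj2, hl.xyM, hl.xbe, hl.xeU, hug, hXa, hXb, hXc1, a1]

theorem r13c_j0_L_2 {th lam y z g X MB u1 u2 ux ua al v2 vb be : ℝ}
    (hb : MB0 th lam y z MB u1 u2 ux ua al v2 vb be) (hj2 : 0 = al)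
    (hl : L3c th lam y MB u1 ua al vb be) (hg1 : 1 ≤ g) (hug : ua ≤ g) (hX : X ≤ 2)
    (tA : FT th (-g) X 0 (th + ua) al be) : False := by
  rcases tA with a1 | a1 | a1 | a1 | a1 | a1 | a1
  · linarith only [hb.v2y, hb.be1, hl.xyM, hl.xbe, hg1, hX, a1]
  · linarith only [hug, a1]
  · linarith only [hj2, hb.v2y, hb.be1, hl.xyM, hl.xbe, hl.xeU, hug, a1]
  · linarith only [hj2, hb.v2y, hb.be1, hl.xyM, hl.xbe, hg1, a1]
  · linarith only [hl.xyM, hl.xbe, hg1, a1]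
  · linarith only [hj2, hl.xyM, hl.xbe, hg1, hug, hX, a1]
  · linarith only [hj2, hb.v2y, hb.be1, hl.xyM, hl.xbe, hl.xeU, hug, hX, a1]

theorem r13c_j1_N_Y {th lam y z g nb Y sg D L X MB MA m11 m12 u1 u2 ux ua al v2 vb be : ℝ}
    (hb : MB0 th lam y z MB u1 u2 ux ua al v2 vb be) (hj : MJ th lam y z MB MA) (h110 : 0 ≤ m11)
    (h112 : m11 ≤ 2) (h122 : m12 ≤ 2) (hl : L3c th lam y MB u1 ua al vb be) (hs0 : 0 ≤ sg)
    (hY0 : 0 ≤ Y) (hg1 : 1 ≤ g) (hn1 : 1 ≤ nb) (hug : ua ≤ g) (hL0 : 0 ≤ L) (hD : nb + D ≤ z)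
    (hDL : nb + Y + sg + D + L ≤ th + y + z) (hX : Y = X)
    (t11 : FT th D L m11 (vb - ua) (y - vb - be) al)
    (t12 : FT th D L m12 (v2 - u1) (v2 + be - y) (u1 - ua - al))
    (tA : FT th (-g) X 0 (th + ua) al be)
    (tE : FT th (-g) X (MA - m11) (th + ua + vb - y) al (y - vb - be))
    (tO : FT th (-g) X 2 (th + ux + ua - u1) (u1 - ux - al) be) : False := by
  rcases t12 with a1 | a1 | a1 | a1 | a1 | a1 | a1
  · rcases tA with a2 | a2 | a2 | a2 | a2 | a2 | a2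
    · linarith only [hj.A0, hj.zA, h122, hl.xl3, hs0, hg1, hn1, hDL, hX, a1, a2]
    · linarith only [hug, a2]
    · linarith only [hj.A0, hj.zA, hj.zMA, h122, hl.xua, hl.xl3, hs0, hY0, hg1, hn1, hDL, a1, a2]
    · linarith only [hb.ZM, hb.uy, hb.uax, hb.eU, hl.xua, hg1, a2]
    · linarith only [hl.xyM, hl.xbe, hg1, a2]
    · rcases tE with a3 | a3 | a3 | a3 | a3 | a3 | a3
      · linarith only [hj.zA, h110, h122, hl.xl3, hs0, hg1, hn1, hDL, hX, a1, a3]
      · rcases tO with a4 | a4 | a4 | a4 | a4 | a4 | a4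
        · linarith only [hj.A0, hj.zA, h122, hl.xl3, hs0, hg1, hn1, hDL, hX, a1, a4]
        · linarith only [hb.eU, hj.zA, hb.eZ, h110, h122, hl.xl3, hs0, hg1, hn1, hug, hDL, hX, a1, a2, a3, a4]
        · linarith only [hb.uy, hb.uax, hl.xua, hl.xyM, hl.xuz, hg1, a4]
        · linarith only [hb.ZM, hb.uy, hb.uax, hl.xua, hl.xeU, hug, a4]
        · linarith only [hl.xyM, hl.xbe, hg1, a4]
        · linarith only [hj.zA, hb.eZ, h110, h122, hl.xl3, hs0, hg1, hn1, hug, hDL, hX, a1, a2, a3, a4]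
        · linarith only [hb.ZM, hb.uy, hb.uax, hj.zA, hb.eZ, h110, h122, hl.xua, hl.xl3, hs0, hg1, hn1, hug, hDL, hX, a1, a2, a3, a4]
      · linarith only [hj.zMA, h110, h122, hl.xua, hl.xvb, hl.xl3, hl.xyM, hs0, hY0, hg1, hn1, hDL, a1, a3]
      · linarith only [hb.z0, hb.uy, hb.uax, hb.eU, hj.zMA, h110, hl.xua, hl.xl3, hg1, a3]
      · linarith only [hj.A2, hb.v2y, hb.be1, h110, hl.xvb, hl.xyM, hg1, a3]
      · rcases tO with a4 | a4 | a4 | a4 | a4 | a4 | a4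
        · linarith only [hj.A0, hj.zA, h122, hl.xl3, hs0, hg1, hn1, hDL, hX, a1, a4]
        · linarith only [hb.eU, hj.zA, h110, h122, hl.xl3, hs0, hg1, hn1, hug, hDL, hX, a1, a2, a3, a4]
        · linarith only [hb.uy, hb.uax, hl.xua, hl.xyM, hl.xuz, hg1, a4]
        · linarith only [hb.ZM, hb.uy, hb.uax, hl.xua, hl.xeU, hug, a4]
        · linarith only [hl.xyM, hl.xbe, hg1, a4]
        · linarith only [hj.zA, h110, h122, hl.xl3, hs0, hg1, hn1, hug, hDL, hX, a1, a3, a4]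
        · linarith only [hb.ZM, hb.uy, hb.uax, hj.zA, h110, h122, hl.xua, hl.xl3, hs0, hg1, hn1, hDL, hX, a1, a3, a4]
      · rcases tO with a4 | a4 | a4 | a4 | a4 | a4 | a4
        · linarith only [hj.A0, hj.zA, h122, hl.xl3, hs0, hg1, hn1, hDL, hX, a1, a4]
        · linarith only [hb.eU, hj.zA, h110, h122, hl.xvb, hl.xl3, hl.xyM, hs0, hg1, hn1, hug, hDL, hX, a1, a2, a3, a4]
        · linarith only [hb.uy, hb.uax, hl.xua, hl.xyM, hl.xuz, hg1, a4]
        · linarith only [hb.ZM, hb.uy, hb.uax, hl.xua, hl.xeU, hug, a4]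
        · linarith only [hl.xyM, hl.xbe, hg1, a4]
        · linarith only [hj.zA, h110, h122, hl.xvb, hl.xl3, hl.xyM, hs0, hg1, hn1, hDL, hX, a1, a3, a4]
        · linarith only [hb.ZM, hb.uy, hb.uax, hj.zMA, h110, h122, hl.xua, hl.xvb, hl.xl3, hs0, hg1, hn1, hDL, hX, a1, a3, a4]
    · linarith only [hb.uy, hb.uax, hb.eU, hj.A0, hj.zMA, h122, hl.xua, hl.xl3, hl.xyM, hl.xbe, hs0, hg1, hn1, hDL, hX, a1, a2]
  · linarith only [hj.A0, hj.zA, hb.v2y, h122, hl.xl3, hl.xu1, hn1, hD, a1]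
  · linarith only [hb.uy, hj.A0, hj.zMA, hb.be1, h122, hl.xl3, hl.xbe, hn1, hD, a1]
  · linarith only [hj.A0, hj.zMA, hb.v2y, hb.eZ, h122, hl.xvb, hl.xl3, hn1, hD, a1]
  · linarith only [hb.l2, hb.zz, hb.ZM, hb.uy, h122, hl.xeU, hn1, hD, a1]
  · rcases tA with a2 | a2 | a2 | a2 | a2 | a2 | a2
    · rcases t11 with a3 | a3 | a3 | a3 | a3 | a3 | a3
      · linarith only [hj.A0, hj.zA, h112, hl.xl3, hs0, hg1, hn1, hDL, hX, a2, a3]
      · linarith only [hj.A0, hj.zA, hj.zMA, hb.v2y, hb.eZ, h112, h122, hl.xua, hl.xl3, hl.xyM, hl.xeU, hs0, hg1, hn1, hD, hDL, hX, a1, a2, a3]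
      · linarith only [hj.A0, hj.zMA, h112, hl.xvb, hl.xl3, hs0, hn1, hug, hL0, hDL, hX, a2, a3]
      · linarith only [hj.A0, hj.zMA, hb.v2y, hb.be1, h112, hl.xvb, hl.xl3, hn1, hD, a3]
      · linarith only [hj.A0, hj.zA, hj.zMA, hb.v2y, hb.eZ, h112, h122, hl.xua, hl.xvb, hl.xl3, hs0, hg1, hn1, hD, hDL, hX, a1, a2, a3]
      · linarith only [hj.A0, hj.zA, hj.zMA, hb.v2y, h112, h122, hl.xua, hl.xl3, hs0, hg1, hn1, hD, hDL, hX, a1, a2, a3]
      · linarith only [hj.A0, hj.zA, hj.zMA, hb.v2y, h112, h122, hl.xvb, hl.xl3, hs0, hg1, hn1, hD, hDL, hX, a1, a2, a3]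
    · linarith only [hug, a2]
    · linarith only [hj.A0, hj.zMA, hb.v2y, h122, hl.xua, hl.xl3, hl.xyM, hl.xbe, hl.xeU, hs0, hY0, hn1, hug, hD, hDL, a1, a2]
    · linarith only [hb.ZM, hb.uy, hb.uax, hb.eU, hl.xua, hg1, a2]
    · linarith only [hl.xyM, hl.xbe, hg1, a2]
    · rcases tE with a3 | a3 | a3 | a3 | a3 | a3 | a3
      · rcases t11 with a4 | a4 | a4 | a4 | a4 | a4 | a4
        · linarith only [hj.zA, hl.xl3, hs0, hg1, hn1, hDL, hX, a3, a4]
        · linarith only [hj.A0, hj.zA, hj.zMA, hb.v2y, hb.eZ, h112, h122, hl.xua, hl.xl3, hs0, hg1, hn1, hD, hDL, hX, a1, a2, a4]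
        · linarith only [hj.zMA, hl.xvb, hl.xl3, hs0, hn1, hug, hL0, hDL, hX, a3, a4]
        · linarith only [hj.A0, hj.zMA, hb.v2y, hb.be1, h112, hl.xvb, hl.xl3, hn1, hD, a4]
        · linarith only [hj.A0, hj.zA, hj.zMA, hb.v2y, h122, hl.xua, hl.xl3, hl.xbe, hs0, hg1, hn1, hD, hDL, hX, a1, a3, a4]
        · linarith only [hj.A0, hj.zA, hj.zMA, hb.v2y, h122, hl.xua, hl.xl3, hs0, hg1, hn1, hD, hDL, hX, a1, a3, a4]
        · linarith only [hj.A0, hj.zMA, hb.v2y, h122, hl.xua, hl.xvb, hl.xl3, hs0, hn1, hug, hD, hDL, hX, a1, a3, a4]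
      · linarith only [hj.zA, hb.v2y, hb.eZ, h110, h122, hl.xl3, hs0, hg1, hn1, hug, hD, hDL, hX, a1, a2, a3]
      · linarith only [hj.zMA, hb.v2y, h110, h122, hl.xua, hl.xvb, hl.xl3, hl.xyM, hl.xbe, hs0, hg1, hn1, hD, hDL, hX, a1, a2, a3]
      · linarith only [hb.z0, hb.uy, hb.uax, hb.eU, hj.zMA, h110, hl.xua, hl.xl3, hg1, a3]
      · linarith only [hj.A2, hb.v2y, hb.be1, h110, hl.xvb, hl.xyM, hg1, a3]
      · linarith only [hj.zA, hb.v2y, h110, h122, hl.xl3, hs0, hg1, hn1, hD, hDL, hX, a1, a3]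
      · linarith only [hj.zMA, hb.v2y, h110, h122, hl.xua, hl.xvb, hl.xl3, hl.xyM, hs0, hg1, hn1, hD, hDL, hX, a1, a3]
    · linarith only [hj.A0, hj.zMA, hb.v2y, h122, hl.xua, hl.xl3, hl.xyM, hl.xbe, hs0, hg1, hn1, hD, hDL, hX, a1, a2]
  · rcases tA with a2 | a2 | a2 | a2 | a2 | a2 | a2
    · rcases t11 with a3 | a3 | a3 | a3 | a3 | a3 | a3
      · linarith only [hj.A0, hj.zA, h112, hl.xl3, hs0, hg1, hn1, hDL, hX, a2, a3]
      · linarith only [hb.ZM, hb.uy, hj.A0, hj.zA, hj.zMA, hb.eZ, h112, h122, hl.xua, hl.xl3, hl.xeU, hs0, hg1, hn1, hD, hDL, hX, a1, a2, a3]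
      · linarith only [hj.A0, hj.zMA, h112, hl.xvb, hl.xl3, hs0, hn1, hug, hL0, hDL, hX, a2, a3]
      · linarith only [hj.A0, hj.zMA, hb.v2y, hb.be1, h112, hl.xvb, hl.xl3, hn1, hD, a3]
      · linarith only [hb.uy, hj.A0, hj.zA, hj.zMA, hb.eZ, h112, h122, hl.xua, hl.xvb, hl.xl3, hs0, hg1, hn1, hD, hDL, hX, a1, a2, a3]
      · linarith only [hb.uy, hj.A0, hj.zA, hj.zMA, h112, h122, hl.xua, hl.xl3, hs0, hg1, hn1, hD, hDL, hX, a1, a2, a3]
      · linarith only [hb.uy, hj.A0, hj.zA, hj.zMA, h112, h122, hl.xvb, hl.xl3, hs0, hg1, hn1, hD, hDL, hX, a1, a2, a3]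
    · linarith only [hug, a2]
    · linarith only [hb.ZM, hb.uy, hl.xua, hl.xu1, hug, a2]
    · linarith only [hb.ZM, hb.uy, hb.uax, hb.eU, hl.xua, hg1, a2]
    · linarith only [hl.xyM, hl.xbe, hg1, a2]
    · rcases tE with a3 | a3 | a3 | a3 | a3 | a3 | a3
      · rcases t11 with a4 | a4 | a4 | a4 | a4 | a4 | a4
        · linarith only [hj.zA, hl.xl3, hs0, hg1, hn1, hDL, hX, a3, a4]
        · linarith only [hb.uy, hj.A0, hj.zA, hj.zMA, hb.eZ, h112, h122, hl.xua, hl.xl3, hs0, hg1, hn1, hD, hDL, hX, a1, a2, a4]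
        · linarith only [hj.zMA, hl.xvb, hl.xl3, hs0, hn1, hug, hL0, hDL, hX, a3, a4]
        · linarith only [hj.A0, hj.zMA, hb.v2y, hb.be1, h112, hl.xvb, hl.xl3, hn1, hD, a4]
        · linarith only [hb.uy, hj.A0, hj.zA, hj.zMA, h122, hl.xua, hl.xl3, hl.xbe, hs0, hg1, hn1, hD, hDL, hX, a1, a3, a4]
        · linarith only [hb.uy, hj.A0, hj.zA, hj.zMA, h122, hl.xua, hl.xl3, hs0, hg1, hn1, hD, hDL, hX, a1, a3, a4]
        · linarith only [hb.uy, hj.A0, hj.zMA, h122, hl.xua, hl.xvb, hl.xl3, hs0, hn1, hug, hD, hDL, hX, a1, a3, a4]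
      · linarith only [hb.uy, hj.zA, hb.eZ, h110, h122, hl.xl3, hs0, hg1, hn1, hug, hD, hDL, hX, a1, a2, a3]
      · linarith only [hb.ZM, hb.uy, hj.A2, h110, hl.xua, hl.xvb, hl.xu1, hg1, a3]
      · linarith only [hb.z0, hb.uy, hb.uax, hb.eU, hj.zMA, h110, hl.xua, hl.xl3, hg1, a3]
      · linarith only [hj.A2, hb.v2y, hb.be1, h110, hl.xvb, hl.xyM, hg1, a3]
      · linarith only [hb.uy, hj.zA, h110, h122, hl.xl3, hs0, hg1, hn1, hD, hDL, hX, a1, a3]
      · linarith only [hb.ZM, hb.uy, hj.zMA, h110, h122, hl.xua, hl.xvb, hl.xl3, hs0, hg1, hn1, hD, hDL, hX, a1, a3]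
    · linarith only [hb.zM, hb.uy, h122, hl.xua, hl.xl3, hl.xyM, hl.xbe, hs0, hg1, hn1, hD, hDL, hX, a1, a2]

theorem r13c_j1_N_wQ {th lam y z g X MB u1 u2 ux ua al v2 vb be : ℝ}
    (hb : MB0 th lam y z MB u1 u2 ux ua al v2 vb be) (hl : L3c th lam y MB u1 ua al vb be)
    (hg1 : 1 ≤ g) (hug : ua ≤ g) (hXc0 : X < MB + vb) (tA : FT th (-g) X 0 (th + ua) al be)
    (tO : FT th (-g) X 2 (th + ux + ua - u1) (u1 - ux - al) be) : False := by
  rcases tA with a1 | a1 | a1 | a1 | a1 | a1 | a1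
  · linarith only [hb.v2y, hb.vb2, hl.xyM, hg1, hXc0, a1]
  · linarith only [hug, a1]
  · linarith only [hb.uy, hl.xua, hl.xu1, hl.xyM, hug, a1]
  · linarith only [hb.ZM, hb.uy, hb.uax, hb.eU, hl.xua, hg1, a1]
  · linarith only [hl.xyM, hl.xbe, hg1, a1]
  · rcases tO with a2 | a2 | a2 | a2 | a2 | a2 | a2
    · linarith only [hb.v2y, hb.vb2, hl.xyM, hg1, hXc0, a2]
    · linarith only [hb.eU, hb.eZ, hl.xyM, hg1, hug, hXc0, a1, a2]
    · linarith only [hb.uy, hb.uax, hl.xua, hl.xyM, hl.xuz, hg1, a2]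
    · linarith only [hb.ZM, hb.uy, hb.uax, hl.xua, hl.xeU, hug, a2]
    · linarith only [hl.xyM, hl.xbe, hg1, a2]
    · linarith only [hb.eZ, hl.xyM, hg1, hug, hXc0, a1, a2]
    · linarith only [hb.ZM, hb.uy, hb.uax, hb.eZ, hl.xua, hg1, hXc0, a1, a2]
  · linarith only [hb.M2, hb.ZM, hb.uy, hb.al0, hb.uax, hb.eU, hb.eZ, hl.xua, hg1, hXc0, a1]

theorem r13c_j1_N_wP {th lam y z g X MB MA m11 u1 u2 ux ua al v2 vb be : ℝ}
    (hb : MB0 th lam y z MB u1 u2 ux ua al v2 vb be) (hj : MJ th lam y z MB MA) (h110 : 0 ≤ m11)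
    (hl : L3c th lam y MB u1 ua al vb be) (hg1 : 1 ≤ g) (hug : ua ≤ g) (hX0 : 0 ≤ X)
    (hXc0 : X < MB + vb + 2) (hXc1 : X + MB + 2 ≤ th) (tA : FT th (-g) X 0 (th + ua) al be)
    (tE : FT th (-g) X (MA - m11) (th + ua + vb - y) al (y - vb - be))
    (tO : FT th (-g) X 2 (th + ux + ua - u1) (u1 - ux - al) be) : False := by
  rcases tA with a1 | a1 | a1 | a1 | a1 | a1 | a1
  · linarith only [hl.xua, hug, hXc1, a1]
  · linarith only [hug, a1]
  · linarith only [hl.xua, hug, hX0, hXc1, a1]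
  · linarith only [hb.ZM, hb.uy, hb.uax, hb.eU, hl.xua, hg1, a1]
  · linarith only [hl.xyM, hl.xbe, hg1, a1]
  · rcases tE with a2 | a2 | a2 | a2 | a2 | a2 | a2
    · linarith only [hb.M0, hj.A2, h110, hg1, hXc1, a2]
    · rcases tO with a3 | a3 | a3 | a3 | a3 | a3 | a3
      · linarith only [hb.M0, hg1, hXc1, a3]
      · linarith only [hb.z0, hb.eU, hj.zA, hb.eZ, h110, hl.xl3, hg1, hug, hXc0, hXc1, a1, a2, a3]
      · linarith only [hb.uy, hb.uax, hl.xua, hl.xyM, hl.xuz, hg1, a3]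
      · linarith only [hb.ZM, hb.uy, hb.uax, hl.xua, hl.xeU, hug, a3]
      · linarith only [hl.xyM, hl.xbe, hg1, a3]
      · linarith only [hb.z0, hj.zA, hb.eZ, h110, hl.xl3, hg1, hug, hXc0, hXc1, a1, a2, a3]
      · linarith only [hb.M0, hb.ZM, hb.uy, hb.uax, hj.A2, hb.eZ, h110, hg1, hXc1, a1, a2, a3]
    · linarith only [hj.A2, h110, hl.xua, hl.xvb, hl.xyM, hg1, hX0, hXc1, a2]
    · linarith only [hb.z0, hb.uy, hb.uax, hb.eU, hj.zMA, h110, hl.xua, hl.xl3, hg1, a2]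
    · linarith only [hj.A2, hb.v2y, hb.be1, h110, hl.xvb, hl.xyM, hg1, a2]
    · rcases tO with a3 | a3 | a3 | a3 | a3 | a3 | a3
      · linarith only [hb.M0, hg1, hXc1, a3]
      · linarith only [hb.z0, hb.eU, hj.zA, hb.eZ, h110, hl.xl3, hg1, hug, hXc0, hXc1, a1, a2, a3]
      · linarith only [hb.uy, hb.uax, hl.xua, hl.xyM, hl.xuz, hg1, a3]
      · linarith only [hb.ZM, hb.uy, hb.uax, hl.xua, hl.xeU, hug, a3]
      · linarith only [hl.xyM, hl.xbe, hg1, a3]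
      · linarith only [hb.z0, hj.zA, hb.eZ, h110, hl.xl3, hg1, hug, hXc0, hXc1, a1, a2, a3]
      · linarith only [hb.ZM, hb.uy, hb.uax, hb.eZ, hl.xua, hg1, hXc0, a1, a3]
    · linarith only [hb.ZM, hb.uy, hb.uax, hb.eU, hj.A2, h110, hl.xua, hg1, hXc0, a1, a2]
  · linarith only [hb.uy, hb.uax, hb.eU, hl.xua, hl.xyM, hl.xbe, hg1, hXc1, a1]

theorem r13c_j1_N_2 {th lam y z g X MB MA m11 u1 u2 ux ua al v2 vb be : ℝ}
    (hb : MB0 th lam y z MB u1 u2 ux ua al v2 vb be) (hj : MJ th lam y z MB MA) (h110 : 0 ≤ m11)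
    (hl : L3c th lam y MB u1 ua al vb be) (hg1 : 1 ≤ g) (hug : ua ≤ g) (hX : X ≤ 2)
    (tA : FT th (-g) X 0 (th + ua) al be)
    (tE : FT th (-g) X (MA - m11) (th + ua + vb - y) al (y - vb - be)) : False := by
  rcases tA with a1 | a1 | a1 | a1 | a1 | a1 | a1
  · linarith only [hb.v2y, hb.vb2, hl.xvb, hl.xyM, hg1, hX, a1]
  · linarith only [hug, a1]
  · linarith only [hb.uy, hl.xua, hl.xu1, hl.xyM, hug, a1]
  · linarith only [hb.ZM, hb.uy, hb.uax, hb.eU, hl.xua, hg1, a1]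
  · linarith only [hl.xyM, hl.xbe, hg1, a1]
  · rcases tE with a2 | a2 | a2 | a2 | a2 | a2 | a2
    · linarith only [hb.z0, hj.zMA, hb.v2y, hb.vb2, h110, hl.xvb, hl.xl3, hg1, hX, a2]
    · linarith only [hb.M0, hb.ZM, hb.uy, hb.uax, hb.eU, hj.A2, hb.eZ, h110, hg1, hug, hX, a1, a2]
    · linarith only [hb.ZM, hb.uy, hj.A2, h110, hl.xua, hl.xvb, hl.xu1, hg1, a2]
    · linarith only [hb.z0, hb.uy, hb.uax, hb.eU, hj.zMA, h110, hl.xua, hl.xl3, hg1, a2]
    · linarith only [hj.A2, hb.v2y, hb.be1, h110, hl.xvb, hl.xyM, hg1, a2]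
    · linarith only [hb.M0, hb.ZM, hb.uy, hb.uax, hb.eU, hj.A2, h110, hg1, hX, a1, a2]
    · linarith only [hb.ZM, hb.uy, hb.uax, hb.eU, hj.A2, h110, hl.xua, hl.xvb, hg1, hX, a1, a2]
  · linarith only [hb.uy, hb.uax, hb.eU, hl.xua, hl.xyM, hl.xuz, hl.xbe, hg1, hX, a1]

theorem r13c_j1_L_Y {th lam y z g nb Y sg D L X MB MA m11 m12 u1 u2 ux ua al v2 vb be sy ay cy : ℝ}
    (hb : MB0 th lam y z MB u1 u2 ux ua al v2 vb be) (hj : MJ th lam y z MB MA) (h110 : 0 ≤ m11)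
    (h112 : m11 ≤ 2) (h122 : m12 ≤ 2) (hl : L3c th lam y MB u1 ua al vb be) (hs0 : 0 ≤ sg)
    (hg1 : 1 ≤ g) (hn1 : 1 ≤ nb) (hug : ua ≤ g) (hy : LY sy ay cy) (hyp1 : sy < MB + vb + 2)
    (hyp2 : MB + sy + 2 ≤ th) (hsL : sy ≤ L) (hD : nb + D + cy ≤ z)
    (hDL : nb + Y + sg + D + L + cy ≤ th + y + z) (hX : Y = X + sy)
    (t11 : FT th (D + ay) (L - sy) m11 (vb - ua) (y - vb - be) al)
    (t12 : FT th (D + ay) (L - sy) m12 (v2 - u1) (v2 + be - y) (u1 - ua - al))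
    (tA : FT th (-g) X 0 (th + ua) al be)
    (tE : FT th (-g) X (MA - m11) (th + ua + vb - y) al (y - vb - be))
    (tO : FT th (-g) X 2 (th + ux + ua - u1) (u1 - ux - al) be) : False := by
  rcases t12 with a1 | a1 | a1 | a1 | a1 | a1 | a1
  · rcases tA with a2 | a2 | a2 | a2 | a2 | a2 | a2
    · linarith only [hj.A0, hj.zA, h122, hl.xl3, hs0, hg1, hn1, hy.a1, hy.c0, hy.say, hDL, hX, a1, a2]
    · linarith only [hug, a2]
    · linarith only [hl.xua, hug, hy.a1, hy.say, hyp2, a2]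
    · linarith only [hb.uy, hb.uax, hb.eU, hl.xua, hl.xyM, hg1, a2]
    · linarith only [hl.xyM, hl.xbe, hg1, a2]
    · rcases tE with a3 | a3 | a3 | a3 | a3 | a3 | a3
      · linarith only [hj.zMA, h110, h122, hl.xua, hl.xl3, hs0, hn1, hug, hy.a1, hy.c0, hy.say, hDL, hX, a1, a3]
      · rcases tO with a4 | a4 | a4 | a4 | a4 | a4 | a4
        · linarith only [hj.A0, hj.zA, h122, hl.xl3, hs0, hg1, hn1, hy.a1, hy.c0, hy.say, hDL, hX, a1, a4]
        · linarith only [hb.eU, hj.zA, hb.eZ, h110, h122, hl.xl3, hs0, hg1, hn1, hug, hy.a1, hy.c0, hy.say, hDL, hX, a1, a2, a3, a4]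
        · linarith only [hb.uy, hb.uax, hl.xua, hl.xyM, hl.xuz, hg1, a4]
        · linarith only [hb.M0, hb.ZM, hb.uy, hb.uax, hl.xeU, hg1, a4]
        · linarith only [hl.xyM, hl.xbe, hg1, a4]
        · linarith only [hj.zA, hb.eZ, h110, h122, hl.xl3, hs0, hg1, hn1, hug, hy.a1, hy.c0, hy.say, hDL, hX, a1, a2, a3, a4]
        · linarith only [hb.uy, hb.uax, hj.zMA, hb.eZ, h110, h122, hl.xua, hl.xl3, hl.xyM, hs0, hg1, hn1, hug, hy.a1, hy.c0, hy.say, hDL, hX, a1, a2, a3, a4]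
      · linarith only [hj.A2, h110, hl.xua, hl.xyM, hg1, hy.a1, hy.say, hyp1, hyp2, a3]
      · linarith only [hb.z0, hb.uy, hb.uax, hb.eU, hj.zMA, h110, hl.xua, hl.xl3, hg1, a3]
      · linarith only [hj.A2, hb.v2y, hb.be1, h110, hl.xvb, hl.xyM, hg1, a3]
      · rcases tO with a4 | a4 | a4 | a4 | a4 | a4 | a4
        · linarith only [hj.A0, hj.zA, h122, hl.xl3, hs0, hg1, hn1, hy.a1, hy.c0, hy.say, hDL, hX, a1, a4]
        · linarith only [hb.eU, hj.zA, h110, h122, hl.xl3, hs0, hg1, hn1, hug, hy.a1, hy.c0, hy.say, hDL, hX, a1, a2, a3, a4]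
        · linarith only [hb.uy, hb.uax, hl.xua, hl.xyM, hl.xuz, hg1, a4]
        · linarith only [hb.M0, hb.ZM, hb.uy, hb.uax, hl.xeU, hg1, a4]
        · linarith only [hl.xyM, hl.xbe, hg1, a4]
        · linarith only [hj.zA, h110, h122, hl.xl3, hs0, hg1, hn1, hug, hy.a1, hy.c0, hy.say, hDL, hX, a1, a3, a4]
        · linarith only [hb.uy, hb.uax, hj.zMA, h110, h122, hl.xua, hl.xl3, hl.xyM, hs0, hg1, hn1, hug, hy.a1, hy.c0, hy.say, hDL, hX, a1, a3, a4]
      · rcases tO with a4 | a4 | a4 | a4 | a4 | a4 | a4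
        · linarith only [hj.A0, hj.zA, h122, hl.xl3, hs0, hg1, hn1, hy.a1, hy.c0, hy.say, hDL, hX, a1, a4]
        · linarith only [hb.eU, hj.zMA, h110, h122, hl.xua, hl.xl3, hl.xyM, hs0, hg1, hn1, hug, hy.a1, hy.c0, hy.say, hyp1, hDL, hX, a1, a2, a3, a4]
        · linarith only [hb.uy, hb.uax, hl.xua, hl.xyM, hl.xuz, hg1, a4]
        · linarith only [hb.M0, hb.ZM, hb.uy, hb.uax, hl.xeU, hg1, a4]
        · linarith only [hl.xyM, hl.xbe, hg1, a4]
        · linarith only [hj.zMA, h110, h122, hl.xua, hl.xvb, hl.xl3, hl.xyM, hs0, hg1, hn1, hug, hy.a1, hy.c0, hy.say, hDL, hX, a1, a3, a4]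
        · linarith only [hb.uy, hb.uax, hj.zMA, h110, h122, hl.xua, hl.xl3, hl.xyM, hs0, hg1, hn1, hy.a1, hy.c0, hy.say, hyp1, hDL, hX, a1, a3, a4]
    · linarith only [hb.uy, hb.uax, hb.eU, hj.A0, hj.zMA, h122, hl.xua, hl.xl3, hl.xyM, hl.xbe, hs0, hg1, hn1, hy.a1, hy.c0, hy.say, hDL, hX, a1, a2]
  · linarith only [hj.A0, hj.zA, hb.v2y, h122, hl.xl3, hl.xu1, hn1, hy.ac, hD, a1]
  · linarith only [hb.zM, hb.uy, hb.vb2, h122, hl.xl3, hn1, hy.c0, hy.say, hyp1, hD, a1]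
  · linarith only [hb.zM, hb.v2y, hb.eZ, h122, hl.xl3, hn1, hy.c0, hy.say, hyp1, hD, a1]
  · linarith only [hb.ZM, hb.uy, hj.A0, hj.zA, h122, hl.xl3, hl.xeU, hn1, hy.ac, hD, a1]
  · rcases tA with a2 | a2 | a2 | a2 | a2 | a2 | a2
    · rcases t11 with a3 | a3 | a3 | a3 | a3 | a3 | a3
      · linarith only [hj.A0, hj.zA, h112, hl.xl3, hs0, hg1, hn1, hy.a1, hy.c0, hy.say, hDL, hX, a2, a3]
      · linarith only [hj.A0, hj.zA, hj.zMA, hb.v2y, hb.eZ, h112, h122, hl.xua, hl.xl3, hl.xyM, hl.xeU, hs0, hg1, hn1, hy.ac, hy.c0, hy.say, hD, hDL, hX, a1, a2, a3]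
      · linarith only [hj.A0, hj.zMA, h112, hl.xl3, hs0, hn1, hug, hy.a1, hy.c0, hy.say, hyp1, hsL, hDL, hX, a2, a3]
      · linarith only [hj.A0, hj.zA, hj.zMA, hb.v2y, h112, h122, hl.xvb, hl.xl3, hl.xyM, hl.xeU, hs0, hg1, hn1, hy.ac, hy.c0, hy.say, hD, hDL, hX, a1, a2, a3]
      · linarith only [hj.A0, hj.zA, hj.zMA, hb.v2y, h112, h122, hl.xua, hl.xl3, hl.xbe, hs0, hg1, hn1, hy.ac, hy.c0, hy.say, hD, hDL, hX, a1, a2, a3]
      · linarith only [hj.A0, hj.zA, hj.zMA, hb.v2y, h112, h122, hl.xua, hl.xl3, hs0, hg1, hn1, hy.c0, hy.say, hD, hDL, hX, a1, a2, a3]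
      · linarith only [hj.A0, hj.zA, hj.zMA, hb.v2y, h112, h122, hl.xvb, hl.xl3, hs0, hg1, hn1, hy.c0, hy.say, hD, hDL, hX, a1, a2, a3]
    · linarith only [hug, a2]
    · linarith only [hl.xua, hug, hy.a1, hy.say, hyp2, a2]
    · linarith only [hb.uy, hb.uax, hb.eU, hl.xua, hl.xyM, hg1, a2]
    · linarith only [hl.xyM, hl.xbe, hg1, a2]
    · rcases tE with a3 | a3 | a3 | a3 | a3 | a3 | a3
      · rcases t11 with a4 | a4 | a4 | a4 | a4 | a4 | a4
        · linarith only [hj.zA, hl.xl3, hs0, hg1, hn1, hy.a1, hy.c0, hy.say, hDL, hX, a3, a4]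
        · linarith only [hj.A0, hj.zA, hj.zMA, hb.v2y, hb.eZ, h112, h122, hl.xua, hl.xl3, hs0, hg1, hn1, hy.ac, hy.c0, hy.say, hD, hDL, hX, a1, a2, a4]
        · linarith only [hj.zMA, hl.xl3, hs0, hn1, hug, hy.a1, hy.c0, hy.say, hyp1, hsL, hDL, hX, a3, a4]
        · linarith only [hj.A0, hj.zA, hj.zMA, hb.v2y, h112, h122, hl.xvb, hl.xl3, hs0, hg1, hn1, hy.ac, hy.c0, hy.say, hD, hDL, hX, a1, a2, a4]
        · linarith only [hj.A0, hj.zA, hj.zMA, hb.v2y, h122, hl.xua, hl.xl3, hl.xbe, hs0, hg1, hn1, hy.ac, hy.c0, hy.say, hD, hDL, hX, a1, a3, a4]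
        · linarith only [hj.A0, hj.zA, hj.zMA, hb.v2y, h122, hl.xua, hl.xl3, hs0, hg1, hn1, hy.c0, hy.say, hD, hDL, hX, a1, a3, a4]
        · linarith only [hj.A0, hj.zA, hj.zMA, hb.v2y, h122, hl.xvb, hl.xl3, hs0, hg1, hn1, hy.c0, hy.say, hD, hDL, hX, a1, a3, a4]
      · linarith only [hj.zA, hb.v2y, hb.eZ, h110, h122, hl.xl3, hs0, hg1, hn1, hug, hy.c0, hy.say, hD, hDL, hX, a1, a2, a3]
      · linarith only [hj.A2, h110, hl.xua, hl.xyM, hg1, hy.a1, hy.say, hyp1, hyp2, a3]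
      · linarith only [hb.z0, hb.uy, hb.uax, hb.eU, hj.zMA, h110, hl.xua, hl.xl3, hg1, a3]
      · linarith only [hj.A2, hb.v2y, hb.be1, h110, hl.xvb, hl.xyM, hg1, a3]
      · linarith only [hj.zA, hb.v2y, h110, h122, hl.xl3, hs0, hg1, hn1, hy.c0, hy.say, hD, hDL, hX, a1, a3]
      · linarith only [hj.zMA, hb.v2y, h110, h122, hl.xua, hl.xvb, hl.xl3, hl.xyM, hs0, hg1, hn1, hy.c0, hy.say, hD, hDL, hX, a1, a3]
    · linarith only [hj.A0, hj.zMA, hb.v2y, h122, hl.xua, hl.xl3, hl.xyM, hl.xbe, hs0, hg1, hn1, hy.c0, hy.say, hD, hDL, hX, a1, a2]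
  · rcases tA with a2 | a2 | a2 | a2 | a2 | a2 | a2
    · rcases t11 with a3 | a3 | a3 | a3 | a3 | a3 | a3
      · linarith only [hj.A0, hj.zA, h112, hl.xl3, hs0, hg1, hn1, hy.a1, hy.c0, hy.say, hDL, hX, a2, a3]
      · linarith only [hb.uy, hj.A0, hj.zA, hj.zMA, hb.eZ, h112, h122, hl.xua, hl.xl3, hl.xyM, hl.xeU, hs0, hn1, hug, hy.ac, hy.c0, hy.say, hD, hDL, hX, a1, a2, a3]
      · linarith only [hj.A0, hj.zMA, h112, hl.xl3, hs0, hn1, hug, hy.a1, hy.c0, hy.say, hyp1, hsL, hDL, hX, a2, a3]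
      · linarith only [hb.uy, hb.al0, hj.A0, hj.zA, hj.zMA, h112, h122, hl.xua, hl.xl3, hs0, hg1, hn1, hy.c0, hy.say, hyp1, hD, hDL, hX, a1, a2, a3]
      · linarith only [hb.uy, hj.A0, hj.zA, hj.zMA, h112, h122, hl.xua, hl.xl3, hl.xbe, hs0, hg1, hn1, hy.ac, hy.c0, hy.say, hD, hDL, hX, a1, a2, a3]
      · linarith only [hb.uy, hj.A0, hj.zA, hj.zMA, h112, h122, hl.xua, hl.xl3, hs0, hg1, hn1, hy.c0, hy.say, hD, hDL, hX, a1, a2, a3]
      · linarith only [hb.uy, hj.A0, hj.zMA, h112, h122, hl.xua, hl.xl3, hs0, hn1, hug, hy.a1, hy.c0, hy.say, hyp1, hD, hDL, hX, a1, a2, a3]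
    · linarith only [hug, a2]
    · linarith only [hl.xua, hug, hy.a1, hy.say, hyp2, a2]
    · linarith only [hb.uy, hb.uax, hb.eU, hl.xua, hl.xyM, hg1, a2]
    · linarith only [hl.xyM, hl.xbe, hg1, a2]
    · rcases tE with a3 | a3 | a3 | a3 | a3 | a3 | a3
      · rcases t11 with a4 | a4 | a4 | a4 | a4 | a4 | a4
        · linarith only [hj.zA, hl.xl3, hs0, hg1, hn1, hy.a1, hy.c0, hy.say, hDL, hX, a3, a4]
        · linarith only [hb.uy, hb.al0, hj.A0, hj.zA, hj.zMA, hb.eZ, h122, hl.xua, hl.xl3, hs0, hg1, hn1, hy.ac, hy.c0, hy.say, hD, hDL, hX, a1, a3, a4]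
        · linarith only [hj.zMA, hl.xl3, hs0, hn1, hug, hy.a1, hy.c0, hy.say, hyp1, hsL, hDL, hX, a3, a4]
        · linarith only [hb.uy, hb.al0, hj.A0, hj.zA, hj.zMA, h122, hl.xua, hl.xl3, hs0, hg1, hn1, hy.c0, hy.say, hyp1, hD, hDL, hX, a1, a3, a4]
        · linarith only [hb.uy, hj.A0, hj.zA, hj.zMA, h122, hl.xua, hl.xl3, hl.xbe, hs0, hg1, hn1, hy.ac, hy.c0, hy.say, hD, hDL, hX, a1, a3, a4]
        · linarith only [hb.uy, hj.A0, hj.zMA, h122, hl.xua, hl.xl3, hs0, hn1, hug, hy.c0, hy.say, hD, hDL, hX, a1, a3, a4]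
        · linarith only [hb.uy, hj.A0, hj.zMA, h122, hl.xua, hl.xl3, hs0, hn1, hug, hy.a1, hy.c0, hy.say, hyp1, hD, hDL, hX, a1, a3, a4]
      · linarith only [hb.uy, hj.zA, hb.eZ, h110, h122, hl.xl3, hs0, hg1, hn1, hug, hy.c0, hy.say, hD, hDL, hX, a1, a2, a3]
      · linarith only [hj.A2, h110, hl.xua, hl.xyM, hg1, hy.a1, hy.say, hyp1, hyp2, a3]
      · linarith only [hb.z0, hb.uy, hb.uax, hb.eU, hj.zMA, h110, hl.xua, hl.xl3, hg1, a3]
      · linarith only [hj.A2, hb.v2y, hb.be1, h110, hl.xvb, hl.xyM, hg1, a3]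
      · linarith only [hb.uy, hj.zA, h110, h122, hl.xl3, hs0, hg1, hn1, hy.c0, hy.say, hD, hDL, hX, a1, a3]
      · linarith only [hb.uy, hj.zMA, h110, h122, hl.xua, hl.xl3, hl.xyM, hs0, hg1, hn1, hy.a1, hy.c0, hy.say, hyp1, hD, hDL, hX, a1, a3]
    · linarith only [hb.uy, hj.A0, hj.zMA, h122, hl.xua, hl.xl3, hl.xyM, hl.xbe, hs0, hg1, hn1, hy.c0, hy.say, hD, hDL, hX, a1, a2]

theorem r13c_j1_L_S {th lam y z g Y X MB MA m11 u1 u2 ux ua al v2 vb be sy ay cy : ℝ}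
    (hb : MB0 th lam y z MB u1 u2 ux ua al v2 vb be) (hj : MJ th lam y z MB MA) (h110 : 0 ≤ m11)
    (hl : L3c th lam y MB u1 ua al vb be) (hY0 : 0 ≤ Y) (hg1 : 1 ≤ g) (hug : ua ≤ g)
    (hy : LY sy ay cy) (hyp1 : sy < MB + vb + 2) (hyp2 : MB + sy + 2 ≤ th) (hXa : Y ≤ X + sy)
    (hX : sy = Y + X) (tA : FT th (-g) X 0 (th + ua) al be)
    (tE : FT th (-g) X (MA - m11) (th + ua + vb - y) al (y - vb - be))
    (tO : FT th (-g) X 2 (th + ux + ua - u1) (u1 - ux - al) be) : False := by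
  rcases tA with a1 | a1 | a1 | a1 | a1 | a1 | a1
  · linarith only [hl.xua, hY0, hug, hyp2, hX, a1]
  · linarith only [hug, a1]
  · linarith only [hl.xua, hug, hy.a1, hy.say, hyp2, a1]
  · linarith only [hb.ZM, hb.uy, hb.uax, hb.eU, hl.xua, hg1, a1]
  · linarith only [hl.xyM, hl.xbe, hg1, a1]
  · rcases tE with a2 | a2 | a2 | a2 | a2 | a2 | a2
    · linarith only [hb.M0, hj.A2, h110, hY0, hg1, hyp2, hX, a2]
    · rcases tO with a3 | a3 | a3 | a3 | a3 | a3 | a3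
      · linarith only [hb.M0, hY0, hg1, hyp2, hX, a3]
      · linarith only [hb.z0, hb.eU, hj.zA, hb.eZ, h110, hl.xl3, hl.xeU, hY0, hug, hyp2, hX, a1, a2, a3]
      · linarith only [hb.uy, hb.uax, hl.xua, hl.xyM, hl.xuz, hg1, a3]
      · linarith only [hb.M0, hb.ZM, hb.uy, hb.uax, hl.xeU, hg1, a3]
      · linarith only [hl.xyM, hl.xbe, hg1, a3]
      · linarith only [hb.z0, hj.zA, hb.eZ, h110, hl.xl3, hY0, hg1, hug, hyp1, hyp2, hX, a1, a2, a3]
      · linarith only [hb.uy, hb.uax, hb.eZ, hl.xua, hl.xyM, hY0, hg1, hyp1, hX, a1, a3]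
    · linarith only [hj.A2, h110, hl.xua, hl.xvb, hl.xyM, hY0, hg1, hyp2, hXa, hX, a2]
    · linarith only [hb.z0, hb.uy, hb.uax, hb.eU, hj.zMA, h110, hl.xua, hl.xl3, hg1, a2]
    · linarith only [hj.A2, hb.v2y, hb.be1, h110, hl.xvb, hl.xyM, hg1, a2]
    · rcases tO with a3 | a3 | a3 | a3 | a3 | a3 | a3
      · linarith only [hb.M0, hY0, hg1, hyp2, hX, a3]
      · linarith only [hb.z0, hb.eU, hj.zA, h110, hl.xl3, hl.xeU, hY0, hug, hyp2, hX, a1, a2, a3]
      · linarith only [hb.uy, hb.uax, hl.xua, hl.xyM, hl.xuz, hg1, a3]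
      · linarith only [hb.M0, hb.ZM, hb.uy, hb.uax, hl.xeU, hg1, a3]
      · linarith only [hl.xyM, hl.xbe, hg1, a3]
      · linarith only [hb.z0, hj.zA, hb.eZ, h110, hl.xl3, hY0, hg1, hug, hyp1, hyp2, hX, a1, a2, a3]
      · linarith only [hb.uy, hb.uax, hb.eZ, hl.xua, hl.xyM, hY0, hg1, hyp1, hX, a1, a3]
    · linarith only [hb.uy, hb.uax, hb.eU, hj.A2, h110, hl.xua, hl.xyM, hY0, hg1, hyp1, hX, a1, a2]
  · linarith only [hb.uy, hb.uax, hb.eU, hl.xua, hl.xyM, hl.xbe, hY0, hg1, hyp2, hX, a1]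

theorem r13c_j1_L_wQ {th lam y z g X MB u1 u2 ux ua al v2 vb be sy ay cy : ℝ}
    (hb : MB0 th lam y z MB u1 u2 ux ua al v2 vb be) (hl : L3c th lam y MB u1 ua al vb be)
    (hg1 : 1 ≤ g) (hug : ua ≤ g) (hy : LY sy ay cy) (hyp2 : MB + sy + 2 ≤ th) (hXc0 : X < MB + vb)
    (tA : FT th (-g) X 0 (th + ua) al be)
    (tO : FT th (-g) X 2 (th + ux + ua - u1) (u1 - ux - al) be) : False := by
  rcases tA with a1 | a1 | a1 | a1 | a1 | a1 | a1
  · linarith only [hb.v2y, hb.vb2, hl.xyM, hg1, hXc0, a1]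
  · linarith only [hug, a1]
  · linarith only [hl.xua, hug, hy.a1, hy.say, hyp2, a1]
  · linarith only [hb.ZM, hb.uy, hb.uax, hb.eU, hl.xua, hg1, a1]
  · linarith only [hl.xyM, hl.xbe, hg1, a1]
  · rcases tO with a2 | a2 | a2 | a2 | a2 | a2 | a2
    · linarith only [hb.v2y, hb.vb2, hl.xyM, hg1, hXc0, a2]
    · linarith only [hb.eU, hb.eZ, hl.xyM, hg1, hug, hXc0, a1, a2]
    · linarith only [hb.uy, hb.uax, hl.xua, hl.xyM, hl.xuz, hg1, a2]
    · linarith only [hb.M0, hb.ZM, hb.uy, hb.uax, hl.xeU, hg1, a2]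
    · linarith only [hl.xyM, hl.xbe, hg1, a2]
    · linarith only [hb.eZ, hl.xyM, hg1, hug, hXc0, a1, a2]
    · linarith only [hb.uy, hb.uax, hb.eZ, hl.xua, hl.xyM, hg1, hXc0, a1, a2]
  · linarith only [hb.ZM, hb.uy, hb.uax, hb.eU, hb.eZ, hl.xua, hl.xu1, hg1, hXc0, a1]

theorem r13c_j1_L_wP {th lam y z g Y X MB MA m11 u1 u2 ux ua al v2 vb be sy : ℝ}
    (hb : MB0 th lam y z MB u1 u2 ux ua al v2 vb be) (hj : MJ th lam y z MB MA) (h110 : 0 ≤ m11)
    (hl : L3c th lam y MB u1 ua al vb be) (hg1 : 1 ≤ g) (hug : ua ≤ g) (hX0 : 0 ≤ X)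
    (hXa : Y ≤ X + sy) (hXb : sy ≤ Y + X) (hXc0 : X < MB + vb + 2) (hXc1 : X + MB + 2 ≤ th)
    (tA : FT th (-g) X 0 (th + ua) al be)
    (tE : FT th (-g) X (MA - m11) (th + ua + vb - y) al (y - vb - be))
    (tO : FT th (-g) X 2 (th + ux + ua - u1) (u1 - ux - al) be) : False := by
  rcases tA with a1 | a1 | a1 | a1 | a1 | a1 | a1
  · linarith only [hl.xua, hug, hXc1, a1]
  · linarith only [hug, a1]
  · linarith only [hl.xua, hug, hXa, hXb, hXc1, a1]
  · linarith only [hb.uy, hb.uax, hb.eU, hl.xua, hl.xyM, hg1, a1]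
  · linarith only [hl.xyM, hl.xbe, hg1, a1]
  · rcases tE with a2 | a2 | a2 | a2 | a2 | a2 | a2
    · linarith only [hb.M0, hj.A2, h110, hg1, hXc1, a2]
    · rcases tO with a3 | a3 | a3 | a3 | a3 | a3 | a3
      · linarith only [hb.M0, hg1, hXc1, a3]
      · linarith only [hb.z0, hb.eU, hj.zA, hb.eZ, h110, hl.xl3, hg1, hug, hXc0, hXc1, a1, a2, a3]
      · linarith only [hb.uy, hb.uax, hl.xua, hl.xyM, hl.xuz, hg1, a3]
      · linarith only [hb.M0, hb.ZM, hb.uy, hb.uax, hl.xeU, hg1, a3]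
      · linarith only [hl.xyM, hl.xbe, hg1, a3]
      · linarith only [hb.z0, hj.zA, hb.eZ, h110, hl.xl3, hg1, hug, hXc0, hXc1, a1, a2, a3]
      · linarith only [hb.uy, hb.uax, hb.eZ, hl.xua, hl.xyM, hg1, hXc0, a1, a3]
    · linarith only [hj.A2, h110, hl.xua, hl.xvb, hl.xyM, hg1, hX0, hXc1, a2]
    · linarith only [hb.z0, hb.uy, hb.uax, hb.eU, hj.zMA, h110, hl.xua, hl.xl3, hg1, a2]
    · linarith only [hj.A2, hb.v2y, hb.be1, h110, hl.xvb, hl.xyM, hg1, a2]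
    · rcases tO with a3 | a3 | a3 | a3 | a3 | a3 | a3
      · linarith only [hb.M0, hg1, hXc1, a3]
      · linarith only [hb.z0, hb.eU, hj.zA, hb.eZ, h110, hl.xl3, hg1, hug, hXc0, hXc1, a1, a2, a3]
      · linarith only [hb.uy, hb.uax, hl.xua, hl.xyM, hl.xuz, hg1, a3]
      · linarith only [hb.M0, hb.ZM, hb.uy, hb.uax, hl.xeU, hg1, a3]
      · linarith only [hl.xyM, hl.xbe, hg1, a3]
      · linarith only [hb.z0, hj.zA, hb.eZ, h110, hl.xl3, hg1, hug, hXc0, hXc1, a1, a2, a3]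
      · linarith only [hb.uy, hb.uax, hb.eZ, hl.xua, hl.xyM, hg1, hXc0, a1, a3]
    · linarith only [hb.uy, hb.uax, hb.eU, hj.A2, h110, hl.xua, hl.xyM, hg1, hXc0, a1, a2]
  · linarith only [hb.uy, hb.uax, hb.eU, hb.eZ, hl.xua, hl.xvb, hl.xyM, hg1, hXc1, a1]

theorem r13c_j1_L_2 {th lam y z g X MB MA m11 u1 u2 ux ua al v2 vb be sy ay cy : ℝ}
    (hb : MB0 th lam y z MB u1 u2 ux ua al v2 vb be) (hj : MJ th lam y z MB MA) (h110 : 0 ≤ m11)
    (hl : L3c th lam y MB u1 ua al vb be) (hg1 : 1 ≤ g) (hug : ua ≤ g) (hy : LY sy ay cy)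
    (hyp1 : sy < MB + vb + 2) (hyp2 : MB + sy + 2 ≤ th) (hX : X ≤ 2)
    (tA : FT th (-g) X 0 (th + ua) al be)
    (tE : FT th (-g) X (MA - m11) (th + ua + vb - y) al (y - vb - be)) : False := by
  rcases tA with a1 | a1 | a1 | a1 | a1 | a1 | a1
  · linarith only [hl.xua, hug, hy.a1, hy.say, hyp2, hX, a1]
  · linarith only [hug, a1]
  · linarith only [hl.xua, hug, hy.a1, hy.say, hyp2, a1]
  · linarith only [hb.ZM, hb.uy, hb.uax, hb.eU, hl.xua, hg1, a1]
  · linarith only [hl.xyM, hl.xbe, hg1, a1]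
  · rcases tE with a2 | a2 | a2 | a2 | a2 | a2 | a2
    · linarith only [hb.z0, hj.zMA, hb.v2y, hb.vb2, h110, hl.xvb, hl.xl3, hg1, hX, a2]
    · linarith only [hb.M0, hb.ZM, hb.uy, hb.uax, hb.eU, hj.A2, hb.eZ, h110, hg1, hug, hX, a1, a2]
    · linarith only [hj.A2, h110, hl.xua, hl.xyM, hg1, hy.a1, hy.say, hyp1, hyp2, a2]
    · linarith only [hb.z0, hb.uy, hb.uax, hb.eU, hj.zMA, h110, hl.xua, hl.xl3, hg1, a2]
    · linarith only [hj.A2, hb.v2y, hb.be1, h110, hl.xvb, hl.xyM, hg1, a2]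
    · linarith only [hb.M0, hb.ZM, hb.uy, hb.uax, hb.eU, hj.A2, h110, hg1, hX, a1, a2]
    · linarith only [hb.ZM, hb.uy, hb.uax, hb.eU, hj.A2, h110, hl.xua, hl.xvb, hg1, hX, a1, a2]
  · linarith only [hb.uy, hb.uax, hb.eU, hl.xua, hl.xyM, hl.xuz, hl.xbe, hg1, hX, a1]

end Pool.Agent.Exact


end

section

/-!
# The regions for all leaves with hubs of both types
-/

set_option autoImplicit false
set_option linter.unusedVariables false

namespace Pool.Agent.Exact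

/-- facts if `2θ - n + 1 ≤ Λ` -/
def HL (i : ℕ) (th lam y u1 v2 vb1 vb Λ : ℝ) : Prop :=
  Λ ≤ lam ∨ (lam ≤ Λ ∧ 2 * th + y ≤ Λ * (th - lam - u1) ∧
    3 * th + y + vb ≤ (Λ + 1) * (th - lam - u1) ∧ 3 ≤ th - lam - u1 ∧
    (1 ≤ i → 5 * th + y + v2 + vb1 + vb ≤ (Λ + 3) * (th - lam - u1))) ∨
  (lam ≤ Λ ∧ 3 ≤ th - lam - y ∧ 2 * th + u1 ≤ Λ * (th - lam - y))

/-- all data of a leaf -/
structure MXD (i j : ℕ) (th lam y z MB MA Qc Pc m11 m12 u1 u2 ux ua al v2 vb1 vb be : ℝ) :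
    Prop where
  hb : MB0 th lam y z MB u1 u2 ux ua al v2 vb be
  hj0 : j = 0 → ua = u1 ∧ al = 0 ∧ MA = MB
  hj : 1 ≤ j → MJ th lam y z MB MA
  h1 : 1 ≤ i → vb1 ≤ v2 ∧ vb ≤ vb1 ∧ y - v2 + (vb1 - vb) ≤ be
  i0 : i = 0 → vb = v2 ∧ y = vb + be
  m110 : 0 ≤ m11
  m112 : m11 ≤ 2
  m120 : 0 ≤ m12
  m122 : m12 ≤ 2
  m11i : m11 = 0 ∨ 1 ≤ m11
  mm : i = 0 → j = 0 → m12 = m11
  leaf : (L2a y MB u1 ua vb ∧ Qc < vb + MB ∧ Pc < ua) ∨
    (L2c th y MB u1 ua al vb be ∧ (1 ≤ i → 3 ≤ lam) ∧ Qc < ua + 2 ∧ Qc ≤ th - 2 ∧ Pc < ua) ∨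
    (L3c th lam y MB u1 ua al vb be ∧ Qc < vb + MB ∧ Pc < vb + MB + 2 ∧ Pc ≤ th - MB - 2)
  H3 : HL i th lam y u1 v2 vb1 vb 3
  H4 : HL i th lam y u1 v2 vb1 vb 4

theorem MXD.rlRN {i j : ℕ} {th lam y z MB MA Qc Pc m11 m12 u1 u2 ux ua al v2 vb1 vb be nb D L : ℝ}
    (d : MXD i j th lam y z MB MA Qc Pc m11 m12 u1 u2 ux ua al v2 vb1 vb be)
    (hua : 0 ≤ ua) (hDL : D + L + 2 ≤ th) (hL0 : 0 ≤ L) (hn1 : 1 ≤ nb)
    (hD : nb + D ≤ z)
    (t11 : FT th D L m11 (vb - ua) (y - vb - be) al)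
    (t12 : FT th D L m12 (v2 - u1) (v2 + be - y) (u1 - ua - al)) : False := by
  rcases d.leaf with ⟨hl, hQ, hP⟩ | ⟨hl, hi3, hQ, hQ', hP⟩ | ⟨hl, hQ, hP, hP'⟩
  · exact rl2a_RN (th := th) (lam := lam) (y := y) (z := z) (nb := nb) (D := D) (L := L)
      (MB := MB) (m11 := m11) (m12 := m12) (u1 := u1) (u2 := u2) (ux := ux) (ua := ua) (al := al)
      (v2 := v2) (vb := vb) (be := be) (hb := d.hb) (h112 := d.m112) (h122 := d.m122) (hl := hl)
      (hDL := hDL) (hn1 := hn1) (hD := hD) (t11 := t11) (t12 := t12)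
  · rcases Nat.eq_zero_or_pos i with h0 | h0
    · obtain ⟨hi1, hi2⟩ := d.i0 h0
      exact rl2c_RN_i0 (th := th) (lam := lam) (y := y) (z := z) (nb := nb) (D := D) (L := L)
        (MB := MB) (m11 := m11) (m12 := m12) (u1 := u1) (u2 := u2) (ux := ux) (ua := ua)
        (al := al) (v2 := v2) (vb := vb) (be := be) (hb := d.hb) (hi1 := by linarith)
        (hi2 := by linarith) (h112 := d.m112) (h122 := d.m122) (hl := hl) (hDL := hDL)
        (hL0 := hL0) (hn1 := hn1) (hD := hD) (t11 := t11) (t12 := t12)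
    · have hl3 := hi3 h0
      exact rl2c_RN_i1 (th := th) (lam := lam) (y := y) (z := z) (nb := nb) (D := D) (L := L)
        (MB := MB) (m11 := m11) (m12 := m12) (u1 := u1) (u2 := u2) (ux := ux) (ua := ua)
        (al := al) (v2 := v2) (vb := vb) (be := be) (hb := d.hb) (h112 := d.m112) (h122 := d.m122)
        (hl := hl) (hDL := hDL) (hl3 := by linarith) (hn1 := hn1) (hD := hD) (t11 := t11)
        (t12 := t12)
  · exact rl3c_RN (th := th) (lam := lam) (y := y) (z := z) (nb := nb) (D := D) (L := L)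
      (MB := MB) (m11 := m11) (m12 := m12) (u1 := u1) (u2 := u2) (ux := ux) (ua := ua) (al := al)
      (v2 := v2) (vb := vb) (be := be) (hb := d.hb) (h112 := d.m112) (h122 := d.m122) (hl := hl)
      (hDL := hDL) (hua := hua) (hn1 := hn1) (hD := hD) (t11 := t11) (t12 := t12)

theorem MXD.rlRL {i j : ℕ} {th lam y z MB MA Qc Pc m11 m12 u1 u2 ux ua al v2 vb1 vb be nb D L sy ay cy : ℝ}
    (d : MXD i j th lam y z MB MA Qc Pc m11 m12 u1 u2 ux ua al v2 vb1 vb be)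
    (hua : 0 ≤ ua) (hDL : D + L + 2 ≤ th) (hn1 : 1 ≤ nb) (hD : D + nb + cy ≤ z)
    (hy : LY sy ay cy) (hs : sy ≤ Pc) (hsL : sy ≤ L)
    (t11 : FT th (D + ay) (L - sy) m11 (vb - ua) (y - vb - be) al)
    (t12 : FT th (D + ay) (L - sy) m12 (v2 - u1) (v2 + be - y) (u1 - ua - al))
    (a11 : FT th D L m11 (ua - vb - sy) (y - vb - be) al) : False := by
  rcases d.leaf with ⟨hl, hQ, hP⟩ | ⟨hl, hi3, hQ, hQ', hP⟩ | ⟨hl, hQ, hP, hP'⟩
  · exact rl2a_RL (th := th) (lam := lam) (y := y) (z := z) (nb := nb) (D := D) (L := L)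
      (MB := MB) (m11 := m11) (m12 := m12) (u1 := u1) (u2 := u2) (ux := ux) (ua := ua) (al := al)
      (v2 := v2) (vb := vb) (be := be) (sy := sy) (ay := ay) (cy := cy) (hb := d.hb)
      (h112 := d.m112) (h122 := d.m122) (hl := hl) (hDL := hDL) (hy := hy) (hyp1 := by linarith)
      (hn1 := hn1) (hD := by linarith) (t12 := t12) (a11 := a11)
  · rcases Nat.eq_zero_or_pos i with h0 | h0
    · obtain ⟨hi1, hi2⟩ := d.i0 h0
      exact rl2c_RL_i0 (th := th) (lam := lam) (y := y) (z := z) (nb := nb) (D := D) (L := L)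
        (MB := MB) (m11 := m11) (m12 := m12) (u1 := u1) (u2 := u2) (ux := ux) (ua := ua)
        (al := al) (v2 := v2) (vb := vb) (be := be) (sy := sy) (ay := ay) (cy := cy) (hb := d.hb)
        (hi1 := by linarith) (hi2 := by linarith) (h112 := d.m112) (h122 := d.m122) (hl := hl)
        (hDL := hDL) (hy := hy) (hyp1 := by linarith) (hsL := hsL) (hn1 := hn1)
        (hD := by linarith) (t11 := t11) (t12 := t12)
    · have hl3 := hi3 h0
      exact rl2c_RL_i1 (th := th) (lam := lam) (y := y) (z := z) (nb := nb) (D := D) (L := L)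
        (MB := MB) (m11 := m11) (m12 := m12) (u1 := u1) (u2 := u2) (ux := ux) (ua := ua)
        (al := al) (v2 := v2) (vb := vb) (be := be) (sy := sy) (ay := ay) (cy := cy) (hb := d.hb)
        (h112 := d.m112) (h122 := d.m122) (hl := hl) (hDL := hDL) (hl3 := by linarith) (hy := hy)
        (hyp1 := by linarith) (hsL := hsL) (hn1 := hn1) (hD := by linarith) (t11 := t11)
        (t12 := t12)
  · exact rl3c_RL (th := th) (lam := lam) (y := y) (z := z) (nb := nb) (D := D) (L := L)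
      (MB := MB) (m11 := m11) (m12 := m12) (u1 := u1) (u2 := u2) (ux := ux) (ua := ua) (al := al)
      (v2 := v2) (vb := vb) (be := be) (sy := sy) (ay := ay) (cy := cy) (hb := d.hb)
      (h112 := d.m112) (h122 := d.m122) (hl := hl) (hDL := hDL) (hua := hua) (hy := hy)
      (hyp1 := by linarith) (hn1 := hn1) (hD := by linarith) (t11 := t11) (t12 := t12)

theorem MXD.rlEN {i j : ℕ} {th lam y z MB MA Qc Pc m11 m12 u1 u2 ux ua al v2 vb1 vb be D L : ℝ}
    (d : MXD i j th lam y z MB MA Qc Pc m11 m12 u1 u2 ux ua al v2 vb1 vb be)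
    (hua : 0 ≤ ua) (hDL : D + L + 2 ≤ th) (hL0 : 0 ≤ L) (hD : D ≤ 1) (hDz : D ≤ z)
    (t11 : FT th D L m11 (vb - ua) (y - vb - be) al)
    (t12 : FT th D L m12 (v2 - u1) (v2 + be - y) (u1 - ua - al)) : False := by
  rcases d.leaf with ⟨hl, hQ, hP⟩ | ⟨hl, hi3, hQ, hQ', hP⟩ | ⟨hl, hQ, hP, hP'⟩
  · rcases d.H3 with hH | ⟨hH, o1, o2, o3, o4⟩ | ⟨hH, i1, i2⟩
    · exact rl2a_EN_g (th := th) (lam := lam) (y := y) (z := z) (D := D) (L := L) (MB := MB)
        (m11 := m11) (m12 := m12) (u1 := u1) (u2 := u2) (ux := ux) (ua := ua) (al := al)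
        (v2 := v2) (vb := vb) (be := be) (hb := d.hb) (h112 := d.m112) (h122 := d.m122) (hl := hl)
        (hDL := hDL) (hlam := by linarith) (hD := hD) (hDz := hDz) (t11 := t11) (t12 := t12)
    · exact rl2a_EN_o (th := th) (lam := lam) (y := y) (z := z) (D := D) (L := L) (MB := MB)
        (m11 := m11) (m12 := m12) (u1 := u1) (u2 := u2) (ux := ux) (ua := ua) (al := al)
        (v2 := v2) (vb := vb) (be := be) (hb := d.hb) (h112 := d.m112) (h122 := d.m122) (hl := hl)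
        (hDL := hDL) (o1 := by linarith) (o2 := by linarith) (hD := hD) (hDz := hDz) (t11 := t11)
        (t12 := t12)
    · exact rl2a_EN_i (th := th) (lam := lam) (y := y) (z := z) (D := D) (L := L) (MB := MB)
        (m11 := m11) (u1 := u1) (u2 := u2) (ux := ux) (ua := ua) (al := al) (v2 := v2) (vb := vb)
        (be := be) (hb := d.hb) (h112 := d.m112) (hl := hl) (hDL := hDL) (in3 := by linarith)
        (in1 := by linarith) (hL0 := hL0) (hD := hD) (hDz := hDz) (t11 := t11)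
  · rcases Nat.eq_zero_or_pos i with h0 | h0
    · obtain ⟨hi1, hi2⟩ := d.i0 h0
      exact rl2c_EN_i0 (th := th) (lam := lam) (y := y) (z := z) (D := D) (L := L) (MB := MB)
        (m11 := m11) (m12 := m12) (u1 := u1) (u2 := u2) (ux := ux) (ua := ua) (al := al)
        (v2 := v2) (vb := vb) (be := be) (hb := d.hb) (hi1 := by linarith) (hi2 := by linarith)
        (h112 := d.m112) (h122 := d.m122) (hl := hl) (hDL := hDL) (hL0 := hL0) (hD := hD)
        (hDz := hDz) (t11 := t11) (t12 := t12)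
    · have hl3 := hi3 h0
      obtain ⟨w1, w2, w3⟩ := d.h1 h0
      rcases d.H4 with hH | ⟨hH, o1, o2, o3, o4⟩ | ⟨hH, i1, i2⟩
      · exact rl2c_EN_i1_g (th := th) (lam := lam) (y := y) (z := z) (D := D) (L := L) (MB := MB)
          (m11 := m11) (m12 := m12) (u1 := u1) (u2 := u2) (ux := ux) (ua := ua) (al := al)
          (v2 := v2) (vb := vb) (be := be) (hb := d.hb) (h112 := d.m112) (h122 := d.m122)
          (hl := hl) (hDL := hDL) (hl3 := by linarith) (hlam := by linarith) (hD := hD)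
          (hDz := hDz) (t11 := t11) (t12 := t12)
      · have o5 := o4 h0
        exact rl2c_EN_i1_o (th := th) (lam := lam) (y := y) (z := z) (D := D) (L := L) (MB := MB)
          (m11 := m11) (u1 := u1) (u2 := u2) (ux := ux) (ua := ua) (al := al) (v2 := v2)
          (vb1 := vb1) (vb := vb) (be := be) (hb := d.hb) (h112 := d.m112) (hl := hl) (hDL := hDL)
          (hl3 := by linarith) (o1 := by linarith) (o3 := by linarith) (vb1a := by linarith)
          (vb1b := by linarith) (vb1c := by linarith) (o4 := by linarith) (hL0 := hL0) (hD := hD)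
          (t11 := t11)
      · exact rl2c_EN_i1_i (th := th) (lam := lam) (y := y) (z := z) (MB := MB) (u1 := u1)
          (u2 := u2) (ux := ux) (ua := ua) (al := al) (v2 := v2) (vb := vb) (be := be)
          (hb := d.hb) (hl := hl) (hl3 := by linarith) (in1 := by linarith)
  · exact rl3c_EN (th := th) (lam := lam) (y := y) (z := z) (D := D) (L := L) (MB := MB)
      (m11 := m11) (m12 := m12) (u1 := u1) (u2 := u2) (ux := ux) (ua := ua) (al := al) (v2 := v2)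
      (vb := vb) (be := be) (hb := d.hb) (h112 := d.m112) (h122 := d.m122) (hl := hl) (hDL := hDL)
      (hua := hua) (hD := hD) (hDz := hDz) (t11 := t11) (t12 := t12)

theorem MXD.rlEL {i j : ℕ} {th lam y z MB MA Qc Pc m11 m12 u1 u2 ux ua al v2 vb1 vb be D L sy ay cy : ℝ}
    (d : MXD i j th lam y z MB MA Qc Pc m11 m12 u1 u2 ux ua al v2 vb1 vb be)
    (hua : 0 ≤ ua) (hDL : D + L + 2 ≤ th) (hD : D ≤ 0)
    (hy : LY sy ay cy) (hs : sy ≤ Pc) (hsL : sy ≤ L)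
    (t11 : FT th (D + ay) (L - sy) m11 (vb - ua) (y - vb - be) al)
    (t12 : FT th (D + ay) (L - sy) m12 (v2 - u1) (v2 + be - y) (u1 - ua - al))
    (a11 : FT th D L m11 (ua - vb - sy) (y - vb - be) al) : False := by
  rcases d.leaf with ⟨hl, hQ, hP⟩ | ⟨hl, hi3, hQ, hQ', hP⟩ | ⟨hl, hQ, hP, hP'⟩
  · exact rl2a_EL (th := th) (lam := lam) (y := y) (z := z) (D := D) (L := L) (MB := MB)
      (m11 := m11) (m12 := m12) (u1 := u1) (u2 := u2) (ux := ux) (ua := ua) (al := al) (v2 := v2)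
      (vb := vb) (be := be) (sy := sy) (ay := ay) (cy := cy) (hb := d.hb) (h112 := d.m112)
      (h122 := d.m122) (hl := hl) (hDL := hDL) (hy := hy) (hyp1 := by linarith) (hD := hD)
      (t12 := t12) (a11 := a11)
  · rcases Nat.eq_zero_or_pos i with h0 | h0
    · obtain ⟨hi1, hi2⟩ := d.i0 h0
      exact rl2c_EL_i0 (th := th) (lam := lam) (y := y) (z := z) (D := D) (L := L) (MB := MB)
        (m11 := m11) (m12 := m12) (u1 := u1) (u2 := u2) (ux := ux) (ua := ua) (al := al)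
        (v2 := v2) (vb := vb) (be := be) (sy := sy) (ay := ay) (cy := cy) (hb := d.hb)
        (hi1 := by linarith) (hi2 := by linarith) (h112 := d.m112) (h122 := d.m122) (hl := hl)
        (hDL := hDL) (hy := hy) (hyp1 := by linarith) (hsL := hsL) (hD := hD) (t11 := t11)
        (t12 := t12)
    · have hl3 := hi3 h0
      exact rl2c_EL_i1 (th := th) (lam := lam) (y := y) (z := z) (D := D) (L := L) (MB := MB)
        (m11 := m11) (m12 := m12) (u1 := u1) (u2 := u2) (ux := ux) (ua := ua) (al := al)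
        (v2 := v2) (vb := vb) (be := be) (sy := sy) (ay := ay) (cy := cy) (hb := d.hb)
        (h112 := d.m112) (h122 := d.m122) (hl := hl) (hDL := hDL) (hl3 := by linarith) (hy := hy)
        (hyp1 := by linarith) (hsL := hsL) (hD := hD) (t12 := t12) (a11 := a11)
  · rcases d.H4 with hH | ⟨hH, o1, o2, o3, o4⟩ | ⟨hH, i1, i2⟩
    · exact rl3c_EL_g (th := th) (lam := lam) (y := y) (z := z) (D := D) (L := L) (MB := MB)
        (m11 := m11) (m12 := m12) (u1 := u1) (u2 := u2) (ux := ux) (ua := ua) (al := al)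
        (v2 := v2) (vb := vb) (be := be) (sy := sy) (ay := ay) (cy := cy) (hb := d.hb)
        (h112 := d.m112) (h122 := d.m122) (hl := hl) (hDL := hDL) (hua := hua)
        (hlam := by linarith) (hy := hy) (hyp1 := by linarith) (hD := hD) (t11 := t11)
        (t12 := t12)
    · exact rl3c_EL_o (th := th) (lam := lam) (y := y) (z := z) (D := D) (L := L) (MB := MB)
        (m11 := m11) (m12 := m12) (u1 := u1) (u2 := u2) (ux := ux) (ua := ua) (al := al)
        (v2 := v2) (vb := vb) (be := be) (sy := sy) (ay := ay) (cy := cy) (hb := d.hb)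
        (h112 := d.m112) (h122 := d.m122) (hl := hl) (hDL := hDL) (hua := hua) (o1 := by linarith)
        (o2 := by linarith) (o3 := by linarith) (hy := hy) (hyp1 := by linarith) (hsL := hsL)
        (hD := hD) (t11 := t11) (t12 := t12)
    · exact rl3c_EL_i (th := th) (lam := lam) (y := y) (z := z) (MB := MB) (u1 := u1) (u2 := u2)
        (ux := ux) (ua := ua) (al := al) (v2 := v2) (vb := vb) (be := be) (hb := d.hb) (hl := hl)
        (in1 := by linarith)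

theorem MXD.xl {i j : ℕ} {th lam y z MB MA Qc Pc m11 m12 u1 u2 ux ua al v2 vb1 vb be D L sy ay cy : ℝ}
    (d : MXD i j th lam y z MB MA Qc Pc m11 m12 u1 u2 ux ua al v2 vb1 vb be)
    (hD : D ≤ 0) (hL1 : 1 ≤ L) (hLs : L ≤ sy) (hy : LY sy ay cy) (hs : sy ≤ Pc)
    (t11 : FT th (D + ay) (sy - L) m11 (vb - ua) (y - vb - be) al)
    (t12 : FT th (D + ay) (sy - L) m12 (v2 - u1) (v2 + be - y) (u1 - ua - al))
    (a11 : FT th D L m11 (ua - vb - sy) (y - vb - be) al)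
    (r12 : FR th D L m12 (v2 - u1) (v2 + be - y) (u1 - ua - al) sy) : False := by
  rcases d.leaf with ⟨hl, hQ, hP⟩ | ⟨hl, hi3, hQ, hQ', hP⟩ | ⟨hl, hQ, hP, hP'⟩
  · exact xl2a (th := th) (lam := lam) (y := y) (z := z) (D := D) (L := L) (MB := MB) (m11 := m11)
      (u1 := u1) (u2 := u2) (ux := ux) (ua := ua) (al := al) (v2 := v2) (vb := vb) (be := be)
      (sy := sy) (hb := d.hb) (h112 := d.m112) (hl := hl) (hyp1 := by linarith) (hD := hD)
      (hL1 := hL1) (hLs := hLs) (a11 := a11)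
  · rcases Nat.eq_zero_or_pos i with h0 | h0
    · obtain ⟨hi1, hi2⟩ := d.i0 h0
      exact xl2c_i0 (th := th) (lam := lam) (y := y) (z := z) (D := D) (L := L) (MB := MB)
        (m11 := m11) (u1 := u1) (u2 := u2) (ux := ux) (ua := ua) (al := al) (v2 := v2) (vb := vb)
        (be := be) (sy := sy) (ay := ay) (cy := cy) (hb := d.hb) (hi1 := by linarith)
        (hi2 := by linarith) (h112 := d.m112) (hl := hl) (hy := hy) (hyp1 := by linarith)
        (hD := hD) (hL1 := hL1) (t11 := t11)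
    · have hl3 := hi3 h0
      exact xl2c_i1 (th := th) (lam := lam) (y := y) (z := z) (D := D) (L := L) (MB := MB)
        (m12 := m12) (u1 := u1) (u2 := u2) (ux := ux) (ua := ua) (al := al) (v2 := v2) (vb := vb)
        (be := be) (sy := sy) (ay := ay) (cy := cy) (hb := d.hb) (h122 := d.m122) (hl := hl)
        (hl3 := by linarith) (hy := hy) (hyp1 := by linarith) (hD := hD) (hL1 := hL1) (t12 := t12)
  · rcases d.H4 with hH | ⟨hH, o1, o2, o3, o4⟩ | ⟨hH, i1, i2⟩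
    · exact xl3c_g (th := th) (lam := lam) (y := y) (z := z) (D := D) (L := L) (MB := MB)
        (m12 := m12) (u1 := u1) (u2 := u2) (ux := ux) (ua := ua) (al := al) (v2 := v2) (vb := vb)
        (be := be) (sy := sy) (ay := ay) (cy := cy) (hb := d.hb) (h122 := d.m122) (hl := hl)
        (hy := hy) (hyp1 := by linarith) (hyp2 := by linarith) (hlam := by linarith) (hD := hD)
        (hL1 := hL1) (hLs := hLs) (t12 := t12) (r12 := r12)
    · exact xl3c_o (th := th) (lam := lam) (y := y) (z := z) (D := D) (L := L) (MB := MB)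
        (m11 := m11) (m12 := m12) (u1 := u1) (u2 := u2) (ux := ux) (ua := ua) (al := al)
        (v2 := v2) (vb := vb) (be := be) (sy := sy) (ay := ay) (cy := cy) (hb := d.hb)
        (h112 := d.m112) (h122 := d.m122) (hl := hl) (hy := hy) (hyp1 := by linarith)
        (hyp2 := by linarith) (o1 := by linarith) (o2 := by linarith) (o3 := by linarith)
        (hD := hD) (hL1 := hL1) (hLs := hLs) (t11 := t11) (t12 := t12)
    · exact xl3c_i (th := th) (lam := lam) (y := y) (z := z) (MB := MB) (u1 := u1) (u2 := u2)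
        (ux := ux) (ua := ua) (al := al) (v2 := v2) (vb := vb) (be := be) (hb := d.hb) (hl := hl)
        (in3 := by linarith) (in1 := by linarith)

theorem MXD.r1N {i j : ℕ} {th lam y z MB MA Qc Pc m11 m12 u1 u2 ux ua al v2 vb1 vb be g nb Y sg D L X : ℝ}
    (d : MXD i j th lam y z MB MA Qc Pc m11 m12 u1 u2 ux ua al v2 vb1 vb be)
    (hug : ua ≤ g) (hg1 : 1 ≤ g) (hn1 : 1 ≤ nb) (hY0 : 0 ≤ Y) (hs0 : 0 ≤ sg) (hX0 : 0 ≤ X)
    (hL0 : 0 ≤ L) (hD : D + nb ≤ z) (hDL : D + L + nb + Y + sg ≤ z + th + y)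
    (hXY : Y ≤ X) (hX : X = Y ∨ X ≤ 2 ∨ (X ≤ sg ∧ (X ≤ Qc ∨ X ≤ Pc)))
    (t11 : FT th D L m11 (vb - ua) (y - vb - be) al)
    (t12 : FT th D L m12 (v2 - u1) (v2 + be - y) (u1 - ua - al))
    (tA : FT th (-g) X 0 (th + ua) al be)
    (tE : FT th (-g) X (MA - m11) (th + ua + vb - y) al (y - vb - be))
    (tO : 1 ≤ j → FT th (-g) X 2 (th + ux + ua - u1) (u1 - ux - al) be) : False := by
  rcases Nat.eq_zero_or_pos j with j0 | j0
  · obtain ⟨hj1, hj2, hj3⟩ := d.hj0 j0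
    rcases d.leaf with ⟨hl, hQ, hP⟩ | ⟨hl, hi3, hQ, hQ', hP⟩ | ⟨hl, hQ, hP, hP'⟩
    · rcases hX with hX | hX | ⟨hXs, hXc | hXc⟩
      · exact r12a_j0_N_Y (th := th) (lam := lam) (y := y) (z := z) (g := g) (nb := nb) (Y := Y)
          (sg := sg) (D := D) (L := L) (X := X) (MB := MB) (MA := MA) (m11 := m11) (u1 := u1)
          (u2 := u2) (ux := ux) (ua := ua) (al := al) (v2 := v2) (vb := vb) (be := be)
          (hb := d.hb) (hj1 := by linarith) (hj2 := by linarith) (hj3 := by linarith)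
          (h110 := d.m110) (h112 := d.m112) (hl := hl) (hs0 := hs0) (hY0 := by linarith)
          (hg1 := hg1) (hn1 := hn1) (hug := hug) (hL0 := by linarith) (hD := by linarith)
          (hDL := by linarith) (hX0 := hX0) (hX := by linarith) (t11 := t11) (tA := tA) (tE := tE)
      · exact r12a_j0_N_2 (th := th) (lam := lam) (y := y) (z := z) (g := g) (X := X) (MB := MB)
          (u1 := u1) (u2 := u2) (ux := ux) (ua := ua) (al := al) (v2 := v2) (vb := vb) (be := be)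
          (hb := d.hb) (hj2 := by linarith) (hl := hl) (hg1 := hg1) (hug := hug)
          (hX := by linarith) (tA := tA)
      · exact r12a_j0_N_wQ (th := th) (lam := lam) (y := y) (z := z) (g := g) (Y := Y) (X := X)
          (MB := MB) (u1 := u1) (u2 := u2) (ux := ux) (ua := ua) (al := al) (v2 := v2) (vb := vb)
          (be := be) (hb := d.hb) (hj2 := by linarith) (hl := hl) (hY0 := by linarith)
          (hg1 := hg1) (hug := hug) (hX0 := hX0) (hXY := by linarith) (hXc0 := by linarith)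
          (tA := tA)
      · exact r12a_j0_N_wP (th := th) (lam := lam) (y := y) (z := z) (g := g) (X := X) (MB := MB)
          (u1 := u1) (u2 := u2) (ux := ux) (ua := ua) (al := al) (v2 := v2) (vb := vb) (be := be)
          (hb := d.hb) (hj1 := by linarith) (hj2 := by linarith) (hl := hl) (hg1 := hg1)
          (hug := hug) (hX0 := hX0) (hXc0 := by linarith) (tA := tA)
    · rcases Nat.eq_zero_or_pos i with h0 | h0
      · obtain ⟨hi1, hi2⟩ := d.i0 h0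
        have hmm := d.mm h0 j0
        rcases hX with hX | hX | ⟨hXs, hXc | hXc⟩
        · exact r12c_j0i0_N_Y (th := th) (lam := lam) (y := y) (z := z) (g := g) (nb := nb)
            (Y := Y) (sg := sg) (D := D) (L := L) (X := X) (MB := MB) (MA := MA) (m11 := m11)
            (u1 := u1) (u2 := u2) (ux := ux) (ua := ua) (al := al) (v2 := v2) (vb := vb)
            (be := be) (hb := d.hb) (hj1 := by linarith) (hj2 := by linarith) (hj3 := by linarith)
            (hi1 := by linarith) (hi2 := by linarith) (h110 := d.m110) (h112 := d.m112) (hl := hl)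
            (hs0 := hs0) (hg1 := hg1) (hn1 := hn1) (hug := hug) (hL0 := by linarith)
            (hD := by linarith) (hDL := by linarith) (hX0 := hX0) (hX := by linarith) (t11 := t11)
            (tA := tA) (tE := tE)
        · exact r12c_j0i0_N_2 (th := th) (lam := lam) (y := y) (z := z) (g := g) (X := X)
            (MB := MB) (u1 := u1) (u2 := u2) (ux := ux) (ua := ua) (al := al) (v2 := v2)
            (vb := vb) (be := be) (hb := d.hb) (hl := hl) (hg1 := hg1) (hug := hug)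
            (hX := by linarith) (tA := tA)
        · exact r12c_j0i0_N_wQ (th := th) (lam := lam) (y := y) (z := z) (g := g) (X := X)
            (MB := MB) (u1 := u1) (u2 := u2) (ux := ux) (ua := ua) (al := al) (v2 := v2)
            (vb := vb) (be := be) (hb := d.hb) (hj2 := by linarith) (hl := hl) (hg1 := hg1)
            (hug := hug) (hX0 := hX0) (hXc0 := by linarith) (hXc1 := by linarith) (tA := tA)
        · exact r12c_j0i0_N_wP (th := th) (lam := lam) (y := y) (z := z) (g := g) (X := X)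
            (MB := MB) (u1 := u1) (u2 := u2) (ux := ux) (ua := ua) (al := al) (v2 := v2)
            (vb := vb) (be := be) (hb := d.hb) (hj1 := by linarith) (hj2 := by linarith)
            (hl := hl) (hg1 := hg1) (hug := hug) (hX0 := hX0) (hXc0 := by linarith) (tA := tA)
      · have hl3 := hi3 h0
        rcases hX with hX | hX | ⟨hXs, hXc | hXc⟩
        · exact r12c_j0i1_N_Y (th := th) (lam := lam) (y := y) (z := z) (g := g) (nb := nb)
            (Y := Y) (sg := sg) (D := D) (L := L) (X := X) (MB := MB) (MA := MA) (m11 := m11)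
            (u1 := u1) (u2 := u2) (ux := ux) (ua := ua) (al := al) (v2 := v2) (vb := vb)
            (be := be) (hb := d.hb) (hj1 := by linarith) (hj2 := by linarith) (hj3 := by linarith)
            (h110 := d.m110) (h112 := d.m112) (hl := hl) (hs0 := hs0) (hg1 := hg1) (hn1 := hn1)
            (hug := hug) (hl3 := by linarith) (hD := by linarith) (hDL := by linarith)
            (hX0 := hX0) (hX := by linarith) (t11 := t11) (tA := tA) (tE := tE)
        · exact r12c_j0i1_N_2 (th := th) (lam := lam) (y := y) (z := z) (g := g) (X := X)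
            (MB := MB) (u1 := u1) (u2 := u2) (ux := ux) (ua := ua) (al := al) (v2 := v2)
            (vb := vb) (be := be) (hb := d.hb) (hl := hl) (hg1 := hg1) (hug := hug)
            (hX := by linarith) (tA := tA)
        · exact r12c_j0i1_N_wQ (th := th) (lam := lam) (y := y) (z := z) (g := g) (Y := Y)
            (X := X) (MB := MB) (u1 := u1) (u2 := u2) (ux := ux) (ua := ua) (al := al) (v2 := v2)
            (vb := vb) (be := be) (hb := d.hb) (hj2 := by linarith) (hl := hl)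
            (hY0 := by linarith) (hg1 := hg1) (hug := hug) (hX0 := hX0) (hXY := by linarith)
            (hXc0 := by linarith) (hXc1 := by linarith) (tA := tA)
        · exact r12c_j0i1_N_wP (th := th) (lam := lam) (y := y) (z := z) (g := g) (X := X)
            (MB := MB) (u1 := u1) (u2 := u2) (ux := ux) (ua := ua) (al := al) (v2 := v2)
            (vb := vb) (be := be) (hb := d.hb) (hj1 := by linarith) (hj2 := by linarith)
            (hl := hl) (hg1 := hg1) (hug := hug) (hX0 := hX0) (hXc0 := by linarith) (tA := tA)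
    · rcases hX with hX | hX | ⟨hXs, hXc | hXc⟩
      · exact r13c_j0_N_Y (th := th) (lam := lam) (y := y) (z := z) (g := g) (nb := nb) (Y := Y)
          (sg := sg) (D := D) (L := L) (X := X) (MB := MB) (MA := MA) (m11 := m11) (u1 := u1)
          (u2 := u2) (ux := ux) (ua := ua) (al := al) (v2 := v2) (vb := vb) (be := be)
          (hb := d.hb) (hj1 := by linarith) (hj2 := by linarith) (hj3 := by linarith)
          (h110 := d.m110) (h112 := d.m112) (hl := hl) (hs0 := hs0) (hY0 := by linarith)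
          (hg1 := hg1) (hn1 := hn1) (hug := hug) (hL0 := by linarith) (hD := by linarith)
          (hDL := by linarith) (hX0 := hX0) (hX := by linarith) (t11 := t11) (tA := tA) (tE := tE)
      · exact r13c_j0_N_2 (th := th) (lam := lam) (y := y) (z := z) (g := g) (X := X) (MB := MB)
          (u1 := u1) (u2 := u2) (ux := ux) (ua := ua) (al := al) (v2 := v2) (vb := vb) (be := be)
          (hb := d.hb) (hj2 := by linarith) (hl := hl) (hg1 := hg1) (hug := hug)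
          (hX := by linarith) (tA := tA)
      · exact r13c_j0_N_wQ (th := th) (lam := lam) (y := y) (z := z) (g := g) (X := X) (MB := MB)
          (u1 := u1) (u2 := u2) (ux := ux) (ua := ua) (al := al) (v2 := v2) (vb := vb) (be := be)
          (hb := d.hb) (hj2 := by linarith) (hl := hl) (hg1 := hg1) (hug := hug)
          (hXc0 := by linarith) (tA := tA)
      · exact r13c_j0_N_wP (th := th) (lam := lam) (y := y) (z := z) (g := g) (Y := Y) (X := X)
          (MB := MB) (u1 := u1) (u2 := u2) (ux := ux) (ua := ua) (al := al) (v2 := v2) (vb := vb)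
          (be := be) (hb := d.hb) (hj2 := by linarith) (hl := hl) (hY0 := by linarith)
          (hg1 := hg1) (hug := hug) (hX0 := hX0) (hXY := by linarith) (hXc0 := by linarith)
          (hXc1 := by linarith) (tA := tA)
  · have hj := d.hj j0
    have tO1 := tO j0
    rcases d.leaf with ⟨hl, hQ, hP⟩ | ⟨hl, hi3, hQ, hQ', hP⟩ | ⟨hl, hQ, hP, hP'⟩
    · rcases hX with hX | hX | ⟨hXs, hXc | hXc⟩
      · rcases d.m11i with hm | hm
        · exact r12a_j1_N_Y_a (th := th) (lam := lam) (y := y) (z := z) (g := g) (nb := nb)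
            (Y := Y) (sg := sg) (D := D) (L := L) (X := X) (MB := MB) (MA := MA) (m11 := m11)
            (m12 := m12) (u1 := u1) (u2 := u2) (ux := ux) (ua := ua) (al := al) (v2 := v2)
            (vb := vb) (be := be) (hb := d.hb) (hj := hj) (h110 := d.m110) (h122 := d.m122)
            (hl := hl) (hs0 := hs0) (hY0 := by linarith) (hg1 := hg1) (hn1 := hn1) (hug := hug)
            (hD := by linarith) (hDL := by linarith) (hX := by linarith) (hm11 := by linarith)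
            (t11 := t11) (t12 := t12) (tA := tA) (tE := tE) (tO := tO1)
        · exact r12a_j1_N_Y_b (th := th) (lam := lam) (y := y) (z := z) (g := g) (nb := nb)
            (Y := Y) (sg := sg) (D := D) (L := L) (X := X) (MB := MB) (MA := MA) (m11 := m11)
            (m12 := m12) (u1 := u1) (u2 := u2) (ux := ux) (ua := ua) (al := al) (v2 := v2)
            (vb := vb) (be := be) (hb := d.hb) (hj := hj) (h110 := d.m110) (h112 := d.m112)
            (h122 := d.m122) (hl := hl) (hs0 := hs0) (hg1 := hg1) (hn1 := hn1) (hug := hug)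
            (hD := by linarith) (hDL := by linarith) (hX0 := hX0) (hX := by linarith)
            (hm11 := by linarith) (t11 := t11) (t12 := t12) (tA := tA) (tE := tE) (tO := tO1)
      · exact r12a_j1_N_2 (th := th) (lam := lam) (y := y) (z := z) (g := g) (X := X) (MB := MB)
          (MA := MA) (m11 := m11) (u1 := u1) (u2 := u2) (ux := ux) (ua := ua) (al := al)
          (v2 := v2) (vb := vb) (be := be) (hb := d.hb) (hj := hj) (h110 := d.m110) (hl := hl)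
          (hg1 := hg1) (hug := hug) (hX := by linarith) (tA := tA) (tE := tE)
      · exact r12a_j1_N_wQ (th := th) (lam := lam) (y := y) (z := z) (g := g) (Y := Y) (X := X)
          (MB := MB) (MA := MA) (u1 := u1) (u2 := u2) (ux := ux) (ua := ua) (al := al) (v2 := v2)
          (vb := vb) (be := be) (hb := d.hb) (hj := hj) (hl := hl) (hY0 := by linarith)
          (hg1 := hg1) (hug := hug) (hXY := by linarith) (hXc0 := by linarith) (tA := tA)
          (tO := tO1)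
      · exact r12a_j1_N_wP (th := th) (lam := lam) (y := y) (z := z) (g := g) (X := X) (MB := MB)
          (MA := MA) (m11 := m11) (u1 := u1) (u2 := u2) (ux := ux) (ua := ua) (al := al)
          (v2 := v2) (vb := vb) (be := be) (hb := d.hb) (hj := hj) (h110 := d.m110) (hl := hl)
          (hg1 := hg1) (hug := hug) (hX0 := hX0) (hXc0 := by linarith) (tA := tA) (tE := tE)
    · rcases Nat.eq_zero_or_pos i with h0 | h0
      · obtain ⟨hi1, hi2⟩ := d.i0 h0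
        rcases hX with hX | hX | ⟨hXs, hXc | hXc⟩
        · exact r12c_j1i0_N_Y (th := th) (lam := lam) (y := y) (z := z) (g := g) (nb := nb)
            (Y := Y) (sg := sg) (D := D) (L := L) (X := X) (MB := MB) (MA := MA) (m11 := m11)
            (m12 := m12) (u1 := u1) (u2 := u2) (ux := ux) (ua := ua) (al := al) (v2 := v2)
            (vb := vb) (be := be) (hb := d.hb) (hj := hj) (hi1 := by linarith)
            (hi2 := by linarith) (h110 := d.m110) (h112 := d.m112) (h122 := d.m122) (hl := hl)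
            (hs0 := hs0) (hY0 := by linarith) (hg1 := hg1) (hn1 := hn1) (hug := hug)
            (hL0 := by linarith) (hD := by linarith) (hDL := by linarith) (hX := by linarith)
            (t11 := t11) (t12 := t12) (tA := tA) (tE := tE) (tO := tO1)
        · exact r12c_j1i0_N_2 (th := th) (lam := lam) (y := y) (z := z) (g := g) (X := X)
            (MB := MB) (u1 := u1) (u2 := u2) (ux := ux) (ua := ua) (al := al) (v2 := v2)
            (vb := vb) (be := be) (hb := d.hb) (hl := hl) (hg1 := hg1) (hug := hug)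
            (hX := by linarith) (tA := tA)
        · exact r12c_j1i0_N_wQ (th := th) (lam := lam) (y := y) (z := z) (g := g) (X := X)
            (MB := MB) (u1 := u1) (u2 := u2) (ux := ux) (ua := ua) (al := al) (v2 := v2)
            (vb := vb) (be := be) (hb := d.hb) (hl := hl) (hg1 := hg1) (hug := hug) (hX0 := hX0)
            (hXc0 := by linarith) (hXc1 := by linarith) (tA := tA)
        · exact r12c_j1i0_N_wP (th := th) (lam := lam) (y := y) (z := z) (g := g) (X := X)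
            (MB := MB) (u1 := u1) (u2 := u2) (ux := ux) (ua := ua) (al := al) (v2 := v2)
            (vb := vb) (be := be) (hb := d.hb) (hl := hl) (hg1 := hg1) (hug := hug) (hX0 := hX0)
            (hXc0 := by linarith) (tA := tA)
      · have hl3 := hi3 h0
        rcases hX with hX | hX | ⟨hXs, hXc | hXc⟩
        · exact r12c_j1i1_N_Y (th := th) (lam := lam) (y := y) (z := z) (g := g) (nb := nb)
            (Y := Y) (sg := sg) (D := D) (L := L) (X := X) (MB := MB) (MA := MA) (m11 := m11)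
            (m12 := m12) (u1 := u1) (u2 := u2) (ux := ux) (ua := ua) (al := al) (v2 := v2)
            (vb := vb) (be := be) (hb := d.hb) (hj := hj) (h110 := d.m110) (h112 := d.m112)
            (h122 := d.m122) (hl := hl) (hs0 := hs0) (hY0 := by linarith) (hg1 := hg1)
            (hn1 := hn1) (hug := hug) (hl3 := by linarith) (hD := by linarith)
            (hDL := by linarith) (hX0 := hX0) (hX := by linarith) (t11 := t11) (t12 := t12)
            (tA := tA) (tE := tE) (tO := tO1)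
        · exact r12c_j1i1_N_2 (th := th) (lam := lam) (y := y) (z := z) (g := g) (X := X)
            (MB := MB) (u1 := u1) (u2 := u2) (ux := ux) (ua := ua) (al := al) (v2 := v2)
            (vb := vb) (be := be) (hb := d.hb) (hl := hl) (hg1 := hg1) (hug := hug)
            (hX := by linarith) (tA := tA)
        · exact r12c_j1i1_N_wQ (th := th) (lam := lam) (y := y) (z := z) (g := g) (X := X)
            (MB := MB) (u1 := u1) (u2 := u2) (ux := ux) (ua := ua) (al := al) (v2 := v2)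
            (vb := vb) (be := be) (hb := d.hb) (hl := hl) (hg1 := hg1) (hug := hug) (hX0 := hX0)
            (hXc0 := by linarith) (hXc1 := by linarith) (tA := tA)
        · exact r12c_j1i1_N_wP (th := th) (lam := lam) (y := y) (z := z) (g := g) (X := X)
            (MB := MB) (u1 := u1) (u2 := u2) (ux := ux) (ua := ua) (al := al) (v2 := v2)
            (vb := vb) (be := be) (hb := d.hb) (hl := hl) (hg1 := hg1) (hug := hug) (hX0 := hX0)
            (hXc0 := by linarith) (tA := tA)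
    · rcases hX with hX | hX | ⟨hXs, hXc | hXc⟩
      · exact r13c_j1_N_Y (th := th) (lam := lam) (y := y) (z := z) (g := g) (nb := nb) (Y := Y)
          (sg := sg) (D := D) (L := L) (X := X) (MB := MB) (MA := MA) (m11 := m11) (m12 := m12)
          (u1 := u1) (u2 := u2) (ux := ux) (ua := ua) (al := al) (v2 := v2) (vb := vb) (be := be)
          (hb := d.hb) (hj := hj) (h110 := d.m110) (h112 := d.m112) (h122 := d.m122) (hl := hl)
          (hs0 := hs0) (hY0 := by linarith) (hg1 := hg1) (hn1 := hn1) (hug := hug)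
          (hL0 := by linarith) (hD := by linarith) (hDL := by linarith) (hX := by linarith)
          (t11 := t11) (t12 := t12) (tA := tA) (tE := tE) (tO := tO1)
      · exact r13c_j1_N_2 (th := th) (lam := lam) (y := y) (z := z) (g := g) (X := X) (MB := MB)
          (MA := MA) (m11 := m11) (u1 := u1) (u2 := u2) (ux := ux) (ua := ua) (al := al)
          (v2 := v2) (vb := vb) (be := be) (hb := d.hb) (hj := hj) (h110 := d.m110) (hl := hl)
          (hg1 := hg1) (hug := hug) (hX := by linarith) (tA := tA) (tE := tE)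
      · exact r13c_j1_N_wQ (th := th) (lam := lam) (y := y) (z := z) (g := g) (X := X) (MB := MB)
          (u1 := u1) (u2 := u2) (ux := ux) (ua := ua) (al := al) (v2 := v2) (vb := vb) (be := be)
          (hb := d.hb) (hl := hl) (hg1 := hg1) (hug := hug) (hXc0 := by linarith) (tA := tA)
          (tO := tO1)
      · exact r13c_j1_N_wP (th := th) (lam := lam) (y := y) (z := z) (g := g) (X := X) (MB := MB)
          (MA := MA) (m11 := m11) (u1 := u1) (u2 := u2) (ux := ux) (ua := ua) (al := al)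
          (v2 := v2) (vb := vb) (be := be) (hb := d.hb) (hj := hj) (h110 := d.m110) (hl := hl)
          (hg1 := hg1) (hug := hug) (hX0 := hX0) (hXc0 := by linarith) (hXc1 := by linarith)
          (tA := tA) (tE := tE) (tO := tO1)

theorem MXD.r1L {i j : ℕ} {th lam y z MB MA Qc Pc m11 m12 u1 u2 ux ua al v2 vb1 vb be g nb Y sg D L X sy ay cy : ℝ}
    (d : MXD i j th lam y z MB MA Qc Pc m11 m12 u1 u2 ux ua al v2 vb1 vb be)
    (hug : ua ≤ g) (hg1 : 1 ≤ g) (hn1 : 1 ≤ nb) (hY0 : 0 ≤ Y) (hs0 : 0 ≤ sg) (hX0 : 0 ≤ X)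
    (hD : D + nb + cy ≤ z) (hDL : D + L + nb + cy + Y + sg ≤ z + th + y)
    (hy : LY sy ay cy) (hs : sy ≤ Pc) (hsL : sy ≤ L)
    (hXa : Y - sy ≤ X) (hXb : sy - Y ≤ X)
    (hX : X = Y - sy ∨ X = sy - Y ∨ X ≤ 2 ∨ (X ≤ sg ∧ (X ≤ Qc ∨ X ≤ Pc)))
    (t11 : FT th (D + ay) (L - sy) m11 (vb - ua) (y - vb - be) al)
    (t12 : FT th (D + ay) (L - sy) m12 (v2 - u1) (v2 + be - y) (u1 - ua - al))
    (tA : FT th (-g) X 0 (th + ua) al be)
    (tE : FT th (-g) X (MA - m11) (th + ua + vb - y) al (y - vb - be))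
    (tO : 1 ≤ j → FT th (-g) X 2 (th + ux + ua - u1) (u1 - ux - al) be) : False := by
  have hsy0 : 0 ≤ sy := by linarith [hy.a1, hy.say]
  rcases Nat.eq_zero_or_pos j with j0 | j0
  · obtain ⟨hj1, hj2, hj3⟩ := d.hj0 j0
    rcases d.leaf with ⟨hl, hQ, hP⟩ | ⟨hl, hi3, hQ, hQ', hP⟩ | ⟨hl, hQ, hP, hP'⟩
    · rcases hX with hX | hX | hX | ⟨hXs, hXc | hXc⟩
      · exact r12a_j0_L_Y (th := th) (lam := lam) (y := y) (z := z) (g := g) (nb := nb) (Y := Y)
          (sg := sg) (D := D) (L := L) (X := X) (MB := MB) (MA := MA) (m11 := m11) (m12 := m12)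
          (u1 := u1) (u2 := u2) (ux := ux) (ua := ua) (al := al) (v2 := v2) (vb := vb) (be := be)
          (sy := sy) (ay := ay) (cy := cy) (hb := d.hb) (hj1 := by linarith) (hj2 := by linarith)
          (hj3 := by linarith) (h110 := d.m110) (h112 := d.m112) (h122 := d.m122) (hl := hl)
          (hs0 := hs0) (hY0 := by linarith) (hg1 := hg1) (hn1 := hn1) (hug := hug) (hy := hy)
          (hyp1 := by linarith) (hsL := hsL) (hD := by linarith) (hDL := by linarith) (hX0 := hX0)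
          (hX := by linarith) (t11 := t11) (t12 := t12) (tA := tA) (tE := tE)
      · exact r12a_j0_L_S (th := th) (lam := lam) (y := y) (z := z) (g := g) (Y := Y) (X := X)
          (MB := MB) (u1 := u1) (u2 := u2) (ux := ux) (ua := ua) (al := al) (v2 := v2) (vb := vb)
          (be := be) (sy := sy) (hb := d.hb) (hj1 := by linarith) (hj2 := by linarith) (hl := hl)
          (hY0 := by linarith) (hg1 := hg1) (hug := hug) (hyp1 := by linarith)
          (hXa := by linarith) (hX := by linarith) (tA := tA)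
      · exact r12a_j0_L_2 (th := th) (lam := lam) (y := y) (z := z) (g := g) (X := X) (MB := MB)
          (u1 := u1) (u2 := u2) (ux := ux) (ua := ua) (al := al) (v2 := v2) (vb := vb) (be := be)
          (hb := d.hb) (hj1 := by linarith) (hj2 := by linarith) (hl := hl) (hug := hug)
          (hX := by linarith) (tA := tA)
      · exact r12a_j0_L_wQ (th := th) (lam := lam) (y := y) (z := z) (g := g) (X := X) (MB := MB)
          (u1 := u1) (u2 := u2) (ux := ux) (ua := ua) (al := al) (v2 := v2) (vb := vb) (be := be)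
          (hb := d.hb) (hj1 := by linarith) (hj2 := by linarith) (hl := hl) (hg1 := hg1)
          (hug := hug) (hXc0 := by linarith) (tA := tA)
      · exact r12a_j0_L_wP (th := th) (lam := lam) (y := y) (z := z) (g := g) (X := X) (MB := MB)
          (u1 := u1) (u2 := u2) (ux := ux) (ua := ua) (al := al) (v2 := v2) (vb := vb) (be := be)
          (hb := d.hb) (hj1 := by linarith) (hj2 := by linarith) (hl := hl) (hg1 := hg1)
          (hug := hug) (hXc0 := by linarith) (tA := tA)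
    · rcases Nat.eq_zero_or_pos i with h0 | h0
      · obtain ⟨hi1, hi2⟩ := d.i0 h0
        have hmm := d.mm h0 j0
        rcases hX with hX | hX | hX | ⟨hXs, hXc | hXc⟩
        · exact r12c_j0i0_L_Y (th := th) (lam := lam) (y := y) (z := z) (g := g) (nb := nb)
            (Y := Y) (sg := sg) (D := D) (L := L) (X := X) (MB := MB) (MA := MA) (m11 := m11)
            (u1 := u1) (u2 := u2) (ux := ux) (ua := ua) (al := al) (v2 := v2) (vb := vb)
            (be := be) (sy := sy) (ay := ay) (cy := cy) (hb := d.hb) (hj1 := by linarith)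
            (hj2 := by linarith) (hj3 := by linarith) (hi2 := by linarith) (h110 := d.m110)
            (h112 := d.m112) (hl := hl) (hs0 := hs0) (hY0 := by linarith) (hg1 := hg1)
            (hn1 := hn1) (hug := hug) (hy := hy) (hyp1 := by linarith) (hsL := hsL)
            (hD := by linarith) (hDL := by linarith) (hX := by linarith) (t11 := t11) (tA := tA)
            (tE := tE)
        · exact r12c_j0i0_L_S (th := th) (lam := lam) (y := y) (z := z) (g := g) (Y := Y) (X := X)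
            (MB := MB) (u1 := u1) (u2 := u2) (ux := ux) (ua := ua) (al := al) (v2 := v2)
            (vb := vb) (be := be) (sy := sy) (ay := ay) (cy := cy) (hb := d.hb)
            (hj1 := by linarith) (hl := hl) (hY0 := by linarith) (hg1 := hg1) (hug := hug)
            (hy := hy) (hyp1 := by linarith) (hX := by linarith) (tA := tA)
        · exact r12c_j0i0_L_2 (th := th) (lam := lam) (y := y) (z := z) (g := g) (X := X)
            (MB := MB) (u1 := u1) (u2 := u2) (ux := ux) (ua := ua) (al := al) (v2 := v2)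
            (vb := vb) (be := be) (hb := d.hb) (hj1 := by linarith) (hl := hl) (hg1 := hg1)
            (hug := hug) (hX := by linarith) (tA := tA)
        · exact r12c_j0i0_L_wQ (th := th) (lam := lam) (y := y) (z := z) (g := g) (Y := Y)
            (X := X) (MB := MB) (u1 := u1) (u2 := u2) (ux := ux) (ua := ua) (al := al) (v2 := v2)
            (vb := vb) (be := be) (sy := sy) (hb := d.hb) (hj2 := by linarith) (hl := hl)
            (hg1 := hg1) (hug := hug) (hXa := by linarith) (hXb := by linarith)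
            (hXc0 := by linarith) (hXc1 := by linarith) (tA := tA)
        · exact r12c_j0i0_L_wP (th := th) (lam := lam) (y := y) (z := z) (g := g) (X := X)
            (MB := MB) (u1 := u1) (u2 := u2) (ux := ux) (ua := ua) (al := al) (v2 := v2)
            (vb := vb) (be := be) (hb := d.hb) (hj1 := by linarith) (hl := hl) (hg1 := hg1)
            (hug := hug) (hXc0 := by linarith) (tA := tA)
      · have hl3 := hi3 h0
        rcases hX with hX | hX | hX | ⟨hXs, hXc | hXc⟩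
        · exact r12c_j0i1_L_Y (th := th) (lam := lam) (y := y) (z := z) (g := g) (nb := nb)
            (Y := Y) (sg := sg) (D := D) (L := L) (X := X) (MB := MB) (MA := MA) (m11 := m11)
            (m12 := m12) (u1 := u1) (u2 := u2) (ux := ux) (ua := ua) (al := al) (v2 := v2)
            (vb := vb) (be := be) (sy := sy) (ay := ay) (cy := cy) (hb := d.hb)
            (hj1 := by linarith) (hj2 := by linarith) (hj3 := by linarith) (h110 := d.m110)
            (h112 := d.m112) (h122 := d.m122) (hl := hl) (hs0 := hs0) (hY0 := by linarith)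
            (hg1 := hg1) (hn1 := hn1) (hug := hug) (hl3 := by linarith) (hy := hy)
            (hyp1 := by linarith) (hsL := hsL) (hD := by linarith) (hDL := by linarith)
            (hX := by linarith) (t11 := t11) (t12 := t12) (tA := tA) (tE := tE)
        · exact r12c_j0i1_L_S (th := th) (lam := lam) (y := y) (z := z) (g := g) (Y := Y) (X := X)
            (MB := MB) (u1 := u1) (u2 := u2) (ux := ux) (ua := ua) (al := al) (v2 := v2)
            (vb := vb) (be := be) (sy := sy) (ay := ay) (cy := cy) (hb := d.hb)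
            (hj1 := by linarith) (hl := hl) (hY0 := by linarith) (hg1 := hg1) (hug := hug)
            (hy := hy) (hyp1 := by linarith) (hXa := by linarith) (hX := by linarith) (tA := tA)
        · exact r12c_j0i1_L_2 (th := th) (lam := lam) (y := y) (z := z) (g := g) (X := X)
            (MB := MB) (u1 := u1) (u2 := u2) (ux := ux) (ua := ua) (al := al) (v2 := v2)
            (vb := vb) (be := be) (hb := d.hb) (hj1 := by linarith) (hl := hl) (hg1 := hg1)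
            (hug := hug) (hl3 := by linarith) (hX := by linarith) (tA := tA)
        · exact r12c_j0i1_L_wQ (th := th) (lam := lam) (y := y) (z := z) (g := g) (Y := Y)
            (X := X) (MB := MB) (u1 := u1) (u2 := u2) (ux := ux) (ua := ua) (al := al) (v2 := v2)
            (vb := vb) (be := be) (sy := sy) (hb := d.hb) (hj2 := by linarith) (hl := hl)
            (hg1 := hg1) (hug := hug) (hXa := by linarith) (hXb := by linarith)
            (hXc0 := by linarith) (hXc1 := by linarith) (tA := tA)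
        · exact r12c_j0i1_L_wP (th := th) (lam := lam) (y := y) (z := z) (g := g) (Y := Y)
            (X := X) (MB := MB) (u1 := u1) (u2 := u2) (ux := ux) (ua := ua) (al := al) (v2 := v2)
            (vb := vb) (be := be) (sy := sy) (hb := d.hb) (hj1 := by linarith) (hl := hl)
            (hg1 := hg1) (hug := hug) (hXa := by linarith) (hXb := by linarith)
            (hXc0 := by linarith) (tA := tA)
    · rcases hX with hX | hX | hX | ⟨hXs, hXc | hXc⟩
      · exact r13c_j0_L_Y (th := th) (lam := lam) (y := y) (z := z) (g := g) (nb := nb) (Y := Y)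
          (sg := sg) (D := D) (L := L) (X := X) (MB := MB) (MA := MA) (m11 := m11) (u1 := u1)
          (u2 := u2) (ux := ux) (ua := ua) (al := al) (v2 := v2) (vb := vb) (be := be) (sy := sy)
          (ay := ay) (cy := cy) (hb := d.hb) (hj1 := by linarith) (hj2 := by linarith)
          (hj3 := by linarith) (h110 := d.m110) (h112 := d.m112) (hl := hl) (hs0 := hs0)
          (hg1 := hg1) (hn1 := hn1) (hug := hug) (hy := hy) (hyp1 := by linarith)
          (hyp2 := by linarith) (hD := by linarith) (hDL := by linarith) (hXb := by linarith)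
          (hX := by linarith) (t11 := t11) (tA := tA) (tE := tE)
      · exact r13c_j0_L_S (th := th) (lam := lam) (y := y) (z := z) (g := g) (Y := Y) (X := X)
          (MB := MB) (u1 := u1) (u2 := u2) (ux := ux) (ua := ua) (al := al) (v2 := v2) (vb := vb)
          (be := be) (sy := sy) (ay := ay) (cy := cy) (hb := d.hb) (hj2 := by linarith) (hl := hl)
          (hY0 := by linarith) (hg1 := hg1) (hug := hug) (hy := hy) (hyp1 := by linarith)
          (hyp2 := by linarith) (hX := by linarith) (tA := tA)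
      · exact r13c_j0_L_2 (th := th) (lam := lam) (y := y) (z := z) (g := g) (X := X) (MB := MB)
          (u1 := u1) (u2 := u2) (ux := ux) (ua := ua) (al := al) (v2 := v2) (vb := vb) (be := be)
          (hb := d.hb) (hj2 := by linarith) (hl := hl) (hg1 := hg1) (hug := hug)
          (hX := by linarith) (tA := tA)
      · exact r13c_j0_L_wQ (th := th) (lam := lam) (y := y) (z := z) (g := g) (X := X) (MB := MB)
          (u1 := u1) (u2 := u2) (ux := ux) (ua := ua) (al := al) (v2 := v2) (vb := vb) (be := be)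
          (sy := sy) (ay := ay) (cy := cy) (hb := d.hb) (hj2 := by linarith) (hl := hl)
          (hg1 := hg1) (hug := hug) (hy := hy) (hyp2 := by linarith) (hXc0 := by linarith)
          (tA := tA)
      · exact r13c_j0_L_wP (th := th) (lam := lam) (y := y) (z := z) (g := g) (Y := Y) (X := X)
          (MB := MB) (u1 := u1) (u2 := u2) (ux := ux) (ua := ua) (al := al) (v2 := v2) (vb := vb)
          (be := be) (sy := sy) (hb := d.hb) (hj2 := by linarith) (hl := hl) (hg1 := hg1)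
          (hug := hug) (hXa := by linarith) (hXb := by linarith) (hXc0 := by linarith)
          (hXc1 := by linarith) (tA := tA)
  · have hj := d.hj j0
    have tO1 := tO j0
    rcases d.leaf with ⟨hl, hQ, hP⟩ | ⟨hl, hi3, hQ, hQ', hP⟩ | ⟨hl, hQ, hP, hP'⟩
    · rcases hX with hX | hX | hX | ⟨hXs, hXc | hXc⟩
      · exact r12a_j1_L_Y (th := th) (lam := lam) (y := y) (z := z) (g := g) (nb := nb) (Y := Y)
          (sg := sg) (D := D) (L := L) (X := X) (MB := MB) (MA := MA) (m11 := m11) (m12 := m12)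
          (u1 := u1) (u2 := u2) (ux := ux) (ua := ua) (al := al) (v2 := v2) (vb := vb) (be := be)
          (sy := sy) (ay := ay) (cy := cy) (hb := d.hb) (hj := hj) (h110 := d.m110)
          (h112 := d.m112) (h122 := d.m122) (hl := hl) (hs0 := hs0) (hg1 := hg1) (hn1 := hn1)
          (hug := hug) (hy := hy) (hyp1 := by linarith) (hsL := hsL) (hD := by linarith)
          (hDL := by linarith) (hX := by linarith) (t11 := t11) (t12 := t12) (tA := tA) (tE := tE)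
          (tO := tO1)
      · exact r12a_j1_L_S (th := th) (lam := lam) (y := y) (z := z) (g := g) (Y := Y) (X := X)
          (MB := MB) (MA := MA) (m11 := m11) (u1 := u1) (u2 := u2) (ux := ux) (ua := ua)
          (al := al) (v2 := v2) (vb := vb) (be := be) (sy := sy) (hb := d.hb) (hj := hj)
          (h110 := d.m110) (hl := hl) (hY0 := by linarith) (hg1 := hg1) (hug := hug)
          (hyp1 := by linarith) (hXa := by linarith) (hX := by linarith) (tA := tA) (tE := tE)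
      · exact r12a_j1_L_2 (th := th) (lam := lam) (y := y) (z := z) (g := g) (X := X) (MB := MB)
          (MA := MA) (m11 := m11) (u1 := u1) (u2 := u2) (ux := ux) (ua := ua) (al := al)
          (v2 := v2) (vb := vb) (be := be) (sy := sy) (ay := ay) (cy := cy) (hb := d.hb)
          (hj := hj) (h110 := d.m110) (hl := hl) (hg1 := hg1) (hug := hug) (hy := hy)
          (hyp1 := by linarith) (hX := by linarith) (tA := tA) (tE := tE)
      · exact r12a_j1_L_wQ (th := th) (lam := lam) (y := y) (z := z) (g := g) (X := X) (MB := MB)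
          (u1 := u1) (u2 := u2) (ux := ux) (ua := ua) (al := al) (v2 := v2) (vb := vb) (be := be)
          (sy := sy) (ay := ay) (cy := cy) (hb := d.hb) (hl := hl) (hg1 := hg1) (hug := hug)
          (hy := hy) (hyp1 := by linarith) (hXc0 := by linarith) (tA := tA) (tO := tO1)
      · exact r12a_j1_L_wP (th := th) (lam := lam) (y := y) (z := z) (g := g) (Y := Y) (X := X)
          (MB := MB) (MA := MA) (m11 := m11) (u1 := u1) (u2 := u2) (ux := ux) (ua := ua)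
          (al := al) (v2 := v2) (vb := vb) (be := be) (sy := sy) (hb := d.hb) (hj := hj)
          (h110 := d.m110) (hl := hl) (hg1 := hg1) (hug := hug) (hXa := by linarith)
          (hXb := by linarith) (hXc0 := by linarith) (tA := tA) (tE := tE)
    · rcases Nat.eq_zero_or_pos i with h0 | h0
      · obtain ⟨hi1, hi2⟩ := d.i0 h0
        rcases hX with hX | hX | hX | ⟨hXs, hXc | hXc⟩
        · exact r12c_j1i0_L_Y (th := th) (lam := lam) (y := y) (z := z) (g := g) (nb := nb)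
            (Y := Y) (sg := sg) (D := D) (L := L) (X := X) (MB := MB) (MA := MA) (m11 := m11)
            (m12 := m12) (u1 := u1) (u2 := u2) (ux := ux) (ua := ua) (al := al) (v2 := v2)
            (vb := vb) (be := be) (sy := sy) (ay := ay) (cy := cy) (hb := d.hb) (hj := hj)
            (hi1 := by linarith) (hi2 := by linarith) (h110 := d.m110) (h112 := d.m112)
            (h122 := d.m122) (hl := hl) (hs0 := hs0) (hY0 := by linarith) (hg1 := hg1)
            (hn1 := hn1) (hug := hug) (hy := hy) (hyp1 := by linarith) (hsL := hsL)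
            (hD := by linarith) (hDL := by linarith) (hX0 := hX0) (hXb := by linarith)
            (hX := by linarith) (t11 := t11) (t12 := t12) (tA := tA) (tE := tE) (tO := tO1)
        · exact r12c_j1i0_L_S (th := th) (lam := lam) (y := y) (z := z) (g := g) (Y := Y) (X := X)
            (MB := MB) (u1 := u1) (u2 := u2) (ux := ux) (ua := ua) (al := al) (v2 := v2)
            (vb := vb) (be := be) (sy := sy) (hb := d.hb) (hl := hl) (hY0 := by linarith)
            (hg1 := hg1) (hug := hug) (hyp1 := by linarith) (hXa := by linarith)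
            (hX := by linarith) (tA := tA)
        · exact r12c_j1i0_L_2 (th := th) (lam := lam) (y := y) (z := z) (g := g) (Y := Y) (X := X)
            (MB := MB) (u1 := u1) (u2 := u2) (ux := ux) (ua := ua) (al := al) (v2 := v2)
            (vb := vb) (be := be) (sy := sy) (ay := ay) (cy := cy) (hb := d.hb) (hl := hl)
            (hY0 := by linarith) (hg1 := hg1) (hug := hug) (hy := hy) (hyp1 := by linarith)
            (hXa := by linarith) (hX := by linarith) (tA := tA)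
        · exact r12c_j1i0_L_wQ (th := th) (lam := lam) (y := y) (z := z) (g := g) (Y := Y)
            (X := X) (MB := MB) (u1 := u1) (u2 := u2) (ux := ux) (ua := ua) (al := al) (v2 := v2)
            (vb := vb) (be := be) (sy := sy) (hb := d.hb) (hl := hl) (hg1 := hg1) (hug := hug)
            (hXa := by linarith) (hXb := by linarith) (hXc0 := by linarith) (hXc1 := by linarith)
            (tA := tA)
        · exact r12c_j1i0_L_wP (th := th) (lam := lam) (y := y) (z := z) (g := g) (X := X)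
            (MB := MB) (u1 := u1) (u2 := u2) (ux := ux) (ua := ua) (al := al) (v2 := v2)
            (vb := vb) (be := be) (hb := d.hb) (hl := hl) (hg1 := hg1) (hug := hug)
            (hXc0 := by linarith) (tA := tA)
      · have hl3 := hi3 h0
        rcases hX with hX | hX | hX | ⟨hXs, hXc | hXc⟩
        · exact r12c_j1i1_L_Y (th := th) (lam := lam) (y := y) (z := z) (g := g) (nb := nb)
            (Y := Y) (sg := sg) (D := D) (L := L) (X := X) (MB := MB) (MA := MA) (m11 := m11)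
            (m12 := m12) (u1 := u1) (u2 := u2) (ux := ux) (ua := ua) (al := al) (v2 := v2)
            (vb := vb) (be := be) (sy := sy) (ay := ay) (cy := cy) (hb := d.hb) (hj := hj)
            (h110 := d.m110) (h112 := d.m112) (h122 := d.m122) (hl := hl) (hs0 := hs0)
            (hY0 := by linarith) (hg1 := hg1) (hn1 := hn1) (hug := hug) (hl3 := by linarith)
            (hy := hy) (hyp1 := by linarith) (hsL := hsL) (hD := by linarith) (hDL := by linarith)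
            (hX0 := hX0) (hX := by linarith) (t11 := t11) (t12 := t12) (tA := tA) (tE := tE)
            (tO := tO1)
        · exact r12c_j1i1_L_S (th := th) (lam := lam) (y := y) (z := z) (g := g) (Y := Y) (X := X)
            (MB := MB) (u1 := u1) (u2 := u2) (ux := ux) (ua := ua) (al := al) (v2 := v2)
            (vb := vb) (be := be) (sy := sy) (ay := ay) (cy := cy) (hb := d.hb) (hl := hl)
            (hY0 := by linarith) (hg1 := hg1) (hug := hug) (hy := hy) (hyp1 := by linarith)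
            (hX := by linarith) (tA := tA)
        · exact r12c_j1i1_L_2 (th := th) (lam := lam) (y := y) (z := z) (g := g) (X := X)
            (MB := MB) (u1 := u1) (u2 := u2) (ux := ux) (ua := ua) (al := al) (v2 := v2)
            (vb := vb) (be := be) (hb := d.hb) (hl := hl) (hg1 := hg1) (hug := hug)
            (hX := by linarith) (tA := tA)
        · exact r12c_j1i1_L_wQ (th := th) (lam := lam) (y := y) (z := z) (g := g) (Y := Y)
            (X := X) (MB := MB) (u1 := u1) (u2 := u2) (ux := ux) (ua := ua) (al := al) (v2 := v2)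
            (vb := vb) (be := be) (sy := sy) (hb := d.hb) (hl := hl) (hg1 := hg1) (hug := hug)
            (hXa := by linarith) (hXb := by linarith) (hXc0 := by linarith) (hXc1 := by linarith)
            (tA := tA)
        · exact r12c_j1i1_L_wP (th := th) (lam := lam) (y := y) (z := z) (g := g) (X := X)
            (MB := MB) (u1 := u1) (u2 := u2) (ux := ux) (ua := ua) (al := al) (v2 := v2)
            (vb := vb) (be := be) (hb := d.hb) (hl := hl) (hg1 := hg1) (hug := hug)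
            (hXc0 := by linarith) (tA := tA)
    · rcases hX with hX | hX | hX | ⟨hXs, hXc | hXc⟩
      · exact r13c_j1_L_Y (th := th) (lam := lam) (y := y) (z := z) (g := g) (nb := nb) (Y := Y)
          (sg := sg) (D := D) (L := L) (X := X) (MB := MB) (MA := MA) (m11 := m11) (m12 := m12)
          (u1 := u1) (u2 := u2) (ux := ux) (ua := ua) (al := al) (v2 := v2) (vb := vb) (be := be)
          (sy := sy) (ay := ay) (cy := cy) (hb := d.hb) (hj := hj) (h110 := d.m110)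
          (h112 := d.m112) (h122 := d.m122) (hl := hl) (hs0 := hs0) (hg1 := hg1) (hn1 := hn1)
          (hug := hug) (hy := hy) (hyp1 := by linarith) (hyp2 := by linarith) (hsL := hsL)
          (hD := by linarith) (hDL := by linarith) (hX := by linarith) (t11 := t11) (t12 := t12)
          (tA := tA) (tE := tE) (tO := tO1)
      · exact r13c_j1_L_S (th := th) (lam := lam) (y := y) (z := z) (g := g) (Y := Y) (X := X)
          (MB := MB) (MA := MA) (m11 := m11) (u1 := u1) (u2 := u2) (ux := ux) (ua := ua)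
          (al := al) (v2 := v2) (vb := vb) (be := be) (sy := sy) (ay := ay) (cy := cy)
          (hb := d.hb) (hj := hj) (h110 := d.m110) (hl := hl) (hY0 := by linarith) (hg1 := hg1)
          (hug := hug) (hy := hy) (hyp1 := by linarith) (hyp2 := by linarith) (hXa := by linarith)
          (hX := by linarith) (tA := tA) (tE := tE) (tO := tO1)
      · exact r13c_j1_L_2 (th := th) (lam := lam) (y := y) (z := z) (g := g) (X := X) (MB := MB)
          (MA := MA) (m11 := m11) (u1 := u1) (u2 := u2) (ux := ux) (ua := ua) (al := al)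
          (v2 := v2) (vb := vb) (be := be) (sy := sy) (ay := ay) (cy := cy) (hb := d.hb)
          (hj := hj) (h110 := d.m110) (hl := hl) (hg1 := hg1) (hug := hug) (hy := hy)
          (hyp1 := by linarith) (hyp2 := by linarith) (hX := by linarith) (tA := tA) (tE := tE)
      · exact r13c_j1_L_wQ (th := th) (lam := lam) (y := y) (z := z) (g := g) (X := X) (MB := MB)
          (u1 := u1) (u2 := u2) (ux := ux) (ua := ua) (al := al) (v2 := v2) (vb := vb) (be := be)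
          (sy := sy) (ay := ay) (cy := cy) (hb := d.hb) (hl := hl) (hg1 := hg1) (hug := hug)
          (hy := hy) (hyp2 := by linarith) (hXc0 := by linarith) (tA := tA) (tO := tO1)
      · exact r13c_j1_L_wP (th := th) (lam := lam) (y := y) (z := z) (g := g) (Y := Y) (X := X)
          (MB := MB) (MA := MA) (m11 := m11) (u1 := u1) (u2 := u2) (ux := ux) (ua := ua)
          (al := al) (v2 := v2) (vb := vb) (be := be) (sy := sy) (hb := d.hb) (hj := hj)
          (h110 := d.m110) (hl := hl) (hg1 := hg1) (hug := hug) (hX0 := hX0) (hXa := by linarith)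
          (hXb := by linarith) (hXc0 := by linarith) (hXc1 := by linarith) (tA := tA) (tE := tE)
          (tO := tO1)

theorem MXD.e1N {i j : ℕ} {th lam y z MB MA Qc Pc m11 m12 u1 u2 ux ua al v2 vb1 vb be sg D L X : ℝ}
    (d : MXD i j th lam y z MB MA Qc Pc m11 m12 u1 u2 ux ua al v2 vb1 vb be)
    (hug : ua ≤ 0) (hs0 : 0 ≤ sg) (hX0 : 0 ≤ X)
    (hL0 : 0 ≤ L) (hD : D ≤ 1) (hDz : D ≤ z) (hDL : D + L + sg ≤ th + y)
    (hX : X ≤ 2 ∨ (X ≤ sg + 1 ∧ (X ≤ Qc ∨ X ≤ Pc)))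
    (t11 : FT th D L m11 (vb - ua) (y - vb - be) al)
    (t12 : FT th D L m12 (v2 - u1) (v2 + be - y) (u1 - ua - al))
    (tA : FT th (-(0 : ℝ)) X 0 (th + ua) al be)
    (tE : FT th (-(0 : ℝ)) X (MA - m11) (th + ua + vb - y) al (y - vb - be))
    (tO : 1 ≤ j → FT th (-(0 : ℝ)) X 2 (th + ux + ua - u1) (u1 - ux - al) be) : False := by
  rcases d.leaf with ⟨hl, hQ, hP⟩ | ⟨hl, hi3, hQ, hQ', hP⟩ | ⟨hl, hQ, hP, hP'⟩
  · linarith [hl.xua]
  · linarith [hl.xua]
  · rcases Nat.eq_zero_or_pos j with j0 | j0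
    · obtain ⟨hj1, hj2, hj3⟩ := d.hj0 j0
      linarith [hl.xu1]
    · have hj := d.hj j0
      have tO1 := tO j0
      rcases hX with hX | ⟨hXs, hXc | hXc⟩
      · rcases d.H4 with hH | ⟨hH, o1, o2, o3, o4⟩ | ⟨hH, i1, i2⟩
        · exact e1N_2_g (th := th) (lam := lam) (y := y) (z := z) (g := 0) (X := X) (MB := MB)
            (u1 := u1) (u2 := u2) (ux := ux) (ua := ua) (al := al) (v2 := v2) (vb := vb)
            (be := be) (hb := d.hb) (hl := hl) (hg0 := by linarith) (hug := hug)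
            (hX := by linarith) (hlam := by linarith) (tO := tO1)
        · exact e1N_2_o (th := th) (lam := lam) (y := y) (z := z) (g := 0) (X := X) (MB := MB)
            (MA := MA) (m11 := m11) (u1 := u1) (u2 := u2) (ux := ux) (ua := ua) (al := al)
            (v2 := v2) (vb := vb) (be := be) (hb := d.hb) (hj := hj) (h110 := d.m110) (hl := hl)
            (hg0 := by linarith) (hug := hug) (hX := by linarith) (o2 := by linarith)
            (o3 := by linarith) (tE := tE)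
        · exact e1N_2_i (th := th) (lam := lam) (y := y) (z := z) (MB := MB) (u1 := u1) (u2 := u2)
            (ux := ux) (ua := ua) (al := al) (v2 := v2) (vb := vb) (be := be) (hb := d.hb)
            (hl := hl) (in3 := by linarith) (in1 := by linarith)
      · rcases d.H4 with hH | ⟨hH, o1, o2, o3, o4⟩ | ⟨hH, i1, i2⟩
        · exact e1N_wQ_g (th := th) (lam := lam) (y := y) (z := z) (g := 0) (X := X) (MB := MB)
            (u1 := u1) (u2 := u2) (ux := ux) (ua := ua) (al := al) (v2 := v2) (vb := vb)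
            (be := be) (hb := d.hb) (hl := hl) (hg0 := by linarith) (hug := hug)
            (hXc0 := by linarith) (tO := tO1)
        · exact e1N_wQ_o (th := th) (lam := lam) (y := y) (z := z) (g := 0) (X := X) (MB := MB)
            (MA := MA) (m11 := m11) (u1 := u1) (u2 := u2) (ux := ux) (ua := ua) (al := al)
            (v2 := v2) (vb := vb) (be := be) (hb := d.hb) (hj := hj) (h110 := d.m110) (hl := hl)
            (hg0 := by linarith) (hug := hug) (hXc0 := by linarith) (o2 := by linarith)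
            (o3 := by linarith) (tE := tE)
        · exact e1N_wQ_i (th := th) (lam := lam) (y := y) (z := z) (MB := MB) (u1 := u1)
            (u2 := u2) (ux := ux) (ua := ua) (al := al) (v2 := v2) (vb := vb) (be := be)
            (hb := d.hb) (hl := hl) (in3 := by linarith) (in1 := by linarith)
      · rcases d.H4 with hH | ⟨hH, o1, o2, o3, o4⟩ | ⟨hH, i1, i2⟩
        · exact e1N_wP_g (th := th) (lam := lam) (y := y) (z := z) (g := 0) (X := X) (MB := MB)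
            (u1 := u1) (u2 := u2) (ux := ux) (ua := ua) (al := al) (v2 := v2) (vb := vb)
            (be := be) (hb := d.hb) (hl := hl) (hg0 := by linarith) (hug := hug)
            (hXc0 := by linarith) (hXc1 := by linarith) (hlam := by linarith) (tO := tO1)
        · exact e1N_wP_o (th := th) (lam := lam) (y := y) (z := z) (g := 0) (X := X) (MB := MB)
            (MA := MA) (m11 := m11) (u1 := u1) (u2 := u2) (ux := ux) (ua := ua) (al := al)
            (v2 := v2) (vb := vb) (be := be) (hb := d.hb) (hj := hj) (h110 := d.m110) (hl := hl)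
            (hg0 := by linarith) (hug := hug) (hX0 := hX0) (hXc0 := by linarith)
            (hXc1 := by linarith) (o2 := by linarith) (o3 := by linarith) (tE := tE)
        · exact e1N_wP_i (th := th) (lam := lam) (y := y) (z := z) (MB := MB) (u1 := u1)
            (u2 := u2) (ux := ux) (ua := ua) (al := al) (v2 := v2) (vb := vb) (be := be)
            (hb := d.hb) (hl := hl) (in3 := by linarith) (in1 := by linarith)

theorem MXD.e1L {i j : ℕ} {th lam y z MB MA Qc Pc m11 m12 u1 u2 ux ua al v2 vb1 vb be sg D L X sy ay cy : ℝ}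
    (d : MXD i j th lam y z MB MA Qc Pc m11 m12 u1 u2 ux ua al v2 vb1 vb be)
    (hug : ua ≤ 0) (hs0 : 0 ≤ sg) (hX0 : 0 ≤ X)
    (hD : D ≤ 0) (hDL : D + L + sg ≤ th + y)
    (hy : LY sy ay cy) (hs : sy ≤ Pc) (hsL : sy ≤ L)
    (hXb : sy ≤ X) (hX : X = sy ∨ X ≤ 2 ∨ (X ≤ sg ∧ (X ≤ Qc ∨ X ≤ Pc)))
    (t11 : FT th (D + ay) (L - sy) m11 (vb - ua) (y - vb - be) al)
    (t12 : FT th (D + ay) (L - sy) m12 (v2 - u1) (v2 + be - y) (u1 - ua - al))
    (tA : FT th (-(0 : ℝ)) X 0 (th + ua) al be)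
    (tE : FT th (-(0 : ℝ)) X (MA - m11) (th + ua + vb - y) al (y - vb - be))
    (tO : 1 ≤ j → FT th (-(0 : ℝ)) X 2 (th + ux + ua - u1) (u1 - ux - al) be) : False := by
  have hsy0 : 0 ≤ sy := by linarith [hy.a1, hy.say]
  rcases d.leaf with ⟨hl, hQ, hP⟩ | ⟨hl, hi3, hQ, hQ', hP⟩ | ⟨hl, hQ, hP, hP'⟩
  · linarith [hl.xua]
  · linarith [hl.xua]
  · rcases Nat.eq_zero_or_pos j with j0 | j0
    · obtain ⟨hj1, hj2, hj3⟩ := d.hj0 j0
      linarith [hl.xu1]
    · have hj := d.hj j0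
      have tO1 := tO j0
      rcases hX with hX | hX | ⟨hXs, hXc | hXc⟩
      · rcases d.H4 with hH | ⟨hH, o1, o2, o3, o4⟩ | ⟨hH, i1, i2⟩
        · exact e1L_S_g (th := th) (lam := lam) (y := y) (z := z) (g := 0) (Y := 0) (X := X)
            (MB := MB) (u1 := u1) (u2 := u2) (ux := ux) (ua := ua) (al := al) (v2 := v2)
            (vb := vb) (be := be) (sy := sy) (hb := d.hb) (hl := hl) (hg0 := by linarith)
            (hY0 := by linarith) (hug := hug) (hyp1 := by linarith) (hyp2 := by linarith)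
            (hX := by linarith) (hlam := by linarith) (tO := tO1)
        · exact e1L_S_o (th := th) (lam := lam) (y := y) (z := z) (g := 0) (Y := 0) (X := X)
            (MB := MB) (MA := MA) (m11 := m11) (u1 := u1) (u2 := u2) (ux := ux) (ua := ua)
            (al := al) (v2 := v2) (vb := vb) (be := be) (sy := sy) (ay := ay) (cy := cy)
            (hb := d.hb) (hj := hj) (h110 := d.m110) (hl := hl) (hg0 := by linarith)
            (hY0 := by linarith) (hug := hug) (hy := hy) (hyp1 := by linarith)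
            (hyp2 := by linarith) (hX := by linarith) (o2 := by linarith) (o3 := by linarith)
            (tE := tE)
        · exact e1L_S_i (th := th) (lam := lam) (y := y) (z := z) (MB := MB) (u1 := u1) (u2 := u2)
            (ux := ux) (ua := ua) (al := al) (v2 := v2) (vb := vb) (be := be) (hb := d.hb)
            (hl := hl) (in3 := by linarith) (in1 := by linarith)
      · rcases d.H4 with hH | ⟨hH, o1, o2, o3, o4⟩ | ⟨hH, i1, i2⟩
        · exact e1L_2_g (th := th) (lam := lam) (y := y) (z := z) (g := 0) (X := X) (MB := MB)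
            (u1 := u1) (u2 := u2) (ux := ux) (ua := ua) (al := al) (v2 := v2) (vb := vb)
            (be := be) (sy := sy) (ay := ay) (cy := cy) (hb := d.hb) (hl := hl)
            (hg0 := by linarith) (hug := hug) (hy := hy) (hyp2 := by linarith) (hX := by linarith)
            (hlam := by linarith) (tO := tO1)
        · exact e1L_2_o (th := th) (lam := lam) (y := y) (z := z) (g := 0) (X := X) (MB := MB)
            (MA := MA) (m11 := m11) (u1 := u1) (u2 := u2) (ux := ux) (ua := ua) (al := al)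
            (v2 := v2) (vb := vb) (be := be) (sy := sy) (ay := ay) (cy := cy) (hb := d.hb)
            (hj := hj) (h110 := d.m110) (hl := hl) (hg0 := by linarith) (hug := hug) (hy := hy)
            (hyp1 := by linarith) (hyp2 := by linarith) (hX := by linarith) (o2 := by linarith)
            (o3 := by linarith) (tE := tE)
        · exact e1L_2_i (th := th) (lam := lam) (y := y) (z := z) (MB := MB) (u1 := u1) (u2 := u2)
            (ux := ux) (ua := ua) (al := al) (v2 := v2) (vb := vb) (be := be) (hb := d.hb)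
            (hl := hl) (in1 := by linarith)
      · rcases d.H4 with hH | ⟨hH, o1, o2, o3, o4⟩ | ⟨hH, i1, i2⟩
        · exact e1L_wQ_g (th := th) (lam := lam) (y := y) (z := z) (g := 0) (X := X) (MB := MB)
            (u1 := u1) (u2 := u2) (ux := ux) (ua := ua) (al := al) (v2 := v2) (vb := vb)
            (be := be) (hb := d.hb) (hl := hl) (hg0 := by linarith) (hug := hug)
            (hXc0 := by linarith) (tO := tO1)
        · exact e1L_wQ_o (th := th) (lam := lam) (y := y) (z := z) (g := 0) (Y := 0) (X := X)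
            (MB := MB) (MA := MA) (m11 := m11) (u1 := u1) (u2 := u2) (ux := ux) (ua := ua)
            (al := al) (v2 := v2) (vb := vb) (be := be) (sy := sy) (ay := ay) (cy := cy)
            (hb := d.hb) (hj := hj) (h110 := d.m110) (hl := hl) (hg0 := by linarith)
            (hY0 := by linarith) (hug := hug) (hy := hy) (hyp1 := by linarith)
            (hyp2 := by linarith) (hXb := by linarith) (hXc0 := by linarith) (o2 := by linarith)
            (o3 := by linarith) (tE := tE)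
        · exact e1L_wQ_i (th := th) (lam := lam) (y := y) (z := z) (MB := MB) (u1 := u1)
            (u2 := u2) (ux := ux) (ua := ua) (al := al) (v2 := v2) (vb := vb) (be := be)
            (hb := d.hb) (hl := hl) (in3 := by linarith) (in1 := by linarith)
      · rcases d.H4 with hH | ⟨hH, o1, o2, o3, o4⟩ | ⟨hH, i1, i2⟩
        · exact e1L_wP_g (th := th) (lam := lam) (y := y) (z := z) (g := 0) (X := X) (MB := MB)
            (u1 := u1) (u2 := u2) (ux := ux) (ua := ua) (al := al) (v2 := v2) (vb := vb)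
            (be := be) (hb := d.hb) (hl := hl) (hg0 := by linarith) (hug := hug)
            (hXc0 := by linarith) (hXc1 := by linarith) (hlam := by linarith) (tO := tO1)
        · exact e1L_wP_o (th := th) (lam := lam) (y := y) (z := z) (g := 0) (Y := 0) (X := X)
            (MB := MB) (MA := MA) (m11 := m11) (u1 := u1) (u2 := u2) (ux := ux) (ua := ua)
            (al := al) (v2 := v2) (vb := vb) (be := be) (sy := sy) (hb := d.hb) (hj := hj)
            (h110 := d.m110) (hl := hl) (hg0 := by linarith) (hug := hug) (hXa := by linarith)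
            (hXb := by linarith) (hXc0 := by linarith) (hXc1 := by linarith) (o2 := by linarith)
            (o3 := by linarith) (tE := tE)
        · exact e1L_wP_i (th := th) (lam := lam) (y := y) (z := z) (MB := MB) (u1 := u1)
            (u2 := u2) (ux := ux) (ua := ua) (al := al) (v2 := v2) (vb := vb) (be := be)
            (hb := d.hb) (hl := hl) (in3 := by linarith) (in1 := by linarith)

end Pool.Agent.Exact


end
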