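import Mathlib
import Pool.Agent.EXAM.C05
import Pool.Agent.EXAM.C09
import Pool.Agent.EXAM.C12
import Pool.Agent.EXAM.C20
import Pool.Agent.EXAM.C21
import Pool.Agent.EXAM.C22
import Pool.Agent.EXAM.C23

/-! Parts: Lib_helper43.NC.Cut3, Lib_helper43.NC.MxM, Lib_helper43.NC.MxF, Lib_helper43.NC.MxL, Lib_helper43.NC.MxG -/

section

/-!
# The end of the path for a cut of the two chains, joint data
-/

set_option autoImplicit false
set_option linter.unusedSectionVars false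
set_option linter.unusedSimpArgs false
set_option linter.unnecessarySeqFocus false
set_option linter.unreachableTactic false
set_option linter.unusedTactic false

namespace Pool.Agent.Exact

open Finset

variable {V : Type*} [Fintype V] [DecidableEq V]
variable {B : V → V → ℤ} {Rl : Finset V} {ℓ nQ nP : ℕ} {uq up : ℕ → V} {q p : ℕ → ℝ}
variable {k : ℤ} {θ : ℝ}

/-- end of the path without a last vertex; `c1`, `c2` bound `D` and `D + L` -/
structure DN (B : V → V → ℤ) (uq up : ℕ → V) (a b : ℕ) (g q0 c1 c2 Y w σ Γ D0 L0 Dw Lw : ℝ) :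
    Prop where
  w0 : 0 ≤ w
  s0 : 0 ≤ σ
  l0 : 0 ≤ L0
  lw : 0 ≤ Lw
  d0 : D0 ≤ c1
  dl0 : D0 + L0 ≤ c2 - σ
  dw : Dw ≤ c1
  dlw : Dw + Lw ≤ q0 - g - Γ
  v0 : EV B (vs uq up (hb1 a b)) D0 L0
  vw : EV B (vs uq up (hb1 a b)) Dw Lw
  t2 : EV B (vs uq up (hb a b)) (-g) (max Y w)

/-- end of the path with a last vertex `y` -/
structure DL (B : V → V → ℤ) (nQ nP : ℕ) (uq up : ℕ → V) (a b : ℕ)
    (g q0 pb c1 c2 Y w σ Γ D0 L0 Dw Lw sy ay cy : ℝ) (y : V) : Prop where
  yR : y ∈ vs uq up (rr nQ nP a b)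
  im : ((im B y : ℤ) : ℝ) = - sy
  mm : ((MM B (uq 0) y : ℤ) : ℝ) = ay
  a1 : 1 ≤ ay
  a2 : ay ≤ 2
  ac : ay ≤ 1 + cy
  c0 : 0 ≤ cy
  say : ay + 1 ≤ sy
  syp : sy ≤ pb
  w0 : 0 ≤ w
  s0 : 0 ≤ σ
  l0 : 1 ≤ L0
  lw : 1 ≤ Lw
  d0 : D0 ≤ c1
  dl0 : D0 + L0 ≤ c2 - σ
  dw : Dw ≤ c1
  dlw : Dw + Lw ≤ q0 - g - Γ
  v0y : EV B (insert y (vs uq up (hb1 a b))) D0 L0
  v0 : EV B (vs uq up (hb1 a b)) (D0 + ay) |L0 - sy|
  vwy : EV B (insert y (vs uq up (hb1 a b))) Dw Lw
  vw : EV B (vs uq up (hb1 a b)) (Dw + ay) |Lw - sy|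
  t2 : EV B (vs uq up (hb a b)) (-g) (max |Y - sy| w)

section
variable (h : Ctx B Rl ℓ nQ nP uq up q p k θ)
include h

variable {Rs S : Finset V} {g : ℤ} {Kc : V → Finset V} {pick : Finset V → V}

/-- adding the dummies -/
lemma Ctx.evDm {a b : ℕ} (ha : a ≤ nQ) (hb' : b ≤ nP) {D L : ℝ}
    (hE : EV B (vs uq up (hb1 a b ∪ dm ℓ nQ nP)) D L) : EV B (vs uq up (hb1 a b)) D L := by
  have hQ := h.fr.nQle
  have hP := h.fr.nPle
  intro M K t hK hst
  exact hE M K t hK (h.fr.withDm hK hst (by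
    unfold hb1 rr
    intro x hx
    revert hx
    rcases x with x | x <;>
    simp only [Finset.mem_union, inl_mem_iq, inr_mem_iq, inl_mem_ip, inr_mem_ip,
      or_false, false_or] <;> omega))

/-- adding the dummies, with an extra vertex -/
lemma Ctx.evDmy {a b : ℕ} (ha : a ≤ nQ) (hb' : b ≤ nP) {D L : ℝ} {y : V}
    (hy : y ∈ vs uq up (rr nQ nP a b))
    (hE : EV B (insert y (vs uq up (hb1 a b ∪ dm ℓ nQ nP))) D L) :
    EV B (insert y (vs uq up (hb1 a b))) D L := by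
  have hQ := h.fr.nQle
  have hP := h.fr.nPle
  intro M K t hK hst
  refine hE M K t hK ?_
  have f1 : rr nQ nP a b ⊆ full ℓ := by
    unfold rr
    intro x hx
    revert hx
    rcases x with x | x <;>
    simp only [Finset.mem_union, inl_mem_full, inr_mem_full, inl_mem_iq, inr_mem_iq, inl_mem_ip,
      inr_mem_ip, or_false, false_or] <;> omega
  have f2 : dm ℓ nQ nP ⊆ full ℓ := by
    unfold dm
    intro x hx
    revert hx
    rcases x with x | x <;>
    simp only [Finset.mem_union, inl_mem_full, inr_mem_full, inl_mem_iq, inr_mem_iq, inl_mem_ip,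
      inr_mem_ip, or_false, false_or] <;> omega
  have f3 : hb1 a b ⊆ full ℓ := by
    unfold hb1
    intro x hx
    revert hx
    rcases x with x | x <;>
    simp only [Finset.mem_union, inl_mem_full, inr_mem_full, inl_mem_iq, inr_mem_iq, inl_mem_ip,
      inr_mem_ip, or_false, false_or] <;> omega
  have d1 : Disjoint (rr nQ nP a b) (dm ℓ nQ nP) := by
    unfold rr dm
    rw [Finset.disjoint_left]
    intro x hx hx'
    revert hx hx'
    rcases x with x | x <;>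
    simp only [Finset.mem_union, inl_mem_iq, inr_mem_iq, inl_mem_ip, inr_mem_ip, or_false,
      false_or] <;> omega
  have d2 : Disjoint (hb1 a b) (dm ℓ nQ nP) := by
    unfold hb1 dm
    rw [Finset.disjoint_left]
    intro x hx hx'
    revert hx hx'
    rcases x with x | x <;>
    simp only [Finset.mem_union, inl_mem_iq, inr_mem_iq, inl_mem_ip, inr_mem_ip, or_false,
      false_or] <;> omega
  have hdm : Disjoint (insert y (vs uq up (hb1 a b))) ((dm ℓ nQ nP).image (vx uq up)) := by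
    rw [Finset.disjoint_insert_left]
    exact ⟨Finset.disjoint_left.1 (h.fr.disj f1 f2 d1) hy, h.fr.disj f3 f2 d2⟩
  have h10 := St.union hst (h.fr.stDm hK) hdm
  have e1 : insert y (vs uq up (hb1 a b)) ∪ (dm ℓ nQ nP).image (vx uq up) =
      insert y (vs uq up (hb1 a b ∪ dm ℓ nQ nP)) := by
    unfold vs
    rw [Finset.image_union, Finset.insert_union]
  rw [e1] at h10
  exact h10.mono (by norm_num) le_rfl (by norm_num)

/-- all hubs -/
lemma Ctx.evT2 {a b : ℕ} (ha : a ≤ nQ) (hb' : b ≤ nP) {D L : ℝ}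
    (hE : EV B (univ \ vs uq up (rr nQ nP a b)) D L) : EV B (vs uq up (hb a b)) D L := by
  have hQ := h.fr.nQle
  have hP := h.fr.nPle
  intro M K t hK hst
  have h3 := h.fr.withDm hK hst (by
    unfold hb rr
    intro x hx
    revert hx
    rcases x with x | x <;>
    simp only [Finset.mem_union, inl_mem_iq, inr_mem_iq, inl_mem_ip, inr_mem_ip,
      or_false, false_or] <;> omega)
  have h4 : Finset.univ \ vs uq up (rr nQ nP a b) = (hb a b ∪ dm ℓ nQ nP).image (vx uq up) := by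
    unfold vs
    have h5 : full ℓ = rr nQ nP a b ∪ (hb a b ∪ dm ℓ nQ nP) := by
      unfold rr hb dm
      ext x
      rcases x with x | x <;>
      simp only [Finset.mem_union, inl_mem_full, inr_mem_full, inl_mem_iq, inr_mem_iq,
        inl_mem_ip, inr_mem_ip, or_false, false_or] <;> omega
    rw [← h.fr.univ, h5, Finset.image_union, Finset.union_sdiff_cancel_left]
    refine h.fr.disj ?_ ?_ ?_
    · unfold rr
      intro x hx
      revert hx
      rcases x with x | x <;>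
      simp only [Finset.mem_union, inl_mem_full, inr_mem_full, inl_mem_iq, inr_mem_iq, inl_mem_ip,
        inr_mem_ip, or_false, false_or] <;> omega
    · unfold hb dm
      intro x hx
      revert hx
      rcases x with x | x <;>
      simp only [Finset.mem_union, inl_mem_full, inr_mem_full, inl_mem_iq, inr_mem_iq, inl_mem_ip,
        inr_mem_ip, or_false, false_or] <;> omega
    · unfold rr hb dm
      rw [Finset.disjoint_left]
      intro x hx hx'
      revert hx hx'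
      rcases x with x | x <;>
      simp only [Finset.mem_union, inl_mem_iq, inr_mem_iq, inl_mem_ip, inr_mem_ip, or_false,
        false_or] <;> omega
  rw [h4] at hE
  exact hE M K t hK h3

/-- the crossing at a last vertex -/
lemma Ctx.crsOf {a b : ℕ} {D L : ℝ} {s : ℝ} (hE : EV B (vs uq up (hb1 a b)) D |L - s|)
    (hL : 1 ≤ L) (hs : L ≤ s) (hp : s ≤ p b) : CrSI B uq up p a b D := by
  intro M K t hK hpK hst
  refine (hE M K t hK hst).mono ?_
  rw [abs_of_nonpos (by linarith)]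
  have h13 : max (max (-(L - s)) K) ((-(L - s) + t) / 2) ≤ max K ((t + p b - 1) / 2) :=
    max_le (max_le (le_trans (by linarith) (hpK.trans (le_max_left _ _))) (le_max_left _ _))
      (le_trans (by linarith) (le_max_right _ _))
  linarith

/-- **The end of the path, joint data.** -/
theorem Ctx.end3 (hnv : ¬ Val B θ) (hq0 : 0 < q 0) {a b : ℕ}
    (hC : Closed B nQ nP uq up q p θ a b)
    (hdec : Dec B pick (vs uq up (rr nQ nP a b)) Rs S g Kc) :
    ∃ (Yz : ℤ) (Y nb w σ Γ D0 L0 Dw Lw : ℝ), ((Yz : ℝ) = Y ∧ T2I B uq up a b S g Yz ∧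
      T2A B uq up a b S g Yz) ∧ 0 ≤ Y ∧ 0 ≤ nb ∧ (Rs.card : ℝ) ≤ g + nb ∧
      (∀ y0 : ℤ, (∀ v ∈ Rs, |im B v| ≤ y0) → Y ≤ Rs.card * y0) ∧
      ((Gam B (uq 0) S : ℤ) : ℝ) ≤ Γ ∧
      ((Rs.Nonempty ∧ 1 ≤ g ∧ 1 ≤ nb ∧
        (DN B uq up a b g (q 0) (cRr B nQ nP uq up a b - nb)
          (cRr B nQ nP uq up a b - nb + q 0 - Y) Y w σ Γ D0 L0 Dw Lw ∧
          (w ≤ 2 ∨ (w ≤ σ ∧ (w ≤ q a ∨ w ≤ p b))) ∧
          σ = Γ + ((ch (MM B (uq 0)) S : ℤ) : ℝ) ∨
        ∃ sy ay cy y, DL B nQ nP uq up a b g (q 0) (p b) (cRr B nQ nP uq up a b - cy - nb)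
          (cRr B nQ nP uq up a b - cy - nb + q 0 - Y) Y w σ Γ D0 L0 Dw Lw sy ay cy y ∧
          (w ≤ 2 ∨ (w ≤ σ ∧ (w ≤ q a ∨ w ≤ p b))) ∧ sy ≤ L0 ∧ sy ≤ Lw ∧
          σ = Γ + ((ch (MM B (uq 0)) S : ℤ) : ℝ) - cy)) ∨
      (Rs = ∅ ∧ g = 0 ∧ Y = 0 ∧ σ = Γ ∧
        (DN B uq up a b 0 (q 0) (min 1 (cRr B nQ nP uq up a b)) (q 0) 0 w σ Γ D0 L0 Dw Lw ∧
          (w ≤ 2 ∨ (w ≤ σ + 1 ∧ (w ≤ q a ∨ w ≤ p b))) ∨
        ∃ sy ay cy y, DL B nQ nP uq up a b 0 (q 0) (p b) 0 (q 0) 0 w σ Γ D0 L0 Dw Lw sy ay cy y ∧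
          (w ≤ 2 ∨ (w ≤ σ ∧ (w ≤ q a ∨ w ≤ p b)))))) := by
  classical
  have hQ := h.fr.nQle
  have hP := h.fr.nPle
  have hB0 := h.fr.sys.B0
  have hB1 := h.fr.sys.B1
  have hBd := h.fr.sys.Bd
  have ha1 := hC.a1
  have haQ := hC.aQ
  have hbP := hC.bP
  have hRS := hdec.un
  have hdS := hdec.dj
  have hbl := hdec.bl
  have hind := hdec.ind
  have hSR : S ⊆ vs uq up (rr nQ nP a b) := by rw [← hRS]; exact Finset.subset_union_right
  set R := vs uq up (rr nQ nP a b) with hR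
  set hv : V := uq 0 with hhv
  set Cv : Finset V := vs uq up (hb1 a b ∪ dm ℓ nQ nP) with hCv
  have hfull : insert (Sum.inl 0) (rr nQ nP a b ∪ (hb1 a b ∪ dm ℓ nQ nP)) = full ℓ := by
    unfold rr hb1 dm
    ext x
    rcases x with x | x <;>
    simp only [Finset.mem_union, Finset.mem_insert, inl_mem_full, inr_mem_full, inl_mem_iq,
      inr_mem_iq, inl_mem_ip, inr_mem_ip, Sum.inl.injEq, reduceCtorEq, or_false, false_or] <;>
      omega
  have hRf : rr nQ nP a b ⊆ full ℓ := by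
    unfold rr
    intro x hx
    revert hx
    rcases x with x | x <;>
    simp only [Finset.mem_union, inl_mem_full, inr_mem_full, inl_mem_iq, inr_mem_iq, inl_mem_ip,
      inr_mem_ip, or_false, false_or] <;> omega
  have hCf : hb1 a b ∪ dm ℓ nQ nP ⊆ full ℓ := by
    unfold hb1 dm
    intro x hx
    revert hx
    rcases x with x | x <;>
    simp only [Finset.mem_union, inl_mem_full, inr_mem_full, inl_mem_iq, inr_mem_iq, inl_mem_ip,
      inr_mem_ip, or_false, false_or] <;> omega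
  have h0R : (Sum.inl 0 : ℕ ⊕ ℕ) ∉ rr nQ nP a b := by
    unfold rr
    simp only [Finset.mem_union, inl_mem_iq, inl_mem_ip, or_false, not_and]
    omega
  have h0C : (Sum.inl 0 : ℕ ⊕ ℕ) ∉ hb1 a b ∪ dm ℓ nQ nP := by
    unfold hb1 dm
    simp only [Finset.mem_union, inl_mem_iq, inl_mem_ip, or_false, not_or, not_and]
    omega
  have h0f : (Sum.inl 0 : ℕ ⊕ ℕ) ∈ full ℓ := by simp; omega
  have hnot : ∀ I ⊆ full ℓ, (Sum.inl 0 : ℕ ⊕ ℕ) ∉ I → hv ∉ vs uq up I := by
    intro I hI h0 hmem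
    unfold vs at hmem
    rw [Finset.mem_image] at hmem
    obtain ⟨x, hx, hx'⟩ := hmem
    have := h.fr.inj (hI hx) h0f hx'
    rw [this] at hx
    exact h0 hx
  have hhR : hv ∉ Rs ∪ S := by rw [hRS]; exact hnot _ hRf h0R
  have hhC : hv ∉ Cv := hnot _ hCf h0C
  have hdRC : Disjoint (Rs ∪ S) Cv := by
    rw [hRS]
    refine h.fr.disj hRf hCf ?_
    unfold rr hb1 dm
    rw [Finset.disjoint_left]
    intro x hx hx'
    revert hx hx'
    rcases x with x | x <;>
    simp only [Finset.mem_union, inl_mem_iq, inr_mem_iq, inl_mem_ip, inr_mem_ip, or_false,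
      false_or] <;> omega
  have huniv : insert hv ((Rs ∪ S) ∪ Cv) = Finset.univ := by
    rw [hRS, hR, hCv]
    unfold vs
    rw [← Finset.image_union, ← h.fr.univ, ← hfull, Finset.image_insert]
    rfl
  have himq : ((im B hv : ℤ) : ℝ) = q 0 := h.fr.sys.wtQ 0 (by omega)
  have hq : 0 < im B hv := by
    have : (0 : ℝ) < ((im B hv : ℤ) : ℝ) := by rw [himq]; exact hq0
    exact_mod_cast this
  have hchU : ch (MM B hv) (Rs ∪ S) = ch (MM B hv) Rs + ch (MM B hv) S := ch_union hdS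
  have hchS0 : 0 ≤ ch (MM B hv) S := ch_nonneg _
  have hchR0 : 0 ≤ ch (MM B hv) Rs := ch_nonneg _
  have hz : cRr B nQ nP uq up a b = ((ch (MM B hv) Rs + ch (MM B hv) S : ℤ) : ℝ) := by
    unfold cRr
    rw [← hchU, hRS]
  obtain ⟨Y, nb, hY0, hYe, hnb0, hnb1, hcard, hYb, hT2x, hmain⟩ := path3 hB0 hB1 hBd hv hq hbl hdS hind
    hhR hhC hdRC huniv (b := max 0 (ch (MM B hv) (Rs ∪ S) - 1)) (le_max_left _ _)
    (fun _ => le_max_right _ _)
  have hg0 := hdec.g0
  have hge : Rs = ∅ → g = 0 := fun e => hbl.gz e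
  have hgn : Rs.Nonempty → 1 ≤ g := by
    intro h1
    have h2 := hdec.cg
    have h3 : 1 ≤ Rs.card := Finset.card_pos.2 h1
    have h4 : (1 : ℤ) ≤ Rs.card := by exact_mod_cast h3
    linarith
  have bQ : ∀ v ∈ S, 0 ≤ im B v → ((im B v : ℤ) : ℝ) ≤ q a := by
    intro v hv' hv0
    have h1 := h.fr.posR (hSR hv') hv0 (by omega)
    have hv1 : (0 : ℝ) ≤ ((im B v : ℤ) : ℝ) := by exact_mod_cast hv0
    rwa [abs_of_nonneg hv1] at h1
  have bP : ∀ v ∈ S, im B v < 0 → -((im B v : ℤ) : ℝ) ≤ p b := by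
    intro v hv' hv0
    have h1 := h.fr.negR (hSR hv') hv0
    have hv1 : ((im B v : ℤ) : ℝ) < 0 := by exact_mod_cast hv0
    rwa [abs_of_neg hv1] at h1
  -- no crossing
  rcases hmain with hcr | ⟨w, Γ, D0, L0, Dw, Lw, hcase⟩
  · exfalso
    refine hnv (hC.cr ((max 0 (ch (MM B hv) (Rs ∪ S) - 1) : ℤ) : ℝ) ?_
      (fun M K t hK hqa hpb hst => ?_))
    · have : ((max 0 (ch (MM B hv) (Rs ∪ S) - 1) : ℤ) : ℝ) =
          max 0 (cRr B nQ nP uq up a b - 1) := by
        rw [hz, ← hchU]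
        push_cast
        rfl
      rw [this]
    · have hqn : 0 ≤ q a := h.fr.sys.chQ.nn a (by omega)
      have hpn : 0 ≤ p b := h.fr.sys.chP.nn b (by omega)
      have bQ' : ∀ v ∈ Rs ∪ S, 0 ≤ im B v → ((im B v : ℤ) : ℝ) ≤ q a := by
        intro v hv' hv0
        rw [hRS] at hv'
        have h1 := h.fr.posR hv' hv0 (by omega)
        have hv1 : (0 : ℝ) ≤ ((im B v : ℤ) : ℝ) := by exact_mod_cast hv0
        rwa [abs_of_nonneg hv1] at h1
      have bP' : ∀ v ∈ Rs ∪ S, im B v < 0 → -((im B v : ℤ) : ℝ) ≤ p b := by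
        intro v hv' hv0
        rw [hRS] at hv'
        have h1 := h.fr.negR hv' hv0
        have hv1 : ((im B v : ℤ) : ℝ) < 0 := by exact_mod_cast hv0
        rwa [abs_of_neg hv1] at h1
      have h4 := h.fr.withDm hK hst (by
        unfold hb1 rr
        intro x hx
        revert hx
        rcases x with x | x <;>
        simp only [Finset.mem_union, inl_mem_iq, inr_mem_iq, inl_mem_ip, inr_mem_ip,
          or_false, false_or] <;> omega)
      exact hcr M K t (q a) (p b) hK h4 bQ' hqa hqn bP' hpb hpn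
  have wcap : ∀ w : ℤ, ((∃ v ∈ S, 0 ≤ im B v ∧ w ≤ im B v) ∨ ∃ v ∈ S, im B v < 0 ∧
      w ≤ - im B v) → ((w : ℤ) : ℝ) ≤ q a ∨ ((w : ℤ) : ℝ) ≤ p b := by
    rintro w (⟨v, hv', h1, h2⟩ | ⟨v, hv', h1, h2⟩)
    · left
      have h3 := bQ v hv' h1
      have h4 : (w : ℝ) ≤ ((im B v : ℤ) : ℝ) := by exact_mod_cast h2
      linarith
    · right
      have h3 := bP v hv' h1
      have h4 : (w : ℝ) ≤ ((- im B v : ℤ) : ℝ) := by exact_mod_cast h2
      push_cast at h4
      linarith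
  have hY0r : (0 : ℝ) ≤ Y := by exact_mod_cast hY0
  have hnb0r : (0 : ℝ) ≤ nb := by exact_mod_cast hnb0
  have hcardr : (Rs.card : ℝ) ≤ (g : ℝ) + nb := by exact_mod_cast hcard
  have hYbr : ∀ y0 : ℤ, (∀ v ∈ Rs, |im B v| ≤ y0) → (Y : ℝ) ≤ Rs.card * y0 := by
    intro y0 h1
    exact_mod_cast hYb y0 h1
  have cSr : (0 : ℝ) ≤ ((ch (MM B hv) S : ℤ) : ℝ) := by exact_mod_cast hchS0
  have cRsr : (0 : ℝ) ≤ ((ch (MM B hv) Rs : ℤ) : ℝ) := by exact_mod_cast hchR0
  have hzr : cRr B nQ nP uq up a b = ((ch (MM B hv) Rs : ℤ) : ℝ) + ((ch (MM B hv) S : ℤ) : ℝ) := by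
    rw [hz]; push_cast; ring
  have hRe : Rs = ∅ → ((ch (MM B hv) Rs : ℤ) : ℝ) = 0 := by
    intro e
    rw [e]; simp [ch]
  have hgr : (0 : ℝ) ≤ g := by exact_mod_cast hg0
  have hTT : univ \ (Rs ∪ S) = univ \ vs uq up (rr nQ nP a b) := by rw [hRS]
  have gam0 : (0 : ℝ) ≤ ((Gam B hv S : ℤ) : ℝ) := by
    have : 0 ≤ Gam B hv S := by
      unfold Gam
      exact Finset.sum_nonneg fun v _ => abs_nonneg _
    exact_mod_cast this
  rcases hcase with hN | ⟨y, hL⟩ | ⟨y1, y2, hPp⟩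
  · -- no last vertex
    have w0 : (0 : ℝ) ≤ w := by exact_mod_cast hN.w0
    have gam : ((Gam B hv S : ℤ) : ℝ) ≤ Γ := by exact_mod_cast hN.gam
    have l0 : (1 : ℝ) ≤ L0 := by exact_mod_cast hN.l0
    have lw : (1 : ℝ) ≤ Lw := by exact_mod_cast hN.lw
    have d0 : (D0 : ℝ) ≤ ((ch (MM B hv) Rs : ℤ) : ℝ) - nb := by exact_mod_cast hN.d0
    have dw : (Dw : ℝ) ≤ ((ch (MM B hv) Rs : ℤ) : ℝ) - nb := by exact_mod_cast hN.dw
    have dl0 : (D0 : ℝ) + L0 ≤ ((ch (MM B hv) Rs : ℤ) : ℝ) - nb + q 0 - Y - Γ := by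
      rw [← himq]; exact_mod_cast hN.dl0
    have dlw : (Dw : ℝ) + Lw ≤ q 0 - g - Γ := by
      rw [← himq]; exact_mod_cast hN.dlw
    have v0 := h.evDm haQ hbP hN.v0
    have vw := h.evDm haQ hbP hN.vw
    have t2 := hN.t2
    rw [hTT] at t2
    have t2 := h.evT2 haQ hbP t2
    have emax : ((max Y w : ℤ) : ℝ) = max (Y : ℝ) w := by push_cast; rfl
    rw [emax] at t2
    rcases Rs.eq_empty_or_nonempty with hRe' | hRn
    · have g0 := hge hRe'
      have Y0 := hYe hRe'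
      have r0 := hRe hRe'
      subst g0
      subst Y0
      push_cast at t2 dlw dl0 hcardr
      refine ⟨0, 0, nb, w, Γ, Γ, D0, L0, Dw, Lw, ⟨by norm_num, h.fr.t2iA haQ hbP hRS hdS hind hT2x⟩,
        le_rfl, hnb0r, by push_cast; exact hcardr, ?_, gam,
        Or.inr ⟨hRe', rfl, rfl, rfl, Or.inl ⟨⟨w0, by linarith, by linarith, by linarith, ?_,
          by linarith, ?_, by linarith, v0, vw, t2⟩, ?_⟩⟩⟩
      · intro y0 h1
        have := hYbr y0 h1
        simpa using this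
      · exact le_min (by linarith) (by rw [hzr]; linarith)
      · exact le_min (by linarith) (by rw [hzr]; linarith)
      · rcases hN.ws with h1 | ⟨h1, h2⟩
        · left; exact_mod_cast h1
        · right
          have h3 : (w : ℝ) ≤ Γ := by exact_mod_cast h1
          exact ⟨by linarith, wcap w h2⟩
    · have g1 := hgn hRn
      have nb1 : (1 : ℝ) ≤ nb := by exact_mod_cast hnb1 hRn
      refine ⟨Y, Y, nb, w, Γ + ((ch (MM B hv) S : ℤ) : ℝ), Γ, D0, L0, Dw, Lw,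
        ⟨rfl, h.fr.t2iA haQ hbP hRS hdS hind hT2x⟩, hY0r, hnb0r, hcardr,
        hYbr, gam, Or.inl ⟨hRn, g1, nb1, Or.inl ⟨⟨w0, by linarith, by linarith, by linarith, ?_,
          ?_, ?_, by linarith, v0, vw, t2⟩, ?_, rfl⟩⟩⟩
      · rw [hzr]; linarith
      · rw [hzr]; linarith
      · rw [hzr]; linarith
      · rcases hN.ws with h1 | ⟨h1, h2⟩
        · left; exact_mod_cast h1
        · right
          have h3 : (w : ℝ) ≤ Γ := by exact_mod_cast h1
          exact ⟨by linarith, wcap w h2⟩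
  · -- a last vertex
    have w0 : (0 : ℝ) ≤ w := by exact_mod_cast hL.w0
    have gam : ((Gam B hv S : ℤ) : ℝ) ≤ Γ := by exact_mod_cast hL.gam
    have l0 : (1 : ℝ) ≤ L0 := by exact_mod_cast hL.l0
    have lw : (1 : ℝ) ≤ Lw := by exact_mod_cast hL.lw
    have d0 : (D0 : ℝ) ≤ ((ch (MM B hv) Rs : ℤ) : ℝ) - nb := by exact_mod_cast hL.d0
    have dw : (Dw : ℝ) ≤ ((ch (MM B hv) Rs : ℤ) : ℝ) - nb := by exact_mod_cast hL.dw
    have dl0 : (D0 : ℝ) + L0 ≤ ((ch (MM B hv) Rs : ℤ) : ℝ) - nb + q 0 - Y - Γ := by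
      rw [← himq]; exact_mod_cast hL.dl0
    have dlw : (Dw : ℝ) + Lw ≤ q 0 - g - Γ := by
      rw [← himq]; exact_mod_cast hL.dlw
    have hyR := hSR hL.yS
    have v0y := h.evDmy haQ hbP hyR hL.v0y
    have vwy := h.evDmy haQ hbP hyR hL.vwy
    have v0 := h.evDm haQ hbP hL.v0
    have vw := h.evDm haQ hbP hL.vw
    have t2 := hL.t2
    rw [hTT] at t2
    have t2 := h.evT2 haQ hbP t2
    obtain ⟨sy, hsy⟩ : ∃ sy : ℝ, sy = -((im B y : ℤ) : ℝ) := ⟨_, rfl⟩
    obtain ⟨ay, hay⟩ : ∃ ay : ℝ, ay = ((MM B hv y : ℤ) : ℝ) := ⟨_, rfl⟩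
    obtain ⟨cy, hcy⟩ : ∃ cy : ℤ, cy = (if MM B hv y = 1 then 0 else 1) := ⟨_, rfl⟩
    have himy : ((im B y : ℤ) : ℝ) = - sy := by rw [hsy]; ring
    have hcb := ch_bounds (fun v => MM_range hB0 hB1 hv v) y
    have hcy0 : (0 : ℝ) ≤ cy := by
      have : 0 ≤ cy := by rw [hcy]; split_ifs <;> norm_num
      exact_mod_cast this
    have hcyS : (cy : ℝ) ≤ ((ch (MM B hv) S : ℤ) : ℝ) := by
      have : cy ≤ ch (MM B hv) S := by
        rw [hcy]
        unfold ch
        exact Finset.single_le_sum (f := fun v => if MM B hv v = 1 then (0 : ℤ) else 1)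
          (fun i _ => by split_ifs <;> norm_num) hL.yS
      exact_mod_cast this
    have a1 : 1 ≤ ay := by rw [hay]; exact_mod_cast hL.ya
    have a2 : ay ≤ 2 := by rw [hay]; exact h.MM2 _ _
    have ac : ay ≤ 1 + cy := by
      have h1 : MM B hv y ≤ 1 + cy := by rw [hcy]; linarith [hcb.2]
      rw [hay]
      exact_mod_cast h1
    have hyn : im B y + MM B hv y + 1 ≤ 0 := by have := hL.yn; omega
    have say : ay + 1 ≤ sy := by
      have h1 : ((im B y : ℤ) : ℝ) + ((MM B hv y : ℤ) : ℝ) + 1 ≤ 0 := by exact_mod_cast hyn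
      rw [hay, hsy]
      linarith
    have syp : sy ≤ p b := by
      rw [hsy]
      exact bP y hL.yS (by have := hL.ya; linarith)
    have e1 : (L0 : ℝ) + im B y = L0 - sy := by rw [himy]; ring
    have e2 : (Lw : ℝ) + im B y = Lw - sy := by rw [himy]; ring
    rw [← hay, e1] at v0
    rw [← hay, e2] at vw
    have emax : ((max |Y + im B y| w : ℤ) : ℝ) = max |(Y : ℝ) - sy| w := by
      push_cast
      rw [himy]
      rfl
    rw [emax] at t2
    rcases Rs.eq_empty_or_nonempty with hRe' | hRn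
    · have g0 := hge hRe'
      have Y0 := hYe hRe'
      have r0 := hRe hRe'
      subst g0
      subst Y0
      push_cast at t2 dlw dl0 hcardr
      refine ⟨0, 0, nb, w, Γ, Γ, D0, L0, Dw, Lw, ⟨by norm_num, h.fr.t2iA haQ hbP hRS hdS hind hT2x⟩,
        le_rfl, hnb0r, by push_cast; exact hcardr, ?_, gam,
        Or.inr ⟨hRe', rfl, rfl, rfl, Or.inr ⟨sy, ay, cy, y, ⟨hyR, himy, hay.symm, a1, a2, ac, hcy0,
          say, syp, w0, by linarith, l0, lw, by linarith, by linarith, by linarith, by linarith,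
          v0y, v0, vwy, vw, t2⟩, ?_⟩⟩⟩
      · intro y0 h1
        have := hYbr y0 h1
        simpa using this
      · rcases hL.ws with h1 | ⟨h1, h2⟩
        · left; exact_mod_cast h1
        · right
          have h3 : (w : ℝ) ≤ Γ := by exact_mod_cast h1
          exact ⟨by linarith, wcap w h2⟩
    · have g1 := hgn hRn
      have nb1 : (1 : ℝ) ≤ nb := by exact_mod_cast hnb1 hRn
      have k0 : sy ≤ L0 := by
        by_contra hc
        push Not at hc
        refine hnv (hC.crs _ ?_ (h.crsOf v0 l0 hc.le syp))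
        rw [hzr]
        linarith
      have kw : sy ≤ Lw := by
        by_contra hc
        push Not at hc
        refine hnv (hC.crs _ ?_ (h.crsOf vw lw hc.le syp))
        rw [hzr]
        linarith
      refine ⟨Y, Y, nb, w, Γ + ((ch (MM B hv) S : ℤ) : ℝ) - cy, Γ, D0, L0, Dw, Lw,
        ⟨rfl, h.fr.t2iA haQ hbP hRS hdS hind hT2x⟩, hY0r, hnb0r,
        hcardr, hYbr, gam, Or.inl ⟨hRn, g1, nb1, Or.inr ⟨sy, ay, cy, y, ⟨hyR, himy, hay.symm, a1,
          a2, ac, hcy0, say, syp, w0, by linarith, l0, lw, ?_, ?_, ?_, by linarith,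
          v0y, v0, vwy, vw, t2⟩, ?_, k0, kw, rfl⟩⟩⟩
      · rw [hzr]; linarith
      · rw [hzr]; linarith
      · rw [hzr]; linarith
      · rcases hL.ws with h1 | ⟨h1, h2⟩
        · left; exact_mod_cast h1
        · right
          have h3 : (w : ℝ) ≤ Γ := by exact_mod_cast h1
          exact ⟨by linarith, wcap w h2⟩
  · -- the last two vertices
    have w0 : (0 : ℝ) ≤ w := by exact_mod_cast hPp.w0
    have gam : ((Gam B hv S : ℤ) : ℝ) ≤ Γ := by exact_mod_cast hPp.gam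
    have l0 : (1 : ℝ) ≤ L0 := by exact_mod_cast hPp.l0
    have lw : (1 : ℝ) ≤ Lw := by exact_mod_cast hPp.lw
    have d0 : (D0 : ℝ) + 2 ≤ ((ch (MM B hv) Rs : ℤ) : ℝ) - nb + 1 := by exact_mod_cast hPp.d0
    have dw : (Dw : ℝ) + 2 ≤ ((ch (MM B hv) Rs : ℤ) : ℝ) - nb + 1 := by exact_mod_cast hPp.dw
    have dl0 : (D0 : ℝ) + L0 + 2 + ((im B y2 : ℤ) : ℝ) ≤
        ((ch (MM B hv) Rs : ℤ) : ℝ) - nb + q 0 - Y - Γ := by
      rw [← himq]; exact_mod_cast hPp.dl0
    have dlw : (Dw : ℝ) + Lw + 2 + ((im B y2 : ℤ) : ℝ) ≤ q 0 - g - Γ := by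
      rw [← himq]; exact_mod_cast hPp.dlw
    have v0 := h.evDm haQ hbP hPp.v0
    have vw := h.evDm haQ hbP hPp.vw
    have t2 := hPp.t2
    rw [hTT] at t2
    have t2 := h.evT2 haQ hbP t2
    have emax : ((max Y w : ℤ) : ℝ) = max (Y : ℝ) w := by push_cast; rfl
    rw [emax] at t2
    obtain ⟨sy, hsy⟩ : ∃ sy : ℝ, sy = -((im B y2 : ℤ) : ℝ) := ⟨_, rfl⟩
    have himy : ((im B y2 : ℤ) : ℝ) = - sy := by rw [hsy]; ring
    have hc1 : (1 : ℝ) ≤ ((ch (MM B hv) S : ℤ) : ℝ) := by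
      have h1 : (if MM B hv y2 = 1 then (0 : ℤ) else 1) ≤ ch (MM B hv) S := by
        unfold ch
        exact Finset.single_le_sum (f := fun v => if MM B hv v = 1 then (0 : ℤ) else 1)
          (fun i _ => by split_ifs <;> norm_num) hPp.y2S
      rw [hPp.a2] at h1
      norm_num at h1
      exact_mod_cast h1
    have syp : sy ≤ p b := by
      rw [hsy]
      exact bP y2 hPp.y2S (by have := hPp.s1; have := hPp.s12; linarith)
    have e1 : (L0 : ℝ) + im B y2 = L0 - sy := by rw [himy]; ring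
    have e2 : (Lw : ℝ) + im B y2 = Lw - sy := by rw [himy]; ring
    rw [e1] at v0
    rw [e2] at vw
    rw [himy] at dl0 dlw
    have k0 : sy ≤ L0 := by
      by_contra hc
      push Not at hc
      refine hnv (hC.crs _ ?_ (h.crsOf v0 l0 hc.le syp))
      rw [hzr]
      linarith
    have kw : sy ≤ Lw := by
      by_contra hc
      push Not at hc
      refine hnv (hC.crs _ ?_ (h.crsOf vw lw hc.le syp))
      rw [hzr]
      linarith
    rw [abs_of_nonneg (show 0 ≤ (L0 : ℝ) - sy by linarith)] at v0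
    rw [abs_of_nonneg (show 0 ≤ (Lw : ℝ) - sy by linarith)] at vw
    have hws : (w : ℝ) ≤ 2 ∨ ((w : ℝ) ≤ Γ + 1 ∧ ((w : ℝ) ≤ q a ∨ (w : ℝ) ≤ p b)) := by
      rcases hPp.ws with h1 | ⟨h1, h2⟩ | ⟨h1, h2⟩
      · left; exact_mod_cast h1
      · right
        have h3 : (w : ℝ) ≤ Γ := by exact_mod_cast h1
        exact ⟨by linarith, wcap w h2⟩
      · right
        have h3 : (w : ℝ) ≤ (Γ : ℝ) + 1 := by exact_mod_cast h1
        have h4 : (w : ℝ) + 2 ≤ ((- im B y2 : ℤ) : ℝ) := by exact_mod_cast h2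
        push_cast at h4
        rw [← hsy] at h4
        exact ⟨h3, Or.inr (by linarith)⟩
    rcases Rs.eq_empty_or_nonempty with hRe' | hRn
    · have g0 := hge hRe'
      have Y0 := hYe hRe'
      have r0 := hRe hRe'
      subst g0
      subst Y0
      push_cast at t2 dlw dl0 hcardr
      refine ⟨0, 0, nb, w, Γ, Γ, D0 + 2, L0 - sy, Dw + 2, Lw - sy,
        ⟨by norm_num, h.fr.t2iA haQ hbP hRS hdS hind hT2x⟩, le_rfl, hnb0r,
        by push_cast; exact hcardr, ?_, gam,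
        Or.inr ⟨hRe', rfl, rfl, rfl, Or.inl ⟨⟨w0, by linarith, by linarith, by linarith, ?_,
          by linarith, ?_, by linarith, v0, vw, t2⟩, hws⟩⟩⟩
      · intro y0 h1
        have := hYbr y0 h1
        simpa using this
      · exact le_min (by linarith) (by rw [hzr]; linarith)
      · exact le_min (by linarith) (by rw [hzr]; linarith)
    · have g1 := hgn hRn
      have nb1 : (1 : ℝ) ≤ nb := by exact_mod_cast hnb1 hRn
      refine ⟨Y, Y, nb, w, Γ + ((ch (MM B hv) S : ℤ) : ℝ), Γ, D0 + 2, L0 - sy, Dw + 2, Lw - sy,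
        ⟨rfl, h.fr.t2iA haQ hbP hRS hdS hind hT2x⟩, hY0r,
        hnb0r, hcardr, hYbr, gam, Or.inl ⟨hRn, g1, nb1, Or.inl ⟨⟨w0, by linarith, by linarith,
          by linarith, ?_, ?_, ?_, by linarith, v0, vw, t2⟩, ?_, rfl⟩⟩⟩
      · rw [hzr]; linarith
      · rw [hzr]; linarith
      · rw [hzr]; linarith
      · rcases hws with h1 | ⟨h1, h2⟩
        · left; exact h1
        · right
          exact ⟨by linarith, h2⟩

end

end Pool.Agent.Exact


end

section

/-!
# The failing modes of the structures in a leaf with hubs of both types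
-/

set_option autoImplicit false
set_option linter.unusedSectionVars false
set_option linter.unusedSimpArgs false
set_option linter.unnecessarySeqFocus false
set_option linter.unreachableTactic false
set_option linter.unusedTactic false

namespace Pool.Agent.Exact

open Finset

variable {V : Type*} [Fintype V] [DecidableEq V]
variable {B : V → V → ℤ} {Rl : Finset V} {ℓ nQ nP : ℕ} {uq up : ℕ → V} {q p : ℕ → ℝ}
variable {k : ℤ} {θ : ℝ}

lemma EV.ft {C : Finset V} {th E X M x c d : ℝ} (hnv : ¬ Val B th) (hE : EV B C E X)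
    (hst : ∀ K : ℝ, |x| ≤ K → c ≤ K → d ≤ K → St B (im B) C M K (|x| + c + d)) :
    FT th E X M x c d := by
  by_contra hF
  unfold FT at hF
  push Not at hF
  obtain ⟨h1, h2, h3, h4, h5, h6, h7⟩ := hF
  refine hnv ((hE M (max |x| (max c d)) _ ((abs_nonneg x).trans (le_max_left _ _))
    (hst _ (le_max_left _ _) ((le_max_left _ _).trans (le_max_right _ _))
      ((le_max_right _ _).trans (le_max_right _ _)))).mono ?_)
  have hx : E + M + |x| ≤ th := by
    rcases abs_cases x with ⟨h8, _⟩ | ⟨h8, _⟩ <;> rw [h8] <;> linarith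
  have hx2 : 2 * (E + M) + X + |x| + c + d ≤ 2 * th := by
    rcases abs_cases x with ⟨h8, _⟩ | ⟨h8, _⟩ <;> rw [h8] <;> linarith
  have h9 : max (max X (max |x| (max c d))) ((X + (|x| + c + d)) / 2) ≤ th - (E + M) :=
    max_le (max_le (by linarith) (max_le (by linarith) (max_le (by linarith) (by linarith))))
      (by linarith)
  linarith

lemma EV.fr {C : Finset V} {th E X M x c d s : ℝ} (hnv : ¬ Val B th) (hE : EV B C E X)
    (hst : ∀ K : ℝ, |x| ≤ K → c ≤ K → d ≤ K → s ≤ K → St B (im B) C M K (|x| + c + d + s)) :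
    FR th E X M x c d s := by
  by_contra hF
  unfold FR at hF
  push Not at hF
  obtain ⟨h1, h2, h3, h4, h5, h5', h6, h7⟩ := hF
  refine hnv ((hE M (max |x| (max c (max d s))) _ ((abs_nonneg x).trans (le_max_left _ _))
    (hst _ (le_max_left _ _) ((le_max_left _ _).trans (le_max_right _ _))
      ((le_max_left _ _).trans ((le_max_right _ _).trans (le_max_right _ _)))
      ((le_max_right _ _).trans ((le_max_right _ _).trans (le_max_right _ _))))).mono ?_)
  have hx : E + M + |x| ≤ th := by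
    rcases abs_cases x with ⟨h8, _⟩ | ⟨h8, _⟩ <;> rw [h8] <;> linarith
  have hx2 : 2 * (E + M) + X + |x| + c + d + s ≤ 2 * th := by
    rcases abs_cases x with ⟨h8, _⟩ | ⟨h8, _⟩ <;> rw [h8] <;> linarith
  have h9 : max (max X (max |x| (max c (max d s)))) ((X + (|x| + c + d + s)) / 2) ≤
      th - (E + M) :=
    max_le (max_le (by linarith) (max_le (by linarith) (max_le (by linarith)
      (max_le (by linarith) (by linarith))))) (by linarith)
  linarith

/-- the index of a vertex of the rest -/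
lemma mem_vs_idx {I : Finset (ℕ ⊕ ℕ)} {v : V} (hv : v ∈ vs uq up I) :
    ∃ x ∈ I, vx uq up x = v := by
  unfold vs at hv
  exact Finset.mem_image.1 hv

/-- the levels of the hubs -/
structure Lev (q p : ℕ → ℝ) (i j : ℕ) (th y u1 u2 ux ua al v2 vb be : ℝ) : Prop where
  y : q 0 = th + y
  u1 : p 0 = th + u1
  u2 : p (min 1 (2 * j)) = th + u2
  ux : p (2 * j - 1) = th + ux
  ua : p (2 * j) = th + ua
  al : AA p j = al
  v2 : q 1 = th + v2
  vb : q (2 * i + 1) = th + vb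
  be : AA q (i + 1) = be

section
variable (h : Ctx B Rl ℓ nQ nP uq up q p k θ)
include h

variable {i j : ℕ} {y u1 u2 ux ua al v2 vb be : ℝ}

/-- the modes of the arrangement with the lowest hubs aligned -/
lemma Ctx.mx11 (hnv : ¬ Val B θ) (hi : i < ℓ) (hj : j < ℓ)
    (hv : Lev q p i j θ y u1 u2 ux ua al v2 vb be) {D L : ℝ}
    (hE : EV B (vs uq up (hb1 (2 * (i + 1)) (2 * j + 1))) D L) :
    FT θ D L (MM B (uq (2 * i + 1)) (up (2 * j))) (vb - ua) (y - vb - be) al := by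
  obtain ⟨q1, q2, q3, q4⟩ := h.fr.qgap hi
  obtain ⟨p1, p2, p3, p4⟩ := h.fr.pgap hj
  have e1 := AA_succ q i
  have e2 : q (2 * i + 1) - p (2 * j) = vb - ua := by rw [hv.vb, hv.ua]; ring
  have e3 : q 0 - q (2 * i) - AA q i = y - vb - be := by
    rw [← hv.be, e1, hv.y, hv.vb]; ring
  refine hE.ft hnv fun K k1 k2 k3 => ?_
  have h1 := h.fr.aMixLow (K := K) i j hi hj (by rw [e2]; exact k1)
    (fun l hl => (q4 l hl).trans (by rw [e3]; exact k2))
    (fun l hl => (p3 l hl).trans (by rw [hv.al]; exact k3))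
  rw [e2, e3, hv.al] at h1
  exact h1

/-- the modes of the arrangement with the highest hubs aligned -/
lemma Ctx.mx12 (hnv : ¬ Val B θ) (hi : i < ℓ) (hj : j < ℓ)
    (hv : Lev q p i j θ y u1 u2 ux ua al v2 vb be) {D L : ℝ}
    (hE : EV B (vs uq up (hb1 (2 * (i + 1)) (2 * j + 1))) D L) :
    FT θ D L (MM B (uq 1) (up 0)) (v2 - u1) (v2 + be - y) (u1 - ua - al) := by
  obtain ⟨p1, p2, p3, p4⟩ := h.fr.pgap hj
  have e1 : AA q 1 = q 0 - q 1 := by rw [show (1 : ℕ) = 0 + 1 by rfl, AA_succ, AA_zero]; simp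
  have e2 : q 1 - p 0 = v2 - u1 := by rw [hv.v2, hv.u1]; ring
  have e3 : AA q (i + 1) - AA q 1 = v2 + be - y := by
    rw [hv.be, e1, hv.y, hv.v2]; ring
  have e4 : p 0 - p (2 * j) - AA p j = u1 - ua - al := by
    rw [hv.u1, hv.ua, hv.al]; ring
  refine hE.ft hnv fun K k1 k2 k3 => ?_
  have h1 := h.fr.aMix (K := K) i j (by omega) hj (by rw [e2]; exact k1)
    (fun l hl hl' => by
      have h5 := h.fr.qgA hl (show l < i + 1 by omega) (by omega)
      linarith)
    (fun l hl => (p4 l hl).trans (by rw [e4]; exact k3))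
  rw [e2, e3, e4] at h1
  exact h1

/-- the modes of the arrangement with the highest hubs aligned and the last vertex single -/
lemma Ctx.mx12r (hnv : ¬ Val B θ) (hi : i < ℓ) (hj : j < ℓ) (haQ : 2 * (i + 1) ≤ nQ)
    (hbP : 2 * j + 1 ≤ nP) (hv : Lev q p i j θ y u1 u2 ux ua al v2 vb be) {D L sy : ℝ} {w : V}
    (hw : w ∈ vs uq up (rr nQ nP (2 * (i + 1)) (2 * j + 1)))
    (him : ((im B w : ℤ) : ℝ) = - sy) (hs0 : 0 ≤ sy)
    (hE : EV B (insert w (vs uq up (hb1 (2 * (i + 1)) (2 * j + 1)))) D L) :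
    FR θ D L (MM B (uq 1) (up 0)) (v2 - u1) (v2 + be - y) (u1 - ua - al) sy := by
  have hQ := h.fr.nQle
  have hP := h.fr.nPle
  obtain ⟨p1, p2, p3, p4⟩ := h.fr.pgap hj
  have e1 : AA q 1 = q 0 - q 1 := by rw [show (1 : ℕ) = 0 + 1 by rfl, AA_succ, AA_zero]; simp
  have e2 : q 1 - p 0 = v2 - u1 := by rw [hv.v2, hv.u1]; ring
  have e3 : AA q (i + 1) - AA q 1 = v2 + be - y := by
    rw [hv.be, e1, hv.y, hv.v2]; ring
  have e4 : p 0 - p (2 * j) - AA p j = u1 - ua - al := by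
    rw [hv.u1, hv.ua, hv.al]; ring
  refine hE.fr hnv fun K k1 k2 k3 k4 => ?_
  have h1 := h.fr.aMix (K := K) i j (by omega) hj (by rw [e2]; exact k1)
    (fun l hl hl' => by
      have h5 := h.fr.qgA hl (show l < i + 1 by omega) (by omega)
      linarith)
    (fun l hl => (p4 l hl).trans (by rw [e4]; exact k3))
  rw [e2, e3, e4] at h1
  have h2 : St B (im B) {w} 0 K sy := by
    refine (St.one (s := im B) h.fr.sys.Bd w (K := sy) ?_).mono le_rfl k4 le_rfl
    rw [him, abs_neg, abs_of_nonneg hs0]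
  have hd : Disjoint (vs uq up (hb1 (2 * (i + 1)) (2 * j + 1))) {w} := by
    rw [Finset.disjoint_singleton_right]
    intro hc
    refine Finset.disjoint_left.1 (h.fr.disj (I := rr nQ nP (2 * (i + 1)) (2 * j + 1))
      (J := hb1 (2 * (i + 1)) (2 * j + 1)) ?_ ?_ ?_) hw hc
    · unfold rr
      intro x hx
      revert hx
      rcases x with x | x <;>
      simp only [Finset.mem_union, inl_mem_full, inr_mem_full, inl_mem_iq, inr_mem_iq, inl_mem_ip,
        inr_mem_ip, or_false, false_or] <;> omega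
    · unfold hb1
      intro x hx
      revert hx
      rcases x with x | x <;>
      simp only [Finset.mem_union, inl_mem_full, inr_mem_full, inl_mem_iq, inr_mem_iq, inl_mem_ip,
        inr_mem_ip, or_false, false_or] <;> omega
    · unfold rr hb1
      rw [Finset.disjoint_left]
      intro x hx hx'
      revert hx hx'
      rcases x with x | x <;>
      simp only [Finset.mem_union, inl_mem_iq, inr_mem_iq, inl_mem_ip, inr_mem_ip, or_false,
        false_or] <;> omega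
  have h3 := St.union h1 h2 hd
  have e5 : insert w (vs uq up (hb1 (2 * (i + 1)) (2 * j + 1))) =
      (hb1 (2 * (i + 1)) (2 * j + 1)).image (vx uq up) ∪ {w} := by
    rw [Finset.union_comm]
    rfl
  rw [e5]
  exact h3.mono (by linarith) le_rfl le_rfl

/-- the modes of the arrangement with the lowest hubs aligned, the last vertex attached -/
lemma Ctx.mx11a (hnv : ¬ Val B θ) (hi : i < ℓ) (hj : j < ℓ) (haQ : 2 * (i + 1) ≤ nQ)
    (hbP : 2 * j + 1 ≤ nP) (hv : Lev q p i j θ y u1 u2 ux ua al v2 vb be) {D L sy : ℝ} {w : V}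
    (hw : w ∈ vs uq up (rr nQ nP (2 * (i + 1)) (2 * j + 1)))
    (him : ((im B w : ℤ) : ℝ) = - sy)
    (hE : EV B (insert w (vs uq up (hb1 (2 * (i + 1)) (2 * j + 1)))) D L) :
    FT θ D L (MM B (uq (2 * i + 1)) (up (2 * j))) (ua - vb - sy) (y - vb - be) al := by
  have hQ := h.fr.nQle
  have hP := h.fr.nPle
  obtain ⟨q1, q2, q3, q4⟩ := h.fr.qgap hi
  obtain ⟨p1, p2, p3, p4⟩ := h.fr.pgap hj
  obtain ⟨xw, hxw, hxw'⟩ := mem_vs_idx hw
  have e1 := AA_succ q i
  have e3 : q 0 - q (2 * i) - AA q i = y - vb - be := by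
    rw [← hv.be, e1, hv.y, hv.vb]; ring
  have hxf : xw ∈ full ℓ := by
    revert hxw
    unfold rr
    rcases xw with x | x <;>
    simp only [Finset.mem_union, inl_mem_full, inr_mem_full, inl_mem_iq, inr_mem_iq, inl_mem_ip,
      inr_mem_ip, or_false, false_or] <;> omega
  refine hE.ft hnv fun K k1 k2 k3 => ?_
  have a1 := h.fr.Qo (K := K) 0 i (Nat.zero_le _) hi
    fun l _ h2 => (q4 l h2).trans (by rw [e3]; exact k2)
  have a2 := h.fr.Pe (K := K) 0 j (Nat.zero_le _) hj.le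
    fun l _ h2 => (p3 l h2).trans (by rw [hv.al]; exact k3)
  have n1 : (Sum.inl (2 * i + 1) : ℕ ⊕ ℕ) ≠ xw := by
    rintro rfl
    revert hxw
    unfold rr
    simp only [Finset.mem_union, inl_mem_iq, inl_mem_ip, or_false, false_or]
    omega
  have n2 : (Sum.inr (2 * j) : ℕ ⊕ ℕ) ≠ xw := by
    rintro rfl
    revert hxw
    unfold rr
    simp only [Finset.mem_union, inr_mem_iq, inr_mem_ip, or_false, false_or]
    omega
  have w1 := h.fr.sys.wtQ (2 * i + 1) (by omega)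
  have w2 := h.fr.sys.wtP (2 * j) (by omega)
  have a3 := h.fr.tri (x := Sum.inl (2 * i + 1)) (y := Sum.inr (2 * j)) (z := xw)
    (by rw [inl_mem_full]; omega) (by rw [inr_mem_full]; omega) hxf (by simp) n1 n2 1 1 (-1)
    (Or.inl rfl) (Or.inl rfl) (Or.inr rfl)
    (M := MM B (uq (2 * i + 1)) (up (2 * j))) (K := |ua - vb - sy|) (by
      rw [hxw']
      simp only [vx, Sum.elim_inl, Sum.elim_inr]
      have m1 := h.MM0z (uq (2 * i + 1)) w
      have m2 := h.MM0z (up (2 * j)) w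
      exact_mod_cast (by linarith : MM B (uq (2 * i + 1)) (up (2 * j)) * (1 * 1) +
        MM B (uq (2 * i + 1)) w * (1 * -1) + MM B (up (2 * j)) w * (1 * -1) ≤
          MM B (uq (2 * i + 1)) (up (2 * j)))) (by
      rw [hxw']
      simp only [vx, Sum.elim_inl, Sum.elim_inr]
      push_cast
      rw [w1, w2, him, hv.vb, hv.ua]
      rw [show (θ + vb) * 1 + -(θ + ua) * 1 + -sy * -1 = -(ua - vb - sy) by ring, abs_neg])
  have a3' : StI B uq up {Sum.inl (2 * i + 1), Sum.inr (2 * j), xw}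
      (MM B (uq (2 * i + 1)) (up (2 * j))) K |ua - vb - sy| := StI.mono a3 le_rfl k1 le_rfl
  have hxQ : ∀ x, Sum.inl x = xw → 2 * (i + 1) ≤ x ∧ x < nQ := by
    rintro x rfl
    revert hxw
    unfold rr
    simp only [Finset.mem_union, inl_mem_iq, inl_mem_ip, or_false, false_or]
    exact id
  have hxP : ∀ x, Sum.inr x = xw → 2 * j + 1 ≤ x ∧ x < nP := by
    rintro x rfl
    revert hxw
    unfold rr
    simp only [Finset.mem_union, inr_mem_iq, inr_mem_ip, or_false, false_or]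
    exact id
  have b1 := h.fr.join (U := {Sum.inl (2 * i + 1), Sum.inr (2 * j), xw} ∪
    iq (2 * 0 + 1) (2 * i + 1)) a3' a1 rfl (by
      intro x hx
      rcases Finset.mem_union.1 hx with hx | hx
      · simp only [Finset.mem_insert, Finset.mem_singleton] at hx
        rcases hx with rfl | rfl | rfl
        · rw [inl_mem_full]; omega
        · rw [inr_mem_full]; omega
        · exact hxf
      · revert hx
        rcases x with x | x <;>
        simp only [inl_mem_full, inr_mem_full, inl_mem_iq, inr_mem_iq, false_imp_iff] <;> omega) (by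
      rw [Finset.disjoint_left]
      intro x hx hx'
      simp only [Finset.mem_insert, Finset.mem_singleton] at hx
      rcases hx with rfl | rfl | hx
      · revert hx'
        simp only [inl_mem_iq]
        omega
      · revert hx'
        simp only [inr_mem_iq]
        exact id
      · rcases x with x | x
        · have := hxQ x hx
          revert hx'
          simp only [inl_mem_iq]
          omega
        · revert hx'
          simp only [inr_mem_iq]
          exact id)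
  have b2 := h.fr.join (U := ({Sum.inl (2 * i + 1), Sum.inr (2 * j), xw} ∪
    iq (2 * 0 + 1) (2 * i + 1)) ∪ ip (2 * 0) (2 * j)) b1 a2 rfl (by
      intro x hx
      rcases Finset.mem_union.1 hx with hx | hx
      · rcases Finset.mem_union.1 hx with hx | hx
        · simp only [Finset.mem_insert, Finset.mem_singleton] at hx
          rcases hx with rfl | rfl | rfl
          · rw [inl_mem_full]; omega
          · rw [inr_mem_full]; omega
          · exact hxf
        · revert hx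
          rcases x with x | x <;>
          simp only [inl_mem_full, inr_mem_full, inl_mem_iq, inr_mem_iq, false_imp_iff] <;> omega
      · revert hx
        rcases x with x | x <;>
        simp only [inl_mem_full, inr_mem_full, inl_mem_ip, inr_mem_ip, false_imp_iff] <;> omega) (by
      rw [Finset.disjoint_left]
      intro x hx hx'
      rcases x with x | x
      · revert hx'
        simp only [inl_mem_ip]
        exact id
      · rcases Finset.mem_union.1 hx with hx | hx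
        · simp only [Finset.mem_insert, Finset.mem_singleton, reduceCtorEq, false_or,
            Sum.inr.injEq] at hx
          revert hx'
          simp only [inr_mem_ip]
          rcases hx with hx | hx
          · omega
          · have := hxP x hx
            omega
        · revert hx
          simp only [inr_mem_iq]
          exact id)
  rw [AA_zero, AA_zero] at b2
  unfold StI at b2
  have e5 : insert w (vs uq up (hb1 (2 * (i + 1)) (2 * j + 1))) =
      (({Sum.inl (2 * i + 1), Sum.inr (2 * j), xw} ∪ iq (2 * 0 + 1) (2 * i + 1)) ∪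
        ip (2 * 0) (2 * j)).image (vx uq up) := by
    unfold vs
    rw [← hxw', ← Finset.image_insert]
    congr 1
    unfold hb1
    ext x
    rcases x with x | x
    · simp only [Finset.mem_union, Finset.mem_insert, Finset.mem_singleton, inl_mem_iq, inl_mem_ip,
        Sum.inl.injEq, reduceCtorEq, or_false, false_or]
      constructor
      · rintro (h5 | h5)
        · exact Or.inl (Or.inr h5)
        · by_cases h6 : x = 2 * i + 1
          · exact Or.inl (Or.inl h6)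
          · right; omega
      · rintro ((h5 | h5) | h5)
        · right; omega
        · exact Or.inl h5
        · right; omega
    · simp only [Finset.mem_union, Finset.mem_insert, Finset.mem_singleton, inr_mem_iq, inr_mem_ip,
        Sum.inr.injEq, reduceCtorEq, or_false, false_or]
      constructor
      · rintro (h5 | h5)
        · exact Or.inl (Or.inr h5)
        · by_cases h6 : x = 2 * j
          · exact Or.inl (Or.inl h6)
          · right; omega
      · rintro ((h5 | h5) | h5)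
        · right; omega
        · exact Or.inl h5
        · right; omega
  rw [e5]
  refine b2.mono (by linarith) le_rfl ?_
  rw [Nat.mul_zero]
  have := hv.al
  linarith

/-- the modes of the arrangement with the lowest hub of the second type single -/
lemma Ctx.mxA (hnv : ¬ Val B θ) (hi : i < ℓ) (hj : j < ℓ)
    (hv : Lev q p i j θ y u1 u2 ux ua al v2 vb be) (h0 : 0 ≤ θ + ua) {D X : ℝ}
    (hE : EV B (vs uq up (hb (2 * (i + 1)) (2 * j + 1))) D X) :
    FT θ D X 0 (θ + ua) al be := by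
  refine hE.ft hnv fun K k1 k2 k3 => ?_
  rw [abs_of_nonneg h0] at k1 ⊢
  have hA := h.fr.swap.tA (K := K) j (i + 1) hj (by omega) (by rw [hv.ua]; exact k1)
    (fun l hl => by
      have h5 := h.fr.pgA (Nat.zero_le l) hl hj.le
      rw [AA_zero, zero_add, hv.al] at h5
      exact h5.trans k2)
    (fun l hl => by
      have h5 := h.fr.qgA (Nat.zero_le l) hl (by omega)
      rw [AA_zero, zero_add, hv.be] at h5
      exact h5.trans k3)
  rw [← swap_hb] at hA
  have hA' : StI B uq up (hb (2 * (i + 1)) (2 * j + 1)) 0 K (AA p j + p (2 * j) + AA q (i + 1)) :=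
    hA.swap
  rw [hv.al, hv.ua, hv.be] at hA'
  exact StI.mono hA' le_rfl le_rfl (by linarith)

/-- the modes of the arrangement with `q 0`, the lowest hubs in a triple -/
lemma Ctx.mxE (hnv : ¬ Val B θ) (hi : i < ℓ) (hj : j < ℓ)
    (hv : Lev q p i j θ y u1 u2 ux ua al v2 vb be) {D X : ℝ}
    (hE : EV B (vs uq up (hb (2 * (i + 1)) (2 * j + 1))) D X) :
    FT θ D X (MM B (uq 0) (up (2 * j)) - MM B (uq (2 * i + 1)) (up (2 * j))) (θ + ua + vb - y)
      al (y - vb - be) := by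
  obtain ⟨q1, q2, q3, q4⟩ := h.fr.qgap hi
  have e1 := AA_succ q i
  have e3 : q 0 - q (2 * i) - AA q i = y - vb - be := by
    rw [← hv.be, e1, hv.y, hv.vb]; ring
  have e2 : q 0 - q (2 * i + 1) - p (2 * j) = -(θ + ua + vb - y) := by
    rw [hv.y, hv.vb, hv.ua]; ring
  refine hE.ft hnv fun K k1 k2 k3 => ?_
  have hM : ((MM (Tr B) (uq 0) (up (2 * j)) - MM (Tr B) (uq 0) (uq (2 * i + 1)) -
      MM (Tr B) (uq (2 * i + 1)) (up (2 * j)) : ℤ) : ℝ) ≤
      MM B (uq 0) (up (2 * j)) - MM B (uq (2 * i + 1)) (up (2 * j)) := by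
    rw [MM_Tr, MM_Tr, MM_Tr]
    have h3 := h.MM0 (uq 0) (uq (2 * i + 1))
    push_cast
    linarith
  have hT := h.fr.swap.tTE (K := K)
    (M := MM B (uq 0) (up (2 * j)) - MM B (uq (2 * i + 1)) (up (2 * j))) j i hj hi
    (by rw [e2, abs_neg]; exact k1) hM
    (fun l hl => by
      have h5 := h.fr.pgA (Nat.zero_le l) hl hj.le
      rw [AA_zero, zero_add, hv.al] at h5
      exact h5.trans k2)
    (fun l hl => (q4 l hl).trans (by rw [e3]; exact k3))
  rw [← swap_hb] at hT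
  have hT' := hT.swap
  rw [e2, abs_neg, e3, hv.al] at hT'
  exact hT'

/-- the modes of the arrangement with a triple of the second type -/
lemma Ctx.mxO (hnv : ¬ Val B θ) (hi : i < ℓ) (hj : j < ℓ) (hj1 : 1 ≤ j)
    (hv : Lev q p i j θ y u1 u2 ux ua al v2 vb be) {D X : ℝ}
    (hE : EV B (vs uq up (hb (2 * (i + 1)) (2 * j + 1))) D X) :
    FT θ D X 2 (θ + ux + ua - u1) (u1 - ux - al) be := by
  obtain ⟨j', rfl⟩ : ∃ j', j = j' + 1 := ⟨j - 1, by omega⟩
  obtain ⟨p1, p2, p3, p4⟩ := h.fr.pgap (j := j') (by omega)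
  have e1 := AA_succ p j'
  have hux := hv.ux
  have hua := hv.ua
  rw [show 2 * (j' + 1) - 1 = 2 * j' + 1 by omega] at hux
  rw [show 2 * (j' + 1) = 2 * j' + 2 by ring] at hua
  have e3 : p 0 - p (2 * j') - AA p j' = u1 - ux - al := by
    rw [← hv.al, e1, hv.u1, hux]; ring
  have e2 : p 0 - p (2 * j' + 1) - p (2 * j' + 2) = -(θ + ux + ua - u1) := by
    rw [hv.u1, hux, hua]; ring
  refine hE.ft hnv fun K k1 k2 k3 => ?_
  have hM : ((MM (Tr B) (up (2 * j' + 1)) (up (2 * j' + 2)) - MM (Tr B) (up 0) (up (2 * j' + 1)) -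
      MM (Tr B) (up 0) (up (2 * j' + 2)) : ℤ) : ℝ) ≤ 2 := by
    rw [MM_Tr, MM_Tr, MM_Tr]
    have h3 := h.MM0 (up 0) (up (2 * j' + 1))
    have h4 := h.MM0 (up 0) (up (2 * j' + 2))
    have h5 := h.MM2 (up (2 * j' + 1)) (up (2 * j' + 2))
    push_cast
    linarith
  have hT := h.fr.swap.tTO (K := K) (M := 2) j' (i + 1) (by omega) (by omega)
    (by rw [e2, abs_neg]; exact k1) hM
    (fun l hl => (p4 l hl).trans (by rw [e3]; exact k2))
    (fun l hl => by
      have h5 := h.fr.qgA (Nat.zero_le l) hl (by omega)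
      rw [AA_zero, zero_add, hv.be] at h5
      exact h5.trans k3)
  rw [← swap_hb] at hT
  have hT' := hT.swap
  rw [e2, abs_neg, e3, hv.be] at hT'
  exact hT'

end

end Pool.Agent.Exact


end

section

/-!
# Facts about the parameters of a leaf with hubs of both types
-/

set_option autoImplicit false
set_option linter.unusedSectionVars false
set_option linter.unusedSimpArgs false
set_option linter.unnecessarySeqFocus false
set_option linter.unreachableTactic false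
set_option linter.unusedTactic false

namespace Pool.Agent.Exact

open Finset

variable {V : Type*} [Fintype V] [DecidableEq V]
variable {B : V → V → ℤ} {Rl : Finset V} {ℓ nQ nP : ℕ} {uq up : ℕ → V} {q p : ℕ → ℝ}
variable {k : ℤ} {θ : ℝ}

/-- the levels exist -/
lemma exists_lev (q p : ℕ → ℝ) (i j : ℕ) (θ : ℝ) :
    ∃ y u1 u2 ux ua al v2 vb be : ℝ, Lev q p i j θ y u1 u2 ux ua al v2 vb be :=
  ⟨q 0 - θ, p 0 - θ, p (min 1 (2 * j)) - θ, p (2 * j - 1) - θ, p (2 * j) - θ, AA p j, q 1 - θ,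
    q (2 * i + 1) - θ, AA q (i + 1), ⟨by ring, by ring, by ring, by ring, by ring, rfl, by ring,
      by ring, rfl⟩⟩

section
variable (h : Ctx B Rl ℓ nQ nP uq up q p k θ)
include h

variable {i j : ℕ} {y u1 u2 ux ua al v2 vb be : ℝ}

/-- charges of two hubs of the second type -/
lemma Ctx.cRT {a b j0 : ℕ} (ha1 : 1 ≤ a) (haQ : a ≤ nQ) (hbP : b ≤ nP) (hb : j0 < b) :
    cRr B nQ nP uq up a b + (MM B (uq 0) (up j0) - 1) ≤ Rl.card - 1 - q 0 := by
  have h1 := h.fr.chR ha1 haQ hbP (T := {up j0}) (by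
    intro v hv
    rw [Finset.mem_singleton] at hv
    subst hv
    unfold vs
    refine Finset.mem_image.2 ⟨Sum.inr j0, ?_, rfl⟩
    simp only [hb1, Finset.mem_union, inr_mem_iq, inr_mem_ip]
    omega)
  rw [Finset.sum_singleton] at h1
  have h2 := h.fr.sys.B1 (uq 0) (up j0)
  have h3 : MM B (uq 0) (up j0) - 1 ≤ 1 - (B (uq 0) (up j0) - B (up j0) (uq 0)) := by
    unfold MM; linarith
  have h4 : ((MM B (uq 0) (up j0) - 1 : ℤ) : ℝ) ≤
      ((1 - (B (uq 0) (up j0) - B (up j0) (uq 0)) : ℤ) : ℝ) := by exact_mod_cast h3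
  unfold cRr
  push_cast at h1 h4 ⊢
  linarith

lemma Ctx.cRT2 {a b j0 : ℕ} (ha1 : 1 ≤ a) (haQ : a ≤ nQ) (hbP : b ≤ nP) (hb : j0 < b)
    (hj0 : 1 ≤ j0) :
    cRr B nQ nP uq up a b + (MM B (uq 0) (up 0) - 1) + (MM B (uq 0) (up j0) - 1) ≤
      Rl.card - 1 - q 0 := by
  have hP := h.fr.nPle
  have hne : up 0 ≠ up j0 := by
    intro e
    have := h.fr.sys.chP.inj 0 (by omega) j0 (by omega) e
    omega
  have h1 := h.fr.chR ha1 haQ hbP (T := {up 0, up j0}) (by
    intro v hv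
    rw [Finset.mem_insert, Finset.mem_singleton] at hv
    unfold vs
    rcases hv with hv | hv
    · subst hv
      refine Finset.mem_image.2 ⟨Sum.inr 0, ?_, rfl⟩
      simp only [hb1, Finset.mem_union, inr_mem_iq, inr_mem_ip]
      omega
    · subst hv
      refine Finset.mem_image.2 ⟨Sum.inr j0, ?_, rfl⟩
      simp only [hb1, Finset.mem_union, inr_mem_iq, inr_mem_ip]
      omega)
  rw [Finset.sum_pair hne] at h1
  have h2 := h.fr.sys.B1 (uq 0) (up j0)
  have h2' := h.fr.sys.B1 (uq 0) (up 0)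
  have h3 : MM B (uq 0) (up 0) - 1 + (MM B (uq 0) (up j0) - 1) ≤
      1 - (B (uq 0) (up 0) - B (up 0) (uq 0)) + (1 - (B (uq 0) (up j0) - B (up j0) (uq 0))) := by
    unfold MM; linarith
  have h4 : ((MM B (uq 0) (up 0) - 1 + (MM B (uq 0) (up j0) - 1) : ℤ) : ℝ) ≤
      ((1 - (B (uq 0) (up 0) - B (up 0) (uq 0)) +
        (1 - (B (uq 0) (up j0) - B (up j0) (uq 0))) : ℤ) : ℝ) := by exact_mod_cast h3
  unfold cRr
  push_cast at h1 h4 ⊢
  linarith

/-- the levels -/
theorem Ctx.mxB (hn : 2 * k - 1 ≤ (Rl.card : ℤ)) (hi : i + 1 < ℓ) (hj : j < ℓ)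
    (haQ : 2 * (i + 1) ≤ nQ) (hbP : 2 * j + 1 ≤ nP) (hpq : p 0 ≤ q 0)
    (hz : q 0 + MM B (uq 0) (up 0) + 2 ≤ 2 * θ)
    (hv : Lev q p i j θ y u1 u2 ux ua al v2 vb be) :
    MB0 θ (2 * θ - Rl.card + 1) y (cRr B nQ nP uq up (2 * (i + 1)) (2 * j + 1))
      (MM B (uq 0) (up 0)) u1 u2 ux ua al v2 vb be := by
  have hl := h.fr.l2
  have c1 := h.cR (a := 2 * (i + 1)) (b := 2 * j + 1) (by omega) haQ hbP
  have c2 := h.cRT (a := 2 * (i + 1)) (b := 2 * j + 1) (j0 := 0) (by omega) haQ hbP (by omega)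
  have hy := hv.y
  have hu1 := hv.u1
  have hu2 := hv.u2
  have hux := hv.ux
  have hua := hv.ua
  have hal := hv.al
  have hv2 := hv.v2
  have hvb := hv.vb
  have hbe := hv.be
  obtain ⟨p1, p2, p3, p4⟩ := h.fr.pgap hj
  refine ⟨h.lam2 hn, h.cR0, by linarith, by linarith, h.MM0 _ _, h.MM2 _ _, by linarith,
    by linarith, by rw [← hal]; exact p1, ?_, ?_, ?_, ?_, ?_, ?_, ?_, ?_, ?_⟩
  · have := h.fr.pa (i := 0) (j := min 1 (2 * j)) (by omega) (by omega)
    linarith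
  · have := h.fr.pa (i := min 1 (2 * j)) (j := 2 * j - 1) (by omega) (by omega)
    linarith
  · have := h.fr.pa (i := 2 * j - 1) (j := 2 * j) (by omega) (by omega)
    linarith
  · rcases Nat.eq_zero_or_pos j with h0 | h0
    · subst h0
      rw [show min 1 (2 * 0) = 0 by rfl] at hu2
      linarith
    · rw [show min 1 (2 * j) = 1 by omega] at hu2
      have h5 := p3 0 h0
      rw [Nat.mul_zero, Nat.zero_add] at h5
      linarith
  · rcases Nat.eq_zero_or_pos j with h0 | h0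
    · subst h0
      rw [AA_zero] at hal
      rw [show 2 * 0 - 1 = 0 by rfl] at hux
      linarith
    · obtain ⟨j', rfl⟩ : ∃ j', j = j' + 1 := ⟨j - 1, by omega⟩
      have e1 := AA_succ p j'
      obtain ⟨r1, r2, r3, r4⟩ := h.fr.pgap (j := j') (by omega)
      rw [show 2 * (j' + 1) - 1 = 2 * j' + 1 by omega] at hux
      linarith
  · have := h.fr.qa (i := 0) (j := 1) (by omega) (by omega)
    linarith
  · have h5 := h.fr.qgA (Nat.zero_le 0) (show 0 < i + 1 by omega) (by omega)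
    rw [AA_zero, Nat.mul_zero, Nat.zero_add, zero_add] at h5
    linarith
  · have := h.fr.qa (i := 1) (j := 2 * i + 1) (by omega) (by omega)
    linarith
  · have e1 := AA_succ q i
    obtain ⟨r1, r2, r3, r4⟩ := h.fr.qgap (i := i) (by omega)
    linarith

/-- multiplicities -/
theorem Ctx.mxJ (hj1 : 1 ≤ j) (haQ : 2 * (i + 1) ≤ nQ) (hbP : 2 * j + 1 ≤ nP)
    (hv : Lev q p i j θ y u1 u2 ux ua al v2 vb be) :
    MJ θ (2 * θ - Rl.card + 1) y (cRr B nQ nP uq up (2 * (i + 1)) (2 * j + 1))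
      (MM B (uq 0) (up 0)) (MM B (uq 0) (up (2 * j))) := by
  have c2 := h.cRT (a := 2 * (i + 1)) (b := 2 * j + 1) (j0 := 2 * j) (by omega) haQ hbP (by omega)
  have c3 := h.cRT2 (a := 2 * (i + 1)) (b := 2 * j + 1) (j0 := 2 * j) (by omega) haQ hbP (by omega)
    (by omega)
  have hy := hv.y
  exact ⟨h.MM0 _ _, h.MM2 _ _, by linarith, by linarith⟩

/-- the leaf 2a -/
theorem Ctx.mx2a (hi : i + 1 < ℓ) (hj : j < ℓ) (hpq : p 0 ≤ q 0 - 1)
    (hE : θ - MM B (uq 0) (up 0) < q (2 * i + 1) - q (2 * i + 2))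
    (hD : θ < p (2 * j) - p (2 * j + 1))
    (hv : Lev q p i j θ y u1 u2 ux ua al v2 vb be) :
    L2a y (MM B (uq 0) (up 0)) u1 ua vb ∧ q (2 * (i + 1)) < vb + MM B (uq 0) (up 0) ∧
      p (2 * j + 1) < ua := by
  have h1 := h.fr.qn (i := 2 * i + 2) (by omega)
  have h2 := h.fr.pn (i := 2 * j + 1) (by omega)
  have hy := hv.y
  have hu1 := hv.u1
  have hua := hv.ua
  have hvb := hv.vb
  refine ⟨⟨by linarith, by linarith, by linarith⟩, ?_, by linarith⟩
  rw [show 2 * (i + 1) = 2 * i + 2 by ring]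
  linarith

/-- the leaf 2c -/
theorem Ctx.mx2c (hi : i + 1 < ℓ) (hj : j < ℓ) (hpq : p 0 ≤ q 0 - 1)
    (hD : θ < p (2 * j) - p (2 * j + 1))
    (hA : AA q ℓ + AA p ℓ < 2 * (q 0 - θ) + 2 * MM B (uq 0) (up 0))
    (h1 : θ - 2 < q (2 * i + 1)) (h2 : q (2 * (i + 1)) ≤ θ - 2)
    (h3 : q (2 * (i + 1)) < p (2 * j) - p (2 * j + 1) - θ + 2)
    (hv : Lev q p i j θ y u1 u2 ux ua al v2 vb be) :
    L2c θ y (MM B (uq 0) (up 0)) u1 ua al vb be ∧ q (2 * (i + 1)) < ua + 2 ∧
      q (2 * (i + 1)) ≤ θ - 2 ∧ p (2 * j + 1) < ua := by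
  have h4 := h.fr.qn (i := 2 * (i + 1)) (by omega)
  have h5 := h.fr.pn (i := 2 * j + 1) (by omega)
  have hy := hv.y
  have hu1 := hv.u1
  have hua := hv.ua
  have hvb := hv.vb
  have hal := hv.al
  have hbe := hv.be
  have a1 := h.fr.qAm (i := i + 1) (j := ℓ) (by omega) le_rfl
  have a2 := h.fr.pAm (i := j + 1) (j := ℓ) (by omega) le_rfl
  have a3 := AA_succ p j
  exact ⟨⟨by linarith, by linarith, by linarith, by linarith⟩, by linarith, h2, by linarith⟩

/-- the leaf 3c -/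
theorem Ctx.mx3c (hi : i + 1 < ℓ) (hj : j < ℓ) (hlam : 3 < 2 * θ - (Rl.card : ℝ) + 1)
    (hz : q 0 + MM B (uq 0) (up 0) + 2 ≤ 2 * θ) (hp0 : θ < p 0)
    (hA : 2 * θ < AA q ℓ + AA p ℓ)
    (hE : θ - MM B (uq 0) (up 0) < q (2 * i + 1) - q (2 * i + 2))
    (h1 : θ - (MM B (uq 0) (up 0) + 2) < p (2 * j))
    (h2 : p (2 * j + 1) ≤ θ - (MM B (uq 0) (up 0) + 2))
    (h3 : p (2 * j + 1) < q (2 * i + 1) - q (2 * i + 2) - θ + (MM B (uq 0) (up 0) + 2))
    (hv : Lev q p i j θ y u1 u2 ux ua al v2 vb be) :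
    L3c θ (2 * θ - Rl.card + 1) y (MM B (uq 0) (up 0)) u1 ua al vb be ∧
      q (2 * (i + 1)) < vb + MM B (uq 0) (up 0) ∧
      p (2 * j + 1) < vb + MM B (uq 0) (up 0) + 2 ∧
      p (2 * j + 1) ≤ θ - MM B (uq 0) (up 0) - 2 := by
  have h4 := h.fr.qn (i := 2 * i + 2) (by omega)
  have h5 := h.fr.pn (i := 2 * j + 1) (by omega)
  have hy := hv.y
  have hu1 := hv.u1
  have hua := hv.ua
  have hvb := hv.vb
  have hal := hv.al
  have hbe := hv.be
  have a1 := h.fr.qAm (i := i + 1) (j := ℓ) (by omega) le_rfl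
  have a2 := h.fr.qT (i := i + 1) (by omega)
  have a3 := AA_succ q i
  obtain ⟨r1, r2, r3, r4⟩ := h.fr.qgap (i := i) (by omega)
  obtain ⟨s1, s2, s3, s4⟩ := h.fr.pgap (j := j) hj
  have a4 := h.fr.pT (i := j) hj
  rw [show 2 * (i + 1) = 2 * i + 2 by ring] at a2 ⊢
  exact ⟨⟨by linarith, by linarith, hlam, by linarith, by linarith, by linarith, by linarith,
    by linarith⟩, by linarith, by linarith, by linarith⟩

/-- minimum outdegree at least `k` -/
theorem Ctx.mxO1 (hout : ∀ v ∈ Rl, k ≤ ∑ u, B v u) (hi : i + 1 < ℓ)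
    (haQ : 2 * (i + 1) ≤ nQ) (hp0 : 0 < p 0) (hq0 : 0 < q 0)
    (hv : Lev q p i j θ y u1 u2 ux ua al v2 vb be) {Λ : ℝ}
    (hL : 2 * θ - (Rl.card : ℝ) + 1 ≤ Λ) :
    2 * θ + y ≤ Λ * (θ - (2 * θ - Rl.card + 1) - u1) ∧
    3 * θ + y + vb ≤ (Λ + 1) * (θ - (2 * θ - Rl.card + 1) - u1) ∧
    3 ≤ θ - (2 * θ - (Rl.card : ℝ) + 1) - u1 ∧
    (1 ≤ i → 5 * θ + y + v2 + (q (2 * i) - θ) + vb ≤
      (Λ + 3) * (θ - (2 * θ - Rl.card + 1) - u1)) := by
  have hl := h.fr.l2
  have hQ := h.fr.nQle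
  have k3 := h.k3r
  have hy := hv.y
  have hu1 := hv.u1
  have hv2 := hv.v2
  have hvb := hv.vb
  have hpk := h.pleK hout (i := 0) (by omega) hp0
  have O1 := h.O1 hout (i := 0) (by omega) hq0
  -- `κ`
  obtain ⟨κ, hκ⟩ : ∃ κ : ℝ, κ = θ - (2 * θ - Rl.card + 1) - u1 := ⟨_, rfl⟩
  rw [← hκ]
  have hkκ : (k : ℝ) ≤ κ := by linarith
  obtain ⟨lam, hlam⟩ : ∃ lam : ℝ, lam = 2 * θ - (Rl.card : ℝ) + 1 := ⟨_, rfl⟩
  rw [← hlam] at hL
  have hn : (Rl.card : ℝ) = 2 * θ - lam + 1 := by linarith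
  have hθ0 := h.θ0
  have hq0' := h.qle (i := 0) (by omega) hq0
  -- the inequality for a set of hubs
  have key : ∀ (s : Finset ℕ), (∀ x ∈ s, x < nQ) →
      (k : ℝ) * (Rl.card - s.card) + ∑ x ∈ s, q x ≤ (2 * k - 1) * θ := by
    intro s hs
    have h1 := mm_ge_out h.fr.sys.B0 h.fr.sys.dummy hout (S := s.image uq) (by
      intro v hv'
      rw [Finset.mem_image] at hv'
      obtain ⟨x, hx, rfl⟩ := hv'
      rw [h.fr.sys.realQ x (by have := hs x hx; omega)]
      exact hs x hx)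
    have hinj : Set.InjOn uq s := by
      intro x hx x' hx' e
      exact h.fr.sys.chQ.inj x (by have := hs x hx; omega) x' (by have := hs x' hx'; omega) e
    rw [Finset.card_image_of_injOn hinj, Finset.sum_image hinj] at h1
    have h2 : ((∑ x ∈ s, im B (uq x) : ℤ) : ℝ) = ∑ x ∈ s, q x := by
      push_cast
      exact Finset.sum_congr rfl fun x hx => h.fr.sys.wtQ x (by have := hs x hx; omega)
    rw [h.hm, ← h2]
    exact_mod_cast h1
  have lam0 : 0 ≤ Λ ∧ 2 * θ + y ≤ k * lam := by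
    have e1 : 2 * θ + y ≤ k * lam := by
      rw [hn] at O1
      rw [hy] at O1
      linarith
    refine ⟨?_, e1⟩
    by_contra hc
    push Not at hc
    have : (k : ℝ) * lam ≤ 0 := mul_nonpos_of_nonneg_of_nonpos (by linarith) (by linarith)
    linarith
  obtain ⟨Λ0, L1⟩ := lam0
  have m1 : (k : ℝ) * lam ≤ Λ * κ := by
    calc (k : ℝ) * lam ≤ k * Λ := mul_le_mul_of_nonneg_left hL (by linarith)
      _ = Λ * k := mul_comm _ _
      _ ≤ Λ * κ := mul_le_mul_of_nonneg_left hkκ Λ0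
  refine ⟨by linarith, ?_, by linarith, ?_⟩
  · have h1 := key {0, 2 * i + 1} (by
      intro x hx
      rw [Finset.mem_insert, Finset.mem_singleton] at hx
      omega)
    rw [Finset.card_pair (by omega), Finset.sum_pair (by omega), hy, hvb, hn] at h1
    push_cast at h1
    linarith
  · intro hi1
    have h1 := key {0, 1, 2 * i, 2 * i + 1} (by
      intro x hx
      simp only [Finset.mem_insert, Finset.mem_singleton] at hx
      omega)
    have n1 : (0 : ℕ) ∉ ({1, 2 * i, 2 * i + 1} : Finset ℕ) := by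
      simp only [Finset.mem_insert, Finset.mem_singleton]; omega
    have n2 : (1 : ℕ) ∉ ({2 * i, 2 * i + 1} : Finset ℕ) := by
      simp only [Finset.mem_insert, Finset.mem_singleton]; omega
    rw [Finset.card_insert_of_notMem n1, Finset.card_insert_of_notMem n2,
      Finset.card_pair (by omega), Finset.sum_insert n1, Finset.sum_insert n2,
      Finset.sum_pair (by omega), hy, hvb, hv2, hn] at h1
    push_cast at h1
    linarith

/-- minimum indegree at least `k` -/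
theorem Ctx.mxI1 (hin : ∀ v ∈ Rl, k ≤ ∑ u, B u v) (hp0 : 0 < p 0) (hq0 : 0 < q 0)
    (hv : Lev q p i j θ y u1 u2 ux ua al v2 vb be) {Λ : ℝ}
    (hL : 2 * θ - (Rl.card : ℝ) + 1 ≤ Λ) :
    3 ≤ θ - (2 * θ - (Rl.card : ℝ) + 1) - y ∧
      2 * θ + u1 ≤ Λ * (θ - (2 * θ - Rl.card + 1) - y) := by
  have hl := h.fr.l2
  have k3 := h.k3r
  have hy := hv.y
  have hu1 := hv.u1
  have hqk := h.qleK hin (i := 0) (by omega) hq0
  have O1 := h.O1' hin (i := 0) (by omega) hp0
  obtain ⟨κ, hκ⟩ : ∃ κ : ℝ, κ = θ - (2 * θ - Rl.card + 1) - y := ⟨_, rfl⟩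
  rw [← hκ]
  have hkκ : (k : ℝ) ≤ κ := by linarith
  obtain ⟨lam, hlam⟩ : ∃ lam : ℝ, lam = 2 * θ - (Rl.card : ℝ) + 1 := ⟨_, rfl⟩
  rw [← hlam] at hL
  have hn : (Rl.card : ℝ) = 2 * θ - lam + 1 := by linarith
  have hθ0 := h.θ0
  have e1 : 2 * θ + u1 ≤ k * lam := by
    rw [hn, hu1] at O1
    linarith
  have Λ0 : 0 ≤ Λ := by
    by_contra hc
    push Not at hc
    have : (k : ℝ) * lam ≤ 0 := mul_nonpos_of_nonneg_of_nonpos (by linarith) (by linarith)
    linarith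
  refine ⟨by linarith, e1.trans ?_⟩
  calc (k : ℝ) * lam ≤ k * Λ := mul_le_mul_of_nonneg_left hL (by linarith)
    _ = Λ * k := mul_comm _ _
    _ ≤ Λ * κ := mul_le_mul_of_nonneg_left hkκ Λ0

end

end Pool.Agent.Exact


end

section

/-!
# The leaves with hubs of both types, an even number of the first
-/

set_option autoImplicit false
set_option linter.unusedSectionVars false
set_option linter.unusedVariables false
set_option linter.unusedSimpArgs false
set_option linter.unnecessarySeqFocus false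
set_option linter.unreachableTactic false
set_option linter.unusedTactic false

namespace Pool.Agent.Exact

open Finset

variable {V : Type*} [Fintype V] [DecidableEq V]
variable {B : V → V → ℤ} {Rl : Finset V} {ℓ nQ nP : ℕ} {uq up : ℕ → V} {q p : ℕ → ℝ}
variable {k : ℤ} {θ : ℝ}

section
variable (h : Ctx B Rl ℓ nQ nP uq up q p k θ)
include h

variable {i j : ℕ} {y u1 u2 ux ua al v2 vb be : ℝ}

/-- facts from the degrees -/
lemma Ctx.mxHL (hi : i + 1 < ℓ) (haQ : 2 * (i + 1) ≤ nQ) (hp0 : 0 < p 0) (hq0 : 0 < q 0)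
    (hv : Lev q p i j θ y u1 u2 ux ua al v2 vb be) (Λ : ℝ) :
    HL i θ (2 * θ - Rl.card + 1) y u1 v2 (q (2 * i) - θ) vb Λ := by
  rcases le_total Λ (2 * θ - Rl.card + 1) with h1 | h1
  · exact Or.inl h1
  · rcases h.deg with hout | hin
    · obtain ⟨o1, o2, o3, o4⟩ := h.mxO1 hout hi haQ hp0 hq0 hv h1
      exact Or.inr (Or.inl ⟨h1, o1, o2, o3, o4⟩)
    · obtain ⟨i1, i2⟩ := h.mxI1 hin hp0 hq0 hv h1
      exact Or.inr (Or.inr ⟨h1, i1, i2⟩)

/-- the leaf part of the data -/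
def MXleaf (th lam y MB Qc Pc u1 ua al vb be : ℝ) (i : ℕ) : Prop :=
  (L2a y MB u1 ua vb ∧ Qc < vb + MB ∧ Pc < ua) ∨
    (L2c th y MB u1 ua al vb be ∧ (1 ≤ i → 3 ≤ lam) ∧ Qc < ua + 2 ∧ Qc ≤ th - 2 ∧ Pc < ua) ∨
    (L3c th lam y MB u1 ua al vb be ∧ Qc < vb + MB ∧ Pc < vb + MB + 2 ∧ Pc ≤ th - MB - 2)

/-- all the data -/
theorem Ctx.mxD (hn : 2 * k - 1 ≤ (Rl.card : ℤ)) (hi : i + 1 < ℓ) (hj : j < ℓ)
    (haQ : 2 * (i + 1) ≤ nQ) (hbP : 2 * j + 1 ≤ nP) (hpq : p 0 ≤ q 0) (hp0 : 0 < p 0)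
    (hz : q 0 + MM B (uq 0) (up 0) + 2 ≤ 2 * θ)
    (hv : Lev q p i j θ y u1 u2 ux ua al v2 vb be)
    (hl : MXleaf θ (2 * θ - Rl.card + 1) y (MM B (uq 0) (up 0)) (q (2 * (i + 1)))
      (p (2 * j + 1)) u1 ua al vb be i) :
    MXD i j θ (2 * θ - Rl.card + 1) y (cRr B nQ nP uq up (2 * (i + 1)) (2 * j + 1))
      (MM B (uq 0) (up 0)) (MM B (uq 0) (up (2 * j))) (q (2 * (i + 1))) (p (2 * j + 1))
      (MM B (uq (2 * i + 1)) (up (2 * j))) (MM B (uq 1) (up 0)) u1 u2 ux ua al v2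
      (q (2 * i) - θ) vb be where
  hb := h.mxB hn hi hj haQ hbP hpq hz hv
  hj0 := by
    intro j0
    subst j0
    refine ⟨?_, ?_, ?_⟩
    · have h1 := hv.u1
      have h2 := hv.ua
      rw [Nat.mul_zero] at h2
      linarith
    · have h1 := hv.al
      rw [AA_zero] at h1
      exact h1.symm
    · rw [Nat.mul_zero]
  hj := fun h1 => h.mxJ h1 haQ hbP hv
  h1 := by
    intro h1
    have a1 := h.fr.qa (i := 1) (j := 2 * i) (by omega) (by omega)
    have a2 := h.fr.qa (i := 2 * i) (j := 2 * i + 1) (by omega) (by omega)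
    have a3 := AA_succ q i
    have a4 := h.fr.qgA (Nat.zero_le 0) (show 0 < i by omega) (by omega)
    rw [AA_zero, Nat.mul_zero, Nat.zero_add, zero_add] at a4
    have b1 := hv.y
    have b2 := hv.v2
    have b3 := hv.vb
    have b4 := hv.be
    refine ⟨by linarith, by linarith, by linarith⟩
  i0 := by
    intro h1
    subst h1
    have a3 := AA_succ q 0
    rw [AA_zero, Nat.mul_zero, Nat.zero_add] at a3
    have b1 := hv.y
    have b2 := hv.v2
    have b3 := hv.vb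
    have b4 := hv.be
    rw [Nat.mul_zero, Nat.zero_add] at b3
    rw [Nat.zero_add] at b4
    exact ⟨by linarith, by linarith⟩
  m110 := h.MM0 _ _
  m112 := h.MM2 _ _
  m120 := h.MM0 _ _
  m122 := h.MM2 _ _
  m11i := by
    have h1 := h.MM0 (uq (2 * i + 1)) (up (2 * j))
    have h2 : (0 : ℤ) ≤ MM B (uq (2 * i + 1)) (up (2 * j)) := by exact_mod_cast h1
    rcases eq_or_lt_of_le h2 with h3 | h3
    · left
      rw [← h3]
      norm_num
    · right
      exact_mod_cast (show (1 : ℤ) ≤ MM B (uq (2 * i + 1)) (up (2 * j)) by omega)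
  mm := by
    intro h1 h2
    subst h1
    subst h2
    rfl
  leaf := hl
  H3 := h.mxHL hi haQ hp0 (by linarith) hv 3
  H4 := h.mxHL hi haQ hp0 (by linarith) hv 4

/-- at leaf 2c -/
lemma Ctx.mxlam3 (hn : 2 * k - 1 ≤ (Rl.card : ℤ)) (hi : i + 1 < ℓ) (hj : j < ℓ)
    (haQ : 2 * (i + 1) ≤ nQ) (hbP : 2 * j + 1 ≤ nP) (hpq : p 0 ≤ q 0) (hp0 : 0 < p 0)
    (hz : q 0 + MM B (uq 0) (up 0) + 2 ≤ 2 * θ)
    (hv : Lev q p i j θ y u1 u2 ux ua al v2 vb be)
    (hl : L2c θ y (MM B (uq 0) (up 0)) u1 ua al vb be) (hi1 : 1 ≤ i) :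
    3 ≤ 2 * θ - (Rl.card : ℝ) + 1 := by
  have hb := h.mxB hn hi hj haQ hbP hpq hz hv
  by_contra hc
  push Not at hc
  rcases h.deg with hout | hin
  · obtain ⟨o1, o2, o3, o4⟩ := h.mxO1 hout hi haQ hp0 (by linarith) hv hc.le
    have o5 := o4 hi1
    have a1 := h.fr.qa (i := 1) (j := 2 * i) (by omega) (by omega)
    have a2 := h.fr.qa (i := 2 * i) (j := 2 * i + 1) (by omega) (by omega)
    have a3 := AA_succ q i
    have a4 := h.fr.qgA (Nat.zero_le 0) (show 0 < i by omega) (by omega)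
    rw [AA_zero, Nat.mul_zero, Nat.zero_add, zero_add] at a4
    have b1 := hv.y
    have b2 := hv.v2
    have b3 := hv.vb
    have b4 := hv.be
    exact lam3_2c_o (vb1 := q (2 * i) - θ) hb hl (by linarith) (by linarith) (by linarith)
  · obtain ⟨i1, i2⟩ := h.mxI1 hin hp0 (by linarith) hv hc.le
    exact lam3_2c_i hb hl (by linarith) (by linarith)

variable {Rs S : Finset V} {g : ℤ} {Kc : V → Finset V} {pick : Finset V → V}

/-- what the structures give -/
structure MxOut (B : V → V → ℤ) (nQ nP : ℕ) (uq up : ℕ → V) (q p : ℕ → ℝ) (θ : ℝ) (i j : ℕ)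
    (Rs S : Finset V) (g Y : ℤ) (nb : ℝ) : Prop where
  t2i : T2I B uq up (2 * (i + 1)) (2 * j + 1) S g Y
  t2a : T2A B uq up (2 * (i + 1)) (2 * j + 1) S g Y
  y0 : 0 ≤ Y
  gp : θ + g < p (2 * j)
  gam : ((Gam B (uq 0) S : ℤ) : ℝ) < q 0 - θ - g + 2
  rs : (Rs.Nonempty ∧ 1 ≤ g ∧ 1 ≤ nb ∧ (Rs.card : ℝ) ≤ g + nb ∧
      (Y : ℝ) + (Gam B (uq 0) S : ℤ) + (ch (MM B (uq 0)) S : ℤ) + nb <
        cRr B nQ nP uq up (2 * (i + 1)) (2 * j + 1) + q 0 - θ + 2 ∧
      (∀ y0 : ℤ, (∀ v ∈ Rs, |im B v| ≤ y0) → (Y : ℝ) ≤ Rs.card * y0)) ∨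
    (Rs = ∅ ∧ g = 0 ∧ Y = 0)

/-- **The structures in a leaf with hubs of both types.** -/
theorem Ctx.mxMain (hn : 2 * k - 1 ≤ (Rl.card : ℤ)) (hnv : ¬ Val B θ) (hi : i + 1 < ℓ)
    (hj : j < ℓ) (hpq : p 0 ≤ q 0) (hp0 : 0 < p 0)
    (hz : q 0 + MM B (uq 0) (up 0) + 2 ≤ 2 * θ)
    (hC : Closed B nQ nP uq up q p θ (2 * (i + 1)) (2 * j + 1))
    (hv : Lev q p i j θ y u1 u2 ux ua al v2 vb be)
    (hl : MXleaf θ (2 * θ - Rl.card + 1) y (MM B (uq 0) (up 0)) (q (2 * (i + 1)))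
      (p (2 * j + 1)) u1 ua al vb be i)
    (hdec : Dec B pick (vs uq up (rr nQ nP (2 * (i + 1)) (2 * j + 1))) Rs S g Kc) :
    ∃ (Y : ℤ) (nb : ℝ), MxOut B nQ nP uq up q p θ i j Rs S g Y nb := by
  have haQ := hC.aQ
  have hbP := hC.bP
  have hq0 : 0 < q 0 := by linarith
  have hi' : i < ℓ := by omega
  have d := h.mxD hn hi hj haQ hbP hpq hp0 hz hv hl
  obtain ⟨Yz, Y, nb, w, σ, Γ, D0, L0, Dw, Lw, ⟨hYz, hT2I, hT2A⟩, hY0, hnb0, hcard, hYb, hGam,
    hcase⟩ := h.end3 hnv hq0 hC hdec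
  have hθ0 := h.θ0
  have hg0 : (0 : ℝ) ≤ (g : ℝ) := by exact_mod_cast hdec.g0
  have hqy := hv.y
  have hpua := hv.ua
  have hθua : 0 ≤ θ + ua := by
    have := h.fr.pn (i := 2 * j) (by omega)
    linarith
  -- the modes
  have m11 := fun {D L : ℝ} (hE : EV B (vs uq up (hb1 (2 * (i + 1)) (2 * j + 1))) D L) =>
    h.mx11 hnv hi' hj hv hE
  have m12 := fun {D L : ℝ} (hE : EV B (vs uq up (hb1 (2 * (i + 1)) (2 * j + 1))) D L) =>
    h.mx12 hnv hi' hj hv hE
  have m12r := fun {D L sy : ℝ} {w : V}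
    (hw : w ∈ vs uq up (rr nQ nP (2 * (i + 1)) (2 * j + 1)))
    (him : ((im B w : ℤ) : ℝ) = - sy) (hs0 : 0 ≤ sy)
    (hE : EV B (insert w (vs uq up (hb1 (2 * (i + 1)) (2 * j + 1)))) D L) =>
    h.mx12r hnv hi' hj haQ hbP hv hw him hs0 hE
  have m11a := fun {D L sy : ℝ} {w : V}
    (hw : w ∈ vs uq up (rr nQ nP (2 * (i + 1)) (2 * j + 1)))
    (him : ((im B w : ℤ) : ℝ) = - sy)
    (hE : EV B (insert w (vs uq up (hb1 (2 * (i + 1)) (2 * j + 1)))) D L) =>
    h.mx11a hnv hi' hj haQ hbP hv hw him hE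
  have mA := fun {D X : ℝ} (hE : EV B (vs uq up (hb (2 * (i + 1)) (2 * j + 1))) D X) =>
    h.mxA hnv hi' hj hv hθua hE
  have mE := fun {D X : ℝ} (hE : EV B (vs uq up (hb (2 * (i + 1)) (2 * j + 1))) D X) =>
    h.mxE hnv hi' hj hv hE
  have mO := fun {D X : ℝ} (hj1 : 1 ≤ j)
    (hE : EV B (vs uq up (hb (2 * (i + 1)) (2 * j + 1))) D X) =>
    h.mxO hnv hi' hj hj1 hv hE
  -- the run with `D + L ≤ θ - 2`, last vertex, no rest
  have xlEL : ∀ {D L sy ay cy : ℝ} {v : V},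
      v ∈ vs uq up (rr nQ nP (2 * (i + 1)) (2 * j + 1)) → ((im B v : ℤ) : ℝ) = - sy →
      LY sy ay cy → sy ≤ p (2 * j + 1) → D ≤ 0 → 1 ≤ L → L ≤ sy →
      EV B (insert v (vs uq up (hb1 (2 * (i + 1)) (2 * j + 1)))) D L →
      EV B (vs uq up (hb1 (2 * (i + 1)) (2 * j + 1))) (D + ay) |L - sy| → False := by
    intro D L sy ay cy v hv' him hy hs hD hL1 hLs e1 e2
    have hsy0 : 0 ≤ sy := by linarith
    rw [abs_of_nonpos (by linarith), neg_sub] at e2
    exact d.xl hD hL1 hLs hy hs (m11 e2) (m12 e2) (m11a hv' him e1) (m12r hv' him hsy0 e1)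
  -- first statement
  have hgua : (g : ℝ) < ua := by
    by_contra hug
    push Not at hug
    rcases hcase with ⟨hRne, hg1, hn1, ⟨hN, hw, hσ⟩ | ⟨sy, ay, cy, v, hN, hw, hsL, hsLw, hσ⟩⟩ |
      ⟨hRe, hge, hYe, hσ, ⟨hN, hw⟩ | ⟨sy, ay, cy, v, hN, hw⟩⟩
    · have hg1' : (1 : ℝ) ≤ g := by exact_mod_cast hg1
      have e1 := hN.d0
      have e2 := hN.dl0
      refine d.r1N (g := g) (nb := nb) (Y := Y) (sg := σ) (D := D0) (L := L0) (X := max Y w)
        hug hg1' hn1 hY0 hN.s0 (hY0.trans (le_max_left _ _)) hN.l0 (by linarith) (by linarith)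
        (le_max_left _ _) ?_ (m11 hN.v0) (m12 hN.v0) (mA hN.t2) (mE hN.t2)
        (fun hj1 => mO hj1 hN.t2)
      rcases le_total w Y with h1 | h1
      · exact Or.inl (max_eq_left h1)
      · rw [max_eq_right h1]
        exact Or.inr hw
    · have hg1' : (1 : ℝ) ≤ g := by exact_mod_cast hg1
      have e1 := hN.d0
      have e2 := hN.dl0
      have e3 := hN.v0
      rw [abs_of_nonneg (by linarith)] at e3
      refine d.r1L (g := g) (nb := nb) (Y := Y) (sg := σ) (D := D0) (L := L0)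
        (X := max |Y - sy| w) hug hg1' hn1 hY0 hN.s0 ((abs_nonneg _).trans (le_max_left _ _))
        (by linarith) (by linarith) ⟨hN.a1, hN.a2, hN.ac, hN.c0, hN.say⟩ hN.syp hsL
        ((le_abs_self _).trans (le_max_left _ _))
        (((neg_sub Y sy).symm.le.trans (neg_le_abs _)).trans (le_max_left _ _)) ?_
        (m11 e3) (m12 e3) (mA hN.t2) (mE hN.t2) (fun hj1 => mO hj1 hN.t2)
      rcases le_total w |Y - sy| with h1 | h1
      · rw [max_eq_left h1]
        rcases abs_cases (Y - sy) with ⟨h2, _⟩ | ⟨h2, _⟩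
        · exact Or.inl h2
        · right; left; rw [h2]; ring
      · rw [max_eq_right h1]
        exact Or.inr (Or.inr hw)
    · rw [hge, Int.cast_zero] at hug
      have e1 := hN.d0
      have e2 := hN.dl0
      have e4 := hN.t2
      rw [max_eq_right hN.w0] at e4
      exact d.e1N (sg := σ) (D := D0) (L := L0) (X := w) hug hN.s0 hN.w0 hN.l0
        (e1.trans (min_le_left _ _)) (e1.trans (min_le_right _ _)) (by linarith) hw
        (m11 hN.v0) (m12 hN.v0) (mA e4) (mE e4) (fun hj1 => mO hj1 e4)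
    · rw [hge, Int.cast_zero] at hug
      have e1 := hN.d0
      have e2 := hN.dl0
      have hY : LY sy ay cy := ⟨hN.a1, hN.a2, hN.ac, hN.c0, hN.say⟩
      rcases le_total L0 sy with h1 | h1
      · exact xlEL hN.yR hN.im hY hN.syp e1 hN.l0 h1 hN.v0y hN.v0
      · have e3 := hN.v0
        rw [abs_of_nonneg (by linarith)] at e3
        have hsy0 : 0 ≤ sy := by linarith [hN.a1, hN.say]
        have e4 := hN.t2
        rw [zero_sub, abs_neg, abs_of_nonneg hsy0] at e4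
        refine d.e1L (sg := σ) (D := D0) (L := L0) (X := max sy w) hug hN.s0
          (hsy0.trans (le_max_left _ _)) e1 (by linarith) hY hN.syp h1 (le_max_left _ _) ?_
          (m11 e3) (m12 e3) (mA e4) (mE e4) (fun hj1 => mO hj1 e4)
        rcases le_total w sy with h2 | h2
        · exact Or.inl (max_eq_left h2)
        · rw [max_eq_right h2]
          exact Or.inr hw
  have hua : 0 ≤ ua := by linarith
  refine ⟨Yz, nb, hT2I, hT2A, by exact_mod_cast (show (0 : ℝ) ≤ (Yz : ℝ) by rw [hYz]; exact hY0),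
    by linarith, ?_, ?_⟩
  · -- second statement
    by_contra hc
    push Not at hc
    rcases hcase with ⟨hRne, hg1, hn1, ⟨hN, hw, hσ⟩ | ⟨sy, ay, cy, v, hN, hw, hsL, hsLw, hσ⟩⟩ |
      ⟨hRe, hge, hYe, hσ, ⟨hN, hw⟩ | ⟨sy, ay, cy, v, hN, hw⟩⟩
    · have e1 := hN.dw
      have e2 := hN.dlw
      exact d.rlRN (nb := nb) (D := Dw) (L := Lw) hua (by linarith) hN.lw hn1 (by linarith)
        (m11 hN.vw) (m12 hN.vw)
    · have e1 := hN.dw
      have e2 := hN.dlw
      have e3 := hN.vw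
      rw [abs_of_nonneg (by linarith)] at e3
      exact d.rlRL (nb := nb) (D := Dw) (L := Lw) hua (by linarith) hn1 (by linarith)
        ⟨hN.a1, hN.a2, hN.ac, hN.c0, hN.say⟩ hN.syp hsLw (m11 e3) (m12 e3)
        (m11a hN.yR hN.im hN.vwy)
    · rw [hge, Int.cast_zero] at hc
      have e1 := hN.dw
      have e2 := hN.dlw
      exact d.rlEN (D := Dw) (L := Lw) hua (by linarith) hN.lw (e1.trans (min_le_left _ _))
        (e1.trans (min_le_right _ _)) (m11 hN.vw) (m12 hN.vw)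
    · rw [hge, Int.cast_zero] at hc
      have e1 := hN.dw
      have e2 := hN.dlw
      have hY : LY sy ay cy := ⟨hN.a1, hN.a2, hN.ac, hN.c0, hN.say⟩
      rcases le_total Lw sy with h1 | h1
      · exact xlEL hN.yR hN.im hY hN.syp e1 hN.lw h1 hN.vwy hN.vw
      · have e3 := hN.vw
        rw [abs_of_nonneg (by linarith)] at e3
        exact d.rlEL (D := Dw) (L := Lw) hua (by linarith) e1 hY hN.syp h1 (m11 e3) (m12 e3)
          (m11a hN.yR hN.im hN.vwy)
  · rcases hcase with ⟨hRne, hg1, hn1, hcase⟩ | ⟨hRe, hge, hYe, hσ, -⟩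
    · refine Or.inl ⟨hRne, by exact_mod_cast hg1, hn1, hcard, ?_, fun y0 hy0 => ?_⟩
      · rw [hYz]
        by_contra hc
        push Not at hc
        rcases hcase with ⟨hN, hw, hσ⟩ | ⟨sy, ay, cy, v, hN, hw, hsL, hsLw, hσ⟩
        · have e1 := hN.d0
          have e2 := hN.dl0
          exact d.rlRN (nb := nb) (D := D0) (L := L0) hua (by linarith) hN.l0 hn1 (by linarith)
            (m11 hN.v0) (m12 hN.v0)
        · have e1 := hN.d0
          have e2 := hN.dl0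
          have e3 := hN.v0
          rw [abs_of_nonneg (by linarith)] at e3
          exact d.rlRL (nb := nb) (D := D0) (L := L0) hua (by linarith) hn1 (by linarith)
            ⟨hN.a1, hN.a2, hN.ac, hN.c0, hN.say⟩ hN.syp hsL (m11 e3) (m12 e3)
            (m11a hN.yR hN.im hN.v0y)
      · rw [hYz]
        exact hYb y0 hy0
    · refine Or.inr ⟨hRe, hge, ?_⟩
      have : (Yz : ℝ) = 0 := by rw [hYz, hYe]
      exact_mod_cast this

end

end Pool.Agent.Exact


end

section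

/-!
# The leaves 2a, 2c, 3c; minimum outdegree at least `k`
-/

set_option autoImplicit false
set_option linter.unusedSectionVars false
set_option linter.unusedVariables false

namespace Pool.Agent.Exact

open Finset

variable {V : Type*} [Fintype V] [DecidableEq V]
variable {B : V → V → ℤ} {Rl : Finset V} {ℓ nQ nP : ℕ} {uq up : ℕ → V} {q p : ℕ → ℝ}
variable {k : ℤ} {θ : ℝ}

section
variable (h : Ctx B Rl ℓ nQ nP uq up q p k θ)
include h

variable {i j : ℕ} {Rs S : Finset V} {g : ℤ} {Kc : V → Finset V} {pick : Finset V → V}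

/-- leaf 2a -/
theorem Ctx.m2a (hn : 2 * k - 1 ≤ (Rl.card : ℤ)) (hnv : ¬ Val B θ) (hi : i + 1 < ℓ) (hj : j < ℓ)
    (hpq : p 0 ≤ q 0 - 1)
    (hE : θ - MM B (uq 0) (up 0) < q (2 * i + 1) - q (2 * i + 2))
    (hD : θ < p (2 * j) - p (2 * j + 1))
    (hC : Closed B nQ nP uq up q p θ (2 * (i + 1)) (2 * j + 1))
    (hdec : Dec B pick (vs uq up (rr nQ nP (2 * (i + 1)) (2 * j + 1))) Rs S g Kc) :
    ∃ (Y : ℤ) (nb : ℝ), MxOut B nQ nP uq up q p θ i j Rs S g Y nb := by
  have hθ0 := h.θ0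
  have p1 := h.fr.pn (i := 2 * j + 1) (by omega)
  have p2 := h.fr.pa (i := 0) (j := 2 * j) (by omega) (by omega)
  have hp0 : 0 < p 0 := by linarith
  have hq0 : 0 < q 0 := by linarith
  have hqn := h.qle (i := 0) (by omega) hq0
  have hlam := h.lam2 hn
  obtain ⟨hz, -, -⟩ := h.Z1 hn hq0 (by linarith) hp0
  obtain ⟨y, u1, u2, ux, ua, al, v2, vb, be, hv⟩ := exists_lev q p i j θ
  exact h.mxMain hn hnv hi hj (by linarith) hp0 hz hC hv (Or.inl (h.mx2a hi hj hpq hE hD hv)) hdec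

/-- leaf 2c -/
theorem Ctx.m2c (hn : 2 * k - 1 ≤ (Rl.card : ℤ)) (hnv : ¬ Val B θ) (hi : i + 1 < ℓ) (hj : j < ℓ)
    (hpq : p 0 ≤ q 0 - 1)
    (hD : θ < p (2 * j) - p (2 * j + 1))
    (hA : AA q ℓ + AA p ℓ < 2 * (q 0 - θ) + 2 * MM B (uq 0) (up 0))
    (h1 : θ - 2 < q (2 * i + 1)) (h2 : q (2 * (i + 1)) ≤ θ - 2)
    (h3 : q (2 * (i + 1)) < p (2 * j) - p (2 * j + 1) - θ + 2)
    (hC : Closed B nQ nP uq up q p θ (2 * (i + 1)) (2 * j + 1))
    (hdec : Dec B pick (vs uq up (rr nQ nP (2 * (i + 1)) (2 * j + 1))) Rs S g Kc) :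
    ∃ (Y : ℤ) (nb : ℝ), MxOut B nQ nP uq up q p θ i j Rs S g Y nb := by
  have hθ0 := h.θ0
  have p1 := h.fr.pn (i := 2 * j + 1) (by omega)
  have p2 := h.fr.pa (i := 0) (j := 2 * j) (by omega) (by omega)
  have hp0 : 0 < p 0 := by linarith
  have hq0 : 0 < q 0 := by linarith
  have hqn := h.qle (i := 0) (by omega) hq0
  have hlam := h.lam2 hn
  obtain ⟨hz, -, -⟩ := h.Z1 hn hq0 (by linarith) hp0
  obtain ⟨y, u1, u2, ux, ua, al, v2, vb, be, hv⟩ := exists_lev q p i j θ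
  obtain ⟨hl, hc1, hc2, hc3⟩ := h.mx2c hi hj hpq hD hA h1 h2 h3 hv
  exact h.mxMain hn hnv hi hj (by linarith) hp0 hz hC hv
    (Or.inr (Or.inl ⟨hl, fun hi1 => h.mxlam3 hn hi hj hC.aQ hC.bP (by linarith) hp0 hz hv hl hi1,
      hc1, hc2, hc3⟩)) hdec

/-- leaf 3c -/
theorem Ctx.m3c (hn : 2 * k - 1 ≤ (Rl.card : ℤ)) (hnv : ¬ Val B θ) (hi : i + 1 < ℓ) (hj : j < ℓ)
    (hpq : p 0 ≤ q 0) (hlam : 3 < 2 * θ - (Rl.card : ℝ) + 1)
    (hz : q 0 + MM B (uq 0) (up 0) + 2 ≤ 2 * θ) (hp0 : θ < p 0)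
    (hA : 2 * θ < AA q ℓ + AA p ℓ)
    (hE : θ - MM B (uq 0) (up 0) < q (2 * i + 1) - q (2 * i + 2))
    (h1 : θ - (MM B (uq 0) (up 0) + 2) < p (2 * j))
    (h2 : p (2 * j + 1) ≤ θ - (MM B (uq 0) (up 0) + 2))
    (h3 : p (2 * j + 1) < q (2 * i + 1) - q (2 * i + 2) - θ + (MM B (uq 0) (up 0) + 2))
    (hC : Closed B nQ nP uq up q p θ (2 * (i + 1)) (2 * j + 1))
    (hdec : Dec B pick (vs uq up (rr nQ nP (2 * (i + 1)) (2 * j + 1))) Rs S g Kc) :
    ∃ (Y : ℤ) (nb : ℝ), MxOut B nQ nP uq up q p θ i j Rs S g Y nb := by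
  have hθ0 := h.θ0
  obtain ⟨y, u1, u2, ux, ua, al, v2, vb, be, hv⟩ := exists_lev q p i j θ
  exact h.mxMain hn hnv hi hj hpq (by linarith) hz hC hv
    (Or.inr (Or.inr (h.mx3c hi hj hlam hz hp0 hA hE h1 h2 h3 hv))) hdec

/-- the leaves 2a, 2c, 3c for minimum outdegree at least `k` -/
theorem Ctx.moMx (hn : 2 * k - 1 ≤ (Rl.card : ℤ)) (hout : ∀ v ∈ Rl, k ≤ ∑ u, B v u)
    (hi : i + 1 < ℓ) (hj : j < ℓ) (haQ : 2 * (i + 1) ≤ nQ) (hbP : 2 * j + 1 ≤ nP)
    (hdec : Dec B pick (vs uq up (rr nQ nP (2 * (i + 1)) (2 * j + 1))) Rs S g Kc)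
    (hpick : ∀ K : Finset V, K.Nonempty → pick K ∈ K ∧ ∀ u ∈ K, indg B K (pick K) ≤ indg B K u)
    (hq0 : θ ≤ q 0) (hqi : θ - 2 ≤ q (2 * i + 1)) {Y : ℤ} {nb : ℝ}
    (hM : MxOut B nQ nP uq up q p θ i j Rs S g Y nb) : False := by
  have hθ0 := h.θ0
  have h1 := hM.gp
  have hg0 : (0 : ℝ) ≤ (g : ℝ) := by exact_mod_cast hdec.g0
  have hcg : (Rs.card : ℝ) ≤ 2 * (g : ℝ) := by exact_mod_cast hdec.cg
  have h2 := h.moLow hn hout hi hj haQ hbP hdec hpick hq0 hqi (by linarith) hM.gam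
  linarith

/-- a decomposition of the rest -/
lemma Ctx.exDec {a b : ℕ} (pick : Finset V → V) (hpick : ∀ K : Finset V, K.Nonempty → pick K ∈ K) :
    ∃ (Rs S : Finset V) (g : ℤ) (Kc : V → Finset V),
      Dec B pick (vs uq up (rr nQ nP a b)) Rs S g Kc := by
  obtain ⟨Rs, S, g, Kc, hRS, hdS, hbl, hcg, hind, hbad, hKd⟩ :=
    exists_dec h.fr.sys.B0 h.fr.sys.B1 h.fr.sys.Bd pick hpick _
      (vs uq up (rr nQ nP a b)) rfl
  exact ⟨Rs, S, g, Kc, ⟨hRS, hdS, hcg, by omega, hind, hbad, hKd, hbl⟩⟩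

/-- **Leaf 2a**, minimum outdegree at least `k`. -/
theorem Ctx.mo2a (hn : 2 * k - 1 ≤ (Rl.card : ℤ)) (hnv : ¬ Val B θ)
    (hout : ∀ v ∈ Rl, k ≤ ∑ u, B v u) (hi : i + 1 < ℓ) (hj : j < ℓ)
    (hpq : p 0 ≤ q 0 - 1)
    (hE : θ - MM B (uq 0) (up 0) < q (2 * i + 1) - q (2 * i + 2))
    (hD : θ < p (2 * j) - p (2 * j + 1))
    (hC : Closed B nQ nP uq up q p θ (2 * (i + 1)) (2 * j + 1)) : False := by
  have : Nonempty V := ⟨uq 0⟩
  obtain ⟨pick, hpick⟩ := exists_pick B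
  obtain ⟨Rs, S, g, Kc, hdec⟩ := h.exDec (a := 2 * (i + 1)) (b := 2 * j + 1) pick
    (fun K hK => (hpick K hK).1)
  obtain ⟨Y, nb, hM⟩ := h.m2a hn hnv hi hj hpq hE hD hC hdec
  have e1 := h.fr.qn (i := 2 * i + 2) (by omega)
  have e2 := h.MM2 (uq 0) (up 0)
  exact h.moMx hn hout hi hj hC.aQ hC.bP hdec hpick (h.top hnv (by linarith)).le (by linarith) hM

/-- **Leaf 2c**, minimum outdegree at least `k`. -/
theorem Ctx.mo2c (hn : 2 * k - 1 ≤ (Rl.card : ℤ)) (hnv : ¬ Val B θ)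
    (hout : ∀ v ∈ Rl, k ≤ ∑ u, B v u) (hi : i + 1 < ℓ) (hj : j < ℓ)
    (hpq : p 0 ≤ q 0 - 1)
    (hD : θ < p (2 * j) - p (2 * j + 1))
    (hA : AA q ℓ + AA p ℓ < 2 * (q 0 - θ) + 2 * MM B (uq 0) (up 0))
    (h1 : θ - 2 < q (2 * i + 1)) (h2 : q (2 * (i + 1)) ≤ θ - 2)
    (h3 : q (2 * (i + 1)) < p (2 * j) - p (2 * j + 1) - θ + 2)
    (hC : Closed B nQ nP uq up q p θ (2 * (i + 1)) (2 * j + 1)) : False := by
  have : Nonempty V := ⟨uq 0⟩
  obtain ⟨pick, hpick⟩ := exists_pick B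
  obtain ⟨Rs, S, g, Kc, hdec⟩ := h.exDec (a := 2 * (i + 1)) (b := 2 * j + 1) pick
    (fun K hK => (hpick K hK).1)
  obtain ⟨Y, nb, hM⟩ := h.m2c hn hnv hi hj hpq hD hA h1 h2 h3 hC hdec
  exact h.moMx hn hout hi hj hC.aQ hC.bP hdec hpick (h.top hnv (by linarith)).le (by linarith) hM

/-- **Leaf 3c**, minimum outdegree at least `k`. -/
theorem Ctx.mo3c (hn : 2 * k - 1 ≤ (Rl.card : ℤ)) (hnv : ¬ Val B θ)
    (hout : ∀ v ∈ Rl, k ≤ ∑ u, B v u) (hi : i + 1 < ℓ) (hj : j < ℓ)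
    (hpq : p 0 ≤ q 0) (hlam : 3 < 2 * θ - (Rl.card : ℝ) + 1)
    (hz : q 0 + MM B (uq 0) (up 0) + 2 ≤ 2 * θ) (hp0 : θ < p 0)
    (hA : 2 * θ < AA q ℓ + AA p ℓ)
    (hE : θ - MM B (uq 0) (up 0) < q (2 * i + 1) - q (2 * i + 2))
    (h1 : θ - (MM B (uq 0) (up 0) + 2) < p (2 * j))
    (h2 : p (2 * j + 1) ≤ θ - (MM B (uq 0) (up 0) + 2))
    (h3 : p (2 * j + 1) < q (2 * i + 1) - q (2 * i + 2) - θ + (MM B (uq 0) (up 0) + 2))
    (hC : Closed B nQ nP uq up q p θ (2 * (i + 1)) (2 * j + 1)) : False := by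
  have : Nonempty V := ⟨uq 0⟩
  obtain ⟨pick, hpick⟩ := exists_pick B
  obtain ⟨Rs, S, g, Kc, hdec⟩ := h.exDec (a := 2 * (i + 1)) (b := 2 * j + 1) pick
    (fun K hK => (hpick K hK).1)
  obtain ⟨Y, nb, hM⟩ := h.m3c hn hnv hi hj hpq hlam hz hp0 hA hE h1 h2 h3 hC hdec
  have e1 := h.fr.qn (i := 2 * i + 2) (by omega)
  have e2 := h.MM2 (uq 0) (up 0)
  exact h.moMx hn hout hi hj hC.aQ hC.bP hdec hpick (h.top hnv hpq).le (by linarith) hM

end

end Pool.Agent.Exact


end
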