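import Mathlib
import Pool.Agent.EXAM.C08
import Pool.Agent.EXAM.C09
import Pool.Agent.EXAM.C14
import Pool.Agent.EXAM.C17
import Pool.Agent.EXAM.C19
import Pool.Agent.EXAM.C24

/-! Parts: Lib_helper23.Exact.Leafs, Lib_helper43.NC.MxAll -/

section

/-!
# From the mixed leaves to all leaves
-/

set_option autoImplicit false
set_option linter.unusedSectionVars false

namespace Pool.Agent.Exact

open Finset

/-- the mixed leaves -/
inductive MixC {V : Type} [Fintype V] [DecidableEq V] (B : V → V → ℤ) (n : ℝ) (ℓ nQ nP : ℕ)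
    (uq up : ℕ → V) (q p : ℕ → ℝ) (θ : ℝ) : Prop
  | c2a (i j : ℕ) (hi : i + 1 < ℓ) (hj : j < ℓ) (hpq : p 0 ≤ q 0 - 1)
      (hQ : ∀ l < ℓ, q (2 * l) - q (2 * l + 1) ≤ θ)
      (hE : θ - MM B (uq 0) (up 0) < q (2 * i + 1) - q (2 * i + 2))
      (hD : θ < p (2 * j) - p (2 * j + 1))
      (hC : Closed B nQ nP uq up q p θ (2 * (i + 1)) (2 * j + 1)) : MixC B n ℓ nQ nP uq up q p θ
  | c2c (i j : ℕ) (hi : i + 1 < ℓ) (hj : j < ℓ) (hpq : p 0 ≤ q 0 - 1)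
      (hQ : ∀ l < ℓ, q (2 * l) - q (2 * l + 1) ≤ θ)
      (hD : θ < p (2 * j) - p (2 * j + 1))
      (hA : AA q ℓ + AA p ℓ < 2 * (q 0 - θ) + 2 * MM B (uq 0) (up 0))
      (h1 : θ - 2 < q (2 * i + 1)) (h2 : q (2 * (i + 1)) ≤ θ - 2)
      (h3 : q (2 * (i + 1)) < p (2 * j) - p (2 * j + 1) - θ + 2)
      (hC : Closed B nQ nP uq up q p θ (2 * (i + 1)) (2 * j + 1)) : MixC B n ℓ nQ nP uq up q p θ
  | c3c (i l : ℕ) (hi : i + 1 < ℓ) (hl : l < ℓ) (hlam : 3 < 2 * θ - n + 1)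
      (hz : q 0 + MM B (uq 0) (up 0) + 2 ≤ 2 * θ) (hp0 : θ < p 0)
      (hQ : ∀ l < ℓ, q (2 * l) - q (2 * l + 1) ≤ θ)
      (hP : ∀ l < ℓ, p (2 * l) - p (2 * l + 1) ≤ θ)
      (hA : 2 * θ < AA q ℓ + AA p ℓ)
      (hE : θ - MM B (uq 0) (up 0) < q (2 * i + 1) - q (2 * i + 2))
      (h1 : θ - (MM B (uq 0) (up 0) + 2) < p (2 * l))
      (h2 : p (2 * l + 1) ≤ θ - (MM B (uq 0) (up 0) + 2))
      (h3 : p (2 * l + 1) < q (2 * i + 1) - q (2 * i + 2) - θ + (MM B (uq 0) (up 0) + 2))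
      (hC : Closed B nQ nP uq up q p θ (2 * (i + 1)) (2 * l + 1)) : MixC B n ℓ nQ nP uq up q p θ

/-- only the mixed leaves are left -/
theorem Ctx.pure {V : Type} [Fintype V] [DecidableEq V] {B : V → V → ℤ} {Rl : Finset V}
    {ℓ nQ nP : ℕ} {uq up : ℕ → V} {q p : ℕ → ℝ} {k : ℤ} {θ : ℝ}
    (h : Ctx B Rl ℓ nQ nP uq up q p k θ) (hn : 2 * k - 1 ≤ (Rl.card : ℤ)) (hnv : ¬ Val B θ)
    (hpq : p 0 ≤ q 0) (hL : LeafC B Rl.card ℓ nQ nP uq up q p θ) :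
    MixC B Rl.card ℓ nQ nP uq up q p θ := by
  rcases hL with ⟨i, hi, hD, hp, -⟩ | ⟨i, j, hi, hj, hp, hD, hE, hC⟩ |
    ⟨i, r, hi, hr, hp, hD, hA, hh, hp1, hp2, hC⟩ | ⟨i, j, hi, hj, hpq1, hQ, hE, hD, hC⟩ |
    ⟨i, j, hi, hj, hpq1, hQ, hD, hA, h1, h2, h3, hC⟩ |
    ⟨j, l, hj, hl, hlam, hz, hQ, hP, hA, hE, h1, h2, h3, hC⟩ |
    ⟨i, l, hi, hl, hlam, hz, hp0, hQ, hP, hA, hE, h1, h2, h3, hC⟩
  · rcases h.deg with hout | hin
    · exact absurd (h.L1out hn hnv hpq hout hi hD hp) not_false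
    · exact absurd (h.L1in hn hnv hpq hin hi hD hp) not_false
  · rcases h.deg with hout | hin
    · exact absurd (h.po1a hn hnv hpq hout hi hj hD hE hC) not_false
    · exact absurd (h.pi1a hn hnv hpq hin hi hj hD hE hC) not_false
  · rcases h.deg with hout | hin
    · exact absurd (h.po1c hn hnv hpq hout hi hr hp hD hA hh hp2 hC) not_false
    · exact absurd (h.pi1c hn hnv hpq hin hi hr hp hD hh hp2 hC) not_false
  · exact .c2a i j hi hj hpq1 hQ hE hD hC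
  · exact .c2c i j hi hj hpq1 hQ hD hA h1 h2 h3 hC
  · rcases h.deg with hout | hin
    · exact absurd (h.po3b hn hnv hpq hout hj hl hlam hz hQ hP hA hE h1 h2 h3 hC) not_false
    · exact absurd (h.pi3b hn hnv hpq hin hj hl hlam hE h1 h3 hC) not_false
  · exact .c3c i l hi hl hlam hz hp0 hQ hP hA hE h1 h2 h3 hC

/-- the mixed leaves are good -/
def MixedOK : Prop := ∀ (V : Type) [Fintype V] [DecidableEq V] (B : V → V → ℤ) (Rl : Finset V)
  (ℓ nQ nP : ℕ) (uq up : ℕ → V) (q p : ℕ → ℝ) (k : ℤ) (θ : ℝ), Ctx B Rl ℓ nQ nP uq up q p k θ →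
  2 * k - 1 ≤ (Rl.card : ℤ) → p 0 ≤ q 0 → ¬ Val B θ → MixC B Rl.card ℓ nQ nP uq up q p θ → False

theorem leafsOK (H : MixedOK) : LeafsOK := by
  intro V _ _ B Rl ℓ nQ nP uq up q p k θ h hn hpq hL
  by_contra hnv
  exact H V B Rl ℓ nQ nP uq up q p k θ h hn hpq hnv (h.pure hn hnv hpq hL)

/-- **The exact value of the constant, if the mixed leaves are good.** -/
theorem c_exact_of_mixed (H : MixedOK) (k : ℕ) (hk : 1 ≤ k) :
    Judicious.c k = ((k : ℝ) - 1) / (2 * (2 * k - 1)) := c_exact (leafsOK H) k hk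

end Pool.Agent.Exact


end

section

/-!
# All leaves with hubs of both types, and the exact value of the constant
-/

set_option autoImplicit false

namespace Pool.Agent.Exact

open Finset

/-- the leaves with hubs of both types are good -/
theorem mixedOK : MixedOK := by
  intro V _ _ B Rl ℓ nQ nP uq up q p k θ h hn hpq hnv hM
  have : Nonempty V := ⟨uq 0⟩
  obtain ⟨pick, hpick⟩ := exists_pick B
  rcases hM with ⟨i, j, hi, hj, hpq1, hQ, hE, hD, hC⟩ |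
    ⟨i, j, hi, hj, hpq1, hQ, hD, hA, h1, h2, h3, hC⟩ |
    ⟨i, l, hi, hl, hlam, hz, hp0, hQ, hP, hA, hE, h1, h2, h3, hC⟩
  · rcases h.deg with hout | hin
    · exact h.mo2a hn hnv hout hi hj hpq1 hE hD hC
    · obtain ⟨Rs, S, g, Kc, hdec⟩ := h.exDec (a := 2 * (i + 1)) (b := 2 * j + 1) pick
        (fun K hK => (hpick K hK).1)
      obtain ⟨Y, nb, hM⟩ := h.m2a hn hnv hi hj hpq1 hE hD hC hdec
      rcases hM.rs with ⟨-, -, hnb, -, hT, -⟩ | ⟨-, -, hY⟩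
      · exact h.mi2a hn hnv hpq hin hi hj hE hD hC.aQ hC.bP hdec hM.t2a
          (show (0 : ℝ) ≤ nb by linarith) hM.gp hM.gam (Or.inl hT)
      · exact h.mi2a hn hnv hpq hin hi hj hE hD hC.aQ hC.bP hdec hM.t2a le_rfl hM.gp hM.gam
          (Or.inr hY.le)
  · rcases h.deg with hout | hin
    · exact h.mo2c hn hnv hout hi hj hpq1 hD hA h1 h2 h3 hC
    · obtain ⟨Rs, S, g, Kc, hdec⟩ := h.exDec (a := 2 * (i + 1)) (b := 2 * j + 1) pick
        (fun K hK => (hpick K hK).1)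
      obtain ⟨Y, nb, hM⟩ := h.m2c hn hnv hi hj hpq1 hD hA h1 h2 h3 hC hdec
      rcases hM.rs with ⟨-, -, hnb, -, hT, -⟩ | ⟨-, -, hY⟩
      · exact h.mi2c hn hnv hpq hin hi hj hD h1 h3 hC.aQ hC.bP hdec hM.t2a
          (show (0 : ℝ) ≤ nb by linarith) hM.gp hM.gam (Or.inl hT)
      · exact h.mi2c hn hnv hpq hin hi hj hD h1 h3 hC.aQ hC.bP hdec hM.t2a le_rfl hM.gp hM.gam
          (Or.inr hY.le)
  · rcases h.deg with hout | hin
    · exact h.mo3c hn hnv hout hi hl hpq hlam hz hp0 hA hE h1 h2 h3 hC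
    · obtain ⟨Rs, S, g, Kc, hdec⟩ := h.exDec (a := 2 * (i + 1)) (b := 2 * l + 1) pick
        (fun K hK => (hpick K hK).1)
      obtain ⟨Y, nb, hM⟩ := h.m3c hn hnv hi hl hpq hlam hz hp0 hA hE h1 h2 h3 hC hdec
      rcases hM.rs with ⟨-, -, hnb, -, hT, -⟩ | ⟨-, -, hY⟩
      · exact h.mi3c hn hnv hpq hin hi hl hE h3 hC.aQ hC.bP hdec hM.t2a
          (show (0 : ℝ) ≤ nb by linarith) hM.gp hM.gam (Or.inl hT)
      · exact h.mi3c hn hnv hpq hin hi hl hE h3 hC.aQ hC.bP hdec hM.t2a le_rfl hM.gp hM.gam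
          (Or.inr hY.le)

/-- **The exact value of the constant.** -/
theorem c_exact_all (k : ℕ) (hk : 1 ≤ k) :
    Judicious.c k = ((k : ℝ) - 1) / (2 * (2 * k - 1)) := c_exact_of_mixed mixedOK k hk

end Pool.Agent.Exact


end
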